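import Pool.Agent.helper31.IC.EngD
import Pool.Agent.helper14.QF.Inst

/-!
Generated: straight line program(s) and compiled form(s).
-/

namespace Pool.Agent.helper71.FG.Crt.L

open Pool.Agent.helper31.IA (Z Op)
open Pool.Agent.helper31.IC

set_option maxRecDepth 100000

abbrev opsE : Ops := Pool.Agent.helper14.QF.opsF

def prog0 : List Op := [
  .const ⟨1099511627776, 0, 0, 0⟩,
  .const ⟨549755813888, 0, 0, 0⟩,
  .mul 3 4,
  .mul 0 6,
  .scale ⟨549755813888, 0, 0, 0⟩ 0,
  .mul 7 7,
  .mul 1 1,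
  .sub 6 0,
  .inv 0,
  .mul 4 0,
  .scale ⟨2199023255552, 0, 0, 0⟩ 0,
  .scale ⟨2199023255552, 0, 0, 0⟩ 2,
  .sub 0 11,
  .add 0 2,
  .mul 17 5,
  .mul 17 0,
  .sub 15 0,
  .add 16 1,
  .scale ⟨10774999203840, 0, 0, 0⟩ 13,
  .scale ⟨45768245248, 0, 0, 0⟩ 0,
  .const ⟨183207198720, 0, 0, 0⟩,
  .add 1 0,
  .mul 3 0,
  .add 21 0,
  .mul 5 0,
  .add 24 0,
  .mul 7 0,
  .scale ⟨549755813888, 0, 0, 0⟩ 0,
  .add 27 0,
  .mul 3 0,
  .mul 31 24,
  .mul 20 15,
  .scale ⟨2199023255552, 0, 0, 0⟩ 19,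
  .add 1 0,
  .add 0 35,
  .mul 4 0,
  .add 0 35,
  .mul 26 26,
  .scale ⟨2199023255552, 0, 0, 0⟩ 0,
  .add 0 38,
  .mul 27 5,
  .sub 0 40,
  .log 5,
  .scale ⟨549755813888, 0, 0, 0⟩ 0,
  .exp 0,
  .scale ⟨549755813888, 0, 0, 0⟩ 45,
  .mul 0 3,
  .neg 0,
  .exp 0,
  .mul 36 18,
  .mul 0 8,
  .scale ⟨4398046511104, 0, 0, 0⟩ 0,
  .add 0 51,
  .log 0,
  .sub 0 11,
  .mul 9 0,
  .neg 0,
  .exp 0,
  .mul 42 47,
  .add 46 0,
  .inv 0,
  .mul 43 0,
  .mul 45 63,
  .mul 0 1,
  .mul 49 49,
  .sub 64 59,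
  .mul 1 0,
  .mul 64 64,
  .add 55 37,
  .inv 0,
  .mul 0 70,
  .mul 0 68,
  .mul 0 0,
  .sub 72 8,
  .mul 8 0,
  .mul 2 0,
  .inv 76,
  .const ⟨45812285440, 0, 0, 0⟩,
  .scale ⟨1527119872, 0, 0, 0⟩ 2,
  .sub 1 0,
  .mul 4 0,
  .sub 79 0,
  .mul 6 0,
  .sub 82 0,
  .add 35 83,
  .mul 36 36,
  .add 0 85,
  .mul 38 3,
  .scale ⟨2199023255552, 0, 0, 0⟩ 0,
  .add 2 0,
  .inv 5,
  .mul 1 0,
  .add 0 7,
  .mul 44 29,
  .scale ⟨549755813888, 0, 0, 0⟩ 0,
  .mul 0 2,
  .sub 6 0,
  .pos 7,
  .pos 0,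
  .inv 0,
  .mul 52 63,
  .const ⟨6597069766656, 0, 0, 0⟩,
  .add 64 0,
  .mul 2 0,
  .scale ⟨4398046511104, 0, 0, 0⟩ 66,
  .add 0 3,
  .inv 0,
  .mul 3 0,
  .mul 75 0,
  .scale ⟨2199023255552, 0, 0, 0⟩ 0,
  .scale ⟨183274307584, 0, 0, 0⟩ 0,
  .sub 107 0,
  .mul 2 0,
  .sub 110 0,
  .mul 6 0,
  .mul 0 15,
  .mul 83 0,
  .add 0 113,
  .inv 0,
  .mul 3 0,
  .mul 87 0,
  .mul 24 4,
  .add 0 118,
  .mul 0 28,
  .inv 32,
  .mul 1 0,
  .mul 60 5,
  .scale ⟨549755813888, 0, 0, 0⟩ 0,
  .sub 125 0,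
  .sub 126 2,
  .inv 0,
  .mul 2 0,
  .add 5 129,
  .mul 82 0,
  .mul 115 114,
  .add 120 134,
  .mul 118 121,
  .mul 0 124,
  .scale ⟨2199023255552, 0, 0, 0⟩ 0,
  .add 97 0,
  .mul 4 0,
  .inv 0,
  .mul 7 0,
  .mul 142 0,
  .inv 105,
  .mul 67 0,
  .scale ⟨1527119872, 0, 0, 0⟩ 0,
  .sub 67 0,
  .mul 2 0,
  .sub 145 0,
  .mul 4 0,
  .sub 148 0,
  .add 92 149,
  .mul 93 93,
  .add 0 151,
  .mul 95 3,
  .scale ⟨2199023255552, 0, 0, 0⟩ 0,
  .add 2 0,
  .inv 5,
  .mul 1 0,
  .add 0 7,
  .mul 101 17,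
  .scale ⟨549755813888, 0, 0, 0⟩ 0,
  .mul 0 2,
  .sub 6 0,
  .pos 7,
  .pos 0,
  .sub 162 105,
  .mul 0 13,
  .inv 2,
  .mul 1 0,
  .scale ⟨549755813888, 0, 0, 0⟩ 0,
  .add 0 166,
  .inv 0,
  .mul 2 0,
  .mul 29 0,
  .add 167 171,
  .inv 0,
  .mul 169 0,
  .scale ⟨2199023255552, 0, 0, 0⟩ 0,
  .sub 175 0,
  .sub 176 172,
  .mul 181 4,
  .mul 0 2,
  .add 162 0,
  .mul 181 170,
  .scale ⟨137438953472, 0, 0, 0⟩ 0,
  .add 0 181,
  .inv 0,
  .mul 185 0,
  .scale ⟨274877906944, 0, 0, 0⟩ 0,
  .scale ⟨549755813888, 0, 0, 0⟩ 5,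
  .const ⟨2199023255552, 0, 0, 0⟩,
  .add 1 0,
  .mul 0 113,
  .scale ⟨224412041216, 0, 0, 0⟩ 182,
  .inv 162,
  .mul 1 0,
  .mul 7 176,
  .mul 0 1,
  .mul 193 0,
  .sub 196 0,
  .inv 0,
  .mul 67 2,
  .sub 199 0,
  .inv 0,
  .add 20 13,
  .inv 0,
  .mul 187 204,
  .mul 0 206,
  .mul 0 2,
  .scale ⟨549755813888, 0, 0, 0⟩ 0,
  .sub 207 0,
  .sub 208 2,
  .inv 0,
  .mul 2 0,
  .mul 0 8,
  .mul 0 213,
  .mul 215 199,
  .mul 0 1,
  .mul 9 4,
  .mul 202 3,
  .pos 8,
  .mul 1 141,
  .scale ⟨1374389534720, 0, 0, 0⟩ 0,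
  .sub 218 0,
  .pos 0,
  .scale ⟨3092376453120, 0, 0, 0⟩ 2,
  .add 0 33,
  .mul 4 0,
  .add 223 0,
  .scale ⟨1546188226560, 0, 0, 0⟩ 6,
  .add 0 225,
  .mul 8 0,
  .add 227 0,
  .mul 224 214,
  .sub 229 163,
  .mul 226 215,
  .scale ⟨2199023255552, 0, 0, 0⟩ 0,
  .sub 2 0,
  .mul 4 4,
  .add 1 0,
  .add 0 235,
  .scale ⟨549755813888, 0, 0, 0⟩ 0,
  .scale ⟨549755813888, 0, 0, 0⟩ 207,
  .sub 230 0,
  .mul 172 9,
  .mul 0 233,
  .scale ⟨137438953472, 0, 0, 0⟩ 0,
  .add 3 0,
  .mul 6 0,
  .mul 228 183,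
  .mul 0 243,
  .mul 0 129,
  .mul 0 118,
  .mul 246 0,
  .add 118 249,
  .mul 0 52,
  .mul 120 50,
  .add 1 0,
  .mul 57 0,
  .add 5 0,
  .mul 0 179,
  .mul 6 60,
  .mul 0 59,
  .add 9 0,
  .mul 0 183,
  .scale ⟨223338299392, 0, 0, 0⟩ 0,
  .add 260 0,
  .mul 2 0,
  .add 263 0,
  .scale ⟨893353197568, 0, 0, 0⟩ 8,
  .add 265 0,
  .mul 10 0,
  .add 267 0,
  .mul 93 90,
  .mul 0 45,
  .mul 0 2,
  .mul 27 7,
  .add 228 271,
  .mul 2 0,
  .add 2 0,
  .add 231 275,
  .mul 5 0,
  .mul 49 1,
  .mul 0 100,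
  .mul 0 102,
  .mul 278 100,
  .inv 237,
  .mul 1 0,
  .scale ⟨549755813888, 0, 0, 0⟩ 0,
  .mul 223 282,
  .mul 0 168,
  .mul 0 157,
  .mul 271 3,
  .mul 13 1,
  .mul 9 74,
  .add 1 0,
  .mul 0 215,
  .add 4 0,
  .mul 18 43,
  .mul 0 96,
  .mul 18 164,
  .mul 0 95,
  .add 2 0,
  .mul 0 222,
  .mul 283 6,
  .mul 105 1,
  .add 1 0,
  .mul 235 0,
  .mul 0 21,
  .sub 304 0,
  .inv 0,
  .mul 4 0,
  .mul 309 0,
  .mul 241 1,
  .mul 0 27,
  .sub 310 0,
  .mul 270 0,
  .sub 0 4,
  .inv 0,
  .mul 6 0,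
  .sub 315 7,
  .inv 0,
  .mul 254 200,
  .mul 0 189,
  .add 214 0,
  .mul 0 3,
  .mul 0 12,
  .scale ⟨223338299392, 0, 0, 0⟩ 0,
  .add 322 0,
  .mul 2 0,
  .add 325 0,
  .mul 4 0,
  .mul 0 204,
  .mul 0 197,
  .sub 329 0,
  .mul 9 4,
  .mul 0 25,
  .mul 0 256,
  .inv 3,
  .mul 1 0,
  .mul 0 338,
  .mul 61 138,
  .mul 60 214,
  .mul 0 207,
  .mul 0 138,
  .add 3 0,
  .mul 5 0,
  .mul 67 281,
  .mul 341 230,
  .mul 1 0,
  .mul 0 216,
  .mul 160 344,
  .mul 0 330,
  .mul 0 332,
  .const ⟨3298534883328, 0, 0, 0⟩,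
  .const ⟨5497558138880, 0, 0, 0⟩,
  .inv 0,
  .mul 2 0,
  .mul 18 163,
  .mul 0 357,
  .inv 338,
  .mul 1 0,
  .mul 358 234,
  .mul 0 342,
  .mul 362 179,
  .mul 0 78,
  .scale ⟨549755813888, 0, 0, 0⟩ 0,
  .mul 3 0,
  .mul 20 366,
  .mul 0 251,
  .mul 0 236,
  .add 3 0,
  .mul 244 87,
  .mul 0 151,
  .add 2 0,
  .mul 13 0,
  .mul 359 330,
  .scale ⟨4398046511104, 0, 0, 0⟩ 0,
  .sub 0 339,
  .mul 369 0,
  .mul 0 233,
  .mul 377 0,
  .mul 379 1,
  .add 0 190,
  .inv 0,
  .mul 3 0,
  .mul 383 0,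
  .scale ⟨549755813888, 0, 0, 0⟩ 0,
  .sub 383 0,
  .mul 3 0,
  .neg 0,
  .mul 246 216,
  .add 1 0,
  .mul 2 1,
  .mul 391 0,
  .add 2 0,
  .mul 346 15,
  .add 221 392,
  .mul 6 0,
  .add 2 0,
  .mul 80 0,
  .mul 398 0,
  .scale ⟨687194767360, 0, 0, 0⟩ 0,
  .add 398 0,
  .mul 3 0,
  .add 9 0,
  .mul 10 1,
  .mul 404 0,
  .add 2 0,
  .mul 407 408,
  .mul 0 233,
  .mul 0 398,
  .add 3 0,
  .mul 4 1,
  .mul 411 0,
  .add 2 0,
  .mul 406 377,
  .mul 414 0,
  .scale ⟨412316860416, 0, 0, 0⟩ 0,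
  .sub 413 0,
  .mul 3 0,
  .neg 0,
  .add 6 0,
  .mul 7 1,
  .mul 421 0,
  .add 2 0,
  .mul 424 114,
  .mul 0 66,
  .add 2 0,
  .mul 3 1,
  .mul 427 0,
  .add 2 0,
  .mul 255 410,
  .mul 0 75,
  .sub 2 0,
  .mul 432 1,
  .add 431 0,
  .inv 0,
  .mul 3 0,
  .mul 437 432,
  .mul 0 128,
  .sub 392 127,
  .inv 0,
  .mul 2 0,
  .add 5 0,
  .mul 6 1,
  .mul 443 0,
  .add 2 0,
  .mul 445 0,
  .add 444 0,
  .mul 103 249,
  .mul 448 97,
  .mul 76 0,
  .add 2 0,
  .mul 0 4,
  .add 7 0,
  .add 0 109,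
  .add 0 81,
  .neg 0,
  .const ⟨1073741824, 0, 0, 0⟩,
  .sub 1 0,
  .sub 443 456,
  .add 0 269,
  .scale ⟨2199023255552, 0, 0, 0⟩ 105,
  .sub 1 0,
  .mul 288 0,
  .mul 4 2,
  .add 0 462,
  .inv 0,
  .mul 3 0,
  .mul 279 166,
  .scale ⟨549755813888, 0, 0, 0⟩ 273,
  .add 457 0,
  .mul 2 0,
  .scale ⟨2199023255552, 0, 0, 0⟩ 0,
  .add 177 0,
  .scale ⟨2199023255552, 0, 0, 0⟩ 0,
  .mul 0 166,
  .mul 471 166,
  .sub 457 0,
  .inv 0,
  .mul 3 0,
  .sub 12 0,
  .pos 281,
  .pos 278,
  .scale ⟨2199023255552, 0, 0, 0⟩ 175,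
  .sub 435 0,
  .pos 0,
  .pos 167,
  .pos 353,
  .sub 479 309,
  .pos 0,
  .scale ⟨687194767360, 0, 0, 0⟩ 481,
  .sub 0 222,
  .pos 0,
  .scale ⟨377957122048, 0, 0, 0⟩ 483,
  .sub 0 228,
  .pos 0,
  .pos 10,
  .sub 484 88,
  .pos 0,
  .pos 170,
  .pos 156,
  .sub 4 164,
  .pos 0,
  .mul 306 306,
  .const ⟨14293651161088, 0, 0, 0⟩,
  .const ⟨10995116277760, 0, 0, 0⟩,
  .inv 0,
  .mul 2 0,
  .mul 4 0,
  .const ⟨27487790694400, 0, 0, 0⟩,
  .add 1 0,
  .mul 66 62,
  .sub 464 498,
  .sub 0 466,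
  .scale ⟨2199023255552, 0, 0, 0⟩ 496,
  .add 0 190,
  .mul 501 0,
  .mul 6 5,
  .mul 196 1,
  .mul 427 212,
  .mul 499 0,
  .mul 488 319,
  .mul 0 207,
  .mul 477 0,
  .add 3 0,
  .mul 510 0,
  .mul 7 0,
  .sub 9 0,
  .scale ⟨549755813888, 0, 0, 0⟩ 38,
  .add 513 0,
  .mul 208 0,
  .mul 517 499,
  .mul 0 336,
  .mul 500 473,
  .inv 0,
  .mul 2 0,
  .mul 5 0,
  .sub 23 0,
  .mul 329 10,
  .sub 523 330,
  .mul 519 2,
  .mul 1 0,
  .mul 31 0,
  .add 4 0,
  .pos 50,
  .pos 72,
  .pos 0,
  .pos 6]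

def chk0 {α : Type} (cst : Z → α) (add sub mul : α → α → α) (scale : Z → α → α)
    (neg inv exp log : α → α) (ok : α → Bool) (isPos : Nat → α → Bool) (isLt : α → Nat → Bool) :
    List α → Bool
  | [x0, x1, x2, x3] =>
  let v0 := cst ⟨1099511627776, 0, 0, 0⟩; ok v0 && (
  let v1 := cst ⟨549755813888, 0, 0, 0⟩; ok v1 && (
  let v2 := mul x1 x2; ok v2 && (
  let v3 := mul v2 x3; ok v3 && (
  let v4 := scale ⟨549755813888, 0, 0, 0⟩ v3; ok v4 && (
  let v5 := mul x2 x2; ok v5 && (
  let v6 := mul v4 v4; ok v6 && (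
  let v7 := sub v0 v6; ok v7 && (
  let v8 := inv v7; ok v8 && (
  let v9 := mul v4 v8; ok v9 && (
  let v10 := scale ⟨2199023255552, 0, 0, 0⟩ v9; ok v10 && (
  let v11 := scale ⟨2199023255552, 0, 0, 0⟩ v8; ok v11 && (
  let v12 := sub v11 v0; ok v12 && (
  let v13 := add v12 v10; ok v13 && (
  let v14 := mul x3 v8; ok v14 && (
  let v15 := mul x2 v14; ok v15 && (
  let v16 := sub v0 v15; ok v16 && (
  let v17 := add v0 v15; ok v17 && (
  let v18 := scale ⟨10774999203840, 0, 0, 0⟩ v4; ok v18 && (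
  let v19 := scale ⟨45768245248, 0, 0, 0⟩ v18; ok v19 && (
  let v20 := cst ⟨183207198720, 0, 0, 0⟩; ok v20 && (
  let v21 := add v19 v20; ok v21 && (
  let v22 := mul v18 v21; ok v22 && (
  let v23 := add v1 v22; ok v23 && (
  let v24 := mul v18 v23; ok v24 && (
  let v25 := add v0 v24; ok v25 && (
  let v26 := mul v18 v25; ok v26 && (
  let v27 := scale ⟨549755813888, 0, 0, 0⟩ v26; ok v27 && (
  let v28 := add v0 v27; ok v28 && (
  let v29 := mul v25 v28; ok v29 && (
  let v30 := mul x1 v5; ok v30 && (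
  let v31 := mul v10 v15; ok v31 && (
  let v32 := scale ⟨2199023255552, 0, 0, 0⟩ v12; ok v32 && (
  let v33 := add v31 v32; ok v33 && (
  let v34 := add v33 x1; ok v34 && (
  let v35 := mul v30 v34; ok v35 && (
  let v36 := add v35 v0; ok v36 && (
  let v37 := mul v10 v10; ok v37 && (
  let v38 := scale ⟨2199023255552, 0, 0, 0⟩ v37; ok v38 && (
  let v39 := add v38 v0; ok v39 && (
  let v40 := mul v12 v34; ok v40 && (
  let v41 := sub v40 v0; ok v41 && (
  let v42 := log v36; ok v42 && (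
  let v43 := scale ⟨549755813888, 0, 0, 0⟩ v42; ok v43 && (
  let v44 := exp v43; ok v44 && (
  let v45 := scale ⟨549755813888, 0, 0, 0⟩ x0; ok v45 && (
  let v46 := mul v45 v42; ok v46 && (
  let v47 := neg v46; ok v47 && (
  let v48 := exp v47; ok v48 && (
  let v49 := mul v12 v30; ok v49 && (
  let v50 := mul v49 v41; ok v50 && (
  let v51 := scale ⟨4398046511104, 0, 0, 0⟩ v50; ok v51 && (
  let v52 := add v51 v0; ok v52 && (
  let v53 := log v52; ok v53 && (
  let v54 := sub v53 v42; ok v54 && (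
  let v55 := mul v45 v54; ok v55 && (
  let v56 := neg v55; ok v56 && (
  let v57 := exp v56; ok v57 && (
  let v58 := mul v15 v10; ok v58 && (
  let v59 := add v12 v58; ok v59 && (
  let v60 := inv v59; ok v60 && (
  let v61 := mul v17 v60; ok v61 && (
  let v62 := mul v16 x1; ok v62 && (
  let v63 := mul v62 v61; ok v63 && (
  let v64 := mul v14 v14; ok v64 && (
  let v65 := sub v0 v5; ok v65 && (
  let v66 := mul v64 v65; ok v66 && (
  let v67 := mul v2 v2; ok v67 && (
  let v68 := add v12 v30; ok v68 && (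
  let v69 := inv v68; ok v69 && (
  let v70 := mul v69 x0; ok v70 && (
  let v71 := mul v70 v2; ok v71 && (
  let v72 := mul v71 v71; ok v72 && (
  let v73 := sub v0 v64; ok v73 && (
  let v74 := mul v65 v73; ok v74 && (
  let v75 := mul v72 v74; ok v75 && (
  let v76 := inv x0; ok v76 && (
  let v77 := cst ⟨45812285440, 0, 0, 0⟩; ok v77 && (
  let v78 := scale ⟨1527119872, 0, 0, 0⟩ v75; ok v78 && (
  let v79 := sub v77 v78; ok v79 && (
  let v80 := mul v75 v79; ok v80 && (
  let v81 := sub v1 v80; ok v81 && (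
  let v82 := mul v75 v81; ok v82 && (
  let v83 := sub v0 v82; ok v83 && (
  let v84 := add v48 v0; ok v84 && (
  let v85 := mul v48 v48; ok v85 && (
  let v86 := add v85 v0; ok v86 && (
  let v87 := mul v48 v83; ok v87 && (
  let v88 := scale ⟨2199023255552, 0, 0, 0⟩ v87; ok v88 && (
  let v89 := add v86 v88; ok v89 && (
  let v90 := inv v84; ok v90 && (
  let v91 := mul v89 v90; ok v91 && (
  let v92 := add v91 v84; ok v92 && (
  let v93 := mul v48 v63; ok v93 && (
  let v94 := scale ⟨549755813888, 0, 0, 0⟩ v93; ok v94 && (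
  let v95 := mul v94 v92; ok v95 && (
  let v96 := sub v89 v95; ok v96 && (
  isPos 4 v89 && (
  isPos 4 v96 && (
  let v97 := inv v96; ok v97 && (
  let v98 := mul v45 v34; ok v98 && (
  let v99 := cst ⟨6597069766656, 0, 0, 0⟩; ok v99 && (
  let v100 := add v35 v99; ok v100 && (
  let v101 := mul v98 v100; ok v101 && (
  let v102 := scale ⟨4398046511104, 0, 0, 0⟩ v35; ok v102 && (
  let v103 := add v102 v99; ok v103 && (
  let v104 := inv v103; ok v104 && (
  let v105 := mul v101 v104; ok v105 && (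
  let v106 := mul v30 v105; ok v106 && (
  let v107 := scale ⟨2199023255552, 0, 0, 0⟩ v106; ok v107 && (
  let v108 := scale ⟨183274307584, 0, 0, 0⟩ v107; ok v108 && (
  let v109 := sub v1 v108; ok v109 && (
  let v110 := mul v107 v109; ok v110 && (
  let v111 := sub v0 v110; ok v111 && (
  let v112 := mul v105 v111; ok v112 && (
  let v113 := mul v112 v97; ok v113 && (
  let v114 := mul v30 v113; ok v114 && (
  let v115 := add v114 v1; ok v115 && (
  let v116 := inv v115; ok v116 && (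
  let v117 := mul v113 v116; ok v117 && (
  let v118 := mul v30 v117; ok v118 && (
  let v119 := mul v94 v114; ok v119 && (
  let v120 := add v119 v1; ok v120 && (
  let v121 := mul v120 v92; ok v121 && (
  let v122 := inv v89; ok v122 && (
  let v123 := mul v121 v122; ok v123 && (
  let v124 := mul v63 v118; ok v124 && (
  let v125 := scale ⟨549755813888, 0, 0, 0⟩ v124; ok v125 && (
  let v126 := sub v0 v125; ok v126 && (
  let v127 := sub v0 v124; ok v127 && (
  let v128 := inv v127; ok v128 && (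
  let v129 := mul v126 v128; ok v129 && (
  let v130 := add v124 v0; ok v130 && (
  let v131 := mul v48 v130; ok v131 && (
  let v132 := mul v16 v17; ok v132 && (
  let v133 := add v12 x1; ok v133 && (
  let v134 := mul v15 v12; ok v134 && (
  let v135 := mul v134 v10; ok v135 && (
  let v136 := scale ⟨2199023255552, 0, 0, 0⟩ v135; ok v136 && (
  let v137 := add v39 v136; ok v137 && (
  let v138 := mul v133 v137; ok v138 && (
  let v139 := inv v138; ok v139 && (
  let v140 := mul v132 v139; ok v140 && (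
  let v141 := mul x1 v140; ok v141 && (
  let v142 := inv v36; ok v142 && (
  let v143 := mul v75 v142; ok v143 && (
  let v144 := scale ⟨1527119872, 0, 0, 0⟩ v143; ok v144 && (
  let v145 := sub v77 v144; ok v145 && (
  let v146 := mul v143 v145; ok v146 && (
  let v147 := sub v1 v146; ok v147 && (
  let v148 := mul v143 v147; ok v148 && (
  let v149 := sub v0 v148; ok v149 && (
  let v150 := add v57 v0; ok v150 && (
  let v151 := mul v57 v57; ok v151 && (
  let v152 := add v151 v0; ok v152 && (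
  let v153 := mul v57 v149; ok v153 && (
  let v154 := scale ⟨2199023255552, 0, 0, 0⟩ v153; ok v154 && (
  let v155 := add v152 v154; ok v155 && (
  let v156 := inv v150; ok v156 && (
  let v157 := mul v155 v156; ok v157 && (
  let v158 := add v157 v150; ok v158 && (
  let v159 := mul v57 v141; ok v159 && (
  let v160 := scale ⟨549755813888, 0, 0, 0⟩ v159; ok v160 && (
  let v161 := mul v160 v158; ok v161 && (
  let v162 := sub v155 v161; ok v162 && (
  isPos 4 v155 && (
  isPos 4 v162 && (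
  let v163 := sub v0 v57; ok v163 && (
  let v164 := mul v163 v150; ok v164 && (
  let v165 := inv v162; ok v165 && (
  let v166 := mul v164 v165; ok v166 && (
  let v167 := scale ⟨549755813888, 0, 0, 0⟩ v166; ok v167 && (
  let v168 := add v167 v1; ok v168 && (
  let v169 := inv v168; ok v169 && (
  let v170 := mul v167 v169; ok v170 && (
  let v171 := mul v141 v170; ok v171 && (
  let v172 := add v4 v0; ok v172 && (
  let v173 := inv v172; ok v173 && (
  let v174 := mul v4 v173; ok v174 && (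
  let v175 := scale ⟨2199023255552, 0, 0, 0⟩ v174; ok v175 && (
  let v176 := sub v0 v175; ok v176 && (
  let v177 := sub v0 v4; ok v177 && (
  let v178 := mul x3 v173; ok v178 && (
  let v179 := mul v178 v176; ok v179 && (
  let v180 := add v17 v179; ok v180 && (
  let v181 := mul x0 v10; ok v181 && (
  let v182 := scale ⟨137438953472, 0, 0, 0⟩ v181; ok v182 && (
  let v183 := add v182 v1; ok v183 && (
  let v184 := inv v183; ok v184 && (
  let v185 := mul x0 v184; ok v185 && (
  let v186 := scale ⟨274877906944, 0, 0, 0⟩ v185; ok v186 && (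
  let v187 := scale ⟨549755813888, 0, 0, 0⟩ v181; ok v187 && (
  let v188 := cst ⟨2199023255552, 0, 0, 0⟩; ok v188 && (
  let v189 := add v187 v188; ok v189 && (
  let v190 := mul v189 v76; ok v190 && (
  let v191 := scale ⟨224412041216, 0, 0, 0⟩ v8; ok v191 && (
  let v192 := inv v29; ok v192 && (
  let v193 := mul v191 v192; ok v193 && (
  let v194 := mul v186 v17; ok v194 && (
  let v195 := mul v194 v193; ok v195 && (
  let v196 := mul v2 v195; ok v196 && (
  let v197 := sub v0 v196; ok v197 && (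
  let v198 := inv v197; ok v198 && (
  let v199 := mul v131 v196; ok v199 && (
  let v200 := sub v0 v199; ok v200 && (
  let v201 := inv v200; ok v201 && (
  let v202 := add v181 v188; ok v202 && (
  let v203 := inv v202; ok v203 && (
  let v204 := mul v16 x0; ok v204 && (
  let v205 := mul v204 x1; ok v205 && (
  let v206 := mul v205 v203; ok v206 && (
  let v207 := scale ⟨549755813888, 0, 0, 0⟩ v206; ok v207 && (
  let v208 := sub v0 v207; ok v208 && (
  let v209 := sub v0 v206; ok v209 && (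
  let v210 := inv v209; ok v210 && (
  let v211 := mul v208 v210; ok v211 && (
  let v212 := mul v211 v203; ok v212 && (
  let v213 := mul v212 x0; ok v213 && (
  let v214 := mul x1 v14; ok v214 && (
  let v215 := mul v214 v213; ok v215 && (
  let v216 := mul v206 v211; ok v216 && (
  let v217 := mul v14 v213; ok v217 && (
  isPos 4 v209 && (
  let v218 := mul v216 v76; ok v218 && (
  let v219 := scale ⟨1374389534720, 0, 0, 0⟩ v218; ok v219 && (
  let v220 := sub v1 v219; ok v220 && (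
  isPos 4 v220 && (
  let v221 := scale ⟨3092376453120, 0, 0, 0⟩ v218; ok v221 && (
  let v222 := add v221 v188; ok v222 && (
  let v223 := mul v218 v222; ok v223 && (
  let v224 := add v0 v223; ok v224 && (
  let v225 := scale ⟨1546188226560, 0, 0, 0⟩ v218; ok v225 && (
  let v226 := add v225 v0; ok v226 && (
  let v227 := mul v218 v226; ok v227 && (
  let v228 := add v0 v227; ok v228 && (
  let v229 := mul v4 v14; ok v229 && (
  let v230 := sub v0 v66; ok v230 && (
  let v231 := mul v4 v15; ok v231 && (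
  let v232 := scale ⟨2199023255552, 0, 0, 0⟩ v231; ok v232 && (
  let v233 := sub v230 v232; ok v233 && (
  let v234 := mul v229 v229; ok v234 && (
  let v235 := add v233 v234; ok v235 && (
  let v236 := add v235 v0; ok v236 && (
  let v237 := scale ⟨549755813888, 0, 0, 0⟩ v236; ok v237 && (
  let v238 := scale ⟨549755813888, 0, 0, 0⟩ v30; ok v238 && (
  let v239 := sub v8 v238; ok v239 && (
  let v240 := mul v67 v230; ok v240 && (
  let v241 := mul v240 v7; ok v241 && (
  let v242 := scale ⟨137438953472, 0, 0, 0⟩ v241; ok v242 && (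
  let v243 := add v239 v242; ok v243 && (
  let v244 := mul v237 v243; ok v244 && (
  let v245 := mul v16 v61; ok v245 && (
  let v246 := mul v245 v2; ok v246 && (
  let v247 := mul v246 v117; ok v247 && (
  let v248 := mul v247 v129; ok v248 && (
  let v249 := mul v2 v248; ok v249 && (
  let v250 := add v131 v0; ok v250 && (
  let v251 := mul v250 v198; ok v251 && (
  let v252 := mul v131 v201; ok v252 && (
  let v253 := add v251 v252; ok v253 && (
  let v254 := mul v196 v253; ok v254 && (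
  let v255 := add v249 v254; ok v255 && (
  let v256 := mul v255 v76; ok v256 && (
  let v257 := mul v250 v196; ok v257 && (
  let v258 := mul v257 v198; ok v258 && (
  let v259 := add v249 v258; ok v259 && (
  let v260 := mul v259 v76; ok v260 && (
  let v261 := scale ⟨223338299392, 0, 0, 0⟩ v260; ok v261 && (
  let v262 := add v1 v261; ok v262 && (
  let v263 := mul v260 v262; ok v263 && (
  let v264 := add v0 v263; ok v264 && (
  let v265 := scale ⟨893353197568, 0, 0, 0⟩ v256; ok v265 && (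
  let v266 := add v0 v265; ok v266 && (
  let v267 := mul v256 v266; ok v267 && (
  let v268 := add v0 v267; ok v268 && (
  let v269 := mul v175 v178; ok v269 && (
  let v270 := mul v269 v224; ok v270 && (
  let v271 := mul v270 v268; ok v271 && (
  let v272 := mul v244 v264; ok v272 && (
  let v273 := add v44 v1; ok v273 && (
  let v274 := mul v271 v273; ok v274 && (
  let v275 := add v272 v274; ok v275 && (
  let v276 := add v44 v0; ok v276 && (
  let v277 := mul v271 v276; ok v277 && (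
  let v278 := mul v228 v276; ok v278 && (
  let v279 := mul v278 v178; ok v279 && (
  let v280 := mul v279 v177; ok v280 && (
  let v281 := mul v2 v180; ok v281 && (
  let v282 := inv v44; ok v282 && (
  let v283 := mul v281 v282; ok v283 && (
  let v284 := scale ⟨549755813888, 0, 0, 0⟩ v283; ok v284 && (
  let v285 := mul v61 v2; ok v285 && (
  let v286 := mul v285 v117; ok v286 && (
  let v287 := mul v286 v129; ok v287 && (
  let v288 := mul v16 v284; ok v288 && (
  let v289 := mul v275 v287; ok v289 && (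
  let v290 := mul v280 v215; ok v290 && (
  let v291 := add v289 v290; ok v291 && (
  let v292 := mul v291 v76; ok v292 && (
  let v293 := add v288 v292; ok v293 && (
  let v294 := mul v275 v250; ok v294 && (
  let v295 := mul v294 v198; ok v295 && (
  let v296 := mul v277 v131; ok v296 && (
  let v297 := mul v296 v201; ok v297 && (
  let v298 := add v295 v297; ok v298 && (
  let v299 := mul v298 v76; ok v299 && (
  let v300 := mul v16 v293; ok v300 && (
  let v301 := mul v195 v299; ok v301 && (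
  let v302 := add v300 v301; ok v302 && (
  let v303 := mul v67 v302; ok v303 && (
  let v304 := mul v303 v282; ok v304 && (
  let v305 := sub v0 v304; ok v305 && (
  let v306 := inv v305; ok v306 && (
  let v307 := mul v302 v306; ok v307 && (
  let v308 := mul x1 v307; ok v308 && (
  let v309 := mul v67 v307; ok v309 && (
  let v310 := mul v309 v282; ok v310 && (
  let v311 := sub v0 v310; ok v311 && (
  let v312 := mul v41 v311; ok v312 && (
  let v313 := sub v312 v308; ok v313 && (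
  let v314 := inv v313; ok v314 && (
  let v315 := mul v308 v314; ok v315 && (
  let v316 := sub v0 v308; ok v316 && (
  let v317 := inv v316; ok v317 && (
  let v318 := mul v63 v117; ok v318 && (
  let v319 := mul v318 v129; ok v319 && (
  let v320 := add v105 v319; ok v320 && (
  let v321 := mul v320 v317; ok v321 && (
  let v322 := mul v321 v309; ok v322 && (
  let v323 := scale ⟨223338299392, 0, 0, 0⟩ v322; ok v323 && (
  let v324 := add v1 v323; ok v324 && (
  let v325 := mul v322 v324; ok v325 && (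
  let v326 := add v0 v325; ok v326 && (
  let v327 := mul v322 v326; ok v327 && (
  let v328 := mul v327 v123; ok v328 && (
  let v329 := mul v328 v131; ok v329 && (
  let v330 := sub v0 v329; ok v330 && (
  let v331 := mul v321 v326; ok v331 && (
  let v332 := mul v331 v306; ok v332 && (
  let v333 := mul v332 v76; ok v333 && (
  let v334 := inv v330; ok v334 && (
  let v335 := mul v333 v334; ok v335 && (
  let v336 := mul v335 x2; ok v336 && (
  let v337 := mul v275 v198; ok v337 && (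
  let v338 := mul v277 v123; ok v338 && (
  let v339 := mul v338 v131; ok v339 && (
  let v340 := mul v339 v201; ok v340 && (
  let v341 := add v337 v340; ok v341 && (
  let v342 := mul v336 v341; ok v342 && (
  let v343 := mul v275 v61; ok v343 && (
  let v344 := mul v2 v113; ok v344 && (
  let v345 := mul v343 v344; ok v345 && (
  let v346 := mul v345 v129; ok v346 && (
  let v347 := mul v186 v2; ok v347 && (
  let v348 := mul v347 v17; ok v348 && (
  let v349 := mul v348 v16; ok v349 && (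
  let v350 := cst ⟨3298534883328, 0, 0, 0⟩; ok v350 && (
  let v351 := cst ⟨5497558138880, 0, 0, 0⟩; ok v351 && (
  let v352 := inv v351; ok v352 && (
  let v353 := mul v350 v352; ok v353 && (
  let v354 := mul v335 v190; ok v354 && (
  let v355 := mul v354 x2; ok v355 && (
  let v356 := inv v17; ok v356 && (
  let v357 := mul v355 v356; ok v357 && (
  let v358 := mul x0 v123; ok v358 && (
  let v359 := mul v358 v16; ok v359 && (
  let v360 := mul x2 v180; ok v360 && (
  let v361 := mul v360 v282; ok v361 && (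
  let v362 := scale ⟨549755813888, 0, 0, 0⟩ v361; ok v362 && (
  let v363 := mul v359 v362; ok v363 && (
  let v364 := mul v343 x2; ok v364 && (
  let v365 := mul v364 v113; ok v365 && (
  let v366 := mul v365 v129; ok v366 && (
  let v367 := add v363 v366; ok v367 && (
  let v368 := mul v123 v280; ok v368 && (
  let v369 := mul v368 v217; ok v369 && (
  let v370 := add v367 v369; ok v370 && (
  let v371 := mul v357 v370; ok v371 && (
  let v372 := mul v12 v41; ok v372 && (
  let v373 := scale ⟨4398046511104, 0, 0, 0⟩ v372; ok v373 && (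
  let v374 := sub v373 v34; ok v374 && (
  let v375 := mul v5 v374; ok v375 && (
  let v376 := mul v375 v142; ok v376 && (
  let v377 := mul x0 v376; ok v377 && (
  let v378 := mul x1 v376; ok v378 && (
  let v379 := add v378 v188; ok v379 && (
  let v380 := inv v379; ok v380 && (
  let v381 := mul v377 v380; ok v381 && (
  let v382 := mul x1 v381; ok v382 && (
  let v383 := scale ⟨549755813888, 0, 0, 0⟩ v382; ok v383 && (
  let v384 := sub v0 v383; ok v384 && (
  let v385 := mul v381 v384; ok v385 && (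
  let v386 := neg v385; ok v386 && (
  let v387 := mul v140 v170; ok v387 && (
  let v388 := add v386 v387; ok v388 && (
  let v389 := mul v386 v387; ok v389 && (
  let v390 := mul x1 v389; ok v390 && (
  let v391 := add v388 v390; ok v391 && (
  let v392 := mul v45 v376; ok v392 && (
  let v393 := add v171 v0; ok v393 && (
  let v394 := mul v387 v393; ok v394 && (
  let v395 := add v392 v394; ok v395 && (
  let v396 := mul v315 v395; ok v396 && (
  let v397 := mul x1 v396; ok v397 && (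
  let v398 := scale ⟨687194767360, 0, 0, 0⟩ v397; ok v398 && (
  let v399 := add v0 v398; ok v399 && (
  let v400 := mul v396 v399; ok v400 && (
  let v401 := add v391 v400; ok v401 && (
  let v402 := mul v391 v400; ok v402 && (
  let v403 := mul x1 v402; ok v403 && (
  let v404 := add v401 v403; ok v404 && (
  let v405 := mul x2 x3; ok v405 && (
  let v406 := mul v405 v172; ok v406 && (
  let v407 := mul v406 v8; ok v407 && (
  let v408 := add v404 v407; ok v408 && (
  let v409 := mul v404 v407; ok v409 && (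
  let v410 := mul x1 v409; ok v410 && (
  let v411 := add v408 v410; ok v411 && (
  let v412 := mul v5 v34; ok v412 && (
  let v413 := mul x1 v412; ok v413 && (
  let v414 := scale ⟨412316860416, 0, 0, 0⟩ v413; ok v414 && (
  let v415 := sub v1 v414; ok v415 && (
  let v416 := mul v412 v415; ok v416 && (
  let v417 := neg v416; ok v417 && (
  let v418 := add v411 v417; ok v418 && (
  let v419 := mul v411 v417; ok v419 && (
  let v420 := mul x1 v419; ok v420 && (
  let v421 := add v418 v420; ok v421 && (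
  let v422 := mul x2 v307; ok v422 && (
  let v423 := mul v422 v356; ok v423 && (
  let v424 := add v421 v423; ok v424 && (
  let v425 := mul v421 v423; ok v425 && (
  let v426 := mul x1 v425; ok v426 && (
  let v427 := add v424 v426; ok v427 && (
  let v428 := mul v172 v17; ok v428 && (
  let v429 := mul v428 v353; ok v429 && (
  let v430 := sub v427 v429; ok v430 && (
  let v431 := mul x1 v429; ok v431 && (
  let v432 := add v0 v431; ok v432 && (
  let v433 := inv v432; ok v433 && (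
  let v434 := mul v430 v433; ok v434 && (
  let v435 := mul x2 v2; ok v435 && (
  let v436 := mul v435 v307; ok v436 && (
  let v437 := sub v44 v309; ok v437 && (
  let v438 := inv v437; ok v438 && (
  let v439 := mul v436 v438; ok v439 && (
  let v440 := add v434 v439; ok v440 && (
  let v441 := mul v434 v439; ok v441 && (
  let v442 := mul x1 v441; ok v442 && (
  let v443 := add v440 v442; ok v443 && (
  let v444 := mul x1 v443; ok v444 && (
  let v445 := add v0 v444; ok v445 && (
  let v446 := mul v342 v196; ok v446 && (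
  let v447 := mul x1 v349; ok v447 && (
  let v448 := mul v371 v447; ok v448 && (
  let v449 := add v446 v448; ok v449 && (
  let v450 := mul v449 v445; ok v450 && (
  let v451 := add v443 v450; ok v451 && (
  let v452 := add v451 v342; ok v452 && (
  let v453 := add v452 v371; ok v453 && (
  let v454 := neg v453; ok v454 && (
  let v455 := cst ⟨1073741824, 0, 0, 0⟩; ok v455 && (
  let v456 := sub v454 v455; ok v456 && (
  let v457 := sub v13 v0; ok v457 && (
  let v458 := add v457 v188; ok v458 && (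
  let v459 := scale ⟨2199023255552, 0, 0, 0⟩ v353; ok v459 && (
  let v460 := sub v458 v459; ok v460 && (
  let v461 := mul v172 v460; ok v461 && (
  let v462 := mul v457 v459; ok v462 && (
  let v463 := add v462 v0; ok v463 && (
  let v464 := inv v463; ok v464 && (
  let v465 := mul v461 v464; ok v465 && (
  let v466 := mul v186 v299; ok v466 && (
  let v467 := scale ⟨549755813888, 0, 0, 0⟩ v193; ok v467 && (
  let v468 := add v10 v467; ok v468 && (
  let v469 := mul v466 v468; ok v469 && (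
  let v470 := scale ⟨2199023255552, 0, 0, 0⟩ v469; ok v470 && (
  let v471 := add v293 v470; ok v471 && (
  let v472 := scale ⟨2199023255552, 0, 0, 0⟩ v471; ok v472 && (
  let v473 := mul v472 v306; ok v473 && (
  let v474 := mul v2 v307; ok v474 && (
  let v475 := sub v17 v474; ok v475 && (
  let v476 := inv v475; ok v476 && (
  let v477 := mul v473 v476; ok v477 && (
  let v478 := sub v465 v477; ok v478 && (
  isPos 4 v197 && (
  isPos 4 v200 && (
  let v479 := scale ⟨2199023255552, 0, 0, 0⟩ v303; ok v479 && (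
  let v480 := sub v44 v479; ok v480 && (
  isPos 4 v480 && (
  isPos 4 v313 && (
  isPos 4 v127 && (
  let v481 := sub v1 v171; ok v481 && (
  isPos 4 v481 && (
  let v482 := scale ⟨687194767360, 0, 0, 0⟩ v0; ok v482 && (
  let v483 := sub v482 v260; ok v483 && (
  isPos 4 v483 && (
  let v484 := scale ⟨377957122048, 0, 0, 0⟩ v0; ok v484 && (
  let v485 := sub v484 v256; ok v485 && (
  isPos 4 v485 && (
  isPos 4 v475 && (
  let v486 := sub v1 v397; ok v486 && (
  isPos 4 v486 && (
  isPos 4 v316 && (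
  isPos 4 v330 && (
  let v487 := sub v482 v322; ok v487 && (
  isPos 4 v487 && (
  let v488 := mul v181 v181; ok v488 && (
  let v489 := cst ⟨14293651161088, 0, 0, 0⟩; ok v489 && (
  let v490 := cst ⟨10995116277760, 0, 0, 0⟩; ok v490 && (
  let v491 := inv v490; ok v491 && (
  let v492 := mul v489 v491; ok v492 && (
  let v493 := mul v488 v492; ok v493 && (
  let v494 := cst ⟨27487790694400, 0, 0, 0⟩; ok v494 && (
  let v495 := add v493 v494; ok v495 && (
  let v496 := mul v429 v433; ok v496 && (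
  let v497 := sub v32 x1; ok v497 && (
  let v498 := sub v497 v31; ok v498 && (
  let v499 := scale ⟨2199023255552, 0, 0, 0⟩ v2; ok v499 && (
  let v500 := add v499 v309; ok v500 && (
  let v501 := mul x0 v500; ok v501 && (
  let v502 := mul v495 v496; ok v502 && (
  let v503 := mul v306 v501; ok v503 && (
  let v504 := mul v76 v291; ok v504 && (
  let v505 := mul v5 v504; ok v505 && (
  let v506 := mul v17 v186; ok v506 && (
  let v507 := mul v506 v299; ok v507 && (
  let v508 := mul v30 v507; ok v508 && (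
  let v509 := add v505 v508; ok v509 && (
  let v510 := mul x0 v509; ok v510 && (
  let v511 := mul v503 v510; ok v511 && (
  let v512 := sub v502 v511; ok v512 && (
  let v513 := scale ⟨549755813888, 0, 0, 0⟩ v474; ok v513 && (
  let v514 := add v0 v513; ok v514 && (
  let v515 := mul v306 v514; ok v515 && (
  let v516 := mul x1 v16; ok v516 && (
  let v517 := mul v516 v180; ok v517 && (
  let v518 := mul v17 v44; ok v518 && (
  let v519 := inv v518; ok v519 && (
  let v520 := mul v517 v519; ok v520 && (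
  let v521 := mul v515 v520; ok v521 && (
  let v522 := sub v498 v521; ok v522 && (
  let v523 := mul v193 v512; ok v523 && (
  let v524 := sub v0 v193; ok v524 && (
  let v525 := mul v5 v522; ok v525 && (
  let v526 := mul v524 v525; ok v526 && (
  let v527 := mul v495 v526; ok v527 && (
  let v528 := add v523 v527; ok v528 && (
  isPos 4 v478 && (
  isPos 4 v456 && (
  isPos 4 v528 && (
  isPos 4 v522 && (
  true))))))))))))))))))))))))))))))))))))))))))))))))))))))))))))))))))))))))))))))))))))))))))))))))))))))))))))))))))))))))))))))))))))))))))))))))))))))))))))))))))))))))))))))))))))))))))))))))))))))))))))))))))))))))))))))))))))))))))))))))))))))))))))))))))))))))))))))))))))))))))))))))))))))))))))))))))))))))))))))))))))))))))))))))))))))))))))))))))))))))))))))))))))))))))))))))))))))))))))))))))))))))))))))))))))))))))))))))))))))))))))))))))))))))))))))))))))))))))))))))))))))))))))))))))))))))))))))))))))))))))))))))))))))))))))))))))))))))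
  | _ => false

set_option maxRecDepth 1000000 in
theorem chk0_eq (O : Ops) (m : List O.α)
    (h : chk0 O.cst O.add O.sub O.mul O.scale O.neg O.inv O.exp O.log O.ok O.isPos O.isLt m = true) :
    runG O 4 prog0 m = true := by
  match m, h with
  | [x0, x1, x2, x3], h => exact h

def chkB0 : List opsE.α → Bool :=
  chk0 opsE.cst opsE.add opsE.sub opsE.mul opsE.scale opsE.neg opsE.inv opsE.exp opsE.log opsE.ok opsE.isPos opsE.isLt

theorem chkB0_eq (m : List opsE.α) (h : chkB0 m = true) : runG opsE 4 prog0 m = true :=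
  chk0_eq opsE m h

def prog1 : List Op := [
  .const ⟨1099511627776, 0, 0, 0⟩,
  .const ⟨549755813888, 0, 0, 0⟩,
  .mul 3 4,
  .mul 0 6,
  .scale ⟨549755813888, 0, 0, 0⟩ 0,
  .mul 7 7,
  .mul 1 1,
  .sub 6 0,
  .inv 0,
  .mul 4 0,
  .scale ⟨2199023255552, 0, 0, 0⟩ 0,
  .scale ⟨2199023255552, 0, 0, 0⟩ 2,
  .sub 0 11,
  .add 0 2,
  .mul 17 5,
  .mul 17 0,
  .sub 15 0,
  .add 16 1,
  .scale ⟨10774999203840, 0, 0, 0⟩ 13,
  .scale ⟨45768245248, 0, 0, 0⟩ 0,
  .const ⟨183207198720, 0, 0, 0⟩,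
  .add 1 0,
  .mul 3 0,
  .add 21 0,
  .mul 5 0,
  .add 24 0,
  .mul 7 0,
  .scale ⟨549755813888, 0, 0, 0⟩ 0,
  .add 27 0,
  .mul 3 0,
  .mul 31 24,
  .mul 20 15,
  .scale ⟨2199023255552, 0, 0, 0⟩ 19,
  .add 1 0,
  .add 0 35,
  .mul 4 0,
  .add 0 35,
  .mul 26 26,
  .scale ⟨2199023255552, 0, 0, 0⟩ 0,
  .add 0 38,
  .mul 27 5,
  .sub 0 40,
  .log 5,
  .scale ⟨549755813888, 0, 0, 0⟩ 0,
  .exp 0,
  .scale ⟨549755813888, 0, 0, 0⟩ 45,
  .mul 0 3,
  .neg 0,
  .exp 0,
  .mul 36 18,
  .mul 0 8,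
  .scale ⟨4398046511104, 0, 0, 0⟩ 0,
  .add 0 51,
  .log 0,
  .sub 0 11,
  .mul 9 0,
  .neg 0,
  .exp 0,
  .mul 42 47,
  .add 46 0,
  .inv 0,
  .mul 43 0,
  .mul 45 63,
  .mul 0 1,
  .mul 49 49,
  .sub 64 59,
  .mul 1 0,
  .mul 64 64,
  .add 55 37,
  .inv 0,
  .mul 0 70,
  .mul 0 68,
  .mul 0 0,
  .sub 72 8,
  .mul 8 0,
  .mul 2 0,
  .inv 76,
  .const ⟨45812285440, 0, 0, 0⟩,
  .scale ⟨1527119872, 0, 0, 0⟩ 2,
  .sub 1 0,
  .mul 4 0,
  .sub 79 0,
  .mul 6 0,
  .sub 82 0,
  .add 35 83,
  .mul 36 36,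
  .add 0 85,
  .mul 38 3,
  .scale ⟨2199023255552, 0, 0, 0⟩ 0,
  .add 2 0,
  .inv 5,
  .mul 1 0,
  .add 0 7,
  .mul 44 29,
  .scale ⟨549755813888, 0, 0, 0⟩ 0,
  .mul 0 2,
  .sub 6 0,
  .pos 7,
  .pos 0,
  .inv 0,
  .mul 52 63,
  .const ⟨6597069766656, 0, 0, 0⟩,
  .add 64 0,
  .mul 2 0,
  .scale ⟨4398046511104, 0, 0, 0⟩ 66,
  .add 0 3,
  .inv 0,
  .mul 3 0,
  .mul 75 0,
  .scale ⟨2199023255552, 0, 0, 0⟩ 0,
  .scale ⟨183274307584, 0, 0, 0⟩ 0,
  .sub 107 0,
  .mul 2 0,
  .sub 110 0,
  .mul 6 0,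
  .mul 0 15,
  .mul 83 0,
  .add 0 113,
  .inv 0,
  .mul 3 0,
  .mul 87 0,
  .mul 24 4,
  .add 0 118,
  .mul 0 28,
  .inv 32,
  .mul 1 0,
  .mul 60 5,
  .scale ⟨549755813888, 0, 0, 0⟩ 0,
  .sub 125 0,
  .sub 126 2,
  .inv 0,
  .mul 2 0,
  .add 5 129,
  .mul 82 0,
  .mul 115 114,
  .add 120 134,
  .mul 118 121,
  .mul 0 124,
  .scale ⟨2199023255552, 0, 0, 0⟩ 0,
  .add 97 0,
  .mul 4 0,
  .inv 0,
  .mul 7 0,
  .mul 142 0,
  .inv 105,
  .mul 67 0,
  .scale ⟨1527119872, 0, 0, 0⟩ 0,
  .sub 67 0,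
  .mul 2 0,
  .sub 145 0,
  .mul 4 0,
  .sub 148 0,
  .add 92 149,
  .mul 93 93,
  .add 0 151,
  .mul 95 3,
  .scale ⟨2199023255552, 0, 0, 0⟩ 0,
  .add 2 0,
  .inv 5,
  .mul 1 0,
  .add 0 7,
  .mul 101 17,
  .scale ⟨549755813888, 0, 0, 0⟩ 0,
  .mul 0 2,
  .sub 6 0,
  .pos 7,
  .pos 0,
  .sub 162 105,
  .mul 0 13,
  .inv 2,
  .mul 1 0,
  .scale ⟨549755813888, 0, 0, 0⟩ 0,
  .add 0 166,
  .inv 0,
  .mul 2 0,
  .mul 29 0,
  .add 167 171,
  .inv 0,
  .mul 169 0,
  .scale ⟨2199023255552, 0, 0, 0⟩ 0,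
  .sub 175 0,
  .sub 176 172,
  .mul 181 4,
  .mul 0 2,
  .add 162 0,
  .mul 181 170,
  .scale ⟨137438953472, 0, 0, 0⟩ 0,
  .add 0 181,
  .inv 0,
  .mul 185 0,
  .scale ⟨274877906944, 0, 0, 0⟩ 0,
  .scale ⟨549755813888, 0, 0, 0⟩ 5,
  .const ⟨2199023255552, 0, 0, 0⟩,
  .add 1 0,
  .mul 0 113,
  .scale ⟨224412041216, 0, 0, 0⟩ 182,
  .inv 162,
  .mul 1 0,
  .mul 7 176,
  .mul 0 1,
  .mul 193 0,
  .sub 196 0,
  .inv 0,
  .mul 67 2,
  .sub 199 0,
  .inv 0,
  .mul 185 199,
  .mul 0 85,
  .inv 189,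
  .mul 1 0,
  .scale ⟨549755813888, 0, 0, 0⟩ 0,
  .sub 206 0,
  .sub 207 2,
  .inv 0,
  .mul 2 0,
  .mul 213 93,
  .mul 0 1,
  .mul 214 0,
  .mul 8 3,
  .pos 6,
  .mul 0 138,
  .scale ⟨1374389534720, 0, 0, 0⟩ 0,
  .sub 215 0,
  .pos 0,
  .scale ⟨3092376453120, 0, 0, 0⟩ 2,
  .add 0 30,
  .mul 4 0,
  .add 220 0,
  .scale ⟨1546188226560, 0, 0, 0⟩ 6,
  .add 0 222,
  .mul 8 0,
  .add 224 0,
  .mul 221 211,
  .sub 226 160,
  .mul 223 212,
  .scale ⟨2199023255552, 0, 0, 0⟩ 0,
  .sub 2 0,
  .mul 4 4,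
  .add 1 0,
  .add 0 232,
  .scale ⟨549755813888, 0, 0, 0⟩ 0,
  .scale ⟨549755813888, 0, 0, 0⟩ 204,
  .sub 227 0,
  .mul 169 9,
  .mul 0 230,
  .scale ⟨137438953472, 0, 0, 0⟩ 0,
  .add 3 0,
  .mul 6 0,
  .mul 225 180,
  .mul 0 240,
  .mul 0 126,
  .mul 0 115,
  .mul 243 0,
  .add 115 246,
  .mul 0 49,
  .mul 117 47,
  .add 1 0,
  .mul 54 0,
  .add 5 0,
  .mul 0 176,
  .mul 6 57,
  .mul 0 56,
  .add 9 0,
  .mul 0 180,
  .scale ⟨223338299392, 0, 0, 0⟩ 0,
  .add 257 0,
  .mul 2 0,
  .add 260 0,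
  .scale ⟨893353197568, 0, 0, 0⟩ 8,
  .add 262 0,
  .mul 10 0,
  .add 264 0,
  .mul 90 87,
  .mul 0 45,
  .mul 0 2,
  .mul 27 7,
  .add 225 268,
  .mul 2 0,
  .add 2 0,
  .add 228 272,
  .mul 5 0,
  .mul 49 1,
  .mul 0 97,
  .mul 0 99,
  .mul 275 97,
  .inv 234,
  .mul 1 0,
  .scale ⟨549755813888, 0, 0, 0⟩ 0,
  .mul 220 279,
  .mul 0 165,
  .mul 0 154,
  .mul 268 3,
  .mul 13 1,
  .mul 9 73,
  .add 1 0,
  .mul 0 212,
  .add 4 0,
  .mul 18 43,
  .mul 0 93,
  .mul 18 161,
  .mul 0 92,
  .add 2 0,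
  .mul 0 219,
  .mul 280 6,
  .mul 102 1,
  .add 1 0,
  .mul 232 0,
  .mul 0 21,
  .sub 301 0,
  .inv 0,
  .mul 4 0,
  .mul 306 0,
  .mul 238 1,
  .mul 0 27,
  .sub 307 0,
  .mul 267 0,
  .sub 0 4,
  .inv 0,
  .mul 6 0,
  .sub 312 7,
  .inv 0,
  .mul 251 197,
  .mul 0 186,
  .add 211 0,
  .mul 0 3,
  .mul 0 12,
  .scale ⟨223338299392, 0, 0, 0⟩ 0,
  .add 319 0,
  .mul 2 0,
  .add 322 0,
  .mul 4 0,
  .mul 0 201,
  .mul 0 194,
  .sub 326 0,
  .mul 9 4,
  .mul 0 25,
  .mul 0 253,
  .inv 3,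
  .mul 1 0,
  .mul 0 335,
  .mul 61 135,
  .mul 60 211,
  .mul 0 204,
  .mul 0 135,
  .add 3 0,
  .mul 5 0,
  .mul 67 278,
  .mul 338 227,
  .mul 1 0,
  .mul 0 213,
  .mul 157 341,
  .mul 0 327,
  .mul 0 329,
  .const ⟨3298534883328, 0, 0, 0⟩,
  .const ⟨5497558138880, 0, 0, 0⟩,
  .inv 0,
  .mul 2 0,
  .mul 18 160,
  .mul 0 354,
  .inv 335,
  .mul 1 0,
  .mul 355 231,
  .mul 0 339,
  .mul 359 176,
  .mul 0 78,
  .scale ⟨549755813888, 0, 0, 0⟩ 0,
  .mul 3 0,
  .mul 20 363,
  .mul 0 248,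
  .mul 0 233,
  .add 3 0,
  .mul 241 87,
  .mul 0 153,
  .add 2 0,
  .mul 13 0,
  .mul 356 327,
  .scale ⟨4398046511104, 0, 0, 0⟩ 0,
  .sub 0 336,
  .mul 366 0,
  .mul 0 230,
  .mul 374 0,
  .mul 376 1,
  .add 0 187,
  .inv 0,
  .mul 3 0,
  .mul 380 0,
  .scale ⟨549755813888, 0, 0, 0⟩ 0,
  .sub 380 0,
  .mul 3 0,
  .neg 0,
  .mul 243 213,
  .add 1 0,
  .mul 2 1,
  .mul 388 0,
  .add 2 0,
  .mul 343 15,
  .add 218 389,
  .mul 6 0,
  .add 2 0,
  .mul 80 0,
  .mul 395 0,
  .scale ⟨687194767360, 0, 0, 0⟩ 0,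
  .add 395 0,
  .mul 3 0,
  .add 9 0,
  .mul 10 1,
  .mul 401 0,
  .add 2 0,
  .mul 404 405,
  .mul 0 230,
  .mul 0 395,
  .add 3 0,
  .mul 4 1,
  .mul 408 0,
  .add 2 0,
  .mul 403 374,
  .mul 411 0,
  .scale ⟨412316860416, 0, 0, 0⟩ 0,
  .sub 410 0,
  .mul 3 0,
  .neg 0,
  .add 6 0,
  .mul 7 1,
  .mul 418 0,
  .add 2 0,
  .mul 421 114,
  .mul 0 66,
  .add 2 0,
  .mul 3 1,
  .mul 424 0,
  .add 2 0,
  .mul 252 407,
  .mul 0 75,
  .sub 2 0,
  .mul 429 1,
  .add 428 0,
  .inv 0,
  .mul 3 0,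
  .mul 434 429,
  .mul 0 128,
  .sub 389 127,
  .inv 0,
  .mul 2 0,
  .add 5 0,
  .mul 6 1,
  .mul 440 0,
  .add 2 0,
  .mul 442 0,
  .add 441 0,
  .mul 103 246,
  .mul 445 97,
  .mul 76 0,
  .add 2 0,
  .mul 0 4,
  .add 7 0,
  .add 0 109,
  .add 0 81,
  .neg 0,
  .const ⟨1073741824, 0, 0, 0⟩,
  .sub 1 0,
  .sub 440 453,
  .add 0 266,
  .scale ⟨2199023255552, 0, 0, 0⟩ 105,
  .sub 1 0,
  .mul 285 0,
  .mul 4 2,
  .add 0 459,
  .inv 0,
  .mul 3 0,
  .mul 276 166,
  .scale ⟨549755813888, 0, 0, 0⟩ 270,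
  .add 454 0,
  .mul 2 0,
  .scale ⟨2199023255552, 0, 0, 0⟩ 0,
  .add 177 0,
  .scale ⟨2199023255552, 0, 0, 0⟩ 0,
  .mul 0 166,
  .mul 468 166,
  .sub 454 0,
  .inv 0,
  .mul 3 0,
  .sub 12 0,
  .pos 278,
  .pos 275,
  .scale ⟨2199023255552, 0, 0, 0⟩ 175,
  .sub 432 0,
  .pos 0,
  .pos 167,
  .pos 350,
  .sub 476 306,
  .pos 0,
  .scale ⟨687194767360, 0, 0, 0⟩ 478,
  .sub 0 222,
  .pos 0,
  .scale ⟨377957122048, 0, 0, 0⟩ 480,
  .sub 0 228,
  .pos 0,
  .pos 10,
  .sub 481 88,
  .pos 0,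
  .pos 170,
  .pos 156,
  .sub 4 164,
  .pos 0,
  .mul 303 303,
  .const ⟨14293651161088, 0, 0, 0⟩,
  .const ⟨10995116277760, 0, 0, 0⟩,
  .inv 0,
  .mul 2 0,
  .mul 4 0,
  .const ⟨27487790694400, 0, 0, 0⟩,
  .add 1 0,
  .mul 66 62,
  .sub 461 495,
  .sub 0 463,
  .scale ⟨2199023255552, 0, 0, 0⟩ 493,
  .add 0 190,
  .mul 498 0,
  .mul 6 5,
  .mul 196 1,
  .mul 424 212,
  .mul 496 0,
  .mul 485 316,
  .mul 0 207,
  .mul 474 0,
  .add 3 0,
  .mul 507 0,
  .mul 7 0,
  .sub 9 0,
  .scale ⟨549755813888, 0, 0, 0⟩ 38,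
  .add 510 0,
  .mul 208 0,
  .mul 514 496,
  .mul 0 333,
  .mul 497 470,
  .inv 0,
  .mul 2 0,
  .mul 5 0,
  .sub 23 0,
  .mul 326 10,
  .sub 520 327,
  .mul 516 2,
  .mul 1 0,
  .mul 31 0,
  .add 4 0,
  .pos 50,
  .pos 72,
  .pos 0,
  .pos 6]

def chk1 {α : Type} (cst : Z → α) (add sub mul : α → α → α) (scale : Z → α → α)
    (neg inv exp log : α → α) (ok : α → Bool) (isPos : Nat → α → Bool) (isLt : α → Nat → Bool) :
    List α → Bool
  | [x0, x1, x2, x3] =>
  let v0 := cst ⟨1099511627776, 0, 0, 0⟩; ok v0 && (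
  let v1 := cst ⟨549755813888, 0, 0, 0⟩; ok v1 && (
  let v2 := mul x1 x2; ok v2 && (
  let v3 := mul v2 x3; ok v3 && (
  let v4 := scale ⟨549755813888, 0, 0, 0⟩ v3; ok v4 && (
  let v5 := mul x2 x2; ok v5 && (
  let v6 := mul v4 v4; ok v6 && (
  let v7 := sub v0 v6; ok v7 && (
  let v8 := inv v7; ok v8 && (
  let v9 := mul v4 v8; ok v9 && (
  let v10 := scale ⟨2199023255552, 0, 0, 0⟩ v9; ok v10 && (
  let v11 := scale ⟨2199023255552, 0, 0, 0⟩ v8; ok v11 && (
  let v12 := sub v11 v0; ok v12 && (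
  let v13 := add v12 v10; ok v13 && (
  let v14 := mul x3 v8; ok v14 && (
  let v15 := mul x2 v14; ok v15 && (
  let v16 := sub v0 v15; ok v16 && (
  let v17 := add v0 v15; ok v17 && (
  let v18 := scale ⟨10774999203840, 0, 0, 0⟩ v4; ok v18 && (
  let v19 := scale ⟨45768245248, 0, 0, 0⟩ v18; ok v19 && (
  let v20 := cst ⟨183207198720, 0, 0, 0⟩; ok v20 && (
  let v21 := add v19 v20; ok v21 && (
  let v22 := mul v18 v21; ok v22 && (
  let v23 := add v1 v22; ok v23 && (
  let v24 := mul v18 v23; ok v24 && (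
  let v25 := add v0 v24; ok v25 && (
  let v26 := mul v18 v25; ok v26 && (
  let v27 := scale ⟨549755813888, 0, 0, 0⟩ v26; ok v27 && (
  let v28 := add v0 v27; ok v28 && (
  let v29 := mul v25 v28; ok v29 && (
  let v30 := mul x1 v5; ok v30 && (
  let v31 := mul v10 v15; ok v31 && (
  let v32 := scale ⟨2199023255552, 0, 0, 0⟩ v12; ok v32 && (
  let v33 := add v31 v32; ok v33 && (
  let v34 := add v33 x1; ok v34 && (
  let v35 := mul v30 v34; ok v35 && (
  let v36 := add v35 v0; ok v36 && (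
  let v37 := mul v10 v10; ok v37 && (
  let v38 := scale ⟨2199023255552, 0, 0, 0⟩ v37; ok v38 && (
  let v39 := add v38 v0; ok v39 && (
  let v40 := mul v12 v34; ok v40 && (
  let v41 := sub v40 v0; ok v41 && (
  let v42 := log v36; ok v42 && (
  let v43 := scale ⟨549755813888, 0, 0, 0⟩ v42; ok v43 && (
  let v44 := exp v43; ok v44 && (
  let v45 := scale ⟨549755813888, 0, 0, 0⟩ x0; ok v45 && (
  let v46 := mul v45 v42; ok v46 && (
  let v47 := neg v46; ok v47 && (
  let v48 := exp v47; ok v48 && (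
  let v49 := mul v12 v30; ok v49 && (
  let v50 := mul v49 v41; ok v50 && (
  let v51 := scale ⟨4398046511104, 0, 0, 0⟩ v50; ok v51 && (
  let v52 := add v51 v0; ok v52 && (
  let v53 := log v52; ok v53 && (
  let v54 := sub v53 v42; ok v54 && (
  let v55 := mul v45 v54; ok v55 && (
  let v56 := neg v55; ok v56 && (
  let v57 := exp v56; ok v57 && (
  let v58 := mul v15 v10; ok v58 && (
  let v59 := add v12 v58; ok v59 && (
  let v60 := inv v59; ok v60 && (
  let v61 := mul v17 v60; ok v61 && (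
  let v62 := mul v16 x1; ok v62 && (
  let v63 := mul v62 v61; ok v63 && (
  let v64 := mul v14 v14; ok v64 && (
  let v65 := sub v0 v5; ok v65 && (
  let v66 := mul v64 v65; ok v66 && (
  let v67 := mul v2 v2; ok v67 && (
  let v68 := add v12 v30; ok v68 && (
  let v69 := inv v68; ok v69 && (
  let v70 := mul v69 x0; ok v70 && (
  let v71 := mul v70 v2; ok v71 && (
  let v72 := mul v71 v71; ok v72 && (
  let v73 := sub v0 v64; ok v73 && (
  let v74 := mul v65 v73; ok v74 && (
  let v75 := mul v72 v74; ok v75 && (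
  let v76 := inv x0; ok v76 && (
  let v77 := cst ⟨45812285440, 0, 0, 0⟩; ok v77 && (
  let v78 := scale ⟨1527119872, 0, 0, 0⟩ v75; ok v78 && (
  let v79 := sub v77 v78; ok v79 && (
  let v80 := mul v75 v79; ok v80 && (
  let v81 := sub v1 v80; ok v81 && (
  let v82 := mul v75 v81; ok v82 && (
  let v83 := sub v0 v82; ok v83 && (
  let v84 := add v48 v0; ok v84 && (
  let v85 := mul v48 v48; ok v85 && (
  let v86 := add v85 v0; ok v86 && (
  let v87 := mul v48 v83; ok v87 && (
  let v88 := scale ⟨2199023255552, 0, 0, 0⟩ v87; ok v88 && (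
  let v89 := add v86 v88; ok v89 && (
  let v90 := inv v84; ok v90 && (
  let v91 := mul v89 v90; ok v91 && (
  let v92 := add v91 v84; ok v92 && (
  let v93 := mul v48 v63; ok v93 && (
  let v94 := scale ⟨549755813888, 0, 0, 0⟩ v93; ok v94 && (
  let v95 := mul v94 v92; ok v95 && (
  let v96 := sub v89 v95; ok v96 && (
  isPos 4 v89 && (
  isPos 4 v96 && (
  let v97 := inv v96; ok v97 && (
  let v98 := mul v45 v34; ok v98 && (
  let v99 := cst ⟨6597069766656, 0, 0, 0⟩; ok v99 && (
  let v100 := add v35 v99; ok v100 && (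
  let v101 := mul v98 v100; ok v101 && (
  let v102 := scale ⟨4398046511104, 0, 0, 0⟩ v35; ok v102 && (
  let v103 := add v102 v99; ok v103 && (
  let v104 := inv v103; ok v104 && (
  let v105 := mul v101 v104; ok v105 && (
  let v106 := mul v30 v105; ok v106 && (
  let v107 := scale ⟨2199023255552, 0, 0, 0⟩ v106; ok v107 && (
  let v108 := scale ⟨183274307584, 0, 0, 0⟩ v107; ok v108 && (
  let v109 := sub v1 v108; ok v109 && (
  let v110 := mul v107 v109; ok v110 && (
  let v111 := sub v0 v110; ok v111 && (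
  let v112 := mul v105 v111; ok v112 && (
  let v113 := mul v112 v97; ok v113 && (
  let v114 := mul v30 v113; ok v114 && (
  let v115 := add v114 v1; ok v115 && (
  let v116 := inv v115; ok v116 && (
  let v117 := mul v113 v116; ok v117 && (
  let v118 := mul v30 v117; ok v118 && (
  let v119 := mul v94 v114; ok v119 && (
  let v120 := add v119 v1; ok v120 && (
  let v121 := mul v120 v92; ok v121 && (
  let v122 := inv v89; ok v122 && (
  let v123 := mul v121 v122; ok v123 && (
  let v124 := mul v63 v118; ok v124 && (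
  let v125 := scale ⟨549755813888, 0, 0, 0⟩ v124; ok v125 && (
  let v126 := sub v0 v125; ok v126 && (
  let v127 := sub v0 v124; ok v127 && (
  let v128 := inv v127; ok v128 && (
  let v129 := mul v126 v128; ok v129 && (
  let v130 := add v124 v0; ok v130 && (
  let v131 := mul v48 v130; ok v131 && (
  let v132 := mul v16 v17; ok v132 && (
  let v133 := add v12 x1; ok v133 && (
  let v134 := mul v15 v12; ok v134 && (
  let v135 := mul v134 v10; ok v135 && (
  let v136 := scale ⟨2199023255552, 0, 0, 0⟩ v135; ok v136 && (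
  let v137 := add v39 v136; ok v137 && (
  let v138 := mul v133 v137; ok v138 && (
  let v139 := inv v138; ok v139 && (
  let v140 := mul v132 v139; ok v140 && (
  let v141 := mul x1 v140; ok v141 && (
  let v142 := inv v36; ok v142 && (
  let v143 := mul v75 v142; ok v143 && (
  let v144 := scale ⟨1527119872, 0, 0, 0⟩ v143; ok v144 && (
  let v145 := sub v77 v144; ok v145 && (
  let v146 := mul v143 v145; ok v146 && (
  let v147 := sub v1 v146; ok v147 && (
  let v148 := mul v143 v147; ok v148 && (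
  let v149 := sub v0 v148; ok v149 && (
  let v150 := add v57 v0; ok v150 && (
  let v151 := mul v57 v57; ok v151 && (
  let v152 := add v151 v0; ok v152 && (
  let v153 := mul v57 v149; ok v153 && (
  let v154 := scale ⟨2199023255552, 0, 0, 0⟩ v153; ok v154 && (
  let v155 := add v152 v154; ok v155 && (
  let v156 := inv v150; ok v156 && (
  let v157 := mul v155 v156; ok v157 && (
  let v158 := add v157 v150; ok v158 && (
  let v159 := mul v57 v141; ok v159 && (
  let v160 := scale ⟨549755813888, 0, 0, 0⟩ v159; ok v160 && (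
  let v161 := mul v160 v158; ok v161 && (
  let v162 := sub v155 v161; ok v162 && (
  isPos 4 v155 && (
  isPos 4 v162 && (
  let v163 := sub v0 v57; ok v163 && (
  let v164 := mul v163 v150; ok v164 && (
  let v165 := inv v162; ok v165 && (
  let v166 := mul v164 v165; ok v166 && (
  let v167 := scale ⟨549755813888, 0, 0, 0⟩ v166; ok v167 && (
  let v168 := add v167 v1; ok v168 && (
  let v169 := inv v168; ok v169 && (
  let v170 := mul v167 v169; ok v170 && (
  let v171 := mul v141 v170; ok v171 && (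
  let v172 := add v4 v0; ok v172 && (
  let v173 := inv v172; ok v173 && (
  let v174 := mul v4 v173; ok v174 && (
  let v175 := scale ⟨2199023255552, 0, 0, 0⟩ v174; ok v175 && (
  let v176 := sub v0 v175; ok v176 && (
  let v177 := sub v0 v4; ok v177 && (
  let v178 := mul x3 v173; ok v178 && (
  let v179 := mul v178 v176; ok v179 && (
  let v180 := add v17 v179; ok v180 && (
  let v181 := mul x0 v10; ok v181 && (
  let v182 := scale ⟨137438953472, 0, 0, 0⟩ v181; ok v182 && (
  let v183 := add v182 v1; ok v183 && (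
  let v184 := inv v183; ok v184 && (
  let v185 := mul x0 v184; ok v185 && (
  let v186 := scale ⟨274877906944, 0, 0, 0⟩ v185; ok v186 && (
  let v187 := scale ⟨549755813888, 0, 0, 0⟩ v181; ok v187 && (
  let v188 := cst ⟨2199023255552, 0, 0, 0⟩; ok v188 && (
  let v189 := add v187 v188; ok v189 && (
  let v190 := mul v189 v76; ok v190 && (
  let v191 := scale ⟨224412041216, 0, 0, 0⟩ v8; ok v191 && (
  let v192 := inv v29; ok v192 && (
  let v193 := mul v191 v192; ok v193 && (
  let v194 := mul v186 v17; ok v194 && (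
  let v195 := mul v194 v193; ok v195 && (
  let v196 := mul v2 v195; ok v196 && (
  let v197 := sub v0 v196; ok v197 && (
  let v198 := inv v197; ok v198 && (
  let v199 := mul v131 v196; ok v199 && (
  let v200 := sub v0 v199; ok v200 && (
  let v201 := inv v200; ok v201 && (
  let v202 := mul v16 v2; ok v202 && (
  let v203 := mul v202 v117; ok v203 && (
  let v204 := inv v14; ok v204 && (
  let v205 := mul v203 v204; ok v205 && (
  let v206 := scale ⟨549755813888, 0, 0, 0⟩ v205; ok v206 && (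
  let v207 := sub v0 v206; ok v207 && (
  let v208 := sub v0 v205; ok v208 && (
  let v209 := inv v208; ok v209 && (
  let v210 := mul v207 v209; ok v210 && (
  let v211 := mul x2 v117; ok v211 && (
  let v212 := mul v211 v210; ok v212 && (
  let v213 := mul x1 v212; ok v213 && (
  let v214 := mul v205 v210; ok v214 && (
  isPos 4 v208 && (
  let v215 := mul v214 v76; ok v215 && (
  let v216 := scale ⟨1374389534720, 0, 0, 0⟩ v215; ok v216 && (
  let v217 := sub v1 v216; ok v217 && (
  isPos 4 v217 && (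
  let v218 := scale ⟨3092376453120, 0, 0, 0⟩ v215; ok v218 && (
  let v219 := add v218 v188; ok v219 && (
  let v220 := mul v215 v219; ok v220 && (
  let v221 := add v0 v220; ok v221 && (
  let v222 := scale ⟨1546188226560, 0, 0, 0⟩ v215; ok v222 && (
  let v223 := add v222 v0; ok v223 && (
  let v224 := mul v215 v223; ok v224 && (
  let v225 := add v0 v224; ok v225 && (
  let v226 := mul v4 v14; ok v226 && (
  let v227 := sub v0 v66; ok v227 && (
  let v228 := mul v4 v15; ok v228 && (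
  let v229 := scale ⟨2199023255552, 0, 0, 0⟩ v228; ok v229 && (
  let v230 := sub v227 v229; ok v230 && (
  let v231 := mul v226 v226; ok v231 && (
  let v232 := add v230 v231; ok v232 && (
  let v233 := add v232 v0; ok v233 && (
  let v234 := scale ⟨549755813888, 0, 0, 0⟩ v233; ok v234 && (
  let v235 := scale ⟨549755813888, 0, 0, 0⟩ v30; ok v235 && (
  let v236 := sub v8 v235; ok v236 && (
  let v237 := mul v67 v227; ok v237 && (
  let v238 := mul v237 v7; ok v238 && (
  let v239 := scale ⟨137438953472, 0, 0, 0⟩ v238; ok v239 && (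
  let v240 := add v236 v239; ok v240 && (
  let v241 := mul v234 v240; ok v241 && (
  let v242 := mul v16 v61; ok v242 && (
  let v243 := mul v242 v2; ok v243 && (
  let v244 := mul v243 v117; ok v244 && (
  let v245 := mul v244 v129; ok v245 && (
  let v246 := mul v2 v245; ok v246 && (
  let v247 := add v131 v0; ok v247 && (
  let v248 := mul v247 v198; ok v248 && (
  let v249 := mul v131 v201; ok v249 && (
  let v250 := add v248 v249; ok v250 && (
  let v251 := mul v196 v250; ok v251 && (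
  let v252 := add v246 v251; ok v252 && (
  let v253 := mul v252 v76; ok v253 && (
  let v254 := mul v247 v196; ok v254 && (
  let v255 := mul v254 v198; ok v255 && (
  let v256 := add v246 v255; ok v256 && (
  let v257 := mul v256 v76; ok v257 && (
  let v258 := scale ⟨223338299392, 0, 0, 0⟩ v257; ok v258 && (
  let v259 := add v1 v258; ok v259 && (
  let v260 := mul v257 v259; ok v260 && (
  let v261 := add v0 v260; ok v261 && (
  let v262 := scale ⟨893353197568, 0, 0, 0⟩ v253; ok v262 && (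
  let v263 := add v0 v262; ok v263 && (
  let v264 := mul v253 v263; ok v264 && (
  let v265 := add v0 v264; ok v265 && (
  let v266 := mul v175 v178; ok v266 && (
  let v267 := mul v266 v221; ok v267 && (
  let v268 := mul v267 v265; ok v268 && (
  let v269 := mul v241 v261; ok v269 && (
  let v270 := add v44 v1; ok v270 && (
  let v271 := mul v268 v270; ok v271 && (
  let v272 := add v269 v271; ok v272 && (
  let v273 := add v44 v0; ok v273 && (
  let v274 := mul v268 v273; ok v274 && (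
  let v275 := mul v225 v273; ok v275 && (
  let v276 := mul v275 v178; ok v276 && (
  let v277 := mul v276 v177; ok v277 && (
  let v278 := mul v2 v180; ok v278 && (
  let v279 := inv v44; ok v279 && (
  let v280 := mul v278 v279; ok v280 && (
  let v281 := scale ⟨549755813888, 0, 0, 0⟩ v280; ok v281 && (
  let v282 := mul v61 v2; ok v282 && (
  let v283 := mul v282 v117; ok v283 && (
  let v284 := mul v283 v129; ok v284 && (
  let v285 := mul v16 v281; ok v285 && (
  let v286 := mul v272 v284; ok v286 && (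
  let v287 := mul v277 v213; ok v287 && (
  let v288 := add v286 v287; ok v288 && (
  let v289 := mul v288 v76; ok v289 && (
  let v290 := add v285 v289; ok v290 && (
  let v291 := mul v272 v247; ok v291 && (
  let v292 := mul v291 v198; ok v292 && (
  let v293 := mul v274 v131; ok v293 && (
  let v294 := mul v293 v201; ok v294 && (
  let v295 := add v292 v294; ok v295 && (
  let v296 := mul v295 v76; ok v296 && (
  let v297 := mul v16 v290; ok v297 && (
  let v298 := mul v195 v296; ok v298 && (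
  let v299 := add v297 v298; ok v299 && (
  let v300 := mul v67 v299; ok v300 && (
  let v301 := mul v300 v279; ok v301 && (
  let v302 := sub v0 v301; ok v302 && (
  let v303 := inv v302; ok v303 && (
  let v304 := mul v299 v303; ok v304 && (
  let v305 := mul x1 v304; ok v305 && (
  let v306 := mul v67 v304; ok v306 && (
  let v307 := mul v306 v279; ok v307 && (
  let v308 := sub v0 v307; ok v308 && (
  let v309 := mul v41 v308; ok v309 && (
  let v310 := sub v309 v305; ok v310 && (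
  let v311 := inv v310; ok v311 && (
  let v312 := mul v305 v311; ok v312 && (
  let v313 := sub v0 v305; ok v313 && (
  let v314 := inv v313; ok v314 && (
  let v315 := mul v63 v117; ok v315 && (
  let v316 := mul v315 v129; ok v316 && (
  let v317 := add v105 v316; ok v317 && (
  let v318 := mul v317 v314; ok v318 && (
  let v319 := mul v318 v306; ok v319 && (
  let v320 := scale ⟨223338299392, 0, 0, 0⟩ v319; ok v320 && (
  let v321 := add v1 v320; ok v321 && (
  let v322 := mul v319 v321; ok v322 && (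
  let v323 := add v0 v322; ok v323 && (
  let v324 := mul v319 v323; ok v324 && (
  let v325 := mul v324 v123; ok v325 && (
  let v326 := mul v325 v131; ok v326 && (
  let v327 := sub v0 v326; ok v327 && (
  let v328 := mul v318 v323; ok v328 && (
  let v329 := mul v328 v303; ok v329 && (
  let v330 := mul v329 v76; ok v330 && (
  let v331 := inv v327; ok v331 && (
  let v332 := mul v330 v331; ok v332 && (
  let v333 := mul v332 x2; ok v333 && (
  let v334 := mul v272 v198; ok v334 && (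
  let v335 := mul v274 v123; ok v335 && (
  let v336 := mul v335 v131; ok v336 && (
  let v337 := mul v336 v201; ok v337 && (
  let v338 := add v334 v337; ok v338 && (
  let v339 := mul v333 v338; ok v339 && (
  let v340 := mul v272 v61; ok v340 && (
  let v341 := mul v2 v113; ok v341 && (
  let v342 := mul v340 v341; ok v342 && (
  let v343 := mul v342 v129; ok v343 && (
  let v344 := mul v186 v2; ok v344 && (
  let v345 := mul v344 v17; ok v345 && (
  let v346 := mul v345 v16; ok v346 && (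
  let v347 := cst ⟨3298534883328, 0, 0, 0⟩; ok v347 && (
  let v348 := cst ⟨5497558138880, 0, 0, 0⟩; ok v348 && (
  let v349 := inv v348; ok v349 && (
  let v350 := mul v347 v349; ok v350 && (
  let v351 := mul v332 v190; ok v351 && (
  let v352 := mul v351 x2; ok v352 && (
  let v353 := inv v17; ok v353 && (
  let v354 := mul v352 v353; ok v354 && (
  let v355 := mul x0 v123; ok v355 && (
  let v356 := mul v355 v16; ok v356 && (
  let v357 := mul x2 v180; ok v357 && (
  let v358 := mul v357 v279; ok v358 && (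
  let v359 := scale ⟨549755813888, 0, 0, 0⟩ v358; ok v359 && (
  let v360 := mul v356 v359; ok v360 && (
  let v361 := mul v340 x2; ok v361 && (
  let v362 := mul v361 v113; ok v362 && (
  let v363 := mul v362 v129; ok v363 && (
  let v364 := add v360 v363; ok v364 && (
  let v365 := mul v123 v277; ok v365 && (
  let v366 := mul v365 v212; ok v366 && (
  let v367 := add v364 v366; ok v367 && (
  let v368 := mul v354 v367; ok v368 && (
  let v369 := mul v12 v41; ok v369 && (
  let v370 := scale ⟨4398046511104, 0, 0, 0⟩ v369; ok v370 && (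
  let v371 := sub v370 v34; ok v371 && (
  let v372 := mul v5 v371; ok v372 && (
  let v373 := mul v372 v142; ok v373 && (
  let v374 := mul x0 v373; ok v374 && (
  let v375 := mul x1 v373; ok v375 && (
  let v376 := add v375 v188; ok v376 && (
  let v377 := inv v376; ok v377 && (
  let v378 := mul v374 v377; ok v378 && (
  let v379 := mul x1 v378; ok v379 && (
  let v380 := scale ⟨549755813888, 0, 0, 0⟩ v379; ok v380 && (
  let v381 := sub v0 v380; ok v381 && (
  let v382 := mul v378 v381; ok v382 && (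
  let v383 := neg v382; ok v383 && (
  let v384 := mul v140 v170; ok v384 && (
  let v385 := add v383 v384; ok v385 && (
  let v386 := mul v383 v384; ok v386 && (
  let v387 := mul x1 v386; ok v387 && (
  let v388 := add v385 v387; ok v388 && (
  let v389 := mul v45 v373; ok v389 && (
  let v390 := add v171 v0; ok v390 && (
  let v391 := mul v384 v390; ok v391 && (
  let v392 := add v389 v391; ok v392 && (
  let v393 := mul v312 v392; ok v393 && (
  let v394 := mul x1 v393; ok v394 && (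
  let v395 := scale ⟨687194767360, 0, 0, 0⟩ v394; ok v395 && (
  let v396 := add v0 v395; ok v396 && (
  let v397 := mul v393 v396; ok v397 && (
  let v398 := add v388 v397; ok v398 && (
  let v399 := mul v388 v397; ok v399 && (
  let v400 := mul x1 v399; ok v400 && (
  let v401 := add v398 v400; ok v401 && (
  let v402 := mul x2 x3; ok v402 && (
  let v403 := mul v402 v172; ok v403 && (
  let v404 := mul v403 v8; ok v404 && (
  let v405 := add v401 v404; ok v405 && (
  let v406 := mul v401 v404; ok v406 && (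
  let v407 := mul x1 v406; ok v407 && (
  let v408 := add v405 v407; ok v408 && (
  let v409 := mul v5 v34; ok v409 && (
  let v410 := mul x1 v409; ok v410 && (
  let v411 := scale ⟨412316860416, 0, 0, 0⟩ v410; ok v411 && (
  let v412 := sub v1 v411; ok v412 && (
  let v413 := mul v409 v412; ok v413 && (
  let v414 := neg v413; ok v414 && (
  let v415 := add v408 v414; ok v415 && (
  let v416 := mul v408 v414; ok v416 && (
  let v417 := mul x1 v416; ok v417 && (
  let v418 := add v415 v417; ok v418 && (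
  let v419 := mul x2 v304; ok v419 && (
  let v420 := mul v419 v353; ok v420 && (
  let v421 := add v418 v420; ok v421 && (
  let v422 := mul v418 v420; ok v422 && (
  let v423 := mul x1 v422; ok v423 && (
  let v424 := add v421 v423; ok v424 && (
  let v425 := mul v172 v17; ok v425 && (
  let v426 := mul v425 v350; ok v426 && (
  let v427 := sub v424 v426; ok v427 && (
  let v428 := mul x1 v426; ok v428 && (
  let v429 := add v0 v428; ok v429 && (
  let v430 := inv v429; ok v430 && (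
  let v431 := mul v427 v430; ok v431 && (
  let v432 := mul x2 v2; ok v432 && (
  let v433 := mul v432 v304; ok v433 && (
  let v434 := sub v44 v306; ok v434 && (
  let v435 := inv v434; ok v435 && (
  let v436 := mul v433 v435; ok v436 && (
  let v437 := add v431 v436; ok v437 && (
  let v438 := mul v431 v436; ok v438 && (
  let v439 := mul x1 v438; ok v439 && (
  let v440 := add v437 v439; ok v440 && (
  let v441 := mul x1 v440; ok v441 && (
  let v442 := add v0 v441; ok v442 && (
  let v443 := mul v339 v196; ok v443 && (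
  let v444 := mul x1 v346; ok v444 && (
  let v445 := mul v368 v444; ok v445 && (
  let v446 := add v443 v445; ok v446 && (
  let v447 := mul v446 v442; ok v447 && (
  let v448 := add v440 v447; ok v448 && (
  let v449 := add v448 v339; ok v449 && (
  let v450 := add v449 v368; ok v450 && (
  let v451 := neg v450; ok v451 && (
  let v452 := cst ⟨1073741824, 0, 0, 0⟩; ok v452 && (
  let v453 := sub v451 v452; ok v453 && (
  let v454 := sub v13 v0; ok v454 && (
  let v455 := add v454 v188; ok v455 && (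
  let v456 := scale ⟨2199023255552, 0, 0, 0⟩ v350; ok v456 && (
  let v457 := sub v455 v456; ok v457 && (
  let v458 := mul v172 v457; ok v458 && (
  let v459 := mul v454 v456; ok v459 && (
  let v460 := add v459 v0; ok v460 && (
  let v461 := inv v460; ok v461 && (
  let v462 := mul v458 v461; ok v462 && (
  let v463 := mul v186 v296; ok v463 && (
  let v464 := scale ⟨549755813888, 0, 0, 0⟩ v193; ok v464 && (
  let v465 := add v10 v464; ok v465 && (
  let v466 := mul v463 v465; ok v466 && (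
  let v467 := scale ⟨2199023255552, 0, 0, 0⟩ v466; ok v467 && (
  let v468 := add v290 v467; ok v468 && (
  let v469 := scale ⟨2199023255552, 0, 0, 0⟩ v468; ok v469 && (
  let v470 := mul v469 v303; ok v470 && (
  let v471 := mul v2 v304; ok v471 && (
  let v472 := sub v17 v471; ok v472 && (
  let v473 := inv v472; ok v473 && (
  let v474 := mul v470 v473; ok v474 && (
  let v475 := sub v462 v474; ok v475 && (
  isPos 4 v197 && (
  isPos 4 v200 && (
  let v476 := scale ⟨2199023255552, 0, 0, 0⟩ v300; ok v476 && (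
  let v477 := sub v44 v476; ok v477 && (
  isPos 4 v477 && (
  isPos 4 v310 && (
  isPos 4 v127 && (
  let v478 := sub v1 v171; ok v478 && (
  isPos 4 v478 && (
  let v479 := scale ⟨687194767360, 0, 0, 0⟩ v0; ok v479 && (
  let v480 := sub v479 v257; ok v480 && (
  isPos 4 v480 && (
  let v481 := scale ⟨377957122048, 0, 0, 0⟩ v0; ok v481 && (
  let v482 := sub v481 v253; ok v482 && (
  isPos 4 v482 && (
  isPos 4 v472 && (
  let v483 := sub v1 v394; ok v483 && (
  isPos 4 v483 && (
  isPos 4 v313 && (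
  isPos 4 v327 && (
  let v484 := sub v479 v319; ok v484 && (
  isPos 4 v484 && (
  let v485 := mul v181 v181; ok v485 && (
  let v486 := cst ⟨14293651161088, 0, 0, 0⟩; ok v486 && (
  let v487 := cst ⟨10995116277760, 0, 0, 0⟩; ok v487 && (
  let v488 := inv v487; ok v488 && (
  let v489 := mul v486 v488; ok v489 && (
  let v490 := mul v485 v489; ok v490 && (
  let v491 := cst ⟨27487790694400, 0, 0, 0⟩; ok v491 && (
  let v492 := add v490 v491; ok v492 && (
  let v493 := mul v426 v430; ok v493 && (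
  let v494 := sub v32 x1; ok v494 && (
  let v495 := sub v494 v31; ok v495 && (
  let v496 := scale ⟨2199023255552, 0, 0, 0⟩ v2; ok v496 && (
  let v497 := add v496 v306; ok v497 && (
  let v498 := mul x0 v497; ok v498 && (
  let v499 := mul v492 v493; ok v499 && (
  let v500 := mul v303 v498; ok v500 && (
  let v501 := mul v76 v288; ok v501 && (
  let v502 := mul v5 v501; ok v502 && (
  let v503 := mul v17 v186; ok v503 && (
  let v504 := mul v503 v296; ok v504 && (
  let v505 := mul v30 v504; ok v505 && (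
  let v506 := add v502 v505; ok v506 && (
  let v507 := mul x0 v506; ok v507 && (
  let v508 := mul v500 v507; ok v508 && (
  let v509 := sub v499 v508; ok v509 && (
  let v510 := scale ⟨549755813888, 0, 0, 0⟩ v471; ok v510 && (
  let v511 := add v0 v510; ok v511 && (
  let v512 := mul v303 v511; ok v512 && (
  let v513 := mul x1 v16; ok v513 && (
  let v514 := mul v513 v180; ok v514 && (
  let v515 := mul v17 v44; ok v515 && (
  let v516 := inv v515; ok v516 && (
  let v517 := mul v514 v516; ok v517 && (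
  let v518 := mul v512 v517; ok v518 && (
  let v519 := sub v495 v518; ok v519 && (
  let v520 := mul v193 v509; ok v520 && (
  let v521 := sub v0 v193; ok v521 && (
  let v522 := mul v5 v519; ok v522 && (
  let v523 := mul v521 v522; ok v523 && (
  let v524 := mul v492 v523; ok v524 && (
  let v525 := add v520 v524; ok v525 && (
  isPos 4 v475 && (
  isPos 4 v453 && (
  isPos 4 v525 && (
  isPos 4 v519 && (
  true)))))))))))))))))))))))))))))))))))))))))))))))))))))))))))))))))))))))))))))))))))))))))))))))))))))))))))))))))))))))))))))))))))))))))))))))))))))))))))))))))))))))))))))))))))))))))))))))))))))))))))))))))))))))))))))))))))))))))))))))))))))))))))))))))))))))))))))))))))))))))))))))))))))))))))))))))))))))))))))))))))))))))))))))))))))))))))))))))))))))))))))))))))))))))))))))))))))))))))))))))))))))))))))))))))))))))))))))))))))))))))))))))))))))))))))))))))))))))))))))))))))))))))))))))))))))))))))))))))))))))))))))))))))))))))))))))))))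
  | _ => false

set_option maxRecDepth 1000000 in
theorem chk1_eq (O : Ops) (m : List O.α)
    (h : chk1 O.cst O.add O.sub O.mul O.scale O.neg O.inv O.exp O.log O.ok O.isPos O.isLt m = true) :
    runG O 4 prog1 m = true := by
  match m, h with
  | [x0, x1, x2, x3], h => exact h

def chkB1 : List opsE.α → Bool :=
  chk1 opsE.cst opsE.add opsE.sub opsE.mul opsE.scale opsE.neg opsE.inv opsE.exp opsE.log opsE.ok opsE.isPos opsE.isLt

theorem chkB1_eq (m : List opsE.α) (h : chkB1 m = true) : runG opsE 4 prog1 m = true :=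
  chk1_eq opsE m h

def prog2 : List Op := [
  .const ⟨1099511627776, 0, 0, 0⟩,
  .const ⟨549755813888, 0, 0, 0⟩,
  .mul 3 4,
  .mul 0 6,
  .scale ⟨549755813888, 0, 0, 0⟩ 0,
  .mul 7 7,
  .mul 1 1,
  .sub 6 0,
  .inv 0,
  .mul 4 0,
  .scale ⟨2199023255552, 0, 0, 0⟩ 0,
  .scale ⟨2199023255552, 0, 0, 0⟩ 2,
  .sub 0 11,
  .add 0 2,
  .mul 17 5,
  .mul 17 0,
  .sub 15 0,
  .add 16 1,
  .scale ⟨10774999203840, 0, 0, 0⟩ 13,
  .scale ⟨45768245248, 0, 0, 0⟩ 0,
  .const ⟨183207198720, 0, 0, 0⟩,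
  .add 1 0,
  .mul 3 0,
  .add 21 0,
  .mul 5 0,
  .add 24 0,
  .mul 7 0,
  .scale ⟨549755813888, 0, 0, 0⟩ 0,
  .add 27 0,
  .mul 3 0,
  .mul 31 24,
  .mul 20 15,
  .scale ⟨2199023255552, 0, 0, 0⟩ 19,
  .add 1 0,
  .add 0 35,
  .mul 4 0,
  .add 0 35,
  .mul 26 26,
  .scale ⟨2199023255552, 0, 0, 0⟩ 0,
  .add 0 38,
  .mul 27 5,
  .sub 0 40,
  .log 5,
  .scale ⟨549755813888, 0, 0, 0⟩ 0,
  .exp 0,
  .scale ⟨549755813888, 0, 0, 0⟩ 45,
  .mul 0 3,
  .neg 0,
  .exp 0,
  .mul 36 18,
  .mul 0 8,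
  .scale ⟨4398046511104, 0, 0, 0⟩ 0,
  .add 0 51,
  .log 0,
  .sub 0 11,
  .mul 9 0,
  .neg 0,
  .exp 0,
  .mul 42 47,
  .add 46 0,
  .inv 0,
  .mul 43 0,
  .mul 45 63,
  .mul 0 1,
  .mul 49 49,
  .sub 64 59,
  .mul 1 0,
  .mul 64 64,
  .add 55 37,
  .inv 0,
  .mul 0 70,
  .mul 0 68,
  .mul 0 0,
  .sub 72 8,
  .mul 8 0,
  .mul 2 0,
  .inv 76,
  .const ⟨45812285440, 0, 0, 0⟩,
  .scale ⟨1527119872, 0, 0, 0⟩ 2,
  .sub 1 0,
  .mul 4 0,
  .sub 79 0,
  .mul 6 0,
  .sub 82 0,
  .add 35 83,
  .mul 36 36,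
  .add 0 85,
  .mul 38 3,
  .scale ⟨2199023255552, 0, 0, 0⟩ 0,
  .add 2 0,
  .inv 5,
  .mul 1 0,
  .add 0 7,
  .mul 44 29,
  .scale ⟨549755813888, 0, 0, 0⟩ 0,
  .mul 0 2,
  .sub 6 0,
  .pos 7,
  .pos 0,
  .inv 0,
  .mul 52 63,
  .const ⟨6597069766656, 0, 0, 0⟩,
  .add 64 0,
  .mul 2 0,
  .scale ⟨4398046511104, 0, 0, 0⟩ 66,
  .add 0 3,
  .inv 0,
  .mul 3 0,
  .mul 75 0,
  .scale ⟨2199023255552, 0, 0, 0⟩ 0,
  .scale ⟨183274307584, 0, 0, 0⟩ 0,
  .sub 107 0,
  .mul 2 0,
  .sub 110 0,
  .mul 6 0,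
  .mul 0 15,
  .mul 83 0,
  .add 0 113,
  .inv 0,
  .mul 3 0,
  .mul 87 0,
  .mul 24 4,
  .add 0 118,
  .mul 0 28,
  .inv 32,
  .mul 1 0,
  .mul 60 5,
  .scale ⟨549755813888, 0, 0, 0⟩ 0,
  .sub 125 0,
  .sub 126 2,
  .inv 0,
  .mul 2 0,
  .add 5 129,
  .mul 82 0,
  .mul 115 114,
  .add 120 134,
  .mul 118 121,
  .mul 0 124,
  .scale ⟨2199023255552, 0, 0, 0⟩ 0,
  .add 97 0,
  .mul 4 0,
  .inv 0,
  .mul 7 0,
  .mul 142 0,
  .inv 105,
  .mul 67 0,
  .scale ⟨1527119872, 0, 0, 0⟩ 0,
  .sub 67 0,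
  .mul 2 0,
  .sub 145 0,
  .mul 4 0,
  .sub 148 0,
  .add 92 149,
  .mul 93 93,
  .add 0 151,
  .mul 95 3,
  .scale ⟨2199023255552, 0, 0, 0⟩ 0,
  .add 2 0,
  .inv 5,
  .mul 1 0,
  .add 0 7,
  .mul 101 17,
  .scale ⟨549755813888, 0, 0, 0⟩ 0,
  .mul 0 2,
  .sub 6 0,
  .pos 7,
  .pos 0,
  .sub 162 105,
  .mul 0 13,
  .inv 2,
  .mul 1 0,
  .scale ⟨549755813888, 0, 0, 0⟩ 0,
  .add 0 166,
  .inv 0,
  .mul 2 0,
  .mul 29 0,
  .add 167 171,
  .inv 0,
  .mul 169 0,
  .scale ⟨2199023255552, 0, 0, 0⟩ 0,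
  .sub 175 0,
  .sub 176 172,
  .mul 181 4,
  .mul 0 2,
  .add 162 0,
  .mul 181 170,
  .scale ⟨137438953472, 0, 0, 0⟩ 0,
  .add 0 181,
  .inv 0,
  .mul 185 0,
  .scale ⟨274877906944, 0, 0, 0⟩ 0,
  .scale ⟨549755813888, 0, 0, 0⟩ 5,
  .const ⟨2199023255552, 0, 0, 0⟩,
  .add 1 0,
  .mul 0 113,
  .scale ⟨224412041216, 0, 0, 0⟩ 182,
  .inv 162,
  .mul 1 0,
  .mul 7 176,
  .mul 0 1,
  .mul 193 0,
  .sub 196 0,
  .inv 0,
  .mul 67 2,
  .sub 199 0,
  .inv 0,
  .mul 203 84,
  .scale ⟨1649267441664, 0, 0, 0⟩ 0,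
  .const ⟨733365665792, 0, 0, 0⟩,
  .add 1 0,
  .scale ⟨549755813888, 0, 0, 0⟩ 0,
  .scale ⟨2199023255552, 0, 0, 0⟩ 130,
  .add 0 207,
  .add 132 208,
  .mul 205 195,
  .sub 210 144,
  .mul 207 196,
  .scale ⟨2199023255552, 0, 0, 0⟩ 0,
  .sub 2 0,
  .mul 4 4,
  .add 1 0,
  .add 0 216,
  .scale ⟨549755813888, 0, 0, 0⟩ 0,
  .scale ⟨549755813888, 0, 0, 0⟩ 188,
  .sub 211 0,
  .mul 153 9,
  .mul 0 214,
  .scale ⟨137438953472, 0, 0, 0⟩ 0,
  .add 3 0,
  .mul 6 0,
  .mul 209 164,
  .mul 0 224,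
  .mul 0 110,
  .mul 0 99,
  .mul 227 0,
  .add 99 230,
  .mul 0 33,
  .mul 101 31,
  .add 1 0,
  .mul 38 0,
  .add 5 0,
  .mul 0 160,
  .mul 6 41,
  .mul 0 40,
  .add 9 0,
  .mul 0 164,
  .scale ⟨223338299392, 0, 0, 0⟩ 0,
  .add 241 0,
  .mul 2 0,
  .add 244 0,
  .scale ⟨893353197568, 0, 0, 0⟩ 8,
  .add 246 0,
  .mul 10 0,
  .add 248 0,
  .mul 74 71,
  .mul 0 42,
  .mul 0 2,
  .mul 27 7,
  .add 209 252,
  .mul 2 0,
  .add 2 0,
  .add 212 256,
  .mul 5 0,
  .mul 49 1,
  .mul 0 81,
  .mul 0 83,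
  .mul 259 81,
  .inv 218,
  .mul 1 0,
  .scale ⟨549755813888, 0, 0, 0⟩ 0,
  .mul 204 263,
  .mul 0 149,
  .mul 0 138,
  .mul 252 3,
  .mul 13 1,
  .mul 9 64,
  .add 1 0,
  .mul 0 196,
  .add 4 0,
  .mul 18 43,
  .mul 0 77,
  .mul 18 145,
  .mul 0 76,
  .add 2 0,
  .mul 0 203,
  .mul 264 6,
  .mul 86 1,
  .add 1 0,
  .mul 216 0,
  .mul 0 21,
  .sub 285 0,
  .inv 0,
  .mul 4 0,
  .mul 290 0,
  .mul 222 1,
  .mul 0 27,
  .sub 291 0,
  .mul 251 0,
  .sub 0 4,
  .inv 0,
  .mul 6 0,
  .sub 296 7,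
  .inv 0,
  .mul 235 181,
  .mul 0 170,
  .add 195 0,
  .mul 0 3,
  .mul 0 12,
  .scale ⟨223338299392, 0, 0, 0⟩ 0,
  .add 303 0,
  .mul 2 0,
  .add 306 0,
  .mul 4 0,
  .mul 0 185,
  .mul 0 178,
  .sub 310 0,
  .mul 9 4,
  .mul 0 25,
  .mul 0 237,
  .inv 3,
  .mul 1 0,
  .mul 0 319,
  .mul 61 119,
  .mul 60 195,
  .mul 0 188,
  .mul 0 119,
  .add 3 0,
  .mul 5 0,
  .mul 67 262,
  .mul 322 211,
  .mul 1 0,
  .mul 0 197,
  .mul 141 325,
  .mul 0 311,
  .mul 0 313,
  .const ⟨3298534883328, 0, 0, 0⟩,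
  .const ⟨5497558138880, 0, 0, 0⟩,
  .inv 0,
  .mul 2 0,
  .inv 336,
  .mul 129 0,
  .mul 20 146,
  .mul 0 340,
  .inv 321,
  .mul 1 0,
  .mul 341 217,
  .mul 0 325,
  .mul 345 162,
  .mul 0 80,
  .scale ⟨549755813888, 0, 0, 0⟩ 0,
  .mul 3 0,
  .mul 22 349,
  .mul 0 234,
  .mul 0 219,
  .add 3 0,
  .mul 227 89,
  .mul 0 15,
  .add 2 0,
  .mul 13 0,
  .mul 342 313,
  .scale ⟨4398046511104, 0, 0, 0⟩ 0,
  .sub 0 322,
  .mul 352 0,
  .mul 0 216,
  .mul 360 0,
  .mul 362 1,
  .add 0 173,
  .inv 0,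
  .mul 3 0,
  .mul 366 0,
  .scale ⟨549755813888, 0, 0, 0⟩ 0,
  .sub 366 0,
  .mul 3 0,
  .neg 0,
  .mul 229 199,
  .add 1 0,
  .mul 2 1,
  .mul 374 0,
  .add 2 0,
  .mul 329 15,
  .add 204 375,
  .mul 6 0,
  .add 2 0,
  .mul 82 0,
  .mul 381 0,
  .scale ⟨687194767360, 0, 0, 0⟩ 0,
  .add 381 0,
  .mul 3 0,
  .add 9 0,
  .mul 10 1,
  .mul 387 0,
  .add 2 0,
  .mul 390 391,
  .mul 0 216,
  .mul 0 381,
  .add 3 0,
  .mul 4 1,
  .mul 394 0,
  .add 2 0,
  .mul 389 360,
  .mul 397 0,
  .scale ⟨412316860416, 0, 0, 0⟩ 0,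
  .sub 396 0,
  .mul 3 0,
  .neg 0,
  .add 6 0,
  .mul 7 1,
  .mul 404 0,
  .add 2 0,
  .mul 407 116,
  .mul 0 66,
  .add 2 0,
  .mul 3 1,
  .mul 410 0,
  .add 2 0,
  .mul 238 393,
  .mul 0 77,
  .sub 2 0,
  .mul 415 1,
  .add 414 0,
  .inv 0,
  .mul 3 0,
  .mul 420 415,
  .mul 0 130,
  .sub 375 129,
  .inv 0,
  .mul 2 0,
  .add 5 0,
  .mul 6 1,
  .mul 426 0,
  .add 2 0,
  .mul 428 0,
  .add 427 0,
  .mul 105 232,
  .mul 431 99,
  .mul 76 0,
  .add 2 0,
  .mul 0 4,
  .add 7 0,
  .add 0 111,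
  .add 0 81,
  .neg 0,
  .const ⟨1073741824, 0, 0, 0⟩,
  .sub 1 0,
  .sub 426 439,
  .add 0 252,
  .scale ⟨2199023255552, 0, 0, 0⟩ 107,
  .sub 1 0,
  .mul 271 0,
  .mul 4 2,
  .add 0 445,
  .inv 0,
  .mul 3 0,
  .mul 262 168,
  .scale ⟨549755813888, 0, 0, 0⟩ 256,
  .add 440 0,
  .mul 2 0,
  .scale ⟨2199023255552, 0, 0, 0⟩ 0,
  .add 179 0,
  .scale ⟨2199023255552, 0, 0, 0⟩ 0,
  .mul 0 168,
  .mul 454 168,
  .sub 440 0,
  .inv 0,
  .mul 3 0,
  .sub 12 0,
  .pos 264,
  .pos 261,
  .scale ⟨2199023255552, 0, 0, 0⟩ 177,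
  .sub 418 0,
  .pos 0,
  .pos 169,
  .pos 336,
  .sub 462 292,
  .pos 0,
  .scale ⟨687194767360, 0, 0, 0⟩ 464,
  .sub 0 224,
  .pos 0,
  .scale ⟨377957122048, 0, 0, 0⟩ 466,
  .sub 0 230,
  .pos 0,
  .pos 10,
  .sub 467 88,
  .pos 0,
  .pos 172,
  .pos 158,
  .sub 4 166,
  .pos 0,
  .mul 289 289,
  .const ⟨14293651161088, 0, 0, 0⟩,
  .const ⟨10995116277760, 0, 0, 0⟩,
  .inv 0,
  .mul 2 0,
  .mul 4 0,
  .const ⟨27487790694400, 0, 0, 0⟩,
  .add 1 0,
  .mul 66 62,
  .sub 447 481,
  .sub 0 449,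
  .scale ⟨2199023255552, 0, 0, 0⟩ 479,
  .add 0 192,
  .mul 484 0,
  .mul 6 5,
  .mul 198 1,
  .mul 410 214,
  .mul 482 0,
  .mul 471 302,
  .mul 0 209,
  .mul 460 0,
  .add 3 0,
  .mul 493 0,
  .mul 7 0,
  .sub 9 0,
  .scale ⟨549755813888, 0, 0, 0⟩ 38,
  .add 496 0,
  .mul 210 0,
  .mul 500 482,
  .mul 0 319,
  .mul 483 456,
  .inv 0,
  .mul 2 0,
  .mul 5 0,
  .sub 23 0,
  .mul 312 10,
  .sub 506 313,
  .mul 502 2,
  .mul 1 0,
  .mul 31 0,
  .add 4 0,
  .pos 50,
  .pos 72,
  .pos 0,
  .pos 6]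

def chk2 {α : Type} (cst : Z → α) (add sub mul : α → α → α) (scale : Z → α → α)
    (neg inv exp log : α → α) (ok : α → Bool) (isPos : Nat → α → Bool) (isLt : α → Nat → Bool) :
    List α → Bool
  | [x0, x1, x2, x3] =>
  let v0 := cst ⟨1099511627776, 0, 0, 0⟩; ok v0 && (
  let v1 := cst ⟨549755813888, 0, 0, 0⟩; ok v1 && (
  let v2 := mul x1 x2; ok v2 && (
  let v3 := mul v2 x3; ok v3 && (
  let v4 := scale ⟨549755813888, 0, 0, 0⟩ v3; ok v4 && (
  let v5 := mul x2 x2; ok v5 && (
  let v6 := mul v4 v4; ok v6 && (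
  let v7 := sub v0 v6; ok v7 && (
  let v8 := inv v7; ok v8 && (
  let v9 := mul v4 v8; ok v9 && (
  let v10 := scale ⟨2199023255552, 0, 0, 0⟩ v9; ok v10 && (
  let v11 := scale ⟨2199023255552, 0, 0, 0⟩ v8; ok v11 && (
  let v12 := sub v11 v0; ok v12 && (
  let v13 := add v12 v10; ok v13 && (
  let v14 := mul x3 v8; ok v14 && (
  let v15 := mul x2 v14; ok v15 && (
  let v16 := sub v0 v15; ok v16 && (
  let v17 := add v0 v15; ok v17 && (
  let v18 := scale ⟨10774999203840, 0, 0, 0⟩ v4; ok v18 && (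
  let v19 := scale ⟨45768245248, 0, 0, 0⟩ v18; ok v19 && (
  let v20 := cst ⟨183207198720, 0, 0, 0⟩; ok v20 && (
  let v21 := add v19 v20; ok v21 && (
  let v22 := mul v18 v21; ok v22 && (
  let v23 := add v1 v22; ok v23 && (
  let v24 := mul v18 v23; ok v24 && (
  let v25 := add v0 v24; ok v25 && (
  let v26 := mul v18 v25; ok v26 && (
  let v27 := scale ⟨549755813888, 0, 0, 0⟩ v26; ok v27 && (
  let v28 := add v0 v27; ok v28 && (
  let v29 := mul v25 v28; ok v29 && (
  let v30 := mul x1 v5; ok v30 && (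
  let v31 := mul v10 v15; ok v31 && (
  let v32 := scale ⟨2199023255552, 0, 0, 0⟩ v12; ok v32 && (
  let v33 := add v31 v32; ok v33 && (
  let v34 := add v33 x1; ok v34 && (
  let v35 := mul v30 v34; ok v35 && (
  let v36 := add v35 v0; ok v36 && (
  let v37 := mul v10 v10; ok v37 && (
  let v38 := scale ⟨2199023255552, 0, 0, 0⟩ v37; ok v38 && (
  let v39 := add v38 v0; ok v39 && (
  let v40 := mul v12 v34; ok v40 && (
  let v41 := sub v40 v0; ok v41 && (
  let v42 := log v36; ok v42 && (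
  let v43 := scale ⟨549755813888, 0, 0, 0⟩ v42; ok v43 && (
  let v44 := exp v43; ok v44 && (
  let v45 := scale ⟨549755813888, 0, 0, 0⟩ x0; ok v45 && (
  let v46 := mul v45 v42; ok v46 && (
  let v47 := neg v46; ok v47 && (
  let v48 := exp v47; ok v48 && (
  let v49 := mul v12 v30; ok v49 && (
  let v50 := mul v49 v41; ok v50 && (
  let v51 := scale ⟨4398046511104, 0, 0, 0⟩ v50; ok v51 && (
  let v52 := add v51 v0; ok v52 && (
  let v53 := log v52; ok v53 && (
  let v54 := sub v53 v42; ok v54 && (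
  let v55 := mul v45 v54; ok v55 && (
  let v56 := neg v55; ok v56 && (
  let v57 := exp v56; ok v57 && (
  let v58 := mul v15 v10; ok v58 && (
  let v59 := add v12 v58; ok v59 && (
  let v60 := inv v59; ok v60 && (
  let v61 := mul v17 v60; ok v61 && (
  let v62 := mul v16 x1; ok v62 && (
  let v63 := mul v62 v61; ok v63 && (
  let v64 := mul v14 v14; ok v64 && (
  let v65 := sub v0 v5; ok v65 && (
  let v66 := mul v64 v65; ok v66 && (
  let v67 := mul v2 v2; ok v67 && (
  let v68 := add v12 v30; ok v68 && (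
  let v69 := inv v68; ok v69 && (
  let v70 := mul v69 x0; ok v70 && (
  let v71 := mul v70 v2; ok v71 && (
  let v72 := mul v71 v71; ok v72 && (
  let v73 := sub v0 v64; ok v73 && (
  let v74 := mul v65 v73; ok v74 && (
  let v75 := mul v72 v74; ok v75 && (
  let v76 := inv x0; ok v76 && (
  let v77 := cst ⟨45812285440, 0, 0, 0⟩; ok v77 && (
  let v78 := scale ⟨1527119872, 0, 0, 0⟩ v75; ok v78 && (
  let v79 := sub v77 v78; ok v79 && (
  let v80 := mul v75 v79; ok v80 && (
  let v81 := sub v1 v80; ok v81 && (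
  let v82 := mul v75 v81; ok v82 && (
  let v83 := sub v0 v82; ok v83 && (
  let v84 := add v48 v0; ok v84 && (
  let v85 := mul v48 v48; ok v85 && (
  let v86 := add v85 v0; ok v86 && (
  let v87 := mul v48 v83; ok v87 && (
  let v88 := scale ⟨2199023255552, 0, 0, 0⟩ v87; ok v88 && (
  let v89 := add v86 v88; ok v89 && (
  let v90 := inv v84; ok v90 && (
  let v91 := mul v89 v90; ok v91 && (
  let v92 := add v91 v84; ok v92 && (
  let v93 := mul v48 v63; ok v93 && (
  let v94 := scale ⟨549755813888, 0, 0, 0⟩ v93; ok v94 && (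
  let v95 := mul v94 v92; ok v95 && (
  let v96 := sub v89 v95; ok v96 && (
  isPos 4 v89 && (
  isPos 4 v96 && (
  let v97 := inv v96; ok v97 && (
  let v98 := mul v45 v34; ok v98 && (
  let v99 := cst ⟨6597069766656, 0, 0, 0⟩; ok v99 && (
  let v100 := add v35 v99; ok v100 && (
  let v101 := mul v98 v100; ok v101 && (
  let v102 := scale ⟨4398046511104, 0, 0, 0⟩ v35; ok v102 && (
  let v103 := add v102 v99; ok v103 && (
  let v104 := inv v103; ok v104 && (
  let v105 := mul v101 v104; ok v105 && (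
  let v106 := mul v30 v105; ok v106 && (
  let v107 := scale ⟨2199023255552, 0, 0, 0⟩ v106; ok v107 && (
  let v108 := scale ⟨183274307584, 0, 0, 0⟩ v107; ok v108 && (
  let v109 := sub v1 v108; ok v109 && (
  let v110 := mul v107 v109; ok v110 && (
  let v111 := sub v0 v110; ok v111 && (
  let v112 := mul v105 v111; ok v112 && (
  let v113 := mul v112 v97; ok v113 && (
  let v114 := mul v30 v113; ok v114 && (
  let v115 := add v114 v1; ok v115 && (
  let v116 := inv v115; ok v116 && (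
  let v117 := mul v113 v116; ok v117 && (
  let v118 := mul v30 v117; ok v118 && (
  let v119 := mul v94 v114; ok v119 && (
  let v120 := add v119 v1; ok v120 && (
  let v121 := mul v120 v92; ok v121 && (
  let v122 := inv v89; ok v122 && (
  let v123 := mul v121 v122; ok v123 && (
  let v124 := mul v63 v118; ok v124 && (
  let v125 := scale ⟨549755813888, 0, 0, 0⟩ v124; ok v125 && (
  let v126 := sub v0 v125; ok v126 && (
  let v127 := sub v0 v124; ok v127 && (
  let v128 := inv v127; ok v128 && (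
  let v129 := mul v126 v128; ok v129 && (
  let v130 := add v124 v0; ok v130 && (
  let v131 := mul v48 v130; ok v131 && (
  let v132 := mul v16 v17; ok v132 && (
  let v133 := add v12 x1; ok v133 && (
  let v134 := mul v15 v12; ok v134 && (
  let v135 := mul v134 v10; ok v135 && (
  let v136 := scale ⟨2199023255552, 0, 0, 0⟩ v135; ok v136 && (
  let v137 := add v39 v136; ok v137 && (
  let v138 := mul v133 v137; ok v138 && (
  let v139 := inv v138; ok v139 && (
  let v140 := mul v132 v139; ok v140 && (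
  let v141 := mul x1 v140; ok v141 && (
  let v142 := inv v36; ok v142 && (
  let v143 := mul v75 v142; ok v143 && (
  let v144 := scale ⟨1527119872, 0, 0, 0⟩ v143; ok v144 && (
  let v145 := sub v77 v144; ok v145 && (
  let v146 := mul v143 v145; ok v146 && (
  let v147 := sub v1 v146; ok v147 && (
  let v148 := mul v143 v147; ok v148 && (
  let v149 := sub v0 v148; ok v149 && (
  let v150 := add v57 v0; ok v150 && (
  let v151 := mul v57 v57; ok v151 && (
  let v152 := add v151 v0; ok v152 && (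
  let v153 := mul v57 v149; ok v153 && (
  let v154 := scale ⟨2199023255552, 0, 0, 0⟩ v153; ok v154 && (
  let v155 := add v152 v154; ok v155 && (
  let v156 := inv v150; ok v156 && (
  let v157 := mul v155 v156; ok v157 && (
  let v158 := add v157 v150; ok v158 && (
  let v159 := mul v57 v141; ok v159 && (
  let v160 := scale ⟨549755813888, 0, 0, 0⟩ v159; ok v160 && (
  let v161 := mul v160 v158; ok v161 && (
  let v162 := sub v155 v161; ok v162 && (
  isPos 4 v155 && (
  isPos 4 v162 && (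
  let v163 := sub v0 v57; ok v163 && (
  let v164 := mul v163 v150; ok v164 && (
  let v165 := inv v162; ok v165 && (
  let v166 := mul v164 v165; ok v166 && (
  let v167 := scale ⟨549755813888, 0, 0, 0⟩ v166; ok v167 && (
  let v168 := add v167 v1; ok v168 && (
  let v169 := inv v168; ok v169 && (
  let v170 := mul v167 v169; ok v170 && (
  let v171 := mul v141 v170; ok v171 && (
  let v172 := add v4 v0; ok v172 && (
  let v173 := inv v172; ok v173 && (
  let v174 := mul v4 v173; ok v174 && (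
  let v175 := scale ⟨2199023255552, 0, 0, 0⟩ v174; ok v175 && (
  let v176 := sub v0 v175; ok v176 && (
  let v177 := sub v0 v4; ok v177 && (
  let v178 := mul x3 v173; ok v178 && (
  let v179 := mul v178 v176; ok v179 && (
  let v180 := add v17 v179; ok v180 && (
  let v181 := mul x0 v10; ok v181 && (
  let v182 := scale ⟨137438953472, 0, 0, 0⟩ v181; ok v182 && (
  let v183 := add v182 v1; ok v183 && (
  let v184 := inv v183; ok v184 && (
  let v185 := mul x0 v184; ok v185 && (
  let v186 := scale ⟨274877906944, 0, 0, 0⟩ v185; ok v186 && (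
  let v187 := scale ⟨549755813888, 0, 0, 0⟩ v181; ok v187 && (
  let v188 := cst ⟨2199023255552, 0, 0, 0⟩; ok v188 && (
  let v189 := add v187 v188; ok v189 && (
  let v190 := mul v189 v76; ok v190 && (
  let v191 := scale ⟨224412041216, 0, 0, 0⟩ v8; ok v191 && (
  let v192 := inv v29; ok v192 && (
  let v193 := mul v191 v192; ok v193 && (
  let v194 := mul v186 v17; ok v194 && (
  let v195 := mul v194 v193; ok v195 && (
  let v196 := mul v2 v195; ok v196 && (
  let v197 := sub v0 v196; ok v197 && (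
  let v198 := inv v197; ok v198 && (
  let v199 := mul v131 v196; ok v199 && (
  let v200 := sub v0 v199; ok v200 && (
  let v201 := inv v200; ok v201 && (
  let v202 := mul x1 v117; ok v202 && (
  let v203 := scale ⟨1649267441664, 0, 0, 0⟩ v202; ok v203 && (
  let v204 := cst ⟨733365665792, 0, 0, 0⟩; ok v204 && (
  let v205 := add v203 v204; ok v205 && (
  let v206 := scale ⟨549755813888, 0, 0, 0⟩ v205; ok v206 && (
  let v207 := scale ⟨2199023255552, 0, 0, 0⟩ v76; ok v207 && (
  let v208 := add v207 v0; ok v208 && (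
  let v209 := add v76 v0; ok v209 && (
  let v210 := mul v4 v14; ok v210 && (
  let v211 := sub v0 v66; ok v211 && (
  let v212 := mul v4 v15; ok v212 && (
  let v213 := scale ⟨2199023255552, 0, 0, 0⟩ v212; ok v213 && (
  let v214 := sub v211 v213; ok v214 && (
  let v215 := mul v210 v210; ok v215 && (
  let v216 := add v214 v215; ok v216 && (
  let v217 := add v216 v0; ok v217 && (
  let v218 := scale ⟨549755813888, 0, 0, 0⟩ v217; ok v218 && (
  let v219 := scale ⟨549755813888, 0, 0, 0⟩ v30; ok v219 && (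
  let v220 := sub v8 v219; ok v220 && (
  let v221 := mul v67 v211; ok v221 && (
  let v222 := mul v221 v7; ok v222 && (
  let v223 := scale ⟨137438953472, 0, 0, 0⟩ v222; ok v223 && (
  let v224 := add v220 v223; ok v224 && (
  let v225 := mul v218 v224; ok v225 && (
  let v226 := mul v16 v61; ok v226 && (
  let v227 := mul v226 v2; ok v227 && (
  let v228 := mul v227 v117; ok v228 && (
  let v229 := mul v228 v129; ok v229 && (
  let v230 := mul v2 v229; ok v230 && (
  let v231 := add v131 v0; ok v231 && (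
  let v232 := mul v231 v198; ok v232 && (
  let v233 := mul v131 v201; ok v233 && (
  let v234 := add v232 v233; ok v234 && (
  let v235 := mul v196 v234; ok v235 && (
  let v236 := add v230 v235; ok v236 && (
  let v237 := mul v236 v76; ok v237 && (
  let v238 := mul v231 v196; ok v238 && (
  let v239 := mul v238 v198; ok v239 && (
  let v240 := add v230 v239; ok v240 && (
  let v241 := mul v240 v76; ok v241 && (
  let v242 := scale ⟨223338299392, 0, 0, 0⟩ v241; ok v242 && (
  let v243 := add v1 v242; ok v243 && (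
  let v244 := mul v241 v243; ok v244 && (
  let v245 := add v0 v244; ok v245 && (
  let v246 := scale ⟨893353197568, 0, 0, 0⟩ v237; ok v246 && (
  let v247 := add v0 v246; ok v247 && (
  let v248 := mul v237 v247; ok v248 && (
  let v249 := add v0 v248; ok v249 && (
  let v250 := mul v175 v178; ok v250 && (
  let v251 := mul v250 v208; ok v251 && (
  let v252 := mul v251 v249; ok v252 && (
  let v253 := mul v225 v245; ok v253 && (
  let v254 := add v44 v1; ok v254 && (
  let v255 := mul v252 v254; ok v255 && (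
  let v256 := add v253 v255; ok v256 && (
  let v257 := add v44 v0; ok v257 && (
  let v258 := mul v252 v257; ok v258 && (
  let v259 := mul v209 v257; ok v259 && (
  let v260 := mul v259 v178; ok v260 && (
  let v261 := mul v260 v177; ok v261 && (
  let v262 := mul v2 v180; ok v262 && (
  let v263 := inv v44; ok v263 && (
  let v264 := mul v262 v263; ok v264 && (
  let v265 := scale ⟨549755813888, 0, 0, 0⟩ v264; ok v265 && (
  let v266 := mul v61 v2; ok v266 && (
  let v267 := mul v266 v117; ok v267 && (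
  let v268 := mul v267 v129; ok v268 && (
  let v269 := mul v16 v265; ok v269 && (
  let v270 := mul v256 v268; ok v270 && (
  let v271 := mul v261 v206; ok v271 && (
  let v272 := add v270 v271; ok v272 && (
  let v273 := mul v272 v76; ok v273 && (
  let v274 := add v269 v273; ok v274 && (
  let v275 := mul v256 v231; ok v275 && (
  let v276 := mul v275 v198; ok v276 && (
  let v277 := mul v258 v131; ok v277 && (
  let v278 := mul v277 v201; ok v278 && (
  let v279 := add v276 v278; ok v279 && (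
  let v280 := mul v279 v76; ok v280 && (
  let v281 := mul v16 v274; ok v281 && (
  let v282 := mul v195 v280; ok v282 && (
  let v283 := add v281 v282; ok v283 && (
  let v284 := mul v67 v283; ok v284 && (
  let v285 := mul v284 v263; ok v285 && (
  let v286 := sub v0 v285; ok v286 && (
  let v287 := inv v286; ok v287 && (
  let v288 := mul v283 v287; ok v288 && (
  let v289 := mul x1 v288; ok v289 && (
  let v290 := mul v67 v288; ok v290 && (
  let v291 := mul v290 v263; ok v291 && (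
  let v292 := sub v0 v291; ok v292 && (
  let v293 := mul v41 v292; ok v293 && (
  let v294 := sub v293 v289; ok v294 && (
  let v295 := inv v294; ok v295 && (
  let v296 := mul v289 v295; ok v296 && (
  let v297 := sub v0 v289; ok v297 && (
  let v298 := inv v297; ok v298 && (
  let v299 := mul v63 v117; ok v299 && (
  let v300 := mul v299 v129; ok v300 && (
  let v301 := add v105 v300; ok v301 && (
  let v302 := mul v301 v298; ok v302 && (
  let v303 := mul v302 v290; ok v303 && (
  let v304 := scale ⟨223338299392, 0, 0, 0⟩ v303; ok v304 && (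
  let v305 := add v1 v304; ok v305 && (
  let v306 := mul v303 v305; ok v306 && (
  let v307 := add v0 v306; ok v307 && (
  let v308 := mul v303 v307; ok v308 && (
  let v309 := mul v308 v123; ok v309 && (
  let v310 := mul v309 v131; ok v310 && (
  let v311 := sub v0 v310; ok v311 && (
  let v312 := mul v302 v307; ok v312 && (
  let v313 := mul v312 v287; ok v313 && (
  let v314 := mul v313 v76; ok v314 && (
  let v315 := inv v311; ok v315 && (
  let v316 := mul v314 v315; ok v316 && (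
  let v317 := mul v316 x2; ok v317 && (
  let v318 := mul v256 v198; ok v318 && (
  let v319 := mul v258 v123; ok v319 && (
  let v320 := mul v319 v131; ok v320 && (
  let v321 := mul v320 v201; ok v321 && (
  let v322 := add v318 v321; ok v322 && (
  let v323 := mul v317 v322; ok v323 && (
  let v324 := mul v256 v61; ok v324 && (
  let v325 := mul v2 v113; ok v325 && (
  let v326 := mul v324 v325; ok v326 && (
  let v327 := mul v326 v129; ok v327 && (
  let v328 := mul v186 v2; ok v328 && (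
  let v329 := mul v328 v17; ok v329 && (
  let v330 := mul v329 v16; ok v330 && (
  let v331 := cst ⟨3298534883328, 0, 0, 0⟩; ok v331 && (
  let v332 := cst ⟨5497558138880, 0, 0, 0⟩; ok v332 && (
  let v333 := inv v332; ok v333 && (
  let v334 := mul v331 v333; ok v334 && (
  let v335 := inv x1; ok v335 && (
  let v336 := mul v206 v335; ok v336 && (
  let v337 := mul v316 v190; ok v337 && (
  let v338 := mul v337 x2; ok v338 && (
  let v339 := inv v17; ok v339 && (
  let v340 := mul v338 v339; ok v340 && (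
  let v341 := mul x0 v123; ok v341 && (
  let v342 := mul v341 v16; ok v342 && (
  let v343 := mul x2 v180; ok v343 && (
  let v344 := mul v343 v263; ok v344 && (
  let v345 := scale ⟨549755813888, 0, 0, 0⟩ v344; ok v345 && (
  let v346 := mul v342 v345; ok v346 && (
  let v347 := mul v324 x2; ok v347 && (
  let v348 := mul v347 v113; ok v348 && (
  let v349 := mul v348 v129; ok v349 && (
  let v350 := add v346 v349; ok v350 && (
  let v351 := mul v123 v261; ok v351 && (
  let v352 := mul v351 v336; ok v352 && (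
  let v353 := add v350 v352; ok v353 && (
  let v354 := mul v340 v353; ok v354 && (
  let v355 := mul v12 v41; ok v355 && (
  let v356 := scale ⟨4398046511104, 0, 0, 0⟩ v355; ok v356 && (
  let v357 := sub v356 v34; ok v357 && (
  let v358 := mul v5 v357; ok v358 && (
  let v359 := mul v358 v142; ok v359 && (
  let v360 := mul x0 v359; ok v360 && (
  let v361 := mul x1 v359; ok v361 && (
  let v362 := add v361 v188; ok v362 && (
  let v363 := inv v362; ok v363 && (
  let v364 := mul v360 v363; ok v364 && (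
  let v365 := mul x1 v364; ok v365 && (
  let v366 := scale ⟨549755813888, 0, 0, 0⟩ v365; ok v366 && (
  let v367 := sub v0 v366; ok v367 && (
  let v368 := mul v364 v367; ok v368 && (
  let v369 := neg v368; ok v369 && (
  let v370 := mul v140 v170; ok v370 && (
  let v371 := add v369 v370; ok v371 && (
  let v372 := mul v369 v370; ok v372 && (
  let v373 := mul x1 v372; ok v373 && (
  let v374 := add v371 v373; ok v374 && (
  let v375 := mul v45 v359; ok v375 && (
  let v376 := add v171 v0; ok v376 && (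
  let v377 := mul v370 v376; ok v377 && (
  let v378 := add v375 v377; ok v378 && (
  let v379 := mul v296 v378; ok v379 && (
  let v380 := mul x1 v379; ok v380 && (
  let v381 := scale ⟨687194767360, 0, 0, 0⟩ v380; ok v381 && (
  let v382 := add v0 v381; ok v382 && (
  let v383 := mul v379 v382; ok v383 && (
  let v384 := add v374 v383; ok v384 && (
  let v385 := mul v374 v383; ok v385 && (
  let v386 := mul x1 v385; ok v386 && (
  let v387 := add v384 v386; ok v387 && (
  let v388 := mul x2 x3; ok v388 && (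
  let v389 := mul v388 v172; ok v389 && (
  let v390 := mul v389 v8; ok v390 && (
  let v391 := add v387 v390; ok v391 && (
  let v392 := mul v387 v390; ok v392 && (
  let v393 := mul x1 v392; ok v393 && (
  let v394 := add v391 v393; ok v394 && (
  let v395 := mul v5 v34; ok v395 && (
  let v396 := mul x1 v395; ok v396 && (
  let v397 := scale ⟨412316860416, 0, 0, 0⟩ v396; ok v397 && (
  let v398 := sub v1 v397; ok v398 && (
  let v399 := mul v395 v398; ok v399 && (
  let v400 := neg v399; ok v400 && (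
  let v401 := add v394 v400; ok v401 && (
  let v402 := mul v394 v400; ok v402 && (
  let v403 := mul x1 v402; ok v403 && (
  let v404 := add v401 v403; ok v404 && (
  let v405 := mul x2 v288; ok v405 && (
  let v406 := mul v405 v339; ok v406 && (
  let v407 := add v404 v406; ok v407 && (
  let v408 := mul v404 v406; ok v408 && (
  let v409 := mul x1 v408; ok v409 && (
  let v410 := add v407 v409; ok v410 && (
  let v411 := mul v172 v17; ok v411 && (
  let v412 := mul v411 v334; ok v412 && (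
  let v413 := sub v410 v412; ok v413 && (
  let v414 := mul x1 v412; ok v414 && (
  let v415 := add v0 v414; ok v415 && (
  let v416 := inv v415; ok v416 && (
  let v417 := mul v413 v416; ok v417 && (
  let v418 := mul x2 v2; ok v418 && (
  let v419 := mul v418 v288; ok v419 && (
  let v420 := sub v44 v290; ok v420 && (
  let v421 := inv v420; ok v421 && (
  let v422 := mul v419 v421; ok v422 && (
  let v423 := add v417 v422; ok v423 && (
  let v424 := mul v417 v422; ok v424 && (
  let v425 := mul x1 v424; ok v425 && (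
  let v426 := add v423 v425; ok v426 && (
  let v427 := mul x1 v426; ok v427 && (
  let v428 := add v0 v427; ok v428 && (
  let v429 := mul v323 v196; ok v429 && (
  let v430 := mul x1 v330; ok v430 && (
  let v431 := mul v354 v430; ok v431 && (
  let v432 := add v429 v431; ok v432 && (
  let v433 := mul v432 v428; ok v433 && (
  let v434 := add v426 v433; ok v434 && (
  let v435 := add v434 v323; ok v435 && (
  let v436 := add v435 v354; ok v436 && (
  let v437 := neg v436; ok v437 && (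
  let v438 := cst ⟨1073741824, 0, 0, 0⟩; ok v438 && (
  let v439 := sub v437 v438; ok v439 && (
  let v440 := sub v13 v0; ok v440 && (
  let v441 := add v440 v188; ok v441 && (
  let v442 := scale ⟨2199023255552, 0, 0, 0⟩ v334; ok v442 && (
  let v443 := sub v441 v442; ok v443 && (
  let v444 := mul v172 v443; ok v444 && (
  let v445 := mul v440 v442; ok v445 && (
  let v446 := add v445 v0; ok v446 && (
  let v447 := inv v446; ok v447 && (
  let v448 := mul v444 v447; ok v448 && (
  let v449 := mul v186 v280; ok v449 && (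
  let v450 := scale ⟨549755813888, 0, 0, 0⟩ v193; ok v450 && (
  let v451 := add v10 v450; ok v451 && (
  let v452 := mul v449 v451; ok v452 && (
  let v453 := scale ⟨2199023255552, 0, 0, 0⟩ v452; ok v453 && (
  let v454 := add v274 v453; ok v454 && (
  let v455 := scale ⟨2199023255552, 0, 0, 0⟩ v454; ok v455 && (
  let v456 := mul v455 v287; ok v456 && (
  let v457 := mul v2 v288; ok v457 && (
  let v458 := sub v17 v457; ok v458 && (
  let v459 := inv v458; ok v459 && (
  let v460 := mul v456 v459; ok v460 && (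
  let v461 := sub v448 v460; ok v461 && (
  isPos 4 v197 && (
  isPos 4 v200 && (
  let v462 := scale ⟨2199023255552, 0, 0, 0⟩ v284; ok v462 && (
  let v463 := sub v44 v462; ok v463 && (
  isPos 4 v463 && (
  isPos 4 v294 && (
  isPos 4 v127 && (
  let v464 := sub v1 v171; ok v464 && (
  isPos 4 v464 && (
  let v465 := scale ⟨687194767360, 0, 0, 0⟩ v0; ok v465 && (
  let v466 := sub v465 v241; ok v466 && (
  isPos 4 v466 && (
  let v467 := scale ⟨377957122048, 0, 0, 0⟩ v0; ok v467 && (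
  let v468 := sub v467 v237; ok v468 && (
  isPos 4 v468 && (
  isPos 4 v458 && (
  let v469 := sub v1 v380; ok v469 && (
  isPos 4 v469 && (
  isPos 4 v297 && (
  isPos 4 v311 && (
  let v470 := sub v465 v303; ok v470 && (
  isPos 4 v470 && (
  let v471 := mul v181 v181; ok v471 && (
  let v472 := cst ⟨14293651161088, 0, 0, 0⟩; ok v472 && (
  let v473 := cst ⟨10995116277760, 0, 0, 0⟩; ok v473 && (
  let v474 := inv v473; ok v474 && (
  let v475 := mul v472 v474; ok v475 && (
  let v476 := mul v471 v475; ok v476 && (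
  let v477 := cst ⟨27487790694400, 0, 0, 0⟩; ok v477 && (
  let v478 := add v476 v477; ok v478 && (
  let v479 := mul v412 v416; ok v479 && (
  let v480 := sub v32 x1; ok v480 && (
  let v481 := sub v480 v31; ok v481 && (
  let v482 := scale ⟨2199023255552, 0, 0, 0⟩ v2; ok v482 && (
  let v483 := add v482 v290; ok v483 && (
  let v484 := mul x0 v483; ok v484 && (
  let v485 := mul v478 v479; ok v485 && (
  let v486 := mul v287 v484; ok v486 && (
  let v487 := mul v76 v272; ok v487 && (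
  let v488 := mul v5 v487; ok v488 && (
  let v489 := mul v17 v186; ok v489 && (
  let v490 := mul v489 v280; ok v490 && (
  let v491 := mul v30 v490; ok v491 && (
  let v492 := add v488 v491; ok v492 && (
  let v493 := mul x0 v492; ok v493 && (
  let v494 := mul v486 v493; ok v494 && (
  let v495 := sub v485 v494; ok v495 && (
  let v496 := scale ⟨549755813888, 0, 0, 0⟩ v457; ok v496 && (
  let v497 := add v0 v496; ok v497 && (
  let v498 := mul v287 v497; ok v498 && (
  let v499 := mul x1 v16; ok v499 && (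
  let v500 := mul v499 v180; ok v500 && (
  let v501 := mul v17 v44; ok v501 && (
  let v502 := inv v501; ok v502 && (
  let v503 := mul v500 v502; ok v503 && (
  let v504 := mul v498 v503; ok v504 && (
  let v505 := sub v481 v504; ok v505 && (
  let v506 := mul v193 v495; ok v506 && (
  let v507 := sub v0 v193; ok v507 && (
  let v508 := mul v5 v505; ok v508 && (
  let v509 := mul v507 v508; ok v509 && (
  let v510 := mul v478 v509; ok v510 && (
  let v511 := add v506 v510; ok v511 && (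
  isPos 4 v461 && (
  isPos 4 v439 && (
  isPos 4 v511 && (
  isPos 4 v505 && (
  true)))))))))))))))))))))))))))))))))))))))))))))))))))))))))))))))))))))))))))))))))))))))))))))))))))))))))))))))))))))))))))))))))))))))))))))))))))))))))))))))))))))))))))))))))))))))))))))))))))))))))))))))))))))))))))))))))))))))))))))))))))))))))))))))))))))))))))))))))))))))))))))))))))))))))))))))))))))))))))))))))))))))))))))))))))))))))))))))))))))))))))))))))))))))))))))))))))))))))))))))))))))))))))))))))))))))))))))))))))))))))))))))))))))))))))))))))))))))))))))))))))))))))))))))))))))))))))))))))))))))))))))))))))))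
  | _ => false

set_option maxRecDepth 1000000 in
theorem chk2_eq (O : Ops) (m : List O.α)
    (h : chk2 O.cst O.add O.sub O.mul O.scale O.neg O.inv O.exp O.log O.ok O.isPos O.isLt m = true) :
    runG O 4 prog2 m = true := by
  match m, h with
  | [x0, x1, x2, x3], h => exact h

def chkB2 : List opsE.α → Bool :=
  chk2 opsE.cst opsE.add opsE.sub opsE.mul opsE.scale opsE.neg opsE.inv opsE.exp opsE.log opsE.ok opsE.isPos opsE.isLt

theorem chkB2_eq (m : List opsE.α) (h : chkB2 m = true) : runG opsE 4 prog2 m = true :=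
  chk2_eq opsE m h

def prog3 : List Op := [
  .const ⟨1099511627776, 0, 0, 0⟩,
  .const ⟨549755813888, 0, 0, 0⟩,
  .mul 3 4,
  .mul 0 6,
  .scale ⟨549755813888, 0, 0, 0⟩ 0,
  .mul 7 7,
  .mul 1 1,
  .sub 6 0,
  .inv 0,
  .mul 4 0,
  .scale ⟨2199023255552, 0, 0, 0⟩ 0,
  .scale ⟨2199023255552, 0, 0, 0⟩ 2,
  .sub 0 11,
  .add 0 2,
  .mul 17 5,
  .mul 17 0,
  .sub 15 0,
  .add 16 1,
  .scale ⟨10774999203840, 0, 0, 0⟩ 13,
  .scale ⟨45768245248, 0, 0, 0⟩ 0,
  .const ⟨183207198720, 0, 0, 0⟩,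
  .add 1 0,
  .mul 3 0,
  .add 21 0,
  .mul 5 0,
  .add 24 0,
  .mul 7 0,
  .scale ⟨549755813888, 0, 0, 0⟩ 0,
  .add 27 0,
  .mul 3 0,
  .mul 31 24,
  .mul 20 15,
  .scale ⟨2199023255552, 0, 0, 0⟩ 19,
  .add 1 0,
  .add 0 35,
  .mul 4 0,
  .add 0 35,
  .mul 26 26,
  .scale ⟨2199023255552, 0, 0, 0⟩ 0,
  .add 0 38,
  .mul 27 5,
  .sub 0 40,
  .log 5,
  .scale ⟨549755813888, 0, 0, 0⟩ 0,
  .exp 0,
  .scale ⟨549755813888, 0, 0, 0⟩ 45,
  .mul 0 3,
  .neg 0,
  .exp 0,
  .mul 36 18,
  .mul 0 8,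
  .scale ⟨4398046511104, 0, 0, 0⟩ 0,
  .add 0 51,
  .log 0,
  .sub 0 11,
  .mul 9 0,
  .neg 0,
  .exp 0,
  .mul 42 47,
  .add 46 0,
  .inv 0,
  .mul 43 0,
  .mul 45 63,
  .mul 0 1,
  .mul 49 49,
  .sub 64 59,
  .mul 1 0,
  .mul 64 64,
  .add 55 37,
  .inv 0,
  .mul 0 70,
  .mul 0 68,
  .mul 0 0,
  .sub 72 8,
  .mul 8 0,
  .mul 2 0,
  .inv 76,
  .const ⟨45812285440, 0, 0, 0⟩,
  .scale ⟨1527119872, 0, 0, 0⟩ 2,
  .sub 1 0,
  .mul 4 0,
  .sub 79 0,
  .mul 6 0,
  .sub 82 0,
  .add 35 83,
  .mul 36 36,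
  .add 0 85,
  .mul 38 3,
  .scale ⟨2199023255552, 0, 0, 0⟩ 0,
  .add 2 0,
  .inv 5,
  .mul 1 0,
  .add 0 7,
  .mul 44 29,
  .scale ⟨549755813888, 0, 0, 0⟩ 0,
  .mul 0 2,
  .sub 6 0,
  .pos 7,
  .pos 0,
  .inv 0,
  .mul 52 63,
  .const ⟨6597069766656, 0, 0, 0⟩,
  .add 64 0,
  .mul 2 0,
  .scale ⟨4398046511104, 0, 0, 0⟩ 66,
  .add 0 3,
  .inv 0,
  .mul 3 0,
  .sub 105 57,
  .mul 0 22,
  .mul 0 10,
  .scale ⟨549755813888, 0, 0, 0⟩ 0,
  .add 0 108,
  .inv 0,
  .mul 2 0,
  .mul 18 3,
  .add 0 112,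
  .mul 0 22,
  .inv 26,
  .mul 1 0,
  .mul 54 5,
  .scale ⟨549755813888, 0, 0, 0⟩ 0,
  .sub 119 0,
  .sub 120 2,
  .inv 0,
  .mul 2 0,
  .add 5 123,
  .mul 76 0,
  .mul 109 108,
  .add 114 128,
  .mul 112 115,
  .mul 0 118,
  .scale ⟨2199023255552, 0, 0, 0⟩ 0,
  .add 91 0,
  .mul 4 0,
  .inv 0,
  .mul 7 0,
  .mul 136 0,
  .inv 99,
  .mul 61 0,
  .scale ⟨1527119872, 0, 0, 0⟩ 0,
  .sub 61 0,
  .mul 2 0,
  .sub 139 0,
  .mul 4 0,
  .sub 142 0,
  .add 86 143,
  .mul 87 87,
  .add 0 145,
  .mul 89 3,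
  .scale ⟨2199023255552, 0, 0, 0⟩ 0,
  .add 2 0,
  .inv 5,
  .mul 1 0,
  .add 0 7,
  .mul 95 17,
  .scale ⟨549755813888, 0, 0, 0⟩ 0,
  .mul 0 2,
  .sub 6 0,
  .pos 7,
  .pos 0,
  .sub 156 99,
  .mul 0 13,
  .inv 2,
  .mul 1 0,
  .scale ⟨549755813888, 0, 0, 0⟩ 0,
  .add 0 160,
  .inv 0,
  .mul 2 0,
  .mul 29 0,
  .add 161 165,
  .inv 0,
  .mul 163 0,
  .scale ⟨2199023255552, 0, 0, 0⟩ 0,
  .sub 169 0,
  .sub 170 166,
  .mul 175 4,
  .mul 0 2,
  .add 156 0,
  .mul 175 164,
  .scale ⟨137438953472, 0, 0, 0⟩ 0,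
  .add 0 175,
  .inv 0,
  .mul 179 0,
  .scale ⟨274877906944, 0, 0, 0⟩ 0,
  .scale ⟨549755813888, 0, 0, 0⟩ 5,
  .const ⟨2199023255552, 0, 0, 0⟩,
  .add 1 0,
  .mul 0 107,
  .scale ⟨224412041216, 0, 0, 0⟩ 176,
  .inv 156,
  .mul 1 0,
  .mul 7 170,
  .mul 0 1,
  .mul 187 0,
  .sub 190 0,
  .inv 0,
  .mul 67 2,
  .sub 193 0,
  .inv 0,
  .add 20 13,
  .inv 0,
  .mul 181 198,
  .mul 0 200,
  .mul 0 2,
  .scale ⟨549755813888, 0, 0, 0⟩ 0,
  .sub 201 0,
  .sub 202 2,
  .inv 0,
  .mul 2 0,
  .mul 0 8,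
  .mul 0 207,
  .mul 209 193,
  .mul 0 1,
  .mul 9 4,
  .pos 7,
  .mul 0 134,
  .scale ⟨1374389534720, 0, 0, 0⟩ 0,
  .sub 211 0,
  .pos 0,
  .scale ⟨3092376453120, 0, 0, 0⟩ 2,
  .add 0 32,
  .mul 4 0,
  .add 216 0,
  .scale ⟨1546188226560, 0, 0, 0⟩ 6,
  .add 0 218,
  .mul 8 0,
  .add 220 0,
  .mul 217 207,
  .sub 222 156,
  .mul 219 208,
  .scale ⟨2199023255552, 0, 0, 0⟩ 0,
  .sub 2 0,
  .mul 4 4,
  .add 1 0,
  .add 0 228,
  .scale ⟨549755813888, 0, 0, 0⟩ 0,
  .scale ⟨549755813888, 0, 0, 0⟩ 200,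
  .sub 223 0,
  .mul 165 9,
  .mul 0 226,
  .scale ⟨137438953472, 0, 0, 0⟩ 0,
  .add 3 0,
  .mul 6 0,
  .mul 119 114,
  .add 113 238,
  .mul 0 47,
  .mul 115 45,
  .add 1 0,
  .mul 52 0,
  .add 5 0,
  .mul 0 168,
  .mul 6 55,
  .mul 0 54,
  .add 9 0,
  .mul 0 172,
  .scale ⟨223338299392, 0, 0, 0⟩ 0,
  .add 249 0,
  .mul 2 0,
  .add 252 0,
  .scale ⟨893353197568, 0, 0, 0⟩ 8,
  .add 254 0,
  .mul 10 0,
  .add 256 0,
  .mul 88 85,
  .mul 0 41,
  .mul 0 2,
  .mul 23 7,
  .add 217 260,
  .mul 2 0,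
  .add 2 0,
  .add 220 264,
  .mul 5 0,
  .mul 45 1,
  .mul 0 95,
  .mul 0 97,
  .mul 267 95,
  .inv 226,
  .mul 1 0,
  .scale ⟨549755813888, 0, 0, 0⟩ 0,
  .inv 276,
  .mul 213 0,
  .mul 0 163,
  .mul 0 153,
  .mul 261 4,
  .mul 14 1,
  .mul 10 70,
  .add 1 0,
  .mul 0 205,
  .add 4 0,
  .mul 19 44,
  .mul 0 92,
  .mul 19 160,
  .mul 0 91,
  .add 2 0,
  .mul 0 212,
  .mul 273 6,
  .mul 101 1,
  .add 1 0,
  .mul 225 0,
  .mul 0 22,
  .sub 294 0,
  .inv 0,
  .mul 4 0,
  .mul 299 0,
  .mul 231 1,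
  .mul 0 28,
  .sub 300 0,
  .mul 260 0,
  .sub 0 4,
  .inv 0,
  .mul 6 0,
  .sub 305 7,
  .inv 0,
  .inv 277,
  .mul 70 0,
  .add 204 0,
  .mul 0 3,
  .mul 0 12,
  .scale ⟨223338299392, 0, 0, 0⟩ 0,
  .add 312 0,
  .mul 2 0,
  .add 315 0,
  .mul 4 0,
  .mul 0 200,
  .mul 0 193,
  .sub 319 0,
  .mul 9 4,
  .mul 0 25,
  .mul 0 246,
  .inv 3,
  .mul 1 0,
  .mul 0 328,
  .mul 62 134,
  .mul 61 210,
  .mul 0 203,
  .mul 0 134,
  .add 3 0,
  .mul 5 0,
  .mul 68 271,
  .mul 0 59,
  .mul 0 225,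
  .mul 0 212,
  .mul 11 152,
  .mul 0 340,
  .inv 321,
  .mul 1 0,
  .mul 341 223,
  .mul 0 325,
  .mul 0 69,
  .add 0 7,
  .mul 227 75,
  .mul 0 136,
  .add 2 0,
  .mul 7 0,
  .mul 168 346,
  .mul 0 332,
  .mul 0 334,
  .const ⟨3298534883328, 0, 0, 0⟩,
  .const ⟨5497558138880, 0, 0, 0⟩,
  .inv 0,
  .mul 2 0,
  .add 190 355,
  .mul 191 0,
  .add 302 0,
  .mul 53 0,
  .mul 302 3,
  .scale ⟨687194767360, 0, 0, 0⟩ 1,
  .add 361 0,
  .mul 3 0,
  .add 363 0,
  .mul 4 0,
  .add 355 367,
  .mul 200 0,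
  .mul 0 12,
  .add 368 0,
  .inv 0,
  .mul 5 0,
  .mul 0 358,
  .mul 370 75,
  .mul 0 34,
  .add 374 0,
  .mul 3 0,
  .sub 332 77,
  .inv 0,
  .mul 2 0,
  .mul 381 47,
  .mul 0 190,
  .mul 383 30,
  .mul 34 0,
  .add 2 0,
  .add 4 36,
  .add 385 1,
  .mul 7 0,
  .add 2 0,
  .sub 388 0,
  .scale ⟨1073741824, 0, 0, 0⟩ 391,
  .sub 1 0,
  .sub 378 391,
  .add 0 210,
  .scale ⟨2199023255552, 0, 0, 0⟩ 38,
  .sub 1 0,
  .mul 229 0,
  .mul 4 2,
  .add 0 397,
  .inv 0,
  .mul 3 0,
  .mul 220 111,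
  .scale ⟨549755813888, 0, 0, 0⟩ 214,
  .add 392 0,
  .mul 2 0,
  .scale ⟨2199023255552, 0, 0, 0⟩ 0,
  .add 122 0,
  .scale ⟨2199023255552, 0, 0, 0⟩ 0,
  .mul 0 111,
  .sub 391 35,
  .inv 0,
  .mul 2 0,
  .sub 11 0,
  .pos 221,
  .pos 218,
  .scale ⟨2199023255552, 0, 0, 0⟩ 119,
  .sub 369 0,
  .pos 0,
  .pos 111,
  .pos 293,
  .sub 413 249,
  .pos 0,
  .scale ⟨687194767360, 0, 0, 0⟩ 415,
  .sub 0 167,
  .pos 0,
  .scale ⟨377957122048, 0, 0, 0⟩ 417,
  .sub 0 173,
  .pos 0,
  .pos 10,
  .sub 418 60,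
  .pos 0,
  .pos 114,
  .pos 100,
  .sub 4 108,
  .pos 0,
  .mul 246 246,
  .const ⟨14293651161088, 0, 0, 0⟩,
  .const ⟨10995116277760, 0, 0, 0⟩,
  .inv 0,
  .mul 2 0,
  .mul 4 0,
  .const ⟨27487790694400, 0, 0, 0⟩,
  .add 1 0,
  .mul 263 412,
  .mul 0 75,
  .mul 433 0,
  .add 432 0,
  .inv 0,
  .mul 3 0,
  .sub 403 437,
  .sub 0 405,
  .scale ⟨2199023255552, 0, 0, 0⟩ 435,
  .add 0 139,
  .mul 440 0,
  .mul 11 5,
  .mul 145 1,
  .mul 366 161,
  .mul 438 0,
  .mul 427 264,
  .mul 0 156,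
  .mul 416 0,
  .add 3 0,
  .mul 449 0,
  .mul 7 0,
  .sub 9 0,
  .scale ⟨549755813888, 0, 0, 0⟩ 78,
  .add 452 0,
  .mul 157 0,
  .mul 456 438,
  .mul 0 281,
  .mul 439 412,
  .inv 0,
  .mul 2 0,
  .mul 5 0,
  .sub 23 0,
  .mul 274 10,
  .sub 462 275,
  .mul 458 2,
  .mul 1 0,
  .mul 36 0,
  .add 4 0,
  .pos 55,
  .pos 76,
  .pos 0,
  .pos 6]

def chk3 {α : Type} (cst : Z → α) (add sub mul : α → α → α) (scale : Z → α → α)
    (neg inv exp log : α → α) (ok : α → Bool) (isPos : Nat → α → Bool) (isLt : α → Nat → Bool) :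
    List α → Bool
  | [x0, x1, x2, x3] =>
  let v0 := cst ⟨1099511627776, 0, 0, 0⟩; ok v0 && (
  let v1 := cst ⟨549755813888, 0, 0, 0⟩; ok v1 && (
  let v2 := mul x1 x2; ok v2 && (
  let v3 := mul v2 x3; ok v3 && (
  let v4 := scale ⟨549755813888, 0, 0, 0⟩ v3; ok v4 && (
  let v5 := mul x2 x2; ok v5 && (
  let v6 := mul v4 v4; ok v6 && (
  let v7 := sub v0 v6; ok v7 && (
  let v8 := inv v7; ok v8 && (
  let v9 := mul v4 v8; ok v9 && (
  let v10 := scale ⟨2199023255552, 0, 0, 0⟩ v9; ok v10 && (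
  let v11 := scale ⟨2199023255552, 0, 0, 0⟩ v8; ok v11 && (
  let v12 := sub v11 v0; ok v12 && (
  let v13 := add v12 v10; ok v13 && (
  let v14 := mul x3 v8; ok v14 && (
  let v15 := mul x2 v14; ok v15 && (
  let v16 := sub v0 v15; ok v16 && (
  let v17 := add v0 v15; ok v17 && (
  let v18 := scale ⟨10774999203840, 0, 0, 0⟩ v4; ok v18 && (
  let v19 := scale ⟨45768245248, 0, 0, 0⟩ v18; ok v19 && (
  let v20 := cst ⟨183207198720, 0, 0, 0⟩; ok v20 && (
  let v21 := add v19 v20; ok v21 && (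
  let v22 := mul v18 v21; ok v22 && (
  let v23 := add v1 v22; ok v23 && (
  let v24 := mul v18 v23; ok v24 && (
  let v25 := add v0 v24; ok v25 && (
  let v26 := mul v18 v25; ok v26 && (
  let v27 := scale ⟨549755813888, 0, 0, 0⟩ v26; ok v27 && (
  let v28 := add v0 v27; ok v28 && (
  let v29 := mul v25 v28; ok v29 && (
  let v30 := mul x1 v5; ok v30 && (
  let v31 := mul v10 v15; ok v31 && (
  let v32 := scale ⟨2199023255552, 0, 0, 0⟩ v12; ok v32 && (
  let v33 := add v31 v32; ok v33 && (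
  let v34 := add v33 x1; ok v34 && (
  let v35 := mul v30 v34; ok v35 && (
  let v36 := add v35 v0; ok v36 && (
  let v37 := mul v10 v10; ok v37 && (
  let v38 := scale ⟨2199023255552, 0, 0, 0⟩ v37; ok v38 && (
  let v39 := add v38 v0; ok v39 && (
  let v40 := mul v12 v34; ok v40 && (
  let v41 := sub v40 v0; ok v41 && (
  let v42 := log v36; ok v42 && (
  let v43 := scale ⟨549755813888, 0, 0, 0⟩ v42; ok v43 && (
  let v44 := exp v43; ok v44 && (
  let v45 := scale ⟨549755813888, 0, 0, 0⟩ x0; ok v45 && (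
  let v46 := mul v45 v42; ok v46 && (
  let v47 := neg v46; ok v47 && (
  let v48 := exp v47; ok v48 && (
  let v49 := mul v12 v30; ok v49 && (
  let v50 := mul v49 v41; ok v50 && (
  let v51 := scale ⟨4398046511104, 0, 0, 0⟩ v50; ok v51 && (
  let v52 := add v51 v0; ok v52 && (
  let v53 := log v52; ok v53 && (
  let v54 := sub v53 v42; ok v54 && (
  let v55 := mul v45 v54; ok v55 && (
  let v56 := neg v55; ok v56 && (
  let v57 := exp v56; ok v57 && (
  let v58 := mul v15 v10; ok v58 && (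
  let v59 := add v12 v58; ok v59 && (
  let v60 := inv v59; ok v60 && (
  let v61 := mul v17 v60; ok v61 && (
  let v62 := mul v16 x1; ok v62 && (
  let v63 := mul v62 v61; ok v63 && (
  let v64 := mul v14 v14; ok v64 && (
  let v65 := sub v0 v5; ok v65 && (
  let v66 := mul v64 v65; ok v66 && (
  let v67 := mul v2 v2; ok v67 && (
  let v68 := add v12 v30; ok v68 && (
  let v69 := inv v68; ok v69 && (
  let v70 := mul v69 x0; ok v70 && (
  let v71 := mul v70 v2; ok v71 && (
  let v72 := mul v71 v71; ok v72 && (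
  let v73 := sub v0 v64; ok v73 && (
  let v74 := mul v65 v73; ok v74 && (
  let v75 := mul v72 v74; ok v75 && (
  let v76 := inv x0; ok v76 && (
  let v77 := cst ⟨45812285440, 0, 0, 0⟩; ok v77 && (
  let v78 := scale ⟨1527119872, 0, 0, 0⟩ v75; ok v78 && (
  let v79 := sub v77 v78; ok v79 && (
  let v80 := mul v75 v79; ok v80 && (
  let v81 := sub v1 v80; ok v81 && (
  let v82 := mul v75 v81; ok v82 && (
  let v83 := sub v0 v82; ok v83 && (
  let v84 := add v48 v0; ok v84 && (
  let v85 := mul v48 v48; ok v85 && (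
  let v86 := add v85 v0; ok v86 && (
  let v87 := mul v48 v83; ok v87 && (
  let v88 := scale ⟨2199023255552, 0, 0, 0⟩ v87; ok v88 && (
  let v89 := add v86 v88; ok v89 && (
  let v90 := inv v84; ok v90 && (
  let v91 := mul v89 v90; ok v91 && (
  let v92 := add v91 v84; ok v92 && (
  let v93 := mul v48 v63; ok v93 && (
  let v94 := scale ⟨549755813888, 0, 0, 0⟩ v93; ok v94 && (
  let v95 := mul v94 v92; ok v95 && (
  let v96 := sub v89 v95; ok v96 && (
  isPos 4 v89 && (
  isPos 4 v96 && (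
  let v97 := inv v96; ok v97 && (
  let v98 := mul v45 v34; ok v98 && (
  let v99 := cst ⟨6597069766656, 0, 0, 0⟩; ok v99 && (
  let v100 := add v35 v99; ok v100 && (
  let v101 := mul v98 v100; ok v101 && (
  let v102 := scale ⟨4398046511104, 0, 0, 0⟩ v35; ok v102 && (
  let v103 := add v102 v99; ok v103 && (
  let v104 := inv v103; ok v104 && (
  let v105 := mul v101 v104; ok v105 && (
  let v106 := sub v0 v48; ok v106 && (
  let v107 := mul v106 v84; ok v107 && (
  let v108 := mul v107 v97; ok v108 && (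
  let v109 := scale ⟨549755813888, 0, 0, 0⟩ v108; ok v109 && (
  let v110 := add v109 v1; ok v110 && (
  let v111 := inv v110; ok v111 && (
  let v112 := mul v109 v111; ok v112 && (
  let v113 := mul v94 v109; ok v113 && (
  let v114 := add v113 v1; ok v114 && (
  let v115 := mul v114 v92; ok v115 && (
  let v116 := inv v89; ok v116 && (
  let v117 := mul v115 v116; ok v117 && (
  let v118 := mul v63 v112; ok v118 && (
  let v119 := scale ⟨549755813888, 0, 0, 0⟩ v118; ok v119 && (
  let v120 := sub v0 v119; ok v120 && (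
  let v121 := sub v0 v118; ok v121 && (
  let v122 := inv v121; ok v122 && (
  let v123 := mul v120 v122; ok v123 && (
  let v124 := add v118 v0; ok v124 && (
  let v125 := mul v48 v124; ok v125 && (
  let v126 := mul v16 v17; ok v126 && (
  let v127 := add v12 x1; ok v127 && (
  let v128 := mul v15 v12; ok v128 && (
  let v129 := mul v128 v10; ok v129 && (
  let v130 := scale ⟨2199023255552, 0, 0, 0⟩ v129; ok v130 && (
  let v131 := add v39 v130; ok v131 && (
  let v132 := mul v127 v131; ok v132 && (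
  let v133 := inv v132; ok v133 && (
  let v134 := mul v126 v133; ok v134 && (
  let v135 := mul x1 v134; ok v135 && (
  let v136 := inv v36; ok v136 && (
  let v137 := mul v75 v136; ok v137 && (
  let v138 := scale ⟨1527119872, 0, 0, 0⟩ v137; ok v138 && (
  let v139 := sub v77 v138; ok v139 && (
  let v140 := mul v137 v139; ok v140 && (
  let v141 := sub v1 v140; ok v141 && (
  let v142 := mul v137 v141; ok v142 && (
  let v143 := sub v0 v142; ok v143 && (
  let v144 := add v57 v0; ok v144 && (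
  let v145 := mul v57 v57; ok v145 && (
  let v146 := add v145 v0; ok v146 && (
  let v147 := mul v57 v143; ok v147 && (
  let v148 := scale ⟨2199023255552, 0, 0, 0⟩ v147; ok v148 && (
  let v149 := add v146 v148; ok v149 && (
  let v150 := inv v144; ok v150 && (
  let v151 := mul v149 v150; ok v151 && (
  let v152 := add v151 v144; ok v152 && (
  let v153 := mul v57 v135; ok v153 && (
  let v154 := scale ⟨549755813888, 0, 0, 0⟩ v153; ok v154 && (
  let v155 := mul v154 v152; ok v155 && (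
  let v156 := sub v149 v155; ok v156 && (
  isPos 4 v149 && (
  isPos 4 v156 && (
  let v157 := sub v0 v57; ok v157 && (
  let v158 := mul v157 v144; ok v158 && (
  let v159 := inv v156; ok v159 && (
  let v160 := mul v158 v159; ok v160 && (
  let v161 := scale ⟨549755813888, 0, 0, 0⟩ v160; ok v161 && (
  let v162 := add v161 v1; ok v162 && (
  let v163 := inv v162; ok v163 && (
  let v164 := mul v161 v163; ok v164 && (
  let v165 := mul v135 v164; ok v165 && (
  let v166 := add v4 v0; ok v166 && (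
  let v167 := inv v166; ok v167 && (
  let v168 := mul v4 v167; ok v168 && (
  let v169 := scale ⟨2199023255552, 0, 0, 0⟩ v168; ok v169 && (
  let v170 := sub v0 v169; ok v170 && (
  let v171 := sub v0 v4; ok v171 && (
  let v172 := mul x3 v167; ok v172 && (
  let v173 := mul v172 v170; ok v173 && (
  let v174 := add v17 v173; ok v174 && (
  let v175 := mul x0 v10; ok v175 && (
  let v176 := scale ⟨137438953472, 0, 0, 0⟩ v175; ok v176 && (
  let v177 := add v176 v1; ok v177 && (
  let v178 := inv v177; ok v178 && (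
  let v179 := mul x0 v178; ok v179 && (
  let v180 := scale ⟨274877906944, 0, 0, 0⟩ v179; ok v180 && (
  let v181 := scale ⟨549755813888, 0, 0, 0⟩ v175; ok v181 && (
  let v182 := cst ⟨2199023255552, 0, 0, 0⟩; ok v182 && (
  let v183 := add v181 v182; ok v183 && (
  let v184 := mul v183 v76; ok v184 && (
  let v185 := scale ⟨224412041216, 0, 0, 0⟩ v8; ok v185 && (
  let v186 := inv v29; ok v186 && (
  let v187 := mul v185 v186; ok v187 && (
  let v188 := mul v180 v17; ok v188 && (
  let v189 := mul v188 v187; ok v189 && (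
  let v190 := mul v2 v189; ok v190 && (
  let v191 := sub v0 v190; ok v191 && (
  let v192 := inv v191; ok v192 && (
  let v193 := mul v125 v190; ok v193 && (
  let v194 := sub v0 v193; ok v194 && (
  let v195 := inv v194; ok v195 && (
  let v196 := add v175 v182; ok v196 && (
  let v197 := inv v196; ok v197 && (
  let v198 := mul v16 x0; ok v198 && (
  let v199 := mul v198 x1; ok v199 && (
  let v200 := mul v199 v197; ok v200 && (
  let v201 := scale ⟨549755813888, 0, 0, 0⟩ v200; ok v201 && (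
  let v202 := sub v0 v201; ok v202 && (
  let v203 := sub v0 v200; ok v203 && (
  let v204 := inv v203; ok v204 && (
  let v205 := mul v202 v204; ok v205 && (
  let v206 := mul v205 v197; ok v206 && (
  let v207 := mul v206 x0; ok v207 && (
  let v208 := mul x1 v14; ok v208 && (
  let v209 := mul v208 v207; ok v209 && (
  let v210 := mul v200 v205; ok v210 && (
  isPos 4 v203 && (
  let v211 := mul v210 v76; ok v211 && (
  let v212 := scale ⟨1374389534720, 0, 0, 0⟩ v211; ok v212 && (
  let v213 := sub v1 v212; ok v213 && (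
  isPos 4 v213 && (
  let v214 := scale ⟨3092376453120, 0, 0, 0⟩ v211; ok v214 && (
  let v215 := add v214 v182; ok v215 && (
  let v216 := mul v211 v215; ok v216 && (
  let v217 := add v0 v216; ok v217 && (
  let v218 := scale ⟨1546188226560, 0, 0, 0⟩ v211; ok v218 && (
  let v219 := add v218 v0; ok v219 && (
  let v220 := mul v211 v219; ok v220 && (
  let v221 := add v0 v220; ok v221 && (
  let v222 := mul v4 v14; ok v222 && (
  let v223 := sub v0 v66; ok v223 && (
  let v224 := mul v4 v15; ok v224 && (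
  let v225 := scale ⟨2199023255552, 0, 0, 0⟩ v224; ok v225 && (
  let v226 := sub v223 v225; ok v226 && (
  let v227 := mul v222 v222; ok v227 && (
  let v228 := add v226 v227; ok v228 && (
  let v229 := add v228 v0; ok v229 && (
  let v230 := scale ⟨549755813888, 0, 0, 0⟩ v229; ok v230 && (
  let v231 := scale ⟨549755813888, 0, 0, 0⟩ v30; ok v231 && (
  let v232 := sub v8 v231; ok v232 && (
  let v233 := mul v67 v223; ok v233 && (
  let v234 := mul v233 v7; ok v234 && (
  let v235 := scale ⟨137438953472, 0, 0, 0⟩ v234; ok v235 && (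
  let v236 := add v232 v235; ok v236 && (
  let v237 := mul v230 v236; ok v237 && (
  let v238 := mul v118 v123; ok v238 && (
  let v239 := add v125 v0; ok v239 && (
  let v240 := mul v239 v192; ok v240 && (
  let v241 := mul v125 v195; ok v241 && (
  let v242 := add v240 v241; ok v242 && (
  let v243 := mul v190 v242; ok v243 && (
  let v244 := add v238 v243; ok v244 && (
  let v245 := mul v244 v76; ok v245 && (
  let v246 := mul v239 v190; ok v246 && (
  let v247 := mul v246 v192; ok v247 && (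
  let v248 := add v238 v247; ok v248 && (
  let v249 := mul v248 v76; ok v249 && (
  let v250 := scale ⟨223338299392, 0, 0, 0⟩ v249; ok v250 && (
  let v251 := add v1 v250; ok v251 && (
  let v252 := mul v249 v251; ok v252 && (
  let v253 := add v0 v252; ok v253 && (
  let v254 := scale ⟨893353197568, 0, 0, 0⟩ v245; ok v254 && (
  let v255 := add v0 v254; ok v255 && (
  let v256 := mul v245 v255; ok v256 && (
  let v257 := add v0 v256; ok v257 && (
  let v258 := mul v169 v172; ok v258 && (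
  let v259 := mul v258 v217; ok v259 && (
  let v260 := mul v259 v257; ok v260 && (
  let v261 := mul v237 v253; ok v261 && (
  let v262 := add v44 v1; ok v262 && (
  let v263 := mul v260 v262; ok v263 && (
  let v264 := add v261 v263; ok v264 && (
  let v265 := add v44 v0; ok v265 && (
  let v266 := mul v260 v265; ok v266 && (
  let v267 := mul v221 v265; ok v267 && (
  let v268 := mul v267 v172; ok v268 && (
  let v269 := mul v268 v171; ok v269 && (
  let v270 := mul v2 v174; ok v270 && (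
  let v271 := inv v44; ok v271 && (
  let v272 := mul v270 v271; ok v272 && (
  let v273 := scale ⟨549755813888, 0, 0, 0⟩ v272; ok v273 && (
  let v274 := inv x2; ok v274 && (
  let v275 := mul v61 v274; ok v275 && (
  let v276 := mul v275 v112; ok v276 && (
  let v277 := mul v276 v123; ok v277 && (
  let v278 := mul v16 v273; ok v278 && (
  let v279 := mul v264 v277; ok v279 && (
  let v280 := mul v269 v209; ok v280 && (
  let v281 := add v279 v280; ok v281 && (
  let v282 := mul v281 v76; ok v282 && (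
  let v283 := add v278 v282; ok v283 && (
  let v284 := mul v264 v239; ok v284 && (
  let v285 := mul v284 v192; ok v285 && (
  let v286 := mul v266 v125; ok v286 && (
  let v287 := mul v286 v195; ok v287 && (
  let v288 := add v285 v287; ok v288 && (
  let v289 := mul v288 v76; ok v289 && (
  let v290 := mul v16 v283; ok v290 && (
  let v291 := mul v189 v289; ok v291 && (
  let v292 := add v290 v291; ok v292 && (
  let v293 := mul v67 v292; ok v293 && (
  let v294 := mul v293 v271; ok v294 && (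
  let v295 := sub v0 v294; ok v295 && (
  let v296 := inv v295; ok v296 && (
  let v297 := mul v292 v296; ok v297 && (
  let v298 := mul x1 v297; ok v298 && (
  let v299 := mul v67 v297; ok v299 && (
  let v300 := mul v299 v271; ok v300 && (
  let v301 := sub v0 v300; ok v301 && (
  let v302 := mul v41 v301; ok v302 && (
  let v303 := sub v302 v298; ok v303 && (
  let v304 := inv v303; ok v304 && (
  let v305 := mul v298 v304; ok v305 && (
  let v306 := sub v0 v298; ok v306 && (
  let v307 := inv v306; ok v307 && (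
  let v308 := inv v30; ok v308 && (
  let v309 := mul v238 v308; ok v309 && (
  let v310 := add v105 v309; ok v310 && (
  let v311 := mul v310 v307; ok v311 && (
  let v312 := mul v311 v299; ok v312 && (
  let v313 := scale ⟨223338299392, 0, 0, 0⟩ v312; ok v313 && (
  let v314 := add v1 v313; ok v314 && (
  let v315 := mul v312 v314; ok v315 && (
  let v316 := add v0 v315; ok v316 && (
  let v317 := mul v312 v316; ok v317 && (
  let v318 := mul v317 v117; ok v318 && (
  let v319 := mul v318 v125; ok v319 && (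
  let v320 := sub v0 v319; ok v320 && (
  let v321 := mul v311 v316; ok v321 && (
  let v322 := mul v321 v296; ok v322 && (
  let v323 := mul v322 v76; ok v323 && (
  let v324 := inv v320; ok v324 && (
  let v325 := mul v323 v324; ok v325 && (
  let v326 := mul v325 x2; ok v326 && (
  let v327 := mul v264 v192; ok v327 && (
  let v328 := mul v266 v117; ok v328 && (
  let v329 := mul v328 v125; ok v329 && (
  let v330 := mul v329 v195; ok v330 && (
  let v331 := add v327 v330; ok v331 && (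
  let v332 := mul v326 v331; ok v332 && (
  let v333 := mul v264 v61; ok v333 && (
  let v334 := mul v333 v274; ok v334 && (
  let v335 := mul v334 v109; ok v335 && (
  let v336 := mul v335 v123; ok v336 && (
  let v337 := mul v325 v184; ok v337 && (
  let v338 := mul v337 x2; ok v338 && (
  let v339 := inv v17; ok v339 && (
  let v340 := mul v338 v339; ok v340 && (
  let v341 := mul x0 v117; ok v341 && (
  let v342 := mul v341 v16; ok v342 && (
  let v343 := mul v342 v273; ok v343 && (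
  let v344 := add v343 v336; ok v344 && (
  let v345 := mul v117 v269; ok v345 && (
  let v346 := mul v345 v209; ok v346 && (
  let v347 := add v344 v346; ok v347 && (
  let v348 := mul v340 v347; ok v348 && (
  let v349 := mul v180 v2; ok v349 && (
  let v350 := mul v349 v17; ok v350 && (
  let v351 := mul v350 v16; ok v351 && (
  let v352 := cst ⟨3298534883328, 0, 0, 0⟩; ok v352 && (
  let v353 := cst ⟨5497558138880, 0, 0, 0⟩; ok v353 && (
  let v354 := inv v353; ok v354 && (
  let v355 := mul v352 v354; ok v355 && (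
  let v356 := add v165 v0; ok v356 && (
  let v357 := mul v165 v356; ok v357 && (
  let v358 := add v55 v357; ok v358 && (
  let v359 := mul v305 v358; ok v359 && (
  let v360 := mul v57 v356; ok v360 && (
  let v361 := scale ⟨687194767360, 0, 0, 0⟩ v359; ok v361 && (
  let v362 := add v0 v361; ok v362 && (
  let v363 := mul v359 v362; ok v363 && (
  let v364 := add v0 v363; ok v364 && (
  let v365 := mul v360 v364; ok v365 && (
  let v366 := add v10 x1; ok v366 && (
  let v367 := mul v166 v366; ok v367 && (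
  let v368 := mul v367 v355; ok v368 && (
  let v369 := add v0 v368; ok v369 && (
  let v370 := inv v369; ok v370 && (
  let v371 := mul v365 v370; ok v371 && (
  let v372 := mul v371 v13; ok v372 && (
  let v373 := mul v2 v297; ok v373 && (
  let v374 := mul v373 v339; ok v374 && (
  let v375 := add v0 v374; ok v375 && (
  let v376 := mul v372 v375; ok v376 && (
  let v377 := sub v44 v299; ok v377 && (
  let v378 := inv v377; ok v378 && (
  let v379 := mul v376 v378; ok v379 && (
  let v380 := mul x1 v332; ok v380 && (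
  let v381 := mul v380 v190; ok v381 && (
  let v382 := mul x1 v351; ok v382 && (
  let v383 := mul v348 v382; ok v383 && (
  let v384 := add v381 v383; ok v384 && (
  let v385 := add v380 v348; ok v385 && (
  let v386 := add v0 v384; ok v386 && (
  let v387 := mul v379 v386; ok v387 && (
  let v388 := add v385 v387; ok v388 && (
  let v389 := sub v0 v388; ok v389 && (
  let v390 := scale ⟨1073741824, 0, 0, 0⟩ x1; ok v390 && (
  let v391 := sub v389 v390; ok v391 && (
  let v392 := sub v13 v0; ok v392 && (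
  let v393 := add v392 v182; ok v393 && (
  let v394 := scale ⟨2199023255552, 0, 0, 0⟩ v355; ok v394 && (
  let v395 := sub v393 v394; ok v395 && (
  let v396 := mul v166 v395; ok v396 && (
  let v397 := mul v392 v394; ok v397 && (
  let v398 := add v397 v0; ok v398 && (
  let v399 := inv v398; ok v399 && (
  let v400 := mul v396 v399; ok v400 && (
  let v401 := mul v180 v289; ok v401 && (
  let v402 := scale ⟨549755813888, 0, 0, 0⟩ v187; ok v402 && (
  let v403 := add v10 v402; ok v403 && (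
  let v404 := mul v401 v403; ok v404 && (
  let v405 := scale ⟨2199023255552, 0, 0, 0⟩ v404; ok v405 && (
  let v406 := add v283 v405; ok v406 && (
  let v407 := scale ⟨2199023255552, 0, 0, 0⟩ v406; ok v407 && (
  let v408 := mul v407 v296; ok v408 && (
  let v409 := sub v17 v373; ok v409 && (
  let v410 := inv v409; ok v410 && (
  let v411 := mul v408 v410; ok v411 && (
  let v412 := sub v400 v411; ok v412 && (
  isPos 4 v191 && (
  isPos 4 v194 && (
  let v413 := scale ⟨2199023255552, 0, 0, 0⟩ v293; ok v413 && (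
  let v414 := sub v44 v413; ok v414 && (
  isPos 4 v414 && (
  isPos 4 v303 && (
  isPos 4 v121 && (
  let v415 := sub v1 v165; ok v415 && (
  isPos 4 v415 && (
  let v416 := scale ⟨687194767360, 0, 0, 0⟩ v0; ok v416 && (
  let v417 := sub v416 v249; ok v417 && (
  isPos 4 v417 && (
  let v418 := scale ⟨377957122048, 0, 0, 0⟩ v0; ok v418 && (
  let v419 := sub v418 v245; ok v419 && (
  isPos 4 v419 && (
  isPos 4 v409 && (
  let v420 := sub v1 v359; ok v420 && (
  isPos 4 v420 && (
  isPos 4 v306 && (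
  isPos 4 v320 && (
  let v421 := sub v416 v312; ok v421 && (
  isPos 4 v421 && (
  let v422 := mul v175 v175; ok v422 && (
  let v423 := cst ⟨14293651161088, 0, 0, 0⟩; ok v423 && (
  let v424 := cst ⟨10995116277760, 0, 0, 0⟩; ok v424 && (
  let v425 := inv v424; ok v425 && (
  let v426 := mul v423 v425; ok v426 && (
  let v427 := mul v422 v426; ok v427 && (
  let v428 := cst ⟨27487790694400, 0, 0, 0⟩; ok v428 && (
  let v429 := add v427 v428; ok v429 && (
  let v430 := mul v166 v17; ok v430 && (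
  let v431 := mul v430 v355; ok v431 && (
  let v432 := mul x1 v431; ok v432 && (
  let v433 := add v0 v432; ok v433 && (
  let v434 := inv v433; ok v434 && (
  let v435 := mul v431 v434; ok v435 && (
  let v436 := sub v32 x1; ok v436 && (
  let v437 := sub v436 v31; ok v437 && (
  let v438 := scale ⟨2199023255552, 0, 0, 0⟩ v2; ok v438 && (
  let v439 := add v438 v299; ok v439 && (
  let v440 := mul x0 v439; ok v440 && (
  let v441 := mul v429 v435; ok v441 && (
  let v442 := mul v296 v440; ok v442 && (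
  let v443 := mul v76 v281; ok v443 && (
  let v444 := mul v5 v443; ok v444 && (
  let v445 := mul v17 v180; ok v445 && (
  let v446 := mul v445 v289; ok v446 && (
  let v447 := mul v30 v446; ok v447 && (
  let v448 := add v444 v447; ok v448 && (
  let v449 := mul x0 v448; ok v449 && (
  let v450 := mul v442 v449; ok v450 && (
  let v451 := sub v441 v450; ok v451 && (
  let v452 := scale ⟨549755813888, 0, 0, 0⟩ v373; ok v452 && (
  let v453 := add v0 v452; ok v453 && (
  let v454 := mul v296 v453; ok v454 && (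
  let v455 := mul x1 v16; ok v455 && (
  let v456 := mul v455 v174; ok v456 && (
  let v457 := mul v17 v44; ok v457 && (
  let v458 := inv v457; ok v458 && (
  let v459 := mul v456 v458; ok v459 && (
  let v460 := mul v454 v459; ok v460 && (
  let v461 := sub v437 v460; ok v461 && (
  let v462 := mul v187 v451; ok v462 && (
  let v463 := sub v0 v187; ok v463 && (
  let v464 := mul v5 v461; ok v464 && (
  let v465 := mul v463 v464; ok v465 && (
  let v466 := mul v429 v465; ok v466 && (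
  let v467 := add v462 v466; ok v467 && (
  isPos 4 v412 && (
  isPos 4 v391 && (
  isPos 4 v467 && (
  isPos 4 v461 && (
  true)))))))))))))))))))))))))))))))))))))))))))))))))))))))))))))))))))))))))))))))))))))))))))))))))))))))))))))))))))))))))))))))))))))))))))))))))))))))))))))))))))))))))))))))))))))))))))))))))))))))))))))))))))))))))))))))))))))))))))))))))))))))))))))))))))))))))))))))))))))))))))))))))))))))))))))))))))))))))))))))))))))))))))))))))))))))))))))))))))))))))))))))))))))))))))))))))))))))))))))))))))))))))))))))))))))))))))))))))))))))))))))))))))))))))))))))))))))))))))))))))))))))))))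
  | _ => false

set_option maxRecDepth 1000000 in
theorem chk3_eq (O : Ops) (m : List O.α)
    (h : chk3 O.cst O.add O.sub O.mul O.scale O.neg O.inv O.exp O.log O.ok O.isPos O.isLt m = true) :
    runG O 4 prog3 m = true := by
  match m, h with
  | [x0, x1, x2, x3], h => exact h

def chkB3 : List opsE.α → Bool :=
  chk3 opsE.cst opsE.add opsE.sub opsE.mul opsE.scale opsE.neg opsE.inv opsE.exp opsE.log opsE.ok opsE.isPos opsE.isLt

theorem chkB3_eq (m : List opsE.α) (h : chkB3 m = true) : runG opsE 4 prog3 m = true :=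
  chk3_eq opsE m h

def prog4 : List Op := [
  .const ⟨1099511627776, 0, 0, 0⟩,
  .const ⟨549755813888, 0, 0, 0⟩,
  .mul 3 4,
  .mul 0 6,
  .scale ⟨549755813888, 0, 0, 0⟩ 0,
  .mul 7 7,
  .mul 1 1,
  .sub 6 0,
  .inv 0,
  .mul 4 0,
  .scale ⟨2199023255552, 0, 0, 0⟩ 0,
  .scale ⟨2199023255552, 0, 0, 0⟩ 2,
  .sub 0 11,
  .add 0 2,
  .mul 17 5,
  .mul 17 0,
  .sub 15 0,
  .add 16 1,
  .scale ⟨10774999203840, 0, 0, 0⟩ 13,
  .scale ⟨45768245248, 0, 0, 0⟩ 0,
  .const ⟨183207198720, 0, 0, 0⟩,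
  .add 1 0,
  .mul 3 0,
  .add 21 0,
  .mul 5 0,
  .add 24 0,
  .mul 7 0,
  .scale ⟨549755813888, 0, 0, 0⟩ 0,
  .add 27 0,
  .mul 3 0,
  .mul 31 24,
  .mul 20 15,
  .scale ⟨2199023255552, 0, 0, 0⟩ 19,
  .add 1 0,
  .add 0 35,
  .mul 4 0,
  .add 0 35,
  .mul 26 26,
  .scale ⟨2199023255552, 0, 0, 0⟩ 0,
  .add 0 38,
  .mul 27 5,
  .sub 0 40,
  .log 5,
  .scale ⟨549755813888, 0, 0, 0⟩ 0,
  .exp 0,
  .scale ⟨549755813888, 0, 0, 0⟩ 45,
  .mul 0 3,
  .neg 0,
  .exp 0,
  .mul 36 18,
  .mul 0 8,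
  .scale ⟨4398046511104, 0, 0, 0⟩ 0,
  .add 0 51,
  .log 0,
  .sub 0 11,
  .mul 9 0,
  .neg 0,
  .exp 0,
  .mul 42 47,
  .add 46 0,
  .inv 0,
  .mul 43 0,
  .mul 45 63,
  .mul 0 1,
  .mul 49 49,
  .sub 64 59,
  .mul 1 0,
  .mul 64 64,
  .add 55 37,
  .inv 0,
  .mul 0 70,
  .mul 0 68,
  .mul 0 0,
  .sub 72 8,
  .mul 8 0,
  .mul 2 0,
  .inv 76,
  .const ⟨45812285440, 0, 0, 0⟩,
  .scale ⟨1527119872, 0, 0, 0⟩ 2,
  .sub 1 0,
  .mul 4 0,
  .sub 79 0,
  .mul 6 0,
  .sub 82 0,
  .add 35 83,
  .mul 36 36,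
  .add 0 85,
  .mul 38 3,
  .scale ⟨2199023255552, 0, 0, 0⟩ 0,
  .add 2 0,
  .inv 5,
  .mul 1 0,
  .add 0 7,
  .mul 44 29,
  .scale ⟨549755813888, 0, 0, 0⟩ 0,
  .mul 0 2,
  .sub 6 0,
  .pos 7,
  .pos 0,
  .inv 0,
  .mul 52 63,
  .const ⟨6597069766656, 0, 0, 0⟩,
  .add 64 0,
  .mul 2 0,
  .scale ⟨4398046511104, 0, 0, 0⟩ 66,
  .add 0 3,
  .inv 0,
  .mul 3 0,
  .sub 105 57,
  .mul 0 22,
  .mul 0 10,
  .scale ⟨549755813888, 0, 0, 0⟩ 0,
  .add 0 108,
  .inv 0,
  .mul 2 0,
  .mul 18 3,
  .add 0 112,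
  .mul 0 22,
  .inv 26,
  .mul 1 0,
  .mul 54 5,
  .scale ⟨549755813888, 0, 0, 0⟩ 0,
  .sub 119 0,
  .sub 120 2,
  .inv 0,
  .mul 2 0,
  .add 5 123,
  .mul 76 0,
  .mul 109 108,
  .add 114 128,
  .mul 112 115,
  .mul 0 118,
  .scale ⟨2199023255552, 0, 0, 0⟩ 0,
  .add 91 0,
  .mul 4 0,
  .inv 0,
  .mul 7 0,
  .mul 136 0,
  .inv 99,
  .mul 61 0,
  .scale ⟨1527119872, 0, 0, 0⟩ 0,
  .sub 61 0,
  .mul 2 0,
  .sub 139 0,
  .mul 4 0,
  .sub 142 0,
  .add 86 143,
  .mul 87 87,
  .add 0 145,
  .mul 89 3,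
  .scale ⟨2199023255552, 0, 0, 0⟩ 0,
  .add 2 0,
  .inv 5,
  .mul 1 0,
  .add 0 7,
  .mul 95 17,
  .scale ⟨549755813888, 0, 0, 0⟩ 0,
  .mul 0 2,
  .sub 6 0,
  .pos 7,
  .pos 0,
  .sub 156 99,
  .mul 0 13,
  .inv 2,
  .mul 1 0,
  .scale ⟨549755813888, 0, 0, 0⟩ 0,
  .add 0 160,
  .inv 0,
  .mul 2 0,
  .mul 29 0,
  .add 161 165,
  .inv 0,
  .mul 163 0,
  .scale ⟨2199023255552, 0, 0, 0⟩ 0,
  .sub 169 0,
  .sub 170 166,
  .mul 175 4,
  .mul 0 2,
  .add 156 0,
  .mul 175 164,
  .scale ⟨137438953472, 0, 0, 0⟩ 0,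
  .add 0 175,
  .inv 0,
  .mul 179 0,
  .scale ⟨274877906944, 0, 0, 0⟩ 0,
  .scale ⟨549755813888, 0, 0, 0⟩ 5,
  .const ⟨2199023255552, 0, 0, 0⟩,
  .add 1 0,
  .mul 0 107,
  .scale ⟨224412041216, 0, 0, 0⟩ 176,
  .inv 156,
  .mul 1 0,
  .mul 7 170,
  .mul 0 1,
  .mul 187 0,
  .sub 190 0,
  .inv 0,
  .mul 67 2,
  .sub 193 0,
  .inv 0,
  .scale ⟨3573412790272, 0, 0, 0⟩ 181,
  .inv 199,
  .scale ⟨339302416384, 0, 0, 0⟩ 0,
  .add 2 0,
  .scale ⟨549755813888, 0, 0, 0⟩ 0,
  .scale ⟨2199023255552, 0, 0, 0⟩ 124,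
  .add 0 201,
  .add 126 202,
  .mul 199 189,
  .sub 204 138,
  .mul 201 190,
  .scale ⟨2199023255552, 0, 0, 0⟩ 0,
  .sub 2 0,
  .mul 4 4,
  .add 1 0,
  .add 0 210,
  .scale ⟨549755813888, 0, 0, 0⟩ 0,
  .scale ⟨549755813888, 0, 0, 0⟩ 182,
  .sub 205 0,
  .mul 147 9,
  .mul 0 208,
  .scale ⟨137438953472, 0, 0, 0⟩ 0,
  .add 3 0,
  .mul 6 0,
  .mul 101 96,
  .add 95 220,
  .mul 0 29,
  .mul 97 27,
  .add 1 0,
  .mul 34 0,
  .add 5 0,
  .mul 0 150,
  .mul 6 37,
  .mul 0 36,
  .add 9 0,
  .mul 0 154,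
  .scale ⟨223338299392, 0, 0, 0⟩ 0,
  .add 231 0,
  .mul 2 0,
  .add 234 0,
  .scale ⟨893353197568, 0, 0, 0⟩ 8,
  .add 236 0,
  .mul 10 0,
  .add 238 0,
  .mul 70 67,
  .mul 0 38,
  .mul 0 2,
  .mul 23 7,
  .add 199 242,
  .mul 2 0,
  .add 2 0,
  .add 202 246,
  .mul 5 0,
  .mul 45 1,
  .mul 0 77,
  .mul 0 79,
  .mul 249 77,
  .inv 208,
  .mul 1 0,
  .scale ⟨549755813888, 0, 0, 0⟩ 0,
  .mul 194 58,
  .mul 0 144,
  .mul 0 134,
  .mul 242 3,
  .mul 13 1,
  .mul 9 60,
  .add 1 0,
  .mul 0 186,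
  .add 4 0,
  .mul 18 43,
  .mul 0 73,
  .mul 18 141,
  .mul 0 72,
  .add 2 0,
  .mul 0 193,
  .mul 254 6,
  .mul 82 1,
  .add 1 0,
  .mul 206 0,
  .mul 0 21,
  .sub 275 0,
  .inv 0,
  .mul 4 0,
  .mul 280 0,
  .mul 212 1,
  .mul 0 27,
  .sub 281 0,
  .mul 241 0,
  .sub 0 4,
  .inv 0,
  .mul 6 0,
  .sub 286 7,
  .inv 0,
  .inv 258,
  .mul 69 0,
  .add 185 0,
  .mul 0 3,
  .mul 0 12,
  .scale ⟨223338299392, 0, 0, 0⟩ 0,
  .add 293 0,
  .mul 2 0,
  .add 296 0,
  .mul 4 0,
  .mul 0 181,
  .mul 0 174,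
  .sub 300 0,
  .mul 9 4,
  .mul 0 25,
  .mul 0 227,
  .inv 3,
  .mul 1 0,
  .mul 0 309,
  .mul 61 115,
  .mul 60 191,
  .mul 0 184,
  .mul 0 115,
  .add 3 0,
  .mul 5 0,
  .mul 67 252,
  .mul 0 117,
  .mul 0 206,
  .mul 0 193,
  .mul 11 133,
  .mul 0 321,
  .inv 302,
  .mul 1 0,
  .mul 322 204,
  .mul 0 306,
  .mul 0 68,
  .add 0 7,
  .mul 208 74,
  .mul 0 126,
  .add 2 0,
  .mul 7 0,
  .mul 149 327,
  .mul 0 313,
  .mul 0 315,
  .const ⟨3298534883328, 0, 0, 0⟩,
  .const ⟨5497558138880, 0, 0, 0⟩,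
  .inv 0,
  .mul 2 0,
  .add 171 336,
  .mul 172 0,
  .add 283 0,
  .mul 53 0,
  .mul 283 3,
  .scale ⟨687194767360, 0, 0, 0⟩ 1,
  .add 342 0,
  .mul 3 0,
  .add 344 0,
  .mul 4 0,
  .add 336 348,
  .mul 181 0,
  .mul 0 12,
  .add 349 0,
  .inv 0,
  .mul 5 0,
  .mul 0 339,
  .mul 351 75,
  .mul 0 34,
  .add 355 0,
  .mul 3 0,
  .sub 313 77,
  .inv 0,
  .mul 2 0,
  .mul 362 47,
  .mul 0 171,
  .mul 364 30,
  .mul 34 0,
  .add 2 0,
  .add 4 36,
  .add 366 1,
  .mul 7 0,
  .add 2 0,
  .sub 369 0,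
  .scale ⟨1073741824, 0, 0, 0⟩ 372,
  .sub 1 0,
  .sub 359 372,
  .add 0 191,
  .scale ⟨2199023255552, 0, 0, 0⟩ 38,
  .sub 1 0,
  .mul 210 0,
  .mul 4 2,
  .add 0 378,
  .inv 0,
  .mul 3 0,
  .mul 201 111,
  .scale ⟨549755813888, 0, 0, 0⟩ 195,
  .add 373 0,
  .mul 2 0,
  .scale ⟨2199023255552, 0, 0, 0⟩ 0,
  .add 122 0,
  .scale ⟨2199023255552, 0, 0, 0⟩ 0,
  .mul 0 111,
  .sub 372 35,
  .inv 0,
  .mul 2 0,
  .sub 11 0,
  .pos 202,
  .pos 199,
  .scale ⟨2199023255552, 0, 0, 0⟩ 119,
  .sub 350 0,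
  .pos 0,
  .pos 111,
  .pos 274,
  .sub 394 230,
  .pos 0,
  .scale ⟨687194767360, 0, 0, 0⟩ 396,
  .sub 0 166,
  .pos 0,
  .scale ⟨377957122048, 0, 0, 0⟩ 398,
  .sub 0 172,
  .pos 0,
  .pos 10,
  .sub 399 60,
  .pos 0,
  .pos 114,
  .pos 100,
  .sub 4 108,
  .pos 0,
  .mul 227 227,
  .const ⟨14293651161088, 0, 0, 0⟩,
  .const ⟨10995116277760, 0, 0, 0⟩,
  .inv 0,
  .mul 2 0,
  .mul 4 0,
  .const ⟨27487790694400, 0, 0, 0⟩,
  .add 1 0,
  .mul 244 393,
  .mul 0 75,
  .mul 414 0,
  .add 413 0,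
  .inv 0,
  .mul 3 0,
  .sub 384 418,
  .sub 0 386,
  .scale ⟨2199023255552, 0, 0, 0⟩ 416,
  .add 0 139,
  .mul 421 0,
  .mul 11 5,
  .mul 145 1,
  .mul 347 161,
  .mul 419 0,
  .mul 408 245,
  .mul 0 156,
  .mul 397 0,
  .add 3 0,
  .mul 430 0,
  .mul 7 0,
  .sub 9 0,
  .scale ⟨549755813888, 0, 0, 0⟩ 78,
  .add 433 0,
  .mul 157 0,
  .mul 437 419,
  .mul 0 262,
  .mul 420 393,
  .inv 0,
  .mul 2 0,
  .mul 5 0,
  .sub 23 0,
  .mul 255 10,
  .sub 443 256,
  .mul 439 2,
  .mul 1 0,
  .mul 36 0,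
  .add 4 0,
  .pos 55,
  .pos 76,
  .pos 0,
  .pos 6]

def chk4 {α : Type} (cst : Z → α) (add sub mul : α → α → α) (scale : Z → α → α)
    (neg inv exp log : α → α) (ok : α → Bool) (isPos : Nat → α → Bool) (isLt : α → Nat → Bool) :
    List α → Bool
  | [x0, x1, x2, x3] =>
  let v0 := cst ⟨1099511627776, 0, 0, 0⟩; ok v0 && (
  let v1 := cst ⟨549755813888, 0, 0, 0⟩; ok v1 && (
  let v2 := mul x1 x2; ok v2 && (
  let v3 := mul v2 x3; ok v3 && (
  let v4 := scale ⟨549755813888, 0, 0, 0⟩ v3; ok v4 && (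
  let v5 := mul x2 x2; ok v5 && (
  let v6 := mul v4 v4; ok v6 && (
  let v7 := sub v0 v6; ok v7 && (
  let v8 := inv v7; ok v8 && (
  let v9 := mul v4 v8; ok v9 && (
  let v10 := scale ⟨2199023255552, 0, 0, 0⟩ v9; ok v10 && (
  let v11 := scale ⟨2199023255552, 0, 0, 0⟩ v8; ok v11 && (
  let v12 := sub v11 v0; ok v12 && (
  let v13 := add v12 v10; ok v13 && (
  let v14 := mul x3 v8; ok v14 && (
  let v15 := mul x2 v14; ok v15 && (
  let v16 := sub v0 v15; ok v16 && (
  let v17 := add v0 v15; ok v17 && (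
  let v18 := scale ⟨10774999203840, 0, 0, 0⟩ v4; ok v18 && (
  let v19 := scale ⟨45768245248, 0, 0, 0⟩ v18; ok v19 && (
  let v20 := cst ⟨183207198720, 0, 0, 0⟩; ok v20 && (
  let v21 := add v19 v20; ok v21 && (
  let v22 := mul v18 v21; ok v22 && (
  let v23 := add v1 v22; ok v23 && (
  let v24 := mul v18 v23; ok v24 && (
  let v25 := add v0 v24; ok v25 && (
  let v26 := mul v18 v25; ok v26 && (
  let v27 := scale ⟨549755813888, 0, 0, 0⟩ v26; ok v27 && (
  let v28 := add v0 v27; ok v28 && (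
  let v29 := mul v25 v28; ok v29 && (
  let v30 := mul x1 v5; ok v30 && (
  let v31 := mul v10 v15; ok v31 && (
  let v32 := scale ⟨2199023255552, 0, 0, 0⟩ v12; ok v32 && (
  let v33 := add v31 v32; ok v33 && (
  let v34 := add v33 x1; ok v34 && (
  let v35 := mul v30 v34; ok v35 && (
  let v36 := add v35 v0; ok v36 && (
  let v37 := mul v10 v10; ok v37 && (
  let v38 := scale ⟨2199023255552, 0, 0, 0⟩ v37; ok v38 && (
  let v39 := add v38 v0; ok v39 && (
  let v40 := mul v12 v34; ok v40 && (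
  let v41 := sub v40 v0; ok v41 && (
  let v42 := log v36; ok v42 && (
  let v43 := scale ⟨549755813888, 0, 0, 0⟩ v42; ok v43 && (
  let v44 := exp v43; ok v44 && (
  let v45 := scale ⟨549755813888, 0, 0, 0⟩ x0; ok v45 && (
  let v46 := mul v45 v42; ok v46 && (
  let v47 := neg v46; ok v47 && (
  let v48 := exp v47; ok v48 && (
  let v49 := mul v12 v30; ok v49 && (
  let v50 := mul v49 v41; ok v50 && (
  let v51 := scale ⟨4398046511104, 0, 0, 0⟩ v50; ok v51 && (
  let v52 := add v51 v0; ok v52 && (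
  let v53 := log v52; ok v53 && (
  let v54 := sub v53 v42; ok v54 && (
  let v55 := mul v45 v54; ok v55 && (
  let v56 := neg v55; ok v56 && (
  let v57 := exp v56; ok v57 && (
  let v58 := mul v15 v10; ok v58 && (
  let v59 := add v12 v58; ok v59 && (
  let v60 := inv v59; ok v60 && (
  let v61 := mul v17 v60; ok v61 && (
  let v62 := mul v16 x1; ok v62 && (
  let v63 := mul v62 v61; ok v63 && (
  let v64 := mul v14 v14; ok v64 && (
  let v65 := sub v0 v5; ok v65 && (
  let v66 := mul v64 v65; ok v66 && (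
  let v67 := mul v2 v2; ok v67 && (
  let v68 := add v12 v30; ok v68 && (
  let v69 := inv v68; ok v69 && (
  let v70 := mul v69 x0; ok v70 && (
  let v71 := mul v70 v2; ok v71 && (
  let v72 := mul v71 v71; ok v72 && (
  let v73 := sub v0 v64; ok v73 && (
  let v74 := mul v65 v73; ok v74 && (
  let v75 := mul v72 v74; ok v75 && (
  let v76 := inv x0; ok v76 && (
  let v77 := cst ⟨45812285440, 0, 0, 0⟩; ok v77 && (
  let v78 := scale ⟨1527119872, 0, 0, 0⟩ v75; ok v78 && (
  let v79 := sub v77 v78; ok v79 && (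
  let v80 := mul v75 v79; ok v80 && (
  let v81 := sub v1 v80; ok v81 && (
  let v82 := mul v75 v81; ok v82 && (
  let v83 := sub v0 v82; ok v83 && (
  let v84 := add v48 v0; ok v84 && (
  let v85 := mul v48 v48; ok v85 && (
  let v86 := add v85 v0; ok v86 && (
  let v87 := mul v48 v83; ok v87 && (
  let v88 := scale ⟨2199023255552, 0, 0, 0⟩ v87; ok v88 && (
  let v89 := add v86 v88; ok v89 && (
  let v90 := inv v84; ok v90 && (
  let v91 := mul v89 v90; ok v91 && (
  let v92 := add v91 v84; ok v92 && (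
  let v93 := mul v48 v63; ok v93 && (
  let v94 := scale ⟨549755813888, 0, 0, 0⟩ v93; ok v94 && (
  let v95 := mul v94 v92; ok v95 && (
  let v96 := sub v89 v95; ok v96 && (
  isPos 4 v89 && (
  isPos 4 v96 && (
  let v97 := inv v96; ok v97 && (
  let v98 := mul v45 v34; ok v98 && (
  let v99 := cst ⟨6597069766656, 0, 0, 0⟩; ok v99 && (
  let v100 := add v35 v99; ok v100 && (
  let v101 := mul v98 v100; ok v101 && (
  let v102 := scale ⟨4398046511104, 0, 0, 0⟩ v35; ok v102 && (
  let v103 := add v102 v99; ok v103 && (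
  let v104 := inv v103; ok v104 && (
  let v105 := mul v101 v104; ok v105 && (
  let v106 := sub v0 v48; ok v106 && (
  let v107 := mul v106 v84; ok v107 && (
  let v108 := mul v107 v97; ok v108 && (
  let v109 := scale ⟨549755813888, 0, 0, 0⟩ v108; ok v109 && (
  let v110 := add v109 v1; ok v110 && (
  let v111 := inv v110; ok v111 && (
  let v112 := mul v109 v111; ok v112 && (
  let v113 := mul v94 v109; ok v113 && (
  let v114 := add v113 v1; ok v114 && (
  let v115 := mul v114 v92; ok v115 && (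
  let v116 := inv v89; ok v116 && (
  let v117 := mul v115 v116; ok v117 && (
  let v118 := mul v63 v112; ok v118 && (
  let v119 := scale ⟨549755813888, 0, 0, 0⟩ v118; ok v119 && (
  let v120 := sub v0 v119; ok v120 && (
  let v121 := sub v0 v118; ok v121 && (
  let v122 := inv v121; ok v122 && (
  let v123 := mul v120 v122; ok v123 && (
  let v124 := add v118 v0; ok v124 && (
  let v125 := mul v48 v124; ok v125 && (
  let v126 := mul v16 v17; ok v126 && (
  let v127 := add v12 x1; ok v127 && (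
  let v128 := mul v15 v12; ok v128 && (
  let v129 := mul v128 v10; ok v129 && (
  let v130 := scale ⟨2199023255552, 0, 0, 0⟩ v129; ok v130 && (
  let v131 := add v39 v130; ok v131 && (
  let v132 := mul v127 v131; ok v132 && (
  let v133 := inv v132; ok v133 && (
  let v134 := mul v126 v133; ok v134 && (
  let v135 := mul x1 v134; ok v135 && (
  let v136 := inv v36; ok v136 && (
  let v137 := mul v75 v136; ok v137 && (
  let v138 := scale ⟨1527119872, 0, 0, 0⟩ v137; ok v138 && (
  let v139 := sub v77 v138; ok v139 && (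
  let v140 := mul v137 v139; ok v140 && (
  let v141 := sub v1 v140; ok v141 && (
  let v142 := mul v137 v141; ok v142 && (
  let v143 := sub v0 v142; ok v143 && (
  let v144 := add v57 v0; ok v144 && (
  let v145 := mul v57 v57; ok v145 && (
  let v146 := add v145 v0; ok v146 && (
  let v147 := mul v57 v143; ok v147 && (
  let v148 := scale ⟨2199023255552, 0, 0, 0⟩ v147; ok v148 && (
  let v149 := add v146 v148; ok v149 && (
  let v150 := inv v144; ok v150 && (
  let v151 := mul v149 v150; ok v151 && (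
  let v152 := add v151 v144; ok v152 && (
  let v153 := mul v57 v135; ok v153 && (
  let v154 := scale ⟨549755813888, 0, 0, 0⟩ v153; ok v154 && (
  let v155 := mul v154 v152; ok v155 && (
  let v156 := sub v149 v155; ok v156 && (
  isPos 4 v149 && (
  isPos 4 v156 && (
  let v157 := sub v0 v57; ok v157 && (
  let v158 := mul v157 v144; ok v158 && (
  let v159 := inv v156; ok v159 && (
  let v160 := mul v158 v159; ok v160 && (
  let v161 := scale ⟨549755813888, 0, 0, 0⟩ v160; ok v161 && (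
  let v162 := add v161 v1; ok v162 && (
  let v163 := inv v162; ok v163 && (
  let v164 := mul v161 v163; ok v164 && (
  let v165 := mul v135 v164; ok v165 && (
  let v166 := add v4 v0; ok v166 && (
  let v167 := inv v166; ok v167 && (
  let v168 := mul v4 v167; ok v168 && (
  let v169 := scale ⟨2199023255552, 0, 0, 0⟩ v168; ok v169 && (
  let v170 := sub v0 v169; ok v170 && (
  let v171 := sub v0 v4; ok v171 && (
  let v172 := mul x3 v167; ok v172 && (
  let v173 := mul v172 v170; ok v173 && (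
  let v174 := add v17 v173; ok v174 && (
  let v175 := mul x0 v10; ok v175 && (
  let v176 := scale ⟨137438953472, 0, 0, 0⟩ v175; ok v176 && (
  let v177 := add v176 v1; ok v177 && (
  let v178 := inv v177; ok v178 && (
  let v179 := mul x0 v178; ok v179 && (
  let v180 := scale ⟨274877906944, 0, 0, 0⟩ v179; ok v180 && (
  let v181 := scale ⟨549755813888, 0, 0, 0⟩ v175; ok v181 && (
  let v182 := cst ⟨2199023255552, 0, 0, 0⟩; ok v182 && (
  let v183 := add v181 v182; ok v183 && (
  let v184 := mul v183 v76; ok v184 && (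
  let v185 := scale ⟨224412041216, 0, 0, 0⟩ v8; ok v185 && (
  let v186 := inv v29; ok v186 && (
  let v187 := mul v185 v186; ok v187 && (
  let v188 := mul v180 v17; ok v188 && (
  let v189 := mul v188 v187; ok v189 && (
  let v190 := mul v2 v189; ok v190 && (
  let v191 := sub v0 v190; ok v191 && (
  let v192 := inv v191; ok v192 && (
  let v193 := mul v125 v190; ok v193 && (
  let v194 := sub v0 v193; ok v194 && (
  let v195 := inv v194; ok v195 && (
  let v196 := scale ⟨3573412790272, 0, 0, 0⟩ v14; ok v196 && (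
  let v197 := inv x2; ok v197 && (
  let v198 := scale ⟨339302416384, 0, 0, 0⟩ v197; ok v198 && (
  let v199 := add v196 v198; ok v199 && (
  let v200 := scale ⟨549755813888, 0, 0, 0⟩ v199; ok v200 && (
  let v201 := scale ⟨2199023255552, 0, 0, 0⟩ v76; ok v201 && (
  let v202 := add v201 v0; ok v202 && (
  let v203 := add v76 v0; ok v203 && (
  let v204 := mul v4 v14; ok v204 && (
  let v205 := sub v0 v66; ok v205 && (
  let v206 := mul v4 v15; ok v206 && (
  let v207 := scale ⟨2199023255552, 0, 0, 0⟩ v206; ok v207 && (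
  let v208 := sub v205 v207; ok v208 && (
  let v209 := mul v204 v204; ok v209 && (
  let v210 := add v208 v209; ok v210 && (
  let v211 := add v210 v0; ok v211 && (
  let v212 := scale ⟨549755813888, 0, 0, 0⟩ v211; ok v212 && (
  let v213 := scale ⟨549755813888, 0, 0, 0⟩ v30; ok v213 && (
  let v214 := sub v8 v213; ok v214 && (
  let v215 := mul v67 v205; ok v215 && (
  let v216 := mul v215 v7; ok v216 && (
  let v217 := scale ⟨137438953472, 0, 0, 0⟩ v216; ok v217 && (
  let v218 := add v214 v217; ok v218 && (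
  let v219 := mul v212 v218; ok v219 && (
  let v220 := mul v118 v123; ok v220 && (
  let v221 := add v125 v0; ok v221 && (
  let v222 := mul v221 v192; ok v222 && (
  let v223 := mul v125 v195; ok v223 && (
  let v224 := add v222 v223; ok v224 && (
  let v225 := mul v190 v224; ok v225 && (
  let v226 := add v220 v225; ok v226 && (
  let v227 := mul v226 v76; ok v227 && (
  let v228 := mul v221 v190; ok v228 && (
  let v229 := mul v228 v192; ok v229 && (
  let v230 := add v220 v229; ok v230 && (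
  let v231 := mul v230 v76; ok v231 && (
  let v232 := scale ⟨223338299392, 0, 0, 0⟩ v231; ok v232 && (
  let v233 := add v1 v232; ok v233 && (
  let v234 := mul v231 v233; ok v234 && (
  let v235 := add v0 v234; ok v235 && (
  let v236 := scale ⟨893353197568, 0, 0, 0⟩ v227; ok v236 && (
  let v237 := add v0 v236; ok v237 && (
  let v238 := mul v227 v237; ok v238 && (
  let v239 := add v0 v238; ok v239 && (
  let v240 := mul v169 v172; ok v240 && (
  let v241 := mul v240 v202; ok v241 && (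
  let v242 := mul v241 v239; ok v242 && (
  let v243 := mul v219 v235; ok v243 && (
  let v244 := add v44 v1; ok v244 && (
  let v245 := mul v242 v244; ok v245 && (
  let v246 := add v243 v245; ok v246 && (
  let v247 := add v44 v0; ok v247 && (
  let v248 := mul v242 v247; ok v248 && (
  let v249 := mul v203 v247; ok v249 && (
  let v250 := mul v249 v172; ok v250 && (
  let v251 := mul v250 v171; ok v251 && (
  let v252 := mul v2 v174; ok v252 && (
  let v253 := inv v44; ok v253 && (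
  let v254 := mul v252 v253; ok v254 && (
  let v255 := scale ⟨549755813888, 0, 0, 0⟩ v254; ok v255 && (
  let v256 := mul v61 v197; ok v256 && (
  let v257 := mul v256 v112; ok v257 && (
  let v258 := mul v257 v123; ok v258 && (
  let v259 := mul v16 v255; ok v259 && (
  let v260 := mul v246 v258; ok v260 && (
  let v261 := mul v251 v200; ok v261 && (
  let v262 := add v260 v261; ok v262 && (
  let v263 := mul v262 v76; ok v263 && (
  let v264 := add v259 v263; ok v264 && (
  let v265 := mul v246 v221; ok v265 && (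
  let v266 := mul v265 v192; ok v266 && (
  let v267 := mul v248 v125; ok v267 && (
  let v268 := mul v267 v195; ok v268 && (
  let v269 := add v266 v268; ok v269 && (
  let v270 := mul v269 v76; ok v270 && (
  let v271 := mul v16 v264; ok v271 && (
  let v272 := mul v189 v270; ok v272 && (
  let v273 := add v271 v272; ok v273 && (
  let v274 := mul v67 v273; ok v274 && (
  let v275 := mul v274 v253; ok v275 && (
  let v276 := sub v0 v275; ok v276 && (
  let v277 := inv v276; ok v277 && (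
  let v278 := mul v273 v277; ok v278 && (
  let v279 := mul x1 v278; ok v279 && (
  let v280 := mul v67 v278; ok v280 && (
  let v281 := mul v280 v253; ok v281 && (
  let v282 := sub v0 v281; ok v282 && (
  let v283 := mul v41 v282; ok v283 && (
  let v284 := sub v283 v279; ok v284 && (
  let v285 := inv v284; ok v285 && (
  let v286 := mul v279 v285; ok v286 && (
  let v287 := sub v0 v279; ok v287 && (
  let v288 := inv v287; ok v288 && (
  let v289 := inv v30; ok v289 && (
  let v290 := mul v220 v289; ok v290 && (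
  let v291 := add v105 v290; ok v291 && (
  let v292 := mul v291 v288; ok v292 && (
  let v293 := mul v292 v280; ok v293 && (
  let v294 := scale ⟨223338299392, 0, 0, 0⟩ v293; ok v294 && (
  let v295 := add v1 v294; ok v295 && (
  let v296 := mul v293 v295; ok v296 && (
  let v297 := add v0 v296; ok v297 && (
  let v298 := mul v293 v297; ok v298 && (
  let v299 := mul v298 v117; ok v299 && (
  let v300 := mul v299 v125; ok v300 && (
  let v301 := sub v0 v300; ok v301 && (
  let v302 := mul v292 v297; ok v302 && (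
  let v303 := mul v302 v277; ok v303 && (
  let v304 := mul v303 v76; ok v304 && (
  let v305 := inv v301; ok v305 && (
  let v306 := mul v304 v305; ok v306 && (
  let v307 := mul v306 x2; ok v307 && (
  let v308 := mul v246 v192; ok v308 && (
  let v309 := mul v248 v117; ok v309 && (
  let v310 := mul v309 v125; ok v310 && (
  let v311 := mul v310 v195; ok v311 && (
  let v312 := add v308 v311; ok v312 && (
  let v313 := mul v307 v312; ok v313 && (
  let v314 := mul v246 v61; ok v314 && (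
  let v315 := mul v314 v197; ok v315 && (
  let v316 := mul v315 v109; ok v316 && (
  let v317 := mul v316 v123; ok v317 && (
  let v318 := mul v306 v184; ok v318 && (
  let v319 := mul v318 x2; ok v319 && (
  let v320 := inv v17; ok v320 && (
  let v321 := mul v319 v320; ok v321 && (
  let v322 := mul x0 v117; ok v322 && (
  let v323 := mul v322 v16; ok v323 && (
  let v324 := mul v323 v255; ok v324 && (
  let v325 := add v324 v317; ok v325 && (
  let v326 := mul v117 v251; ok v326 && (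
  let v327 := mul v326 v200; ok v327 && (
  let v328 := add v325 v327; ok v328 && (
  let v329 := mul v321 v328; ok v329 && (
  let v330 := mul v180 v2; ok v330 && (
  let v331 := mul v330 v17; ok v331 && (
  let v332 := mul v331 v16; ok v332 && (
  let v333 := cst ⟨3298534883328, 0, 0, 0⟩; ok v333 && (
  let v334 := cst ⟨5497558138880, 0, 0, 0⟩; ok v334 && (
  let v335 := inv v334; ok v335 && (
  let v336 := mul v333 v335; ok v336 && (
  let v337 := add v165 v0; ok v337 && (
  let v338 := mul v165 v337; ok v338 && (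
  let v339 := add v55 v338; ok v339 && (
  let v340 := mul v286 v339; ok v340 && (
  let v341 := mul v57 v337; ok v341 && (
  let v342 := scale ⟨687194767360, 0, 0, 0⟩ v340; ok v342 && (
  let v343 := add v0 v342; ok v343 && (
  let v344 := mul v340 v343; ok v344 && (
  let v345 := add v0 v344; ok v345 && (
  let v346 := mul v341 v345; ok v346 && (
  let v347 := add v10 x1; ok v347 && (
  let v348 := mul v166 v347; ok v348 && (
  let v349 := mul v348 v336; ok v349 && (
  let v350 := add v0 v349; ok v350 && (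
  let v351 := inv v350; ok v351 && (
  let v352 := mul v346 v351; ok v352 && (
  let v353 := mul v352 v13; ok v353 && (
  let v354 := mul v2 v278; ok v354 && (
  let v355 := mul v354 v320; ok v355 && (
  let v356 := add v0 v355; ok v356 && (
  let v357 := mul v353 v356; ok v357 && (
  let v358 := sub v44 v280; ok v358 && (
  let v359 := inv v358; ok v359 && (
  let v360 := mul v357 v359; ok v360 && (
  let v361 := mul x1 v313; ok v361 && (
  let v362 := mul v361 v190; ok v362 && (
  let v363 := mul x1 v332; ok v363 && (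
  let v364 := mul v329 v363; ok v364 && (
  let v365 := add v362 v364; ok v365 && (
  let v366 := add v361 v329; ok v366 && (
  let v367 := add v0 v365; ok v367 && (
  let v368 := mul v360 v367; ok v368 && (
  let v369 := add v366 v368; ok v369 && (
  let v370 := sub v0 v369; ok v370 && (
  let v371 := scale ⟨1073741824, 0, 0, 0⟩ x1; ok v371 && (
  let v372 := sub v370 v371; ok v372 && (
  let v373 := sub v13 v0; ok v373 && (
  let v374 := add v373 v182; ok v374 && (
  let v375 := scale ⟨2199023255552, 0, 0, 0⟩ v336; ok v375 && (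
  let v376 := sub v374 v375; ok v376 && (
  let v377 := mul v166 v376; ok v377 && (
  let v378 := mul v373 v375; ok v378 && (
  let v379 := add v378 v0; ok v379 && (
  let v380 := inv v379; ok v380 && (
  let v381 := mul v377 v380; ok v381 && (
  let v382 := mul v180 v270; ok v382 && (
  let v383 := scale ⟨549755813888, 0, 0, 0⟩ v187; ok v383 && (
  let v384 := add v10 v383; ok v384 && (
  let v385 := mul v382 v384; ok v385 && (
  let v386 := scale ⟨2199023255552, 0, 0, 0⟩ v385; ok v386 && (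
  let v387 := add v264 v386; ok v387 && (
  let v388 := scale ⟨2199023255552, 0, 0, 0⟩ v387; ok v388 && (
  let v389 := mul v388 v277; ok v389 && (
  let v390 := sub v17 v354; ok v390 && (
  let v391 := inv v390; ok v391 && (
  let v392 := mul v389 v391; ok v392 && (
  let v393 := sub v381 v392; ok v393 && (
  isPos 4 v191 && (
  isPos 4 v194 && (
  let v394 := scale ⟨2199023255552, 0, 0, 0⟩ v274; ok v394 && (
  let v395 := sub v44 v394; ok v395 && (
  isPos 4 v395 && (
  isPos 4 v284 && (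
  isPos 4 v121 && (
  let v396 := sub v1 v165; ok v396 && (
  isPos 4 v396 && (
  let v397 := scale ⟨687194767360, 0, 0, 0⟩ v0; ok v397 && (
  let v398 := sub v397 v231; ok v398 && (
  isPos 4 v398 && (
  let v399 := scale ⟨377957122048, 0, 0, 0⟩ v0; ok v399 && (
  let v400 := sub v399 v227; ok v400 && (
  isPos 4 v400 && (
  isPos 4 v390 && (
  let v401 := sub v1 v340; ok v401 && (
  isPos 4 v401 && (
  isPos 4 v287 && (
  isPos 4 v301 && (
  let v402 := sub v397 v293; ok v402 && (
  isPos 4 v402 && (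
  let v403 := mul v175 v175; ok v403 && (
  let v404 := cst ⟨14293651161088, 0, 0, 0⟩; ok v404 && (
  let v405 := cst ⟨10995116277760, 0, 0, 0⟩; ok v405 && (
  let v406 := inv v405; ok v406 && (
  let v407 := mul v404 v406; ok v407 && (
  let v408 := mul v403 v407; ok v408 && (
  let v409 := cst ⟨27487790694400, 0, 0, 0⟩; ok v409 && (
  let v410 := add v408 v409; ok v410 && (
  let v411 := mul v166 v17; ok v411 && (
  let v412 := mul v411 v336; ok v412 && (
  let v413 := mul x1 v412; ok v413 && (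
  let v414 := add v0 v413; ok v414 && (
  let v415 := inv v414; ok v415 && (
  let v416 := mul v412 v415; ok v416 && (
  let v417 := sub v32 x1; ok v417 && (
  let v418 := sub v417 v31; ok v418 && (
  let v419 := scale ⟨2199023255552, 0, 0, 0⟩ v2; ok v419 && (
  let v420 := add v419 v280; ok v420 && (
  let v421 := mul x0 v420; ok v421 && (
  let v422 := mul v410 v416; ok v422 && (
  let v423 := mul v277 v421; ok v423 && (
  let v424 := mul v76 v262; ok v424 && (
  let v425 := mul v5 v424; ok v425 && (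
  let v426 := mul v17 v180; ok v426 && (
  let v427 := mul v426 v270; ok v427 && (
  let v428 := mul v30 v427; ok v428 && (
  let v429 := add v425 v428; ok v429 && (
  let v430 := mul x0 v429; ok v430 && (
  let v431 := mul v423 v430; ok v431 && (
  let v432 := sub v422 v431; ok v432 && (
  let v433 := scale ⟨549755813888, 0, 0, 0⟩ v354; ok v433 && (
  let v434 := add v0 v433; ok v434 && (
  let v435 := mul v277 v434; ok v435 && (
  let v436 := mul x1 v16; ok v436 && (
  let v437 := mul v436 v174; ok v437 && (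
  let v438 := mul v17 v44; ok v438 && (
  let v439 := inv v438; ok v439 && (
  let v440 := mul v437 v439; ok v440 && (
  let v441 := mul v435 v440; ok v441 && (
  let v442 := sub v418 v441; ok v442 && (
  let v443 := mul v187 v432; ok v443 && (
  let v444 := sub v0 v187; ok v444 && (
  let v445 := mul v5 v442; ok v445 && (
  let v446 := mul v444 v445; ok v446 && (
  let v447 := mul v410 v446; ok v447 && (
  let v448 := add v443 v447; ok v448 && (
  isPos 4 v393 && (
  isPos 4 v372 && (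
  isPos 4 v448 && (
  isPos 4 v442 && (
  true))))))))))))))))))))))))))))))))))))))))))))))))))))))))))))))))))))))))))))))))))))))))))))))))))))))))))))))))))))))))))))))))))))))))))))))))))))))))))))))))))))))))))))))))))))))))))))))))))))))))))))))))))))))))))))))))))))))))))))))))))))))))))))))))))))))))))))))))))))))))))))))))))))))))))))))))))))))))))))))))))))))))))))))))))))))))))))))))))))))))))))))))))))))))))))))))))))))))))))))))))))))))))))))))))))))))))))))))))))))))))))))))))))))))))))))))))))))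
  | _ => false

set_option maxRecDepth 1000000 in
theorem chk4_eq (O : Ops) (m : List O.α)
    (h : chk4 O.cst O.add O.sub O.mul O.scale O.neg O.inv O.exp O.log O.ok O.isPos O.isLt m = true) :
    runG O 4 prog4 m = true := by
  match m, h with
  | [x0, x1, x2, x3], h => exact h

def chkB4 : List opsE.α → Bool :=
  chk4 opsE.cst opsE.add opsE.sub opsE.mul opsE.scale opsE.neg opsE.inv opsE.exp opsE.log opsE.ok opsE.isPos opsE.isLt

theorem chkB4_eq (m : List opsE.α) (h : chkB4 m = true) : runG opsE 4 prog4 m = true :=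
  chk4_eq opsE m h

def prog5 : List Op := [
  .const ⟨1099511627776, 0, 0, 0⟩,
  .const ⟨549755813888, 0, 0, 0⟩,
  .mul 3 4,
  .mul 0 6,
  .scale ⟨549755813888, 0, 0, 0⟩ 0,
  .mul 7 7,
  .mul 1 1,
  .sub 6 0,
  .inv 0,
  .mul 4 0,
  .scale ⟨2199023255552, 0, 0, 0⟩ 0,
  .scale ⟨2199023255552, 0, 0, 0⟩ 2,
  .sub 0 11,
  .add 0 2,
  .mul 17 5,
  .mul 17 0,
  .sub 15 0,
  .add 16 1,
  .scale ⟨10774999203840, 0, 0, 0⟩ 13,
  .scale ⟨45768245248, 0, 0, 0⟩ 0,
  .const ⟨183207198720, 0, 0, 0⟩,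
  .add 1 0,
  .mul 3 0,
  .add 21 0,
  .mul 5 0,
  .add 24 0,
  .mul 7 0,
  .scale ⟨549755813888, 0, 0, 0⟩ 0,
  .add 27 0,
  .mul 3 0,
  .mul 31 24,
  .mul 20 15,
  .scale ⟨2199023255552, 0, 0, 0⟩ 19,
  .add 1 0,
  .add 0 35,
  .mul 4 0,
  .add 0 35,
  .mul 26 26,
  .scale ⟨2199023255552, 0, 0, 0⟩ 0,
  .add 0 38,
  .mul 27 5,
  .sub 0 40,
  .log 5,
  .scale ⟨549755813888, 0, 0, 0⟩ 0,
  .exp 0,
  .scale ⟨549755813888, 0, 0, 0⟩ 45,
  .mul 0 3,
  .neg 0,
  .exp 0,
  .mul 36 18,
  .mul 0 8,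
  .scale ⟨4398046511104, 0, 0, 0⟩ 0,
  .add 0 51,
  .log 0,
  .sub 0 11,
  .mul 9 0,
  .neg 0,
  .exp 0,
  .mul 42 47,
  .add 46 0,
  .inv 0,
  .mul 43 0,
  .mul 45 63,
  .mul 0 1,
  .mul 49 49,
  .sub 64 59,
  .mul 1 0,
  .mul 64 64,
  .add 55 37,
  .inv 0,
  .mul 0 70,
  .mul 0 68,
  .mul 0 0,
  .sub 72 8,
  .mul 8 0,
  .mul 2 0,
  .inv 76,
  .const ⟨45812285440, 0, 0, 0⟩,
  .scale ⟨1527119872, 0, 0, 0⟩ 2,
  .sub 1 0,
  .mul 4 0,
  .sub 79 0,
  .mul 6 0,
  .sub 82 0,
  .add 35 83,
  .mul 36 36,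
  .add 0 85,
  .mul 38 3,
  .scale ⟨2199023255552, 0, 0, 0⟩ 0,
  .add 2 0,
  .inv 5,
  .mul 1 0,
  .add 0 7,
  .mul 44 29,
  .scale ⟨549755813888, 0, 0, 0⟩ 0,
  .mul 0 2,
  .sub 6 0,
  .pos 7,
  .pos 0,
  .inv 0,
  .sub 97 49,
  .mul 0 14,
  .mul 0 2,
  .scale ⟨549755813888, 0, 0, 0⟩ 0,
  .add 0 100,
  .inv 0,
  .mul 2 0,
  .mul 10 3,
  .add 0 104,
  .mul 0 14,
  .inv 18,
  .mul 1 0,
  .mul 46 5,
  .scale ⟨549755813888, 0, 0, 0⟩ 0,
  .sub 111 0,
  .sub 112 2,
  .inv 0,
  .mul 2 0,
  .add 5 115,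
  .mul 68 0,
  .mul 101 100,
  .add 106 120,
  .mul 104 107,
  .mul 0 110,
  .scale ⟨2199023255552, 0, 0, 0⟩ 0,
  .add 83 0,
  .mul 4 0,
  .inv 0,
  .mul 7 0,
  .mul 128 0,
  .inv 91,
  .mul 53 0,
  .scale ⟨1527119872, 0, 0, 0⟩ 0,
  .sub 53 0,
  .mul 2 0,
  .sub 131 0,
  .mul 4 0,
  .sub 134 0,
  .add 78 135,
  .mul 79 79,
  .add 0 137,
  .mul 81 3,
  .scale ⟨2199023255552, 0, 0, 0⟩ 0,
  .add 2 0,
  .inv 5,
  .mul 1 0,
  .add 0 7,
  .mul 87 17,
  .scale ⟨549755813888, 0, 0, 0⟩ 0,
  .mul 0 2,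
  .sub 6 0,
  .pos 7,
  .pos 0,
  .sub 148 91,
  .mul 0 13,
  .inv 2,
  .mul 1 0,
  .scale ⟨549755813888, 0, 0, 0⟩ 0,
  .add 0 152,
  .inv 0,
  .mul 2 0,
  .mul 29 0,
  .add 153 157,
  .inv 0,
  .mul 155 0,
  .scale ⟨2199023255552, 0, 0, 0⟩ 0,
  .sub 161 0,
  .sub 162 158,
  .mul 167 4,
  .mul 0 2,
  .add 148 0,
  .mul 167 156,
  .scale ⟨137438953472, 0, 0, 0⟩ 0,
  .add 0 167,
  .inv 0,
  .mul 171 0,
  .scale ⟨274877906944, 0, 0, 0⟩ 0,
  .scale ⟨549755813888, 0, 0, 0⟩ 5,
  .const ⟨2199023255552, 0, 0, 0⟩,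
  .add 1 0,
  .mul 0 99,
  .scale ⟨224412041216, 0, 0, 0⟩ 168,
  .inv 148,
  .mul 1 0,
  .mul 7 162,
  .mul 0 1,
  .mul 179 0,
  .sub 182 0,
  .inv 0,
  .mul 67 2,
  .sub 185 0,
  .inv 0,
  .mul 171 83,
  .inv 173,
  .mul 1 0,
  .scale ⟨549755813888, 0, 0, 0⟩ 0,
  .sub 191 0,
  .sub 192 2,
  .inv 0,
  .mul 2 0,
  .mul 91 0,
  .inv 199,
  .mul 1 0,
  .mul 8 3,
  .pos 6,
  .mul 0 123,
  .scale ⟨1374389534720, 0, 0, 0⟩ 0,
  .sub 200 0,
  .pos 0,
  .scale ⟨3092376453120, 0, 0, 0⟩ 2,
  .add 0 29,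
  .mul 4 0,
  .add 205 0,
  .scale ⟨1546188226560, 0, 0, 0⟩ 6,
  .add 0 207,
  .mul 8 0,
  .add 209 0,
  .mul 206 196,
  .sub 211 145,
  .mul 208 197,
  .scale ⟨2199023255552, 0, 0, 0⟩ 0,
  .sub 2 0,
  .mul 4 4,
  .add 1 0,
  .add 0 217,
  .scale ⟨549755813888, 0, 0, 0⟩ 0,
  .scale ⟨549755813888, 0, 0, 0⟩ 189,
  .sub 212 0,
  .mul 154 9,
  .mul 0 215,
  .scale ⟨137438953472, 0, 0, 0⟩ 0,
  .add 3 0,
  .mul 6 0,
  .mul 116 111,
  .add 110 227,
  .mul 0 44,
  .mul 112 42,
  .add 1 0,
  .mul 49 0,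
  .add 5 0,
  .mul 0 157,
  .mul 6 52,
  .mul 0 51,
  .add 9 0,
  .mul 0 161,
  .scale ⟨223338299392, 0, 0, 0⟩ 0,
  .add 238 0,
  .mul 2 0,
  .add 241 0,
  .scale ⟨893353197568, 0, 0, 0⟩ 8,
  .add 243 0,
  .mul 10 0,
  .add 245 0,
  .mul 85 82,
  .mul 0 41,
  .mul 0 2,
  .mul 23 7,
  .add 206 249,
  .mul 2 0,
  .add 2 0,
  .add 209 253,
  .mul 5 0,
  .mul 45 1,
  .mul 0 92,
  .mul 0 94,
  .mul 256 92,
  .inv 215,
  .mul 1 0,
  .scale ⟨549755813888, 0, 0, 0⟩ 0,
  .mul 201 65,
  .mul 0 159,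
  .mul 0 149,
  .mul 249 3,
  .mul 13 1,
  .mul 9 69,
  .add 1 0,
  .mul 0 193,
  .add 4 0,
  .mul 18 43,
  .mul 0 88,
  .mul 18 156,
  .mul 0 87,
  .add 2 0,
  .mul 0 200,
  .mul 261 6,
  .mul 97 1,
  .add 1 0,
  .mul 213 0,
  .mul 0 21,
  .sub 282 0,
  .inv 0,
  .mul 4 0,
  .mul 287 0,
  .mul 219 1,
  .mul 0 27,
  .sub 288 0,
  .mul 248 0,
  .sub 0 4,
  .inv 0,
  .mul 6 0,
  .sub 249 6,
  .inv 0,
  .mul 2 139,
  .mul 297 1,
  .mul 141 5,
  .inv 268,
  .mul 1 0,
  .scale ⟨549755813888, 0, 0, 0⟩ 4,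
  .sub 301 0,
  .sub 302 6,
  .inv 0,
  .mul 2 0,
  .mul 5 0,
  .add 9 0,
  .mul 0 20,
  .scale ⟨223338299392, 0, 0, 0⟩ 0,
  .add 308 0,
  .mul 2 0,
  .add 311 0,
  .mul 5 0,
  .mul 0 29,
  .mul 0 238,
  .mul 0 318,
  .mul 0 40,
  .mul 2 141,
  .mul 0 321,
  .inv 302,
  .mul 1 0,
  .mul 322 305,
  .mul 0 60,
  .add 0 56,
  .add 0 56,
  .mul 4 0,
  .mul 154 324,
  .mul 0 310,
  .mul 0 312,
  .const ⟨3298534883328, 0, 0, 0⟩,
  .const ⟨5497558138880, 0, 0, 0⟩,
  .inv 0,
  .mul 2 0,
  .add 176 333,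
  .mul 177 0,
  .add 280 0,
  .mul 43 0,
  .mul 280 3,
  .scale ⟨687194767360, 0, 0, 0⟩ 1,
  .add 339 0,
  .mul 3 0,
  .add 341 0,
  .mul 4 0,
  .add 333 345,
  .mul 186 0,
  .mul 0 12,
  .add 346 0,
  .inv 0,
  .mul 5 0,
  .mul 0 336,
  .mul 348 65,
  .mul 0 31,
  .add 352 0,
  .mul 3 0,
  .mul 0 59,
  .mul 357 38,
  .mul 0 174,
  .mul 359 28,
  .mul 32 0,
  .add 2 0,
  .add 4 34,
  .add 361 1,
  .mul 7 0,
  .add 2 0,
  .sub 364 0,
  .scale ⟨1073741824, 0, 0, 0⟩ 367,
  .sub 1 0,
  .sub 354 367,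
  .add 0 194,
  .scale ⟨2199023255552, 0, 0, 0⟩ 36,
  .sub 1 0,
  .mul 213 0,
  .mul 4 2,
  .add 0 373,
  .inv 0,
  .mul 3 0,
  .mul 204 99,
  .scale ⟨549755813888, 0, 0, 0⟩ 198,
  .add 368 0,
  .mul 2 0,
  .scale ⟨2199023255552, 0, 0, 0⟩ 0,
  .add 110 0,
  .scale ⟨2199023255552, 0, 0, 0⟩ 0,
  .mul 0 99,
  .sub 367 33,
  .inv 0,
  .mul 2 0,
  .sub 11 0,
  .pos 205,
  .pos 202,
  .scale ⟨2199023255552, 0, 0, 0⟩ 107,
  .sub 345 0,
  .pos 0,
  .pos 99,
  .pos 277,
  .sub 389 233,
  .pos 0,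
  .scale ⟨687194767360, 0, 0, 0⟩ 391,
  .sub 0 154,
  .pos 0,
  .scale ⟨377957122048, 0, 0, 0⟩ 393,
  .sub 0 160,
  .pos 0,
  .pos 10,
  .sub 394 58,
  .pos 0,
  .pos 93,
  .sub 4 88,
  .pos 0,
  .mul 230 230,
  .const ⟨14293651161088, 0, 0, 0⟩,
  .const ⟨10995116277760, 0, 0, 0⟩,
  .inv 0,
  .mul 2 0,
  .mul 4 0,
  .const ⟨27487790694400, 0, 0, 0⟩,
  .add 1 0,
  .mul 247 388,
  .mul 0 73,
  .mul 409 0,
  .add 408 0,
  .inv 0,
  .mul 3 0,
  .sub 379 413,
  .sub 0 381,
  .scale ⟨2199023255552, 0, 0, 0⟩ 411,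
  .add 0 127,
  .mul 416 0,
  .mul 11 5,
  .mul 133 1,
  .mul 342 149,
  .mul 414 0,
  .mul 403 248,
  .mul 0 144,
  .mul 392 0,
  .add 3 0,
  .mul 425 0,
  .mul 7 0,
  .sub 9 0,
  .scale ⟨549755813888, 0, 0, 0⟩ 76,
  .add 428 0,
  .mul 145 0,
  .mul 432 414,
  .mul 0 265,
  .mul 415 388,
  .inv 0,
  .mul 2 0,
  .mul 5 0,
  .sub 23 0,
  .mul 258 10,
  .sub 438 259,
  .mul 434 2,
  .mul 1 0,
  .mul 36 0,
  .add 4 0,
  .pos 55,
  .pos 76,
  .pos 0,
  .pos 6]

def chk5 {α : Type} (cst : Z → α) (add sub mul : α → α → α) (scale : Z → α → α)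
    (neg inv exp log : α → α) (ok : α → Bool) (isPos : Nat → α → Bool) (isLt : α → Nat → Bool) :
    List α → Bool
  | [x0, x1, x2, x3] =>
  let v0 := cst ⟨1099511627776, 0, 0, 0⟩; ok v0 && (
  let v1 := cst ⟨549755813888, 0, 0, 0⟩; ok v1 && (
  let v2 := mul x1 x2; ok v2 && (
  let v3 := mul v2 x3; ok v3 && (
  let v4 := scale ⟨549755813888, 0, 0, 0⟩ v3; ok v4 && (
  let v5 := mul x2 x2; ok v5 && (
  let v6 := mul v4 v4; ok v6 && (
  let v7 := sub v0 v6; ok v7 && (
  let v8 := inv v7; ok v8 && (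
  let v9 := mul v4 v8; ok v9 && (
  let v10 := scale ⟨2199023255552, 0, 0, 0⟩ v9; ok v10 && (
  let v11 := scale ⟨2199023255552, 0, 0, 0⟩ v8; ok v11 && (
  let v12 := sub v11 v0; ok v12 && (
  let v13 := add v12 v10; ok v13 && (
  let v14 := mul x3 v8; ok v14 && (
  let v15 := mul x2 v14; ok v15 && (
  let v16 := sub v0 v15; ok v16 && (
  let v17 := add v0 v15; ok v17 && (
  let v18 := scale ⟨10774999203840, 0, 0, 0⟩ v4; ok v18 && (
  let v19 := scale ⟨45768245248, 0, 0, 0⟩ v18; ok v19 && (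
  let v20 := cst ⟨183207198720, 0, 0, 0⟩; ok v20 && (
  let v21 := add v19 v20; ok v21 && (
  let v22 := mul v18 v21; ok v22 && (
  let v23 := add v1 v22; ok v23 && (
  let v24 := mul v18 v23; ok v24 && (
  let v25 := add v0 v24; ok v25 && (
  let v26 := mul v18 v25; ok v26 && (
  let v27 := scale ⟨549755813888, 0, 0, 0⟩ v26; ok v27 && (
  let v28 := add v0 v27; ok v28 && (
  let v29 := mul v25 v28; ok v29 && (
  let v30 := mul x1 v5; ok v30 && (
  let v31 := mul v10 v15; ok v31 && (
  let v32 := scale ⟨2199023255552, 0, 0, 0⟩ v12; ok v32 && (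
  let v33 := add v31 v32; ok v33 && (
  let v34 := add v33 x1; ok v34 && (
  let v35 := mul v30 v34; ok v35 && (
  let v36 := add v35 v0; ok v36 && (
  let v37 := mul v10 v10; ok v37 && (
  let v38 := scale ⟨2199023255552, 0, 0, 0⟩ v37; ok v38 && (
  let v39 := add v38 v0; ok v39 && (
  let v40 := mul v12 v34; ok v40 && (
  let v41 := sub v40 v0; ok v41 && (
  let v42 := log v36; ok v42 && (
  let v43 := scale ⟨549755813888, 0, 0, 0⟩ v42; ok v43 && (
  let v44 := exp v43; ok v44 && (
  let v45 := scale ⟨549755813888, 0, 0, 0⟩ x0; ok v45 && (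
  let v46 := mul v45 v42; ok v46 && (
  let v47 := neg v46; ok v47 && (
  let v48 := exp v47; ok v48 && (
  let v49 := mul v12 v30; ok v49 && (
  let v50 := mul v49 v41; ok v50 && (
  let v51 := scale ⟨4398046511104, 0, 0, 0⟩ v50; ok v51 && (
  let v52 := add v51 v0; ok v52 && (
  let v53 := log v52; ok v53 && (
  let v54 := sub v53 v42; ok v54 && (
  let v55 := mul v45 v54; ok v55 && (
  let v56 := neg v55; ok v56 && (
  let v57 := exp v56; ok v57 && (
  let v58 := mul v15 v10; ok v58 && (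
  let v59 := add v12 v58; ok v59 && (
  let v60 := inv v59; ok v60 && (
  let v61 := mul v17 v60; ok v61 && (
  let v62 := mul v16 x1; ok v62 && (
  let v63 := mul v62 v61; ok v63 && (
  let v64 := mul v14 v14; ok v64 && (
  let v65 := sub v0 v5; ok v65 && (
  let v66 := mul v64 v65; ok v66 && (
  let v67 := mul v2 v2; ok v67 && (
  let v68 := add v12 v30; ok v68 && (
  let v69 := inv v68; ok v69 && (
  let v70 := mul v69 x0; ok v70 && (
  let v71 := mul v70 v2; ok v71 && (
  let v72 := mul v71 v71; ok v72 && (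
  let v73 := sub v0 v64; ok v73 && (
  let v74 := mul v65 v73; ok v74 && (
  let v75 := mul v72 v74; ok v75 && (
  let v76 := inv x0; ok v76 && (
  let v77 := cst ⟨45812285440, 0, 0, 0⟩; ok v77 && (
  let v78 := scale ⟨1527119872, 0, 0, 0⟩ v75; ok v78 && (
  let v79 := sub v77 v78; ok v79 && (
  let v80 := mul v75 v79; ok v80 && (
  let v81 := sub v1 v80; ok v81 && (
  let v82 := mul v75 v81; ok v82 && (
  let v83 := sub v0 v82; ok v83 && (
  let v84 := add v48 v0; ok v84 && (
  let v85 := mul v48 v48; ok v85 && (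
  let v86 := add v85 v0; ok v86 && (
  let v87 := mul v48 v83; ok v87 && (
  let v88 := scale ⟨2199023255552, 0, 0, 0⟩ v87; ok v88 && (
  let v89 := add v86 v88; ok v89 && (
  let v90 := inv v84; ok v90 && (
  let v91 := mul v89 v90; ok v91 && (
  let v92 := add v91 v84; ok v92 && (
  let v93 := mul v48 v63; ok v93 && (
  let v94 := scale ⟨549755813888, 0, 0, 0⟩ v93; ok v94 && (
  let v95 := mul v94 v92; ok v95 && (
  let v96 := sub v89 v95; ok v96 && (
  isPos 4 v89 && (
  isPos 4 v96 && (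
  let v97 := inv v96; ok v97 && (
  let v98 := sub v0 v48; ok v98 && (
  let v99 := mul v98 v84; ok v99 && (
  let v100 := mul v99 v97; ok v100 && (
  let v101 := scale ⟨549755813888, 0, 0, 0⟩ v100; ok v101 && (
  let v102 := add v101 v1; ok v102 && (
  let v103 := inv v102; ok v103 && (
  let v104 := mul v101 v103; ok v104 && (
  let v105 := mul v94 v101; ok v105 && (
  let v106 := add v105 v1; ok v106 && (
  let v107 := mul v106 v92; ok v107 && (
  let v108 := inv v89; ok v108 && (
  let v109 := mul v107 v108; ok v109 && (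
  let v110 := mul v63 v104; ok v110 && (
  let v111 := scale ⟨549755813888, 0, 0, 0⟩ v110; ok v111 && (
  let v112 := sub v0 v111; ok v112 && (
  let v113 := sub v0 v110; ok v113 && (
  let v114 := inv v113; ok v114 && (
  let v115 := mul v112 v114; ok v115 && (
  let v116 := add v110 v0; ok v116 && (
  let v117 := mul v48 v116; ok v117 && (
  let v118 := mul v16 v17; ok v118 && (
  let v119 := add v12 x1; ok v119 && (
  let v120 := mul v15 v12; ok v120 && (
  let v121 := mul v120 v10; ok v121 && (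
  let v122 := scale ⟨2199023255552, 0, 0, 0⟩ v121; ok v122 && (
  let v123 := add v39 v122; ok v123 && (
  let v124 := mul v119 v123; ok v124 && (
  let v125 := inv v124; ok v125 && (
  let v126 := mul v118 v125; ok v126 && (
  let v127 := mul x1 v126; ok v127 && (
  let v128 := inv v36; ok v128 && (
  let v129 := mul v75 v128; ok v129 && (
  let v130 := scale ⟨1527119872, 0, 0, 0⟩ v129; ok v130 && (
  let v131 := sub v77 v130; ok v131 && (
  let v132 := mul v129 v131; ok v132 && (
  let v133 := sub v1 v132; ok v133 && (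
  let v134 := mul v129 v133; ok v134 && (
  let v135 := sub v0 v134; ok v135 && (
  let v136 := add v57 v0; ok v136 && (
  let v137 := mul v57 v57; ok v137 && (
  let v138 := add v137 v0; ok v138 && (
  let v139 := mul v57 v135; ok v139 && (
  let v140 := scale ⟨2199023255552, 0, 0, 0⟩ v139; ok v140 && (
  let v141 := add v138 v140; ok v141 && (
  let v142 := inv v136; ok v142 && (
  let v143 := mul v141 v142; ok v143 && (
  let v144 := add v143 v136; ok v144 && (
  let v145 := mul v57 v127; ok v145 && (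
  let v146 := scale ⟨549755813888, 0, 0, 0⟩ v145; ok v146 && (
  let v147 := mul v146 v144; ok v147 && (
  let v148 := sub v141 v147; ok v148 && (
  isPos 4 v141 && (
  isPos 4 v148 && (
  let v149 := sub v0 v57; ok v149 && (
  let v150 := mul v149 v136; ok v150 && (
  let v151 := inv v148; ok v151 && (
  let v152 := mul v150 v151; ok v152 && (
  let v153 := scale ⟨549755813888, 0, 0, 0⟩ v152; ok v153 && (
  let v154 := add v153 v1; ok v154 && (
  let v155 := inv v154; ok v155 && (
  let v156 := mul v153 v155; ok v156 && (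
  let v157 := mul v127 v156; ok v157 && (
  let v158 := add v4 v0; ok v158 && (
  let v159 := inv v158; ok v159 && (
  let v160 := mul v4 v159; ok v160 && (
  let v161 := scale ⟨2199023255552, 0, 0, 0⟩ v160; ok v161 && (
  let v162 := sub v0 v161; ok v162 && (
  let v163 := sub v0 v4; ok v163 && (
  let v164 := mul x3 v159; ok v164 && (
  let v165 := mul v164 v162; ok v165 && (
  let v166 := add v17 v165; ok v166 && (
  let v167 := mul x0 v10; ok v167 && (
  let v168 := scale ⟨137438953472, 0, 0, 0⟩ v167; ok v168 && (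
  let v169 := add v168 v1; ok v169 && (
  let v170 := inv v169; ok v170 && (
  let v171 := mul x0 v170; ok v171 && (
  let v172 := scale ⟨274877906944, 0, 0, 0⟩ v171; ok v172 && (
  let v173 := scale ⟨549755813888, 0, 0, 0⟩ v167; ok v173 && (
  let v174 := cst ⟨2199023255552, 0, 0, 0⟩; ok v174 && (
  let v175 := add v173 v174; ok v175 && (
  let v176 := mul v175 v76; ok v176 && (
  let v177 := scale ⟨224412041216, 0, 0, 0⟩ v8; ok v177 && (
  let v178 := inv v29; ok v178 && (
  let v179 := mul v177 v178; ok v179 && (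
  let v180 := mul v172 v17; ok v180 && (
  let v181 := mul v180 v179; ok v181 && (
  let v182 := mul v2 v181; ok v182 && (
  let v183 := sub v0 v182; ok v183 && (
  let v184 := inv v183; ok v184 && (
  let v185 := mul v117 v182; ok v185 && (
  let v186 := sub v0 v185; ok v186 && (
  let v187 := inv v186; ok v187 && (
  let v188 := mul v16 v104; ok v188 && (
  let v189 := inv v15; ok v189 && (
  let v190 := mul v188 v189; ok v190 && (
  let v191 := scale ⟨549755813888, 0, 0, 0⟩ v190; ok v191 && (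
  let v192 := sub v0 v191; ok v192 && (
  let v193 := sub v0 v190; ok v193 && (
  let v194 := inv v193; ok v194 && (
  let v195 := mul v192 v194; ok v195 && (
  let v196 := mul v104 v195; ok v196 && (
  let v197 := inv x2; ok v197 && (
  let v198 := mul v196 v197; ok v198 && (
  let v199 := mul v190 v195; ok v199 && (
  isPos 4 v193 && (
  let v200 := mul v199 v76; ok v200 && (
  let v201 := scale ⟨1374389534720, 0, 0, 0⟩ v200; ok v201 && (
  let v202 := sub v1 v201; ok v202 && (
  isPos 4 v202 && (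
  let v203 := scale ⟨3092376453120, 0, 0, 0⟩ v200; ok v203 && (
  let v204 := add v203 v174; ok v204 && (
  let v205 := mul v200 v204; ok v205 && (
  let v206 := add v0 v205; ok v206 && (
  let v207 := scale ⟨1546188226560, 0, 0, 0⟩ v200; ok v207 && (
  let v208 := add v207 v0; ok v208 && (
  let v209 := mul v200 v208; ok v209 && (
  let v210 := add v0 v209; ok v210 && (
  let v211 := mul v4 v14; ok v211 && (
  let v212 := sub v0 v66; ok v212 && (
  let v213 := mul v4 v15; ok v213 && (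
  let v214 := scale ⟨2199023255552, 0, 0, 0⟩ v213; ok v214 && (
  let v215 := sub v212 v214; ok v215 && (
  let v216 := mul v211 v211; ok v216 && (
  let v217 := add v215 v216; ok v217 && (
  let v218 := add v217 v0; ok v218 && (
  let v219 := scale ⟨549755813888, 0, 0, 0⟩ v218; ok v219 && (
  let v220 := scale ⟨549755813888, 0, 0, 0⟩ v30; ok v220 && (
  let v221 := sub v8 v220; ok v221 && (
  let v222 := mul v67 v212; ok v222 && (
  let v223 := mul v222 v7; ok v223 && (
  let v224 := scale ⟨137438953472, 0, 0, 0⟩ v223; ok v224 && (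
  let v225 := add v221 v224; ok v225 && (
  let v226 := mul v219 v225; ok v226 && (
  let v227 := mul v110 v115; ok v227 && (
  let v228 := add v117 v0; ok v228 && (
  let v229 := mul v228 v184; ok v229 && (
  let v230 := mul v117 v187; ok v230 && (
  let v231 := add v229 v230; ok v231 && (
  let v232 := mul v182 v231; ok v232 && (
  let v233 := add v227 v232; ok v233 && (
  let v234 := mul v233 v76; ok v234 && (
  let v235 := mul v228 v182; ok v235 && (
  let v236 := mul v235 v184; ok v236 && (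
  let v237 := add v227 v236; ok v237 && (
  let v238 := mul v237 v76; ok v238 && (
  let v239 := scale ⟨223338299392, 0, 0, 0⟩ v238; ok v239 && (
  let v240 := add v1 v239; ok v240 && (
  let v241 := mul v238 v240; ok v241 && (
  let v242 := add v0 v241; ok v242 && (
  let v243 := scale ⟨893353197568, 0, 0, 0⟩ v234; ok v243 && (
  let v244 := add v0 v243; ok v244 && (
  let v245 := mul v234 v244; ok v245 && (
  let v246 := add v0 v245; ok v246 && (
  let v247 := mul v161 v164; ok v247 && (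
  let v248 := mul v247 v206; ok v248 && (
  let v249 := mul v248 v246; ok v249 && (
  let v250 := mul v226 v242; ok v250 && (
  let v251 := add v44 v1; ok v251 && (
  let v252 := mul v249 v251; ok v252 && (
  let v253 := add v250 v252; ok v253 && (
  let v254 := add v44 v0; ok v254 && (
  let v255 := mul v249 v254; ok v255 && (
  let v256 := mul v210 v254; ok v256 && (
  let v257 := mul v256 v164; ok v257 && (
  let v258 := mul v257 v163; ok v258 && (
  let v259 := mul v2 v166; ok v259 && (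
  let v260 := inv v44; ok v260 && (
  let v261 := mul v259 v260; ok v261 && (
  let v262 := scale ⟨549755813888, 0, 0, 0⟩ v261; ok v262 && (
  let v263 := mul v61 v197; ok v263 && (
  let v264 := mul v263 v104; ok v264 && (
  let v265 := mul v264 v115; ok v265 && (
  let v266 := mul v16 v262; ok v266 && (
  let v267 := mul v253 v265; ok v267 && (
  let v268 := mul v258 v198; ok v268 && (
  let v269 := add v267 v268; ok v269 && (
  let v270 := mul v269 v76; ok v270 && (
  let v271 := add v266 v270; ok v271 && (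
  let v272 := mul v253 v228; ok v272 && (
  let v273 := mul v272 v184; ok v273 && (
  let v274 := mul v255 v117; ok v274 && (
  let v275 := mul v274 v187; ok v275 && (
  let v276 := add v273 v275; ok v276 && (
  let v277 := mul v276 v76; ok v277 && (
  let v278 := mul v16 v271; ok v278 && (
  let v279 := mul v181 v277; ok v279 && (
  let v280 := add v278 v279; ok v280 && (
  let v281 := mul v67 v280; ok v281 && (
  let v282 := mul v281 v260; ok v282 && (
  let v283 := sub v0 v282; ok v283 && (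
  let v284 := inv v283; ok v284 && (
  let v285 := mul v280 v284; ok v285 && (
  let v286 := mul x1 v285; ok v286 && (
  let v287 := mul v67 v285; ok v287 && (
  let v288 := mul v287 v260; ok v288 && (
  let v289 := sub v0 v288; ok v289 && (
  let v290 := mul v41 v289; ok v290 && (
  let v291 := sub v290 v286; ok v291 && (
  let v292 := inv v291; ok v292 && (
  let v293 := mul v286 v292; ok v293 && (
  let v294 := sub v44 v287; ok v294 && (
  let v295 := inv v294; ok v295 && (
  let v296 := mul v293 v156; ok v296 && (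
  let v297 := mul x0 v295; ok v297 && (
  let v298 := mul v156 v292; ok v298 && (
  let v299 := inv v30; ok v299 && (
  let v300 := mul v298 v299; ok v300 && (
  let v301 := scale ⟨549755813888, 0, 0, 0⟩ v296; ok v301 && (
  let v302 := sub v0 v301; ok v302 && (
  let v303 := sub v0 v296; ok v303 && (
  let v304 := inv v303; ok v304 && (
  let v305 := mul v302 v304; ok v305 && (
  let v306 := mul v300 v305; ok v306 && (
  let v307 := add v297 v306; ok v307 && (
  let v308 := mul v307 v287; ok v308 && (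
  let v309 := scale ⟨223338299392, 0, 0, 0⟩ v308; ok v309 && (
  let v310 := add v1 v309; ok v310 && (
  let v311 := mul v308 v310; ok v311 && (
  let v312 := add v0 v311; ok v312 && (
  let v313 := mul v307 v312; ok v313 && (
  let v314 := mul v313 v284; ok v314 && (
  let v315 := mul v314 v76; ok v315 && (
  let v316 := mul v315 x2; ok v316 && (
  let v317 := mul v316 v276; ok v317 && (
  let v318 := mul v315 v176; ok v318 && (
  let v319 := mul v318 x2; ok v319 && (
  let v320 := inv v17; ok v320 && (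
  let v321 := mul v319 v320; ok v321 && (
  let v322 := mul x0 v16; ok v322 && (
  let v323 := mul v322 v262; ok v323 && (
  let v324 := add v323 v267; ok v324 && (
  let v325 := add v324 v268; ok v325 && (
  let v326 := mul v321 v325; ok v326 && (
  let v327 := mul v172 v2; ok v327 && (
  let v328 := mul v327 v17; ok v328 && (
  let v329 := mul v328 v16; ok v329 && (
  let v330 := cst ⟨3298534883328, 0, 0, 0⟩; ok v330 && (
  let v331 := cst ⟨5497558138880, 0, 0, 0⟩; ok v331 && (
  let v332 := inv v331; ok v332 && (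
  let v333 := mul v330 v332; ok v333 && (
  let v334 := add v157 v0; ok v334 && (
  let v335 := mul v157 v334; ok v335 && (
  let v336 := add v55 v335; ok v336 && (
  let v337 := mul v293 v336; ok v337 && (
  let v338 := mul v57 v334; ok v338 && (
  let v339 := scale ⟨687194767360, 0, 0, 0⟩ v337; ok v339 && (
  let v340 := add v0 v339; ok v340 && (
  let v341 := mul v337 v340; ok v341 && (
  let v342 := add v0 v341; ok v342 && (
  let v343 := mul v338 v342; ok v343 && (
  let v344 := add v10 x1; ok v344 && (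
  let v345 := mul v158 v344; ok v345 && (
  let v346 := mul v345 v333; ok v346 && (
  let v347 := add v0 v346; ok v347 && (
  let v348 := inv v347; ok v348 && (
  let v349 := mul v343 v348; ok v349 && (
  let v350 := mul v349 v13; ok v350 && (
  let v351 := mul v2 v285; ok v351 && (
  let v352 := mul v351 v320; ok v352 && (
  let v353 := add v0 v352; ok v353 && (
  let v354 := mul v350 v353; ok v354 && (
  let v355 := mul v354 v295; ok v355 && (
  let v356 := mul x1 v317; ok v356 && (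
  let v357 := mul v356 v182; ok v357 && (
  let v358 := mul x1 v329; ok v358 && (
  let v359 := mul v326 v358; ok v359 && (
  let v360 := add v357 v359; ok v360 && (
  let v361 := add v356 v326; ok v361 && (
  let v362 := add v0 v360; ok v362 && (
  let v363 := mul v355 v362; ok v363 && (
  let v364 := add v361 v363; ok v364 && (
  let v365 := sub v0 v364; ok v365 && (
  let v366 := scale ⟨1073741824, 0, 0, 0⟩ x1; ok v366 && (
  let v367 := sub v365 v366; ok v367 && (
  let v368 := sub v13 v0; ok v368 && (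
  let v369 := add v368 v174; ok v369 && (
  let v370 := scale ⟨2199023255552, 0, 0, 0⟩ v333; ok v370 && (
  let v371 := sub v369 v370; ok v371 && (
  let v372 := mul v158 v371; ok v372 && (
  let v373 := mul v368 v370; ok v373 && (
  let v374 := add v373 v0; ok v374 && (
  let v375 := inv v374; ok v375 && (
  let v376 := mul v372 v375; ok v376 && (
  let v377 := mul v172 v277; ok v377 && (
  let v378 := scale ⟨549755813888, 0, 0, 0⟩ v179; ok v378 && (
  let v379 := add v10 v378; ok v379 && (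
  let v380 := mul v377 v379; ok v380 && (
  let v381 := scale ⟨2199023255552, 0, 0, 0⟩ v380; ok v381 && (
  let v382 := add v271 v381; ok v382 && (
  let v383 := scale ⟨2199023255552, 0, 0, 0⟩ v382; ok v383 && (
  let v384 := mul v383 v284; ok v384 && (
  let v385 := sub v17 v351; ok v385 && (
  let v386 := inv v385; ok v386 && (
  let v387 := mul v384 v386; ok v387 && (
  let v388 := sub v376 v387; ok v388 && (
  isPos 4 v183 && (
  isPos 4 v186 && (
  let v389 := scale ⟨2199023255552, 0, 0, 0⟩ v281; ok v389 && (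
  let v390 := sub v44 v389; ok v390 && (
  isPos 4 v390 && (
  isPos 4 v291 && (
  isPos 4 v113 && (
  let v391 := sub v1 v157; ok v391 && (
  isPos 4 v391 && (
  let v392 := scale ⟨687194767360, 0, 0, 0⟩ v0; ok v392 && (
  let v393 := sub v392 v238; ok v393 && (
  isPos 4 v393 && (
  let v394 := scale ⟨377957122048, 0, 0, 0⟩ v0; ok v394 && (
  let v395 := sub v394 v234; ok v395 && (
  isPos 4 v395 && (
  isPos 4 v385 && (
  let v396 := sub v1 v337; ok v396 && (
  isPos 4 v396 && (
  isPos 4 v303 && (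
  let v397 := sub v392 v308; ok v397 && (
  isPos 4 v397 && (
  let v398 := mul v167 v167; ok v398 && (
  let v399 := cst ⟨14293651161088, 0, 0, 0⟩; ok v399 && (
  let v400 := cst ⟨10995116277760, 0, 0, 0⟩; ok v400 && (
  let v401 := inv v400; ok v401 && (
  let v402 := mul v399 v401; ok v402 && (
  let v403 := mul v398 v402; ok v403 && (
  let v404 := cst ⟨27487790694400, 0, 0, 0⟩; ok v404 && (
  let v405 := add v403 v404; ok v405 && (
  let v406 := mul v158 v17; ok v406 && (
  let v407 := mul v406 v333; ok v407 && (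
  let v408 := mul x1 v407; ok v408 && (
  let v409 := add v0 v408; ok v409 && (
  let v410 := inv v409; ok v410 && (
  let v411 := mul v407 v410; ok v411 && (
  let v412 := sub v32 x1; ok v412 && (
  let v413 := sub v412 v31; ok v413 && (
  let v414 := scale ⟨2199023255552, 0, 0, 0⟩ v2; ok v414 && (
  let v415 := add v414 v287; ok v415 && (
  let v416 := mul x0 v415; ok v416 && (
  let v417 := mul v405 v411; ok v417 && (
  let v418 := mul v284 v416; ok v418 && (
  let v419 := mul v76 v269; ok v419 && (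
  let v420 := mul v5 v419; ok v420 && (
  let v421 := mul v17 v172; ok v421 && (
  let v422 := mul v421 v277; ok v422 && (
  let v423 := mul v30 v422; ok v423 && (
  let v424 := add v420 v423; ok v424 && (
  let v425 := mul x0 v424; ok v425 && (
  let v426 := mul v418 v425; ok v426 && (
  let v427 := sub v417 v426; ok v427 && (
  let v428 := scale ⟨549755813888, 0, 0, 0⟩ v351; ok v428 && (
  let v429 := add v0 v428; ok v429 && (
  let v430 := mul v284 v429; ok v430 && (
  let v431 := mul x1 v16; ok v431 && (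
  let v432 := mul v431 v166; ok v432 && (
  let v433 := mul v17 v44; ok v433 && (
  let v434 := inv v433; ok v434 && (
  let v435 := mul v432 v434; ok v435 && (
  let v436 := mul v430 v435; ok v436 && (
  let v437 := sub v413 v436; ok v437 && (
  let v438 := mul v179 v427; ok v438 && (
  let v439 := sub v0 v179; ok v439 && (
  let v440 := mul v5 v437; ok v440 && (
  let v441 := mul v439 v440; ok v441 && (
  let v442 := mul v405 v441; ok v442 && (
  let v443 := add v438 v442; ok v443 && (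
  isPos 4 v388 && (
  isPos 4 v367 && (
  isPos 4 v443 && (
  isPos 4 v437 && (
  true))))))))))))))))))))))))))))))))))))))))))))))))))))))))))))))))))))))))))))))))))))))))))))))))))))))))))))))))))))))))))))))))))))))))))))))))))))))))))))))))))))))))))))))))))))))))))))))))))))))))))))))))))))))))))))))))))))))))))))))))))))))))))))))))))))))))))))))))))))))))))))))))))))))))))))))))))))))))))))))))))))))))))))))))))))))))))))))))))))))))))))))))))))))))))))))))))))))))))))))))))))))))))))))))))))))))))))))))))))))))))))))))))))))))))))))))))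
  | _ => false

set_option maxRecDepth 1000000 in
theorem chk5_eq (O : Ops) (m : List O.α)
    (h : chk5 O.cst O.add O.sub O.mul O.scale O.neg O.inv O.exp O.log O.ok O.isPos O.isLt m = true) :
    runG O 4 prog5 m = true := by
  match m, h with
  | [x0, x1, x2, x3], h => exact h

def chkB5 : List opsE.α → Bool :=
  chk5 opsE.cst opsE.add opsE.sub opsE.mul opsE.scale opsE.neg opsE.inv opsE.exp opsE.log opsE.ok opsE.isPos opsE.isLt

theorem chkB5_eq (m : List opsE.α) (h : chkB5 m = true) : runG opsE 4 prog5 m = true :=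
  chk5_eq opsE m h

def prog6 : List Op := [
  .const ⟨1099511627776, 0, 0, 0⟩,
  .const ⟨549755813888, 0, 0, 0⟩,
  .mul 3 4,
  .mul 0 6,
  .scale ⟨549755813888, 0, 0, 0⟩ 0,
  .mul 7 7,
  .mul 1 1,
  .sub 6 0,
  .inv 0,
  .mul 4 0,
  .scale ⟨2199023255552, 0, 0, 0⟩ 0,
  .scale ⟨2199023255552, 0, 0, 0⟩ 2,
  .sub 0 11,
  .add 0 2,
  .mul 17 5,
  .mul 17 0,
  .sub 15 0,
  .add 16 1,
  .scale ⟨10774999203840, 0, 0, 0⟩ 13,
  .scale ⟨45768245248, 0, 0, 0⟩ 0,
  .const ⟨183207198720, 0, 0, 0⟩,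
  .add 1 0,
  .mul 3 0,
  .add 21 0,
  .mul 5 0,
  .add 24 0,
  .mul 7 0,
  .scale ⟨549755813888, 0, 0, 0⟩ 0,
  .add 27 0,
  .mul 3 0,
  .mul 31 24,
  .mul 20 15,
  .scale ⟨2199023255552, 0, 0, 0⟩ 19,
  .add 1 0,
  .add 0 35,
  .mul 4 0,
  .add 0 35,
  .mul 26 26,
  .scale ⟨2199023255552, 0, 0, 0⟩ 0,
  .add 0 38,
  .mul 27 5,
  .sub 0 40,
  .log 5,
  .scale ⟨549755813888, 0, 0, 0⟩ 0,
  .exp 0,
  .scale ⟨549755813888, 0, 0, 0⟩ 45,
  .mul 0 3,
  .neg 0,
  .exp 0,
  .mul 36 18,
  .mul 0 8,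
  .scale ⟨4398046511104, 0, 0, 0⟩ 0,
  .add 0 51,
  .log 0,
  .sub 0 11,
  .mul 9 0,
  .neg 0,
  .exp 0,
  .mul 42 47,
  .add 46 0,
  .inv 0,
  .mul 43 0,
  .mul 45 63,
  .mul 0 1,
  .mul 49 49,
  .sub 64 59,
  .mul 1 0,
  .mul 64 64,
  .add 55 37,
  .inv 0,
  .mul 0 70,
  .mul 0 68,
  .mul 0 0,
  .sub 72 8,
  .mul 8 0,
  .mul 2 0,
  .inv 76,
  .const ⟨45812285440, 0, 0, 0⟩,
  .scale ⟨1527119872, 0, 0, 0⟩ 2,
  .sub 1 0,
  .mul 4 0,
  .sub 79 0,
  .mul 6 0,
  .sub 82 0,
  .add 35 83,
  .mul 36 36,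
  .add 0 85,
  .mul 38 3,
  .scale ⟨2199023255552, 0, 0, 0⟩ 0,
  .add 2 0,
  .inv 5,
  .mul 1 0,
  .add 0 7,
  .mul 44 29,
  .scale ⟨549755813888, 0, 0, 0⟩ 0,
  .mul 0 2,
  .sub 6 0,
  .pos 7,
  .pos 0,
  .inv 0,
  .sub 97 49,
  .mul 0 14,
  .mul 0 2,
  .scale ⟨549755813888, 0, 0, 0⟩ 0,
  .add 0 100,
  .inv 0,
  .mul 2 0,
  .mul 10 3,
  .add 0 104,
  .mul 0 14,
  .inv 18,
  .mul 1 0,
  .mul 46 5,
  .scale ⟨549755813888, 0, 0, 0⟩ 0,
  .sub 111 0,
  .sub 112 2,
  .inv 0,
  .mul 2 0,
  .add 5 115,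
  .mul 68 0,
  .mul 101 100,
  .add 106 120,
  .mul 104 107,
  .mul 0 110,
  .scale ⟨2199023255552, 0, 0, 0⟩ 0,
  .add 83 0,
  .mul 4 0,
  .inv 0,
  .mul 7 0,
  .mul 128 0,
  .inv 91,
  .mul 53 0,
  .scale ⟨1527119872, 0, 0, 0⟩ 0,
  .sub 53 0,
  .mul 2 0,
  .sub 131 0,
  .mul 4 0,
  .sub 134 0,
  .add 78 135,
  .mul 79 79,
  .add 0 137,
  .mul 81 3,
  .scale ⟨2199023255552, 0, 0, 0⟩ 0,
  .add 2 0,
  .inv 5,
  .mul 1 0,
  .add 0 7,
  .mul 87 17,
  .scale ⟨549755813888, 0, 0, 0⟩ 0,
  .mul 0 2,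
  .sub 6 0,
  .pos 7,
  .pos 0,
  .sub 148 91,
  .mul 0 13,
  .inv 2,
  .mul 1 0,
  .scale ⟨549755813888, 0, 0, 0⟩ 0,
  .add 0 152,
  .inv 0,
  .mul 2 0,
  .mul 29 0,
  .add 153 157,
  .inv 0,
  .mul 155 0,
  .scale ⟨2199023255552, 0, 0, 0⟩ 0,
  .sub 161 0,
  .sub 162 158,
  .mul 167 4,
  .mul 0 2,
  .add 148 0,
  .mul 167 156,
  .scale ⟨137438953472, 0, 0, 0⟩ 0,
  .add 0 167,
  .inv 0,
  .mul 171 0,
  .scale ⟨274877906944, 0, 0, 0⟩ 0,
  .scale ⟨549755813888, 0, 0, 0⟩ 5,
  .const ⟨2199023255552, 0, 0, 0⟩,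
  .add 1 0,
  .mul 0 99,
  .scale ⟨224412041216, 0, 0, 0⟩ 168,
  .inv 148,
  .mul 1 0,
  .mul 7 162,
  .mul 0 1,
  .mul 179 0,
  .sub 182 0,
  .inv 0,
  .mul 67 2,
  .sub 185 0,
  .inv 0,
  .scale ⟨3573412790272, 0, 0, 0⟩ 173,
  .inv 191,
  .scale ⟨339302416384, 0, 0, 0⟩ 0,
  .add 2 0,
  .scale ⟨549755813888, 0, 0, 0⟩ 0,
  .scale ⟨2199023255552, 0, 0, 0⟩ 116,
  .add 0 193,
  .add 118 194,
  .mul 191 181,
  .sub 196 130,
  .mul 193 182,
  .scale ⟨2199023255552, 0, 0, 0⟩ 0,
  .sub 2 0,
  .mul 4 4,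
  .add 1 0,
  .add 0 202,
  .scale ⟨549755813888, 0, 0, 0⟩ 0,
  .scale ⟨549755813888, 0, 0, 0⟩ 174,
  .sub 197 0,
  .mul 139 9,
  .mul 0 200,
  .scale ⟨137438953472, 0, 0, 0⟩ 0,
  .add 3 0,
  .mul 6 0,
  .mul 101 96,
  .add 95 212,
  .mul 0 29,
  .mul 97 27,
  .add 1 0,
  .mul 34 0,
  .add 5 0,
  .mul 0 142,
  .mul 6 37,
  .mul 0 36,
  .add 9 0,
  .mul 0 146,
  .scale ⟨223338299392, 0, 0, 0⟩ 0,
  .add 223 0,
  .mul 2 0,
  .add 226 0,
  .scale ⟨893353197568, 0, 0, 0⟩ 8,
  .add 228 0,
  .mul 10 0,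
  .add 230 0,
  .mul 70 67,
  .mul 0 38,
  .mul 0 2,
  .mul 23 7,
  .add 191 234,
  .mul 2 0,
  .add 2 0,
  .add 194 238,
  .mul 5 0,
  .mul 45 1,
  .mul 0 77,
  .mul 0 79,
  .mul 241 77,
  .inv 200,
  .mul 1 0,
  .scale ⟨549755813888, 0, 0, 0⟩ 0,
  .mul 186 58,
  .mul 0 144,
  .mul 0 134,
  .mul 234 3,
  .mul 13 1,
  .mul 9 60,
  .add 1 0,
  .mul 0 178,
  .add 4 0,
  .mul 18 43,
  .mul 0 73,
  .mul 18 141,
  .mul 0 72,
  .add 2 0,
  .mul 0 185,
  .mul 246 6,
  .mul 82 1,
  .add 1 0,
  .mul 198 0,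
  .mul 0 21,
  .sub 267 0,
  .inv 0,
  .mul 4 0,
  .mul 272 0,
  .mul 204 1,
  .mul 0 27,
  .sub 273 0,
  .mul 233 0,
  .sub 0 4,
  .inv 0,
  .mul 6 0,
  .sub 234 6,
  .inv 0,
  .mul 2 124,
  .mul 282 1,
  .mul 126 5,
  .inv 253,
  .mul 1 0,
  .scale ⟨549755813888, 0, 0, 0⟩ 4,
  .sub 286 0,
  .sub 287 6,
  .inv 0,
  .mul 2 0,
  .mul 5 0,
  .add 9 0,
  .mul 0 20,
  .scale ⟨223338299392, 0, 0, 0⟩ 0,
  .add 293 0,
  .mul 2 0,
  .add 296 0,
  .mul 5 0,
  .mul 0 29,
  .mul 0 223,
  .mul 0 303,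
  .mul 0 40,
  .mul 2 126,
  .mul 0 306,
  .inv 287,
  .mul 1 0,
  .mul 307 290,
  .mul 0 60,
  .add 0 56,
  .add 0 56,
  .mul 4 0,
  .mul 139 309,
  .mul 0 295,
  .mul 0 297,
  .const ⟨3298534883328, 0, 0, 0⟩,
  .const ⟨5497558138880, 0, 0, 0⟩,
  .inv 0,
  .mul 2 0,
  .add 161 318,
  .mul 162 0,
  .add 265 0,
  .mul 43 0,
  .mul 265 3,
  .scale ⟨687194767360, 0, 0, 0⟩ 1,
  .add 324 0,
  .mul 3 0,
  .add 326 0,
  .mul 4 0,
  .add 318 330,
  .mul 171 0,
  .mul 0 12,
  .add 331 0,
  .inv 0,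
  .mul 5 0,
  .mul 0 321,
  .mul 333 65,
  .mul 0 31,
  .add 337 0,
  .mul 3 0,
  .mul 0 59,
  .mul 342 38,
  .mul 0 159,
  .mul 344 28,
  .mul 32 0,
  .add 2 0,
  .add 4 34,
  .add 346 1,
  .mul 7 0,
  .add 2 0,
  .sub 349 0,
  .scale ⟨1073741824, 0, 0, 0⟩ 352,
  .sub 1 0,
  .sub 339 352,
  .add 0 179,
  .scale ⟨2199023255552, 0, 0, 0⟩ 36,
  .sub 1 0,
  .mul 198 0,
  .mul 4 2,
  .add 0 358,
  .inv 0,
  .mul 3 0,
  .mul 189 99,
  .scale ⟨549755813888, 0, 0, 0⟩ 183,
  .add 353 0,
  .mul 2 0,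
  .scale ⟨2199023255552, 0, 0, 0⟩ 0,
  .add 110 0,
  .scale ⟨2199023255552, 0, 0, 0⟩ 0,
  .mul 0 99,
  .sub 352 33,
  .inv 0,
  .mul 2 0,
  .sub 11 0,
  .pos 190,
  .pos 187,
  .scale ⟨2199023255552, 0, 0, 0⟩ 107,
  .sub 330 0,
  .pos 0,
  .pos 99,
  .pos 262,
  .sub 374 218,
  .pos 0,
  .scale ⟨687194767360, 0, 0, 0⟩ 376,
  .sub 0 154,
  .pos 0,
  .scale ⟨377957122048, 0, 0, 0⟩ 378,
  .sub 0 160,
  .pos 0,
  .pos 10,
  .sub 379 58,
  .pos 0,
  .pos 93,
  .sub 4 88,
  .pos 0,
  .mul 215 215,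
  .const ⟨14293651161088, 0, 0, 0⟩,
  .const ⟨10995116277760, 0, 0, 0⟩,
  .inv 0,
  .mul 2 0,
  .mul 4 0,
  .const ⟨27487790694400, 0, 0, 0⟩,
  .add 1 0,
  .mul 232 373,
  .mul 0 73,
  .mul 394 0,
  .add 393 0,
  .inv 0,
  .mul 3 0,
  .sub 364 398,
  .sub 0 366,
  .scale ⟨2199023255552, 0, 0, 0⟩ 396,
  .add 0 127,
  .mul 401 0,
  .mul 11 5,
  .mul 133 1,
  .mul 327 149,
  .mul 399 0,
  .mul 388 233,
  .mul 0 144,
  .mul 377 0,
  .add 3 0,
  .mul 410 0,
  .mul 7 0,
  .sub 9 0,
  .scale ⟨549755813888, 0, 0, 0⟩ 76,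
  .add 413 0,
  .mul 145 0,
  .mul 417 399,
  .mul 0 250,
  .mul 400 373,
  .inv 0,
  .mul 2 0,
  .mul 5 0,
  .sub 23 0,
  .mul 243 10,
  .sub 423 244,
  .mul 419 2,
  .mul 1 0,
  .mul 36 0,
  .add 4 0,
  .pos 55,
  .pos 76,
  .pos 0,
  .pos 6]

def chk6 {α : Type} (cst : Z → α) (add sub mul : α → α → α) (scale : Z → α → α)
    (neg inv exp log : α → α) (ok : α → Bool) (isPos : Nat → α → Bool) (isLt : α → Nat → Bool) :
    List α → Bool
  | [x0, x1, x2, x3] =>
  let v0 := cst ⟨1099511627776, 0, 0, 0⟩; ok v0 && (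
  let v1 := cst ⟨549755813888, 0, 0, 0⟩; ok v1 && (
  let v2 := mul x1 x2; ok v2 && (
  let v3 := mul v2 x3; ok v3 && (
  let v4 := scale ⟨549755813888, 0, 0, 0⟩ v3; ok v4 && (
  let v5 := mul x2 x2; ok v5 && (
  let v6 := mul v4 v4; ok v6 && (
  let v7 := sub v0 v6; ok v7 && (
  let v8 := inv v7; ok v8 && (
  let v9 := mul v4 v8; ok v9 && (
  let v10 := scale ⟨2199023255552, 0, 0, 0⟩ v9; ok v10 && (
  let v11 := scale ⟨2199023255552, 0, 0, 0⟩ v8; ok v11 && (
  let v12 := sub v11 v0; ok v12 && (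
  let v13 := add v12 v10; ok v13 && (
  let v14 := mul x3 v8; ok v14 && (
  let v15 := mul x2 v14; ok v15 && (
  let v16 := sub v0 v15; ok v16 && (
  let v17 := add v0 v15; ok v17 && (
  let v18 := scale ⟨10774999203840, 0, 0, 0⟩ v4; ok v18 && (
  let v19 := scale ⟨45768245248, 0, 0, 0⟩ v18; ok v19 && (
  let v20 := cst ⟨183207198720, 0, 0, 0⟩; ok v20 && (
  let v21 := add v19 v20; ok v21 && (
  let v22 := mul v18 v21; ok v22 && (
  let v23 := add v1 v22; ok v23 && (
  let v24 := mul v18 v23; ok v24 && (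
  let v25 := add v0 v24; ok v25 && (
  let v26 := mul v18 v25; ok v26 && (
  let v27 := scale ⟨549755813888, 0, 0, 0⟩ v26; ok v27 && (
  let v28 := add v0 v27; ok v28 && (
  let v29 := mul v25 v28; ok v29 && (
  let v30 := mul x1 v5; ok v30 && (
  let v31 := mul v10 v15; ok v31 && (
  let v32 := scale ⟨2199023255552, 0, 0, 0⟩ v12; ok v32 && (
  let v33 := add v31 v32; ok v33 && (
  let v34 := add v33 x1; ok v34 && (
  let v35 := mul v30 v34; ok v35 && (
  let v36 := add v35 v0; ok v36 && (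
  let v37 := mul v10 v10; ok v37 && (
  let v38 := scale ⟨2199023255552, 0, 0, 0⟩ v37; ok v38 && (
  let v39 := add v38 v0; ok v39 && (
  let v40 := mul v12 v34; ok v40 && (
  let v41 := sub v40 v0; ok v41 && (
  let v42 := log v36; ok v42 && (
  let v43 := scale ⟨549755813888, 0, 0, 0⟩ v42; ok v43 && (
  let v44 := exp v43; ok v44 && (
  let v45 := scale ⟨549755813888, 0, 0, 0⟩ x0; ok v45 && (
  let v46 := mul v45 v42; ok v46 && (
  let v47 := neg v46; ok v47 && (
  let v48 := exp v47; ok v48 && (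
  let v49 := mul v12 v30; ok v49 && (
  let v50 := mul v49 v41; ok v50 && (
  let v51 := scale ⟨4398046511104, 0, 0, 0⟩ v50; ok v51 && (
  let v52 := add v51 v0; ok v52 && (
  let v53 := log v52; ok v53 && (
  let v54 := sub v53 v42; ok v54 && (
  let v55 := mul v45 v54; ok v55 && (
  let v56 := neg v55; ok v56 && (
  let v57 := exp v56; ok v57 && (
  let v58 := mul v15 v10; ok v58 && (
  let v59 := add v12 v58; ok v59 && (
  let v60 := inv v59; ok v60 && (
  let v61 := mul v17 v60; ok v61 && (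
  let v62 := mul v16 x1; ok v62 && (
  let v63 := mul v62 v61; ok v63 && (
  let v64 := mul v14 v14; ok v64 && (
  let v65 := sub v0 v5; ok v65 && (
  let v66 := mul v64 v65; ok v66 && (
  let v67 := mul v2 v2; ok v67 && (
  let v68 := add v12 v30; ok v68 && (
  let v69 := inv v68; ok v69 && (
  let v70 := mul v69 x0; ok v70 && (
  let v71 := mul v70 v2; ok v71 && (
  let v72 := mul v71 v71; ok v72 && (
  let v73 := sub v0 v64; ok v73 && (
  let v74 := mul v65 v73; ok v74 && (
  let v75 := mul v72 v74; ok v75 && (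
  let v76 := inv x0; ok v76 && (
  let v77 := cst ⟨45812285440, 0, 0, 0⟩; ok v77 && (
  let v78 := scale ⟨1527119872, 0, 0, 0⟩ v75; ok v78 && (
  let v79 := sub v77 v78; ok v79 && (
  let v80 := mul v75 v79; ok v80 && (
  let v81 := sub v1 v80; ok v81 && (
  let v82 := mul v75 v81; ok v82 && (
  let v83 := sub v0 v82; ok v83 && (
  let v84 := add v48 v0; ok v84 && (
  let v85 := mul v48 v48; ok v85 && (
  let v86 := add v85 v0; ok v86 && (
  let v87 := mul v48 v83; ok v87 && (
  let v88 := scale ⟨2199023255552, 0, 0, 0⟩ v87; ok v88 && (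
  let v89 := add v86 v88; ok v89 && (
  let v90 := inv v84; ok v90 && (
  let v91 := mul v89 v90; ok v91 && (
  let v92 := add v91 v84; ok v92 && (
  let v93 := mul v48 v63; ok v93 && (
  let v94 := scale ⟨549755813888, 0, 0, 0⟩ v93; ok v94 && (
  let v95 := mul v94 v92; ok v95 && (
  let v96 := sub v89 v95; ok v96 && (
  isPos 4 v89 && (
  isPos 4 v96 && (
  let v97 := inv v96; ok v97 && (
  let v98 := sub v0 v48; ok v98 && (
  let v99 := mul v98 v84; ok v99 && (
  let v100 := mul v99 v97; ok v100 && (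
  let v101 := scale ⟨549755813888, 0, 0, 0⟩ v100; ok v101 && (
  let v102 := add v101 v1; ok v102 && (
  let v103 := inv v102; ok v103 && (
  let v104 := mul v101 v103; ok v104 && (
  let v105 := mul v94 v101; ok v105 && (
  let v106 := add v105 v1; ok v106 && (
  let v107 := mul v106 v92; ok v107 && (
  let v108 := inv v89; ok v108 && (
  let v109 := mul v107 v108; ok v109 && (
  let v110 := mul v63 v104; ok v110 && (
  let v111 := scale ⟨549755813888, 0, 0, 0⟩ v110; ok v111 && (
  let v112 := sub v0 v111; ok v112 && (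
  let v113 := sub v0 v110; ok v113 && (
  let v114 := inv v113; ok v114 && (
  let v115 := mul v112 v114; ok v115 && (
  let v116 := add v110 v0; ok v116 && (
  let v117 := mul v48 v116; ok v117 && (
  let v118 := mul v16 v17; ok v118 && (
  let v119 := add v12 x1; ok v119 && (
  let v120 := mul v15 v12; ok v120 && (
  let v121 := mul v120 v10; ok v121 && (
  let v122 := scale ⟨2199023255552, 0, 0, 0⟩ v121; ok v122 && (
  let v123 := add v39 v122; ok v123 && (
  let v124 := mul v119 v123; ok v124 && (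
  let v125 := inv v124; ok v125 && (
  let v126 := mul v118 v125; ok v126 && (
  let v127 := mul x1 v126; ok v127 && (
  let v128 := inv v36; ok v128 && (
  let v129 := mul v75 v128; ok v129 && (
  let v130 := scale ⟨1527119872, 0, 0, 0⟩ v129; ok v130 && (
  let v131 := sub v77 v130; ok v131 && (
  let v132 := mul v129 v131; ok v132 && (
  let v133 := sub v1 v132; ok v133 && (
  let v134 := mul v129 v133; ok v134 && (
  let v135 := sub v0 v134; ok v135 && (
  let v136 := add v57 v0; ok v136 && (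
  let v137 := mul v57 v57; ok v137 && (
  let v138 := add v137 v0; ok v138 && (
  let v139 := mul v57 v135; ok v139 && (
  let v140 := scale ⟨2199023255552, 0, 0, 0⟩ v139; ok v140 && (
  let v141 := add v138 v140; ok v141 && (
  let v142 := inv v136; ok v142 && (
  let v143 := mul v141 v142; ok v143 && (
  let v144 := add v143 v136; ok v144 && (
  let v145 := mul v57 v127; ok v145 && (
  let v146 := scale ⟨549755813888, 0, 0, 0⟩ v145; ok v146 && (
  let v147 := mul v146 v144; ok v147 && (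
  let v148 := sub v141 v147; ok v148 && (
  isPos 4 v141 && (
  isPos 4 v148 && (
  let v149 := sub v0 v57; ok v149 && (
  let v150 := mul v149 v136; ok v150 && (
  let v151 := inv v148; ok v151 && (
  let v152 := mul v150 v151; ok v152 && (
  let v153 := scale ⟨549755813888, 0, 0, 0⟩ v152; ok v153 && (
  let v154 := add v153 v1; ok v154 && (
  let v155 := inv v154; ok v155 && (
  let v156 := mul v153 v155; ok v156 && (
  let v157 := mul v127 v156; ok v157 && (
  let v158 := add v4 v0; ok v158 && (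
  let v159 := inv v158; ok v159 && (
  let v160 := mul v4 v159; ok v160 && (
  let v161 := scale ⟨2199023255552, 0, 0, 0⟩ v160; ok v161 && (
  let v162 := sub v0 v161; ok v162 && (
  let v163 := sub v0 v4; ok v163 && (
  let v164 := mul x3 v159; ok v164 && (
  let v165 := mul v164 v162; ok v165 && (
  let v166 := add v17 v165; ok v166 && (
  let v167 := mul x0 v10; ok v167 && (
  let v168 := scale ⟨137438953472, 0, 0, 0⟩ v167; ok v168 && (
  let v169 := add v168 v1; ok v169 && (
  let v170 := inv v169; ok v170 && (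
  let v171 := mul x0 v170; ok v171 && (
  let v172 := scale ⟨274877906944, 0, 0, 0⟩ v171; ok v172 && (
  let v173 := scale ⟨549755813888, 0, 0, 0⟩ v167; ok v173 && (
  let v174 := cst ⟨2199023255552, 0, 0, 0⟩; ok v174 && (
  let v175 := add v173 v174; ok v175 && (
  let v176 := mul v175 v76; ok v176 && (
  let v177 := scale ⟨224412041216, 0, 0, 0⟩ v8; ok v177 && (
  let v178 := inv v29; ok v178 && (
  let v179 := mul v177 v178; ok v179 && (
  let v180 := mul v172 v17; ok v180 && (
  let v181 := mul v180 v179; ok v181 && (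
  let v182 := mul v2 v181; ok v182 && (
  let v183 := sub v0 v182; ok v183 && (
  let v184 := inv v183; ok v184 && (
  let v185 := mul v117 v182; ok v185 && (
  let v186 := sub v0 v185; ok v186 && (
  let v187 := inv v186; ok v187 && (
  let v188 := scale ⟨3573412790272, 0, 0, 0⟩ v14; ok v188 && (
  let v189 := inv x2; ok v189 && (
  let v190 := scale ⟨339302416384, 0, 0, 0⟩ v189; ok v190 && (
  let v191 := add v188 v190; ok v191 && (
  let v192 := scale ⟨549755813888, 0, 0, 0⟩ v191; ok v192 && (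
  let v193 := scale ⟨2199023255552, 0, 0, 0⟩ v76; ok v193 && (
  let v194 := add v193 v0; ok v194 && (
  let v195 := add v76 v0; ok v195 && (
  let v196 := mul v4 v14; ok v196 && (
  let v197 := sub v0 v66; ok v197 && (
  let v198 := mul v4 v15; ok v198 && (
  let v199 := scale ⟨2199023255552, 0, 0, 0⟩ v198; ok v199 && (
  let v200 := sub v197 v199; ok v200 && (
  let v201 := mul v196 v196; ok v201 && (
  let v202 := add v200 v201; ok v202 && (
  let v203 := add v202 v0; ok v203 && (
  let v204 := scale ⟨549755813888, 0, 0, 0⟩ v203; ok v204 && (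
  let v205 := scale ⟨549755813888, 0, 0, 0⟩ v30; ok v205 && (
  let v206 := sub v8 v205; ok v206 && (
  let v207 := mul v67 v197; ok v207 && (
  let v208 := mul v207 v7; ok v208 && (
  let v209 := scale ⟨137438953472, 0, 0, 0⟩ v208; ok v209 && (
  let v210 := add v206 v209; ok v210 && (
  let v211 := mul v204 v210; ok v211 && (
  let v212 := mul v110 v115; ok v212 && (
  let v213 := add v117 v0; ok v213 && (
  let v214 := mul v213 v184; ok v214 && (
  let v215 := mul v117 v187; ok v215 && (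
  let v216 := add v214 v215; ok v216 && (
  let v217 := mul v182 v216; ok v217 && (
  let v218 := add v212 v217; ok v218 && (
  let v219 := mul v218 v76; ok v219 && (
  let v220 := mul v213 v182; ok v220 && (
  let v221 := mul v220 v184; ok v221 && (
  let v222 := add v212 v221; ok v222 && (
  let v223 := mul v222 v76; ok v223 && (
  let v224 := scale ⟨223338299392, 0, 0, 0⟩ v223; ok v224 && (
  let v225 := add v1 v224; ok v225 && (
  let v226 := mul v223 v225; ok v226 && (
  let v227 := add v0 v226; ok v227 && (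
  let v228 := scale ⟨893353197568, 0, 0, 0⟩ v219; ok v228 && (
  let v229 := add v0 v228; ok v229 && (
  let v230 := mul v219 v229; ok v230 && (
  let v231 := add v0 v230; ok v231 && (
  let v232 := mul v161 v164; ok v232 && (
  let v233 := mul v232 v194; ok v233 && (
  let v234 := mul v233 v231; ok v234 && (
  let v235 := mul v211 v227; ok v235 && (
  let v236 := add v44 v1; ok v236 && (
  let v237 := mul v234 v236; ok v237 && (
  let v238 := add v235 v237; ok v238 && (
  let v239 := add v44 v0; ok v239 && (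
  let v240 := mul v234 v239; ok v240 && (
  let v241 := mul v195 v239; ok v241 && (
  let v242 := mul v241 v164; ok v242 && (
  let v243 := mul v242 v163; ok v243 && (
  let v244 := mul v2 v166; ok v244 && (
  let v245 := inv v44; ok v245 && (
  let v246 := mul v244 v245; ok v246 && (
  let v247 := scale ⟨549755813888, 0, 0, 0⟩ v246; ok v247 && (
  let v248 := mul v61 v189; ok v248 && (
  let v249 := mul v248 v104; ok v249 && (
  let v250 := mul v249 v115; ok v250 && (
  let v251 := mul v16 v247; ok v251 && (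
  let v252 := mul v238 v250; ok v252 && (
  let v253 := mul v243 v192; ok v253 && (
  let v254 := add v252 v253; ok v254 && (
  let v255 := mul v254 v76; ok v255 && (
  let v256 := add v251 v255; ok v256 && (
  let v257 := mul v238 v213; ok v257 && (
  let v258 := mul v257 v184; ok v258 && (
  let v259 := mul v240 v117; ok v259 && (
  let v260 := mul v259 v187; ok v260 && (
  let v261 := add v258 v260; ok v261 && (
  let v262 := mul v261 v76; ok v262 && (
  let v263 := mul v16 v256; ok v263 && (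
  let v264 := mul v181 v262; ok v264 && (
  let v265 := add v263 v264; ok v265 && (
  let v266 := mul v67 v265; ok v266 && (
  let v267 := mul v266 v245; ok v267 && (
  let v268 := sub v0 v267; ok v268 && (
  let v269 := inv v268; ok v269 && (
  let v270 := mul v265 v269; ok v270 && (
  let v271 := mul x1 v270; ok v271 && (
  let v272 := mul v67 v270; ok v272 && (
  let v273 := mul v272 v245; ok v273 && (
  let v274 := sub v0 v273; ok v274 && (
  let v275 := mul v41 v274; ok v275 && (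
  let v276 := sub v275 v271; ok v276 && (
  let v277 := inv v276; ok v277 && (
  let v278 := mul v271 v277; ok v278 && (
  let v279 := sub v44 v272; ok v279 && (
  let v280 := inv v279; ok v280 && (
  let v281 := mul v278 v156; ok v281 && (
  let v282 := mul x0 v280; ok v282 && (
  let v283 := mul v156 v277; ok v283 && (
  let v284 := inv v30; ok v284 && (
  let v285 := mul v283 v284; ok v285 && (
  let v286 := scale ⟨549755813888, 0, 0, 0⟩ v281; ok v286 && (
  let v287 := sub v0 v286; ok v287 && (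
  let v288 := sub v0 v281; ok v288 && (
  let v289 := inv v288; ok v289 && (
  let v290 := mul v287 v289; ok v290 && (
  let v291 := mul v285 v290; ok v291 && (
  let v292 := add v282 v291; ok v292 && (
  let v293 := mul v292 v272; ok v293 && (
  let v294 := scale ⟨223338299392, 0, 0, 0⟩ v293; ok v294 && (
  let v295 := add v1 v294; ok v295 && (
  let v296 := mul v293 v295; ok v296 && (
  let v297 := add v0 v296; ok v297 && (
  let v298 := mul v292 v297; ok v298 && (
  let v299 := mul v298 v269; ok v299 && (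
  let v300 := mul v299 v76; ok v300 && (
  let v301 := mul v300 x2; ok v301 && (
  let v302 := mul v301 v261; ok v302 && (
  let v303 := mul v300 v176; ok v303 && (
  let v304 := mul v303 x2; ok v304 && (
  let v305 := inv v17; ok v305 && (
  let v306 := mul v304 v305; ok v306 && (
  let v307 := mul x0 v16; ok v307 && (
  let v308 := mul v307 v247; ok v308 && (
  let v309 := add v308 v252; ok v309 && (
  let v310 := add v309 v253; ok v310 && (
  let v311 := mul v306 v310; ok v311 && (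
  let v312 := mul v172 v2; ok v312 && (
  let v313 := mul v312 v17; ok v313 && (
  let v314 := mul v313 v16; ok v314 && (
  let v315 := cst ⟨3298534883328, 0, 0, 0⟩; ok v315 && (
  let v316 := cst ⟨5497558138880, 0, 0, 0⟩; ok v316 && (
  let v317 := inv v316; ok v317 && (
  let v318 := mul v315 v317; ok v318 && (
  let v319 := add v157 v0; ok v319 && (
  let v320 := mul v157 v319; ok v320 && (
  let v321 := add v55 v320; ok v321 && (
  let v322 := mul v278 v321; ok v322 && (
  let v323 := mul v57 v319; ok v323 && (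
  let v324 := scale ⟨687194767360, 0, 0, 0⟩ v322; ok v324 && (
  let v325 := add v0 v324; ok v325 && (
  let v326 := mul v322 v325; ok v326 && (
  let v327 := add v0 v326; ok v327 && (
  let v328 := mul v323 v327; ok v328 && (
  let v329 := add v10 x1; ok v329 && (
  let v330 := mul v158 v329; ok v330 && (
  let v331 := mul v330 v318; ok v331 && (
  let v332 := add v0 v331; ok v332 && (
  let v333 := inv v332; ok v333 && (
  let v334 := mul v328 v333; ok v334 && (
  let v335 := mul v334 v13; ok v335 && (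
  let v336 := mul v2 v270; ok v336 && (
  let v337 := mul v336 v305; ok v337 && (
  let v338 := add v0 v337; ok v338 && (
  let v339 := mul v335 v338; ok v339 && (
  let v340 := mul v339 v280; ok v340 && (
  let v341 := mul x1 v302; ok v341 && (
  let v342 := mul v341 v182; ok v342 && (
  let v343 := mul x1 v314; ok v343 && (
  let v344 := mul v311 v343; ok v344 && (
  let v345 := add v342 v344; ok v345 && (
  let v346 := add v341 v311; ok v346 && (
  let v347 := add v0 v345; ok v347 && (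
  let v348 := mul v340 v347; ok v348 && (
  let v349 := add v346 v348; ok v349 && (
  let v350 := sub v0 v349; ok v350 && (
  let v351 := scale ⟨1073741824, 0, 0, 0⟩ x1; ok v351 && (
  let v352 := sub v350 v351; ok v352 && (
  let v353 := sub v13 v0; ok v353 && (
  let v354 := add v353 v174; ok v354 && (
  let v355 := scale ⟨2199023255552, 0, 0, 0⟩ v318; ok v355 && (
  let v356 := sub v354 v355; ok v356 && (
  let v357 := mul v158 v356; ok v357 && (
  let v358 := mul v353 v355; ok v358 && (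
  let v359 := add v358 v0; ok v359 && (
  let v360 := inv v359; ok v360 && (
  let v361 := mul v357 v360; ok v361 && (
  let v362 := mul v172 v262; ok v362 && (
  let v363 := scale ⟨549755813888, 0, 0, 0⟩ v179; ok v363 && (
  let v364 := add v10 v363; ok v364 && (
  let v365 := mul v362 v364; ok v365 && (
  let v366 := scale ⟨2199023255552, 0, 0, 0⟩ v365; ok v366 && (
  let v367 := add v256 v366; ok v367 && (
  let v368 := scale ⟨2199023255552, 0, 0, 0⟩ v367; ok v368 && (
  let v369 := mul v368 v269; ok v369 && (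
  let v370 := sub v17 v336; ok v370 && (
  let v371 := inv v370; ok v371 && (
  let v372 := mul v369 v371; ok v372 && (
  let v373 := sub v361 v372; ok v373 && (
  isPos 4 v183 && (
  isPos 4 v186 && (
  let v374 := scale ⟨2199023255552, 0, 0, 0⟩ v266; ok v374 && (
  let v375 := sub v44 v374; ok v375 && (
  isPos 4 v375 && (
  isPos 4 v276 && (
  isPos 4 v113 && (
  let v376 := sub v1 v157; ok v376 && (
  isPos 4 v376 && (
  let v377 := scale ⟨687194767360, 0, 0, 0⟩ v0; ok v377 && (
  let v378 := sub v377 v223; ok v378 && (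
  isPos 4 v378 && (
  let v379 := scale ⟨377957122048, 0, 0, 0⟩ v0; ok v379 && (
  let v380 := sub v379 v219; ok v380 && (
  isPos 4 v380 && (
  isPos 4 v370 && (
  let v381 := sub v1 v322; ok v381 && (
  isPos 4 v381 && (
  isPos 4 v288 && (
  let v382 := sub v377 v293; ok v382 && (
  isPos 4 v382 && (
  let v383 := mul v167 v167; ok v383 && (
  let v384 := cst ⟨14293651161088, 0, 0, 0⟩; ok v384 && (
  let v385 := cst ⟨10995116277760, 0, 0, 0⟩; ok v385 && (
  let v386 := inv v385; ok v386 && (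
  let v387 := mul v384 v386; ok v387 && (
  let v388 := mul v383 v387; ok v388 && (
  let v389 := cst ⟨27487790694400, 0, 0, 0⟩; ok v389 && (
  let v390 := add v388 v389; ok v390 && (
  let v391 := mul v158 v17; ok v391 && (
  let v392 := mul v391 v318; ok v392 && (
  let v393 := mul x1 v392; ok v393 && (
  let v394 := add v0 v393; ok v394 && (
  let v395 := inv v394; ok v395 && (
  let v396 := mul v392 v395; ok v396 && (
  let v397 := sub v32 x1; ok v397 && (
  let v398 := sub v397 v31; ok v398 && (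
  let v399 := scale ⟨2199023255552, 0, 0, 0⟩ v2; ok v399 && (
  let v400 := add v399 v272; ok v400 && (
  let v401 := mul x0 v400; ok v401 && (
  let v402 := mul v390 v396; ok v402 && (
  let v403 := mul v269 v401; ok v403 && (
  let v404 := mul v76 v254; ok v404 && (
  let v405 := mul v5 v404; ok v405 && (
  let v406 := mul v17 v172; ok v406 && (
  let v407 := mul v406 v262; ok v407 && (
  let v408 := mul v30 v407; ok v408 && (
  let v409 := add v405 v408; ok v409 && (
  let v410 := mul x0 v409; ok v410 && (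
  let v411 := mul v403 v410; ok v411 && (
  let v412 := sub v402 v411; ok v412 && (
  let v413 := scale ⟨549755813888, 0, 0, 0⟩ v336; ok v413 && (
  let v414 := add v0 v413; ok v414 && (
  let v415 := mul v269 v414; ok v415 && (
  let v416 := mul x1 v16; ok v416 && (
  let v417 := mul v416 v166; ok v417 && (
  let v418 := mul v17 v44; ok v418 && (
  let v419 := inv v418; ok v419 && (
  let v420 := mul v417 v419; ok v420 && (
  let v421 := mul v415 v420; ok v421 && (
  let v422 := sub v398 v421; ok v422 && (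
  let v423 := mul v179 v412; ok v423 && (
  let v424 := sub v0 v179; ok v424 && (
  let v425 := mul v5 v422; ok v425 && (
  let v426 := mul v424 v425; ok v426 && (
  let v427 := mul v390 v426; ok v427 && (
  let v428 := add v423 v427; ok v428 && (
  isPos 4 v373 && (
  isPos 4 v352 && (
  isPos 4 v428 && (
  isPos 4 v422 && (
  true)))))))))))))))))))))))))))))))))))))))))))))))))))))))))))))))))))))))))))))))))))))))))))))))))))))))))))))))))))))))))))))))))))))))))))))))))))))))))))))))))))))))))))))))))))))))))))))))))))))))))))))))))))))))))))))))))))))))))))))))))))))))))))))))))))))))))))))))))))))))))))))))))))))))))))))))))))))))))))))))))))))))))))))))))))))))))))))))))))))))))))))))))))))))))))))))))))))))))))))))))))))))))))))))))))))))))))))))))))))))))))))))))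
  | _ => false

set_option maxRecDepth 1000000 in
theorem chk6_eq (O : Ops) (m : List O.α)
    (h : chk6 O.cst O.add O.sub O.mul O.scale O.neg O.inv O.exp O.log O.ok O.isPos O.isLt m = true) :
    runG O 4 prog6 m = true := by
  match m, h with
  | [x0, x1, x2, x3], h => exact h

def chkB6 : List opsE.α → Bool :=
  chk6 opsE.cst opsE.add opsE.sub opsE.mul opsE.scale opsE.neg opsE.inv opsE.exp opsE.log opsE.ok opsE.isPos opsE.isLt

theorem chkB6_eq (m : List opsE.α) (h : chkB6 m = true) : runG opsE 4 prog6 m = true :=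
  chk6_eq opsE m h

def prog7 : List Op := [
  .const ⟨1099511627776, 0, 0, 0⟩,
  .const ⟨549755813888, 0, 0, 0⟩,
  .mul 3 4,
  .mul 0 6,
  .scale ⟨549755813888, 0, 0, 0⟩ 0,
  .mul 7 7,
  .mul 1 1,
  .sub 6 0,
  .inv 0,
  .mul 4 0,
  .scale ⟨2199023255552, 0, 0, 0⟩ 0,
  .scale ⟨2199023255552, 0, 0, 0⟩ 2,
  .sub 0 11,
  .add 0 2,
  .mul 17 5,
  .mul 17 0,
  .sub 15 0,
  .add 16 1,
  .scale ⟨10774999203840, 0, 0, 0⟩ 13,
  .scale ⟨45768245248, 0, 0, 0⟩ 0,
  .const ⟨183207198720, 0, 0, 0⟩,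
  .add 1 0,
  .mul 3 0,
  .add 21 0,
  .mul 5 0,
  .add 24 0,
  .mul 7 0,
  .scale ⟨549755813888, 0, 0, 0⟩ 0,
  .add 27 0,
  .mul 3 0,
  .mul 31 24,
  .mul 20 15,
  .scale ⟨2199023255552, 0, 0, 0⟩ 19,
  .add 1 0,
  .add 0 35,
  .mul 4 0,
  .add 0 35,
  .mul 26 26,
  .scale ⟨2199023255552, 0, 0, 0⟩ 0,
  .add 0 38,
  .mul 27 5,
  .sub 0 40,
  .log 5,
  .scale ⟨549755813888, 0, 0, 0⟩ 0,
  .exp 0,
  .scale ⟨549755813888, 0, 0, 0⟩ 45,
  .mul 0 3,
  .neg 0,
  .exp 0,
  .mul 36 18,
  .mul 0 8,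
  .scale ⟨4398046511104, 0, 0, 0⟩ 0,
  .add 0 51,
  .log 0,
  .sub 0 11,
  .mul 9 0,
  .neg 0,
  .exp 0,
  .mul 42 47,
  .add 46 0,
  .inv 0,
  .mul 43 0,
  .mul 45 63,
  .mul 0 1,
  .mul 49 49,
  .sub 64 59,
  .mul 1 0,
  .mul 64 64,
  .add 55 37,
  .inv 0,
  .mul 0 70,
  .mul 0 68,
  .mul 0 0,
  .sub 72 8,
  .mul 8 0,
  .mul 2 0,
  .inv 76,
  .const ⟨45812285440, 0, 0, 0⟩,
  .scale ⟨1527119872, 0, 0, 0⟩ 2,
  .sub 1 0,
  .mul 4 0,
  .sub 79 0,
  .mul 6 0,
  .sub 82 0,
  .add 35 83,
  .mul 36 36,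
  .add 0 85,
  .mul 38 3,
  .scale ⟨2199023255552, 0, 0, 0⟩ 0,
  .add 2 0,
  .inv 5,
  .mul 1 0,
  .add 0 7,
  .mul 44 29,
  .scale ⟨549755813888, 0, 0, 0⟩ 0,
  .mul 0 2,
  .sub 6 0,
  .pos 7,
  .pos 0,
  .inv 0,
  .sub 97 49,
  .mul 0 14,
  .mul 0 2,
  .scale ⟨549755813888, 0, 0, 0⟩ 0,
  .add 0 100,
  .inv 0,
  .mul 2 0,
  .mul 41 0,
  .scale ⟨549755813888, 0, 0, 0⟩ 0,
  .sub 106 0,
  .sub 107 2,
  .inv 0,
  .mul 2 0,
  .add 5 110,
  .mul 63 0,
  .mul 96 95,
  .add 101 115,
  .mul 99 102,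
  .mul 0 105,
  .scale ⟨2199023255552, 0, 0, 0⟩ 0,
  .add 78 0,
  .mul 4 0,
  .inv 0,
  .mul 7 0,
  .mul 123 0,
  .inv 86,
  .mul 48 0,
  .scale ⟨1527119872, 0, 0, 0⟩ 0,
  .sub 48 0,
  .mul 2 0,
  .sub 126 0,
  .mul 4 0,
  .sub 129 0,
  .add 73 130,
  .mul 74 74,
  .add 0 132,
  .mul 76 3,
  .scale ⟨2199023255552, 0, 0, 0⟩ 0,
  .add 2 0,
  .inv 5,
  .mul 1 0,
  .add 0 7,
  .mul 82 17,
  .scale ⟨549755813888, 0, 0, 0⟩ 0,
  .mul 0 2,
  .sub 6 0,
  .pos 7,
  .pos 0,
  .sub 143 86,
  .mul 0 13,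
  .inv 2,
  .mul 1 0,
  .scale ⟨549755813888, 0, 0, 0⟩ 0,
  .add 0 147,
  .inv 0,
  .mul 2 0,
  .mul 29 0,
  .add 148 152,
  .inv 0,
  .mul 150 0,
  .scale ⟨2199023255552, 0, 0, 0⟩ 0,
  .sub 156 0,
  .sub 157 153,
  .mul 162 4,
  .mul 0 2,
  .add 143 0,
  .mul 162 151,
  .scale ⟨137438953472, 0, 0, 0⟩ 0,
  .add 0 162,
  .inv 0,
  .mul 166 0,
  .scale ⟨274877906944, 0, 0, 0⟩ 0,
  .scale ⟨549755813888, 0, 0, 0⟩ 5,
  .const ⟨2199023255552, 0, 0, 0⟩,
  .add 1 0,
  .mul 0 94,
  .scale ⟨224412041216, 0, 0, 0⟩ 163,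
  .inv 143,
  .mul 1 0,
  .mul 7 157,
  .mul 0 1,
  .mul 174 0,
  .sub 177 0,
  .inv 0,
  .mul 67 2,
  .sub 180 0,
  .inv 0,
  .scale ⟨3573412790272, 0, 0, 0⟩ 168,
  .inv 186,
  .scale ⟨339302416384, 0, 0, 0⟩ 0,
  .add 2 0,
  .scale ⟨549755813888, 0, 0, 0⟩ 0,
  .scale ⟨2199023255552, 0, 0, 0⟩ 111,
  .add 0 188,
  .add 113 189,
  .mul 186 176,
  .sub 191 125,
  .mul 188 177,
  .scale ⟨2199023255552, 0, 0, 0⟩ 0,
  .sub 2 0,
  .mul 4 4,
  .add 1 0,
  .add 0 197,
  .scale ⟨549755813888, 0, 0, 0⟩ 0,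
  .scale ⟨549755813888, 0, 0, 0⟩ 169,
  .sub 192 0,
  .mul 134 9,
  .mul 0 195,
  .scale ⟨137438953472, 0, 0, 0⟩ 0,
  .add 3 0,
  .mul 6 0,
  .mul 101 96,
  .const ⟨45814382592, 0, 0, 0⟩,
  .const ⟨1526988800, 0, 0, 0⟩,
  .scale ⟨27279360, 0, 0, 0⟩ 134,
  .sub 1 0,
  .mul 136 0,
  .sub 4 0,
  .mul 138 0,
  .sub 213 0,
  .mul 140 0,
  .sub 216 0,
  .mul 142 141,
  .mul 0 0,
  .scale ⟨369367187456, 0, 0, 0⟩ 0,
  .add 3 0,
  .mul 173 0,
  .scale ⟨2199023255552, 0, 0, 0⟩ 0,
  .add 137 0,
  .const ⟨8589934592, 0, 0, 0⟩,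
  .add 1 0,
  .log 0,
  .scale ⟨549755813888, 0, 0, 0⟩ 0,
  .exp 0,
  .mul 181 124,
  .add 1 0,
  .mul 0 52,
  .mul 120 50,
  .add 1 0,
  .mul 57 0,
  .add 28 0,
  .mul 0 160,
  .mul 6 60,
  .mul 0 59,
  .add 32 0,
  .mul 0 164,
  .scale ⟨223338299392, 0, 0, 0⟩ 0,
  .add 241 0,
  .mul 2 0,
  .add 244 0,
  .scale ⟨893353197568, 0, 0, 0⟩ 8,
  .add 246 0,
  .mul 10 0,
  .add 248 0,
  .mul 93 90,
  .mul 0 61,
  .mul 0 2,
  .mul 46 7,
  .add 209 252,
  .mul 2 0,
  .add 2 0,
  .add 212 256,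
  .mul 5 0,
  .mul 68 1,
  .mul 0 100,
  .mul 0 102,
  .mul 259 100,
  .inv 218,
  .mul 1 0,
  .scale ⟨549755813888, 0, 0, 0⟩ 0,
  .mul 204 81,
  .mul 0 162,
  .mul 0 157,
  .mul 252 3,
  .mul 13 1,
  .mul 9 83,
  .add 1 0,
  .mul 0 196,
  .add 4 0,
  .mul 18 43,
  .mul 0 96,
  .mul 18 164,
  .mul 0 95,
  .add 2 0,
  .mul 0 203,
  .mul 264 6,
  .mul 105 1,
  .add 1 0,
  .mul 216 0,
  .mul 0 21,
  .sub 285 0,
  .inv 0,
  .mul 4 0,
  .mul 290 0,
  .mul 222 1,
  .mul 0 27,
  .sub 291 0,
  .mul 251 0,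
  .sub 0 4,
  .inv 0,
  .mul 6 0,
  .sub 252 6,
  .inv 0,
  .mul 2 147,
  .mul 300 1,
  .mul 149 5,
  .inv 271,
  .mul 1 0,
  .scale ⟨549755813888, 0, 0, 0⟩ 4,
  .sub 304 0,
  .sub 305 6,
  .inv 0,
  .mul 2 0,
  .mul 5 0,
  .add 9 0,
  .mul 0 20,
  .scale ⟨223338299392, 0, 0, 0⟩ 0,
  .add 311 0,
  .mul 2 0,
  .add 314 0,
  .mul 5 0,
  .mul 0 29,
  .mul 0 241,
  .mul 0 321,
  .mul 0 40,
  .mul 2 149,
  .mul 0 324,
  .inv 305,
  .mul 1 0,
  .mul 325 308,
  .mul 0 60,
  .add 0 56,
  .add 0 56,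
  .mul 4 0,
  .mul 162 327,
  .mul 0 313,
  .mul 0 315,
  .const ⟨3298534883328, 0, 0, 0⟩,
  .const ⟨5497558138880, 0, 0, 0⟩,
  .inv 0,
  .mul 2 0,
  .add 184 336,
  .mul 185 0,
  .add 283 0,
  .mul 43 0,
  .mul 283 3,
  .scale ⟨687194767360, 0, 0, 0⟩ 1,
  .add 342 0,
  .mul 3 0,
  .add 344 0,
  .mul 4 0,
  .add 336 348,
  .mul 194 0,
  .mul 0 12,
  .add 349 0,
  .inv 0,
  .mul 5 0,
  .mul 0 339,
  .mul 351 65,
  .mul 0 31,
  .add 355 0,
  .mul 3 0,
  .mul 0 59,
  .mul 360 38,
  .mul 0 182,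
  .mul 362 28,
  .mul 32 0,
  .add 2 0,
  .add 4 34,
  .add 364 1,
  .mul 7 0,
  .add 2 0,
  .sub 367 0,
  .scale ⟨1073741824, 0, 0, 0⟩ 370,
  .sub 1 0,
  .sub 357 370,
  .add 0 202,
  .scale ⟨2199023255552, 0, 0, 0⟩ 36,
  .sub 1 0,
  .mul 221 0,
  .mul 4 2,
  .add 0 376,
  .inv 0,
  .mul 3 0,
  .mul 212 99,
  .scale ⟨549755813888, 0, 0, 0⟩ 206,
  .add 371 0,
  .mul 2 0,
  .scale ⟨2199023255552, 0, 0, 0⟩ 0,
  .add 110 0,
  .scale ⟨2199023255552, 0, 0, 0⟩ 0,
  .mul 0 99,
  .sub 370 33,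
  .inv 0,
  .mul 2 0,
  .sub 11 0,
  .pos 213,
  .pos 210,
  .scale ⟨2199023255552, 0, 0, 0⟩ 107,
  .sub 348 0,
  .pos 0,
  .pos 99,
  .pos 285,
  .sub 392 241,
  .pos 0,
  .scale ⟨687194767360, 0, 0, 0⟩ 394,
  .sub 0 154,
  .pos 0,
  .scale ⟨377957122048, 0, 0, 0⟩ 396,
  .sub 0 160,
  .pos 0,
  .pos 10,
  .sub 397 58,
  .pos 0,
  .pos 93,
  .sub 4 88,
  .pos 0,
  .mul 238 238,
  .const ⟨14293651161088, 0, 0, 0⟩,
  .const ⟨10995116277760, 0, 0, 0⟩,
  .inv 0,
  .mul 2 0,
  .mul 4 0,
  .const ⟨27487790694400, 0, 0, 0⟩,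
  .add 1 0,
  .mul 255 391,
  .mul 0 73,
  .mul 412 0,
  .add 411 0,
  .inv 0,
  .mul 3 0,
  .sub 382 416,
  .sub 0 384,
  .scale ⟨2199023255552, 0, 0, 0⟩ 414,
  .add 0 127,
  .mul 419 0,
  .mul 11 5,
  .mul 133 1,
  .mul 345 149,
  .mul 417 0,
  .mul 406 256,
  .mul 0 144,
  .mul 395 0,
  .add 3 0,
  .mul 428 0,
  .mul 7 0,
  .sub 9 0,
  .scale ⟨549755813888, 0, 0, 0⟩ 76,
  .add 431 0,
  .mul 145 0,
  .mul 435 417,
  .mul 0 273,
  .mul 418 391,
  .inv 0,
  .mul 2 0,
  .mul 5 0,
  .sub 23 0,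
  .mul 266 10,
  .sub 441 267,
  .mul 437 2,
  .mul 1 0,
  .mul 36 0,
  .add 4 0,
  .pos 55,
  .pos 76,
  .pos 0,
  .pos 6]

def chk7 {α : Type} (cst : Z → α) (add sub mul : α → α → α) (scale : Z → α → α)
    (neg inv exp log : α → α) (ok : α → Bool) (isPos : Nat → α → Bool) (isLt : α → Nat → Bool) :
    List α → Bool
  | [x0, x1, x2, x3] =>
  let v0 := cst ⟨1099511627776, 0, 0, 0⟩; ok v0 && (
  let v1 := cst ⟨549755813888, 0, 0, 0⟩; ok v1 && (
  let v2 := mul x1 x2; ok v2 && (
  let v3 := mul v2 x3; ok v3 && (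
  let v4 := scale ⟨549755813888, 0, 0, 0⟩ v3; ok v4 && (
  let v5 := mul x2 x2; ok v5 && (
  let v6 := mul v4 v4; ok v6 && (
  let v7 := sub v0 v6; ok v7 && (
  let v8 := inv v7; ok v8 && (
  let v9 := mul v4 v8; ok v9 && (
  let v10 := scale ⟨2199023255552, 0, 0, 0⟩ v9; ok v10 && (
  let v11 := scale ⟨2199023255552, 0, 0, 0⟩ v8; ok v11 && (
  let v12 := sub v11 v0; ok v12 && (
  let v13 := add v12 v10; ok v13 && (
  let v14 := mul x3 v8; ok v14 && (
  let v15 := mul x2 v14; ok v15 && (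
  let v16 := sub v0 v15; ok v16 && (
  let v17 := add v0 v15; ok v17 && (
  let v18 := scale ⟨10774999203840, 0, 0, 0⟩ v4; ok v18 && (
  let v19 := scale ⟨45768245248, 0, 0, 0⟩ v18; ok v19 && (
  let v20 := cst ⟨183207198720, 0, 0, 0⟩; ok v20 && (
  let v21 := add v19 v20; ok v21 && (
  let v22 := mul v18 v21; ok v22 && (
  let v23 := add v1 v22; ok v23 && (
  let v24 := mul v18 v23; ok v24 && (
  let v25 := add v0 v24; ok v25 && (
  let v26 := mul v18 v25; ok v26 && (
  let v27 := scale ⟨549755813888, 0, 0, 0⟩ v26; ok v27 && (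
  let v28 := add v0 v27; ok v28 && (
  let v29 := mul v25 v28; ok v29 && (
  let v30 := mul x1 v5; ok v30 && (
  let v31 := mul v10 v15; ok v31 && (
  let v32 := scale ⟨2199023255552, 0, 0, 0⟩ v12; ok v32 && (
  let v33 := add v31 v32; ok v33 && (
  let v34 := add v33 x1; ok v34 && (
  let v35 := mul v30 v34; ok v35 && (
  let v36 := add v35 v0; ok v36 && (
  let v37 := mul v10 v10; ok v37 && (
  let v38 := scale ⟨2199023255552, 0, 0, 0⟩ v37; ok v38 && (
  let v39 := add v38 v0; ok v39 && (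
  let v40 := mul v12 v34; ok v40 && (
  let v41 := sub v40 v0; ok v41 && (
  let v42 := log v36; ok v42 && (
  let v43 := scale ⟨549755813888, 0, 0, 0⟩ v42; ok v43 && (
  let v44 := exp v43; ok v44 && (
  let v45 := scale ⟨549755813888, 0, 0, 0⟩ x0; ok v45 && (
  let v46 := mul v45 v42; ok v46 && (
  let v47 := neg v46; ok v47 && (
  let v48 := exp v47; ok v48 && (
  let v49 := mul v12 v30; ok v49 && (
  let v50 := mul v49 v41; ok v50 && (
  let v51 := scale ⟨4398046511104, 0, 0, 0⟩ v50; ok v51 && (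
  let v52 := add v51 v0; ok v52 && (
  let v53 := log v52; ok v53 && (
  let v54 := sub v53 v42; ok v54 && (
  let v55 := mul v45 v54; ok v55 && (
  let v56 := neg v55; ok v56 && (
  let v57 := exp v56; ok v57 && (
  let v58 := mul v15 v10; ok v58 && (
  let v59 := add v12 v58; ok v59 && (
  let v60 := inv v59; ok v60 && (
  let v61 := mul v17 v60; ok v61 && (
  let v62 := mul v16 x1; ok v62 && (
  let v63 := mul v62 v61; ok v63 && (
  let v64 := mul v14 v14; ok v64 && (
  let v65 := sub v0 v5; ok v65 && (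
  let v66 := mul v64 v65; ok v66 && (
  let v67 := mul v2 v2; ok v67 && (
  let v68 := add v12 v30; ok v68 && (
  let v69 := inv v68; ok v69 && (
  let v70 := mul v69 x0; ok v70 && (
  let v71 := mul v70 v2; ok v71 && (
  let v72 := mul v71 v71; ok v72 && (
  let v73 := sub v0 v64; ok v73 && (
  let v74 := mul v65 v73; ok v74 && (
  let v75 := mul v72 v74; ok v75 && (
  let v76 := inv x0; ok v76 && (
  let v77 := cst ⟨45812285440, 0, 0, 0⟩; ok v77 && (
  let v78 := scale ⟨1527119872, 0, 0, 0⟩ v75; ok v78 && (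
  let v79 := sub v77 v78; ok v79 && (
  let v80 := mul v75 v79; ok v80 && (
  let v81 := sub v1 v80; ok v81 && (
  let v82 := mul v75 v81; ok v82 && (
  let v83 := sub v0 v82; ok v83 && (
  let v84 := add v48 v0; ok v84 && (
  let v85 := mul v48 v48; ok v85 && (
  let v86 := add v85 v0; ok v86 && (
  let v87 := mul v48 v83; ok v87 && (
  let v88 := scale ⟨2199023255552, 0, 0, 0⟩ v87; ok v88 && (
  let v89 := add v86 v88; ok v89 && (
  let v90 := inv v84; ok v90 && (
  let v91 := mul v89 v90; ok v91 && (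
  let v92 := add v91 v84; ok v92 && (
  let v93 := mul v48 v63; ok v93 && (
  let v94 := scale ⟨549755813888, 0, 0, 0⟩ v93; ok v94 && (
  let v95 := mul v94 v92; ok v95 && (
  let v96 := sub v89 v95; ok v96 && (
  isPos 4 v89 && (
  isPos 4 v96 && (
  let v97 := inv v96; ok v97 && (
  let v98 := sub v0 v48; ok v98 && (
  let v99 := mul v98 v84; ok v99 && (
  let v100 := mul v99 v97; ok v100 && (
  let v101 := scale ⟨549755813888, 0, 0, 0⟩ v100; ok v101 && (
  let v102 := add v101 v1; ok v102 && (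
  let v103 := inv v102; ok v103 && (
  let v104 := mul v101 v103; ok v104 && (
  let v105 := mul v63 v104; ok v105 && (
  let v106 := scale ⟨549755813888, 0, 0, 0⟩ v105; ok v106 && (
  let v107 := sub v0 v106; ok v107 && (
  let v108 := sub v0 v105; ok v108 && (
  let v109 := inv v108; ok v109 && (
  let v110 := mul v107 v109; ok v110 && (
  let v111 := add v105 v0; ok v111 && (
  let v112 := mul v48 v111; ok v112 && (
  let v113 := mul v16 v17; ok v113 && (
  let v114 := add v12 x1; ok v114 && (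
  let v115 := mul v15 v12; ok v115 && (
  let v116 := mul v115 v10; ok v116 && (
  let v117 := scale ⟨2199023255552, 0, 0, 0⟩ v116; ok v117 && (
  let v118 := add v39 v117; ok v118 && (
  let v119 := mul v114 v118; ok v119 && (
  let v120 := inv v119; ok v120 && (
  let v121 := mul v113 v120; ok v121 && (
  let v122 := mul x1 v121; ok v122 && (
  let v123 := inv v36; ok v123 && (
  let v124 := mul v75 v123; ok v124 && (
  let v125 := scale ⟨1527119872, 0, 0, 0⟩ v124; ok v125 && (
  let v126 := sub v77 v125; ok v126 && (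
  let v127 := mul v124 v126; ok v127 && (
  let v128 := sub v1 v127; ok v128 && (
  let v129 := mul v124 v128; ok v129 && (
  let v130 := sub v0 v129; ok v130 && (
  let v131 := add v57 v0; ok v131 && (
  let v132 := mul v57 v57; ok v132 && (
  let v133 := add v132 v0; ok v133 && (
  let v134 := mul v57 v130; ok v134 && (
  let v135 := scale ⟨2199023255552, 0, 0, 0⟩ v134; ok v135 && (
  let v136 := add v133 v135; ok v136 && (
  let v137 := inv v131; ok v137 && (
  let v138 := mul v136 v137; ok v138 && (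
  let v139 := add v138 v131; ok v139 && (
  let v140 := mul v57 v122; ok v140 && (
  let v141 := scale ⟨549755813888, 0, 0, 0⟩ v140; ok v141 && (
  let v142 := mul v141 v139; ok v142 && (
  let v143 := sub v136 v142; ok v143 && (
  isPos 4 v136 && (
  isPos 4 v143 && (
  let v144 := sub v0 v57; ok v144 && (
  let v145 := mul v144 v131; ok v145 && (
  let v146 := inv v143; ok v146 && (
  let v147 := mul v145 v146; ok v147 && (
  let v148 := scale ⟨549755813888, 0, 0, 0⟩ v147; ok v148 && (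
  let v149 := add v148 v1; ok v149 && (
  let v150 := inv v149; ok v150 && (
  let v151 := mul v148 v150; ok v151 && (
  let v152 := mul v122 v151; ok v152 && (
  let v153 := add v4 v0; ok v153 && (
  let v154 := inv v153; ok v154 && (
  let v155 := mul v4 v154; ok v155 && (
  let v156 := scale ⟨2199023255552, 0, 0, 0⟩ v155; ok v156 && (
  let v157 := sub v0 v156; ok v157 && (
  let v158 := sub v0 v4; ok v158 && (
  let v159 := mul x3 v154; ok v159 && (
  let v160 := mul v159 v157; ok v160 && (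
  let v161 := add v17 v160; ok v161 && (
  let v162 := mul x0 v10; ok v162 && (
  let v163 := scale ⟨137438953472, 0, 0, 0⟩ v162; ok v163 && (
  let v164 := add v163 v1; ok v164 && (
  let v165 := inv v164; ok v165 && (
  let v166 := mul x0 v165; ok v166 && (
  let v167 := scale ⟨274877906944, 0, 0, 0⟩ v166; ok v167 && (
  let v168 := scale ⟨549755813888, 0, 0, 0⟩ v162; ok v168 && (
  let v169 := cst ⟨2199023255552, 0, 0, 0⟩; ok v169 && (
  let v170 := add v168 v169; ok v170 && (
  let v171 := mul v170 v76; ok v171 && (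
  let v172 := scale ⟨224412041216, 0, 0, 0⟩ v8; ok v172 && (
  let v173 := inv v29; ok v173 && (
  let v174 := mul v172 v173; ok v174 && (
  let v175 := mul v167 v17; ok v175 && (
  let v176 := mul v175 v174; ok v176 && (
  let v177 := mul v2 v176; ok v177 && (
  let v178 := sub v0 v177; ok v178 && (
  let v179 := inv v178; ok v179 && (
  let v180 := mul v112 v177; ok v180 && (
  let v181 := sub v0 v180; ok v181 && (
  let v182 := inv v181; ok v182 && (
  let v183 := scale ⟨3573412790272, 0, 0, 0⟩ v14; ok v183 && (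
  let v184 := inv x2; ok v184 && (
  let v185 := scale ⟨339302416384, 0, 0, 0⟩ v184; ok v185 && (
  let v186 := add v183 v185; ok v186 && (
  let v187 := scale ⟨549755813888, 0, 0, 0⟩ v186; ok v187 && (
  let v188 := scale ⟨2199023255552, 0, 0, 0⟩ v76; ok v188 && (
  let v189 := add v188 v0; ok v189 && (
  let v190 := add v76 v0; ok v190 && (
  let v191 := mul v4 v14; ok v191 && (
  let v192 := sub v0 v66; ok v192 && (
  let v193 := mul v4 v15; ok v193 && (
  let v194 := scale ⟨2199023255552, 0, 0, 0⟩ v193; ok v194 && (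
  let v195 := sub v192 v194; ok v195 && (
  let v196 := mul v191 v191; ok v196 && (
  let v197 := add v195 v196; ok v197 && (
  let v198 := add v197 v0; ok v198 && (
  let v199 := scale ⟨549755813888, 0, 0, 0⟩ v198; ok v199 && (
  let v200 := scale ⟨549755813888, 0, 0, 0⟩ v30; ok v200 && (
  let v201 := sub v8 v200; ok v201 && (
  let v202 := mul v67 v192; ok v202 && (
  let v203 := mul v202 v7; ok v203 && (
  let v204 := scale ⟨137438953472, 0, 0, 0⟩ v203; ok v204 && (
  let v205 := add v201 v204; ok v205 && (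
  let v206 := mul v199 v205; ok v206 && (
  let v207 := mul v105 v110; ok v207 && (
  let v208 := cst ⟨45814382592, 0, 0, 0⟩; ok v208 && (
  let v209 := cst ⟨1526988800, 0, 0, 0⟩; ok v209 && (
  let v210 := scale ⟨27279360, 0, 0, 0⟩ v75; ok v210 && (
  let v211 := sub v209 v210; ok v211 && (
  let v212 := mul v75 v211; ok v212 && (
  let v213 := sub v208 v212; ok v213 && (
  let v214 := mul v75 v213; ok v214 && (
  let v215 := sub v1 v214; ok v215 && (
  let v216 := mul v75 v215; ok v216 && (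
  let v217 := sub v0 v216; ok v217 && (
  let v218 := mul v75 v76; ok v218 && (
  let v219 := mul v218 v218; ok v219 && (
  let v220 := scale ⟨369367187456, 0, 0, 0⟩ v219; ok v220 && (
  let v221 := add v217 v220; ok v221 && (
  let v222 := mul v48 v221; ok v222 && (
  let v223 := scale ⟨2199023255552, 0, 0, 0⟩ v222; ok v223 && (
  let v224 := add v86 v223; ok v224 && (
  let v225 := cst ⟨8589934592, 0, 0, 0⟩; ok v225 && (
  let v226 := add v224 v225; ok v226 && (
  let v227 := log v226; ok v227 && (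
  let v228 := scale ⟨549755813888, 0, 0, 0⟩ v227; ok v228 && (
  let v229 := exp v228; ok v229 && (
  let v230 := mul v48 v105; ok v230 && (
  let v231 := add v229 v230; ok v231 && (
  let v232 := mul v231 v179; ok v232 && (
  let v233 := mul v112 v182; ok v233 && (
  let v234 := add v232 v233; ok v234 && (
  let v235 := mul v177 v234; ok v235 && (
  let v236 := add v207 v235; ok v236 && (
  let v237 := mul v236 v76; ok v237 && (
  let v238 := mul v231 v177; ok v238 && (
  let v239 := mul v238 v179; ok v239 && (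
  let v240 := add v207 v239; ok v240 && (
  let v241 := mul v240 v76; ok v241 && (
  let v242 := scale ⟨223338299392, 0, 0, 0⟩ v241; ok v242 && (
  let v243 := add v1 v242; ok v243 && (
  let v244 := mul v241 v243; ok v244 && (
  let v245 := add v0 v244; ok v245 && (
  let v246 := scale ⟨893353197568, 0, 0, 0⟩ v237; ok v246 && (
  let v247 := add v0 v246; ok v247 && (
  let v248 := mul v237 v247; ok v248 && (
  let v249 := add v0 v248; ok v249 && (
  let v250 := mul v156 v159; ok v250 && (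
  let v251 := mul v250 v189; ok v251 && (
  let v252 := mul v251 v249; ok v252 && (
  let v253 := mul v206 v245; ok v253 && (
  let v254 := add v44 v1; ok v254 && (
  let v255 := mul v252 v254; ok v255 && (
  let v256 := add v253 v255; ok v256 && (
  let v257 := add v44 v0; ok v257 && (
  let v258 := mul v252 v257; ok v258 && (
  let v259 := mul v190 v257; ok v259 && (
  let v260 := mul v259 v159; ok v260 && (
  let v261 := mul v260 v158; ok v261 && (
  let v262 := mul v2 v161; ok v262 && (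
  let v263 := inv v44; ok v263 && (
  let v264 := mul v262 v263; ok v264 && (
  let v265 := scale ⟨549755813888, 0, 0, 0⟩ v264; ok v265 && (
  let v266 := mul v61 v184; ok v266 && (
  let v267 := mul v266 v104; ok v267 && (
  let v268 := mul v267 v110; ok v268 && (
  let v269 := mul v16 v265; ok v269 && (
  let v270 := mul v256 v268; ok v270 && (
  let v271 := mul v261 v187; ok v271 && (
  let v272 := add v270 v271; ok v272 && (
  let v273 := mul v272 v76; ok v273 && (
  let v274 := add v269 v273; ok v274 && (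
  let v275 := mul v256 v231; ok v275 && (
  let v276 := mul v275 v179; ok v276 && (
  let v277 := mul v258 v112; ok v277 && (
  let v278 := mul v277 v182; ok v278 && (
  let v279 := add v276 v278; ok v279 && (
  let v280 := mul v279 v76; ok v280 && (
  let v281 := mul v16 v274; ok v281 && (
  let v282 := mul v176 v280; ok v282 && (
  let v283 := add v281 v282; ok v283 && (
  let v284 := mul v67 v283; ok v284 && (
  let v285 := mul v284 v263; ok v285 && (
  let v286 := sub v0 v285; ok v286 && (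
  let v287 := inv v286; ok v287 && (
  let v288 := mul v283 v287; ok v288 && (
  let v289 := mul x1 v288; ok v289 && (
  let v290 := mul v67 v288; ok v290 && (
  let v291 := mul v290 v263; ok v291 && (
  let v292 := sub v0 v291; ok v292 && (
  let v293 := mul v41 v292; ok v293 && (
  let v294 := sub v293 v289; ok v294 && (
  let v295 := inv v294; ok v295 && (
  let v296 := mul v289 v295; ok v296 && (
  let v297 := sub v44 v290; ok v297 && (
  let v298 := inv v297; ok v298 && (
  let v299 := mul v296 v151; ok v299 && (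
  let v300 := mul x0 v298; ok v300 && (
  let v301 := mul v151 v295; ok v301 && (
  let v302 := inv v30; ok v302 && (
  let v303 := mul v301 v302; ok v303 && (
  let v304 := scale ⟨549755813888, 0, 0, 0⟩ v299; ok v304 && (
  let v305 := sub v0 v304; ok v305 && (
  let v306 := sub v0 v299; ok v306 && (
  let v307 := inv v306; ok v307 && (
  let v308 := mul v305 v307; ok v308 && (
  let v309 := mul v303 v308; ok v309 && (
  let v310 := add v300 v309; ok v310 && (
  let v311 := mul v310 v290; ok v311 && (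
  let v312 := scale ⟨223338299392, 0, 0, 0⟩ v311; ok v312 && (
  let v313 := add v1 v312; ok v313 && (
  let v314 := mul v311 v313; ok v314 && (
  let v315 := add v0 v314; ok v315 && (
  let v316 := mul v310 v315; ok v316 && (
  let v317 := mul v316 v287; ok v317 && (
  let v318 := mul v317 v76; ok v318 && (
  let v319 := mul v318 x2; ok v319 && (
  let v320 := mul v319 v279; ok v320 && (
  let v321 := mul v318 v171; ok v321 && (
  let v322 := mul v321 x2; ok v322 && (
  let v323 := inv v17; ok v323 && (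
  let v324 := mul v322 v323; ok v324 && (
  let v325 := mul x0 v16; ok v325 && (
  let v326 := mul v325 v265; ok v326 && (
  let v327 := add v326 v270; ok v327 && (
  let v328 := add v327 v271; ok v328 && (
  let v329 := mul v324 v328; ok v329 && (
  let v330 := mul v167 v2; ok v330 && (
  let v331 := mul v330 v17; ok v331 && (
  let v332 := mul v331 v16; ok v332 && (
  let v333 := cst ⟨3298534883328, 0, 0, 0⟩; ok v333 && (
  let v334 := cst ⟨5497558138880, 0, 0, 0⟩; ok v334 && (
  let v335 := inv v334; ok v335 && (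
  let v336 := mul v333 v335; ok v336 && (
  let v337 := add v152 v0; ok v337 && (
  let v338 := mul v152 v337; ok v338 && (
  let v339 := add v55 v338; ok v339 && (
  let v340 := mul v296 v339; ok v340 && (
  let v341 := mul v57 v337; ok v341 && (
  let v342 := scale ⟨687194767360, 0, 0, 0⟩ v340; ok v342 && (
  let v343 := add v0 v342; ok v343 && (
  let v344 := mul v340 v343; ok v344 && (
  let v345 := add v0 v344; ok v345 && (
  let v346 := mul v341 v345; ok v346 && (
  let v347 := add v10 x1; ok v347 && (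
  let v348 := mul v153 v347; ok v348 && (
  let v349 := mul v348 v336; ok v349 && (
  let v350 := add v0 v349; ok v350 && (
  let v351 := inv v350; ok v351 && (
  let v352 := mul v346 v351; ok v352 && (
  let v353 := mul v352 v13; ok v353 && (
  let v354 := mul v2 v288; ok v354 && (
  let v355 := mul v354 v323; ok v355 && (
  let v356 := add v0 v355; ok v356 && (
  let v357 := mul v353 v356; ok v357 && (
  let v358 := mul v357 v298; ok v358 && (
  let v359 := mul x1 v320; ok v359 && (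
  let v360 := mul v359 v177; ok v360 && (
  let v361 := mul x1 v332; ok v361 && (
  let v362 := mul v329 v361; ok v362 && (
  let v363 := add v360 v362; ok v363 && (
  let v364 := add v359 v329; ok v364 && (
  let v365 := add v0 v363; ok v365 && (
  let v366 := mul v358 v365; ok v366 && (
  let v367 := add v364 v366; ok v367 && (
  let v368 := sub v0 v367; ok v368 && (
  let v369 := scale ⟨1073741824, 0, 0, 0⟩ x1; ok v369 && (
  let v370 := sub v368 v369; ok v370 && (
  let v371 := sub v13 v0; ok v371 && (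
  let v372 := add v371 v169; ok v372 && (
  let v373 := scale ⟨2199023255552, 0, 0, 0⟩ v336; ok v373 && (
  let v374 := sub v372 v373; ok v374 && (
  let v375 := mul v153 v374; ok v375 && (
  let v376 := mul v371 v373; ok v376 && (
  let v377 := add v376 v0; ok v377 && (
  let v378 := inv v377; ok v378 && (
  let v379 := mul v375 v378; ok v379 && (
  let v380 := mul v167 v280; ok v380 && (
  let v381 := scale ⟨549755813888, 0, 0, 0⟩ v174; ok v381 && (
  let v382 := add v10 v381; ok v382 && (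
  let v383 := mul v380 v382; ok v383 && (
  let v384 := scale ⟨2199023255552, 0, 0, 0⟩ v383; ok v384 && (
  let v385 := add v274 v384; ok v385 && (
  let v386 := scale ⟨2199023255552, 0, 0, 0⟩ v385; ok v386 && (
  let v387 := mul v386 v287; ok v387 && (
  let v388 := sub v17 v354; ok v388 && (
  let v389 := inv v388; ok v389 && (
  let v390 := mul v387 v389; ok v390 && (
  let v391 := sub v379 v390; ok v391 && (
  isPos 4 v178 && (
  isPos 4 v181 && (
  let v392 := scale ⟨2199023255552, 0, 0, 0⟩ v284; ok v392 && (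
  let v393 := sub v44 v392; ok v393 && (
  isPos 4 v393 && (
  isPos 4 v294 && (
  isPos 4 v108 && (
  let v394 := sub v1 v152; ok v394 && (
  isPos 4 v394 && (
  let v395 := scale ⟨687194767360, 0, 0, 0⟩ v0; ok v395 && (
  let v396 := sub v395 v241; ok v396 && (
  isPos 4 v396 && (
  let v397 := scale ⟨377957122048, 0, 0, 0⟩ v0; ok v397 && (
  let v398 := sub v397 v237; ok v398 && (
  isPos 4 v398 && (
  isPos 4 v388 && (
  let v399 := sub v1 v340; ok v399 && (
  isPos 4 v399 && (
  isPos 4 v306 && (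
  let v400 := sub v395 v311; ok v400 && (
  isPos 4 v400 && (
  let v401 := mul v162 v162; ok v401 && (
  let v402 := cst ⟨14293651161088, 0, 0, 0⟩; ok v402 && (
  let v403 := cst ⟨10995116277760, 0, 0, 0⟩; ok v403 && (
  let v404 := inv v403; ok v404 && (
  let v405 := mul v402 v404; ok v405 && (
  let v406 := mul v401 v405; ok v406 && (
  let v407 := cst ⟨27487790694400, 0, 0, 0⟩; ok v407 && (
  let v408 := add v406 v407; ok v408 && (
  let v409 := mul v153 v17; ok v409 && (
  let v410 := mul v409 v336; ok v410 && (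
  let v411 := mul x1 v410; ok v411 && (
  let v412 := add v0 v411; ok v412 && (
  let v413 := inv v412; ok v413 && (
  let v414 := mul v410 v413; ok v414 && (
  let v415 := sub v32 x1; ok v415 && (
  let v416 := sub v415 v31; ok v416 && (
  let v417 := scale ⟨2199023255552, 0, 0, 0⟩ v2; ok v417 && (
  let v418 := add v417 v290; ok v418 && (
  let v419 := mul x0 v418; ok v419 && (
  let v420 := mul v408 v414; ok v420 && (
  let v421 := mul v287 v419; ok v421 && (
  let v422 := mul v76 v272; ok v422 && (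
  let v423 := mul v5 v422; ok v423 && (
  let v424 := mul v17 v167; ok v424 && (
  let v425 := mul v424 v280; ok v425 && (
  let v426 := mul v30 v425; ok v426 && (
  let v427 := add v423 v426; ok v427 && (
  let v428 := mul x0 v427; ok v428 && (
  let v429 := mul v421 v428; ok v429 && (
  let v430 := sub v420 v429; ok v430 && (
  let v431 := scale ⟨549755813888, 0, 0, 0⟩ v354; ok v431 && (
  let v432 := add v0 v431; ok v432 && (
  let v433 := mul v287 v432; ok v433 && (
  let v434 := mul x1 v16; ok v434 && (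
  let v435 := mul v434 v161; ok v435 && (
  let v436 := mul v17 v44; ok v436 && (
  let v437 := inv v436; ok v437 && (
  let v438 := mul v435 v437; ok v438 && (
  let v439 := mul v433 v438; ok v439 && (
  let v440 := sub v416 v439; ok v440 && (
  let v441 := mul v174 v430; ok v441 && (
  let v442 := sub v0 v174; ok v442 && (
  let v443 := mul v5 v440; ok v443 && (
  let v444 := mul v442 v443; ok v444 && (
  let v445 := mul v408 v444; ok v445 && (
  let v446 := add v441 v445; ok v446 && (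
  isPos 4 v391 && (
  isPos 4 v370 && (
  isPos 4 v446 && (
  isPos 4 v440 && (
  true)))))))))))))))))))))))))))))))))))))))))))))))))))))))))))))))))))))))))))))))))))))))))))))))))))))))))))))))))))))))))))))))))))))))))))))))))))))))))))))))))))))))))))))))))))))))))))))))))))))))))))))))))))))))))))))))))))))))))))))))))))))))))))))))))))))))))))))))))))))))))))))))))))))))))))))))))))))))))))))))))))))))))))))))))))))))))))))))))))))))))))))))))))))))))))))))))))))))))))))))))))))))))))))))))))))))))))))))))))))))))))))))))))))))))))))))))))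
  | _ => false

set_option maxRecDepth 1000000 in
theorem chk7_eq (O : Ops) (m : List O.α)
    (h : chk7 O.cst O.add O.sub O.mul O.scale O.neg O.inv O.exp O.log O.ok O.isPos O.isLt m = true) :
    runG O 4 prog7 m = true := by
  match m, h with
  | [x0, x1, x2, x3], h => exact h

def chkB7 : List opsE.α → Bool :=
  chk7 opsE.cst opsE.add opsE.sub opsE.mul opsE.scale opsE.neg opsE.inv opsE.exp opsE.log opsE.ok opsE.isPos opsE.isLt

theorem chkB7_eq (m : List opsE.α) (h : chkB7 m = true) : runG opsE 4 prog7 m = true :=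
  chk7_eq opsE m h

def prog8 : List Op := [
  .const ⟨1099511627776, 0, 0, 0⟩,
  .const ⟨549755813888, 0, 0, 0⟩,
  .mul 3 4,
  .mul 0 6,
  .scale ⟨549755813888, 0, 0, 0⟩ 0,
  .mul 7 7,
  .mul 1 1,
  .sub 6 0,
  .inv 0,
  .mul 4 0,
  .scale ⟨2199023255552, 0, 0, 0⟩ 0,
  .scale ⟨2199023255552, 0, 0, 0⟩ 2,
  .sub 0 11,
  .add 0 2,
  .mul 17 5,
  .mul 17 0,
  .sub 15 0,
  .add 16 1,
  .scale ⟨10774999203840, 0, 0, 0⟩ 13,
  .scale ⟨45768245248, 0, 0, 0⟩ 0,
  .const ⟨183207198720, 0, 0, 0⟩,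
  .add 1 0,
  .mul 3 0,
  .add 21 0,
  .mul 5 0,
  .add 24 0,
  .mul 7 0,
  .scale ⟨549755813888, 0, 0, 0⟩ 0,
  .add 27 0,
  .mul 3 0,
  .mul 31 24,
  .mul 20 15,
  .scale ⟨2199023255552, 0, 0, 0⟩ 19,
  .add 1 0,
  .add 0 35,
  .mul 4 0,
  .add 0 35,
  .mul 26 26,
  .scale ⟨2199023255552, 0, 0, 0⟩ 0,
  .add 0 38,
  .mul 27 5,
  .sub 0 40,
  .log 5,
  .scale ⟨549755813888, 0, 0, 0⟩ 0,
  .exp 0,
  .scale ⟨549755813888, 0, 0, 0⟩ 45,
  .mul 0 3,
  .neg 0,
  .exp 0,
  .mul 36 18,
  .mul 0 8,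
  .scale ⟨4398046511104, 0, 0, 0⟩ 0,
  .add 0 51,
  .log 0,
  .sub 0 11,
  .mul 9 0,
  .neg 0,
  .exp 0,
  .mul 42 47,
  .add 46 0,
  .inv 0,
  .mul 43 0,
  .mul 45 63,
  .mul 0 1,
  .mul 49 49,
  .sub 64 59,
  .mul 1 0,
  .mul 64 64,
  .add 55 37,
  .inv 0,
  .mul 0 70,
  .mul 0 68,
  .mul 0 0,
  .sub 72 8,
  .mul 8 0,
  .mul 2 0,
  .inv 76,
  .const ⟨0, 1099511627776, 0, 0⟩,
  .add 29 77,
  .mul 30 30,
  .add 0 79,
  .mul 32 3,
  .scale ⟨2199023255552, 0, 0, 0⟩ 0,
  .add 2 0,
  .inv 5,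
  .mul 1 0,
  .add 0 7,
  .mul 38 23,
  .scale ⟨549755813888, 0, 0, 0⟩ 0,
  .mul 0 2,
  .sub 6 0,
  .pos 7,
  .pos 0,
  .inv 0,
  .sub 91 43,
  .mul 0 14,
  .mul 0 2,
  .scale ⟨549755813888, 0, 0, 0⟩ 0,
  .add 0 94,
  .inv 0,
  .mul 2 0,
  .mul 35 0,
  .scale ⟨549755813888, 0, 0, 0⟩ 0,
  .sub 100 0,
  .sub 101 2,
  .inv 0,
  .mul 2 0,
  .add 5 104,
  .mul 57 0,
  .mul 90 89,
  .add 95 109,
  .mul 93 96,
  .mul 0 99,
  .scale ⟨2199023255552, 0, 0, 0⟩ 0,
  .add 72 0,
  .mul 4 0,
  .inv 0,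
  .mul 7 0,
  .mul 117 0,
  .inv 80,
  .mul 42 0,
  .add 61 118,
  .mul 62 62,
  .add 0 120,
  .mul 64 44,
  .scale ⟨2199023255552, 0, 0, 0⟩ 0,
  .add 2 0,
  .inv 5,
  .mul 1 0,
  .add 0 7,
  .mul 70 11,
  .scale ⟨549755813888, 0, 0, 0⟩ 0,
  .mul 0 2,
  .sub 6 0,
  .pos 7,
  .pos 0,
  .sub 131 74,
  .mul 0 13,
  .inv 2,
  .mul 1 0,
  .scale ⟨549755813888, 0, 0, 0⟩ 0,
  .add 0 135,
  .inv 0,
  .mul 2 0,
  .mul 23 0,
  .add 136 140,
  .inv 0,
  .mul 138 0,
  .scale ⟨2199023255552, 0, 0, 0⟩ 0,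
  .sub 144 0,
  .sub 145 141,
  .mul 150 4,
  .mul 0 2,
  .add 131 0,
  .mul 150 139,
  .scale ⟨137438953472, 0, 0, 0⟩ 0,
  .add 0 150,
  .inv 0,
  .mul 154 0,
  .scale ⟨274877906944, 0, 0, 0⟩ 0,
  .scale ⟨549755813888, 0, 0, 0⟩ 5,
  .const ⟨2199023255552, 0, 0, 0⟩,
  .add 1 0,
  .mul 0 82,
  .scale ⟨224412041216, 0, 0, 0⟩ 151,
  .inv 131,
  .mul 1 0,
  .mul 7 145,
  .mul 0 1,
  .mul 162 0,
  .sub 165 0,
  .inv 0,
  .mul 61 2,
  .sub 168 0,
  .inv 0,
  .scale ⟨3573412790272, 0, 0, 0⟩ 156,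
  .inv 174,
  .scale ⟨339302416384, 0, 0, 0⟩ 0,
  .add 2 0,
  .scale ⟨549755813888, 0, 0, 0⟩ 0,
  .scale ⟨2199023255552, 0, 0, 0⟩ 99,
  .add 0 176,
  .add 101 177,
  .mul 174 164,
  .sub 179 113,
  .mul 176 165,
  .scale ⟨2199023255552, 0, 0, 0⟩ 0,
  .sub 2 0,
  .mul 4 4,
  .add 1 0,
  .add 0 185,
  .scale ⟨549755813888, 0, 0, 0⟩ 0,
  .scale ⟨549755813888, 0, 0, 0⟩ 157,
  .sub 180 0,
  .mul 122 9,
  .mul 0 183,
  .scale ⟨137438953472, 0, 0, 0⟩ 0,
  .add 3 0,
  .mul 6 0,
  .mul 95 90,
  .const ⟨45814382592, 0, 0, 0⟩,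
  .const ⟨1526988800, 0, 0, 0⟩,
  .scale ⟨27279360, 0, 0, 0⟩ 122,
  .sub 1 0,
  .mul 124 0,
  .sub 4 0,
  .mul 126 0,
  .sub 201 0,
  .mul 128 0,
  .sub 204 0,
  .mul 130 129,
  .mul 0 0,
  .scale ⟨369367187456, 0, 0, 0⟩ 0,
  .add 3 0,
  .mul 161 0,
  .scale ⟨2199023255552, 0, 0, 0⟩ 0,
  .add 131 0,
  .const ⟨8589934592, 0, 0, 0⟩,
  .add 1 0,
  .log 0,
  .scale ⟨549755813888, 0, 0, 0⟩ 0,
  .exp 0,
  .mul 169 118,
  .add 1 0,
  .mul 0 52,
  .mul 114 50,
  .add 1 0,
  .mul 57 0,
  .add 28 0,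
  .mul 0 148,
  .mul 6 60,
  .mul 0 59,
  .add 32 0,
  .mul 0 152,
  .scale ⟨223338299392, 0, 0, 0⟩ 0,
  .add 229 0,
  .mul 2 0,
  .add 232 0,
  .scale ⟨893353197568, 0, 0, 0⟩ 8,
  .add 234 0,
  .mul 10 0,
  .add 236 0,
  .mul 93 90,
  .mul 0 61,
  .mul 0 2,
  .mul 46 7,
  .add 197 240,
  .mul 2 0,
  .add 2 0,
  .add 200 244,
  .mul 5 0,
  .mul 68 1,
  .mul 0 100,
  .mul 0 102,
  .mul 247 100,
  .inv 206,
  .mul 1 0,
  .scale ⟨549755813888, 0, 0, 0⟩ 0,
  .mul 192 81,
  .mul 0 156,
  .mul 0 151,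
  .mul 240 3,
  .mul 13 1,
  .mul 9 83,
  .add 1 0,
  .mul 0 184,
  .add 4 0,
  .mul 18 43,
  .mul 0 96,
  .mul 18 158,
  .mul 0 95,
  .add 2 0,
  .mul 0 191,
  .mul 252 6,
  .mul 105 1,
  .add 1 0,
  .mul 204 0,
  .mul 0 21,
  .sub 273 0,
  .inv 0,
  .mul 4 0,
  .mul 278 0,
  .mul 210 1,
  .mul 0 27,
  .sub 279 0,
  .mul 239 0,
  .sub 0 4,
  .inv 0,
  .mul 6 0,
  .sub 240 6,
  .inv 0,
  .mul 2 147,
  .mul 288 1,
  .mul 149 5,
  .inv 259,
  .mul 1 0,
  .scale ⟨549755813888, 0, 0, 0⟩ 4,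
  .sub 292 0,
  .sub 293 6,
  .inv 0,
  .mul 2 0,
  .mul 5 0,
  .add 9 0,
  .mul 0 20,
  .scale ⟨223338299392, 0, 0, 0⟩ 0,
  .add 299 0,
  .mul 2 0,
  .add 302 0,
  .mul 5 0,
  .mul 0 29,
  .mul 0 229,
  .mul 0 309,
  .mul 0 40,
  .mul 2 149,
  .mul 0 312,
  .inv 293,
  .mul 1 0,
  .mul 313 296,
  .mul 0 60,
  .add 0 56,
  .add 0 56,
  .mul 4 0,
  .mul 162 315,
  .mul 0 301,
  .mul 0 303,
  .const ⟨3298534883328, 0, 0, 0⟩,
  .const ⟨5497558138880, 0, 0, 0⟩,
  .inv 0,
  .mul 2 0,
  .add 184 324,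
  .mul 185 0,
  .add 271 0,
  .mul 43 0,
  .mul 271 3,
  .scale ⟨687194767360, 0, 0, 0⟩ 1,
  .add 330 0,
  .mul 3 0,
  .add 332 0,
  .mul 4 0,
  .add 324 336,
  .mul 194 0,
  .mul 0 12,
  .add 337 0,
  .inv 0,
  .mul 5 0,
  .mul 0 327,
  .mul 339 65,
  .mul 0 31,
  .add 343 0,
  .mul 3 0,
  .mul 0 59,
  .mul 348 38,
  .mul 0 182,
  .mul 350 28,
  .mul 32 0,
  .add 2 0,
  .add 4 34,
  .add 352 1,
  .mul 7 0,
  .add 2 0,
  .sub 355 0,
  .scale ⟨1073741824, 0, 0, 0⟩ 358,
  .sub 1 0,
  .sub 345 358,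
  .add 0 202,
  .scale ⟨2199023255552, 0, 0, 0⟩ 36,
  .sub 1 0,
  .mul 221 0,
  .mul 4 2,
  .add 0 364,
  .inv 0,
  .mul 3 0,
  .mul 212 99,
  .scale ⟨549755813888, 0, 0, 0⟩ 206,
  .add 359 0,
  .mul 2 0,
  .scale ⟨2199023255552, 0, 0, 0⟩ 0,
  .add 110 0,
  .scale ⟨2199023255552, 0, 0, 0⟩ 0,
  .mul 0 99,
  .sub 358 33,
  .inv 0,
  .mul 2 0,
  .sub 11 0,
  .pos 213,
  .pos 210,
  .scale ⟨2199023255552, 0, 0, 0⟩ 107,
  .sub 336 0,
  .pos 0,
  .pos 99,
  .pos 279,
  .sub 380 241,
  .pos 0,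
  .scale ⟨687194767360, 0, 0, 0⟩ 382,
  .sub 0 154,
  .pos 0,
  .scale ⟨377957122048, 0, 0, 0⟩ 384,
  .sub 0 160,
  .pos 0,
  .pos 10,
  .sub 385 58,
  .pos 0,
  .pos 93,
  .sub 4 88,
  .pos 0,
  .mul 238 238,
  .const ⟨14293651161088, 0, 0, 0⟩,
  .const ⟨10995116277760, 0, 0, 0⟩,
  .inv 0,
  .mul 2 0,
  .mul 4 0,
  .const ⟨27487790694400, 0, 0, 0⟩,
  .add 1 0,
  .mul 255 379,
  .mul 0 73,
  .mul 400 0,
  .add 399 0,
  .inv 0,
  .mul 3 0,
  .sub 370 404,
  .sub 0 372,
  .scale ⟨2199023255552, 0, 0, 0⟩ 402,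
  .add 0 127,
  .mul 407 0,
  .mul 11 5,
  .mul 133 1,
  .mul 333 149,
  .mul 405 0,
  .mul 394 256,
  .mul 0 144,
  .mul 383 0,
  .add 3 0,
  .mul 416 0,
  .mul 7 0,
  .sub 9 0,
  .scale ⟨549755813888, 0, 0, 0⟩ 76,
  .add 419 0,
  .mul 145 0,
  .mul 423 405,
  .mul 0 273,
  .mul 406 379,
  .inv 0,
  .mul 2 0,
  .mul 5 0,
  .sub 23 0,
  .mul 266 10,
  .sub 429 267,
  .mul 425 2,
  .mul 1 0,
  .mul 36 0,
  .add 4 0,
  .pos 55,
  .pos 76,
  .pos 0,
  .pos 6]

def chk8 {α : Type} (cst : Z → α) (add sub mul : α → α → α) (scale : Z → α → α)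
    (neg inv exp log : α → α) (ok : α → Bool) (isPos : Nat → α → Bool) (isLt : α → Nat → Bool) :
    List α → Bool
  | [x0, x1, x2, x3] =>
  let v0 := cst ⟨1099511627776, 0, 0, 0⟩; ok v0 && (
  let v1 := cst ⟨549755813888, 0, 0, 0⟩; ok v1 && (
  let v2 := mul x1 x2; ok v2 && (
  let v3 := mul v2 x3; ok v3 && (
  let v4 := scale ⟨549755813888, 0, 0, 0⟩ v3; ok v4 && (
  let v5 := mul x2 x2; ok v5 && (
  let v6 := mul v4 v4; ok v6 && (
  let v7 := sub v0 v6; ok v7 && (
  let v8 := inv v7; ok v8 && (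
  let v9 := mul v4 v8; ok v9 && (
  let v10 := scale ⟨2199023255552, 0, 0, 0⟩ v9; ok v10 && (
  let v11 := scale ⟨2199023255552, 0, 0, 0⟩ v8; ok v11 && (
  let v12 := sub v11 v0; ok v12 && (
  let v13 := add v12 v10; ok v13 && (
  let v14 := mul x3 v8; ok v14 && (
  let v15 := mul x2 v14; ok v15 && (
  let v16 := sub v0 v15; ok v16 && (
  let v17 := add v0 v15; ok v17 && (
  let v18 := scale ⟨10774999203840, 0, 0, 0⟩ v4; ok v18 && (
  let v19 := scale ⟨45768245248, 0, 0, 0⟩ v18; ok v19 && (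
  let v20 := cst ⟨183207198720, 0, 0, 0⟩; ok v20 && (
  let v21 := add v19 v20; ok v21 && (
  let v22 := mul v18 v21; ok v22 && (
  let v23 := add v1 v22; ok v23 && (
  let v24 := mul v18 v23; ok v24 && (
  let v25 := add v0 v24; ok v25 && (
  let v26 := mul v18 v25; ok v26 && (
  let v27 := scale ⟨549755813888, 0, 0, 0⟩ v26; ok v27 && (
  let v28 := add v0 v27; ok v28 && (
  let v29 := mul v25 v28; ok v29 && (
  let v30 := mul x1 v5; ok v30 && (
  let v31 := mul v10 v15; ok v31 && (
  let v32 := scale ⟨2199023255552, 0, 0, 0⟩ v12; ok v32 && (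
  let v33 := add v31 v32; ok v33 && (
  let v34 := add v33 x1; ok v34 && (
  let v35 := mul v30 v34; ok v35 && (
  let v36 := add v35 v0; ok v36 && (
  let v37 := mul v10 v10; ok v37 && (
  let v38 := scale ⟨2199023255552, 0, 0, 0⟩ v37; ok v38 && (
  let v39 := add v38 v0; ok v39 && (
  let v40 := mul v12 v34; ok v40 && (
  let v41 := sub v40 v0; ok v41 && (
  let v42 := log v36; ok v42 && (
  let v43 := scale ⟨549755813888, 0, 0, 0⟩ v42; ok v43 && (
  let v44 := exp v43; ok v44 && (
  let v45 := scale ⟨549755813888, 0, 0, 0⟩ x0; ok v45 && (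
  let v46 := mul v45 v42; ok v46 && (
  let v47 := neg v46; ok v47 && (
  let v48 := exp v47; ok v48 && (
  let v49 := mul v12 v30; ok v49 && (
  let v50 := mul v49 v41; ok v50 && (
  let v51 := scale ⟨4398046511104, 0, 0, 0⟩ v50; ok v51 && (
  let v52 := add v51 v0; ok v52 && (
  let v53 := log v52; ok v53 && (
  let v54 := sub v53 v42; ok v54 && (
  let v55 := mul v45 v54; ok v55 && (
  let v56 := neg v55; ok v56 && (
  let v57 := exp v56; ok v57 && (
  let v58 := mul v15 v10; ok v58 && (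
  let v59 := add v12 v58; ok v59 && (
  let v60 := inv v59; ok v60 && (
  let v61 := mul v17 v60; ok v61 && (
  let v62 := mul v16 x1; ok v62 && (
  let v63 := mul v62 v61; ok v63 && (
  let v64 := mul v14 v14; ok v64 && (
  let v65 := sub v0 v5; ok v65 && (
  let v66 := mul v64 v65; ok v66 && (
  let v67 := mul v2 v2; ok v67 && (
  let v68 := add v12 v30; ok v68 && (
  let v69 := inv v68; ok v69 && (
  let v70 := mul v69 x0; ok v70 && (
  let v71 := mul v70 v2; ok v71 && (
  let v72 := mul v71 v71; ok v72 && (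
  let v73 := sub v0 v64; ok v73 && (
  let v74 := mul v65 v73; ok v74 && (
  let v75 := mul v72 v74; ok v75 && (
  let v76 := inv x0; ok v76 && (
  let v77 := cst ⟨0, 1099511627776, 0, 0⟩; ok v77 && (
  let v78 := add v48 v0; ok v78 && (
  let v79 := mul v48 v48; ok v79 && (
  let v80 := add v79 v0; ok v80 && (
  let v81 := mul v48 v77; ok v81 && (
  let v82 := scale ⟨2199023255552, 0, 0, 0⟩ v81; ok v82 && (
  let v83 := add v80 v82; ok v83 && (
  let v84 := inv v78; ok v84 && (
  let v85 := mul v83 v84; ok v85 && (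
  let v86 := add v85 v78; ok v86 && (
  let v87 := mul v48 v63; ok v87 && (
  let v88 := scale ⟨549755813888, 0, 0, 0⟩ v87; ok v88 && (
  let v89 := mul v88 v86; ok v89 && (
  let v90 := sub v83 v89; ok v90 && (
  isPos 4 v83 && (
  isPos 4 v90 && (
  let v91 := inv v90; ok v91 && (
  let v92 := sub v0 v48; ok v92 && (
  let v93 := mul v92 v78; ok v93 && (
  let v94 := mul v93 v91; ok v94 && (
  let v95 := scale ⟨549755813888, 0, 0, 0⟩ v94; ok v95 && (
  let v96 := add v95 v1; ok v96 && (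
  let v97 := inv v96; ok v97 && (
  let v98 := mul v95 v97; ok v98 && (
  let v99 := mul v63 v98; ok v99 && (
  let v100 := scale ⟨549755813888, 0, 0, 0⟩ v99; ok v100 && (
  let v101 := sub v0 v100; ok v101 && (
  let v102 := sub v0 v99; ok v102 && (
  let v103 := inv v102; ok v103 && (
  let v104 := mul v101 v103; ok v104 && (
  let v105 := add v99 v0; ok v105 && (
  let v106 := mul v48 v105; ok v106 && (
  let v107 := mul v16 v17; ok v107 && (
  let v108 := add v12 x1; ok v108 && (
  let v109 := mul v15 v12; ok v109 && (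
  let v110 := mul v109 v10; ok v110 && (
  let v111 := scale ⟨2199023255552, 0, 0, 0⟩ v110; ok v111 && (
  let v112 := add v39 v111; ok v112 && (
  let v113 := mul v108 v112; ok v113 && (
  let v114 := inv v113; ok v114 && (
  let v115 := mul v107 v114; ok v115 && (
  let v116 := mul x1 v115; ok v116 && (
  let v117 := inv v36; ok v117 && (
  let v118 := mul v75 v117; ok v118 && (
  let v119 := add v57 v0; ok v119 && (
  let v120 := mul v57 v57; ok v120 && (
  let v121 := add v120 v0; ok v121 && (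
  let v122 := mul v57 v77; ok v122 && (
  let v123 := scale ⟨2199023255552, 0, 0, 0⟩ v122; ok v123 && (
  let v124 := add v121 v123; ok v124 && (
  let v125 := inv v119; ok v125 && (
  let v126 := mul v124 v125; ok v126 && (
  let v127 := add v126 v119; ok v127 && (
  let v128 := mul v57 v116; ok v128 && (
  let v129 := scale ⟨549755813888, 0, 0, 0⟩ v128; ok v129 && (
  let v130 := mul v129 v127; ok v130 && (
  let v131 := sub v124 v130; ok v131 && (
  isPos 4 v124 && (
  isPos 4 v131 && (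
  let v132 := sub v0 v57; ok v132 && (
  let v133 := mul v132 v119; ok v133 && (
  let v134 := inv v131; ok v134 && (
  let v135 := mul v133 v134; ok v135 && (
  let v136 := scale ⟨549755813888, 0, 0, 0⟩ v135; ok v136 && (
  let v137 := add v136 v1; ok v137 && (
  let v138 := inv v137; ok v138 && (
  let v139 := mul v136 v138; ok v139 && (
  let v140 := mul v116 v139; ok v140 && (
  let v141 := add v4 v0; ok v141 && (
  let v142 := inv v141; ok v142 && (
  let v143 := mul v4 v142; ok v143 && (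
  let v144 := scale ⟨2199023255552, 0, 0, 0⟩ v143; ok v144 && (
  let v145 := sub v0 v144; ok v145 && (
  let v146 := sub v0 v4; ok v146 && (
  let v147 := mul x3 v142; ok v147 && (
  let v148 := mul v147 v145; ok v148 && (
  let v149 := add v17 v148; ok v149 && (
  let v150 := mul x0 v10; ok v150 && (
  let v151 := scale ⟨137438953472, 0, 0, 0⟩ v150; ok v151 && (
  let v152 := add v151 v1; ok v152 && (
  let v153 := inv v152; ok v153 && (
  let v154 := mul x0 v153; ok v154 && (
  let v155 := scale ⟨274877906944, 0, 0, 0⟩ v154; ok v155 && (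
  let v156 := scale ⟨549755813888, 0, 0, 0⟩ v150; ok v156 && (
  let v157 := cst ⟨2199023255552, 0, 0, 0⟩; ok v157 && (
  let v158 := add v156 v157; ok v158 && (
  let v159 := mul v158 v76; ok v159 && (
  let v160 := scale ⟨224412041216, 0, 0, 0⟩ v8; ok v160 && (
  let v161 := inv v29; ok v161 && (
  let v162 := mul v160 v161; ok v162 && (
  let v163 := mul v155 v17; ok v163 && (
  let v164 := mul v163 v162; ok v164 && (
  let v165 := mul v2 v164; ok v165 && (
  let v166 := sub v0 v165; ok v166 && (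
  let v167 := inv v166; ok v167 && (
  let v168 := mul v106 v165; ok v168 && (
  let v169 := sub v0 v168; ok v169 && (
  let v170 := inv v169; ok v170 && (
  let v171 := scale ⟨3573412790272, 0, 0, 0⟩ v14; ok v171 && (
  let v172 := inv x2; ok v172 && (
  let v173 := scale ⟨339302416384, 0, 0, 0⟩ v172; ok v173 && (
  let v174 := add v171 v173; ok v174 && (
  let v175 := scale ⟨549755813888, 0, 0, 0⟩ v174; ok v175 && (
  let v176 := scale ⟨2199023255552, 0, 0, 0⟩ v76; ok v176 && (
  let v177 := add v176 v0; ok v177 && (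
  let v178 := add v76 v0; ok v178 && (
  let v179 := mul v4 v14; ok v179 && (
  let v180 := sub v0 v66; ok v180 && (
  let v181 := mul v4 v15; ok v181 && (
  let v182 := scale ⟨2199023255552, 0, 0, 0⟩ v181; ok v182 && (
  let v183 := sub v180 v182; ok v183 && (
  let v184 := mul v179 v179; ok v184 && (
  let v185 := add v183 v184; ok v185 && (
  let v186 := add v185 v0; ok v186 && (
  let v187 := scale ⟨549755813888, 0, 0, 0⟩ v186; ok v187 && (
  let v188 := scale ⟨549755813888, 0, 0, 0⟩ v30; ok v188 && (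
  let v189 := sub v8 v188; ok v189 && (
  let v190 := mul v67 v180; ok v190 && (
  let v191 := mul v190 v7; ok v191 && (
  let v192 := scale ⟨137438953472, 0, 0, 0⟩ v191; ok v192 && (
  let v193 := add v189 v192; ok v193 && (
  let v194 := mul v187 v193; ok v194 && (
  let v195 := mul v99 v104; ok v195 && (
  let v196 := cst ⟨45814382592, 0, 0, 0⟩; ok v196 && (
  let v197 := cst ⟨1526988800, 0, 0, 0⟩; ok v197 && (
  let v198 := scale ⟨27279360, 0, 0, 0⟩ v75; ok v198 && (
  let v199 := sub v197 v198; ok v199 && (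
  let v200 := mul v75 v199; ok v200 && (
  let v201 := sub v196 v200; ok v201 && (
  let v202 := mul v75 v201; ok v202 && (
  let v203 := sub v1 v202; ok v203 && (
  let v204 := mul v75 v203; ok v204 && (
  let v205 := sub v0 v204; ok v205 && (
  let v206 := mul v75 v76; ok v206 && (
  let v207 := mul v206 v206; ok v207 && (
  let v208 := scale ⟨369367187456, 0, 0, 0⟩ v207; ok v208 && (
  let v209 := add v205 v208; ok v209 && (
  let v210 := mul v48 v209; ok v210 && (
  let v211 := scale ⟨2199023255552, 0, 0, 0⟩ v210; ok v211 && (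
  let v212 := add v80 v211; ok v212 && (
  let v213 := cst ⟨8589934592, 0, 0, 0⟩; ok v213 && (
  let v214 := add v212 v213; ok v214 && (
  let v215 := log v214; ok v215 && (
  let v216 := scale ⟨549755813888, 0, 0, 0⟩ v215; ok v216 && (
  let v217 := exp v216; ok v217 && (
  let v218 := mul v48 v99; ok v218 && (
  let v219 := add v217 v218; ok v219 && (
  let v220 := mul v219 v167; ok v220 && (
  let v221 := mul v106 v170; ok v221 && (
  let v222 := add v220 v221; ok v222 && (
  let v223 := mul v165 v222; ok v223 && (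
  let v224 := add v195 v223; ok v224 && (
  let v225 := mul v224 v76; ok v225 && (
  let v226 := mul v219 v165; ok v226 && (
  let v227 := mul v226 v167; ok v227 && (
  let v228 := add v195 v227; ok v228 && (
  let v229 := mul v228 v76; ok v229 && (
  let v230 := scale ⟨223338299392, 0, 0, 0⟩ v229; ok v230 && (
  let v231 := add v1 v230; ok v231 && (
  let v232 := mul v229 v231; ok v232 && (
  let v233 := add v0 v232; ok v233 && (
  let v234 := scale ⟨893353197568, 0, 0, 0⟩ v225; ok v234 && (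
  let v235 := add v0 v234; ok v235 && (
  let v236 := mul v225 v235; ok v236 && (
  let v237 := add v0 v236; ok v237 && (
  let v238 := mul v144 v147; ok v238 && (
  let v239 := mul v238 v177; ok v239 && (
  let v240 := mul v239 v237; ok v240 && (
  let v241 := mul v194 v233; ok v241 && (
  let v242 := add v44 v1; ok v242 && (
  let v243 := mul v240 v242; ok v243 && (
  let v244 := add v241 v243; ok v244 && (
  let v245 := add v44 v0; ok v245 && (
  let v246 := mul v240 v245; ok v246 && (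
  let v247 := mul v178 v245; ok v247 && (
  let v248 := mul v247 v147; ok v248 && (
  let v249 := mul v248 v146; ok v249 && (
  let v250 := mul v2 v149; ok v250 && (
  let v251 := inv v44; ok v251 && (
  let v252 := mul v250 v251; ok v252 && (
  let v253 := scale ⟨549755813888, 0, 0, 0⟩ v252; ok v253 && (
  let v254 := mul v61 v172; ok v254 && (
  let v255 := mul v254 v98; ok v255 && (
  let v256 := mul v255 v104; ok v256 && (
  let v257 := mul v16 v253; ok v257 && (
  let v258 := mul v244 v256; ok v258 && (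
  let v259 := mul v249 v175; ok v259 && (
  let v260 := add v258 v259; ok v260 && (
  let v261 := mul v260 v76; ok v261 && (
  let v262 := add v257 v261; ok v262 && (
  let v263 := mul v244 v219; ok v263 && (
  let v264 := mul v263 v167; ok v264 && (
  let v265 := mul v246 v106; ok v265 && (
  let v266 := mul v265 v170; ok v266 && (
  let v267 := add v264 v266; ok v267 && (
  let v268 := mul v267 v76; ok v268 && (
  let v269 := mul v16 v262; ok v269 && (
  let v270 := mul v164 v268; ok v270 && (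
  let v271 := add v269 v270; ok v271 && (
  let v272 := mul v67 v271; ok v272 && (
  let v273 := mul v272 v251; ok v273 && (
  let v274 := sub v0 v273; ok v274 && (
  let v275 := inv v274; ok v275 && (
  let v276 := mul v271 v275; ok v276 && (
  let v277 := mul x1 v276; ok v277 && (
  let v278 := mul v67 v276; ok v278 && (
  let v279 := mul v278 v251; ok v279 && (
  let v280 := sub v0 v279; ok v280 && (
  let v281 := mul v41 v280; ok v281 && (
  let v282 := sub v281 v277; ok v282 && (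
  let v283 := inv v282; ok v283 && (
  let v284 := mul v277 v283; ok v284 && (
  let v285 := sub v44 v278; ok v285 && (
  let v286 := inv v285; ok v286 && (
  let v287 := mul v284 v139; ok v287 && (
  let v288 := mul x0 v286; ok v288 && (
  let v289 := mul v139 v283; ok v289 && (
  let v290 := inv v30; ok v290 && (
  let v291 := mul v289 v290; ok v291 && (
  let v292 := scale ⟨549755813888, 0, 0, 0⟩ v287; ok v292 && (
  let v293 := sub v0 v292; ok v293 && (
  let v294 := sub v0 v287; ok v294 && (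
  let v295 := inv v294; ok v295 && (
  let v296 := mul v293 v295; ok v296 && (
  let v297 := mul v291 v296; ok v297 && (
  let v298 := add v288 v297; ok v298 && (
  let v299 := mul v298 v278; ok v299 && (
  let v300 := scale ⟨223338299392, 0, 0, 0⟩ v299; ok v300 && (
  let v301 := add v1 v300; ok v301 && (
  let v302 := mul v299 v301; ok v302 && (
  let v303 := add v0 v302; ok v303 && (
  let v304 := mul v298 v303; ok v304 && (
  let v305 := mul v304 v275; ok v305 && (
  let v306 := mul v305 v76; ok v306 && (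
  let v307 := mul v306 x2; ok v307 && (
  let v308 := mul v307 v267; ok v308 && (
  let v309 := mul v306 v159; ok v309 && (
  let v310 := mul v309 x2; ok v310 && (
  let v311 := inv v17; ok v311 && (
  let v312 := mul v310 v311; ok v312 && (
  let v313 := mul x0 v16; ok v313 && (
  let v314 := mul v313 v253; ok v314 && (
  let v315 := add v314 v258; ok v315 && (
  let v316 := add v315 v259; ok v316 && (
  let v317 := mul v312 v316; ok v317 && (
  let v318 := mul v155 v2; ok v318 && (
  let v319 := mul v318 v17; ok v319 && (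
  let v320 := mul v319 v16; ok v320 && (
  let v321 := cst ⟨3298534883328, 0, 0, 0⟩; ok v321 && (
  let v322 := cst ⟨5497558138880, 0, 0, 0⟩; ok v322 && (
  let v323 := inv v322; ok v323 && (
  let v324 := mul v321 v323; ok v324 && (
  let v325 := add v140 v0; ok v325 && (
  let v326 := mul v140 v325; ok v326 && (
  let v327 := add v55 v326; ok v327 && (
  let v328 := mul v284 v327; ok v328 && (
  let v329 := mul v57 v325; ok v329 && (
  let v330 := scale ⟨687194767360, 0, 0, 0⟩ v328; ok v330 && (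
  let v331 := add v0 v330; ok v331 && (
  let v332 := mul v328 v331; ok v332 && (
  let v333 := add v0 v332; ok v333 && (
  let v334 := mul v329 v333; ok v334 && (
  let v335 := add v10 x1; ok v335 && (
  let v336 := mul v141 v335; ok v336 && (
  let v337 := mul v336 v324; ok v337 && (
  let v338 := add v0 v337; ok v338 && (
  let v339 := inv v338; ok v339 && (
  let v340 := mul v334 v339; ok v340 && (
  let v341 := mul v340 v13; ok v341 && (
  let v342 := mul v2 v276; ok v342 && (
  let v343 := mul v342 v311; ok v343 && (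
  let v344 := add v0 v343; ok v344 && (
  let v345 := mul v341 v344; ok v345 && (
  let v346 := mul v345 v286; ok v346 && (
  let v347 := mul x1 v308; ok v347 && (
  let v348 := mul v347 v165; ok v348 && (
  let v349 := mul x1 v320; ok v349 && (
  let v350 := mul v317 v349; ok v350 && (
  let v351 := add v348 v350; ok v351 && (
  let v352 := add v347 v317; ok v352 && (
  let v353 := add v0 v351; ok v353 && (
  let v354 := mul v346 v353; ok v354 && (
  let v355 := add v352 v354; ok v355 && (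
  let v356 := sub v0 v355; ok v356 && (
  let v357 := scale ⟨1073741824, 0, 0, 0⟩ x1; ok v357 && (
  let v358 := sub v356 v357; ok v358 && (
  let v359 := sub v13 v0; ok v359 && (
  let v360 := add v359 v157; ok v360 && (
  let v361 := scale ⟨2199023255552, 0, 0, 0⟩ v324; ok v361 && (
  let v362 := sub v360 v361; ok v362 && (
  let v363 := mul v141 v362; ok v363 && (
  let v364 := mul v359 v361; ok v364 && (
  let v365 := add v364 v0; ok v365 && (
  let v366 := inv v365; ok v366 && (
  let v367 := mul v363 v366; ok v367 && (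
  let v368 := mul v155 v268; ok v368 && (
  let v369 := scale ⟨549755813888, 0, 0, 0⟩ v162; ok v369 && (
  let v370 := add v10 v369; ok v370 && (
  let v371 := mul v368 v370; ok v371 && (
  let v372 := scale ⟨2199023255552, 0, 0, 0⟩ v371; ok v372 && (
  let v373 := add v262 v372; ok v373 && (
  let v374 := scale ⟨2199023255552, 0, 0, 0⟩ v373; ok v374 && (
  let v375 := mul v374 v275; ok v375 && (
  let v376 := sub v17 v342; ok v376 && (
  let v377 := inv v376; ok v377 && (
  let v378 := mul v375 v377; ok v378 && (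
  let v379 := sub v367 v378; ok v379 && (
  isPos 4 v166 && (
  isPos 4 v169 && (
  let v380 := scale ⟨2199023255552, 0, 0, 0⟩ v272; ok v380 && (
  let v381 := sub v44 v380; ok v381 && (
  isPos 4 v381 && (
  isPos 4 v282 && (
  isPos 4 v102 && (
  let v382 := sub v1 v140; ok v382 && (
  isPos 4 v382 && (
  let v383 := scale ⟨687194767360, 0, 0, 0⟩ v0; ok v383 && (
  let v384 := sub v383 v229; ok v384 && (
  isPos 4 v384 && (
  let v385 := scale ⟨377957122048, 0, 0, 0⟩ v0; ok v385 && (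
  let v386 := sub v385 v225; ok v386 && (
  isPos 4 v386 && (
  isPos 4 v376 && (
  let v387 := sub v1 v328; ok v387 && (
  isPos 4 v387 && (
  isPos 4 v294 && (
  let v388 := sub v383 v299; ok v388 && (
  isPos 4 v388 && (
  let v389 := mul v150 v150; ok v389 && (
  let v390 := cst ⟨14293651161088, 0, 0, 0⟩; ok v390 && (
  let v391 := cst ⟨10995116277760, 0, 0, 0⟩; ok v391 && (
  let v392 := inv v391; ok v392 && (
  let v393 := mul v390 v392; ok v393 && (
  let v394 := mul v389 v393; ok v394 && (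
  let v395 := cst ⟨27487790694400, 0, 0, 0⟩; ok v395 && (
  let v396 := add v394 v395; ok v396 && (
  let v397 := mul v141 v17; ok v397 && (
  let v398 := mul v397 v324; ok v398 && (
  let v399 := mul x1 v398; ok v399 && (
  let v400 := add v0 v399; ok v400 && (
  let v401 := inv v400; ok v401 && (
  let v402 := mul v398 v401; ok v402 && (
  let v403 := sub v32 x1; ok v403 && (
  let v404 := sub v403 v31; ok v404 && (
  let v405 := scale ⟨2199023255552, 0, 0, 0⟩ v2; ok v405 && (
  let v406 := add v405 v278; ok v406 && (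
  let v407 := mul x0 v406; ok v407 && (
  let v408 := mul v396 v402; ok v408 && (
  let v409 := mul v275 v407; ok v409 && (
  let v410 := mul v76 v260; ok v410 && (
  let v411 := mul v5 v410; ok v411 && (
  let v412 := mul v17 v155; ok v412 && (
  let v413 := mul v412 v268; ok v413 && (
  let v414 := mul v30 v413; ok v414 && (
  let v415 := add v411 v414; ok v415 && (
  let v416 := mul x0 v415; ok v416 && (
  let v417 := mul v409 v416; ok v417 && (
  let v418 := sub v408 v417; ok v418 && (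
  let v419 := scale ⟨549755813888, 0, 0, 0⟩ v342; ok v419 && (
  let v420 := add v0 v419; ok v420 && (
  let v421 := mul v275 v420; ok v421 && (
  let v422 := mul x1 v16; ok v422 && (
  let v423 := mul v422 v149; ok v423 && (
  let v424 := mul v17 v44; ok v424 && (
  let v425 := inv v424; ok v425 && (
  let v426 := mul v423 v425; ok v426 && (
  let v427 := mul v421 v426; ok v427 && (
  let v428 := sub v404 v427; ok v428 && (
  let v429 := mul v162 v418; ok v429 && (
  let v430 := sub v0 v162; ok v430 && (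
  let v431 := mul v5 v428; ok v431 && (
  let v432 := mul v430 v431; ok v432 && (
  let v433 := mul v396 v432; ok v433 && (
  let v434 := add v429 v433; ok v434 && (
  isPos 4 v379 && (
  isPos 4 v358 && (
  isPos 4 v434 && (
  isPos 4 v428 && (
  true)))))))))))))))))))))))))))))))))))))))))))))))))))))))))))))))))))))))))))))))))))))))))))))))))))))))))))))))))))))))))))))))))))))))))))))))))))))))))))))))))))))))))))))))))))))))))))))))))))))))))))))))))))))))))))))))))))))))))))))))))))))))))))))))))))))))))))))))))))))))))))))))))))))))))))))))))))))))))))))))))))))))))))))))))))))))))))))))))))))))))))))))))))))))))))))))))))))))))))))))))))))))))))))))))))))))))))))))))))))))))))))))))))))))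
  | _ => false

set_option maxRecDepth 1000000 in
theorem chk8_eq (O : Ops) (m : List O.α)
    (h : chk8 O.cst O.add O.sub O.mul O.scale O.neg O.inv O.exp O.log O.ok O.isPos O.isLt m = true) :
    runG O 4 prog8 m = true := by
  match m, h with
  | [x0, x1, x2, x3], h => exact h

def chkB8 : List opsE.α → Bool :=
  chk8 opsE.cst opsE.add opsE.sub opsE.mul opsE.scale opsE.neg opsE.inv opsE.exp opsE.log opsE.ok opsE.isPos opsE.isLt

theorem chkB8_eq (m : List opsE.α) (h : chkB8 m = true) : runG opsE 4 prog8 m = true :=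
  chk8_eq opsE m h

def prog9 : List Op := [
  .const ⟨1099511627776, 0, 0, 0⟩,
  .const ⟨549755813888, 0, 0, 0⟩,
  .mul 3 4,
  .mul 0 6,
  .scale ⟨549755813888, 0, 0, 0⟩ 0,
  .mul 7 7,
  .mul 1 1,
  .sub 6 0,
  .inv 0,
  .mul 4 0,
  .scale ⟨2199023255552, 0, 0, 0⟩ 0,
  .scale ⟨2199023255552, 0, 0, 0⟩ 2,
  .sub 0 11,
  .add 0 2,
  .mul 17 5,
  .mul 17 0,
  .sub 15 0,
  .add 16 1,
  .scale ⟨10774999203840, 0, 0, 0⟩ 13,
  .scale ⟨45768245248, 0, 0, 0⟩ 0,
  .const ⟨183207198720, 0, 0, 0⟩,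
  .add 1 0,
  .mul 3 0,
  .add 21 0,
  .mul 5 0,
  .add 24 0,
  .mul 7 0,
  .scale ⟨549755813888, 0, 0, 0⟩ 0,
  .add 27 0,
  .mul 3 0,
  .mul 31 24,
  .mul 20 15,
  .scale ⟨2199023255552, 0, 0, 0⟩ 19,
  .add 1 0,
  .add 0 35,
  .mul 4 0,
  .add 0 35,
  .mul 26 26,
  .scale ⟨2199023255552, 0, 0, 0⟩ 0,
  .add 0 38,
  .mul 27 5,
  .sub 0 40,
  .log 5,
  .scale ⟨549755813888, 0, 0, 0⟩ 0,
  .exp 0,
  .scale ⟨549755813888, 0, 0, 0⟩ 45,
  .mul 0 3,
  .neg 0,
  .exp 0,
  .mul 36 18,
  .mul 0 8,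
  .scale ⟨4398046511104, 0, 0, 0⟩ 0,
  .add 0 51,
  .log 0,
  .sub 0 11,
  .mul 9 0,
  .neg 0,
  .exp 0,
  .mul 42 47,
  .add 46 0,
  .inv 0,
  .mul 43 0,
  .mul 45 63,
  .mul 0 1,
  .mul 49 49,
  .sub 64 59,
  .mul 1 0,
  .mul 64 64,
  .add 55 37,
  .inv 0,
  .mul 0 70,
  .mul 0 68,
  .mul 0 0,
  .sub 72 8,
  .mul 8 0,
  .mul 2 0,
  .inv 76,
  .mul 13 76,
  .scale ⟨549755813888, 0, 0, 0⟩ 0,
  .sub 78 0,
  .sub 79 2,
  .inv 0,
  .mul 2 0,
  .add 5 82,
  .mul 35 0,
  .mul 68 67,
  .add 73 87,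
  .mul 71 74,
  .mul 0 77,
  .scale ⟨2199023255552, 0, 0, 0⟩ 0,
  .add 50 0,
  .mul 4 0,
  .inv 0,
  .mul 7 0,
  .mul 95 0,
  .inv 58,
  .mul 20 0,
  .mul 2 96,
  .add 93 97,
  .inv 0,
  .mul 95 0,
  .scale ⟨2199023255552, 0, 0, 0⟩ 0,
  .sub 101 0,
  .sub 102 98,
  .mul 107 4,
  .mul 0 2,
  .add 88 0,
  .mul 107 96,
  .scale ⟨137438953472, 0, 0, 0⟩ 0,
  .add 0 107,
  .inv 0,
  .mul 111 0,
  .scale ⟨274877906944, 0, 0, 0⟩ 0,
  .scale ⟨549755813888, 0, 0, 0⟩ 5,
  .const ⟨2199023255552, 0, 0, 0⟩,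
  .add 1 0,
  .mul 0 39,
  .scale ⟨224412041216, 0, 0, 0⟩ 108,
  .inv 88,
  .mul 1 0,
  .mul 7 102,
  .mul 0 1,
  .mul 119 0,
  .sub 122 0,
  .inv 0,
  .mul 40 2,
  .sub 125 0,
  .inv 0,
  .scale ⟨3573412790272, 0, 0, 0⟩ 113,
  .inv 131,
  .scale ⟨339302416384, 0, 0, 0⟩ 0,
  .add 2 0,
  .scale ⟨549755813888, 0, 0, 0⟩ 0,
  .scale ⟨2199023255552, 0, 0, 0⟩ 56,
  .add 0 133,
  .add 58 134,
  .mul 131 121,
  .sub 136 70,
  .mul 133 122,
  .scale ⟨2199023255552, 0, 0, 0⟩ 0,
  .sub 2 0,
  .mul 4 4,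
  .add 1 0,
  .add 0 142,
  .scale ⟨549755813888, 0, 0, 0⟩ 0,
  .scale ⟨549755813888, 0, 0, 0⟩ 114,
  .sub 137 0,
  .mul 79 9,
  .mul 0 140,
  .scale ⟨137438953472, 0, 0, 0⟩ 0,
  .add 3 0,
  .mul 6 0,
  .mul 74 69,
  .const ⟨45814382592, 0, 0, 0⟩,
  .const ⟨1526988800, 0, 0, 0⟩,
  .scale ⟨27279360, 0, 0, 0⟩ 79,
  .sub 1 0,
  .mul 81 0,
  .sub 4 0,
  .mul 83 0,
  .sub 158 0,
  .mul 85 0,
  .sub 161 0,
  .mul 87 86,
  .mul 115 115,
  .add 0 164,
  .mul 2 2,
  .scale ⟨369367187456, 0, 0, 0⟩ 0,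
  .add 5 0,
  .mul 120 0,
  .scale ⟨2199023255552, 0, 0, 0⟩ 0,
  .add 5 0,
  .const ⟨8589934592, 0, 0, 0⟩,
  .add 1 0,
  .log 0,
  .scale ⟨549755813888, 0, 0, 0⟩ 0,
  .exp 0,
  .mul 128 99,
  .add 1 0,
  .mul 0 54,
  .mul 95 52,
  .add 1 0,
  .mul 59 0,
  .add 30 0,
  .mul 0 107,
  .mul 6 62,
  .mul 0 61,
  .add 34 0,
  .mul 0 111,
  .scale ⟨223338299392, 0, 0, 0⟩ 0,
  .add 188 0,
  .mul 2 0,
  .add 191 0,
  .scale ⟨893353197568, 0, 0, 0⟩ 8,
  .add 193 0,
  .mul 10 0,
  .add 195 0,
  .mul 95 92,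
  .mul 0 63,
  .mul 0 2,
  .mul 48 7,
  .add 156 199,
  .mul 2 0,
  .add 2 0,
  .add 159 203,
  .mul 5 0,
  .mul 70 1,
  .mul 0 102,
  .mul 0 104,
  .mul 206 102,
  .inv 165,
  .mul 1 0,
  .scale ⟨549755813888, 0, 0, 0⟩ 0,
  .mul 151 83,
  .mul 0 213,
  .mul 0 132,
  .mul 199 3,
  .mul 13 1,
  .mul 9 85,
  .add 1 0,
  .mul 0 143,
  .add 4 0,
  .mul 18 43,
  .mul 0 98,
  .mul 18 139,
  .mul 0 97,
  .add 2 0,
  .mul 0 150,
  .mul 211 6,
  .mul 107 1,
  .add 1 0,
  .mul 163 0,
  .mul 0 21,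
  .sub 232 0,
  .inv 0,
  .mul 4 0,
  .mul 237 0,
  .mul 169 1,
  .mul 0 27,
  .sub 238 0,
  .mul 198 0,
  .sub 0 4,
  .inv 0,
  .mul 6 0,
  .sub 199 6,
  .inv 0,
  .mul 2 245,
  .mul 247 1,
  .mul 247 5,
  .inv 218,
  .mul 1 0,
  .scale ⟨549755813888, 0, 0, 0⟩ 4,
  .sub 251 0,
  .sub 252 6,
  .inv 0,
  .mul 2 0,
  .mul 5 0,
  .add 9 0,
  .mul 0 20,
  .scale ⟨223338299392, 0, 0, 0⟩ 0,
  .add 258 0,
  .mul 2 0,
  .add 261 0,
  .mul 5 0,
  .mul 0 29,
  .mul 0 188,
  .mul 0 268,
  .mul 0 40,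
  .mul 2 151,
  .mul 0 271,
  .inv 252,
  .mul 1 0,
  .mul 272 255,
  .mul 0 60,
  .add 0 56,
  .add 0 56,
  .mul 4 0,
  .mul 164 274,
  .mul 0 260,
  .mul 0 262,
  .const ⟨3298534883328, 0, 0, 0⟩,
  .const ⟨5497558138880, 0, 0, 0⟩,
  .inv 0,
  .mul 2 0,
  .add 186 283,
  .mul 187 0,
  .add 230 0,
  .mul 43 0,
  .mul 230 3,
  .scale ⟨687194767360, 0, 0, 0⟩ 1,
  .add 289 0,
  .mul 3 0,
  .add 291 0,
  .mul 4 0,
  .add 283 295,
  .mul 196 0,
  .mul 0 12,
  .add 296 0,
  .inv 0,
  .mul 5 0,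
  .mul 0 286,
  .mul 298 65,
  .mul 0 31,
  .add 302 0,
  .mul 3 0,
  .mul 0 59,
  .mul 307 38,
  .mul 0 184,
  .mul 309 28,
  .mul 32 0,
  .add 2 0,
  .add 4 34,
  .add 311 1,
  .mul 7 0,
  .add 2 0,
  .sub 314 0,
  .scale ⟨1073741824, 0, 0, 0⟩ 317,
  .sub 1 0,
  .sub 304 317,
  .add 0 204,
  .scale ⟨2199023255552, 0, 0, 0⟩ 36,
  .sub 1 0,
  .mul 223 0,
  .mul 4 2,
  .add 0 323,
  .inv 0,
  .mul 3 0,
  .mul 214 99,
  .scale ⟨549755813888, 0, 0, 0⟩ 208,
  .add 318 0,
  .mul 2 0,
  .scale ⟨2199023255552, 0, 0, 0⟩ 0,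
  .add 110 0,
  .scale ⟨2199023255552, 0, 0, 0⟩ 0,
  .mul 0 99,
  .sub 317 33,
  .inv 0,
  .mul 2 0,
  .sub 11 0,
  .pos 215,
  .pos 212,
  .scale ⟨2199023255552, 0, 0, 0⟩ 107,
  .sub 295 0,
  .pos 0,
  .pos 99,
  .pos 260,
  .sub 339 243,
  .pos 0,
  .scale ⟨687194767360, 0, 0, 0⟩ 341,
  .sub 0 154,
  .pos 0,
  .scale ⟨377957122048, 0, 0, 0⟩ 343,
  .sub 0 160,
  .pos 0,
  .pos 10,
  .sub 344 58,
  .pos 0,
  .pos 93,
  .sub 4 88,
  .pos 0,
  .mul 240 240,
  .const ⟨14293651161088, 0, 0, 0⟩,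
  .const ⟨10995116277760, 0, 0, 0⟩,
  .inv 0,
  .mul 2 0,
  .mul 4 0,
  .const ⟨27487790694400, 0, 0, 0⟩,
  .add 1 0,
  .mul 257 338,
  .mul 0 73,
  .mul 359 0,
  .add 358 0,
  .inv 0,
  .mul 3 0,
  .sub 329 363,
  .sub 0 331,
  .scale ⟨2199023255552, 0, 0, 0⟩ 361,
  .add 0 127,
  .mul 366 0,
  .mul 11 5,
  .mul 133 1,
  .mul 292 149,
  .mul 364 0,
  .mul 353 258,
  .mul 0 144,
  .mul 342 0,
  .add 3 0,
  .mul 375 0,
  .mul 7 0,
  .sub 9 0,
  .scale ⟨549755813888, 0, 0, 0⟩ 76,
  .add 378 0,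
  .mul 145 0,
  .mul 382 364,
  .mul 0 275,
  .mul 365 338,
  .inv 0,
  .mul 2 0,
  .mul 5 0,
  .sub 23 0,
  .mul 268 10,
  .sub 388 269,
  .mul 384 2,
  .mul 1 0,
  .mul 36 0,
  .add 4 0,
  .pos 55,
  .pos 76,
  .pos 0,
  .pos 6]

def chk9 {α : Type} (cst : Z → α) (add sub mul : α → α → α) (scale : Z → α → α)
    (neg inv exp log : α → α) (ok : α → Bool) (isPos : Nat → α → Bool) (isLt : α → Nat → Bool) :
    List α → Bool
  | [x0, x1, x2, x3] =>
  let v0 := cst ⟨1099511627776, 0, 0, 0⟩; ok v0 && (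
  let v1 := cst ⟨549755813888, 0, 0, 0⟩; ok v1 && (
  let v2 := mul x1 x2; ok v2 && (
  let v3 := mul v2 x3; ok v3 && (
  let v4 := scale ⟨549755813888, 0, 0, 0⟩ v3; ok v4 && (
  let v5 := mul x2 x2; ok v5 && (
  let v6 := mul v4 v4; ok v6 && (
  let v7 := sub v0 v6; ok v7 && (
  let v8 := inv v7; ok v8 && (
  let v9 := mul v4 v8; ok v9 && (
  let v10 := scale ⟨2199023255552, 0, 0, 0⟩ v9; ok v10 && (
  let v11 := scale ⟨2199023255552, 0, 0, 0⟩ v8; ok v11 && (
  let v12 := sub v11 v0; ok v12 && (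
  let v13 := add v12 v10; ok v13 && (
  let v14 := mul x3 v8; ok v14 && (
  let v15 := mul x2 v14; ok v15 && (
  let v16 := sub v0 v15; ok v16 && (
  let v17 := add v0 v15; ok v17 && (
  let v18 := scale ⟨10774999203840, 0, 0, 0⟩ v4; ok v18 && (
  let v19 := scale ⟨45768245248, 0, 0, 0⟩ v18; ok v19 && (
  let v20 := cst ⟨183207198720, 0, 0, 0⟩; ok v20 && (
  let v21 := add v19 v20; ok v21 && (
  let v22 := mul v18 v21; ok v22 && (
  let v23 := add v1 v22; ok v23 && (
  let v24 := mul v18 v23; ok v24 && (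
  let v25 := add v0 v24; ok v25 && (
  let v26 := mul v18 v25; ok v26 && (
  let v27 := scale ⟨549755813888, 0, 0, 0⟩ v26; ok v27 && (
  let v28 := add v0 v27; ok v28 && (
  let v29 := mul v25 v28; ok v29 && (
  let v30 := mul x1 v5; ok v30 && (
  let v31 := mul v10 v15; ok v31 && (
  let v32 := scale ⟨2199023255552, 0, 0, 0⟩ v12; ok v32 && (
  let v33 := add v31 v32; ok v33 && (
  let v34 := add v33 x1; ok v34 && (
  let v35 := mul v30 v34; ok v35 && (
  let v36 := add v35 v0; ok v36 && (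
  let v37 := mul v10 v10; ok v37 && (
  let v38 := scale ⟨2199023255552, 0, 0, 0⟩ v37; ok v38 && (
  let v39 := add v38 v0; ok v39 && (
  let v40 := mul v12 v34; ok v40 && (
  let v41 := sub v40 v0; ok v41 && (
  let v42 := log v36; ok v42 && (
  let v43 := scale ⟨549755813888, 0, 0, 0⟩ v42; ok v43 && (
  let v44 := exp v43; ok v44 && (
  let v45 := scale ⟨549755813888, 0, 0, 0⟩ x0; ok v45 && (
  let v46 := mul v45 v42; ok v46 && (
  let v47 := neg v46; ok v47 && (
  let v48 := exp v47; ok v48 && (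
  let v49 := mul v12 v30; ok v49 && (
  let v50 := mul v49 v41; ok v50 && (
  let v51 := scale ⟨4398046511104, 0, 0, 0⟩ v50; ok v51 && (
  let v52 := add v51 v0; ok v52 && (
  let v53 := log v52; ok v53 && (
  let v54 := sub v53 v42; ok v54 && (
  let v55 := mul v45 v54; ok v55 && (
  let v56 := neg v55; ok v56 && (
  let v57 := exp v56; ok v57 && (
  let v58 := mul v15 v10; ok v58 && (
  let v59 := add v12 v58; ok v59 && (
  let v60 := inv v59; ok v60 && (
  let v61 := mul v17 v60; ok v61 && (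
  let v62 := mul v16 x1; ok v62 && (
  let v63 := mul v62 v61; ok v63 && (
  let v64 := mul v14 v14; ok v64 && (
  let v65 := sub v0 v5; ok v65 && (
  let v66 := mul v64 v65; ok v66 && (
  let v67 := mul v2 v2; ok v67 && (
  let v68 := add v12 v30; ok v68 && (
  let v69 := inv v68; ok v69 && (
  let v70 := mul v69 x0; ok v70 && (
  let v71 := mul v70 v2; ok v71 && (
  let v72 := mul v71 v71; ok v72 && (
  let v73 := sub v0 v64; ok v73 && (
  let v74 := mul v65 v73; ok v74 && (
  let v75 := mul v72 v74; ok v75 && (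
  let v76 := inv x0; ok v76 && (
  let v77 := mul v63 v0; ok v77 && (
  let v78 := scale ⟨549755813888, 0, 0, 0⟩ v77; ok v78 && (
  let v79 := sub v0 v78; ok v79 && (
  let v80 := sub v0 v77; ok v80 && (
  let v81 := inv v80; ok v81 && (
  let v82 := mul v79 v81; ok v82 && (
  let v83 := add v77 v0; ok v83 && (
  let v84 := mul v48 v83; ok v84 && (
  let v85 := mul v16 v17; ok v85 && (
  let v86 := add v12 x1; ok v86 && (
  let v87 := mul v15 v12; ok v87 && (
  let v88 := mul v87 v10; ok v88 && (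
  let v89 := scale ⟨2199023255552, 0, 0, 0⟩ v88; ok v89 && (
  let v90 := add v39 v89; ok v90 && (
  let v91 := mul v86 v90; ok v91 && (
  let v92 := inv v91; ok v92 && (
  let v93 := mul v85 v92; ok v93 && (
  let v94 := mul x1 v93; ok v94 && (
  let v95 := inv v36; ok v95 && (
  let v96 := mul v75 v95; ok v96 && (
  let v97 := mul v94 v0; ok v97 && (
  let v98 := add v4 v0; ok v98 && (
  let v99 := inv v98; ok v99 && (
  let v100 := mul v4 v99; ok v100 && (
  let v101 := scale ⟨2199023255552, 0, 0, 0⟩ v100; ok v101 && (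
  let v102 := sub v0 v101; ok v102 && (
  let v103 := sub v0 v4; ok v103 && (
  let v104 := mul x3 v99; ok v104 && (
  let v105 := mul v104 v102; ok v105 && (
  let v106 := add v17 v105; ok v106 && (
  let v107 := mul x0 v10; ok v107 && (
  let v108 := scale ⟨137438953472, 0, 0, 0⟩ v107; ok v108 && (
  let v109 := add v108 v1; ok v109 && (
  let v110 := inv v109; ok v110 && (
  let v111 := mul x0 v110; ok v111 && (
  let v112 := scale ⟨274877906944, 0, 0, 0⟩ v111; ok v112 && (
  let v113 := scale ⟨549755813888, 0, 0, 0⟩ v107; ok v113 && (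
  let v114 := cst ⟨2199023255552, 0, 0, 0⟩; ok v114 && (
  let v115 := add v113 v114; ok v115 && (
  let v116 := mul v115 v76; ok v116 && (
  let v117 := scale ⟨224412041216, 0, 0, 0⟩ v8; ok v117 && (
  let v118 := inv v29; ok v118 && (
  let v119 := mul v117 v118; ok v119 && (
  let v120 := mul v112 v17; ok v120 && (
  let v121 := mul v120 v119; ok v121 && (
  let v122 := mul v2 v121; ok v122 && (
  let v123 := sub v0 v122; ok v123 && (
  let v124 := inv v123; ok v124 && (
  let v125 := mul v84 v122; ok v125 && (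
  let v126 := sub v0 v125; ok v126 && (
  let v127 := inv v126; ok v127 && (
  let v128 := scale ⟨3573412790272, 0, 0, 0⟩ v14; ok v128 && (
  let v129 := inv x2; ok v129 && (
  let v130 := scale ⟨339302416384, 0, 0, 0⟩ v129; ok v130 && (
  let v131 := add v128 v130; ok v131 && (
  let v132 := scale ⟨549755813888, 0, 0, 0⟩ v131; ok v132 && (
  let v133 := scale ⟨2199023255552, 0, 0, 0⟩ v76; ok v133 && (
  let v134 := add v133 v0; ok v134 && (
  let v135 := add v76 v0; ok v135 && (
  let v136 := mul v4 v14; ok v136 && (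
  let v137 := sub v0 v66; ok v137 && (
  let v138 := mul v4 v15; ok v138 && (
  let v139 := scale ⟨2199023255552, 0, 0, 0⟩ v138; ok v139 && (
  let v140 := sub v137 v139; ok v140 && (
  let v141 := mul v136 v136; ok v141 && (
  let v142 := add v140 v141; ok v142 && (
  let v143 := add v142 v0; ok v143 && (
  let v144 := scale ⟨549755813888, 0, 0, 0⟩ v143; ok v144 && (
  let v145 := scale ⟨549755813888, 0, 0, 0⟩ v30; ok v145 && (
  let v146 := sub v8 v145; ok v146 && (
  let v147 := mul v67 v137; ok v147 && (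
  let v148 := mul v147 v7; ok v148 && (
  let v149 := scale ⟨137438953472, 0, 0, 0⟩ v148; ok v149 && (
  let v150 := add v146 v149; ok v150 && (
  let v151 := mul v144 v150; ok v151 && (
  let v152 := mul v77 v82; ok v152 && (
  let v153 := cst ⟨45814382592, 0, 0, 0⟩; ok v153 && (
  let v154 := cst ⟨1526988800, 0, 0, 0⟩; ok v154 && (
  let v155 := scale ⟨27279360, 0, 0, 0⟩ v75; ok v155 && (
  let v156 := sub v154 v155; ok v156 && (
  let v157 := mul v75 v156; ok v157 && (
  let v158 := sub v153 v157; ok v158 && (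
  let v159 := mul v75 v158; ok v159 && (
  let v160 := sub v1 v159; ok v160 && (
  let v161 := mul v75 v160; ok v161 && (
  let v162 := sub v0 v161; ok v162 && (
  let v163 := mul v75 v76; ok v163 && (
  let v164 := mul v48 v48; ok v164 && (
  let v165 := add v164 v0; ok v165 && (
  let v166 := mul v163 v163; ok v166 && (
  let v167 := scale ⟨369367187456, 0, 0, 0⟩ v166; ok v167 && (
  let v168 := add v162 v167; ok v168 && (
  let v169 := mul v48 v168; ok v169 && (
  let v170 := scale ⟨2199023255552, 0, 0, 0⟩ v169; ok v170 && (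
  let v171 := add v165 v170; ok v171 && (
  let v172 := cst ⟨8589934592, 0, 0, 0⟩; ok v172 && (
  let v173 := add v171 v172; ok v173 && (
  let v174 := log v173; ok v174 && (
  let v175 := scale ⟨549755813888, 0, 0, 0⟩ v174; ok v175 && (
  let v176 := exp v175; ok v176 && (
  let v177 := mul v48 v77; ok v177 && (
  let v178 := add v176 v177; ok v178 && (
  let v179 := mul v178 v124; ok v179 && (
  let v180 := mul v84 v127; ok v180 && (
  let v181 := add v179 v180; ok v181 && (
  let v182 := mul v122 v181; ok v182 && (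
  let v183 := add v152 v182; ok v183 && (
  let v184 := mul v183 v76; ok v184 && (
  let v185 := mul v178 v122; ok v185 && (
  let v186 := mul v185 v124; ok v186 && (
  let v187 := add v152 v186; ok v187 && (
  let v188 := mul v187 v76; ok v188 && (
  let v189 := scale ⟨223338299392, 0, 0, 0⟩ v188; ok v189 && (
  let v190 := add v1 v189; ok v190 && (
  let v191 := mul v188 v190; ok v191 && (
  let v192 := add v0 v191; ok v192 && (
  let v193 := scale ⟨893353197568, 0, 0, 0⟩ v184; ok v193 && (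
  let v194 := add v0 v193; ok v194 && (
  let v195 := mul v184 v194; ok v195 && (
  let v196 := add v0 v195; ok v196 && (
  let v197 := mul v101 v104; ok v197 && (
  let v198 := mul v197 v134; ok v198 && (
  let v199 := mul v198 v196; ok v199 && (
  let v200 := mul v151 v192; ok v200 && (
  let v201 := add v44 v1; ok v201 && (
  let v202 := mul v199 v201; ok v202 && (
  let v203 := add v200 v202; ok v203 && (
  let v204 := add v44 v0; ok v204 && (
  let v205 := mul v199 v204; ok v205 && (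
  let v206 := mul v135 v204; ok v206 && (
  let v207 := mul v206 v104; ok v207 && (
  let v208 := mul v207 v103; ok v208 && (
  let v209 := mul v2 v106; ok v209 && (
  let v210 := inv v44; ok v210 && (
  let v211 := mul v209 v210; ok v211 && (
  let v212 := scale ⟨549755813888, 0, 0, 0⟩ v211; ok v212 && (
  let v213 := mul v61 v129; ok v213 && (
  let v214 := mul v213 v0; ok v214 && (
  let v215 := mul v214 v82; ok v215 && (
  let v216 := mul v16 v212; ok v216 && (
  let v217 := mul v203 v215; ok v217 && (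
  let v218 := mul v208 v132; ok v218 && (
  let v219 := add v217 v218; ok v219 && (
  let v220 := mul v219 v76; ok v220 && (
  let v221 := add v216 v220; ok v221 && (
  let v222 := mul v203 v178; ok v222 && (
  let v223 := mul v222 v124; ok v223 && (
  let v224 := mul v205 v84; ok v224 && (
  let v225 := mul v224 v127; ok v225 && (
  let v226 := add v223 v225; ok v226 && (
  let v227 := mul v226 v76; ok v227 && (
  let v228 := mul v16 v221; ok v228 && (
  let v229 := mul v121 v227; ok v229 && (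
  let v230 := add v228 v229; ok v230 && (
  let v231 := mul v67 v230; ok v231 && (
  let v232 := mul v231 v210; ok v232 && (
  let v233 := sub v0 v232; ok v233 && (
  let v234 := inv v233; ok v234 && (
  let v235 := mul v230 v234; ok v235 && (
  let v236 := mul x1 v235; ok v236 && (
  let v237 := mul v67 v235; ok v237 && (
  let v238 := mul v237 v210; ok v238 && (
  let v239 := sub v0 v238; ok v239 && (
  let v240 := mul v41 v239; ok v240 && (
  let v241 := sub v240 v236; ok v241 && (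
  let v242 := inv v241; ok v242 && (
  let v243 := mul v236 v242; ok v243 && (
  let v244 := sub v44 v237; ok v244 && (
  let v245 := inv v244; ok v245 && (
  let v246 := mul v243 v0; ok v246 && (
  let v247 := mul x0 v245; ok v247 && (
  let v248 := mul v0 v242; ok v248 && (
  let v249 := inv v30; ok v249 && (
  let v250 := mul v248 v249; ok v250 && (
  let v251 := scale ⟨549755813888, 0, 0, 0⟩ v246; ok v251 && (
  let v252 := sub v0 v251; ok v252 && (
  let v253 := sub v0 v246; ok v253 && (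
  let v254 := inv v253; ok v254 && (
  let v255 := mul v252 v254; ok v255 && (
  let v256 := mul v250 v255; ok v256 && (
  let v257 := add v247 v256; ok v257 && (
  let v258 := mul v257 v237; ok v258 && (
  let v259 := scale ⟨223338299392, 0, 0, 0⟩ v258; ok v259 && (
  let v260 := add v1 v259; ok v260 && (
  let v261 := mul v258 v260; ok v261 && (
  let v262 := add v0 v261; ok v262 && (
  let v263 := mul v257 v262; ok v263 && (
  let v264 := mul v263 v234; ok v264 && (
  let v265 := mul v264 v76; ok v265 && (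
  let v266 := mul v265 x2; ok v266 && (
  let v267 := mul v266 v226; ok v267 && (
  let v268 := mul v265 v116; ok v268 && (
  let v269 := mul v268 x2; ok v269 && (
  let v270 := inv v17; ok v270 && (
  let v271 := mul v269 v270; ok v271 && (
  let v272 := mul x0 v16; ok v272 && (
  let v273 := mul v272 v212; ok v273 && (
  let v274 := add v273 v217; ok v274 && (
  let v275 := add v274 v218; ok v275 && (
  let v276 := mul v271 v275; ok v276 && (
  let v277 := mul v112 v2; ok v277 && (
  let v278 := mul v277 v17; ok v278 && (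
  let v279 := mul v278 v16; ok v279 && (
  let v280 := cst ⟨3298534883328, 0, 0, 0⟩; ok v280 && (
  let v281 := cst ⟨5497558138880, 0, 0, 0⟩; ok v281 && (
  let v282 := inv v281; ok v282 && (
  let v283 := mul v280 v282; ok v283 && (
  let v284 := add v97 v0; ok v284 && (
  let v285 := mul v97 v284; ok v285 && (
  let v286 := add v55 v285; ok v286 && (
  let v287 := mul v243 v286; ok v287 && (
  let v288 := mul v57 v284; ok v288 && (
  let v289 := scale ⟨687194767360, 0, 0, 0⟩ v287; ok v289 && (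
  let v290 := add v0 v289; ok v290 && (
  let v291 := mul v287 v290; ok v291 && (
  let v292 := add v0 v291; ok v292 && (
  let v293 := mul v288 v292; ok v293 && (
  let v294 := add v10 x1; ok v294 && (
  let v295 := mul v98 v294; ok v295 && (
  let v296 := mul v295 v283; ok v296 && (
  let v297 := add v0 v296; ok v297 && (
  let v298 := inv v297; ok v298 && (
  let v299 := mul v293 v298; ok v299 && (
  let v300 := mul v299 v13; ok v300 && (
  let v301 := mul v2 v235; ok v301 && (
  let v302 := mul v301 v270; ok v302 && (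
  let v303 := add v0 v302; ok v303 && (
  let v304 := mul v300 v303; ok v304 && (
  let v305 := mul v304 v245; ok v305 && (
  let v306 := mul x1 v267; ok v306 && (
  let v307 := mul v306 v122; ok v307 && (
  let v308 := mul x1 v279; ok v308 && (
  let v309 := mul v276 v308; ok v309 && (
  let v310 := add v307 v309; ok v310 && (
  let v311 := add v306 v276; ok v311 && (
  let v312 := add v0 v310; ok v312 && (
  let v313 := mul v305 v312; ok v313 && (
  let v314 := add v311 v313; ok v314 && (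
  let v315 := sub v0 v314; ok v315 && (
  let v316 := scale ⟨1073741824, 0, 0, 0⟩ x1; ok v316 && (
  let v317 := sub v315 v316; ok v317 && (
  let v318 := sub v13 v0; ok v318 && (
  let v319 := add v318 v114; ok v319 && (
  let v320 := scale ⟨2199023255552, 0, 0, 0⟩ v283; ok v320 && (
  let v321 := sub v319 v320; ok v321 && (
  let v322 := mul v98 v321; ok v322 && (
  let v323 := mul v318 v320; ok v323 && (
  let v324 := add v323 v0; ok v324 && (
  let v325 := inv v324; ok v325 && (
  let v326 := mul v322 v325; ok v326 && (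
  let v327 := mul v112 v227; ok v327 && (
  let v328 := scale ⟨549755813888, 0, 0, 0⟩ v119; ok v328 && (
  let v329 := add v10 v328; ok v329 && (
  let v330 := mul v327 v329; ok v330 && (
  let v331 := scale ⟨2199023255552, 0, 0, 0⟩ v330; ok v331 && (
  let v332 := add v221 v331; ok v332 && (
  let v333 := scale ⟨2199023255552, 0, 0, 0⟩ v332; ok v333 && (
  let v334 := mul v333 v234; ok v334 && (
  let v335 := sub v17 v301; ok v335 && (
  let v336 := inv v335; ok v336 && (
  let v337 := mul v334 v336; ok v337 && (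
  let v338 := sub v326 v337; ok v338 && (
  isPos 4 v123 && (
  isPos 4 v126 && (
  let v339 := scale ⟨2199023255552, 0, 0, 0⟩ v231; ok v339 && (
  let v340 := sub v44 v339; ok v340 && (
  isPos 4 v340 && (
  isPos 4 v241 && (
  isPos 4 v80 && (
  let v341 := sub v1 v97; ok v341 && (
  isPos 4 v341 && (
  let v342 := scale ⟨687194767360, 0, 0, 0⟩ v0; ok v342 && (
  let v343 := sub v342 v188; ok v343 && (
  isPos 4 v343 && (
  let v344 := scale ⟨377957122048, 0, 0, 0⟩ v0; ok v344 && (
  let v345 := sub v344 v184; ok v345 && (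
  isPos 4 v345 && (
  isPos 4 v335 && (
  let v346 := sub v1 v287; ok v346 && (
  isPos 4 v346 && (
  isPos 4 v253 && (
  let v347 := sub v342 v258; ok v347 && (
  isPos 4 v347 && (
  let v348 := mul v107 v107; ok v348 && (
  let v349 := cst ⟨14293651161088, 0, 0, 0⟩; ok v349 && (
  let v350 := cst ⟨10995116277760, 0, 0, 0⟩; ok v350 && (
  let v351 := inv v350; ok v351 && (
  let v352 := mul v349 v351; ok v352 && (
  let v353 := mul v348 v352; ok v353 && (
  let v354 := cst ⟨27487790694400, 0, 0, 0⟩; ok v354 && (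
  let v355 := add v353 v354; ok v355 && (
  let v356 := mul v98 v17; ok v356 && (
  let v357 := mul v356 v283; ok v357 && (
  let v358 := mul x1 v357; ok v358 && (
  let v359 := add v0 v358; ok v359 && (
  let v360 := inv v359; ok v360 && (
  let v361 := mul v357 v360; ok v361 && (
  let v362 := sub v32 x1; ok v362 && (
  let v363 := sub v362 v31; ok v363 && (
  let v364 := scale ⟨2199023255552, 0, 0, 0⟩ v2; ok v364 && (
  let v365 := add v364 v237; ok v365 && (
  let v366 := mul x0 v365; ok v366 && (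
  let v367 := mul v355 v361; ok v367 && (
  let v368 := mul v234 v366; ok v368 && (
  let v369 := mul v76 v219; ok v369 && (
  let v370 := mul v5 v369; ok v370 && (
  let v371 := mul v17 v112; ok v371 && (
  let v372 := mul v371 v227; ok v372 && (
  let v373 := mul v30 v372; ok v373 && (
  let v374 := add v370 v373; ok v374 && (
  let v375 := mul x0 v374; ok v375 && (
  let v376 := mul v368 v375; ok v376 && (
  let v377 := sub v367 v376; ok v377 && (
  let v378 := scale ⟨549755813888, 0, 0, 0⟩ v301; ok v378 && (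
  let v379 := add v0 v378; ok v379 && (
  let v380 := mul v234 v379; ok v380 && (
  let v381 := mul x1 v16; ok v381 && (
  let v382 := mul v381 v106; ok v382 && (
  let v383 := mul v17 v44; ok v383 && (
  let v384 := inv v383; ok v384 && (
  let v385 := mul v382 v384; ok v385 && (
  let v386 := mul v380 v385; ok v386 && (
  let v387 := sub v363 v386; ok v387 && (
  let v388 := mul v119 v377; ok v388 && (
  let v389 := sub v0 v119; ok v389 && (
  let v390 := mul v5 v387; ok v390 && (
  let v391 := mul v389 v390; ok v391 && (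
  let v392 := mul v355 v391; ok v392 && (
  let v393 := add v388 v392; ok v393 && (
  isPos 4 v338 && (
  isPos 4 v317 && (
  isPos 4 v393 && (
  isPos 4 v387 && (
  true))))))))))))))))))))))))))))))))))))))))))))))))))))))))))))))))))))))))))))))))))))))))))))))))))))))))))))))))))))))))))))))))))))))))))))))))))))))))))))))))))))))))))))))))))))))))))))))))))))))))))))))))))))))))))))))))))))))))))))))))))))))))))))))))))))))))))))))))))))))))))))))))))))))))))))))))))))))))))))))))))))))))))))))))))))))))))))))))))))))))))))))))))))))))))))))))))))))))))))))))))))))))))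
  | _ => false

set_option maxRecDepth 1000000 in
theorem chk9_eq (O : Ops) (m : List O.α)
    (h : chk9 O.cst O.add O.sub O.mul O.scale O.neg O.inv O.exp O.log O.ok O.isPos O.isLt m = true) :
    runG O 4 prog9 m = true := by
  match m, h with
  | [x0, x1, x2, x3], h => exact h

def chkB9 : List opsE.α → Bool :=
  chk9 opsE.cst opsE.add opsE.sub opsE.mul opsE.scale opsE.neg opsE.inv opsE.exp opsE.log opsE.ok opsE.isPos opsE.isLt

theorem chkB9_eq (m : List opsE.α) (h : chkB9 m = true) : runG opsE 4 prog9 m = true :=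
  chk9_eq opsE m h

def prog10 : List Op := [
  .const ⟨1099511627776, 0, 0, 0⟩,
  .mul 2 3,
  .mul 0 5,
  .scale ⟨549755813888, 0, 0, 0⟩ 0,
  .mul 0 0,
  .sub 4 0,
  .inv 0,
  .mul 3 0,
  .scale ⟨2199023255552, 0, 0, 0⟩ 0,
  .scale ⟨10774999203840, 0, 0, 0⟩ 5,
  .scale ⟨549755813888, 0, 0, 0⟩ 9,
  .scale ⟨45768245248, 0, 0, 0⟩ 1,
  .const ⟨183207198720, 0, 0, 0⟩,
  .add 1 0,
  .mul 4 0,
  .add 4 0,
  .mul 6 0,
  .add 16 0,
  .mul 8 0,
  .scale ⟨549755813888, 0, 0, 0⟩ 0,
  .add 19 0,
  .mul 3 0,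
  .scale ⟨224412041216, 0, 0, 0⟩ 15,
  .inv 1,
  .mul 1 0,
  .sub 26 16,
  .sub 0 1,
  .pos 0]

def chk10 {α : Type} (cst : Z → α) (add sub mul : α → α → α) (scale : Z → α → α)
    (neg inv exp log : α → α) (ok : α → Bool) (isPos : Nat → α → Bool) (isLt : α → Nat → Bool) :
    List α → Bool
  | [x0, x1, x2, x3] =>
  let v0 := cst ⟨1099511627776, 0, 0, 0⟩; ok v0 && (
  let v1 := mul x1 x2; ok v1 && (
  let v2 := mul v1 x3; ok v2 && (
  let v3 := scale ⟨549755813888, 0, 0, 0⟩ v2; ok v3 && (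
  let v4 := mul v3 v3; ok v4 && (
  let v5 := sub v0 v4; ok v5 && (
  let v6 := inv v5; ok v6 && (
  let v7 := mul v3 v6; ok v7 && (
  let v8 := scale ⟨2199023255552, 0, 0, 0⟩ v7; ok v8 && (
  let v9 := scale ⟨10774999203840, 0, 0, 0⟩ v3; ok v9 && (
  let v10 := scale ⟨549755813888, 0, 0, 0⟩ v0; ok v10 && (
  let v11 := scale ⟨45768245248, 0, 0, 0⟩ v9; ok v11 && (
  let v12 := cst ⟨183207198720, 0, 0, 0⟩; ok v12 && (
  let v13 := add v11 v12; ok v13 && (
  let v14 := mul v9 v13; ok v14 && (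
  let v15 := add v10 v14; ok v15 && (
  let v16 := mul v9 v15; ok v16 && (
  let v17 := add v0 v16; ok v17 && (
  let v18 := mul v9 v17; ok v18 && (
  let v19 := scale ⟨549755813888, 0, 0, 0⟩ v18; ok v19 && (
  let v20 := add v0 v19; ok v20 && (
  let v21 := mul v17 v20; ok v21 && (
  let v22 := scale ⟨224412041216, 0, 0, 0⟩ v6; ok v22 && (
  let v23 := inv v21; ok v23 && (
  let v24 := mul v22 v23; ok v24 && (
  let v25 := sub x1 v8; ok v25 && (
  let v26 := sub v25 v24; ok v26 && (
  isPos 4 v26 && (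
  true))))))))))))))))))))))))))))
  | _ => false

set_option maxRecDepth 1000000 in
theorem chk10_eq (O : Ops) (m : List O.α)
    (h : chk10 O.cst O.add O.sub O.mul O.scale O.neg O.inv O.exp O.log O.ok O.isPos O.isLt m = true) :
    runG O 4 prog10 m = true := by
  match m, h with
  | [x0, x1, x2, x3], h => exact h

def chkB10 : List opsE.α → Bool :=
  chk10 opsE.cst opsE.add opsE.sub opsE.mul opsE.scale opsE.neg opsE.inv opsE.exp opsE.log opsE.ok opsE.isPos opsE.isLt

theorem chkB10_eq (m : List opsE.α) (h : chkB10 m = true) : runG opsE 4 prog10 m = true :=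
  chk10_eq opsE m h

def prog11 : List Op := [
  .const ⟨1099511627776, 0, 0, 0⟩,
  .mul 2 3,
  .mul 0 5,
  .scale ⟨549755813888, 0, 0, 0⟩ 0,
  .mul 0 0,
  .sub 4 0,
  .inv 0,
  .mul 3 0,
  .scale ⟨2199023255552, 0, 0, 0⟩ 0,
  .scale ⟨549755813888, 0, 0, 0⟩ 8,
  .mul 10 1,
  .sub 1 0,
  .pos 0]

def chk11 {α : Type} (cst : Z → α) (add sub mul : α → α → α) (scale : Z → α → α)
    (neg inv exp log : α → α) (ok : α → Bool) (isPos : Nat → α → Bool) (isLt : α → Nat → Bool) :
    List α → Bool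
  | [x0, x1, x2, x3] =>
  let v0 := cst ⟨1099511627776, 0, 0, 0⟩; ok v0 && (
  let v1 := mul x1 x2; ok v1 && (
  let v2 := mul v1 x3; ok v2 && (
  let v3 := scale ⟨549755813888, 0, 0, 0⟩ v2; ok v3 && (
  let v4 := mul v3 v3; ok v4 && (
  let v5 := sub v0 v4; ok v5 && (
  let v6 := inv v5; ok v6 && (
  let v7 := mul v3 v6; ok v7 && (
  let v8 := scale ⟨2199023255552, 0, 0, 0⟩ v7; ok v8 && (
  let v9 := scale ⟨549755813888, 0, 0, 0⟩ v0; ok v9 && (
  let v10 := mul x0 v8; ok v10 && (
  let v11 := sub v9 v10; ok v11 && (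
  isPos 4 v11 && (
  true)))))))))))))
  | _ => false

set_option maxRecDepth 1000000 in
theorem chk11_eq (O : Ops) (m : List O.α)
    (h : chk11 O.cst O.add O.sub O.mul O.scale O.neg O.inv O.exp O.log O.ok O.isPos O.isLt m = true) :
    runG O 4 prog11 m = true := by
  match m, h with
  | [x0, x1, x2, x3], h => exact h

def chkB11 : List opsE.α → Bool :=
  chk11 opsE.cst opsE.add opsE.sub opsE.mul opsE.scale opsE.neg opsE.inv opsE.exp opsE.log opsE.ok opsE.isPos opsE.isLt

theorem chkB11_eq (m : List opsE.α) (h : chkB11 m = true) : runG opsE 4 prog11 m = true :=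
  chk11_eq opsE m h

def prog12 : List Op := [
  .const ⟨1099511627776, 0, 0, 0⟩,
  .mul 2 3,
  .mul 0 5,
  .scale ⟨549755813888, 0, 0, 0⟩ 0,
  .mul 6 7,
  .sub 0 4,
  .mul 2 2,
  .add 1 0,
  .pos 0]

def chk12 {α : Type} (cst : Z → α) (add sub mul : α → α → α) (scale : Z → α → α)
    (neg inv exp log : α → α) (ok : α → Bool) (isPos : Nat → α → Bool) (isLt : α → Nat → Bool) :
    List α → Bool
  | [x0, x1, x2, x3] =>
  let v0 := cst ⟨1099511627776, 0, 0, 0⟩; ok v0 && (
  let v1 := mul x1 x2; ok v1 && (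
  let v2 := mul v1 x3; ok v2 && (
  let v3 := scale ⟨549755813888, 0, 0, 0⟩ v2; ok v3 && (
  let v4 := mul x2 x3; ok v4 && (
  let v5 := sub v4 v0; ok v5 && (
  let v6 := mul v3 v3; ok v6 && (
  let v7 := add v5 v6; ok v7 && (
  isPos 4 v7 && (
  true)))))))))
  | _ => false

set_option maxRecDepth 1000000 in
theorem chk12_eq (O : Ops) (m : List O.α)
    (h : chk12 O.cst O.add O.sub O.mul O.scale O.neg O.inv O.exp O.log O.ok O.isPos O.isLt m = true) :
    runG O 4 prog12 m = true := by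
  match m, h with
  | [x0, x1, x2, x3], h => exact h

def chkB12 : List opsE.α → Bool :=
  chk12 opsE.cst opsE.add opsE.sub opsE.mul opsE.scale opsE.neg opsE.inv opsE.exp opsE.log opsE.ok opsE.isPos opsE.isLt

theorem chkB12_eq (m : List opsE.α) (h : chkB12 m = true) : runG opsE 4 prog12 m = true :=
  chk12_eq opsE m h

def prog13 : List Op := [
  .const ⟨1099511627776, 0, 0, 0⟩,
  .mul 2 3,
  .mul 0 5,
  .scale ⟨549755813888, 0, 0, 0⟩ 0,
  .sub 7 3,
  .mul 1 1,
  .add 1 0,
  .pos 0]

def chk13 {α : Type} (cst : Z → α) (add sub mul : α → α → α) (scale : Z → α → α)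
    (neg inv exp log : α → α) (ok : α → Bool) (isPos : Nat → α → Bool) (isLt : α → Nat → Bool) :
    List α → Bool
  | [x0, x1, x2, x3] =>
  let v0 := cst ⟨1099511627776, 0, 0, 0⟩; ok v0 && (
  let v1 := mul x1 x2; ok v1 && (
  let v2 := mul v1 x3; ok v2 && (
  let v3 := scale ⟨549755813888, 0, 0, 0⟩ v2; ok v3 && (
  let v4 := sub x3 v0; ok v4 && (
  let v5 := mul v3 v3; ok v5 && (
  let v6 := add v4 v5; ok v6 && (
  isPos 4 v6 && (
  true))))))))
  | _ => false

set_option maxRecDepth 1000000 in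
theorem chk13_eq (O : Ops) (m : List O.α)
    (h : chk13 O.cst O.add O.sub O.mul O.scale O.neg O.inv O.exp O.log O.ok O.isPos O.isLt m = true) :
    runG O 4 prog13 m = true := by
  match m, h with
  | [x0, x1, x2, x3], h => exact h

def chkB13 : List opsE.α → Bool :=
  chk13 opsE.cst opsE.add opsE.sub opsE.mul opsE.scale opsE.neg opsE.inv opsE.exp opsE.log opsE.ok opsE.isPos opsE.isLt

theorem chkB13_eq (m : List opsE.α) (h : chkB13 m = true) : runG opsE 4 prog13 m = true :=
  chk13_eq opsE m h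

def prog14 : List Op := [
  .const ⟨1099511627776, 0, 0, 0⟩,
  .mul 2 3,
  .mul 0 5,
  .scale ⟨549755813888, 0, 0, 0⟩ 0,
  .add 0 3,
  .inv 0,
  .mul 2 0,
  .scale ⟨2199023255552, 0, 0, 0⟩ 0,
  .sub 7 0,
  .log 0,
  .inv 10,
  .scale ⟨0, 1524247822336, 0, 0⟩ 0,
  .exp 0,
  .sub 12 0,
  .mul 14 4,
  .exp 0,
  .add 0 15,
  .log 0,
  .mul 0 7,
  .scale ⟨2199023255552, 0, 0, 0⟩ 0,
  .exp 0,
  .mul 13 13,
  .mul 8 1,
  .sub 1 0,
  .pos 0]

def chk14 {α : Type} (cst : Z → α) (add sub mul : α → α → α) (scale : Z → α → α)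
    (neg inv exp log : α → α) (ok : α → Bool) (isPos : Nat → α → Bool) (isLt : α → Nat → Bool) :
    List α → Bool
  | [x0, x1, x2, x3] =>
  let v0 := cst ⟨1099511627776, 0, 0, 0⟩; ok v0 && (
  let v1 := mul x1 x2; ok v1 && (
  let v2 := mul v1 x3; ok v2 && (
  let v3 := scale ⟨549755813888, 0, 0, 0⟩ v2; ok v3 && (
  let v4 := add v3 v0; ok v4 && (
  let v5 := inv v4; ok v5 && (
  let v6 := mul v3 v5; ok v6 && (
  let v7 := scale ⟨2199023255552, 0, 0, 0⟩ v6; ok v7 && (
  let v8 := sub v0 v7; ok v8 && (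
  let v9 := log v8; ok v9 && (
  let v10 := inv x0; ok v10 && (
  let v11 := scale ⟨0, 1524247822336, 0, 0⟩ v10; ok v11 && (
  let v12 := exp v11; ok v12 && (
  let v13 := sub v0 v12; ok v13 && (
  let v14 := mul x0 v9; ok v14 && (
  let v15 := exp v14; ok v15 && (
  let v16 := add v15 v0; ok v16 && (
  let v17 := log v16; ok v17 && (
  let v18 := mul v17 v10; ok v18 && (
  let v19 := scale ⟨2199023255552, 0, 0, 0⟩ v18; ok v19 && (
  let v20 := exp v19; ok v20 && (
  let v21 := mul v7 v7; ok v21 && (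
  let v22 := mul v13 v20; ok v22 && (
  let v23 := sub v21 v22; ok v23 && (
  isPos 4 v23 && (
  true)))))))))))))))))))))))))
  | _ => false

set_option maxRecDepth 1000000 in
theorem chk14_eq (O : Ops) (m : List O.α)
    (h : chk14 O.cst O.add O.sub O.mul O.scale O.neg O.inv O.exp O.log O.ok O.isPos O.isLt m = true) :
    runG O 4 prog14 m = true := by
  match m, h with
  | [x0, x1, x2, x3], h => exact h

def chkB14 : List opsE.α → Bool :=
  chk14 opsE.cst opsE.add opsE.sub opsE.mul opsE.scale opsE.neg opsE.inv opsE.exp opsE.log opsE.ok opsE.isPos opsE.isLt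

theorem chkB14_eq (m : List opsE.α) (h : chkB14 m = true) : runG opsE 4 prog14 m = true :=
  chk14_eq opsE m h

def prog15 : List Op := [
  .const ⟨1099511627776, 0, 0, 0⟩,
  .mul 2 3,
  .mul 0 5,
  .scale ⟨549755813888, 0, 0, 0⟩ 0,
  .mul 6 6,
  .mul 1 1,
  .sub 5 0,
  .inv 0,
  .mul 4 0,
  .scale ⟨2199023255552, 0, 0, 0⟩ 0,
  .scale ⟨2199023255552, 0, 0, 0⟩ 2,
  .sub 0 10,
  .mul 15 4,
  .mul 15 0,
  .sub 13 0,
  .add 14 1,
  .mul 17 11,
  .mul 17 7,
  .mul 0 0,
  .const ⟨14293651161088, 0, 0, 0⟩,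
  .const ⟨10995116277760, 0, 0, 0⟩,
  .inv 0,
  .mul 2 0,
  .mul 4 0,
  .const ⟨27487790694400, 0, 0, 0⟩,
  .add 1 0,
  .scale ⟨2199023255552, 0, 0, 0⟩ 14,
  .sub 0 28,
  .mul 18 14,
  .sub 1 0,
  .mul 30 28,
  .mul 0 0,
  .mul 0 17,
  .mul 0 17,
  .mul 35 19,
  .sub 34 0,
  .mul 10 0,
  .mul 20 7,
  .sub 37 0,
  .mul 2 0,
  .sub 6 0,
  .pos 0]

def chk15 {α : Type} (cst : Z → α) (add sub mul : α → α → α) (scale : Z → α → α)
    (neg inv exp log : α → α) (ok : α → Bool) (isPos : Nat → α → Bool) (isLt : α → Nat → Bool) :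
    List α → Bool
  | [x0, x1, x2, x3] =>
  let v0 := cst ⟨1099511627776, 0, 0, 0⟩; ok v0 && (
  let v1 := mul x1 x2; ok v1 && (
  let v2 := mul v1 x3; ok v2 && (
  let v3 := scale ⟨549755813888, 0, 0, 0⟩ v2; ok v3 && (
  let v4 := mul x2 x2; ok v4 && (
  let v5 := mul v3 v3; ok v5 && (
  let v6 := sub v0 v5; ok v6 && (
  let v7 := inv v6; ok v7 && (
  let v8 := mul v3 v7; ok v8 && (
  let v9 := scale ⟨2199023255552, 0, 0, 0⟩ v8; ok v9 && (
  let v10 := scale ⟨2199023255552, 0, 0, 0⟩ v7; ok v10 && (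
  let v11 := sub v10 v0; ok v11 && (
  let v12 := mul x3 v7; ok v12 && (
  let v13 := mul x2 v12; ok v13 && (
  let v14 := sub v0 v13; ok v14 && (
  let v15 := add v0 v13; ok v15 && (
  let v16 := mul x1 v4; ok v16 && (
  let v17 := mul x0 v9; ok v17 && (
  let v18 := mul v17 v17; ok v18 && (
  let v19 := cst ⟨14293651161088, 0, 0, 0⟩; ok v19 && (
  let v20 := cst ⟨10995116277760, 0, 0, 0⟩; ok v20 && (
  let v21 := inv v20; ok v21 && (
  let v22 := mul v19 v21; ok v22 && (
  let v23 := mul v18 v22; ok v23 && (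
  let v24 := cst ⟨27487790694400, 0, 0, 0⟩; ok v24 && (
  let v25 := add v23 v24; ok v25 && (
  let v26 := scale ⟨2199023255552, 0, 0, 0⟩ v11; ok v26 && (
  let v27 := sub v26 x1; ok v27 && (
  let v28 := mul v9 v13; ok v28 && (
  let v29 := sub v27 v28; ok v29 && (
  let v30 := mul x0 v1; ok v30 && (
  let v31 := mul v30 v30; ok v31 && (
  let v32 := mul v31 v14; ok v32 && (
  let v33 := mul v32 v15; ok v33 && (
  let v34 := mul x1 v14; ok v34 && (
  let v35 := sub v0 v34; ok v35 && (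
  let v36 := mul v25 v35; ok v36 && (
  let v37 := mul v16 v29; ok v37 && (
  let v38 := sub v0 v37; ok v38 && (
  let v39 := mul v36 v38; ok v39 && (
  let v40 := sub v33 v39; ok v40 && (
  isPos 4 v40 && (
  true))))))))))))))))))))))))))))))))))))))))))
  | _ => false

set_option maxRecDepth 1000000 in
theorem chk15_eq (O : Ops) (m : List O.α)
    (h : chk15 O.cst O.add O.sub O.mul O.scale O.neg O.inv O.exp O.log O.ok O.isPos O.isLt m = true) :
    runG O 4 prog15 m = true := by
  match m, h with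
  | [x0, x1, x2, x3], h => exact h

def chkB15 : List opsE.α → Bool :=
  chk15 opsE.cst opsE.add opsE.sub opsE.mul opsE.scale opsE.neg opsE.inv opsE.exp opsE.log opsE.ok opsE.isPos opsE.isLt

theorem chkB15_eq (m : List opsE.α) (h : chkB15 m = true) : runG opsE 4 prog15 m = true :=
  chk15_eq opsE m h

def progs : List (List Op) := [prog0, prog1, prog2, prog3, prog4, prog5, prog6, prog7, prog8, prog9, prog10, prog11, prog12, prog13, prog14, prog15]

def chks : List (List opsE.α → Bool) := [chkB0, chkB1, chkB2, chkB3, chkB4, chkB5, chkB6, chkB7, chkB8, chkB9, chkB10, chkB11, chkB12, chkB13, chkB14, chkB15]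

theorem chks_eq : List.Forall₂ (fun (ops : List Op) (chk : List opsE.α → Bool) =>
    ∀ m, chk m = true → runG opsE 4 ops m = true) progs chks :=
  List.Forall₂.cons chkB0_eq (List.Forall₂.cons chkB1_eq (List.Forall₂.cons chkB2_eq (List.Forall₂.cons chkB3_eq (List.Forall₂.cons chkB4_eq (List.Forall₂.cons chkB5_eq (List.Forall₂.cons chkB6_eq (List.Forall₂.cons chkB7_eq (List.Forall₂.cons chkB8_eq (List.Forall₂.cons chkB9_eq (List.Forall₂.cons chkB10_eq (List.Forall₂.cons chkB11_eq (List.Forall₂.cons chkB12_eq (List.Forall₂.cons chkB13_eq (List.Forall₂.cons chkB14_eq (List.Forall₂.cons chkB15_eq List.Forall₂.nil)))))))))))))))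

end Pool.Agent.helper71.FG.Crt.L
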