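import Pool.Agent.helper71.FG.Crt.LP

/-!
Generated certificates.
-/

namespace Pool.Agent.helper71.FG.Crt.L

open Pool.Agent.helper31.IA (Z Op)
open Pool.Agent.helper31.IC

mutual
theorem c20_32_m2_t0 : CovD 0 progs [(26938034880512, 1649267441664), (38654705664, 38654705664), (824633720832, 274877906944), (549755813888, 549755813888)] :=
  Pool.Agent.helper14.QF.covD_F chks_eq (.n 2 (.n 2 (.n 1 (.l 0) (.n 1 (.l 2) (.n 2 (.l 2) (.l 2)))) (.n 1 (.n 1 (.l 0) (.l 0)) (.n 1 (.n 0 (.l 2) (.l 2)) (.n 3 (.l 2) (.l 0))))) (.n 1 (.n 1 (.l 0) (.n 2 (.l 0) (.l 0))) (.n 1 (.n 1 (.n 2 (.l 2) (.l 2)) (.n 2 (.l 4) (.l 4))) (.n 2 (.n 3 (.l 4) (.l 3)) (.n 2 (.l 4) (.l 4))))))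
    [(26938034880512, 1649267441664), (38654705664, 38654705664), (824633720832, 274877906944), (549755813888, 549755813888)] rfl (by decide +kernel)
theorem c20_32_m2_t1 : CovD 0 progs [(26938034880512, 1649267441664), (96636764160, 19327352832), (824633720832, 274877906944), (549755813888, 549755813888)] :=
  Pool.Agent.helper14.QF.covD_F chks_eq (.n 1 (.n 2 (.n 2 (.n 3 (.l 4) (.l 4)) (.n 3 (.l 4) (.l 3))) (.n 2 (.n 3 (.l 4) (.l 3)) (.n 3 (.l 4) (.l 3)))) (.n 2 (.n 2 (.n 3 (.l 4) (.n 1 (.l 4) (.l 4))) (.n 3 (.l 4) (.n 1 (.l 3) (.l 4)))) (.n 2 (.n 3 (.l 4) (.n 0 (.l 3) (.l 3))) (.n 3 (.l 4) (.l 3)))))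
    [(26938034880512, 1649267441664), (96636764160, 19327352832), (824633720832, 274877906944), (549755813888, 549755813888)] rfl (by decide +kernel)
end
mutual
theorem c20_32_m2_t2 : CovD 0 progs [(26938034880512, 1649267441664), (125627793408, 9663676416), (824633720832, 274877906944), (549755813888, 549755813888)] :=
  Pool.Agent.helper14.QF.covD_F chks_eq (.n 2 (.n 2 (.n 2 (.n 3 (.l 4) (.l 4)) (.n 3 (.l 4) (.l 4))) (.n 2 (.n 3 (.l 4) (.l 4)) (.n 3 (.l 4) (.l 4)))) (.n 2 (.n 3 (.l 4) (.n 0 (.l 4) (.l 4))) (.n 3 (.l 4) (.l 4))))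
    [(26938034880512, 1649267441664), (125627793408, 9663676416), (824633720832, 274877906944), (549755813888, 549755813888)] rfl (by decide +kernel)
theorem c20_32_m2_t3 : CovD 0 progs [(26938034880512, 1649267441664), (144955146240, 9663676416), (824633720832, 274877906944), (549755813888, 549755813888)] :=
  Pool.Agent.helper14.QF.covD_F chks_eq (.n 2 (.n 2 (.n 2 (.n 3 (.l 4) (.n 0 (.l 4) (.l 4))) (.n 3 (.l 4) (.n 0 (.l 4) (.l 4)))) (.n 3 (.n 0 (.l 4) (.l 4)) (.n 3 (.l 4) (.l 3)))) (.n 2 (.n 3 (.l 4) (.n 2 (.l 4) (.l 4))) (.n 3 (.l 4) (.n 0 (.l 4) (.l 4)))))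
    [(26938034880512, 1649267441664), (144955146240, 9663676416), (824633720832, 274877906944), (549755813888, 549755813888)] rfl (by decide +kernel)
end
mutual
theorem c20_32_m2_t7 : CovD 0 progs [(26938034880512, 1649267441664), (164282499072, 9663676416), (824633720832, 274877906944), (549755813888, 549755813888)] :=
  Pool.Agent.helper14.QF.covD_F chks_eq (.n 2 (.n 2 (.n 2 (.n 3 (.n 0 (.l 4) (.l 4)) (.n 3 (.l 4) (.l 3))) (.n 3 (.l 4) (.n 3 (.l 4) (.l 3)))) (.n 3 (.n 0 (.l 4) (.l 4)) (.n 3 (.l 4) (.n 0 (.l 3) (.l 3))))) (.n 2 (.n 3 (.l 8) (.n 2 (.l 4) (.l 4))) (.n 3 (.l 4) (.n 2 (.l 4) (.l 3)))))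
    [(26938034880512, 1649267441664), (164282499072, 9663676416), (824633720832, 274877906944), (549755813888, 549755813888)] rfl (by decide +kernel)
theorem c20_32_m2_t8 : CovD 0 progs [(26938034880512, 1649267441664), (183609851904, 9663676416), (824633720832, 274877906944), (549755813888, 549755813888)] :=
  Pool.Agent.helper14.QF.covD_F chks_eq (.n 2 (.n 2 (.n 2 (.n 3 (.n 2 (.l 4) (.l 4)) (.n 3 (.l 4) (.l 4))) (.n 3 (.n 0 (.l 4) (.l 4)) (.n 3 (.l 4) (.l 3)))) (.n 2 (.n 3 (.l 4) (.n 1 (.l 8) (.l 8))) (.n 3 (.l 4) (.l 8)))) (.n 2 (.n 2 (.n 3 (.l 4) (.l 4)) (.n 3 (.l 4) (.l 4))) (.n 3 (.n 3 (.l 4) (.l 4)) (.n 2 (.l 4) (.n 0 (.l 3) (.l 4))))))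
    [(26938034880512, 1649267441664), (183609851904, 9663676416), (824633720832, 274877906944), (549755813888, 549755813888)] rfl (by decide +kernel)
end
mutual
theorem c20_32_m2_t10 : CovD 0 progs [(26938034880512, 1649267441664), (212600881152, 19327352832), (687194767360, 137438953472), (549755813888, 549755813888)] :=
  Pool.Agent.helper14.QF.covD_F chks_eq (.n 2 (.n 2 (.n 3 (.n 1 (.n 3 (.l 4) (.l 4)) (.n 2 (.l 8) (.l 8))) (.n 3 (.n 1 (.l 4) (.n 0 (.l 4) (.l 4))) (.n 3 (.l 4) (.l 4)))) (.n 1 (.n 3 (.l 8) (.n 3 (.l 4) (.l 4))) (.n 3 (.l 8) (.n 3 (.l 4) (.l 4))))) (.n 2 (.n 3 (.n 0 (.l 8) (.l 8)) (.n 3 (.l 4) (.l 8))) (.n 1 (.n 3 (.l 4) (.l 8)) (.n 3 (.l 7) (.l 8)))))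
    [(26938034880512, 1649267441664), (212600881152, 19327352832), (687194767360, 137438953472), (549755813888, 549755813888)] rfl (by decide +kernel)
theorem c20_32_m2_t11 : CovD 0 progs [(26938034880512, 1649267441664), (212600881152, 19327352832), (962072674304, 137438953472), (549755813888, 549755813888)] :=
  Pool.Agent.helper14.QF.covD_F chks_eq (.n 2 (.n 3 (.n 3 (.l 6) (.n 0 (.l 4) (.l 4))) (.n 1 (.n 2 (.l 6) (.l 4)) (.n 2 (.l 6) (.n 0 (.l 4) (.l 4))))) (.n 2 (.n 3 (.n 3 (.l 4) (.l 4)) (.n 3 (.l 4) (.n 1 (.l 3) (.l 3)))) (.n 3 (.n 3 (.n 0 (.l 4) (.l 4)) (.l 4)) (.n 1 (.n 3 (.l 3) (.l 3)) (.n 3 (.l 3) (.n 0 (.l 3) (.l 3)))))))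
    [(26938034880512, 1649267441664), (212600881152, 19327352832), (962072674304, 137438953472), (549755813888, 549755813888)] rfl (by decide +kernel)
end
mutual
theorem c20_32_m2_t14 : CovD 0 progs [(26938034880512, 1649267441664), (241591910400, 9663676416), (687194767360, 137438953472), (549755813888, 549755813888)] :=
  Pool.Agent.helper14.QF.covD_F chks_eq (.n 3 (.n 3 (.l 10) (.n 2 (.n 2 (.l 7) (.l 4)) (.l 6))) (.n 2 (.n 2 (.n 0 (.n 3 (.l 4) (.l 4)) (.n 3 (.l 4) (.l 4))) (.n 3 (.l 4) (.l 6))) (.n 2 (.n 0 (.l 8) (.l 8)) (.l 8))))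
    [(26938034880512, 1649267441664), (241591910400, 9663676416), (687194767360, 137438953472), (549755813888, 549755813888)] rfl (by decide +kernel)
theorem c20_32_m2_t15 : CovD 0 progs [(26938034880512, 1649267441664), (241591910400, 9663676416), (962072674304, 137438953472), (549755813888, 549755813888)] :=
  Pool.Agent.helper14.QF.covD_F chks_eq (.n 2 (.n 3 (.n 3 (.l 8) (.l 4)) (.n 2 (.l 6) (.n 3 (.l 4) (.l 3)))) (.n 3 (.n 3 (.n 3 (.l 10) (.l 10)) (.n 0 (.l 4) (.l 4))) (.n 2 (.n 3 (.l 4) (.n 0 (.l 3) (.l 3))) (.n 3 (.l 3) (.n 0 (.l 3) (.l 3))))))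
    [(26938034880512, 1649267441664), (241591910400, 9663676416), (962072674304, 137438953472), (549755813888, 549755813888)] rfl (by decide +kernel)
end
mutual
theorem c20_32_m2_t17 : CovD 0 progs [(26938034880512, 1649267441664), (260919263232, 9663676416), (824633720832, 274877906944), (274877906944, 274877906944)] :=
  Pool.Agent.helper14.QF.covD_F chks_eq (.n 3 (.l 10) (.n 2 (.l 10) (.n 2 (.l 6) (.n 0 (.l 4) (.l 6)))))
    [(26938034880512, 1649267441664), (260919263232, 9663676416), (824633720832, 274877906944), (274877906944, 274877906944)] rfl (by decide +kernel)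
theorem c20_32_m2_t18 : CovD 0 progs [(26938034880512, 1649267441664), (260919263232, 9663676416), (824633720832, 274877906944), (824633720832, 274877906944)] :=
  Pool.Agent.helper14.QF.covD_F chks_eq (.n 2 (.n 2 (.n 3 (.l 10) (.n 2 (.n 0 (.l 6) (.l 6)) (.l 6))) (.n 2 (.n 0 (.l 8) (.l 8)) (.l 8))) (.n 2 (.n 2 (.n 0 (.l 6) (.l 6)) (.n 3 (.l 4) (.n 0 (.l 3) (.l 3)))) (.n 2 (.n 3 (.l 4) (.n 0 (.l 3) (.l 3))) (.n 3 (.n 0 (.l 3) (.l 4)) (.n 3 (.l 3) (.n 0 (.l 3) (.l 3)))))))
    [(26938034880512, 1649267441664), (260919263232, 9663676416), (824633720832, 274877906944), (824633720832, 274877906944)] rfl (by decide +kernel)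
end
mutual
theorem c20_32_m2_t21 : CovD 0 progs [(26938034880512, 1649267441664), (280246616064, 9663676416), (824633720832, 274877906944), (549755813888, 549755813888)] :=
  Pool.Agent.helper14.QF.covD_F chks_eq (.n 3 (.n 3 (.l 10) (.n 2 (.l 10) (.l 10))) (.n 2 (.n 2 (.n 3 (.l 10) (.n 2 (.l 10) (.l 6))) (.n 3 (.l 8) (.n 2 (.l 6) (.l 4)))) (.n 2 (.n 2 (.n 3 (.l 4) (.l 3)) (.n 3 (.l 4) (.n 0 (.l 3) (.l 3)))) (.n 2 (.n 3 (.l 4) (.n 2 (.l 3) (.n 0 (.l 3) (.l 3)))) (.n 0 (.n 3 (.l 4) (.n 1 (.l 3) (.l 3))) (.n 3 (.l 4) (.n 2 (.l 3) (.l 3))))))))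
    [(26938034880512, 1649267441664), (280246616064, 9663676416), (824633720832, 274877906944), (549755813888, 549755813888)] rfl (by decide +kernel)
theorem c20_32_m2_t22 : CovD 0 progs [(26938034880512, 1649267441664), (299573968896, 9663676416), (687194767360, 137438953472), (549755813888, 549755813888)] :=
  Pool.Agent.helper14.QF.covD_F chks_eq (.n 3 (.l 10) (.n 3 (.l 10) (.n 2 (.l 10) (.n 2 (.l 6) (.l 4)))))
    [(26938034880512, 1649267441664), (299573968896, 9663676416), (687194767360, 137438953472), (549755813888, 549755813888)] rfl (by decide +kernel)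
theorem c20_32_m2_t23 : CovD 0 progs [(26938034880512, 1649267441664), (299573968896, 9663676416), (962072674304, 137438953472), (549755813888, 549755813888)] :=
  Pool.Agent.helper14.QF.covD_F chks_eq (.n 3 (.n 3 (.l 10) (.l 10)) (.n 3 (.n 3 (.l 10) (.n 2 (.l 10) (.n 2 (.l 3) (.l 3)))) (.n 0 (.n 2 (.n 2 (.l 3) (.l 3)) (.n 2 (.n 0 (.l 3) (.l 3)) (.n 3 (.l 3) (.l 3)))) (.n 2 (.n 2 (.l 3) (.n 0 (.l 3) (.l 3))) (.n 2 (.n 2 (.l 3) (.l 3)) (.n 3 (.l 3) (.n 0 (.l 3) (.l 3))))))))
    [(26938034880512, 1649267441664), (299573968896, 9663676416), (962072674304, 137438953472), (549755813888, 549755813888)] rfl (by decide +kernel)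
end
theorem c20_32_m2_t4 : CovD 0 progs [(26938034880512, 1649267441664), (135291469824, 19327352832), (824633720832, 274877906944), (549755813888, 549755813888)] :=
  covD_split 1 (by decide +kernel) c20_32_m2_t2 c20_32_m2_t3
theorem c20_32_m2_t5 : CovD 0 progs [(26938034880512, 1649267441664), (115964116992, 38654705664), (824633720832, 274877906944), (549755813888, 549755813888)] :=
  covD_split 1 (by decide +kernel) c20_32_m2_t1 c20_32_m2_t4
theorem c20_32_m2_t6 : CovD 0 progs [(26938034880512, 1649267441664), (77309411328, 77309411328), (824633720832, 274877906944), (549755813888, 549755813888)] :=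
  covD_split 1 (by decide +kernel) c20_32_m2_t0 c20_32_m2_t5
theorem c20_32_m2_t9 : CovD 0 progs [(26938034880512, 1649267441664), (173946175488, 19327352832), (824633720832, 274877906944), (549755813888, 549755813888)] :=
  covD_split 1 (by decide +kernel) c20_32_m2_t7 c20_32_m2_t8
theorem c20_32_m2_t12 : CovD 0 progs [(26938034880512, 1649267441664), (212600881152, 19327352832), (824633720832, 274877906944), (549755813888, 549755813888)] :=
  covD_split 2 (by decide +kernel) c20_32_m2_t10 c20_32_m2_t11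
theorem c20_32_m2_t13 : CovD 0 progs [(26938034880512, 1649267441664), (193273528320, 38654705664), (824633720832, 274877906944), (549755813888, 549755813888)] :=
  covD_split 1 (by decide +kernel) c20_32_m2_t9 c20_32_m2_t12
theorem c20_32_m2_t16 : CovD 0 progs [(26938034880512, 1649267441664), (241591910400, 9663676416), (824633720832, 274877906944), (549755813888, 549755813888)] :=
  covD_split 2 (by decide +kernel) c20_32_m2_t14 c20_32_m2_t15
theorem c20_32_m2_t19 : CovD 0 progs [(26938034880512, 1649267441664), (260919263232, 9663676416), (824633720832, 274877906944), (549755813888, 549755813888)] :=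
  covD_split 3 (by decide +kernel) c20_32_m2_t17 c20_32_m2_t18
theorem c20_32_m2_t20 : CovD 0 progs [(26938034880512, 1649267441664), (251255586816, 19327352832), (824633720832, 274877906944), (549755813888, 549755813888)] :=
  covD_split 1 (by decide +kernel) c20_32_m2_t16 c20_32_m2_t19
theorem c20_32_m2_t24 : CovD 0 progs [(26938034880512, 1649267441664), (299573968896, 9663676416), (824633720832, 274877906944), (549755813888, 549755813888)] :=
  covD_split 2 (by decide +kernel) c20_32_m2_t22 c20_32_m2_t23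
theorem c20_32_m2_t25 : CovD 0 progs [(26938034880512, 1649267441664), (289910292480, 19327352832), (824633720832, 274877906944), (549755813888, 549755813888)] :=
  covD_split 1 (by decide +kernel) c20_32_m2_t21 c20_32_m2_t24
theorem c20_32_m2_t26 : CovD 0 progs [(26938034880512, 1649267441664), (270582939648, 38654705664), (824633720832, 274877906944), (549755813888, 549755813888)] :=
  covD_split 1 (by decide +kernel) c20_32_m2_t20 c20_32_m2_t25
theorem c20_32_m2_t27 : CovD 0 progs [(26938034880512, 1649267441664), (231928233984, 77309411328), (824633720832, 274877906944), (549755813888, 549755813888)] :=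
  covD_split 1 (by decide +kernel) c20_32_m2_t13 c20_32_m2_t26
theorem c20_32_m2 : CovD 0 progs [(26938034880512, 1649267441664), (154618822656, 154618822656), (824633720832, 274877906944), (549755813888, 549755813888)] :=
  covD_split 1 (by decide +kernel) c20_32_m2_t6 c20_32_m2_t27

end Pool.Agent.helper71.FG.Crt.L
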