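import Pool.Agent.helper71.FG.Crt.LP

/-!
Generated certificates.
-/

namespace Pool.Agent.helper71.FG.Crt.L

open Pool.Agent.helper31.IA (Z Op)
open Pool.Agent.helper31.IC

mutual
theorem c20_32_m3_t0 : CovD 0 progs [(31885837205504, 3298534883328), (19327352832, 19327352832), (549755813888, 549755813888), (549755813888, 549755813888)] :=
  Pool.Agent.helper14.QF.covD_F chks_eq (.n 1 (.n 1 (.l 11) (.n 2 (.l 11) (.n 2 (.l 0) (.l 0)))) (.n 2 (.n 2 (.l 11) (.n 2 (.l 0) (.l 0))) (.n 1 (.n 2 (.l 0) (.n 0 (.l 0) (.l 0))) (.n 2 (.n 2 (.l 0) (.l 0)) (.n 2 (.l 2) (.l 4))))))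
    [(31885837205504, 3298534883328), (19327352832, 19327352832), (549755813888, 549755813888), (549755813888, 549755813888)] rfl (by decide +kernel)
theorem c20_32_m3_t1 : CovD 0 progs [(31885837205504, 3298534883328), (48318382080, 9663676416), (549755813888, 549755813888), (549755813888, 549755813888)] :=
  Pool.Agent.helper14.QF.covD_F chks_eq (.n 2 (.n 2 (.l 11) (.n 2 (.l 2) (.n 0 (.l 2) (.l 2)))) (.n 2 (.n 2 (.n 2 (.l 2) (.l 2)) (.n 3 (.l 2) (.l 0))) (.n 2 (.n 3 (.l 4) (.l 3)) (.n 3 (.l 4) (.l 3)))))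
    [(31885837205504, 3298534883328), (48318382080, 9663676416), (549755813888, 549755813888), (549755813888, 549755813888)] rfl (by decide +kernel)
end
mutual
theorem c20_32_m3_t2 : CovD 0 progs [(31885837205504, 3298534883328), (67645734912, 9663676416), (549755813888, 549755813888), (549755813888, 549755813888)] :=
  Pool.Agent.helper14.QF.covD_F chks_eq (.n 2 (.n 2 (.n 2 (.l 2) (.n 0 (.l 2) (.l 2))) (.n 2 (.n 2 (.l 2) (.l 2)) (.n 3 (.l 2) (.l 2)))) (.n 2 (.n 2 (.n 3 (.l 4) (.n 0 (.l 0) (.l 4))) (.n 3 (.l 4) (.n 0 (.l 3) (.l 3)))) (.n 2 (.n 3 (.l 4) (.n 0 (.l 3) (.l 3))) (.n 3 (.l 4) (.l 3)))))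
    [(31885837205504, 3298534883328), (67645734912, 9663676416), (549755813888, 549755813888), (549755813888, 549755813888)] rfl (by decide +kernel)
theorem c20_32_m3_t5 : CovD 0 progs [(31885837205504, 3298534883328), (86973087744, 9663676416), (274877906944, 274877906944), (549755813888, 549755813888)] :=
  Pool.Agent.helper14.QF.covD_F chks_eq (.n 2 (.n 2 (.l 2) (.n 2 (.l 2) (.l 2))) (.n 2 (.n 2 (.l 2) (.n 0 (.l 2) (.l 2))) (.n 2 (.n 3 (.l 2) (.l 2)) (.n 3 (.l 2) (.l 2)))))
    [(31885837205504, 3298534883328), (86973087744, 9663676416), (274877906944, 274877906944), (549755813888, 549755813888)] rfl (by decide +kernel)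
end
mutual
theorem c20_32_m3_t6 : CovD 0 progs [(31885837205504, 3298534883328), (86973087744, 9663676416), (824633720832, 274877906944), (549755813888, 549755813888)] :=
  Pool.Agent.helper14.QF.covD_F chks_eq (.n 2 (.n 2 (.n 2 (.n 3 (.l 4) (.l 4)) (.n 3 (.l 4) (.l 4))) (.n 2 (.n 3 (.l 4) (.l 4)) (.n 3 (.l 4) (.l 4)))) (.n 2 (.n 0 (.n 3 (.l 4) (.l 3)) (.n 3 (.l 4) (.l 4))) (.n 3 (.l 4) (.n 0 (.l 3) (.l 3)))))
    [(31885837205504, 3298534883328), (86973087744, 9663676416), (824633720832, 274877906944), (549755813888, 549755813888)] rfl (by decide +kernel)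
theorem c20_32_m3_t8 : CovD 0 progs [(31885837205504, 3298534883328), (106300440576, 9663676416), (274877906944, 274877906944), (549755813888, 549755813888)] :=
  Pool.Agent.helper14.QF.covD_F chks_eq (.n 2 (.n 2 (.l 2) (.n 2 (.l 2) (.l 2))) (.n 2 (.n 2 (.n 0 (.l 2) (.l 4)) (.n 3 (.l 2) (.l 2))) (.n 2 (.n 3 (.l 2) (.l 4)) (.n 3 (.l 4) (.n 0 (.l 2) (.l 4))))))
    [(31885837205504, 3298534883328), (106300440576, 9663676416), (274877906944, 274877906944), (549755813888, 549755813888)] rfl (by decide +kernel)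
end
mutual
theorem c20_32_m3_t9 : CovD 0 progs [(31885837205504, 3298534883328), (106300440576, 9663676416), (824633720832, 274877906944), (549755813888, 549755813888)] :=
  Pool.Agent.helper14.QF.covD_F chks_eq (.n 2 (.n 2 (.n 2 (.n 3 (.l 4) (.n 0 (.l 4) (.l 4))) (.n 3 (.l 4) (.n 0 (.l 4) (.l 4)))) (.n 0 (.n 3 (.l 4) (.n 1 (.l 4) (.l 4))) (.n 3 (.l 4) (.n 2 (.l 4) (.l 4))))) (.n 2 (.n 2 (.n 3 (.l 4) (.l 4)) (.n 3 (.l 4) (.l 4))) (.n 3 (.l 4) (.n 0 (.l 3) (.l 3)))))
    [(31885837205504, 3298534883328), (106300440576, 9663676416), (824633720832, 274877906944), (549755813888, 549755813888)] rfl (by decide +kernel)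
theorem c20_32_m3_t12 : CovD 0 progs [(31885837205504, 3298534883328), (125627793408, 9663676416), (274877906944, 274877906944), (549755813888, 549755813888)] :=
  Pool.Agent.helper14.QF.covD_F chks_eq (.n 2 (.n 2 (.l 2) (.n 2 (.l 2) (.n 0 (.l 2) (.l 2)))) (.n 2 (.n 2 (.n 3 (.l 2) (.l 2)) (.n 3 (.l 4) (.l 4))) (.n 2 (.n 3 (.l 4) (.n 0 (.l 4) (.l 4))) (.n 3 (.n 0 (.l 4) (.l 4)) (.n 3 (.l 4) (.l 4))))))
    [(31885837205504, 3298534883328), (125627793408, 9663676416), (274877906944, 274877906944), (549755813888, 549755813888)] rfl (by decide +kernel)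
end
mutual
theorem c20_32_m3_t13 : CovD 0 progs [(31885837205504, 3298534883328), (125627793408, 9663676416), (687194767360, 137438953472), (549755813888, 549755813888)] :=
  Pool.Agent.helper14.QF.covD_F chks_eq (.n 0 (.n 2 (.n 3 (.n 2 (.l 4) (.l 4)) (.n 3 (.l 4) (.l 4))) (.n 2 (.n 3 (.l 4) (.l 4)) (.n 3 (.l 4) (.l 4)))) (.n 2 (.n 2 (.n 3 (.l 4) (.n 2 (.l 4) (.l 4))) (.n 3 (.l 4) (.n 1 (.l 4) (.l 4)))) (.n 3 (.l 9) (.n 2 (.l 9) (.l 4)))))
    [(31885837205504, 3298534883328), (125627793408, 9663676416), (687194767360, 137438953472), (549755813888, 549755813888)] rfl (by decide +kernel)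
theorem c20_32_m3_t14 : CovD 0 progs [(31885837205504, 3298534883328), (125627793408, 9663676416), (962072674304, 137438953472), (549755813888, 549755813888)] :=
  Pool.Agent.helper14.QF.covD_F chks_eq (.n 2 (.n 3 (.n 0 (.l 4) (.l 4)) (.n 3 (.l 4) (.l 3))) (.n 0 (.n 3 (.l 4) (.l 4)) (.n 3 (.l 4) (.n 1 (.l 3) (.l 4)))))
    [(31885837205504, 3298534883328), (125627793408, 9663676416), (962072674304, 137438953472), (549755813888, 549755813888)] rfl (by decide +kernel)
end
mutual
theorem c20_32_m3_t17 : CovD 0 progs [(30236569763840, 1649267441664), (144955146240, 9663676416), (274877906944, 274877906944), (549755813888, 549755813888)] :=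
  Pool.Agent.helper14.QF.covD_F chks_eq (.n 2 (.n 2 (.l 2) (.n 2 (.l 2) (.n 0 (.l 4) (.l 4)))) (.n 2 (.n 2 (.n 3 (.l 2) (.l 2)) (.n 3 (.l 2) (.l 4))) (.n 2 (.n 3 (.l 4) (.n 0 (.l 4) (.l 4))) (.n 3 (.l 4) (.n 2 (.l 4) (.l 4))))))
    [(30236569763840, 1649267441664), (144955146240, 9663676416), (274877906944, 274877906944), (549755813888, 549755813888)] rfl (by decide +kernel)
theorem c20_32_m3_t18 : CovD 0 progs [(30236569763840, 1649267441664), (144955146240, 9663676416), (824633720832, 274877906944), (549755813888, 549755813888)] :=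
  Pool.Agent.helper14.QF.covD_F chks_eq (.n 2 (.n 2 (.n 2 (.n 3 (.l 4) (.n 2 (.l 4) (.l 4))) (.n 3 (.l 4) (.n 2 (.l 4) (.l 4)))) (.n 3 (.n 0 (.l 4) (.l 4)) (.n 3 (.l 4) (.l 3)))) (.n 2 (.n 3 (.l 4) (.n 0 (.l 9) (.l 8))) (.n 3 (.l 4) (.n 2 (.l 4) (.l 3)))))
    [(30236569763840, 1649267441664), (144955146240, 9663676416), (824633720832, 274877906944), (549755813888, 549755813888)] rfl (by decide +kernel)
end
mutual
theorem c20_32_m3_t20 : CovD 0 progs [(33535104647168, 1649267441664), (144955146240, 9663676416), (274877906944, 274877906944), (549755813888, 549755813888)] :=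
  Pool.Agent.helper14.QF.covD_F chks_eq (.n 2 (.n 2 (.l 2) (.n 2 (.l 2) (.n 2 (.l 2) (.l 4)))) (.n 2 (.n 2 (.n 3 (.l 2) (.l 4)) (.n 3 (.l 4) (.n 0 (.l 4) (.l 4)))) (.n 2 (.n 3 (.n 0 (.l 4) (.l 4)) (.n 3 (.l 4) (.l 2))) (.n 3 (.n 0 (.l 4) (.l 4)) (.n 3 (.l 4) (.l 4))))))
    [(33535104647168, 1649267441664), (144955146240, 9663676416), (274877906944, 274877906944), (549755813888, 549755813888)] rfl (by decide +kernel)
theorem c20_32_m3_t21 : CovD 0 progs [(33535104647168, 1649267441664), (144955146240, 9663676416), (824633720832, 274877906944), (549755813888, 549755813888)] :=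
  Pool.Agent.helper14.QF.covD_F chks_eq (.n 2 (.n 2 (.n 2 (.n 3 (.n 0 (.l 4) (.l 4)) (.n 3 (.l 4) (.l 3))) (.n 3 (.l 4) (.n 3 (.l 4) (.l 3)))) (.n 3 (.l 9) (.n 3 (.l 4) (.l 3)))) (.n 2 (.n 3 (.l 4) (.l 8)) (.n 3 (.l 4) (.n 2 (.l 4) (.n 0 (.l 3) (.l 4))))))
    [(33535104647168, 1649267441664), (144955146240, 9663676416), (824633720832, 274877906944), (549755813888, 549755813888)] rfl (by decide +kernel)
end
theorem c20_32_m3_t3 : CovD 0 progs [(31885837205504, 3298534883328), (57982058496, 19327352832), (549755813888, 549755813888), (549755813888, 549755813888)] :=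
  covD_split 1 (by decide +kernel) c20_32_m3_t1 c20_32_m3_t2
theorem c20_32_m3_t4 : CovD 0 progs [(31885837205504, 3298534883328), (38654705664, 38654705664), (549755813888, 549755813888), (549755813888, 549755813888)] :=
  covD_split 1 (by decide +kernel) c20_32_m3_t0 c20_32_m3_t3
theorem c20_32_m3_t7 : CovD 0 progs [(31885837205504, 3298534883328), (86973087744, 9663676416), (549755813888, 549755813888), (549755813888, 549755813888)] :=
  covD_split 2 (by decide +kernel) c20_32_m3_t5 c20_32_m3_t6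
theorem c20_32_m3_t10 : CovD 0 progs [(31885837205504, 3298534883328), (106300440576, 9663676416), (549755813888, 549755813888), (549755813888, 549755813888)] :=
  covD_split 2 (by decide +kernel) c20_32_m3_t8 c20_32_m3_t9
theorem c20_32_m3_t11 : CovD 0 progs [(31885837205504, 3298534883328), (96636764160, 19327352832), (549755813888, 549755813888), (549755813888, 549755813888)] :=
  covD_split 1 (by decide +kernel) c20_32_m3_t7 c20_32_m3_t10
theorem c20_32_m3_t15 : CovD 0 progs [(31885837205504, 3298534883328), (125627793408, 9663676416), (824633720832, 274877906944), (549755813888, 549755813888)] :=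
  covD_split 2 (by decide +kernel) c20_32_m3_t13 c20_32_m3_t14
theorem c20_32_m3_t16 : CovD 0 progs [(31885837205504, 3298534883328), (125627793408, 9663676416), (549755813888, 549755813888), (549755813888, 549755813888)] :=
  covD_split 2 (by decide +kernel) c20_32_m3_t12 c20_32_m3_t15
theorem c20_32_m3_t19 : CovD 0 progs [(30236569763840, 1649267441664), (144955146240, 9663676416), (549755813888, 549755813888), (549755813888, 549755813888)] :=
  covD_split 2 (by decide +kernel) c20_32_m3_t17 c20_32_m3_t18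
theorem c20_32_m3_t22 : CovD 0 progs [(33535104647168, 1649267441664), (144955146240, 9663676416), (549755813888, 549755813888), (549755813888, 549755813888)] :=
  covD_split 2 (by decide +kernel) c20_32_m3_t20 c20_32_m3_t21
theorem c20_32_m3_t23 : CovD 0 progs [(31885837205504, 3298534883328), (144955146240, 9663676416), (549755813888, 549755813888), (549755813888, 549755813888)] :=
  covD_split 0 (by decide +kernel) c20_32_m3_t19 c20_32_m3_t22
theorem c20_32_m3_t24 : CovD 0 progs [(31885837205504, 3298534883328), (135291469824, 19327352832), (549755813888, 549755813888), (549755813888, 549755813888)] :=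
  covD_split 1 (by decide +kernel) c20_32_m3_t16 c20_32_m3_t23
theorem c20_32_m3_t25 : CovD 0 progs [(31885837205504, 3298534883328), (115964116992, 38654705664), (549755813888, 549755813888), (549755813888, 549755813888)] :=
  covD_split 1 (by decide +kernel) c20_32_m3_t11 c20_32_m3_t24
theorem c20_32_m3 : CovD 0 progs [(31885837205504, 3298534883328), (77309411328, 77309411328), (549755813888, 549755813888), (549755813888, 549755813888)] :=
  covD_split 1 (by decide +kernel) c20_32_m3_t4 c20_32_m3_t25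

end Pool.Agent.helper71.FG.Crt.L
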