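import Pool.Agent.helper71.FG.Crt.LP

/-!
Generated certificates.
-/

namespace Pool.Agent.helper71.FG.Crt.L

open Pool.Agent.helper31.IA (Z Op)
open Pool.Agent.helper31.IC

mutual
theorem c20_32_m4_t0 : CovD 0 progs [(31885837205504, 3298534883328), (173946175488, 19327352832), (137438953472, 137438953472), (549755813888, 549755813888)] :=
  Pool.Agent.helper14.QF.covD_F chks_eq (.n 2 (.n 2 (.l 2) (.n 2 (.l 2) (.l 4))) (.n 2 (.n 2 (.l 4) (.n 0 (.l 4) (.l 4))) (.n 2 (.n 3 (.l 2) (.l 4)) (.n 3 (.l 4) (.l 4)))))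
    [(31885837205504, 3298534883328), (173946175488, 19327352832), (137438953472, 137438953472), (549755813888, 549755813888)] rfl (by decide +kernel)
theorem c20_32_m4_t1 : CovD 0 progs [(31885837205504, 3298534883328), (173946175488, 19327352832), (343597383680, 68719476736), (549755813888, 549755813888)] :=
  Pool.Agent.helper14.QF.covD_F chks_eq (.n 2 (.n 3 (.n 3 (.l 11) (.n 2 (.l 4) (.l 4))) (.n 0 (.n 3 (.l 4) (.l 4)) (.n 3 (.l 4) (.l 4)))) (.n 2 (.n 3 (.n 1 (.l 4) (.n 0 (.l 4) (.l 4))) (.n 3 (.n 0 (.l 4) (.l 4)) (.l 4))) (.n 3 (.n 0 (.n 1 (.l 4) (.l 4)) (.n 3 (.l 4) (.l 4))) (.n 3 (.n 0 (.l 4) (.l 4)) (.l 4)))))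
    [(31885837205504, 3298534883328), (173946175488, 19327352832), (343597383680, 68719476736), (549755813888, 549755813888)] rfl (by decide +kernel)
end
mutual
theorem c20_32_m4_t2 : CovD 0 progs [(31885837205504, 3298534883328), (164282499072, 9663676416), (481036337152, 68719476736), (549755813888, 549755813888)] :=
  Pool.Agent.helper14.QF.covD_F chks_eq (.n 2 (.n 3 (.n 0 (.n 2 (.l 4) (.l 4)) (.n 3 (.l 4) (.l 4))) (.n 3 (.n 0 (.l 4) (.l 4)) (.l 4))) (.n 0 (.n 3 (.n 2 (.l 4) (.l 4)) (.n 3 (.l 4) (.l 4))) (.n 3 (.n 3 (.l 4) (.l 4)) (.n 3 (.l 4) (.l 4)))))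
    [(31885837205504, 3298534883328), (164282499072, 9663676416), (481036337152, 68719476736), (549755813888, 549755813888)] rfl (by decide +kernel)
theorem c20_32_m4_t3 : CovD 0 progs [(31885837205504, 3298534883328), (183609851904, 9663676416), (481036337152, 68719476736), (549755813888, 549755813888)] :=
  Pool.Agent.helper14.QF.covD_F chks_eq (.n 2 (.n 0 (.n 3 (.n 3 (.l 4) (.l 4)) (.n 3 (.l 4) (.l 4))) (.n 3 (.n 0 (.n 3 (.l 4) (.l 4)) (.n 3 (.l 4) (.l 4))) (.n 3 (.n 0 (.l 4) (.l 4)) (.l 4)))) (.n 0 (.n 3 (.n 3 (.l 4) (.l 4)) (.n 3 (.l 4) (.l 4))) (.n 3 (.n 2 (.l 8) (.l 8)) (.n 3 (.n 0 (.l 4) (.l 4)) (.l 4)))))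
    [(31885837205504, 3298534883328), (183609851904, 9663676416), (481036337152, 68719476736), (549755813888, 549755813888)] rfl (by decide +kernel)
end
mutual
theorem c20_32_m4_t7 : CovD 0 progs [(31885837205504, 3298534883328), (164282499072, 9663676416), (687194767360, 137438953472), (549755813888, 549755813888)] :=
  Pool.Agent.helper14.QF.covD_F chks_eq (.n 2 (.n 0 (.n 2 (.n 3 (.n 0 (.l 4) (.l 4)) (.n 3 (.l 4) (.l 4))) (.n 3 (.l 8) (.n 3 (.l 4) (.l 3)))) (.n 2 (.n 3 (.n 0 (.l 8) (.l 8)) (.n 3 (.l 4) (.l 4))) (.n 3 (.l 8) (.n 3 (.l 4) (.l 3))))) (.n 2 (.n 3 (.l 8) (.n 3 (.l 4) (.l 3))) (.n 3 (.l 8) (.n 0 (.l 8) (.l 6)))))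
    [(31885837205504, 3298534883328), (164282499072, 9663676416), (687194767360, 137438953472), (549755813888, 549755813888)] rfl (by decide +kernel)
theorem c20_32_m4_t8 : CovD 0 progs [(31885837205504, 3298534883328), (164282499072, 9663676416), (962072674304, 137438953472), (549755813888, 549755813888)] :=
  Pool.Agent.helper14.QF.covD_F chks_eq (.n 2 (.n 2 (.n 3 (.l 4) (.l 8)) (.n 3 (.l 4) (.n 0 (.l 4) (.l 4)))) (.n 2 (.n 0 (.n 3 (.l 4) (.l 4)) (.n 3 (.l 4) (.n 0 (.l 4) (.l 4)))) (.n 3 (.n 3 (.l 4) (.l 4)) (.n 3 (.l 3) (.n 0 (.l 3) (.l 3))))))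
    [(31885837205504, 3298534883328), (164282499072, 9663676416), (962072674304, 137438953472), (549755813888, 549755813888)] rfl (by decide +kernel)
end
mutual
theorem c20_32_m4_t10 : CovD 0 progs [(31885837205504, 3298534883328), (183609851904, 9663676416), (687194767360, 137438953472), (549755813888, 549755813888)] :=
  Pool.Agent.helper14.QF.covD_F chks_eq (.n 2 (.n 2 (.n 0 (.n 3 (.n 0 (.l 8) (.l 8)) (.n 3 (.l 4) (.l 4))) (.n 3 (.l 8) (.n 3 (.l 4) (.l 4)))) (.n 3 (.n 0 (.l 8) (.l 8)) (.n 3 (.l 8) (.n 0 (.l 3) (.l 4))))) (.n 2 (.n 3 (.l 8) (.n 3 (.l 4) (.l 4))) (.n 3 (.l 8) (.n 0 (.l 8) (.l 6)))))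
    [(31885837205504, 3298534883328), (183609851904, 9663676416), (687194767360, 137438953472), (549755813888, 549755813888)] rfl (by decide +kernel)
theorem c20_32_m4_t11 : CovD 0 progs [(31885837205504, 3298534883328), (183609851904, 9663676416), (962072674304, 137438953472), (549755813888, 549755813888)] :=
  Pool.Agent.helper14.QF.covD_F chks_eq (.n 2 (.n 0 (.n 2 (.n 3 (.l 4) (.l 4)) (.n 3 (.l 4) (.l 4))) (.n 3 (.n 3 (.l 4) (.l 4)) (.n 2 (.l 4) (.l 4)))) (.n 2 (.n 3 (.n 3 (.l 4) (.l 4)) (.n 3 (.l 4) (.n 0 (.l 3) (.l 3)))) (.n 3 (.n 3 (.l 4) (.n 0 (.l 4) (.l 4))) (.n 0 (.n 3 (.l 3) (.l 3)) (.n 3 (.l 3) (.n 0 (.l 3) (.l 3)))))))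
    [(31885837205504, 3298534883328), (183609851904, 9663676416), (962072674304, 137438953472), (549755813888, 549755813888)] rfl (by decide +kernel)
end
mutual
theorem c20_32_m4_t15 : CovD 0 progs [(31885837205504, 3298534883328), (202937204736, 9663676416), (137438953472, 137438953472), (549755813888, 549755813888)] :=
  Pool.Agent.helper14.QF.covD_F chks_eq (.n 2 (.n 2 (.l 11) (.n 3 (.l 2) (.l 2))) (.n 2 (.n 2 (.l 4) (.n 0 (.l 4) (.l 4))) (.n 3 (.n 0 (.l 4) (.l 4)) (.n 3 (.l 4) (.l 4)))))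
    [(31885837205504, 3298534883328), (202937204736, 9663676416), (137438953472, 137438953472), (549755813888, 549755813888)] rfl (by decide +kernel)
theorem c20_32_m4_t16 : CovD 0 progs [(31885837205504, 3298534883328), (202937204736, 9663676416), (343597383680, 68719476736), (549755813888, 549755813888)] :=
  Pool.Agent.helper14.QF.covD_F chks_eq (.n 2 (.n 3 (.n 3 (.l 11) (.n 2 (.l 4) (.l 4))) (.n 0 (.n 3 (.l 4) (.l 4)) (.n 3 (.l 4) (.l 4)))) (.n 0 (.n 3 (.n 0 (.n 2 (.l 4) (.l 4)) (.n 3 (.l 4) (.l 4))) (.n 3 (.n 0 (.l 4) (.l 4)) (.l 4))) (.n 3 (.n 2 (.n 3 (.l 4) (.l 4)) (.n 3 (.l 4) (.l 4))) (.n 3 (.n 2 (.l 4) (.l 4)) (.l 4)))))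
    [(31885837205504, 3298534883328), (202937204736, 9663676416), (343597383680, 68719476736), (549755813888, 549755813888)] rfl (by decide +kernel)
end
mutual
theorem c20_32_m4_t17 : CovD 0 progs [(31885837205504, 3298534883328), (202937204736, 9663676416), (446676598784, 34359738368), (549755813888, 549755813888)] :=
  Pool.Agent.helper14.QF.covD_F chks_eq (.n 0 (.n 2 (.n 3 (.n 3 (.l 4) (.l 4)) (.n 3 (.l 4) (.l 4))) (.n 3 (.n 3 (.l 4) (.l 4)) (.n 3 (.l 4) (.l 4)))) (.n 2 (.n 3 (.n 3 (.l 4) (.l 4)) (.n 3 (.l 4) (.l 4))) (.n 3 (.n 0 (.l 8) (.l 8)) (.n 3 (.l 4) (.l 4)))))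
    [(31885837205504, 3298534883328), (202937204736, 9663676416), (446676598784, 34359738368), (549755813888, 549755813888)] rfl (by decide +kernel)
theorem c20_32_m4_t18 : CovD 0 progs [(31885837205504, 3298534883328), (202937204736, 9663676416), (515396075520, 34359738368), (549755813888, 549755813888)] :=
  Pool.Agent.helper14.QF.covD_F chks_eq (.n 0 (.n 2 (.n 3 (.n 0 (.l 8) (.l 8)) (.n 3 (.l 4) (.l 4))) (.n 3 (.l 8) (.n 3 (.l 4) (.l 4)))) (.n 3 (.n 3 (.l 4) (.l 8)) (.n 0 (.n 3 (.l 4) (.l 4)) (.n 3 (.l 8) (.l 4)))))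
    [(31885837205504, 3298534883328), (202937204736, 9663676416), (515396075520, 34359738368), (549755813888, 549755813888)] rfl (by decide +kernel)
end
mutual
theorem c20_32_m4_t22 : CovD 0 progs [(31885837205504, 3298534883328), (202937204736, 9663676416), (687194767360, 137438953472), (549755813888, 549755813888)] :=
  Pool.Agent.helper14.QF.covD_F chks_eq (.n 2 (.n 2 (.n 0 (.n 3 (.n 0 (.l 8) (.l 8)) (.n 3 (.l 4) (.l 4))) (.n 3 (.l 8) (.n 3 (.l 4) (.l 8)))) (.n 3 (.n 0 (.l 8) (.l 8)) (.n 3 (.l 8) (.l 8)))) (.n 3 (.n 3 (.l 8) (.l 9)) (.n 0 (.n 3 (.l 4) (.l 8)) (.n 3 (.l 4) (.l 6)))))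
    [(31885837205504, 3298534883328), (202937204736, 9663676416), (687194767360, 137438953472), (549755813888, 549755813888)] rfl (by decide +kernel)
theorem c20_32_m4_t23 : CovD 0 progs [(31885837205504, 3298534883328), (202937204736, 9663676416), (893353197568, 68719476736), (549755813888, 549755813888)] :=
  Pool.Agent.helper14.QF.covD_F chks_eq (.n 2 (.n 3 (.n 3 (.l 4) (.l 4)) (.n 0 (.l 4) (.l 4))) (.n 3 (.n 3 (.l 4) (.l 4)) (.n 3 (.l 4) (.n 0 (.l 3) (.l 3)))))
    [(31885837205504, 3298534883328), (202937204736, 9663676416), (893353197568, 68719476736), (549755813888, 549755813888)] rfl (by decide +kernel)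
end
mutual
theorem c20_32_m4_t24 : CovD 0 progs [(31885837205504, 3298534883328), (202937204736, 9663676416), (1030792151040, 68719476736), (549755813888, 549755813888)] :=
  Pool.Agent.helper14.QF.covD_F chks_eq (.n 2 (.n 3 (.n 3 (.n 0 (.l 4) (.l 4)) (.l 4)) (.n 0 (.n 3 (.l 4) (.l 3)) (.n 3 (.l 4) (.n 0 (.l 3) (.l 3))))) (.n 0 (.n 3 (.n 3 (.l 4) (.l 4)) (.n 3 (.l 3) (.n 0 (.l 3) (.l 3)))) (.n 3 (.n 3 (.l 15) (.l 4)) (.n 3 (.l 3) (.n 2 (.l 3) (.l 3))))))
    [(31885837205504, 3298534883328), (202937204736, 9663676416), (1030792151040, 68719476736), (549755813888, 549755813888)] rfl (by decide +kernel)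
theorem c20_32_m4_t28 : CovD 0 progs [(31885837205504, 3298534883328), (222264557568, 9663676416), (137438953472, 137438953472), (549755813888, 549755813888)] :=
  Pool.Agent.helper14.QF.covD_F chks_eq (.n 2 (.n 2 (.l 11) (.n 3 (.l 2) (.l 2))) (.n 3 (.n 3 (.l 11) (.n 2 (.l 2) (.n 0 (.l 4) (.l 4)))) (.n 2 (.n 2 (.l 2) (.l 4)) (.n 2 (.l 4) (.n 3 (.l 4) (.l 2))))))
    [(31885837205504, 3298534883328), (222264557568, 9663676416), (137438953472, 137438953472), (549755813888, 549755813888)] rfl (by decide +kernel)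
end
mutual
theorem c20_32_m4_t29 : CovD 0 progs [(31885837205504, 3298534883328), (222264557568, 9663676416), (309237645312, 34359738368), (549755813888, 549755813888)] :=
  Pool.Agent.helper14.QF.covD_F chks_eq (.n 2 (.n 3 (.n 3 (.l 4) (.l 4)) (.n 3 (.l 4) (.l 4))) (.n 3 (.n 0 (.n 0 (.l 4) (.l 4)) (.n 3 (.l 4) (.l 4))) (.n 3 (.n 0 (.l 4) (.l 4)) (.l 4))))
    [(31885837205504, 3298534883328), (222264557568, 9663676416), (309237645312, 34359738368), (549755813888, 549755813888)] rfl (by decide +kernel)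
theorem c20_32_m4_t30 : CovD 0 progs [(31885837205504, 3298534883328), (222264557568, 9663676416), (377957122048, 34359738368), (549755813888, 549755813888)] :=
  Pool.Agent.helper14.QF.covD_F chks_eq (.n 0 (.n 2 (.n 3 (.n 3 (.l 4) (.l 4)) (.n 3 (.l 4) (.l 4))) (.n 3 (.n 3 (.l 4) (.l 4)) (.n 3 (.l 4) (.l 4)))) (.n 3 (.n 3 (.n 3 (.l 11) (.n 2 (.l 4) (.l 4))) (.n 0 (.n 2 (.l 4) (.l 4)) (.n 2 (.l 4) (.l 4)))) (.n 2 (.n 3 (.l 4) (.l 4)) (.n 3 (.n 0 (.l 4) (.l 4)) (.l 4)))))
    [(31885837205504, 3298534883328), (222264557568, 9663676416), (377957122048, 34359738368), (549755813888, 549755813888)] rfl (by decide +kernel)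
end
mutual
theorem c20_32_m4_t32 : CovD 0 progs [(31885837205504, 3298534883328), (222264557568, 9663676416), (446676598784, 34359738368), (549755813888, 549755813888)] :=
  Pool.Agent.helper14.QF.covD_F chks_eq (.n 0 (.n 2 (.n 3 (.n 3 (.l 4) (.n 0 (.l 4) (.l 4))) (.n 3 (.l 4) (.l 4))) (.n 3 (.n 3 (.l 4) (.l 4)) (.n 3 (.l 4) (.l 4)))) (.n 2 (.n 3 (.n 3 (.l 8) (.n 0 (.l 4) (.l 4))) (.n 3 (.n 0 (.l 4) (.l 4)) (.l 4))) (.n 3 (.n 0 (.l 8) (.l 8)) (.n 3 (.l 8) (.l 4)))))
    [(31885837205504, 3298534883328), (222264557568, 9663676416), (446676598784, 34359738368), (549755813888, 549755813888)] rfl (by decide +kernel)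
theorem c20_32_m4_t33 : CovD 0 progs [(31885837205504, 3298534883328), (222264557568, 9663676416), (515396075520, 34359738368), (549755813888, 549755813888)] :=
  Pool.Agent.helper14.QF.covD_F chks_eq (.n 0 (.n 2 (.n 3 (.n 0 (.l 8) (.l 8)) (.n 3 (.l 4) (.l 4))) (.n 3 (.l 8) (.n 3 (.l 4) (.l 4)))) (.n 3 (.n 3 (.l 8) (.l 8)) (.n 3 (.l 8) (.n 0 (.l 8) (.l 8)))))
    [(31885837205504, 3298534883328), (222264557568, 9663676416), (515396075520, 34359738368), (549755813888, 549755813888)] rfl (by decide +kernel)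
end
mutual
theorem c20_32_m4_t37 : CovD 0 progs [(31885837205504, 3298534883328), (222264557568, 9663676416), (687194767360, 137438953472), (549755813888, 549755813888)] :=
  Pool.Agent.helper14.QF.covD_F chks_eq (.n 2 (.n 2 (.n 0 (.n 3 (.n 0 (.l 8) (.l 8)) (.n 3 (.l 8) (.l 8))) (.n 3 (.l 8) (.n 3 (.l 6) (.l 8)))) (.n 3 (.n 0 (.l 8) (.l 8)) (.n 3 (.l 8) (.l 8)))) (.n 3 (.n 3 (.n 0 (.l 4) (.l 4)) (.l 8)) (.n 0 (.n 2 (.l 8) (.l 8)) (.n 2 (.l 8) (.l 6)))))
    [(31885837205504, 3298534883328), (222264557568, 9663676416), (687194767360, 137438953472), (549755813888, 549755813888)] rfl (by decide +kernel)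
theorem c20_32_m4_t38 : CovD 0 progs [(31885837205504, 3298534883328), (222264557568, 9663676416), (893353197568, 68719476736), (549755813888, 549755813888)] :=
  Pool.Agent.helper14.QF.covD_F chks_eq (.n 2 (.n 3 (.n 3 (.l 4) (.l 4)) (.n 0 (.l 6) (.n 0 (.l 4) (.l 4)))) (.n 3 (.n 3 (.n 3 (.l 4) (.l 4)) (.l 4)) (.n 0 (.n 2 (.l 4) (.l 4)) (.n 2 (.l 4) (.n 0 (.l 4) (.l 4))))))
    [(31885837205504, 3298534883328), (222264557568, 9663676416), (893353197568, 68719476736), (549755813888, 549755813888)] rfl (by decide +kernel)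
theorem c20_32_m4_t39 : CovD 0 progs [(31885837205504, 3298534883328), (222264557568, 9663676416), (1030792151040, 68719476736), (549755813888, 549755813888)] :=
  Pool.Agent.helper14.QF.covD_F chks_eq (.n 2 (.n 0 (.n 3 (.n 3 (.n 0 (.l 4) (.l 4)) (.l 4)) (.n 3 (.l 4) (.n 0 (.l 3) (.l 3)))) (.n 3 (.n 3 (.l 15) (.l 4)) (.n 3 (.l 4) (.n 0 (.l 3) (.l 3))))) (.n 0 (.n 3 (.n 3 (.l 15) (.l 4)) (.n 3 (.l 3) (.n 3 (.l 3) (.l 3)))) (.n 3 (.n 3 (.l 15) (.l 4)) (.n 3 (.n 0 (.l 3) (.l 3)) (.n 3 (.l 3) (.n 0 (.l 3) (.l 3)))))))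
    [(31885837205504, 3298534883328), (222264557568, 9663676416), (1030792151040, 68719476736), (549755813888, 549755813888)] rfl (by decide +kernel)
end
theorem c20_32_m4_t4 : CovD 0 progs [(31885837205504, 3298534883328), (173946175488, 19327352832), (481036337152, 68719476736), (549755813888, 549755813888)] :=
  covD_split 1 (by decide +kernel) c20_32_m4_t2 c20_32_m4_t3
theorem c20_32_m4_t5 : CovD 0 progs [(31885837205504, 3298534883328), (173946175488, 19327352832), (412316860416, 137438953472), (549755813888, 549755813888)] :=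
  covD_split 2 (by decide +kernel) c20_32_m4_t1 c20_32_m4_t4
theorem c20_32_m4_t6 : CovD 0 progs [(31885837205504, 3298534883328), (173946175488, 19327352832), (274877906944, 274877906944), (549755813888, 549755813888)] :=
  covD_split 2 (by decide +kernel) c20_32_m4_t0 c20_32_m4_t5
theorem c20_32_m4_t9 : CovD 0 progs [(31885837205504, 3298534883328), (164282499072, 9663676416), (824633720832, 274877906944), (549755813888, 549755813888)] :=
  covD_split 2 (by decide +kernel) c20_32_m4_t7 c20_32_m4_t8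
theorem c20_32_m4_t12 : CovD 0 progs [(31885837205504, 3298534883328), (183609851904, 9663676416), (824633720832, 274877906944), (549755813888, 549755813888)] :=
  covD_split 2 (by decide +kernel) c20_32_m4_t10 c20_32_m4_t11
theorem c20_32_m4_t13 : CovD 0 progs [(31885837205504, 3298534883328), (173946175488, 19327352832), (824633720832, 274877906944), (549755813888, 549755813888)] :=
  covD_split 1 (by decide +kernel) c20_32_m4_t9 c20_32_m4_t12
theorem c20_32_m4_t14 : CovD 0 progs [(31885837205504, 3298534883328), (173946175488, 19327352832), (549755813888, 549755813888), (549755813888, 549755813888)] :=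
  covD_split 2 (by decide +kernel) c20_32_m4_t6 c20_32_m4_t13
theorem c20_32_m4_t19 : CovD 0 progs [(31885837205504, 3298534883328), (202937204736, 9663676416), (481036337152, 68719476736), (549755813888, 549755813888)] :=
  covD_split 2 (by decide +kernel) c20_32_m4_t17 c20_32_m4_t18
theorem c20_32_m4_t20 : CovD 0 progs [(31885837205504, 3298534883328), (202937204736, 9663676416), (412316860416, 137438953472), (549755813888, 549755813888)] :=
  covD_split 2 (by decide +kernel) c20_32_m4_t16 c20_32_m4_t19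
theorem c20_32_m4_t21 : CovD 0 progs [(31885837205504, 3298534883328), (202937204736, 9663676416), (274877906944, 274877906944), (549755813888, 549755813888)] :=
  covD_split 2 (by decide +kernel) c20_32_m4_t15 c20_32_m4_t20
theorem c20_32_m4_t25 : CovD 0 progs [(31885837205504, 3298534883328), (202937204736, 9663676416), (962072674304, 137438953472), (549755813888, 549755813888)] :=
  covD_split 2 (by decide +kernel) c20_32_m4_t23 c20_32_m4_t24
theorem c20_32_m4_t26 : CovD 0 progs [(31885837205504, 3298534883328), (202937204736, 9663676416), (824633720832, 274877906944), (549755813888, 549755813888)] :=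
  covD_split 2 (by decide +kernel) c20_32_m4_t22 c20_32_m4_t25
theorem c20_32_m4_t27 : CovD 0 progs [(31885837205504, 3298534883328), (202937204736, 9663676416), (549755813888, 549755813888), (549755813888, 549755813888)] :=
  covD_split 2 (by decide +kernel) c20_32_m4_t21 c20_32_m4_t26
theorem c20_32_m4_t31 : CovD 0 progs [(31885837205504, 3298534883328), (222264557568, 9663676416), (343597383680, 68719476736), (549755813888, 549755813888)] :=
  covD_split 2 (by decide +kernel) c20_32_m4_t29 c20_32_m4_t30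
theorem c20_32_m4_t34 : CovD 0 progs [(31885837205504, 3298534883328), (222264557568, 9663676416), (481036337152, 68719476736), (549755813888, 549755813888)] :=
  covD_split 2 (by decide +kernel) c20_32_m4_t32 c20_32_m4_t33
theorem c20_32_m4_t35 : CovD 0 progs [(31885837205504, 3298534883328), (222264557568, 9663676416), (412316860416, 137438953472), (549755813888, 549755813888)] :=
  covD_split 2 (by decide +kernel) c20_32_m4_t31 c20_32_m4_t34
theorem c20_32_m4_t36 : CovD 0 progs [(31885837205504, 3298534883328), (222264557568, 9663676416), (274877906944, 274877906944), (549755813888, 549755813888)] :=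
  covD_split 2 (by decide +kernel) c20_32_m4_t28 c20_32_m4_t35
theorem c20_32_m4_t40 : CovD 0 progs [(31885837205504, 3298534883328), (222264557568, 9663676416), (962072674304, 137438953472), (549755813888, 549755813888)] :=
  covD_split 2 (by decide +kernel) c20_32_m4_t38 c20_32_m4_t39
theorem c20_32_m4_t41 : CovD 0 progs [(31885837205504, 3298534883328), (222264557568, 9663676416), (824633720832, 274877906944), (549755813888, 549755813888)] :=
  covD_split 2 (by decide +kernel) c20_32_m4_t37 c20_32_m4_t40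
theorem c20_32_m4_t42 : CovD 0 progs [(31885837205504, 3298534883328), (222264557568, 9663676416), (549755813888, 549755813888), (549755813888, 549755813888)] :=
  covD_split 2 (by decide +kernel) c20_32_m4_t36 c20_32_m4_t41
theorem c20_32_m4_t43 : CovD 0 progs [(31885837205504, 3298534883328), (212600881152, 19327352832), (549755813888, 549755813888), (549755813888, 549755813888)] :=
  covD_split 1 (by decide +kernel) c20_32_m4_t27 c20_32_m4_t42
theorem c20_32_m4 : CovD 0 progs [(31885837205504, 3298534883328), (193273528320, 38654705664), (549755813888, 549755813888), (549755813888, 549755813888)] :=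
  covD_split 1 (by decide +kernel) c20_32_m4_t14 c20_32_m4_t43

end Pool.Agent.helper71.FG.Crt.L
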