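import Pool.Agent.helper71.FG.Crt.LP

/-!
Generated certificates.
-/

namespace Pool.Agent.helper71.FG.Crt.L

open Pool.Agent.helper31.IA (Z Op)
open Pool.Agent.helper31.IC

mutual
theorem c20_32_m5_t0 : CovD 0 progs [(31885837205504, 3298534883328), (241591910400, 9663676416), (137438953472, 137438953472), (549755813888, 549755813888)] :=
  Pool.Agent.helper14.QF.covD_F chks_eq (.n 2 (.l 10) (.n 2 (.l 10) (.n 3 (.l 10) (.l 10))))
    [(31885837205504, 3298534883328), (241591910400, 9663676416), (137438953472, 137438953472), (549755813888, 549755813888)] rfl (by decide +kernel)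
theorem c20_32_m5_t1 : CovD 0 progs [(31885837205504, 3298534883328), (241591910400, 9663676416), (343597383680, 68719476736), (549755813888, 549755813888)] :=
  Pool.Agent.helper14.QF.covD_F chks_eq (.n 2 (.n 3 (.l 10) (.n 3 (.l 10) (.n 3 (.l 10) (.l 4)))) (.n 3 (.l 10) (.n 1 (.n 3 (.l 10) (.n 3 (.n 0 (.l 4) (.l 4)) (.l 4))) (.l 10))))
    [(31885837205504, 3298534883328), (241591910400, 9663676416), (343597383680, 68719476736), (549755813888, 549755813888)] rfl (by decide +kernel)
end
mutual
theorem c20_32_m5_t2 : CovD 0 progs [(31885837205504, 3298534883328), (241591910400, 9663676416), (481036337152, 68719476736), (549755813888, 549755813888)] :=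
  Pool.Agent.helper14.QF.covD_F chks_eq (.n 2 (.n 3 (.l 10) (.n 3 (.n 1 (.n 3 (.l 10) (.n 0 (.l 4) (.l 4))) (.l 10)) (.n 0 (.n 3 (.l 4) (.l 4)) (.n 3 (.l 4) (.l 4))))) (.n 3 (.n 3 (.l 10) (.l 10)) (.n 0 (.n 2 (.n 3 (.l 8) (.l 8)) (.n 3 (.l 4) (.l 4))) (.n 3 (.l 8) (.n 2 (.l 8) (.l 6))))))
    [(31885837205504, 3298534883328), (241591910400, 9663676416), (481036337152, 68719476736), (549755813888, 549755813888)] rfl (by decide +kernel)
theorem c20_32_m5_t5 : CovD 0 progs [(31885837205504, 3298534883328), (241591910400, 9663676416), (687194767360, 137438953472), (549755813888, 549755813888)] :=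
  Pool.Agent.helper14.QF.covD_F chks_eq (.n 2 (.n 3 (.n 3 (.l 10) (.n 2 (.l 8) (.l 8))) (.n 2 (.n 0 (.n 3 (.l 8) (.l 8)) (.n 3 (.l 6) (.l 8))) (.n 3 (.l 8) (.l 8)))) (.n 3 (.n 3 (.l 10) (.n 0 (.l 6) (.l 4))) (.n 0 (.n 2 (.l 8) (.l 8)) (.n 2 (.l 8) (.n 0 (.l 6) (.l 6))))))
    [(31885837205504, 3298534883328), (241591910400, 9663676416), (687194767360, 137438953472), (549755813888, 549755813888)] rfl (by decide +kernel)
end
mutual
theorem c20_32_m5_t6 : CovD 0 progs [(31885837205504, 3298534883328), (241591910400, 9663676416), (893353197568, 68719476736), (549755813888, 549755813888)] :=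
  Pool.Agent.helper14.QF.covD_F chks_eq (.n 3 (.n 3 (.l 10) (.n 2 (.l 4) (.n 0 (.l 4) (.l 4)))) (.n 0 (.n 2 (.n 0 (.l 6) (.l 4)) (.n 3 (.l 4) (.n 0 (.l 3) (.l 3)))) (.n 2 (.n 3 (.l 4) (.l 3)) (.n 3 (.l 4) (.n 0 (.l 3) (.l 3))))))
    [(31885837205504, 3298534883328), (241591910400, 9663676416), (893353197568, 68719476736), (549755813888, 549755813888)] rfl (by decide +kernel)
theorem c20_32_m5_t7 : CovD 0 progs [(31885837205504, 3298534883328), (241591910400, 9663676416), (1030792151040, 68719476736), (549755813888, 549755813888)] :=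
  Pool.Agent.helper14.QF.covD_F chks_eq (.n 2 (.n 3 (.n 3 (.l 15) (.n 0 (.l 4) (.l 4))) (.n 0 (.n 3 (.l 4) (.n 0 (.l 3) (.l 3))) (.n 3 (.l 4) (.n 2 (.l 3) (.n 0 (.l 3) (.l 3)))))) (.n 3 (.n 3 (.l 15) (.n 0 (.l 4) (.l 4))) (.n 0 (.n 3 (.n 0 (.l 3) (.l 3)) (.n 3 (.l 3) (.n 0 (.l 3) (.l 3)))) (.n 0 (.n 3 (.l 4) (.n 2 (.l 3) (.l 3))) (.n 3 (.l 4) (.n 3 (.l 3) (.l 3)))))))
    [(31885837205504, 3298534883328), (241591910400, 9663676416), (1030792151040, 68719476736), (549755813888, 549755813888)] rfl (by decide +kernel)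
end
mutual
theorem c20_32_m5_t11 : CovD 0 progs [(31885837205504, 3298534883328), (260919263232, 9663676416), (274877906944, 274877906944), (549755813888, 549755813888)] :=
  Pool.Agent.helper14.QF.covD_F chks_eq (.n 2 (.n 1 (.l 10) (.l 10)) (.n 3 (.l 10) (.n 2 (.l 10) (.n 2 (.l 10) (.n 1 (.n 3 (.l 10) (.l 10)) (.l 10))))))
    [(31885837205504, 3298534883328), (260919263232, 9663676416), (274877906944, 274877906944), (549755813888, 549755813888)] rfl (by decide +kernel)
theorem c20_32_m5_t12 : CovD 0 progs [(31885837205504, 3298534883328), (260919263232, 9663676416), (687194767360, 137438953472), (549755813888, 549755813888)] :=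
  Pool.Agent.helper14.QF.covD_F chks_eq (.n 2 (.n 3 (.l 10) (.n 3 (.l 10) (.n 2 (.n 0 (.l 8) (.l 8)) (.l 8)))) (.n 3 (.n 3 (.l 10) (.l 10)) (.n 2 (.n 0 (.l 8) (.l 8)) (.n 3 (.l 4) (.n 0 (.l 3) (.l 3))))))
    [(31885837205504, 3298534883328), (260919263232, 9663676416), (687194767360, 137438953472), (549755813888, 549755813888)] rfl (by decide +kernel)
end
mutual
theorem c20_32_m5_t13 : CovD 0 progs [(31885837205504, 3298534883328), (260919263232, 9663676416), (893353197568, 68719476736), (549755813888, 549755813888)] :=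
  Pool.Agent.helper14.QF.covD_F chks_eq (.n 3 (.n 3 (.l 10) (.l 10)) (.n 0 (.n 2 (.n 3 (.l 4) (.l 3)) (.n 3 (.l 4) (.n 0 (.l 3) (.l 3)))) (.n 2 (.n 3 (.l 4) (.n 0 (.l 3) (.l 3))) (.n 3 (.l 4) (.n 2 (.l 3) (.n 0 (.l 3) (.l 3)))))))
    [(31885837205504, 3298534883328), (260919263232, 9663676416), (893353197568, 68719476736), (549755813888, 549755813888)] rfl (by decide +kernel)
theorem c20_32_m5_t14 : CovD 0 progs [(31885837205504, 3298534883328), (260919263232, 9663676416), (1030792151040, 68719476736), (274877906944, 274877906944)] :=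
  Pool.Agent.helper14.QF.covD_F chks_eq (.n 3 (.l 10) (.n 1 (.n 3 (.l 10) (.l 10)) (.l 10)))
    [(31885837205504, 3298534883328), (260919263232, 9663676416), (1030792151040, 68719476736), (274877906944, 274877906944)] rfl (by decide +kernel)
end
mutual
theorem c20_32_m5_t15 : CovD 0 progs [(31885837205504, 3298534883328), (260919263232, 9663676416), (1030792151040, 68719476736), (824633720832, 274877906944)] :=
  Pool.Agent.helper14.QF.covD_F chks_eq (.n 2 (.n 0 (.n 3 (.l 4) (.n 2 (.l 3) (.n 0 (.l 3) (.l 3)))) (.n 0 (.n 3 (.l 4) (.n 1 (.l 3) (.l 3))) (.n 3 (.l 4) (.n 2 (.l 3) (.l 3))))) (.n 2 (.n 0 (.n 3 (.l 4) (.n 0 (.l 3) (.l 3))) (.n 3 (.l 4) (.n 3 (.l 3) (.l 3)))) (.n 0 (.n 3 (.l 4) (.n 3 (.l 3) (.l 3))) (.n 3 (.n 0 (.l 4) (.l 4)) (.n 3 (.l 3) (.n 0 (.l 3) (.l 3)))))))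
    [(31885837205504, 3298534883328), (260919263232, 9663676416), (1030792151040, 68719476736), (824633720832, 274877906944)] rfl (by decide +kernel)
theorem c20_32_m5_t21 : CovD 0 progs [(31885837205504, 3298534883328), (280246616064, 9663676416), (274877906944, 274877906944), (549755813888, 549755813888)] :=
  Pool.Agent.helper14.QF.covD_F chks_eq (.n 2 (.l 10) (.n 3 (.l 10) (.n 2 (.l 10) (.l 10))))
    [(31885837205504, 3298534883328), (280246616064, 9663676416), (274877906944, 274877906944), (549755813888, 549755813888)] rfl (by decide +kernel)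
end
mutual
theorem c20_32_m5_t22 : CovD 0 progs [(31885837205504, 3298534883328), (280246616064, 9663676416), (824633720832, 274877906944), (274877906944, 274877906944)] :=
  Pool.Agent.helper14.QF.covD_F chks_eq (.n 3 (.l 10) (.n 2 (.l 10) (.l 10)))
    [(31885837205504, 3298534883328), (280246616064, 9663676416), (824633720832, 274877906944), (274877906944, 274877906944)] rfl (by decide +kernel)
theorem c20_32_m5_t23 : CovD 0 progs [(31885837205504, 3298534883328), (280246616064, 9663676416), (687194767360, 137438953472), (824633720832, 274877906944)] :=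
  Pool.Agent.helper14.QF.covD_F chks_eq (.n 2 (.n 3 (.l 10) (.n 2 (.l 10) (.l 8))) (.n 3 (.l 10) (.n 0 (.n 2 (.l 4) (.l 4)) (.n 2 (.l 4) (.n 0 (.l 3) (.l 3))))))
    [(31885837205504, 3298534883328), (280246616064, 9663676416), (687194767360, 137438953472), (824633720832, 274877906944)] rfl (by decide +kernel)
end
mutual
theorem c20_32_m5_t24 : CovD 0 progs [(31885837205504, 3298534883328), (280246616064, 9663676416), (893353197568, 68719476736), (824633720832, 274877906944)] :=
  Pool.Agent.helper14.QF.covD_F chks_eq (.n 2 (.n 0 (.n 3 (.l 4) (.n 0 (.l 3) (.l 3))) (.n 3 (.l 4) (.n 2 (.l 3) (.l 3)))) (.n 0 (.n 3 (.l 4) (.n 0 (.l 3) (.n 0 (.l 3) (.l 3)))) (.n 3 (.n 0 (.l 4) (.l 4)) (.n 3 (.l 3) (.n 0 (.l 3) (.l 3))))))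
    [(31885837205504, 3298534883328), (280246616064, 9663676416), (893353197568, 68719476736), (824633720832, 274877906944)] rfl (by decide +kernel)
theorem c20_32_m5_t25 : CovD 0 progs [(31885837205504, 3298534883328), (280246616064, 9663676416), (996432412672, 34359738368), (824633720832, 274877906944)] :=
  Pool.Agent.helper14.QF.covD_F chks_eq (.n 3 (.n 3 (.l 10) (.n 0 (.l 3) (.l 3))) (.n 0 (.n 0 (.n 1 (.l 3) (.l 3)) (.n 2 (.l 3) (.l 3))) (.n 0 (.n 3 (.l 3) (.l 3)) (.n 3 (.l 3) (.n 0 (.l 3) (.l 3))))))
    [(31885837205504, 3298534883328), (280246616064, 9663676416), (996432412672, 34359738368), (824633720832, 274877906944)] rfl (by decide +kernel)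
end
mutual
theorem c20_32_m5_t26 : CovD 0 progs [(31885837205504, 3298534883328), (280246616064, 9663676416), (1065151889408, 34359738368), (824633720832, 274877906944)] :=
  Pool.Agent.helper14.QF.covD_F chks_eq (.n 3 (.n 3 (.l 10) (.n 0 (.n 0 (.l 3) (.l 3)) (.n 0 (.l 3) (.l 3)))) (.n 0 (.n 0 (.n 3 (.l 3) (.l 3)) (.n 3 (.l 3) (.n 0 (.l 3) (.l 3)))) (.n 0 (.n 3 (.l 3) (.n 0 (.l 3) (.l 3))) (.n 1 (.n 3 (.l 3) (.l 3)) (.n 3 (.l 3) (.l 3))))))
    [(31885837205504, 3298534883328), (280246616064, 9663676416), (1065151889408, 34359738368), (824633720832, 274877906944)] rfl (by decide +kernel)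
theorem c20_32_m5_t32 : CovD 0 progs [(31885837205504, 3298534883328), (299573968896, 9663676416), (274877906944, 274877906944), (549755813888, 549755813888)] :=
  Pool.Agent.helper14.QF.covD_F chks_eq (.n 2 (.l 10) (.n 2 (.l 10) (.n 3 (.l 10) (.l 10))))
    [(31885837205504, 3298534883328), (299573968896, 9663676416), (274877906944, 274877906944), (549755813888, 549755813888)] rfl (by decide +kernel)
end
mutual
theorem c20_32_m5_t33 : CovD 0 progs [(31885837205504, 3298534883328), (299573968896, 9663676416), (824633720832, 274877906944), (274877906944, 274877906944)] :=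
  Pool.Agent.helper14.QF.covD_F chks_eq (.n 2 (.l 10) (.n 3 (.l 10) (.l 10)))
    [(31885837205504, 3298534883328), (299573968896, 9663676416), (824633720832, 274877906944), (274877906944, 274877906944)] rfl (by decide +kernel)
theorem c20_32_m5_t34 : CovD 0 progs [(31885837205504, 3298534883328), (299573968896, 9663676416), (687194767360, 137438953472), (824633720832, 274877906944)] :=
  Pool.Agent.helper14.QF.covD_F chks_eq (.n 3 (.l 10) (.n 2 (.l 10) (.n 3 (.l 10) (.n 2 (.l 10) (.n 0 (.l 3) (.l 3))))))
    [(31885837205504, 3298534883328), (299573968896, 9663676416), (687194767360, 137438953472), (824633720832, 274877906944)] rfl (by decide +kernel)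
end
mutual
theorem c20_32_m5_t35 : CovD 0 progs [(31885837205504, 3298534883328), (299573968896, 9663676416), (893353197568, 68719476736), (824633720832, 274877906944)] :=
  Pool.Agent.helper14.QF.covD_F chks_eq (.n 2 (.n 3 (.l 10) (.n 0 (.n 0 (.l 3) (.l 3)) (.n 2 (.l 3) (.n 0 (.l 3) (.l 3))))) (.n 3 (.l 10) (.n 3 (.n 0 (.l 3) (.n 0 (.l 3) (.l 3))) (.n 0 (.n 0 (.l 3) (.l 3)) (.n 2 (.l 3) (.l 3))))))
    [(31885837205504, 3298534883328), (299573968896, 9663676416), (893353197568, 68719476736), (824633720832, 274877906944)] rfl (by decide +kernel)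
theorem c20_32_m5_t36 : CovD 0 progs [(31885837205504, 3298534883328), (299573968896, 9663676416), (996432412672, 34359738368), (824633720832, 274877906944)] :=
  Pool.Agent.helper14.QF.covD_F chks_eq (.n 3 (.n 3 (.l 10) (.l 10)) (.n 0 (.n 0 (.n 3 (.l 3) (.l 3)) (.n 2 (.l 3) (.n 0 (.l 3) (.l 3)))) (.n 0 (.n 3 (.l 3) (.n 0 (.l 3) (.l 3))) (.n 3 (.l 3) (.n 1 (.l 3) (.l 3))))))
    [(31885837205504, 3298534883328), (299573968896, 9663676416), (996432412672, 34359738368), (824633720832, 274877906944)] rfl (by decide +kernel)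
theorem c20_32_m5_t37 : CovD 0 progs [(31885837205504, 3298534883328), (299573968896, 9663676416), (1065151889408, 34359738368), (824633720832, 274877906944)] :=
  Pool.Agent.helper14.QF.covD_F chks_eq (.n 3 (.n 3 (.l 10) (.n 0 (.n 0 (.l 3) (.l 3)) (.n 0 (.l 3) (.l 3)))) (.n 0 (.n 0 (.n 3 (.l 3) (.n 0 (.l 3) (.l 3))) (.n 3 (.l 3) (.n 1 (.l 3) (.l 3)))) (.n 0 (.n 2 (.n 3 (.l 3) (.l 3)) (.n 3 (.l 3) (.l 3))) (.n 2 (.n 3 (.l 3) (.l 3)) (.n 3 (.l 3) (.l 3))))))
    [(31885837205504, 3298534883328), (299573968896, 9663676416), (1065151889408, 34359738368), (824633720832, 274877906944)] rfl (by decide +kernel)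
end
theorem c20_32_m5_t3 : CovD 0 progs [(31885837205504, 3298534883328), (241591910400, 9663676416), (412316860416, 137438953472), (549755813888, 549755813888)] :=
  covD_split 2 (by decide +kernel) c20_32_m5_t1 c20_32_m5_t2
theorem c20_32_m5_t4 : CovD 0 progs [(31885837205504, 3298534883328), (241591910400, 9663676416), (274877906944, 274877906944), (549755813888, 549755813888)] :=
  covD_split 2 (by decide +kernel) c20_32_m5_t0 c20_32_m5_t3
theorem c20_32_m5_t8 : CovD 0 progs [(31885837205504, 3298534883328), (241591910400, 9663676416), (962072674304, 137438953472), (549755813888, 549755813888)] :=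
  covD_split 2 (by decide +kernel) c20_32_m5_t6 c20_32_m5_t7
theorem c20_32_m5_t9 : CovD 0 progs [(31885837205504, 3298534883328), (241591910400, 9663676416), (824633720832, 274877906944), (549755813888, 549755813888)] :=
  covD_split 2 (by decide +kernel) c20_32_m5_t5 c20_32_m5_t8
theorem c20_32_m5_t10 : CovD 0 progs [(31885837205504, 3298534883328), (241591910400, 9663676416), (549755813888, 549755813888), (549755813888, 549755813888)] :=
  covD_split 2 (by decide +kernel) c20_32_m5_t4 c20_32_m5_t9
theorem c20_32_m5_t16 : CovD 0 progs [(31885837205504, 3298534883328), (260919263232, 9663676416), (1030792151040, 68719476736), (549755813888, 549755813888)] :=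
  covD_split 3 (by decide +kernel) c20_32_m5_t14 c20_32_m5_t15
theorem c20_32_m5_t17 : CovD 0 progs [(31885837205504, 3298534883328), (260919263232, 9663676416), (962072674304, 137438953472), (549755813888, 549755813888)] :=
  covD_split 2 (by decide +kernel) c20_32_m5_t13 c20_32_m5_t16
theorem c20_32_m5_t18 : CovD 0 progs [(31885837205504, 3298534883328), (260919263232, 9663676416), (824633720832, 274877906944), (549755813888, 549755813888)] :=
  covD_split 2 (by decide +kernel) c20_32_m5_t12 c20_32_m5_t17
theorem c20_32_m5_t19 : CovD 0 progs [(31885837205504, 3298534883328), (260919263232, 9663676416), (549755813888, 549755813888), (549755813888, 549755813888)] :=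
  covD_split 2 (by decide +kernel) c20_32_m5_t11 c20_32_m5_t18
theorem c20_32_m5_t20 : CovD 0 progs [(31885837205504, 3298534883328), (251255586816, 19327352832), (549755813888, 549755813888), (549755813888, 549755813888)] :=
  covD_split 1 (by decide +kernel) c20_32_m5_t10 c20_32_m5_t19
theorem c20_32_m5_t27 : CovD 0 progs [(31885837205504, 3298534883328), (280246616064, 9663676416), (1030792151040, 68719476736), (824633720832, 274877906944)] :=
  covD_split 2 (by decide +kernel) c20_32_m5_t25 c20_32_m5_t26
theorem c20_32_m5_t28 : CovD 0 progs [(31885837205504, 3298534883328), (280246616064, 9663676416), (962072674304, 137438953472), (824633720832, 274877906944)] :=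
  covD_split 2 (by decide +kernel) c20_32_m5_t24 c20_32_m5_t27
theorem c20_32_m5_t29 : CovD 0 progs [(31885837205504, 3298534883328), (280246616064, 9663676416), (824633720832, 274877906944), (824633720832, 274877906944)] :=
  covD_split 2 (by decide +kernel) c20_32_m5_t23 c20_32_m5_t28
theorem c20_32_m5_t30 : CovD 0 progs [(31885837205504, 3298534883328), (280246616064, 9663676416), (824633720832, 274877906944), (549755813888, 549755813888)] :=
  covD_split 3 (by decide +kernel) c20_32_m5_t22 c20_32_m5_t29
theorem c20_32_m5_t31 : CovD 0 progs [(31885837205504, 3298534883328), (280246616064, 9663676416), (549755813888, 549755813888), (549755813888, 549755813888)] :=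
  covD_split 2 (by decide +kernel) c20_32_m5_t21 c20_32_m5_t30
theorem c20_32_m5_t38 : CovD 0 progs [(31885837205504, 3298534883328), (299573968896, 9663676416), (1030792151040, 68719476736), (824633720832, 274877906944)] :=
  covD_split 2 (by decide +kernel) c20_32_m5_t36 c20_32_m5_t37
theorem c20_32_m5_t39 : CovD 0 progs [(31885837205504, 3298534883328), (299573968896, 9663676416), (962072674304, 137438953472), (824633720832, 274877906944)] :=
  covD_split 2 (by decide +kernel) c20_32_m5_t35 c20_32_m5_t38
theorem c20_32_m5_t40 : CovD 0 progs [(31885837205504, 3298534883328), (299573968896, 9663676416), (824633720832, 274877906944), (824633720832, 274877906944)] :=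
  covD_split 2 (by decide +kernel) c20_32_m5_t34 c20_32_m5_t39
theorem c20_32_m5_t41 : CovD 0 progs [(31885837205504, 3298534883328), (299573968896, 9663676416), (824633720832, 274877906944), (549755813888, 549755813888)] :=
  covD_split 3 (by decide +kernel) c20_32_m5_t33 c20_32_m5_t40
theorem c20_32_m5_t42 : CovD 0 progs [(31885837205504, 3298534883328), (299573968896, 9663676416), (549755813888, 549755813888), (549755813888, 549755813888)] :=
  covD_split 2 (by decide +kernel) c20_32_m5_t32 c20_32_m5_t41
theorem c20_32_m5_t43 : CovD 0 progs [(31885837205504, 3298534883328), (289910292480, 19327352832), (549755813888, 549755813888), (549755813888, 549755813888)] :=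
  covD_split 1 (by decide +kernel) c20_32_m5_t31 c20_32_m5_t42
theorem c20_32_m5 : CovD 0 progs [(31885837205504, 3298534883328), (270582939648, 38654705664), (549755813888, 549755813888), (549755813888, 549755813888)] :=
  covD_split 1 (by decide +kernel) c20_32_m5_t20 c20_32_m5_t43

end Pool.Agent.helper71.FG.Crt.L
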