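import Pool.Agent.helper71.FG.Crt.LP

/-!
Generated certificates.
-/

namespace Pool.Agent.helper71.FG.Crt.L

open Pool.Agent.helper31.IA (Z Op)
open Pool.Agent.helper31.IC

mutual
theorem c20_32b_m1_t0 : CovD 0 progs [(28587302322176, 6597069766656), (377957122048, 68719476736), (824633720832, 274877906944), (274877906944, 274877906944)] :=
  Pool.Agent.helper14.QF.covD_F chks_eq (.n 2 (.n 3 (.l 10) (.n 1 (.l 10) (.l 10))) (.n 3 (.l 10) (.n 3 (.l 10) (.n 1 (.l 10) (.l 10)))))
    [(28587302322176, 6597069766656), (377957122048, 68719476736), (824633720832, 274877906944), (274877906944, 274877906944)] rfl (by decide +kernel)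
theorem c20_32b_m1_t1 : CovD 0 progs [(28587302322176, 6597069766656), (326417514496, 17179869184), (687194767360, 137438953472), (824633720832, 274877906944)] :=
  Pool.Agent.helper14.QF.covD_F chks_eq (.n 3 (.l 10) (.n 2 (.l 10) (.n 2 (.l 10) (.n 3 (.l 10) (.l 10)))))
    [(28587302322176, 6597069766656), (326417514496, 17179869184), (687194767360, 137438953472), (824633720832, 274877906944)] rfl (by decide +kernel)
end
mutual
theorem c20_32b_m1_t2 : CovD 0 progs [(28587302322176, 6597069766656), (317827579904, 8589934592), (893353197568, 68719476736), (824633720832, 274877906944)] :=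
  Pool.Agent.helper14.QF.covD_F chks_eq (.n 2 (.n 3 (.l 10) (.n 3 (.l 10) (.n 0 (.n 0 (.l 3) (.l 3)) (.n 0 (.n 0 (.l 3) (.l 3)) (.n 0 (.l 3) (.l 3)))))) (.n 2 (.n 3 (.l 10) (.n 0 (.n 0 (.l 3) (.l 3)) (.n 3 (.l 10) (.n 0 (.l 3) (.l 3))))) (.n 3 (.l 10) (.n 3 (.l 10) (.n 0 (.n 0 (.l 3) (.l 3)) (.n 0 (.l 3) (.l 3)))))))
    [(28587302322176, 6597069766656), (317827579904, 8589934592), (893353197568, 68719476736), (824633720832, 274877906944)] rfl (by decide +kernel)
theorem c20_32b_m1_t3 : CovD 0 progs [(28587302322176, 6597069766656), (317827579904, 8589934592), (996432412672, 34359738368), (824633720832, 274877906944)] :=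
  Pool.Agent.helper14.QF.covD_F chks_eq (.n 3 (.l 10) (.n 3 (.n 3 (.l 10) (.n 0 (.n 0 (.l 3) (.l 3)) (.n 0 (.l 3) (.n 0 (.l 3) (.l 3))))) (.n 0 (.n 0 (.n 0 (.l 3) (.l 3)) (.n 0 (.l 3) (.l 3))) (.n 0 (.n 0 (.l 3) (.n 0 (.l 3) (.l 3))) (.n 0 (.n 0 (.l 3) (.l 3)) (.n 2 (.l 3) (.l 3)))))))
    [(28587302322176, 6597069766656), (317827579904, 8589934592), (996432412672, 34359738368), (824633720832, 274877906944)] rfl (by decide +kernel)
end
mutual
theorem c20_32b_m1_t4 : CovD 0 progs [(28587302322176, 6597069766656), (317827579904, 8589934592), (1065151889408, 34359738368), (687194767360, 137438953472)] :=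
  Pool.Agent.helper14.QF.covD_F chks_eq (.n 3 (.l 10) (.l 10))
    [(28587302322176, 6597069766656), (317827579904, 8589934592), (1065151889408, 34359738368), (687194767360, 137438953472)] rfl (by decide +kernel)
theorem c20_32b_m1_t5 : CovD 0 progs [(25288767438848, 3298534883328), (317827579904, 8589934592), (1065151889408, 34359738368), (962072674304, 137438953472)] :=
  Pool.Agent.helper14.QF.covD_F chks_eq (.n 0 (.n 0 (.n 2 (.l 3) (.l 3)) (.n 3 (.l 3) (.l 3))) (.n 0 (.n 3 (.l 3) (.l 3)) (.n 3 (.l 3) (.n 0 (.l 3) (.l 3)))))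
    [(25288767438848, 3298534883328), (317827579904, 8589934592), (1065151889408, 34359738368), (962072674304, 137438953472)] rfl (by decide +kernel)
end
mutual
theorem c20_32b_m1_t6 : CovD 0 progs [(31885837205504, 3298534883328), (317827579904, 8589934592), (1065151889408, 34359738368), (962072674304, 137438953472)] :=
  Pool.Agent.helper14.QF.covD_F chks_eq (.n 0 (.n 0 (.n 3 (.l 3) (.n 0 (.l 3) (.l 3))) (.n 2 (.n 3 (.l 3) (.l 3)) (.n 3 (.l 3) (.l 3)))) (.n 0 (.n 2 (.n 3 (.l 3) (.l 3)) (.n 3 (.l 3) (.l 3))) (.n 2 (.n 3 (.l 3) (.l 3)) (.n 3 (.l 3) (.n 0 (.l 3) (.l 3))))))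
    [(31885837205504, 3298534883328), (317827579904, 8589934592), (1065151889408, 34359738368), (962072674304, 137438953472)] rfl (by decide +kernel)
theorem c20_32b_m1_t11 : CovD 0 progs [(28587302322176, 6597069766656), (335007449088, 8589934592), (893353197568, 68719476736), (824633720832, 274877906944)] :=
  Pool.Agent.helper14.QF.covD_F chks_eq (.n 2 (.n 2 (.n 3 (.l 10) (.l 10)) (.n 3 (.l 10) (.n 0 (.n 0 (.l 3) (.l 3)) (.n 3 (.l 10) (.n 0 (.l 3) (.l 3)))))) (.n 3 (.l 10) (.n 3 (.l 10) (.n 0 (.n 0 (.n 0 (.l 3) (.l 3)) (.n 0 (.l 3) (.l 3))) (.n 0 (.n 2 (.l 3) (.l 3)) (.n 2 (.l 3) (.n 0 (.l 3) (.l 3))))))))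
    [(28587302322176, 6597069766656), (335007449088, 8589934592), (893353197568, 68719476736), (824633720832, 274877906944)] rfl (by decide +kernel)
end
mutual
theorem c20_32b_m1_t12 : CovD 0 progs [(28587302322176, 6597069766656), (335007449088, 8589934592), (996432412672, 34359738368), (824633720832, 274877906944)] :=
  Pool.Agent.helper14.QF.covD_F chks_eq (.n 2 (.n 3 (.l 10) (.n 3 (.l 10) (.n 0 (.n 0 (.l 3) (.l 3)) (.n 0 (.n 0 (.l 3) (.l 3)) (.n 0 (.l 3) (.l 3)))))) (.n 3 (.l 10) (.n 0 (.n 0 (.n 0 (.l 3) (.l 3)) (.n 3 (.l 3) (.n 0 (.l 3) (.l 3)))) (.n 0 (.n 3 (.l 3) (.n 0 (.l 3) (.l 3))) (.n 0 (.n 3 (.l 3) (.l 3)) (.n 3 (.l 3) (.l 3)))))))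
    [(28587302322176, 6597069766656), (335007449088, 8589934592), (996432412672, 34359738368), (824633720832, 274877906944)] rfl (by decide +kernel)
theorem c20_32b_m1_t13 : CovD 0 progs [(28587302322176, 6597069766656), (335007449088, 8589934592), (1065151889408, 34359738368), (687194767360, 137438953472)] :=
  Pool.Agent.helper14.QF.covD_F chks_eq (.l 10)
    [(28587302322176, 6597069766656), (335007449088, 8589934592), (1065151889408, 34359738368), (687194767360, 137438953472)] rfl (by decide +kernel)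
end
mutual
theorem c20_32b_m1_t14 : CovD 0 progs [(25288767438848, 3298534883328), (335007449088, 8589934592), (1065151889408, 34359738368), (962072674304, 137438953472)] :=
  Pool.Agent.helper14.QF.covD_F chks_eq (.n 0 (.n 0 (.n 3 (.l 3) (.l 3)) (.n 3 (.l 3) (.l 3))) (.n 0 (.n 3 (.l 3) (.n 0 (.l 3) (.l 3))) (.n 3 (.l 3) (.n 0 (.l 3) (.l 3)))))
    [(25288767438848, 3298534883328), (335007449088, 8589934592), (1065151889408, 34359738368), (962072674304, 137438953472)] rfl (by decide +kernel)
theorem c20_32b_m1_t15 : CovD 0 progs [(31885837205504, 3298534883328), (335007449088, 8589934592), (1065151889408, 34359738368), (962072674304, 137438953472)] :=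
  Pool.Agent.helper14.QF.covD_F chks_eq (.n 0 (.n 0 (.n 2 (.n 3 (.l 3) (.l 3)) (.n 3 (.l 3) (.l 3))) (.n 2 (.n 3 (.l 3) (.l 3)) (.n 3 (.l 3) (.l 3)))) (.n 0 (.n 2 (.n 3 (.l 3) (.l 3)) (.n 3 (.l 3) (.n 0 (.l 3) (.l 3)))) (.n 2 (.n 3 (.l 3) (.n 0 (.l 3) (.l 3))) (.n 3 (.l 3) (.n 0 (.l 3) (.l 3))))))
    [(31885837205504, 3298534883328), (335007449088, 8589934592), (1065151889408, 34359738368), (962072674304, 137438953472)] rfl (by decide +kernel)
end
mutual
theorem c20_32b_m1_t22 : CovD 0 progs [(28587302322176, 6597069766656), (360777252864, 17179869184), (687194767360, 137438953472), (824633720832, 274877906944)] :=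
  Pool.Agent.helper14.QF.covD_F chks_eq (.n 3 (.l 10) (.n 2 (.l 10) (.n 1 (.l 10) (.l 10))))
    [(28587302322176, 6597069766656), (360777252864, 17179869184), (687194767360, 137438953472), (824633720832, 274877906944)] rfl (by decide +kernel)
theorem c20_32b_m1_t23 : CovD 0 progs [(28587302322176, 6597069766656), (360777252864, 17179869184), (893353197568, 68719476736), (824633720832, 274877906944)] :=
  Pool.Agent.helper14.QF.covD_F chks_eq (.n 3 (.l 10) (.n 3 (.l 10) (.n 2 (.l 10) (.n 2 (.n 1 (.n 0 (.n 0 (.l 3) (.l 3)) (.n 0 (.l 3) (.n 0 (.l 3) (.l 3)))) (.l 10)) (.n 3 (.l 10) (.n 0 (.n 0 (.l 3) (.n 0 (.l 3) (.l 3))) (.n 0 (.n 0 (.l 3) (.l 3)) (.n 0 (.l 3) (.n 0 (.l 3) (.l 3))))))))))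
    [(28587302322176, 6597069766656), (360777252864, 17179869184), (893353197568, 68719476736), (824633720832, 274877906944)] rfl (by decide +kernel)
end
mutual
theorem c20_32b_m1_t24 : CovD 0 progs [(28587302322176, 6597069766656), (352187318272, 8589934592), (996432412672, 34359738368), (824633720832, 274877906944)] :=
  Pool.Agent.helper14.QF.covD_F chks_eq (.n 3 (.l 10) (.n 3 (.l 10) (.n 0 (.n 0 (.n 0 (.l 3) (.l 3)) (.n 0 (.n 0 (.l 3) (.l 3)) (.n 0 (.l 3) (.l 3)))) (.n 0 (.n 0 (.n 2 (.l 3) (.l 3)) (.n 2 (.l 3) (.l 3))) (.n 0 (.n 2 (.l 3) (.l 3)) (.n 2 (.l 3) (.n 0 (.l 3) (.l 3))))))))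
    [(28587302322176, 6597069766656), (352187318272, 8589934592), (996432412672, 34359738368), (824633720832, 274877906944)] rfl (by decide +kernel)
theorem c20_32b_m1_t25 : CovD 0 progs [(28587302322176, 6597069766656), (369367187456, 8589934592), (996432412672, 34359738368), (824633720832, 274877906944)] :=
  Pool.Agent.helper14.QF.covD_F chks_eq (.n 2 (.n 3 (.l 10) (.n 3 (.l 10) (.n 3 (.l 10) (.n 0 (.n 0 (.l 3) (.l 3)) (.n 0 (.l 3) (.n 0 (.l 3) (.l 3))))))) (.n 3 (.l 10) (.n 3 (.l 10) (.n 0 (.n 0 (.n 0 (.l 3) (.l 3)) (.n 0 (.l 3) (.l 3))) (.n 0 (.n 0 (.l 3) (.l 3)) (.n 0 (.n 0 (.l 3) (.l 3)) (.n 0 (.l 3) (.l 3))))))))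
    [(28587302322176, 6597069766656), (369367187456, 8589934592), (996432412672, 34359738368), (824633720832, 274877906944)] rfl (by decide +kernel)
end
mutual
theorem c20_32b_m1_t27 : CovD 0 progs [(28587302322176, 6597069766656), (352187318272, 8589934592), (1065151889408, 34359738368), (687194767360, 137438953472)] :=
  Pool.Agent.helper14.QF.covD_F chks_eq (.l 10)
    [(28587302322176, 6597069766656), (352187318272, 8589934592), (1065151889408, 34359738368), (687194767360, 137438953472)] rfl (by decide +kernel)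
theorem c20_32b_m1_t28 : CovD 0 progs [(28587302322176, 6597069766656), (352187318272, 8589934592), (1065151889408, 34359738368), (893353197568, 68719476736)] :=
  Pool.Agent.helper14.QF.covD_F chks_eq (.n 3 (.l 10) (.n 0 (.n 0 (.n 0 (.l 3) (.l 3)) (.n 0 (.l 3) (.l 3))) (.n 0 (.n 0 (.l 3) (.l 3)) (.n 0 (.l 3) (.n 0 (.l 3) (.l 3))))))
    [(28587302322176, 6597069766656), (352187318272, 8589934592), (1065151889408, 34359738368), (893353197568, 68719476736)] rfl (by decide +kernel)
end
mutual
theorem c20_32b_m1_t29 : CovD 0 progs [(28587302322176, 6597069766656), (352187318272, 8589934592), (1065151889408, 34359738368), (1030792151040, 68719476736)] :=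
  Pool.Agent.helper14.QF.covD_F chks_eq (.n 0 (.n 0 (.n 0 (.l 3) (.n 0 (.l 3) (.l 3))) (.n 0 (.n 0 (.l 3) (.l 3)) (.n 2 (.l 3) (.l 3)))) (.n 0 (.n 0 (.n 2 (.l 3) (.l 3)) (.n 2 (.l 3) (.n 0 (.l 3) (.l 3)))) (.n 0 (.n 0 (.n 2 (.l 3) (.l 3)) (.n 2 (.l 3) (.l 3))) (.n 0 (.n 2 (.l 3) (.l 3)) (.n 2 (.l 3) (.l 3))))))
    [(28587302322176, 6597069766656), (352187318272, 8589934592), (1065151889408, 34359738368), (1030792151040, 68719476736)] rfl (by decide +kernel)
theorem c20_32b_m1_t32 : CovD 0 progs [(28587302322176, 6597069766656), (369367187456, 8589934592), (1047972020224, 17179869184), (824633720832, 274877906944)] :=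
  Pool.Agent.helper14.QF.covD_F chks_eq (.n 3 (.l 10) (.n 3 (.l 10) (.n 0 (.n 0 (.n 0 (.l 3) (.l 3)) (.n 0 (.l 3) (.l 3))) (.n 0 (.n 0 (.l 3) (.n 0 (.l 3) (.l 3))) (.n 0 (.n 0 (.l 3) (.l 3)) (.n 0 (.l 3) (.l 3)))))))
    [(28587302322176, 6597069766656), (369367187456, 8589934592), (1047972020224, 17179869184), (824633720832, 274877906944)] rfl (by decide +kernel)
end
mutual
theorem c20_32b_m1_t33 : CovD 0 progs [(28587302322176, 6597069766656), (369367187456, 8589934592), (1082331758592, 17179869184), (824633720832, 274877906944)] :=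
  Pool.Agent.helper14.QF.covD_F chks_eq (.n 3 (.l 10) (.n 3 (.n 3 (.l 10) (.n 0 (.n 0 (.l 3) (.l 3)) (.n 3 (.l 10) (.n 0 (.l 3) (.l 14))))) (.n 0 (.n 0 (.n 0 (.l 3) (.l 3)) (.n 0 (.l 3) (.l 3))) (.n 0 (.n 0 (.n 0 (.l 3) (.l 3)) (.n 0 (.l 3) (.l 3))) (.n 0 (.n 1 (.l 3) (.l 3)) (.n 3 (.l 3) (.l 3)))))))
    [(28587302322176, 6597069766656), (369367187456, 8589934592), (1082331758592, 17179869184), (824633720832, 274877906944)] rfl (by decide +kernel)
theorem c20_32b_m1_t40 : CovD 0 progs [(28587302322176, 6597069766656), (412316860416, 34359738368), (687194767360, 137438953472), (824633720832, 274877906944)] :=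
  Pool.Agent.helper14.QF.covD_F chks_eq (.n 2 (.n 3 (.l 10) (.n 1 (.l 10) (.l 10))) (.n 3 (.n 1 (.l 10) (.l 10)) (.n 3 (.l 10) (.n 1 (.l 10) (.l 10)))))
    [(28587302322176, 6597069766656), (412316860416, 34359738368), (687194767360, 137438953472), (824633720832, 274877906944)] rfl (by decide +kernel)
end
mutual
theorem c20_32b_m1_t41 : CovD 0 progs [(28587302322176, 6597069766656), (412316860416, 34359738368), (893353197568, 68719476736), (824633720832, 274877906944)] :=
  Pool.Agent.helper14.QF.covD_F chks_eq (.n 1 (.n 3 (.l 10) (.n 3 (.l 10) (.n 2 (.l 10) (.n 2 (.l 10) (.n 1 (.n 1 (.n 1 (.n 3 (.l 10) (.l 10)) (.l 10)) (.l 10)) (.l 10)))))) (.n 3 (.n 2 (.l 10) (.l 10)) (.n 3 (.l 10) (.n 2 (.l 10) (.l 10)))))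
    [(28587302322176, 6597069766656), (412316860416, 34359738368), (893353197568, 68719476736), (824633720832, 274877906944)] rfl (by decide +kernel)
theorem c20_32b_m1_t42 : CovD 0 progs [(28587302322176, 6597069766656), (412316860416, 34359738368), (979252543488, 17179869184), (824633720832, 274877906944)] :=
  Pool.Agent.helper14.QF.covD_F chks_eq (.n 1 (.n 3 (.l 10) (.n 3 (.l 10) (.n 3 (.l 10) (.n 0 (.n 0 (.n 0 (.l 3) (.l 3)) (.n 0 (.l 3) (.l 3))) (.n 0 (.n 0 (.n 0 (.l 3) (.l 3)) (.n 0 (.l 3) (.l 3))) (.n 0 (.n 0 (.l 3) (.l 3)) (.n 1 (.l 3) (.l 3)))))))) (.n 3 (.l 10) (.n 3 (.l 10) (.n 3 (.l 10) (.n 3 (.l 10) (.n 3 (.l 10) (.l 13)))))))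
    [(28587302322176, 6597069766656), (412316860416, 34359738368), (979252543488, 17179869184), (824633720832, 274877906944)] rfl (by decide +kernel)
end
mutual
theorem c20_32b_m1_t43 : CovD 0 progs [(28587302322176, 6597069766656), (395136991232, 17179869184), (1013612281856, 17179869184), (824633720832, 274877906944)] :=
  Pool.Agent.helper14.QF.covD_F chks_eq (.n 1 (.n 3 (.l 10) (.n 3 (.l 10) (.n 0 (.n 0 (.n 0 (.l 3) (.l 3)) (.n 0 (.l 3) (.l 3))) (.n 0 (.n 0 (.l 3) (.n 0 (.l 3) (.l 3))) (.n 0 (.n 0 (.l 3) (.l 3)) (.n 0 (.l 3) (.l 3))))))) (.n 3 (.l 10) (.n 3 (.l 10) (.n 3 (.l 10) (.n 0 (.n 0 (.l 3) (.n 0 (.l 3) (.l 3))) (.n 0 (.n 0 (.l 3) (.l 3)) (.n 0 (.l 3) (.l 3))))))))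
    [(28587302322176, 6597069766656), (395136991232, 17179869184), (1013612281856, 17179869184), (824633720832, 274877906944)] rfl (by decide +kernel)
theorem c20_32b_m1_t44 : CovD 0 progs [(28587302322176, 6597069766656), (429496729600, 17179869184), (1013612281856, 17179869184), (824633720832, 274877906944)] :=
  Pool.Agent.helper14.QF.covD_F chks_eq (.n 3 (.l 10) (.n 3 (.l 10) (.n 3 (.l 10) (.n 0 (.n 0 (.n 0 (.l 3) (.l 3)) (.n 0 (.n 0 (.l 3) (.l 3)) (.n 0 (.l 3) (.l 3)))) (.n 0 (.n 0 (.n 0 (.l 3) (.l 3)) (.n 1 (.l 3) (.l 3))) (.n 0 (.n 1 (.l 3) (.l 3)) (.n 1 (.l 3) (.n 0 (.l 3) (.l 3)))))))))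
    [(28587302322176, 6597069766656), (429496729600, 17179869184), (1013612281856, 17179869184), (824633720832, 274877906944)] rfl (by decide +kernel)
end
mutual
theorem c20_32b_m1_t47 : CovD 0 progs [(28587302322176, 6597069766656), (386547056640, 8589934592), (1047972020224, 17179869184), (824633720832, 274877906944)] :=
  Pool.Agent.helper14.QF.covD_F chks_eq (.n 3 (.l 10) (.n 3 (.l 10) (.n 0 (.n 0 (.n 0 (.l 3) (.l 3)) (.n 0 (.l 3) (.l 3))) (.n 0 (.n 0 (.n 0 (.l 3) (.l 3)) (.n 0 (.l 3) (.l 3))) (.n 0 (.n 3 (.l 3) (.l 3)) (.n 3 (.l 3) (.l 3)))))))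
    [(28587302322176, 6597069766656), (386547056640, 8589934592), (1047972020224, 17179869184), (824633720832, 274877906944)] rfl (by decide +kernel)
theorem c20_32b_m1_t48 : CovD 0 progs [(28587302322176, 6597069766656), (403726925824, 8589934592), (1047972020224, 17179869184), (824633720832, 274877906944)] :=
  Pool.Agent.helper14.QF.covD_F chks_eq (.n 3 (.l 10) (.n 3 (.l 10) (.n 0 (.n 0 (.n 0 (.l 3) (.l 3)) (.n 0 (.l 3) (.n 0 (.l 3) (.l 3)))) (.n 0 (.n 0 (.n 0 (.l 3) (.l 3)) (.n 3 (.l 3) (.l 3))) (.n 0 (.n 3 (.l 3) (.l 3)) (.n 3 (.l 3) (.l 3)))))))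
    [(28587302322176, 6597069766656), (403726925824, 8589934592), (1047972020224, 17179869184), (824633720832, 274877906944)] rfl (by decide +kernel)
end
mutual
theorem c20_32b_m1_t50 : CovD 0 progs [(28587302322176, 6597069766656), (420906795008, 8589934592), (1047972020224, 17179869184), (824633720832, 274877906944)] :=
  Pool.Agent.helper14.QF.covD_F chks_eq (.n 3 (.l 10) (.n 3 (.l 10) (.n 0 (.n 0 (.n 0 (.l 3) (.l 3)) (.n 0 (.n 0 (.l 3) (.l 3)) (.n 0 (.l 3) (.l 3)))) (.n 0 (.n 0 (.n 3 (.l 3) (.l 3)) (.n 3 (.l 3) (.l 3))) (.n 0 (.n 3 (.l 3) (.l 3)) (.n 3 (.l 3) (.n 0 (.l 3) (.l 3))))))))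
    [(28587302322176, 6597069766656), (420906795008, 8589934592), (1047972020224, 17179869184), (824633720832, 274877906944)] rfl (by decide +kernel)
theorem c20_32b_m1_t51 : CovD 0 progs [(28587302322176, 6597069766656), (438086664192, 8589934592), (1047972020224, 17179869184), (824633720832, 274877906944)] :=
  Pool.Agent.helper14.QF.covD_F chks_eq (.n 3 (.l 10) (.n 3 (.l 10) (.n 0 (.n 0 (.n 0 (.l 3) (.n 0 (.l 3) (.l 3))) (.n 0 (.n 0 (.l 3) (.l 3)) (.n 0 (.l 3) (.l 5)))) (.n 0 (.n 0 (.n 3 (.l 3) (.l 3)) (.n 3 (.l 5) (.l 3))) (.n 0 (.n 3 (.l 5) (.n 0 (.l 3) (.l 3))) (.n 0 (.n 3 (.l 5) (.l 3)) (.n 3 (.l 5) (.l 3))))))))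
    [(28587302322176, 6597069766656), (438086664192, 8589934592), (1047972020224, 17179869184), (824633720832, 274877906944)] rfl (by decide +kernel)
end
mutual
theorem c20_32b_m1_t54 : CovD 0 progs [(28587302322176, 6597069766656), (386547056640, 8589934592), (1082331758592, 17179869184), (824633720832, 274877906944)] :=
  Pool.Agent.helper14.QF.covD_F chks_eq (.n 3 (.l 10) (.n 3 (.n 1 (.n 1 (.n 3 (.l 10) (.l 10)) (.l 10)) (.l 10)) (.n 0 (.n 0 (.n 0 (.l 3) (.l 3)) (.n 0 (.l 3) (.n 0 (.l 3) (.l 3)))) (.n 0 (.n 0 (.n 0 (.l 3) (.l 3)) (.n 3 (.l 3) (.l 3))) (.n 0 (.n 3 (.l 3) (.l 3)) (.n 3 (.l 3) (.l 3)))))))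
    [(28587302322176, 6597069766656), (386547056640, 8589934592), (1082331758592, 17179869184), (824633720832, 274877906944)] rfl (by decide +kernel)
theorem c20_32b_m1_t55 : CovD 0 progs [(28587302322176, 6597069766656), (403726925824, 8589934592), (1082331758592, 17179869184), (824633720832, 274877906944)] :=
  Pool.Agent.helper14.QF.covD_F chks_eq (.n 3 (.l 10) (.n 3 (.l 10) (.n 0 (.n 0 (.n 0 (.l 3) (.l 3)) (.n 0 (.n 0 (.l 3) (.l 3)) (.n 0 (.l 3) (.l 3)))) (.n 0 (.n 0 (.n 3 (.l 3) (.l 3)) (.n 3 (.l 3) (.l 3))) (.n 0 (.n 3 (.l 3) (.l 3)) (.n 3 (.l 3) (.n 0 (.l 3) (.l 3))))))))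
    [(28587302322176, 6597069766656), (403726925824, 8589934592), (1082331758592, 17179869184), (824633720832, 274877906944)] rfl (by decide +kernel)
end
mutual
theorem c20_32b_m1_t57 : CovD 0 progs [(28587302322176, 6597069766656), (420906795008, 8589934592), (1082331758592, 17179869184), (824633720832, 274877906944)] :=
  Pool.Agent.helper14.QF.covD_F chks_eq (.n 3 (.l 10) (.n 3 (.l 10) (.n 0 (.n 0 (.n 0 (.l 3) (.n 0 (.l 3) (.l 3))) (.n 0 (.n 0 (.l 3) (.l 3)) (.n 0 (.l 3) (.l 3)))) (.n 0 (.n 0 (.n 3 (.l 3) (.l 3)) (.n 3 (.l 3) (.l 3))) (.n 0 (.n 3 (.l 3) (.n 0 (.l 3) (.l 3))) (.n 0 (.n 3 (.l 3) (.l 3)) (.n 3 (.l 3) (.l 3))))))))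
    [(28587302322176, 6597069766656), (420906795008, 8589934592), (1082331758592, 17179869184), (824633720832, 274877906944)] rfl (by decide +kernel)
theorem c20_32b_m1_t58 : CovD 0 progs [(28587302322176, 6597069766656), (438086664192, 8589934592), (1082331758592, 17179869184), (824633720832, 274877906944)] :=
  Pool.Agent.helper14.QF.covD_F chks_eq (.n 3 (.l 10) (.n 3 (.l 10) (.n 3 (.n 0 (.n 0 (.n 0 (.l 3) (.l 3)) (.n 0 (.l 3) (.l 3))) (.n 0 (.n 0 (.l 3) (.l 3)) (.n 0 (.n 0 (.l 3) (.l 3)) (.n 0 (.l 3) (.l 3))))) (.n 0 (.n 0 (.n 0 (.l 3) (.l 3)) (.n 0 (.l 3) (.l 3))) (.n 3 (.n 0 (.n 0 (.l 3) (.l 3)) (.n 0 (.l 3) (.l 3))) (.l 13))))))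
    [(28587302322176, 6597069766656), (438086664192, 8589934592), (1082331758592, 17179869184), (824633720832, 274877906944)] rfl (by decide +kernel)
end
theorem c20_32b_m1_t7 : CovD 0 progs [(28587302322176, 6597069766656), (317827579904, 8589934592), (1065151889408, 34359738368), (962072674304, 137438953472)] :=
  covD_split 0 (by decide +kernel) c20_32b_m1_t5 c20_32b_m1_t6
theorem c20_32b_m1_t8 : CovD 0 progs [(28587302322176, 6597069766656), (317827579904, 8589934592), (1065151889408, 34359738368), (824633720832, 274877906944)] :=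
  covD_split 3 (by decide +kernel) c20_32b_m1_t4 c20_32b_m1_t7
theorem c20_32b_m1_t9 : CovD 0 progs [(28587302322176, 6597069766656), (317827579904, 8589934592), (1030792151040, 68719476736), (824633720832, 274877906944)] :=
  covD_split 2 (by decide +kernel) c20_32b_m1_t3 c20_32b_m1_t8
theorem c20_32b_m1_t10 : CovD 0 progs [(28587302322176, 6597069766656), (317827579904, 8589934592), (962072674304, 137438953472), (824633720832, 274877906944)] :=
  covD_split 2 (by decide +kernel) c20_32b_m1_t2 c20_32b_m1_t9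
theorem c20_32b_m1_t16 : CovD 0 progs [(28587302322176, 6597069766656), (335007449088, 8589934592), (1065151889408, 34359738368), (962072674304, 137438953472)] :=
  covD_split 0 (by decide +kernel) c20_32b_m1_t14 c20_32b_m1_t15
theorem c20_32b_m1_t17 : CovD 0 progs [(28587302322176, 6597069766656), (335007449088, 8589934592), (1065151889408, 34359738368), (824633720832, 274877906944)] :=
  covD_split 3 (by decide +kernel) c20_32b_m1_t13 c20_32b_m1_t16
theorem c20_32b_m1_t18 : CovD 0 progs [(28587302322176, 6597069766656), (335007449088, 8589934592), (1030792151040, 68719476736), (824633720832, 274877906944)] :=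
  covD_split 2 (by decide +kernel) c20_32b_m1_t12 c20_32b_m1_t17
theorem c20_32b_m1_t19 : CovD 0 progs [(28587302322176, 6597069766656), (335007449088, 8589934592), (962072674304, 137438953472), (824633720832, 274877906944)] :=
  covD_split 2 (by decide +kernel) c20_32b_m1_t11 c20_32b_m1_t18
theorem c20_32b_m1_t20 : CovD 0 progs [(28587302322176, 6597069766656), (326417514496, 17179869184), (962072674304, 137438953472), (824633720832, 274877906944)] :=
  covD_split 1 (by decide +kernel) c20_32b_m1_t10 c20_32b_m1_t19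
theorem c20_32b_m1_t21 : CovD 0 progs [(28587302322176, 6597069766656), (326417514496, 17179869184), (824633720832, 274877906944), (824633720832, 274877906944)] :=
  covD_split 2 (by decide +kernel) c20_32b_m1_t1 c20_32b_m1_t20
theorem c20_32b_m1_t26 : CovD 0 progs [(28587302322176, 6597069766656), (360777252864, 17179869184), (996432412672, 34359738368), (824633720832, 274877906944)] :=
  covD_split 1 (by decide +kernel) c20_32b_m1_t24 c20_32b_m1_t25
theorem c20_32b_m1_t30 : CovD 0 progs [(28587302322176, 6597069766656), (352187318272, 8589934592), (1065151889408, 34359738368), (962072674304, 137438953472)] :=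
  covD_split 3 (by decide +kernel) c20_32b_m1_t28 c20_32b_m1_t29
theorem c20_32b_m1_t31 : CovD 0 progs [(28587302322176, 6597069766656), (352187318272, 8589934592), (1065151889408, 34359738368), (824633720832, 274877906944)] :=
  covD_split 3 (by decide +kernel) c20_32b_m1_t27 c20_32b_m1_t30
theorem c20_32b_m1_t34 : CovD 0 progs [(28587302322176, 6597069766656), (369367187456, 8589934592), (1065151889408, 34359738368), (824633720832, 274877906944)] :=
  covD_split 2 (by decide +kernel) c20_32b_m1_t32 c20_32b_m1_t33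
theorem c20_32b_m1_t35 : CovD 0 progs [(28587302322176, 6597069766656), (360777252864, 17179869184), (1065151889408, 34359738368), (824633720832, 274877906944)] :=
  covD_split 1 (by decide +kernel) c20_32b_m1_t31 c20_32b_m1_t34
theorem c20_32b_m1_t36 : CovD 0 progs [(28587302322176, 6597069766656), (360777252864, 17179869184), (1030792151040, 68719476736), (824633720832, 274877906944)] :=
  covD_split 2 (by decide +kernel) c20_32b_m1_t26 c20_32b_m1_t35
theorem c20_32b_m1_t37 : CovD 0 progs [(28587302322176, 6597069766656), (360777252864, 17179869184), (962072674304, 137438953472), (824633720832, 274877906944)] :=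
  covD_split 2 (by decide +kernel) c20_32b_m1_t23 c20_32b_m1_t36
theorem c20_32b_m1_t38 : CovD 0 progs [(28587302322176, 6597069766656), (360777252864, 17179869184), (824633720832, 274877906944), (824633720832, 274877906944)] :=
  covD_split 2 (by decide +kernel) c20_32b_m1_t22 c20_32b_m1_t37
theorem c20_32b_m1_t39 : CovD 0 progs [(28587302322176, 6597069766656), (343597383680, 34359738368), (824633720832, 274877906944), (824633720832, 274877906944)] :=
  covD_split 1 (by decide +kernel) c20_32b_m1_t21 c20_32b_m1_t38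
theorem c20_32b_m1_t45 : CovD 0 progs [(28587302322176, 6597069766656), (412316860416, 34359738368), (1013612281856, 17179869184), (824633720832, 274877906944)] :=
  covD_split 1 (by decide +kernel) c20_32b_m1_t43 c20_32b_m1_t44
theorem c20_32b_m1_t46 : CovD 0 progs [(28587302322176, 6597069766656), (412316860416, 34359738368), (996432412672, 34359738368), (824633720832, 274877906944)] :=
  covD_split 2 (by decide +kernel) c20_32b_m1_t42 c20_32b_m1_t45
theorem c20_32b_m1_t49 : CovD 0 progs [(28587302322176, 6597069766656), (395136991232, 17179869184), (1047972020224, 17179869184), (824633720832, 274877906944)] :=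
  covD_split 1 (by decide +kernel) c20_32b_m1_t47 c20_32b_m1_t48
theorem c20_32b_m1_t52 : CovD 0 progs [(28587302322176, 6597069766656), (429496729600, 17179869184), (1047972020224, 17179869184), (824633720832, 274877906944)] :=
  covD_split 1 (by decide +kernel) c20_32b_m1_t50 c20_32b_m1_t51
theorem c20_32b_m1_t53 : CovD 0 progs [(28587302322176, 6597069766656), (412316860416, 34359738368), (1047972020224, 17179869184), (824633720832, 274877906944)] :=
  covD_split 1 (by decide +kernel) c20_32b_m1_t49 c20_32b_m1_t52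
theorem c20_32b_m1_t56 : CovD 0 progs [(28587302322176, 6597069766656), (395136991232, 17179869184), (1082331758592, 17179869184), (824633720832, 274877906944)] :=
  covD_split 1 (by decide +kernel) c20_32b_m1_t54 c20_32b_m1_t55
theorem c20_32b_m1_t59 : CovD 0 progs [(28587302322176, 6597069766656), (429496729600, 17179869184), (1082331758592, 17179869184), (824633720832, 274877906944)] :=
  covD_split 1 (by decide +kernel) c20_32b_m1_t57 c20_32b_m1_t58
theorem c20_32b_m1_t60 : CovD 0 progs [(28587302322176, 6597069766656), (412316860416, 34359738368), (1082331758592, 17179869184), (824633720832, 274877906944)] :=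
  covD_split 1 (by decide +kernel) c20_32b_m1_t56 c20_32b_m1_t59
theorem c20_32b_m1_t61 : CovD 0 progs [(28587302322176, 6597069766656), (412316860416, 34359738368), (1065151889408, 34359738368), (824633720832, 274877906944)] :=
  covD_split 2 (by decide +kernel) c20_32b_m1_t53 c20_32b_m1_t60
theorem c20_32b_m1_t62 : CovD 0 progs [(28587302322176, 6597069766656), (412316860416, 34359738368), (1030792151040, 68719476736), (824633720832, 274877906944)] :=
  covD_split 2 (by decide +kernel) c20_32b_m1_t46 c20_32b_m1_t61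
theorem c20_32b_m1_t63 : CovD 0 progs [(28587302322176, 6597069766656), (412316860416, 34359738368), (962072674304, 137438953472), (824633720832, 274877906944)] :=
  covD_split 2 (by decide +kernel) c20_32b_m1_t41 c20_32b_m1_t62
theorem c20_32b_m1_t64 : CovD 0 progs [(28587302322176, 6597069766656), (412316860416, 34359738368), (824633720832, 274877906944), (824633720832, 274877906944)] :=
  covD_split 2 (by decide +kernel) c20_32b_m1_t40 c20_32b_m1_t63
theorem c20_32b_m1_t65 : CovD 0 progs [(28587302322176, 6597069766656), (377957122048, 68719476736), (824633720832, 274877906944), (824633720832, 274877906944)] :=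
  covD_split 1 (by decide +kernel) c20_32b_m1_t39 c20_32b_m1_t64
theorem c20_32b_m1 : CovD 0 progs [(28587302322176, 6597069766656), (377957122048, 68719476736), (824633720832, 274877906944), (549755813888, 549755813888)] :=
  covD_split 3 (by decide +kernel) c20_32b_m1_t0 c20_32b_m1_t65

end Pool.Agent.helper71.FG.Crt.L
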