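import Pool.Agent.helper71.FG.Crt.LP

/-!
Generated certificates.
-/

namespace Pool.Agent.helper71.FG.Crt.L

open Pool.Agent.helper31.IA (Z Op)
open Pool.Agent.helper31.IC

mutual
theorem c20_32b_m2_t0 : CovD 0 progs [(28587302322176, 6597069766656), (515396075520, 68719476736), (687194767360, 137438953472), (274877906944, 274877906944)] :=
  Pool.Agent.helper14.QF.covD_F chks_eq (.n 3 (.l 10) (.n 2 (.l 10) (.n 3 (.l 10) (.l 10))))
    [(28587302322176, 6597069766656), (515396075520, 68719476736), (687194767360, 137438953472), (274877906944, 274877906944)] rfl (by decide +kernel)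
theorem c20_32b_m2_t1 : CovD 0 progs [(28587302322176, 6597069766656), (515396075520, 68719476736), (687194767360, 137438953472), (824633720832, 274877906944)] :=
  Pool.Agent.helper14.QF.covD_F chks_eq (.n 3 (.n 3 (.n 2 (.l 10) (.n 1 (.l 10) (.l 10))) (.n 1 (.n 2 (.l 10) (.l 10)) (.n 2 (.l 10) (.n 1 (.l 10) (.l 10))))) (.n 2 (.n 1 (.n 3 (.l 10) (.l 10)) (.n 3 (.l 10) (.n 1 (.l 10) (.l 10)))) (.n 1 (.n 1 (.n 3 (.l 10) (.l 10)) (.n 3 (.l 10) (.l 10))) (.n 2 (.n 3 (.l 10) (.l 10)) (.n 3 (.l 10) (.n 1 (.l 10) (.l 10)))))))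
    [(28587302322176, 6597069766656), (515396075520, 68719476736), (687194767360, 137438953472), (824633720832, 274877906944)] rfl (by decide +kernel)
end
mutual
theorem c20_32b_m2_t3 : CovD 0 progs [(28587302322176, 6597069766656), (515396075520, 68719476736), (962072674304, 137438953472), (274877906944, 274877906944)] :=
  Pool.Agent.helper14.QF.covD_F chks_eq (.n 1 (.n 3 (.l 10) (.n 3 (.l 10) (.n 1 (.l 10) (.l 10)))) (.n 3 (.n 3 (.l 10) (.l 10)) (.n 3 (.l 10) (.n 2 (.l 10) (.l 10)))))
    [(28587302322176, 6597069766656), (515396075520, 68719476736), (962072674304, 137438953472), (274877906944, 274877906944)] rfl (by decide +kernel)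
theorem c20_32b_m2_t4 : CovD 0 progs [(28587302322176, 6597069766656), (515396075520, 68719476736), (962072674304, 137438953472), (687194767360, 137438953472)] :=
  Pool.Agent.helper14.QF.covD_F chks_eq (.n 1 (.n 2 (.n 3 (.l 10) (.n 1 (.l 10) (.l 10))) (.n 3 (.l 10) (.n 1 (.l 10) (.l 10)))) (.n 3 (.n 2 (.l 10) (.n 1 (.l 10) (.l 10))) (.n 2 (.n 1 (.l 10) (.l 10)) (.n 3 (.l 10) (.n 1 (.l 10) (.l 10))))))
    [(28587302322176, 6597069766656), (515396075520, 68719476736), (962072674304, 137438953472), (687194767360, 137438953472)] rfl (by decide +kernel)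
end
mutual
theorem c20_32b_m2_t5 : CovD 0 progs [(28587302322176, 6597069766656), (515396075520, 68719476736), (962072674304, 137438953472), (893353197568, 68719476736)] :=
  Pool.Agent.helper14.QF.covD_F chks_eq (.n 2 (.n 1 (.n 1 (.l 10) (.l 10)) (.n 2 (.l 10) (.n 1 (.l 10) (.l 10)))) (.n 1 (.n 3 (.l 10) (.n 1 (.l 10) (.l 10))) (.n 1 (.n 2 (.l 10) (.l 10)) (.n 2 (.l 10) (.l 10)))))
    [(28587302322176, 6597069766656), (515396075520, 68719476736), (962072674304, 137438953472), (893353197568, 68719476736)] rfl (by decide +kernel)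
theorem c20_32b_m2_t6 : CovD 0 progs [(28587302322176, 6597069766656), (515396075520, 68719476736), (962072674304, 137438953472), (979252543488, 17179869184)] :=
  Pool.Agent.helper14.QF.covD_F chks_eq (.n 1 (.n 2 (.l 10) (.n 2 (.l 10) (.n 1 (.n 1 (.l 10) (.l 10)) (.l 10)))) (.n 2 (.l 10) (.n 1 (.l 10) (.l 10))))
    [(28587302322176, 6597069766656), (515396075520, 68719476736), (962072674304, 137438953472), (979252543488, 17179869184)] rfl (by decide +kernel)
end
mutual
theorem c20_32b_m2_t7 : CovD 0 progs [(28587302322176, 6597069766656), (463856467968, 17179869184), (962072674304, 137438953472), (1013612281856, 17179869184)] :=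
  Pool.Agent.helper14.QF.covD_F chks_eq (.n 1 (.n 2 (.l 10) (.n 0 (.n 2 (.l 10) (.n 0 (.n 0 (.l 3) (.l 3)) (.n 0 (.l 14) (.l 14)))) (.n 2 (.l 10) (.n 2 (.l 10) (.n 0 (.n 0 (.l 3) (.l 3)) (.n 0 (.l 3) (.l 3))))))) (.n 2 (.l 10) (.n 2 (.l 10) (.n 2 (.l 10) (.n 0 (.n 0 (.n 0 (.l 3) (.l 3)) (.n 0 (.l 3) (.l 3))) (.n 0 (.n 0 (.l 3) (.l 3)) (.n 0 (.l 5) (.l 5))))))))
    [(28587302322176, 6597069766656), (463856467968, 17179869184), (962072674304, 137438953472), (1013612281856, 17179869184)] rfl (by decide +kernel)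
theorem c20_32b_m2_t8 : CovD 0 progs [(28587302322176, 6597069766656), (498216206336, 17179869184), (962072674304, 137438953472), (1013612281856, 17179869184)] :=
  Pool.Agent.helper14.QF.covD_F chks_eq (.n 2 (.l 10) (.n 2 (.l 10) (.n 2 (.l 10) (.n 0 (.n 0 (.n 0 (.l 5) (.l 14)) (.n 0 (.n 0 (.l 5) (.l 5)) (.n 0 (.l 5) (.l 5)))) (.n 0 (.n 0 (.n 0 (.l 5) (.l 5)) (.n 1 (.l 5) (.l 5))) (.n 0 (.n 1 (.l 5) (.l 5)) (.n 1 (.l 5) (.n 0 (.l 5) (.l 5)))))))))
    [(28587302322176, 6597069766656), (498216206336, 17179869184), (962072674304, 137438953472), (1013612281856, 17179869184)] rfl (by decide +kernel)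
end
mutual
theorem c20_32b_m2_t10 : CovD 0 progs [(28587302322176, 6597069766656), (549755813888, 34359738368), (893353197568, 68719476736), (1013612281856, 17179869184)] :=
  Pool.Agent.helper14.QF.covD_F chks_eq (.l 10)
    [(28587302322176, 6597069766656), (549755813888, 34359738368), (893353197568, 68719476736), (1013612281856, 17179869184)] rfl (by decide +kernel)
theorem c20_32b_m2_t11 : CovD 0 progs [(28587302322176, 6597069766656), (549755813888, 34359738368), (996432412672, 34359738368), (1013612281856, 17179869184)] :=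
  Pool.Agent.helper14.QF.covD_F chks_eq (.l 10)
    [(28587302322176, 6597069766656), (549755813888, 34359738368), (996432412672, 34359738368), (1013612281856, 17179869184)] rfl (by decide +kernel)
end
mutual
theorem c20_32b_m2_t12 : CovD 0 progs [(28587302322176, 6597069766656), (549755813888, 34359738368), (1047972020224, 17179869184), (1013612281856, 17179869184)] :=
  Pool.Agent.helper14.QF.covD_F chks_eq (.l 10)
    [(28587302322176, 6597069766656), (549755813888, 34359738368), (1047972020224, 17179869184), (1013612281856, 17179869184)] rfl (by decide +kernel)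
theorem c20_32b_m2_t13 : CovD 0 progs [(25288767438848, 3298534883328), (549755813888, 34359738368), (1082331758592, 17179869184), (1013612281856, 17179869184)] :=
  Pool.Agent.helper14.QF.covD_F chks_eq (.n 0 (.n 0 (.n 1 (.l 14) (.n 0 (.l 5) (.l 5))) (.n 0 (.n 1 (.l 5) (.l 5)) (.n 1 (.l 5) (.l 5)))) (.n 0 (.n 0 (.n 1 (.l 5) (.l 5)) (.n 1 (.l 5) (.l 5))) (.n 1 (.n 0 (.l 5) (.l 5)) (.n 1 (.l 5) (.l 5)))))
    [(25288767438848, 3298534883328), (549755813888, 34359738368), (1082331758592, 17179869184), (1013612281856, 17179869184)] rfl (by decide +kernel)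
end
mutual
theorem c20_32b_m2_t14 : CovD 0 progs [(30236569763840, 1649267441664), (549755813888, 34359738368), (1082331758592, 17179869184), (1013612281856, 17179869184)] :=
  Pool.Agent.helper14.QF.covD_F chks_eq (.n 0 (.n 1 (.n 1 (.l 5) (.l 5)) (.n 0 (.n 0 (.l 5) (.l 5)) (.n 0 (.l 5) (.l 5)))) (.n 1 (.n 1 (.l 5) (.n 0 (.l 5) (.l 5))) (.n 0 (.n 0 (.l 5) (.l 14)) (.n 1 (.l 5) (.l 5)))))
    [(30236569763840, 1649267441664), (549755813888, 34359738368), (1082331758592, 17179869184), (1013612281856, 17179869184)] rfl (by decide +kernel)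
theorem c20_32b_m2_t15 : CovD 0 progs [(33535104647168, 1649267441664), (549755813888, 34359738368), (1082331758592, 17179869184), (1013612281856, 17179869184)] :=
  Pool.Agent.helper14.QF.covD_F chks_eq (.n 0 (.n 0 (.n 1 (.n 1 (.l 5) (.l 5)) (.n 1 (.l 5) (.l 5))) (.n 1 (.n 1 (.l 5) (.l 5)) (.n 1 (.l 5) (.l 5)))) (.n 0 (.n 1 (.n 1 (.l 5) (.l 5)) (.n 1 (.l 5) (.l 5))) (.n 1 (.n 1 (.l 5) (.l 5)) (.n 1 (.l 5) (.l 5)))))
    [(33535104647168, 1649267441664), (549755813888, 34359738368), (1082331758592, 17179869184), (1013612281856, 17179869184)] rfl (by decide +kernel)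
end
mutual
theorem c20_32b_m2_t23 : CovD 0 progs [(28587302322176, 6597069766656), (515396075520, 68719476736), (893353197568, 68719476736), (1047972020224, 17179869184)] :=
  Pool.Agent.helper14.QF.covD_F chks_eq (.n 1 (.l 10) (.n 1 (.l 10) (.l 10)))
    [(28587302322176, 6597069766656), (515396075520, 68719476736), (893353197568, 68719476736), (1047972020224, 17179869184)] rfl (by decide +kernel)
theorem c20_32b_m2_t24 : CovD 0 progs [(28587302322176, 6597069766656), (515396075520, 68719476736), (996432412672, 34359738368), (1047972020224, 17179869184)] :=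
  Pool.Agent.helper14.QF.covD_F chks_eq (.n 1 (.n 1 (.n 1 (.l 10) (.l 10)) (.l 10)) (.n 1 (.l 10) (.l 10)))
    [(28587302322176, 6597069766656), (515396075520, 68719476736), (996432412672, 34359738368), (1047972020224, 17179869184)] rfl (by decide +kernel)
end
mutual
theorem c20_32b_m2_t25 : CovD 0 progs [(23639499997184, 1649267441664), (515396075520, 68719476736), (1047972020224, 17179869184), (1047972020224, 17179869184)] :=
  Pool.Agent.helper14.QF.covD_F chks_eq (.n 0 (.n 1 (.n 1 (.l 3) (.l 5)) (.n 1 (.l 14) (.n 0 (.l 5) (.l 5)))) (.n 1 (.n 1 (.l 3) (.l 14)) (.n 0 (.n 1 (.l 5) (.l 5)) (.n 1 (.l 5) (.l 5)))))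
    [(23639499997184, 1649267441664), (515396075520, 68719476736), (1047972020224, 17179869184), (1047972020224, 17179869184)] rfl (by decide +kernel)
theorem c20_32b_m2_t26 : CovD 0 progs [(26938034880512, 1649267441664), (515396075520, 68719476736), (1047972020224, 17179869184), (1047972020224, 17179869184)] :=
  Pool.Agent.helper14.QF.covD_F chks_eq (.n 0 (.n 1 (.n 1 (.l 3) (.n 0 (.l 5) (.l 5))) (.n 0 (.n 1 (.l 5) (.l 5)) (.n 1 (.l 5) (.l 5)))) (.n 1 (.n 0 (.n 1 (.l 3) (.l 5)) (.n 1 (.l 3) (.l 5))) (.n 1 (.n 0 (.l 5) (.l 5)) (.n 1 (.l 5) (.l 5)))))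
    [(26938034880512, 1649267441664), (515396075520, 68719476736), (1047972020224, 17179869184), (1047972020224, 17179869184)] rfl (by decide +kernel)
end
mutual
theorem c20_32b_m2_t28 : CovD 0 progs [(30236569763840, 1649267441664), (515396075520, 68719476736), (1047972020224, 17179869184), (1047972020224, 17179869184)] :=
  Pool.Agent.helper14.QF.covD_F chks_eq (.n 0 (.n 1 (.n 0 (.n 1 (.l 3) (.l 5)) (.n 1 (.l 3) (.l 5))) (.n 1 (.n 1 (.l 5) (.l 5)) (.n 3 (.n 0 (.l 5) (.l 5)) (.l 13)))) (.n 1 (.n 1 (.n 0 (.l 3) (.l 3)) (.n 1 (.l 5) (.l 5))) (.n 1 (.n 1 (.l 5) (.n 0 (.l 5) (.l 5))) (.n 3 (.n 0 (.l 5) (.l 14)) (.l 13)))))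
    [(30236569763840, 1649267441664), (515396075520, 68719476736), (1047972020224, 17179869184), (1047972020224, 17179869184)] rfl (by decide +kernel)
theorem c20_32b_m2_t29 : CovD 0 progs [(33535104647168, 1649267441664), (515396075520, 68719476736), (1047972020224, 17179869184), (1047972020224, 17179869184)] :=
  Pool.Agent.helper14.QF.covD_F chks_eq (.n 0 (.n 1 (.n 1 (.n 1 (.l 3) (.l 3)) (.n 1 (.l 5) (.l 5))) (.n 1 (.n 0 (.n 1 (.l 5) (.l 5)) (.n 1 (.l 5) (.l 5))) (.n 3 (.n 1 (.l 5) (.l 5)) (.l 13)))) (.n 1 (.n 1 (.n 1 (.l 3) (.l 3)) (.n 1 (.l 5) (.n 0 (.l 5) (.l 5)))) (.n 0 (.n 1 (.n 1 (.l 5) (.l 5)) (.n 1 (.l 5) (.l 5))) (.n 1 (.n 1 (.l 5) (.l 5)) (.n 1 (.l 5) (.l 5))))))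
    [(33535104647168, 1649267441664), (515396075520, 68719476736), (1047972020224, 17179869184), (1047972020224, 17179869184)] rfl (by decide +kernel)
end
mutual
theorem c20_32b_m2_t32 : CovD 0 progs [(23639499997184, 1649267441664), (515396075520, 68719476736), (1082331758592, 17179869184), (1047972020224, 17179869184)] :=
  Pool.Agent.helper14.QF.covD_F chks_eq (.n 0 (.n 1 (.n 1 (.l 3) (.l 5)) (.n 0 (.n 1 (.l 5) (.l 5)) (.n 1 (.l 5) (.l 5)))) (.n 1 (.n 1 (.l 3) (.n 0 (.l 5) (.l 5))) (.n 0 (.n 1 (.l 5) (.l 5)) (.n 1 (.l 5) (.l 5)))))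
    [(23639499997184, 1649267441664), (515396075520, 68719476736), (1082331758592, 17179869184), (1047972020224, 17179869184)] rfl (by decide +kernel)
theorem c20_32b_m2_t33 : CovD 0 progs [(26938034880512, 1649267441664), (515396075520, 68719476736), (1082331758592, 17179869184), (1047972020224, 17179869184)] :=
  Pool.Agent.helper14.QF.covD_F chks_eq (.n 0 (.n 0 (.n 1 (.n 1 (.l 3) (.l 5)) (.n 1 (.l 5) (.l 5))) (.n 1 (.n 1 (.l 3) (.l 5)) (.n 1 (.l 5) (.l 14)))) (.n 1 (.n 0 (.n 1 (.l 3) (.l 5)) (.n 1 (.l 3) (.l 5))) (.n 1 (.n 0 (.l 5) (.l 14)) (.n 3 (.n 0 (.l 5) (.l 5)) (.l 13)))))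
    [(26938034880512, 1649267441664), (515396075520, 68719476736), (1082331758592, 17179869184), (1047972020224, 17179869184)] rfl (by decide +kernel)
end
mutual
theorem c20_32b_m2_t35 : CovD 0 progs [(30236569763840, 1649267441664), (515396075520, 68719476736), (1082331758592, 17179869184), (1047972020224, 17179869184)] :=
  Pool.Agent.helper14.QF.covD_F chks_eq (.n 0 (.n 1 (.n 1 (.n 0 (.l 3) (.l 3)) (.n 1 (.l 3) (.l 5))) (.n 1 (.n 1 (.l 5) (.n 0 (.l 5) (.l 5))) (.n 3 (.n 0 (.l 5) (.l 5)) (.l 13)))) (.n 1 (.n 1 (.n 0 (.l 3) (.l 14)) (.n 1 (.l 3) (.l 5))) (.n 1 (.n 0 (.n 0 (.l 5) (.l 14)) (.n 1 (.l 5) (.l 5))) (.n 3 (.n 1 (.l 5) (.l 5)) (.l 13)))))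
    [(30236569763840, 1649267441664), (515396075520, 68719476736), (1082331758592, 17179869184), (1047972020224, 17179869184)] rfl (by decide +kernel)
theorem c20_32b_m2_t36 : CovD 0 progs [(32710470926336, 824633720832), (515396075520, 68719476736), (1082331758592, 17179869184), (1047972020224, 17179869184)] :=
  Pool.Agent.helper14.QF.covD_F chks_eq (.n 1 (.n 1 (.n 1 (.l 3) (.l 3)) (.n 1 (.l 3) (.n 0 (.l 5) (.l 5)))) (.n 1 (.n 0 (.n 1 (.l 5) (.l 5)) (.n 1 (.l 5) (.l 5))) (.n 3 (.n 1 (.l 5) (.l 14)) (.l 13))))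
    [(32710470926336, 824633720832), (515396075520, 68719476736), (1082331758592, 17179869184), (1047972020224, 17179869184)] rfl (by decide +kernel)
end
mutual
theorem c20_32b_m2_t37 : CovD 0 progs [(34359738368000, 824633720832), (515396075520, 68719476736), (1082331758592, 17179869184), (1047972020224, 17179869184)] :=
  Pool.Agent.helper14.QF.covD_F chks_eq (.n 1 (.n 1 (.n 1 (.l 3) (.l 3)) (.n 0 (.n 1 (.l 3) (.l 5)) (.n 1 (.l 3) (.l 5)))) (.n 0 (.n 1 (.n 1 (.l 5) (.l 5)) (.n 1 (.l 5) (.l 5))) (.n 1 (.n 1 (.l 5) (.l 5)) (.n 1 (.l 5) (.l 5)))))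
    [(34359738368000, 824633720832), (515396075520, 68719476736), (1082331758592, 17179869184), (1047972020224, 17179869184)] rfl (by decide +kernel)
theorem c20_32b_m2_t44 : CovD 0 progs [(28587302322176, 6597069766656), (515396075520, 68719476736), (962072674304, 137438953472), (1082331758592, 17179869184)] :=
  Pool.Agent.helper14.QF.covD_F chks_eq (.n 2 (.n 3 (.n 1 (.l 10) (.l 10)) (.l 13)) (.n 1 (.n 1 (.n 2 (.n 2 (.l 10) (.n 1 (.l 13) (.l 13))) (.l 13)) (.l 13)) (.l 13)))
    [(28587302322176, 6597069766656), (515396075520, 68719476736), (962072674304, 137438953472), (1082331758592, 17179869184)] rfl (by decide +kernel)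
end
theorem c20_32b_m2_t2 : CovD 0 progs [(28587302322176, 6597069766656), (515396075520, 68719476736), (687194767360, 137438953472), (549755813888, 549755813888)] :=
  covD_split 3 (by decide +kernel) c20_32b_m2_t0 c20_32b_m2_t1
theorem c20_32b_m2_t9 : CovD 0 progs [(28587302322176, 6597069766656), (481036337152, 34359738368), (962072674304, 137438953472), (1013612281856, 17179869184)] :=
  covD_split 1 (by decide +kernel) c20_32b_m2_t7 c20_32b_m2_t8
theorem c20_32b_m2_t16 : CovD 0 progs [(31885837205504, 3298534883328), (549755813888, 34359738368), (1082331758592, 17179869184), (1013612281856, 17179869184)] :=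
  covD_split 0 (by decide +kernel) c20_32b_m2_t14 c20_32b_m2_t15
theorem c20_32b_m2_t17 : CovD 0 progs [(28587302322176, 6597069766656), (549755813888, 34359738368), (1082331758592, 17179869184), (1013612281856, 17179869184)] :=
  covD_split 0 (by decide +kernel) c20_32b_m2_t13 c20_32b_m2_t16
theorem c20_32b_m2_t18 : CovD 0 progs [(28587302322176, 6597069766656), (549755813888, 34359738368), (1065151889408, 34359738368), (1013612281856, 17179869184)] :=
  covD_split 2 (by decide +kernel) c20_32b_m2_t12 c20_32b_m2_t17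
theorem c20_32b_m2_t19 : CovD 0 progs [(28587302322176, 6597069766656), (549755813888, 34359738368), (1030792151040, 68719476736), (1013612281856, 17179869184)] :=
  covD_split 2 (by decide +kernel) c20_32b_m2_t11 c20_32b_m2_t18
theorem c20_32b_m2_t20 : CovD 0 progs [(28587302322176, 6597069766656), (549755813888, 34359738368), (962072674304, 137438953472), (1013612281856, 17179869184)] :=
  covD_split 2 (by decide +kernel) c20_32b_m2_t10 c20_32b_m2_t19
theorem c20_32b_m2_t21 : CovD 0 progs [(28587302322176, 6597069766656), (515396075520, 68719476736), (962072674304, 137438953472), (1013612281856, 17179869184)] :=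
  covD_split 1 (by decide +kernel) c20_32b_m2_t9 c20_32b_m2_t20
theorem c20_32b_m2_t22 : CovD 0 progs [(28587302322176, 6597069766656), (515396075520, 68719476736), (962072674304, 137438953472), (996432412672, 34359738368)] :=
  covD_split 3 (by decide +kernel) c20_32b_m2_t6 c20_32b_m2_t21
theorem c20_32b_m2_t27 : CovD 0 progs [(25288767438848, 3298534883328), (515396075520, 68719476736), (1047972020224, 17179869184), (1047972020224, 17179869184)] :=
  covD_split 0 (by decide +kernel) c20_32b_m2_t25 c20_32b_m2_t26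
theorem c20_32b_m2_t30 : CovD 0 progs [(31885837205504, 3298534883328), (515396075520, 68719476736), (1047972020224, 17179869184), (1047972020224, 17179869184)] :=
  covD_split 0 (by decide +kernel) c20_32b_m2_t28 c20_32b_m2_t29
theorem c20_32b_m2_t31 : CovD 0 progs [(28587302322176, 6597069766656), (515396075520, 68719476736), (1047972020224, 17179869184), (1047972020224, 17179869184)] :=
  covD_split 0 (by decide +kernel) c20_32b_m2_t27 c20_32b_m2_t30
theorem c20_32b_m2_t34 : CovD 0 progs [(25288767438848, 3298534883328), (515396075520, 68719476736), (1082331758592, 17179869184), (1047972020224, 17179869184)] :=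
  covD_split 0 (by decide +kernel) c20_32b_m2_t32 c20_32b_m2_t33
theorem c20_32b_m2_t38 : CovD 0 progs [(33535104647168, 1649267441664), (515396075520, 68719476736), (1082331758592, 17179869184), (1047972020224, 17179869184)] :=
  covD_split 0 (by decide +kernel) c20_32b_m2_t36 c20_32b_m2_t37
theorem c20_32b_m2_t39 : CovD 0 progs [(31885837205504, 3298534883328), (515396075520, 68719476736), (1082331758592, 17179869184), (1047972020224, 17179869184)] :=
  covD_split 0 (by decide +kernel) c20_32b_m2_t35 c20_32b_m2_t38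
theorem c20_32b_m2_t40 : CovD 0 progs [(28587302322176, 6597069766656), (515396075520, 68719476736), (1082331758592, 17179869184), (1047972020224, 17179869184)] :=
  covD_split 0 (by decide +kernel) c20_32b_m2_t34 c20_32b_m2_t39
theorem c20_32b_m2_t41 : CovD 0 progs [(28587302322176, 6597069766656), (515396075520, 68719476736), (1065151889408, 34359738368), (1047972020224, 17179869184)] :=
  covD_split 2 (by decide +kernel) c20_32b_m2_t31 c20_32b_m2_t40
theorem c20_32b_m2_t42 : CovD 0 progs [(28587302322176, 6597069766656), (515396075520, 68719476736), (1030792151040, 68719476736), (1047972020224, 17179869184)] :=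
  covD_split 2 (by decide +kernel) c20_32b_m2_t24 c20_32b_m2_t41
theorem c20_32b_m2_t43 : CovD 0 progs [(28587302322176, 6597069766656), (515396075520, 68719476736), (962072674304, 137438953472), (1047972020224, 17179869184)] :=
  covD_split 2 (by decide +kernel) c20_32b_m2_t23 c20_32b_m2_t42
theorem c20_32b_m2_t45 : CovD 0 progs [(28587302322176, 6597069766656), (515396075520, 68719476736), (962072674304, 137438953472), (1065151889408, 34359738368)] :=
  covD_split 3 (by decide +kernel) c20_32b_m2_t43 c20_32b_m2_t44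
theorem c20_32b_m2_t46 : CovD 0 progs [(28587302322176, 6597069766656), (515396075520, 68719476736), (962072674304, 137438953472), (1030792151040, 68719476736)] :=
  covD_split 3 (by decide +kernel) c20_32b_m2_t22 c20_32b_m2_t45
theorem c20_32b_m2_t47 : CovD 0 progs [(28587302322176, 6597069766656), (515396075520, 68719476736), (962072674304, 137438953472), (962072674304, 137438953472)] :=
  covD_split 3 (by decide +kernel) c20_32b_m2_t5 c20_32b_m2_t46
theorem c20_32b_m2_t48 : CovD 0 progs [(28587302322176, 6597069766656), (515396075520, 68719476736), (962072674304, 137438953472), (824633720832, 274877906944)] :=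
  covD_split 3 (by decide +kernel) c20_32b_m2_t4 c20_32b_m2_t47
theorem c20_32b_m2_t49 : CovD 0 progs [(28587302322176, 6597069766656), (515396075520, 68719476736), (962072674304, 137438953472), (549755813888, 549755813888)] :=
  covD_split 3 (by decide +kernel) c20_32b_m2_t3 c20_32b_m2_t48
theorem c20_32b_m2 : CovD 0 progs [(28587302322176, 6597069766656), (515396075520, 68719476736), (824633720832, 274877906944), (549755813888, 549755813888)] :=
  covD_split 2 (by decide +kernel) c20_32b_m2_t2 c20_32b_m2_t49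

end Pool.Agent.helper71.FG.Crt.L
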