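import Pool.Agent.helper71.FG.Crt.Lc20_32b_0
import Pool.Agent.helper71.FG.Crt.Lc20_32b_1
import Pool.Agent.helper71.FG.Crt.Lc20_32b_2

/-!
Generated certificates, assembled.
-/

namespace Pool.Agent.helper71.FG.Crt.L

open Pool.Agent.helper31.IA (Z Op)
open Pool.Agent.helper31.IC

theorem c20_32b_top0 : CovD 0 progs [(28587302322176, 6597069766656), (446676598784, 137438953472), (824633720832, 274877906944), (549755813888, 549755813888)] :=
  covD_split 1 (by decide +kernel) c20_32b_m1 c20_32b_m2
theorem c20_32b_top1 : CovD 0 progs [(28587302322176, 6597069766656), (446676598784, 137438953472), (549755813888, 549755813888), (549755813888, 549755813888)] :=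
  covD_split 2 (by decide +kernel) c20_32b_m0 c20_32b_top0

theorem c20_32b_all : CovD 0 progs [(28587302322176, 6597069766656), (446676598784, 137438953472), (549755813888, 549755813888), (549755813888, 549755813888)] := c20_32b_top1

end Pool.Agent.helper71.FG.Crt.L
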