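import Pool.Agent.helper71.FG.Crt.LP

/-!
Generated certificates.
-/

namespace Pool.Agent.helper71.FG.Crt.L

open Pool.Agent.helper31.IA (Z Op)
open Pool.Agent.helper31.IC

mutual
theorem c32_40_m1_t0 : CovD 0 progs [(37383395344384, 2199023255552), (173946175488, 19327352832), (137438953472, 137438953472), (549755813888, 549755813888)] :=
  Pool.Agent.helper14.QF.covD_F chks_eq (.n 2 (.n 2 (.l 2) (.n 2 (.l 2) (.l 4))) (.n 2 (.n 2 (.l 4) (.n 1 (.l 4) (.l 4))) (.n 3 (.n 2 (.l 2) (.l 4)) (.n 3 (.l 4) (.l 4)))))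
    [(37383395344384, 2199023255552), (173946175488, 19327352832), (137438953472, 137438953472), (549755813888, 549755813888)] rfl (by decide +kernel)
theorem c32_40_m1_t1 : CovD 0 progs [(37383395344384, 2199023255552), (212600881152, 19327352832), (137438953472, 137438953472), (549755813888, 549755813888)] :=
  Pool.Agent.helper14.QF.covD_F chks_eq (.n 2 (.n 2 (.l 11) (.n 3 (.l 2) (.l 2))) (.n 2 (.n 2 (.n 2 (.l 4) (.l 4)) (.n 3 (.l 4) (.l 4))) (.n 3 (.n 3 (.l 11) (.n 1 (.l 4) (.n 2 (.l 2) (.l 4)))) (.n 2 (.n 3 (.l 4) (.l 2)) (.n 3 (.l 4) (.l 4))))))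
    [(37383395344384, 2199023255552), (212600881152, 19327352832), (137438953472, 137438953472), (549755813888, 549755813888)] rfl (by decide +kernel)
end
mutual
theorem c32_40_m1_t3 : CovD 0 progs [(37383395344384, 2199023255552), (193273528320, 38654705664), (343597383680, 68719476736), (137438953472, 137438953472)] :=
  Pool.Agent.helper14.QF.covD_F chks_eq (.n 2 (.n 1 (.l 11) (.n 1 (.n 2 (.l 4) (.l 4)) (.n 3 (.l 11) (.n 2 (.l 4) (.n 0 (.l 4) (.l 4)))))) (.n 1 (.n 1 (.n 0 (.l 4) (.l 4)) (.n 2 (.l 4) (.l 4))) (.n 1 (.n 3 (.l 11) (.n 2 (.l 4) (.l 4))) (.n 3 (.l 11) (.n 2 (.n 0 (.l 4) (.l 4)) (.l 9))))))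
    [(37383395344384, 2199023255552), (193273528320, 38654705664), (343597383680, 68719476736), (137438953472, 137438953472)] rfl (by decide +kernel)
theorem c32_40_m1_t4 : CovD 0 progs [(37383395344384, 2199023255552), (193273528320, 38654705664), (481036337152, 68719476736), (137438953472, 137438953472)] :=
  Pool.Agent.helper14.QF.covD_F chks_eq (.n 1 (.n 1 (.n 2 (.n 0 (.l 4) (.l 4)) (.l 4)) (.n 2 (.n 2 (.l 4) (.l 4)) (.l 8))) (.n 3 (.l 11) (.n 2 (.n 1 (.l 9) (.l 9)) (.l 9))))
    [(37383395344384, 2199023255552), (193273528320, 38654705664), (481036337152, 68719476736), (137438953472, 137438953472)] rfl (by decide +kernel)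
end
mutual
theorem c32_40_m1_t6 : CovD 0 progs [(35734127902720, 549755813888), (193273528320, 38654705664), (412316860416, 137438953472), (412316860416, 137438953472)] :=
  Pool.Agent.helper14.QF.covD_F chks_eq (.n 1 (.n 1 (.n 2 (.n 2 (.l 2) (.l 4)) (.n 2 (.l 4) (.l 4))) (.n 2 (.n 2 (.l 4) (.l 4)) (.n 2 (.l 4) (.l 4)))) (.n 1 (.n 2 (.n 2 (.l 4) (.n 2 (.l 4) (.l 4))) (.n 2 (.n 1 (.l 4) (.l 4)) (.l 4))) (.n 2 (.n 2 (.n 2 (.l 4) (.l 4)) (.n 2 (.l 4) (.l 4))) (.n 2 (.l 9) (.l 4)))))
    [(35734127902720, 549755813888), (193273528320, 38654705664), (412316860416, 137438953472), (412316860416, 137438953472)] rfl (by decide +kernel)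
theorem c32_40_m1_t7 : CovD 0 progs [(36833639530496, 549755813888), (193273528320, 38654705664), (412316860416, 137438953472), (412316860416, 137438953472)] :=
  Pool.Agent.helper14.QF.covD_F chks_eq (.n 1 (.n 1 (.n 2 (.n 2 (.l 2) (.l 4)) (.n 2 (.l 4) (.l 4))) (.n 2 (.n 2 (.l 4) (.l 4)) (.n 2 (.n 0 (.l 4) (.l 4)) (.l 4)))) (.n 1 (.n 2 (.n 2 (.n 0 (.l 4) (.l 4)) (.n 2 (.l 4) (.l 4))) (.n 2 (.l 9) (.l 4))) (.n 2 (.n 2 (.n 2 (.l 4) (.l 4)) (.n 2 (.l 4) (.l 4))) (.n 2 (.l 8) (.l 4)))))
    [(36833639530496, 549755813888), (193273528320, 38654705664), (412316860416, 137438953472), (412316860416, 137438953472)] rfl (by decide +kernel)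
end
mutual
theorem c32_40_m1_t9 : CovD 0 progs [(37933151158272, 549755813888), (193273528320, 38654705664), (412316860416, 137438953472), (412316860416, 137438953472)] :=
  Pool.Agent.helper14.QF.covD_F chks_eq (.n 1 (.n 1 (.n 2 (.n 2 (.l 2) (.l 4)) (.n 2 (.l 4) (.l 4))) (.n 2 (.n 2 (.l 4) (.n 1 (.l 4) (.l 4))) (.n 2 (.n 0 (.l 4) (.l 4)) (.l 4)))) (.n 1 (.n 2 (.n 2 (.n 1 (.l 4) (.l 4)) (.n 2 (.l 4) (.l 4))) (.n 2 (.l 9) (.l 4))) (.n 2 (.n 2 (.n 2 (.l 4) (.l 4)) (.n 2 (.n 0 (.l 4) (.l 4)) (.l 8))) (.n 2 (.l 8) (.l 4)))))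
    [(37933151158272, 549755813888), (193273528320, 38654705664), (412316860416, 137438953472), (412316860416, 137438953472)] rfl (by decide +kernel)
theorem c32_40_m1_t10 : CovD 0 progs [(39032662786048, 549755813888), (193273528320, 38654705664), (412316860416, 137438953472), (412316860416, 137438953472)] :=
  Pool.Agent.helper14.QF.covD_F chks_eq (.n 1 (.n 1 (.n 2 (.n 2 (.l 2) (.l 4)) (.n 2 (.l 4) (.l 4))) (.n 2 (.n 2 (.l 4) (.n 1 (.l 4) (.l 4))) (.n 2 (.l 9) (.l 4)))) (.n 1 (.n 2 (.n 2 (.n 2 (.l 2) (.l 4)) (.n 2 (.l 4) (.l 4))) (.n 2 (.l 8) (.l 4))) (.n 2 (.n 2 (.n 2 (.l 4) (.n 0 (.l 4) (.l 4))) (.n 2 (.n 1 (.l 4) (.l 4)) (.l 8))) (.n 2 (.l 8) (.l 4)))))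
    [(39032662786048, 549755813888), (193273528320, 38654705664), (412316860416, 137438953472), (412316860416, 137438953472)] rfl (by decide +kernel)
end
mutual
theorem c32_40_m1_t14 : CovD 0 progs [(35734127902720, 549755813888), (173946175488, 19327352832), (412316860416, 137438953472), (824633720832, 274877906944)] :=
  Pool.Agent.helper14.QF.covD_F chks_eq (.n 2 (.n 2 (.n 3 (.l 4) (.l 4)) (.n 3 (.n 1 (.l 4) (.l 4)) (.l 4))) (.n 1 (.n 2 (.n 3 (.l 4) (.l 4)) (.n 3 (.l 4) (.l 4))) (.n 2 (.n 3 (.l 4) (.l 4)) (.n 3 (.l 4) (.l 4)))))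
    [(35734127902720, 549755813888), (173946175488, 19327352832), (412316860416, 137438953472), (824633720832, 274877906944)] rfl (by decide +kernel)
theorem c32_40_m1_t15 : CovD 0 progs [(35734127902720, 549755813888), (212600881152, 19327352832), (412316860416, 137438953472), (824633720832, 274877906944)] :=
  Pool.Agent.helper14.QF.covD_F chks_eq (.n 2 (.n 2 (.n 2 (.n 3 (.l 4) (.l 4)) (.n 3 (.l 4) (.l 4))) (.n 2 (.n 3 (.n 1 (.l 4) (.l 4)) (.l 4)) (.n 3 (.n 1 (.l 4) (.l 4)) (.l 4)))) (.n 2 (.n 3 (.n 2 (.n 1 (.l 4) (.l 4)) (.l 8)) (.n 3 (.l 4) (.l 4))) (.n 1 (.n 3 (.l 4) (.l 4)) (.n 3 (.l 6) (.l 8)))))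
    [(35734127902720, 549755813888), (212600881152, 19327352832), (412316860416, 137438953472), (824633720832, 274877906944)] rfl (by decide +kernel)
end
mutual
theorem c32_40_m1_t17 : CovD 0 progs [(36833639530496, 549755813888), (173946175488, 19327352832), (412316860416, 137438953472), (824633720832, 274877906944)] :=
  Pool.Agent.helper14.QF.covD_F chks_eq (.n 2 (.n 2 (.n 3 (.l 4) (.l 4)) (.n 3 (.n 1 (.l 4) (.l 4)) (.l 4))) (.n 1 (.n 2 (.n 3 (.l 4) (.l 4)) (.n 3 (.l 4) (.l 4))) (.n 2 (.n 3 (.l 4) (.l 4)) (.n 3 (.l 4) (.l 4)))))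
    [(36833639530496, 549755813888), (173946175488, 19327352832), (412316860416, 137438953472), (824633720832, 274877906944)] rfl (by decide +kernel)
theorem c32_40_m1_t18 : CovD 0 progs [(36833639530496, 549755813888), (212600881152, 19327352832), (412316860416, 137438953472), (824633720832, 274877906944)] :=
  Pool.Agent.helper14.QF.covD_F chks_eq (.n 2 (.n 2 (.n 1 (.n 3 (.l 4) (.l 4)) (.n 3 (.n 2 (.l 4) (.l 4)) (.l 4))) (.n 3 (.n 1 (.n 2 (.l 4) (.l 4)) (.n 2 (.l 4) (.l 4))) (.n 3 (.l 4) (.l 4)))) (.n 2 (.n 3 (.n 2 (.n 1 (.l 4) (.l 4)) (.l 8)) (.n 3 (.l 4) (.l 4))) (.n 3 (.n 1 (.l 4) (.l 6)) (.n 3 (.l 4) (.l 4)))))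
    [(36833639530496, 549755813888), (212600881152, 19327352832), (412316860416, 137438953472), (824633720832, 274877906944)] rfl (by decide +kernel)
end
mutual
theorem c32_40_m1_t21 : CovD 0 progs [(37933151158272, 549755813888), (173946175488, 19327352832), (412316860416, 137438953472), (824633720832, 274877906944)] :=
  Pool.Agent.helper14.QF.covD_F chks_eq (.n 2 (.n 2 (.n 3 (.l 4) (.l 4)) (.n 1 (.n 3 (.l 4) (.l 4)) (.n 3 (.l 4) (.l 4)))) (.n 2 (.n 2 (.n 3 (.l 4) (.l 4)) (.n 3 (.l 4) (.l 4))) (.n 1 (.n 3 (.l 4) (.l 4)) (.n 3 (.l 4) (.l 4)))))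
    [(37933151158272, 549755813888), (173946175488, 19327352832), (412316860416, 137438953472), (824633720832, 274877906944)] rfl (by decide +kernel)
theorem c32_40_m1_t22 : CovD 0 progs [(37933151158272, 549755813888), (212600881152, 19327352832), (412316860416, 137438953472), (824633720832, 274877906944)] :=
  Pool.Agent.helper14.QF.covD_F chks_eq (.n 2 (.n 2 (.n 2 (.n 3 (.l 4) (.l 4)) (.n 3 (.n 1 (.l 4) (.l 4)) (.l 4))) (.n 3 (.n 1 (.n 2 (.l 4) (.l 4)) (.n 2 (.l 4) (.l 8))) (.n 3 (.l 4) (.l 4)))) (.n 2 (.n 3 (.n 1 (.n 1 (.l 4) (.l 8)) (.n 0 (.l 8) (.l 8))) (.n 3 (.l 4) (.l 4))) (.n 3 (.n 1 (.l 4) (.l 6)) (.n 3 (.l 4) (.l 4)))))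
    [(37933151158272, 549755813888), (212600881152, 19327352832), (412316860416, 137438953472), (824633720832, 274877906944)] rfl (by decide +kernel)
end
mutual
theorem c32_40_m1_t24 : CovD 0 progs [(39032662786048, 549755813888), (173946175488, 19327352832), (412316860416, 137438953472), (824633720832, 274877906944)] :=
  Pool.Agent.helper14.QF.covD_F chks_eq (.n 2 (.n 2 (.n 3 (.n 1 (.l 2) (.l 4)) (.l 4)) (.n 2 (.n 3 (.l 4) (.l 4)) (.n 3 (.l 4) (.l 4)))) (.n 2 (.n 3 (.n 1 (.l 4) (.n 1 (.l 4) (.l 4))) (.n 2 (.l 4) (.l 4))) (.n 1 (.n 3 (.l 4) (.l 4)) (.n 3 (.l 4) (.l 4)))))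
    [(39032662786048, 549755813888), (173946175488, 19327352832), (412316860416, 137438953472), (824633720832, 274877906944)] rfl (by decide +kernel)
theorem c32_40_m1_t25 : CovD 0 progs [(39032662786048, 549755813888), (212600881152, 19327352832), (412316860416, 137438953472), (824633720832, 274877906944)] :=
  Pool.Agent.helper14.QF.covD_F chks_eq (.n 2 (.n 2 (.n 2 (.n 3 (.l 4) (.l 4)) (.n 3 (.n 1 (.l 4) (.l 4)) (.l 4))) (.n 3 (.n 2 (.n 3 (.l 4) (.l 4)) (.n 1 (.l 4) (.l 8))) (.n 3 (.n 0 (.l 4) (.l 4)) (.l 4)))) (.n 2 (.n 3 (.n 3 (.l 9) (.n 0 (.l 9) (.l 9))) (.n 3 (.l 4) (.l 4))) (.n 3 (.n 1 (.l 4) (.l 6)) (.n 3 (.l 4) (.l 4)))))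
    [(39032662786048, 549755813888), (212600881152, 19327352832), (412316860416, 137438953472), (824633720832, 274877906944)] rfl (by decide +kernel)
end
mutual
theorem c32_40_m1_t31 : CovD 0 progs [(37383395344384, 2199023255552), (241591910400, 9663676416), (137438953472, 137438953472), (549755813888, 549755813888)] :=
  Pool.Agent.helper14.QF.covD_F chks_eq (.n 2 (.l 10) (.n 2 (.l 10) (.n 3 (.l 10) (.l 10))))
    [(37383395344384, 2199023255552), (241591910400, 9663676416), (137438953472, 137438953472), (549755813888, 549755813888)] rfl (by decide +kernel)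
theorem c32_40_m1_t32 : CovD 0 progs [(37383395344384, 2199023255552), (241591910400, 9663676416), (412316860416, 137438953472), (549755813888, 549755813888)] :=
  Pool.Agent.helper14.QF.covD_F chks_eq (.n 2 (.n 2 (.n 3 (.l 10) (.n 3 (.l 10) (.n 3 (.l 10) (.l 4)))) (.n 3 (.l 10) (.n 1 (.n 3 (.l 10) (.n 3 (.l 4) (.l 4))) (.l 10)))) (.n 2 (.n 3 (.l 10) (.n 3 (.n 1 (.n 2 (.l 8) (.l 8)) (.l 10)) (.n 3 (.n 0 (.l 4) (.l 4)) (.l 4)))) (.n 3 (.n 3 (.l 8) (.l 8)) (.n 3 (.n 0 (.l 8) (.l 8)) (.n 3 (.l 4) (.l 4))))))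
    [(37383395344384, 2199023255552), (241591910400, 9663676416), (412316860416, 137438953472), (549755813888, 549755813888)] rfl (by decide +kernel)
end
mutual
theorem c32_40_m1_t34 : CovD 0 progs [(37383395344384, 2199023255552), (260919263232, 9663676416), (274877906944, 274877906944), (549755813888, 549755813888)] :=
  Pool.Agent.helper14.QF.covD_F chks_eq (.n 2 (.n 1 (.l 10) (.l 10)) (.n 3 (.l 10) (.n 2 (.l 10) (.n 2 (.l 10) (.n 1 (.n 3 (.l 8) (.l 10)) (.l 10))))))
    [(37383395344384, 2199023255552), (260919263232, 9663676416), (274877906944, 274877906944), (549755813888, 549755813888)] rfl (by decide +kernel)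
theorem c32_40_m1_t36 : CovD 0 progs [(37383395344384, 2199023255552), (289910292480, 19327352832), (274877906944, 274877906944), (549755813888, 549755813888)] :=
  Pool.Agent.helper14.QF.covD_F chks_eq (.n 2 (.l 10) (.n 3 (.l 10) (.n 2 (.l 10) (.n 1 (.l 10) (.l 10)))))
    [(37383395344384, 2199023255552), (289910292480, 19327352832), (274877906944, 274877906944), (549755813888, 549755813888)] rfl (by decide +kernel)
end
theorem c32_40_m1_t2 : CovD 0 progs [(37383395344384, 2199023255552), (193273528320, 38654705664), (137438953472, 137438953472), (549755813888, 549755813888)] :=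
  covD_split 1 (by decide +kernel) c32_40_m1_t0 c32_40_m1_t1
theorem c32_40_m1_t5 : CovD 0 progs [(37383395344384, 2199023255552), (193273528320, 38654705664), (412316860416, 137438953472), (137438953472, 137438953472)] :=
  covD_split 2 (by decide +kernel) c32_40_m1_t3 c32_40_m1_t4
theorem c32_40_m1_t8 : CovD 0 progs [(36283883716608, 1099511627776), (193273528320, 38654705664), (412316860416, 137438953472), (412316860416, 137438953472)] :=
  covD_split 0 (by decide +kernel) c32_40_m1_t6 c32_40_m1_t7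
theorem c32_40_m1_t11 : CovD 0 progs [(38482906972160, 1099511627776), (193273528320, 38654705664), (412316860416, 137438953472), (412316860416, 137438953472)] :=
  covD_split 0 (by decide +kernel) c32_40_m1_t9 c32_40_m1_t10
theorem c32_40_m1_t12 : CovD 0 progs [(37383395344384, 2199023255552), (193273528320, 38654705664), (412316860416, 137438953472), (412316860416, 137438953472)] :=
  covD_split 0 (by decide +kernel) c32_40_m1_t8 c32_40_m1_t11
theorem c32_40_m1_t13 : CovD 0 progs [(37383395344384, 2199023255552), (193273528320, 38654705664), (412316860416, 137438953472), (274877906944, 274877906944)] :=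
  covD_split 3 (by decide +kernel) c32_40_m1_t5 c32_40_m1_t12
theorem c32_40_m1_t16 : CovD 0 progs [(35734127902720, 549755813888), (193273528320, 38654705664), (412316860416, 137438953472), (824633720832, 274877906944)] :=
  covD_split 1 (by decide +kernel) c32_40_m1_t14 c32_40_m1_t15
theorem c32_40_m1_t19 : CovD 0 progs [(36833639530496, 549755813888), (193273528320, 38654705664), (412316860416, 137438953472), (824633720832, 274877906944)] :=
  covD_split 1 (by decide +kernel) c32_40_m1_t17 c32_40_m1_t18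
theorem c32_40_m1_t20 : CovD 0 progs [(36283883716608, 1099511627776), (193273528320, 38654705664), (412316860416, 137438953472), (824633720832, 274877906944)] :=
  covD_split 0 (by decide +kernel) c32_40_m1_t16 c32_40_m1_t19
theorem c32_40_m1_t23 : CovD 0 progs [(37933151158272, 549755813888), (193273528320, 38654705664), (412316860416, 137438953472), (824633720832, 274877906944)] :=
  covD_split 1 (by decide +kernel) c32_40_m1_t21 c32_40_m1_t22
theorem c32_40_m1_t26 : CovD 0 progs [(39032662786048, 549755813888), (193273528320, 38654705664), (412316860416, 137438953472), (824633720832, 274877906944)] :=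
  covD_split 1 (by decide +kernel) c32_40_m1_t24 c32_40_m1_t25
theorem c32_40_m1_t27 : CovD 0 progs [(38482906972160, 1099511627776), (193273528320, 38654705664), (412316860416, 137438953472), (824633720832, 274877906944)] :=
  covD_split 0 (by decide +kernel) c32_40_m1_t23 c32_40_m1_t26
theorem c32_40_m1_t28 : CovD 0 progs [(37383395344384, 2199023255552), (193273528320, 38654705664), (412316860416, 137438953472), (824633720832, 274877906944)] :=
  covD_split 0 (by decide +kernel) c32_40_m1_t20 c32_40_m1_t27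
theorem c32_40_m1_t29 : CovD 0 progs [(37383395344384, 2199023255552), (193273528320, 38654705664), (412316860416, 137438953472), (549755813888, 549755813888)] :=
  covD_split 3 (by decide +kernel) c32_40_m1_t13 c32_40_m1_t28
theorem c32_40_m1_t30 : CovD 0 progs [(37383395344384, 2199023255552), (193273528320, 38654705664), (274877906944, 274877906944), (549755813888, 549755813888)] :=
  covD_split 2 (by decide +kernel) c32_40_m1_t2 c32_40_m1_t29
theorem c32_40_m1_t33 : CovD 0 progs [(37383395344384, 2199023255552), (241591910400, 9663676416), (274877906944, 274877906944), (549755813888, 549755813888)] :=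
  covD_split 2 (by decide +kernel) c32_40_m1_t31 c32_40_m1_t32
theorem c32_40_m1_t35 : CovD 0 progs [(37383395344384, 2199023255552), (251255586816, 19327352832), (274877906944, 274877906944), (549755813888, 549755813888)] :=
  covD_split 1 (by decide +kernel) c32_40_m1_t33 c32_40_m1_t34
theorem c32_40_m1_t37 : CovD 0 progs [(37383395344384, 2199023255552), (270582939648, 38654705664), (274877906944, 274877906944), (549755813888, 549755813888)] :=
  covD_split 1 (by decide +kernel) c32_40_m1_t35 c32_40_m1_t36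
theorem c32_40_m1 : CovD 0 progs [(37383395344384, 2199023255552), (231928233984, 77309411328), (274877906944, 274877906944), (549755813888, 549755813888)] :=
  covD_split 1 (by decide +kernel) c32_40_m1_t30 c32_40_m1_t37

end Pool.Agent.helper71.FG.Crt.L
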