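import Pool.Agent.helper71.FG.Crt.LP

/-!
Generated certificates.
-/

namespace Pool.Agent.helper71.FG.Crt.L

open Pool.Agent.helper31.IA (Z Op)
open Pool.Agent.helper31.IC

mutual
theorem c32_40_m2_t0 : CovD 0 progs [(36283883716608, 1099511627776), (231928233984, 77309411328), (584115552256, 34359738368), (549755813888, 549755813888)] :=
  Pool.Agent.helper14.QF.covD_F chks_eq (.n 1 (.n 1 (.n 3 (.n 1 (.l 8) (.l 8)) (.n 3 (.l 9) (.n 1 (.l 4) (.l 4)))) (.n 3 (.n 1 (.l 8) (.l 8)) (.n 3 (.l 8) (.n 1 (.l 4) (.l 6))))) (.n 1 (.n 3 (.n 1 (.l 8) (.l 10)) (.n 3 (.l 8) (.n 0 (.l 8) (.l 8)))) (.n 3 (.l 10) (.n 3 (.l 8) (.l 10)))))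
    [(36283883716608, 1099511627776), (231928233984, 77309411328), (584115552256, 34359738368), (549755813888, 549755813888)] rfl (by decide +kernel)
theorem c32_40_m2_t1 : CovD 0 progs [(36283883716608, 1099511627776), (231928233984, 77309411328), (652835028992, 34359738368), (549755813888, 549755813888)] :=
  Pool.Agent.helper14.QF.covD_F chks_eq (.n 1 (.n 1 (.n 3 (.l 8) (.n 3 (.l 4) (.l 8))) (.n 3 (.n 1 (.l 4) (.l 8)) (.n 3 (.l 4) (.l 6)))) (.n 1 (.n 3 (.n 3 (.l 4) (.l 4)) (.n 3 (.l 4) (.l 6))) (.n 3 (.l 10) (.n 3 (.l 6) (.l 6)))))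
    [(36283883716608, 1099511627776), (231928233984, 77309411328), (652835028992, 34359738368), (549755813888, 549755813888)] rfl (by decide +kernel)
end
mutual
theorem c32_40_m2_t3 : CovD 0 progs [(36283883716608, 1099511627776), (231928233984, 77309411328), (721554505728, 34359738368), (549755813888, 549755813888)] :=
  Pool.Agent.helper14.QF.covD_F chks_eq (.n 1 (.n 1 (.n 3 (.l 8) (.n 1 (.l 8) (.l 8))) (.n 3 (.n 3 (.l 4) (.l 4)) (.n 1 (.l 8) (.l 8)))) (.n 1 (.n 3 (.n 3 (.l 10) (.l 4)) (.n 1 (.l 8) (.l 8))) (.n 3 (.l 10) (.n 3 (.l 4) (.n 1 (.l 4) (.l 4))))))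
    [(36283883716608, 1099511627776), (231928233984, 77309411328), (721554505728, 34359738368), (549755813888, 549755813888)] rfl (by decide +kernel)
theorem c32_40_m2_t4 : CovD 0 progs [(36283883716608, 1099511627776), (231928233984, 77309411328), (790273982464, 34359738368), (549755813888, 549755813888)] :=
  Pool.Agent.helper14.QF.covD_F chks_eq (.n 1 (.n 1 (.n 3 (.l 4) (.l 8)) (.n 3 (.n 3 (.l 4) (.l 4)) (.n 1 (.l 4) (.l 6)))) (.n 1 (.n 3 (.n 3 (.l 10) (.l 4)) (.n 3 (.l 4) (.n 1 (.l 3) (.l 3)))) (.n 3 (.n 1 (.l 10) (.l 10)) (.n 3 (.l 10) (.n 1 (.l 3) (.n 0 (.l 4) (.l 4)))))))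
    [(36283883716608, 1099511627776), (231928233984, 77309411328), (790273982464, 34359738368), (549755813888, 549755813888)] rfl (by decide +kernel)
end
mutual
theorem c32_40_m2_t7 : CovD 0 progs [(38482906972160, 1099511627776), (231928233984, 77309411328), (687194767360, 137438953472), (274877906944, 274877906944)] :=
  Pool.Agent.helper14.QF.covD_F chks_eq (.n 1 (.n 1 (.n 2 (.n 2 (.n 1 (.l 8) (.l 8)) (.l 8)) (.n 3 (.l 4) (.l 8))) (.n 2 (.n 1 (.n 2 (.l 8) (.l 4)) (.n 2 (.l 8) (.l 8))) (.n 2 (.n 3 (.l 4) (.l 4)) (.n 3 (.l 4) (.l 4))))) (.n 3 (.n 3 (.l 10) (.l 10)) (.n 1 (.n 1 (.n 2 (.l 8) (.l 4)) (.l 10)) (.l 10))))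
    [(38482906972160, 1099511627776), (231928233984, 77309411328), (687194767360, 137438953472), (274877906944, 274877906944)] rfl (by decide +kernel)
theorem c32_40_m2_t8 : CovD 0 progs [(38482906972160, 1099511627776), (231928233984, 77309411328), (618475290624, 68719476736), (824633720832, 274877906944)] :=
  Pool.Agent.helper14.QF.covD_F chks_eq (.n 2 (.n 1 (.n 1 (.n 3 (.l 8) (.n 1 (.l 4) (.l 4))) (.n 3 (.l 8) (.n 1 (.l 4) (.l 6)))) (.n 1 (.n 3 (.l 8) (.n 0 (.l 8) (.l 8))) (.n 3 (.l 8) (.l 10)))) (.n 1 (.n 1 (.n 3 (.l 4) (.l 8)) (.n 3 (.l 4) (.l 6))) (.n 1 (.n 3 (.l 4) (.l 6)) (.n 3 (.l 4) (.n 0 (.l 6) (.l 6))))))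
    [(38482906972160, 1099511627776), (231928233984, 77309411328), (618475290624, 68719476736), (824633720832, 274877906944)] rfl (by decide +kernel)
end
mutual
theorem c32_40_m2_t9 : CovD 0 progs [(38482906972160, 1099511627776), (231928233984, 77309411328), (755914244096, 68719476736), (824633720832, 274877906944)] :=
  Pool.Agent.helper14.QF.covD_F chks_eq (.n 2 (.n 1 (.n 1 (.n 1 (.l 8) (.l 8)) (.n 1 (.l 8) (.l 8))) (.n 1 (.n 1 (.l 8) (.l 8)) (.n 3 (.l 4) (.n 1 (.l 4) (.l 4))))) (.n 1 (.n 1 (.l 8) (.n 1 (.l 4) (.l 6))) (.n 1 (.n 3 (.l 4) (.n 1 (.l 3) (.l 3))) (.n 3 (.l 10) (.n 1 (.n 0 (.l 3) (.l 3)) (.n 2 (.l 3) (.l 3)))))))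
    [(38482906972160, 1099511627776), (231928233984, 77309411328), (755914244096, 68719476736), (824633720832, 274877906944)] rfl (by decide +kernel)
theorem c32_40_m2_t13 : CovD 0 progs [(37383395344384, 2199023255552), (231928233984, 77309411328), (962072674304, 137438953472), (137438953472, 137438953472)] :=
  Pool.Agent.helper14.QF.covD_F chks_eq (.n 2 (.n 2 (.n 1 (.n 1 (.l 4) (.n 1 (.l 4) (.n 0 (.l 4) (.l 15)))) (.n 1 (.l 10) (.l 10))) (.n 1 (.n 1 (.l 4) (.n 1 (.n 0 (.l 4) (.l 15)) (.l 15))) (.n 0 (.l 15) (.l 15)))) (.n 1 (.n 0 (.n 1 (.n 1 (.l 4) (.n 2 (.l 4) (.l 15))) (.n 1 (.l 15) (.l 15))) (.n 1 (.n 1 (.l 4) (.n 2 (.l 4) (.l 15))) (.l 15))) (.n 1 (.l 15) (.l 10))))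
    [(37383395344384, 2199023255552), (231928233984, 77309411328), (962072674304, 137438953472), (137438953472, 137438953472)] rfl (by decide +kernel)
end
mutual
theorem c32_40_m2_t14 : CovD 0 progs [(37383395344384, 2199023255552), (231928233984, 77309411328), (962072674304, 137438953472), (412316860416, 137438953472)] :=
  Pool.Agent.helper14.QF.covD_F chks_eq (.n 2 (.n 1 (.n 1 (.n 2 (.l 4) (.l 4)) (.n 2 (.l 4) (.n 0 (.l 4) (.l 4)))) (.n 1 (.n 1 (.n 2 (.l 4) (.l 4)) (.l 10)) (.l 10))) (.n 1 (.n 2 (.n 1 (.n 0 (.l 4) (.l 4)) (.n 1 (.l 4) (.l 4))) (.n 1 (.n 1 (.l 4) (.l 4)) (.n 1 (.l 4) (.n 0 (.l 4) (.l 4))))) (.n 1 (.n 3 (.l 15) (.n 1 (.n 0 (.l 15) (.l 15)) (.l 15))) (.l 10))))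
    [(37383395344384, 2199023255552), (231928233984, 77309411328), (962072674304, 137438953472), (412316860416, 137438953472)] rfl (by decide +kernel)
theorem c32_40_m2_t16 : CovD 0 progs [(37383395344384, 2199023255552), (231928233984, 77309411328), (858993459200, 34359738368), (687194767360, 137438953472)] :=
  Pool.Agent.helper14.QF.covD_F chks_eq (.n 3 (.n 1 (.n 1 (.l 4) (.l 4)) (.n 1 (.n 0 (.l 4) (.l 4)) (.l 10))) (.n 1 (.n 1 (.l 3) (.n 0 (.l 3) (.l 3))) (.n 1 (.n 0 (.l 3) (.l 3)) (.l 10))))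
    [(37383395344384, 2199023255552), (231928233984, 77309411328), (858993459200, 34359738368), (687194767360, 137438953472)] rfl (by decide +kernel)
end
mutual
theorem c32_40_m2_t17 : CovD 0 progs [(36283883716608, 1099511627776), (231928233984, 77309411328), (858993459200, 34359738368), (962072674304, 137438953472)] :=
  Pool.Agent.helper14.QF.covD_F chks_eq (.n 1 (.n 1 (.l 3) (.n 1 (.l 3) (.l 3))) (.n 1 (.n 1 (.l 3) (.n 0 (.l 3) (.l 3))) (.n 1 (.n 1 (.l 3) (.l 3)) (.n 2 (.l 3) (.l 3)))))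
    [(36283883716608, 1099511627776), (231928233984, 77309411328), (858993459200, 34359738368), (962072674304, 137438953472)] rfl (by decide +kernel)
theorem c32_40_m2_t18 : CovD 0 progs [(38482906972160, 1099511627776), (231928233984, 77309411328), (858993459200, 34359738368), (962072674304, 137438953472)] :=
  Pool.Agent.helper14.QF.covD_F chks_eq (.n 3 (.n 1 (.n 1 (.l 3) (.l 3)) (.n 1 (.n 1 (.l 3) (.l 3)) (.n 1 (.l 3) (.l 3)))) (.n 2 (.n 1 (.n 1 (.l 3) (.l 3)) (.n 1 (.l 3) (.n 0 (.l 3) (.l 3)))) (.n 1 (.n 1 (.l 3) (.l 3)) (.n 1 (.l 3) (.n 0 (.l 3) (.l 3))))))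
    [(38482906972160, 1099511627776), (231928233984, 77309411328), (858993459200, 34359738368), (962072674304, 137438953472)] rfl (by decide +kernel)
end
mutual
theorem c32_40_m2_t21 : CovD 0 progs [(37383395344384, 2199023255552), (231928233984, 77309411328), (927712935936, 34359738368), (687194767360, 137438953472)] :=
  Pool.Agent.helper14.QF.covD_F chks_eq (.n 1 (.n 1 (.n 0 (.l 4) (.l 4)) (.n 1 (.l 4) (.l 4))) (.n 1 (.n 0 (.n 1 (.l 4) (.l 4)) (.n 1 (.l 4) (.l 4))) (.n 1 (.n 2 (.l 4) (.n 0 (.l 4) (.l 4))) (.l 10))))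
    [(37383395344384, 2199023255552), (231928233984, 77309411328), (927712935936, 34359738368), (687194767360, 137438953472)] rfl (by decide +kernel)
theorem c32_40_m2_t22 : CovD 0 progs [(37383395344384, 2199023255552), (231928233984, 77309411328), (910533066752, 17179869184), (962072674304, 137438953472)] :=
  Pool.Agent.helper14.QF.covD_F chks_eq (.n 3 (.n 1 (.n 1 (.l 3) (.l 3)) (.n 1 (.n 0 (.l 3) (.l 3)) (.n 1 (.l 3) (.l 3)))) (.n 1 (.n 1 (.l 3) (.n 0 (.l 3) (.l 3))) (.n 1 (.n 1 (.l 3) (.l 3)) (.n 0 (.n 1 (.l 3) (.l 3)) (.n 1 (.l 3) (.l 3))))))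
    [(37383395344384, 2199023255552), (231928233984, 77309411328), (910533066752, 17179869184), (962072674304, 137438953472)] rfl (by decide +kernel)
end
mutual
theorem c32_40_m2_t23 : CovD 0 progs [(37383395344384, 2199023255552), (231928233984, 77309411328), (944892805120, 17179869184), (962072674304, 137438953472)] :=
  Pool.Agent.helper14.QF.covD_F chks_eq (.n 0 (.n 1 (.n 1 (.l 3) (.n 0 (.l 3) (.l 3))) (.n 1 (.n 1 (.l 3) (.l 3)) (.n 1 (.n 0 (.l 3) (.l 3)) (.n 1 (.l 3) (.l 3))))) (.n 1 (.n 1 (.l 3) (.n 1 (.l 3) (.l 3))) (.n 1 (.n 1 (.l 3) (.n 0 (.l 3) (.l 3))) (.n 1 (.n 0 (.l 3) (.l 3)) (.n 3 (.l 3) (.l 3))))))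
    [(37383395344384, 2199023255552), (231928233984, 77309411328), (944892805120, 17179869184), (962072674304, 137438953472)] rfl (by decide +kernel)
theorem c32_40_m2_t27 : CovD 0 progs [(37383395344384, 2199023255552), (231928233984, 77309411328), (979252543488, 17179869184), (687194767360, 137438953472)] :=
  Pool.Agent.helper14.QF.covD_F chks_eq (.n 1 (.n 1 (.l 4) (.n 0 (.l 4) (.l 4))) (.n 1 (.n 1 (.l 4) (.n 0 (.l 4) (.l 4))) (.n 3 (.l 10) (.n 1 (.l 3) (.l 10)))))
    [(37383395344384, 2199023255552), (231928233984, 77309411328), (979252543488, 17179869184), (687194767360, 137438953472)] rfl (by decide +kernel)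
end
mutual
theorem c32_40_m2_t28 : CovD 0 progs [(36283883716608, 1099511627776), (231928233984, 77309411328), (979252543488, 17179869184), (962072674304, 137438953472)] :=
  Pool.Agent.helper14.QF.covD_F chks_eq (.n 1 (.n 1 (.l 3) (.n 1 (.l 3) (.l 3))) (.n 1 (.n 1 (.l 3) (.n 0 (.l 3) (.l 3))) (.n 1 (.n 1 (.l 3) (.l 3)) (.n 3 (.l 3) (.l 3)))))
    [(36283883716608, 1099511627776), (231928233984, 77309411328), (979252543488, 17179869184), (962072674304, 137438953472)] rfl (by decide +kernel)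
theorem c32_40_m2_t29 : CovD 0 progs [(38482906972160, 1099511627776), (231928233984, 77309411328), (979252543488, 17179869184), (962072674304, 137438953472)] :=
  Pool.Agent.helper14.QF.covD_F chks_eq (.n 0 (.n 1 (.n 1 (.l 3) (.n 1 (.l 3) (.l 3))) (.n 1 (.n 1 (.l 3) (.l 3)) (.n 1 (.n 0 (.l 3) (.l 3)) (.n 1 (.l 3) (.l 3))))) (.n 1 (.n 1 (.l 3) (.n 1 (.l 3) (.l 3))) (.n 1 (.n 1 (.l 3) (.l 3)) (.n 1 (.n 1 (.l 3) (.l 3)) (.n 3 (.l 3) (.l 3))))))
    [(38482906972160, 1099511627776), (231928233984, 77309411328), (979252543488, 17179869184), (962072674304, 137438953472)] rfl (by decide +kernel)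
end
mutual
theorem c32_40_m2_t32 : CovD 0 progs [(36283883716608, 1099511627776), (231928233984, 77309411328), (1013612281856, 17179869184), (824633720832, 274877906944)] :=
  Pool.Agent.helper14.QF.covD_F chks_eq (.n 1 (.n 1 (.n 1 (.l 4) (.l 4)) (.n 3 (.l 4) (.n 1 (.l 3) (.l 3)))) (.n 1 (.n 1 (.n 3 (.l 4) (.n 0 (.l 3) (.l 3))) (.n 3 (.l 4) (.n 0 (.l 3) (.l 3)))) (.n 1 (.n 3 (.l 4) (.n 3 (.l 3) (.l 3))) (.n 3 (.l 4) (.n 3 (.l 3) (.l 3))))))
    [(36283883716608, 1099511627776), (231928233984, 77309411328), (1013612281856, 17179869184), (824633720832, 274877906944)] rfl (by decide +kernel)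
theorem c32_40_m2_t33 : CovD 0 progs [(38482906972160, 1099511627776), (231928233984, 77309411328), (1013612281856, 17179869184), (824633720832, 274877906944)] :=
  Pool.Agent.helper14.QF.covD_F chks_eq (.n 1 (.n 1 (.n 1 (.l 4) (.n 0 (.l 4) (.l 4))) (.n 1 (.n 3 (.l 4) (.l 3)) (.n 3 (.l 4) (.l 3)))) (.n 1 (.n 1 (.n 3 (.l 4) (.n 0 (.l 3) (.l 3))) (.n 3 (.l 4) (.n 1 (.l 3) (.l 3)))) (.n 1 (.n 3 (.l 4) (.n 3 (.l 3) (.l 3))) (.n 3 (.n 0 (.l 4) (.l 4)) (.n 3 (.l 3) (.n 0 (.l 3) (.l 3)))))))
    [(38482906972160, 1099511627776), (231928233984, 77309411328), (1013612281856, 17179869184), (824633720832, 274877906944)] rfl (by decide +kernel)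
end
mutual
theorem c32_40_m2_t36 : CovD 0 progs [(36283883716608, 1099511627776), (193273528320, 38654705664), (1065151889408, 34359738368), (824633720832, 274877906944)] :=
  Pool.Agent.helper14.QF.covD_F chks_eq (.n 1 (.n 1 (.n 1 (.l 4) (.l 4)) (.n 3 (.l 3) (.n 0 (.l 3) (.l 3)))) (.n 1 (.n 3 (.l 3) (.n 1 (.l 3) (.l 3))) (.n 3 (.l 4) (.n 2 (.l 3) (.n 0 (.l 3) (.l 3))))))
    [(36283883716608, 1099511627776), (193273528320, 38654705664), (1065151889408, 34359738368), (824633720832, 274877906944)] rfl (by decide +kernel)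
theorem c32_40_m2_t37 : CovD 0 progs [(36283883716608, 1099511627776), (251255586816, 19327352832), (1065151889408, 34359738368), (824633720832, 274877906944)] :=
  Pool.Agent.helper14.QF.covD_F chks_eq (.n 1 (.n 3 (.n 0 (.l 4) (.l 4)) (.n 3 (.l 3) (.n 0 (.l 3) (.l 3)))) (.n 2 (.n 3 (.l 4) (.n 3 (.l 3) (.l 3))) (.n 3 (.l 4) (.n 3 (.l 3) (.l 3)))))
    [(36283883716608, 1099511627776), (251255586816, 19327352832), (1065151889408, 34359738368), (824633720832, 274877906944)] rfl (by decide +kernel)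
end
mutual
theorem c32_40_m2_t38 : CovD 0 progs [(36283883716608, 1099511627776), (289910292480, 19327352832), (1065151889408, 34359738368), (824633720832, 274877906944)] :=
  Pool.Agent.helper14.QF.covD_F chks_eq (.n 1 (.n 2 (.n 3 (.l 4) (.n 3 (.l 3) (.l 3))) (.n 3 (.n 0 (.l 4) (.l 4)) (.n 3 (.l 3) (.n 0 (.l 3) (.l 3))))) (.n 2 (.n 3 (.n 0 (.l 4) (.l 4)) (.n 3 (.l 3) (.n 0 (.l 3) (.l 3)))) (.n 3 (.n 0 (.l 5) (.l 5)) (.n 3 (.l 3) (.n 0 (.l 3) (.l 3))))))
    [(36283883716608, 1099511627776), (289910292480, 19327352832), (1065151889408, 34359738368), (824633720832, 274877906944)] rfl (by decide +kernel)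
theorem c32_40_m2_t41 : CovD 0 progs [(38482906972160, 1099511627776), (231928233984, 77309411328), (1047972020224, 17179869184), (824633720832, 274877906944)] :=
  Pool.Agent.helper14.QF.covD_F chks_eq (.n 1 (.n 1 (.n 1 (.l 4) (.n 1 (.l 4) (.l 4))) (.n 1 (.n 3 (.l 3) (.l 3)) (.n 3 (.l 4) (.n 0 (.l 3) (.l 3))))) (.n 1 (.n 1 (.n 3 (.l 4) (.n 1 (.l 3) (.l 3))) (.n 3 (.l 4) (.n 3 (.l 3) (.l 3)))) (.n 1 (.n 3 (.n 0 (.l 4) (.l 4)) (.n 3 (.l 3) (.n 0 (.l 3) (.l 3)))) (.n 3 (.n 0 (.l 4) (.l 5)) (.n 3 (.l 3) (.n 0 (.l 3) (.l 3)))))))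
    [(38482906972160, 1099511627776), (231928233984, 77309411328), (1047972020224, 17179869184), (824633720832, 274877906944)] rfl (by decide +kernel)
end
mutual
theorem c32_40_m2_t42 : CovD 0 progs [(38482906972160, 1099511627776), (193273528320, 38654705664), (1082331758592, 17179869184), (824633720832, 274877906944)] :=
  Pool.Agent.helper14.QF.covD_F chks_eq (.n 1 (.n 1 (.n 0 (.l 4) (.l 4)) (.n 3 (.l 3) (.l 3))) (.n 1 (.n 3 (.l 3) (.l 3)) (.n 3 (.l 3) (.n 0 (.l 3) (.l 3)))))
    [(38482906972160, 1099511627776), (193273528320, 38654705664), (1082331758592, 17179869184), (824633720832, 274877906944)] rfl (by decide +kernel)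
theorem c32_40_m2_t43 : CovD 0 progs [(38482906972160, 1099511627776), (270582939648, 38654705664), (1082331758592, 17179869184), (824633720832, 274877906944)] :=
  Pool.Agent.helper14.QF.covD_F chks_eq (.n 1 (.n 1 (.n 3 (.l 4) (.n 3 (.l 3) (.l 3))) (.n 3 (.n 0 (.l 4) (.l 4)) (.n 3 (.l 3) (.n 0 (.l 3) (.l 3))))) (.n 1 (.n 3 (.n 0 (.l 4) (.l 4)) (.n 3 (.l 3) (.n 0 (.l 3) (.l 3)))) (.n 1 (.n 3 (.l 4) (.n 3 (.l 3) (.l 3))) (.n 3 (.n 0 (.l 5) (.l 5)) (.n 3 (.l 3) (.l 3))))))
    [(38482906972160, 1099511627776), (270582939648, 38654705664), (1082331758592, 17179869184), (824633720832, 274877906944)] rfl (by decide +kernel)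
end
theorem c32_40_m2_t2 : CovD 0 progs [(36283883716608, 1099511627776), (231928233984, 77309411328), (618475290624, 68719476736), (549755813888, 549755813888)] :=
  covD_split 2 (by decide +kernel) c32_40_m2_t0 c32_40_m2_t1
theorem c32_40_m2_t5 : CovD 0 progs [(36283883716608, 1099511627776), (231928233984, 77309411328), (755914244096, 68719476736), (549755813888, 549755813888)] :=
  covD_split 2 (by decide +kernel) c32_40_m2_t3 c32_40_m2_t4
theorem c32_40_m2_t6 : CovD 0 progs [(36283883716608, 1099511627776), (231928233984, 77309411328), (687194767360, 137438953472), (549755813888, 549755813888)] :=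
  covD_split 2 (by decide +kernel) c32_40_m2_t2 c32_40_m2_t5
theorem c32_40_m2_t10 : CovD 0 progs [(38482906972160, 1099511627776), (231928233984, 77309411328), (687194767360, 137438953472), (824633720832, 274877906944)] :=
  covD_split 2 (by decide +kernel) c32_40_m2_t8 c32_40_m2_t9
theorem c32_40_m2_t11 : CovD 0 progs [(38482906972160, 1099511627776), (231928233984, 77309411328), (687194767360, 137438953472), (549755813888, 549755813888)] :=
  covD_split 3 (by decide +kernel) c32_40_m2_t7 c32_40_m2_t10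
theorem c32_40_m2_t12 : CovD 0 progs [(37383395344384, 2199023255552), (231928233984, 77309411328), (687194767360, 137438953472), (549755813888, 549755813888)] :=
  covD_split 0 (by decide +kernel) c32_40_m2_t6 c32_40_m2_t11
theorem c32_40_m2_t15 : CovD 0 progs [(37383395344384, 2199023255552), (231928233984, 77309411328), (962072674304, 137438953472), (274877906944, 274877906944)] :=
  covD_split 3 (by decide +kernel) c32_40_m2_t13 c32_40_m2_t14
theorem c32_40_m2_t19 : CovD 0 progs [(37383395344384, 2199023255552), (231928233984, 77309411328), (858993459200, 34359738368), (962072674304, 137438953472)] :=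
  covD_split 0 (by decide +kernel) c32_40_m2_t17 c32_40_m2_t18
theorem c32_40_m2_t20 : CovD 0 progs [(37383395344384, 2199023255552), (231928233984, 77309411328), (858993459200, 34359738368), (824633720832, 274877906944)] :=
  covD_split 3 (by decide +kernel) c32_40_m2_t16 c32_40_m2_t19
theorem c32_40_m2_t24 : CovD 0 progs [(37383395344384, 2199023255552), (231928233984, 77309411328), (927712935936, 34359738368), (962072674304, 137438953472)] :=
  covD_split 2 (by decide +kernel) c32_40_m2_t22 c32_40_m2_t23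
theorem c32_40_m2_t25 : CovD 0 progs [(37383395344384, 2199023255552), (231928233984, 77309411328), (927712935936, 34359738368), (824633720832, 274877906944)] :=
  covD_split 3 (by decide +kernel) c32_40_m2_t21 c32_40_m2_t24
theorem c32_40_m2_t26 : CovD 0 progs [(37383395344384, 2199023255552), (231928233984, 77309411328), (893353197568, 68719476736), (824633720832, 274877906944)] :=
  covD_split 2 (by decide +kernel) c32_40_m2_t20 c32_40_m2_t25
theorem c32_40_m2_t30 : CovD 0 progs [(37383395344384, 2199023255552), (231928233984, 77309411328), (979252543488, 17179869184), (962072674304, 137438953472)] :=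
  covD_split 0 (by decide +kernel) c32_40_m2_t28 c32_40_m2_t29
theorem c32_40_m2_t31 : CovD 0 progs [(37383395344384, 2199023255552), (231928233984, 77309411328), (979252543488, 17179869184), (824633720832, 274877906944)] :=
  covD_split 3 (by decide +kernel) c32_40_m2_t27 c32_40_m2_t30
theorem c32_40_m2_t34 : CovD 0 progs [(37383395344384, 2199023255552), (231928233984, 77309411328), (1013612281856, 17179869184), (824633720832, 274877906944)] :=
  covD_split 0 (by decide +kernel) c32_40_m2_t32 c32_40_m2_t33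
theorem c32_40_m2_t35 : CovD 0 progs [(37383395344384, 2199023255552), (231928233984, 77309411328), (996432412672, 34359738368), (824633720832, 274877906944)] :=
  covD_split 2 (by decide +kernel) c32_40_m2_t31 c32_40_m2_t34
theorem c32_40_m2_t39 : CovD 0 progs [(36283883716608, 1099511627776), (270582939648, 38654705664), (1065151889408, 34359738368), (824633720832, 274877906944)] :=
  covD_split 1 (by decide +kernel) c32_40_m2_t37 c32_40_m2_t38
theorem c32_40_m2_t40 : CovD 0 progs [(36283883716608, 1099511627776), (231928233984, 77309411328), (1065151889408, 34359738368), (824633720832, 274877906944)] :=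
  covD_split 1 (by decide +kernel) c32_40_m2_t36 c32_40_m2_t39
theorem c32_40_m2_t44 : CovD 0 progs [(38482906972160, 1099511627776), (231928233984, 77309411328), (1082331758592, 17179869184), (824633720832, 274877906944)] :=
  covD_split 1 (by decide +kernel) c32_40_m2_t42 c32_40_m2_t43
theorem c32_40_m2_t45 : CovD 0 progs [(38482906972160, 1099511627776), (231928233984, 77309411328), (1065151889408, 34359738368), (824633720832, 274877906944)] :=
  covD_split 2 (by decide +kernel) c32_40_m2_t41 c32_40_m2_t44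
theorem c32_40_m2_t46 : CovD 0 progs [(37383395344384, 2199023255552), (231928233984, 77309411328), (1065151889408, 34359738368), (824633720832, 274877906944)] :=
  covD_split 0 (by decide +kernel) c32_40_m2_t40 c32_40_m2_t45
theorem c32_40_m2_t47 : CovD 0 progs [(37383395344384, 2199023255552), (231928233984, 77309411328), (1030792151040, 68719476736), (824633720832, 274877906944)] :=
  covD_split 2 (by decide +kernel) c32_40_m2_t35 c32_40_m2_t46
theorem c32_40_m2_t48 : CovD 0 progs [(37383395344384, 2199023255552), (231928233984, 77309411328), (962072674304, 137438953472), (824633720832, 274877906944)] :=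
  covD_split 2 (by decide +kernel) c32_40_m2_t26 c32_40_m2_t47
theorem c32_40_m2_t49 : CovD 0 progs [(37383395344384, 2199023255552), (231928233984, 77309411328), (962072674304, 137438953472), (549755813888, 549755813888)] :=
  covD_split 3 (by decide +kernel) c32_40_m2_t15 c32_40_m2_t48
theorem c32_40_m2 : CovD 0 progs [(37383395344384, 2199023255552), (231928233984, 77309411328), (824633720832, 274877906944), (549755813888, 549755813888)] :=
  covD_split 2 (by decide +kernel) c32_40_m2_t12 c32_40_m2_t49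

end Pool.Agent.helper71.FG.Crt.L
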