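import Pool.Agent.helper71.FG.Crt.LP

/-!
Generated certificates.
-/

namespace Pool.Agent.helper71.FG.Crt.L

open Pool.Agent.helper31.IA (Z Op)
open Pool.Agent.helper31.IC

mutual
theorem c32_40_m4_t0 : CovD 0 progs [(41781441855488, 2199023255552), (164282499072, 9663676416), (137438953472, 137438953472), (549755813888, 549755813888)] :=
  Pool.Agent.helper14.QF.covD_F chks_eq (.n 2 (.n 2 (.l 2) (.l 2)) (.n 2 (.n 2 (.l 2) (.l 4)) (.n 3 (.l 4) (.n 2 (.l 2) (.l 4)))))
    [(41781441855488, 2199023255552), (164282499072, 9663676416), (137438953472, 137438953472), (549755813888, 549755813888)] rfl (by decide +kernel)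
theorem c32_40_m4_t1 : CovD 0 progs [(41781441855488, 2199023255552), (164282499072, 9663676416), (343597383680, 68719476736), (549755813888, 549755813888)] :=
  Pool.Agent.helper14.QF.covD_F chks_eq (.n 2 (.n 3 (.n 2 (.l 4) (.n 1 (.l 4) (.l 4))) (.n 3 (.l 4) (.l 4))) (.n 2 (.n 3 (.n 3 (.l 4) (.l 4)) (.n 3 (.l 4) (.l 4))) (.n 3 (.n 3 (.l 4) (.l 4)) (.n 3 (.l 4) (.l 4)))))
    [(41781441855488, 2199023255552), (164282499072, 9663676416), (343597383680, 68719476736), (549755813888, 549755813888)] rfl (by decide +kernel)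
end
mutual
theorem c32_40_m4_t2 : CovD 0 progs [(41781441855488, 2199023255552), (164282499072, 9663676416), (481036337152, 68719476736), (549755813888, 549755813888)] :=
  Pool.Agent.helper14.QF.covD_F chks_eq (.n 2 (.n 2 (.n 3 (.n 3 (.l 4) (.l 4)) (.n 3 (.l 4) (.l 4))) (.n 3 (.n 3 (.l 4) (.l 4)) (.n 3 (.l 4) (.l 4)))) (.n 3 (.n 3 (.l 8) (.l 8)) (.n 2 (.n 3 (.l 4) (.l 4)) (.n 3 (.l 4) (.l 4)))))
    [(41781441855488, 2199023255552), (164282499072, 9663676416), (481036337152, 68719476736), (549755813888, 549755813888)] rfl (by decide +kernel)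
theorem c32_40_m4_t5 : CovD 0 progs [(41781441855488, 2199023255552), (183609851904, 9663676416), (137438953472, 137438953472), (549755813888, 549755813888)] :=
  Pool.Agent.helper14.QF.covD_F chks_eq (.n 2 (.n 2 (.l 2) (.n 2 (.l 2) (.l 4))) (.n 2 (.n 2 (.l 4) (.n 3 (.l 2) (.l 2))) (.n 3 (.n 2 (.l 2) (.l 4)) (.n 3 (.l 4) (.l 4)))))
    [(41781441855488, 2199023255552), (183609851904, 9663676416), (137438953472, 137438953472), (549755813888, 549755813888)] rfl (by decide +kernel)
end
mutual
theorem c32_40_m4_t6 : CovD 0 progs [(41781441855488, 2199023255552), (183609851904, 9663676416), (343597383680, 68719476736), (549755813888, 549755813888)] :=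
  Pool.Agent.helper14.QF.covD_F chks_eq (.n 2 (.n 2 (.n 3 (.n 3 (.l 4) (.l 4)) (.n 3 (.l 4) (.l 2))) (.n 3 (.n 3 (.l 4) (.l 4)) (.n 3 (.l 4) (.l 4)))) (.n 2 (.n 3 (.n 0 (.n 3 (.l 4) (.l 4)) (.n 3 (.l 4) (.l 4))) (.n 3 (.n 0 (.l 4) (.l 4)) (.l 4))) (.n 3 (.n 3 (.l 9) (.n 0 (.l 4) (.l 4))) (.n 3 (.n 0 (.l 4) (.l 4)) (.l 4)))))
    [(41781441855488, 2199023255552), (183609851904, 9663676416), (343597383680, 68719476736), (549755813888, 549755813888)] rfl (by decide +kernel)
theorem c32_40_m4_t7 : CovD 0 progs [(41781441855488, 2199023255552), (183609851904, 9663676416), (481036337152, 68719476736), (549755813888, 549755813888)] :=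
  Pool.Agent.helper14.QF.covD_F chks_eq (.n 2 (.n 2 (.n 3 (.n 3 (.l 8) (.l 8)) (.n 0 (.n 3 (.l 4) (.l 4)) (.n 3 (.l 4) (.l 4)))) (.n 3 (.n 3 (.l 4) (.l 8)) (.n 3 (.l 8) (.n 0 (.l 4) (.l 4))))) (.n 2 (.n 3 (.n 0 (.l 8) (.l 8)) (.n 3 (.l 8) (.l 8))) (.n 3 (.n 0 (.l 8) (.l 8)) (.n 3 (.l 4) (.l 4)))))
    [(41781441855488, 2199023255552), (183609851904, 9663676416), (481036337152, 68719476736), (549755813888, 549755813888)] rfl (by decide +kernel)
end
mutual
theorem c32_40_m4_t11 : CovD 0 progs [(41781441855488, 2199023255552), (202937204736, 9663676416), (137438953472, 137438953472), (549755813888, 549755813888)] :=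
  Pool.Agent.helper14.QF.covD_F chks_eq (.n 2 (.n 2 (.l 11) (.n 3 (.l 2) (.l 2))) (.n 3 (.n 3 (.l 11) (.n 2 (.l 2) (.n 2 (.l 2) (.l 4)))) (.n 2 (.n 2 (.l 2) (.l 4)) (.n 3 (.n 2 (.l 2) (.l 4)) (.l 4)))))
    [(41781441855488, 2199023255552), (202937204736, 9663676416), (137438953472, 137438953472), (549755813888, 549755813888)] rfl (by decide +kernel)
theorem c32_40_m4_t12 : CovD 0 progs [(41781441855488, 2199023255552), (202937204736, 9663676416), (309237645312, 34359738368), (549755813888, 549755813888)] :=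
  Pool.Agent.helper14.QF.covD_F chks_eq (.n 2 (.n 3 (.n 0 (.n 3 (.l 4) (.l 4)) (.n 3 (.l 4) (.l 4))) (.n 3 (.l 4) (.l 4))) (.n 3 (.n 0 (.n 3 (.l 4) (.l 4)) (.n 1 (.n 3 (.l 4) (.l 4)) (.n 3 (.l 4) (.l 4)))) (.n 3 (.n 0 (.l 4) (.l 4)) (.l 4))))
    [(41781441855488, 2199023255552), (202937204736, 9663676416), (309237645312, 34359738368), (549755813888, 549755813888)] rfl (by decide +kernel)
end
mutual
theorem c32_40_m4_t13 : CovD 0 progs [(41781441855488, 2199023255552), (202937204736, 9663676416), (377957122048, 34359738368), (549755813888, 549755813888)] :=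
  Pool.Agent.helper14.QF.covD_F chks_eq (.n 0 (.n 2 (.n 3 (.n 0 (.n 3 (.l 4) (.l 4)) (.n 3 (.l 4) (.l 4))) (.n 3 (.l 4) (.l 4))) (.n 3 (.n 3 (.l 4) (.l 8)) (.n 3 (.l 8) (.l 4)))) (.n 3 (.n 2 (.n 3 (.l 9) (.n 1 (.l 4) (.l 8))) (.n 3 (.l 7) (.l 8))) (.n 3 (.n 1 (.n 2 (.l 4) (.l 4)) (.n 2 (.l 4) (.l 4))) (.n 3 (.l 4) (.l 4)))))
    [(41781441855488, 2199023255552), (202937204736, 9663676416), (377957122048, 34359738368), (549755813888, 549755813888)] rfl (by decide +kernel)
theorem c32_40_m4_t15 : CovD 0 progs [(41781441855488, 2199023255552), (202937204736, 9663676416), (481036337152, 68719476736), (549755813888, 549755813888)] :=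
  Pool.Agent.helper14.QF.covD_F chks_eq (.n 2 (.n 3 (.n 3 (.l 9) (.n 0 (.l 8) (.l 8))) (.n 3 (.n 3 (.l 9) (.l 9)) (.n 3 (.l 4) (.l 4)))) (.n 3 (.n 3 (.l 8) (.l 8)) (.n 3 (.n 0 (.l 8) (.l 8)) (.n 3 (.l 4) (.l 4)))))
    [(41781441855488, 2199023255552), (202937204736, 9663676416), (481036337152, 68719476736), (549755813888, 549755813888)] rfl (by decide +kernel)
end
mutual
theorem c32_40_m4_t18 : CovD 0 progs [(41781441855488, 2199023255552), (222264557568, 9663676416), (137438953472, 137438953472), (549755813888, 549755813888)] :=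
  Pool.Agent.helper14.QF.covD_F chks_eq (.n 2 (.n 2 (.n 3 (.l 2) (.l 2)) (.n 2 (.n 1 (.l 4) (.l 4)) (.l 4))) (.n 2 (.n 2 (.n 3 (.l 2) (.l 4)) (.n 3 (.l 4) (.l 4))) (.n 2 (.n 3 (.n 2 (.l 4) (.l 4)) (.n 3 (.l 4) (.l 2))) (.n 3 (.n 0 (.n 3 (.l 4) (.l 4)) (.n 3 (.l 4) (.l 4))) (.n 3 (.l 4) (.l 4))))))
    [(41781441855488, 2199023255552), (222264557568, 9663676416), (137438953472, 137438953472), (549755813888, 549755813888)] rfl (by decide +kernel)
theorem c32_40_m4_t19 : CovD 0 progs [(40681930227712, 1099511627776), (222264557568, 9663676416), (309237645312, 34359738368), (549755813888, 549755813888)] :=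
  Pool.Agent.helper14.QF.covD_F chks_eq (.n 3 (.n 3 (.n 3 (.l 11) (.n 2 (.l 4) (.l 4))) (.n 2 (.n 0 (.l 4) (.l 4)) (.n 3 (.l 4) (.l 4)))) (.n 2 (.n 3 (.l 4) (.l 4)) (.n 3 (.n 2 (.l 4) (.l 4)) (.l 4))))
    [(40681930227712, 1099511627776), (222264557568, 9663676416), (309237645312, 34359738368), (549755813888, 549755813888)] rfl (by decide +kernel)
end
mutual
theorem c32_40_m4_t20 : CovD 0 progs [(42880953483264, 1099511627776), (222264557568, 9663676416), (309237645312, 34359738368), (549755813888, 549755813888)] :=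
  Pool.Agent.helper14.QF.covD_F chks_eq (.n 3 (.n 3 (.n 3 (.l 11) (.n 2 (.l 4) (.n 0 (.l 4) (.l 4)))) (.n 2 (.n 2 (.l 4) (.l 4)) (.n 2 (.n 0 (.l 4) (.l 4)) (.l 8)))) (.n 3 (.n 2 (.n 1 (.l 4) (.l 4)) (.n 3 (.l 4) (.l 4))) (.n 3 (.l 4) (.l 4))))
    [(42880953483264, 1099511627776), (222264557568, 9663676416), (309237645312, 34359738368), (549755813888, 549755813888)] rfl (by decide +kernel)
theorem c32_40_m4_t22 : CovD 0 progs [(41781441855488, 2199023255552), (222264557568, 9663676416), (377957122048, 34359738368), (549755813888, 549755813888)] :=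
  Pool.Agent.helper14.QF.covD_F chks_eq (.n 0 (.n 3 (.n 2 (.n 3 (.l 9) (.n 1 (.l 8) (.l 8))) (.n 3 (.l 8) (.l 8))) (.n 3 (.n 1 (.n 2 (.l 4) (.l 8)) (.n 2 (.l 8) (.l 8))) (.n 3 (.l 4) (.l 4)))) (.n 3 (.n 2 (.n 3 (.l 8) (.n 0 (.l 8) (.l 8))) (.n 3 (.l 7) (.l 8))) (.n 3 (.n 1 (.n 2 (.l 8) (.l 8)) (.n 2 (.l 8) (.l 8))) (.n 3 (.l 4) (.l 4)))))
    [(41781441855488, 2199023255552), (222264557568, 9663676416), (377957122048, 34359738368), (549755813888, 549755813888)] rfl (by decide +kernel)
end
mutual
theorem c32_40_m4_t24 : CovD 0 progs [(41781441855488, 2199023255552), (222264557568, 9663676416), (481036337152, 68719476736), (549755813888, 549755813888)] :=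
  Pool.Agent.helper14.QF.covD_F chks_eq (.n 2 (.n 3 (.n 3 (.l 8) (.n 0 (.l 8) (.l 8))) (.n 3 (.n 3 (.l 8) (.l 8)) (.n 3 (.l 9) (.l 4)))) (.n 3 (.n 3 (.l 8) (.l 8)) (.n 3 (.n 0 (.l 8) (.l 8)) (.n 3 (.l 4) (.l 4)))))
    [(41781441855488, 2199023255552), (222264557568, 9663676416), (481036337152, 68719476736), (549755813888, 549755813888)] rfl (by decide +kernel)
theorem c32_40_m4_t29 : CovD 0 progs [(41781441855488, 2199023255552), (251255586816, 19327352832), (137438953472, 137438953472), (549755813888, 549755813888)] :=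
  Pool.Agent.helper14.QF.covD_F chks_eq (.n 2 (.l 10) (.n 1 (.n 2 (.l 10) (.n 3 (.l 10) (.l 10))) (.l 10)))
    [(41781441855488, 2199023255552), (251255586816, 19327352832), (137438953472, 137438953472), (549755813888, 549755813888)] rfl (by decide +kernel)
end
mutual
theorem c32_40_m4_t30 : CovD 0 progs [(41781441855488, 2199023255552), (251255586816, 19327352832), (343597383680, 68719476736), (549755813888, 549755813888)] :=
  Pool.Agent.helper14.QF.covD_F chks_eq (.n 2 (.n 1 (.n 3 (.l 10) (.n 3 (.l 10) (.n 3 (.l 10) (.l 4)))) (.l 10)) (.n 3 (.l 10) (.n 1 (.n 1 (.n 3 (.l 10) (.n 3 (.n 0 (.l 4) (.l 4)) (.l 4))) (.l 10)) (.l 10))))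
    [(41781441855488, 2199023255552), (251255586816, 19327352832), (343597383680, 68719476736), (549755813888, 549755813888)] rfl (by decide +kernel)
theorem c32_40_m4_t31 : CovD 0 progs [(41781441855488, 2199023255552), (251255586816, 19327352832), (481036337152, 68719476736), (549755813888, 549755813888)] :=
  Pool.Agent.helper14.QF.covD_F chks_eq (.n 2 (.n 1 (.n 3 (.l 10) (.n 3 (.n 3 (.l 8) (.l 8)) (.n 3 (.l 8) (.l 6)))) (.n 3 (.l 10) (.l 10))) (.n 3 (.n 1 (.n 3 (.l 8) (.l 8)) (.l 10)) (.n 3 (.n 3 (.l 8) (.l 8)) (.n 3 (.l 8) (.l 8)))))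
    [(41781441855488, 2199023255552), (251255586816, 19327352832), (481036337152, 68719476736), (549755813888, 549755813888)] rfl (by decide +kernel)
theorem c32_40_m4_t34 : CovD 0 progs [(41781441855488, 2199023255552), (289910292480, 19327352832), (274877906944, 274877906944), (549755813888, 549755813888)] :=
  Pool.Agent.helper14.QF.covD_F chks_eq (.n 2 (.l 10) (.n 3 (.l 10) (.n 2 (.l 10) (.n 1 (.l 10) (.l 10)))))
    [(41781441855488, 2199023255552), (289910292480, 19327352832), (274877906944, 274877906944), (549755813888, 549755813888)] rfl (by decide +kernel)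
end
theorem c32_40_m4_t3 : CovD 0 progs [(41781441855488, 2199023255552), (164282499072, 9663676416), (412316860416, 137438953472), (549755813888, 549755813888)] :=
  covD_split 2 (by decide +kernel) c32_40_m4_t1 c32_40_m4_t2
theorem c32_40_m4_t4 : CovD 0 progs [(41781441855488, 2199023255552), (164282499072, 9663676416), (274877906944, 274877906944), (549755813888, 549755813888)] :=
  covD_split 2 (by decide +kernel) c32_40_m4_t0 c32_40_m4_t3
theorem c32_40_m4_t8 : CovD 0 progs [(41781441855488, 2199023255552), (183609851904, 9663676416), (412316860416, 137438953472), (549755813888, 549755813888)] :=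
  covD_split 2 (by decide +kernel) c32_40_m4_t6 c32_40_m4_t7
theorem c32_40_m4_t9 : CovD 0 progs [(41781441855488, 2199023255552), (183609851904, 9663676416), (274877906944, 274877906944), (549755813888, 549755813888)] :=
  covD_split 2 (by decide +kernel) c32_40_m4_t5 c32_40_m4_t8
theorem c32_40_m4_t10 : CovD 0 progs [(41781441855488, 2199023255552), (173946175488, 19327352832), (274877906944, 274877906944), (549755813888, 549755813888)] :=
  covD_split 1 (by decide +kernel) c32_40_m4_t4 c32_40_m4_t9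
theorem c32_40_m4_t14 : CovD 0 progs [(41781441855488, 2199023255552), (202937204736, 9663676416), (343597383680, 68719476736), (549755813888, 549755813888)] :=
  covD_split 2 (by decide +kernel) c32_40_m4_t12 c32_40_m4_t13
theorem c32_40_m4_t16 : CovD 0 progs [(41781441855488, 2199023255552), (202937204736, 9663676416), (412316860416, 137438953472), (549755813888, 549755813888)] :=
  covD_split 2 (by decide +kernel) c32_40_m4_t14 c32_40_m4_t15
theorem c32_40_m4_t17 : CovD 0 progs [(41781441855488, 2199023255552), (202937204736, 9663676416), (274877906944, 274877906944), (549755813888, 549755813888)] :=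
  covD_split 2 (by decide +kernel) c32_40_m4_t11 c32_40_m4_t16
theorem c32_40_m4_t21 : CovD 0 progs [(41781441855488, 2199023255552), (222264557568, 9663676416), (309237645312, 34359738368), (549755813888, 549755813888)] :=
  covD_split 0 (by decide +kernel) c32_40_m4_t19 c32_40_m4_t20
theorem c32_40_m4_t23 : CovD 0 progs [(41781441855488, 2199023255552), (222264557568, 9663676416), (343597383680, 68719476736), (549755813888, 549755813888)] :=
  covD_split 2 (by decide +kernel) c32_40_m4_t21 c32_40_m4_t22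
theorem c32_40_m4_t25 : CovD 0 progs [(41781441855488, 2199023255552), (222264557568, 9663676416), (412316860416, 137438953472), (549755813888, 549755813888)] :=
  covD_split 2 (by decide +kernel) c32_40_m4_t23 c32_40_m4_t24
theorem c32_40_m4_t26 : CovD 0 progs [(41781441855488, 2199023255552), (222264557568, 9663676416), (274877906944, 274877906944), (549755813888, 549755813888)] :=
  covD_split 2 (by decide +kernel) c32_40_m4_t18 c32_40_m4_t25
theorem c32_40_m4_t27 : CovD 0 progs [(41781441855488, 2199023255552), (212600881152, 19327352832), (274877906944, 274877906944), (549755813888, 549755813888)] :=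
  covD_split 1 (by decide +kernel) c32_40_m4_t17 c32_40_m4_t26
theorem c32_40_m4_t28 : CovD 0 progs [(41781441855488, 2199023255552), (193273528320, 38654705664), (274877906944, 274877906944), (549755813888, 549755813888)] :=
  covD_split 1 (by decide +kernel) c32_40_m4_t10 c32_40_m4_t27
theorem c32_40_m4_t32 : CovD 0 progs [(41781441855488, 2199023255552), (251255586816, 19327352832), (412316860416, 137438953472), (549755813888, 549755813888)] :=
  covD_split 2 (by decide +kernel) c32_40_m4_t30 c32_40_m4_t31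
theorem c32_40_m4_t33 : CovD 0 progs [(41781441855488, 2199023255552), (251255586816, 19327352832), (274877906944, 274877906944), (549755813888, 549755813888)] :=
  covD_split 2 (by decide +kernel) c32_40_m4_t29 c32_40_m4_t32
theorem c32_40_m4_t35 : CovD 0 progs [(41781441855488, 2199023255552), (270582939648, 38654705664), (274877906944, 274877906944), (549755813888, 549755813888)] :=
  covD_split 1 (by decide +kernel) c32_40_m4_t33 c32_40_m4_t34
theorem c32_40_m4 : CovD 0 progs [(41781441855488, 2199023255552), (231928233984, 77309411328), (274877906944, 274877906944), (549755813888, 549755813888)] :=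
  covD_split 1 (by decide +kernel) c32_40_m4_t28 c32_40_m4_t35

end Pool.Agent.helper71.FG.Crt.L
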