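import Pool.Agent.helper71.FG.Crt.LP

/-!
Generated certificates.
-/

namespace Pool.Agent.helper71.FG.Crt.L

open Pool.Agent.helper31.IA (Z Op)
open Pool.Agent.helper31.IC

mutual
theorem c32_40_m5_t0 : CovD 0 progs [(41781441855488, 2199023255552), (173946175488, 19327352832), (687194767360, 137438953472), (549755813888, 549755813888)] :=
  Pool.Agent.helper14.QF.covD_F chks_eq (.n 2 (.n 2 (.n 3 (.n 3 (.l 8) (.n 0 (.l 8) (.l 8))) (.n 3 (.n 0 (.l 8) (.l 8)) (.n 3 (.l 4) (.l 4)))) (.n 3 (.n 1 (.l 8) (.l 8)) (.n 3 (.l 8) (.n 0 (.l 8) (.l 8))))) (.n 2 (.n 3 (.n 1 (.l 4) (.l 8)) (.n 3 (.l 4) (.l 6))) (.n 3 (.n 3 (.l 4) (.l 4)) (.n 1 (.l 6) (.l 6)))))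
    [(41781441855488, 2199023255552), (173946175488, 19327352832), (687194767360, 137438953472), (549755813888, 549755813888)] rfl (by decide +kernel)
theorem c32_40_m5_t1 : CovD 0 progs [(41781441855488, 2199023255552), (212600881152, 19327352832), (618475290624, 68719476736), (549755813888, 549755813888)] :=
  Pool.Agent.helper14.QF.covD_F chks_eq (.n 2 (.n 3 (.n 3 (.l 8) (.n 0 (.l 8) (.l 8))) (.n 3 (.n 0 (.l 8) (.l 8)) (.n 3 (.l 4) (.l 4)))) (.n 3 (.n 3 (.l 8) (.l 6)) (.n 3 (.l 6) (.n 0 (.l 6) (.l 6)))))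
    [(41781441855488, 2199023255552), (212600881152, 19327352832), (618475290624, 68719476736), (549755813888, 549755813888)] rfl (by decide +kernel)
end
mutual
theorem c32_40_m5_t2 : CovD 0 progs [(41781441855488, 2199023255552), (212600881152, 19327352832), (755914244096, 68719476736), (549755813888, 549755813888)] :=
  Pool.Agent.helper14.QF.covD_F chks_eq (.n 2 (.n 3 (.n 3 (.n 1 (.l 4) (.l 4)) (.l 4)) (.n 3 (.l 4) (.n 0 (.l 4) (.l 4)))) (.n 1 (.n 3 (.n 3 (.l 4) (.l 4)) (.n 0 (.l 4) (.l 4))) (.n 3 (.n 3 (.n 0 (.l 15) (.l 15)) (.l 4)) (.n 2 (.l 4) (.l 4)))))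
    [(41781441855488, 2199023255552), (212600881152, 19327352832), (755914244096, 68719476736), (549755813888, 549755813888)] rfl (by decide +kernel)
theorem c32_40_m5_t5 : CovD 0 progs [(41781441855488, 2199023255552), (251255586816, 19327352832), (618475290624, 68719476736), (549755813888, 549755813888)] :=
  Pool.Agent.helper14.QF.covD_F chks_eq (.n 1 (.n 3 (.n 3 (.l 10) (.n 0 (.l 8) (.l 8))) (.n 2 (.n 3 (.l 6) (.n 0 (.l 6) (.l 6))) (.n 3 (.l 4) (.l 4)))) (.n 3 (.l 10) (.n 3 (.l 10) (.n 2 (.l 8) (.l 4)))))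
    [(41781441855488, 2199023255552), (251255586816, 19327352832), (618475290624, 68719476736), (549755813888, 549755813888)] rfl (by decide +kernel)
end
mutual
theorem c32_40_m5_t6 : CovD 0 progs [(41781441855488, 2199023255552), (251255586816, 19327352832), (755914244096, 68719476736), (549755813888, 549755813888)] :=
  Pool.Agent.helper14.QF.covD_F chks_eq (.n 2 (.n 3 (.n 3 (.l 10) (.l 6)) (.n 1 (.n 0 (.l 8) (.l 8)) (.n 2 (.l 6) (.n 0 (.l 4) (.l 4))))) (.n 3 (.n 3 (.l 10) (.n 0 (.l 4) (.l 4))) (.n 1 (.n 3 (.l 4) (.n 0 (.l 3) (.l 3))) (.n 2 (.n 0 (.l 4) (.l 4)) (.n 3 (.l 4) (.l 3))))))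
    [(41781441855488, 2199023255552), (251255586816, 19327352832), (755914244096, 68719476736), (549755813888, 549755813888)] rfl (by decide +kernel)
theorem c32_40_m5_t8 : CovD 0 progs [(41781441855488, 2199023255552), (289910292480, 19327352832), (687194767360, 137438953472), (549755813888, 549755813888)] :=
  Pool.Agent.helper14.QF.covD_F chks_eq (.n 2 (.n 3 (.l 10) (.n 3 (.l 10) (.n 1 (.n 2 (.l 8) (.l 6)) (.l 10)))) (.n 1 (.n 3 (.l 10) (.n 2 (.n 3 (.l 4) (.n 0 (.l 4) (.l 4))) (.n 3 (.l 10) (.n 2 (.l 4) (.n 0 (.l 3) (.l 3)))))) (.n 3 (.l 10) (.n 3 (.l 10) (.n 3 (.l 10) (.n 2 (.l 10) (.n 2 (.l 3) (.l 3))))))))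
    [(41781441855488, 2199023255552), (289910292480, 19327352832), (687194767360, 137438953472), (549755813888, 549755813888)] rfl (by decide +kernel)
end
mutual
theorem c32_40_m5_t11 : CovD 0 progs [(41781441855488, 2199023255552), (193273528320, 38654705664), (858993459200, 34359738368), (549755813888, 549755813888)] :=
  Pool.Agent.helper14.QF.covD_F chks_eq (.n 1 (.n 3 (.n 3 (.l 4) (.l 4)) (.n 1 (.l 4) (.n 0 (.l 4) (.l 4)))) (.n 1 (.n 3 (.n 3 (.n 0 (.l 4) (.l 15)) (.l 4)) (.n 2 (.l 4) (.n 0 (.l 4) (.l 4)))) (.n 3 (.n 3 (.l 15) (.l 4)) (.n 3 (.l 4) (.n 2 (.l 3) (.l 3))))))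
    [(41781441855488, 2199023255552), (193273528320, 38654705664), (858993459200, 34359738368), (549755813888, 549755813888)] rfl (by decide +kernel)
theorem c32_40_m5_t12 : CovD 0 progs [(41781441855488, 2199023255552), (193273528320, 38654705664), (927712935936, 34359738368), (549755813888, 549755813888)] :=
  Pool.Agent.helper14.QF.covD_F chks_eq (.n 1 (.n 1 (.n 3 (.n 3 (.l 4) (.l 4)) (.n 1 (.l 4) (.l 4))) (.n 3 (.n 3 (.n 0 (.l 4) (.l 15)) (.l 4)) (.n 3 (.l 4) (.n 0 (.l 3) (.l 3))))) (.n 1 (.n 3 (.n 3 (.l 15) (.l 4)) (.n 3 (.l 4) (.n 0 (.l 3) (.n 0 (.l 3) (.l 3))))) (.n 3 (.n 3 (.l 15) (.l 4)) (.n 0 (.n 3 (.l 4) (.n 1 (.l 3) (.l 3))) (.n 3 (.l 4) (.n 1 (.l 3) (.l 3)))))))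
    [(41781441855488, 2199023255552), (193273528320, 38654705664), (927712935936, 34359738368), (549755813888, 549755813888)] rfl (by decide +kernel)
end
mutual
theorem c32_40_m5_t14 : CovD 0 progs [(41781441855488, 2199023255552), (173946175488, 19327352832), (996432412672, 34359738368), (549755813888, 549755813888)] :=
  Pool.Agent.helper14.QF.covD_F chks_eq (.n 1 (.n 3 (.n 3 (.l 4) (.l 4)) (.n 3 (.l 4) (.n 0 (.l 3) (.l 3)))) (.n 3 (.n 3 (.l 15) (.l 4)) (.n 1 (.n 3 (.l 4) (.l 3)) (.n 3 (.l 4) (.n 0 (.l 3) (.l 3))))))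
    [(41781441855488, 2199023255552), (173946175488, 19327352832), (996432412672, 34359738368), (549755813888, 549755813888)] rfl (by decide +kernel)
theorem c32_40_m5_t15 : CovD 0 progs [(41781441855488, 2199023255552), (212600881152, 19327352832), (996432412672, 34359738368), (549755813888, 549755813888)] :=
  Pool.Agent.helper14.QF.covD_F chks_eq (.n 2 (.n 3 (.n 3 (.l 15) (.n 0 (.l 4) (.l 4))) (.n 1 (.n 3 (.l 4) (.n 0 (.l 3) (.l 3))) (.n 3 (.l 4) (.n 0 (.l 3) (.l 3))))) (.n 3 (.n 3 (.l 15) (.n 0 (.l 4) (.l 4))) (.n 1 (.n 3 (.l 4) (.n 0 (.l 3) (.l 3))) (.n 3 (.n 0 (.l 4) (.l 4)) (.n 3 (.l 3) (.n 0 (.l 3) (.l 3)))))))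
    [(41781441855488, 2199023255552), (212600881152, 19327352832), (996432412672, 34359738368), (549755813888, 549755813888)] rfl (by decide +kernel)
end
mutual
theorem c32_40_m5_t17 : CovD 0 progs [(41781441855488, 2199023255552), (173946175488, 19327352832), (1065151889408, 34359738368), (549755813888, 549755813888)] :=
  Pool.Agent.helper14.QF.covD_F chks_eq (.n 1 (.n 3 (.n 3 (.n 0 (.l 4) (.l 15)) (.l 4)) (.n 1 (.n 3 (.l 3) (.l 3)) (.n 3 (.l 3) (.n 0 (.l 3) (.l 3))))) (.n 3 (.n 3 (.l 15) (.n 0 (.l 4) (.l 4))) (.n 0 (.n 3 (.l 3) (.n 1 (.l 3) (.l 3))) (.n 3 (.l 4) (.n 1 (.l 3) (.l 3))))))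
    [(41781441855488, 2199023255552), (173946175488, 19327352832), (1065151889408, 34359738368), (549755813888, 549755813888)] rfl (by decide +kernel)
theorem c32_40_m5_t18 : CovD 0 progs [(41781441855488, 2199023255552), (202937204736, 9663676416), (1065151889408, 34359738368), (549755813888, 549755813888)] :=
  Pool.Agent.helper14.QF.covD_F chks_eq (.n 3 (.n 3 (.l 15) (.n 0 (.l 4) (.l 4))) (.n 0 (.n 3 (.l 4) (.n 2 (.l 3) (.n 0 (.l 3) (.l 3)))) (.n 3 (.n 0 (.l 4) (.l 4)) (.n 3 (.l 3) (.n 1 (.l 3) (.l 3))))))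
    [(41781441855488, 2199023255552), (202937204736, 9663676416), (1065151889408, 34359738368), (549755813888, 549755813888)] rfl (by decide +kernel)
end
mutual
theorem c32_40_m5_t19 : CovD 0 progs [(41781441855488, 2199023255552), (222264557568, 9663676416), (1065151889408, 34359738368), (549755813888, 549755813888)] :=
  Pool.Agent.helper14.QF.covD_F chks_eq (.n 1 (.n 0 (.n 3 (.l 15) (.n 3 (.l 4) (.n 2 (.l 3) (.l 3)))) (.n 3 (.l 15) (.n 3 (.l 4) (.n 2 (.l 3) (.l 3))))) (.n 0 (.n 3 (.l 15) (.n 3 (.l 4) (.n 2 (.l 3) (.l 3)))) (.n 3 (.l 15) (.n 3 (.l 4) (.n 3 (.l 3) (.l 3))))))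
    [(41781441855488, 2199023255552), (222264557568, 9663676416), (1065151889408, 34359738368), (549755813888, 549755813888)] rfl (by decide +kernel)
theorem c32_40_m5_t24 : CovD 0 progs [(41781441855488, 2199023255552), (251255586816, 19327352832), (858993459200, 34359738368), (549755813888, 549755813888)] :=
  Pool.Agent.helper14.QF.covD_F chks_eq (.n 3 (.n 3 (.l 10) (.n 1 (.l 4) (.l 4))) (.n 1 (.n 2 (.n 3 (.l 4) (.l 3)) (.n 3 (.l 4) (.n 0 (.l 3) (.l 3)))) (.n 0 (.n 3 (.l 4) (.n 2 (.l 3) (.l 3))) (.n 3 (.l 4) (.n 2 (.l 3) (.l 3))))))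
    [(41781441855488, 2199023255552), (251255586816, 19327352832), (858993459200, 34359738368), (549755813888, 549755813888)] rfl (by decide +kernel)
end
mutual
theorem c32_40_m5_t25 : CovD 0 progs [(41781441855488, 2199023255552), (289910292480, 19327352832), (858993459200, 34359738368), (549755813888, 549755813888)] :=
  Pool.Agent.helper14.QF.covD_F chks_eq (.n 2 (.n 1 (.n 3 (.l 10) (.n 3 (.l 4) (.n 0 (.l 3) (.l 3)))) (.n 3 (.l 10) (.n 3 (.l 10) (.n 3 (.l 3) (.n 0 (.l 3) (.l 3)))))) (.n 1 (.n 3 (.l 10) (.n 3 (.n 0 (.l 4) (.l 4)) (.n 3 (.l 3) (.n 0 (.l 3) (.l 3))))) (.n 3 (.l 10) (.n 3 (.l 10) (.n 3 (.l 10) (.n 0 (.l 3) (.l 3)))))))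
    [(41781441855488, 2199023255552), (289910292480, 19327352832), (858993459200, 34359738368), (549755813888, 549755813888)] rfl (by decide +kernel)
theorem c32_40_m5_t27 : CovD 0 progs [(41781441855488, 2199023255552), (270582939648, 38654705664), (910533066752, 17179869184), (549755813888, 549755813888)] :=
  Pool.Agent.helper14.QF.covD_F chks_eq (.n 1 (.n 3 (.n 1 (.n 0 (.l 15) (.l 15)) (.l 15)) (.n 1 (.n 3 (.l 4) (.n 0 (.l 3) (.l 3))) (.n 3 (.l 4) (.n 0 (.l 3) (.n 0 (.l 3) (.l 3)))))) (.n 1 (.n 3 (.l 15) (.n 0 (.n 3 (.l 4) (.n 0 (.l 3) (.l 3))) (.n 3 (.l 4) (.n 1 (.l 3) (.l 3))))) (.n 3 (.l 10) (.n 3 (.l 10) (.n 0 (.n 3 (.l 3) (.l 3)) (.n 3 (.l 3) (.l 3)))))))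
    [(41781441855488, 2199023255552), (270582939648, 38654705664), (910533066752, 17179869184), (549755813888, 549755813888)] rfl (by decide +kernel)
end
mutual
theorem c32_40_m5_t28 : CovD 0 progs [(41781441855488, 2199023255552), (251255586816, 19327352832), (944892805120, 17179869184), (549755813888, 549755813888)] :=
  Pool.Agent.helper14.QF.covD_F chks_eq (.n 1 (.n 3 (.n 0 (.l 15) (.l 15)) (.n 3 (.l 4) (.n 0 (.l 3) (.n 0 (.l 3) (.l 3))))) (.n 3 (.l 15) (.n 3 (.n 0 (.l 4) (.l 4)) (.n 3 (.l 3) (.n 0 (.l 3) (.l 3))))))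
    [(41781441855488, 2199023255552), (251255586816, 19327352832), (944892805120, 17179869184), (549755813888, 549755813888)] rfl (by decide +kernel)
theorem c32_40_m5_t29 : CovD 0 progs [(41781441855488, 2199023255552), (289910292480, 19327352832), (944892805120, 17179869184), (549755813888, 549755813888)] :=
  Pool.Agent.helper14.QF.covD_F chks_eq (.n 1 (.n 3 (.l 15) (.n 0 (.n 3 (.l 4) (.n 3 (.l 3) (.l 3))) (.n 3 (.l 4) (.n 3 (.l 3) (.l 3))))) (.n 3 (.l 15) (.n 3 (.l 10) (.n 0 (.n 3 (.l 3) (.l 3)) (.n 3 (.l 3) (.n 0 (.l 3) (.l 3)))))))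
    [(41781441855488, 2199023255552), (289910292480, 19327352832), (944892805120, 17179869184), (549755813888, 549755813888)] rfl (by decide +kernel)
end
mutual
theorem c32_40_m5_t33 : CovD 0 progs [(40681930227712, 1099511627776), (241591910400, 9663676416), (1030792151040, 68719476736), (549755813888, 549755813888)] :=
  Pool.Agent.helper14.QF.covD_F chks_eq (.n 2 (.n 1 (.n 3 (.l 15) (.n 3 (.l 4) (.n 2 (.l 3) (.l 3)))) (.n 3 (.l 15) (.n 3 (.l 4) (.n 2 (.l 3) (.l 3))))) (.n 2 (.n 3 (.l 15) (.n 3 (.l 4) (.n 3 (.l 3) (.l 3)))) (.n 3 (.l 15) (.n 3 (.l 4) (.n 3 (.l 3) (.l 3))))))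
    [(40681930227712, 1099511627776), (241591910400, 9663676416), (1030792151040, 68719476736), (549755813888, 549755813888)] rfl (by decide +kernel)
theorem c32_40_m5_t34 : CovD 0 progs [(40681930227712, 1099511627776), (260919263232, 9663676416), (1030792151040, 68719476736), (549755813888, 549755813888)] :=
  Pool.Agent.helper14.QF.covD_F chks_eq (.n 2 (.n 2 (.n 3 (.l 15) (.n 3 (.l 4) (.n 1 (.l 3) (.l 3)))) (.n 3 (.l 15) (.n 3 (.l 4) (.n 3 (.l 3) (.l 3))))) (.n 2 (.n 3 (.l 15) (.n 3 (.n 0 (.l 4) (.l 4)) (.n 3 (.l 3) (.n 0 (.l 3) (.l 3))))) (.n 3 (.l 15) (.n 3 (.n 0 (.l 4) (.l 4)) (.n 3 (.l 3) (.n 0 (.l 3) (.l 3)))))))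
    [(40681930227712, 1099511627776), (260919263232, 9663676416), (1030792151040, 68719476736), (549755813888, 549755813888)] rfl (by decide +kernel)
end
mutual
theorem c32_40_m5_t36 : CovD 0 progs [(40681930227712, 1099511627776), (289910292480, 19327352832), (996432412672, 34359738368), (549755813888, 549755813888)] :=
  Pool.Agent.helper14.QF.covD_F chks_eq (.n 1 (.n 2 (.n 3 (.l 15) (.n 3 (.l 4) (.n 3 (.l 3) (.l 3)))) (.n 3 (.l 15) (.n 3 (.n 0 (.l 4) (.l 4)) (.n 3 (.l 3) (.n 0 (.l 3) (.l 3)))))) (.n 3 (.l 15) (.n 2 (.n 3 (.n 0 (.l 4) (.l 4)) (.n 3 (.l 3) (.n 0 (.l 3) (.l 3)))) (.n 3 (.n 0 (.l 4) (.l 4)) (.n 3 (.l 3) (.n 0 (.l 3) (.l 3)))))))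
    [(40681930227712, 1099511627776), (289910292480, 19327352832), (996432412672, 34359738368), (549755813888, 549755813888)] rfl (by decide +kernel)
theorem c32_40_m5_t37 : CovD 0 progs [(40681930227712, 1099511627776), (280246616064, 9663676416), (1065151889408, 34359738368), (549755813888, 549755813888)] :=
  Pool.Agent.helper14.QF.covD_F chks_eq (.n 3 (.l 15) (.n 2 (.n 3 (.n 0 (.l 4) (.l 4)) (.n 3 (.l 3) (.n 0 (.l 3) (.l 3)))) (.n 1 (.n 3 (.l 4) (.n 3 (.l 3) (.l 3))) (.n 3 (.n 0 (.l 4) (.l 4)) (.n 3 (.l 3) (.l 3))))))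
    [(40681930227712, 1099511627776), (280246616064, 9663676416), (1065151889408, 34359738368), (549755813888, 549755813888)] rfl (by decide +kernel)
end
mutual
theorem c32_40_m5_t38 : CovD 0 progs [(40681930227712, 1099511627776), (299573968896, 9663676416), (1065151889408, 34359738368), (549755813888, 549755813888)] :=
  Pool.Agent.helper14.QF.covD_F chks_eq (.n 3 (.l 15) (.n 2 (.n 1 (.n 3 (.l 4) (.n 3 (.l 3) (.l 3))) (.n 3 (.n 0 (.l 5) (.l 5)) (.n 3 (.l 3) (.l 3)))) (.n 3 (.n 3 (.l 5) (.l 3)) (.n 1 (.n 3 (.l 3) (.l 3)) (.n 3 (.l 3) (.n 0 (.l 3) (.l 3)))))))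
    [(40681930227712, 1099511627776), (299573968896, 9663676416), (1065151889408, 34359738368), (549755813888, 549755813888)] rfl (by decide +kernel)
theorem c32_40_m5_t42 : CovD 0 progs [(42880953483264, 1099511627776), (241591910400, 9663676416), (1030792151040, 68719476736), (549755813888, 549755813888)] :=
  Pool.Agent.helper14.QF.covD_F chks_eq (.n 2 (.n 1 (.n 3 (.l 15) (.n 3 (.l 4) (.n 2 (.l 3) (.l 3)))) (.n 3 (.l 15) (.n 3 (.l 4) (.n 2 (.l 3) (.l 3))))) (.n 2 (.n 3 (.l 15) (.n 3 (.l 4) (.n 3 (.l 3) (.l 3)))) (.n 3 (.l 15) (.n 3 (.n 0 (.l 4) (.l 4)) (.n 3 (.l 3) (.n 0 (.l 3) (.l 3)))))))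
    [(42880953483264, 1099511627776), (241591910400, 9663676416), (1030792151040, 68719476736), (549755813888, 549755813888)] rfl (by decide +kernel)
end
mutual
theorem c32_40_m5_t43 : CovD 0 progs [(42880953483264, 1099511627776), (260919263232, 9663676416), (1030792151040, 68719476736), (549755813888, 549755813888)] :=
  Pool.Agent.helper14.QF.covD_F chks_eq (.n 2 (.n 2 (.n 3 (.l 15) (.n 3 (.l 4) (.n 3 (.l 3) (.l 3)))) (.n 3 (.l 15) (.n 3 (.l 4) (.n 3 (.l 3) (.n 0 (.l 3) (.l 3)))))) (.n 2 (.n 3 (.l 15) (.n 3 (.n 0 (.l 4) (.l 4)) (.n 3 (.l 3) (.n 0 (.l 3) (.l 3))))) (.n 3 (.l 15) (.n 3 (.n 1 (.l 4) (.l 4)) (.n 3 (.l 3) (.n 0 (.l 3) (.l 3)))))))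
    [(42880953483264, 1099511627776), (260919263232, 9663676416), (1030792151040, 68719476736), (549755813888, 549755813888)] rfl (by decide +kernel)
theorem c32_40_m5_t45 : CovD 0 progs [(42880953483264, 1099511627776), (280246616064, 9663676416), (996432412672, 34359738368), (549755813888, 549755813888)] :=
  Pool.Agent.helper14.QF.covD_F chks_eq (.n 2 (.n 3 (.l 15) (.n 3 (.n 0 (.l 4) (.l 4)) (.n 3 (.l 3) (.n 0 (.l 3) (.l 3))))) (.n 3 (.l 15) (.n 3 (.n 0 (.l 4) (.l 4)) (.n 3 (.l 3) (.n 0 (.l 3) (.l 3))))))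
    [(42880953483264, 1099511627776), (280246616064, 9663676416), (996432412672, 34359738368), (549755813888, 549755813888)] rfl (by decide +kernel)
end
mutual
theorem c32_40_m5_t46 : CovD 0 progs [(42880953483264, 1099511627776), (280246616064, 9663676416), (1065151889408, 34359738368), (549755813888, 549755813888)] :=
  Pool.Agent.helper14.QF.covD_F chks_eq (.n 3 (.l 15) (.n 3 (.n 3 (.l 10) (.n 1 (.l 3) (.l 3))) (.n 0 (.n 2 (.n 3 (.l 3) (.l 3)) (.n 3 (.l 3) (.n 0 (.l 3) (.l 3)))) (.n 2 (.n 3 (.l 3) (.n 0 (.l 3) (.l 3))) (.n 3 (.l 3) (.n 0 (.l 3) (.l 3)))))))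
    [(42880953483264, 1099511627776), (280246616064, 9663676416), (1065151889408, 34359738368), (549755813888, 549755813888)] rfl (by decide +kernel)
theorem c32_40_m5_t48 : CovD 0 progs [(42880953483264, 1099511627776), (299573968896, 9663676416), (996432412672, 34359738368), (549755813888, 549755813888)] :=
  Pool.Agent.helper14.QF.covD_F chks_eq (.n 3 (.l 15) (.n 3 (.n 3 (.l 10) (.l 10)) (.n 2 (.n 3 (.l 3) (.n 0 (.l 3) (.l 3))) (.n 1 (.n 3 (.l 3) (.l 3)) (.n 3 (.l 3) (.l 3))))))
    [(42880953483264, 1099511627776), (299573968896, 9663676416), (996432412672, 34359738368), (549755813888, 549755813888)] rfl (by decide +kernel)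
theorem c32_40_m5_t49 : CovD 0 progs [(42880953483264, 1099511627776), (299573968896, 9663676416), (1065151889408, 34359738368), (549755813888, 549755813888)] :=
  Pool.Agent.helper14.QF.covD_F chks_eq (.n 2 (.n 3 (.l 15) (.n 3 (.n 3 (.l 5) (.l 3)) (.n 1 (.n 3 (.l 3) (.l 3)) (.n 3 (.l 3) (.n 0 (.l 3) (.l 3)))))) (.n 3 (.l 15) (.n 3 (.n 3 (.l 5) (.l 3)) (.n 0 (.n 3 (.l 3) (.n 1 (.l 3) (.l 3))) (.n 3 (.l 3) (.n 1 (.l 3) (.l 3)))))))
    [(42880953483264, 1099511627776), (299573968896, 9663676416), (1065151889408, 34359738368), (549755813888, 549755813888)] rfl (by decide +kernel)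
end
theorem c32_40_m5_t3 : CovD 0 progs [(41781441855488, 2199023255552), (212600881152, 19327352832), (687194767360, 137438953472), (549755813888, 549755813888)] :=
  covD_split 2 (by decide +kernel) c32_40_m5_t1 c32_40_m5_t2
theorem c32_40_m5_t4 : CovD 0 progs [(41781441855488, 2199023255552), (193273528320, 38654705664), (687194767360, 137438953472), (549755813888, 549755813888)] :=
  covD_split 1 (by decide +kernel) c32_40_m5_t0 c32_40_m5_t3
theorem c32_40_m5_t7 : CovD 0 progs [(41781441855488, 2199023255552), (251255586816, 19327352832), (687194767360, 137438953472), (549755813888, 549755813888)] :=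
  covD_split 2 (by decide +kernel) c32_40_m5_t5 c32_40_m5_t6
theorem c32_40_m5_t9 : CovD 0 progs [(41781441855488, 2199023255552), (270582939648, 38654705664), (687194767360, 137438953472), (549755813888, 549755813888)] :=
  covD_split 1 (by decide +kernel) c32_40_m5_t7 c32_40_m5_t8
theorem c32_40_m5_t10 : CovD 0 progs [(41781441855488, 2199023255552), (231928233984, 77309411328), (687194767360, 137438953472), (549755813888, 549755813888)] :=
  covD_split 1 (by decide +kernel) c32_40_m5_t4 c32_40_m5_t9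
theorem c32_40_m5_t13 : CovD 0 progs [(41781441855488, 2199023255552), (193273528320, 38654705664), (893353197568, 68719476736), (549755813888, 549755813888)] :=
  covD_split 2 (by decide +kernel) c32_40_m5_t11 c32_40_m5_t12
theorem c32_40_m5_t16 : CovD 0 progs [(41781441855488, 2199023255552), (193273528320, 38654705664), (996432412672, 34359738368), (549755813888, 549755813888)] :=
  covD_split 1 (by decide +kernel) c32_40_m5_t14 c32_40_m5_t15
theorem c32_40_m5_t20 : CovD 0 progs [(41781441855488, 2199023255552), (212600881152, 19327352832), (1065151889408, 34359738368), (549755813888, 549755813888)] :=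
  covD_split 1 (by decide +kernel) c32_40_m5_t18 c32_40_m5_t19
theorem c32_40_m5_t21 : CovD 0 progs [(41781441855488, 2199023255552), (193273528320, 38654705664), (1065151889408, 34359738368), (549755813888, 549755813888)] :=
  covD_split 1 (by decide +kernel) c32_40_m5_t17 c32_40_m5_t20
theorem c32_40_m5_t22 : CovD 0 progs [(41781441855488, 2199023255552), (193273528320, 38654705664), (1030792151040, 68719476736), (549755813888, 549755813888)] :=
  covD_split 2 (by decide +kernel) c32_40_m5_t16 c32_40_m5_t21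
theorem c32_40_m5_t23 : CovD 0 progs [(41781441855488, 2199023255552), (193273528320, 38654705664), (962072674304, 137438953472), (549755813888, 549755813888)] :=
  covD_split 2 (by decide +kernel) c32_40_m5_t13 c32_40_m5_t22
theorem c32_40_m5_t26 : CovD 0 progs [(41781441855488, 2199023255552), (270582939648, 38654705664), (858993459200, 34359738368), (549755813888, 549755813888)] :=
  covD_split 1 (by decide +kernel) c32_40_m5_t24 c32_40_m5_t25
theorem c32_40_m5_t30 : CovD 0 progs [(41781441855488, 2199023255552), (270582939648, 38654705664), (944892805120, 17179869184), (549755813888, 549755813888)] :=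
  covD_split 1 (by decide +kernel) c32_40_m5_t28 c32_40_m5_t29
theorem c32_40_m5_t31 : CovD 0 progs [(41781441855488, 2199023255552), (270582939648, 38654705664), (927712935936, 34359738368), (549755813888, 549755813888)] :=
  covD_split 2 (by decide +kernel) c32_40_m5_t27 c32_40_m5_t30
theorem c32_40_m5_t32 : CovD 0 progs [(41781441855488, 2199023255552), (270582939648, 38654705664), (893353197568, 68719476736), (549755813888, 549755813888)] :=
  covD_split 2 (by decide +kernel) c32_40_m5_t26 c32_40_m5_t31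
theorem c32_40_m5_t35 : CovD 0 progs [(40681930227712, 1099511627776), (251255586816, 19327352832), (1030792151040, 68719476736), (549755813888, 549755813888)] :=
  covD_split 1 (by decide +kernel) c32_40_m5_t33 c32_40_m5_t34
theorem c32_40_m5_t39 : CovD 0 progs [(40681930227712, 1099511627776), (289910292480, 19327352832), (1065151889408, 34359738368), (549755813888, 549755813888)] :=
  covD_split 1 (by decide +kernel) c32_40_m5_t37 c32_40_m5_t38
theorem c32_40_m5_t40 : CovD 0 progs [(40681930227712, 1099511627776), (289910292480, 19327352832), (1030792151040, 68719476736), (549755813888, 549755813888)] :=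
  covD_split 2 (by decide +kernel) c32_40_m5_t36 c32_40_m5_t39
theorem c32_40_m5_t41 : CovD 0 progs [(40681930227712, 1099511627776), (270582939648, 38654705664), (1030792151040, 68719476736), (549755813888, 549755813888)] :=
  covD_split 1 (by decide +kernel) c32_40_m5_t35 c32_40_m5_t40
theorem c32_40_m5_t44 : CovD 0 progs [(42880953483264, 1099511627776), (251255586816, 19327352832), (1030792151040, 68719476736), (549755813888, 549755813888)] :=
  covD_split 1 (by decide +kernel) c32_40_m5_t42 c32_40_m5_t43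
theorem c32_40_m5_t47 : CovD 0 progs [(42880953483264, 1099511627776), (280246616064, 9663676416), (1030792151040, 68719476736), (549755813888, 549755813888)] :=
  covD_split 2 (by decide +kernel) c32_40_m5_t45 c32_40_m5_t46
theorem c32_40_m5_t50 : CovD 0 progs [(42880953483264, 1099511627776), (299573968896, 9663676416), (1030792151040, 68719476736), (549755813888, 549755813888)] :=
  covD_split 2 (by decide +kernel) c32_40_m5_t48 c32_40_m5_t49
theorem c32_40_m5_t51 : CovD 0 progs [(42880953483264, 1099511627776), (289910292480, 19327352832), (1030792151040, 68719476736), (549755813888, 549755813888)] :=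
  covD_split 1 (by decide +kernel) c32_40_m5_t47 c32_40_m5_t50
theorem c32_40_m5_t52 : CovD 0 progs [(42880953483264, 1099511627776), (270582939648, 38654705664), (1030792151040, 68719476736), (549755813888, 549755813888)] :=
  covD_split 1 (by decide +kernel) c32_40_m5_t44 c32_40_m5_t51
theorem c32_40_m5_t53 : CovD 0 progs [(41781441855488, 2199023255552), (270582939648, 38654705664), (1030792151040, 68719476736), (549755813888, 549755813888)] :=
  covD_split 0 (by decide +kernel) c32_40_m5_t41 c32_40_m5_t52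
theorem c32_40_m5_t54 : CovD 0 progs [(41781441855488, 2199023255552), (270582939648, 38654705664), (962072674304, 137438953472), (549755813888, 549755813888)] :=
  covD_split 2 (by decide +kernel) c32_40_m5_t32 c32_40_m5_t53
theorem c32_40_m5_t55 : CovD 0 progs [(41781441855488, 2199023255552), (231928233984, 77309411328), (962072674304, 137438953472), (549755813888, 549755813888)] :=
  covD_split 1 (by decide +kernel) c32_40_m5_t23 c32_40_m5_t54
theorem c32_40_m5 : CovD 0 progs [(41781441855488, 2199023255552), (231928233984, 77309411328), (824633720832, 274877906944), (549755813888, 549755813888)] :=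
  covD_split 2 (by decide +kernel) c32_40_m5_t10 c32_40_m5_t55

end Pool.Agent.helper71.FG.Crt.L
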