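import Pool.Agent.helper71.FG.Crt.Lc32_40_0
import Pool.Agent.helper71.FG.Crt.Lc32_40_1
import Pool.Agent.helper71.FG.Crt.Lc32_40_2
import Pool.Agent.helper71.FG.Crt.Lc32_40_3
import Pool.Agent.helper71.FG.Crt.Lc32_40_4
import Pool.Agent.helper71.FG.Crt.Lc32_40_5

/-!
Generated certificates, assembled.
-/

namespace Pool.Agent.helper71.FG.Crt.L

open Pool.Agent.helper31.IA (Z Op)
open Pool.Agent.helper31.IC

theorem c32_40_top0 : CovD 0 progs [(37383395344384, 2199023255552), (231928233984, 77309411328), (549755813888, 549755813888), (549755813888, 549755813888)] :=
  covD_split 2 (by decide +kernel) c32_40_m1 c32_40_m2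
theorem c32_40_top1 : CovD 0 progs [(37383395344384, 2199023255552), (154618822656, 154618822656), (549755813888, 549755813888), (549755813888, 549755813888)] :=
  covD_split 1 (by decide +kernel) c32_40_m0 c32_40_top0
theorem c32_40_top2 : CovD 0 progs [(41781441855488, 2199023255552), (231928233984, 77309411328), (549755813888, 549755813888), (549755813888, 549755813888)] :=
  covD_split 2 (by decide +kernel) c32_40_m4 c32_40_m5
theorem c32_40_top3 : CovD 0 progs [(41781441855488, 2199023255552), (154618822656, 154618822656), (549755813888, 549755813888), (549755813888, 549755813888)] :=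
  covD_split 1 (by decide +kernel) c32_40_m3 c32_40_top2
theorem c32_40_top4 : CovD 0 progs [(39582418599936, 4398046511104), (154618822656, 154618822656), (549755813888, 549755813888), (549755813888, 549755813888)] :=
  covD_split 0 (by decide +kernel) c32_40_top1 c32_40_top3

theorem c32_40_all : CovD 0 progs [(39582418599936, 4398046511104), (154618822656, 154618822656), (549755813888, 549755813888), (549755813888, 549755813888)] := c32_40_top4

end Pool.Agent.helper71.FG.Crt.L
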