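import Pool.Agent.helper71.FG.Crt.LP

/-!
Generated certificates.
-/

namespace Pool.Agent.helper71.FG.Crt.L

open Pool.Agent.helper31.IA (Z Op)
open Pool.Agent.helper31.IC

mutual
theorem c32_50b_m1_t0 : CovD 0 progs [(40132174413824, 4947802324992), (326417514496, 17179869184), (274877906944, 274877906944), (824633720832, 274877906944)] :=
  Pool.Agent.helper14.QF.covD_F chks_eq (.n 2 (.l 10) (.n 2 (.l 10) (.l 10)))
    [(40132174413824, 4947802324992), (326417514496, 17179869184), (274877906944, 274877906944), (824633720832, 274877906944)] rfl (by decide +kernel)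
theorem c32_50b_m1_t1 : CovD 0 progs [(40132174413824, 4947802324992), (326417514496, 17179869184), (687194767360, 137438953472), (824633720832, 274877906944)] :=
  Pool.Agent.helper14.QF.covD_F chks_eq (.n 3 (.l 10) (.n 2 (.l 10) (.n 2 (.l 10) (.n 3 (.l 10) (.l 10)))))
    [(40132174413824, 4947802324992), (326417514496, 17179869184), (687194767360, 137438953472), (824633720832, 274877906944)] rfl (by decide +kernel)
end
mutual
theorem c32_50b_m1_t2 : CovD 0 progs [(40132174413824, 4947802324992), (326417514496, 17179869184), (858993459200, 34359738368), (824633720832, 274877906944)] :=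
  Pool.Agent.helper14.QF.covD_F chks_eq (.n 1 (.n 3 (.l 10) (.n 3 (.l 10) (.n 3 (.l 10) (.n 0 (.n 0 (.l 3) (.n 0 (.l 3) (.l 3))) (.n 0 (.n 0 (.l 3) (.l 3)) (.n 2 (.l 3) (.l 3))))))) (.n 3 (.l 10) (.n 2 (.l 10) (.n 3 (.l 10) (.n 1 (.n 1 (.n 3 (.l 10) (.l 10)) (.l 10)) (.l 10))))))
    [(40132174413824, 4947802324992), (326417514496, 17179869184), (858993459200, 34359738368), (824633720832, 274877906944)] rfl (by decide +kernel)
theorem c32_50b_m1_t3 : CovD 0 progs [(40132174413824, 4947802324992), (317827579904, 8589934592), (927712935936, 34359738368), (824633720832, 274877906944)] :=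
  Pool.Agent.helper14.QF.covD_F chks_eq (.n 2 (.n 3 (.l 10) (.n 3 (.l 10) (.n 0 (.n 0 (.l 3) (.l 3)) (.n 0 (.l 3) (.n 0 (.l 3) (.l 3)))))) (.n 3 (.l 10) (.n 3 (.l 10) (.n 0 (.n 0 (.l 3) (.n 0 (.l 3) (.l 3))) (.n 0 (.n 0 (.l 3) (.l 3)) (.n 0 (.l 3) (.l 3)))))))
    [(40132174413824, 4947802324992), (317827579904, 8589934592), (927712935936, 34359738368), (824633720832, 274877906944)] rfl (by decide +kernel)
end
mutual
theorem c32_50b_m1_t4 : CovD 0 progs [(40132174413824, 4947802324992), (335007449088, 8589934592), (927712935936, 34359738368), (824633720832, 274877906944)] :=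
  Pool.Agent.helper14.QF.covD_F chks_eq (.n 2 (.n 3 (.l 10) (.n 3 (.l 10) (.n 3 (.l 10) (.n 0 (.n 0 (.l 3) (.l 3)) (.n 0 (.l 3) (.l 3)))))) (.n 3 (.l 10) (.n 3 (.l 10) (.n 0 (.n 0 (.n 0 (.l 3) (.l 3)) (.n 0 (.l 3) (.l 3))) (.n 0 (.n 0 (.l 3) (.l 3)) (.n 3 (.l 3) (.l 3)))))))
    [(40132174413824, 4947802324992), (335007449088, 8589934592), (927712935936, 34359738368), (824633720832, 274877906944)] rfl (by decide +kernel)
theorem c32_50b_m1_t7 : CovD 0 progs [(40132174413824, 4947802324992), (317827579904, 8589934592), (979252543488, 17179869184), (824633720832, 274877906944)] :=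
  Pool.Agent.helper14.QF.covD_F chks_eq (.n 3 (.l 10) (.n 0 (.n 0 (.n 3 (.l 3) (.n 0 (.l 3) (.l 3))) (.n 3 (.l 3) (.n 0 (.l 3) (.l 3)))) (.n 0 (.n 3 (.l 3) (.n 0 (.l 3) (.l 3))) (.n 3 (.n 0 (.l 3) (.l 3)) (.n 3 (.l 3) (.l 3))))))
    [(40132174413824, 4947802324992), (317827579904, 8589934592), (979252543488, 17179869184), (824633720832, 274877906944)] rfl (by decide +kernel)
end
mutual
theorem c32_50b_m1_t8 : CovD 0 progs [(40132174413824, 4947802324992), (317827579904, 8589934592), (1013612281856, 17179869184), (824633720832, 274877906944)] :=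
  Pool.Agent.helper14.QF.covD_F chks_eq (.n 3 (.l 10) (.n 3 (.n 0 (.n 0 (.l 3) (.l 3)) (.n 3 (.l 10) (.n 0 (.l 3) (.l 3)))) (.n 0 (.n 0 (.n 0 (.l 3) (.l 3)) (.n 0 (.l 3) (.l 3))) (.n 0 (.n 3 (.l 3) (.l 3)) (.n 3 (.l 3) (.n 0 (.l 3) (.l 3)))))))
    [(40132174413824, 4947802324992), (317827579904, 8589934592), (1013612281856, 17179869184), (824633720832, 274877906944)] rfl (by decide +kernel)
theorem c32_50b_m1_t10 : CovD 0 progs [(40132174413824, 4947802324992), (335007449088, 8589934592), (979252543488, 17179869184), (824633720832, 274877906944)] :=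
  Pool.Agent.helper14.QF.covD_F chks_eq (.n 3 (.l 10) (.n 3 (.l 10) (.n 0 (.n 0 (.n 0 (.l 3) (.l 3)) (.n 0 (.l 3) (.l 3))) (.n 0 (.n 3 (.l 3) (.l 3)) (.n 3 (.l 3) (.n 0 (.l 3) (.l 3)))))))
    [(40132174413824, 4947802324992), (335007449088, 8589934592), (979252543488, 17179869184), (824633720832, 274877906944)] rfl (by decide +kernel)
end
mutual
theorem c32_50b_m1_t11 : CovD 0 progs [(40132174413824, 4947802324992), (335007449088, 8589934592), (1013612281856, 17179869184), (824633720832, 274877906944)] :=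
  Pool.Agent.helper14.QF.covD_F chks_eq (.n 3 (.l 10) (.n 3 (.n 3 (.l 10) (.n 0 (.n 0 (.l 3) (.l 3)) (.n 0 (.l 3) (.l 3)))) (.n 0 (.n 0 (.n 0 (.l 3) (.l 3)) (.n 3 (.l 3) (.l 3))) (.n 0 (.n 3 (.l 3) (.n 0 (.l 3) (.l 3))) (.n 0 (.n 1 (.l 3) (.l 3)) (.n 1 (.l 3) (.l 3)))))))
    [(40132174413824, 4947802324992), (335007449088, 8589934592), (1013612281856, 17179869184), (824633720832, 274877906944)] rfl (by decide +kernel)
theorem c32_50b_m1_t14 : CovD 0 progs [(40132174413824, 4947802324992), (317827579904, 8589934592), (1047972020224, 17179869184), (824633720832, 274877906944)] :=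
  Pool.Agent.helper14.QF.covD_F chks_eq (.n 3 (.l 10) (.n 0 (.n 0 (.n 3 (.l 3) (.n 0 (.l 3) (.l 3))) (.n 3 (.n 0 (.l 3) (.l 3)) (.n 3 (.l 3) (.l 3)))) (.n 0 (.n 3 (.n 0 (.l 3) (.l 3)) (.n 3 (.l 3) (.n 0 (.l 3) (.l 3)))) (.n 3 (.n 3 (.l 3) (.l 3)) (.n 0 (.n 1 (.l 3) (.l 3)) (.n 1 (.l 3) (.l 3)))))))
    [(40132174413824, 4947802324992), (317827579904, 8589934592), (1047972020224, 17179869184), (824633720832, 274877906944)] rfl (by decide +kernel)
end
mutual
theorem c32_50b_m1_t15 : CovD 0 progs [(40132174413824, 4947802324992), (317827579904, 8589934592), (1082331758592, 17179869184), (824633720832, 274877906944)] :=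
  Pool.Agent.helper14.QF.covD_F chks_eq (.n 3 (.n 3 (.l 10) (.l 10)) (.n 0 (.n 0 (.n 3 (.n 0 (.l 3) (.l 3)) (.n 3 (.l 3) (.l 3))) (.n 3 (.n 0 (.l 3) (.l 3)) (.n 3 (.l 3) (.n 0 (.l 3) (.l 3))))) (.n 0 (.n 0 (.n 3 (.l 3) (.n 1 (.l 3) (.l 3))) (.n 3 (.l 3) (.n 1 (.l 3) (.l 3)))) (.n 3 (.n 3 (.l 3) (.n 0 (.l 3) (.l 3))) (.n 0 (.n 1 (.l 3) (.l 3)) (.n 3 (.l 3) (.l 3)))))))
    [(40132174413824, 4947802324992), (317827579904, 8589934592), (1082331758592, 17179869184), (824633720832, 274877906944)] rfl (by decide +kernel)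
theorem c32_50b_m1_t17 : CovD 0 progs [(40132174413824, 4947802324992), (335007449088, 8589934592), (1047972020224, 17179869184), (824633720832, 274877906944)] :=
  Pool.Agent.helper14.QF.covD_F chks_eq (.n 3 (.l 10) (.n 3 (.n 3 (.l 10) (.n 0 (.n 0 (.l 3) (.l 3)) (.n 0 (.l 3) (.n 0 (.l 3) (.l 3))))) (.n 0 (.n 0 (.n 3 (.l 3) (.l 3)) (.n 3 (.l 3) (.n 0 (.l 3) (.l 3)))) (.n 0 (.n 0 (.n 1 (.l 3) (.l 3)) (.n 1 (.l 3) (.l 3))) (.n 0 (.n 3 (.l 3) (.l 3)) (.n 3 (.l 3) (.l 3)))))))
    [(40132174413824, 4947802324992), (335007449088, 8589934592), (1047972020224, 17179869184), (824633720832, 274877906944)] rfl (by decide +kernel)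
end
mutual
theorem c32_50b_m1_t18 : CovD 0 progs [(40132174413824, 4947802324992), (335007449088, 8589934592), (1082331758592, 17179869184), (687194767360, 137438953472)] :=
  Pool.Agent.helper14.QF.covD_F chks_eq (.l 10)
    [(40132174413824, 4947802324992), (335007449088, 8589934592), (1082331758592, 17179869184), (687194767360, 137438953472)] rfl (by decide +kernel)
theorem c32_50b_m1_t19 : CovD 0 progs [(37658273251328, 2473901162496), (335007449088, 8589934592), (1082331758592, 17179869184), (962072674304, 137438953472)] :=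
  Pool.Agent.helper14.QF.covD_F chks_eq (.n 0 (.n 3 (.n 0 (.l 3) (.l 3)) (.n 3 (.l 3) (.n 0 (.l 3) (.l 3)))) (.n 0 (.n 3 (.l 3) (.n 1 (.l 3) (.l 3))) (.n 3 (.l 3) (.n 1 (.l 3) (.l 3)))))
    [(37658273251328, 2473901162496), (335007449088, 8589934592), (1082331758592, 17179869184), (962072674304, 137438953472)] rfl (by decide +kernel)
end
mutual
theorem c32_50b_m1_t20 : CovD 0 progs [(42606075576320, 2473901162496), (335007449088, 8589934592), (1082331758592, 17179869184), (962072674304, 137438953472)] :=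
  Pool.Agent.helper14.QF.covD_F chks_eq (.n 0 (.n 3 (.n 3 (.l 3) (.n 0 (.l 3) (.l 3))) (.n 0 (.n 3 (.l 3) (.l 3)) (.n 3 (.l 3) (.l 3)))) (.n 3 (.n 3 (.l 3) (.n 0 (.l 3) (.l 3))) (.n 0 (.n 3 (.l 3) (.l 3)) (.n 3 (.l 3) (.n 0 (.l 3) (.l 3))))))
    [(42606075576320, 2473901162496), (335007449088, 8589934592), (1082331758592, 17179869184), (962072674304, 137438953472)] rfl (by decide +kernel)
theorem c32_50b_m1_t29 : CovD 0 progs [(40132174413824, 4947802324992), (360777252864, 17179869184), (274877906944, 274877906944), (824633720832, 274877906944)] :=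
  Pool.Agent.helper14.QF.covD_F chks_eq (.n 2 (.l 10) (.n 2 (.l 10) (.l 10)))
    [(40132174413824, 4947802324992), (360777252864, 17179869184), (274877906944, 274877906944), (824633720832, 274877906944)] rfl (by decide +kernel)
end
mutual
theorem c32_50b_m1_t30 : CovD 0 progs [(40132174413824, 4947802324992), (360777252864, 17179869184), (687194767360, 137438953472), (824633720832, 274877906944)] :=
  Pool.Agent.helper14.QF.covD_F chks_eq (.n 3 (.l 10) (.n 2 (.l 10) (.n 1 (.l 10) (.l 10))))
    [(40132174413824, 4947802324992), (360777252864, 17179869184), (687194767360, 137438953472), (824633720832, 274877906944)] rfl (by decide +kernel)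
theorem c32_50b_m1_t31 : CovD 0 progs [(40132174413824, 4947802324992), (360777252864, 17179869184), (893353197568, 68719476736), (824633720832, 274877906944)] :=
  Pool.Agent.helper14.QF.covD_F chks_eq (.n 1 (.n 3 (.l 10) (.n 3 (.l 10) (.n 2 (.l 10) (.n 3 (.l 10) (.n 0 (.n 0 (.n 2 (.l 3) (.l 3)) (.n 2 (.l 3) (.l 3))) (.n 0 (.n 2 (.l 3) (.l 3)) (.n 2 (.l 3) (.n 0 (.l 3) (.l 3))))))))) (.n 3 (.l 10) (.n 2 (.l 10) (.n 3 (.l 10) (.n 2 (.l 10) (.n 3 (.l 10) (.n 0 (.n 0 (.l 3) (.l 3)) (.n 3 (.l 10) (.n 0 (.l 3) (.l 3))))))))))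
    [(40132174413824, 4947802324992), (360777252864, 17179869184), (893353197568, 68719476736), (824633720832, 274877906944)] rfl (by decide +kernel)
end
mutual
theorem c32_50b_m1_t32 : CovD 0 progs [(40132174413824, 4947802324992), (360777252864, 17179869184), (1030792151040, 68719476736), (687194767360, 137438953472)] :=
  Pool.Agent.helper14.QF.covD_F chks_eq (.n 3 (.l 10) (.l 10))
    [(40132174413824, 4947802324992), (360777252864, 17179869184), (1030792151040, 68719476736), (687194767360, 137438953472)] rfl (by decide +kernel)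
theorem c32_50b_m1_t33 : CovD 0 progs [(40132174413824, 4947802324992), (360777252864, 17179869184), (1030792151040, 68719476736), (893353197568, 68719476736)] :=
  Pool.Agent.helper14.QF.covD_F chks_eq (.n 1 (.n 2 (.l 10) (.n 2 (.n 3 (.l 10) (.n 0 (.n 0 (.l 3) (.l 3)) (.n 1 (.n 0 (.l 3) (.l 3)) (.l 10)))) (.n 3 (.l 10) (.n 0 (.n 0 (.l 3) (.n 0 (.l 3) (.l 3))) (.n 0 (.n 0 (.l 3) (.l 3)) (.n 0 (.l 3) (.l 3))))))) (.n 2 (.l 10) (.n 2 (.l 10) (.n 3 (.l 10) (.n 3 (.l 10) (.n 0 (.n 0 (.l 3) (.l 3)) (.n 0 (.l 14) (.n 0 (.l 3) (.l 3)))))))))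
    [(40132174413824, 4947802324992), (360777252864, 17179869184), (1030792151040, 68719476736), (893353197568, 68719476736)] rfl (by decide +kernel)
end
mutual
theorem c32_50b_m1_t34 : CovD 0 progs [(35802847379456, 618475290624), (360777252864, 17179869184), (1030792151040, 68719476736), (1030792151040, 68719476736)] :=
  Pool.Agent.helper14.QF.covD_F chks_eq (.n 1 (.n 2 (.n 2 (.l 3) (.l 3)) (.n 0 (.n 2 (.l 3) (.l 3)) (.n 2 (.l 3) (.l 3)))) (.n 2 (.n 2 (.l 3) (.n 0 (.l 3) (.l 3))) (.n 2 (.n 1 (.l 3) (.l 3)) (.n 3 (.l 3) (.l 3)))))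
    [(35802847379456, 618475290624), (360777252864, 17179869184), (1030792151040, 68719476736), (1030792151040, 68719476736)] rfl (by decide +kernel)
theorem c32_50b_m1_t35 : CovD 0 progs [(37039797960704, 618475290624), (360777252864, 17179869184), (1030792151040, 68719476736), (1030792151040, 68719476736)] :=
  Pool.Agent.helper14.QF.covD_F chks_eq (.n 1 (.n 2 (.n 2 (.l 3) (.n 0 (.l 3) (.l 3))) (.n 1 (.n 2 (.l 3) (.l 3)) (.n 2 (.l 3) (.l 3)))) (.n 2 (.n 0 (.n 2 (.l 3) (.l 3)) (.n 2 (.l 3) (.l 3))) (.n 2 (.n 1 (.l 3) (.l 3)) (.n 3 (.l 3) (.l 3)))))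
    [(37039797960704, 618475290624), (360777252864, 17179869184), (1030792151040, 68719476736), (1030792151040, 68719476736)] rfl (by decide +kernel)
end
mutual
theorem c32_50b_m1_t37 : CovD 0 progs [(38276748541952, 618475290624), (360777252864, 17179869184), (1030792151040, 68719476736), (1030792151040, 68719476736)] :=
  Pool.Agent.helper14.QF.covD_F chks_eq (.n 1 (.n 2 (.n 2 (.l 3) (.n 0 (.l 3) (.l 3))) (.n 2 (.n 1 (.l 3) (.l 3)) (.n 3 (.l 3) (.l 3)))) (.n 2 (.n 1 (.n 2 (.l 3) (.l 3)) (.n 2 (.l 3) (.l 3))) (.n 2 (.n 3 (.l 3) (.l 3)) (.n 3 (.l 3) (.l 3)))))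
    [(38276748541952, 618475290624), (360777252864, 17179869184), (1030792151040, 68719476736), (1030792151040, 68719476736)] rfl (by decide +kernel)
theorem c32_50b_m1_t38 : CovD 0 progs [(39513699123200, 618475290624), (360777252864, 17179869184), (1030792151040, 68719476736), (1030792151040, 68719476736)] :=
  Pool.Agent.helper14.QF.covD_F chks_eq (.n 1 (.n 2 (.n 0 (.n 2 (.l 3) (.l 3)) (.n 2 (.l 3) (.l 3))) (.n 2 (.n 1 (.l 3) (.l 3)) (.n 3 (.l 3) (.l 3)))) (.n 2 (.n 1 (.n 2 (.l 3) (.l 3)) (.n 2 (.l 3) (.l 3))) (.n 2 (.n 3 (.l 3) (.l 3)) (.n 3 (.l 3) (.l 3)))))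
    [(39513699123200, 618475290624), (360777252864, 17179869184), (1030792151040, 68719476736), (1030792151040, 68719476736)] rfl (by decide +kernel)
end
mutual
theorem c32_50b_m1_t41 : CovD 0 progs [(40750649704448, 618475290624), (360777252864, 17179869184), (1030792151040, 68719476736), (1030792151040, 68719476736)] :=
  Pool.Agent.helper14.QF.covD_F chks_eq (.n 1 (.n 2 (.n 1 (.n 2 (.l 3) (.l 3)) (.n 2 (.l 3) (.l 3))) (.n 2 (.n 3 (.l 3) (.l 3)) (.n 3 (.l 3) (.l 3)))) (.n 2 (.n 2 (.n 1 (.l 3) (.l 3)) (.n 3 (.l 3) (.l 3))) (.n 2 (.n 3 (.l 3) (.l 3)) (.n 3 (.l 3) (.n 0 (.l 3) (.l 3))))))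
    [(40750649704448, 618475290624), (360777252864, 17179869184), (1030792151040, 68719476736), (1030792151040, 68719476736)] rfl (by decide +kernel)
theorem c32_50b_m1_t42 : CovD 0 progs [(41987600285696, 618475290624), (360777252864, 17179869184), (1030792151040, 68719476736), (1030792151040, 68719476736)] :=
  Pool.Agent.helper14.QF.covD_F chks_eq (.n 1 (.n 2 (.n 1 (.n 2 (.l 3) (.l 3)) (.n 2 (.l 3) (.l 3))) (.n 2 (.n 3 (.l 3) (.l 3)) (.n 3 (.l 3) (.l 3)))) (.n 2 (.n 2 (.n 1 (.l 3) (.l 3)) (.n 3 (.l 3) (.l 3))) (.n 2 (.n 3 (.l 3) (.n 0 (.l 3) (.l 3))) (.n 3 (.l 3) (.n 0 (.l 3) (.l 3))))))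
    [(41987600285696, 618475290624), (360777252864, 17179869184), (1030792151040, 68719476736), (1030792151040, 68719476736)] rfl (by decide +kernel)
end
mutual
theorem c32_50b_m1_t44 : CovD 0 progs [(43224550866944, 618475290624), (360777252864, 17179869184), (1030792151040, 68719476736), (1030792151040, 68719476736)] :=
  Pool.Agent.helper14.QF.covD_F chks_eq (.n 1 (.n 2 (.n 2 (.n 1 (.l 3) (.l 3)) (.n 3 (.l 3) (.l 3))) (.n 2 (.n 3 (.l 3) (.l 3)) (.n 3 (.l 3) (.n 0 (.l 3) (.l 3))))) (.n 2 (.n 2 (.n 3 (.l 3) (.l 3)) (.n 3 (.l 3) (.l 3))) (.n 2 (.n 3 (.l 3) (.n 0 (.l 3) (.l 3))) (.n 0 (.n 3 (.l 3) (.l 3)) (.n 3 (.l 3) (.l 3))))))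
    [(43224550866944, 618475290624), (360777252864, 17179869184), (1030792151040, 68719476736), (1030792151040, 68719476736)] rfl (by decide +kernel)
theorem c32_50b_m1_t45 : CovD 0 progs [(44461501448192, 618475290624), (360777252864, 17179869184), (1030792151040, 68719476736), (1030792151040, 68719476736)] :=
  Pool.Agent.helper14.QF.covD_F chks_eq (.n 1 (.n 2 (.n 2 (.n 1 (.l 3) (.l 3)) (.n 3 (.l 3) (.l 3))) (.n 2 (.n 3 (.l 3) (.n 0 (.l 3) (.l 3))) (.n 3 (.l 3) (.n 0 (.l 3) (.l 3))))) (.n 2 (.n 2 (.n 3 (.l 3) (.l 3)) (.n 3 (.l 3) (.n 0 (.l 3) (.l 3)))) (.n 2 (.n 3 (.l 3) (.n 0 (.l 3) (.l 3))) (.n 0 (.n 3 (.l 3) (.l 3)) (.n 3 (.l 3) (.l 3))))))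
    [(44461501448192, 618475290624), (360777252864, 17179869184), (1030792151040, 68719476736), (1030792151040, 68719476736)] rfl (by decide +kernel)
end
theorem c32_50b_m1_t5 : CovD 0 progs [(40132174413824, 4947802324992), (326417514496, 17179869184), (927712935936, 34359738368), (824633720832, 274877906944)] :=
  covD_split 1 (by decide +kernel) c32_50b_m1_t3 c32_50b_m1_t4
theorem c32_50b_m1_t6 : CovD 0 progs [(40132174413824, 4947802324992), (326417514496, 17179869184), (893353197568, 68719476736), (824633720832, 274877906944)] :=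
  covD_split 2 (by decide +kernel) c32_50b_m1_t2 c32_50b_m1_t5
theorem c32_50b_m1_t9 : CovD 0 progs [(40132174413824, 4947802324992), (317827579904, 8589934592), (996432412672, 34359738368), (824633720832, 274877906944)] :=
  covD_split 2 (by decide +kernel) c32_50b_m1_t7 c32_50b_m1_t8
theorem c32_50b_m1_t12 : CovD 0 progs [(40132174413824, 4947802324992), (335007449088, 8589934592), (996432412672, 34359738368), (824633720832, 274877906944)] :=
  covD_split 2 (by decide +kernel) c32_50b_m1_t10 c32_50b_m1_t11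
theorem c32_50b_m1_t13 : CovD 0 progs [(40132174413824, 4947802324992), (326417514496, 17179869184), (996432412672, 34359738368), (824633720832, 274877906944)] :=
  covD_split 1 (by decide +kernel) c32_50b_m1_t9 c32_50b_m1_t12
theorem c32_50b_m1_t16 : CovD 0 progs [(40132174413824, 4947802324992), (317827579904, 8589934592), (1065151889408, 34359738368), (824633720832, 274877906944)] :=
  covD_split 2 (by decide +kernel) c32_50b_m1_t14 c32_50b_m1_t15
theorem c32_50b_m1_t21 : CovD 0 progs [(40132174413824, 4947802324992), (335007449088, 8589934592), (1082331758592, 17179869184), (962072674304, 137438953472)] :=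
  covD_split 0 (by decide +kernel) c32_50b_m1_t19 c32_50b_m1_t20
theorem c32_50b_m1_t22 : CovD 0 progs [(40132174413824, 4947802324992), (335007449088, 8589934592), (1082331758592, 17179869184), (824633720832, 274877906944)] :=
  covD_split 3 (by decide +kernel) c32_50b_m1_t18 c32_50b_m1_t21
theorem c32_50b_m1_t23 : CovD 0 progs [(40132174413824, 4947802324992), (335007449088, 8589934592), (1065151889408, 34359738368), (824633720832, 274877906944)] :=
  covD_split 2 (by decide +kernel) c32_50b_m1_t17 c32_50b_m1_t22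
theorem c32_50b_m1_t24 : CovD 0 progs [(40132174413824, 4947802324992), (326417514496, 17179869184), (1065151889408, 34359738368), (824633720832, 274877906944)] :=
  covD_split 1 (by decide +kernel) c32_50b_m1_t16 c32_50b_m1_t23
theorem c32_50b_m1_t25 : CovD 0 progs [(40132174413824, 4947802324992), (326417514496, 17179869184), (1030792151040, 68719476736), (824633720832, 274877906944)] :=
  covD_split 2 (by decide +kernel) c32_50b_m1_t13 c32_50b_m1_t24
theorem c32_50b_m1_t26 : CovD 0 progs [(40132174413824, 4947802324992), (326417514496, 17179869184), (962072674304, 137438953472), (824633720832, 274877906944)] :=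
  covD_split 2 (by decide +kernel) c32_50b_m1_t6 c32_50b_m1_t25
theorem c32_50b_m1_t27 : CovD 0 progs [(40132174413824, 4947802324992), (326417514496, 17179869184), (824633720832, 274877906944), (824633720832, 274877906944)] :=
  covD_split 2 (by decide +kernel) c32_50b_m1_t1 c32_50b_m1_t26
theorem c32_50b_m1_t28 : CovD 0 progs [(40132174413824, 4947802324992), (326417514496, 17179869184), (549755813888, 549755813888), (824633720832, 274877906944)] :=
  covD_split 2 (by decide +kernel) c32_50b_m1_t0 c32_50b_m1_t27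
theorem c32_50b_m1_t36 : CovD 0 progs [(36421322670080, 1236950581248), (360777252864, 17179869184), (1030792151040, 68719476736), (1030792151040, 68719476736)] :=
  covD_split 0 (by decide +kernel) c32_50b_m1_t34 c32_50b_m1_t35
theorem c32_50b_m1_t39 : CovD 0 progs [(38895223832576, 1236950581248), (360777252864, 17179869184), (1030792151040, 68719476736), (1030792151040, 68719476736)] :=
  covD_split 0 (by decide +kernel) c32_50b_m1_t37 c32_50b_m1_t38
theorem c32_50b_m1_t40 : CovD 0 progs [(37658273251328, 2473901162496), (360777252864, 17179869184), (1030792151040, 68719476736), (1030792151040, 68719476736)] :=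
  covD_split 0 (by decide +kernel) c32_50b_m1_t36 c32_50b_m1_t39
theorem c32_50b_m1_t43 : CovD 0 progs [(41369124995072, 1236950581248), (360777252864, 17179869184), (1030792151040, 68719476736), (1030792151040, 68719476736)] :=
  covD_split 0 (by decide +kernel) c32_50b_m1_t41 c32_50b_m1_t42
theorem c32_50b_m1_t46 : CovD 0 progs [(43843026157568, 1236950581248), (360777252864, 17179869184), (1030792151040, 68719476736), (1030792151040, 68719476736)] :=
  covD_split 0 (by decide +kernel) c32_50b_m1_t44 c32_50b_m1_t45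
theorem c32_50b_m1_t47 : CovD 0 progs [(42606075576320, 2473901162496), (360777252864, 17179869184), (1030792151040, 68719476736), (1030792151040, 68719476736)] :=
  covD_split 0 (by decide +kernel) c32_50b_m1_t43 c32_50b_m1_t46
theorem c32_50b_m1_t48 : CovD 0 progs [(40132174413824, 4947802324992), (360777252864, 17179869184), (1030792151040, 68719476736), (1030792151040, 68719476736)] :=
  covD_split 0 (by decide +kernel) c32_50b_m1_t40 c32_50b_m1_t47
theorem c32_50b_m1_t49 : CovD 0 progs [(40132174413824, 4947802324992), (360777252864, 17179869184), (1030792151040, 68719476736), (962072674304, 137438953472)] :=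
  covD_split 3 (by decide +kernel) c32_50b_m1_t33 c32_50b_m1_t48
theorem c32_50b_m1_t50 : CovD 0 progs [(40132174413824, 4947802324992), (360777252864, 17179869184), (1030792151040, 68719476736), (824633720832, 274877906944)] :=
  covD_split 3 (by decide +kernel) c32_50b_m1_t32 c32_50b_m1_t49
theorem c32_50b_m1_t51 : CovD 0 progs [(40132174413824, 4947802324992), (360777252864, 17179869184), (962072674304, 137438953472), (824633720832, 274877906944)] :=
  covD_split 2 (by decide +kernel) c32_50b_m1_t31 c32_50b_m1_t50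
theorem c32_50b_m1_t52 : CovD 0 progs [(40132174413824, 4947802324992), (360777252864, 17179869184), (824633720832, 274877906944), (824633720832, 274877906944)] :=
  covD_split 2 (by decide +kernel) c32_50b_m1_t30 c32_50b_m1_t51
theorem c32_50b_m1_t53 : CovD 0 progs [(40132174413824, 4947802324992), (360777252864, 17179869184), (549755813888, 549755813888), (824633720832, 274877906944)] :=
  covD_split 2 (by decide +kernel) c32_50b_m1_t29 c32_50b_m1_t52
theorem c32_50b_m1 : CovD 0 progs [(40132174413824, 4947802324992), (343597383680, 34359738368), (549755813888, 549755813888), (824633720832, 274877906944)] :=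
  covD_split 1 (by decide +kernel) c32_50b_m1_t28 c32_50b_m1_t53

end Pool.Agent.helper71.FG.Crt.L
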