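import Pool.Agent.helper71.FG.Crt.LP

/-!
Generated certificates.
-/

namespace Pool.Agent.helper71.FG.Crt.L

open Pool.Agent.helper31.IA (Z Op)
open Pool.Agent.helper31.IC

mutual
theorem c32_50b_m11_t0 : CovD 0 progs [(52501680226304, 2473901162496), (377957122048, 68719476736), (979252543488, 17179869184), (996432412672, 34359738368)] :=
  Pool.Agent.helper14.QF.covD_F chks_eq (.n 1 (.n 1 (.n 1 (.n 0 (.n 0 (.l 3) (.l 3)) (.n 0 (.l 3) (.l 3))) (.n 0 (.n 0 (.l 3) (.l 3)) (.n 1 (.l 3) (.l 3)))) (.n 1 (.n 2 (.l 10) (.n 0 (.l 3) (.n 0 (.l 3) (.l 3)))) (.l 10))) (.l 10))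
    [(52501680226304, 2473901162496), (377957122048, 68719476736), (979252543488, 17179869184), (996432412672, 34359738368)] rfl (by decide +kernel)
theorem c32_50b_m11_t1 : CovD 0 progs [(52501680226304, 2473901162496), (377957122048, 68719476736), (979252543488, 17179869184), (1047972020224, 17179869184)] :=
  Pool.Agent.helper14.QF.covD_F chks_eq (.n 1 (.n 0 (.n 1 (.n 1 (.l 3) (.n 0 (.l 3) (.l 3))) (.n 0 (.n 1 (.l 3) (.l 3)) (.n 1 (.l 3) (.l 3)))) (.n 0 (.n 1 (.n 1 (.l 3) (.l 3)) (.n 1 (.l 3) (.l 3))) (.n 1 (.n 1 (.l 3) (.l 3)) (.n 1 (.l 3) (.l 3))))) (.n 1 (.n 1 (.n 1 (.n 0 (.l 3) (.l 3)) (.l 10)) (.l 10)) (.l 10)))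
    [(52501680226304, 2473901162496), (377957122048, 68719476736), (979252543488, 17179869184), (1047972020224, 17179869184)] rfl (by decide +kernel)
end
mutual
theorem c32_50b_m11_t2 : CovD 0 progs [(52501680226304, 2473901162496), (377957122048, 68719476736), (970662608896, 8589934592), (1082331758592, 17179869184)] :=
  Pool.Agent.helper14.QF.covD_F chks_eq (.n 1 (.n 0 (.n 1 (.n 1 (.l 3) (.l 3)) (.n 1 (.l 3) (.l 3))) (.n 1 (.n 1 (.l 3) (.l 3)) (.n 1 (.l 3) (.l 3)))) (.n 1 (.n 3 (.n 1 (.n 0 (.l 3) (.l 3)) (.l 10)) (.l 13)) (.l 10)))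
    [(52501680226304, 2473901162496), (377957122048, 68719476736), (970662608896, 8589934592), (1082331758592, 17179869184)] rfl (by decide +kernel)
theorem c32_50b_m11_t3 : CovD 0 progs [(52501680226304, 2473901162496), (377957122048, 68719476736), (987842478080, 8589934592), (1082331758592, 17179869184)] :=
  Pool.Agent.helper14.QF.covD_F chks_eq (.n 1 (.n 0 (.n 1 (.n 1 (.l 3) (.l 3)) (.n 1 (.l 3) (.l 3))) (.n 1 (.n 1 (.l 3) (.l 3)) (.n 1 (.l 3) (.l 3)))) (.n 3 (.n 1 (.n 0 (.n 1 (.l 3) (.l 3)) (.n 1 (.l 3) (.l 3))) (.l 10)) (.l 13)))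
    [(52501680226304, 2473901162496), (377957122048, 68719476736), (987842478080, 8589934592), (1082331758592, 17179869184)] rfl (by decide +kernel)
end
mutual
theorem c32_50b_m11_t7 : CovD 0 progs [(52501680226304, 2473901162496), (377957122048, 68719476736), (1005022347264, 8589934592), (996432412672, 34359738368)] :=
  Pool.Agent.helper14.QF.covD_F chks_eq (.n 1 (.n 1 (.n 0 (.n 1 (.l 3) (.l 3)) (.n 1 (.l 3) (.n 0 (.l 3) (.l 3)))) (.n 3 (.l 10) (.n 0 (.n 1 (.l 3) (.l 3)) (.n 1 (.l 3) (.l 3))))) (.n 1 (.l 10) (.l 10)))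
    [(52501680226304, 2473901162496), (377957122048, 68719476736), (1005022347264, 8589934592), (996432412672, 34359738368)] rfl (by decide +kernel)
theorem c32_50b_m11_t8 : CovD 0 progs [(52501680226304, 2473901162496), (377957122048, 68719476736), (1005022347264, 8589934592), (1047972020224, 17179869184)] :=
  Pool.Agent.helper14.QF.covD_F chks_eq (.n 1 (.n 0 (.n 1 (.n 1 (.l 3) (.l 3)) (.n 1 (.l 3) (.l 3))) (.n 1 (.n 1 (.l 3) (.l 3)) (.n 1 (.l 3) (.l 3)))) (.n 1 (.n 1 (.n 0 (.l 3) (.n 0 (.l 3) (.l 3))) (.n 1 (.n 0 (.l 3) (.l 3)) (.l 10))) (.l 10)))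
    [(52501680226304, 2473901162496), (377957122048, 68719476736), (1005022347264, 8589934592), (1047972020224, 17179869184)] rfl (by decide +kernel)
end
mutual
theorem c32_50b_m11_t9 : CovD 0 progs [(52501680226304, 2473901162496), (377957122048, 68719476736), (1005022347264, 8589934592), (1082331758592, 17179869184)] :=
  Pool.Agent.helper14.QF.covD_F chks_eq (.n 1 (.n 0 (.n 1 (.n 1 (.l 3) (.l 3)) (.n 1 (.l 3) (.l 3))) (.n 1 (.n 1 (.l 3) (.l 3)) (.n 1 (.l 3) (.n 0 (.l 3) (.l 3))))) (.n 3 (.n 0 (.n 1 (.n 1 (.l 3) (.l 3)) (.n 1 (.l 3) (.n 0 (.l 3) (.l 3)))) (.n 1 (.n 1 (.l 3) (.l 3)) (.n 3 (.n 1 (.l 3) (.l 3)) (.l 13)))) (.l 13)))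
    [(52501680226304, 2473901162496), (377957122048, 68719476736), (1005022347264, 8589934592), (1082331758592, 17179869184)] rfl (by decide +kernel)
theorem c32_50b_m11_t12 : CovD 0 progs [(52501680226304, 2473901162496), (377957122048, 68719476736), (1022202216448, 8589934592), (996432412672, 34359738368)] :=
  Pool.Agent.helper14.QF.covD_F chks_eq (.n 1 (.n 0 (.n 1 (.n 1 (.l 3) (.l 3)) (.n 0 (.n 1 (.l 3) (.l 3)) (.n 1 (.l 3) (.l 3)))) (.n 1 (.n 1 (.l 3) (.n 0 (.l 3) (.l 3))) (.n 0 (.n 1 (.l 3) (.l 3)) (.n 1 (.l 3) (.l 3))))) (.n 1 (.n 1 (.n 1 (.n 0 (.l 3) (.l 3)) (.l 10)) (.l 10)) (.l 10)))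
    [(52501680226304, 2473901162496), (377957122048, 68719476736), (1022202216448, 8589934592), (996432412672, 34359738368)] rfl (by decide +kernel)
end
mutual
theorem c32_50b_m11_t13 : CovD 0 progs [(51264729645056, 1236950581248), (377957122048, 68719476736), (1022202216448, 8589934592), (1065151889408, 34359738368)] :=
  Pool.Agent.helper14.QF.covD_F chks_eq (.n 0 (.n 1 (.n 1 (.n 1 (.l 3) (.l 3)) (.n 1 (.l 3) (.l 3))) (.n 1 (.n 1 (.l 3) (.n 0 (.l 3) (.l 3))) (.n 1 (.n 0 (.l 3) (.l 3)) (.n 1 (.l 3) (.l 3))))) (.n 1 (.n 1 (.n 1 (.l 3) (.l 3)) (.n 1 (.l 3) (.l 3))) (.n 1 (.n 0 (.n 1 (.l 3) (.l 3)) (.n 1 (.l 3) (.l 3))) (.n 1 (.n 0 (.l 3) (.l 3)) (.n 1 (.l 3) (.l 3))))))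
    [(51264729645056, 1236950581248), (377957122048, 68719476736), (1022202216448, 8589934592), (1065151889408, 34359738368)] rfl (by decide +kernel)
theorem c32_50b_m11_t14 : CovD 0 progs [(53120155516928, 618475290624), (377957122048, 68719476736), (1022202216448, 8589934592), (1065151889408, 34359738368)] :=
  Pool.Agent.helper14.QF.covD_F chks_eq (.n 1 (.n 1 (.n 1 (.l 3) (.l 3)) (.n 1 (.l 3) (.l 3))) (.n 1 (.n 0 (.n 1 (.l 3) (.l 3)) (.n 1 (.l 3) (.l 3))) (.n 1 (.n 1 (.l 3) (.l 3)) (.n 1 (.l 3) (.l 3)))))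
    [(53120155516928, 618475290624), (377957122048, 68719476736), (1022202216448, 8589934592), (1065151889408, 34359738368)] rfl (by decide +kernel)
theorem c32_50b_m11_t15 : CovD 0 progs [(54357106098176, 618475290624), (377957122048, 68719476736), (1022202216448, 8589934592), (1065151889408, 34359738368)] :=
  Pool.Agent.helper14.QF.covD_F chks_eq (.n 1 (.n 1 (.n 1 (.l 3) (.l 3)) (.n 1 (.l 3) (.n 0 (.l 3) (.l 3)))) (.n 1 (.n 0 (.n 1 (.l 3) (.l 3)) (.n 1 (.l 3) (.l 3))) (.n 1 (.n 1 (.l 3) (.l 3)) (.n 1 (.l 3) (.l 3)))))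
    [(54357106098176, 618475290624), (377957122048, 68719476736), (1022202216448, 8589934592), (1065151889408, 34359738368)] rfl (by decide +kernel)
end
theorem c32_50b_m11_t4 : CovD 0 progs [(52501680226304, 2473901162496), (377957122048, 68719476736), (979252543488, 17179869184), (1082331758592, 17179869184)] :=
  covD_split 2 (by decide +kernel) c32_50b_m11_t2 c32_50b_m11_t3
theorem c32_50b_m11_t5 : CovD 0 progs [(52501680226304, 2473901162496), (377957122048, 68719476736), (979252543488, 17179869184), (1065151889408, 34359738368)] :=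
  covD_split 3 (by decide +kernel) c32_50b_m11_t1 c32_50b_m11_t4
theorem c32_50b_m11_t6 : CovD 0 progs [(52501680226304, 2473901162496), (377957122048, 68719476736), (979252543488, 17179869184), (1030792151040, 68719476736)] :=
  covD_split 3 (by decide +kernel) c32_50b_m11_t0 c32_50b_m11_t5
theorem c32_50b_m11_t10 : CovD 0 progs [(52501680226304, 2473901162496), (377957122048, 68719476736), (1005022347264, 8589934592), (1065151889408, 34359738368)] :=
  covD_split 3 (by decide +kernel) c32_50b_m11_t8 c32_50b_m11_t9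
theorem c32_50b_m11_t11 : CovD 0 progs [(52501680226304, 2473901162496), (377957122048, 68719476736), (1005022347264, 8589934592), (1030792151040, 68719476736)] :=
  covD_split 3 (by decide +kernel) c32_50b_m11_t7 c32_50b_m11_t10
theorem c32_50b_m11_t16 : CovD 0 progs [(53738630807552, 1236950581248), (377957122048, 68719476736), (1022202216448, 8589934592), (1065151889408, 34359738368)] :=
  covD_split 0 (by decide +kernel) c32_50b_m11_t14 c32_50b_m11_t15
theorem c32_50b_m11_t17 : CovD 0 progs [(52501680226304, 2473901162496), (377957122048, 68719476736), (1022202216448, 8589934592), (1065151889408, 34359738368)] :=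
  covD_split 0 (by decide +kernel) c32_50b_m11_t13 c32_50b_m11_t16
theorem c32_50b_m11_t18 : CovD 0 progs [(52501680226304, 2473901162496), (377957122048, 68719476736), (1022202216448, 8589934592), (1030792151040, 68719476736)] :=
  covD_split 3 (by decide +kernel) c32_50b_m11_t12 c32_50b_m11_t17
theorem c32_50b_m11_t19 : CovD 0 progs [(52501680226304, 2473901162496), (377957122048, 68719476736), (1013612281856, 17179869184), (1030792151040, 68719476736)] :=
  covD_split 2 (by decide +kernel) c32_50b_m11_t11 c32_50b_m11_t18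
theorem c32_50b_m11 : CovD 0 progs [(52501680226304, 2473901162496), (377957122048, 68719476736), (996432412672, 34359738368), (1030792151040, 68719476736)] :=
  covD_split 2 (by decide +kernel) c32_50b_m11_t6 c32_50b_m11_t19

end Pool.Agent.helper71.FG.Crt.L
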