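import Pool.Agent.helper71.FG.Crt.LP

/-!
Generated certificates.
-/

namespace Pool.Agent.helper71.FG.Crt.L

open Pool.Agent.helper31.IA (Z Op)
open Pool.Agent.helper31.IC

theorem c32_50b_m13 : CovD 0 progs [(45079976738816, 9895604649984), (515396075520, 68719476736), (274877906944, 274877906944), (549755813888, 549755813888)] :=
  Pool.Agent.helper14.QF.covD_F chks_eq (.n 3 (.n 2 (.l 10) (.n 3 (.l 10) (.l 10))) (.n 2 (.n 2 (.l 10) (.l 10)) (.n 2 (.n 2 (.l 10) (.n 3 (.l 10) (.l 10))) (.n 1 (.n 3 (.l 10) (.n 1 (.l 10) (.l 10))) (.n 3 (.l 10) (.n 2 (.l 10) (.l 10)))))))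
    [(45079976738816, 9895604649984), (515396075520, 68719476736), (274877906944, 274877906944), (549755813888, 549755813888)] rfl (by decide +kernel)

end Pool.Agent.helper71.FG.Crt.L
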