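import Pool.Agent.helper71.FG.Crt.LP

/-!
Generated certificates.
-/

namespace Pool.Agent.helper71.FG.Crt.L

open Pool.Agent.helper31.IA (Z Op)
open Pool.Agent.helper31.IC

mutual
theorem c32_50b_m16_t0 : CovD 0 progs [(50027779063808, 4947802324992), (481036337152, 34359738368), (962072674304, 137438953472), (274877906944, 274877906944)] :=
  Pool.Agent.helper14.QF.covD_F chks_eq (.n 3 (.l 10) (.n 2 (.l 15) (.l 15)))
    [(50027779063808, 4947802324992), (481036337152, 34359738368), (962072674304, 137438953472), (274877906944, 274877906944)] rfl (by decide +kernel)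
theorem c32_50b_m16_t1 : CovD 0 progs [(50027779063808, 4947802324992), (481036337152, 34359738368), (962072674304, 137438953472), (687194767360, 137438953472)] :=
  Pool.Agent.helper14.QF.covD_F chks_eq (.n 2 (.n 3 (.l 10) (.n 1 (.l 10) (.l 10))) (.n 3 (.l 10) (.n 1 (.l 10) (.l 10))))
    [(50027779063808, 4947802324992), (481036337152, 34359738368), (962072674304, 137438953472), (687194767360, 137438953472)] rfl (by decide +kernel)
end
mutual
theorem c32_50b_m16_t2 : CovD 0 progs [(50027779063808, 4947802324992), (481036337152, 34359738368), (893353197568, 68719476736), (962072674304, 137438953472)] :=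
  Pool.Agent.helper14.QF.covD_F chks_eq (.n 2 (.n 3 (.l 10) (.l 10)) (.n 3 (.l 10) (.n 1 (.l 10) (.l 10))))
    [(50027779063808, 4947802324992), (481036337152, 34359738368), (893353197568, 68719476736), (962072674304, 137438953472)] rfl (by decide +kernel)
theorem c32_50b_m16_t3 : CovD 0 progs [(50027779063808, 4947802324992), (481036337152, 34359738368), (996432412672, 34359738368), (962072674304, 137438953472)] :=
  Pool.Agent.helper14.QF.covD_F chks_eq (.n 1 (.n 1 (.n 3 (.l 10) (.n 3 (.l 10) (.n 2 (.l 10) (.n 3 (.l 10) (.l 13))))) (.n 3 (.l 10) (.n 3 (.l 10) (.n 3 (.l 10) (.l 13))))) (.n 3 (.l 10) (.n 3 (.l 10) (.n 3 (.l 10) (.l 13)))))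
    [(50027779063808, 4947802324992), (481036337152, 34359738368), (996432412672, 34359738368), (962072674304, 137438953472)] rfl (by decide +kernel)
end
mutual
theorem c32_50b_m16_t4 : CovD 0 progs [(50027779063808, 4947802324992), (455266533376, 8589934592), (1047972020224, 17179869184), (962072674304, 137438953472)] :=
  Pool.Agent.helper14.QF.covD_F chks_eq (.n 3 (.l 10) (.n 3 (.l 10) (.n 3 (.n 0 (.n 0 (.n 0 (.n 0 (.l 3) (.l 3)) (.n 0 (.l 3) (.l 3))) (.n 0 (.n 1 (.l 3) (.l 3)) (.n 1 (.l 3) (.l 3)))) (.n 0 (.n 0 (.n 1 (.l 3) (.l 3)) (.n 2 (.l 3) (.l 3))) (.n 0 (.n 2 (.l 5) (.l 3)) (.n 2 (.l 5) (.n 0 (.l 3) (.l 3)))))) (.l 13))))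
    [(50027779063808, 4947802324992), (455266533376, 8589934592), (1047972020224, 17179869184), (962072674304, 137438953472)] rfl (by decide +kernel)
theorem c32_50b_m16_t5 : CovD 0 progs [(50027779063808, 4947802324992), (472446402560, 8589934592), (1047972020224, 17179869184), (962072674304, 137438953472)] :=
  Pool.Agent.helper14.QF.covD_F chks_eq (.n 3 (.l 10) (.n 3 (.l 10) (.n 3 (.n 2 (.n 0 (.n 0 (.n 0 (.l 5) (.l 5)) (.n 0 (.l 5) (.l 5))) (.n 0 (.n 0 (.l 5) (.l 5)) (.n 3 (.l 10) (.n 0 (.l 5) (.l 5))))) (.n 0 (.n 0 (.n 0 (.l 3) (.l 3)) (.n 0 (.l 3) (.l 5))) (.n 0 (.n 0 (.l 5) (.n 0 (.l 5) (.l 5))) (.n 0 (.n 0 (.l 5) (.l 5)) (.n 0 (.l 5) (.l 5)))))) (.l 13))))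
    [(50027779063808, 4947802324992), (472446402560, 8589934592), (1047972020224, 17179869184), (962072674304, 137438953472)] rfl (by decide +kernel)
end
mutual
theorem c32_50b_m16_t7 : CovD 0 progs [(50027779063808, 4947802324992), (498216206336, 17179869184), (1039382085632, 8589934592), (962072674304, 137438953472)] :=
  Pool.Agent.helper14.QF.covD_F chks_eq (.n 2 (.n 3 (.l 10) (.n 3 (.l 10) (.n 3 (.l 10) (.l 13)))) (.n 3 (.l 10) (.n 3 (.l 10) (.n 3 (.n 3 (.l 10) (.n 3 (.l 10) (.l 13))) (.l 13)))))
    [(50027779063808, 4947802324992), (498216206336, 17179869184), (1039382085632, 8589934592), (962072674304, 137438953472)] rfl (by decide +kernel)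
theorem c32_50b_m16_t8 : CovD 0 progs [(50027779063808, 4947802324992), (498216206336, 17179869184), (1056561954816, 8589934592), (893353197568, 68719476736)] :=
  Pool.Agent.helper14.QF.covD_F chks_eq (.l 10)
    [(50027779063808, 4947802324992), (498216206336, 17179869184), (1056561954816, 8589934592), (893353197568, 68719476736)] rfl (by decide +kernel)
end
mutual
theorem c32_50b_m16_t9 : CovD 0 progs [(50027779063808, 4947802324992), (498216206336, 17179869184), (1056561954816, 8589934592), (996432412672, 34359738368)] :=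
  Pool.Agent.helper14.QF.covD_F chks_eq (.l 10)
    [(50027779063808, 4947802324992), (498216206336, 17179869184), (1056561954816, 8589934592), (996432412672, 34359738368)] rfl (by decide +kernel)
theorem c32_50b_m16_t10 : CovD 0 progs [(47553877901312, 2473901162496), (498216206336, 17179869184), (1056561954816, 8589934592), (1047972020224, 17179869184)] :=
  Pool.Agent.helper14.QF.covD_F chks_eq (.n 0 (.n 0 (.n 1 (.l 5) (.l 5)) (.n 1 (.l 5) (.l 5))) (.n 0 (.n 1 (.l 5) (.n 0 (.l 5) (.l 5))) (.n 1 (.l 5) (.n 0 (.l 5) (.l 5)))))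
    [(47553877901312, 2473901162496), (498216206336, 17179869184), (1056561954816, 8589934592), (1047972020224, 17179869184)] rfl (by decide +kernel)
end
mutual
theorem c32_50b_m16_t11 : CovD 0 progs [(52501680226304, 2473901162496), (498216206336, 17179869184), (1056561954816, 8589934592), (1047972020224, 17179869184)] :=
  Pool.Agent.helper14.QF.covD_F chks_eq (.n 0 (.n 0 (.n 0 (.n 1 (.l 5) (.l 5)) (.n 1 (.l 5) (.l 5))) (.n 0 (.n 1 (.l 5) (.l 5)) (.n 1 (.l 5) (.l 5)))) (.n 0 (.n 0 (.n 1 (.l 5) (.l 5)) (.n 1 (.l 5) (.l 5))) (.n 0 (.n 1 (.l 5) (.l 5)) (.n 1 (.l 5) (.l 5)))))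
    [(52501680226304, 2473901162496), (498216206336, 17179869184), (1056561954816, 8589934592), (1047972020224, 17179869184)] rfl (by decide +kernel)
theorem c32_50b_m16_t13 : CovD 0 progs [(50027779063808, 4947802324992), (498216206336, 17179869184), (1056561954816, 8589934592), (1082331758592, 17179869184)] :=
  Pool.Agent.helper14.QF.covD_F chks_eq (.l 13)
    [(50027779063808, 4947802324992), (498216206336, 17179869184), (1056561954816, 8589934592), (1082331758592, 17179869184)] rfl (by decide +kernel)
end
mutual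
theorem c32_50b_m16_t19 : CovD 0 progs [(50027779063808, 4947802324992), (463856467968, 17179869184), (1082331758592, 17179869184), (893353197568, 68719476736)] :=
  Pool.Agent.helper14.QF.covD_F chks_eq (.l 10)
    [(50027779063808, 4947802324992), (463856467968, 17179869184), (1082331758592, 17179869184), (893353197568, 68719476736)] rfl (by decide +kernel)
theorem c32_50b_m16_t20 : CovD 0 progs [(50027779063808, 4947802324992), (463856467968, 17179869184), (1073741824000, 8589934592), (996432412672, 34359738368)] :=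
  Pool.Agent.helper14.QF.covD_F chks_eq (.n 3 (.l 10) (.n 3 (.l 10) (.n 0 (.n 0 (.n 0 (.n 1 (.l 3) (.l 3)) (.n 1 (.l 3) (.l 5))) (.n 0 (.n 1 (.l 3) (.l 5)) (.n 1 (.l 3) (.l 5)))) (.n 0 (.n 0 (.n 1 (.l 3) (.l 5)) (.n 1 (.l 3) (.l 5))) (.n 0 (.n 1 (.l 3) (.l 5)) (.n 1 (.l 3) (.l 5)))))))
    [(50027779063808, 4947802324992), (463856467968, 17179869184), (1073741824000, 8589934592), (996432412672, 34359738368)] rfl (by decide +kernel)
end
mutual
theorem c32_50b_m16_t21 : CovD 0 progs [(50027779063808, 4947802324992), (463856467968, 17179869184), (1090921693184, 8589934592), (996432412672, 34359738368)] :=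
  Pool.Agent.helper14.QF.covD_F chks_eq (.n 3 (.l 10) (.n 0 (.n 0 (.n 0 (.n 1 (.l 3) (.l 5)) (.n 1 (.l 3) (.l 5))) (.n 0 (.n 1 (.l 3) (.l 5)) (.n 1 (.l 3) (.l 5)))) (.n 0 (.n 0 (.n 1 (.l 3) (.l 5)) (.n 1 (.l 3) (.n 0 (.l 5) (.l 5)))) (.n 0 (.n 0 (.n 1 (.l 3) (.l 5)) (.n 1 (.l 3) (.l 5))) (.n 0 (.n 1 (.l 3) (.l 5)) (.n 1 (.l 3) (.l 5)))))))
    [(50027779063808, 4947802324992), (463856467968, 17179869184), (1090921693184, 8589934592), (996432412672, 34359738368)] rfl (by decide +kernel)
theorem c32_50b_m16_t23 : CovD 0 progs [(47553877901312, 2473901162496), (463856467968, 17179869184), (1082331758592, 17179869184), (1047972020224, 17179869184)] :=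
  Pool.Agent.helper14.QF.covD_F chks_eq (.n 0 (.n 0 (.n 1 (.n 0 (.l 3) (.l 3)) (.n 1 (.l 3) (.l 3))) (.n 1 (.n 1 (.l 3) (.l 3)) (.n 1 (.l 3) (.l 3)))) (.n 0 (.n 1 (.n 1 (.l 3) (.l 3)) (.n 2 (.l 3) (.l 3))) (.n 1 (.n 1 (.l 3) (.l 3)) (.n 2 (.l 3) (.n 0 (.l 3) (.l 3))))))
    [(47553877901312, 2473901162496), (463856467968, 17179869184), (1082331758592, 17179869184), (1047972020224, 17179869184)] rfl (by decide +kernel)
end
mutual
theorem c32_50b_m16_t24 : CovD 0 progs [(51264729645056, 1236950581248), (463856467968, 17179869184), (1082331758592, 17179869184), (1047972020224, 17179869184)] :=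
  Pool.Agent.helper14.QF.covD_F chks_eq (.n 0 (.n 1 (.n 2 (.l 3) (.l 3)) (.n 0 (.n 1 (.l 3) (.l 3)) (.n 1 (.l 3) (.l 3)))) (.n 1 (.n 2 (.l 3) (.n 0 (.l 3) (.l 3))) (.n 0 (.n 1 (.l 3) (.l 3)) (.n 1 (.l 3) (.l 3)))))
    [(51264729645056, 1236950581248), (463856467968, 17179869184), (1082331758592, 17179869184), (1047972020224, 17179869184)] rfl (by decide +kernel)
theorem c32_50b_m16_t25 : CovD 0 progs [(53738630807552, 1236950581248), (463856467968, 17179869184), (1082331758592, 17179869184), (1047972020224, 17179869184)] :=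
  Pool.Agent.helper14.QF.covD_F chks_eq (.n 0 (.n 0 (.n 1 (.n 1 (.l 3) (.l 3)) (.n 1 (.l 3) (.l 3))) (.n 1 (.n 1 (.l 3) (.l 3)) (.n 1 (.l 3) (.l 3)))) (.n 0 (.n 1 (.n 1 (.l 3) (.l 3)) (.n 1 (.l 3) (.l 3))) (.n 1 (.n 1 (.l 3) (.l 3)) (.n 1 (.l 3) (.l 3)))))
    [(53738630807552, 1236950581248), (463856467968, 17179869184), (1082331758592, 17179869184), (1047972020224, 17179869184)] rfl (by decide +kernel)
end
mutual
theorem c32_50b_m16_t28 : CovD 0 progs [(50027779063808, 4947802324992), (463856467968, 17179869184), (1082331758592, 17179869184), (1082331758592, 17179869184)] :=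
  Pool.Agent.helper14.QF.covD_F chks_eq (.l 13)
    [(50027779063808, 4947802324992), (463856467968, 17179869184), (1082331758592, 17179869184), (1082331758592, 17179869184)] rfl (by decide +kernel)
theorem c32_50b_m16_t32 : CovD 0 progs [(50027779063808, 4947802324992), (498216206336, 17179869184), (1082331758592, 17179869184), (893353197568, 68719476736)] :=
  Pool.Agent.helper14.QF.covD_F chks_eq (.l 10)
    [(50027779063808, 4947802324992), (498216206336, 17179869184), (1082331758592, 17179869184), (893353197568, 68719476736)] rfl (by decide +kernel)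
end
mutual
theorem c32_50b_m16_t33 : CovD 0 progs [(50027779063808, 4947802324992), (498216206336, 17179869184), (1073741824000, 8589934592), (996432412672, 34359738368)] :=
  Pool.Agent.helper14.QF.covD_F chks_eq (.n 2 (.n 1 (.l 10) (.l 10)) (.n 3 (.l 10) (.n 1 (.n 0 (.n 0 (.n 0 (.l 5) (.l 5)) (.n 0 (.l 5) (.l 5))) (.n 0 (.n 0 (.l 5) (.l 5)) (.n 0 (.l 5) (.l 5)))) (.n 0 (.n 0 (.n 0 (.l 5) (.l 5)) (.n 0 (.l 5) (.l 5))) (.n 0 (.n 0 (.l 5) (.l 5)) (.n 0 (.l 5) (.l 5)))))))
    [(50027779063808, 4947802324992), (498216206336, 17179869184), (1073741824000, 8589934592), (996432412672, 34359738368)] rfl (by decide +kernel)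
theorem c32_50b_m16_t34 : CovD 0 progs [(50027779063808, 4947802324992), (498216206336, 17179869184), (1090921693184, 8589934592), (979252543488, 17179869184)] :=
  Pool.Agent.helper14.QF.covD_F chks_eq (.l 10)
    [(50027779063808, 4947802324992), (498216206336, 17179869184), (1090921693184, 8589934592), (979252543488, 17179869184)] rfl (by decide +kernel)
end
mutual
theorem c32_50b_m16_t35 : CovD 0 progs [(47553877901312, 2473901162496), (498216206336, 17179869184), (1090921693184, 8589934592), (1013612281856, 17179869184)] :=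
  Pool.Agent.helper14.QF.covD_F chks_eq (.n 0 (.n 0 (.n 1 (.l 5) (.l 5)) (.n 1 (.l 5) (.l 5))) (.n 0 (.n 1 (.l 5) (.n 0 (.l 5) (.l 5))) (.n 0 (.n 1 (.l 5) (.l 5)) (.n 1 (.l 5) (.l 5)))))
    [(47553877901312, 2473901162496), (498216206336, 17179869184), (1090921693184, 8589934592), (1013612281856, 17179869184)] rfl (by decide +kernel)
theorem c32_50b_m16_t36 : CovD 0 progs [(52501680226304, 2473901162496), (498216206336, 17179869184), (1090921693184, 8589934592), (1013612281856, 17179869184)] :=
  Pool.Agent.helper14.QF.covD_F chks_eq (.n 0 (.n 0 (.n 0 (.n 1 (.l 5) (.l 5)) (.n 1 (.l 5) (.l 5))) (.n 0 (.n 1 (.l 5) (.l 5)) (.n 1 (.l 5) (.l 5)))) (.n 0 (.n 0 (.n 1 (.l 5) (.l 5)) (.n 1 (.l 5) (.l 5))) (.n 0 (.n 1 (.l 5) (.l 5)) (.n 1 (.l 5) (.l 5)))))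
    [(52501680226304, 2473901162496), (498216206336, 17179869184), (1090921693184, 8589934592), (1013612281856, 17179869184)] rfl (by decide +kernel)
end
mutual
theorem c32_50b_m16_t40 : CovD 0 progs [(47553877901312, 2473901162496), (498216206336, 17179869184), (1073741824000, 8589934592), (1047972020224, 17179869184)] :=
  Pool.Agent.helper14.QF.covD_F chks_eq (.n 0 (.n 0 (.n 1 (.l 3) (.l 5)) (.n 1 (.l 5) (.n 0 (.l 5) (.l 5)))) (.n 0 (.n 1 (.l 5) (.n 0 (.l 5) (.l 5))) (.n 0 (.n 1 (.l 5) (.l 5)) (.n 1 (.l 5) (.l 5)))))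
    [(47553877901312, 2473901162496), (498216206336, 17179869184), (1073741824000, 8589934592), (1047972020224, 17179869184)] rfl (by decide +kernel)
theorem c32_50b_m16_t41 : CovD 0 progs [(52501680226304, 2473901162496), (498216206336, 17179869184), (1073741824000, 8589934592), (1047972020224, 17179869184)] :=
  Pool.Agent.helper14.QF.covD_F chks_eq (.n 0 (.n 0 (.n 0 (.n 1 (.l 5) (.l 5)) (.n 1 (.l 5) (.l 5))) (.n 0 (.n 1 (.l 5) (.l 5)) (.n 1 (.l 5) (.l 5)))) (.n 0 (.n 0 (.n 1 (.l 5) (.l 5)) (.n 1 (.l 5) (.l 5))) (.n 1 (.n 0 (.l 5) (.l 5)) (.n 1 (.l 5) (.l 5)))))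
    [(52501680226304, 2473901162496), (498216206336, 17179869184), (1073741824000, 8589934592), (1047972020224, 17179869184)] rfl (by decide +kernel)
end
mutual
theorem c32_50b_m16_t43 : CovD 0 progs [(50027779063808, 4947802324992), (498216206336, 17179869184), (1073741824000, 8589934592), (1082331758592, 17179869184)] :=
  Pool.Agent.helper14.QF.covD_F chks_eq (.l 13)
    [(50027779063808, 4947802324992), (498216206336, 17179869184), (1073741824000, 8589934592), (1082331758592, 17179869184)] rfl (by decide +kernel)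
theorem c32_50b_m16_t45 : CovD 0 progs [(47553877901312, 2473901162496), (498216206336, 17179869184), (1090921693184, 8589934592), (1047972020224, 17179869184)] :=
  Pool.Agent.helper14.QF.covD_F chks_eq (.n 0 (.n 0 (.n 1 (.l 3) (.n 0 (.l 3) (.l 3))) (.n 1 (.l 3) (.n 0 (.l 3) (.l 3)))) (.n 0 (.n 0 (.n 1 (.l 3) (.l 3)) (.n 1 (.l 3) (.l 3))) (.n 0 (.n 1 (.l 3) (.l 5)) (.n 1 (.l 3) (.l 5)))))
    [(47553877901312, 2473901162496), (498216206336, 17179869184), (1090921693184, 8589934592), (1047972020224, 17179869184)] rfl (by decide +kernel)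
end
mutual
theorem c32_50b_m16_t46 : CovD 0 progs [(52501680226304, 2473901162496), (498216206336, 17179869184), (1090921693184, 8589934592), (1047972020224, 17179869184)] :=
  Pool.Agent.helper14.QF.covD_F chks_eq (.n 0 (.n 0 (.n 0 (.n 1 (.l 3) (.l 5)) (.n 1 (.l 3) (.l 5))) (.n 0 (.n 1 (.l 3) (.l 5)) (.n 1 (.l 3) (.l 5)))) (.n 0 (.n 1 (.n 0 (.l 3) (.l 3)) (.n 1 (.l 3) (.l 5))) (.n 1 (.n 0 (.l 3) (.l 3)) (.n 1 (.l 3) (.l 5)))))
    [(52501680226304, 2473901162496), (498216206336, 17179869184), (1090921693184, 8589934592), (1047972020224, 17179869184)] rfl (by decide +kernel)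
theorem c32_50b_m16_t48 : CovD 0 progs [(50027779063808, 4947802324992), (498216206336, 17179869184), (1090921693184, 8589934592), (1082331758592, 17179869184)] :=
  Pool.Agent.helper14.QF.covD_F chks_eq (.l 13)
    [(50027779063808, 4947802324992), (498216206336, 17179869184), (1090921693184, 8589934592), (1082331758592, 17179869184)] rfl (by decide +kernel)
end
theorem c32_50b_m16_t6 : CovD 0 progs [(50027779063808, 4947802324992), (463856467968, 17179869184), (1047972020224, 17179869184), (962072674304, 137438953472)] :=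
  covD_split 1 (by decide +kernel) c32_50b_m16_t4 c32_50b_m16_t5
theorem c32_50b_m16_t12 : CovD 0 progs [(50027779063808, 4947802324992), (498216206336, 17179869184), (1056561954816, 8589934592), (1047972020224, 17179869184)] :=
  covD_split 0 (by decide +kernel) c32_50b_m16_t10 c32_50b_m16_t11
theorem c32_50b_m16_t14 : CovD 0 progs [(50027779063808, 4947802324992), (498216206336, 17179869184), (1056561954816, 8589934592), (1065151889408, 34359738368)] :=
  covD_split 3 (by decide +kernel) c32_50b_m16_t12 c32_50b_m16_t13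
theorem c32_50b_m16_t15 : CovD 0 progs [(50027779063808, 4947802324992), (498216206336, 17179869184), (1056561954816, 8589934592), (1030792151040, 68719476736)] :=
  covD_split 3 (by decide +kernel) c32_50b_m16_t9 c32_50b_m16_t14
theorem c32_50b_m16_t16 : CovD 0 progs [(50027779063808, 4947802324992), (498216206336, 17179869184), (1056561954816, 8589934592), (962072674304, 137438953472)] :=
  covD_split 3 (by decide +kernel) c32_50b_m16_t8 c32_50b_m16_t15
theorem c32_50b_m16_t17 : CovD 0 progs [(50027779063808, 4947802324992), (498216206336, 17179869184), (1047972020224, 17179869184), (962072674304, 137438953472)] :=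
  covD_split 2 (by decide +kernel) c32_50b_m16_t7 c32_50b_m16_t16
theorem c32_50b_m16_t18 : CovD 0 progs [(50027779063808, 4947802324992), (481036337152, 34359738368), (1047972020224, 17179869184), (962072674304, 137438953472)] :=
  covD_split 1 (by decide +kernel) c32_50b_m16_t6 c32_50b_m16_t17
theorem c32_50b_m16_t22 : CovD 0 progs [(50027779063808, 4947802324992), (463856467968, 17179869184), (1082331758592, 17179869184), (996432412672, 34359738368)] :=
  covD_split 2 (by decide +kernel) c32_50b_m16_t20 c32_50b_m16_t21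
theorem c32_50b_m16_t26 : CovD 0 progs [(52501680226304, 2473901162496), (463856467968, 17179869184), (1082331758592, 17179869184), (1047972020224, 17179869184)] :=
  covD_split 0 (by decide +kernel) c32_50b_m16_t24 c32_50b_m16_t25
theorem c32_50b_m16_t27 : CovD 0 progs [(50027779063808, 4947802324992), (463856467968, 17179869184), (1082331758592, 17179869184), (1047972020224, 17179869184)] :=
  covD_split 0 (by decide +kernel) c32_50b_m16_t23 c32_50b_m16_t26
theorem c32_50b_m16_t29 : CovD 0 progs [(50027779063808, 4947802324992), (463856467968, 17179869184), (1082331758592, 17179869184), (1065151889408, 34359738368)] :=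
  covD_split 3 (by decide +kernel) c32_50b_m16_t27 c32_50b_m16_t28
theorem c32_50b_m16_t30 : CovD 0 progs [(50027779063808, 4947802324992), (463856467968, 17179869184), (1082331758592, 17179869184), (1030792151040, 68719476736)] :=
  covD_split 3 (by decide +kernel) c32_50b_m16_t22 c32_50b_m16_t29
theorem c32_50b_m16_t31 : CovD 0 progs [(50027779063808, 4947802324992), (463856467968, 17179869184), (1082331758592, 17179869184), (962072674304, 137438953472)] :=
  covD_split 3 (by decide +kernel) c32_50b_m16_t19 c32_50b_m16_t30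
theorem c32_50b_m16_t37 : CovD 0 progs [(50027779063808, 4947802324992), (498216206336, 17179869184), (1090921693184, 8589934592), (1013612281856, 17179869184)] :=
  covD_split 0 (by decide +kernel) c32_50b_m16_t35 c32_50b_m16_t36
theorem c32_50b_m16_t38 : CovD 0 progs [(50027779063808, 4947802324992), (498216206336, 17179869184), (1090921693184, 8589934592), (996432412672, 34359738368)] :=
  covD_split 3 (by decide +kernel) c32_50b_m16_t34 c32_50b_m16_t37
theorem c32_50b_m16_t39 : CovD 0 progs [(50027779063808, 4947802324992), (498216206336, 17179869184), (1082331758592, 17179869184), (996432412672, 34359738368)] :=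
  covD_split 2 (by decide +kernel) c32_50b_m16_t33 c32_50b_m16_t38
theorem c32_50b_m16_t42 : CovD 0 progs [(50027779063808, 4947802324992), (498216206336, 17179869184), (1073741824000, 8589934592), (1047972020224, 17179869184)] :=
  covD_split 0 (by decide +kernel) c32_50b_m16_t40 c32_50b_m16_t41
theorem c32_50b_m16_t44 : CovD 0 progs [(50027779063808, 4947802324992), (498216206336, 17179869184), (1073741824000, 8589934592), (1065151889408, 34359738368)] :=
  covD_split 3 (by decide +kernel) c32_50b_m16_t42 c32_50b_m16_t43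
theorem c32_50b_m16_t47 : CovD 0 progs [(50027779063808, 4947802324992), (498216206336, 17179869184), (1090921693184, 8589934592), (1047972020224, 17179869184)] :=
  covD_split 0 (by decide +kernel) c32_50b_m16_t45 c32_50b_m16_t46
theorem c32_50b_m16_t49 : CovD 0 progs [(50027779063808, 4947802324992), (498216206336, 17179869184), (1090921693184, 8589934592), (1065151889408, 34359738368)] :=
  covD_split 3 (by decide +kernel) c32_50b_m16_t47 c32_50b_m16_t48
theorem c32_50b_m16_t50 : CovD 0 progs [(50027779063808, 4947802324992), (498216206336, 17179869184), (1082331758592, 17179869184), (1065151889408, 34359738368)] :=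
  covD_split 2 (by decide +kernel) c32_50b_m16_t44 c32_50b_m16_t49
theorem c32_50b_m16_t51 : CovD 0 progs [(50027779063808, 4947802324992), (498216206336, 17179869184), (1082331758592, 17179869184), (1030792151040, 68719476736)] :=
  covD_split 3 (by decide +kernel) c32_50b_m16_t39 c32_50b_m16_t50
theorem c32_50b_m16_t52 : CovD 0 progs [(50027779063808, 4947802324992), (498216206336, 17179869184), (1082331758592, 17179869184), (962072674304, 137438953472)] :=
  covD_split 3 (by decide +kernel) c32_50b_m16_t32 c32_50b_m16_t51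
theorem c32_50b_m16_t53 : CovD 0 progs [(50027779063808, 4947802324992), (481036337152, 34359738368), (1082331758592, 17179869184), (962072674304, 137438953472)] :=
  covD_split 1 (by decide +kernel) c32_50b_m16_t31 c32_50b_m16_t52
theorem c32_50b_m16_t54 : CovD 0 progs [(50027779063808, 4947802324992), (481036337152, 34359738368), (1065151889408, 34359738368), (962072674304, 137438953472)] :=
  covD_split 2 (by decide +kernel) c32_50b_m16_t18 c32_50b_m16_t53
theorem c32_50b_m16_t55 : CovD 0 progs [(50027779063808, 4947802324992), (481036337152, 34359738368), (1030792151040, 68719476736), (962072674304, 137438953472)] :=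
  covD_split 2 (by decide +kernel) c32_50b_m16_t3 c32_50b_m16_t54
theorem c32_50b_m16_t56 : CovD 0 progs [(50027779063808, 4947802324992), (481036337152, 34359738368), (962072674304, 137438953472), (962072674304, 137438953472)] :=
  covD_split 2 (by decide +kernel) c32_50b_m16_t2 c32_50b_m16_t55
theorem c32_50b_m16_t57 : CovD 0 progs [(50027779063808, 4947802324992), (481036337152, 34359738368), (962072674304, 137438953472), (824633720832, 274877906944)] :=
  covD_split 3 (by decide +kernel) c32_50b_m16_t1 c32_50b_m16_t56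
theorem c32_50b_m16 : CovD 0 progs [(50027779063808, 4947802324992), (481036337152, 34359738368), (962072674304, 137438953472), (549755813888, 549755813888)] :=
  covD_split 3 (by decide +kernel) c32_50b_m16_t0 c32_50b_m16_t57

end Pool.Agent.helper71.FG.Crt.L
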