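import Pool.Agent.helper71.FG.Crt.LP

/-!
Generated certificates.
-/

namespace Pool.Agent.helper71.FG.Crt.L

open Pool.Agent.helper31.IA (Z Op)
open Pool.Agent.helper31.IC

mutual
theorem c32_50b_m17_t0 : CovD 0 progs [(50027779063808, 4947802324992), (549755813888, 34359738368), (893353197568, 68719476736), (549755813888, 549755813888)] :=
  Pool.Agent.helper14.QF.covD_F chks_eq (.n 0 (.n 3 (.l 15) (.n 3 (.n 3 (.l 10) (.n 0 (.l 15) (.l 15))) (.n 2 (.n 3 (.l 10) (.n 1 (.l 10) (.l 10))) (.n 1 (.n 3 (.l 10) (.l 10)) (.n 3 (.l 10) (.l 10)))))) (.n 3 (.l 15) (.n 1 (.n 2 (.n 3 (.l 15) (.n 3 (.l 10) (.l 10))) (.n 3 (.l 15) (.n 3 (.l 10) (.l 10)))) (.n 2 (.n 3 (.l 15) (.n 3 (.l 10) (.l 10))) (.n 3 (.l 15) (.n 3 (.l 10) (.l 10)))))))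
    [(50027779063808, 4947802324992), (549755813888, 34359738368), (893353197568, 68719476736), (549755813888, 549755813888)] rfl (by decide +kernel)
theorem c32_50b_m17_t1 : CovD 0 progs [(50027779063808, 4947802324992), (549755813888, 34359738368), (996432412672, 34359738368), (549755813888, 549755813888)] :=
  Pool.Agent.helper14.QF.covD_F chks_eq (.n 2 (.n 3 (.l 15) (.n 3 (.n 3 (.l 10) (.l 10)) (.n 3 (.l 10) (.n 1 (.l 10) (.l 10))))) (.n 3 (.l 15) (.n 3 (.n 3 (.l 10) (.l 10)) (.n 3 (.l 10) (.n 3 (.l 10) (.n 3 (.l 10) (.l 13)))))))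
    [(50027779063808, 4947802324992), (549755813888, 34359738368), (996432412672, 34359738368), (549755813888, 549755813888)] rfl (by decide +kernel)
end
mutual
theorem c32_50b_m17_t2 : CovD 0 progs [(50027779063808, 4947802324992), (549755813888, 34359738368), (1039382085632, 8589934592), (549755813888, 549755813888)] :=
  Pool.Agent.helper14.QF.covD_F chks_eq (.n 3 (.l 15) (.n 3 (.n 3 (.l 10) (.l 10)) (.n 3 (.l 10) (.n 3 (.l 10) (.n 3 (.n 3 (.l 10) (.n 3 (.l 10) (.l 13))) (.l 13))))))
    [(50027779063808, 4947802324992), (549755813888, 34359738368), (1039382085632, 8589934592), (549755813888, 549755813888)] rfl (by decide +kernel)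
theorem c32_50b_m17_t3 : CovD 0 progs [(47553877901312, 2473901162496), (549755813888, 34359738368), (1056561954816, 8589934592), (274877906944, 274877906944)] :=
  Pool.Agent.helper14.QF.covD_F chks_eq (.l 15)
    [(47553877901312, 2473901162496), (549755813888, 34359738368), (1056561954816, 8589934592), (274877906944, 274877906944)] rfl (by decide +kernel)
end
mutual
theorem c32_50b_m17_t4 : CovD 0 progs [(47553877901312, 2473901162496), (549755813888, 34359738368), (1056561954816, 8589934592), (687194767360, 137438953472)] :=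
  Pool.Agent.helper14.QF.covD_F chks_eq (.n 1 (.l 15) (.l 15))
    [(47553877901312, 2473901162496), (549755813888, 34359738368), (1056561954816, 8589934592), (687194767360, 137438953472)] rfl (by decide +kernel)
theorem c32_50b_m17_t5 : CovD 0 progs [(47553877901312, 2473901162496), (549755813888, 34359738368), (1056561954816, 8589934592), (893353197568, 68719476736)] :=
  Pool.Agent.helper14.QF.covD_F chks_eq (.l 10)
    [(47553877901312, 2473901162496), (549755813888, 34359738368), (1056561954816, 8589934592), (893353197568, 68719476736)] rfl (by decide +kernel)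
end
mutual
theorem c32_50b_m17_t6 : CovD 0 progs [(47553877901312, 2473901162496), (549755813888, 34359738368), (1056561954816, 8589934592), (1030792151040, 68719476736)] :=
  Pool.Agent.helper14.QF.covD_F chks_eq (.n 3 (.l 10) (.n 3 (.n 3 (.n 0 (.n 0 (.n 1 (.n 1 (.l 5) (.l 5)) (.n 1 (.l 5) (.l 5))) (.n 1 (.n 1 (.l 5) (.l 5)) (.n 1 (.l 5) (.l 5)))) (.n 0 (.n 1 (.n 1 (.l 5) (.l 5)) (.n 1 (.l 5) (.l 5))) (.n 1 (.n 1 (.l 5) (.l 5)) (.n 1 (.l 5) (.l 5))))) (.n 1 (.n 1 (.n 0 (.n 0 (.l 5) (.l 5)) (.n 0 (.l 5) (.l 5))) (.l 13)) (.l 13))) (.l 13)))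
    [(47553877901312, 2473901162496), (549755813888, 34359738368), (1056561954816, 8589934592), (1030792151040, 68719476736)] rfl (by decide +kernel)
theorem c32_50b_m17_t10 : CovD 0 progs [(52501680226304, 2473901162496), (549755813888, 34359738368), (1056561954816, 8589934592), (274877906944, 274877906944)] :=
  Pool.Agent.helper14.QF.covD_F chks_eq (.l 15)
    [(52501680226304, 2473901162496), (549755813888, 34359738368), (1056561954816, 8589934592), (274877906944, 274877906944)] rfl (by decide +kernel)
end
mutual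
theorem c32_50b_m17_t11 : CovD 0 progs [(52501680226304, 2473901162496), (549755813888, 34359738368), (1056561954816, 8589934592), (687194767360, 137438953472)] :=
  Pool.Agent.helper14.QF.covD_F chks_eq (.n 1 (.l 15) (.l 15))
    [(52501680226304, 2473901162496), (549755813888, 34359738368), (1056561954816, 8589934592), (687194767360, 137438953472)] rfl (by decide +kernel)
theorem c32_50b_m17_t12 : CovD 0 progs [(52501680226304, 2473901162496), (549755813888, 34359738368), (1056561954816, 8589934592), (893353197568, 68719476736)] :=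
  Pool.Agent.helper14.QF.covD_F chks_eq (.l 10)
    [(52501680226304, 2473901162496), (549755813888, 34359738368), (1056561954816, 8589934592), (893353197568, 68719476736)] rfl (by decide +kernel)
end
mutual
theorem c32_50b_m17_t13 : CovD 0 progs [(52501680226304, 2473901162496), (549755813888, 34359738368), (1056561954816, 8589934592), (1030792151040, 68719476736)] :=
  Pool.Agent.helper14.QF.covD_F chks_eq (.n 3 (.l 10) (.n 1 (.n 1 (.n 3 (.n 0 (.n 0 (.n 0 (.l 5) (.l 5)) (.n 0 (.l 5) (.l 5))) (.n 0 (.n 0 (.l 5) (.l 5)) (.n 1 (.l 5) (.l 5)))) (.l 13)) (.n 3 (.n 3 (.n 0 (.n 0 (.l 5) (.l 5)) (.n 0 (.l 5) (.n 0 (.l 5) (.l 5)))) (.l 13)) (.l 13))) (.n 3 (.n 2 (.n 3 (.l 10) (.l 13)) (.n 3 (.n 3 (.l 10) (.n 3 (.l 10) (.l 13))) (.l 13))) (.l 13))))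
    [(52501680226304, 2473901162496), (549755813888, 34359738368), (1056561954816, 8589934592), (1030792151040, 68719476736)] rfl (by decide +kernel)
theorem c32_50b_m17_t19 : CovD 0 progs [(50027779063808, 4947802324992), (549755813888, 34359738368), (1082331758592, 17179869184), (274877906944, 274877906944)] :=
  Pool.Agent.helper14.QF.covD_F chks_eq (.l 15)
    [(50027779063808, 4947802324992), (549755813888, 34359738368), (1082331758592, 17179869184), (274877906944, 274877906944)] rfl (by decide +kernel)
end
mutual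
theorem c32_50b_m17_t20 : CovD 0 progs [(50027779063808, 4947802324992), (549755813888, 34359738368), (1082331758592, 17179869184), (687194767360, 137438953472)] :=
  Pool.Agent.helper14.QF.covD_F chks_eq (.n 3 (.l 10) (.l 10))
    [(50027779063808, 4947802324992), (549755813888, 34359738368), (1082331758592, 17179869184), (687194767360, 137438953472)] rfl (by decide +kernel)
theorem c32_50b_m17_t21 : CovD 0 progs [(50027779063808, 4947802324992), (532575944704, 17179869184), (1082331758592, 17179869184), (893353197568, 68719476736)] :=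
  Pool.Agent.helper14.QF.covD_F chks_eq (.l 10)
    [(50027779063808, 4947802324992), (532575944704, 17179869184), (1082331758592, 17179869184), (893353197568, 68719476736)] rfl (by decide +kernel)
end
mutual
theorem c32_50b_m17_t22 : CovD 0 progs [(50027779063808, 4947802324992), (532575944704, 17179869184), (1073741824000, 8589934592), (996432412672, 34359738368)] :=
  Pool.Agent.helper14.QF.covD_F chks_eq (.n 2 (.l 10) (.n 2 (.n 1 (.l 10) (.l 10)) (.n 3 (.l 10) (.n 3 (.l 10) (.n 3 (.l 10) (.n 0 (.n 0 (.n 1 (.l 5) (.l 5)) (.n 1 (.l 5) (.l 5))) (.n 0 (.n 1 (.l 5) (.l 5)) (.n 1 (.l 5) (.n 0 (.l 5) (.l 5))))))))))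
    [(50027779063808, 4947802324992), (532575944704, 17179869184), (1073741824000, 8589934592), (996432412672, 34359738368)] rfl (by decide +kernel)
theorem c32_50b_m17_t23 : CovD 0 progs [(50027779063808, 4947802324992), (532575944704, 17179869184), (1090921693184, 8589934592), (996432412672, 34359738368)] :=
  Pool.Agent.helper14.QF.covD_F chks_eq (.n 1 (.n 3 (.l 10) (.n 3 (.n 1 (.l 10) (.l 10)) (.n 0 (.n 0 (.n 0 (.l 5) (.l 5)) (.n 0 (.l 5) (.l 5))) (.n 0 (.n 0 (.l 5) (.l 5)) (.n 0 (.l 5) (.l 5)))))) (.n 3 (.l 10) (.n 3 (.l 10) (.n 0 (.n 0 (.n 0 (.l 5) (.l 5)) (.n 0 (.l 5) (.l 5))) (.n 0 (.n 0 (.l 5) (.l 5)) (.n 0 (.n 0 (.l 5) (.l 5)) (.n 0 (.l 5) (.l 5))))))))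
    [(50027779063808, 4947802324992), (532575944704, 17179869184), (1090921693184, 8589934592), (996432412672, 34359738368)] rfl (by decide +kernel)
end
mutual
theorem c32_50b_m17_t25 : CovD 0 progs [(50027779063808, 4947802324992), (523986010112, 8589934592), (1073741824000, 8589934592), (1065151889408, 34359738368)] :=
  Pool.Agent.helper14.QF.covD_F chks_eq (.n 3 (.n 3 (.n 0 (.n 0 (.n 0 (.l 5) (.l 5)) (.n 0 (.l 5) (.l 5))) (.n 0 (.n 0 (.l 5) (.l 5)) (.n 0 (.l 5) (.l 5)))) (.n 2 (.n 1 (.n 0 (.n 0 (.l 5) (.l 5)) (.n 0 (.l 5) (.l 5))) (.l 13)) (.l 13))) (.l 13))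
    [(50027779063808, 4947802324992), (523986010112, 8589934592), (1073741824000, 8589934592), (1065151889408, 34359738368)] rfl (by decide +kernel)
theorem c32_50b_m17_t26 : CovD 0 progs [(50027779063808, 4947802324992), (541165879296, 8589934592), (1073741824000, 8589934592), (1065151889408, 34359738368)] :=
  Pool.Agent.helper14.QF.covD_F chks_eq (.n 3 (.n 3 (.n 0 (.n 0 (.n 0 (.l 5) (.l 5)) (.n 0 (.l 5) (.l 5))) (.n 0 (.n 0 (.l 5) (.l 5)) (.n 0 (.n 0 (.l 5) (.l 5)) (.n 0 (.l 5) (.l 5))))) (.l 13)) (.l 13))
    [(50027779063808, 4947802324992), (541165879296, 8589934592), (1073741824000, 8589934592), (1065151889408, 34359738368)] rfl (by decide +kernel)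
end
mutual
theorem c32_50b_m17_t28 : CovD 0 progs [(50027779063808, 4947802324992), (532575944704, 17179869184), (1090921693184, 8589934592), (1065151889408, 34359738368)] :=
  Pool.Agent.helper14.QF.covD_F chks_eq (.n 3 (.n 3 (.n 0 (.n 0 (.n 0 (.n 1 (.l 5) (.l 5)) (.n 1 (.l 5) (.l 5))) (.n 0 (.n 1 (.l 5) (.l 5)) (.n 1 (.l 5) (.l 5)))) (.n 0 (.n 0 (.n 1 (.l 5) (.l 5)) (.n 1 (.l 5) (.n 0 (.l 5) (.l 5)))) (.n 0 (.n 1 (.l 5) (.n 0 (.l 5) (.l 5))) (.n 0 (.n 1 (.l 5) (.l 5)) (.n 1 (.l 5) (.l 5)))))) (.l 13)) (.l 12))
    [(50027779063808, 4947802324992), (532575944704, 17179869184), (1090921693184, 8589934592), (1065151889408, 34359738368)] rfl (by decide +kernel)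
theorem c32_50b_m17_t32 : CovD 0 progs [(50027779063808, 4947802324992), (566935683072, 17179869184), (1082331758592, 17179869184), (893353197568, 68719476736)] :=
  Pool.Agent.helper14.QF.covD_F chks_eq (.l 10)
    [(50027779063808, 4947802324992), (566935683072, 17179869184), (1082331758592, 17179869184), (893353197568, 68719476736)] rfl (by decide +kernel)
end
mutual
theorem c32_50b_m17_t33 : CovD 0 progs [(50027779063808, 4947802324992), (566935683072, 17179869184), (1073741824000, 8589934592), (996432412672, 34359738368)] :=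
  Pool.Agent.helper14.QF.covD_F chks_eq (.n 2 (.l 10) (.n 3 (.l 10) (.n 3 (.l 10) (.n 0 (.n 0 (.n 0 (.n 1 (.l 5) (.l 5)) (.n 1 (.l 5) (.l 5))) (.n 0 (.n 1 (.l 5) (.l 5)) (.n 1 (.l 5) (.l 5)))) (.n 0 (.n 0 (.n 1 (.l 5) (.l 5)) (.n 1 (.l 5) (.l 5))) (.n 0 (.n 1 (.l 5) (.l 5)) (.n 1 (.l 5) (.l 5))))))))
    [(50027779063808, 4947802324992), (566935683072, 17179869184), (1073741824000, 8589934592), (996432412672, 34359738368)] rfl (by decide +kernel)
theorem c32_50b_m17_t34 : CovD 0 progs [(50027779063808, 4947802324992), (558345748480, 8589934592), (1090921693184, 8589934592), (996432412672, 34359738368)] :=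
  Pool.Agent.helper14.QF.covD_F chks_eq (.n 3 (.l 10) (.n 3 (.l 10) (.n 0 (.n 0 (.n 0 (.l 5) (.l 5)) (.n 0 (.l 5) (.l 5))) (.n 0 (.n 0 (.l 5) (.n 0 (.l 5) (.l 5))) (.n 0 (.n 0 (.l 5) (.l 5)) (.n 0 (.l 5) (.l 5)))))))
    [(50027779063808, 4947802324992), (558345748480, 8589934592), (1090921693184, 8589934592), (996432412672, 34359738368)] rfl (by decide +kernel)
end
mutual
theorem c32_50b_m17_t35 : CovD 0 progs [(50027779063808, 4947802324992), (575525617664, 8589934592), (1090921693184, 8589934592), (996432412672, 34359738368)] :=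
  Pool.Agent.helper14.QF.covD_F chks_eq (.n 3 (.l 10) (.n 0 (.n 0 (.n 0 (.n 0 (.l 5) (.l 5)) (.n 0 (.l 5) (.l 5))) (.n 0 (.n 0 (.l 5) (.l 5)) (.n 1 (.l 5) (.l 5)))) (.n 0 (.n 0 (.n 1 (.l 5) (.l 5)) (.n 1 (.l 5) (.n 0 (.l 5) (.l 5)))) (.n 2 (.n 3 (.l 10) (.n 0 (.l 5) (.l 5))) (.n 0 (.n 0 (.l 5) (.l 5)) (.n 0 (.l 5) (.l 5)))))))
    [(50027779063808, 4947802324992), (575525617664, 8589934592), (1090921693184, 8589934592), (996432412672, 34359738368)] rfl (by decide +kernel)
theorem c32_50b_m17_t38 : CovD 0 progs [(50027779063808, 4947802324992), (558345748480, 8589934592), (1082331758592, 17179869184), (1039382085632, 8589934592)] :=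
  Pool.Agent.helper14.QF.covD_F chks_eq (.n 0 (.n 0 (.n 0 (.n 0 (.l 14) (.l 14)) (.n 1 (.l 14) (.l 14))) (.n 0 (.n 1 (.l 14) (.l 14)) (.n 2 (.l 5) (.l 5)))) (.n 0 (.n 0 (.n 2 (.l 5) (.n 0 (.l 5) (.l 5))) (.n 0 (.n 1 (.l 5) (.l 5)) (.n 1 (.l 5) (.l 5)))) (.n 0 (.n 0 (.n 1 (.l 5) (.l 5)) (.n 1 (.l 5) (.l 5))) (.n 0 (.n 1 (.l 5) (.l 5)) (.n 1 (.l 5) (.l 5))))))
    [(50027779063808, 4947802324992), (558345748480, 8589934592), (1082331758592, 17179869184), (1039382085632, 8589934592)] rfl (by decide +kernel)
end
mutual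
theorem c32_50b_m17_t39 : CovD 0 progs [(50027779063808, 4947802324992), (575525617664, 8589934592), (1082331758592, 17179869184), (1039382085632, 8589934592)] :=
  Pool.Agent.helper14.QF.covD_F chks_eq (.n 3 (.n 0 (.n 0 (.n 0 (.n 0 (.l 5) (.l 5)) (.n 0 (.l 14) (.l 14))) (.n 0 (.n 0 (.l 14) (.l 14)) (.n 0 (.l 14) (.l 14)))) (.n 0 (.n 0 (.n 0 (.l 14) (.l 14)) (.n 1 (.l 14) (.l 14))) (.n 0 (.n 1 (.l 14) (.l 14)) (.n 2 (.l 5) (.l 5))))) (.l 13))
    [(50027779063808, 4947802324992), (575525617664, 8589934592), (1082331758592, 17179869184), (1039382085632, 8589934592)] rfl (by decide +kernel)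
theorem c32_50b_m17_t41 : CovD 0 progs [(50027779063808, 4947802324992), (566935683072, 17179869184), (1082331758592, 17179869184), (1056561954816, 8589934592)] :=
  Pool.Agent.helper14.QF.covD_F chks_eq (.l 13)
    [(50027779063808, 4947802324992), (566935683072, 17179869184), (1082331758592, 17179869184), (1056561954816, 8589934592)] rfl (by decide +kernel)
theorem c32_50b_m17_t43 : CovD 0 progs [(50027779063808, 4947802324992), (566935683072, 17179869184), (1082331758592, 17179869184), (1082331758592, 17179869184)] :=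
  Pool.Agent.helper14.QF.covD_F chks_eq (.l 13)
    [(50027779063808, 4947802324992), (566935683072, 17179869184), (1082331758592, 17179869184), (1082331758592, 17179869184)] rfl (by decide +kernel)
end
theorem c32_50b_m17_t7 : CovD 0 progs [(47553877901312, 2473901162496), (549755813888, 34359738368), (1056561954816, 8589934592), (962072674304, 137438953472)] :=
  covD_split 3 (by decide +kernel) c32_50b_m17_t5 c32_50b_m17_t6
theorem c32_50b_m17_t8 : CovD 0 progs [(47553877901312, 2473901162496), (549755813888, 34359738368), (1056561954816, 8589934592), (824633720832, 274877906944)] :=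
  covD_split 3 (by decide +kernel) c32_50b_m17_t4 c32_50b_m17_t7
theorem c32_50b_m17_t9 : CovD 0 progs [(47553877901312, 2473901162496), (549755813888, 34359738368), (1056561954816, 8589934592), (549755813888, 549755813888)] :=
  covD_split 3 (by decide +kernel) c32_50b_m17_t3 c32_50b_m17_t8
theorem c32_50b_m17_t14 : CovD 0 progs [(52501680226304, 2473901162496), (549755813888, 34359738368), (1056561954816, 8589934592), (962072674304, 137438953472)] :=
  covD_split 3 (by decide +kernel) c32_50b_m17_t12 c32_50b_m17_t13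
theorem c32_50b_m17_t15 : CovD 0 progs [(52501680226304, 2473901162496), (549755813888, 34359738368), (1056561954816, 8589934592), (824633720832, 274877906944)] :=
  covD_split 3 (by decide +kernel) c32_50b_m17_t11 c32_50b_m17_t14
theorem c32_50b_m17_t16 : CovD 0 progs [(52501680226304, 2473901162496), (549755813888, 34359738368), (1056561954816, 8589934592), (549755813888, 549755813888)] :=
  covD_split 3 (by decide +kernel) c32_50b_m17_t10 c32_50b_m17_t15
theorem c32_50b_m17_t17 : CovD 0 progs [(50027779063808, 4947802324992), (549755813888, 34359738368), (1056561954816, 8589934592), (549755813888, 549755813888)] :=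
  covD_split 0 (by decide +kernel) c32_50b_m17_t9 c32_50b_m17_t16
theorem c32_50b_m17_t18 : CovD 0 progs [(50027779063808, 4947802324992), (549755813888, 34359738368), (1047972020224, 17179869184), (549755813888, 549755813888)] :=
  covD_split 2 (by decide +kernel) c32_50b_m17_t2 c32_50b_m17_t17
theorem c32_50b_m17_t24 : CovD 0 progs [(50027779063808, 4947802324992), (532575944704, 17179869184), (1082331758592, 17179869184), (996432412672, 34359738368)] :=
  covD_split 2 (by decide +kernel) c32_50b_m17_t22 c32_50b_m17_t23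
theorem c32_50b_m17_t27 : CovD 0 progs [(50027779063808, 4947802324992), (532575944704, 17179869184), (1073741824000, 8589934592), (1065151889408, 34359738368)] :=
  covD_split 1 (by decide +kernel) c32_50b_m17_t25 c32_50b_m17_t26
theorem c32_50b_m17_t29 : CovD 0 progs [(50027779063808, 4947802324992), (532575944704, 17179869184), (1082331758592, 17179869184), (1065151889408, 34359738368)] :=
  covD_split 2 (by decide +kernel) c32_50b_m17_t27 c32_50b_m17_t28
theorem c32_50b_m17_t30 : CovD 0 progs [(50027779063808, 4947802324992), (532575944704, 17179869184), (1082331758592, 17179869184), (1030792151040, 68719476736)] :=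
  covD_split 3 (by decide +kernel) c32_50b_m17_t24 c32_50b_m17_t29
theorem c32_50b_m17_t31 : CovD 0 progs [(50027779063808, 4947802324992), (532575944704, 17179869184), (1082331758592, 17179869184), (962072674304, 137438953472)] :=
  covD_split 3 (by decide +kernel) c32_50b_m17_t21 c32_50b_m17_t30
theorem c32_50b_m17_t36 : CovD 0 progs [(50027779063808, 4947802324992), (566935683072, 17179869184), (1090921693184, 8589934592), (996432412672, 34359738368)] :=
  covD_split 1 (by decide +kernel) c32_50b_m17_t34 c32_50b_m17_t35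
theorem c32_50b_m17_t37 : CovD 0 progs [(50027779063808, 4947802324992), (566935683072, 17179869184), (1082331758592, 17179869184), (996432412672, 34359738368)] :=
  covD_split 2 (by decide +kernel) c32_50b_m17_t33 c32_50b_m17_t36
theorem c32_50b_m17_t40 : CovD 0 progs [(50027779063808, 4947802324992), (566935683072, 17179869184), (1082331758592, 17179869184), (1039382085632, 8589934592)] :=
  covD_split 1 (by decide +kernel) c32_50b_m17_t38 c32_50b_m17_t39
theorem c32_50b_m17_t42 : CovD 0 progs [(50027779063808, 4947802324992), (566935683072, 17179869184), (1082331758592, 17179869184), (1047972020224, 17179869184)] :=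
  covD_split 3 (by decide +kernel) c32_50b_m17_t40 c32_50b_m17_t41
theorem c32_50b_m17_t44 : CovD 0 progs [(50027779063808, 4947802324992), (566935683072, 17179869184), (1082331758592, 17179869184), (1065151889408, 34359738368)] :=
  covD_split 3 (by decide +kernel) c32_50b_m17_t42 c32_50b_m17_t43
theorem c32_50b_m17_t45 : CovD 0 progs [(50027779063808, 4947802324992), (566935683072, 17179869184), (1082331758592, 17179869184), (1030792151040, 68719476736)] :=
  covD_split 3 (by decide +kernel) c32_50b_m17_t37 c32_50b_m17_t44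
theorem c32_50b_m17_t46 : CovD 0 progs [(50027779063808, 4947802324992), (566935683072, 17179869184), (1082331758592, 17179869184), (962072674304, 137438953472)] :=
  covD_split 3 (by decide +kernel) c32_50b_m17_t32 c32_50b_m17_t45
theorem c32_50b_m17_t47 : CovD 0 progs [(50027779063808, 4947802324992), (549755813888, 34359738368), (1082331758592, 17179869184), (962072674304, 137438953472)] :=
  covD_split 1 (by decide +kernel) c32_50b_m17_t31 c32_50b_m17_t46
theorem c32_50b_m17_t48 : CovD 0 progs [(50027779063808, 4947802324992), (549755813888, 34359738368), (1082331758592, 17179869184), (824633720832, 274877906944)] :=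
  covD_split 3 (by decide +kernel) c32_50b_m17_t20 c32_50b_m17_t47
theorem c32_50b_m17_t49 : CovD 0 progs [(50027779063808, 4947802324992), (549755813888, 34359738368), (1082331758592, 17179869184), (549755813888, 549755813888)] :=
  covD_split 3 (by decide +kernel) c32_50b_m17_t19 c32_50b_m17_t48
theorem c32_50b_m17_t50 : CovD 0 progs [(50027779063808, 4947802324992), (549755813888, 34359738368), (1065151889408, 34359738368), (549755813888, 549755813888)] :=
  covD_split 2 (by decide +kernel) c32_50b_m17_t18 c32_50b_m17_t49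
theorem c32_50b_m17_t51 : CovD 0 progs [(50027779063808, 4947802324992), (549755813888, 34359738368), (1030792151040, 68719476736), (549755813888, 549755813888)] :=
  covD_split 2 (by decide +kernel) c32_50b_m17_t1 c32_50b_m17_t50
theorem c32_50b_m17 : CovD 0 progs [(50027779063808, 4947802324992), (549755813888, 34359738368), (962072674304, 137438953472), (549755813888, 549755813888)] :=
  covD_split 2 (by decide +kernel) c32_50b_m17_t0 c32_50b_m17_t51

end Pool.Agent.helper71.FG.Crt.L
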