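import Pool.Agent.helper71.FG.Crt.LP

/-!
Generated certificates.
-/

namespace Pool.Agent.helper71.FG.Crt.L

open Pool.Agent.helper31.IA (Z Op)
open Pool.Agent.helper31.IC

mutual
theorem c32_50b_m2_t0 : CovD 0 progs [(40132174413824, 4947802324992), (412316860416, 34359738368), (274877906944, 274877906944), (824633720832, 274877906944)] :=
  Pool.Agent.helper14.QF.covD_F chks_eq (.n 2 (.l 10) (.n 2 (.l 10) (.n 3 (.l 10) (.l 10))))
    [(40132174413824, 4947802324992), (412316860416, 34359738368), (274877906944, 274877906944), (824633720832, 274877906944)] rfl (by decide +kernel)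
theorem c32_50b_m2_t1 : CovD 0 progs [(40132174413824, 4947802324992), (412316860416, 34359738368), (687194767360, 137438953472), (824633720832, 274877906944)] :=
  Pool.Agent.helper14.QF.covD_F chks_eq (.n 2 (.n 3 (.l 10) (.n 1 (.l 10) (.l 10))) (.n 3 (.n 1 (.l 10) (.l 10)) (.n 3 (.l 10) (.n 1 (.l 10) (.l 10)))))
    [(40132174413824, 4947802324992), (412316860416, 34359738368), (687194767360, 137438953472), (824633720832, 274877906944)] rfl (by decide +kernel)
end
mutual
theorem c32_50b_m2_t2 : CovD 0 progs [(40132174413824, 4947802324992), (412316860416, 34359738368), (962072674304, 137438953472), (687194767360, 137438953472)] :=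
  Pool.Agent.helper14.QF.covD_F chks_eq (.n 2 (.n 3 (.l 10) (.l 10)) (.n 3 (.l 10) (.n 1 (.l 10) (.l 10))))
    [(40132174413824, 4947802324992), (412316860416, 34359738368), (962072674304, 137438953472), (687194767360, 137438953472)] rfl (by decide +kernel)
theorem c32_50b_m2_t3 : CovD 0 progs [(40132174413824, 4947802324992), (412316860416, 34359738368), (962072674304, 137438953472), (893353197568, 68719476736)] :=
  Pool.Agent.helper14.QF.covD_F chks_eq (.n 2 (.n 1 (.l 10) (.l 10)) (.n 3 (.l 10) (.n 1 (.n 1 (.n 1 (.n 2 (.l 10) (.n 1 (.n 1 (.l 10) (.l 10)) (.l 10))) (.l 10)) (.l 10)) (.l 10))))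
    [(40132174413824, 4947802324992), (412316860416, 34359738368), (962072674304, 137438953472), (893353197568, 68719476736)] rfl (by decide +kernel)
end
mutual
theorem c32_50b_m2_t4 : CovD 0 progs [(40132174413824, 4947802324992), (412316860416, 34359738368), (893353197568, 68719476736), (1030792151040, 68719476736)] :=
  Pool.Agent.helper14.QF.covD_F chks_eq (.n 2 (.l 10) (.n 1 (.n 1 (.n 1 (.n 2 (.l 10) (.n 1 (.n 3 (.l 10) (.l 10)) (.l 10))) (.l 10)) (.l 10)) (.l 10)))
    [(40132174413824, 4947802324992), (412316860416, 34359738368), (893353197568, 68719476736), (1030792151040, 68719476736)] rfl (by decide +kernel)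
theorem c32_50b_m2_t5 : CovD 0 progs [(40132174413824, 4947802324992), (412316860416, 34359738368), (979252543488, 17179869184), (1030792151040, 68719476736)] :=
  Pool.Agent.helper14.QF.covD_F chks_eq (.n 1 (.n 1 (.n 3 (.l 10) (.n 0 (.n 0 (.n 0 (.l 3) (.l 3)) (.n 0 (.l 3) (.l 3))) (.n 0 (.n 0 (.l 3) (.l 3)) (.n 0 (.l 3) (.n 0 (.l 3) (.l 3)))))) (.n 3 (.l 10) (.n 3 (.l 10) (.n 3 (.n 3 (.l 10) (.n 1 (.l 13) (.l 10))) (.l 13))))) (.n 3 (.l 10) (.n 3 (.l 10) (.n 3 (.l 10) (.l 13)))))
    [(40132174413824, 4947802324992), (412316860416, 34359738368), (979252543488, 17179869184), (1030792151040, 68719476736)] rfl (by decide +kernel)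
end
mutual
theorem c32_50b_m2_t6 : CovD 0 progs [(40132174413824, 4947802324992), (412316860416, 34359738368), (1013612281856, 17179869184), (996432412672, 34359738368)] :=
  Pool.Agent.helper14.QF.covD_F chks_eq (.n 1 (.n 1 (.n 1 (.n 0 (.n 0 (.l 3) (.l 3)) (.n 0 (.l 3) (.l 3))) (.l 10)) (.l 10)) (.l 10))
    [(40132174413824, 4947802324992), (412316860416, 34359738368), (1013612281856, 17179869184), (996432412672, 34359738368)] rfl (by decide +kernel)
theorem c32_50b_m2_t7 : CovD 0 progs [(40132174413824, 4947802324992), (412316860416, 34359738368), (1013612281856, 17179869184), (1047972020224, 17179869184)] :=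
  Pool.Agent.helper14.QF.covD_F chks_eq (.n 1 (.n 0 (.n 0 (.n 1 (.l 3) (.l 3)) (.n 1 (.l 3) (.n 0 (.l 3) (.l 3)))) (.n 0 (.n 0 (.n 1 (.l 3) (.l 3)) (.n 1 (.l 3) (.l 3))) (.n 0 (.n 1 (.l 3) (.l 3)) (.n 1 (.l 3) (.l 3))))) (.n 2 (.l 10) (.n 0 (.n 0 (.n 0 (.l 3) (.l 3)) (.n 1 (.l 3) (.l 3))) (.n 0 (.n 1 (.l 3) (.l 3)) (.n 1 (.l 3) (.n 0 (.l 3) (.l 3)))))))
    [(40132174413824, 4947802324992), (412316860416, 34359738368), (1013612281856, 17179869184), (1047972020224, 17179869184)] rfl (by decide +kernel)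
end
mutual
theorem c32_50b_m2_t8 : CovD 0 progs [(40132174413824, 4947802324992), (412316860416, 34359738368), (1013612281856, 17179869184), (1082331758592, 17179869184)] :=
  Pool.Agent.helper14.QF.covD_F chks_eq (.n 3 (.n 0 (.n 0 (.n 1 (.n 0 (.l 3) (.l 14)) (.n 1 (.l 3) (.l 14))) (.n 1 (.n 1 (.l 3) (.l 3)) (.n 1 (.l 14) (.n 0 (.l 3) (.l 3))))) (.n 0 (.n 1 (.n 1 (.l 3) (.l 14)) (.n 3 (.n 1 (.l 14) (.l 14)) (.l 13))) (.n 1 (.n 1 (.l 14) (.n 0 (.l 3) (.l 3))) (.n 0 (.n 1 (.l 3) (.l 3)) (.n 1 (.l 3) (.l 3)))))) (.l 13))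
    [(40132174413824, 4947802324992), (412316860416, 34359738368), (1013612281856, 17179869184), (1082331758592, 17179869184)] rfl (by decide +kernel)
theorem c32_50b_m2_t12 : CovD 0 progs [(40132174413824, 4947802324992), (412316860416, 34359738368), (1047972020224, 17179869184), (979252543488, 17179869184)] :=
  Pool.Agent.helper14.QF.covD_F chks_eq (.n 1 (.n 1 (.n 0 (.n 0 (.l 3) (.l 3)) (.n 1 (.n 0 (.l 3) (.l 3)) (.l 10))) (.l 10)) (.l 10))
    [(40132174413824, 4947802324992), (412316860416, 34359738368), (1047972020224, 17179869184), (979252543488, 17179869184)] rfl (by decide +kernel)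
end
mutual
theorem c32_50b_m2_t13 : CovD 0 progs [(40132174413824, 4947802324992), (412316860416, 34359738368), (1047972020224, 17179869184), (1013612281856, 17179869184)] :=
  Pool.Agent.helper14.QF.covD_F chks_eq (.n 1 (.n 0 (.n 0 (.n 1 (.l 3) (.l 3)) (.n 1 (.l 3) (.n 0 (.l 3) (.l 3)))) (.n 0 (.n 0 (.n 1 (.l 3) (.l 3)) (.n 1 (.l 3) (.l 3))) (.n 0 (.n 1 (.l 3) (.l 3)) (.n 1 (.l 3) (.l 3))))) (.n 2 (.l 10) (.n 0 (.n 0 (.n 0 (.l 3) (.l 3)) (.n 1 (.l 3) (.l 3))) (.n 0 (.n 1 (.l 3) (.l 3)) (.n 1 (.l 3) (.n 0 (.l 3) (.l 3)))))))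
    [(40132174413824, 4947802324992), (412316860416, 34359738368), (1047972020224, 17179869184), (1013612281856, 17179869184)] rfl (by decide +kernel)
theorem c32_50b_m2_t15 : CovD 0 progs [(37658273251328, 2473901162496), (412316860416, 34359738368), (1047972020224, 17179869184), (1047972020224, 17179869184)] :=
  Pool.Agent.helper14.QF.covD_F chks_eq (.n 0 (.n 1 (.n 1 (.l 3) (.n 0 (.l 3) (.l 3))) (.n 0 (.n 1 (.l 3) (.l 3)) (.n 1 (.l 3) (.l 3)))) (.n 0 (.n 1 (.n 1 (.l 3) (.l 3)) (.n 1 (.l 3) (.l 3))) (.n 1 (.n 1 (.l 3) (.l 3)) (.n 1 (.l 3) (.l 3)))))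
    [(37658273251328, 2473901162496), (412316860416, 34359738368), (1047972020224, 17179869184), (1047972020224, 17179869184)] rfl (by decide +kernel)
end
mutual
theorem c32_50b_m2_t16 : CovD 0 progs [(42606075576320, 2473901162496), (412316860416, 34359738368), (1047972020224, 17179869184), (1047972020224, 17179869184)] :=
  Pool.Agent.helper14.QF.covD_F chks_eq (.n 0 (.n 0 (.n 1 (.n 1 (.l 3) (.l 3)) (.n 1 (.l 3) (.l 3))) (.n 1 (.n 1 (.l 3) (.l 3)) (.n 1 (.l 3) (.l 3)))) (.n 0 (.n 1 (.n 1 (.l 3) (.l 3)) (.n 1 (.l 3) (.l 3))) (.n 1 (.n 1 (.l 3) (.l 3)) (.n 1 (.l 3) (.n 0 (.l 3) (.l 3))))))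
    [(42606075576320, 2473901162496), (412316860416, 34359738368), (1047972020224, 17179869184), (1047972020224, 17179869184)] rfl (by decide +kernel)
theorem c32_50b_m2_t18 : CovD 0 progs [(40132174413824, 4947802324992), (412316860416, 34359738368), (1047972020224, 17179869184), (1082331758592, 17179869184)] :=
  Pool.Agent.helper14.QF.covD_F chks_eq (.n 3 (.n 3 (.n 1 (.n 0 (.n 0 (.n 0 (.l 3) (.l 14)) (.n 1 (.l 3) (.l 3))) (.n 0 (.n 1 (.l 3) (.l 14)) (.n 1 (.l 14) (.l 14)))) (.n 1 (.n 0 (.n 0 (.l 3) (.l 14)) (.n 0 (.l 14) (.n 0 (.l 3) (.l 3)))) (.l 13))) (.l 13)) (.l 13))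
    [(40132174413824, 4947802324992), (412316860416, 34359738368), (1047972020224, 17179869184), (1082331758592, 17179869184)] rfl (by decide +kernel)
end
mutual
theorem c32_50b_m2_t21 : CovD 0 progs [(36421322670080, 1236950581248), (412316860416, 34359738368), (1082331758592, 17179869184), (1030792151040, 68719476736)] :=
  Pool.Agent.helper14.QF.covD_F chks_eq (.n 0 (.n 1 (.n 1 (.n 3 (.l 3) (.l 3)) (.n 3 (.l 3) (.l 3))) (.n 1 (.n 3 (.l 3) (.n 0 (.l 3) (.l 3))) (.n 3 (.l 3) (.n 0 (.l 3) (.l 3))))) (.n 1 (.n 1 (.n 3 (.l 3) (.l 3)) (.n 3 (.l 3) (.n 0 (.l 3) (.l 3)))) (.n 1 (.n 3 (.l 3) (.n 0 (.l 3) (.l 3))) (.n 0 (.n 3 (.l 3) (.l 3)) (.n 3 (.l 3) (.l 3))))))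
    [(36421322670080, 1236950581248), (412316860416, 34359738368), (1082331758592, 17179869184), (1030792151040, 68719476736)] rfl (by decide +kernel)
theorem c32_50b_m2_t22 : CovD 0 progs [(38276748541952, 618475290624), (412316860416, 34359738368), (1082331758592, 17179869184), (1030792151040, 68719476736)] :=
  Pool.Agent.helper14.QF.covD_F chks_eq (.n 1 (.n 1 (.n 3 (.l 3) (.n 0 (.l 3) (.l 3))) (.n 3 (.l 3) (.n 0 (.l 3) (.l 3)))) (.n 1 (.n 0 (.n 3 (.l 3) (.l 3)) (.n 3 (.l 3) (.l 3))) (.n 1 (.n 3 (.l 3) (.l 3)) (.n 3 (.l 3) (.l 3)))))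
    [(38276748541952, 618475290624), (412316860416, 34359738368), (1082331758592, 17179869184), (1030792151040, 68719476736)] rfl (by decide +kernel)
end
mutual
theorem c32_50b_m2_t23 : CovD 0 progs [(39513699123200, 618475290624), (412316860416, 34359738368), (1082331758592, 17179869184), (1030792151040, 68719476736)] :=
  Pool.Agent.helper14.QF.covD_F chks_eq (.n 1 (.n 1 (.n 3 (.l 3) (.n 0 (.l 3) (.l 3))) (.n 0 (.n 3 (.l 3) (.l 3)) (.n 3 (.l 3) (.l 3)))) (.n 1 (.n 1 (.n 3 (.l 3) (.l 3)) (.n 3 (.l 3) (.l 3))) (.n 2 (.n 3 (.l 3) (.l 3)) (.n 3 (.l 3) (.l 3)))))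
    [(39513699123200, 618475290624), (412316860416, 34359738368), (1082331758592, 17179869184), (1030792151040, 68719476736)] rfl (by decide +kernel)
theorem c32_50b_m2_t26 : CovD 0 progs [(40750649704448, 618475290624), (412316860416, 34359738368), (1082331758592, 17179869184), (1030792151040, 68719476736)] :=
  Pool.Agent.helper14.QF.covD_F chks_eq (.n 1 (.n 1 (.n 3 (.l 3) (.n 0 (.l 3) (.l 3))) (.n 0 (.n 3 (.l 3) (.l 3)) (.n 3 (.l 3) (.l 3)))) (.n 1 (.n 1 (.n 3 (.l 3) (.l 3)) (.n 3 (.l 3) (.l 3))) (.n 3 (.n 1 (.l 3) (.l 5)) (.n 3 (.l 3) (.l 13)))))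
    [(40750649704448, 618475290624), (412316860416, 34359738368), (1082331758592, 17179869184), (1030792151040, 68719476736)] rfl (by decide +kernel)
end
mutual
theorem c32_50b_m2_t27 : CovD 0 progs [(41987600285696, 618475290624), (412316860416, 34359738368), (1082331758592, 17179869184), (1030792151040, 68719476736)] :=
  Pool.Agent.helper14.QF.covD_F chks_eq (.n 1 (.n 1 (.n 0 (.n 3 (.l 3) (.l 3)) (.n 3 (.l 3) (.l 3))) (.n 1 (.n 3 (.l 3) (.l 3)) (.n 3 (.l 3) (.l 3)))) (.n 1 (.n 1 (.n 3 (.l 3) (.l 3)) (.n 3 (.l 3) (.n 0 (.l 3) (.l 3)))) (.n 3 (.n 1 (.l 3) (.l 5)) (.n 3 (.n 0 (.l 3) (.l 3)) (.l 13)))))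
    [(41987600285696, 618475290624), (412316860416, 34359738368), (1082331758592, 17179869184), (1030792151040, 68719476736)] rfl (by decide +kernel)
theorem c32_50b_m2_t29 : CovD 0 progs [(43224550866944, 618475290624), (412316860416, 34359738368), (1082331758592, 17179869184), (1030792151040, 68719476736)] :=
  Pool.Agent.helper14.QF.covD_F chks_eq (.n 1 (.n 1 (.n 1 (.n 3 (.l 3) (.l 3)) (.n 3 (.l 3) (.l 3))) (.n 1 (.n 3 (.l 3) (.l 3)) (.n 3 (.l 3) (.l 3)))) (.n 1 (.n 3 (.n 1 (.l 3) (.l 3)) (.n 3 (.l 3) (.n 0 (.l 3) (.l 3)))) (.n 3 (.n 2 (.l 5) (.l 3)) (.n 3 (.n 0 (.l 3) (.l 3)) (.l 13)))))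
    [(43224550866944, 618475290624), (412316860416, 34359738368), (1082331758592, 17179869184), (1030792151040, 68719476736)] rfl (by decide +kernel)
theorem c32_50b_m2_t30 : CovD 0 progs [(44461501448192, 618475290624), (412316860416, 34359738368), (1082331758592, 17179869184), (1030792151040, 68719476736)] :=
  Pool.Agent.helper14.QF.covD_F chks_eq (.n 1 (.n 1 (.n 1 (.n 3 (.l 3) (.l 3)) (.n 3 (.l 3) (.l 3))) (.n 1 (.n 3 (.l 3) (.l 3)) (.n 3 (.l 3) (.n 0 (.l 3) (.l 3))))) (.n 1 (.n 1 (.n 3 (.l 3) (.n 0 (.l 3) (.l 3))) (.n 3 (.l 3) (.n 0 (.l 3) (.l 3)))) (.n 3 (.n 2 (.l 5) (.n 0 (.l 3) (.l 3))) (.n 3 (.n 0 (.l 3) (.l 3)) (.l 13)))))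
    [(44461501448192, 618475290624), (412316860416, 34359738368), (1082331758592, 17179869184), (1030792151040, 68719476736)] rfl (by decide +kernel)
end
theorem c32_50b_m2_t9 : CovD 0 progs [(40132174413824, 4947802324992), (412316860416, 34359738368), (1013612281856, 17179869184), (1065151889408, 34359738368)] :=
  covD_split 3 (by decide +kernel) c32_50b_m2_t7 c32_50b_m2_t8
theorem c32_50b_m2_t10 : CovD 0 progs [(40132174413824, 4947802324992), (412316860416, 34359738368), (1013612281856, 17179869184), (1030792151040, 68719476736)] :=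
  covD_split 3 (by decide +kernel) c32_50b_m2_t6 c32_50b_m2_t9
theorem c32_50b_m2_t11 : CovD 0 progs [(40132174413824, 4947802324992), (412316860416, 34359738368), (996432412672, 34359738368), (1030792151040, 68719476736)] :=
  covD_split 2 (by decide +kernel) c32_50b_m2_t5 c32_50b_m2_t10
theorem c32_50b_m2_t14 : CovD 0 progs [(40132174413824, 4947802324992), (412316860416, 34359738368), (1047972020224, 17179869184), (996432412672, 34359738368)] :=
  covD_split 3 (by decide +kernel) c32_50b_m2_t12 c32_50b_m2_t13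
theorem c32_50b_m2_t17 : CovD 0 progs [(40132174413824, 4947802324992), (412316860416, 34359738368), (1047972020224, 17179869184), (1047972020224, 17179869184)] :=
  covD_split 0 (by decide +kernel) c32_50b_m2_t15 c32_50b_m2_t16
theorem c32_50b_m2_t19 : CovD 0 progs [(40132174413824, 4947802324992), (412316860416, 34359738368), (1047972020224, 17179869184), (1065151889408, 34359738368)] :=
  covD_split 3 (by decide +kernel) c32_50b_m2_t17 c32_50b_m2_t18
theorem c32_50b_m2_t20 : CovD 0 progs [(40132174413824, 4947802324992), (412316860416, 34359738368), (1047972020224, 17179869184), (1030792151040, 68719476736)] :=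
  covD_split 3 (by decide +kernel) c32_50b_m2_t14 c32_50b_m2_t19
theorem c32_50b_m2_t24 : CovD 0 progs [(38895223832576, 1236950581248), (412316860416, 34359738368), (1082331758592, 17179869184), (1030792151040, 68719476736)] :=
  covD_split 0 (by decide +kernel) c32_50b_m2_t22 c32_50b_m2_t23
theorem c32_50b_m2_t25 : CovD 0 progs [(37658273251328, 2473901162496), (412316860416, 34359738368), (1082331758592, 17179869184), (1030792151040, 68719476736)] :=
  covD_split 0 (by decide +kernel) c32_50b_m2_t21 c32_50b_m2_t24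
theorem c32_50b_m2_t28 : CovD 0 progs [(41369124995072, 1236950581248), (412316860416, 34359738368), (1082331758592, 17179869184), (1030792151040, 68719476736)] :=
  covD_split 0 (by decide +kernel) c32_50b_m2_t26 c32_50b_m2_t27
theorem c32_50b_m2_t31 : CovD 0 progs [(43843026157568, 1236950581248), (412316860416, 34359738368), (1082331758592, 17179869184), (1030792151040, 68719476736)] :=
  covD_split 0 (by decide +kernel) c32_50b_m2_t29 c32_50b_m2_t30
theorem c32_50b_m2_t32 : CovD 0 progs [(42606075576320, 2473901162496), (412316860416, 34359738368), (1082331758592, 17179869184), (1030792151040, 68719476736)] :=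
  covD_split 0 (by decide +kernel) c32_50b_m2_t28 c32_50b_m2_t31
theorem c32_50b_m2_t33 : CovD 0 progs [(40132174413824, 4947802324992), (412316860416, 34359738368), (1082331758592, 17179869184), (1030792151040, 68719476736)] :=
  covD_split 0 (by decide +kernel) c32_50b_m2_t25 c32_50b_m2_t32
theorem c32_50b_m2_t34 : CovD 0 progs [(40132174413824, 4947802324992), (412316860416, 34359738368), (1065151889408, 34359738368), (1030792151040, 68719476736)] :=
  covD_split 2 (by decide +kernel) c32_50b_m2_t20 c32_50b_m2_t33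
theorem c32_50b_m2_t35 : CovD 0 progs [(40132174413824, 4947802324992), (412316860416, 34359738368), (1030792151040, 68719476736), (1030792151040, 68719476736)] :=
  covD_split 2 (by decide +kernel) c32_50b_m2_t11 c32_50b_m2_t34
theorem c32_50b_m2_t36 : CovD 0 progs [(40132174413824, 4947802324992), (412316860416, 34359738368), (962072674304, 137438953472), (1030792151040, 68719476736)] :=
  covD_split 2 (by decide +kernel) c32_50b_m2_t4 c32_50b_m2_t35
theorem c32_50b_m2_t37 : CovD 0 progs [(40132174413824, 4947802324992), (412316860416, 34359738368), (962072674304, 137438953472), (962072674304, 137438953472)] :=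
  covD_split 3 (by decide +kernel) c32_50b_m2_t3 c32_50b_m2_t36
theorem c32_50b_m2_t38 : CovD 0 progs [(40132174413824, 4947802324992), (412316860416, 34359738368), (962072674304, 137438953472), (824633720832, 274877906944)] :=
  covD_split 3 (by decide +kernel) c32_50b_m2_t2 c32_50b_m2_t37
theorem c32_50b_m2_t39 : CovD 0 progs [(40132174413824, 4947802324992), (412316860416, 34359738368), (824633720832, 274877906944), (824633720832, 274877906944)] :=
  covD_split 2 (by decide +kernel) c32_50b_m2_t1 c32_50b_m2_t38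
theorem c32_50b_m2 : CovD 0 progs [(40132174413824, 4947802324992), (412316860416, 34359738368), (549755813888, 549755813888), (824633720832, 274877906944)] :=
  covD_split 2 (by decide +kernel) c32_50b_m2_t0 c32_50b_m2_t39

end Pool.Agent.helper71.FG.Crt.L
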