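import Pool.Agent.helper71.FG.Crt.LP

/-!
Generated certificates.
-/

namespace Pool.Agent.helper71.FG.Crt.L

open Pool.Agent.helper31.IA (Z Op)
open Pool.Agent.helper31.IC

theorem c32_50b_m6 : CovD 0 progs [(50027779063808, 4947802324992), (377957122048, 68719476736), (962072674304, 137438953472), (687194767360, 137438953472)] :=
  Pool.Agent.helper14.QF.covD_F chks_eq (.n 1 (.n 2 (.n 1 (.l 10) (.l 10)) (.n 3 (.l 10) (.n 1 (.n 1 (.l 10) (.l 10)) (.l 10)))) (.n 2 (.n 3 (.l 10) (.l 10)) (.n 3 (.l 10) (.n 1 (.l 10) (.l 10)))))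
    [(50027779063808, 4947802324992), (377957122048, 68719476736), (962072674304, 137438953472), (687194767360, 137438953472)] rfl (by decide +kernel)

end Pool.Agent.helper71.FG.Crt.L
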