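import Pool.Agent.helper71.FG.Crt.LP

/-!
Generated certificates.
-/

namespace Pool.Agent.helper71.FG.Crt.L

open Pool.Agent.helper31.IA (Z Op)
open Pool.Agent.helper31.IC

mutual
theorem c32_50b_m8_t0 : CovD 0 progs [(47553877901312, 2473901162496), (377957122048, 68719476736), (858993459200, 34359738368), (1030792151040, 68719476736)] :=
  Pool.Agent.helper14.QF.covD_F chks_eq (.n 2 (.n 1 (.n 1 (.n 1 (.n 0 (.l 3) (.n 0 (.l 3) (.l 3))) (.l 10)) (.l 10)) (.l 10)) (.n 1 (.n 1 (.n 3 (.l 10) (.n 0 (.n 1 (.l 3) (.l 3)) (.n 1 (.l 3) (.l 3)))) (.l 10)) (.l 10)))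
    [(47553877901312, 2473901162496), (377957122048, 68719476736), (858993459200, 34359738368), (1030792151040, 68719476736)] rfl (by decide +kernel)
theorem c32_50b_m8_t1 : CovD 0 progs [(46316927320064, 1236950581248), (326417514496, 17179869184), (927712935936, 34359738368), (1030792151040, 68719476736)] :=
  Pool.Agent.helper14.QF.covD_F chks_eq (.n 0 (.n 1 (.n 2 (.l 3) (.l 3)) (.n 2 (.l 3) (.n 0 (.l 3) (.l 3)))) (.n 1 (.n 2 (.l 3) (.n 0 (.l 3) (.l 3))) (.n 1 (.n 2 (.l 3) (.l 3)) (.n 2 (.l 3) (.l 3)))))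
    [(46316927320064, 1236950581248), (326417514496, 17179869184), (927712935936, 34359738368), (1030792151040, 68719476736)] rfl (by decide +kernel)
end
mutual
theorem c32_50b_m8_t2 : CovD 0 progs [(48790828482560, 1236950581248), (326417514496, 17179869184), (927712935936, 34359738368), (1030792151040, 68719476736)] :=
  Pool.Agent.helper14.QF.covD_F chks_eq (.n 0 (.n 1 (.n 2 (.l 3) (.n 0 (.l 3) (.l 3))) (.n 1 (.n 2 (.l 3) (.l 3)) (.n 2 (.l 3) (.l 3)))) (.n 1 (.n 1 (.n 2 (.l 3) (.l 3)) (.n 2 (.l 3) (.l 3))) (.n 1 (.n 2 (.l 3) (.l 3)) (.n 2 (.l 3) (.l 3)))))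
    [(48790828482560, 1236950581248), (326417514496, 17179869184), (927712935936, 34359738368), (1030792151040, 68719476736)] rfl (by decide +kernel)
theorem c32_50b_m8_t4 : CovD 0 progs [(47553877901312, 2473901162496), (360777252864, 17179869184), (927712935936, 34359738368), (1030792151040, 68719476736)] :=
  Pool.Agent.helper14.QF.covD_F chks_eq (.n 1 (.n 1 (.n 3 (.l 10) (.n 0 (.n 2 (.l 3) (.l 3)) (.n 2 (.l 3) (.l 3)))) (.n 2 (.l 10) (.n 3 (.l 10) (.n 0 (.l 3) (.l 3))))) (.n 2 (.l 10) (.n 3 (.l 10) (.n 3 (.l 10) (.n 3 (.n 0 (.l 3) (.l 3)) (.l 13))))))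
    [(47553877901312, 2473901162496), (360777252864, 17179869184), (927712935936, 34359738368), (1030792151040, 68719476736)] rfl (by decide +kernel)
end
mutual
theorem c32_50b_m8_t6 : CovD 0 progs [(47553877901312, 2473901162496), (412316860416, 34359738368), (927712935936, 34359738368), (1030792151040, 68719476736)] :=
  Pool.Agent.helper14.QF.covD_F chks_eq (.n 1 (.n 1 (.n 1 (.n 2 (.l 10) (.n 1 (.n 3 (.l 10) (.l 10)) (.l 10))) (.l 10)) (.l 10)) (.l 10))
    [(47553877901312, 2473901162496), (412316860416, 34359738368), (927712935936, 34359738368), (1030792151040, 68719476736)] rfl (by decide +kernel)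
theorem c32_50b_m8_t9 : CovD 0 progs [(47553877901312, 2473901162496), (377957122048, 68719476736), (979252543488, 17179869184), (996432412672, 34359738368)] :=
  Pool.Agent.helper14.QF.covD_F chks_eq (.n 1 (.n 1 (.n 0 (.n 1 (.l 3) (.n 0 (.l 3) (.l 3))) (.n 0 (.n 1 (.l 3) (.l 3)) (.n 1 (.l 3) (.l 3)))) (.n 1 (.n 2 (.l 10) (.n 0 (.l 3) (.l 3))) (.l 10))) (.l 10))
    [(47553877901312, 2473901162496), (377957122048, 68719476736), (979252543488, 17179869184), (996432412672, 34359738368)] rfl (by decide +kernel)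
end
mutual
theorem c32_50b_m8_t10 : CovD 0 progs [(47553877901312, 2473901162496), (377957122048, 68719476736), (979252543488, 17179869184), (1047972020224, 17179869184)] :=
  Pool.Agent.helper14.QF.covD_F chks_eq (.n 1 (.n 0 (.n 1 (.n 1 (.l 3) (.l 3)) (.n 1 (.l 3) (.n 0 (.l 3) (.l 3)))) (.n 1 (.n 1 (.l 3) (.l 3)) (.n 0 (.n 1 (.l 3) (.l 3)) (.n 1 (.l 3) (.l 3))))) (.n 1 (.n 1 (.n 1 (.n 0 (.l 3) (.l 3)) (.l 10)) (.l 10)) (.l 10)))
    [(47553877901312, 2473901162496), (377957122048, 68719476736), (979252543488, 17179869184), (1047972020224, 17179869184)] rfl (by decide +kernel)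
theorem c32_50b_m8_t11 : CovD 0 progs [(47553877901312, 2473901162496), (377957122048, 68719476736), (979252543488, 17179869184), (1082331758592, 17179869184)] :=
  Pool.Agent.helper14.QF.covD_F chks_eq (.n 1 (.n 1 (.n 0 (.n 1 (.l 3) (.l 3)) (.n 1 (.l 3) (.n 0 (.l 3) (.l 3)))) (.n 3 (.n 0 (.n 1 (.l 3) (.l 3)) (.n 1 (.l 3) (.n 0 (.l 3) (.l 3)))) (.l 13))) (.n 3 (.n 1 (.n 1 (.n 0 (.n 0 (.l 3) (.l 3)) (.n 0 (.l 3) (.l 3))) (.n 1 (.n 0 (.l 3) (.l 3)) (.l 10))) (.l 10)) (.l 13)))
    [(47553877901312, 2473901162496), (377957122048, 68719476736), (979252543488, 17179869184), (1082331758592, 17179869184)] rfl (by decide +kernel)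
end
mutual
theorem c32_50b_m8_t14 : CovD 0 progs [(47553877901312, 2473901162496), (343597383680, 34359738368), (1013612281856, 17179869184), (996432412672, 34359738368)] :=
  Pool.Agent.helper14.QF.covD_F chks_eq (.n 0 (.n 0 (.n 1 (.n 1 (.l 3) (.l 3)) (.n 1 (.l 3) (.l 3))) (.n 1 (.n 1 (.l 3) (.l 3)) (.n 1 (.l 3) (.l 3)))) (.n 0 (.n 1 (.n 1 (.l 3) (.l 3)) (.n 1 (.l 3) (.n 0 (.l 3) (.l 3)))) (.n 1 (.n 1 (.l 3) (.l 3)) (.n 0 (.n 1 (.l 3) (.l 3)) (.n 1 (.l 3) (.l 3))))))
    [(47553877901312, 2473901162496), (343597383680, 34359738368), (1013612281856, 17179869184), (996432412672, 34359738368)] rfl (by decide +kernel)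
theorem c32_50b_m8_t15 : CovD 0 progs [(47553877901312, 2473901162496), (412316860416, 34359738368), (1013612281856, 17179869184), (996432412672, 34359738368)] :=
  Pool.Agent.helper14.QF.covD_F chks_eq (.n 1 (.n 1 (.n 1 (.n 1 (.n 0 (.l 3) (.l 3)) (.l 10)) (.l 10)) (.l 10)) (.l 10))
    [(47553877901312, 2473901162496), (412316860416, 34359738368), (1013612281856, 17179869184), (996432412672, 34359738368)] rfl (by decide +kernel)
end
mutual
theorem c32_50b_m8_t17 : CovD 0 progs [(46316927320064, 1236950581248), (377957122048, 68719476736), (1013612281856, 17179869184), (1047972020224, 17179869184)] :=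
  Pool.Agent.helper14.QF.covD_F chks_eq (.n 1 (.n 1 (.n 1 (.l 3) (.l 3)) (.n 0 (.n 1 (.l 3) (.l 3)) (.n 1 (.l 3) (.l 3)))) (.n 1 (.n 0 (.n 1 (.l 3) (.l 3)) (.n 1 (.l 3) (.l 3))) (.n 2 (.l 10) (.n 3 (.l 10) (.n 1 (.l 3) (.l 3))))))
    [(46316927320064, 1236950581248), (377957122048, 68719476736), (1013612281856, 17179869184), (1047972020224, 17179869184)] rfl (by decide +kernel)
theorem c32_50b_m8_t18 : CovD 0 progs [(48790828482560, 1236950581248), (377957122048, 68719476736), (1013612281856, 17179869184), (1047972020224, 17179869184)] :=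
  Pool.Agent.helper14.QF.covD_F chks_eq (.n 1 (.n 1 (.n 1 (.l 3) (.n 0 (.l 3) (.l 3))) (.n 0 (.n 1 (.l 3) (.l 3)) (.n 1 (.l 3) (.l 3)))) (.n 1 (.n 0 (.n 1 (.l 3) (.l 3)) (.n 1 (.l 3) (.n 0 (.l 3) (.l 3)))) (.n 2 (.l 10) (.n 3 (.l 10) (.n 1 (.l 3) (.l 3))))))
    [(48790828482560, 1236950581248), (377957122048, 68719476736), (1013612281856, 17179869184), (1047972020224, 17179869184)] rfl (by decide +kernel)
end
mutual
theorem c32_50b_m8_t20 : CovD 0 progs [(46316927320064, 1236950581248), (377957122048, 68719476736), (1013612281856, 17179869184), (1073741824000, 8589934592)] :=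
  Pool.Agent.helper14.QF.covD_F chks_eq (.n 1 (.n 1 (.n 1 (.l 3) (.l 3)) (.n 1 (.l 3) (.l 14))) (.n 0 (.n 1 (.n 1 (.l 3) (.l 3)) (.n 1 (.l 3) (.l 3))) (.n 1 (.n 1 (.l 3) (.l 3)) (.n 1 (.l 3) (.l 3)))))
    [(46316927320064, 1236950581248), (377957122048, 68719476736), (1013612281856, 17179869184), (1073741824000, 8589934592)] rfl (by decide +kernel)
theorem c32_50b_m8_t21 : CovD 0 progs [(48790828482560, 1236950581248), (377957122048, 68719476736), (1013612281856, 17179869184), (1073741824000, 8589934592)] :=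
  Pool.Agent.helper14.QF.covD_F chks_eq (.n 1 (.n 1 (.n 1 (.l 3) (.l 3)) (.n 1 (.l 14) (.n 0 (.l 3) (.l 3)))) (.n 0 (.n 1 (.n 1 (.l 3) (.l 3)) (.n 1 (.l 3) (.l 3))) (.n 1 (.n 1 (.l 3) (.l 3)) (.n 1 (.l 3) (.l 14)))))
    [(48790828482560, 1236950581248), (377957122048, 68719476736), (1013612281856, 17179869184), (1073741824000, 8589934592)] rfl (by decide +kernel)
end
mutual
theorem c32_50b_m8_t23 : CovD 0 progs [(47553877901312, 2473901162496), (377957122048, 68719476736), (1013612281856, 17179869184), (1090921693184, 8589934592)] :=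
  Pool.Agent.helper14.QF.covD_F chks_eq (.n 1 (.n 1 (.n 1 (.n 0 (.l 3) (.l 3)) (.l 13)) (.l 13)) (.l 13))
    [(47553877901312, 2473901162496), (377957122048, 68719476736), (1013612281856, 17179869184), (1090921693184, 8589934592)] rfl (by decide +kernel)
theorem c32_50b_m8_t28 : CovD 0 progs [(47553877901312, 2473901162496), (377957122048, 68719476736), (1039382085632, 8589934592), (996432412672, 34359738368)] :=
  Pool.Agent.helper14.QF.covD_F chks_eq (.n 1 (.n 0 (.n 1 (.n 1 (.l 3) (.l 3)) (.n 1 (.l 3) (.n 0 (.l 3) (.l 3)))) (.n 1 (.n 1 (.l 3) (.l 3)) (.n 0 (.n 1 (.l 3) (.l 3)) (.n 1 (.l 3) (.l 3))))) (.n 3 (.l 10) (.n 1 (.n 0 (.n 1 (.l 3) (.l 3)) (.n 1 (.l 3) (.n 0 (.l 3) (.l 3)))) (.l 10))))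
    [(47553877901312, 2473901162496), (377957122048, 68719476736), (1039382085632, 8589934592), (996432412672, 34359738368)] rfl (by decide +kernel)
end
mutual
theorem c32_50b_m8_t29 : CovD 0 progs [(46316927320064, 1236950581248), (377957122048, 68719476736), (1056561954816, 8589934592), (996432412672, 34359738368)] :=
  Pool.Agent.helper14.QF.covD_F chks_eq (.n 1 (.n 1 (.n 1 (.l 3) (.l 3)) (.n 0 (.n 1 (.l 3) (.l 3)) (.n 1 (.l 3) (.l 3)))) (.n 1 (.n 0 (.n 1 (.l 3) (.l 3)) (.n 1 (.l 3) (.l 3))) (.n 3 (.l 10) (.n 3 (.l 10) (.n 1 (.l 3) (.l 3))))))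
    [(46316927320064, 1236950581248), (377957122048, 68719476736), (1056561954816, 8589934592), (996432412672, 34359738368)] rfl (by decide +kernel)
theorem c32_50b_m8_t30 : CovD 0 progs [(48790828482560, 1236950581248), (377957122048, 68719476736), (1056561954816, 8589934592), (996432412672, 34359738368)] :=
  Pool.Agent.helper14.QF.covD_F chks_eq (.n 1 (.n 1 (.n 1 (.l 3) (.n 0 (.l 3) (.l 3))) (.n 0 (.n 1 (.l 3) (.l 3)) (.n 1 (.l 3) (.l 3)))) (.n 1 (.n 0 (.n 1 (.l 3) (.l 3)) (.n 1 (.l 3) (.l 3))) (.n 3 (.l 10) (.n 0 (.n 1 (.l 3) (.l 3)) (.n 1 (.l 3) (.l 3))))))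
    [(48790828482560, 1236950581248), (377957122048, 68719476736), (1056561954816, 8589934592), (996432412672, 34359738368)] rfl (by decide +kernel)
end
mutual
theorem c32_50b_m8_t33 : CovD 0 progs [(46316927320064, 1236950581248), (377957122048, 68719476736), (1047972020224, 17179869184), (1047972020224, 17179869184)] :=
  Pool.Agent.helper14.QF.covD_F chks_eq (.n 1 (.n 1 (.n 1 (.l 3) (.n 0 (.l 3) (.l 3))) (.n 0 (.n 1 (.l 3) (.l 3)) (.n 1 (.l 3) (.l 3)))) (.n 0 (.n 1 (.n 1 (.l 3) (.l 3)) (.n 0 (.n 1 (.l 3) (.l 3)) (.n 1 (.l 3) (.l 3)))) (.n 1 (.n 1 (.l 3) (.l 3)) (.n 0 (.n 1 (.l 3) (.l 3)) (.n 1 (.l 3) (.l 3))))))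
    [(46316927320064, 1236950581248), (377957122048, 68719476736), (1047972020224, 17179869184), (1047972020224, 17179869184)] rfl (by decide +kernel)
theorem c32_50b_m8_t34 : CovD 0 progs [(48790828482560, 1236950581248), (377957122048, 68719476736), (1047972020224, 17179869184), (1047972020224, 17179869184)] :=
  Pool.Agent.helper14.QF.covD_F chks_eq (.n 0 (.n 1 (.n 1 (.n 1 (.l 3) (.l 3)) (.n 1 (.l 3) (.l 3))) (.n 1 (.n 1 (.l 3) (.n 0 (.l 3) (.l 3))) (.n 0 (.n 1 (.l 3) (.l 3)) (.n 1 (.l 3) (.l 3))))) (.n 1 (.n 1 (.n 1 (.l 3) (.l 3)) (.n 1 (.l 3) (.l 3))) (.n 1 (.n 0 (.n 1 (.l 3) (.l 3)) (.n 1 (.l 3) (.l 3))) (.n 1 (.n 0 (.l 3) (.l 3)) (.n 1 (.l 3) (.l 3))))))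
    [(48790828482560, 1236950581248), (377957122048, 68719476736), (1047972020224, 17179869184), (1047972020224, 17179869184)] rfl (by decide +kernel)
end
mutual
theorem c32_50b_m8_t36 : CovD 0 progs [(46316927320064, 1236950581248), (377957122048, 68719476736), (1047972020224, 17179869184), (1073741824000, 8589934592)] :=
  Pool.Agent.helper14.QF.covD_F chks_eq (.n 1 (.n 1 (.n 1 (.l 3) (.l 3)) (.n 1 (.l 14) (.n 0 (.l 3) (.l 3)))) (.n 3 (.n 1 (.n 1 (.l 14) (.n 0 (.l 3) (.l 3))) (.n 1 (.n 0 (.l 3) (.l 3)) (.l 13))) (.l 13)))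
    [(46316927320064, 1236950581248), (377957122048, 68719476736), (1047972020224, 17179869184), (1073741824000, 8589934592)] rfl (by decide +kernel)
theorem c32_50b_m8_t37 : CovD 0 progs [(48790828482560, 1236950581248), (377957122048, 68719476736), (1047972020224, 17179869184), (1073741824000, 8589934592)] :=
  Pool.Agent.helper14.QF.covD_F chks_eq (.n 1 (.n 1 (.n 1 (.l 3) (.l 14)) (.n 0 (.n 1 (.l 3) (.l 3)) (.n 1 (.l 3) (.l 3)))) (.n 0 (.n 1 (.n 1 (.l 3) (.l 3)) (.n 1 (.l 3) (.l 14))) (.n 1 (.n 1 (.l 3) (.l 3)) (.n 1 (.l 14) (.l 14)))))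
    [(48790828482560, 1236950581248), (377957122048, 68719476736), (1047972020224, 17179869184), (1073741824000, 8589934592)] rfl (by decide +kernel)
end
mutual
theorem c32_50b_m8_t39 : CovD 0 progs [(47553877901312, 2473901162496), (377957122048, 68719476736), (1047972020224, 17179869184), (1090921693184, 8589934592)] :=
  Pool.Agent.helper14.QF.covD_F chks_eq (.n 1 (.l 13) (.l 13))
    [(47553877901312, 2473901162496), (377957122048, 68719476736), (1047972020224, 17179869184), (1090921693184, 8589934592)] rfl (by decide +kernel)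
theorem c32_50b_m8_t43 : CovD 0 progs [(45698452029440, 618475290624), (343597383680, 34359738368), (1082331758592, 17179869184), (1030792151040, 68719476736)] :=
  Pool.Agent.helper14.QF.covD_F chks_eq (.n 1 (.n 1 (.n 3 (.l 3) (.l 3)) (.n 3 (.l 3) (.n 0 (.l 3) (.l 3)))) (.n 1 (.n 0 (.n 3 (.l 3) (.l 3)) (.n 3 (.l 3) (.l 3))) (.n 1 (.n 3 (.l 3) (.l 3)) (.n 3 (.l 3) (.l 3)))))
    [(45698452029440, 618475290624), (343597383680, 34359738368), (1082331758592, 17179869184), (1030792151040, 68719476736)] rfl (by decide +kernel)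
end
mutual
theorem c32_50b_m8_t44 : CovD 0 progs [(45698452029440, 618475290624), (412316860416, 34359738368), (1082331758592, 17179869184), (1030792151040, 68719476736)] :=
  Pool.Agent.helper14.QF.covD_F chks_eq (.n 1 (.n 1 (.n 1 (.n 3 (.l 3) (.l 3)) (.n 3 (.l 3) (.l 3))) (.n 1 (.n 3 (.l 3) (.n 0 (.l 3) (.l 3))) (.n 3 (.l 3) (.n 0 (.l 3) (.l 3))))) (.n 1 (.n 1 (.n 3 (.l 3) (.n 0 (.l 3) (.l 3))) (.n 0 (.n 3 (.l 3) (.l 3)) (.n 3 (.l 3) (.l 3)))) (.n 3 (.n 0 (.n 1 (.l 3) (.l 5)) (.n 1 (.l 5) (.l 5))) (.n 3 (.n 0 (.l 3) (.l 3)) (.l 13)))))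
    [(45698452029440, 618475290624), (412316860416, 34359738368), (1082331758592, 17179869184), (1030792151040, 68719476736)] rfl (by decide +kernel)
theorem c32_50b_m8_t46 : CovD 0 progs [(46935402610688, 618475290624), (343597383680, 34359738368), (1082331758592, 17179869184), (1030792151040, 68719476736)] :=
  Pool.Agent.helper14.QF.covD_F chks_eq (.n 1 (.n 1 (.n 3 (.l 3) (.n 0 (.l 3) (.l 3))) (.n 3 (.l 3) (.n 0 (.l 3) (.l 3)))) (.n 1 (.n 1 (.n 3 (.l 3) (.l 3)) (.n 3 (.l 3) (.l 3))) (.n 1 (.n 3 (.l 3) (.l 3)) (.n 3 (.l 3) (.l 3)))))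
    [(46935402610688, 618475290624), (343597383680, 34359738368), (1082331758592, 17179869184), (1030792151040, 68719476736)] rfl (by decide +kernel)
end
mutual
theorem c32_50b_m8_t47 : CovD 0 progs [(46935402610688, 618475290624), (395136991232, 17179869184), (1082331758592, 17179869184), (1030792151040, 68719476736)] :=
  Pool.Agent.helper14.QF.covD_F chks_eq (.n 1 (.n 1 (.n 3 (.l 3) (.l 3)) (.n 3 (.l 3) (.n 0 (.l 3) (.l 3)))) (.n 1 (.n 3 (.l 3) (.n 0 (.l 3) (.l 3))) (.n 3 (.l 3) (.n 0 (.l 3) (.l 3)))))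
    [(46935402610688, 618475290624), (395136991232, 17179869184), (1082331758592, 17179869184), (1030792151040, 68719476736)] rfl (by decide +kernel)
theorem c32_50b_m8_t48 : CovD 0 progs [(46935402610688, 618475290624), (429496729600, 17179869184), (1082331758592, 17179869184), (1030792151040, 68719476736)] :=
  Pool.Agent.helper14.QF.covD_F chks_eq (.n 1 (.n 3 (.n 3 (.l 3) (.n 0 (.l 3) (.l 3))) (.n 0 (.n 1 (.l 3) (.l 3)) (.n 1 (.l 3) (.l 3)))) (.n 3 (.n 0 (.n 1 (.l 5) (.l 5)) (.n 1 (.l 5) (.l 5))) (.n 3 (.n 0 (.l 3) (.l 3)) (.l 13))))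
    [(46935402610688, 618475290624), (429496729600, 17179869184), (1082331758592, 17179869184), (1030792151040, 68719476736)] rfl (by decide +kernel)
end
mutual
theorem c32_50b_m8_t52 : CovD 0 progs [(48172353191936, 618475290624), (343597383680, 34359738368), (1082331758592, 17179869184), (1030792151040, 68719476736)] :=
  Pool.Agent.helper14.QF.covD_F chks_eq (.n 1 (.n 1 (.n 3 (.l 3) (.n 0 (.l 3) (.l 3))) (.n 0 (.n 3 (.l 3) (.l 3)) (.n 3 (.l 3) (.l 3)))) (.n 1 (.n 1 (.n 3 (.l 3) (.l 3)) (.n 3 (.l 3) (.l 3))) (.n 1 (.n 3 (.l 3) (.l 3)) (.n 3 (.l 3) (.l 3)))))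
    [(48172353191936, 618475290624), (343597383680, 34359738368), (1082331758592, 17179869184), (1030792151040, 68719476736)] rfl (by decide +kernel)
theorem c32_50b_m8_t53 : CovD 0 progs [(48172353191936, 618475290624), (395136991232, 17179869184), (1082331758592, 17179869184), (1030792151040, 68719476736)] :=
  Pool.Agent.helper14.QF.covD_F chks_eq (.n 1 (.n 1 (.n 3 (.l 3) (.n 0 (.l 3) (.l 3))) (.n 3 (.l 3) (.n 0 (.l 3) (.l 3)))) (.n 1 (.n 3 (.l 3) (.n 0 (.l 3) (.l 3))) (.n 0 (.n 3 (.l 3) (.l 3)) (.n 3 (.l 3) (.l 3)))))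
    [(48172353191936, 618475290624), (395136991232, 17179869184), (1082331758592, 17179869184), (1030792151040, 68719476736)] rfl (by decide +kernel)
end
mutual
theorem c32_50b_m8_t54 : CovD 0 progs [(48172353191936, 618475290624), (429496729600, 17179869184), (1082331758592, 17179869184), (1030792151040, 68719476736)] :=
  Pool.Agent.helper14.QF.covD_F chks_eq (.n 1 (.n 1 (.n 0 (.n 3 (.l 3) (.l 3)) (.n 3 (.l 3) (.l 3))) (.n 2 (.n 3 (.l 3) (.l 3)) (.n 3 (.l 3) (.l 3)))) (.n 3 (.n 0 (.n 1 (.l 5) (.l 5)) (.n 1 (.l 5) (.l 5))) (.n 3 (.n 1 (.l 3) (.l 3)) (.l 13))))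
    [(48172353191936, 618475290624), (429496729600, 17179869184), (1082331758592, 17179869184), (1030792151040, 68719476736)] rfl (by decide +kernel)
theorem c32_50b_m8_t57 : CovD 0 progs [(49409303773184, 618475290624), (377957122048, 68719476736), (1073741824000, 8589934592), (1030792151040, 68719476736)] :=
  Pool.Agent.helper14.QF.covD_F chks_eq (.n 3 (.n 1 (.n 1 (.n 1 (.l 3) (.l 3)) (.n 1 (.l 3) (.l 3))) (.n 1 (.n 1 (.l 3) (.n 0 (.l 3) (.l 3))) (.n 3 (.l 10) (.n 1 (.l 3) (.l 3))))) (.n 1 (.n 1 (.n 1 (.l 3) (.l 3)) (.n 1 (.l 3) (.l 3))) (.n 1 (.n 0 (.n 1 (.l 3) (.l 3)) (.n 1 (.l 3) (.l 3))) (.n 1 (.n 1 (.l 3) (.l 3)) (.n 1 (.l 3) (.l 3))))))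
    [(49409303773184, 618475290624), (377957122048, 68719476736), (1073741824000, 8589934592), (1030792151040, 68719476736)] rfl (by decide +kernel)
theorem c32_50b_m8_t58 : CovD 0 progs [(49409303773184, 618475290624), (377957122048, 68719476736), (1090921693184, 8589934592), (1030792151040, 68719476736)] :=
  Pool.Agent.helper14.QF.covD_F chks_eq (.n 3 (.n 1 (.n 1 (.n 1 (.l 3) (.l 3)) (.n 1 (.l 3) (.l 3))) (.n 1 (.n 1 (.l 3) (.n 0 (.l 3) (.l 3))) (.n 1 (.n 0 (.l 3) (.l 3)) (.n 1 (.l 3) (.l 5))))) (.n 1 (.n 1 (.n 1 (.l 3) (.l 3)) (.n 1 (.l 3) (.n 0 (.l 3) (.l 3)))) (.n 1 (.n 0 (.n 1 (.l 3) (.l 3)) (.n 1 (.l 3) (.l 3))) (.n 3 (.n 1 (.l 3) (.l 3)) (.l 13)))))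
    [(49409303773184, 618475290624), (377957122048, 68719476736), (1090921693184, 8589934592), (1030792151040, 68719476736)] rfl (by decide +kernel)
end
theorem c32_50b_m8_t3 : CovD 0 progs [(47553877901312, 2473901162496), (326417514496, 17179869184), (927712935936, 34359738368), (1030792151040, 68719476736)] :=
  covD_split 0 (by decide +kernel) c32_50b_m8_t1 c32_50b_m8_t2
theorem c32_50b_m8_t5 : CovD 0 progs [(47553877901312, 2473901162496), (343597383680, 34359738368), (927712935936, 34359738368), (1030792151040, 68719476736)] :=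
  covD_split 1 (by decide +kernel) c32_50b_m8_t3 c32_50b_m8_t4
theorem c32_50b_m8_t7 : CovD 0 progs [(47553877901312, 2473901162496), (377957122048, 68719476736), (927712935936, 34359738368), (1030792151040, 68719476736)] :=
  covD_split 1 (by decide +kernel) c32_50b_m8_t5 c32_50b_m8_t6
theorem c32_50b_m8_t8 : CovD 0 progs [(47553877901312, 2473901162496), (377957122048, 68719476736), (893353197568, 68719476736), (1030792151040, 68719476736)] :=
  covD_split 2 (by decide +kernel) c32_50b_m8_t0 c32_50b_m8_t7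
theorem c32_50b_m8_t12 : CovD 0 progs [(47553877901312, 2473901162496), (377957122048, 68719476736), (979252543488, 17179869184), (1065151889408, 34359738368)] :=
  covD_split 3 (by decide +kernel) c32_50b_m8_t10 c32_50b_m8_t11
theorem c32_50b_m8_t13 : CovD 0 progs [(47553877901312, 2473901162496), (377957122048, 68719476736), (979252543488, 17179869184), (1030792151040, 68719476736)] :=
  covD_split 3 (by decide +kernel) c32_50b_m8_t9 c32_50b_m8_t12
theorem c32_50b_m8_t16 : CovD 0 progs [(47553877901312, 2473901162496), (377957122048, 68719476736), (1013612281856, 17179869184), (996432412672, 34359738368)] :=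
  covD_split 1 (by decide +kernel) c32_50b_m8_t14 c32_50b_m8_t15
theorem c32_50b_m8_t19 : CovD 0 progs [(47553877901312, 2473901162496), (377957122048, 68719476736), (1013612281856, 17179869184), (1047972020224, 17179869184)] :=
  covD_split 0 (by decide +kernel) c32_50b_m8_t17 c32_50b_m8_t18
theorem c32_50b_m8_t22 : CovD 0 progs [(47553877901312, 2473901162496), (377957122048, 68719476736), (1013612281856, 17179869184), (1073741824000, 8589934592)] :=
  covD_split 0 (by decide +kernel) c32_50b_m8_t20 c32_50b_m8_t21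
theorem c32_50b_m8_t24 : CovD 0 progs [(47553877901312, 2473901162496), (377957122048, 68719476736), (1013612281856, 17179869184), (1082331758592, 17179869184)] :=
  covD_split 3 (by decide +kernel) c32_50b_m8_t22 c32_50b_m8_t23
theorem c32_50b_m8_t25 : CovD 0 progs [(47553877901312, 2473901162496), (377957122048, 68719476736), (1013612281856, 17179869184), (1065151889408, 34359738368)] :=
  covD_split 3 (by decide +kernel) c32_50b_m8_t19 c32_50b_m8_t24
theorem c32_50b_m8_t26 : CovD 0 progs [(47553877901312, 2473901162496), (377957122048, 68719476736), (1013612281856, 17179869184), (1030792151040, 68719476736)] :=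
  covD_split 3 (by decide +kernel) c32_50b_m8_t16 c32_50b_m8_t25
theorem c32_50b_m8_t27 : CovD 0 progs [(47553877901312, 2473901162496), (377957122048, 68719476736), (996432412672, 34359738368), (1030792151040, 68719476736)] :=
  covD_split 2 (by decide +kernel) c32_50b_m8_t13 c32_50b_m8_t26
theorem c32_50b_m8_t31 : CovD 0 progs [(47553877901312, 2473901162496), (377957122048, 68719476736), (1056561954816, 8589934592), (996432412672, 34359738368)] :=
  covD_split 0 (by decide +kernel) c32_50b_m8_t29 c32_50b_m8_t30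
theorem c32_50b_m8_t32 : CovD 0 progs [(47553877901312, 2473901162496), (377957122048, 68719476736), (1047972020224, 17179869184), (996432412672, 34359738368)] :=
  covD_split 2 (by decide +kernel) c32_50b_m8_t28 c32_50b_m8_t31
theorem c32_50b_m8_t35 : CovD 0 progs [(47553877901312, 2473901162496), (377957122048, 68719476736), (1047972020224, 17179869184), (1047972020224, 17179869184)] :=
  covD_split 0 (by decide +kernel) c32_50b_m8_t33 c32_50b_m8_t34
theorem c32_50b_m8_t38 : CovD 0 progs [(47553877901312, 2473901162496), (377957122048, 68719476736), (1047972020224, 17179869184), (1073741824000, 8589934592)] :=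
  covD_split 0 (by decide +kernel) c32_50b_m8_t36 c32_50b_m8_t37
theorem c32_50b_m8_t40 : CovD 0 progs [(47553877901312, 2473901162496), (377957122048, 68719476736), (1047972020224, 17179869184), (1082331758592, 17179869184)] :=
  covD_split 3 (by decide +kernel) c32_50b_m8_t38 c32_50b_m8_t39
theorem c32_50b_m8_t41 : CovD 0 progs [(47553877901312, 2473901162496), (377957122048, 68719476736), (1047972020224, 17179869184), (1065151889408, 34359738368)] :=
  covD_split 3 (by decide +kernel) c32_50b_m8_t35 c32_50b_m8_t40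
theorem c32_50b_m8_t42 : CovD 0 progs [(47553877901312, 2473901162496), (377957122048, 68719476736), (1047972020224, 17179869184), (1030792151040, 68719476736)] :=
  covD_split 3 (by decide +kernel) c32_50b_m8_t32 c32_50b_m8_t41
theorem c32_50b_m8_t45 : CovD 0 progs [(45698452029440, 618475290624), (377957122048, 68719476736), (1082331758592, 17179869184), (1030792151040, 68719476736)] :=
  covD_split 1 (by decide +kernel) c32_50b_m8_t43 c32_50b_m8_t44
theorem c32_50b_m8_t49 : CovD 0 progs [(46935402610688, 618475290624), (412316860416, 34359738368), (1082331758592, 17179869184), (1030792151040, 68719476736)] :=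
  covD_split 1 (by decide +kernel) c32_50b_m8_t47 c32_50b_m8_t48
theorem c32_50b_m8_t50 : CovD 0 progs [(46935402610688, 618475290624), (377957122048, 68719476736), (1082331758592, 17179869184), (1030792151040, 68719476736)] :=
  covD_split 1 (by decide +kernel) c32_50b_m8_t46 c32_50b_m8_t49
theorem c32_50b_m8_t51 : CovD 0 progs [(46316927320064, 1236950581248), (377957122048, 68719476736), (1082331758592, 17179869184), (1030792151040, 68719476736)] :=
  covD_split 0 (by decide +kernel) c32_50b_m8_t45 c32_50b_m8_t50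
theorem c32_50b_m8_t55 : CovD 0 progs [(48172353191936, 618475290624), (412316860416, 34359738368), (1082331758592, 17179869184), (1030792151040, 68719476736)] :=
  covD_split 1 (by decide +kernel) c32_50b_m8_t53 c32_50b_m8_t54
theorem c32_50b_m8_t56 : CovD 0 progs [(48172353191936, 618475290624), (377957122048, 68719476736), (1082331758592, 17179869184), (1030792151040, 68719476736)] :=
  covD_split 1 (by decide +kernel) c32_50b_m8_t52 c32_50b_m8_t55
theorem c32_50b_m8_t59 : CovD 0 progs [(49409303773184, 618475290624), (377957122048, 68719476736), (1082331758592, 17179869184), (1030792151040, 68719476736)] :=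
  covD_split 2 (by decide +kernel) c32_50b_m8_t57 c32_50b_m8_t58
theorem c32_50b_m8_t60 : CovD 0 progs [(48790828482560, 1236950581248), (377957122048, 68719476736), (1082331758592, 17179869184), (1030792151040, 68719476736)] :=
  covD_split 0 (by decide +kernel) c32_50b_m8_t56 c32_50b_m8_t59
theorem c32_50b_m8_t61 : CovD 0 progs [(47553877901312, 2473901162496), (377957122048, 68719476736), (1082331758592, 17179869184), (1030792151040, 68719476736)] :=
  covD_split 0 (by decide +kernel) c32_50b_m8_t51 c32_50b_m8_t60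
theorem c32_50b_m8_t62 : CovD 0 progs [(47553877901312, 2473901162496), (377957122048, 68719476736), (1065151889408, 34359738368), (1030792151040, 68719476736)] :=
  covD_split 2 (by decide +kernel) c32_50b_m8_t42 c32_50b_m8_t61
theorem c32_50b_m8_t63 : CovD 0 progs [(47553877901312, 2473901162496), (377957122048, 68719476736), (1030792151040, 68719476736), (1030792151040, 68719476736)] :=
  covD_split 2 (by decide +kernel) c32_50b_m8_t27 c32_50b_m8_t62
theorem c32_50b_m8 : CovD 0 progs [(47553877901312, 2473901162496), (377957122048, 68719476736), (962072674304, 137438953472), (1030792151040, 68719476736)] :=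
  covD_split 2 (by decide +kernel) c32_50b_m8_t8 c32_50b_m8_t63

end Pool.Agent.helper71.FG.Crt.L
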