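import Pool.Agent.helper71.FG.Crt.LP

/-!
Generated certificates.
-/

namespace Pool.Agent.helper71.FG.Crt.L

open Pool.Agent.helper31.IA (Z Op)
open Pool.Agent.helper31.IC

mutual
theorem c32_50b_m9_t0 : CovD 0 progs [(52501680226304, 2473901162496), (377957122048, 68719476736), (893353197568, 68719476736), (893353197568, 68719476736)] :=
  Pool.Agent.helper14.QF.covD_F chks_eq (.n 1 (.n 1 (.n 1 (.n 1 (.n 1 (.l 10) (.l 10)) (.l 10)) (.l 10)) (.l 10)) (.n 1 (.l 10) (.l 10)))
    [(52501680226304, 2473901162496), (377957122048, 68719476736), (893353197568, 68719476736), (893353197568, 68719476736)] rfl (by decide +kernel)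
theorem c32_50b_m9_t1 : CovD 0 progs [(52501680226304, 2473901162496), (377957122048, 68719476736), (858993459200, 34359738368), (1030792151040, 68719476736)] :=
  Pool.Agent.helper14.QF.covD_F chks_eq (.n 2 (.n 1 (.n 1 (.n 1 (.n 1 (.n 0 (.l 3) (.l 3)) (.l 10)) (.l 10)) (.l 10)) (.l 10)) (.n 1 (.n 1 (.n 1 (.n 0 (.n 0 (.l 3) (.l 3)) (.n 2 (.l 3) (.l 3))) (.n 1 (.n 0 (.l 3) (.n 0 (.l 3) (.l 3))) (.l 10))) (.l 10)) (.l 10)))
    [(52501680226304, 2473901162496), (377957122048, 68719476736), (858993459200, 34359738368), (1030792151040, 68719476736)] rfl (by decide +kernel)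
end
mutual
theorem c32_50b_m9_t2 : CovD 0 progs [(52501680226304, 2473901162496), (377957122048, 68719476736), (927712935936, 34359738368), (996432412672, 34359738368)] :=
  Pool.Agent.helper14.QF.covD_F chks_eq (.n 2 (.n 1 (.n 1 (.n 1 (.n 0 (.l 3) (.n 0 (.l 3) (.l 3))) (.l 10)) (.l 10)) (.l 10)) (.n 1 (.n 1 (.n 1 (.n 0 (.n 0 (.l 3) (.l 3)) (.n 0 (.l 3) (.l 3))) (.n 1 (.n 0 (.l 3) (.l 3)) (.l 10))) (.l 10)) (.l 10)))
    [(52501680226304, 2473901162496), (377957122048, 68719476736), (927712935936, 34359738368), (996432412672, 34359738368)] rfl (by decide +kernel)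
theorem c32_50b_m9_t3 : CovD 0 progs [(52501680226304, 2473901162496), (377957122048, 68719476736), (910533066752, 17179869184), (1065151889408, 34359738368)] :=
  Pool.Agent.helper14.QF.covD_F chks_eq (.n 1 (.n 1 (.n 0 (.n 0 (.n 1 (.l 3) (.l 3)) (.n 1 (.l 3) (.l 3))) (.n 0 (.n 1 (.l 3) (.l 3)) (.n 1 (.l 3) (.l 3)))) (.n 1 (.n 1 (.n 0 (.l 3) (.l 3)) (.l 10)) (.l 10))) (.l 10))
    [(52501680226304, 2473901162496), (377957122048, 68719476736), (910533066752, 17179869184), (1065151889408, 34359738368)] rfl (by decide +kernel)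
end
mutual
theorem c32_50b_m9_t4 : CovD 0 progs [(52501680226304, 2473901162496), (377957122048, 68719476736), (936302870528, 8589934592), (1065151889408, 34359738368)] :=
  Pool.Agent.helper14.QF.covD_F chks_eq (.n 1 (.n 1 (.n 0 (.n 1 (.l 3) (.l 3)) (.n 1 (.l 3) (.l 3))) (.n 1 (.n 0 (.l 3) (.n 0 (.l 3) (.l 3))) (.n 1 (.l 10) (.l 10)))) (.n 1 (.l 10) (.l 10)))
    [(52501680226304, 2473901162496), (377957122048, 68719476736), (936302870528, 8589934592), (1065151889408, 34359738368)] rfl (by decide +kernel)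
theorem c32_50b_m9_t5 : CovD 0 progs [(52501680226304, 2473901162496), (377957122048, 68719476736), (953482739712, 8589934592), (1065151889408, 34359738368)] :=
  Pool.Agent.helper14.QF.covD_F chks_eq (.n 1 (.n 0 (.n 1 (.n 1 (.l 3) (.l 3)) (.n 1 (.l 3) (.n 0 (.l 3) (.l 3)))) (.n 1 (.n 1 (.l 3) (.l 3)) (.n 0 (.n 1 (.l 3) (.l 3)) (.n 1 (.l 3) (.l 3))))) (.n 3 (.l 10) (.n 3 (.l 10) (.l 13))))
    [(52501680226304, 2473901162496), (377957122048, 68719476736), (953482739712, 8589934592), (1065151889408, 34359738368)] rfl (by decide +kernel)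
end
theorem c32_50b_m9_t6 : CovD 0 progs [(52501680226304, 2473901162496), (377957122048, 68719476736), (944892805120, 17179869184), (1065151889408, 34359738368)] :=
  covD_split 2 (by decide +kernel) c32_50b_m9_t4 c32_50b_m9_t5
theorem c32_50b_m9_t7 : CovD 0 progs [(52501680226304, 2473901162496), (377957122048, 68719476736), (927712935936, 34359738368), (1065151889408, 34359738368)] :=
  covD_split 2 (by decide +kernel) c32_50b_m9_t3 c32_50b_m9_t6
theorem c32_50b_m9_t8 : CovD 0 progs [(52501680226304, 2473901162496), (377957122048, 68719476736), (927712935936, 34359738368), (1030792151040, 68719476736)] :=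
  covD_split 3 (by decide +kernel) c32_50b_m9_t2 c32_50b_m9_t7
theorem c32_50b_m9_t9 : CovD 0 progs [(52501680226304, 2473901162496), (377957122048, 68719476736), (893353197568, 68719476736), (1030792151040, 68719476736)] :=
  covD_split 2 (by decide +kernel) c32_50b_m9_t1 c32_50b_m9_t8
theorem c32_50b_m9 : CovD 0 progs [(52501680226304, 2473901162496), (377957122048, 68719476736), (893353197568, 68719476736), (962072674304, 137438953472)] :=
  covD_split 3 (by decide +kernel) c32_50b_m9_t0 c32_50b_m9_t9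

end Pool.Agent.helper71.FG.Crt.L
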