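import Pool.Agent.helper71.FG.Crt.Lc32_50b_0
import Pool.Agent.helper71.FG.Crt.Lc32_50b_1
import Pool.Agent.helper71.FG.Crt.Lc32_50b_2
import Pool.Agent.helper71.FG.Crt.Lc32_50b_3
import Pool.Agent.helper71.FG.Crt.Lc32_50b_4
import Pool.Agent.helper71.FG.Crt.Lc32_50b_5
import Pool.Agent.helper71.FG.Crt.Lc32_50b_6
import Pool.Agent.helper71.FG.Crt.Lc32_50b_7
import Pool.Agent.helper71.FG.Crt.Lc32_50b_8
import Pool.Agent.helper71.FG.Crt.Lc32_50b_9
import Pool.Agent.helper71.FG.Crt.Lc32_50b_10
import Pool.Agent.helper71.FG.Crt.Lc32_50b_11
import Pool.Agent.helper71.FG.Crt.Lc32_50b_12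
import Pool.Agent.helper71.FG.Crt.Lc32_50b_13
import Pool.Agent.helper71.FG.Crt.Lc32_50b_14
import Pool.Agent.helper71.FG.Crt.Lc32_50b_15
import Pool.Agent.helper71.FG.Crt.Lc32_50b_16
import Pool.Agent.helper71.FG.Crt.Lc32_50b_17

/-!
Generated certificates, assembled.
-/

namespace Pool.Agent.helper71.FG.Crt.L

open Pool.Agent.helper31.IA (Z Op)
open Pool.Agent.helper31.IC

theorem c32_50b_top0 : CovD 0 progs [(40132174413824, 4947802324992), (377957122048, 68719476736), (549755813888, 549755813888), (824633720832, 274877906944)] :=
  covD_split 1 (by decide +kernel) c32_50b_m1 c32_50b_m2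
theorem c32_50b_top1 : CovD 0 progs [(40132174413824, 4947802324992), (377957122048, 68719476736), (549755813888, 549755813888), (549755813888, 549755813888)] :=
  covD_split 3 (by decide +kernel) c32_50b_m0 c32_50b_top0
theorem c32_50b_top2 : CovD 0 progs [(47553877901312, 2473901162496), (377957122048, 68719476736), (962072674304, 137438953472), (962072674304, 137438953472)] :=
  covD_split 3 (by decide +kernel) c32_50b_m7 c32_50b_m8
theorem c32_50b_top3 : CovD 0 progs [(52501680226304, 2473901162496), (377957122048, 68719476736), (1030792151040, 68719476736), (1030792151040, 68719476736)] :=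
  covD_split 2 (by decide +kernel) c32_50b_m11 c32_50b_m12
theorem c32_50b_top4 : CovD 0 progs [(52501680226304, 2473901162496), (377957122048, 68719476736), (1030792151040, 68719476736), (962072674304, 137438953472)] :=
  covD_split 3 (by decide +kernel) c32_50b_m10 c32_50b_top3
theorem c32_50b_top5 : CovD 0 progs [(52501680226304, 2473901162496), (377957122048, 68719476736), (962072674304, 137438953472), (962072674304, 137438953472)] :=
  covD_split 2 (by decide +kernel) c32_50b_m9 c32_50b_top4
theorem c32_50b_top6 : CovD 0 progs [(50027779063808, 4947802324992), (377957122048, 68719476736), (962072674304, 137438953472), (962072674304, 137438953472)] :=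
  covD_split 0 (by decide +kernel) c32_50b_top2 c32_50b_top5
theorem c32_50b_top7 : CovD 0 progs [(50027779063808, 4947802324992), (377957122048, 68719476736), (962072674304, 137438953472), (824633720832, 274877906944)] :=
  covD_split 3 (by decide +kernel) c32_50b_m6 c32_50b_top6
theorem c32_50b_top8 : CovD 0 progs [(50027779063808, 4947802324992), (377957122048, 68719476736), (824633720832, 274877906944), (824633720832, 274877906944)] :=
  covD_split 2 (by decide +kernel) c32_50b_m5 c32_50b_top7
theorem c32_50b_top9 : CovD 0 progs [(50027779063808, 4947802324992), (377957122048, 68719476736), (549755813888, 549755813888), (824633720832, 274877906944)] :=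
  covD_split 2 (by decide +kernel) c32_50b_m4 c32_50b_top8
theorem c32_50b_top10 : CovD 0 progs [(50027779063808, 4947802324992), (377957122048, 68719476736), (549755813888, 549755813888), (549755813888, 549755813888)] :=
  covD_split 3 (by decide +kernel) c32_50b_m3 c32_50b_top9
theorem c32_50b_top11 : CovD 0 progs [(45079976738816, 9895604649984), (377957122048, 68719476736), (549755813888, 549755813888), (549755813888, 549755813888)] :=
  covD_split 0 (by decide +kernel) c32_50b_top1 c32_50b_top10
theorem c32_50b_top12 : CovD 0 progs [(50027779063808, 4947802324992), (515396075520, 68719476736), (962072674304, 137438953472), (549755813888, 549755813888)] :=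
  covD_split 1 (by decide +kernel) c32_50b_m16 c32_50b_m17
theorem c32_50b_top13 : CovD 0 progs [(45079976738816, 9895604649984), (515396075520, 68719476736), (962072674304, 137438953472), (549755813888, 549755813888)] :=
  covD_split 0 (by decide +kernel) c32_50b_m15 c32_50b_top12
theorem c32_50b_top14 : CovD 0 progs [(45079976738816, 9895604649984), (515396075520, 68719476736), (824633720832, 274877906944), (549755813888, 549755813888)] :=
  covD_split 2 (by decide +kernel) c32_50b_m14 c32_50b_top13
theorem c32_50b_top15 : CovD 0 progs [(45079976738816, 9895604649984), (515396075520, 68719476736), (549755813888, 549755813888), (549755813888, 549755813888)] :=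
  covD_split 2 (by decide +kernel) c32_50b_m13 c32_50b_top14
theorem c32_50b_top16 : CovD 0 progs [(45079976738816, 9895604649984), (446676598784, 137438953472), (549755813888, 549755813888), (549755813888, 549755813888)] :=
  covD_split 1 (by decide +kernel) c32_50b_top11 c32_50b_top15

theorem c32_50b_all : CovD 0 progs [(45079976738816, 9895604649984), (446676598784, 137438953472), (549755813888, 549755813888), (549755813888, 549755813888)] := c32_50b_top16

end Pool.Agent.helper71.FG.Crt.L
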