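import Pool.Agent.helper71.FG.Crt.LP

/-!
Generated certificates.
-/

namespace Pool.Agent.helper71.FG.Crt.L

open Pool.Agent.helper31.IA (Z Op)
open Pool.Agent.helper31.IC

mutual
theorem c40_50_m1_t0 : CovD 0 progs [(46729244180480, 2748779069440), (164282499072, 9663676416), (137438953472, 137438953472), (549755813888, 549755813888)] :=
  Pool.Agent.helper14.QF.covD_F chks_eq (.n 2 (.n 2 (.l 2) (.n 0 (.l 2) (.l 2))) (.n 2 (.n 2 (.l 4) (.n 3 (.l 2) (.l 2))) (.n 3 (.n 3 (.l 4) (.l 4)) (.n 3 (.l 4) (.l 2)))))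
    [(46729244180480, 2748779069440), (164282499072, 9663676416), (137438953472, 137438953472), (549755813888, 549755813888)] rfl (by decide +kernel)
theorem c40_50_m1_t1 : CovD 0 progs [(46729244180480, 2748779069440), (164282499072, 9663676416), (309237645312, 34359738368), (549755813888, 549755813888)] :=
  Pool.Agent.helper14.QF.covD_F chks_eq (.n 2 (.n 3 (.n 3 (.l 4) (.l 4)) (.n 3 (.l 4) (.l 2))) (.n 3 (.n 0 (.n 3 (.l 2) (.l 4)) (.n 3 (.l 4) (.l 4))) (.n 3 (.l 4) (.l 4))))
    [(46729244180480, 2748779069440), (164282499072, 9663676416), (309237645312, 34359738368), (549755813888, 549755813888)] rfl (by decide +kernel)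
end
mutual
theorem c40_50_m1_t2 : CovD 0 progs [(46729244180480, 2748779069440), (164282499072, 9663676416), (377957122048, 34359738368), (549755813888, 549755813888)] :=
  Pool.Agent.helper14.QF.covD_F chks_eq (.n 2 (.n 3 (.n 0 (.n 3 (.l 4) (.l 4)) (.n 3 (.l 4) (.l 4))) (.n 3 (.n 0 (.l 4) (.l 4)) (.l 4))) (.n 0 (.n 3 (.n 3 (.l 4) (.l 4)) (.n 3 (.l 4) (.l 4))) (.n 3 (.n 3 (.l 4) (.l 8)) (.n 3 (.l 8) (.l 4)))))
    [(46729244180480, 2748779069440), (164282499072, 9663676416), (377957122048, 34359738368), (549755813888, 549755813888)] rfl (by decide +kernel)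
theorem c40_50_m1_t4 : CovD 0 progs [(46729244180480, 2748779069440), (164282499072, 9663676416), (481036337152, 68719476736), (549755813888, 549755813888)] :=
  Pool.Agent.helper14.QF.covD_F chks_eq (.n 2 (.n 2 (.n 3 (.n 3 (.l 8) (.n 0 (.l 4) (.l 4))) (.n 0 (.n 3 (.l 4) (.l 4)) (.n 3 (.l 8) (.l 8)))) (.n 3 (.n 3 (.l 4) (.l 8)) (.n 0 (.n 3 (.l 4) (.l 4)) (.n 3 (.l 4) (.l 8))))) (.n 3 (.n 3 (.l 8) (.n 0 (.l 4) (.l 8))) (.n 3 (.n 0 (.l 8) (.l 8)) (.n 3 (.l 4) (.l 4)))))
    [(46729244180480, 2748779069440), (164282499072, 9663676416), (481036337152, 68719476736), (549755813888, 549755813888)] rfl (by decide +kernel)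
end
mutual
theorem c40_50_m1_t7 : CovD 0 progs [(46729244180480, 2748779069440), (183609851904, 9663676416), (137438953472, 137438953472), (549755813888, 549755813888)] :=
  Pool.Agent.helper14.QF.covD_F chks_eq (.n 2 (.n 2 (.l 2) (.n 2 (.l 2) (.l 4))) (.n 2 (.n 2 (.n 2 (.l 4) (.l 4)) (.n 3 (.l 2) (.l 4))) (.n 3 (.n 2 (.l 4) (.n 3 (.l 4) (.l 4))) (.n 3 (.n 2 (.l 2) (.l 4)) (.l 4)))))
    [(46729244180480, 2748779069440), (183609851904, 9663676416), (137438953472, 137438953472), (549755813888, 549755813888)] rfl (by decide +kernel)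
theorem c40_50_m1_t8 : CovD 0 progs [(46729244180480, 2748779069440), (183609851904, 9663676416), (309237645312, 34359738368), (549755813888, 549755813888)] :=
  Pool.Agent.helper14.QF.covD_F chks_eq (.n 2 (.n 3 (.n 0 (.n 3 (.l 4) (.l 4)) (.n 3 (.l 4) (.l 4))) (.n 3 (.n 0 (.l 4) (.l 4)) (.l 4))) (.n 3 (.n 0 (.n 3 (.l 4) (.n 0 (.l 4) (.l 4))) (.n 1 (.n 3 (.l 4) (.l 4)) (.n 3 (.l 4) (.l 4)))) (.n 3 (.n 3 (.l 4) (.l 4)) (.n 0 (.l 4) (.l 4)))))
    [(46729244180480, 2748779069440), (183609851904, 9663676416), (309237645312, 34359738368), (549755813888, 549755813888)] rfl (by decide +kernel)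
end
mutual
theorem c40_50_m1_t9 : CovD 0 progs [(46729244180480, 2748779069440), (183609851904, 9663676416), (377957122048, 34359738368), (549755813888, 549755813888)] :=
  Pool.Agent.helper14.QF.covD_F chks_eq (.n 0 (.n 3 (.n 2 (.n 3 (.l 9) (.n 0 (.l 4) (.l 9))) (.n 3 (.l 8) (.l 8))) (.n 3 (.n 3 (.n 1 (.l 4) (.l 4)) (.l 4)) (.n 2 (.l 4) (.l 8)))) (.n 3 (.n 2 (.n 3 (.l 8) (.n 0 (.l 8) (.l 8))) (.n 3 (.l 8) (.l 8))) (.n 3 (.n 0 (.n 3 (.l 9) (.l 4)) (.n 3 (.l 9) (.l 4))) (.n 3 (.l 4) (.l 4)))))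
    [(46729244180480, 2748779069440), (183609851904, 9663676416), (377957122048, 34359738368), (549755813888, 549755813888)] rfl (by decide +kernel)
theorem c40_50_m1_t11 : CovD 0 progs [(46729244180480, 2748779069440), (183609851904, 9663676416), (481036337152, 68719476736), (549755813888, 549755813888)] :=
  Pool.Agent.helper14.QF.covD_F chks_eq (.n 2 (.n 0 (.n 3 (.n 3 (.l 8) (.n 0 (.l 8) (.l 8))) (.n 3 (.n 2 (.l 8) (.l 4)) (.n 3 (.l 4) (.l 4)))) (.n 3 (.n 3 (.l 8) (.n 0 (.l 8) (.l 8))) (.n 3 (.n 3 (.l 4) (.l 4)) (.n 3 (.l 4) (.l 4))))) (.n 3 (.n 3 (.l 8) (.n 0 (.l 8) (.l 8))) (.n 3 (.n 0 (.l 8) (.l 8)) (.n 3 (.l 4) (.l 4)))))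
    [(46729244180480, 2748779069440), (183609851904, 9663676416), (481036337152, 68719476736), (549755813888, 549755813888)] rfl (by decide +kernel)
end
mutual
theorem c40_50_m1_t15 : CovD 0 progs [(46729244180480, 2748779069440), (202937204736, 9663676416), (137438953472, 137438953472), (549755813888, 549755813888)] :=
  Pool.Agent.helper14.QF.covD_F chks_eq (.n 2 (.n 2 (.n 2 (.l 2) (.l 2)) (.n 3 (.l 2) (.l 2))) (.n 2 (.n 2 (.n 3 (.l 2) (.l 4)) (.n 3 (.l 4) (.n 0 (.l 4) (.l 4)))) (.n 2 (.n 3 (.n 3 (.l 4) (.l 4)) (.n 3 (.l 4) (.l 2))) (.n 2 (.n 3 (.n 3 (.l 4) (.l 4)) (.n 3 (.l 4) (.l 2))) (.n 3 (.n 3 (.l 4) (.l 4)) (.n 3 (.l 4) (.l 4)))))))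
    [(46729244180480, 2748779069440), (202937204736, 9663676416), (137438953472, 137438953472), (549755813888, 549755813888)] rfl (by decide +kernel)
theorem c40_50_m1_t16 : CovD 0 progs [(46729244180480, 2748779069440), (202937204736, 9663676416), (292057776128, 17179869184), (549755813888, 549755813888)] :=
  Pool.Agent.helper14.QF.covD_F chks_eq (.n 2 (.n 3 (.n 0 (.n 3 (.l 4) (.l 4)) (.n 3 (.l 4) (.l 4))) (.n 3 (.n 0 (.l 4) (.l 4)) (.l 4))) (.n 3 (.n 3 (.n 0 (.l 4) (.n 0 (.l 4) (.l 4))) (.n 3 (.l 4) (.l 4))) (.n 3 (.n 0 (.l 4) (.l 4)) (.l 4))))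
    [(46729244180480, 2748779069440), (202937204736, 9663676416), (292057776128, 17179869184), (549755813888, 549755813888)] rfl (by decide +kernel)
end
mutual
theorem c40_50_m1_t17 : CovD 0 progs [(46729244180480, 2748779069440), (202937204736, 9663676416), (326417514496, 17179869184), (549755813888, 549755813888)] :=
  Pool.Agent.helper14.QF.covD_F chks_eq (.n 0 (.n 2 (.n 3 (.n 3 (.l 4) (.n 0 (.l 4) (.l 4))) (.n 3 (.l 4) (.l 4))) (.n 3 (.n 3 (.l 8) (.l 8)) (.n 3 (.l 4) (.l 4)))) (.n 3 (.n 2 (.n 3 (.l 8) (.n 0 (.l 4) (.l 8))) (.n 3 (.l 8) (.l 8))) (.n 3 (.n 3 (.l 4) (.l 4)) (.n 2 (.l 4) (.l 8)))))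
    [(46729244180480, 2748779069440), (202937204736, 9663676416), (326417514496, 17179869184), (549755813888, 549755813888)] rfl (by decide +kernel)
theorem c40_50_m1_t19 : CovD 0 progs [(45354854645760, 1374389534720), (202937204736, 9663676416), (377957122048, 34359738368), (549755813888, 549755813888)] :=
  Pool.Agent.helper14.QF.covD_F chks_eq (.n 2 (.n 3 (.n 3 (.l 8) (.n 0 (.l 8) (.l 8))) (.n 2 (.n 3 (.l 8) (.l 4)) (.n 3 (.l 8) (.l 8)))) (.n 3 (.n 3 (.l 8) (.l 8)) (.n 3 (.n 1 (.l 8) (.l 8)) (.n 3 (.l 4) (.l 4)))))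
    [(45354854645760, 1374389534720), (202937204736, 9663676416), (377957122048, 34359738368), (549755813888, 549755813888)] rfl (by decide +kernel)
end
mutual
theorem c40_50_m1_t20 : CovD 0 progs [(48103633715200, 1374389534720), (202937204736, 9663676416), (377957122048, 34359738368), (549755813888, 549755813888)] :=
  Pool.Agent.helper14.QF.covD_F chks_eq (.n 3 (.n 2 (.n 3 (.l 8) (.n 0 (.l 8) (.l 8))) (.n 3 (.l 8) (.l 8))) (.n 3 (.n 0 (.n 3 (.l 9) (.l 9)) (.n 3 (.l 9) (.l 9))) (.n 3 (.n 0 (.l 4) (.l 4)) (.l 4))))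
    [(48103633715200, 1374389534720), (202937204736, 9663676416), (377957122048, 34359738368), (549755813888, 549755813888)] rfl (by decide +kernel)
theorem c40_50_m1_t23 : CovD 0 progs [(46729244180480, 2748779069440), (202937204736, 9663676416), (481036337152, 68719476736), (549755813888, 549755813888)] :=
  Pool.Agent.helper14.QF.covD_F chks_eq (.n 2 (.n 0 (.n 3 (.n 3 (.l 8) (.n 0 (.l 8) (.l 8))) (.n 3 (.n 3 (.l 7) (.l 4)) (.n 3 (.l 4) (.l 4)))) (.n 3 (.n 3 (.l 8) (.n 0 (.l 8) (.l 8))) (.n 3 (.n 3 (.l 7) (.l 4)) (.n 3 (.l 4) (.l 4))))) (.n 3 (.n 3 (.l 8) (.n 0 (.l 8) (.l 8))) (.n 3 (.n 0 (.l 8) (.l 8)) (.n 3 (.l 4) (.l 4)))))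
    [(46729244180480, 2748779069440), (202937204736, 9663676416), (481036337152, 68719476736), (549755813888, 549755813888)] rfl (by decide +kernel)
end
mutual
theorem c40_50_m1_t26 : CovD 0 progs [(45354854645760, 1374389534720), (222264557568, 9663676416), (137438953472, 137438953472), (549755813888, 549755813888)] :=
  Pool.Agent.helper14.QF.covD_F chks_eq (.n 2 (.n 2 (.n 3 (.l 2) (.l 2)) (.n 2 (.n 1 (.l 4) (.l 4)) (.l 4))) (.n 2 (.n 2 (.n 3 (.l 4) (.l 4)) (.n 3 (.l 4) (.n 2 (.l 4) (.l 4)))) (.n 2 (.n 3 (.n 3 (.l 4) (.l 4)) (.n 3 (.l 4) (.l 2))) (.n 3 (.n 2 (.n 3 (.l 4) (.l 4)) (.n 3 (.l 4) (.l 4))) (.n 3 (.n 0 (.l 4) (.l 4)) (.l 4))))))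
    [(45354854645760, 1374389534720), (222264557568, 9663676416), (137438953472, 137438953472), (549755813888, 549755813888)] rfl (by decide +kernel)
theorem c40_50_m1_t27 : CovD 0 progs [(45354854645760, 1374389534720), (222264557568, 9663676416), (309237645312, 34359738368), (549755813888, 549755813888)] :=
  Pool.Agent.helper14.QF.covD_F chks_eq (.n 2 (.n 3 (.n 3 (.n 3 (.l 11) (.n 2 (.l 4) (.l 4))) (.n 2 (.n 0 (.l 4) (.l 4)) (.n 3 (.l 4) (.l 4)))) (.n 3 (.n 3 (.l 4) (.l 4)) (.n 1 (.l 4) (.l 4)))) (.n 3 (.n 2 (.n 3 (.l 8) (.n 0 (.l 8) (.l 8))) (.n 3 (.l 8) (.l 8))) (.n 3 (.n 3 (.n 0 (.l 4) (.l 4)) (.l 4)) (.n 3 (.l 4) (.l 4)))))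
    [(45354854645760, 1374389534720), (222264557568, 9663676416), (309237645312, 34359738368), (549755813888, 549755813888)] rfl (by decide +kernel)
end
mutual
theorem c40_50_m1_t28 : CovD 0 progs [(45354854645760, 1374389534720), (222264557568, 9663676416), (377957122048, 34359738368), (549755813888, 549755813888)] :=
  Pool.Agent.helper14.QF.covD_F chks_eq (.n 3 (.n 2 (.n 3 (.l 8) (.n 0 (.l 8) (.l 8))) (.n 3 (.l 8) (.l 8))) (.n 3 (.n 0 (.n 3 (.l 9) (.l 9)) (.n 3 (.l 9) (.l 9))) (.n 3 (.n 0 (.l 4) (.l 9)) (.l 4))))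
    [(45354854645760, 1374389534720), (222264557568, 9663676416), (377957122048, 34359738368), (549755813888, 549755813888)] rfl (by decide +kernel)
theorem c40_50_m1_t30 : CovD 0 progs [(45354854645760, 1374389534720), (222264557568, 9663676416), (481036337152, 68719476736), (549755813888, 549755813888)] :=
  Pool.Agent.helper14.QF.covD_F chks_eq (.n 2 (.n 3 (.n 3 (.l 8) (.n 0 (.l 8) (.l 8))) (.n 3 (.n 3 (.l 8) (.l 6)) (.n 3 (.l 4) (.l 4)))) (.n 3 (.n 3 (.l 7) (.l 8)) (.n 3 (.l 8) (.n 3 (.l 4) (.l 4)))))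
    [(45354854645760, 1374389534720), (222264557568, 9663676416), (481036337152, 68719476736), (549755813888, 549755813888)] rfl (by decide +kernel)
end
mutual
theorem c40_50_m1_t33 : CovD 0 progs [(48103633715200, 1374389534720), (222264557568, 9663676416), (137438953472, 137438953472), (549755813888, 549755813888)] :=
  Pool.Agent.helper14.QF.covD_F chks_eq (.n 2 (.n 2 (.n 3 (.l 2) (.l 2)) (.n 2 (.n 1 (.l 4) (.l 4)) (.l 4))) (.n 2 (.n 2 (.n 3 (.l 4) (.l 4)) (.n 3 (.n 0 (.l 4) (.l 4)) (.n 3 (.l 4) (.l 2)))) (.n 2 (.n 3 (.n 3 (.l 4) (.l 4)) (.n 3 (.l 4) (.l 4))) (.n 3 (.n 2 (.n 3 (.l 4) (.l 4)) (.n 1 (.n 3 (.l 4) (.l 4)) (.n 3 (.l 4) (.l 4)))) (.n 3 (.n 2 (.l 4) (.l 4)) (.l 4))))))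
    [(48103633715200, 1374389534720), (222264557568, 9663676416), (137438953472, 137438953472), (549755813888, 549755813888)] rfl (by decide +kernel)
theorem c40_50_m1_t34 : CovD 0 progs [(48103633715200, 1374389534720), (222264557568, 9663676416), (309237645312, 34359738368), (549755813888, 549755813888)] :=
  Pool.Agent.helper14.QF.covD_F chks_eq (.n 2 (.n 3 (.n 2 (.n 3 (.n 1 (.l 4) (.n 0 (.l 4) (.l 4))) (.n 3 (.l 4) (.l 4))) (.n 3 (.l 9) (.n 1 (.l 8) (.l 8)))) (.n 3 (.n 3 (.n 0 (.l 4) (.l 4)) (.l 4)) (.n 3 (.l 4) (.l 2)))) (.n 3 (.n 3 (.n 0 (.l 8) (.l 8)) (.n 3 (.l 9) (.l 9))) (.n 3 (.n 3 (.l 9) (.l 4)) (.n 3 (.l 4) (.l 4)))))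
    [(48103633715200, 1374389534720), (222264557568, 9663676416), (309237645312, 34359738368), (549755813888, 549755813888)] rfl (by decide +kernel)
end
mutual
theorem c40_50_m1_t35 : CovD 0 progs [(48103633715200, 1374389534720), (222264557568, 9663676416), (377957122048, 34359738368), (549755813888, 549755813888)] :=
  Pool.Agent.helper14.QF.covD_F chks_eq (.n 3 (.n 2 (.n 3 (.l 8) (.n 0 (.l 8) (.l 8))) (.n 3 (.l 8) (.l 8))) (.n 3 (.n 0 (.n 3 (.l 9) (.l 9)) (.n 3 (.l 9) (.l 9))) (.n 3 (.n 0 (.l 9) (.l 9)) (.l 4))))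
    [(48103633715200, 1374389534720), (222264557568, 9663676416), (377957122048, 34359738368), (549755813888, 549755813888)] rfl (by decide +kernel)
theorem c40_50_m1_t37 : CovD 0 progs [(48103633715200, 1374389534720), (222264557568, 9663676416), (481036337152, 68719476736), (549755813888, 549755813888)] :=
  Pool.Agent.helper14.QF.covD_F chks_eq (.n 2 (.n 3 (.n 0 (.n 3 (.l 8) (.l 8)) (.n 3 (.l 8) (.l 8))) (.n 3 (.n 2 (.l 8) (.l 8)) (.n 3 (.l 4) (.l 4)))) (.n 3 (.n 3 (.l 8) (.l 8)) (.n 3 (.l 8) (.n 3 (.l 4) (.l 4)))))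
    [(48103633715200, 1374389534720), (222264557568, 9663676416), (481036337152, 68719476736), (549755813888, 549755813888)] rfl (by decide +kernel)
end
mutual
theorem c40_50_m1_t43 : CovD 0 progs [(46729244180480, 2748779069440), (251255586816, 19327352832), (137438953472, 137438953472), (549755813888, 549755813888)] :=
  Pool.Agent.helper14.QF.covD_F chks_eq (.n 2 (.l 10) (.n 1 (.n 2 (.l 10) (.n 3 (.l 10) (.l 10))) (.l 10)))
    [(46729244180480, 2748779069440), (251255586816, 19327352832), (137438953472, 137438953472), (549755813888, 549755813888)] rfl (by decide +kernel)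
theorem c40_50_m1_t44 : CovD 0 progs [(46729244180480, 2748779069440), (251255586816, 19327352832), (343597383680, 68719476736), (549755813888, 549755813888)] :=
  Pool.Agent.helper14.QF.covD_F chks_eq (.n 2 (.n 1 (.n 3 (.l 10) (.n 1 (.n 3 (.l 10) (.n 3 (.l 10) (.l 4))) (.l 10))) (.l 10)) (.n 3 (.l 10) (.n 1 (.n 1 (.n 3 (.l 10) (.n 0 (.n 3 (.l 9) (.l 4)) (.n 3 (.l 8) (.l 4)))) (.l 10)) (.l 10))))
    [(46729244180480, 2748779069440), (251255586816, 19327352832), (343597383680, 68719476736), (549755813888, 549755813888)] rfl (by decide +kernel)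
end
mutual
theorem c40_50_m1_t45 : CovD 0 progs [(46729244180480, 2748779069440), (251255586816, 19327352832), (481036337152, 68719476736), (549755813888, 549755813888)] :=
  Pool.Agent.helper14.QF.covD_F chks_eq (.n 2 (.n 1 (.n 3 (.l 10) (.n 3 (.n 3 (.l 10) (.l 8)) (.n 3 (.l 8) (.n 0 (.l 4) (.l 4))))) (.n 3 (.l 10) (.l 10))) (.n 3 (.n 1 (.n 3 (.l 10) (.l 10)) (.l 10)) (.n 3 (.n 1 (.n 0 (.l 8) (.l 8)) (.l 10)) (.n 3 (.l 8) (.n 0 (.l 6) (.l 6))))))
    [(46729244180480, 2748779069440), (251255586816, 19327352832), (481036337152, 68719476736), (549755813888, 549755813888)] rfl (by decide +kernel)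
theorem c40_50_m1_t48 : CovD 0 progs [(46729244180480, 2748779069440), (289910292480, 19327352832), (274877906944, 274877906944), (549755813888, 549755813888)] :=
  Pool.Agent.helper14.QF.covD_F chks_eq (.n 2 (.l 10) (.n 3 (.l 10) (.n 2 (.l 10) (.n 1 (.l 10) (.l 10)))))
    [(46729244180480, 2748779069440), (289910292480, 19327352832), (274877906944, 274877906944), (549755813888, 549755813888)] rfl (by decide +kernel)
end
theorem c40_50_m1_t3 : CovD 0 progs [(46729244180480, 2748779069440), (164282499072, 9663676416), (343597383680, 68719476736), (549755813888, 549755813888)] :=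
  covD_split 2 (by decide +kernel) c40_50_m1_t1 c40_50_m1_t2
theorem c40_50_m1_t5 : CovD 0 progs [(46729244180480, 2748779069440), (164282499072, 9663676416), (412316860416, 137438953472), (549755813888, 549755813888)] :=
  covD_split 2 (by decide +kernel) c40_50_m1_t3 c40_50_m1_t4
theorem c40_50_m1_t6 : CovD 0 progs [(46729244180480, 2748779069440), (164282499072, 9663676416), (274877906944, 274877906944), (549755813888, 549755813888)] :=
  covD_split 2 (by decide +kernel) c40_50_m1_t0 c40_50_m1_t5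
theorem c40_50_m1_t10 : CovD 0 progs [(46729244180480, 2748779069440), (183609851904, 9663676416), (343597383680, 68719476736), (549755813888, 549755813888)] :=
  covD_split 2 (by decide +kernel) c40_50_m1_t8 c40_50_m1_t9
theorem c40_50_m1_t12 : CovD 0 progs [(46729244180480, 2748779069440), (183609851904, 9663676416), (412316860416, 137438953472), (549755813888, 549755813888)] :=
  covD_split 2 (by decide +kernel) c40_50_m1_t10 c40_50_m1_t11
theorem c40_50_m1_t13 : CovD 0 progs [(46729244180480, 2748779069440), (183609851904, 9663676416), (274877906944, 274877906944), (549755813888, 549755813888)] :=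
  covD_split 2 (by decide +kernel) c40_50_m1_t7 c40_50_m1_t12
theorem c40_50_m1_t14 : CovD 0 progs [(46729244180480, 2748779069440), (173946175488, 19327352832), (274877906944, 274877906944), (549755813888, 549755813888)] :=
  covD_split 1 (by decide +kernel) c40_50_m1_t6 c40_50_m1_t13
theorem c40_50_m1_t18 : CovD 0 progs [(46729244180480, 2748779069440), (202937204736, 9663676416), (309237645312, 34359738368), (549755813888, 549755813888)] :=
  covD_split 2 (by decide +kernel) c40_50_m1_t16 c40_50_m1_t17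
theorem c40_50_m1_t21 : CovD 0 progs [(46729244180480, 2748779069440), (202937204736, 9663676416), (377957122048, 34359738368), (549755813888, 549755813888)] :=
  covD_split 0 (by decide +kernel) c40_50_m1_t19 c40_50_m1_t20
theorem c40_50_m1_t22 : CovD 0 progs [(46729244180480, 2748779069440), (202937204736, 9663676416), (343597383680, 68719476736), (549755813888, 549755813888)] :=
  covD_split 2 (by decide +kernel) c40_50_m1_t18 c40_50_m1_t21
theorem c40_50_m1_t24 : CovD 0 progs [(46729244180480, 2748779069440), (202937204736, 9663676416), (412316860416, 137438953472), (549755813888, 549755813888)] :=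
  covD_split 2 (by decide +kernel) c40_50_m1_t22 c40_50_m1_t23
theorem c40_50_m1_t25 : CovD 0 progs [(46729244180480, 2748779069440), (202937204736, 9663676416), (274877906944, 274877906944), (549755813888, 549755813888)] :=
  covD_split 2 (by decide +kernel) c40_50_m1_t15 c40_50_m1_t24
theorem c40_50_m1_t29 : CovD 0 progs [(45354854645760, 1374389534720), (222264557568, 9663676416), (343597383680, 68719476736), (549755813888, 549755813888)] :=
  covD_split 2 (by decide +kernel) c40_50_m1_t27 c40_50_m1_t28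
theorem c40_50_m1_t31 : CovD 0 progs [(45354854645760, 1374389534720), (222264557568, 9663676416), (412316860416, 137438953472), (549755813888, 549755813888)] :=
  covD_split 2 (by decide +kernel) c40_50_m1_t29 c40_50_m1_t30
theorem c40_50_m1_t32 : CovD 0 progs [(45354854645760, 1374389534720), (222264557568, 9663676416), (274877906944, 274877906944), (549755813888, 549755813888)] :=
  covD_split 2 (by decide +kernel) c40_50_m1_t26 c40_50_m1_t31
theorem c40_50_m1_t36 : CovD 0 progs [(48103633715200, 1374389534720), (222264557568, 9663676416), (343597383680, 68719476736), (549755813888, 549755813888)] :=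
  covD_split 2 (by decide +kernel) c40_50_m1_t34 c40_50_m1_t35
theorem c40_50_m1_t38 : CovD 0 progs [(48103633715200, 1374389534720), (222264557568, 9663676416), (412316860416, 137438953472), (549755813888, 549755813888)] :=
  covD_split 2 (by decide +kernel) c40_50_m1_t36 c40_50_m1_t37
theorem c40_50_m1_t39 : CovD 0 progs [(48103633715200, 1374389534720), (222264557568, 9663676416), (274877906944, 274877906944), (549755813888, 549755813888)] :=
  covD_split 2 (by decide +kernel) c40_50_m1_t33 c40_50_m1_t38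
theorem c40_50_m1_t40 : CovD 0 progs [(46729244180480, 2748779069440), (222264557568, 9663676416), (274877906944, 274877906944), (549755813888, 549755813888)] :=
  covD_split 0 (by decide +kernel) c40_50_m1_t32 c40_50_m1_t39
theorem c40_50_m1_t41 : CovD 0 progs [(46729244180480, 2748779069440), (212600881152, 19327352832), (274877906944, 274877906944), (549755813888, 549755813888)] :=
  covD_split 1 (by decide +kernel) c40_50_m1_t25 c40_50_m1_t40
theorem c40_50_m1_t42 : CovD 0 progs [(46729244180480, 2748779069440), (193273528320, 38654705664), (274877906944, 274877906944), (549755813888, 549755813888)] :=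
  covD_split 1 (by decide +kernel) c40_50_m1_t14 c40_50_m1_t41
theorem c40_50_m1_t46 : CovD 0 progs [(46729244180480, 2748779069440), (251255586816, 19327352832), (412316860416, 137438953472), (549755813888, 549755813888)] :=
  covD_split 2 (by decide +kernel) c40_50_m1_t44 c40_50_m1_t45
theorem c40_50_m1_t47 : CovD 0 progs [(46729244180480, 2748779069440), (251255586816, 19327352832), (274877906944, 274877906944), (549755813888, 549755813888)] :=
  covD_split 2 (by decide +kernel) c40_50_m1_t43 c40_50_m1_t46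
theorem c40_50_m1_t49 : CovD 0 progs [(46729244180480, 2748779069440), (270582939648, 38654705664), (274877906944, 274877906944), (549755813888, 549755813888)] :=
  covD_split 1 (by decide +kernel) c40_50_m1_t47 c40_50_m1_t48
theorem c40_50_m1 : CovD 0 progs [(46729244180480, 2748779069440), (231928233984, 77309411328), (274877906944, 274877906944), (549755813888, 549755813888)] :=
  covD_split 1 (by decide +kernel) c40_50_m1_t42 c40_50_m1_t49

end Pool.Agent.helper71.FG.Crt.L
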