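import Pool.Agent.helper71.FG.Crt.LP

/-!
Generated certificates.
-/

namespace Pool.Agent.helper71.FG.Crt.L

open Pool.Agent.helper31.IA (Z Op)
open Pool.Agent.helper31.IC

mutual
theorem c40_50_m10_t0 : CovD 0 progs [(52226802319360, 2748779069440), (164282499072, 9663676416), (824633720832, 274877906944), (687194767360, 137438953472)] :=
  Pool.Agent.helper14.QF.covD_F chks_eq (.n 1 (.n 2 (.n 2 (.n 0 (.l 8) (.l 8)) (.l 4)) (.n 2 (.n 2 (.l 4) (.l 4)) (.n 2 (.l 4) (.n 0 (.l 4) (.l 4))))) (.n 1 (.n 2 (.n 2 (.l 8) (.l 4)) (.n 2 (.n 0 (.l 4) (.l 4)) (.n 2 (.l 4) (.l 4)))) (.n 2 (.n 2 (.l 8) (.l 4)) (.n 2 (.n 2 (.l 4) (.l 4)) (.n 2 (.l 4) (.n 0 (.l 4) (.l 4)))))))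
    [(52226802319360, 2748779069440), (164282499072, 9663676416), (824633720832, 274877906944), (687194767360, 137438953472)] rfl (by decide +kernel)
theorem c40_50_m10_t1 : CovD 0 progs [(52226802319360, 2748779069440), (183609851904, 9663676416), (824633720832, 274877906944), (618475290624, 68719476736)] :=
  Pool.Agent.helper14.QF.covD_F chks_eq (.n 1 (.n 1 (.n 2 (.n 2 (.l 4) (.l 4)) (.n 2 (.n 0 (.l 4) (.l 4)) (.n 2 (.l 4) (.l 3)))) (.n 2 (.n 2 (.l 4) (.l 4)) (.n 2 (.n 2 (.l 4) (.l 4)) (.n 2 (.l 4) (.l 3))))) (.n 2 (.n 2 (.l 4) (.n 0 (.l 4) (.l 4))) (.n 2 (.n 2 (.l 4) (.l 4)) (.n 2 (.l 4) (.n 0 (.l 3) (.l 3))))))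
    [(52226802319360, 2748779069440), (183609851904, 9663676416), (824633720832, 274877906944), (618475290624, 68719476736)] rfl (by decide +kernel)
end
mutual
theorem c40_50_m10_t2 : CovD 0 progs [(52226802319360, 2748779069440), (183609851904, 9663676416), (824633720832, 274877906944), (755914244096, 68719476736)] :=
  Pool.Agent.helper14.QF.covD_F chks_eq (.n 2 (.n 2 (.l 8) (.n 2 (.l 4) (.l 4))) (.n 2 (.n 2 (.l 3) (.n 0 (.l 3) (.l 3))) (.n 2 (.n 2 (.l 3) (.l 3)) (.n 0 (.n 0 (.l 3) (.l 3)) (.n 1 (.l 3) (.l 3))))))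
    [(52226802319360, 2748779069440), (183609851904, 9663676416), (824633720832, 274877906944), (755914244096, 68719476736)] rfl (by decide +kernel)
theorem c40_50_m10_t5 : CovD 0 progs [(52226802319360, 2748779069440), (212600881152, 19327352832), (687194767360, 137438953472), (687194767360, 137438953472)] :=
  Pool.Agent.helper14.QF.covD_F chks_eq (.n 2 (.n 1 (.n 2 (.l 6) (.l 4)) (.n 2 (.l 6) (.l 4))) (.n 1 (.n 2 (.l 4) (.n 0 (.l 4) (.l 4))) (.n 2 (.l 4) (.n 0 (.l 4) (.l 4)))))
    [(52226802319360, 2748779069440), (212600881152, 19327352832), (687194767360, 137438953472), (687194767360, 137438953472)] rfl (by decide +kernel)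
end
mutual
theorem c40_50_m10_t6 : CovD 0 progs [(52226802319360, 2748779069440), (212600881152, 19327352832), (893353197568, 68719476736), (687194767360, 137438953472)] :=
  Pool.Agent.helper14.QF.covD_F chks_eq (.n 2 (.n 1 (.n 0 (.l 4) (.l 4)) (.n 2 (.l 4) (.n 0 (.l 4) (.l 4)))) (.n 0 (.n 1 (.n 0 (.l 4) (.l 4)) (.n 1 (.l 4) (.l 4))) (.n 1 (.n 1 (.l 4) (.l 4)) (.n 2 (.l 4) (.l 4)))))
    [(52226802319360, 2748779069440), (212600881152, 19327352832), (893353197568, 68719476736), (687194767360, 137438953472)] rfl (by decide +kernel)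
theorem c40_50_m10_t7 : CovD 0 progs [(52226802319360, 2748779069440), (202937204736, 9663676416), (1030792151040, 68719476736), (687194767360, 137438953472)] :=
  Pool.Agent.helper14.QF.covD_F chks_eq (.n 0 (.n 1 (.n 2 (.l 4) (.n 0 (.l 4) (.l 4))) (.n 2 (.l 4) (.n 0 (.l 4) (.l 4)))) (.n 1 (.n 2 (.l 4) (.n 0 (.l 4) (.l 4))) (.n 2 (.n 0 (.l 4) (.l 4)) (.n 2 (.l 4) (.l 4)))))
    [(52226802319360, 2748779069440), (202937204736, 9663676416), (1030792151040, 68719476736), (687194767360, 137438953472)] rfl (by decide +kernel)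
end
mutual
theorem c40_50_m10_t8 : CovD 0 progs [(52226802319360, 2748779069440), (222264557568, 9663676416), (1030792151040, 68719476736), (687194767360, 137438953472)] :=
  Pool.Agent.helper14.QF.covD_F chks_eq (.n 0 (.n 2 (.n 2 (.l 4) (.n 0 (.l 4) (.l 4))) (.n 1 (.n 2 (.l 4) (.l 4)) (.n 2 (.l 4) (.l 4)))) (.n 2 (.n 0 (.n 1 (.l 4) (.l 4)) (.n 2 (.l 4) (.l 4))) (.n 3 (.l 15) (.n 2 (.l 3) (.l 3)))))
    [(52226802319360, 2748779069440), (222264557568, 9663676416), (1030792151040, 68719476736), (687194767360, 137438953472)] rfl (by decide +kernel)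
theorem c40_50_m10_t13 : CovD 0 progs [(52226802319360, 2748779069440), (270582939648, 38654705664), (687194767360, 137438953472), (687194767360, 137438953472)] :=
  Pool.Agent.helper14.QF.covD_F chks_eq (.n 2 (.n 1 (.n 1 (.n 2 (.l 8) (.l 4)) (.l 10)) (.l 10)) (.n 1 (.n 1 (.n 2 (.n 0 (.l 4) (.l 4)) (.n 2 (.l 4) (.l 4))) (.n 3 (.l 10) (.n 1 (.n 2 (.l 4) (.l 4)) (.l 10)))) (.n 1 (.l 10) (.l 10))))
    [(52226802319360, 2748779069440), (270582939648, 38654705664), (687194767360, 137438953472), (687194767360, 137438953472)] rfl (by decide +kernel)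
end
mutual
theorem c40_50_m10_t14 : CovD 0 progs [(52226802319360, 2748779069440), (241591910400, 9663676416), (962072674304, 137438953472), (687194767360, 137438953472)] :=
  Pool.Agent.helper14.QF.covD_F chks_eq (.n 2 (.n 0 (.n 2 (.n 1 (.l 4) (.l 4)) (.n 2 (.l 4) (.l 4))) (.n 2 (.n 2 (.l 4) (.l 4)) (.n 2 (.l 4) (.n 0 (.l 4) (.l 4))))) (.n 2 (.n 3 (.l 15) (.n 0 (.n 1 (.l 3) (.l 3)) (.n 2 (.l 3) (.l 3)))) (.n 3 (.l 15) (.n 0 (.n 2 (.l 3) (.n 0 (.l 3) (.l 3))) (.n 0 (.n 1 (.l 3) (.l 3)) (.n 1 (.l 3) (.l 3)))))))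
    [(52226802319360, 2748779069440), (241591910400, 9663676416), (962072674304, 137438953472), (687194767360, 137438953472)] rfl (by decide +kernel)
theorem c40_50_m10_t15 : CovD 0 progs [(52226802319360, 2748779069440), (260919263232, 9663676416), (962072674304, 137438953472), (687194767360, 137438953472)] :=
  Pool.Agent.helper14.QF.covD_F chks_eq (.n 2 (.n 2 (.n 0 (.n 2 (.l 4) (.l 4)) (.n 2 (.l 4) (.l 4))) (.n 3 (.l 15) (.n 0 (.n 1 (.l 3) (.l 3)) (.n 2 (.l 3) (.l 3))))) (.n 0 (.n 3 (.l 15) (.n 2 (.n 2 (.l 3) (.l 3)) (.n 0 (.n 1 (.l 3) (.l 3)) (.n 2 (.l 3) (.l 3))))) (.n 3 (.l 15) (.n 2 (.n 2 (.l 3) (.n 0 (.l 3) (.l 3))) (.n 0 (.n 2 (.l 3) (.l 3)) (.n 2 (.l 3) (.l 3)))))))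
    [(52226802319360, 2748779069440), (260919263232, 9663676416), (962072674304, 137438953472), (687194767360, 137438953472)] rfl (by decide +kernel)
end
mutual
theorem c40_50_m10_t17 : CovD 0 progs [(52226802319360, 2748779069440), (280246616064, 9663676416), (962072674304, 137438953472), (687194767360, 137438953472)] :=
  Pool.Agent.helper14.QF.covD_F chks_eq (.n 2 (.n 3 (.l 10) (.n 2 (.l 10) (.n 2 (.l 10) (.n 0 (.l 3) (.l 3))))) (.n 3 (.l 15) (.n 2 (.n 3 (.l 15) (.n 0 (.n 2 (.l 3) (.l 3)) (.n 2 (.l 3) (.l 3)))) (.n 3 (.l 15) (.n 0 (.n 2 (.l 3) (.n 0 (.l 3) (.l 3))) (.n 0 (.n 2 (.l 3) (.l 3)) (.n 2 (.l 3) (.l 3))))))))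
    [(52226802319360, 2748779069440), (280246616064, 9663676416), (962072674304, 137438953472), (687194767360, 137438953472)] rfl (by decide +kernel)
theorem c40_50_m10_t18 : CovD 0 progs [(52226802319360, 2748779069440), (299573968896, 9663676416), (962072674304, 137438953472), (687194767360, 137438953472)] :=
  Pool.Agent.helper14.QF.covD_F chks_eq (.n 3 (.l 10) (.n 2 (.l 10) (.n 2 (.l 10) (.n 1 (.n 2 (.n 0 (.l 3) (.l 3)) (.n 3 (.l 10) (.n 0 (.l 3) (.l 3)))) (.n 3 (.l 10) (.l 10))))))
    [(52226802319360, 2748779069440), (299573968896, 9663676416), (962072674304, 137438953472), (687194767360, 137438953472)] rfl (by decide +kernel)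
end
theorem c40_50_m10_t3 : CovD 0 progs [(52226802319360, 2748779069440), (183609851904, 9663676416), (824633720832, 274877906944), (687194767360, 137438953472)] :=
  covD_split 3 (by decide +kernel) c40_50_m10_t1 c40_50_m10_t2
theorem c40_50_m10_t4 : CovD 0 progs [(52226802319360, 2748779069440), (173946175488, 19327352832), (824633720832, 274877906944), (687194767360, 137438953472)] :=
  covD_split 1 (by decide +kernel) c40_50_m10_t0 c40_50_m10_t3
theorem c40_50_m10_t9 : CovD 0 progs [(52226802319360, 2748779069440), (212600881152, 19327352832), (1030792151040, 68719476736), (687194767360, 137438953472)] :=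
  covD_split 1 (by decide +kernel) c40_50_m10_t7 c40_50_m10_t8
theorem c40_50_m10_t10 : CovD 0 progs [(52226802319360, 2748779069440), (212600881152, 19327352832), (962072674304, 137438953472), (687194767360, 137438953472)] :=
  covD_split 2 (by decide +kernel) c40_50_m10_t6 c40_50_m10_t9
theorem c40_50_m10_t11 : CovD 0 progs [(52226802319360, 2748779069440), (212600881152, 19327352832), (824633720832, 274877906944), (687194767360, 137438953472)] :=
  covD_split 2 (by decide +kernel) c40_50_m10_t5 c40_50_m10_t10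
theorem c40_50_m10_t12 : CovD 0 progs [(52226802319360, 2748779069440), (193273528320, 38654705664), (824633720832, 274877906944), (687194767360, 137438953472)] :=
  covD_split 1 (by decide +kernel) c40_50_m10_t4 c40_50_m10_t11
theorem c40_50_m10_t16 : CovD 0 progs [(52226802319360, 2748779069440), (251255586816, 19327352832), (962072674304, 137438953472), (687194767360, 137438953472)] :=
  covD_split 1 (by decide +kernel) c40_50_m10_t14 c40_50_m10_t15
theorem c40_50_m10_t19 : CovD 0 progs [(52226802319360, 2748779069440), (289910292480, 19327352832), (962072674304, 137438953472), (687194767360, 137438953472)] :=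
  covD_split 1 (by decide +kernel) c40_50_m10_t17 c40_50_m10_t18
theorem c40_50_m10_t20 : CovD 0 progs [(52226802319360, 2748779069440), (270582939648, 38654705664), (962072674304, 137438953472), (687194767360, 137438953472)] :=
  covD_split 1 (by decide +kernel) c40_50_m10_t16 c40_50_m10_t19
theorem c40_50_m10_t21 : CovD 0 progs [(52226802319360, 2748779069440), (270582939648, 38654705664), (824633720832, 274877906944), (687194767360, 137438953472)] :=
  covD_split 2 (by decide +kernel) c40_50_m10_t13 c40_50_m10_t20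
theorem c40_50_m10 : CovD 0 progs [(52226802319360, 2748779069440), (231928233984, 77309411328), (824633720832, 274877906944), (687194767360, 137438953472)] :=
  covD_split 1 (by decide +kernel) c40_50_m10_t12 c40_50_m10_t21

end Pool.Agent.helper71.FG.Crt.L
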