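import Pool.Agent.helper71.FG.Crt.LP

/-!
Generated certificates.
-/

namespace Pool.Agent.helper71.FG.Crt.L

open Pool.Agent.helper31.IA (Z Op)
open Pool.Agent.helper31.IC

mutual
theorem c40_50_m11_t0 : CovD 0 progs [(50165218017280, 687194767360), (164282499072, 9663676416), (824633720832, 274877906944), (962072674304, 137438953472)] :=
  Pool.Agent.helper14.QF.covD_F chks_eq (.n 2 (.n 2 (.n 2 (.l 4) (.l 4)) (.n 1 (.l 3) (.l 4))) (.n 2 (.n 2 (.l 3) (.l 3)) (.n 1 (.n 2 (.l 3) (.l 3)) (.n 2 (.l 3) (.l 3)))))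
    [(50165218017280, 687194767360), (164282499072, 9663676416), (824633720832, 274877906944), (962072674304, 137438953472)] rfl (by decide +kernel)
theorem c40_50_m11_t1 : CovD 0 progs [(50165218017280, 687194767360), (183609851904, 9663676416), (824633720832, 274877906944), (962072674304, 137438953472)] :=
  Pool.Agent.helper14.QF.covD_F chks_eq (.n 1 (.n 2 (.n 2 (.n 0 (.l 8) (.l 8)) (.l 4)) (.n 2 (.n 2 (.l 3) (.l 3)) (.n 2 (.l 3) (.n 0 (.l 3) (.l 3))))) (.n 2 (.n 1 (.n 2 (.l 6) (.l 4)) (.n 2 (.l 6) (.l 4))) (.n 2 (.n 2 (.l 3) (.l 3)) (.n 2 (.l 3) (.n 1 (.l 3) (.l 3))))))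
    [(50165218017280, 687194767360), (183609851904, 9663676416), (824633720832, 274877906944), (962072674304, 137438953472)] rfl (by decide +kernel)
end
mutual
theorem c40_50_m11_t3 : CovD 0 progs [(50165218017280, 687194767360), (202937204736, 9663676416), (824633720832, 274877906944), (962072674304, 137438953472)] :=
  Pool.Agent.helper14.QF.covD_F chks_eq (.n 1 (.n 2 (.n 2 (.l 8) (.n 2 (.l 4) (.l 3))) (.n 2 (.n 2 (.l 3) (.l 3)) (.n 2 (.n 0 (.l 3) (.l 3)) (.n 2 (.l 3) (.l 3))))) (.n 2 (.n 2 (.l 8) (.n 2 (.l 4) (.l 3))) (.n 2 (.n 2 (.l 3) (.l 3)) (.n 2 (.n 1 (.l 3) (.l 3)) (.n 2 (.l 3) (.l 3))))))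
    [(50165218017280, 687194767360), (202937204736, 9663676416), (824633720832, 274877906944), (962072674304, 137438953472)] rfl (by decide +kernel)
theorem c40_50_m11_t4 : CovD 0 progs [(50165218017280, 687194767360), (222264557568, 9663676416), (824633720832, 274877906944), (962072674304, 137438953472)] :=
  Pool.Agent.helper14.QF.covD_F chks_eq (.n 1 (.n 2 (.n 2 (.l 8) (.n 2 (.l 4) (.l 3))) (.n 2 (.n 2 (.l 3) (.n 0 (.l 3) (.l 3))) (.n 2 (.n 2 (.l 3) (.l 3)) (.n 2 (.l 3) (.n 0 (.l 3) (.l 3)))))) (.n 2 (.n 2 (.n 1 (.l 6) (.l 6)) (.n 2 (.l 4) (.l 3))) (.n 2 (.n 2 (.l 3) (.n 1 (.l 3) (.l 3))) (.n 2 (.n 2 (.l 3) (.l 3)) (.n 3 (.l 3) (.n 0 (.l 3) (.l 3)))))))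
    [(50165218017280, 687194767360), (222264557568, 9663676416), (824633720832, 274877906944), (962072674304, 137438953472)] rfl (by decide +kernel)
end
mutual
theorem c40_50_m11_t7 : CovD 0 progs [(50165218017280, 687194767360), (236760072192, 4831838208), (824633720832, 274877906944), (962072674304, 137438953472)] :=
  Pool.Agent.helper14.QF.covD_F chks_eq (.n 2 (.n 2 (.n 2 (.l 4) (.l 4)) (.n 2 (.l 4) (.l 3))) (.n 2 (.n 2 (.l 3) (.n 2 (.l 3) (.l 3))) (.n 2 (.n 2 (.l 3) (.n 0 (.l 3) (.l 3))) (.n 3 (.l 3) (.n 1 (.l 3) (.l 3))))))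
    [(50165218017280, 687194767360), (236760072192, 4831838208), (824633720832, 274877906944), (962072674304, 137438953472)] rfl (by decide +kernel)
theorem c40_50_m11_t8 : CovD 0 progs [(50165218017280, 687194767360), (246423748608, 4831838208), (824633720832, 274877906944), (962072674304, 137438953472)] :=
  Pool.Agent.helper14.QF.covD_F chks_eq (.n 2 (.n 2 (.n 2 (.l 4) (.l 4)) (.n 2 (.l 4) (.l 3))) (.n 2 (.n 2 (.n 0 (.l 3) (.l 3)) (.n 2 (.l 3) (.l 3))) (.n 2 (.n 2 (.l 3) (.n 0 (.l 3) (.l 3))) (.n 2 (.n 2 (.l 3) (.l 3)) (.n 3 (.l 3) (.l 3))))))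
    [(50165218017280, 687194767360), (246423748608, 4831838208), (824633720832, 274877906944), (962072674304, 137438953472)] rfl (by decide +kernel)
end
mutual
theorem c40_50_m11_t10 : CovD 0 progs [(50165218017280, 687194767360), (260919263232, 9663676416), (687194767360, 137438953472), (962072674304, 137438953472)] :=
  Pool.Agent.helper14.QF.covD_F chks_eq (.n 2 (.n 2 (.l 4) (.l 4)) (.n 2 (.n 0 (.l 4) (.l 4)) (.n 2 (.l 3) (.l 3))))
    [(50165218017280, 687194767360), (260919263232, 9663676416), (687194767360, 137438953472), (962072674304, 137438953472)] rfl (by decide +kernel)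
theorem c40_50_m11_t11 : CovD 0 progs [(50165218017280, 687194767360), (260919263232, 9663676416), (962072674304, 137438953472), (962072674304, 137438953472)] :=
  Pool.Agent.helper14.QF.covD_F chks_eq (.n 2 (.n 2 (.n 2 (.l 3) (.n 0 (.l 3) (.l 3))) (.n 2 (.n 1 (.l 3) (.l 3)) (.n 3 (.l 3) (.l 3)))) (.n 2 (.n 2 (.n 3 (.l 3) (.n 0 (.l 3) (.l 3))) (.n 3 (.l 3) (.n 0 (.l 3) (.l 3)))) (.n 2 (.n 3 (.l 3) (.n 1 (.l 3) (.l 3))) (.n 1 (.n 3 (.l 3) (.l 3)) (.n 3 (.l 3) (.l 3))))))
    [(50165218017280, 687194767360), (260919263232, 9663676416), (962072674304, 137438953472), (962072674304, 137438953472)] rfl (by decide +kernel)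
end
mutual
theorem c40_50_m11_t14 : CovD 0 progs [(50165218017280, 687194767360), (280246616064, 9663676416), (687194767360, 137438953472), (962072674304, 137438953472)] :=
  Pool.Agent.helper14.QF.covD_F chks_eq (.n 2 (.n 2 (.l 6) (.l 4)) (.n 2 (.n 1 (.l 4) (.l 4)) (.n 2 (.l 3) (.l 3))))
    [(50165218017280, 687194767360), (280246616064, 9663676416), (687194767360, 137438953472), (962072674304, 137438953472)] rfl (by decide +kernel)
theorem c40_50_m11_t15 : CovD 0 progs [(50165218017280, 687194767360), (280246616064, 9663676416), (893353197568, 68719476736), (962072674304, 137438953472)] :=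
  Pool.Agent.helper14.QF.covD_F chks_eq (.n 2 (.n 1 (.n 2 (.l 3) (.l 3)) (.n 2 (.l 3) (.l 3))) (.n 2 (.n 3 (.l 3) (.l 3)) (.n 3 (.l 3) (.n 0 (.l 3) (.l 3)))))
    [(50165218017280, 687194767360), (280246616064, 9663676416), (893353197568, 68719476736), (962072674304, 137438953472)] rfl (by decide +kernel)
end
mutual
theorem c40_50_m11_t16 : CovD 0 progs [(50165218017280, 687194767360), (280246616064, 9663676416), (1030792151040, 68719476736), (962072674304, 137438953472)] :=
  Pool.Agent.helper14.QF.covD_F chks_eq (.n 2 (.n 2 (.n 3 (.l 3) (.n 1 (.l 3) (.l 3))) (.n 1 (.n 3 (.l 3) (.l 3)) (.n 3 (.l 3) (.l 3)))) (.n 1 (.n 2 (.n 3 (.l 3) (.l 3)) (.n 3 (.l 3) (.l 3))) (.n 2 (.n 3 (.l 3) (.l 3)) (.n 3 (.l 3) (.n 0 (.l 3) (.l 3))))))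
    [(50165218017280, 687194767360), (280246616064, 9663676416), (1030792151040, 68719476736), (962072674304, 137438953472)] rfl (by decide +kernel)
theorem c40_50_m11_t19 : CovD 0 progs [(50165218017280, 687194767360), (299573968896, 9663676416), (687194767360, 137438953472), (962072674304, 137438953472)] :=
  Pool.Agent.helper14.QF.covD_F chks_eq (.n 2 (.l 10) (.n 3 (.l 10) (.n 2 (.l 10) (.n 2 (.l 3) (.l 3)))))
    [(50165218017280, 687194767360), (299573968896, 9663676416), (687194767360, 137438953472), (962072674304, 137438953472)] rfl (by decide +kernel)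
end
mutual
theorem c40_50_m11_t20 : CovD 0 progs [(50165218017280, 687194767360), (299573968896, 9663676416), (893353197568, 68719476736), (962072674304, 137438953472)] :=
  Pool.Agent.helper14.QF.covD_F chks_eq (.n 2 (.n 2 (.n 1 (.l 3) (.l 3)) (.n 3 (.l 3) (.l 3))) (.n 2 (.n 3 (.l 3) (.n 0 (.l 3) (.l 3))) (.n 3 (.l 3) (.n 1 (.l 3) (.l 3)))))
    [(50165218017280, 687194767360), (299573968896, 9663676416), (893353197568, 68719476736), (962072674304, 137438953472)] rfl (by decide +kernel)
theorem c40_50_m11_t21 : CovD 0 progs [(49821620633600, 343597383680), (299573968896, 9663676416), (1030792151040, 68719476736), (962072674304, 137438953472)] :=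
  Pool.Agent.helper14.QF.covD_F chks_eq (.n 2 (.n 2 (.n 3 (.l 3) (.n 1 (.l 3) (.l 3))) (.n 3 (.l 3) (.n 1 (.l 3) (.l 3)))) (.n 2 (.n 1 (.n 3 (.l 3) (.l 3)) (.n 3 (.l 3) (.l 3))) (.n 3 (.n 1 (.l 3) (.l 3)) (.n 3 (.l 3) (.l 3)))))
    [(49821620633600, 343597383680), (299573968896, 9663676416), (1030792151040, 68719476736), (962072674304, 137438953472)] rfl (by decide +kernel)
end
mutual
theorem c40_50_m11_t22 : CovD 0 progs [(50508815400960, 343597383680), (299573968896, 9663676416), (1030792151040, 68719476736), (962072674304, 137438953472)] :=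
  Pool.Agent.helper14.QF.covD_F chks_eq (.n 2 (.n 2 (.n 3 (.l 3) (.n 1 (.l 3) (.l 3))) (.n 3 (.l 3) (.n 1 (.l 3) (.l 3)))) (.n 1 (.n 2 (.n 3 (.l 3) (.l 3)) (.n 3 (.l 3) (.l 3))) (.n 2 (.n 3 (.l 3) (.l 3)) (.n 3 (.l 3) (.n 0 (.l 3) (.l 3))))))
    [(50508815400960, 343597383680), (299573968896, 9663676416), (1030792151040, 68719476736), (962072674304, 137438953472)] rfl (by decide +kernel)
theorem c40_50_m11_t29 : CovD 0 progs [(51539607552000, 687194767360), (173946175488, 19327352832), (824633720832, 274877906944), (962072674304, 137438953472)] :=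
  Pool.Agent.helper14.QF.covD_F chks_eq (.n 1 (.n 2 (.n 2 (.n 2 (.l 4) (.l 4)) (.n 1 (.l 4) (.l 4))) (.n 2 (.n 2 (.l 3) (.l 3)) (.n 1 (.n 2 (.l 3) (.l 3)) (.n 2 (.l 3) (.l 3))))) (.n 2 (.n 2 (.n 2 (.l 4) (.l 4)) (.n 2 (.l 4) (.l 3))) (.n 1 (.n 2 (.n 2 (.l 3) (.l 3)) (.n 2 (.l 3) (.n 0 (.l 3) (.l 3)))) (.n 2 (.n 2 (.l 3) (.l 3)) (.n 2 (.l 3) (.n 1 (.l 3) (.l 3)))))))
    [(51539607552000, 687194767360), (173946175488, 19327352832), (824633720832, 274877906944), (962072674304, 137438953472)] rfl (by decide +kernel)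
end
mutual
theorem c40_50_m11_t30 : CovD 0 progs [(51539607552000, 687194767360), (202937204736, 9663676416), (824633720832, 274877906944), (962072674304, 137438953472)] :=
  Pool.Agent.helper14.QF.covD_F chks_eq (.n 1 (.n 2 (.n 2 (.l 8) (.n 2 (.l 4) (.l 3))) (.n 2 (.n 2 (.l 3) (.l 3)) (.n 2 (.n 0 (.l 3) (.l 3)) (.n 2 (.l 3) (.l 3))))) (.n 2 (.n 2 (.l 8) (.n 2 (.l 4) (.l 3))) (.n 2 (.n 2 (.l 3) (.l 3)) (.n 2 (.n 2 (.l 3) (.l 3)) (.n 2 (.l 3) (.l 3))))))
    [(51539607552000, 687194767360), (202937204736, 9663676416), (824633720832, 274877906944), (962072674304, 137438953472)] rfl (by decide +kernel)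
theorem c40_50_m11_t31 : CovD 0 progs [(51539607552000, 687194767360), (222264557568, 9663676416), (824633720832, 274877906944), (962072674304, 137438953472)] :=
  Pool.Agent.helper14.QF.covD_F chks_eq (.n 1 (.n 2 (.n 2 (.n 0 (.l 8) (.l 8)) (.n 2 (.l 4) (.l 3))) (.n 2 (.n 2 (.l 3) (.n 0 (.l 3) (.l 3))) (.n 2 (.n 2 (.l 3) (.l 3)) (.n 2 (.l 3) (.n 0 (.l 3) (.l 3)))))) (.n 2 (.n 2 (.n 2 (.l 4) (.l 4)) (.n 2 (.l 4) (.l 3))) (.n 2 (.n 2 (.l 3) (.n 2 (.l 3) (.l 3))) (.n 2 (.n 2 (.l 3) (.l 3)) (.n 3 (.l 3) (.n 1 (.l 3) (.l 3)))))))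
    [(51539607552000, 687194767360), (222264557568, 9663676416), (824633720832, 274877906944), (962072674304, 137438953472)] rfl (by decide +kernel)
end
mutual
theorem c40_50_m11_t34 : CovD 0 progs [(51539607552000, 687194767360), (241591910400, 9663676416), (687194767360, 137438953472), (962072674304, 137438953472)] :=
  Pool.Agent.helper14.QF.covD_F chks_eq (.n 2 (.n 2 (.l 4) (.l 4)) (.n 2 (.l 4) (.n 1 (.l 3) (.l 3))))
    [(51539607552000, 687194767360), (241591910400, 9663676416), (687194767360, 137438953472), (962072674304, 137438953472)] rfl (by decide +kernel)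
theorem c40_50_m11_t35 : CovD 0 progs [(51539607552000, 687194767360), (241591910400, 9663676416), (962072674304, 137438953472), (962072674304, 137438953472)] :=
  Pool.Agent.helper14.QF.covD_F chks_eq (.n 1 (.n 2 (.n 2 (.n 0 (.l 3) (.l 3)) (.n 2 (.l 3) (.l 3))) (.n 2 (.n 2 (.l 3) (.n 0 (.l 3) (.l 3))) (.n 2 (.n 1 (.l 3) (.l 3)) (.n 3 (.l 3) (.l 3))))) (.n 2 (.n 2 (.n 1 (.l 3) (.l 3)) (.n 2 (.l 3) (.l 3))) (.n 2 (.n 3 (.l 3) (.n 1 (.l 3) (.l 3))) (.n 2 (.n 3 (.l 3) (.l 3)) (.n 3 (.l 3) (.l 3))))))
    [(51539607552000, 687194767360), (241591910400, 9663676416), (962072674304, 137438953472), (962072674304, 137438953472)] rfl (by decide +kernel)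
end
mutual
theorem c40_50_m11_t37 : CovD 0 progs [(51539607552000, 687194767360), (260919263232, 9663676416), (687194767360, 137438953472), (962072674304, 137438953472)] :=
  Pool.Agent.helper14.QF.covD_F chks_eq (.n 2 (.n 2 (.l 4) (.l 4)) (.n 2 (.n 0 (.l 4) (.l 4)) (.n 2 (.l 3) (.l 3))))
    [(51539607552000, 687194767360), (260919263232, 9663676416), (687194767360, 137438953472), (962072674304, 137438953472)] rfl (by decide +kernel)
theorem c40_50_m11_t38 : CovD 0 progs [(51539607552000, 687194767360), (260919263232, 9663676416), (962072674304, 137438953472), (962072674304, 137438953472)] :=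
  Pool.Agent.helper14.QF.covD_F chks_eq (.n 2 (.n 2 (.n 2 (.l 3) (.n 1 (.l 3) (.l 3))) (.n 2 (.n 1 (.l 3) (.l 3)) (.n 3 (.l 3) (.l 3)))) (.n 2 (.n 2 (.n 3 (.l 3) (.n 0 (.l 3) (.l 3))) (.n 3 (.l 3) (.n 1 (.l 3) (.l 3)))) (.n 1 (.n 2 (.n 3 (.l 3) (.l 3)) (.n 3 (.l 3) (.l 3))) (.n 2 (.n 3 (.l 3) (.l 3)) (.n 3 (.l 3) (.l 3))))))
    [(51539607552000, 687194767360), (260919263232, 9663676416), (962072674304, 137438953472), (962072674304, 137438953472)] rfl (by decide +kernel)
end
mutual
theorem c40_50_m11_t41 : CovD 0 progs [(51539607552000, 687194767360), (280246616064, 9663676416), (687194767360, 137438953472), (962072674304, 137438953472)] :=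
  Pool.Agent.helper14.QF.covD_F chks_eq (.n 2 (.n 2 (.l 6) (.l 4)) (.n 2 (.n 1 (.l 4) (.l 4)) (.n 2 (.l 3) (.l 3))))
    [(51539607552000, 687194767360), (280246616064, 9663676416), (687194767360, 137438953472), (962072674304, 137438953472)] rfl (by decide +kernel)
theorem c40_50_m11_t42 : CovD 0 progs [(51539607552000, 687194767360), (280246616064, 9663676416), (893353197568, 68719476736), (962072674304, 137438953472)] :=
  Pool.Agent.helper14.QF.covD_F chks_eq (.n 2 (.n 1 (.n 2 (.l 3) (.l 3)) (.n 2 (.l 3) (.l 3))) (.n 2 (.n 3 (.l 3) (.l 3)) (.n 3 (.l 3) (.n 0 (.l 3) (.l 3)))))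
    [(51539607552000, 687194767360), (280246616064, 9663676416), (893353197568, 68719476736), (962072674304, 137438953472)] rfl (by decide +kernel)
end
mutual
theorem c40_50_m11_t43 : CovD 0 progs [(51539607552000, 687194767360), (280246616064, 9663676416), (1030792151040, 68719476736), (962072674304, 137438953472)] :=
  Pool.Agent.helper14.QF.covD_F chks_eq (.n 2 (.n 2 (.n 3 (.l 3) (.n 1 (.l 3) (.l 3))) (.n 1 (.n 3 (.l 3) (.l 3)) (.n 3 (.l 3) (.l 3)))) (.n 1 (.n 2 (.n 3 (.l 3) (.l 3)) (.n 3 (.l 3) (.n 0 (.l 3) (.l 3)))) (.n 2 (.n 3 (.l 3) (.n 0 (.l 3) (.l 3))) (.n 3 (.l 3) (.n 0 (.l 3) (.l 3))))))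
    [(51539607552000, 687194767360), (280246616064, 9663676416), (1030792151040, 68719476736), (962072674304, 137438953472)] rfl (by decide +kernel)
theorem c40_50_m11_t46 : CovD 0 progs [(51539607552000, 687194767360), (299573968896, 9663676416), (687194767360, 137438953472), (962072674304, 137438953472)] :=
  Pool.Agent.helper14.QF.covD_F chks_eq (.n 2 (.l 10) (.n 3 (.l 10) (.n 2 (.l 10) (.n 2 (.l 3) (.l 3)))))
    [(51539607552000, 687194767360), (299573968896, 9663676416), (687194767360, 137438953472), (962072674304, 137438953472)] rfl (by decide +kernel)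
end
mutual
theorem c40_50_m11_t47 : CovD 0 progs [(51539607552000, 687194767360), (299573968896, 9663676416), (893353197568, 68719476736), (962072674304, 137438953472)] :=
  Pool.Agent.helper14.QF.covD_F chks_eq (.n 2 (.n 2 (.n 3 (.l 3) (.l 3)) (.n 3 (.l 3) (.l 3))) (.n 2 (.n 3 (.l 3) (.n 0 (.l 3) (.l 3))) (.n 3 (.l 3) (.n 1 (.l 3) (.l 3)))))
    [(51539607552000, 687194767360), (299573968896, 9663676416), (893353197568, 68719476736), (962072674304, 137438953472)] rfl (by decide +kernel)
theorem c40_50_m11_t48 : CovD 0 progs [(51196010168320, 343597383680), (299573968896, 9663676416), (1030792151040, 68719476736), (962072674304, 137438953472)] :=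
  Pool.Agent.helper14.QF.covD_F chks_eq (.n 2 (.n 2 (.n 3 (.l 3) (.n 1 (.l 3) (.l 3))) (.n 1 (.n 3 (.l 3) (.l 3)) (.n 3 (.l 3) (.l 3)))) (.n 1 (.n 2 (.n 3 (.l 3) (.l 3)) (.n 3 (.l 3) (.l 3))) (.n 2 (.n 3 (.l 3) (.l 3)) (.n 3 (.l 3) (.n 0 (.l 3) (.l 3))))))
    [(51196010168320, 343597383680), (299573968896, 9663676416), (1030792151040, 68719476736), (962072674304, 137438953472)] rfl (by decide +kernel)
theorem c40_50_m11_t49 : CovD 0 progs [(51883204935680, 343597383680), (299573968896, 9663676416), (1030792151040, 68719476736), (962072674304, 137438953472)] :=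
  Pool.Agent.helper14.QF.covD_F chks_eq (.n 2 (.n 2 (.n 3 (.l 3) (.n 1 (.l 3) (.l 3))) (.n 1 (.n 3 (.l 3) (.l 3)) (.n 3 (.l 3) (.l 3)))) (.n 2 (.n 1 (.n 3 (.l 3) (.l 3)) (.n 3 (.l 3) (.l 3))) (.n 3 (.n 1 (.l 3) (.l 3)) (.n 3 (.l 3) (.n 0 (.l 3) (.l 3))))))
    [(51883204935680, 343597383680), (299573968896, 9663676416), (1030792151040, 68719476736), (962072674304, 137438953472)] rfl (by decide +kernel)
end
theorem c40_50_m11_t2 : CovD 0 progs [(50165218017280, 687194767360), (173946175488, 19327352832), (824633720832, 274877906944), (962072674304, 137438953472)] :=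
  covD_split 1 (by decide +kernel) c40_50_m11_t0 c40_50_m11_t1
theorem c40_50_m11_t5 : CovD 0 progs [(50165218017280, 687194767360), (212600881152, 19327352832), (824633720832, 274877906944), (962072674304, 137438953472)] :=
  covD_split 1 (by decide +kernel) c40_50_m11_t3 c40_50_m11_t4
theorem c40_50_m11_t6 : CovD 0 progs [(50165218017280, 687194767360), (193273528320, 38654705664), (824633720832, 274877906944), (962072674304, 137438953472)] :=
  covD_split 1 (by decide +kernel) c40_50_m11_t2 c40_50_m11_t5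
theorem c40_50_m11_t9 : CovD 0 progs [(50165218017280, 687194767360), (241591910400, 9663676416), (824633720832, 274877906944), (962072674304, 137438953472)] :=
  covD_split 1 (by decide +kernel) c40_50_m11_t7 c40_50_m11_t8
theorem c40_50_m11_t12 : CovD 0 progs [(50165218017280, 687194767360), (260919263232, 9663676416), (824633720832, 274877906944), (962072674304, 137438953472)] :=
  covD_split 2 (by decide +kernel) c40_50_m11_t10 c40_50_m11_t11
theorem c40_50_m11_t13 : CovD 0 progs [(50165218017280, 687194767360), (251255586816, 19327352832), (824633720832, 274877906944), (962072674304, 137438953472)] :=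
  covD_split 1 (by decide +kernel) c40_50_m11_t9 c40_50_m11_t12
theorem c40_50_m11_t17 : CovD 0 progs [(50165218017280, 687194767360), (280246616064, 9663676416), (962072674304, 137438953472), (962072674304, 137438953472)] :=
  covD_split 2 (by decide +kernel) c40_50_m11_t15 c40_50_m11_t16
theorem c40_50_m11_t18 : CovD 0 progs [(50165218017280, 687194767360), (280246616064, 9663676416), (824633720832, 274877906944), (962072674304, 137438953472)] :=
  covD_split 2 (by decide +kernel) c40_50_m11_t14 c40_50_m11_t17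
theorem c40_50_m11_t23 : CovD 0 progs [(50165218017280, 687194767360), (299573968896, 9663676416), (1030792151040, 68719476736), (962072674304, 137438953472)] :=
  covD_split 0 (by decide +kernel) c40_50_m11_t21 c40_50_m11_t22
theorem c40_50_m11_t24 : CovD 0 progs [(50165218017280, 687194767360), (299573968896, 9663676416), (962072674304, 137438953472), (962072674304, 137438953472)] :=
  covD_split 2 (by decide +kernel) c40_50_m11_t20 c40_50_m11_t23
theorem c40_50_m11_t25 : CovD 0 progs [(50165218017280, 687194767360), (299573968896, 9663676416), (824633720832, 274877906944), (962072674304, 137438953472)] :=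
  covD_split 2 (by decide +kernel) c40_50_m11_t19 c40_50_m11_t24
theorem c40_50_m11_t26 : CovD 0 progs [(50165218017280, 687194767360), (289910292480, 19327352832), (824633720832, 274877906944), (962072674304, 137438953472)] :=
  covD_split 1 (by decide +kernel) c40_50_m11_t18 c40_50_m11_t25
theorem c40_50_m11_t27 : CovD 0 progs [(50165218017280, 687194767360), (270582939648, 38654705664), (824633720832, 274877906944), (962072674304, 137438953472)] :=
  covD_split 1 (by decide +kernel) c40_50_m11_t13 c40_50_m11_t26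
theorem c40_50_m11_t28 : CovD 0 progs [(50165218017280, 687194767360), (231928233984, 77309411328), (824633720832, 274877906944), (962072674304, 137438953472)] :=
  covD_split 1 (by decide +kernel) c40_50_m11_t6 c40_50_m11_t27
theorem c40_50_m11_t32 : CovD 0 progs [(51539607552000, 687194767360), (212600881152, 19327352832), (824633720832, 274877906944), (962072674304, 137438953472)] :=
  covD_split 1 (by decide +kernel) c40_50_m11_t30 c40_50_m11_t31
theorem c40_50_m11_t33 : CovD 0 progs [(51539607552000, 687194767360), (193273528320, 38654705664), (824633720832, 274877906944), (962072674304, 137438953472)] :=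
  covD_split 1 (by decide +kernel) c40_50_m11_t29 c40_50_m11_t32
theorem c40_50_m11_t36 : CovD 0 progs [(51539607552000, 687194767360), (241591910400, 9663676416), (824633720832, 274877906944), (962072674304, 137438953472)] :=
  covD_split 2 (by decide +kernel) c40_50_m11_t34 c40_50_m11_t35
theorem c40_50_m11_t39 : CovD 0 progs [(51539607552000, 687194767360), (260919263232, 9663676416), (824633720832, 274877906944), (962072674304, 137438953472)] :=
  covD_split 2 (by decide +kernel) c40_50_m11_t37 c40_50_m11_t38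
theorem c40_50_m11_t40 : CovD 0 progs [(51539607552000, 687194767360), (251255586816, 19327352832), (824633720832, 274877906944), (962072674304, 137438953472)] :=
  covD_split 1 (by decide +kernel) c40_50_m11_t36 c40_50_m11_t39
theorem c40_50_m11_t44 : CovD 0 progs [(51539607552000, 687194767360), (280246616064, 9663676416), (962072674304, 137438953472), (962072674304, 137438953472)] :=
  covD_split 2 (by decide +kernel) c40_50_m11_t42 c40_50_m11_t43
theorem c40_50_m11_t45 : CovD 0 progs [(51539607552000, 687194767360), (280246616064, 9663676416), (824633720832, 274877906944), (962072674304, 137438953472)] :=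
  covD_split 2 (by decide +kernel) c40_50_m11_t41 c40_50_m11_t44
theorem c40_50_m11_t50 : CovD 0 progs [(51539607552000, 687194767360), (299573968896, 9663676416), (1030792151040, 68719476736), (962072674304, 137438953472)] :=
  covD_split 0 (by decide +kernel) c40_50_m11_t48 c40_50_m11_t49
theorem c40_50_m11_t51 : CovD 0 progs [(51539607552000, 687194767360), (299573968896, 9663676416), (962072674304, 137438953472), (962072674304, 137438953472)] :=
  covD_split 2 (by decide +kernel) c40_50_m11_t47 c40_50_m11_t50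
theorem c40_50_m11_t52 : CovD 0 progs [(51539607552000, 687194767360), (299573968896, 9663676416), (824633720832, 274877906944), (962072674304, 137438953472)] :=
  covD_split 2 (by decide +kernel) c40_50_m11_t46 c40_50_m11_t51
theorem c40_50_m11_t53 : CovD 0 progs [(51539607552000, 687194767360), (289910292480, 19327352832), (824633720832, 274877906944), (962072674304, 137438953472)] :=
  covD_split 1 (by decide +kernel) c40_50_m11_t45 c40_50_m11_t52
theorem c40_50_m11_t54 : CovD 0 progs [(51539607552000, 687194767360), (270582939648, 38654705664), (824633720832, 274877906944), (962072674304, 137438953472)] :=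
  covD_split 1 (by decide +kernel) c40_50_m11_t40 c40_50_m11_t53
theorem c40_50_m11_t55 : CovD 0 progs [(51539607552000, 687194767360), (231928233984, 77309411328), (824633720832, 274877906944), (962072674304, 137438953472)] :=
  covD_split 1 (by decide +kernel) c40_50_m11_t33 c40_50_m11_t54
theorem c40_50_m11 : CovD 0 progs [(50852412784640, 1374389534720), (231928233984, 77309411328), (824633720832, 274877906944), (962072674304, 137438953472)] :=
  covD_split 0 (by decide +kernel) c40_50_m11_t28 c40_50_m11_t55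

end Pool.Agent.helper71.FG.Crt.L
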