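import Pool.Agent.helper71.FG.Crt.LP

/-!
Generated certificates.
-/

namespace Pool.Agent.helper71.FG.Crt.L

open Pool.Agent.helper31.IA (Z Op)
open Pool.Agent.helper31.IC

mutual
theorem c40_50_m12_t0 : CovD 0 progs [(52913997086720, 687194767360), (164282499072, 9663676416), (824633720832, 274877906944), (962072674304, 137438953472)] :=
  Pool.Agent.helper14.QF.covD_F chks_eq (.n 2 (.n 2 (.n 2 (.l 4) (.l 4)) (.n 1 (.l 4) (.l 4))) (.n 2 (.n 2 (.l 3) (.l 3)) (.n 1 (.n 2 (.l 3) (.l 3)) (.n 2 (.l 3) (.n 0 (.l 3) (.l 3))))))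
    [(52913997086720, 687194767360), (164282499072, 9663676416), (824633720832, 274877906944), (962072674304, 137438953472)] rfl (by decide +kernel)
theorem c40_50_m12_t1 : CovD 0 progs [(52913997086720, 687194767360), (183609851904, 9663676416), (824633720832, 274877906944), (962072674304, 137438953472)] :=
  Pool.Agent.helper14.QF.covD_F chks_eq (.n 2 (.n 2 (.n 2 (.l 4) (.l 4)) (.n 2 (.l 4) (.l 3))) (.n 1 (.n 2 (.n 2 (.l 3) (.l 3)) (.n 2 (.l 3) (.n 1 (.l 3) (.l 3)))) (.n 2 (.n 2 (.l 3) (.l 3)) (.n 2 (.n 0 (.l 3) (.l 3)) (.n 2 (.l 3) (.l 3))))))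
    [(52913997086720, 687194767360), (183609851904, 9663676416), (824633720832, 274877906944), (962072674304, 137438953472)] rfl (by decide +kernel)
end
mutual
theorem c40_50_m12_t3 : CovD 0 progs [(52913997086720, 687194767360), (202937204736, 9663676416), (824633720832, 274877906944), (962072674304, 137438953472)] :=
  Pool.Agent.helper14.QF.covD_F chks_eq (.n 1 (.n 2 (.n 2 (.l 8) (.n 2 (.l 4) (.l 3))) (.n 2 (.n 2 (.l 3) (.l 3)) (.n 2 (.n 1 (.l 3) (.l 3)) (.n 2 (.l 3) (.l 3))))) (.n 2 (.n 2 (.l 8) (.n 2 (.l 4) (.l 3))) (.n 2 (.n 2 (.l 3) (.n 0 (.l 3) (.l 3))) (.n 2 (.n 2 (.l 3) (.l 3)) (.n 2 (.l 3) (.n 0 (.l 3) (.l 3)))))))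
    [(52913997086720, 687194767360), (202937204736, 9663676416), (824633720832, 274877906944), (962072674304, 137438953472)] rfl (by decide +kernel)
theorem c40_50_m12_t4 : CovD 0 progs [(52913997086720, 687194767360), (217432719360, 4831838208), (824633720832, 274877906944), (962072674304, 137438953472)] :=
  Pool.Agent.helper14.QF.covD_F chks_eq (.n 2 (.n 2 (.n 1 (.l 6) (.l 6)) (.n 2 (.l 4) (.l 3))) (.n 2 (.n 2 (.l 3) (.n 1 (.l 3) (.l 3))) (.n 2 (.n 2 (.l 3) (.l 3)) (.n 3 (.l 3) (.n 1 (.l 3) (.l 3))))))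
    [(52913997086720, 687194767360), (217432719360, 4831838208), (824633720832, 274877906944), (962072674304, 137438953472)] rfl (by decide +kernel)
end
mutual
theorem c40_50_m12_t5 : CovD 0 progs [(52913997086720, 687194767360), (227096395776, 4831838208), (824633720832, 274877906944), (962072674304, 137438953472)] :=
  Pool.Agent.helper14.QF.covD_F chks_eq (.n 2 (.n 2 (.n 2 (.l 4) (.l 4)) (.n 2 (.l 4) (.l 3))) (.n 2 (.n 2 (.l 3) (.n 2 (.l 3) (.l 3))) (.n 2 (.n 2 (.l 3) (.n 0 (.l 3) (.l 3))) (.n 3 (.l 3) (.n 1 (.l 3) (.l 3))))))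
    [(52913997086720, 687194767360), (227096395776, 4831838208), (824633720832, 274877906944), (962072674304, 137438953472)] rfl (by decide +kernel)
theorem c40_50_m12_t9 : CovD 0 progs [(52913997086720, 687194767360), (241591910400, 9663676416), (687194767360, 137438953472), (962072674304, 137438953472)] :=
  Pool.Agent.helper14.QF.covD_F chks_eq (.n 2 (.n 2 (.l 4) (.l 4)) (.n 2 (.l 4) (.n 1 (.l 3) (.l 3))))
    [(52913997086720, 687194767360), (241591910400, 9663676416), (687194767360, 137438953472), (962072674304, 137438953472)] rfl (by decide +kernel)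
end
mutual
theorem c40_50_m12_t10 : CovD 0 progs [(52913997086720, 687194767360), (241591910400, 9663676416), (962072674304, 137438953472), (962072674304, 137438953472)] :=
  Pool.Agent.helper14.QF.covD_F chks_eq (.n 1 (.n 2 (.n 2 (.n 1 (.l 3) (.l 3)) (.n 2 (.l 3) (.l 3))) (.n 2 (.n 2 (.l 3) (.n 0 (.l 3) (.l 3))) (.n 2 (.n 2 (.l 3) (.l 3)) (.n 3 (.l 3) (.l 3))))) (.n 2 (.n 2 (.n 2 (.l 3) (.l 3)) (.n 2 (.l 3) (.l 3))) (.n 2 (.n 3 (.l 3) (.n 2 (.l 3) (.l 3))) (.n 2 (.n 3 (.l 3) (.l 3)) (.n 3 (.l 3) (.l 3))))))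
    [(52913997086720, 687194767360), (241591910400, 9663676416), (962072674304, 137438953472), (962072674304, 137438953472)] rfl (by decide +kernel)
theorem c40_50_m12_t12 : CovD 0 progs [(52913997086720, 687194767360), (260919263232, 9663676416), (687194767360, 137438953472), (962072674304, 137438953472)] :=
  Pool.Agent.helper14.QF.covD_F chks_eq (.n 2 (.n 2 (.l 4) (.l 4)) (.n 2 (.n 1 (.l 4) (.l 4)) (.n 2 (.l 3) (.l 3))))
    [(52913997086720, 687194767360), (260919263232, 9663676416), (687194767360, 137438953472), (962072674304, 137438953472)] rfl (by decide +kernel)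
end
mutual
theorem c40_50_m12_t13 : CovD 0 progs [(52913997086720, 687194767360), (260919263232, 9663676416), (962072674304, 137438953472), (962072674304, 137438953472)] :=
  Pool.Agent.helper14.QF.covD_F chks_eq (.n 2 (.n 2 (.n 1 (.n 2 (.l 3) (.l 3)) (.n 2 (.l 3) (.l 3))) (.n 2 (.n 1 (.l 3) (.l 3)) (.n 3 (.l 3) (.l 3)))) (.n 2 (.n 2 (.n 3 (.l 3) (.n 0 (.l 3) (.l 3))) (.n 3 (.l 3) (.n 1 (.l 3) (.l 3)))) (.n 1 (.n 2 (.n 3 (.l 3) (.l 3)) (.n 3 (.l 3) (.l 3))) (.n 2 (.n 3 (.l 3) (.l 3)) (.n 3 (.l 3) (.n 0 (.l 3) (.l 3)))))))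
    [(52913997086720, 687194767360), (260919263232, 9663676416), (962072674304, 137438953472), (962072674304, 137438953472)] rfl (by decide +kernel)
theorem c40_50_m12_t16 : CovD 0 progs [(52913997086720, 687194767360), (280246616064, 9663676416), (687194767360, 137438953472), (962072674304, 137438953472)] :=
  Pool.Agent.helper14.QF.covD_F chks_eq (.n 1 (.n 2 (.n 2 (.l 4) (.l 4)) (.n 2 (.l 4) (.n 2 (.l 3) (.l 3)))) (.n 2 (.l 10) (.n 3 (.l 10) (.n 2 (.l 3) (.l 3)))))
    [(52913997086720, 687194767360), (280246616064, 9663676416), (687194767360, 137438953472), (962072674304, 137438953472)] rfl (by decide +kernel)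
end
mutual
theorem c40_50_m12_t17 : CovD 0 progs [(52913997086720, 687194767360), (280246616064, 9663676416), (893353197568, 68719476736), (962072674304, 137438953472)] :=
  Pool.Agent.helper14.QF.covD_F chks_eq (.n 2 (.n 2 (.n 1 (.l 3) (.l 3)) (.n 3 (.l 3) (.l 3))) (.n 2 (.n 3 (.l 3) (.n 0 (.l 3) (.l 3))) (.n 3 (.l 3) (.n 1 (.l 3) (.l 3)))))
    [(52913997086720, 687194767360), (280246616064, 9663676416), (893353197568, 68719476736), (962072674304, 137438953472)] rfl (by decide +kernel)
theorem c40_50_m12_t18 : CovD 0 progs [(52570399703040, 343597383680), (280246616064, 9663676416), (1030792151040, 68719476736), (962072674304, 137438953472)] :=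
  Pool.Agent.helper14.QF.covD_F chks_eq (.n 2 (.n 2 (.n 3 (.l 3) (.n 1 (.l 3) (.l 3))) (.n 3 (.l 3) (.n 1 (.l 3) (.l 3)))) (.n 1 (.n 2 (.n 3 (.l 3) (.l 3)) (.n 3 (.l 3) (.l 3))) (.n 2 (.n 3 (.l 3) (.l 3)) (.n 3 (.l 3) (.l 3)))))
    [(52570399703040, 343597383680), (280246616064, 9663676416), (1030792151040, 68719476736), (962072674304, 137438953472)] rfl (by decide +kernel)
end
mutual
theorem c40_50_m12_t19 : CovD 0 progs [(53257594470400, 343597383680), (280246616064, 9663676416), (1030792151040, 68719476736), (962072674304, 137438953472)] :=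
  Pool.Agent.helper14.QF.covD_F chks_eq (.n 2 (.n 2 (.n 3 (.l 3) (.n 1 (.l 3) (.l 3))) (.n 3 (.l 3) (.n 1 (.l 3) (.l 3)))) (.n 1 (.n 2 (.n 3 (.l 3) (.l 3)) (.n 3 (.l 3) (.l 3))) (.n 2 (.n 3 (.l 3) (.l 3)) (.n 3 (.l 3) (.l 3)))))
    [(53257594470400, 343597383680), (280246616064, 9663676416), (1030792151040, 68719476736), (962072674304, 137438953472)] rfl (by decide +kernel)
theorem c40_50_m12_t23 : CovD 0 progs [(52913997086720, 687194767360), (299573968896, 9663676416), (687194767360, 137438953472), (962072674304, 137438953472)] :=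
  Pool.Agent.helper14.QF.covD_F chks_eq (.n 2 (.l 10) (.n 3 (.l 10) (.n 2 (.l 10) (.n 2 (.l 3) (.l 3)))))
    [(52913997086720, 687194767360), (299573968896, 9663676416), (687194767360, 137438953472), (962072674304, 137438953472)] rfl (by decide +kernel)
end
mutual
theorem c40_50_m12_t24 : CovD 0 progs [(52913997086720, 687194767360), (299573968896, 9663676416), (893353197568, 68719476736), (962072674304, 137438953472)] :=
  Pool.Agent.helper14.QF.covD_F chks_eq (.n 2 (.n 2 (.n 3 (.l 3) (.l 3)) (.n 3 (.l 3) (.n 0 (.l 3) (.l 3)))) (.n 2 (.n 3 (.l 3) (.n 1 (.l 3) (.l 3))) (.n 1 (.n 3 (.l 3) (.l 3)) (.n 3 (.l 3) (.l 3)))))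
    [(52913997086720, 687194767360), (299573968896, 9663676416), (893353197568, 68719476736), (962072674304, 137438953472)] rfl (by decide +kernel)
theorem c40_50_m12_t25 : CovD 0 progs [(52570399703040, 343597383680), (299573968896, 9663676416), (1030792151040, 68719476736), (962072674304, 137438953472)] :=
  Pool.Agent.helper14.QF.covD_F chks_eq (.n 2 (.n 2 (.n 3 (.l 3) (.n 1 (.l 3) (.l 3))) (.n 1 (.n 3 (.l 3) (.l 3)) (.n 3 (.l 3) (.l 3)))) (.n 2 (.n 1 (.n 3 (.l 3) (.l 3)) (.n 3 (.l 3) (.n 0 (.l 3) (.l 3)))) (.n 3 (.n 1 (.l 3) (.l 3)) (.n 3 (.l 3) (.n 1 (.l 3) (.l 3))))))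
    [(52570399703040, 343597383680), (299573968896, 9663676416), (1030792151040, 68719476736), (962072674304, 137438953472)] rfl (by decide +kernel)
end
mutual
theorem c40_50_m12_t26 : CovD 0 progs [(53257594470400, 343597383680), (299573968896, 9663676416), (1030792151040, 68719476736), (962072674304, 137438953472)] :=
  Pool.Agent.helper14.QF.covD_F chks_eq (.n 1 (.n 2 (.n 2 (.n 3 (.l 3) (.l 3)) (.n 3 (.l 3) (.l 3))) (.n 2 (.n 3 (.l 3) (.l 3)) (.n 3 (.l 3) (.n 0 (.l 3) (.l 3))))) (.n 2 (.n 2 (.n 3 (.l 3) (.l 3)) (.n 3 (.l 3) (.l 3))) (.n 2 (.n 3 (.l 3) (.n 0 (.l 3) (.l 3))) (.n 3 (.l 3) (.n 1 (.l 3) (.l 3))))))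
    [(53257594470400, 343597383680), (299573968896, 9663676416), (1030792151040, 68719476736), (962072674304, 137438953472)] rfl (by decide +kernel)
theorem c40_50_m12_t33 : CovD 0 progs [(54288386621440, 687194767360), (164282499072, 9663676416), (824633720832, 274877906944), (962072674304, 137438953472)] :=
  Pool.Agent.helper14.QF.covD_F chks_eq (.n 2 (.n 2 (.n 2 (.l 4) (.l 4)) (.n 2 (.l 3) (.l 3))) (.n 2 (.n 2 (.l 3) (.n 0 (.l 3) (.l 3))) (.n 1 (.n 2 (.l 3) (.l 3)) (.n 2 (.l 3) (.n 0 (.l 3) (.l 3))))))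
    [(54288386621440, 687194767360), (164282499072, 9663676416), (824633720832, 274877906944), (962072674304, 137438953472)] rfl (by decide +kernel)
end
mutual
theorem c40_50_m12_t34 : CovD 0 progs [(54288386621440, 687194767360), (183609851904, 9663676416), (824633720832, 274877906944), (962072674304, 137438953472)] :=
  Pool.Agent.helper14.QF.covD_F chks_eq (.n 2 (.n 2 (.n 2 (.l 4) (.l 4)) (.n 2 (.l 4) (.l 3))) (.n 1 (.n 2 (.n 2 (.l 3) (.l 3)) (.n 2 (.l 3) (.n 1 (.l 3) (.l 3)))) (.n 2 (.n 2 (.l 3) (.l 3)) (.n 2 (.n 0 (.l 3) (.l 3)) (.n 2 (.l 3) (.l 3))))))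
    [(54288386621440, 687194767360), (183609851904, 9663676416), (824633720832, 274877906944), (962072674304, 137438953472)] rfl (by decide +kernel)
theorem c40_50_m12_t36 : CovD 0 progs [(54288386621440, 687194767360), (202937204736, 9663676416), (824633720832, 274877906944), (962072674304, 137438953472)] :=
  Pool.Agent.helper14.QF.covD_F chks_eq (.n 1 (.n 2 (.n 2 (.n 0 (.l 8) (.l 8)) (.n 2 (.l 4) (.l 3))) (.n 2 (.n 2 (.l 3) (.l 3)) (.n 2 (.n 1 (.l 3) (.l 3)) (.n 2 (.l 3) (.l 3))))) (.n 2 (.n 2 (.n 0 (.l 8) (.l 6)) (.n 2 (.l 4) (.l 3))) (.n 2 (.n 2 (.l 3) (.n 0 (.l 3) (.l 3))) (.n 2 (.n 2 (.l 3) (.l 3)) (.n 2 (.l 3) (.n 0 (.l 3) (.l 3)))))))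
    [(54288386621440, 687194767360), (202937204736, 9663676416), (824633720832, 274877906944), (962072674304, 137438953472)] rfl (by decide +kernel)
end
mutual
theorem c40_50_m12_t37 : CovD 0 progs [(54288386621440, 687194767360), (217432719360, 4831838208), (824633720832, 274877906944), (962072674304, 137438953472)] :=
  Pool.Agent.helper14.QF.covD_F chks_eq (.n 2 (.n 2 (.n 2 (.l 4) (.l 4)) (.n 2 (.l 4) (.l 3))) (.n 2 (.n 2 (.l 3) (.n 2 (.l 3) (.l 3))) (.n 2 (.n 2 (.l 3) (.l 3)) (.n 3 (.l 3) (.n 1 (.l 3) (.l 3))))))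
    [(54288386621440, 687194767360), (217432719360, 4831838208), (824633720832, 274877906944), (962072674304, 137438953472)] rfl (by decide +kernel)
theorem c40_50_m12_t38 : CovD 0 progs [(54288386621440, 687194767360), (227096395776, 4831838208), (824633720832, 274877906944), (962072674304, 137438953472)] :=
  Pool.Agent.helper14.QF.covD_F chks_eq (.n 2 (.n 2 (.n 2 (.l 4) (.l 4)) (.n 2 (.l 4) (.l 3))) (.n 2 (.n 2 (.n 0 (.l 3) (.l 3)) (.n 2 (.l 3) (.l 3))) (.n 2 (.n 2 (.l 3) (.n 0 (.l 3) (.l 3))) (.n 2 (.n 1 (.l 3) (.l 3)) (.n 3 (.l 3) (.l 3))))))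
    [(54288386621440, 687194767360), (227096395776, 4831838208), (824633720832, 274877906944), (962072674304, 137438953472)] rfl (by decide +kernel)
end
mutual
theorem c40_50_m12_t42 : CovD 0 progs [(54288386621440, 687194767360), (241591910400, 9663676416), (687194767360, 137438953472), (962072674304, 137438953472)] :=
  Pool.Agent.helper14.QF.covD_F chks_eq (.n 2 (.n 2 (.l 4) (.l 4)) (.n 1 (.n 2 (.l 4) (.l 3)) (.n 2 (.l 4) (.l 3))))
    [(54288386621440, 687194767360), (241591910400, 9663676416), (687194767360, 137438953472), (962072674304, 137438953472)] rfl (by decide +kernel)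
theorem c40_50_m12_t43 : CovD 0 progs [(54288386621440, 687194767360), (241591910400, 9663676416), (962072674304, 137438953472), (962072674304, 137438953472)] :=
  Pool.Agent.helper14.QF.covD_F chks_eq (.n 1 (.n 2 (.n 2 (.n 1 (.l 3) (.l 3)) (.n 2 (.l 3) (.l 3))) (.n 2 (.n 3 (.l 3) (.n 1 (.l 3) (.l 3))) (.n 2 (.n 3 (.l 3) (.l 3)) (.n 3 (.l 3) (.l 3))))) (.n 2 (.n 2 (.n 2 (.l 3) (.l 3)) (.n 2 (.l 3) (.l 3))) (.n 2 (.n 2 (.n 1 (.l 3) (.l 3)) (.n 2 (.l 3) (.l 3))) (.n 2 (.n 3 (.l 3) (.l 3)) (.n 3 (.l 3) (.l 3))))))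
    [(54288386621440, 687194767360), (241591910400, 9663676416), (962072674304, 137438953472), (962072674304, 137438953472)] rfl (by decide +kernel)
end
mutual
theorem c40_50_m12_t45 : CovD 0 progs [(54288386621440, 687194767360), (260919263232, 9663676416), (687194767360, 137438953472), (962072674304, 137438953472)] :=
  Pool.Agent.helper14.QF.covD_F chks_eq (.n 2 (.n 2 (.l 4) (.l 4)) (.n 2 (.n 1 (.l 4) (.l 4)) (.n 2 (.l 3) (.l 3))))
    [(54288386621440, 687194767360), (260919263232, 9663676416), (687194767360, 137438953472), (962072674304, 137438953472)] rfl (by decide +kernel)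
theorem c40_50_m12_t46 : CovD 0 progs [(54288386621440, 687194767360), (260919263232, 9663676416), (893353197568, 68719476736), (962072674304, 137438953472)] :=
  Pool.Agent.helper14.QF.covD_F chks_eq (.n 2 (.n 1 (.n 2 (.l 3) (.l 3)) (.n 2 (.l 3) (.l 3))) (.n 2 (.n 3 (.l 3) (.l 3)) (.n 3 (.l 3) (.n 0 (.l 3) (.l 3)))))
    [(54288386621440, 687194767360), (260919263232, 9663676416), (893353197568, 68719476736), (962072674304, 137438953472)] rfl (by decide +kernel)
end
mutual
theorem c40_50_m12_t47 : CovD 0 progs [(54288386621440, 687194767360), (260919263232, 9663676416), (1030792151040, 68719476736), (962072674304, 137438953472)] :=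
  Pool.Agent.helper14.QF.covD_F chks_eq (.n 2 (.n 2 (.n 3 (.l 3) (.n 1 (.l 3) (.l 3))) (.n 1 (.n 3 (.l 3) (.l 3)) (.n 3 (.l 3) (.l 3)))) (.n 1 (.n 2 (.n 3 (.l 3) (.l 3)) (.n 3 (.l 3) (.l 3))) (.n 2 (.n 3 (.l 3) (.l 3)) (.n 3 (.l 3) (.n 0 (.l 3) (.l 3))))))
    [(54288386621440, 687194767360), (260919263232, 9663676416), (1030792151040, 68719476736), (962072674304, 137438953472)] rfl (by decide +kernel)
theorem c40_50_m12_t51 : CovD 0 progs [(54288386621440, 687194767360), (275414777856, 4831838208), (824633720832, 274877906944), (962072674304, 137438953472)] :=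
  Pool.Agent.helper14.QF.covD_F chks_eq (.n 2 (.n 2 (.n 2 (.l 4) (.l 4)) (.n 2 (.l 4) (.n 2 (.l 3) (.l 3)))) (.n 2 (.n 2 (.n 2 (.l 3) (.l 3)) (.n 2 (.n 1 (.l 3) (.l 3)) (.n 2 (.l 3) (.l 3)))) (.n 2 (.n 2 (.n 3 (.l 3) (.l 3)) (.n 3 (.l 3) (.l 3))) (.n 2 (.n 3 (.l 3) (.n 0 (.l 3) (.l 3))) (.n 3 (.l 3) (.n 0 (.l 3) (.l 3)))))))
    [(54288386621440, 687194767360), (275414777856, 4831838208), (824633720832, 274877906944), (962072674304, 137438953472)] rfl (by decide +kernel)
end
mutual
theorem c40_50_m12_t52 : CovD 0 progs [(54288386621440, 687194767360), (285078454272, 4831838208), (824633720832, 274877906944), (962072674304, 137438953472)] :=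
  Pool.Agent.helper14.QF.covD_F chks_eq (.n 2 (.n 2 (.l 10) (.n 2 (.n 0 (.l 4) (.l 4)) (.n 2 (.l 3) (.l 3)))) (.n 2 (.n 2 (.n 2 (.l 3) (.n 0 (.l 3) (.l 3))) (.n 2 (.n 2 (.l 3) (.l 3)) (.n 3 (.l 3) (.l 3)))) (.n 2 (.n 2 (.n 3 (.l 3) (.l 3)) (.n 3 (.l 3) (.l 3))) (.n 2 (.n 3 (.l 3) (.n 0 (.l 3) (.l 3))) (.n 3 (.l 3) (.n 1 (.l 3) (.l 3)))))))
    [(54288386621440, 687194767360), (285078454272, 4831838208), (824633720832, 274877906944), (962072674304, 137438953472)] rfl (by decide +kernel)
theorem c40_50_m12_t54 : CovD 0 progs [(54288386621440, 687194767360), (299573968896, 9663676416), (687194767360, 137438953472), (962072674304, 137438953472)] :=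
  Pool.Agent.helper14.QF.covD_F chks_eq (.n 2 (.l 10) (.n 3 (.l 10) (.n 2 (.l 10) (.n 2 (.l 3) (.l 3)))))
    [(54288386621440, 687194767360), (299573968896, 9663676416), (687194767360, 137438953472), (962072674304, 137438953472)] rfl (by decide +kernel)
end
mutual
theorem c40_50_m12_t55 : CovD 0 progs [(54288386621440, 687194767360), (294742130688, 4831838208), (962072674304, 137438953472), (962072674304, 137438953472)] :=
  Pool.Agent.helper14.QF.covD_F chks_eq (.n 2 (.n 2 (.n 3 (.l 10) (.n 2 (.l 3) (.l 3))) (.n 2 (.n 3 (.l 3) (.l 3)) (.n 3 (.l 3) (.l 3)))) (.n 2 (.n 2 (.n 3 (.l 3) (.l 3)) (.n 3 (.l 3) (.n 0 (.l 3) (.l 3)))) (.n 2 (.n 3 (.l 3) (.n 1 (.l 3) (.l 3))) (.n 2 (.n 3 (.l 3) (.l 3)) (.n 3 (.l 3) (.l 3))))))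
    [(54288386621440, 687194767360), (294742130688, 4831838208), (962072674304, 137438953472), (962072674304, 137438953472)] rfl (by decide +kernel)
theorem c40_50_m12_t56 : CovD 0 progs [(54288386621440, 687194767360), (304405807104, 4831838208), (962072674304, 137438953472), (962072674304, 137438953472)] :=
  Pool.Agent.helper14.QF.covD_F chks_eq (.n 2 (.n 2 (.n 3 (.l 10) (.n 2 (.l 3) (.l 3))) (.n 2 (.n 3 (.l 3) (.l 3)) (.n 3 (.l 3) (.l 3)))) (.n 2 (.n 2 (.n 3 (.l 3) (.n 0 (.l 3) (.l 3))) (.n 3 (.l 3) (.n 0 (.l 3) (.l 3)))) (.n 2 (.n 2 (.n 3 (.l 3) (.l 3)) (.n 3 (.l 3) (.l 3))) (.n 3 (.n 0 (.l 3) (.l 3)) (.n 3 (.l 3) (.l 3))))))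
    [(54288386621440, 687194767360), (304405807104, 4831838208), (962072674304, 137438953472), (962072674304, 137438953472)] rfl (by decide +kernel)
end
theorem c40_50_m12_t2 : CovD 0 progs [(52913997086720, 687194767360), (173946175488, 19327352832), (824633720832, 274877906944), (962072674304, 137438953472)] :=
  covD_split 1 (by decide +kernel) c40_50_m12_t0 c40_50_m12_t1
theorem c40_50_m12_t6 : CovD 0 progs [(52913997086720, 687194767360), (222264557568, 9663676416), (824633720832, 274877906944), (962072674304, 137438953472)] :=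
  covD_split 1 (by decide +kernel) c40_50_m12_t4 c40_50_m12_t5
theorem c40_50_m12_t7 : CovD 0 progs [(52913997086720, 687194767360), (212600881152, 19327352832), (824633720832, 274877906944), (962072674304, 137438953472)] :=
  covD_split 1 (by decide +kernel) c40_50_m12_t3 c40_50_m12_t6
theorem c40_50_m12_t8 : CovD 0 progs [(52913997086720, 687194767360), (193273528320, 38654705664), (824633720832, 274877906944), (962072674304, 137438953472)] :=
  covD_split 1 (by decide +kernel) c40_50_m12_t2 c40_50_m12_t7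
theorem c40_50_m12_t11 : CovD 0 progs [(52913997086720, 687194767360), (241591910400, 9663676416), (824633720832, 274877906944), (962072674304, 137438953472)] :=
  covD_split 2 (by decide +kernel) c40_50_m12_t9 c40_50_m12_t10
theorem c40_50_m12_t14 : CovD 0 progs [(52913997086720, 687194767360), (260919263232, 9663676416), (824633720832, 274877906944), (962072674304, 137438953472)] :=
  covD_split 2 (by decide +kernel) c40_50_m12_t12 c40_50_m12_t13
theorem c40_50_m12_t15 : CovD 0 progs [(52913997086720, 687194767360), (251255586816, 19327352832), (824633720832, 274877906944), (962072674304, 137438953472)] :=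
  covD_split 1 (by decide +kernel) c40_50_m12_t11 c40_50_m12_t14
theorem c40_50_m12_t20 : CovD 0 progs [(52913997086720, 687194767360), (280246616064, 9663676416), (1030792151040, 68719476736), (962072674304, 137438953472)] :=
  covD_split 0 (by decide +kernel) c40_50_m12_t18 c40_50_m12_t19
theorem c40_50_m12_t21 : CovD 0 progs [(52913997086720, 687194767360), (280246616064, 9663676416), (962072674304, 137438953472), (962072674304, 137438953472)] :=
  covD_split 2 (by decide +kernel) c40_50_m12_t17 c40_50_m12_t20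
theorem c40_50_m12_t22 : CovD 0 progs [(52913997086720, 687194767360), (280246616064, 9663676416), (824633720832, 274877906944), (962072674304, 137438953472)] :=
  covD_split 2 (by decide +kernel) c40_50_m12_t16 c40_50_m12_t21
theorem c40_50_m12_t27 : CovD 0 progs [(52913997086720, 687194767360), (299573968896, 9663676416), (1030792151040, 68719476736), (962072674304, 137438953472)] :=
  covD_split 0 (by decide +kernel) c40_50_m12_t25 c40_50_m12_t26
theorem c40_50_m12_t28 : CovD 0 progs [(52913997086720, 687194767360), (299573968896, 9663676416), (962072674304, 137438953472), (962072674304, 137438953472)] :=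
  covD_split 2 (by decide +kernel) c40_50_m12_t24 c40_50_m12_t27
theorem c40_50_m12_t29 : CovD 0 progs [(52913997086720, 687194767360), (299573968896, 9663676416), (824633720832, 274877906944), (962072674304, 137438953472)] :=
  covD_split 2 (by decide +kernel) c40_50_m12_t23 c40_50_m12_t28
theorem c40_50_m12_t30 : CovD 0 progs [(52913997086720, 687194767360), (289910292480, 19327352832), (824633720832, 274877906944), (962072674304, 137438953472)] :=
  covD_split 1 (by decide +kernel) c40_50_m12_t22 c40_50_m12_t29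
theorem c40_50_m12_t31 : CovD 0 progs [(52913997086720, 687194767360), (270582939648, 38654705664), (824633720832, 274877906944), (962072674304, 137438953472)] :=
  covD_split 1 (by decide +kernel) c40_50_m12_t15 c40_50_m12_t30
theorem c40_50_m12_t32 : CovD 0 progs [(52913997086720, 687194767360), (231928233984, 77309411328), (824633720832, 274877906944), (962072674304, 137438953472)] :=
  covD_split 1 (by decide +kernel) c40_50_m12_t8 c40_50_m12_t31
theorem c40_50_m12_t35 : CovD 0 progs [(54288386621440, 687194767360), (173946175488, 19327352832), (824633720832, 274877906944), (962072674304, 137438953472)] :=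
  covD_split 1 (by decide +kernel) c40_50_m12_t33 c40_50_m12_t34
theorem c40_50_m12_t39 : CovD 0 progs [(54288386621440, 687194767360), (222264557568, 9663676416), (824633720832, 274877906944), (962072674304, 137438953472)] :=
  covD_split 1 (by decide +kernel) c40_50_m12_t37 c40_50_m12_t38
theorem c40_50_m12_t40 : CovD 0 progs [(54288386621440, 687194767360), (212600881152, 19327352832), (824633720832, 274877906944), (962072674304, 137438953472)] :=
  covD_split 1 (by decide +kernel) c40_50_m12_t36 c40_50_m12_t39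
theorem c40_50_m12_t41 : CovD 0 progs [(54288386621440, 687194767360), (193273528320, 38654705664), (824633720832, 274877906944), (962072674304, 137438953472)] :=
  covD_split 1 (by decide +kernel) c40_50_m12_t35 c40_50_m12_t40
theorem c40_50_m12_t44 : CovD 0 progs [(54288386621440, 687194767360), (241591910400, 9663676416), (824633720832, 274877906944), (962072674304, 137438953472)] :=
  covD_split 2 (by decide +kernel) c40_50_m12_t42 c40_50_m12_t43
theorem c40_50_m12_t48 : CovD 0 progs [(54288386621440, 687194767360), (260919263232, 9663676416), (962072674304, 137438953472), (962072674304, 137438953472)] :=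
  covD_split 2 (by decide +kernel) c40_50_m12_t46 c40_50_m12_t47
theorem c40_50_m12_t49 : CovD 0 progs [(54288386621440, 687194767360), (260919263232, 9663676416), (824633720832, 274877906944), (962072674304, 137438953472)] :=
  covD_split 2 (by decide +kernel) c40_50_m12_t45 c40_50_m12_t48
theorem c40_50_m12_t50 : CovD 0 progs [(54288386621440, 687194767360), (251255586816, 19327352832), (824633720832, 274877906944), (962072674304, 137438953472)] :=
  covD_split 1 (by decide +kernel) c40_50_m12_t44 c40_50_m12_t49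
theorem c40_50_m12_t53 : CovD 0 progs [(54288386621440, 687194767360), (280246616064, 9663676416), (824633720832, 274877906944), (962072674304, 137438953472)] :=
  covD_split 1 (by decide +kernel) c40_50_m12_t51 c40_50_m12_t52
theorem c40_50_m12_t57 : CovD 0 progs [(54288386621440, 687194767360), (299573968896, 9663676416), (962072674304, 137438953472), (962072674304, 137438953472)] :=
  covD_split 1 (by decide +kernel) c40_50_m12_t55 c40_50_m12_t56
theorem c40_50_m12_t58 : CovD 0 progs [(54288386621440, 687194767360), (299573968896, 9663676416), (824633720832, 274877906944), (962072674304, 137438953472)] :=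
  covD_split 2 (by decide +kernel) c40_50_m12_t54 c40_50_m12_t57
theorem c40_50_m12_t59 : CovD 0 progs [(54288386621440, 687194767360), (289910292480, 19327352832), (824633720832, 274877906944), (962072674304, 137438953472)] :=
  covD_split 1 (by decide +kernel) c40_50_m12_t53 c40_50_m12_t58
theorem c40_50_m12_t60 : CovD 0 progs [(54288386621440, 687194767360), (270582939648, 38654705664), (824633720832, 274877906944), (962072674304, 137438953472)] :=
  covD_split 1 (by decide +kernel) c40_50_m12_t50 c40_50_m12_t59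
theorem c40_50_m12_t61 : CovD 0 progs [(54288386621440, 687194767360), (231928233984, 77309411328), (824633720832, 274877906944), (962072674304, 137438953472)] :=
  covD_split 1 (by decide +kernel) c40_50_m12_t41 c40_50_m12_t60
theorem c40_50_m12 : CovD 0 progs [(53601191854080, 1374389534720), (231928233984, 77309411328), (824633720832, 274877906944), (962072674304, 137438953472)] :=
  covD_split 0 (by decide +kernel) c40_50_m12_t32 c40_50_m12_t61

end Pool.Agent.helper71.FG.Crt.L
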