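import Pool.Agent.helper71.FG.Crt.LP

/-!
Generated certificates.
-/

namespace Pool.Agent.helper71.FG.Crt.L

open Pool.Agent.helper31.IA (Z Op)
open Pool.Agent.helper31.IC

mutual
theorem c40_50_m3_t0 : CovD 0 progs [(45354854645760, 1374389534720), (173946175488, 19327352832), (824633720832, 274877906944), (687194767360, 137438953472)] :=
  Pool.Agent.helper14.QF.covD_F chks_eq (.n 1 (.n 2 (.n 2 (.n 0 (.l 8) (.l 8)) (.l 4)) (.n 2 (.n 1 (.l 4) (.l 4)) (.n 2 (.l 4) (.l 4)))) (.n 2 (.n 0 (.n 2 (.l 8) (.l 4)) (.n 2 (.l 8) (.l 4))) (.n 2 (.n 2 (.l 4) (.l 4)) (.n 2 (.l 4) (.n 0 (.l 4) (.l 4))))))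
    [(45354854645760, 1374389534720), (173946175488, 19327352832), (824633720832, 274877906944), (687194767360, 137438953472)] rfl (by decide +kernel)
theorem c40_50_m3_t1 : CovD 0 progs [(45354854645760, 1374389534720), (212600881152, 19327352832), (824633720832, 274877906944), (687194767360, 137438953472)] :=
  Pool.Agent.helper14.QF.covD_F chks_eq (.n 2 (.n 2 (.n 2 (.l 8) (.l 4)) (.n 2 (.l 4) (.n 0 (.l 4) (.l 4)))) (.n 2 (.n 1 (.n 2 (.l 4) (.l 4)) (.n 2 (.l 4) (.n 0 (.l 4) (.l 4)))) (.n 2 (.n 1 (.n 0 (.l 4) (.l 4)) (.n 1 (.l 4) (.l 4))) (.n 1 (.n 1 (.l 4) (.l 4)) (.n 2 (.l 4) (.n 0 (.l 4) (.l 4)))))))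
    [(45354854645760, 1374389534720), (212600881152, 19327352832), (824633720832, 274877906944), (687194767360, 137438953472)] rfl (by decide +kernel)
end
mutual
theorem c40_50_m3_t3 : CovD 0 progs [(45354854645760, 1374389534720), (270582939648, 38654705664), (687194767360, 137438953472), (687194767360, 137438953472)] :=
  Pool.Agent.helper14.QF.covD_F chks_eq (.n 1 (.n 2 (.n 2 (.l 8) (.l 4)) (.n 1 (.n 2 (.l 4) (.l 4)) (.n 2 (.l 4) (.l 4)))) (.n 1 (.n 2 (.l 10) (.l 10)) (.l 10)))
    [(45354854645760, 1374389534720), (270582939648, 38654705664), (687194767360, 137438953472), (687194767360, 137438953472)] rfl (by decide +kernel)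
theorem c40_50_m3_t4 : CovD 0 progs [(45354854645760, 1374389534720), (251255586816, 19327352832), (962072674304, 137438953472), (687194767360, 137438953472)] :=
  Pool.Agent.helper14.QF.covD_F chks_eq (.n 1 (.n 2 (.n 2 (.l 4) (.n 1 (.l 4) (.l 4))) (.n 2 (.n 2 (.l 4) (.n 0 (.l 4) (.l 4))) (.n 1 (.n 2 (.l 4) (.l 4)) (.n 2 (.l 4) (.l 4))))) (.n 2 (.n 2 (.n 0 (.l 4) (.l 4)) (.n 2 (.l 4) (.l 4))) (.n 2 (.n 3 (.l 15) (.n 0 (.l 3) (.l 3))) (.n 3 (.l 15) (.n 2 (.l 3) (.l 3))))))
    [(45354854645760, 1374389534720), (251255586816, 19327352832), (962072674304, 137438953472), (687194767360, 137438953472)] rfl (by decide +kernel)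
end
mutual
theorem c40_50_m3_t5 : CovD 0 progs [(45354854645760, 1374389534720), (289910292480, 19327352832), (962072674304, 137438953472), (687194767360, 137438953472)] :=
  Pool.Agent.helper14.QF.covD_F chks_eq (.n 1 (.n 2 (.n 3 (.l 10) (.n 1 (.n 2 (.l 4) (.l 3)) (.l 10))) (.n 3 (.l 15) (.n 2 (.n 2 (.l 3) (.l 3)) (.n 2 (.l 3) (.n 0 (.l 3) (.l 3)))))) (.n 3 (.l 10) (.n 2 (.l 10) (.n 2 (.l 10) (.n 3 (.l 10) (.n 2 (.l 3) (.l 3)))))))
    [(45354854645760, 1374389534720), (289910292480, 19327352832), (962072674304, 137438953472), (687194767360, 137438953472)] rfl (by decide +kernel)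
theorem c40_50_m3_t9 : CovD 0 progs [(48103633715200, 1374389534720), (173946175488, 19327352832), (824633720832, 274877906944), (687194767360, 137438953472)] :=
  Pool.Agent.helper14.QF.covD_F chks_eq (.n 1 (.n 2 (.n 2 (.n 0 (.l 8) (.l 8)) (.l 4)) (.n 2 (.n 2 (.l 4) (.l 4)) (.n 2 (.l 4) (.n 0 (.l 4) (.l 4))))) (.n 1 (.n 0 (.n 2 (.n 2 (.l 4) (.l 4)) (.n 2 (.l 4) (.n 2 (.l 4) (.l 4)))) (.n 2 (.n 2 (.l 4) (.l 4)) (.n 2 (.l 4) (.n 2 (.l 4) (.l 4))))) (.n 2 (.n 2 (.l 8) (.l 4)) (.n 2 (.n 2 (.l 4) (.l 4)) (.n 2 (.l 4) (.l 4))))))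
    [(48103633715200, 1374389534720), (173946175488, 19327352832), (824633720832, 274877906944), (687194767360, 137438953472)] rfl (by decide +kernel)
end
mutual
theorem c40_50_m3_t10 : CovD 0 progs [(48103633715200, 1374389534720), (202937204736, 9663676416), (824633720832, 274877906944), (687194767360, 137438953472)] :=
  Pool.Agent.helper14.QF.covD_F chks_eq (.n 2 (.n 2 (.n 0 (.l 8) (.l 8)) (.n 2 (.l 4) (.l 4))) (.n 2 (.n 2 (.l 4) (.l 4)) (.n 1 (.n 2 (.l 4) (.l 4)) (.n 2 (.l 4) (.n 0 (.l 4) (.l 4))))))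
    [(48103633715200, 1374389534720), (202937204736, 9663676416), (824633720832, 274877906944), (687194767360, 137438953472)] rfl (by decide +kernel)
theorem c40_50_m3_t11 : CovD 0 progs [(48103633715200, 1374389534720), (222264557568, 9663676416), (824633720832, 274877906944), (687194767360, 137438953472)] :=
  Pool.Agent.helper14.QF.covD_F chks_eq (.n 0 (.n 2 (.n 2 (.l 8) (.n 2 (.l 4) (.l 4))) (.n 2 (.n 2 (.l 4) (.l 4)) (.n 1 (.n 2 (.l 4) (.l 4)) (.n 2 (.l 4) (.l 4))))) (.n 2 (.n 2 (.l 8) (.n 2 (.l 4) (.l 4))) (.n 2 (.n 2 (.l 4) (.l 4)) (.n 2 (.n 1 (.l 4) (.l 4)) (.n 2 (.l 4) (.l 4))))))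
    [(48103633715200, 1374389534720), (222264557568, 9663676416), (824633720832, 274877906944), (687194767360, 137438953472)] rfl (by decide +kernel)
end
mutual
theorem c40_50_m3_t14 : CovD 0 progs [(48103633715200, 1374389534720), (251255586816, 19327352832), (687194767360, 137438953472), (687194767360, 137438953472)] :=
  Pool.Agent.helper14.QF.covD_F chks_eq (.n 2 (.n 2 (.l 8) (.l 4)) (.n 1 (.n 2 (.l 4) (.l 4)) (.n 2 (.l 4) (.n 0 (.l 4) (.l 4)))))
    [(48103633715200, 1374389534720), (251255586816, 19327352832), (687194767360, 137438953472), (687194767360, 137438953472)] rfl (by decide +kernel)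
theorem c40_50_m3_t15 : CovD 0 progs [(48103633715200, 1374389534720), (251255586816, 19327352832), (962072674304, 137438953472), (687194767360, 137438953472)] :=
  Pool.Agent.helper14.QF.covD_F chks_eq (.n 1 (.n 2 (.n 2 (.n 0 (.l 4) (.l 4)) (.n 2 (.l 4) (.l 4))) (.n 2 (.n 3 (.l 15) (.n 0 (.l 3) (.l 3))) (.n 3 (.l 15) (.n 2 (.l 3) (.l 3))))) (.n 2 (.n 2 (.n 1 (.l 4) (.l 4)) (.n 2 (.l 4) (.n 0 (.l 4) (.l 4)))) (.n 3 (.l 15) (.n 2 (.n 2 (.l 3) (.l 3)) (.n 2 (.l 3) (.n 0 (.l 3) (.l 3)))))))
    [(48103633715200, 1374389534720), (251255586816, 19327352832), (962072674304, 137438953472), (687194767360, 137438953472)] rfl (by decide +kernel)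
theorem c40_50_m3_t17 : CovD 0 progs [(48103633715200, 1374389534720), (289910292480, 19327352832), (824633720832, 274877906944), (687194767360, 137438953472)] :=
  Pool.Agent.helper14.QF.covD_F chks_eq (.n 2 (.n 1 (.n 2 (.l 10) (.l 10)) (.l 10)) (.n 2 (.n 3 (.l 10) (.n 1 (.n 1 (.n 2 (.l 4) (.l 3)) (.l 10)) (.l 10))) (.n 3 (.l 15) (.n 1 (.n 2 (.n 2 (.l 3) (.l 3)) (.n 3 (.l 15) (.n 2 (.l 3) (.l 3)))) (.n 2 (.l 10) (.n 1 (.n 2 (.l 3) (.l 3)) (.n 2 (.l 3) (.l 3))))))))
    [(48103633715200, 1374389534720), (289910292480, 19327352832), (824633720832, 274877906944), (687194767360, 137438953472)] rfl (by decide +kernel)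
end
theorem c40_50_m3_t2 : CovD 0 progs [(45354854645760, 1374389534720), (193273528320, 38654705664), (824633720832, 274877906944), (687194767360, 137438953472)] :=
  covD_split 1 (by decide +kernel) c40_50_m3_t0 c40_50_m3_t1
theorem c40_50_m3_t6 : CovD 0 progs [(45354854645760, 1374389534720), (270582939648, 38654705664), (962072674304, 137438953472), (687194767360, 137438953472)] :=
  covD_split 1 (by decide +kernel) c40_50_m3_t4 c40_50_m3_t5
theorem c40_50_m3_t7 : CovD 0 progs [(45354854645760, 1374389534720), (270582939648, 38654705664), (824633720832, 274877906944), (687194767360, 137438953472)] :=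
  covD_split 2 (by decide +kernel) c40_50_m3_t3 c40_50_m3_t6
theorem c40_50_m3_t8 : CovD 0 progs [(45354854645760, 1374389534720), (231928233984, 77309411328), (824633720832, 274877906944), (687194767360, 137438953472)] :=
  covD_split 1 (by decide +kernel) c40_50_m3_t2 c40_50_m3_t7
theorem c40_50_m3_t12 : CovD 0 progs [(48103633715200, 1374389534720), (212600881152, 19327352832), (824633720832, 274877906944), (687194767360, 137438953472)] :=
  covD_split 1 (by decide +kernel) c40_50_m3_t10 c40_50_m3_t11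
theorem c40_50_m3_t13 : CovD 0 progs [(48103633715200, 1374389534720), (193273528320, 38654705664), (824633720832, 274877906944), (687194767360, 137438953472)] :=
  covD_split 1 (by decide +kernel) c40_50_m3_t9 c40_50_m3_t12
theorem c40_50_m3_t16 : CovD 0 progs [(48103633715200, 1374389534720), (251255586816, 19327352832), (824633720832, 274877906944), (687194767360, 137438953472)] :=
  covD_split 2 (by decide +kernel) c40_50_m3_t14 c40_50_m3_t15
theorem c40_50_m3_t18 : CovD 0 progs [(48103633715200, 1374389534720), (270582939648, 38654705664), (824633720832, 274877906944), (687194767360, 137438953472)] :=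
  covD_split 1 (by decide +kernel) c40_50_m3_t16 c40_50_m3_t17
theorem c40_50_m3_t19 : CovD 0 progs [(48103633715200, 1374389534720), (231928233984, 77309411328), (824633720832, 274877906944), (687194767360, 137438953472)] :=
  covD_split 1 (by decide +kernel) c40_50_m3_t13 c40_50_m3_t18
theorem c40_50_m3 : CovD 0 progs [(46729244180480, 2748779069440), (231928233984, 77309411328), (824633720832, 274877906944), (687194767360, 137438953472)] :=
  covD_split 0 (by decide +kernel) c40_50_m3_t8 c40_50_m3_t19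

end Pool.Agent.helper71.FG.Crt.L
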