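import Pool.Agent.helper71.FG.Crt.LP

/-!
Generated certificates.
-/

namespace Pool.Agent.helper71.FG.Crt.L

open Pool.Agent.helper31.IA (Z Op)
open Pool.Agent.helper31.IC

mutual
theorem c40_50_m4_t0 : CovD 0 progs [(45354854645760, 1374389534720), (173946175488, 19327352832), (824633720832, 274877906944), (893353197568, 68719476736)] :=
  Pool.Agent.helper14.QF.covD_F chks_eq (.n 1 (.n 1 (.n 2 (.n 2 (.l 4) (.l 3)) (.n 2 (.l 3) (.n 0 (.l 3) (.l 3)))) (.n 2 (.n 2 (.l 4) (.l 3)) (.n 2 (.l 3) (.n 2 (.l 3) (.l 3))))) (.n 2 (.n 2 (.l 4) (.n 0 (.l 3) (.l 3))) (.n 2 (.n 2 (.l 3) (.l 3)) (.n 2 (.l 3) (.n 0 (.l 3) (.l 3))))))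
    [(45354854645760, 1374389534720), (173946175488, 19327352832), (824633720832, 274877906944), (893353197568, 68719476736)] rfl (by decide +kernel)
theorem c40_50_m4_t1 : CovD 0 progs [(45354854645760, 1374389534720), (212600881152, 19327352832), (824633720832, 274877906944), (893353197568, 68719476736)] :=
  Pool.Agent.helper14.QF.covD_F chks_eq (.n 1 (.n 2 (.n 2 (.l 4) (.n 1 (.l 3) (.l 3))) (.n 2 (.n 2 (.l 3) (.l 3)) (.n 0 (.n 2 (.l 3) (.l 3)) (.n 2 (.l 3) (.l 3))))) (.n 2 (.n 2 (.l 4) (.n 2 (.l 3) (.l 3))) (.n 2 (.n 2 (.l 3) (.l 3)) (.n 1 (.n 2 (.l 3) (.l 3)) (.n 2 (.l 3) (.l 3))))))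
    [(45354854645760, 1374389534720), (212600881152, 19327352832), (824633720832, 274877906944), (893353197568, 68719476736)] rfl (by decide +kernel)
end
mutual
theorem c40_50_m4_t3 : CovD 0 progs [(45354854645760, 1374389534720), (241591910400, 9663676416), (824633720832, 274877906944), (893353197568, 68719476736)] :=
  Pool.Agent.helper14.QF.covD_F chks_eq (.n 1 (.n 2 (.n 2 (.l 4) (.n 2 (.l 3) (.l 3))) (.n 2 (.n 2 (.l 3) (.l 3)) (.n 2 (.l 3) (.n 0 (.l 3) (.l 3))))) (.n 2 (.n 2 (.l 4) (.n 2 (.l 3) (.l 3))) (.n 2 (.n 2 (.l 3) (.l 3)) (.n 2 (.l 3) (.n 0 (.l 3) (.l 3))))))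
    [(45354854645760, 1374389534720), (241591910400, 9663676416), (824633720832, 274877906944), (893353197568, 68719476736)] rfl (by decide +kernel)
theorem c40_50_m4_t4 : CovD 0 progs [(45354854645760, 1374389534720), (260919263232, 9663676416), (824633720832, 274877906944), (893353197568, 68719476736)] :=
  Pool.Agent.helper14.QF.covD_F chks_eq (.n 2 (.n 2 (.n 2 (.l 4) (.l 4)) (.n 2 (.l 3) (.l 3))) (.n 1 (.n 2 (.n 2 (.l 3) (.l 3)) (.n 0 (.n 2 (.l 3) (.l 3)) (.n 2 (.l 3) (.l 3)))) (.n 2 (.n 2 (.l 3) (.l 3)) (.n 2 (.n 0 (.l 3) (.l 3)) (.n 2 (.l 3) (.l 3))))))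
    [(45354854645760, 1374389534720), (260919263232, 9663676416), (824633720832, 274877906944), (893353197568, 68719476736)] rfl (by decide +kernel)
end
mutual
theorem c40_50_m4_t6 : CovD 0 progs [(45354854645760, 1374389534720), (280246616064, 9663676416), (824633720832, 274877906944), (893353197568, 68719476736)] :=
  Pool.Agent.helper14.QF.covD_F chks_eq (.n 2 (.n 2 (.l 10) (.n 2 (.l 4) (.l 3))) (.n 0 (.n 1 (.n 2 (.n 2 (.l 3) (.l 3)) (.n 2 (.l 3) (.n 0 (.l 3) (.l 3)))) (.n 2 (.n 2 (.l 3) (.l 3)) (.n 2 (.l 3) (.n 0 (.l 3) (.l 3))))) (.n 2 (.n 2 (.l 3) (.n 1 (.l 3) (.l 3))) (.n 2 (.n 2 (.l 3) (.l 3)) (.n 2 (.l 3) (.n 0 (.l 3) (.l 3)))))))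
    [(45354854645760, 1374389534720), (280246616064, 9663676416), (824633720832, 274877906944), (893353197568, 68719476736)] rfl (by decide +kernel)
theorem c40_50_m4_t7 : CovD 0 progs [(45354854645760, 1374389534720), (299573968896, 9663676416), (824633720832, 274877906944), (893353197568, 68719476736)] :=
  Pool.Agent.helper14.QF.covD_F chks_eq (.n 2 (.n 1 (.l 10) (.l 10)) (.n 2 (.n 2 (.n 1 (.l 3) (.l 10)) (.n 2 (.l 3) (.n 0 (.l 3) (.l 3)))) (.n 2 (.n 0 (.n 2 (.l 3) (.l 3)) (.n 2 (.l 3) (.l 3))) (.n 1 (.n 2 (.l 3) (.n 0 (.l 3) (.l 3))) (.n 0 (.n 2 (.l 3) (.l 3)) (.n 2 (.l 3) (.l 3)))))))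
    [(45354854645760, 1374389534720), (299573968896, 9663676416), (824633720832, 274877906944), (893353197568, 68719476736)] rfl (by decide +kernel)
end
mutual
theorem c40_50_m4_t11 : CovD 0 progs [(48103633715200, 1374389534720), (173946175488, 19327352832), (824633720832, 274877906944), (893353197568, 68719476736)] :=
  Pool.Agent.helper14.QF.covD_F chks_eq (.n 1 (.n 2 (.n 2 (.l 4) (.l 3)) (.n 2 (.n 2 (.l 3) (.l 3)) (.n 2 (.l 3) (.l 3)))) (.n 2 (.n 2 (.l 4) (.n 1 (.l 3) (.l 3))) (.n 2 (.n 2 (.l 3) (.l 3)) (.n 2 (.l 3) (.n 0 (.l 3) (.l 3))))))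
    [(48103633715200, 1374389534720), (173946175488, 19327352832), (824633720832, 274877906944), (893353197568, 68719476736)] rfl (by decide +kernel)
theorem c40_50_m4_t12 : CovD 0 progs [(48103633715200, 1374389534720), (212600881152, 19327352832), (824633720832, 274877906944), (893353197568, 68719476736)] :=
  Pool.Agent.helper14.QF.covD_F chks_eq (.n 1 (.n 2 (.n 2 (.l 4) (.n 2 (.l 3) (.l 3))) (.n 2 (.n 2 (.l 3) (.l 3)) (.n 1 (.n 2 (.l 3) (.l 3)) (.n 2 (.l 3) (.l 3))))) (.n 2 (.n 2 (.n 0 (.l 4) (.l 4)) (.n 2 (.l 3) (.l 3))) (.n 2 (.n 2 (.l 3) (.n 0 (.l 3) (.l 3))) (.n 2 (.n 1 (.l 3) (.l 3)) (.n 2 (.l 3) (.n 0 (.l 3) (.l 3)))))))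
    [(48103633715200, 1374389534720), (212600881152, 19327352832), (824633720832, 274877906944), (893353197568, 68719476736)] rfl (by decide +kernel)
end
mutual
theorem c40_50_m4_t14 : CovD 0 progs [(48103633715200, 1374389534720), (241591910400, 9663676416), (824633720832, 274877906944), (893353197568, 68719476736)] :=
  Pool.Agent.helper14.QF.covD_F chks_eq (.n 1 (.n 2 (.n 2 (.l 4) (.n 2 (.l 3) (.l 3))) (.n 2 (.n 2 (.l 3) (.l 3)) (.n 0 (.n 2 (.l 3) (.l 3)) (.n 2 (.l 3) (.l 3))))) (.n 2 (.n 2 (.n 0 (.l 4) (.l 4)) (.n 2 (.l 3) (.l 3))) (.n 2 (.n 2 (.l 3) (.l 3)) (.n 0 (.n 2 (.l 3) (.l 3)) (.n 2 (.l 3) (.l 3))))))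
    [(48103633715200, 1374389534720), (241591910400, 9663676416), (824633720832, 274877906944), (893353197568, 68719476736)] rfl (by decide +kernel)
theorem c40_50_m4_t15 : CovD 0 progs [(48103633715200, 1374389534720), (260919263232, 9663676416), (824633720832, 274877906944), (893353197568, 68719476736)] :=
  Pool.Agent.helper14.QF.covD_F chks_eq (.n 2 (.n 2 (.n 2 (.l 4) (.l 4)) (.n 2 (.l 4) (.l 3))) (.n 1 (.n 2 (.n 2 (.l 3) (.l 3)) (.n 2 (.n 0 (.l 3) (.l 3)) (.n 2 (.l 3) (.l 3)))) (.n 2 (.n 2 (.l 3) (.n 0 (.l 3) (.l 3))) (.n 2 (.n 0 (.l 3) (.l 3)) (.n 2 (.l 3) (.l 3))))))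
    [(48103633715200, 1374389534720), (260919263232, 9663676416), (824633720832, 274877906944), (893353197568, 68719476736)] rfl (by decide +kernel)
end
mutual
theorem c40_50_m4_t17 : CovD 0 progs [(48103633715200, 1374389534720), (280246616064, 9663676416), (824633720832, 274877906944), (893353197568, 68719476736)] :=
  Pool.Agent.helper14.QF.covD_F chks_eq (.n 2 (.n 2 (.l 10) (.n 1 (.n 2 (.l 4) (.l 3)) (.l 10))) (.n 0 (.n 2 (.n 1 (.n 2 (.l 3) (.l 3)) (.n 2 (.l 3) (.l 3))) (.n 2 (.n 2 (.l 3) (.l 3)) (.n 0 (.n 2 (.l 3) (.l 3)) (.n 2 (.l 3) (.l 3))))) (.n 2 (.n 1 (.n 2 (.l 3) (.l 3)) (.n 2 (.l 3) (.l 3))) (.n 2 (.n 2 (.l 3) (.l 3)) (.n 1 (.n 2 (.l 3) (.l 3)) (.n 2 (.l 3) (.l 3)))))))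
    [(48103633715200, 1374389534720), (280246616064, 9663676416), (824633720832, 274877906944), (893353197568, 68719476736)] rfl (by decide +kernel)
theorem c40_50_m4_t18 : CovD 0 progs [(48103633715200, 1374389534720), (299573968896, 9663676416), (824633720832, 274877906944), (893353197568, 68719476736)] :=
  Pool.Agent.helper14.QF.covD_F chks_eq (.n 2 (.n 1 (.l 10) (.l 10)) (.n 2 (.n 2 (.n 1 (.l 10) (.l 10)) (.n 3 (.l 10) (.n 2 (.l 3) (.l 3)))) (.n 2 (.n 1 (.n 2 (.l 3) (.l 3)) (.n 2 (.l 3) (.n 0 (.l 3) (.l 3)))) (.n 1 (.n 0 (.n 2 (.l 3) (.l 3)) (.n 2 (.l 3) (.l 3))) (.n 0 (.n 2 (.l 3) (.l 3)) (.n 2 (.l 3) (.l 3)))))))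
    [(48103633715200, 1374389534720), (299573968896, 9663676416), (824633720832, 274877906944), (893353197568, 68719476736)] rfl (by decide +kernel)
end
theorem c40_50_m4_t2 : CovD 0 progs [(45354854645760, 1374389534720), (193273528320, 38654705664), (824633720832, 274877906944), (893353197568, 68719476736)] :=
  covD_split 1 (by decide +kernel) c40_50_m4_t0 c40_50_m4_t1
theorem c40_50_m4_t5 : CovD 0 progs [(45354854645760, 1374389534720), (251255586816, 19327352832), (824633720832, 274877906944), (893353197568, 68719476736)] :=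
  covD_split 1 (by decide +kernel) c40_50_m4_t3 c40_50_m4_t4
theorem c40_50_m4_t8 : CovD 0 progs [(45354854645760, 1374389534720), (289910292480, 19327352832), (824633720832, 274877906944), (893353197568, 68719476736)] :=
  covD_split 1 (by decide +kernel) c40_50_m4_t6 c40_50_m4_t7
theorem c40_50_m4_t9 : CovD 0 progs [(45354854645760, 1374389534720), (270582939648, 38654705664), (824633720832, 274877906944), (893353197568, 68719476736)] :=
  covD_split 1 (by decide +kernel) c40_50_m4_t5 c40_50_m4_t8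
theorem c40_50_m4_t10 : CovD 0 progs [(45354854645760, 1374389534720), (231928233984, 77309411328), (824633720832, 274877906944), (893353197568, 68719476736)] :=
  covD_split 1 (by decide +kernel) c40_50_m4_t2 c40_50_m4_t9
theorem c40_50_m4_t13 : CovD 0 progs [(48103633715200, 1374389534720), (193273528320, 38654705664), (824633720832, 274877906944), (893353197568, 68719476736)] :=
  covD_split 1 (by decide +kernel) c40_50_m4_t11 c40_50_m4_t12
theorem c40_50_m4_t16 : CovD 0 progs [(48103633715200, 1374389534720), (251255586816, 19327352832), (824633720832, 274877906944), (893353197568, 68719476736)] :=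
  covD_split 1 (by decide +kernel) c40_50_m4_t14 c40_50_m4_t15
theorem c40_50_m4_t19 : CovD 0 progs [(48103633715200, 1374389534720), (289910292480, 19327352832), (824633720832, 274877906944), (893353197568, 68719476736)] :=
  covD_split 1 (by decide +kernel) c40_50_m4_t17 c40_50_m4_t18
theorem c40_50_m4_t20 : CovD 0 progs [(48103633715200, 1374389534720), (270582939648, 38654705664), (824633720832, 274877906944), (893353197568, 68719476736)] :=
  covD_split 1 (by decide +kernel) c40_50_m4_t16 c40_50_m4_t19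
theorem c40_50_m4_t21 : CovD 0 progs [(48103633715200, 1374389534720), (231928233984, 77309411328), (824633720832, 274877906944), (893353197568, 68719476736)] :=
  covD_split 1 (by decide +kernel) c40_50_m4_t13 c40_50_m4_t20
theorem c40_50_m4 : CovD 0 progs [(46729244180480, 2748779069440), (231928233984, 77309411328), (824633720832, 274877906944), (893353197568, 68719476736)] :=
  covD_split 0 (by decide +kernel) c40_50_m4_t10 c40_50_m4_t21

end Pool.Agent.helper71.FG.Crt.L
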