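import Pool.Agent.helper71.FG.Crt.LP

/-!
Generated certificates.
-/

namespace Pool.Agent.helper71.FG.Crt.L

open Pool.Agent.helper31.IA (Z Op)
open Pool.Agent.helper31.IC

mutual
theorem c40_50_m5_t0 : CovD 0 progs [(44667659878400, 687194767360), (173946175488, 19327352832), (824633720832, 274877906944), (1030792151040, 68719476736)] :=
  Pool.Agent.helper14.QF.covD_F chks_eq (.n 1 (.n 2 (.n 2 (.l 3) (.l 3)) (.n 2 (.n 1 (.l 3) (.l 3)) (.n 2 (.l 3) (.l 3)))) (.n 2 (.n 2 (.l 4) (.l 3)) (.n 2 (.n 2 (.l 3) (.l 3)) (.n 2 (.l 3) (.l 3)))))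
    [(44667659878400, 687194767360), (173946175488, 19327352832), (824633720832, 274877906944), (1030792151040, 68719476736)] rfl (by decide +kernel)
theorem c40_50_m5_t1 : CovD 0 progs [(44667659878400, 687194767360), (212600881152, 19327352832), (824633720832, 274877906944), (1030792151040, 68719476736)] :=
  Pool.Agent.helper14.QF.covD_F chks_eq (.n 1 (.n 2 (.n 2 (.l 4) (.n 1 (.l 3) (.l 3))) (.n 2 (.n 2 (.l 3) (.l 3)) (.n 2 (.l 3) (.n 1 (.l 3) (.l 3))))) (.n 2 (.n 2 (.l 4) (.n 2 (.l 3) (.l 3))) (.n 1 (.n 2 (.n 2 (.l 3) (.l 3)) (.n 2 (.l 3) (.l 3))) (.n 2 (.n 2 (.l 3) (.l 3)) (.n 2 (.l 3) (.l 3))))))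
    [(44667659878400, 687194767360), (212600881152, 19327352832), (824633720832, 274877906944), (1030792151040, 68719476736)] rfl (by decide +kernel)
end
mutual
theorem c40_50_m5_t3 : CovD 0 progs [(44667659878400, 687194767360), (241591910400, 9663676416), (824633720832, 274877906944), (1030792151040, 68719476736)] :=
  Pool.Agent.helper14.QF.covD_F chks_eq (.n 1 (.n 2 (.n 2 (.l 4) (.n 2 (.l 3) (.l 3))) (.n 2 (.n 2 (.l 3) (.l 3)) (.n 2 (.l 3) (.l 3)))) (.n 2 (.n 2 (.l 4) (.n 2 (.l 3) (.l 3))) (.n 2 (.n 2 (.l 3) (.l 3)) (.n 2 (.l 3) (.n 0 (.l 3) (.l 3))))))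
    [(44667659878400, 687194767360), (241591910400, 9663676416), (824633720832, 274877906944), (1030792151040, 68719476736)] rfl (by decide +kernel)
theorem c40_50_m5_t4 : CovD 0 progs [(44667659878400, 687194767360), (260919263232, 9663676416), (824633720832, 274877906944), (1030792151040, 68719476736)] :=
  Pool.Agent.helper14.QF.covD_F chks_eq (.n 2 (.n 2 (.n 2 (.l 4) (.l 3)) (.n 2 (.l 3) (.l 3))) (.n 2 (.n 2 (.l 3) (.n 1 (.l 3) (.l 3))) (.n 2 (.n 2 (.l 3) (.l 3)) (.n 2 (.l 3) (.n 0 (.l 3) (.l 3))))))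
    [(44667659878400, 687194767360), (260919263232, 9663676416), (824633720832, 274877906944), (1030792151040, 68719476736)] rfl (by decide +kernel)
end
mutual
theorem c40_50_m5_t6 : CovD 0 progs [(44667659878400, 687194767360), (280246616064, 9663676416), (824633720832, 274877906944), (1030792151040, 68719476736)] :=
  Pool.Agent.helper14.QF.covD_F chks_eq (.n 2 (.n 2 (.n 1 (.l 10) (.l 10)) (.n 2 (.l 3) (.l 3))) (.n 0 (.n 2 (.n 2 (.l 3) (.n 1 (.l 3) (.l 3))) (.n 2 (.n 2 (.l 3) (.l 3)) (.n 2 (.l 3) (.n 0 (.l 3) (.l 3))))) (.n 2 (.n 1 (.n 2 (.l 3) (.l 3)) (.n 2 (.l 3) (.l 3))) (.n 2 (.n 2 (.l 3) (.l 3)) (.n 2 (.l 3) (.n 0 (.l 3) (.l 3)))))))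
    [(44667659878400, 687194767360), (280246616064, 9663676416), (824633720832, 274877906944), (1030792151040, 68719476736)] rfl (by decide +kernel)
theorem c40_50_m5_t7 : CovD 0 progs [(44667659878400, 687194767360), (299573968896, 9663676416), (687194767360, 137438953472), (1030792151040, 68719476736)] :=
  Pool.Agent.helper14.QF.covD_F chks_eq (.n 2 (.l 10) (.n 2 (.l 3) (.n 0 (.l 3) (.l 3))))
    [(44667659878400, 687194767360), (299573968896, 9663676416), (687194767360, 137438953472), (1030792151040, 68719476736)] rfl (by decide +kernel)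
end
mutual
theorem c40_50_m5_t8 : CovD 0 progs [(44667659878400, 687194767360), (299573968896, 9663676416), (962072674304, 137438953472), (1030792151040, 68719476736)] :=
  Pool.Agent.helper14.QF.covD_F chks_eq (.n 0 (.n 2 (.n 2 (.n 1 (.l 3) (.l 3)) (.n 2 (.l 3) (.l 3))) (.n 2 (.n 2 (.l 3) (.l 3)) (.n 1 (.n 2 (.l 3) (.l 3)) (.n 2 (.l 3) (.l 3))))) (.n 2 (.n 2 (.n 1 (.l 3) (.l 3)) (.n 2 (.l 3) (.l 3))) (.n 2 (.n 2 (.l 3) (.n 0 (.l 3) (.l 3))) (.n 1 (.n 2 (.l 3) (.l 3)) (.n 2 (.l 3) (.l 3))))))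
    [(44667659878400, 687194767360), (299573968896, 9663676416), (962072674304, 137438953472), (1030792151040, 68719476736)] rfl (by decide +kernel)
theorem c40_50_m5_t13 : CovD 0 progs [(46042049413120, 687194767360), (173946175488, 19327352832), (824633720832, 274877906944), (1030792151040, 68719476736)] :=
  Pool.Agent.helper14.QF.covD_F chks_eq (.n 1 (.n 2 (.n 2 (.l 4) (.l 3)) (.n 2 (.n 1 (.l 3) (.l 3)) (.n 2 (.l 3) (.l 3)))) (.n 2 (.n 2 (.l 4) (.n 0 (.l 3) (.l 3))) (.n 2 (.n 2 (.l 3) (.l 3)) (.n 2 (.l 3) (.n 0 (.l 3) (.l 3))))))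
    [(46042049413120, 687194767360), (173946175488, 19327352832), (824633720832, 274877906944), (1030792151040, 68719476736)] rfl (by decide +kernel)
end
mutual
theorem c40_50_m5_t14 : CovD 0 progs [(46042049413120, 687194767360), (212600881152, 19327352832), (824633720832, 274877906944), (1030792151040, 68719476736)] :=
  Pool.Agent.helper14.QF.covD_F chks_eq (.n 1 (.n 2 (.n 2 (.l 4) (.n 1 (.l 3) (.l 3))) (.n 1 (.n 2 (.n 2 (.l 3) (.l 3)) (.n 2 (.l 3) (.l 3))) (.n 2 (.n 2 (.l 3) (.l 3)) (.n 2 (.l 3) (.l 3))))) (.n 2 (.n 2 (.l 4) (.n 2 (.l 3) (.l 3))) (.n 1 (.n 2 (.n 2 (.l 3) (.l 3)) (.n 2 (.l 3) (.l 3))) (.n 2 (.n 2 (.l 3) (.l 3)) (.n 2 (.l 3) (.l 3))))))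
    [(46042049413120, 687194767360), (212600881152, 19327352832), (824633720832, 274877906944), (1030792151040, 68719476736)] rfl (by decide +kernel)
theorem c40_50_m5_t16 : CovD 0 progs [(46042049413120, 687194767360), (241591910400, 9663676416), (824633720832, 274877906944), (1030792151040, 68719476736)] :=
  Pool.Agent.helper14.QF.covD_F chks_eq (.n 2 (.n 2 (.n 1 (.l 4) (.l 4)) (.n 2 (.l 3) (.l 3))) (.n 1 (.n 2 (.n 2 (.l 3) (.l 3)) (.n 2 (.l 3) (.n 0 (.l 3) (.l 3)))) (.n 2 (.n 2 (.l 3) (.l 3)) (.n 2 (.l 3) (.n 0 (.l 3) (.l 3))))))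
    [(46042049413120, 687194767360), (241591910400, 9663676416), (824633720832, 274877906944), (1030792151040, 68719476736)] rfl (by decide +kernel)
end
mutual
theorem c40_50_m5_t17 : CovD 0 progs [(46042049413120, 687194767360), (260919263232, 9663676416), (824633720832, 274877906944), (1030792151040, 68719476736)] :=
  Pool.Agent.helper14.QF.covD_F chks_eq (.n 2 (.n 2 (.n 2 (.l 4) (.l 3)) (.n 2 (.l 3) (.l 3))) (.n 0 (.n 2 (.n 2 (.l 3) (.n 1 (.l 3) (.l 3))) (.n 2 (.n 1 (.l 3) (.l 3)) (.n 2 (.l 3) (.l 3)))) (.n 2 (.n 2 (.l 3) (.n 1 (.l 3) (.l 3))) (.n 2 (.n 1 (.l 3) (.l 3)) (.n 2 (.l 3) (.n 0 (.l 3) (.l 3)))))))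
    [(46042049413120, 687194767360), (260919263232, 9663676416), (824633720832, 274877906944), (1030792151040, 68719476736)] rfl (by decide +kernel)
theorem c40_50_m5_t19 : CovD 0 progs [(46042049413120, 687194767360), (280246616064, 9663676416), (824633720832, 274877906944), (1030792151040, 68719476736)] :=
  Pool.Agent.helper14.QF.covD_F chks_eq (.n 2 (.n 2 (.n 1 (.l 10) (.l 10)) (.n 2 (.l 3) (.l 3))) (.n 0 (.n 2 (.n 1 (.n 2 (.l 3) (.l 3)) (.n 2 (.l 3) (.l 3))) (.n 2 (.n 2 (.l 3) (.l 3)) (.n 1 (.n 1 (.l 3) (.l 3)) (.n 2 (.l 3) (.l 3))))) (.n 2 (.n 1 (.n 2 (.l 3) (.l 3)) (.n 2 (.l 3) (.l 3))) (.n 2 (.n 2 (.l 3) (.l 3)) (.n 1 (.n 2 (.l 3) (.l 3)) (.n 2 (.l 3) (.l 3)))))))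
    [(46042049413120, 687194767360), (280246616064, 9663676416), (824633720832, 274877906944), (1030792151040, 68719476736)] rfl (by decide +kernel)
end
mutual
theorem c40_50_m5_t20 : CovD 0 progs [(46042049413120, 687194767360), (299573968896, 9663676416), (687194767360, 137438953472), (1030792151040, 68719476736)] :=
  Pool.Agent.helper14.QF.covD_F chks_eq (.n 2 (.l 10) (.n 2 (.l 3) (.n 1 (.l 3) (.l 3))))
    [(46042049413120, 687194767360), (299573968896, 9663676416), (687194767360, 137438953472), (1030792151040, 68719476736)] rfl (by decide +kernel)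
theorem c40_50_m5_t21 : CovD 0 progs [(46042049413120, 687194767360), (299573968896, 9663676416), (962072674304, 137438953472), (1030792151040, 68719476736)] :=
  Pool.Agent.helper14.QF.covD_F chks_eq (.n 0 (.n 2 (.n 2 (.n 1 (.l 3) (.l 3)) (.n 2 (.l 3) (.l 3))) (.n 2 (.n 2 (.l 3) (.n 0 (.l 3) (.l 3))) (.n 1 (.n 2 (.l 3) (.l 3)) (.n 2 (.l 3) (.l 3))))) (.n 2 (.n 2 (.n 1 (.l 3) (.l 3)) (.n 2 (.l 3) (.l 3))) (.n 2 (.n 2 (.l 3) (.n 0 (.l 3) (.l 3))) (.n 1 (.n 2 (.l 3) (.l 3)) (.n 2 (.l 3) (.l 3))))))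
    [(46042049413120, 687194767360), (299573968896, 9663676416), (962072674304, 137438953472), (1030792151040, 68719476736)] rfl (by decide +kernel)
end
mutual
theorem c40_50_m5_t27 : CovD 0 progs [(47416438947840, 687194767360), (173946175488, 19327352832), (824633720832, 274877906944), (1030792151040, 68719476736)] :=
  Pool.Agent.helper14.QF.covD_F chks_eq (.n 1 (.n 2 (.n 2 (.l 4) (.l 3)) (.n 2 (.n 1 (.l 3) (.l 3)) (.n 2 (.l 3) (.l 3)))) (.n 2 (.n 2 (.l 4) (.n 1 (.l 3) (.l 3))) (.n 2 (.n 2 (.l 3) (.l 3)) (.n 2 (.l 3) (.n 0 (.l 3) (.l 3))))))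
    [(47416438947840, 687194767360), (173946175488, 19327352832), (824633720832, 274877906944), (1030792151040, 68719476736)] rfl (by decide +kernel)
theorem c40_50_m5_t28 : CovD 0 progs [(47416438947840, 687194767360), (202937204736, 9663676416), (824633720832, 274877906944), (1030792151040, 68719476736)] :=
  Pool.Agent.helper14.QF.covD_F chks_eq (.n 2 (.n 2 (.l 4) (.n 2 (.l 3) (.l 3))) (.n 1 (.n 2 (.n 2 (.l 3) (.l 3)) (.n 2 (.l 3) (.l 3))) (.n 2 (.n 2 (.l 3) (.l 3)) (.n 2 (.l 3) (.l 3)))))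
    [(47416438947840, 687194767360), (202937204736, 9663676416), (824633720832, 274877906944), (1030792151040, 68719476736)] rfl (by decide +kernel)
end
mutual
theorem c40_50_m5_t29 : CovD 0 progs [(47416438947840, 687194767360), (222264557568, 9663676416), (824633720832, 274877906944), (1030792151040, 68719476736)] :=
  Pool.Agent.helper14.QF.covD_F chks_eq (.n 1 (.n 2 (.n 2 (.l 4) (.n 2 (.l 3) (.l 3))) (.n 2 (.n 2 (.l 3) (.l 3)) (.n 2 (.l 3) (.l 3)))) (.n 2 (.n 2 (.l 4) (.n 2 (.l 3) (.l 3))) (.n 2 (.n 2 (.l 3) (.l 3)) (.n 2 (.l 3) (.n 0 (.l 3) (.l 3))))))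
    [(47416438947840, 687194767360), (222264557568, 9663676416), (824633720832, 274877906944), (1030792151040, 68719476736)] rfl (by decide +kernel)
theorem c40_50_m5_t32 : CovD 0 progs [(47416438947840, 687194767360), (241591910400, 9663676416), (824633720832, 274877906944), (1030792151040, 68719476736)] :=
  Pool.Agent.helper14.QF.covD_F chks_eq (.n 2 (.n 2 (.n 2 (.l 4) (.l 3)) (.n 2 (.l 3) (.l 3))) (.n 2 (.n 2 (.l 3) (.n 1 (.l 3) (.l 3))) (.n 2 (.n 2 (.l 3) (.l 3)) (.n 2 (.l 3) (.n 0 (.l 3) (.l 3))))))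
    [(47416438947840, 687194767360), (241591910400, 9663676416), (824633720832, 274877906944), (1030792151040, 68719476736)] rfl (by decide +kernel)
end
mutual
theorem c40_50_m5_t33 : CovD 0 progs [(47416438947840, 687194767360), (260919263232, 9663676416), (824633720832, 274877906944), (1030792151040, 68719476736)] :=
  Pool.Agent.helper14.QF.covD_F chks_eq (.n 2 (.n 2 (.n 2 (.l 4) (.l 3)) (.n 2 (.l 3) (.l 3))) (.n 0 (.n 2 (.n 2 (.l 3) (.n 1 (.l 3) (.l 3))) (.n 2 (.n 2 (.l 3) (.l 3)) (.n 2 (.l 3) (.n 0 (.l 3) (.l 3))))) (.n 2 (.n 1 (.n 2 (.l 3) (.l 3)) (.n 2 (.l 3) (.l 3))) (.n 2 (.n 2 (.l 3) (.l 3)) (.n 2 (.l 3) (.n 0 (.l 3) (.l 3)))))))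
    [(47416438947840, 687194767360), (260919263232, 9663676416), (824633720832, 274877906944), (1030792151040, 68719476736)] rfl (by decide +kernel)
theorem c40_50_m5_t35 : CovD 0 progs [(47416438947840, 687194767360), (280246616064, 9663676416), (687194767360, 137438953472), (1030792151040, 68719476736)] :=
  Pool.Agent.helper14.QF.covD_F chks_eq (.n 2 (.n 1 (.l 10) (.l 10)) (.n 2 (.l 3) (.n 0 (.l 3) (.l 3))))
    [(47416438947840, 687194767360), (280246616064, 9663676416), (687194767360, 137438953472), (1030792151040, 68719476736)] rfl (by decide +kernel)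
end
mutual
theorem c40_50_m5_t36 : CovD 0 progs [(47416438947840, 687194767360), (280246616064, 9663676416), (962072674304, 137438953472), (1030792151040, 68719476736)] :=
  Pool.Agent.helper14.QF.covD_F chks_eq (.n 0 (.n 2 (.n 1 (.n 2 (.l 3) (.l 3)) (.n 2 (.l 3) (.l 3))) (.n 2 (.n 2 (.l 3) (.l 3)) (.n 1 (.n 2 (.l 3) (.l 3)) (.n 2 (.l 3) (.l 3))))) (.n 2 (.n 2 (.n 1 (.l 3) (.l 3)) (.n 2 (.l 3) (.l 3))) (.n 2 (.n 2 (.l 3) (.l 3)) (.n 1 (.n 2 (.l 3) (.l 3)) (.n 2 (.l 3) (.l 3))))))
    [(47416438947840, 687194767360), (280246616064, 9663676416), (962072674304, 137438953472), (1030792151040, 68719476736)] rfl (by decide +kernel)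
theorem c40_50_m5_t38 : CovD 0 progs [(47416438947840, 687194767360), (299573968896, 9663676416), (687194767360, 137438953472), (1030792151040, 68719476736)] :=
  Pool.Agent.helper14.QF.covD_F chks_eq (.n 2 (.l 10) (.n 2 (.l 3) (.n 1 (.l 3) (.l 3))))
    [(47416438947840, 687194767360), (299573968896, 9663676416), (687194767360, 137438953472), (1030792151040, 68719476736)] rfl (by decide +kernel)
end
mutual
theorem c40_50_m5_t39 : CovD 0 progs [(47416438947840, 687194767360), (299573968896, 9663676416), (962072674304, 137438953472), (1030792151040, 68719476736)] :=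
  Pool.Agent.helper14.QF.covD_F chks_eq (.n 0 (.n 2 (.n 2 (.n 1 (.l 3) (.l 3)) (.n 2 (.l 3) (.l 3))) (.n 2 (.n 2 (.l 3) (.n 1 (.l 3) (.l 3))) (.n 1 (.n 2 (.l 3) (.l 3)) (.n 2 (.l 3) (.l 3))))) (.n 2 (.n 2 (.n 1 (.l 3) (.l 3)) (.n 2 (.l 3) (.l 3))) (.n 1 (.n 2 (.n 2 (.l 3) (.l 3)) (.n 2 (.l 3) (.l 3))) (.n 2 (.n 2 (.l 3) (.l 3)) (.n 2 (.l 3) (.l 3))))))
    [(47416438947840, 687194767360), (299573968896, 9663676416), (962072674304, 137438953472), (1030792151040, 68719476736)] rfl (by decide +kernel)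
theorem c40_50_m5_t44 : CovD 0 progs [(48790828482560, 687194767360), (173946175488, 19327352832), (824633720832, 274877906944), (1030792151040, 68719476736)] :=
  Pool.Agent.helper14.QF.covD_F chks_eq (.n 1 (.n 2 (.n 2 (.l 4) (.l 3)) (.n 2 (.n 2 (.l 3) (.l 3)) (.n 2 (.l 3) (.l 3)))) (.n 2 (.n 2 (.l 4) (.n 1 (.l 3) (.l 3))) (.n 2 (.n 2 (.l 3) (.l 3)) (.n 2 (.l 3) (.n 1 (.l 3) (.l 3))))))
    [(48790828482560, 687194767360), (173946175488, 19327352832), (824633720832, 274877906944), (1030792151040, 68719476736)] rfl (by decide +kernel)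
end
mutual
theorem c40_50_m5_t45 : CovD 0 progs [(48790828482560, 687194767360), (202937204736, 9663676416), (824633720832, 274877906944), (1030792151040, 68719476736)] :=
  Pool.Agent.helper14.QF.covD_F chks_eq (.n 2 (.n 2 (.l 4) (.n 2 (.l 3) (.l 3))) (.n 1 (.n 2 (.n 2 (.l 3) (.l 3)) (.n 2 (.l 3) (.l 3))) (.n 2 (.n 2 (.l 3) (.l 3)) (.n 2 (.l 3) (.l 3)))))
    [(48790828482560, 687194767360), (202937204736, 9663676416), (824633720832, 274877906944), (1030792151040, 68719476736)] rfl (by decide +kernel)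
theorem c40_50_m5_t46 : CovD 0 progs [(48790828482560, 687194767360), (222264557568, 9663676416), (824633720832, 274877906944), (1030792151040, 68719476736)] :=
  Pool.Agent.helper14.QF.covD_F chks_eq (.n 1 (.n 2 (.n 2 (.l 4) (.n 2 (.l 3) (.l 3))) (.n 2 (.n 2 (.l 3) (.l 3)) (.n 2 (.l 3) (.l 3)))) (.n 2 (.n 2 (.l 4) (.n 2 (.l 3) (.l 3))) (.n 2 (.n 2 (.l 3) (.l 3)) (.n 2 (.l 3) (.n 0 (.l 3) (.l 3))))))
    [(48790828482560, 687194767360), (222264557568, 9663676416), (824633720832, 274877906944), (1030792151040, 68719476736)] rfl (by decide +kernel)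
end
mutual
theorem c40_50_m5_t49 : CovD 0 progs [(48790828482560, 687194767360), (241591910400, 9663676416), (824633720832, 274877906944), (1030792151040, 68719476736)] :=
  Pool.Agent.helper14.QF.covD_F chks_eq (.n 2 (.n 2 (.n 2 (.l 4) (.l 3)) (.n 2 (.l 3) (.l 3))) (.n 1 (.n 2 (.n 2 (.l 3) (.l 3)) (.n 2 (.l 3) (.n 1 (.l 3) (.l 3)))) (.n 2 (.n 2 (.l 3) (.l 3)) (.n 2 (.n 0 (.l 3) (.l 3)) (.n 2 (.l 3) (.l 3))))))
    [(48790828482560, 687194767360), (241591910400, 9663676416), (824633720832, 274877906944), (1030792151040, 68719476736)] rfl (by decide +kernel)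
theorem c40_50_m5_t50 : CovD 0 progs [(48790828482560, 687194767360), (260919263232, 9663676416), (824633720832, 274877906944), (1030792151040, 68719476736)] :=
  Pool.Agent.helper14.QF.covD_F chks_eq (.n 2 (.n 2 (.n 2 (.l 4) (.l 3)) (.n 2 (.l 3) (.l 3))) (.n 0 (.n 2 (.n 1 (.n 2 (.l 3) (.l 3)) (.n 2 (.l 3) (.l 3))) (.n 2 (.n 2 (.l 3) (.l 3)) (.n 2 (.l 3) (.n 1 (.l 3) (.l 3))))) (.n 2 (.n 1 (.n 2 (.l 3) (.l 3)) (.n 2 (.l 3) (.l 3))) (.n 2 (.n 2 (.l 3) (.l 3)) (.n 1 (.n 1 (.l 3) (.l 3)) (.n 2 (.l 3) (.l 3)))))))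
    [(48790828482560, 687194767360), (260919263232, 9663676416), (824633720832, 274877906944), (1030792151040, 68719476736)] rfl (by decide +kernel)
end
mutual
theorem c40_50_m5_t52 : CovD 0 progs [(48790828482560, 687194767360), (280246616064, 9663676416), (687194767360, 137438953472), (1030792151040, 68719476736)] :=
  Pool.Agent.helper14.QF.covD_F chks_eq (.n 2 (.n 1 (.l 10) (.l 10)) (.n 2 (.l 3) (.n 0 (.l 3) (.l 3))))
    [(48790828482560, 687194767360), (280246616064, 9663676416), (687194767360, 137438953472), (1030792151040, 68719476736)] rfl (by decide +kernel)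
theorem c40_50_m5_t53 : CovD 0 progs [(48790828482560, 687194767360), (280246616064, 9663676416), (962072674304, 137438953472), (1030792151040, 68719476736)] :=
  Pool.Agent.helper14.QF.covD_F chks_eq (.n 0 (.n 2 (.n 2 (.n 1 (.l 3) (.l 3)) (.n 2 (.l 3) (.l 3))) (.n 2 (.n 2 (.l 3) (.n 0 (.l 3) (.l 3))) (.n 1 (.n 2 (.l 3) (.l 3)) (.n 2 (.l 3) (.l 3))))) (.n 2 (.n 2 (.n 1 (.l 3) (.l 3)) (.n 2 (.l 3) (.l 3))) (.n 2 (.n 2 (.l 3) (.n 0 (.l 3) (.l 3))) (.n 1 (.n 2 (.l 3) (.l 3)) (.n 2 (.l 3) (.l 3))))))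
    [(48790828482560, 687194767360), (280246616064, 9663676416), (962072674304, 137438953472), (1030792151040, 68719476736)] rfl (by decide +kernel)
end
mutual
theorem c40_50_m5_t55 : CovD 0 progs [(48790828482560, 687194767360), (299573968896, 9663676416), (687194767360, 137438953472), (1030792151040, 68719476736)] :=
  Pool.Agent.helper14.QF.covD_F chks_eq (.n 2 (.l 10) (.n 2 (.l 3) (.n 1 (.l 3) (.l 3))))
    [(48790828482560, 687194767360), (299573968896, 9663676416), (687194767360, 137438953472), (1030792151040, 68719476736)] rfl (by decide +kernel)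
theorem c40_50_m5_t56 : CovD 0 progs [(48790828482560, 687194767360), (299573968896, 9663676416), (962072674304, 137438953472), (1030792151040, 68719476736)] :=
  Pool.Agent.helper14.QF.covD_F chks_eq (.n 0 (.n 2 (.n 2 (.n 2 (.l 3) (.l 3)) (.n 2 (.l 3) (.l 3))) (.n 1 (.n 2 (.n 2 (.l 3) (.l 3)) (.n 2 (.l 3) (.l 3))) (.n 2 (.n 2 (.l 3) (.l 3)) (.n 2 (.l 3) (.l 3))))) (.n 2 (.n 2 (.n 2 (.l 3) (.l 3)) (.n 2 (.l 3) (.l 3))) (.n 1 (.n 2 (.n 2 (.l 3) (.l 3)) (.n 2 (.l 3) (.l 3))) (.n 2 (.n 2 (.l 3) (.l 3)) (.n 2 (.l 3) (.l 3))))))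
    [(48790828482560, 687194767360), (299573968896, 9663676416), (962072674304, 137438953472), (1030792151040, 68719476736)] rfl (by decide +kernel)
end
theorem c40_50_m5_t2 : CovD 0 progs [(44667659878400, 687194767360), (193273528320, 38654705664), (824633720832, 274877906944), (1030792151040, 68719476736)] :=
  covD_split 1 (by decide +kernel) c40_50_m5_t0 c40_50_m5_t1
theorem c40_50_m5_t5 : CovD 0 progs [(44667659878400, 687194767360), (251255586816, 19327352832), (824633720832, 274877906944), (1030792151040, 68719476736)] :=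
  covD_split 1 (by decide +kernel) c40_50_m5_t3 c40_50_m5_t4
theorem c40_50_m5_t9 : CovD 0 progs [(44667659878400, 687194767360), (299573968896, 9663676416), (824633720832, 274877906944), (1030792151040, 68719476736)] :=
  covD_split 2 (by decide +kernel) c40_50_m5_t7 c40_50_m5_t8
theorem c40_50_m5_t10 : CovD 0 progs [(44667659878400, 687194767360), (289910292480, 19327352832), (824633720832, 274877906944), (1030792151040, 68719476736)] :=
  covD_split 1 (by decide +kernel) c40_50_m5_t6 c40_50_m5_t9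
theorem c40_50_m5_t11 : CovD 0 progs [(44667659878400, 687194767360), (270582939648, 38654705664), (824633720832, 274877906944), (1030792151040, 68719476736)] :=
  covD_split 1 (by decide +kernel) c40_50_m5_t5 c40_50_m5_t10
theorem c40_50_m5_t12 : CovD 0 progs [(44667659878400, 687194767360), (231928233984, 77309411328), (824633720832, 274877906944), (1030792151040, 68719476736)] :=
  covD_split 1 (by decide +kernel) c40_50_m5_t2 c40_50_m5_t11
theorem c40_50_m5_t15 : CovD 0 progs [(46042049413120, 687194767360), (193273528320, 38654705664), (824633720832, 274877906944), (1030792151040, 68719476736)] :=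
  covD_split 1 (by decide +kernel) c40_50_m5_t13 c40_50_m5_t14
theorem c40_50_m5_t18 : CovD 0 progs [(46042049413120, 687194767360), (251255586816, 19327352832), (824633720832, 274877906944), (1030792151040, 68719476736)] :=
  covD_split 1 (by decide +kernel) c40_50_m5_t16 c40_50_m5_t17
theorem c40_50_m5_t22 : CovD 0 progs [(46042049413120, 687194767360), (299573968896, 9663676416), (824633720832, 274877906944), (1030792151040, 68719476736)] :=
  covD_split 2 (by decide +kernel) c40_50_m5_t20 c40_50_m5_t21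
theorem c40_50_m5_t23 : CovD 0 progs [(46042049413120, 687194767360), (289910292480, 19327352832), (824633720832, 274877906944), (1030792151040, 68719476736)] :=
  covD_split 1 (by decide +kernel) c40_50_m5_t19 c40_50_m5_t22
theorem c40_50_m5_t24 : CovD 0 progs [(46042049413120, 687194767360), (270582939648, 38654705664), (824633720832, 274877906944), (1030792151040, 68719476736)] :=
  covD_split 1 (by decide +kernel) c40_50_m5_t18 c40_50_m5_t23
theorem c40_50_m5_t25 : CovD 0 progs [(46042049413120, 687194767360), (231928233984, 77309411328), (824633720832, 274877906944), (1030792151040, 68719476736)] :=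
  covD_split 1 (by decide +kernel) c40_50_m5_t15 c40_50_m5_t24
theorem c40_50_m5_t26 : CovD 0 progs [(45354854645760, 1374389534720), (231928233984, 77309411328), (824633720832, 274877906944), (1030792151040, 68719476736)] :=
  covD_split 0 (by decide +kernel) c40_50_m5_t12 c40_50_m5_t25
theorem c40_50_m5_t30 : CovD 0 progs [(47416438947840, 687194767360), (212600881152, 19327352832), (824633720832, 274877906944), (1030792151040, 68719476736)] :=
  covD_split 1 (by decide +kernel) c40_50_m5_t28 c40_50_m5_t29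
theorem c40_50_m5_t31 : CovD 0 progs [(47416438947840, 687194767360), (193273528320, 38654705664), (824633720832, 274877906944), (1030792151040, 68719476736)] :=
  covD_split 1 (by decide +kernel) c40_50_m5_t27 c40_50_m5_t30
theorem c40_50_m5_t34 : CovD 0 progs [(47416438947840, 687194767360), (251255586816, 19327352832), (824633720832, 274877906944), (1030792151040, 68719476736)] :=
  covD_split 1 (by decide +kernel) c40_50_m5_t32 c40_50_m5_t33
theorem c40_50_m5_t37 : CovD 0 progs [(47416438947840, 687194767360), (280246616064, 9663676416), (824633720832, 274877906944), (1030792151040, 68719476736)] :=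
  covD_split 2 (by decide +kernel) c40_50_m5_t35 c40_50_m5_t36
theorem c40_50_m5_t40 : CovD 0 progs [(47416438947840, 687194767360), (299573968896, 9663676416), (824633720832, 274877906944), (1030792151040, 68719476736)] :=
  covD_split 2 (by decide +kernel) c40_50_m5_t38 c40_50_m5_t39
theorem c40_50_m5_t41 : CovD 0 progs [(47416438947840, 687194767360), (289910292480, 19327352832), (824633720832, 274877906944), (1030792151040, 68719476736)] :=
  covD_split 1 (by decide +kernel) c40_50_m5_t37 c40_50_m5_t40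
theorem c40_50_m5_t42 : CovD 0 progs [(47416438947840, 687194767360), (270582939648, 38654705664), (824633720832, 274877906944), (1030792151040, 68719476736)] :=
  covD_split 1 (by decide +kernel) c40_50_m5_t34 c40_50_m5_t41
theorem c40_50_m5_t43 : CovD 0 progs [(47416438947840, 687194767360), (231928233984, 77309411328), (824633720832, 274877906944), (1030792151040, 68719476736)] :=
  covD_split 1 (by decide +kernel) c40_50_m5_t31 c40_50_m5_t42
theorem c40_50_m5_t47 : CovD 0 progs [(48790828482560, 687194767360), (212600881152, 19327352832), (824633720832, 274877906944), (1030792151040, 68719476736)] :=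
  covD_split 1 (by decide +kernel) c40_50_m5_t45 c40_50_m5_t46
theorem c40_50_m5_t48 : CovD 0 progs [(48790828482560, 687194767360), (193273528320, 38654705664), (824633720832, 274877906944), (1030792151040, 68719476736)] :=
  covD_split 1 (by decide +kernel) c40_50_m5_t44 c40_50_m5_t47
theorem c40_50_m5_t51 : CovD 0 progs [(48790828482560, 687194767360), (251255586816, 19327352832), (824633720832, 274877906944), (1030792151040, 68719476736)] :=
  covD_split 1 (by decide +kernel) c40_50_m5_t49 c40_50_m5_t50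
theorem c40_50_m5_t54 : CovD 0 progs [(48790828482560, 687194767360), (280246616064, 9663676416), (824633720832, 274877906944), (1030792151040, 68719476736)] :=
  covD_split 2 (by decide +kernel) c40_50_m5_t52 c40_50_m5_t53
theorem c40_50_m5_t57 : CovD 0 progs [(48790828482560, 687194767360), (299573968896, 9663676416), (824633720832, 274877906944), (1030792151040, 68719476736)] :=
  covD_split 2 (by decide +kernel) c40_50_m5_t55 c40_50_m5_t56
theorem c40_50_m5_t58 : CovD 0 progs [(48790828482560, 687194767360), (289910292480, 19327352832), (824633720832, 274877906944), (1030792151040, 68719476736)] :=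
  covD_split 1 (by decide +kernel) c40_50_m5_t54 c40_50_m5_t57
theorem c40_50_m5_t59 : CovD 0 progs [(48790828482560, 687194767360), (270582939648, 38654705664), (824633720832, 274877906944), (1030792151040, 68719476736)] :=
  covD_split 1 (by decide +kernel) c40_50_m5_t51 c40_50_m5_t58
theorem c40_50_m5_t60 : CovD 0 progs [(48790828482560, 687194767360), (231928233984, 77309411328), (824633720832, 274877906944), (1030792151040, 68719476736)] :=
  covD_split 1 (by decide +kernel) c40_50_m5_t48 c40_50_m5_t59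
theorem c40_50_m5_t61 : CovD 0 progs [(48103633715200, 1374389534720), (231928233984, 77309411328), (824633720832, 274877906944), (1030792151040, 68719476736)] :=
  covD_split 0 (by decide +kernel) c40_50_m5_t43 c40_50_m5_t60
theorem c40_50_m5 : CovD 0 progs [(46729244180480, 2748779069440), (231928233984, 77309411328), (824633720832, 274877906944), (1030792151040, 68719476736)] :=
  covD_split 0 (by decide +kernel) c40_50_m5_t26 c40_50_m5_t61

end Pool.Agent.helper71.FG.Crt.L
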