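import Pool.Agent.helper71.FG.Crt.LP

/-!
Generated certificates.
-/

namespace Pool.Agent.helper71.FG.Crt.L

open Pool.Agent.helper31.IA (Z Op)
open Pool.Agent.helper31.IC

mutual
theorem c40_50_m7_t0 : CovD 0 progs [(50165218017280, 687194767360), (38654705664, 38654705664), (687194767360, 137438953472), (549755813888, 549755813888)] :=
  Pool.Agent.helper14.QF.covD_F chks_eq (.n 1 (.n 1 (.n 0 (.l 0) (.l 0)) (.n 1 (.l 2) (.n 2 (.l 2) (.l 2)))) (.n 1 (.n 2 (.n 3 (.l 4) (.l 4)) (.n 1 (.l 4) (.n 1 (.l 4) (.l 9)))) (.n 2 (.n 2 (.n 3 (.l 4) (.l 4)) (.n 3 (.l 4) (.l 4))) (.n 3 (.l 4) (.n 1 (.l 4) (.l 4))))))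
    [(50165218017280, 687194767360), (38654705664, 38654705664), (687194767360, 137438953472), (549755813888, 549755813888)] rfl (by decide +kernel)
theorem c40_50_m7_t1 : CovD 0 progs [(50165218017280, 687194767360), (38654705664, 38654705664), (962072674304, 137438953472), (549755813888, 549755813888)] :=
  Pool.Agent.helper14.QF.covD_F chks_eq (.n 2 (.n 1 (.n 1 (.l 0) (.n 1 (.l 2) (.l 4))) (.n 1 (.n 1 (.l 4) (.l 4)) (.n 3 (.l 4) (.l 9)))) (.n 1 (.n 1 (.n 1 (.l 0) (.l 0)) (.n 1 (.l 2) (.l 4))) (.n 1 (.n 1 (.l 4) (.l 4)) (.n 1 (.l 4) (.l 4)))))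
    [(50165218017280, 687194767360), (38654705664, 38654705664), (962072674304, 137438953472), (549755813888, 549755813888)] rfl (by decide +kernel)
end
mutual
theorem c40_50_m7_t3 : CovD 0 progs [(50165218017280, 687194767360), (86973087744, 9663676416), (824633720832, 274877906944), (549755813888, 549755813888)] :=
  Pool.Agent.helper14.QF.covD_F chks_eq (.n 2 (.n 2 (.n 1 (.n 3 (.l 4) (.n 2 (.l 4) (.l 4))) (.n 3 (.l 9) (.n 2 (.l 8) (.l 4)))) (.n 3 (.l 4) (.n 3 (.l 4) (.l 3)))) (.n 2 (.n 3 (.l 4) (.l 4)) (.n 3 (.l 4) (.n 1 (.l 3) (.l 4)))))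
    [(50165218017280, 687194767360), (86973087744, 9663676416), (824633720832, 274877906944), (549755813888, 549755813888)] rfl (by decide +kernel)
theorem c40_50_m7_t4 : CovD 0 progs [(50165218017280, 687194767360), (106300440576, 9663676416), (824633720832, 274877906944), (549755813888, 549755813888)] :=
  Pool.Agent.helper14.QF.covD_F chks_eq (.n 2 (.n 2 (.n 1 (.n 3 (.l 8) (.n 3 (.l 4) (.l 4))) (.n 3 (.l 8) (.n 3 (.l 4) (.l 4)))) (.n 3 (.l 4) (.n 3 (.l 4) (.l 3)))) (.n 2 (.n 3 (.l 4) (.l 4)) (.n 3 (.l 4) (.n 2 (.l 4) (.l 4)))))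
    [(50165218017280, 687194767360), (106300440576, 9663676416), (824633720832, 274877906944), (549755813888, 549755813888)] rfl (by decide +kernel)
end
mutual
theorem c40_50_m7_t6 : CovD 0 progs [(50165218017280, 687194767360), (125627793408, 9663676416), (824633720832, 274877906944), (549755813888, 549755813888)] :=
  Pool.Agent.helper14.QF.covD_F chks_eq (.n 2 (.n 2 (.n 2 (.n 3 (.l 8) (.n 3 (.l 4) (.l 4))) (.n 3 (.l 4) (.n 3 (.l 4) (.l 3)))) (.n 3 (.l 4) (.n 1 (.l 8) (.l 8)))) (.n 2 (.n 3 (.l 4) (.n 1 (.l 4) (.l 4))) (.n 2 (.n 3 (.l 4) (.l 4)) (.n 3 (.n 3 (.l 4) (.l 4)) (.n 1 (.l 4) (.l 4))))))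
    [(50165218017280, 687194767360), (125627793408, 9663676416), (824633720832, 274877906944), (549755813888, 549755813888)] rfl (by decide +kernel)
theorem c40_50_m7_t7 : CovD 0 progs [(50165218017280, 687194767360), (144955146240, 9663676416), (824633720832, 274877906944), (549755813888, 549755813888)] :=
  Pool.Agent.helper14.QF.covD_F chks_eq (.n 2 (.n 2 (.n 3 (.n 2 (.l 8) (.l 4)) (.n 3 (.l 8) (.n 2 (.l 4) (.l 4)))) (.n 3 (.l 8) (.n 1 (.l 8) (.l 8)))) (.n 2 (.n 3 (.n 3 (.l 4) (.l 4)) (.n 2 (.l 4) (.l 4))) (.n 1 (.n 3 (.n 3 (.l 4) (.l 4)) (.n 2 (.l 4) (.l 4))) (.n 3 (.n 3 (.l 15) (.l 4)) (.n 2 (.l 4) (.n 1 (.l 4) (.l 4)))))))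
    [(50165218017280, 687194767360), (144955146240, 9663676416), (824633720832, 274877906944), (549755813888, 549755813888)] rfl (by decide +kernel)
end
mutual
theorem c40_50_m7_t11 : CovD 0 progs [(51539607552000, 687194767360), (38654705664, 38654705664), (687194767360, 137438953472), (549755813888, 549755813888)] :=
  Pool.Agent.helper14.QF.covD_F chks_eq (.n 1 (.n 1 (.n 1 (.l 0) (.l 0)) (.n 1 (.n 1 (.l 0) (.l 2)) (.n 2 (.l 2) (.l 2)))) (.n 1 (.n 2 (.n 1 (.l 4) (.n 2 (.l 2) (.l 4))) (.n 3 (.l 4) (.n 1 (.l 0) (.l 3)))) (.n 2 (.n 2 (.n 3 (.l 4) (.l 4)) (.n 3 (.l 4) (.l 9))) (.n 3 (.l 4) (.n 1 (.l 4) (.l 4))))))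
    [(51539607552000, 687194767360), (38654705664, 38654705664), (687194767360, 137438953472), (549755813888, 549755813888)] rfl (by decide +kernel)
theorem c40_50_m7_t12 : CovD 0 progs [(51539607552000, 687194767360), (38654705664, 38654705664), (962072674304, 137438953472), (549755813888, 549755813888)] :=
  Pool.Agent.helper14.QF.covD_F chks_eq (.n 2 (.n 1 (.n 1 (.l 0) (.n 1 (.l 2) (.l 4))) (.n 1 (.n 1 (.l 4) (.l 9)) (.n 3 (.l 4) (.l 9)))) (.n 1 (.n 1 (.n 1 (.l 0) (.l 0)) (.n 1 (.l 2) (.l 4))) (.n 1 (.n 1 (.l 4) (.l 4)) (.n 1 (.l 4) (.l 4)))))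
    [(51539607552000, 687194767360), (38654705664, 38654705664), (962072674304, 137438953472), (549755813888, 549755813888)] rfl (by decide +kernel)
end
mutual
theorem c40_50_m7_t14 : CovD 0 progs [(51539607552000, 687194767360), (86973087744, 9663676416), (824633720832, 274877906944), (549755813888, 549755813888)] :=
  Pool.Agent.helper14.QF.covD_F chks_eq (.n 2 (.n 2 (.n 1 (.n 3 (.l 4) (.n 2 (.l 4) (.l 4))) (.n 3 (.l 9) (.n 3 (.l 4) (.l 3)))) (.n 3 (.l 4) (.n 3 (.l 4) (.l 3)))) (.n 2 (.n 3 (.l 4) (.l 4)) (.n 3 (.l 4) (.n 1 (.l 3) (.l 4)))))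
    [(51539607552000, 687194767360), (86973087744, 9663676416), (824633720832, 274877906944), (549755813888, 549755813888)] rfl (by decide +kernel)
theorem c40_50_m7_t15 : CovD 0 progs [(51539607552000, 687194767360), (106300440576, 9663676416), (824633720832, 274877906944), (549755813888, 549755813888)] :=
  Pool.Agent.helper14.QF.covD_F chks_eq (.n 2 (.n 2 (.n 1 (.n 3 (.l 8) (.n 3 (.l 4) (.l 4))) (.n 3 (.l 8) (.n 3 (.l 4) (.l 4)))) (.n 3 (.l 4) (.n 3 (.l 4) (.l 3)))) (.n 2 (.n 3 (.l 4) (.n 0 (.l 4) (.l 4))) (.n 3 (.l 4) (.n 2 (.l 4) (.l 4)))))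
    [(51539607552000, 687194767360), (106300440576, 9663676416), (824633720832, 274877906944), (549755813888, 549755813888)] rfl (by decide +kernel)
end
mutual
theorem c40_50_m7_t17 : CovD 0 progs [(51539607552000, 687194767360), (125627793408, 9663676416), (824633720832, 274877906944), (549755813888, 549755813888)] :=
  Pool.Agent.helper14.QF.covD_F chks_eq (.n 2 (.n 2 (.n 2 (.n 3 (.l 8) (.n 3 (.l 4) (.l 4))) (.n 3 (.l 4) (.n 3 (.l 4) (.l 4)))) (.n 3 (.l 4) (.n 1 (.l 8) (.l 8)))) (.n 2 (.n 3 (.l 4) (.n 2 (.l 4) (.l 4))) (.n 1 (.n 3 (.l 4) (.n 2 (.l 4) (.l 4))) (.n 3 (.n 3 (.l 4) (.l 4)) (.n 2 (.l 4) (.l 4))))))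
    [(51539607552000, 687194767360), (125627793408, 9663676416), (824633720832, 274877906944), (549755813888, 549755813888)] rfl (by decide +kernel)
theorem c40_50_m7_t18 : CovD 0 progs [(51539607552000, 687194767360), (144955146240, 9663676416), (824633720832, 274877906944), (549755813888, 549755813888)] :=
  Pool.Agent.helper14.QF.covD_F chks_eq (.n 2 (.n 2 (.n 3 (.n 2 (.l 8) (.l 4)) (.n 3 (.l 8) (.n 2 (.l 4) (.l 4)))) (.n 1 (.n 3 (.l 4) (.l 8)) (.n 3 (.l 4) (.l 8)))) (.n 2 (.n 3 (.n 3 (.l 4) (.l 4)) (.n 2 (.l 4) (.n 0 (.l 4) (.l 4)))) (.n 2 (.n 3 (.n 3 (.l 4) (.l 4)) (.n 1 (.l 4) (.l 4))) (.n 3 (.n 3 (.l 15) (.l 4)) (.n 3 (.l 3) (.n 1 (.l 3) (.l 3)))))))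
    [(51539607552000, 687194767360), (144955146240, 9663676416), (824633720832, 274877906944), (549755813888, 549755813888)] rfl (by decide +kernel)
end
mutual
theorem c40_50_m7_t23 : CovD 0 progs [(53601191854080, 1374389534720), (38654705664, 38654705664), (687194767360, 137438953472), (549755813888, 549755813888)] :=
  Pool.Agent.helper14.QF.covD_F chks_eq (.n 1 (.n 2 (.n 1 (.l 0) (.n 1 (.l 2) (.l 2))) (.n 1 (.l 0) (.n 1 (.l 2) (.l 2)))) (.n 1 (.n 3 (.n 3 (.l 11) (.n 2 (.l 4) (.l 4))) (.n 1 (.n 2 (.l 0) (.l 3)) (.n 2 (.l 4) (.l 4)))) (.n 2 (.n 1 (.n 3 (.l 4) (.n 1 (.l 4) (.l 4))) (.n 3 (.l 4) (.n 2 (.l 4) (.l 4)))) (.n 3 (.n 0 (.l 4) (.l 9)) (.n 3 (.l 4) (.l 3))))))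
    [(53601191854080, 1374389534720), (38654705664, 38654705664), (687194767360, 137438953472), (549755813888, 549755813888)] rfl (by decide +kernel)
theorem c40_50_m7_t24 : CovD 0 progs [(53601191854080, 1374389534720), (38654705664, 38654705664), (962072674304, 137438953472), (549755813888, 549755813888)] :=
  Pool.Agent.helper14.QF.covD_F chks_eq (.n 2 (.n 1 (.n 1 (.n 1 (.l 0) (.l 0)) (.n 1 (.l 2) (.l 4))) (.n 1 (.n 1 (.l 9) (.n 1 (.l 4) (.l 4))) (.n 3 (.l 4) (.n 0 (.l 8) (.l 8))))) (.n 2 (.n 1 (.n 1 (.n 1 (.l 0) (.l 0)) (.n 0 (.l 4) (.l 4))) (.n 1 (.l 4) (.l 4))) (.n 1 (.n 1 (.n 1 (.l 0) (.l 0)) (.l 4)) (.n 1 (.l 4) (.l 4)))))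
    [(53601191854080, 1374389534720), (38654705664, 38654705664), (962072674304, 137438953472), (549755813888, 549755813888)] rfl (by decide +kernel)
end
mutual
theorem c40_50_m7_t26 : CovD 0 progs [(52913997086720, 687194767360), (86973087744, 9663676416), (824633720832, 274877906944), (549755813888, 549755813888)] :=
  Pool.Agent.helper14.QF.covD_F chks_eq (.n 2 (.n 2 (.n 1 (.n 3 (.l 4) (.n 2 (.l 4) (.l 4))) (.n 3 (.l 9) (.n 3 (.l 4) (.l 3)))) (.n 3 (.l 4) (.n 3 (.l 4) (.l 3)))) (.n 2 (.n 3 (.l 4) (.l 4)) (.n 3 (.l 4) (.n 1 (.l 4) (.l 4)))))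
    [(52913997086720, 687194767360), (86973087744, 9663676416), (824633720832, 274877906944), (549755813888, 549755813888)] rfl (by decide +kernel)
theorem c40_50_m7_t27 : CovD 0 progs [(52913997086720, 687194767360), (106300440576, 9663676416), (824633720832, 274877906944), (549755813888, 549755813888)] :=
  Pool.Agent.helper14.QF.covD_F chks_eq (.n 2 (.n 2 (.n 1 (.n 3 (.l 8) (.n 3 (.l 4) (.l 4))) (.n 3 (.l 8) (.n 3 (.l 4) (.l 8)))) (.n 3 (.l 4) (.n 3 (.l 4) (.l 3)))) (.n 2 (.n 3 (.l 4) (.n 1 (.l 4) (.l 4))) (.n 1 (.n 3 (.l 4) (.l 4)) (.n 3 (.l 4) (.n 1 (.l 4) (.l 4))))))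
    [(52913997086720, 687194767360), (106300440576, 9663676416), (824633720832, 274877906944), (549755813888, 549755813888)] rfl (by decide +kernel)
end
mutual
theorem c40_50_m7_t29 : CovD 0 progs [(52913997086720, 687194767360), (125627793408, 9663676416), (824633720832, 274877906944), (549755813888, 549755813888)] :=
  Pool.Agent.helper14.QF.covD_F chks_eq (.n 2 (.n 2 (.n 2 (.n 3 (.l 8) (.n 3 (.l 4) (.l 4))) (.n 3 (.l 4) (.n 3 (.l 4) (.l 4)))) (.n 3 (.l 4) (.n 1 (.l 8) (.l 8)))) (.n 2 (.n 3 (.l 4) (.n 2 (.l 4) (.l 4))) (.n 1 (.n 2 (.n 3 (.l 4) (.l 4)) (.n 3 (.l 4) (.l 4))) (.n 3 (.n 3 (.l 4) (.l 4)) (.n 2 (.l 4) (.l 4))))))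
    [(52913997086720, 687194767360), (125627793408, 9663676416), (824633720832, 274877906944), (549755813888, 549755813888)] rfl (by decide +kernel)
theorem c40_50_m7_t30 : CovD 0 progs [(52913997086720, 687194767360), (144955146240, 9663676416), (687194767360, 137438953472), (549755813888, 549755813888)] :=
  Pool.Agent.helper14.QF.covD_F chks_eq (.n 2 (.n 2 (.n 3 (.l 8) (.n 3 (.l 4) (.l 4))) (.n 3 (.l 4) (.n 3 (.l 4) (.l 4)))) (.n 1 (.n 3 (.l 4) (.l 8)) (.n 3 (.l 4) (.l 8))))
    [(52913997086720, 687194767360), (144955146240, 9663676416), (687194767360, 137438953472), (549755813888, 549755813888)] rfl (by decide +kernel)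
end
mutual
theorem c40_50_m7_t31 : CovD 0 progs [(52913997086720, 687194767360), (144955146240, 9663676416), (962072674304, 137438953472), (549755813888, 549755813888)] :=
  Pool.Agent.helper14.QF.covD_F chks_eq (.n 2 (.n 3 (.n 3 (.l 4) (.n 0 (.l 4) (.l 4))) (.n 2 (.l 4) (.n 1 (.l 4) (.l 4)))) (.n 2 (.n 3 (.n 3 (.l 15) (.l 4)) (.n 1 (.l 4) (.l 4))) (.n 3 (.n 3 (.l 15) (.l 4)) (.n 3 (.l 4) (.n 1 (.l 3) (.l 3))))))
    [(52913997086720, 687194767360), (144955146240, 9663676416), (962072674304, 137438953472), (549755813888, 549755813888)] rfl (by decide +kernel)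
theorem c40_50_m7_t35 : CovD 0 progs [(54288386621440, 687194767360), (86973087744, 9663676416), (824633720832, 274877906944), (549755813888, 549755813888)] :=
  Pool.Agent.helper14.QF.covD_F chks_eq (.n 2 (.n 2 (.n 1 (.n 3 (.l 9) (.n 2 (.l 4) (.l 4))) (.n 3 (.l 8) (.n 3 (.l 4) (.l 4)))) (.n 3 (.l 4) (.n 3 (.l 4) (.l 3)))) (.n 2 (.n 3 (.l 4) (.l 4)) (.n 3 (.l 4) (.n 1 (.l 4) (.l 4)))))
    [(54288386621440, 687194767360), (86973087744, 9663676416), (824633720832, 274877906944), (549755813888, 549755813888)] rfl (by decide +kernel)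
end
mutual
theorem c40_50_m7_t36 : CovD 0 progs [(54288386621440, 687194767360), (106300440576, 9663676416), (824633720832, 274877906944), (549755813888, 549755813888)] :=
  Pool.Agent.helper14.QF.covD_F chks_eq (.n 2 (.n 2 (.n 2 (.n 3 (.l 8) (.n 3 (.l 4) (.l 4))) (.n 3 (.l 4) (.n 3 (.l 4) (.l 3)))) (.n 3 (.l 4) (.n 3 (.l 4) (.l 3)))) (.n 2 (.n 3 (.l 4) (.n 1 (.l 4) (.l 4))) (.n 2 (.n 3 (.l 4) (.l 4)) (.n 3 (.l 4) (.n 1 (.l 4) (.l 4))))))
    [(54288386621440, 687194767360), (106300440576, 9663676416), (824633720832, 274877906944), (549755813888, 549755813888)] rfl (by decide +kernel)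
theorem c40_50_m7_t38 : CovD 0 progs [(54288386621440, 687194767360), (125627793408, 9663676416), (824633720832, 274877906944), (549755813888, 549755813888)] :=
  Pool.Agent.helper14.QF.covD_F chks_eq (.n 2 (.n 2 (.n 2 (.n 3 (.l 8) (.n 3 (.l 4) (.l 4))) (.n 3 (.l 4) (.n 3 (.l 4) (.l 4)))) (.n 3 (.l 4) (.n 3 (.l 4) (.l 3)))) (.n 2 (.n 2 (.n 3 (.l 4) (.l 4)) (.n 3 (.l 4) (.l 4))) (.n 1 (.n 2 (.n 3 (.l 4) (.l 4)) (.n 3 (.l 4) (.l 4))) (.n 3 (.n 3 (.l 4) (.l 4)) (.n 2 (.l 4) (.l 4))))))
    [(54288386621440, 687194767360), (125627793408, 9663676416), (824633720832, 274877906944), (549755813888, 549755813888)] rfl (by decide +kernel)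
end
mutual
theorem c40_50_m7_t39 : CovD 0 progs [(54288386621440, 687194767360), (144955146240, 9663676416), (687194767360, 137438953472), (549755813888, 549755813888)] :=
  Pool.Agent.helper14.QF.covD_F chks_eq (.n 2 (.n 2 (.n 3 (.l 8) (.n 3 (.l 4) (.l 4))) (.n 3 (.l 4) (.n 3 (.l 4) (.l 4)))) (.n 1 (.n 3 (.l 4) (.l 8)) (.n 3 (.l 8) (.l 8))))
    [(54288386621440, 687194767360), (144955146240, 9663676416), (687194767360, 137438953472), (549755813888, 549755813888)] rfl (by decide +kernel)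
theorem c40_50_m7_t40 : CovD 0 progs [(54288386621440, 687194767360), (144955146240, 9663676416), (962072674304, 137438953472), (549755813888, 549755813888)] :=
  Pool.Agent.helper14.QF.covD_F chks_eq (.n 2 (.n 2 (.n 3 (.n 1 (.l 4) (.l 7)) (.l 4)) (.n 3 (.n 3 (.l 4) (.l 4)) (.n 1 (.l 4) (.l 4)))) (.n 2 (.n 3 (.n 3 (.l 15) (.l 4)) (.n 1 (.l 4) (.n 0 (.l 4) (.l 4)))) (.n 3 (.n 3 (.l 15) (.l 4)) (.n 3 (.l 4) (.n 1 (.l 3) (.l 3))))))
    [(54288386621440, 687194767360), (144955146240, 9663676416), (962072674304, 137438953472), (549755813888, 549755813888)] rfl (by decide +kernel)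
end
theorem c40_50_m7_t2 : CovD 0 progs [(50165218017280, 687194767360), (38654705664, 38654705664), (824633720832, 274877906944), (549755813888, 549755813888)] :=
  covD_split 2 (by decide +kernel) c40_50_m7_t0 c40_50_m7_t1
theorem c40_50_m7_t5 : CovD 0 progs [(50165218017280, 687194767360), (96636764160, 19327352832), (824633720832, 274877906944), (549755813888, 549755813888)] :=
  covD_split 1 (by decide +kernel) c40_50_m7_t3 c40_50_m7_t4
theorem c40_50_m7_t8 : CovD 0 progs [(50165218017280, 687194767360), (135291469824, 19327352832), (824633720832, 274877906944), (549755813888, 549755813888)] :=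
  covD_split 1 (by decide +kernel) c40_50_m7_t6 c40_50_m7_t7
theorem c40_50_m7_t9 : CovD 0 progs [(50165218017280, 687194767360), (115964116992, 38654705664), (824633720832, 274877906944), (549755813888, 549755813888)] :=
  covD_split 1 (by decide +kernel) c40_50_m7_t5 c40_50_m7_t8
theorem c40_50_m7_t10 : CovD 0 progs [(50165218017280, 687194767360), (77309411328, 77309411328), (824633720832, 274877906944), (549755813888, 549755813888)] :=
  covD_split 1 (by decide +kernel) c40_50_m7_t2 c40_50_m7_t9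
theorem c40_50_m7_t13 : CovD 0 progs [(51539607552000, 687194767360), (38654705664, 38654705664), (824633720832, 274877906944), (549755813888, 549755813888)] :=
  covD_split 2 (by decide +kernel) c40_50_m7_t11 c40_50_m7_t12
theorem c40_50_m7_t16 : CovD 0 progs [(51539607552000, 687194767360), (96636764160, 19327352832), (824633720832, 274877906944), (549755813888, 549755813888)] :=
  covD_split 1 (by decide +kernel) c40_50_m7_t14 c40_50_m7_t15
theorem c40_50_m7_t19 : CovD 0 progs [(51539607552000, 687194767360), (135291469824, 19327352832), (824633720832, 274877906944), (549755813888, 549755813888)] :=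
  covD_split 1 (by decide +kernel) c40_50_m7_t17 c40_50_m7_t18
theorem c40_50_m7_t20 : CovD 0 progs [(51539607552000, 687194767360), (115964116992, 38654705664), (824633720832, 274877906944), (549755813888, 549755813888)] :=
  covD_split 1 (by decide +kernel) c40_50_m7_t16 c40_50_m7_t19
theorem c40_50_m7_t21 : CovD 0 progs [(51539607552000, 687194767360), (77309411328, 77309411328), (824633720832, 274877906944), (549755813888, 549755813888)] :=
  covD_split 1 (by decide +kernel) c40_50_m7_t13 c40_50_m7_t20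
theorem c40_50_m7_t22 : CovD 0 progs [(50852412784640, 1374389534720), (77309411328, 77309411328), (824633720832, 274877906944), (549755813888, 549755813888)] :=
  covD_split 0 (by decide +kernel) c40_50_m7_t10 c40_50_m7_t21
theorem c40_50_m7_t25 : CovD 0 progs [(53601191854080, 1374389534720), (38654705664, 38654705664), (824633720832, 274877906944), (549755813888, 549755813888)] :=
  covD_split 2 (by decide +kernel) c40_50_m7_t23 c40_50_m7_t24
theorem c40_50_m7_t28 : CovD 0 progs [(52913997086720, 687194767360), (96636764160, 19327352832), (824633720832, 274877906944), (549755813888, 549755813888)] :=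
  covD_split 1 (by decide +kernel) c40_50_m7_t26 c40_50_m7_t27
theorem c40_50_m7_t32 : CovD 0 progs [(52913997086720, 687194767360), (144955146240, 9663676416), (824633720832, 274877906944), (549755813888, 549755813888)] :=
  covD_split 2 (by decide +kernel) c40_50_m7_t30 c40_50_m7_t31
theorem c40_50_m7_t33 : CovD 0 progs [(52913997086720, 687194767360), (135291469824, 19327352832), (824633720832, 274877906944), (549755813888, 549755813888)] :=
  covD_split 1 (by decide +kernel) c40_50_m7_t29 c40_50_m7_t32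
theorem c40_50_m7_t34 : CovD 0 progs [(52913997086720, 687194767360), (115964116992, 38654705664), (824633720832, 274877906944), (549755813888, 549755813888)] :=
  covD_split 1 (by decide +kernel) c40_50_m7_t28 c40_50_m7_t33
theorem c40_50_m7_t37 : CovD 0 progs [(54288386621440, 687194767360), (96636764160, 19327352832), (824633720832, 274877906944), (549755813888, 549755813888)] :=
  covD_split 1 (by decide +kernel) c40_50_m7_t35 c40_50_m7_t36
theorem c40_50_m7_t41 : CovD 0 progs [(54288386621440, 687194767360), (144955146240, 9663676416), (824633720832, 274877906944), (549755813888, 549755813888)] :=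
  covD_split 2 (by decide +kernel) c40_50_m7_t39 c40_50_m7_t40
theorem c40_50_m7_t42 : CovD 0 progs [(54288386621440, 687194767360), (135291469824, 19327352832), (824633720832, 274877906944), (549755813888, 549755813888)] :=
  covD_split 1 (by decide +kernel) c40_50_m7_t38 c40_50_m7_t41
theorem c40_50_m7_t43 : CovD 0 progs [(54288386621440, 687194767360), (115964116992, 38654705664), (824633720832, 274877906944), (549755813888, 549755813888)] :=
  covD_split 1 (by decide +kernel) c40_50_m7_t37 c40_50_m7_t42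
theorem c40_50_m7_t44 : CovD 0 progs [(53601191854080, 1374389534720), (115964116992, 38654705664), (824633720832, 274877906944), (549755813888, 549755813888)] :=
  covD_split 0 (by decide +kernel) c40_50_m7_t34 c40_50_m7_t43
theorem c40_50_m7_t45 : CovD 0 progs [(53601191854080, 1374389534720), (77309411328, 77309411328), (824633720832, 274877906944), (549755813888, 549755813888)] :=
  covD_split 1 (by decide +kernel) c40_50_m7_t25 c40_50_m7_t44
theorem c40_50_m7 : CovD 0 progs [(52226802319360, 2748779069440), (77309411328, 77309411328), (824633720832, 274877906944), (549755813888, 549755813888)] :=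
  covD_split 0 (by decide +kernel) c40_50_m7_t22 c40_50_m7_t45

end Pool.Agent.helper71.FG.Crt.L
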