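import Pool.Agent.helper71.FG.Crt.LP

/-!
Generated certificates.
-/

namespace Pool.Agent.helper71.FG.Crt.L

open Pool.Agent.helper31.IA (Z Op)
open Pool.Agent.helper31.IC

mutual
theorem c40_50_m9_t0 : CovD 0 progs [(50852412784640, 1374389534720), (231928233984, 77309411328), (618475290624, 68719476736), (274877906944, 274877906944)] :=
  Pool.Agent.helper14.QF.covD_F chks_eq (.n 1 (.n 1 (.n 2 (.n 3 (.l 8) (.n 0 (.l 8) (.l 8))) (.n 3 (.l 4) (.l 4))) (.n 2 (.n 1 (.n 3 (.l 4) (.l 4)) (.n 3 (.l 8) (.l 4))) (.n 3 (.n 1 (.l 4) (.l 15)) (.l 6)))) (.n 1 (.n 1 (.n 3 (.l 10) (.n 1 (.l 8) (.l 10))) (.l 10)) (.l 10)))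
    [(50852412784640, 1374389534720), (231928233984, 77309411328), (618475290624, 68719476736), (274877906944, 274877906944)] rfl (by decide +kernel)
theorem c40_50_m9_t1 : CovD 0 progs [(50852412784640, 1374389534720), (231928233984, 77309411328), (755914244096, 68719476736), (274877906944, 274877906944)] :=
  Pool.Agent.helper14.QF.covD_F chks_eq (.n 1 (.n 2 (.n 1 (.n 3 (.l 4) (.l 4)) (.n 3 (.n 1 (.l 15) (.l 15)) (.l 4))) (.n 1 (.n 3 (.n 1 (.l 4) (.l 15)) (.l 4)) (.n 3 (.l 15) (.n 0 (.l 4) (.l 4))))) (.n 1 (.n 3 (.l 10) (.n 1 (.n 2 (.l 4) (.l 4)) (.l 10))) (.n 1 (.l 10) (.l 10))))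
    [(50852412784640, 1374389534720), (231928233984, 77309411328), (755914244096, 68719476736), (274877906944, 274877906944)] rfl (by decide +kernel)
end
mutual
theorem c40_50_m9_t3 : CovD 0 progs [(50852412784640, 1374389534720), (231928233984, 77309411328), (893353197568, 68719476736), (274877906944, 274877906944)] :=
  Pool.Agent.helper14.QF.covD_F chks_eq (.n 1 (.n 1 (.n 1 (.n 2 (.n 3 (.l 4) (.l 4)) (.n 3 (.l 15) (.l 4))) (.n 3 (.l 15) (.n 2 (.l 4) (.l 4)))) (.n 3 (.l 15) (.n 1 (.n 2 (.l 4) (.l 4)) (.n 1 (.l 15) (.l 15))))) (.n 3 (.l 15) (.n 1 (.n 1 (.l 15) (.l 10)) (.l 10))))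
    [(50852412784640, 1374389534720), (231928233984, 77309411328), (893353197568, 68719476736), (274877906944, 274877906944)] rfl (by decide +kernel)
theorem c40_50_m9_t4 : CovD 0 progs [(50852412784640, 1374389534720), (231928233984, 77309411328), (1030792151040, 68719476736), (274877906944, 274877906944)] :=
  Pool.Agent.helper14.QF.covD_F chks_eq (.n 1 (.n 1 (.n 1 (.n 3 (.l 15) (.n 2 (.l 4) (.l 4))) (.n 3 (.l 15) (.n 2 (.l 4) (.l 15)))) (.n 3 (.l 15) (.n 1 (.n 0 (.l 15) (.l 15)) (.l 15)))) (.n 3 (.l 15) (.n 1 (.l 15) (.l 10))))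
    [(50852412784640, 1374389534720), (231928233984, 77309411328), (1030792151040, 68719476736), (274877906944, 274877906944)] rfl (by decide +kernel)
end
mutual
theorem c40_50_m9_t7 : CovD 0 progs [(53601191854080, 1374389534720), (231928233984, 77309411328), (618475290624, 68719476736), (274877906944, 274877906944)] :=
  Pool.Agent.helper14.QF.covD_F chks_eq (.n 2 (.n 1 (.n 1 (.n 3 (.l 8) (.n 0 (.l 8) (.l 8))) (.n 1 (.n 3 (.l 4) (.l 4)) (.n 3 (.n 1 (.l 4) (.l 15)) (.l 4)))) (.n 1 (.n 1 (.n 3 (.l 10) (.l 8)) (.l 10)) (.l 10))) (.n 1 (.n 1 (.n 3 (.l 4) (.l 4)) (.n 3 (.n 1 (.n 0 (.l 4) (.l 8)) (.l 15)) (.l 8))) (.n 1 (.n 1 (.n 3 (.l 10) (.l 4)) (.l 10)) (.l 10))))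
    [(53601191854080, 1374389534720), (231928233984, 77309411328), (618475290624, 68719476736), (274877906944, 274877906944)] rfl (by decide +kernel)
theorem c40_50_m9_t8 : CovD 0 progs [(53601191854080, 1374389534720), (231928233984, 77309411328), (755914244096, 68719476736), (274877906944, 274877906944)] :=
  Pool.Agent.helper14.QF.covD_F chks_eq (.n 1 (.n 3 (.n 1 (.n 1 (.l 4) (.n 2 (.l 4) (.l 15))) (.n 1 (.l 15) (.l 15))) (.n 1 (.n 2 (.l 4) (.l 4)) (.n 2 (.l 4) (.n 0 (.l 4) (.l 4))))) (.n 1 (.n 3 (.l 10) (.n 1 (.n 2 (.l 4) (.l 4)) (.l 10))) (.n 1 (.l 10) (.l 10))))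
    [(53601191854080, 1374389534720), (231928233984, 77309411328), (755914244096, 68719476736), (274877906944, 274877906944)] rfl (by decide +kernel)
end
mutual
theorem c40_50_m9_t10 : CovD 0 progs [(53601191854080, 1374389534720), (193273528320, 38654705664), (962072674304, 137438953472), (274877906944, 274877906944)] :=
  Pool.Agent.helper14.QF.covD_F chks_eq (.n 1 (.n 2 (.n 1 (.n 2 (.n 3 (.l 15) (.l 4)) (.n 3 (.l 15) (.l 4))) (.n 3 (.l 15) (.n 2 (.l 4) (.l 4)))) (.n 3 (.l 15) (.n 1 (.n 2 (.l 4) (.n 0 (.l 4) (.l 4))) (.n 2 (.l 4) (.l 15))))) (.n 1 (.n 3 (.l 15) (.n 2 (.n 2 (.l 4) (.l 4)) (.l 15))) (.n 3 (.l 15) (.n 2 (.l 15) (.l 15)))))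
    [(53601191854080, 1374389534720), (193273528320, 38654705664), (962072674304, 137438953472), (274877906944, 274877906944)] rfl (by decide +kernel)
theorem c40_50_m9_t11 : CovD 0 progs [(53601191854080, 1374389534720), (270582939648, 38654705664), (962072674304, 137438953472), (274877906944, 274877906944)] :=
  Pool.Agent.helper14.QF.covD_F chks_eq (.n 1 (.n 3 (.l 15) (.n 2 (.n 0 (.l 15) (.l 15)) (.l 15))) (.n 2 (.n 0 (.l 15) (.l 15)) (.l 15)))
    [(53601191854080, 1374389534720), (270582939648, 38654705664), (962072674304, 137438953472), (274877906944, 274877906944)] rfl (by decide +kernel)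
end
theorem c40_50_m9_t2 : CovD 0 progs [(50852412784640, 1374389534720), (231928233984, 77309411328), (687194767360, 137438953472), (274877906944, 274877906944)] :=
  covD_split 2 (by decide +kernel) c40_50_m9_t0 c40_50_m9_t1
theorem c40_50_m9_t5 : CovD 0 progs [(50852412784640, 1374389534720), (231928233984, 77309411328), (962072674304, 137438953472), (274877906944, 274877906944)] :=
  covD_split 2 (by decide +kernel) c40_50_m9_t3 c40_50_m9_t4
theorem c40_50_m9_t6 : CovD 0 progs [(50852412784640, 1374389534720), (231928233984, 77309411328), (824633720832, 274877906944), (274877906944, 274877906944)] :=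
  covD_split 2 (by decide +kernel) c40_50_m9_t2 c40_50_m9_t5
theorem c40_50_m9_t9 : CovD 0 progs [(53601191854080, 1374389534720), (231928233984, 77309411328), (687194767360, 137438953472), (274877906944, 274877906944)] :=
  covD_split 2 (by decide +kernel) c40_50_m9_t7 c40_50_m9_t8
theorem c40_50_m9_t12 : CovD 0 progs [(53601191854080, 1374389534720), (231928233984, 77309411328), (962072674304, 137438953472), (274877906944, 274877906944)] :=
  covD_split 1 (by decide +kernel) c40_50_m9_t10 c40_50_m9_t11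
theorem c40_50_m9_t13 : CovD 0 progs [(53601191854080, 1374389534720), (231928233984, 77309411328), (824633720832, 274877906944), (274877906944, 274877906944)] :=
  covD_split 2 (by decide +kernel) c40_50_m9_t9 c40_50_m9_t12
theorem c40_50_m9 : CovD 0 progs [(52226802319360, 2748779069440), (231928233984, 77309411328), (824633720832, 274877906944), (274877906944, 274877906944)] :=
  covD_split 0 (by decide +kernel) c40_50_m9_t6 c40_50_m9_t13

end Pool.Agent.helper71.FG.Crt.L
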