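import Pool.Agent.helper71.FG.Crt.Lc40_50_0
import Pool.Agent.helper71.FG.Crt.Lc40_50_1
import Pool.Agent.helper71.FG.Crt.Lc40_50_2
import Pool.Agent.helper71.FG.Crt.Lc40_50_3
import Pool.Agent.helper71.FG.Crt.Lc40_50_4
import Pool.Agent.helper71.FG.Crt.Lc40_50_5
import Pool.Agent.helper71.FG.Crt.Lc40_50_6
import Pool.Agent.helper71.FG.Crt.Lc40_50_7
import Pool.Agent.helper71.FG.Crt.Lc40_50_8
import Pool.Agent.helper71.FG.Crt.Lc40_50_9
import Pool.Agent.helper71.FG.Crt.Lc40_50_10
import Pool.Agent.helper71.FG.Crt.Lc40_50_11
import Pool.Agent.helper71.FG.Crt.Lc40_50_12

/-!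
Generated certificates, assembled.
-/

namespace Pool.Agent.helper71.FG.Crt.L

open Pool.Agent.helper31.IA (Z Op)
open Pool.Agent.helper31.IC

theorem c40_50_top0 : CovD 0 progs [(46729244180480, 2748779069440), (231928233984, 77309411328), (824633720832, 274877906944), (962072674304, 137438953472)] :=
  covD_split 3 (by decide +kernel) c40_50_m4 c40_50_m5
theorem c40_50_top1 : CovD 0 progs [(46729244180480, 2748779069440), (231928233984, 77309411328), (824633720832, 274877906944), (824633720832, 274877906944)] :=
  covD_split 3 (by decide +kernel) c40_50_m3 c40_50_top0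
theorem c40_50_top2 : CovD 0 progs [(46729244180480, 2748779069440), (231928233984, 77309411328), (824633720832, 274877906944), (549755813888, 549755813888)] :=
  covD_split 3 (by decide +kernel) c40_50_m2 c40_50_top1
theorem c40_50_top3 : CovD 0 progs [(46729244180480, 2748779069440), (231928233984, 77309411328), (549755813888, 549755813888), (549755813888, 549755813888)] :=
  covD_split 2 (by decide +kernel) c40_50_m1 c40_50_top2
theorem c40_50_top4 : CovD 0 progs [(46729244180480, 2748779069440), (154618822656, 154618822656), (549755813888, 549755813888), (549755813888, 549755813888)] :=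
  covD_split 1 (by decide +kernel) c40_50_m0 c40_50_top3
theorem c40_50_top5 : CovD 0 progs [(52226802319360, 2748779069440), (77309411328, 77309411328), (549755813888, 549755813888), (549755813888, 549755813888)] :=
  covD_split 2 (by decide +kernel) c40_50_m6 c40_50_m7
theorem c40_50_top6 : CovD 0 progs [(52226802319360, 2748779069440), (231928233984, 77309411328), (824633720832, 274877906944), (962072674304, 137438953472)] :=
  covD_split 0 (by decide +kernel) c40_50_m11 c40_50_m12
theorem c40_50_top7 : CovD 0 progs [(52226802319360, 2748779069440), (231928233984, 77309411328), (824633720832, 274877906944), (824633720832, 274877906944)] :=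
  covD_split 3 (by decide +kernel) c40_50_m10 c40_50_top6
theorem c40_50_top8 : CovD 0 progs [(52226802319360, 2748779069440), (231928233984, 77309411328), (824633720832, 274877906944), (549755813888, 549755813888)] :=
  covD_split 3 (by decide +kernel) c40_50_m9 c40_50_top7
theorem c40_50_top9 : CovD 0 progs [(52226802319360, 2748779069440), (231928233984, 77309411328), (549755813888, 549755813888), (549755813888, 549755813888)] :=
  covD_split 2 (by decide +kernel) c40_50_m8 c40_50_top8
theorem c40_50_top10 : CovD 0 progs [(52226802319360, 2748779069440), (154618822656, 154618822656), (549755813888, 549755813888), (549755813888, 549755813888)] :=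
  covD_split 1 (by decide +kernel) c40_50_top5 c40_50_top9
theorem c40_50_top11 : CovD 0 progs [(49478023249920, 5497558138880), (154618822656, 154618822656), (549755813888, 549755813888), (549755813888, 549755813888)] :=
  covD_split 0 (by decide +kernel) c40_50_top4 c40_50_top10

theorem c40_50_all : CovD 0 progs [(49478023249920, 5497558138880), (154618822656, 154618822656), (549755813888, 549755813888), (549755813888, 549755813888)] := c40_50_top11

end Pool.Agent.helper71.FG.Crt.L
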