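import Pool.Agent.helper71.FG.Crt.XP

/-!
Generated certificates.
-/

namespace Pool.Agent.helper71.FG.Crt.X

open Pool.Agent.helper31.IA (Z Op)
open Pool.Agent.helper31.IC

mutual
theorem c20_32_m1_t0 : CovD 0 progs [(23639499997184, 1649267441664), (64424509440, 64424509440), (618475290624, 68719476736), (549755813888, 549755813888)] :=
  Pool.Agent.helper14.QF.covD_F chks_eq (.n 1 (.n 1 (.n 0 (.l 0) (.l 0)) (.n 3 (.n 0 (.l 0) (.l 2)) (.l 0))) (.n 1 (.n 1 (.n 3 (.l 2) (.l 0)) (.n 3 (.l 4) (.n 2 (.l 0) (.l 0)))) (.n 2 (.n 3 (.n 0 (.l 4) (.l 4)) (.n 3 (.l 4) (.l 3))) (.n 3 (.n 0 (.l 4) (.l 4)) (.n 3 (.l 4) (.l 3))))))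
    [(23639499997184, 1649267441664), (64424509440, 64424509440), (618475290624, 68719476736), (549755813888, 549755813888)] rfl (by decide +kernel)
theorem c20_32_m1_t1 : CovD 0 progs [(23639499997184, 1649267441664), (161061273600, 32212254720), (618475290624, 68719476736), (549755813888, 549755813888)] :=
  Pool.Agent.helper14.QF.covD_F chks_eq (.n 1 (.n 3 (.n 1 (.n 2 (.l 4) (.l 4)) (.n 0 (.n 2 (.l 4) (.l 4)) (.n 2 (.l 4) (.l 4)))) (.n 3 (.n 1 (.n 0 (.l 4) (.l 4)) (.l 11)) (.l 11))) (.n 3 (.n 1 (.n 2 (.n 3 (.l 4) (.l 4)) (.n 3 (.l 4) (.l 4))) (.n 2 (.n 3 (.l 4) (.n 0 (.l 4) (.l 4))) (.n 3 (.l 4) (.l 4)))) (.n 3 (.l 11) (.l 11))))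
    [(23639499997184, 1649267441664), (161061273600, 32212254720), (618475290624, 68719476736), (549755813888, 549755813888)] rfl (by decide +kernel)
end
mutual
theorem c20_32_m1_t2 : CovD 0 progs [(23639499997184, 1649267441664), (225485783040, 32212254720), (618475290624, 68719476736), (274877906944, 274877906944)] :=
  Pool.Agent.helper14.QF.covD_F chks_eq (.n 2 (.n 1 (.n 3 (.n 1 (.l 4) (.n 0 (.l 4) (.l 4))) (.n 3 (.n 0 (.l 4) (.l 4)) (.l 11))) (.n 1 (.n 3 (.n 0 (.l 4) (.l 4)) (.n 1 (.n 3 (.l 4) (.l 4)) (.l 10))) (.l 10))) (.n 3 (.n 1 (.n 0 (.n 0 (.l 4) (.l 4)) (.l 4)) (.n 1 (.n 0 (.l 4) (.l 4)) (.l 10))) (.n 3 (.n 0 (.n 1 (.l 4) (.l 11)) (.n 1 (.l 4) (.l 5))) (.l 11))))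
    [(23639499997184, 1649267441664), (225485783040, 32212254720), (618475290624, 68719476736), (274877906944, 274877906944)] rfl (by decide +kernel)
theorem c20_32_m1_t3 : CovD 0 progs [(23639499997184, 1649267441664), (225485783040, 32212254720), (618475290624, 68719476736), (824633720832, 274877906944)] :=
  Pool.Agent.helper14.QF.covD_F chks_eq (.n 3 (.l 11) (.l 11))
    [(23639499997184, 1649267441664), (225485783040, 32212254720), (618475290624, 68719476736), (824633720832, 274877906944)] rfl (by decide +kernel)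
end
mutual
theorem c20_32_m1_t7 : CovD 0 progs [(26938034880512, 1649267441664), (64424509440, 64424509440), (618475290624, 68719476736), (549755813888, 549755813888)] :=
  Pool.Agent.helper14.QF.covD_F chks_eq (.n 1 (.n 1 (.n 0 (.l 0) (.l 0)) (.n 1 (.n 1 (.l 0) (.l 2)) (.n 3 (.l 2) (.l 0)))) (.n 1 (.n 1 (.n 3 (.l 2) (.n 0 (.l 0) (.l 0))) (.n 3 (.l 4) (.n 2 (.l 2) (.l 3)))) (.n 3 (.n 0 (.n 2 (.l 4) (.l 4)) (.n 2 (.l 4) (.l 4))) (.n 3 (.n 2 (.l 4) (.l 4)) (.l 11)))))
    [(26938034880512, 1649267441664), (64424509440, 64424509440), (618475290624, 68719476736), (549755813888, 549755813888)] rfl (by decide +kernel)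
theorem c20_32_m1_t8 : CovD 0 progs [(26938034880512, 1649267441664), (193273528320, 64424509440), (584115552256, 34359738368), (549755813888, 549755813888)] :=
  Pool.Agent.helper14.QF.covD_F chks_eq (.n 1 (.n 1 (.n 3 (.n 1 (.l 4) (.n 0 (.l 4) (.l 4))) (.n 3 (.l 11) (.l 11))) (.n 3 (.n 1 (.n 3 (.l 4) (.l 4)) (.n 3 (.l 4) (.n 0 (.l 4) (.l 4)))) (.l 11))) (.n 3 (.n 1 (.n 3 (.n 1 (.l 4) (.n 0 (.l 4) (.l 4))) (.n 3 (.n 0 (.l 4) (.l 4)) (.l 11))) (.n 1 (.n 3 (.n 0 (.l 4) (.l 4)) (.n 3 (.l 11) (.l 11))) (.l 10))) (.l 11)))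
    [(26938034880512, 1649267441664), (193273528320, 64424509440), (584115552256, 34359738368), (549755813888, 549755813888)] rfl (by decide +kernel)
end
mutual
theorem c20_32_m1_t9 : CovD 0 progs [(26938034880512, 1649267441664), (193273528320, 64424509440), (652835028992, 34359738368), (549755813888, 549755813888)] :=
  Pool.Agent.helper14.QF.covD_F chks_eq (.n 1 (.n 3 (.n 1 (.n 1 (.l 4) (.n 0 (.l 4) (.l 4))) (.n 0 (.n 3 (.l 4) (.l 4)) (.n 3 (.l 4) (.l 4)))) (.n 3 (.l 11) (.l 11))) (.n 3 (.n 3 (.n 0 (.n 1 (.l 4) (.l 5)) (.n 1 (.l 4) (.l 5))) (.n 3 (.n 1 (.n 0 (.l 4) (.l 4)) (.l 11)) (.l 11))) (.l 11)))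
    [(26938034880512, 1649267441664), (193273528320, 64424509440), (652835028992, 34359738368), (549755813888, 549755813888)] rfl (by decide +kernel)
theorem c20_32_m1_t13 : CovD 0 progs [(25288767438848, 3298534883328), (32212254720, 32212254720), (755914244096, 68719476736), (549755813888, 549755813888)] :=
  Pool.Agent.helper14.QF.covD_F chks_eq (.n 1 (.n 3 (.l 0) (.l 0)) (.n 1 (.n 3 (.l 0) (.l 0)) (.n 0 (.n 3 (.l 2) (.l 0)) (.n 3 (.l 2) (.l 0)))))
    [(25288767438848, 3298534883328), (32212254720, 32212254720), (755914244096, 68719476736), (549755813888, 549755813888)] rfl (by decide +kernel)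
end
mutual
theorem c20_32_m1_t14 : CovD 0 progs [(25288767438848, 3298534883328), (96636764160, 32212254720), (755914244096, 68719476736), (549755813888, 549755813888)] :=
  Pool.Agent.helper14.QF.covD_F chks_eq (.n 1 (.n 1 (.n 0 (.n 3 (.l 4) (.l 3)) (.n 3 (.l 4) (.l 3))) (.n 3 (.n 0 (.l 4) (.l 4)) (.n 3 (.n 0 (.l 3) (.l 3)) (.l 3)))) (.n 3 (.n 0 (.n 0 (.n 2 (.l 4) (.l 4)) (.n 2 (.l 4) (.l 4))) (.n 0 (.n 2 (.l 4) (.l 4)) (.n 2 (.l 4) (.l 4)))) (.n 3 (.n 0 (.n 1 (.l 3) (.l 11)) (.n 1 (.l 3) (.l 4))) (.l 11))))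
    [(25288767438848, 3298534883328), (96636764160, 32212254720), (755914244096, 68719476736), (549755813888, 549755813888)] rfl (by decide +kernel)
theorem c20_32_m1_t16 : CovD 0 progs [(25288767438848, 3298534883328), (161061273600, 32212254720), (755914244096, 68719476736), (549755813888, 549755813888)] :=
  Pool.Agent.helper14.QF.covD_F chks_eq (.n 3 (.n 0 (.n 1 (.n 2 (.n 3 (.l 4) (.l 4)) (.n 3 (.l 4) (.l 4))) (.n 3 (.n 2 (.l 4) (.l 4)) (.n 3 (.n 1 (.l 4) (.l 4)) (.l 11)))) (.n 1 (.n 2 (.n 3 (.l 4) (.l 4)) (.n 1 (.l 4) (.l 4))) (.n 2 (.n 3 (.l 4) (.n 0 (.l 4) (.l 4))) (.n 3 (.l 4) (.l 4))))) (.n 3 (.n 0 (.n 1 (.l 11) (.l 11)) (.l 11)) (.l 11)))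
    [(25288767438848, 3298534883328), (161061273600, 32212254720), (755914244096, 68719476736), (549755813888, 549755813888)] rfl (by decide +kernel)
end
mutual
theorem c20_32_m1_t17 : CovD 0 progs [(25288767438848, 3298534883328), (225485783040, 32212254720), (755914244096, 68719476736), (549755813888, 549755813888)] :=
  Pool.Agent.helper14.QF.covD_F chks_eq (.n 1 (.n 3 (.n 3 (.n 0 (.n 2 (.n 0 (.l 4) (.l 4)) (.l 4)) (.n 2 (.l 4) (.l 4))) (.n 3 (.n 0 (.n 2 (.n 0 (.l 4) (.l 4)) (.l 4)) (.l 11)) (.l 11))) (.l 11)) (.n 1 (.n 3 (.n 0 (.n 2 (.n 3 (.l 4) (.l 11)) (.n 3 (.l 4) (.l 5))) (.n 3 (.l 6) (.l 11))) (.l 11)) (.n 3 (.n 3 (.l 10) (.l 10)) (.l 11))))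
    [(25288767438848, 3298534883328), (225485783040, 32212254720), (755914244096, 68719476736), (549755813888, 549755813888)] rfl (by decide +kernel)
theorem c20_32_m1_t21 : CovD 0 progs [(25288767438848, 3298534883328), (32212254720, 32212254720), (893353197568, 68719476736), (549755813888, 549755813888)] :=
  Pool.Agent.helper14.QF.covD_F chks_eq (.n 1 (.n 1 (.l 0) (.n 0 (.l 0) (.l 0))) (.n 1 (.n 3 (.l 0) (.l 0)) (.n 0 (.n 3 (.l 4) (.l 0)) (.n 3 (.l 4) (.l 0)))))
    [(25288767438848, 3298534883328), (32212254720, 32212254720), (893353197568, 68719476736), (549755813888, 549755813888)] rfl (by decide +kernel)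
end
mutual
theorem c20_32_m1_t22 : CovD 0 progs [(25288767438848, 3298534883328), (96636764160, 32212254720), (893353197568, 68719476736), (549755813888, 549755813888)] :=
  Pool.Agent.helper14.QF.covD_F chks_eq (.n 1 (.n 1 (.n 0 (.n 3 (.l 4) (.l 3)) (.n 3 (.l 4) (.l 3))) (.n 3 (.n 0 (.l 4) (.l 4)) (.n 3 (.l 3) (.l 3)))) (.n 1 (.n 3 (.n 3 (.l 4) (.n 0 (.l 4) (.l 4))) (.n 0 (.n 1 (.l 3) (.l 11)) (.l 11))) (.n 0 (.n 3 (.n 0 (.l 4) (.l 4)) (.l 11)) (.n 3 (.n 0 (.l 4) (.l 4)) (.l 11)))))
    [(25288767438848, 3298534883328), (96636764160, 32212254720), (893353197568, 68719476736), (549755813888, 549755813888)] rfl (by decide +kernel)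
theorem c20_32_m1_t24 : CovD 0 progs [(25288767438848, 3298534883328), (161061273600, 32212254720), (893353197568, 68719476736), (549755813888, 549755813888)] :=
  Pool.Agent.helper14.QF.covD_F chks_eq (.n 1 (.n 3 (.n 0 (.n 1 (.n 2 (.l 4) (.l 4)) (.n 2 (.l 4) (.l 4))) (.n 0 (.n 2 (.l 4) (.l 4)) (.n 1 (.l 4) (.l 4)))) (.n 3 (.l 11) (.l 11))) (.n 3 (.n 0 (.n 2 (.n 3 (.l 4) (.l 4)) (.n 3 (.l 4) (.l 4))) (.n 2 (.n 0 (.l 5) (.l 4)) (.l 6))) (.l 11)))
    [(25288767438848, 3298534883328), (161061273600, 32212254720), (893353197568, 68719476736), (549755813888, 549755813888)] rfl (by decide +kernel)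
end
mutual
theorem c20_32_m1_t25 : CovD 0 progs [(25288767438848, 3298534883328), (225485783040, 32212254720), (893353197568, 68719476736), (549755813888, 549755813888)] :=
  Pool.Agent.helper14.QF.covD_F chks_eq (.n 0 (.n 3 (.n 1 (.n 2 (.n 3 (.l 4) (.l 5)) (.n 3 (.l 4) (.l 4))) (.n 3 (.n 1 (.l 6) (.l 10)) (.l 11))) (.l 11)) (.n 3 (.n 1 (.n 3 (.l 6) (.l 11)) (.n 3 (.l 6) (.l 11))) (.l 11)))
    [(25288767438848, 3298534883328), (225485783040, 32212254720), (893353197568, 68719476736), (549755813888, 549755813888)] rfl (by decide +kernel)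
theorem c20_32_m1_t28 : CovD 0 progs [(25288767438848, 3298534883328), (64424509440, 64424509440), (996432412672, 34359738368), (549755813888, 549755813888)] :=
  Pool.Agent.helper14.QF.covD_F chks_eq (.n 1 (.n 1 (.n 1 (.l 0) (.l 0)) (.n 1 (.n 3 (.l 0) (.l 0)) (.n 3 (.l 4) (.l 3)))) (.n 1 (.n 1 (.n 3 (.l 4) (.l 3)) (.n 3 (.l 4) (.l 3))) (.n 3 (.n 0 (.n 0 (.l 4) (.l 4)) (.l 4)) (.n 3 (.l 11) (.l 3)))))
    [(25288767438848, 3298534883328), (64424509440, 64424509440), (996432412672, 34359738368), (549755813888, 549755813888)] rfl (by decide +kernel)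
end
mutual
theorem c20_32_m1_t29 : CovD 0 progs [(25288767438848, 3298534883328), (193273528320, 64424509440), (996432412672, 34359738368), (549755813888, 549755813888)] :=
  Pool.Agent.helper14.QF.covD_F chks_eq (.n 1 (.n 1 (.n 3 (.n 0 (.n 0 (.l 4) (.l 4)) (.l 4)) (.l 11)) (.n 3 (.n 0 (.n 1 (.l 4) (.l 5)) (.l 5)) (.l 11))) (.n 3 (.n 1 (.n 0 (.n 3 (.l 4) (.l 4)) (.l 6)) (.n 3 (.n 0 (.l 5) (.l 4)) (.l 11))) (.l 11)))
    [(25288767438848, 3298534883328), (193273528320, 64424509440), (996432412672, 34359738368), (549755813888, 549755813888)] rfl (by decide +kernel)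
theorem c20_32_m1_t31 : CovD 0 progs [(25288767438848, 3298534883328), (64424509440, 64424509440), (1065151889408, 34359738368), (549755813888, 549755813888)] :=
  Pool.Agent.helper14.QF.covD_F chks_eq (.n 1 (.n 1 (.n 1 (.l 0) (.n 0 (.l 0) (.l 0))) (.n 1 (.n 3 (.l 0) (.l 0)) (.n 3 (.l 4) (.l 3)))) (.n 1 (.n 0 (.n 3 (.l 4) (.l 3)) (.n 3 (.l 4) (.l 3))) (.n 1 (.n 3 (.l 4) (.l 11)) (.n 3 (.l 4) (.l 11)))))
    [(25288767438848, 3298534883328), (64424509440, 64424509440), (1065151889408, 34359738368), (549755813888, 549755813888)] rfl (by decide +kernel)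
theorem c20_32_m1_t32 : CovD 0 progs [(25288767438848, 3298534883328), (193273528320, 64424509440), (1065151889408, 34359738368), (549755813888, 549755813888)] :=
  Pool.Agent.helper14.QF.covD_F chks_eq (.n 1 (.n 0 (.n 3 (.n 0 (.n 1 (.l 4) (.l 5)) (.n 1 (.l 4) (.l 4))) (.l 11)) (.n 3 (.n 1 (.l 4) (.l 5)) (.l 11))) (.n 1 (.n 3 (.n 3 (.n 0 (.l 4) (.l 4)) (.l 11)) (.l 11)) (.n 3 (.n 3 (.n 0 (.l 5) (.l 5)) (.l 11)) (.l 11))))
    [(25288767438848, 3298534883328), (193273528320, 64424509440), (1065151889408, 34359738368), (549755813888, 549755813888)] rfl (by decide +kernel)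
end
theorem c20_32_m1_t4 : CovD 0 progs [(23639499997184, 1649267441664), (225485783040, 32212254720), (618475290624, 68719476736), (549755813888, 549755813888)] :=
  covD_split 3 (by decide +kernel) c20_32_m1_t2 c20_32_m1_t3
theorem c20_32_m1_t5 : CovD 0 progs [(23639499997184, 1649267441664), (193273528320, 64424509440), (618475290624, 68719476736), (549755813888, 549755813888)] :=
  covD_split 1 (by decide +kernel) c20_32_m1_t1 c20_32_m1_t4
theorem c20_32_m1_t6 : CovD 0 progs [(23639499997184, 1649267441664), (128849018880, 128849018880), (618475290624, 68719476736), (549755813888, 549755813888)] :=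
  covD_split 1 (by decide +kernel) c20_32_m1_t0 c20_32_m1_t5
theorem c20_32_m1_t10 : CovD 0 progs [(26938034880512, 1649267441664), (193273528320, 64424509440), (618475290624, 68719476736), (549755813888, 549755813888)] :=
  covD_split 2 (by decide +kernel) c20_32_m1_t8 c20_32_m1_t9
theorem c20_32_m1_t11 : CovD 0 progs [(26938034880512, 1649267441664), (128849018880, 128849018880), (618475290624, 68719476736), (549755813888, 549755813888)] :=
  covD_split 1 (by decide +kernel) c20_32_m1_t7 c20_32_m1_t10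
theorem c20_32_m1_t12 : CovD 0 progs [(25288767438848, 3298534883328), (128849018880, 128849018880), (618475290624, 68719476736), (549755813888, 549755813888)] :=
  covD_split 0 (by decide +kernel) c20_32_m1_t6 c20_32_m1_t11
theorem c20_32_m1_t15 : CovD 0 progs [(25288767438848, 3298534883328), (64424509440, 64424509440), (755914244096, 68719476736), (549755813888, 549755813888)] :=
  covD_split 1 (by decide +kernel) c20_32_m1_t13 c20_32_m1_t14
theorem c20_32_m1_t18 : CovD 0 progs [(25288767438848, 3298534883328), (193273528320, 64424509440), (755914244096, 68719476736), (549755813888, 549755813888)] :=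
  covD_split 1 (by decide +kernel) c20_32_m1_t16 c20_32_m1_t17
theorem c20_32_m1_t19 : CovD 0 progs [(25288767438848, 3298534883328), (128849018880, 128849018880), (755914244096, 68719476736), (549755813888, 549755813888)] :=
  covD_split 1 (by decide +kernel) c20_32_m1_t15 c20_32_m1_t18
theorem c20_32_m1_t20 : CovD 0 progs [(25288767438848, 3298534883328), (128849018880, 128849018880), (687194767360, 137438953472), (549755813888, 549755813888)] :=
  covD_split 2 (by decide +kernel) c20_32_m1_t12 c20_32_m1_t19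
theorem c20_32_m1_t23 : CovD 0 progs [(25288767438848, 3298534883328), (64424509440, 64424509440), (893353197568, 68719476736), (549755813888, 549755813888)] :=
  covD_split 1 (by decide +kernel) c20_32_m1_t21 c20_32_m1_t22
theorem c20_32_m1_t26 : CovD 0 progs [(25288767438848, 3298534883328), (193273528320, 64424509440), (893353197568, 68719476736), (549755813888, 549755813888)] :=
  covD_split 1 (by decide +kernel) c20_32_m1_t24 c20_32_m1_t25
theorem c20_32_m1_t27 : CovD 0 progs [(25288767438848, 3298534883328), (128849018880, 128849018880), (893353197568, 68719476736), (549755813888, 549755813888)] :=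
  covD_split 1 (by decide +kernel) c20_32_m1_t23 c20_32_m1_t26
theorem c20_32_m1_t30 : CovD 0 progs [(25288767438848, 3298534883328), (128849018880, 128849018880), (996432412672, 34359738368), (549755813888, 549755813888)] :=
  covD_split 1 (by decide +kernel) c20_32_m1_t28 c20_32_m1_t29
theorem c20_32_m1_t33 : CovD 0 progs [(25288767438848, 3298534883328), (128849018880, 128849018880), (1065151889408, 34359738368), (549755813888, 549755813888)] :=
  covD_split 1 (by decide +kernel) c20_32_m1_t31 c20_32_m1_t32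
theorem c20_32_m1_t34 : CovD 0 progs [(25288767438848, 3298534883328), (128849018880, 128849018880), (1030792151040, 68719476736), (549755813888, 549755813888)] :=
  covD_split 2 (by decide +kernel) c20_32_m1_t30 c20_32_m1_t33
theorem c20_32_m1_t35 : CovD 0 progs [(25288767438848, 3298534883328), (128849018880, 128849018880), (962072674304, 137438953472), (549755813888, 549755813888)] :=
  covD_split 2 (by decide +kernel) c20_32_m1_t27 c20_32_m1_t34
theorem c20_32_m1 : CovD 0 progs [(25288767438848, 3298534883328), (128849018880, 128849018880), (824633720832, 274877906944), (549755813888, 549755813888)] :=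
  covD_split 2 (by decide +kernel) c20_32_m1_t20 c20_32_m1_t35

end Pool.Agent.helper71.FG.Crt.X
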