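import Pool.Agent.helper71.FG.Crt.XP

/-!
Generated certificates.
-/

namespace Pool.Agent.helper71.FG.Crt.X

open Pool.Agent.helper31.IA (Z Op)
open Pool.Agent.helper31.IC

mutual
theorem c20_32_m2_t0 : CovD 0 progs [(31885837205504, 3298534883328), (32212254720, 32212254720), (274877906944, 274877906944), (549755813888, 549755813888)] :=
  Pool.Agent.helper14.QF.covD_F chks_eq (.n 1 (.n 2 (.n 2 (.n 3 (.l 0) (.l 1)) (.n 3 (.l 0) (.l 1))) (.n 2 (.n 3 (.l 0) (.l 1)) (.n 2 (.l 0) (.l 0)))) (.n 2 (.n 2 (.n 3 (.l 2) (.l 1)) (.n 3 (.n 2 (.l 2) (.l 2)) (.l 1))) (.n 1 (.n 2 (.n 2 (.l 2) (.l 2)) (.n 2 (.l 2) (.l 2))) (.n 2 (.n 2 (.l 2) (.l 2)) (.n 3 (.l 2) (.n 0 (.l 0) (.l 0)))))))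
    [(31885837205504, 3298534883328), (32212254720, 32212254720), (274877906944, 274877906944), (549755813888, 549755813888)] rfl (by decide +kernel)
theorem c20_32_m2_t1 : CovD 0 progs [(31885837205504, 3298534883328), (80530636800, 16106127360), (274877906944, 274877906944), (549755813888, 549755813888)] :=
  Pool.Agent.helper14.QF.covD_F chks_eq (.n 3 (.n 2 (.n 2 (.l 2) (.n 2 (.l 2) (.l 2))) (.n 2 (.n 2 (.l 2) (.l 2)) (.n 0 (.n 1 (.l 2) (.l 4)) (.n 1 (.l 2) (.l 4))))) (.n 2 (.n 2 (.l 1) (.n 2 (.l 1) (.l 2))) (.n 2 (.n 2 (.l 2) (.n 0 (.l 2) (.l 2))) (.n 1 (.n 2 (.l 2) (.l 2)) (.n 2 (.l 2) (.n 0 (.l 2) (.l 2)))))))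
    [(31885837205504, 3298534883328), (80530636800, 16106127360), (274877906944, 274877906944), (549755813888, 549755813888)] rfl (by decide +kernel)
end
mutual
theorem c20_32_m2_t2 : CovD 0 progs [(31885837205504, 3298534883328), (112742891520, 16106127360), (137438953472, 137438953472), (549755813888, 549755813888)] :=
  Pool.Agent.helper14.QF.covD_F chks_eq (.n 2 (.n 2 (.l 2) (.l 2)) (.n 2 (.n 3 (.l 2) (.l 2)) (.n 3 (.l 2) (.n 0 (.l 2) (.l 2)))))
    [(31885837205504, 3298534883328), (112742891520, 16106127360), (137438953472, 137438953472), (549755813888, 549755813888)] rfl (by decide +kernel)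
theorem c20_32_m2_t3 : CovD 0 progs [(31885837205504, 3298534883328), (112742891520, 16106127360), (412316860416, 137438953472), (549755813888, 549755813888)] :=
  Pool.Agent.helper14.QF.covD_F chks_eq (.n 2 (.n 2 (.n 3 (.n 0 (.l 2) (.l 2)) (.n 3 (.l 2) (.l 2))) (.n 0 (.n 3 (.l 4) (.n 1 (.l 2) (.l 4))) (.n 3 (.l 4) (.n 1 (.l 2) (.l 4))))) (.n 1 (.n 2 (.n 3 (.l 4) (.n 0 (.l 2) (.l 4))) (.n 3 (.l 4) (.n 0 (.l 4) (.l 4)))) (.n 3 (.n 0 (.n 2 (.l 4) (.l 4)) (.n 2 (.l 4) (.l 4))) (.n 3 (.n 2 (.l 4) (.l 4)) (.l 11)))))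
    [(31885837205504, 3298534883328), (112742891520, 16106127360), (412316860416, 137438953472), (549755813888, 549755813888)] rfl (by decide +kernel)
end
mutual
theorem c20_32_m2_t7 : CovD 0 progs [(31885837205504, 3298534883328), (161061273600, 32212254720), (137438953472, 137438953472), (549755813888, 549755813888)] :=
  Pool.Agent.helper14.QF.covD_F chks_eq (.n 3 (.n 2 (.n 2 (.l 2) (.l 2)) (.n 2 (.n 2 (.l 2) (.l 4)) (.n 1 (.n 0 (.l 2) (.l 4)) (.n 2 (.l 4) (.l 4))))) (.n 2 (.n 2 (.l 1) (.n 0 (.l 2) (.l 2))) (.n 1 (.n 2 (.n 0 (.l 2) (.l 2)) (.n 2 (.l 2) (.n 0 (.l 2) (.l 2)))) (.n 2 (.n 2 (.l 2) (.n 0 (.l 2) (.l 2))) (.n 2 (.n 0 (.l 4) (.l 4)) (.n 3 (.l 4) (.l 4)))))))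
    [(31885837205504, 3298534883328), (161061273600, 32212254720), (137438953472, 137438953472), (549755813888, 549755813888)] rfl (by decide +kernel)
theorem c20_32_m2_t8 : CovD 0 progs [(31885837205504, 3298534883328), (161061273600, 32212254720), (309237645312, 34359738368), (549755813888, 549755813888)] :=
  Pool.Agent.helper14.QF.covD_F chks_eq (.n 1 (.n 2 (.n 3 (.l 4) (.n 0 (.l 4) (.l 4))) (.n 3 (.l 4) (.n 3 (.l 4) (.l 2)))) (.n 3 (.n 0 (.n 2 (.l 4) (.l 4)) (.n 2 (.l 4) (.n 0 (.l 4) (.l 4)))) (.n 3 (.n 2 (.l 4) (.n 0 (.l 4) (.l 4))) (.l 11))))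
    [(31885837205504, 3298534883328), (161061273600, 32212254720), (309237645312, 34359738368), (549755813888, 549755813888)] rfl (by decide +kernel)
end
mutual
theorem c20_32_m2_t9 : CovD 0 progs [(31885837205504, 3298534883328), (161061273600, 32212254720), (377957122048, 34359738368), (549755813888, 549755813888)] :=
  Pool.Agent.helper14.QF.covD_F chks_eq (.n 0 (.n 3 (.n 1 (.n 1 (.l 4) (.l 4)) (.n 1 (.n 2 (.l 4) (.l 4)) (.n 3 (.l 4) (.l 4)))) (.n 3 (.n 1 (.l 4) (.n 0 (.l 4) (.l 11))) (.l 11))) (.n 3 (.n 1 (.n 3 (.l 4) (.l 4)) (.n 2 (.n 3 (.l 4) (.l 4)) (.n 3 (.l 4) (.n 0 (.l 4) (.l 4))))) (.n 3 (.n 1 (.l 4) (.l 11)) (.l 11))))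
    [(31885837205504, 3298534883328), (161061273600, 32212254720), (377957122048, 34359738368), (549755813888, 549755813888)] rfl (by decide +kernel)
theorem c20_32_m2_t11 : CovD 0 progs [(31885837205504, 3298534883328), (161061273600, 32212254720), (446676598784, 34359738368), (549755813888, 549755813888)] :=
  Pool.Agent.helper14.QF.covD_F chks_eq (.n 3 (.n 0 (.n 1 (.n 1 (.l 4) (.n 0 (.l 4) (.l 4))) (.n 2 (.n 3 (.l 4) (.l 4)) (.n 3 (.l 4) (.n 0 (.l 4) (.l 4))))) (.n 1 (.n 1 (.n 0 (.l 4) (.l 4)) (.n 2 (.l 4) (.l 4))) (.n 3 (.n 1 (.l 4) (.n 0 (.l 4) (.l 4))) (.n 3 (.n 1 (.l 4) (.l 4)) (.l 11))))) (.n 3 (.n 1 (.n 1 (.l 4) (.l 11)) (.l 11)) (.l 11)))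
    [(31885837205504, 3298534883328), (161061273600, 32212254720), (446676598784, 34359738368), (549755813888, 549755813888)] rfl (by decide +kernel)
end
mutual
theorem c20_32_m2_t12 : CovD 0 progs [(31885837205504, 3298534883328), (161061273600, 32212254720), (515396075520, 34359738368), (549755813888, 549755813888)] :=
  Pool.Agent.helper14.QF.covD_F chks_eq (.n 3 (.n 0 (.n 3 (.n 1 (.n 0 (.l 4) (.l 4)) (.n 2 (.l 4) (.l 4))) (.n 1 (.n 0 (.l 4) (.l 4)) (.n 1 (.l 4) (.n 0 (.l 4) (.l 4))))) (.n 1 (.n 1 (.n 0 (.l 4) (.l 4)) (.n 3 (.l 4) (.l 4))) (.n 3 (.n 1 (.l 4) (.n 0 (.l 4) (.l 4))) (.n 3 (.n 1 (.l 4) (.l 4)) (.l 11))))) (.n 3 (.n 0 (.n 1 (.l 11) (.l 11)) (.l 11)) (.l 11)))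
    [(31885837205504, 3298534883328), (161061273600, 32212254720), (515396075520, 34359738368), (549755813888, 549755813888)] rfl (by decide +kernel)
theorem c20_32_m2_t16 : CovD 0 progs [(31885837205504, 3298534883328), (209379655680, 16106127360), (137438953472, 137438953472), (549755813888, 549755813888)] :=
  Pool.Agent.helper14.QF.covD_F chks_eq (.n 2 (.n 2 (.l 2) (.n 2 (.l 2) (.n 3 (.l 2) (.l 2)))) (.n 2 (.n 2 (.n 3 (.l 2) (.n 0 (.l 2) (.l 2))) (.n 3 (.l 4) (.n 0 (.l 4) (.l 4)))) (.n 2 (.n 3 (.n 0 (.l 4) (.l 4)) (.n 3 (.l 4) (.l 4))) (.n 3 (.n 3 (.l 4) (.l 4)) (.n 3 (.l 4) (.l 4))))))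
    [(31885837205504, 3298534883328), (209379655680, 16106127360), (137438953472, 137438953472), (549755813888, 549755813888)] rfl (by decide +kernel)
end
mutual
theorem c20_32_m2_t17 : CovD 0 progs [(31885837205504, 3298534883328), (209379655680, 16106127360), (309237645312, 34359738368), (549755813888, 549755813888)] :=
  Pool.Agent.helper14.QF.covD_F chks_eq (.n 3 (.n 0 (.n 2 (.n 0 (.l 4) (.l 4)) (.n 3 (.l 4) (.l 4))) (.n 2 (.n 3 (.l 4) (.l 4)) (.n 1 (.n 2 (.l 4) (.l 4)) (.n 3 (.l 4) (.l 4))))) (.n 3 (.n 2 (.n 0 (.l 4) (.l 4)) (.l 11)) (.l 11)))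
    [(31885837205504, 3298534883328), (209379655680, 16106127360), (309237645312, 34359738368), (549755813888, 549755813888)] rfl (by decide +kernel)
theorem c20_32_m2_t18 : CovD 0 progs [(31885837205504, 3298534883328), (209379655680, 16106127360), (377957122048, 34359738368), (549755813888, 549755813888)] :=
  Pool.Agent.helper14.QF.covD_F chks_eq (.n 3 (.n 0 (.n 1 (.n 2 (.n 3 (.l 4) (.l 4)) (.n 3 (.l 4) (.l 4))) (.n 2 (.n 3 (.l 4) (.l 4)) (.n 3 (.l 4) (.n 0 (.l 4) (.l 4))))) (.n 1 (.n 2 (.n 3 (.l 4) (.l 4)) (.n 3 (.l 4) (.l 4))) (.n 3 (.n 0 (.n 2 (.l 4) (.l 4)) (.n 2 (.l 4) (.l 4))) (.n 3 (.n 2 (.l 4) (.l 4)) (.l 11))))) (.n 3 (.l 11) (.l 11)))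
    [(31885837205504, 3298534883328), (209379655680, 16106127360), (377957122048, 34359738368), (549755813888, 549755813888)] rfl (by decide +kernel)
end
mutual
theorem c20_32_m2_t20 : CovD 0 progs [(31885837205504, 3298534883328), (209379655680, 16106127360), (446676598784, 34359738368), (549755813888, 549755813888)] :=
  Pool.Agent.helper14.QF.covD_F chks_eq (.n 0 (.n 3 (.n 3 (.n 1 (.n 2 (.l 4) (.l 4)) (.n 2 (.l 4) (.l 4))) (.n 1 (.n 2 (.l 4) (.l 4)) (.n 3 (.n 2 (.l 4) (.l 4)) (.l 11)))) (.l 11)) (.n 3 (.n 1 (.n 3 (.n 2 (.l 4) (.l 4)) (.n 3 (.n 0 (.l 4) (.l 4)) (.l 11))) (.n 3 (.n 0 (.n 2 (.l 4) (.l 4)) (.n 2 (.l 4) (.l 4))) (.n 3 (.n 2 (.l 4) (.l 4)) (.l 11)))) (.l 11)))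
    [(31885837205504, 3298534883328), (209379655680, 16106127360), (446676598784, 34359738368), (549755813888, 549755813888)] rfl (by decide +kernel)
theorem c20_32_m2_t21 : CovD 0 progs [(31885837205504, 3298534883328), (209379655680, 16106127360), (515396075520, 34359738368), (549755813888, 549755813888)] :=
  Pool.Agent.helper14.QF.covD_F chks_eq (.n 3 (.n 3 (.n 0 (.n 1 (.n 0 (.l 4) (.l 4)) (.n 2 (.l 4) (.l 4))) (.n 2 (.n 1 (.l 4) (.l 4)) (.l 6))) (.n 3 (.n 3 (.n 0 (.n 1 (.l 4) (.l 4)) (.l 11)) (.l 11)) (.l 11))) (.l 11))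
    [(31885837205504, 3298534883328), (209379655680, 16106127360), (515396075520, 34359738368), (549755813888, 549755813888)] rfl (by decide +kernel)
end
mutual
theorem c20_32_m2_t25 : CovD 0 progs [(31885837205504, 3298534883328), (241591910400, 16106127360), (137438953472, 137438953472), (549755813888, 549755813888)] :=
  Pool.Agent.helper14.QF.covD_F chks_eq (.n 2 (.n 2 (.l 2) (.n 3 (.l 10) (.n 3 (.l 2) (.l 2)))) (.n 1 (.n 2 (.n 2 (.n 3 (.l 2) (.l 4)) (.n 3 (.l 4) (.n 0 (.l 4) (.l 4)))) (.n 3 (.n 3 (.l 10) (.n 2 (.l 4) (.l 4))) (.n 3 (.n 2 (.l 4) (.l 4)) (.l 11)))) (.l 10)))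
    [(31885837205504, 3298534883328), (241591910400, 16106127360), (137438953472, 137438953472), (549755813888, 549755813888)] rfl (by decide +kernel)
theorem c20_32_m2_t26 : CovD 0 progs [(31885837205504, 3298534883328), (241591910400, 16106127360), (343597383680, 68719476736), (549755813888, 549755813888)] :=
  Pool.Agent.helper14.QF.covD_F chks_eq (.n 2 (.n 1 (.n 3 (.n 1 (.n 1 (.n 3 (.l 10) (.n 2 (.l 4) (.n 0 (.l 4) (.l 4)))) (.l 10)) (.l 10)) (.n 3 (.l 11) (.l 11))) (.n 3 (.l 10) (.l 10))) (.n 1 (.n 3 (.n 1 (.n 3 (.l 10) (.n 3 (.n 0 (.n 0 (.l 4) (.l 4)) (.n 2 (.l 4) (.l 4))) (.l 11))) (.l 10)) (.l 11)) (.n 3 (.l 10) (.l 10))))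
    [(31885837205504, 3298534883328), (241591910400, 16106127360), (343597383680, 68719476736), (549755813888, 549755813888)] rfl (by decide +kernel)
theorem c20_32_m2_t27 : CovD 0 progs [(31885837205504, 3298534883328), (241591910400, 16106127360), (481036337152, 68719476736), (549755813888, 549755813888)] :=
  Pool.Agent.helper14.QF.covD_F chks_eq (.n 1 (.n 3 (.n 3 (.n 1 (.n 3 (.l 10) (.n 2 (.l 10) (.n 0 (.l 4) (.l 4)))) (.l 10)) (.n 3 (.n 3 (.n 2 (.n 0 (.n 2 (.l 4) (.l 4)) (.l 11)) (.l 11)) (.l 11)) (.l 11))) (.l 11)) (.n 3 (.l 10) (.l 11)))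
    [(31885837205504, 3298534883328), (241591910400, 16106127360), (481036337152, 68719476736), (549755813888, 549755813888)] rfl (by decide +kernel)
end
theorem c20_32_m2_t4 : CovD 0 progs [(31885837205504, 3298534883328), (112742891520, 16106127360), (274877906944, 274877906944), (549755813888, 549755813888)] :=
  covD_split 2 (by decide +kernel) c20_32_m2_t2 c20_32_m2_t3
theorem c20_32_m2_t5 : CovD 0 progs [(31885837205504, 3298534883328), (96636764160, 32212254720), (274877906944, 274877906944), (549755813888, 549755813888)] :=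
  covD_split 1 (by decide +kernel) c20_32_m2_t1 c20_32_m2_t4
theorem c20_32_m2_t6 : CovD 0 progs [(31885837205504, 3298534883328), (64424509440, 64424509440), (274877906944, 274877906944), (549755813888, 549755813888)] :=
  covD_split 1 (by decide +kernel) c20_32_m2_t0 c20_32_m2_t5
theorem c20_32_m2_t10 : CovD 0 progs [(31885837205504, 3298534883328), (161061273600, 32212254720), (343597383680, 68719476736), (549755813888, 549755813888)] :=
  covD_split 2 (by decide +kernel) c20_32_m2_t8 c20_32_m2_t9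
theorem c20_32_m2_t13 : CovD 0 progs [(31885837205504, 3298534883328), (161061273600, 32212254720), (481036337152, 68719476736), (549755813888, 549755813888)] :=
  covD_split 2 (by decide +kernel) c20_32_m2_t11 c20_32_m2_t12
theorem c20_32_m2_t14 : CovD 0 progs [(31885837205504, 3298534883328), (161061273600, 32212254720), (412316860416, 137438953472), (549755813888, 549755813888)] :=
  covD_split 2 (by decide +kernel) c20_32_m2_t10 c20_32_m2_t13
theorem c20_32_m2_t15 : CovD 0 progs [(31885837205504, 3298534883328), (161061273600, 32212254720), (274877906944, 274877906944), (549755813888, 549755813888)] :=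
  covD_split 2 (by decide +kernel) c20_32_m2_t7 c20_32_m2_t14
theorem c20_32_m2_t19 : CovD 0 progs [(31885837205504, 3298534883328), (209379655680, 16106127360), (343597383680, 68719476736), (549755813888, 549755813888)] :=
  covD_split 2 (by decide +kernel) c20_32_m2_t17 c20_32_m2_t18
theorem c20_32_m2_t22 : CovD 0 progs [(31885837205504, 3298534883328), (209379655680, 16106127360), (481036337152, 68719476736), (549755813888, 549755813888)] :=
  covD_split 2 (by decide +kernel) c20_32_m2_t20 c20_32_m2_t21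
theorem c20_32_m2_t23 : CovD 0 progs [(31885837205504, 3298534883328), (209379655680, 16106127360), (412316860416, 137438953472), (549755813888, 549755813888)] :=
  covD_split 2 (by decide +kernel) c20_32_m2_t19 c20_32_m2_t22
theorem c20_32_m2_t24 : CovD 0 progs [(31885837205504, 3298534883328), (209379655680, 16106127360), (274877906944, 274877906944), (549755813888, 549755813888)] :=
  covD_split 2 (by decide +kernel) c20_32_m2_t16 c20_32_m2_t23
theorem c20_32_m2_t28 : CovD 0 progs [(31885837205504, 3298534883328), (241591910400, 16106127360), (412316860416, 137438953472), (549755813888, 549755813888)] :=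
  covD_split 2 (by decide +kernel) c20_32_m2_t26 c20_32_m2_t27
theorem c20_32_m2_t29 : CovD 0 progs [(31885837205504, 3298534883328), (241591910400, 16106127360), (274877906944, 274877906944), (549755813888, 549755813888)] :=
  covD_split 2 (by decide +kernel) c20_32_m2_t25 c20_32_m2_t28
theorem c20_32_m2_t30 : CovD 0 progs [(31885837205504, 3298534883328), (225485783040, 32212254720), (274877906944, 274877906944), (549755813888, 549755813888)] :=
  covD_split 1 (by decide +kernel) c20_32_m2_t24 c20_32_m2_t29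
theorem c20_32_m2_t31 : CovD 0 progs [(31885837205504, 3298534883328), (193273528320, 64424509440), (274877906944, 274877906944), (549755813888, 549755813888)] :=
  covD_split 1 (by decide +kernel) c20_32_m2_t15 c20_32_m2_t30
theorem c20_32_m2 : CovD 0 progs [(31885837205504, 3298534883328), (128849018880, 128849018880), (274877906944, 274877906944), (549755813888, 549755813888)] :=
  covD_split 1 (by decide +kernel) c20_32_m2_t6 c20_32_m2_t31

end Pool.Agent.helper71.FG.Crt.X
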