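import Pool.Agent.helper71.FG.Crt.XP

/-!
Generated certificates.
-/

namespace Pool.Agent.helper71.FG.Crt.X

open Pool.Agent.helper31.IA (Z Op)
open Pool.Agent.helper31.IC

mutual
theorem c20_32_m3_t0 : CovD 0 progs [(30236569763840, 1649267441664), (32212254720, 32212254720), (824633720832, 274877906944), (549755813888, 549755813888)] :=
  Pool.Agent.helper14.QF.covD_F chks_eq (.n 1 (.n 1 (.n 0 (.n 2 (.l 0) (.l 0)) (.n 2 (.l 0) (.l 0))) (.n 2 (.n 2 (.l 0) (.l 0)) (.n 3 (.l 0) (.l 0)))) (.n 1 (.n 1 (.n 2 (.n 2 (.l 0) (.l 0)) (.n 3 (.l 0) (.l 0))) (.n 2 (.n 2 (.l 2) (.l 2)) (.n 3 (.l 4) (.l 3)))) (.n 2 (.n 2 (.n 3 (.l 2) (.l 0)) (.n 3 (.l 2) (.l 0))) (.n 2 (.n 3 (.l 4) (.l 3)) (.n 3 (.l 4) (.l 3))))))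
    [(30236569763840, 1649267441664), (32212254720, 32212254720), (824633720832, 274877906944), (549755813888, 549755813888)] rfl (by decide +kernel)
theorem c20_32_m3_t1 : CovD 0 progs [(30236569763840, 1649267441664), (80530636800, 16106127360), (824633720832, 274877906944), (549755813888, 549755813888)] :=
  Pool.Agent.helper14.QF.covD_F chks_eq (.n 1 (.n 2 (.n 2 (.n 3 (.l 4) (.n 1 (.l 0) (.l 0))) (.n 3 (.l 4) (.n 0 (.l 3) (.l 3)))) (.n 2 (.n 3 (.l 4) (.l 3)) (.n 3 (.l 4) (.l 3)))) (.n 2 (.n 3 (.n 2 (.l 4) (.l 4)) (.n 3 (.n 2 (.l 3) (.l 3)) (.l 11))) (.n 3 (.n 2 (.l 4) (.l 4)) (.n 3 (.l 11) (.l 11)))))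
    [(30236569763840, 1649267441664), (80530636800, 16106127360), (824633720832, 274877906944), (549755813888, 549755813888)] rfl (by decide +kernel)
end
mutual
theorem c20_32_m3_t2 : CovD 0 progs [(30236569763840, 1649267441664), (112742891520, 16106127360), (824633720832, 274877906944), (549755813888, 549755813888)] :=
  Pool.Agent.helper14.QF.covD_F chks_eq (.n 2 (.n 3 (.n 1 (.n 2 (.n 2 (.l 4) (.l 4)) (.n 0 (.l 4) (.l 4))) (.n 2 (.n 2 (.l 4) (.l 4)) (.n 2 (.l 4) (.l 4)))) (.n 3 (.n 2 (.n 1 (.l 4) (.l 11)) (.l 11)) (.l 11))) (.n 3 (.n 1 (.n 2 (.l 4) (.l 4)) (.n 2 (.n 0 (.l 4) (.l 4)) (.l 4))) (.n 3 (.l 11) (.l 11))))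
    [(30236569763840, 1649267441664), (112742891520, 16106127360), (824633720832, 274877906944), (549755813888, 549755813888)] rfl (by decide +kernel)
theorem c20_32_m3_t5 : CovD 0 progs [(30236569763840, 1649267441664), (144955146240, 16106127360), (824633720832, 274877906944), (549755813888, 549755813888)] :=
  Pool.Agent.helper14.QF.covD_F chks_eq (.n 2 (.n 2 (.n 3 (.n 2 (.n 0 (.n 3 (.l 4) (.l 4)) (.n 3 (.l 4) (.l 4))) (.n 3 (.l 4) (.n 0 (.l 4) (.l 4)))) (.n 3 (.l 11) (.l 11))) (.n 3 (.n 1 (.n 2 (.l 4) (.l 4)) (.n 2 (.l 4) (.l 4))) (.l 11))) (.n 1 (.n 3 (.n 2 (.n 0 (.l 4) (.l 4)) (.l 4)) (.l 11)) (.n 3 (.n 2 (.l 6) (.l 5)) (.l 11))))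
    [(30236569763840, 1649267441664), (144955146240, 16106127360), (824633720832, 274877906944), (549755813888, 549755813888)] rfl (by decide +kernel)
end
mutual
theorem c20_32_m3_t6 : CovD 0 progs [(30236569763840, 1649267441664), (177167400960, 16106127360), (824633720832, 274877906944), (549755813888, 549755813888)] :=
  Pool.Agent.helper14.QF.covD_F chks_eq (.n 2 (.n 2 (.n 3 (.n 3 (.n 0 (.n 2 (.l 4) (.l 4)) (.n 2 (.l 4) (.l 4))) (.n 3 (.n 2 (.n 0 (.l 4) (.l 4)) (.l 4)) (.l 11))) (.l 11)) (.n 3 (.n 2 (.n 1 (.l 6) (.l 6)) (.l 6)) (.l 11))) (.n 3 (.n 1 (.n 2 (.l 6) (.l 5)) (.n 2 (.l 6) (.l 5))) (.l 11)))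
    [(30236569763840, 1649267441664), (177167400960, 16106127360), (824633720832, 274877906944), (549755813888, 549755813888)] rfl (by decide +kernel)
theorem c20_32_m3_t8 : CovD 0 progs [(30236569763840, 1649267441664), (209379655680, 16106127360), (824633720832, 274877906944), (549755813888, 549755813888)] :=
  Pool.Agent.helper14.QF.covD_F chks_eq (.n 2 (.n 2 (.n 3 (.n 2 (.n 3 (.n 1 (.l 4) (.l 6)) (.n 2 (.n 1 (.l 4) (.l 4)) (.l 6))) (.n 2 (.l 6) (.l 6))) (.l 11)) (.n 3 (.n 2 (.l 6) (.l 6)) (.l 11))) (.n 2 (.n 3 (.n 1 (.l 6) (.l 6)) (.l 11)) (.n 3 (.n 2 (.l 5) (.l 6)) (.l 11))))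
    [(30236569763840, 1649267441664), (209379655680, 16106127360), (824633720832, 274877906944), (549755813888, 549755813888)] rfl (by decide +kernel)
end
mutual
theorem c20_32_m3_t9 : CovD 0 progs [(30236569763840, 1649267441664), (241591910400, 16106127360), (824633720832, 274877906944), (549755813888, 549755813888)] :=
  Pool.Agent.helper14.QF.covD_F chks_eq (.n 2 (.n 3 (.n 2 (.n 1 (.n 2 (.n 2 (.l 6) (.l 6)) (.l 6)) (.n 2 (.l 10) (.l 6))) (.n 2 (.l 6) (.l 6))) (.l 11)) (.n 3 (.n 2 (.n 2 (.l 6) (.l 6)) (.n 3 (.n 2 (.l 4) (.l 5)) (.l 11))) (.l 11)))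
    [(30236569763840, 1649267441664), (241591910400, 16106127360), (824633720832, 274877906944), (549755813888, 549755813888)] rfl (by decide +kernel)
theorem c20_32_m3_t13 : CovD 0 progs [(33535104647168, 1649267441664), (32212254720, 32212254720), (824633720832, 274877906944), (549755813888, 549755813888)] :=
  Pool.Agent.helper14.QF.covD_F chks_eq (.n 2 (.n 1 (.n 1 (.l 0) (.n 2 (.l 0) (.l 0))) (.n 1 (.n 2 (.n 1 (.l 0) (.l 2)) (.n 3 (.l 2) (.l 0))) (.n 2 (.n 3 (.l 2) (.l 0)) (.n 3 (.l 4) (.l 0))))) (.n 1 (.n 1 (.n 1 (.l 0) (.l 0)) (.n 1 (.l 0) (.n 2 (.l 0) (.l 0)))) (.n 1 (.n 1 (.n 3 (.l 0) (.l 3)) (.n 3 (.l 4) (.l 3))) (.n 2 (.n 3 (.l 4) (.l 3)) (.n 3 (.l 4) (.l 3))))))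
    [(33535104647168, 1649267441664), (32212254720, 32212254720), (824633720832, 274877906944), (549755813888, 549755813888)] rfl (by decide +kernel)
end
mutual
theorem c20_32_m3_t14 : CovD 0 progs [(33535104647168, 1649267441664), (80530636800, 16106127360), (824633720832, 274877906944), (549755813888, 549755813888)] :=
  Pool.Agent.helper14.QF.covD_F chks_eq (.n 1 (.n 2 (.n 2 (.n 3 (.l 4) (.n 1 (.l 0) (.l 4))) (.n 3 (.l 4) (.n 0 (.l 3) (.l 3)))) (.n 2 (.n 3 (.l 4) (.n 0 (.l 3) (.l 3))) (.n 3 (.l 4) (.l 3)))) (.n 2 (.n 3 (.n 2 (.n 0 (.l 4) (.l 4)) (.l 4)) (.n 3 (.n 2 (.l 4) (.l 3)) (.l 11))) (.n 2 (.n 3 (.l 4) (.l 11)) (.n 3 (.l 4) (.l 3)))))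
    [(33535104647168, 1649267441664), (80530636800, 16106127360), (824633720832, 274877906944), (549755813888, 549755813888)] rfl (by decide +kernel)
theorem c20_32_m3_t15 : CovD 0 progs [(33535104647168, 1649267441664), (112742891520, 16106127360), (824633720832, 274877906944), (549755813888, 549755813888)] :=
  Pool.Agent.helper14.QF.covD_F chks_eq (.n 1 (.n 2 (.n 2 (.n 3 (.n 2 (.l 4) (.l 4)) (.n 3 (.l 4) (.l 4))) (.n 3 (.n 0 (.l 4) (.l 4)) (.l 11))) (.n 3 (.n 2 (.l 4) (.l 4)) (.l 11))) (.n 2 (.n 3 (.n 2 (.n 2 (.l 4) (.l 4)) (.n 1 (.l 4) (.l 4))) (.n 3 (.l 11) (.l 11))) (.n 3 (.n 2 (.l 4) (.l 4)) (.l 11))))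
    [(33535104647168, 1649267441664), (112742891520, 16106127360), (824633720832, 274877906944), (549755813888, 549755813888)] rfl (by decide +kernel)
end
mutual
theorem c20_32_m3_t18 : CovD 0 progs [(33535104647168, 1649267441664), (144955146240, 16106127360), (824633720832, 274877906944), (549755813888, 549755813888)] :=
  Pool.Agent.helper14.QF.covD_F chks_eq (.n 2 (.n 2 (.n 2 (.n 3 (.n 0 (.n 3 (.l 4) (.l 4)) (.n 3 (.l 4) (.l 4))) (.l 11)) (.n 3 (.n 3 (.l 4) (.n 0 (.l 4) (.l 4))) (.l 11))) (.n 3 (.n 2 (.n 1 (.l 4) (.l 4)) (.l 6)) (.l 11))) (.n 3 (.n 1 (.n 2 (.l 5) (.l 4)) (.n 2 (.l 5) (.l 4))) (.l 11)))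
    [(33535104647168, 1649267441664), (144955146240, 16106127360), (824633720832, 274877906944), (549755813888, 549755813888)] rfl (by decide +kernel)
theorem c20_32_m3_t19 : CovD 0 progs [(33535104647168, 1649267441664), (177167400960, 16106127360), (824633720832, 274877906944), (549755813888, 549755813888)] :=
  Pool.Agent.helper14.QF.covD_F chks_eq (.n 2 (.n 2 (.n 3 (.n 1 (.n 2 (.n 3 (.l 4) (.l 4)) (.l 6)) (.n 2 (.n 2 (.l 6) (.l 6)) (.l 6))) (.l 11)) (.n 3 (.n 2 (.l 6) (.l 6)) (.l 11))) (.n 3 (.n 2 (.n 0 (.l 6) (.l 6)) (.n 2 (.l 4) (.l 4))) (.l 11)))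
    [(33535104647168, 1649267441664), (177167400960, 16106127360), (824633720832, 274877906944), (549755813888, 549755813888)] rfl (by decide +kernel)
theorem c20_32_m3_t21 : CovD 0 progs [(33535104647168, 1649267441664), (225485783040, 32212254720), (824633720832, 274877906944), (549755813888, 549755813888)] :=
  Pool.Agent.helper14.QF.covD_F chks_eq (.n 2 (.n 1 (.n 3 (.n 2 (.n 2 (.n 2 (.l 6) (.l 6)) (.l 6)) (.n 1 (.l 6) (.l 6))) (.l 11)) (.n 3 (.n 2 (.n 2 (.n 0 (.l 6) (.l 6)) (.l 6)) (.n 1 (.l 6) (.l 6))) (.l 11))) (.n 3 (.n 1 (.n 2 (.n 1 (.l 6) (.l 6)) (.n 2 (.l 5) (.n 0 (.l 5) (.l 5)))) (.n 2 (.n 2 (.l 5) (.l 5)) (.n 3 (.l 15) (.l 11)))) (.l 11)))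
    [(33535104647168, 1649267441664), (225485783040, 32212254720), (824633720832, 274877906944), (549755813888, 549755813888)] rfl (by decide +kernel)
end
theorem c20_32_m3_t3 : CovD 0 progs [(30236569763840, 1649267441664), (96636764160, 32212254720), (824633720832, 274877906944), (549755813888, 549755813888)] :=
  covD_split 1 (by decide +kernel) c20_32_m3_t1 c20_32_m3_t2
theorem c20_32_m3_t4 : CovD 0 progs [(30236569763840, 1649267441664), (64424509440, 64424509440), (824633720832, 274877906944), (549755813888, 549755813888)] :=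
  covD_split 1 (by decide +kernel) c20_32_m3_t0 c20_32_m3_t3
theorem c20_32_m3_t7 : CovD 0 progs [(30236569763840, 1649267441664), (161061273600, 32212254720), (824633720832, 274877906944), (549755813888, 549755813888)] :=
  covD_split 1 (by decide +kernel) c20_32_m3_t5 c20_32_m3_t6
theorem c20_32_m3_t10 : CovD 0 progs [(30236569763840, 1649267441664), (225485783040, 32212254720), (824633720832, 274877906944), (549755813888, 549755813888)] :=
  covD_split 1 (by decide +kernel) c20_32_m3_t8 c20_32_m3_t9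
theorem c20_32_m3_t11 : CovD 0 progs [(30236569763840, 1649267441664), (193273528320, 64424509440), (824633720832, 274877906944), (549755813888, 549755813888)] :=
  covD_split 1 (by decide +kernel) c20_32_m3_t7 c20_32_m3_t10
theorem c20_32_m3_t12 : CovD 0 progs [(30236569763840, 1649267441664), (128849018880, 128849018880), (824633720832, 274877906944), (549755813888, 549755813888)] :=
  covD_split 1 (by decide +kernel) c20_32_m3_t4 c20_32_m3_t11
theorem c20_32_m3_t16 : CovD 0 progs [(33535104647168, 1649267441664), (96636764160, 32212254720), (824633720832, 274877906944), (549755813888, 549755813888)] :=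
  covD_split 1 (by decide +kernel) c20_32_m3_t14 c20_32_m3_t15
theorem c20_32_m3_t17 : CovD 0 progs [(33535104647168, 1649267441664), (64424509440, 64424509440), (824633720832, 274877906944), (549755813888, 549755813888)] :=
  covD_split 1 (by decide +kernel) c20_32_m3_t13 c20_32_m3_t16
theorem c20_32_m3_t20 : CovD 0 progs [(33535104647168, 1649267441664), (161061273600, 32212254720), (824633720832, 274877906944), (549755813888, 549755813888)] :=
  covD_split 1 (by decide +kernel) c20_32_m3_t18 c20_32_m3_t19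
theorem c20_32_m3_t22 : CovD 0 progs [(33535104647168, 1649267441664), (193273528320, 64424509440), (824633720832, 274877906944), (549755813888, 549755813888)] :=
  covD_split 1 (by decide +kernel) c20_32_m3_t20 c20_32_m3_t21
theorem c20_32_m3_t23 : CovD 0 progs [(33535104647168, 1649267441664), (128849018880, 128849018880), (824633720832, 274877906944), (549755813888, 549755813888)] :=
  covD_split 1 (by decide +kernel) c20_32_m3_t17 c20_32_m3_t22
theorem c20_32_m3 : CovD 0 progs [(31885837205504, 3298534883328), (128849018880, 128849018880), (824633720832, 274877906944), (549755813888, 549755813888)] :=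
  covD_split 0 (by decide +kernel) c20_32_m3_t12 c20_32_m3_t23

end Pool.Agent.helper71.FG.Crt.X
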