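import Pool.Agent.helper71.FG.Crt.Xc20_32_0
import Pool.Agent.helper71.FG.Crt.Xc20_32_1
import Pool.Agent.helper71.FG.Crt.Xc20_32_2
import Pool.Agent.helper71.FG.Crt.Xc20_32_3

/-!
Generated certificates, assembled.
-/

namespace Pool.Agent.helper71.FG.Crt.X

open Pool.Agent.helper31.IA (Z Op)
open Pool.Agent.helper31.IC

theorem c20_32_top0 : CovD 0 progs [(25288767438848, 3298534883328), (128849018880, 128849018880), (549755813888, 549755813888), (549755813888, 549755813888)] :=
  covD_split 2 (by decide +kernel) c20_32_m0 c20_32_m1
theorem c20_32_top1 : CovD 0 progs [(31885837205504, 3298534883328), (128849018880, 128849018880), (549755813888, 549755813888), (549755813888, 549755813888)] :=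
  covD_split 2 (by decide +kernel) c20_32_m2 c20_32_m3
theorem c20_32_top2 : CovD 0 progs [(28587302322176, 6597069766656), (128849018880, 128849018880), (549755813888, 549755813888), (549755813888, 549755813888)] :=
  covD_split 0 (by decide +kernel) c20_32_top0 c20_32_top1

theorem c20_32_all : CovD 0 progs [(28587302322176, 6597069766656), (128849018880, 128849018880), (549755813888, 549755813888), (549755813888, 549755813888)] := c20_32_top2

end Pool.Agent.helper71.FG.Crt.X
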