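import Pool.Agent.helper71.FG.Crt.XP

/-!
Generated certificates.
-/

namespace Pool.Agent.helper71.FG.Crt.X

open Pool.Agent.helper31.IA (Z Op)
open Pool.Agent.helper31.IC

mutual
theorem c32_40_m1_t0 : CovD 0 progs [(41781441855488, 2199023255552), (16106127360, 16106127360), (549755813888, 549755813888), (549755813888, 549755813888)] :=
  Pool.Agent.helper14.QF.covD_F chks_eq (.n 1 (.n 2 (.n 2 (.n 2 (.n 2 (.l 0) (.l 0)) (.n 2 (.l 0) (.l 0))) (.n 2 (.l 0) (.l 0))) (.n 1 (.n 2 (.l 0) (.l 0)) (.n 2 (.l 0) (.l 0)))) (.n 2 (.n 2 (.n 2 (.n 3 (.l 0) (.l 1)) (.n 3 (.l 0) (.l 1))) (.n 2 (.n 1 (.l 0) (.l 2)) (.l 2))) (.n 3 (.n 2 (.l 0) (.n 1 (.l 0) (.l 3))) (.n 1 (.n 2 (.l 0) (.l 0)) (.n 2 (.l 0) (.l 3))))))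
    [(41781441855488, 2199023255552), (16106127360, 16106127360), (549755813888, 549755813888), (549755813888, 549755813888)] rfl (by decide +kernel)
theorem c32_40_m1_t1 : CovD 0 progs [(41781441855488, 2199023255552), (40265318400, 8053063680), (549755813888, 549755813888), (549755813888, 549755813888)] :=
  Pool.Agent.helper14.QF.covD_F chks_eq (.n 2 (.n 2 (.n 2 (.n 2 (.l 2) (.l 2)) (.n 2 (.l 2) (.l 2))) (.n 1 (.n 2 (.l 2) (.l 2)) (.n 2 (.l 2) (.l 2)))) (.n 2 (.n 2 (.n 3 (.l 2) (.l 0)) (.n 3 (.l 4) (.l 0))) (.n 2 (.n 3 (.l 4) (.l 3)) (.n 3 (.l 4) (.l 3)))))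
    [(41781441855488, 2199023255552), (40265318400, 8053063680), (549755813888, 549755813888), (549755813888, 549755813888)] rfl (by decide +kernel)
end
mutual
theorem c32_40_m1_t2 : CovD 0 progs [(41781441855488, 2199023255552), (56371445760, 8053063680), (549755813888, 549755813888), (549755813888, 549755813888)] :=
  Pool.Agent.helper14.QF.covD_F chks_eq (.n 2 (.n 2 (.n 2 (.n 2 (.l 2) (.l 2)) (.n 2 (.l 2) (.l 2))) (.n 2 (.n 2 (.l 2) (.l 2)) (.n 3 (.l 2) (.l 2)))) (.n 2 (.n 2 (.n 3 (.l 4) (.n 0 (.l 4) (.l 4))) (.n 3 (.l 4) (.n 0 (.l 3) (.l 3)))) (.n 2 (.n 3 (.l 4) (.n 0 (.l 3) (.l 3))) (.n 3 (.l 4) (.l 3)))))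
    [(41781441855488, 2199023255552), (56371445760, 8053063680), (549755813888, 549755813888), (549755813888, 549755813888)] rfl (by decide +kernel)
theorem c32_40_m1_t5 : CovD 0 progs [(41781441855488, 2199023255552), (72477573120, 8053063680), (549755813888, 549755813888), (549755813888, 549755813888)] :=
  Pool.Agent.helper14.QF.covD_F chks_eq (.n 2 (.n 2 (.n 2 (.n 2 (.l 2) (.l 2)) (.n 2 (.l 2) (.l 2))) (.n 2 (.n 3 (.l 2) (.n 0 (.l 2) (.l 2))) (.n 3 (.l 4) (.n 2 (.l 2) (.l 2))))) (.n 2 (.n 3 (.n 0 (.n 2 (.l 4) (.l 4)) (.n 2 (.l 4) (.l 4))) (.n 3 (.n 2 (.l 4) (.l 3)) (.l 11))) (.n 3 (.n 2 (.l 4) (.l 4)) (.n 3 (.l 11) (.l 11)))))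
    [(41781441855488, 2199023255552), (72477573120, 8053063680), (549755813888, 549755813888), (549755813888, 549755813888)] rfl (by decide +kernel)
end
mutual
theorem c32_40_m1_t6 : CovD 0 progs [(41781441855488, 2199023255552), (88583700480, 8053063680), (274877906944, 274877906944), (549755813888, 549755813888)] :=
  Pool.Agent.helper14.QF.covD_F chks_eq (.n 2 (.n 2 (.n 2 (.l 2) (.l 2)) (.n 2 (.l 2) (.n 0 (.l 2) (.l 2)))) (.n 2 (.n 2 (.n 2 (.l 2) (.l 4)) (.n 3 (.l 2) (.l 2))) (.n 2 (.n 3 (.l 2) (.l 4)) (.n 3 (.l 4) (.n 0 (.l 4) (.l 4))))))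
    [(41781441855488, 2199023255552), (88583700480, 8053063680), (274877906944, 274877906944), (549755813888, 549755813888)] rfl (by decide +kernel)
theorem c32_40_m1_t7 : CovD 0 progs [(41781441855488, 2199023255552), (88583700480, 8053063680), (824633720832, 274877906944), (549755813888, 549755813888)] :=
  Pool.Agent.helper14.QF.covD_F chks_eq (.n 2 (.n 2 (.n 3 (.n 2 (.l 4) (.l 4)) (.n 3 (.l 11) (.l 4))) (.n 3 (.n 0 (.l 4) (.l 4)) (.l 11))) (.n 2 (.n 3 (.l 4) (.l 11)) (.n 3 (.l 4) (.l 4))))
    [(41781441855488, 2199023255552), (88583700480, 8053063680), (824633720832, 274877906944), (549755813888, 549755813888)] rfl (by decide +kernel)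
end
mutual
theorem c32_40_m1_t10 : CovD 0 progs [(41781441855488, 2199023255552), (112742891520, 16106127360), (137438953472, 137438953472), (549755813888, 549755813888)] :=
  Pool.Agent.helper14.QF.covD_F chks_eq (.n 2 (.n 2 (.l 2) (.l 2)) (.n 2 (.n 3 (.l 2) (.l 2)) (.n 3 (.l 2) (.n 1 (.l 2) (.l 2)))))
    [(41781441855488, 2199023255552), (112742891520, 16106127360), (137438953472, 137438953472), (549755813888, 549755813888)] rfl (by decide +kernel)
theorem c32_40_m1_t11 : CovD 0 progs [(41781441855488, 2199023255552), (112742891520, 16106127360), (412316860416, 137438953472), (549755813888, 549755813888)] :=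
  Pool.Agent.helper14.QF.covD_F chks_eq (.n 2 (.n 2 (.n 2 (.n 3 (.l 2) (.l 2)) (.n 3 (.l 4) (.l 4))) (.n 3 (.n 1 (.l 4) (.l 4)) (.n 3 (.l 4) (.l 4)))) (.n 1 (.n 3 (.n 2 (.l 4) (.n 0 (.l 4) (.l 4))) (.n 3 (.n 1 (.l 4) (.l 11)) (.l 11))) (.n 3 (.n 2 (.n 2 (.l 4) (.l 4)) (.n 2 (.l 4) (.l 4))) (.n 3 (.l 11) (.l 11)))))
    [(41781441855488, 2199023255552), (112742891520, 16106127360), (412316860416, 137438953472), (549755813888, 549755813888)] rfl (by decide +kernel)
end
mutual
theorem c32_40_m1_t13 : CovD 0 progs [(41781441855488, 2199023255552), (112742891520, 16106127360), (824633720832, 274877906944), (549755813888, 549755813888)] :=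
  Pool.Agent.helper14.QF.covD_F chks_eq (.n 1 (.n 2 (.n 3 (.n 2 (.n 2 (.n 0 (.l 4) (.l 4)) (.l 4)) (.n 0 (.l 4) (.l 4))) (.n 3 (.l 11) (.l 11))) (.n 3 (.n 2 (.l 4) (.l 4)) (.l 11))) (.n 2 (.n 2 (.n 3 (.n 2 (.n 2 (.l 4) (.l 4)) (.l 6)) (.l 11)) (.n 3 (.n 0 (.l 6) (.l 6)) (.l 11))) (.n 3 (.n 2 (.l 4) (.l 4)) (.l 11))))
    [(41781441855488, 2199023255552), (112742891520, 16106127360), (824633720832, 274877906944), (549755813888, 549755813888)] rfl (by decide +kernel)
theorem c32_40_m1_t17 : CovD 0 progs [(41781441855488, 2199023255552), (144955146240, 16106127360), (137438953472, 137438953472), (549755813888, 549755813888)] :=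
  Pool.Agent.helper14.QF.covD_F chks_eq (.n 2 (.n 2 (.l 2) (.n 2 (.l 2) (.l 2))) (.n 2 (.n 3 (.l 2) (.n 2 (.l 2) (.l 2))) (.n 2 (.n 3 (.l 2) (.l 4)) (.n 3 (.l 4) (.l 4)))))
    [(41781441855488, 2199023255552), (144955146240, 16106127360), (137438953472, 137438953472), (549755813888, 549755813888)] rfl (by decide +kernel)
end
mutual
theorem c32_40_m1_t18 : CovD 0 progs [(41781441855488, 2199023255552), (144955146240, 16106127360), (343597383680, 68719476736), (549755813888, 549755813888)] :=
  Pool.Agent.helper14.QF.covD_F chks_eq (.n 2 (.n 3 (.n 1 (.l 4) (.n 2 (.l 4) (.l 4))) (.n 3 (.n 0 (.l 4) (.l 4)) (.l 11))) (.n 1 (.n 2 (.n 3 (.l 4) (.l 11)) (.n 3 (.l 4) (.l 11))) (.n 3 (.n 2 (.n 0 (.l 4) (.l 4)) (.n 3 (.l 4) (.l 4))) (.l 11))))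
    [(41781441855488, 2199023255552), (144955146240, 16106127360), (343597383680, 68719476736), (549755813888, 549755813888)] rfl (by decide +kernel)
theorem c32_40_m1_t19 : CovD 0 progs [(41781441855488, 2199023255552), (144955146240, 16106127360), (481036337152, 68719476736), (549755813888, 549755813888)] :=
  Pool.Agent.helper14.QF.covD_F chks_eq (.n 1 (.n 2 (.n 3 (.n 3 (.l 4) (.n 0 (.l 4) (.l 4))) (.l 11)) (.n 3 (.n 3 (.l 4) (.n 0 (.l 4) (.l 4))) (.l 11))) (.n 3 (.n 2 (.n 2 (.n 3 (.l 4) (.l 4)) (.n 3 (.l 4) (.l 4))) (.n 2 (.n 0 (.l 6) (.l 6)) (.l 6))) (.l 11)))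
    [(41781441855488, 2199023255552), (144955146240, 16106127360), (481036337152, 68719476736), (549755813888, 549755813888)] rfl (by decide +kernel)
end
mutual
theorem c32_40_m1_t22 : CovD 0 progs [(41781441855488, 2199023255552), (144955146240, 16106127360), (824633720832, 274877906944), (549755813888, 549755813888)] :=
  Pool.Agent.helper14.QF.covD_F chks_eq (.n 2 (.n 2 (.n 3 (.n 1 (.n 2 (.n 0 (.l 6) (.l 6)) (.l 6)) (.n 2 (.l 6) (.l 6))) (.l 11)) (.n 3 (.n 1 (.l 6) (.l 6)) (.l 11))) (.n 3 (.n 1 (.n 2 (.l 4) (.n 0 (.l 4) (.l 4))) (.n 2 (.l 5) (.n 2 (.l 4) (.l 4)))) (.l 11)))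
    [(41781441855488, 2199023255552), (144955146240, 16106127360), (824633720832, 274877906944), (549755813888, 549755813888)] rfl (by decide +kernel)
theorem c32_40_m1_t24 : CovD 0 progs [(41781441855488, 2199023255552), (169114337280, 8053063680), (137438953472, 137438953472), (549755813888, 549755813888)] :=
  Pool.Agent.helper14.QF.covD_F chks_eq (.n 2 (.n 2 (.l 2) (.n 2 (.l 2) (.l 2))) (.n 2 (.n 2 (.l 4) (.n 3 (.l 2) (.l 2))) (.n 2 (.n 3 (.l 2) (.l 4)) (.n 3 (.l 4) (.l 4)))))
    [(41781441855488, 2199023255552), (169114337280, 8053063680), (137438953472, 137438953472), (549755813888, 549755813888)] rfl (by decide +kernel)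
end
mutual
theorem c32_40_m1_t25 : CovD 0 progs [(41781441855488, 2199023255552), (169114337280, 8053063680), (412316860416, 137438953472), (549755813888, 549755813888)] :=
  Pool.Agent.helper14.QF.covD_F chks_eq (.n 2 (.n 2 (.n 2 (.n 3 (.l 4) (.l 11)) (.n 3 (.n 3 (.l 4) (.l 4)) (.l 11))) (.n 3 (.n 2 (.n 3 (.l 4) (.l 4)) (.n 3 (.l 4) (.n 0 (.l 4) (.l 4)))) (.l 11))) (.n 3 (.n 3 (.n 2 (.n 2 (.l 4) (.l 4)) (.l 6)) (.n 3 (.n 2 (.n 0 (.l 4) (.l 4)) (.l 4)) (.l 11))) (.l 11)))
    [(41781441855488, 2199023255552), (169114337280, 8053063680), (412316860416, 137438953472), (549755813888, 549755813888)] rfl (by decide +kernel)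
theorem c32_40_m1_t27 : CovD 0 progs [(41781441855488, 2199023255552), (185220464640, 8053063680), (137438953472, 137438953472), (549755813888, 549755813888)] :=
  Pool.Agent.helper14.QF.covD_F chks_eq (.n 2 (.n 2 (.l 2) (.n 2 (.l 2) (.l 4))) (.n 2 (.n 2 (.n 0 (.l 4) (.l 4)) (.n 3 (.l 2) (.l 4))) (.n 2 (.n 3 (.l 4) (.l 4)) (.n 3 (.l 4) (.n 0 (.l 4) (.l 11))))))
    [(41781441855488, 2199023255552), (185220464640, 8053063680), (137438953472, 137438953472), (549755813888, 549755813888)] rfl (by decide +kernel)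
end
mutual
theorem c32_40_m1_t28 : CovD 0 progs [(41781441855488, 2199023255552), (185220464640, 8053063680), (412316860416, 137438953472), (549755813888, 549755813888)] :=
  Pool.Agent.helper14.QF.covD_F chks_eq (.n 2 (.n 2 (.n 2 (.n 3 (.n 3 (.l 4) (.l 4)) (.l 11)) (.n 3 (.n 3 (.l 4) (.n 0 (.l 4) (.l 4))) (.l 11))) (.n 3 (.n 3 (.n 0 (.n 2 (.l 4) (.l 4)) (.n 2 (.l 4) (.l 4))) (.n 3 (.n 2 (.l 4) (.l 4)) (.l 11))) (.l 11))) (.n 3 (.n 2 (.n 2 (.n 0 (.n 3 (.l 4) (.l 4)) (.n 0 (.l 6) (.l 6))) (.l 6)) (.n 0 (.l 6) (.l 6))) (.l 11)))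
    [(41781441855488, 2199023255552), (185220464640, 8053063680), (412316860416, 137438953472), (549755813888, 549755813888)] rfl (by decide +kernel)
theorem c32_40_m1_t31 : CovD 0 progs [(41781441855488, 2199023255552), (177167400960, 16106127360), (824633720832, 274877906944), (549755813888, 549755813888)] :=
  Pool.Agent.helper14.QF.covD_F chks_eq (.n 2 (.n 2 (.n 3 (.n 2 (.n 0 (.l 6) (.l 6)) (.l 6)) (.l 11)) (.n 3 (.n 0 (.l 6) (.l 6)) (.l 11))) (.n 2 (.n 3 (.n 2 (.l 4) (.n 0 (.l 4) (.l 4))) (.l 11)) (.n 3 (.n 1 (.n 2 (.l 4) (.l 4)) (.n 3 (.l 15) (.l 11))) (.l 11))))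
    [(41781441855488, 2199023255552), (177167400960, 16106127360), (824633720832, 274877906944), (549755813888, 549755813888)] rfl (by decide +kernel)
end
mutual
theorem c32_40_m1_t34 : CovD 0 progs [(41781441855488, 2199023255552), (201326592000, 8053063680), (137438953472, 137438953472), (549755813888, 549755813888)] :=
  Pool.Agent.helper14.QF.covD_F chks_eq (.n 2 (.n 2 (.l 2) (.n 2 (.l 2) (.l 4))) (.n 2 (.n 2 (.n 3 (.l 2) (.l 2)) (.n 3 (.l 4) (.l 4))) (.n 2 (.n 3 (.l 4) (.n 0 (.l 4) (.l 11))) (.n 3 (.n 3 (.l 4) (.l 4)) (.l 11)))))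
    [(41781441855488, 2199023255552), (201326592000, 8053063680), (137438953472, 137438953472), (549755813888, 549755813888)] rfl (by decide +kernel)
theorem c32_40_m1_t35 : CovD 0 progs [(41781441855488, 2199023255552), (201326592000, 8053063680), (343597383680, 68719476736), (549755813888, 549755813888)] :=
  Pool.Agent.helper14.QF.covD_F chks_eq (.n 2 (.n 3 (.n 3 (.n 0 (.n 2 (.l 4) (.l 4)) (.n 2 (.l 4) (.n 0 (.l 4) (.l 4)))) (.n 3 (.n 2 (.l 4) (.n 0 (.l 4) (.l 4))) (.l 11))) (.l 11)) (.n 3 (.n 3 (.n 0 (.n 0 (.n 2 (.l 4) (.l 4)) (.n 2 (.l 4) (.l 4))) (.n 1 (.n 2 (.l 4) (.l 4)) (.n 2 (.l 4) (.l 4)))) (.n 3 (.n 0 (.n 2 (.l 4) (.l 4)) (.n 2 (.l 4) (.l 4))) (.l 11))) (.l 11)))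
    [(41781441855488, 2199023255552), (201326592000, 8053063680), (343597383680, 68719476736), (549755813888, 549755813888)] rfl (by decide +kernel)
end
mutual
theorem c32_40_m1_t36 : CovD 0 progs [(41781441855488, 2199023255552), (201326592000, 8053063680), (481036337152, 68719476736), (549755813888, 549755813888)] :=
  Pool.Agent.helper14.QF.covD_F chks_eq (.n 3 (.n 2 (.n 2 (.n 2 (.l 6) (.l 6)) (.l 6)) (.l 6)) (.l 11))
    [(41781441855488, 2199023255552), (201326592000, 8053063680), (481036337152, 68719476736), (549755813888, 549755813888)] rfl (by decide +kernel)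
theorem c32_40_m1_t39 : CovD 0 progs [(41781441855488, 2199023255552), (201326592000, 8053063680), (824633720832, 274877906944), (549755813888, 549755813888)] :=
  Pool.Agent.helper14.QF.covD_F chks_eq (.n 2 (.n 3 (.n 2 (.n 0 (.l 6) (.l 6)) (.l 6)) (.l 11)) (.n 3 (.n 2 (.n 2 (.l 4) (.l 4)) (.n 3 (.l 15) (.l 11))) (.l 11)))
    [(41781441855488, 2199023255552), (201326592000, 8053063680), (824633720832, 274877906944), (549755813888, 549755813888)] rfl (by decide +kernel)
end
mutual
theorem c32_40_m1_t41 : CovD 0 progs [(41781441855488, 2199023255552), (217432719360, 8053063680), (137438953472, 137438953472), (549755813888, 549755813888)] :=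
  Pool.Agent.helper14.QF.covD_F chks_eq (.n 2 (.n 2 (.l 2) (.n 2 (.l 2) (.n 0 (.l 4) (.l 4)))) (.n 2 (.n 2 (.n 3 (.l 2) (.l 4)) (.n 3 (.l 4) (.n 0 (.l 4) (.l 4)))) (.n 2 (.n 2 (.n 3 (.l 4) (.l 4)) (.n 3 (.l 4) (.l 11))) (.n 3 (.n 0 (.n 3 (.l 4) (.l 4)) (.n 3 (.l 4) (.l 4))) (.l 11)))))
    [(41781441855488, 2199023255552), (217432719360, 8053063680), (137438953472, 137438953472), (549755813888, 549755813888)] rfl (by decide +kernel)
theorem c32_40_m1_t42 : CovD 0 progs [(41781441855488, 2199023255552), (217432719360, 8053063680), (309237645312, 34359738368), (549755813888, 549755813888)] :=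
  Pool.Agent.helper14.QF.covD_F chks_eq (.n 3 (.n 3 (.n 0 (.n 2 (.l 4) (.n 2 (.l 4) (.l 4))) (.n 2 (.n 2 (.l 4) (.l 4)) (.n 2 (.l 4) (.n 0 (.l 4) (.l 4))))) (.n 3 (.n 0 (.n 2 (.l 4) (.l 4)) (.n 2 (.l 4) (.n 0 (.l 4) (.l 4)))) (.l 11))) (.l 11))
    [(41781441855488, 2199023255552), (217432719360, 8053063680), (309237645312, 34359738368), (549755813888, 549755813888)] rfl (by decide +kernel)
end
mutual
theorem c32_40_m1_t43 : CovD 0 progs [(41781441855488, 2199023255552), (217432719360, 8053063680), (377957122048, 34359738368), (549755813888, 549755813888)] :=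
  Pool.Agent.helper14.QF.covD_F chks_eq (.n 3 (.n 3 (.n 0 (.n 1 (.n 2 (.l 4) (.l 4)) (.n 2 (.n 0 (.l 4) (.l 4)) (.l 6))) (.n 2 (.n 2 (.n 0 (.l 4) (.l 4)) (.l 6)) (.l 6))) (.n 3 (.n 2 (.n 3 (.l 11) (.l 11)) (.l 11)) (.l 11))) (.l 11))
    [(41781441855488, 2199023255552), (217432719360, 8053063680), (377957122048, 34359738368), (549755813888, 549755813888)] rfl (by decide +kernel)
theorem c32_40_m1_t45 : CovD 0 progs [(41781441855488, 2199023255552), (217432719360, 8053063680), (481036337152, 68719476736), (549755813888, 549755813888)] :=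
  Pool.Agent.helper14.QF.covD_F chks_eq (.n 3 (.n 2 (.n 2 (.n 0 (.l 6) (.l 6)) (.l 6)) (.l 6)) (.l 11))
    [(41781441855488, 2199023255552), (217432719360, 8053063680), (481036337152, 68719476736), (549755813888, 549755813888)] rfl (by decide +kernel)
end
mutual
theorem c32_40_m1_t48 : CovD 0 progs [(41781441855488, 2199023255552), (217432719360, 8053063680), (824633720832, 274877906944), (549755813888, 549755813888)] :=
  Pool.Agent.helper14.QF.covD_F chks_eq (.n 2 (.n 3 (.n 0 (.n 2 (.l 6) (.l 6)) (.n 2 (.l 6) (.l 6))) (.l 11)) (.n 3 (.n 3 (.n 2 (.l 15) (.l 15)) (.l 11)) (.l 11)))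
    [(41781441855488, 2199023255552), (217432719360, 8053063680), (824633720832, 274877906944), (549755813888, 549755813888)] rfl (by decide +kernel)
theorem c32_40_m1_t51 : CovD 0 progs [(41781441855488, 2199023255552), (241591910400, 16106127360), (137438953472, 137438953472), (549755813888, 549755813888)] :=
  Pool.Agent.helper14.QF.covD_F chks_eq (.n 2 (.n 2 (.l 2) (.n 3 (.l 10) (.n 2 (.l 2) (.l 4)))) (.n 1 (.n 2 (.n 1 (.n 3 (.n 2 (.l 2) (.l 4)) (.n 3 (.l 4) (.l 4))) (.l 10)) (.n 3 (.n 3 (.l 10) (.n 2 (.l 4) (.n 3 (.l 10) (.l 4)))) (.n 2 (.l 11) (.l 11)))) (.l 10)))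
    [(41781441855488, 2199023255552), (241591910400, 16106127360), (137438953472, 137438953472), (549755813888, 549755813888)] rfl (by decide +kernel)
end
mutual
theorem c32_40_m1_t52 : CovD 0 progs [(41781441855488, 2199023255552), (241591910400, 16106127360), (412316860416, 137438953472), (549755813888, 549755813888)] :=
  Pool.Agent.helper14.QF.covD_F chks_eq (.n 2 (.n 2 (.n 3 (.n 3 (.l 10) (.n 3 (.n 3 (.l 10) (.l 11)) (.l 11))) (.l 11)) (.n 3 (.n 1 (.n 1 (.n 3 (.l 10) (.n 3 (.l 11) (.l 11))) (.l 10)) (.l 10)) (.l 11))) (.n 3 (.n 1 (.n 2 (.n 2 (.l 6) (.l 6)) (.l 6)) (.l 10)) (.l 11)))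
    [(41781441855488, 2199023255552), (241591910400, 16106127360), (412316860416, 137438953472), (549755813888, 549755813888)] rfl (by decide +kernel)
theorem c32_40_m1_t54 : CovD 0 progs [(41781441855488, 2199023255552), (241591910400, 16106127360), (824633720832, 274877906944), (549755813888, 549755813888)] :=
  Pool.Agent.helper14.QF.covD_F chks_eq (.n 3 (.n 3 (.n 1 (.n 2 (.n 1 (.n 2 (.l 6) (.l 4)) (.l 10)) (.n 0 (.l 15) (.l 15))) (.l 10)) (.n 2 (.n 2 (.l 11) (.l 11)) (.l 11))) (.n 2 (.l 11) (.l 11)))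
    [(41781441855488, 2199023255552), (241591910400, 16106127360), (824633720832, 274877906944), (549755813888, 549755813888)] rfl (by decide +kernel)
end
theorem c32_40_m1_t3 : CovD 0 progs [(41781441855488, 2199023255552), (48318382080, 16106127360), (549755813888, 549755813888), (549755813888, 549755813888)] :=
  covD_split 1 (by decide +kernel) c32_40_m1_t1 c32_40_m1_t2
theorem c32_40_m1_t4 : CovD 0 progs [(41781441855488, 2199023255552), (32212254720, 32212254720), (549755813888, 549755813888), (549755813888, 549755813888)] :=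
  covD_split 1 (by decide +kernel) c32_40_m1_t0 c32_40_m1_t3
theorem c32_40_m1_t8 : CovD 0 progs [(41781441855488, 2199023255552), (88583700480, 8053063680), (549755813888, 549755813888), (549755813888, 549755813888)] :=
  covD_split 2 (by decide +kernel) c32_40_m1_t6 c32_40_m1_t7
theorem c32_40_m1_t9 : CovD 0 progs [(41781441855488, 2199023255552), (80530636800, 16106127360), (549755813888, 549755813888), (549755813888, 549755813888)] :=
  covD_split 1 (by decide +kernel) c32_40_m1_t5 c32_40_m1_t8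
theorem c32_40_m1_t12 : CovD 0 progs [(41781441855488, 2199023255552), (112742891520, 16106127360), (274877906944, 274877906944), (549755813888, 549755813888)] :=
  covD_split 2 (by decide +kernel) c32_40_m1_t10 c32_40_m1_t11
theorem c32_40_m1_t14 : CovD 0 progs [(41781441855488, 2199023255552), (112742891520, 16106127360), (549755813888, 549755813888), (549755813888, 549755813888)] :=
  covD_split 2 (by decide +kernel) c32_40_m1_t12 c32_40_m1_t13
theorem c32_40_m1_t15 : CovD 0 progs [(41781441855488, 2199023255552), (96636764160, 32212254720), (549755813888, 549755813888), (549755813888, 549755813888)] :=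
  covD_split 1 (by decide +kernel) c32_40_m1_t9 c32_40_m1_t14
theorem c32_40_m1_t16 : CovD 0 progs [(41781441855488, 2199023255552), (64424509440, 64424509440), (549755813888, 549755813888), (549755813888, 549755813888)] :=
  covD_split 1 (by decide +kernel) c32_40_m1_t4 c32_40_m1_t15
theorem c32_40_m1_t20 : CovD 0 progs [(41781441855488, 2199023255552), (144955146240, 16106127360), (412316860416, 137438953472), (549755813888, 549755813888)] :=
  covD_split 2 (by decide +kernel) c32_40_m1_t18 c32_40_m1_t19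
theorem c32_40_m1_t21 : CovD 0 progs [(41781441855488, 2199023255552), (144955146240, 16106127360), (274877906944, 274877906944), (549755813888, 549755813888)] :=
  covD_split 2 (by decide +kernel) c32_40_m1_t17 c32_40_m1_t20
theorem c32_40_m1_t23 : CovD 0 progs [(41781441855488, 2199023255552), (144955146240, 16106127360), (549755813888, 549755813888), (549755813888, 549755813888)] :=
  covD_split 2 (by decide +kernel) c32_40_m1_t21 c32_40_m1_t22
theorem c32_40_m1_t26 : CovD 0 progs [(41781441855488, 2199023255552), (169114337280, 8053063680), (274877906944, 274877906944), (549755813888, 549755813888)] :=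
  covD_split 2 (by decide +kernel) c32_40_m1_t24 c32_40_m1_t25
theorem c32_40_m1_t29 : CovD 0 progs [(41781441855488, 2199023255552), (185220464640, 8053063680), (274877906944, 274877906944), (549755813888, 549755813888)] :=
  covD_split 2 (by decide +kernel) c32_40_m1_t27 c32_40_m1_t28
theorem c32_40_m1_t30 : CovD 0 progs [(41781441855488, 2199023255552), (177167400960, 16106127360), (274877906944, 274877906944), (549755813888, 549755813888)] :=
  covD_split 1 (by decide +kernel) c32_40_m1_t26 c32_40_m1_t29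
theorem c32_40_m1_t32 : CovD 0 progs [(41781441855488, 2199023255552), (177167400960, 16106127360), (549755813888, 549755813888), (549755813888, 549755813888)] :=
  covD_split 2 (by decide +kernel) c32_40_m1_t30 c32_40_m1_t31
theorem c32_40_m1_t33 : CovD 0 progs [(41781441855488, 2199023255552), (161061273600, 32212254720), (549755813888, 549755813888), (549755813888, 549755813888)] :=
  covD_split 1 (by decide +kernel) c32_40_m1_t23 c32_40_m1_t32
theorem c32_40_m1_t37 : CovD 0 progs [(41781441855488, 2199023255552), (201326592000, 8053063680), (412316860416, 137438953472), (549755813888, 549755813888)] :=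
  covD_split 2 (by decide +kernel) c32_40_m1_t35 c32_40_m1_t36
theorem c32_40_m1_t38 : CovD 0 progs [(41781441855488, 2199023255552), (201326592000, 8053063680), (274877906944, 274877906944), (549755813888, 549755813888)] :=
  covD_split 2 (by decide +kernel) c32_40_m1_t34 c32_40_m1_t37
theorem c32_40_m1_t40 : CovD 0 progs [(41781441855488, 2199023255552), (201326592000, 8053063680), (549755813888, 549755813888), (549755813888, 549755813888)] :=
  covD_split 2 (by decide +kernel) c32_40_m1_t38 c32_40_m1_t39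
theorem c32_40_m1_t44 : CovD 0 progs [(41781441855488, 2199023255552), (217432719360, 8053063680), (343597383680, 68719476736), (549755813888, 549755813888)] :=
  covD_split 2 (by decide +kernel) c32_40_m1_t42 c32_40_m1_t43
theorem c32_40_m1_t46 : CovD 0 progs [(41781441855488, 2199023255552), (217432719360, 8053063680), (412316860416, 137438953472), (549755813888, 549755813888)] :=
  covD_split 2 (by decide +kernel) c32_40_m1_t44 c32_40_m1_t45
theorem c32_40_m1_t47 : CovD 0 progs [(41781441855488, 2199023255552), (217432719360, 8053063680), (274877906944, 274877906944), (549755813888, 549755813888)] :=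
  covD_split 2 (by decide +kernel) c32_40_m1_t41 c32_40_m1_t46
theorem c32_40_m1_t49 : CovD 0 progs [(41781441855488, 2199023255552), (217432719360, 8053063680), (549755813888, 549755813888), (549755813888, 549755813888)] :=
  covD_split 2 (by decide +kernel) c32_40_m1_t47 c32_40_m1_t48
theorem c32_40_m1_t50 : CovD 0 progs [(41781441855488, 2199023255552), (209379655680, 16106127360), (549755813888, 549755813888), (549755813888, 549755813888)] :=
  covD_split 1 (by decide +kernel) c32_40_m1_t40 c32_40_m1_t49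
theorem c32_40_m1_t53 : CovD 0 progs [(41781441855488, 2199023255552), (241591910400, 16106127360), (274877906944, 274877906944), (549755813888, 549755813888)] :=
  covD_split 2 (by decide +kernel) c32_40_m1_t51 c32_40_m1_t52
theorem c32_40_m1_t55 : CovD 0 progs [(41781441855488, 2199023255552), (241591910400, 16106127360), (549755813888, 549755813888), (549755813888, 549755813888)] :=
  covD_split 2 (by decide +kernel) c32_40_m1_t53 c32_40_m1_t54
theorem c32_40_m1_t56 : CovD 0 progs [(41781441855488, 2199023255552), (225485783040, 32212254720), (549755813888, 549755813888), (549755813888, 549755813888)] :=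
  covD_split 1 (by decide +kernel) c32_40_m1_t50 c32_40_m1_t55
theorem c32_40_m1_t57 : CovD 0 progs [(41781441855488, 2199023255552), (193273528320, 64424509440), (549755813888, 549755813888), (549755813888, 549755813888)] :=
  covD_split 1 (by decide +kernel) c32_40_m1_t33 c32_40_m1_t56
theorem c32_40_m1 : CovD 0 progs [(41781441855488, 2199023255552), (128849018880, 128849018880), (549755813888, 549755813888), (549755813888, 549755813888)] :=
  covD_split 1 (by decide +kernel) c32_40_m1_t16 c32_40_m1_t57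

end Pool.Agent.helper71.FG.Crt.X
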