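import Pool.Agent.helper71.FG.Crt.Xc32_40_0
import Pool.Agent.helper71.FG.Crt.Xc32_40_1

/-!
Generated certificates, assembled.
-/

namespace Pool.Agent.helper71.FG.Crt.X

open Pool.Agent.helper31.IA (Z Op)
open Pool.Agent.helper31.IC

theorem c32_40_top0 : CovD 0 progs [(39582418599936, 4398046511104), (128849018880, 128849018880), (549755813888, 549755813888), (549755813888, 549755813888)] :=
  covD_split 0 (by decide +kernel) c32_40_m0 c32_40_m1

theorem c32_40_all : CovD 0 progs [(39582418599936, 4398046511104), (128849018880, 128849018880), (549755813888, 549755813888), (549755813888, 549755813888)] := c32_40_top0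

end Pool.Agent.helper71.FG.Crt.X
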