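import Pool.Agent.helper71.FG.Crt.XP

/-!
Generated certificates.
-/

namespace Pool.Agent.helper71.FG.Crt.X

open Pool.Agent.helper31.IA (Z Op)
open Pool.Agent.helper31.IC

mutual
theorem c40_50_m1_t0 : CovD 0 progs [(46729244180480, 2748779069440), (136902082560, 8053063680), (137438953472, 137438953472), (549755813888, 549755813888)] :=
  Pool.Agent.helper14.QF.covD_F chks_eq (.n 2 (.n 2 (.l 2) (.n 0 (.l 2) (.l 2))) (.n 2 (.n 3 (.l 2) (.l 2)) (.n 3 (.l 4) (.n 2 (.l 2) (.l 4)))))
    [(46729244180480, 2748779069440), (136902082560, 8053063680), (137438953472, 137438953472), (549755813888, 549755813888)] rfl (by decide +kernel)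
theorem c40_50_m1_t1 : CovD 0 progs [(46729244180480, 2748779069440), (136902082560, 8053063680), (412316860416, 137438953472), (549755813888, 549755813888)] :=
  Pool.Agent.helper14.QF.covD_F chks_eq (.n 2 (.n 2 (.n 3 (.n 2 (.l 4) (.l 4)) (.n 3 (.l 4) (.l 4))) (.n 2 (.n 3 (.n 2 (.l 4) (.l 4)) (.l 11)) (.n 3 (.n 3 (.l 4) (.l 4)) (.l 11)))) (.n 3 (.n 2 (.n 2 (.n 3 (.l 4) (.l 4)) (.n 3 (.l 4) (.l 4))) (.n 2 (.n 0 (.l 6) (.l 6)) (.l 6))) (.l 11)))
    [(46729244180480, 2748779069440), (136902082560, 8053063680), (412316860416, 137438953472), (549755813888, 549755813888)] rfl (by decide +kernel)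
end
mutual
theorem c40_50_m1_t3 : CovD 0 progs [(46729244180480, 2748779069440), (153008209920, 8053063680), (137438953472, 137438953472), (549755813888, 549755813888)] :=
  Pool.Agent.helper14.QF.covD_F chks_eq (.n 2 (.n 2 (.l 2) (.n 2 (.l 2) (.l 2))) (.n 2 (.n 2 (.l 4) (.n 3 (.l 2) (.l 2))) (.n 2 (.n 3 (.l 2) (.l 4)) (.n 3 (.l 4) (.l 4)))))
    [(46729244180480, 2748779069440), (153008209920, 8053063680), (137438953472, 137438953472), (549755813888, 549755813888)] rfl (by decide +kernel)
theorem c40_50_m1_t4 : CovD 0 progs [(46729244180480, 2748779069440), (153008209920, 8053063680), (412316860416, 137438953472), (549755813888, 549755813888)] :=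
  Pool.Agent.helper14.QF.covD_F chks_eq (.n 2 (.n 2 (.n 2 (.n 0 (.n 3 (.l 4) (.l 11)) (.n 3 (.l 4) (.l 11))) (.n 3 (.n 3 (.l 4) (.l 4)) (.l 11))) (.n 3 (.n 2 (.n 3 (.l 4) (.l 4)) (.n 0 (.n 3 (.l 4) (.l 4)) (.n 3 (.l 4) (.l 4)))) (.l 11))) (.n 3 (.n 0 (.n 2 (.n 2 (.n 3 (.l 4) (.l 4)) (.l 6)) (.l 6)) (.n 2 (.n 2 (.n 1 (.l 6) (.l 6)) (.l 6)) (.l 6))) (.l 11)))
    [(46729244180480, 2748779069440), (153008209920, 8053063680), (412316860416, 137438953472), (549755813888, 549755813888)] rfl (by decide +kernel)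
end
mutual
theorem c40_50_m1_t7 : CovD 0 progs [(46729244180480, 2748779069440), (169114337280, 8053063680), (137438953472, 137438953472), (549755813888, 549755813888)] :=
  Pool.Agent.helper14.QF.covD_F chks_eq (.n 2 (.n 2 (.l 2) (.n 2 (.l 2) (.l 4))) (.n 2 (.n 2 (.n 0 (.l 4) (.l 4)) (.n 3 (.l 2) (.l 4))) (.n 2 (.n 3 (.l 4) (.l 4)) (.n 0 (.n 3 (.l 4) (.l 4)) (.n 3 (.l 4) (.l 11))))))
    [(46729244180480, 2748779069440), (169114337280, 8053063680), (137438953472, 137438953472), (549755813888, 549755813888)] rfl (by decide +kernel)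
theorem c40_50_m1_t8 : CovD 0 progs [(46729244180480, 2748779069440), (169114337280, 8053063680), (412316860416, 137438953472), (549755813888, 549755813888)] :=
  Pool.Agent.helper14.QF.covD_F chks_eq (.n 2 (.n 2 (.n 2 (.n 3 (.n 3 (.l 4) (.l 4)) (.l 11)) (.n 3 (.n 0 (.n 3 (.l 4) (.l 4)) (.n 3 (.l 4) (.l 4))) (.l 11))) (.n 3 (.n 3 (.n 0 (.n 2 (.l 4) (.l 4)) (.n 2 (.l 4) (.l 4))) (.n 3 (.n 3 (.n 2 (.l 4) (.l 4)) (.l 11)) (.l 11))) (.l 11))) (.n 3 (.n 2 (.n 2 (.n 0 (.n 0 (.l 6) (.l 6)) (.l 6)) (.l 6)) (.l 6)) (.l 11)))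
    [(46729244180480, 2748779069440), (169114337280, 8053063680), (412316860416, 137438953472), (549755813888, 549755813888)] rfl (by decide +kernel)
end
mutual
theorem c40_50_m1_t10 : CovD 0 progs [(46729244180480, 2748779069440), (185220464640, 8053063680), (137438953472, 137438953472), (549755813888, 549755813888)] :=
  Pool.Agent.helper14.QF.covD_F chks_eq (.n 2 (.n 2 (.l 2) (.n 2 (.l 2) (.l 4))) (.n 2 (.n 2 (.n 3 (.l 2) (.l 2)) (.n 3 (.l 4) (.l 4))) (.n 2 (.n 3 (.l 4) (.n 0 (.l 4) (.l 11))) (.n 3 (.n 3 (.l 4) (.l 4)) (.l 11)))))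
    [(46729244180480, 2748779069440), (185220464640, 8053063680), (137438953472, 137438953472), (549755813888, 549755813888)] rfl (by decide +kernel)
theorem c40_50_m1_t11 : CovD 0 progs [(46729244180480, 2748779069440), (181193932800, 4026531840), (412316860416, 137438953472), (549755813888, 549755813888)] :=
  Pool.Agent.helper14.QF.covD_F chks_eq (.n 2 (.n 2 (.n 2 (.n 3 (.n 3 (.l 4) (.l 4)) (.l 11)) (.n 3 (.n 0 (.n 3 (.l 4) (.l 4)) (.n 3 (.l 4) (.l 4))) (.l 11))) (.n 3 (.n 3 (.n 0 (.n 2 (.l 4) (.l 4)) (.n 2 (.l 4) (.l 4))) (.n 3 (.n 2 (.l 4) (.l 4)) (.l 11))) (.l 11))) (.n 3 (.n 2 (.n 2 (.l 6) (.l 6)) (.l 6)) (.l 11)))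
    [(46729244180480, 2748779069440), (181193932800, 4026531840), (412316860416, 137438953472), (549755813888, 549755813888)] rfl (by decide +kernel)
end
mutual
theorem c40_50_m1_t12 : CovD 0 progs [(46729244180480, 2748779069440), (189246996480, 4026531840), (412316860416, 137438953472), (549755813888, 549755813888)] :=
  Pool.Agent.helper14.QF.covD_F chks_eq (.n 2 (.n 0 (.n 3 (.n 2 (.n 2 (.n 3 (.l 4) (.l 4)) (.n 3 (.l 4) (.l 4))) (.n 2 (.n 3 (.l 4) (.n 0 (.l 4) (.l 4))) (.n 0 (.l 6) (.l 6)))) (.l 11)) (.n 3 (.n 3 (.n 2 (.n 2 (.l 4) (.l 4)) (.n 2 (.n 0 (.l 4) (.l 4)) (.l 4))) (.n 3 (.n 2 (.n 2 (.l 4) (.l 4)) (.l 11)) (.l 11))) (.l 11))) (.n 3 (.n 2 (.n 2 (.l 6) (.l 6)) (.l 6)) (.l 11)))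
    [(46729244180480, 2748779069440), (189246996480, 4026531840), (412316860416, 137438953472), (549755813888, 549755813888)] rfl (by decide +kernel)
theorem c40_50_m1_t17 : CovD 0 progs [(46729244180480, 2748779069440), (161061273600, 32212254720), (687194767360, 137438953472), (549755813888, 549755813888)] :=
  Pool.Agent.helper14.QF.covD_F chks_eq (.n 3 (.n 2 (.n 1 (.n 2 (.n 1 (.l 6) (.l 6)) (.l 6)) (.n 2 (.l 6) (.l 6))) (.n 1 (.n 0 (.l 6) (.l 6)) (.n 2 (.l 6) (.l 5)))) (.n 3 (.n 0 (.l 11) (.l 11)) (.l 11)))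
    [(46729244180480, 2748779069440), (161061273600, 32212254720), (687194767360, 137438953472), (549755813888, 549755813888)] rfl (by decide +kernel)
end
mutual
theorem c40_50_m1_t18 : CovD 0 progs [(46729244180480, 2748779069440), (161061273600, 32212254720), (962072674304, 137438953472), (549755813888, 549755813888)] :=
  Pool.Agent.helper14.QF.covD_F chks_eq (.n 2 (.n 1 (.n 3 (.n 2 (.l 4) (.n 0 (.l 4) (.l 4))) (.l 11)) (.n 3 (.n 1 (.n 2 (.l 4) (.l 4)) (.n 2 (.l 4) (.l 4))) (.l 11))) (.n 3 (.n 1 (.n 1 (.n 2 (.l 4) (.l 4)) (.n 2 (.l 4) (.n 0 (.l 4) (.l 4)))) (.n 3 (.n 0 (.n 1 (.l 15) (.l 15)) (.l 15)) (.l 11))) (.l 11)))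
    [(46729244180480, 2748779069440), (161061273600, 32212254720), (962072674304, 137438953472), (549755813888, 549755813888)] rfl (by decide +kernel)
theorem c40_50_m1_t21 : CovD 0 progs [(46729244180480, 2748779069440), (201326592000, 8053063680), (137438953472, 137438953472), (549755813888, 549755813888)] :=
  Pool.Agent.helper14.QF.covD_F chks_eq (.n 2 (.n 2 (.l 2) (.n 2 (.l 2) (.n 0 (.l 4) (.l 4)))) (.n 2 (.n 2 (.n 3 (.l 2) (.l 4)) (.n 3 (.l 4) (.n 0 (.l 4) (.l 4)))) (.n 2 (.n 3 (.n 3 (.l 4) (.l 4)) (.n 0 (.l 11) (.l 11))) (.n 2 (.n 3 (.n 3 (.l 4) (.l 4)) (.l 11)) (.n 3 (.n 3 (.l 4) (.l 4)) (.l 11))))))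
    [(46729244180480, 2748779069440), (201326592000, 8053063680), (137438953472, 137438953472), (549755813888, 549755813888)] rfl (by decide +kernel)
end
mutual
theorem c40_50_m1_t22 : CovD 0 progs [(46729244180480, 2748779069440), (201326592000, 8053063680), (309237645312, 34359738368), (549755813888, 549755813888)] :=
  Pool.Agent.helper14.QF.covD_F chks_eq (.n 3 (.n 3 (.n 0 (.n 1 (.n 2 (.l 4) (.l 4)) (.n 2 (.l 4) (.n 0 (.l 4) (.l 4)))) (.n 1 (.n 2 (.l 4) (.n 0 (.l 4) (.l 4))) (.n 2 (.n 2 (.l 4) (.l 4)) (.n 2 (.l 4) (.l 4))))) (.n 3 (.n 0 (.n 2 (.l 4) (.n 0 (.l 4) (.l 4))) (.n 1 (.n 2 (.l 4) (.l 4)) (.n 2 (.l 4) (.l 4)))) (.l 11))) (.l 11))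
    [(46729244180480, 2748779069440), (201326592000, 8053063680), (309237645312, 34359738368), (549755813888, 549755813888)] rfl (by decide +kernel)
theorem c40_50_m1_t23 : CovD 0 progs [(46729244180480, 2748779069440), (201326592000, 8053063680), (377957122048, 34359738368), (549755813888, 549755813888)] :=
  Pool.Agent.helper14.QF.covD_F chks_eq (.n 3 (.n 3 (.n 0 (.n 2 (.n 2 (.n 0 (.l 4) (.l 4)) (.l 6)) (.l 6)) (.n 2 (.n 2 (.l 6) (.l 6)) (.l 6))) (.n 3 (.n 0 (.n 2 (.l 11) (.l 4)) (.l 11)) (.l 11))) (.l 11))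
    [(46729244180480, 2748779069440), (201326592000, 8053063680), (377957122048, 34359738368), (549755813888, 549755813888)] rfl (by decide +kernel)
end
mutual
theorem c40_50_m1_t25 : CovD 0 progs [(46729244180480, 2748779069440), (201326592000, 8053063680), (481036337152, 68719476736), (549755813888, 549755813888)] :=
  Pool.Agent.helper14.QF.covD_F chks_eq (.n 3 (.n 2 (.n 2 (.l 6) (.l 6)) (.l 6)) (.l 11))
    [(46729244180480, 2748779069440), (201326592000, 8053063680), (481036337152, 68719476736), (549755813888, 549755813888)] rfl (by decide +kernel)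
theorem c40_50_m1_t28 : CovD 0 progs [(46729244180480, 2748779069440), (201326592000, 8053063680), (824633720832, 274877906944), (549755813888, 549755813888)] :=
  Pool.Agent.helper14.QF.covD_F chks_eq (.n 2 (.n 3 (.n 2 (.l 6) (.n 2 (.l 5) (.l 4))) (.l 11)) (.n 3 (.n 3 (.n 2 (.l 15) (.l 15)) (.l 11)) (.l 11)))
    [(46729244180480, 2748779069440), (201326592000, 8053063680), (824633720832, 274877906944), (549755813888, 549755813888)] rfl (by decide +kernel)
end
mutual
theorem c40_50_m1_t30 : CovD 0 progs [(46729244180480, 2748779069440), (217432719360, 8053063680), (68719476736, 68719476736), (549755813888, 549755813888)] :=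
  Pool.Agent.helper14.QF.covD_F chks_eq (.n 2 (.l 2) (.n 2 (.l 4) (.n 2 (.l 4) (.l 4))))
    [(46729244180480, 2748779069440), (217432719360, 8053063680), (68719476736, 68719476736), (549755813888, 549755813888)] rfl (by decide +kernel)
theorem c40_50_m1_t31 : CovD 0 progs [(46729244180480, 2748779069440), (217432719360, 8053063680), (206158430208, 68719476736), (549755813888, 549755813888)] :=
  Pool.Agent.helper14.QF.covD_F chks_eq (.n 2 (.n 2 (.n 3 (.l 4) (.l 4)) (.n 2 (.n 3 (.l 4) (.l 4)) (.n 3 (.l 4) (.l 11)))) (.n 2 (.n 3 (.n 0 (.n 3 (.l 4) (.l 4)) (.n 3 (.l 4) (.l 4))) (.l 11)) (.n 3 (.n 3 (.n 0 (.n 0 (.l 4) (.l 4)) (.n 2 (.l 4) (.n 0 (.l 4) (.l 4)))) (.n 2 (.n 0 (.l 4) (.l 4)) (.n 3 (.l 4) (.l 4)))) (.l 11))))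
    [(46729244180480, 2748779069440), (217432719360, 8053063680), (206158430208, 68719476736), (549755813888, 549755813888)] rfl (by decide +kernel)
end
mutual
theorem c40_50_m1_t33 : CovD 0 progs [(45354854645760, 1374389534720), (217432719360, 8053063680), (343597383680, 68719476736), (549755813888, 549755813888)] :=
  Pool.Agent.helper14.QF.covD_F chks_eq (.n 3 (.n 3 (.n 2 (.n 2 (.n 2 (.l 4) (.n 1 (.l 4) (.l 4))) (.n 2 (.n 3 (.l 4) (.l 4)) (.n 1 (.l 4) (.n 0 (.l 4) (.l 4))))) (.n 2 (.n 2 (.l 6) (.l 6)) (.l 6))) (.n 3 (.n 2 (.n 2 (.n 2 (.l 4) (.l 4)) (.n 1 (.l 4) (.l 11))) (.l 11)) (.l 11))) (.l 11))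
    [(45354854645760, 1374389534720), (217432719360, 8053063680), (343597383680, 68719476736), (549755813888, 549755813888)] rfl (by decide +kernel)
theorem c40_50_m1_t34 : CovD 0 progs [(48103633715200, 1374389534720), (217432719360, 8053063680), (343597383680, 68719476736), (549755813888, 549755813888)] :=
  Pool.Agent.helper14.QF.covD_F chks_eq (.n 3 (.n 3 (.n 2 (.n 2 (.n 2 (.n 3 (.l 4) (.l 4)) (.n 1 (.l 4) (.n 3 (.l 4) (.l 4)))) (.n 2 (.n 0 (.n 1 (.l 4) (.l 4)) (.n 1 (.l 4) (.l 6))) (.l 6))) (.n 2 (.l 6) (.l 6))) (.n 3 (.n 2 (.n 2 (.n 2 (.l 4) (.l 11)) (.l 11)) (.l 11)) (.l 11))) (.l 11))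
    [(48103633715200, 1374389534720), (217432719360, 8053063680), (343597383680, 68719476736), (549755813888, 549755813888)] rfl (by decide +kernel)
end
mutual
theorem c40_50_m1_t36 : CovD 0 progs [(46729244180480, 2748779069440), (217432719360, 8053063680), (481036337152, 68719476736), (549755813888, 549755813888)] :=
  Pool.Agent.helper14.QF.covD_F chks_eq (.n 3 (.n 2 (.n 0 (.l 6) (.l 6)) (.l 6)) (.l 11))
    [(46729244180480, 2748779069440), (217432719360, 8053063680), (481036337152, 68719476736), (549755813888, 549755813888)] rfl (by decide +kernel)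
theorem c40_50_m1_t39 : CovD 0 progs [(46729244180480, 2748779069440), (217432719360, 8053063680), (824633720832, 274877906944), (549755813888, 549755813888)] :=
  Pool.Agent.helper14.QF.covD_F chks_eq (.n 3 (.n 3 (.n 2 (.n 2 (.l 6) (.n 0 (.l 4) (.l 15))) (.n 2 (.l 15) (.l 15))) (.n 2 (.n 0 (.l 11) (.l 11)) (.l 11))) (.n 2 (.l 11) (.l 11)))
    [(46729244180480, 2748779069440), (217432719360, 8053063680), (824633720832, 274877906944), (549755813888, 549755813888)] rfl (by decide +kernel)
end
mutual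
theorem c40_50_m1_t42 : CovD 0 progs [(46729244180480, 2748779069440), (241591910400, 16106127360), (549755813888, 549755813888), (137438953472, 137438953472)] :=
  Pool.Agent.helper14.QF.covD_F chks_eq (.n 1 (.n 1 (.n 2 (.n 2 (.l 10) (.n 2 (.n 2 (.l 10) (.l 10)) (.n 2 (.l 6) (.l 6)))) (.n 2 (.n 2 (.l 6) (.l 15)) (.l 15))) (.n 2 (.l 10) (.n 2 (.l 10) (.l 15)))) (.n 2 (.l 10) (.l 10)))
    [(46729244180480, 2748779069440), (241591910400, 16106127360), (549755813888, 549755813888), (137438953472, 137438953472)] rfl (by decide +kernel)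
theorem c40_50_m1_t43 : CovD 0 progs [(46729244180480, 2748779069440), (241591910400, 16106127360), (549755813888, 549755813888), (412316860416, 137438953472)] :=
  Pool.Agent.helper14.QF.covD_F chks_eq (.n 2 (.n 1 (.n 2 (.n 2 (.l 10) (.n 2 (.l 10) (.n 3 (.l 10) (.n 0 (.l 11) (.l 11))))) (.n 1 (.n 2 (.n 3 (.n 2 (.n 2 (.l 10) (.l 11)) (.l 11)) (.l 11)) (.l 11)) (.l 10))) (.l 10)) (.n 2 (.n 0 (.l 11) (.l 11)) (.l 11)))
    [(46729244180480, 2748779069440), (241591910400, 16106127360), (549755813888, 549755813888), (412316860416, 137438953472)] rfl (by decide +kernel)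
theorem c40_50_m1_t45 : CovD 0 progs [(46729244180480, 2748779069440), (241591910400, 16106127360), (549755813888, 549755813888), (824633720832, 274877906944)] :=
  Pool.Agent.helper14.QF.covD_F chks_eq (.n 3 (.n 2 (.n 1 (.n 2 (.n 2 (.n 2 (.l 2) (.l 2)) (.n 2 (.n 2 (.l 4) (.l 4)) (.l 11))) (.l 11)) (.n 2 (.l 10) (.l 11))) (.l 11)) (.n 2 (.n 2 (.n 1 (.n 2 (.n 2 (.l 1) (.l 2)) (.n 0 (.l 11) (.l 11))) (.l 10)) (.l 11)) (.l 11)))
    [(46729244180480, 2748779069440), (241591910400, 16106127360), (549755813888, 549755813888), (824633720832, 274877906944)] rfl (by decide +kernel)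
end
theorem c40_50_m1_t2 : CovD 0 progs [(46729244180480, 2748779069440), (136902082560, 8053063680), (274877906944, 274877906944), (549755813888, 549755813888)] :=
  covD_split 2 (by decide +kernel) c40_50_m1_t0 c40_50_m1_t1
theorem c40_50_m1_t5 : CovD 0 progs [(46729244180480, 2748779069440), (153008209920, 8053063680), (274877906944, 274877906944), (549755813888, 549755813888)] :=
  covD_split 2 (by decide +kernel) c40_50_m1_t3 c40_50_m1_t4
theorem c40_50_m1_t6 : CovD 0 progs [(46729244180480, 2748779069440), (144955146240, 16106127360), (274877906944, 274877906944), (549755813888, 549755813888)] :=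
  covD_split 1 (by decide +kernel) c40_50_m1_t2 c40_50_m1_t5
theorem c40_50_m1_t9 : CovD 0 progs [(46729244180480, 2748779069440), (169114337280, 8053063680), (274877906944, 274877906944), (549755813888, 549755813888)] :=
  covD_split 2 (by decide +kernel) c40_50_m1_t7 c40_50_m1_t8
theorem c40_50_m1_t13 : CovD 0 progs [(46729244180480, 2748779069440), (185220464640, 8053063680), (412316860416, 137438953472), (549755813888, 549755813888)] :=
  covD_split 1 (by decide +kernel) c40_50_m1_t11 c40_50_m1_t12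
theorem c40_50_m1_t14 : CovD 0 progs [(46729244180480, 2748779069440), (185220464640, 8053063680), (274877906944, 274877906944), (549755813888, 549755813888)] :=
  covD_split 2 (by decide +kernel) c40_50_m1_t10 c40_50_m1_t13
theorem c40_50_m1_t15 : CovD 0 progs [(46729244180480, 2748779069440), (177167400960, 16106127360), (274877906944, 274877906944), (549755813888, 549755813888)] :=
  covD_split 1 (by decide +kernel) c40_50_m1_t9 c40_50_m1_t14
theorem c40_50_m1_t16 : CovD 0 progs [(46729244180480, 2748779069440), (161061273600, 32212254720), (274877906944, 274877906944), (549755813888, 549755813888)] :=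
  covD_split 1 (by decide +kernel) c40_50_m1_t6 c40_50_m1_t15
theorem c40_50_m1_t19 : CovD 0 progs [(46729244180480, 2748779069440), (161061273600, 32212254720), (824633720832, 274877906944), (549755813888, 549755813888)] :=
  covD_split 2 (by decide +kernel) c40_50_m1_t17 c40_50_m1_t18
theorem c40_50_m1_t20 : CovD 0 progs [(46729244180480, 2748779069440), (161061273600, 32212254720), (549755813888, 549755813888), (549755813888, 549755813888)] :=
  covD_split 2 (by decide +kernel) c40_50_m1_t16 c40_50_m1_t19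
theorem c40_50_m1_t24 : CovD 0 progs [(46729244180480, 2748779069440), (201326592000, 8053063680), (343597383680, 68719476736), (549755813888, 549755813888)] :=
  covD_split 2 (by decide +kernel) c40_50_m1_t22 c40_50_m1_t23
theorem c40_50_m1_t26 : CovD 0 progs [(46729244180480, 2748779069440), (201326592000, 8053063680), (412316860416, 137438953472), (549755813888, 549755813888)] :=
  covD_split 2 (by decide +kernel) c40_50_m1_t24 c40_50_m1_t25
theorem c40_50_m1_t27 : CovD 0 progs [(46729244180480, 2748779069440), (201326592000, 8053063680), (274877906944, 274877906944), (549755813888, 549755813888)] :=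
  covD_split 2 (by decide +kernel) c40_50_m1_t21 c40_50_m1_t26
theorem c40_50_m1_t29 : CovD 0 progs [(46729244180480, 2748779069440), (201326592000, 8053063680), (549755813888, 549755813888), (549755813888, 549755813888)] :=
  covD_split 2 (by decide +kernel) c40_50_m1_t27 c40_50_m1_t28
theorem c40_50_m1_t32 : CovD 0 progs [(46729244180480, 2748779069440), (217432719360, 8053063680), (137438953472, 137438953472), (549755813888, 549755813888)] :=
  covD_split 2 (by decide +kernel) c40_50_m1_t30 c40_50_m1_t31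
theorem c40_50_m1_t35 : CovD 0 progs [(46729244180480, 2748779069440), (217432719360, 8053063680), (343597383680, 68719476736), (549755813888, 549755813888)] :=
  covD_split 0 (by decide +kernel) c40_50_m1_t33 c40_50_m1_t34
theorem c40_50_m1_t37 : CovD 0 progs [(46729244180480, 2748779069440), (217432719360, 8053063680), (412316860416, 137438953472), (549755813888, 549755813888)] :=
  covD_split 2 (by decide +kernel) c40_50_m1_t35 c40_50_m1_t36
theorem c40_50_m1_t38 : CovD 0 progs [(46729244180480, 2748779069440), (217432719360, 8053063680), (274877906944, 274877906944), (549755813888, 549755813888)] :=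
  covD_split 2 (by decide +kernel) c40_50_m1_t32 c40_50_m1_t37
theorem c40_50_m1_t40 : CovD 0 progs [(46729244180480, 2748779069440), (217432719360, 8053063680), (549755813888, 549755813888), (549755813888, 549755813888)] :=
  covD_split 2 (by decide +kernel) c40_50_m1_t38 c40_50_m1_t39
theorem c40_50_m1_t41 : CovD 0 progs [(46729244180480, 2748779069440), (209379655680, 16106127360), (549755813888, 549755813888), (549755813888, 549755813888)] :=
  covD_split 1 (by decide +kernel) c40_50_m1_t29 c40_50_m1_t40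
theorem c40_50_m1_t44 : CovD 0 progs [(46729244180480, 2748779069440), (241591910400, 16106127360), (549755813888, 549755813888), (274877906944, 274877906944)] :=
  covD_split 3 (by decide +kernel) c40_50_m1_t42 c40_50_m1_t43
theorem c40_50_m1_t46 : CovD 0 progs [(46729244180480, 2748779069440), (241591910400, 16106127360), (549755813888, 549755813888), (549755813888, 549755813888)] :=
  covD_split 3 (by decide +kernel) c40_50_m1_t44 c40_50_m1_t45
theorem c40_50_m1_t47 : CovD 0 progs [(46729244180480, 2748779069440), (225485783040, 32212254720), (549755813888, 549755813888), (549755813888, 549755813888)] :=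
  covD_split 1 (by decide +kernel) c40_50_m1_t41 c40_50_m1_t46
theorem c40_50_m1 : CovD 0 progs [(46729244180480, 2748779069440), (193273528320, 64424509440), (549755813888, 549755813888), (549755813888, 549755813888)] :=
  covD_split 1 (by decide +kernel) c40_50_m1_t20 c40_50_m1_t47

end Pool.Agent.helper71.FG.Crt.X
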