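import Pool.Agent.helper71.FG.Crt.XP

/-!
Generated certificates.
-/

namespace Pool.Agent.helper71.FG.Crt.X

open Pool.Agent.helper31.IA (Z Op)
open Pool.Agent.helper31.IC

mutual
theorem c40_50_m2_t0 : CovD 0 progs [(52226802319360, 2748779069440), (8053063680, 8053063680), (549755813888, 549755813888), (549755813888, 549755813888)] :=
  Pool.Agent.helper14.QF.covD_F chks_eq (.n 2 (.n 2 (.n 2 (.n 2 (.l 0) (.l 0)) (.n 2 (.l 0) (.l 0))) (.n 2 (.l 0) (.l 0))) (.n 1 (.n 2 (.l 0) (.l 0)) (.n 2 (.l 0) (.l 0))))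
    [(52226802319360, 2748779069440), (8053063680, 8053063680), (549755813888, 549755813888), (549755813888, 549755813888)] rfl (by decide +kernel)
theorem c40_50_m2_t1 : CovD 0 progs [(52226802319360, 2748779069440), (24159191040, 8053063680), (549755813888, 549755813888), (549755813888, 549755813888)] :=
  Pool.Agent.helper14.QF.covD_F chks_eq (.n 1 (.n 2 (.n 2 (.n 2 (.n 2 (.l 0) (.l 0)) (.n 2 (.l 0) (.l 0))) (.n 2 (.l 0) (.l 0))) (.n 2 (.n 2 (.l 0) (.l 0)) (.n 2 (.l 2) (.l 2)))) (.n 2 (.n 2 (.n 2 (.n 2 (.l 0) (.l 2)) (.n 2 (.l 2) (.l 2))) (.n 2 (.l 2) (.l 2))) (.n 2 (.n 2 (.l 2) (.l 2)) (.n 3 (.l 4) (.l 3)))))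
    [(52226802319360, 2748779069440), (24159191040, 8053063680), (549755813888, 549755813888), (549755813888, 549755813888)] rfl (by decide +kernel)
end
mutual
theorem c40_50_m2_t3 : CovD 0 progs [(52226802319360, 2748779069440), (40265318400, 8053063680), (549755813888, 549755813888), (549755813888, 549755813888)] :=
  Pool.Agent.helper14.QF.covD_F chks_eq (.n 2 (.n 2 (.n 2 (.n 2 (.l 2) (.l 2)) (.n 2 (.l 2) (.l 2))) (.n 2 (.n 1 (.l 2) (.l 2)) (.n 3 (.l 2) (.l 2)))) (.n 2 (.n 2 (.n 3 (.l 4) (.n 0 (.l 0) (.l 4))) (.n 3 (.l 4) (.n 0 (.l 3) (.l 3)))) (.n 2 (.n 3 (.l 4) (.n 0 (.l 3) (.l 3))) (.n 3 (.l 4) (.l 3)))))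
    [(52226802319360, 2748779069440), (40265318400, 8053063680), (549755813888, 549755813888), (549755813888, 549755813888)] rfl (by decide +kernel)
theorem c40_50_m2_t4 : CovD 0 progs [(52226802319360, 2748779069440), (56371445760, 8053063680), (549755813888, 549755813888), (549755813888, 549755813888)] :=
  Pool.Agent.helper14.QF.covD_F chks_eq (.n 2 (.n 2 (.n 2 (.n 2 (.l 2) (.l 2)) (.n 2 (.l 2) (.l 2))) (.n 2 (.n 2 (.l 2) (.n 1 (.l 2) (.l 2))) (.n 3 (.l 4) (.n 1 (.l 2) (.l 4))))) (.n 2 (.n 2 (.n 2 (.n 3 (.l 4) (.l 4)) (.n 3 (.l 4) (.l 4))) (.n 1 (.n 3 (.l 4) (.l 3)) (.n 3 (.l 4) (.l 4)))) (.n 2 (.n 3 (.l 4) (.n 1 (.l 3) (.l 3))) (.n 3 (.l 4) (.l 3)))))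
    [(52226802319360, 2748779069440), (56371445760, 8053063680), (549755813888, 549755813888), (549755813888, 549755813888)] rfl (by decide +kernel)
end
mutual
theorem c40_50_m2_t7 : CovD 0 progs [(52226802319360, 2748779069440), (72477573120, 8053063680), (274877906944, 274877906944), (549755813888, 549755813888)] :=
  Pool.Agent.helper14.QF.covD_F chks_eq (.n 2 (.n 2 (.n 2 (.l 2) (.l 2)) (.n 2 (.l 2) (.n 0 (.l 2) (.l 2)))) (.n 2 (.n 2 (.n 2 (.l 2) (.l 4)) (.n 3 (.l 2) (.l 2))) (.n 2 (.n 3 (.l 4) (.l 4)) (.n 3 (.l 4) (.n 0 (.l 4) (.l 4))))))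
    [(52226802319360, 2748779069440), (72477573120, 8053063680), (274877906944, 274877906944), (549755813888, 549755813888)] rfl (by decide +kernel)
theorem c40_50_m2_t8 : CovD 0 progs [(52226802319360, 2748779069440), (72477573120, 8053063680), (824633720832, 274877906944), (549755813888, 549755813888)] :=
  Pool.Agent.helper14.QF.covD_F chks_eq (.n 2 (.n 2 (.n 3 (.n 2 (.l 4) (.l 4)) (.n 3 (.n 0 (.l 4) (.l 4)) (.l 11))) (.n 0 (.n 3 (.l 4) (.l 11)) (.n 3 (.l 4) (.l 11)))) (.n 2 (.n 3 (.l 4) (.l 11)) (.n 1 (.l 6) (.l 6))))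
    [(52226802319360, 2748779069440), (72477573120, 8053063680), (824633720832, 274877906944), (549755813888, 549755813888)] rfl (by decide +kernel)
end
mutual
theorem c40_50_m2_t10 : CovD 0 progs [(52226802319360, 2748779069440), (88583700480, 8053063680), (274877906944, 274877906944), (549755813888, 549755813888)] :=
  Pool.Agent.helper14.QF.covD_F chks_eq (.n 2 (.n 2 (.n 2 (.l 2) (.l 2)) (.n 2 (.n 0 (.l 2) (.l 2)) (.n 2 (.l 2) (.l 4)))) (.n 2 (.n 2 (.n 3 (.l 2) (.l 2)) (.n 3 (.l 4) (.n 0 (.l 4) (.l 4)))) (.n 1 (.n 2 (.n 3 (.l 4) (.l 4)) (.n 3 (.l 4) (.l 11))) (.n 2 (.n 3 (.l 4) (.l 11)) (.n 3 (.l 4) (.l 11))))))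
    [(52226802319360, 2748779069440), (88583700480, 8053063680), (274877906944, 274877906944), (549755813888, 549755813888)] rfl (by decide +kernel)
theorem c40_50_m2_t11 : CovD 0 progs [(52226802319360, 2748779069440), (88583700480, 8053063680), (824633720832, 274877906944), (549755813888, 549755813888)] :=
  Pool.Agent.helper14.QF.covD_F chks_eq (.n 2 (.n 3 (.n 2 (.n 2 (.n 0 (.l 4) (.l 4)) (.l 6)) (.n 0 (.l 4) (.l 6))) (.n 3 (.l 11) (.l 11))) (.n 3 (.n 2 (.l 4) (.l 4)) (.l 11)))
    [(52226802319360, 2748779069440), (88583700480, 8053063680), (824633720832, 274877906944), (549755813888, 549755813888)] rfl (by decide +kernel)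
end
mutual
theorem c40_50_m2_t14 : CovD 0 progs [(52226802319360, 2748779069440), (112742891520, 16106127360), (137438953472, 137438953472), (549755813888, 549755813888)] :=
  Pool.Agent.helper14.QF.covD_F chks_eq (.n 2 (.n 2 (.l 2) (.n 1 (.l 2) (.l 2))) (.n 2 (.n 2 (.l 4) (.n 1 (.l 2) (.l 4))) (.n 2 (.n 3 (.l 2) (.l 2)) (.n 3 (.l 4) (.l 4)))))
    [(52226802319360, 2748779069440), (112742891520, 16106127360), (137438953472, 137438953472), (549755813888, 549755813888)] rfl (by decide +kernel)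
theorem c40_50_m2_t15 : CovD 0 progs [(52226802319360, 2748779069440), (112742891520, 16106127360), (343597383680, 68719476736), (549755813888, 549755813888)] :=
  Pool.Agent.helper14.QF.covD_F chks_eq (.n 1 (.n 3 (.n 2 (.l 4) (.n 2 (.l 4) (.l 4))) (.n 3 (.n 2 (.l 2) (.l 4)) (.l 11))) (.n 2 (.n 3 (.n 2 (.l 4) (.l 4)) (.n 3 (.l 4) (.l 2))) (.n 1 (.n 3 (.n 2 (.l 4) (.l 4)) (.l 11)) (.n 3 (.n 3 (.l 4) (.l 4)) (.l 11)))))
    [(52226802319360, 2748779069440), (112742891520, 16106127360), (343597383680, 68719476736), (549755813888, 549755813888)] rfl (by decide +kernel)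
end
mutual
theorem c40_50_m2_t16 : CovD 0 progs [(52226802319360, 2748779069440), (112742891520, 16106127360), (481036337152, 68719476736), (549755813888, 549755813888)] :=
  Pool.Agent.helper14.QF.covD_F chks_eq (.n 1 (.n 2 (.n 3 (.n 3 (.l 4) (.n 0 (.l 4) (.l 4))) (.l 11)) (.n 3 (.n 2 (.n 0 (.l 4) (.l 4)) (.l 6)) (.l 11))) (.n 2 (.n 3 (.n 2 (.n 3 (.l 4) (.l 4)) (.n 1 (.l 6) (.l 6))) (.l 11)) (.n 3 (.n 2 (.l 6) (.l 6)) (.l 11))))
    [(52226802319360, 2748779069440), (112742891520, 16106127360), (481036337152, 68719476736), (549755813888, 549755813888)] rfl (by decide +kernel)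
theorem c40_50_m2_t19 : CovD 0 progs [(52226802319360, 2748779069440), (112742891520, 16106127360), (824633720832, 274877906944), (549755813888, 549755813888)] :=
  Pool.Agent.helper14.QF.covD_F chks_eq (.n 1 (.n 2 (.n 2 (.n 3 (.n 2 (.n 0 (.l 6) (.l 6)) (.l 6)) (.l 11)) (.n 2 (.l 6) (.l 6))) (.n 3 (.n 2 (.l 4) (.n 0 (.l 4) (.l 4))) (.l 11))) (.n 2 (.n 2 (.n 3 (.n 2 (.l 6) (.l 6)) (.l 11)) (.n 3 (.l 6) (.l 6))) (.n 3 (.n 2 (.n 0 (.l 4) (.l 4)) (.n 2 (.l 4) (.l 4))) (.l 11))))
    [(52226802319360, 2748779069440), (112742891520, 16106127360), (824633720832, 274877906944), (549755813888, 549755813888)] rfl (by decide +kernel)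
end
theorem c40_50_m2_t2 : CovD 0 progs [(52226802319360, 2748779069440), (16106127360, 16106127360), (549755813888, 549755813888), (549755813888, 549755813888)] :=
  covD_split 1 (by decide +kernel) c40_50_m2_t0 c40_50_m2_t1
theorem c40_50_m2_t5 : CovD 0 progs [(52226802319360, 2748779069440), (48318382080, 16106127360), (549755813888, 549755813888), (549755813888, 549755813888)] :=
  covD_split 1 (by decide +kernel) c40_50_m2_t3 c40_50_m2_t4
theorem c40_50_m2_t6 : CovD 0 progs [(52226802319360, 2748779069440), (32212254720, 32212254720), (549755813888, 549755813888), (549755813888, 549755813888)] :=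
  covD_split 1 (by decide +kernel) c40_50_m2_t2 c40_50_m2_t5
theorem c40_50_m2_t9 : CovD 0 progs [(52226802319360, 2748779069440), (72477573120, 8053063680), (549755813888, 549755813888), (549755813888, 549755813888)] :=
  covD_split 2 (by decide +kernel) c40_50_m2_t7 c40_50_m2_t8
theorem c40_50_m2_t12 : CovD 0 progs [(52226802319360, 2748779069440), (88583700480, 8053063680), (549755813888, 549755813888), (549755813888, 549755813888)] :=
  covD_split 2 (by decide +kernel) c40_50_m2_t10 c40_50_m2_t11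
theorem c40_50_m2_t13 : CovD 0 progs [(52226802319360, 2748779069440), (80530636800, 16106127360), (549755813888, 549755813888), (549755813888, 549755813888)] :=
  covD_split 1 (by decide +kernel) c40_50_m2_t9 c40_50_m2_t12
theorem c40_50_m2_t17 : CovD 0 progs [(52226802319360, 2748779069440), (112742891520, 16106127360), (412316860416, 137438953472), (549755813888, 549755813888)] :=
  covD_split 2 (by decide +kernel) c40_50_m2_t15 c40_50_m2_t16
theorem c40_50_m2_t18 : CovD 0 progs [(52226802319360, 2748779069440), (112742891520, 16106127360), (274877906944, 274877906944), (549755813888, 549755813888)] :=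
  covD_split 2 (by decide +kernel) c40_50_m2_t14 c40_50_m2_t17
theorem c40_50_m2_t20 : CovD 0 progs [(52226802319360, 2748779069440), (112742891520, 16106127360), (549755813888, 549755813888), (549755813888, 549755813888)] :=
  covD_split 2 (by decide +kernel) c40_50_m2_t18 c40_50_m2_t19
theorem c40_50_m2_t21 : CovD 0 progs [(52226802319360, 2748779069440), (96636764160, 32212254720), (549755813888, 549755813888), (549755813888, 549755813888)] :=
  covD_split 1 (by decide +kernel) c40_50_m2_t13 c40_50_m2_t20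
theorem c40_50_m2 : CovD 0 progs [(52226802319360, 2748779069440), (64424509440, 64424509440), (549755813888, 549755813888), (549755813888, 549755813888)] :=
  covD_split 1 (by decide +kernel) c40_50_m2_t6 c40_50_m2_t21

end Pool.Agent.helper71.FG.Crt.X
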