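import Pool.Agent.helper71.FG.Crt.Xc40_50_0
import Pool.Agent.helper71.FG.Crt.Xc40_50_1
import Pool.Agent.helper71.FG.Crt.Xc40_50_2
import Pool.Agent.helper71.FG.Crt.Xc40_50_3

/-!
Generated certificates, assembled.
-/

namespace Pool.Agent.helper71.FG.Crt.X

open Pool.Agent.helper31.IA (Z Op)
open Pool.Agent.helper31.IC

theorem c40_50_top0 : CovD 0 progs [(46729244180480, 2748779069440), (128849018880, 128849018880), (549755813888, 549755813888), (549755813888, 549755813888)] :=
  covD_split 1 (by decide +kernel) c40_50_m0 c40_50_m1
theorem c40_50_top1 : CovD 0 progs [(52226802319360, 2748779069440), (128849018880, 128849018880), (549755813888, 549755813888), (549755813888, 549755813888)] :=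
  covD_split 1 (by decide +kernel) c40_50_m2 c40_50_m3
theorem c40_50_top2 : CovD 0 progs [(49478023249920, 5497558138880), (128849018880, 128849018880), (549755813888, 549755813888), (549755813888, 549755813888)] :=
  covD_split 0 (by decide +kernel) c40_50_top0 c40_50_top1

theorem c40_50_all : CovD 0 progs [(49478023249920, 5497558138880), (128849018880, 128849018880), (549755813888, 549755813888), (549755813888, 549755813888)] := c40_50_top2

end Pool.Agent.helper71.FG.Crt.X
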