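import Pool.Agent.helper71.FG.Crt.XA
import Pool.Agent.helper71.FG.Crt.LA
import Pool.Agent.helper71.FG.Crt.Xc20_32
import Pool.Agent.helper71.FG.Crt.Xc32_40
import Pool.Agent.helper71.FG.Crt.Xc40_50
import Pool.Agent.helper71.FG.Crt.Lc20_32
import Pool.Agent.helper71.FG.Crt.Lc32_40
import Pool.Agent.helper71.FG.Crt.Lc40_50
import Pool.Agent.helper71.FG.Crt.Lc20_32b
import Pool.Agent.helper71.FG.Crt.Lc32_50b

/-!
Generated: the certified boxes, `20 ≤ e ≤ 50`.
-/

namespace Pool.Agent.helper71.FG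

open Complex Pool.Agent.helper31.EQ.Y Pool.Agent.helper31.EQ.R
open Pool.Agent.helper12.EQL Pool.Agent.helper12.RP Pool.Agent.helper12.FF Pool.Agent.helper63.FF
open Pool.Agent.helper31.IA (Z Op InBox)
open Pool.Agent.helper71.FF (RAs ras_of_cov ib)

theorem covX {e t u n : ℝ} (h20 : 20 ≤ e) (h100 : e ≤ 50) (t0 : 0 ≤ t) (t1 : t ≤ 15 / 64)
    (u0 : 0 ≤ u) (u1 : u ≤ 1) (n0 : 0 ≤ n) (n1 : n ≤ 1) :
    ∃ ops ∈ Pool.Agent.helper71.FG.Crt.X.progs, RAs ops [e, t, u, n] := by
  rcases le_total e 32 with e32 | e32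
  · exact ras_of_cov (by decide +kernel) Pool.Agent.helper71.FG.Crt.X.c20_32_all
        (List.Forall₂.cons (ib (by norm_num) (by norm_num) h20 e32) (List.Forall₂.cons (ib (by norm_num) (by norm_num) t0 t1) (List.Forall₂.cons (ib (by norm_num) (by norm_num) u0 u1) (List.Forall₂.cons (ib (by norm_num) (by norm_num) n0 n1) List.Forall₂.nil))))
  rcases le_total e 40 with e40 | e40
  · exact ras_of_cov (by decide +kernel) Pool.Agent.helper71.FG.Crt.X.c32_40_all
        (List.Forall₂.cons (ib (by norm_num) (by norm_num) e32 e40) (List.Forall₂.cons (ib (by norm_num) (by norm_num) t0 t1) (List.Forall₂.cons (ib (by norm_num) (by norm_num) u0 u1) (List.Forall₂.cons (ib (by norm_num) (by norm_num) n0 n1) List.Forall₂.nil))))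
  exact ras_of_cov (by decide +kernel) Pool.Agent.helper71.FG.Crt.X.c40_50_all
        (List.Forall₂.cons (ib (by norm_num) (by norm_num) e40 h100) (List.Forall₂.cons (ib (by norm_num) (by norm_num) t0 t1) (List.Forall₂.cons (ib (by norm_num) (by norm_num) u0 u1) (List.Forall₂.cons (ib (by norm_num) (by norm_num) n0 n1) List.Forall₂.nil))))

theorem covL {e t u n : ℝ} (h20 : 20 ≤ e) (h100 : e ≤ 50) (t0 : 0 ≤ t) (t1 : t ≤ 17 / 32)
    (u0 : 0 ≤ u) (u1 : u ≤ 1) (n0 : 0 ≤ n) (n1 : n ≤ 1) :
    ∃ ops ∈ Pool.Agent.helper71.FG.Crt.L.progs, RAs ops [e, t, u, n] := by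
  rcases le_total t (9 / 32) with ht | ht
  · rcases le_total e 32 with e32 | e32
    · exact ras_of_cov (by decide +kernel) Pool.Agent.helper71.FG.Crt.L.c20_32_all
        (List.Forall₂.cons (ib (by norm_num) (by norm_num) h20 e32) (List.Forall₂.cons (ib (by norm_num) (by norm_num) t0 ht) (List.Forall₂.cons (ib (by norm_num) (by norm_num) u0 u1) (List.Forall₂.cons (ib (by norm_num) (by norm_num) n0 n1) List.Forall₂.nil))))
    rcases le_total e 40 with e40 | e40
    · exact ras_of_cov (by decide +kernel) Pool.Agent.helper71.FG.Crt.L.c32_40_all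
        (List.Forall₂.cons (ib (by norm_num) (by norm_num) e32 e40) (List.Forall₂.cons (ib (by norm_num) (by norm_num) t0 ht) (List.Forall₂.cons (ib (by norm_num) (by norm_num) u0 u1) (List.Forall₂.cons (ib (by norm_num) (by norm_num) n0 n1) List.Forall₂.nil))))
    exact ras_of_cov (by decide +kernel) Pool.Agent.helper71.FG.Crt.L.c40_50_all
        (List.Forall₂.cons (ib (by norm_num) (by norm_num) e40 h100) (List.Forall₂.cons (ib (by norm_num) (by norm_num) t0 ht) (List.Forall₂.cons (ib (by norm_num) (by norm_num) u0 u1) (List.Forall₂.cons (ib (by norm_num) (by norm_num) n0 n1) List.Forall₂.nil))))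
  · rcases le_total e 32 with e32 | e32
    · exact ras_of_cov (by decide +kernel) Pool.Agent.helper71.FG.Crt.L.c20_32b_all
        (List.Forall₂.cons (ib (by norm_num) (by norm_num) h20 e32) (List.Forall₂.cons (ib (by norm_num) (by norm_num) ht t1) (List.Forall₂.cons (ib (by norm_num) (by norm_num) u0 u1) (List.Forall₂.cons (ib (by norm_num) (by norm_num) n0 n1) List.Forall₂.nil))))
    exact ras_of_cov (by decide +kernel) Pool.Agent.helper71.FG.Crt.L.c32_50b_all
        (List.Forall₂.cons (ib (by norm_num) (by norm_num) e32 h100) (List.Forall₂.cons (ib (by norm_num) (by norm_num) ht t1) (List.Forall₂.cons (ib (by norm_num) (by norm_num) u0 u1) (List.Forall₂.cons (ib (by norm_num) (by norm_num) n0 n1) List.Forall₂.nil))))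

end Pool.Agent.helper71.FG
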