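import Pool.Agent.helper71.FG.Crt.LP

/-!
Generated certificates.
-/

namespace Pool.Agent.helper71.FG.Crt.L

open Pool.Agent.helper31.IA (Z Op)
open Pool.Agent.helper31.IC

mutual
theorem c20_32_m0_t0 : CovD 0 progs [(25288767438848, 3298534883328), (77309411328, 77309411328), (137438953472, 137438953472), (549755813888, 549755813888)] :=
  Pool.Agent.helper14.QF.covD_F chks_eq (.n 1 (.l 11) (.n 2 (.l 11) (.n 3 (.l 11) (.n 2 (.l 2) (.n 1 (.l 2) (.l 2))))))
    [(25288767438848, 3298534883328), (77309411328, 77309411328), (137438953472, 137438953472), (549755813888, 549755813888)] rfl (by decide +kernel)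
theorem c20_32_m0_t1 : CovD 0 progs [(25288767438848, 3298534883328), (231928233984, 77309411328), (137438953472, 137438953472), (549755813888, 549755813888)] :=
  Pool.Agent.helper14.QF.covD_F chks_eq (.n 1 (.n 2 (.n 2 (.l 11) (.n 3 (.l 2) (.n 0 (.l 2) (.l 2)))) (.n 2 (.n 3 (.n 2 (.l 2) (.l 4)) (.n 1 (.l 2) (.n 2 (.l 2) (.l 4)))) (.n 2 (.n 3 (.n 0 (.l 4) (.l 4)) (.n 3 (.l 4) (.l 2))) (.n 1 (.n 3 (.l 2) (.l 4)) (.n 3 (.l 4) (.n 0 (.l 4) (.l 4))))))) (.n 1 (.n 2 (.l 10) (.n 1 (.n 2 (.l 10) (.n 3 (.l 10) (.l 10))) (.l 10))) (.l 10)))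
    [(25288767438848, 3298534883328), (231928233984, 77309411328), (137438953472, 137438953472), (549755813888, 549755813888)] rfl (by decide +kernel)
end
mutual
theorem c20_32_m0_t3 : CovD 0 progs [(25288767438848, 3298534883328), (77309411328, 77309411328), (343597383680, 68719476736), (549755813888, 549755813888)] :=
  Pool.Agent.helper14.QF.covD_F chks_eq (.n 1 (.n 1 (.l 11) (.n 2 (.l 2) (.n 0 (.l 2) (.l 2)))) (.n 1 (.n 2 (.n 0 (.l 2) (.l 2)) (.n 3 (.l 2) (.l 2))) (.n 2 (.n 3 (.l 4) (.n 0 (.l 2) (.l 2))) (.n 3 (.n 0 (.l 2) (.l 4)) (.n 3 (.l 4) (.l 2))))))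
    [(25288767438848, 3298534883328), (77309411328, 77309411328), (343597383680, 68719476736), (549755813888, 549755813888)] rfl (by decide +kernel)
theorem c20_32_m0_t4 : CovD 0 progs [(25288767438848, 3298534883328), (173946175488, 19327352832), (343597383680, 68719476736), (549755813888, 549755813888)] :=
  Pool.Agent.helper14.QF.covD_F chks_eq (.n 2 (.n 0 (.n 3 (.l 4) (.n 0 (.l 4) (.l 4))) (.n 3 (.l 4) (.n 1 (.l 2) (.l 4)))) (.n 3 (.n 3 (.l 11) (.n 0 (.l 4) (.l 4))) (.n 0 (.n 3 (.l 4) (.l 4)) (.n 3 (.l 4) (.l 4)))))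
    [(25288767438848, 3298534883328), (173946175488, 19327352832), (343597383680, 68719476736), (549755813888, 549755813888)] rfl (by decide +kernel)
end
mutual
theorem c20_32_m0_t5 : CovD 0 progs [(23639499997184, 1649267441664), (212600881152, 19327352832), (343597383680, 68719476736), (549755813888, 549755813888)] :=
  Pool.Agent.helper14.QF.covD_F chks_eq (.n 3 (.n 3 (.l 11) (.n 2 (.l 4) (.n 0 (.l 4) (.l 4)))) (.n 2 (.n 3 (.l 4) (.l 4)) (.n 0 (.n 3 (.l 4) (.l 4)) (.n 3 (.l 4) (.l 4)))))
    [(23639499997184, 1649267441664), (212600881152, 19327352832), (343597383680, 68719476736), (549755813888, 549755813888)] rfl (by decide +kernel)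
theorem c20_32_m0_t6 : CovD 0 progs [(26938034880512, 1649267441664), (212600881152, 19327352832), (343597383680, 68719476736), (549755813888, 549755813888)] :=
  Pool.Agent.helper14.QF.covD_F chks_eq (.n 2 (.n 3 (.n 1 (.l 4) (.n 2 (.l 4) (.l 4))) (.n 3 (.n 0 (.l 4) (.l 4)) (.l 4))) (.n 2 (.n 3 (.n 3 (.l 4) (.l 4)) (.n 3 (.l 4) (.l 4))) (.n 3 (.n 1 (.l 4) (.n 3 (.l 4) (.l 4))) (.n 3 (.l 4) (.l 4)))))
    [(26938034880512, 1649267441664), (212600881152, 19327352832), (343597383680, 68719476736), (549755813888, 549755813888)] rfl (by decide +kernel)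
end
mutual
theorem c20_32_m0_t9 : CovD 0 progs [(25288767438848, 3298534883328), (270582939648, 38654705664), (343597383680, 68719476736), (549755813888, 549755813888)] :=
  Pool.Agent.helper14.QF.covD_F chks_eq (.n 2 (.n 1 (.n 1 (.n 3 (.l 10) (.n 3 (.l 10) (.n 0 (.l 4) (.l 4)))) (.l 10)) (.l 10)) (.n 1 (.n 3 (.l 10) (.n 1 (.n 1 (.n 3 (.l 10) (.n 0 (.l 4) (.l 4))) (.l 10)) (.l 10))) (.n 1 (.l 10) (.l 10))))
    [(25288767438848, 3298534883328), (270582939648, 38654705664), (343597383680, 68719476736), (549755813888, 549755813888)] rfl (by decide +kernel)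
theorem c20_32_m0_t12 : CovD 0 progs [(25288767438848, 3298534883328), (77309411328, 77309411328), (446676598784, 34359738368), (549755813888, 549755813888)] :=
  Pool.Agent.helper14.QF.covD_F chks_eq (.n 1 (.n 1 (.l 0) (.n 0 (.l 2) (.l 2))) (.n 1 (.n 3 (.l 4) (.n 0 (.l 2) (.l 2))) (.n 0 (.n 3 (.l 4) (.n 0 (.l 4) (.l 4))) (.n 1 (.n 3 (.l 2) (.l 2)) (.n 3 (.l 4) (.l 4))))))
    [(25288767438848, 3298534883328), (77309411328, 77309411328), (446676598784, 34359738368), (549755813888, 549755813888)] rfl (by decide +kernel)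
end
mutual
theorem c20_32_m0_t13 : CovD 0 progs [(25288767438848, 3298534883328), (173946175488, 19327352832), (446676598784, 34359738368), (549755813888, 549755813888)] :=
  Pool.Agent.helper14.QF.covD_F chks_eq (.n 3 (.n 3 (.l 11) (.n 0 (.l 4) (.n 0 (.l 4) (.l 4)))) (.n 0 (.n 3 (.l 4) (.l 4)) (.n 3 (.n 0 (.l 4) (.l 4)) (.l 4))))
    [(25288767438848, 3298534883328), (173946175488, 19327352832), (446676598784, 34359738368), (549755813888, 549755813888)] rfl (by decide +kernel)
theorem c20_32_m0_t14 : CovD 0 progs [(25288767438848, 3298534883328), (212600881152, 19327352832), (446676598784, 34359738368), (549755813888, 549755813888)] :=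
  Pool.Agent.helper14.QF.covD_F chks_eq (.n 0 (.n 2 (.n 3 (.n 3 (.l 4) (.l 4)) (.n 3 (.l 4) (.l 4))) (.n 3 (.n 1 (.l 4) (.n 0 (.l 4) (.l 4))) (.n 3 (.l 4) (.l 4)))) (.n 3 (.n 1 (.n 3 (.l 4) (.n 0 (.l 4) (.l 4))) (.n 2 (.n 3 (.l 4) (.l 4)) (.n 3 (.l 4) (.l 4)))) (.n 2 (.n 3 (.n 0 (.l 4) (.l 4)) (.l 4)) (.n 3 (.n 0 (.l 4) (.l 4)) (.l 4)))))
    [(25288767438848, 3298534883328), (212600881152, 19327352832), (446676598784, 34359738368), (549755813888, 549755813888)] rfl (by decide +kernel)
end
mutual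
theorem c20_32_m0_t16 : CovD 0 progs [(25288767438848, 3298534883328), (270582939648, 38654705664), (446676598784, 34359738368), (549755813888, 549755813888)] :=
  Pool.Agent.helper14.QF.covD_F chks_eq (.n 1 (.n 1 (.n 3 (.l 10) (.n 3 (.n 3 (.l 10) (.n 0 (.l 4) (.l 4))) (.n 0 (.n 0 (.l 4) (.l 4)) (.n 2 (.l 4) (.l 4))))) (.n 3 (.l 10) (.l 10))) (.n 3 (.l 10) (.l 10)))
    [(25288767438848, 3298534883328), (270582939648, 38654705664), (446676598784, 34359738368), (549755813888, 549755813888)] rfl (by decide +kernel)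
theorem c20_32_m0_t19 : CovD 0 progs [(25288767438848, 3298534883328), (77309411328, 77309411328), (515396075520, 34359738368), (549755813888, 549755813888)] :=
  Pool.Agent.helper14.QF.covD_F chks_eq (.n 1 (.n 1 (.l 0) (.n 1 (.l 2) (.l 2))) (.n 3 (.n 3 (.l 11) (.n 1 (.l 4) (.n 0 (.l 4) (.l 4)))) (.n 1 (.n 1 (.l 2) (.l 4)) (.n 0 (.n 1 (.l 2) (.l 4)) (.n 3 (.l 4) (.l 4))))))
    [(25288767438848, 3298534883328), (77309411328, 77309411328), (515396075520, 34359738368), (549755813888, 549755813888)] rfl (by decide +kernel)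
end
mutual
theorem c20_32_m0_t20 : CovD 0 progs [(23639499997184, 1649267441664), (193273528320, 38654705664), (515396075520, 34359738368), (549755813888, 549755813888)] :=
  Pool.Agent.helper14.QF.covD_F chks_eq (.n 1 (.n 3 (.n 1 (.l 4) (.n 0 (.l 4) (.l 4))) (.n 3 (.n 0 (.l 4) (.l 4)) (.l 4))) (.n 3 (.n 1 (.n 3 (.l 4) (.l 4)) (.n 3 (.l 4) (.n 0 (.l 4) (.l 4)))) (.n 3 (.n 1 (.l 4) (.n 0 (.l 4) (.l 4))) (.n 2 (.l 4) (.l 4)))))
    [(23639499997184, 1649267441664), (193273528320, 38654705664), (515396075520, 34359738368), (549755813888, 549755813888)] rfl (by decide +kernel)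
theorem c20_32_m0_t21 : CovD 0 progs [(26938034880512, 1649267441664), (193273528320, 38654705664), (515396075520, 34359738368), (549755813888, 549755813888)] :=
  Pool.Agent.helper14.QF.covD_F chks_eq (.n 3 (.n 3 (.n 3 (.l 11) (.n 1 (.l 4) (.n 1 (.l 4) (.l 4)))) (.n 1 (.n 1 (.l 4) (.l 4)) (.n 0 (.n 1 (.l 4) (.l 4)) (.n 1 (.l 4) (.l 4))))) (.n 1 (.n 0 (.n 3 (.l 4) (.l 4)) (.n 3 (.l 4) (.l 4))) (.n 3 (.n 0 (.n 1 (.l 4) (.l 4)) (.n 1 (.l 4) (.l 4))) (.n 3 (.l 4) (.l 4)))))
    [(26938034880512, 1649267441664), (193273528320, 38654705664), (515396075520, 34359738368), (549755813888, 549755813888)] rfl (by decide +kernel)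
theorem c20_32_m0_t23 : CovD 0 progs [(25288767438848, 3298534883328), (270582939648, 38654705664), (515396075520, 34359738368), (549755813888, 549755813888)] :=
  Pool.Agent.helper14.QF.covD_F chks_eq (.n 1 (.n 1 (.n 3 (.n 3 (.l 10) (.l 10)) (.n 0 (.n 2 (.n 3 (.l 4) (.l 4)) (.n 3 (.l 4) (.l 4))) (.n 3 (.n 3 (.l 4) (.l 4)) (.n 2 (.l 4) (.l 4))))) (.n 3 (.l 10) (.n 1 (.n 3 (.l 10) (.l 10)) (.l 10)))) (.n 3 (.l 10) (.l 10)))
    [(25288767438848, 3298534883328), (270582939648, 38654705664), (515396075520, 34359738368), (549755813888, 549755813888)] rfl (by decide +kernel)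
end
theorem c20_32_m0_t2 : CovD 0 progs [(25288767438848, 3298534883328), (154618822656, 154618822656), (137438953472, 137438953472), (549755813888, 549755813888)] :=
  covD_split 1 (by decide +kernel) c20_32_m0_t0 c20_32_m0_t1
theorem c20_32_m0_t7 : CovD 0 progs [(25288767438848, 3298534883328), (212600881152, 19327352832), (343597383680, 68719476736), (549755813888, 549755813888)] :=
  covD_split 0 (by decide +kernel) c20_32_m0_t5 c20_32_m0_t6
theorem c20_32_m0_t8 : CovD 0 progs [(25288767438848, 3298534883328), (193273528320, 38654705664), (343597383680, 68719476736), (549755813888, 549755813888)] :=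
  covD_split 1 (by decide +kernel) c20_32_m0_t4 c20_32_m0_t7
theorem c20_32_m0_t10 : CovD 0 progs [(25288767438848, 3298534883328), (231928233984, 77309411328), (343597383680, 68719476736), (549755813888, 549755813888)] :=
  covD_split 1 (by decide +kernel) c20_32_m0_t8 c20_32_m0_t9
theorem c20_32_m0_t11 : CovD 0 progs [(25288767438848, 3298534883328), (154618822656, 154618822656), (343597383680, 68719476736), (549755813888, 549755813888)] :=
  covD_split 1 (by decide +kernel) c20_32_m0_t3 c20_32_m0_t10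
theorem c20_32_m0_t15 : CovD 0 progs [(25288767438848, 3298534883328), (193273528320, 38654705664), (446676598784, 34359738368), (549755813888, 549755813888)] :=
  covD_split 1 (by decide +kernel) c20_32_m0_t13 c20_32_m0_t14
theorem c20_32_m0_t17 : CovD 0 progs [(25288767438848, 3298534883328), (231928233984, 77309411328), (446676598784, 34359738368), (549755813888, 549755813888)] :=
  covD_split 1 (by decide +kernel) c20_32_m0_t15 c20_32_m0_t16
theorem c20_32_m0_t18 : CovD 0 progs [(25288767438848, 3298534883328), (154618822656, 154618822656), (446676598784, 34359738368), (549755813888, 549755813888)] :=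
  covD_split 1 (by decide +kernel) c20_32_m0_t12 c20_32_m0_t17
theorem c20_32_m0_t22 : CovD 0 progs [(25288767438848, 3298534883328), (193273528320, 38654705664), (515396075520, 34359738368), (549755813888, 549755813888)] :=
  covD_split 0 (by decide +kernel) c20_32_m0_t20 c20_32_m0_t21
theorem c20_32_m0_t24 : CovD 0 progs [(25288767438848, 3298534883328), (231928233984, 77309411328), (515396075520, 34359738368), (549755813888, 549755813888)] :=
  covD_split 1 (by decide +kernel) c20_32_m0_t22 c20_32_m0_t23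
theorem c20_32_m0_t25 : CovD 0 progs [(25288767438848, 3298534883328), (154618822656, 154618822656), (515396075520, 34359738368), (549755813888, 549755813888)] :=
  covD_split 1 (by decide +kernel) c20_32_m0_t19 c20_32_m0_t24
theorem c20_32_m0_t26 : CovD 0 progs [(25288767438848, 3298534883328), (154618822656, 154618822656), (481036337152, 68719476736), (549755813888, 549755813888)] :=
  covD_split 2 (by decide +kernel) c20_32_m0_t18 c20_32_m0_t25
theorem c20_32_m0_t27 : CovD 0 progs [(25288767438848, 3298534883328), (154618822656, 154618822656), (412316860416, 137438953472), (549755813888, 549755813888)] :=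
  covD_split 2 (by decide +kernel) c20_32_m0_t11 c20_32_m0_t26
theorem c20_32_m0 : CovD 0 progs [(25288767438848, 3298534883328), (154618822656, 154618822656), (274877906944, 274877906944), (549755813888, 549755813888)] :=
  covD_split 2 (by decide +kernel) c20_32_m0_t2 c20_32_m0_t27

end Pool.Agent.helper71.FG.Crt.L
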