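import Pool.Agent.helper71.FG.Crt.LP

/-!
Generated certificates.
-/

namespace Pool.Agent.helper71.FG.Crt.L

open Pool.Agent.helper31.IA (Z Op)
open Pool.Agent.helper31.IC

mutual
theorem c20_32b_m0_t0 : CovD 0 progs [(28587302322176, 6597069766656), (446676598784, 137438953472), (137438953472, 137438953472), (549755813888, 549755813888)] :=
  Pool.Agent.helper14.QF.covD_F chks_eq (.n 2 (.l 10) (.n 2 (.l 10) (.n 3 (.l 10) (.l 10))))
    [(28587302322176, 6597069766656), (446676598784, 137438953472), (137438953472, 137438953472), (549755813888, 549755813888)] rfl (by decide +kernel)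
theorem c20_32b_m0_t1 : CovD 0 progs [(28587302322176, 6597069766656), (446676598784, 137438953472), (412316860416, 137438953472), (549755813888, 549755813888)] :=
  Pool.Agent.helper14.QF.covD_F chks_eq (.n 2 (.n 1 (.n 3 (.l 10) (.n 1 (.l 10) (.l 10))) (.n 3 (.l 10) (.n 2 (.l 10) (.n 3 (.l 10) (.l 10))))) (.n 2 (.n 1 (.n 3 (.l 10) (.n 1 (.l 10) (.l 10))) (.n 3 (.l 10) (.n 3 (.l 10) (.n 1 (.l 10) (.l 10))))) (.n 3 (.n 3 (.l 10) (.l 10)) (.n 1 (.n 3 (.l 10) (.l 10)) (.n 3 (.l 10) (.n 1 (.l 10) (.l 10)))))))
    [(28587302322176, 6597069766656), (446676598784, 137438953472), (412316860416, 137438953472), (549755813888, 549755813888)] rfl (by decide +kernel)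
end
theorem c20_32b_m0 : CovD 0 progs [(28587302322176, 6597069766656), (446676598784, 137438953472), (274877906944, 274877906944), (549755813888, 549755813888)] :=
  covD_split 2 (by decide +kernel) c20_32b_m0_t0 c20_32b_m0_t1

end Pool.Agent.helper71.FG.Crt.L
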