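import Pool.Agent.helper71.FG.Crt.LP

/-!
Generated certificates.
-/

namespace Pool.Agent.helper71.FG.Crt.L

open Pool.Agent.helper31.IA (Z Op)
open Pool.Agent.helper31.IC

mutual
theorem c32_50b_m12_t0 : CovD 0 progs [(52501680226304, 2473901162496), (377957122048, 68719476736), (1039382085632, 8589934592), (996432412672, 34359738368)] :=
  Pool.Agent.helper14.QF.covD_F chks_eq (.n 1 (.n 0 (.n 1 (.n 1 (.l 3) (.n 0 (.l 3) (.l 3))) (.n 0 (.n 1 (.l 3) (.l 3)) (.n 1 (.l 3) (.l 3)))) (.n 0 (.n 1 (.n 1 (.l 3) (.l 3)) (.n 1 (.l 3) (.l 3))) (.n 1 (.n 1 (.l 3) (.l 3)) (.n 1 (.l 3) (.l 3))))) (.n 3 (.l 10) (.n 1 (.n 1 (.n 0 (.n 0 (.l 3) (.l 3)) (.n 0 (.l 3) (.l 3))) (.n 1 (.n 0 (.l 3) (.l 3)) (.l 10))) (.l 10))))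
    [(52501680226304, 2473901162496), (377957122048, 68719476736), (1039382085632, 8589934592), (996432412672, 34359738368)] rfl (by decide +kernel)
theorem c32_50b_m12_t1 : CovD 0 progs [(51264729645056, 1236950581248), (377957122048, 68719476736), (1039382085632, 8589934592), (1047972020224, 17179869184)] :=
  Pool.Agent.helper14.QF.covD_F chks_eq (.n 1 (.n 1 (.n 1 (.l 3) (.l 3)) (.n 1 (.l 3) (.l 3))) (.n 0 (.n 1 (.n 1 (.l 3) (.l 3)) (.n 1 (.l 3) (.l 3))) (.n 1 (.n 1 (.l 3) (.l 3)) (.n 1 (.l 3) (.l 3)))))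
    [(51264729645056, 1236950581248), (377957122048, 68719476736), (1039382085632, 8589934592), (1047972020224, 17179869184)] rfl (by decide +kernel)
end
mutual
theorem c32_50b_m12_t2 : CovD 0 progs [(53738630807552, 1236950581248), (377957122048, 68719476736), (1039382085632, 8589934592), (1047972020224, 17179869184)] :=
  Pool.Agent.helper14.QF.covD_F chks_eq (.n 1 (.n 1 (.n 1 (.l 3) (.l 3)) (.n 1 (.l 3) (.n 0 (.l 3) (.l 3)))) (.n 0 (.n 1 (.n 1 (.l 3) (.l 3)) (.n 1 (.l 3) (.l 3))) (.n 1 (.n 1 (.l 3) (.l 3)) (.n 1 (.l 3) (.l 3)))))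
    [(53738630807552, 1236950581248), (377957122048, 68719476736), (1039382085632, 8589934592), (1047972020224, 17179869184)] rfl (by decide +kernel)
theorem c32_50b_m12_t4 : CovD 0 progs [(52501680226304, 2473901162496), (377957122048, 68719476736), (1039382085632, 8589934592), (1082331758592, 17179869184)] :=
  Pool.Agent.helper14.QF.covD_F chks_eq (.n 1 (.n 1 (.n 0 (.n 1 (.l 3) (.l 3)) (.n 1 (.l 3) (.l 3))) (.n 3 (.n 0 (.n 1 (.l 3) (.l 3)) (.n 1 (.l 3) (.l 3))) (.l 13))) (.n 1 (.n 3 (.n 0 (.n 1 (.l 3) (.l 3)) (.n 1 (.l 3) (.n 0 (.l 3) (.l 3)))) (.l 13)) (.n 1 (.n 0 (.n 0 (.l 3) (.l 3)) (.n 0 (.l 3) (.l 3))) (.l 13))))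
    [(52501680226304, 2473901162496), (377957122048, 68719476736), (1039382085632, 8589934592), (1082331758592, 17179869184)] rfl (by decide +kernel)
end
mutual
theorem c32_50b_m12_t7 : CovD 0 progs [(52501680226304, 2473901162496), (377957122048, 68719476736), (1056561954816, 8589934592), (979252543488, 17179869184)] :=
  Pool.Agent.helper14.QF.covD_F chks_eq (.n 1 (.n 0 (.n 1 (.n 1 (.l 3) (.l 3)) (.n 1 (.l 3) (.l 3))) (.n 1 (.n 1 (.l 3) (.l 3)) (.n 1 (.l 3) (.l 3)))) (.n 1 (.n 1 (.n 0 (.l 3) (.n 0 (.l 3) (.l 3))) (.l 10)) (.l 10)))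
    [(52501680226304, 2473901162496), (377957122048, 68719476736), (1056561954816, 8589934592), (979252543488, 17179869184)] rfl (by decide +kernel)
theorem c32_50b_m12_t8 : CovD 0 progs [(51264729645056, 1236950581248), (377957122048, 68719476736), (1056561954816, 8589934592), (1013612281856, 17179869184)] :=
  Pool.Agent.helper14.QF.covD_F chks_eq (.n 1 (.n 1 (.n 1 (.l 3) (.l 3)) (.n 1 (.l 3) (.l 3))) (.n 0 (.n 1 (.n 1 (.l 3) (.l 3)) (.n 1 (.l 3) (.l 3))) (.n 1 (.n 1 (.l 3) (.l 3)) (.n 1 (.l 3) (.l 3)))))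
    [(51264729645056, 1236950581248), (377957122048, 68719476736), (1056561954816, 8589934592), (1013612281856, 17179869184)] rfl (by decide +kernel)
end
mutual
theorem c32_50b_m12_t9 : CovD 0 progs [(53738630807552, 1236950581248), (377957122048, 68719476736), (1056561954816, 8589934592), (1013612281856, 17179869184)] :=
  Pool.Agent.helper14.QF.covD_F chks_eq (.n 1 (.n 1 (.n 1 (.l 3) (.l 3)) (.n 1 (.l 3) (.n 0 (.l 3) (.l 3)))) (.n 0 (.n 1 (.n 1 (.l 3) (.l 3)) (.n 1 (.l 3) (.l 5))) (.n 1 (.n 1 (.l 3) (.l 3)) (.n 1 (.l 3) (.l 5)))))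
    [(53738630807552, 1236950581248), (377957122048, 68719476736), (1056561954816, 8589934592), (1013612281856, 17179869184)] rfl (by decide +kernel)
theorem c32_50b_m12_t12 : CovD 0 progs [(51264729645056, 1236950581248), (377957122048, 68719476736), (1056561954816, 8589934592), (1047972020224, 17179869184)] :=
  Pool.Agent.helper14.QF.covD_F chks_eq (.n 1 (.n 1 (.n 1 (.l 3) (.l 3)) (.n 1 (.l 3) (.n 0 (.l 3) (.l 3)))) (.n 0 (.n 1 (.n 1 (.l 3) (.l 3)) (.n 1 (.l 3) (.l 3))) (.n 1 (.n 1 (.l 3) (.l 3)) (.n 1 (.l 3) (.l 3)))))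
    [(51264729645056, 1236950581248), (377957122048, 68719476736), (1056561954816, 8589934592), (1047972020224, 17179869184)] rfl (by decide +kernel)
end
mutual
theorem c32_50b_m12_t13 : CovD 0 progs [(53738630807552, 1236950581248), (377957122048, 68719476736), (1056561954816, 8589934592), (1047972020224, 17179869184)] :=
  Pool.Agent.helper14.QF.covD_F chks_eq (.n 1 (.n 1 (.n 1 (.l 3) (.l 3)) (.n 0 (.n 1 (.l 3) (.l 3)) (.n 1 (.l 3) (.l 3)))) (.n 0 (.n 1 (.n 1 (.l 3) (.l 3)) (.n 1 (.l 3) (.l 3))) (.n 1 (.n 1 (.l 3) (.l 3)) (.n 1 (.l 3) (.l 3)))))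
    [(53738630807552, 1236950581248), (377957122048, 68719476736), (1056561954816, 8589934592), (1047972020224, 17179869184)] rfl (by decide +kernel)
theorem c32_50b_m12_t15 : CovD 0 progs [(52501680226304, 2473901162496), (377957122048, 68719476736), (1056561954816, 8589934592), (1082331758592, 17179869184)] :=
  Pool.Agent.helper14.QF.covD_F chks_eq (.n 1 (.n 3 (.n 0 (.n 1 (.n 1 (.l 3) (.l 3)) (.n 1 (.l 3) (.l 3))) (.n 1 (.n 1 (.l 3) (.l 3)) (.n 1 (.l 3) (.l 3)))) (.l 13)) (.n 1 (.n 3 (.n 3 (.n 0 (.n 1 (.l 3) (.l 3)) (.n 1 (.l 3) (.l 3))) (.l 13)) (.l 13)) (.n 1 (.n 0 (.n 0 (.l 3) (.l 3)) (.n 0 (.l 3) (.l 3))) (.l 13))))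
    [(52501680226304, 2473901162496), (377957122048, 68719476736), (1056561954816, 8589934592), (1082331758592, 17179869184)] rfl (by decide +kernel)
end
mutual
theorem c32_50b_m12_t19 : CovD 0 progs [(51264729645056, 1236950581248), (377957122048, 68719476736), (1073741824000, 8589934592), (996432412672, 34359738368)] :=
  Pool.Agent.helper14.QF.covD_F chks_eq (.n 1 (.n 0 (.n 1 (.n 1 (.l 3) (.l 3)) (.n 1 (.l 3) (.l 3))) (.n 1 (.n 1 (.l 3) (.l 3)) (.n 1 (.l 3) (.l 3)))) (.n 1 (.n 0 (.n 1 (.l 3) (.n 0 (.l 3) (.l 3))) (.n 0 (.n 1 (.l 3) (.l 3)) (.n 1 (.l 3) (.l 3)))) (.n 3 (.l 10) (.n 0 (.n 1 (.l 3) (.l 3)) (.n 1 (.l 3) (.l 3))))))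
    [(51264729645056, 1236950581248), (377957122048, 68719476736), (1073741824000, 8589934592), (996432412672, 34359738368)] rfl (by decide +kernel)
theorem c32_50b_m12_t20 : CovD 0 progs [(53738630807552, 1236950581248), (377957122048, 68719476736), (1073741824000, 8589934592), (996432412672, 34359738368)] :=
  Pool.Agent.helper14.QF.covD_F chks_eq (.n 1 (.n 0 (.n 1 (.n 1 (.l 3) (.l 3)) (.n 1 (.l 3) (.l 3))) (.n 1 (.n 1 (.l 3) (.l 3)) (.n 1 (.l 3) (.n 0 (.l 3) (.l 3))))) (.n 1 (.n 0 (.n 0 (.n 1 (.l 3) (.l 3)) (.n 1 (.l 3) (.l 3))) (.n 0 (.n 1 (.l 3) (.l 3)) (.n 1 (.l 3) (.l 3)))) (.n 3 (.l 10) (.n 0 (.n 1 (.l 3) (.l 3)) (.n 1 (.l 3) (.l 3))))))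
    [(53738630807552, 1236950581248), (377957122048, 68719476736), (1073741824000, 8589934592), (996432412672, 34359738368)] rfl (by decide +kernel)
end
mutual
theorem c32_50b_m12_t22 : CovD 0 progs [(51264729645056, 1236950581248), (377957122048, 68719476736), (1073741824000, 8589934592), (1047972020224, 17179869184)] :=
  Pool.Agent.helper14.QF.covD_F chks_eq (.n 1 (.n 1 (.n 1 (.l 3) (.l 3)) (.n 0 (.n 1 (.l 3) (.l 3)) (.n 1 (.l 3) (.l 3)))) (.n 0 (.n 1 (.n 1 (.l 3) (.l 3)) (.n 1 (.l 3) (.l 3))) (.n 1 (.n 1 (.l 3) (.l 3)) (.n 1 (.l 3) (.l 3)))))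
    [(51264729645056, 1236950581248), (377957122048, 68719476736), (1073741824000, 8589934592), (1047972020224, 17179869184)] rfl (by decide +kernel)
theorem c32_50b_m12_t23 : CovD 0 progs [(53738630807552, 1236950581248), (377957122048, 68719476736), (1073741824000, 8589934592), (1047972020224, 17179869184)] :=
  Pool.Agent.helper14.QF.covD_F chks_eq (.n 1 (.n 1 (.n 1 (.l 3) (.l 3)) (.n 0 (.n 1 (.l 3) (.l 3)) (.n 1 (.l 3) (.l 3)))) (.n 0 (.n 1 (.n 1 (.l 3) (.l 3)) (.n 1 (.l 3) (.l 3))) (.n 1 (.n 1 (.l 3) (.l 3)) (.n 1 (.l 3) (.n 0 (.l 3) (.l 3))))))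
    [(53738630807552, 1236950581248), (377957122048, 68719476736), (1073741824000, 8589934592), (1047972020224, 17179869184)] rfl (by decide +kernel)
end
mutual
theorem c32_50b_m12_t25 : CovD 0 progs [(52501680226304, 2473901162496), (377957122048, 68719476736), (1073741824000, 8589934592), (1082331758592, 17179869184)] :=
  Pool.Agent.helper14.QF.covD_F chks_eq (.n 1 (.n 3 (.n 0 (.n 1 (.n 1 (.l 3) (.l 3)) (.n 1 (.l 3) (.l 3))) (.n 1 (.n 1 (.l 3) (.l 3)) (.n 1 (.l 3) (.n 0 (.l 3) (.l 3))))) (.l 13)) (.n 1 (.n 1 (.n 0 (.n 0 (.l 3) (.l 3)) (.n 0 (.l 3) (.l 3))) (.n 0 (.n 0 (.l 3) (.l 3)) (.n 0 (.l 3) (.l 3)))) (.n 1 (.n 1 (.n 0 (.l 3) (.n 0 (.l 3) (.l 3))) (.l 13)) (.l 13))))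
    [(52501680226304, 2473901162496), (377957122048, 68719476736), (1073741824000, 8589934592), (1082331758592, 17179869184)] rfl (by decide +kernel)
theorem c32_50b_m12_t28 : CovD 0 progs [(51264729645056, 1236950581248), (377957122048, 68719476736), (1090921693184, 8589934592), (996432412672, 34359738368)] :=
  Pool.Agent.helper14.QF.covD_F chks_eq (.n 0 (.n 1 (.n 1 (.n 1 (.l 3) (.l 3)) (.n 1 (.l 3) (.l 3))) (.n 1 (.n 0 (.n 1 (.l 3) (.l 3)) (.n 1 (.l 3) (.l 3))) (.n 1 (.n 0 (.l 3) (.l 3)) (.n 1 (.l 3) (.l 5))))) (.n 1 (.n 1 (.n 1 (.l 3) (.l 3)) (.n 1 (.l 3) (.l 3))) (.n 1 (.n 0 (.n 1 (.l 3) (.l 3)) (.n 1 (.l 3) (.l 3))) (.n 1 (.n 1 (.l 3) (.l 3)) (.n 1 (.l 3) (.l 5))))))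
    [(51264729645056, 1236950581248), (377957122048, 68719476736), (1090921693184, 8589934592), (996432412672, 34359738368)] rfl (by decide +kernel)
end
mutual
theorem c32_50b_m12_t29 : CovD 0 progs [(53120155516928, 618475290624), (377957122048, 68719476736), (1090921693184, 8589934592), (996432412672, 34359738368)] :=
  Pool.Agent.helper14.QF.covD_F chks_eq (.n 1 (.n 1 (.n 1 (.l 3) (.l 3)) (.n 1 (.l 3) (.n 0 (.l 3) (.l 3)))) (.n 1 (.n 0 (.n 1 (.l 3) (.l 3)) (.n 1 (.l 3) (.l 3))) (.n 1 (.n 1 (.l 3) (.l 3)) (.n 1 (.l 5) (.l 5)))))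
    [(53120155516928, 618475290624), (377957122048, 68719476736), (1090921693184, 8589934592), (996432412672, 34359738368)] rfl (by decide +kernel)
theorem c32_50b_m12_t30 : CovD 0 progs [(54357106098176, 618475290624), (377957122048, 68719476736), (1090921693184, 8589934592), (996432412672, 34359738368)] :=
  Pool.Agent.helper14.QF.covD_F chks_eq (.n 1 (.n 1 (.n 1 (.l 3) (.l 3)) (.n 1 (.l 3) (.n 0 (.l 3) (.l 3)))) (.n 1 (.n 1 (.n 0 (.l 3) (.l 3)) (.n 1 (.l 3) (.l 3))) (.n 1 (.n 1 (.l 3) (.l 3)) (.n 3 (.l 5) (.l 3)))))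
    [(54357106098176, 618475290624), (377957122048, 68719476736), (1090921693184, 8589934592), (996432412672, 34359738368)] rfl (by decide +kernel)
end
mutual
theorem c32_50b_m12_t33 : CovD 0 progs [(51264729645056, 1236950581248), (377957122048, 68719476736), (1090921693184, 8589934592), (1047972020224, 17179869184)] :=
  Pool.Agent.helper14.QF.covD_F chks_eq (.n 1 (.n 1 (.n 1 (.l 3) (.l 3)) (.n 0 (.n 1 (.l 3) (.l 3)) (.n 1 (.l 3) (.l 3)))) (.n 0 (.n 1 (.n 1 (.l 3) (.l 3)) (.n 1 (.l 3) (.l 3))) (.n 1 (.n 1 (.l 3) (.l 3)) (.n 1 (.l 3) (.l 3)))))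
    [(51264729645056, 1236950581248), (377957122048, 68719476736), (1090921693184, 8589934592), (1047972020224, 17179869184)] rfl (by decide +kernel)
theorem c32_50b_m12_t34 : CovD 0 progs [(53738630807552, 1236950581248), (377957122048, 68719476736), (1090921693184, 8589934592), (1047972020224, 17179869184)] :=
  Pool.Agent.helper14.QF.covD_F chks_eq (.n 1 (.n 1 (.n 1 (.l 3) (.n 0 (.l 3) (.l 3))) (.n 0 (.n 1 (.l 3) (.l 3)) (.n 1 (.l 3) (.l 3)))) (.n 0 (.n 1 (.n 1 (.l 3) (.l 3)) (.n 1 (.l 3) (.n 0 (.l 3) (.l 3)))) (.n 1 (.n 1 (.l 3) (.l 3)) (.n 1 (.l 3) (.n 0 (.l 3) (.l 3))))))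
    [(53738630807552, 1236950581248), (377957122048, 68719476736), (1090921693184, 8589934592), (1047972020224, 17179869184)] rfl (by decide +kernel)
theorem c32_50b_m12_t36 : CovD 0 progs [(52501680226304, 2473901162496), (377957122048, 68719476736), (1090921693184, 8589934592), (1082331758592, 17179869184)] :=
  Pool.Agent.helper14.QF.covD_F chks_eq (.n 3 (.n 1 (.n 0 (.n 1 (.n 1 (.l 3) (.l 3)) (.n 1 (.l 3) (.l 3))) (.n 1 (.n 1 (.l 3) (.l 3)) (.n 1 (.l 3) (.n 0 (.l 3) (.l 3))))) (.n 3 (.n 1 (.n 0 (.n 1 (.l 3) (.l 14)) (.n 1 (.l 14) (.n 0 (.l 3) (.l 3)))) (.l 13)) (.l 13))) (.l 13))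
    [(52501680226304, 2473901162496), (377957122048, 68719476736), (1090921693184, 8589934592), (1082331758592, 17179869184)] rfl (by decide +kernel)
end
theorem c32_50b_m12_t3 : CovD 0 progs [(52501680226304, 2473901162496), (377957122048, 68719476736), (1039382085632, 8589934592), (1047972020224, 17179869184)] :=
  covD_split 0 (by decide +kernel) c32_50b_m12_t1 c32_50b_m12_t2
theorem c32_50b_m12_t5 : CovD 0 progs [(52501680226304, 2473901162496), (377957122048, 68719476736), (1039382085632, 8589934592), (1065151889408, 34359738368)] :=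
  covD_split 3 (by decide +kernel) c32_50b_m12_t3 c32_50b_m12_t4
theorem c32_50b_m12_t6 : CovD 0 progs [(52501680226304, 2473901162496), (377957122048, 68719476736), (1039382085632, 8589934592), (1030792151040, 68719476736)] :=
  covD_split 3 (by decide +kernel) c32_50b_m12_t0 c32_50b_m12_t5
theorem c32_50b_m12_t10 : CovD 0 progs [(52501680226304, 2473901162496), (377957122048, 68719476736), (1056561954816, 8589934592), (1013612281856, 17179869184)] :=
  covD_split 0 (by decide +kernel) c32_50b_m12_t8 c32_50b_m12_t9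
theorem c32_50b_m12_t11 : CovD 0 progs [(52501680226304, 2473901162496), (377957122048, 68719476736), (1056561954816, 8589934592), (996432412672, 34359738368)] :=
  covD_split 3 (by decide +kernel) c32_50b_m12_t7 c32_50b_m12_t10
theorem c32_50b_m12_t14 : CovD 0 progs [(52501680226304, 2473901162496), (377957122048, 68719476736), (1056561954816, 8589934592), (1047972020224, 17179869184)] :=
  covD_split 0 (by decide +kernel) c32_50b_m12_t12 c32_50b_m12_t13
theorem c32_50b_m12_t16 : CovD 0 progs [(52501680226304, 2473901162496), (377957122048, 68719476736), (1056561954816, 8589934592), (1065151889408, 34359738368)] :=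
  covD_split 3 (by decide +kernel) c32_50b_m12_t14 c32_50b_m12_t15
theorem c32_50b_m12_t17 : CovD 0 progs [(52501680226304, 2473901162496), (377957122048, 68719476736), (1056561954816, 8589934592), (1030792151040, 68719476736)] :=
  covD_split 3 (by decide +kernel) c32_50b_m12_t11 c32_50b_m12_t16
theorem c32_50b_m12_t18 : CovD 0 progs [(52501680226304, 2473901162496), (377957122048, 68719476736), (1047972020224, 17179869184), (1030792151040, 68719476736)] :=
  covD_split 2 (by decide +kernel) c32_50b_m12_t6 c32_50b_m12_t17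
theorem c32_50b_m12_t21 : CovD 0 progs [(52501680226304, 2473901162496), (377957122048, 68719476736), (1073741824000, 8589934592), (996432412672, 34359738368)] :=
  covD_split 0 (by decide +kernel) c32_50b_m12_t19 c32_50b_m12_t20
theorem c32_50b_m12_t24 : CovD 0 progs [(52501680226304, 2473901162496), (377957122048, 68719476736), (1073741824000, 8589934592), (1047972020224, 17179869184)] :=
  covD_split 0 (by decide +kernel) c32_50b_m12_t22 c32_50b_m12_t23
theorem c32_50b_m12_t26 : CovD 0 progs [(52501680226304, 2473901162496), (377957122048, 68719476736), (1073741824000, 8589934592), (1065151889408, 34359738368)] :=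
  covD_split 3 (by decide +kernel) c32_50b_m12_t24 c32_50b_m12_t25
theorem c32_50b_m12_t27 : CovD 0 progs [(52501680226304, 2473901162496), (377957122048, 68719476736), (1073741824000, 8589934592), (1030792151040, 68719476736)] :=
  covD_split 3 (by decide +kernel) c32_50b_m12_t21 c32_50b_m12_t26
theorem c32_50b_m12_t31 : CovD 0 progs [(53738630807552, 1236950581248), (377957122048, 68719476736), (1090921693184, 8589934592), (996432412672, 34359738368)] :=
  covD_split 0 (by decide +kernel) c32_50b_m12_t29 c32_50b_m12_t30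
theorem c32_50b_m12_t32 : CovD 0 progs [(52501680226304, 2473901162496), (377957122048, 68719476736), (1090921693184, 8589934592), (996432412672, 34359738368)] :=
  covD_split 0 (by decide +kernel) c32_50b_m12_t28 c32_50b_m12_t31
theorem c32_50b_m12_t35 : CovD 0 progs [(52501680226304, 2473901162496), (377957122048, 68719476736), (1090921693184, 8589934592), (1047972020224, 17179869184)] :=
  covD_split 0 (by decide +kernel) c32_50b_m12_t33 c32_50b_m12_t34
theorem c32_50b_m12_t37 : CovD 0 progs [(52501680226304, 2473901162496), (377957122048, 68719476736), (1090921693184, 8589934592), (1065151889408, 34359738368)] :=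
  covD_split 3 (by decide +kernel) c32_50b_m12_t35 c32_50b_m12_t36
theorem c32_50b_m12_t38 : CovD 0 progs [(52501680226304, 2473901162496), (377957122048, 68719476736), (1090921693184, 8589934592), (1030792151040, 68719476736)] :=
  covD_split 3 (by decide +kernel) c32_50b_m12_t32 c32_50b_m12_t37
theorem c32_50b_m12_t39 : CovD 0 progs [(52501680226304, 2473901162496), (377957122048, 68719476736), (1082331758592, 17179869184), (1030792151040, 68719476736)] :=
  covD_split 2 (by decide +kernel) c32_50b_m12_t27 c32_50b_m12_t38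
theorem c32_50b_m12 : CovD 0 progs [(52501680226304, 2473901162496), (377957122048, 68719476736), (1065151889408, 34359738368), (1030792151040, 68719476736)] :=
  covD_split 2 (by decide +kernel) c32_50b_m12_t18 c32_50b_m12_t39

end Pool.Agent.helper71.FG.Crt.L
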