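import Pool.Agent.helper71.FG.Crt.LP

/-!
Generated certificates.
-/

namespace Pool.Agent.helper71.FG.Crt.L

open Pool.Agent.helper31.IA (Z Op)
open Pool.Agent.helper31.IC

mutual
theorem c40_50_m0_t0 : CovD 0 progs [(46729244180480, 2748779069440), (19327352832, 19327352832), (549755813888, 549755813888), (549755813888, 549755813888)] :=
  Pool.Agent.helper14.QF.covD_F chks_eq (.n 1 (.n 1 (.l 11) (.n 2 (.l 11) (.n 2 (.l 0) (.l 0)))) (.n 1 (.n 2 (.n 2 (.l 11) (.n 2 (.l 0) (.l 0))) (.n 2 (.n 1 (.l 0) (.l 2)) (.n 2 (.l 2) (.l 2)))) (.n 2 (.n 2 (.l 11) (.n 2 (.l 2) (.l 2))) (.n 2 (.n 2 (.l 2) (.l 2)) (.n 2 (.l 4) (.l 4))))))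
    [(46729244180480, 2748779069440), (19327352832, 19327352832), (549755813888, 549755813888), (549755813888, 549755813888)] rfl (by decide +kernel)
theorem c40_50_m0_t1 : CovD 0 progs [(45354854645760, 1374389534720), (48318382080, 9663676416), (549755813888, 549755813888), (549755813888, 549755813888)] :=
  Pool.Agent.helper14.QF.covD_F chks_eq (.n 2 (.n 2 (.n 2 (.l 2) (.l 2)) (.n 2 (.l 2) (.n 1 (.l 2) (.l 2)))) (.n 2 (.n 2 (.n 3 (.l 2) (.l 2)) (.n 3 (.l 4) (.l 3))) (.n 1 (.n 2 (.l 4) (.l 4)) (.n 2 (.l 4) (.l 4)))))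
    [(45354854645760, 1374389534720), (48318382080, 9663676416), (549755813888, 549755813888), (549755813888, 549755813888)] rfl (by decide +kernel)
end
mutual
theorem c40_50_m0_t2 : CovD 0 progs [(48103633715200, 1374389534720), (48318382080, 9663676416), (549755813888, 549755813888), (549755813888, 549755813888)] :=
  Pool.Agent.helper14.QF.covD_F chks_eq (.n 2 (.n 2 (.n 2 (.l 2) (.l 2)) (.n 2 (.l 2) (.n 1 (.l 2) (.l 4)))) (.n 2 (.n 2 (.n 3 (.l 4) (.l 4)) (.n 1 (.l 4) (.n 2 (.l 4) (.l 4)))) (.n 1 (.n 2 (.l 4) (.l 4)) (.n 2 (.l 9) (.l 4)))))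
    [(48103633715200, 1374389534720), (48318382080, 9663676416), (549755813888, 549755813888), (549755813888, 549755813888)] rfl (by decide +kernel)
theorem c40_50_m0_t4 : CovD 0 progs [(46729244180480, 2748779069440), (67645734912, 9663676416), (549755813888, 549755813888), (549755813888, 549755813888)] :=
  Pool.Agent.helper14.QF.covD_F chks_eq (.n 2 (.n 2 (.n 2 (.l 2) (.n 2 (.l 2) (.l 2))) (.n 2 (.n 2 (.l 2) (.l 4)) (.n 1 (.n 3 (.l 2) (.l 2)) (.n 3 (.l 4) (.l 4))))) (.n 2 (.n 2 (.n 1 (.n 3 (.l 4) (.l 4)) (.n 3 (.l 4) (.n 2 (.l 2) (.l 4)))) (.n 3 (.n 0 (.l 4) (.l 9)) (.n 3 (.l 4) (.l 3)))) (.n 2 (.n 3 (.l 4) (.n 1 (.l 3) (.l 4))) (.n 3 (.l 4) (.l 3)))))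
    [(46729244180480, 2748779069440), (67645734912, 9663676416), (549755813888, 549755813888), (549755813888, 549755813888)] rfl (by decide +kernel)
end
mutual
theorem c40_50_m0_t7 : CovD 0 progs [(46729244180480, 2748779069440), (86973087744, 9663676416), (274877906944, 274877906944), (549755813888, 549755813888)] :=
  Pool.Agent.helper14.QF.covD_F chks_eq (.n 2 (.n 2 (.l 11) (.n 2 (.l 2) (.l 2))) (.n 2 (.n 2 (.n 2 (.l 2) (.l 4)) (.n 3 (.l 2) (.l 2))) (.n 2 (.n 3 (.l 4) (.n 0 (.l 2) (.l 4))) (.n 3 (.n 0 (.l 4) (.l 4)) (.n 3 (.l 4) (.l 2))))))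
    [(46729244180480, 2748779069440), (86973087744, 9663676416), (274877906944, 274877906944), (549755813888, 549755813888)] rfl (by decide +kernel)
theorem c40_50_m0_t8 : CovD 0 progs [(46729244180480, 2748779069440), (86973087744, 9663676416), (824633720832, 274877906944), (549755813888, 549755813888)] :=
  Pool.Agent.helper14.QF.covD_F chks_eq (.n 2 (.n 3 (.n 0 (.n 2 (.n 1 (.l 4) (.l 4)) (.l 4)) (.n 2 (.n 2 (.l 4) (.l 4)) (.l 4))) (.n 3 (.n 2 (.n 1 (.l 4) (.l 4)) (.l 4)) (.n 1 (.n 2 (.l 3) (.l 3)) (.n 2 (.l 3) (.l 3))))) (.n 2 (.n 3 (.l 4) (.n 0 (.l 8) (.l 8))) (.n 3 (.l 4) (.n 1 (.l 3) (.l 4)))))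
    [(46729244180480, 2748779069440), (86973087744, 9663676416), (824633720832, 274877906944), (549755813888, 549755813888)] rfl (by decide +kernel)
end
mutual
theorem c40_50_m0_t10 : CovD 0 progs [(46729244180480, 2748779069440), (106300440576, 9663676416), (274877906944, 274877906944), (549755813888, 549755813888)] :=
  Pool.Agent.helper14.QF.covD_F chks_eq (.n 2 (.n 2 (.n 2 (.l 2) (.l 2)) (.n 2 (.l 2) (.n 1 (.l 2) (.l 4)))) (.n 2 (.n 2 (.n 3 (.l 2) (.l 4)) (.n 3 (.n 0 (.l 2) (.l 4)) (.n 3 (.l 2) (.l 2)))) (.n 2 (.n 3 (.n 3 (.l 4) (.l 4)) (.n 3 (.l 4) (.l 4))) (.n 3 (.n 3 (.l 4) (.l 9)) (.n 3 (.l 4) (.l 4))))))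
    [(46729244180480, 2748779069440), (106300440576, 9663676416), (274877906944, 274877906944), (549755813888, 549755813888)] rfl (by decide +kernel)
theorem c40_50_m0_t11 : CovD 0 progs [(46729244180480, 2748779069440), (106300440576, 9663676416), (824633720832, 274877906944), (549755813888, 549755813888)] :=
  Pool.Agent.helper14.QF.covD_F chks_eq (.n 2 (.n 3 (.n 1 (.n 2 (.n 2 (.l 4) (.l 4)) (.l 4)) (.n 2 (.n 2 (.l 4) (.l 4)) (.l 4))) (.n 3 (.n 2 (.n 2 (.l 4) (.l 4)) (.l 4)) (.n 2 (.n 2 (.l 4) (.l 3)) (.n 0 (.l 3) (.l 3))))) (.n 2 (.n 3 (.l 4) (.n 1 (.l 4) (.l 4))) (.n 2 (.n 3 (.l 4) (.l 4)) (.n 3 (.l 4) (.n 1 (.l 3) (.l 4))))))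
    [(46729244180480, 2748779069440), (106300440576, 9663676416), (824633720832, 274877906944), (549755813888, 549755813888)] rfl (by decide +kernel)
end
mutual
theorem c40_50_m0_t14 : CovD 0 progs [(46729244180480, 2748779069440), (125627793408, 9663676416), (137438953472, 137438953472), (549755813888, 549755813888)] :=
  Pool.Agent.helper14.QF.covD_F chks_eq (.n 2 (.n 2 (.l 2) (.l 2)) (.n 2 (.n 1 (.l 2) (.l 4)) (.n 3 (.l 2) (.l 2))))
    [(46729244180480, 2748779069440), (125627793408, 9663676416), (137438953472, 137438953472), (549755813888, 549755813888)] rfl (by decide +kernel)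
theorem c40_50_m0_t15 : CovD 0 progs [(46729244180480, 2748779069440), (125627793408, 9663676416), (343597383680, 68719476736), (549755813888, 549755813888)] :=
  Pool.Agent.helper14.QF.covD_F chks_eq (.n 2 (.n 3 (.n 1 (.l 2) (.l 4)) (.n 3 (.l 2) (.l 2))) (.n 3 (.n 0 (.n 2 (.l 2) (.l 4)) (.n 3 (.l 4) (.l 4))) (.n 3 (.l 4) (.l 4))))
    [(46729244180480, 2748779069440), (125627793408, 9663676416), (343597383680, 68719476736), (549755813888, 549755813888)] rfl (by decide +kernel)
end
mutual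
theorem c40_50_m0_t16 : CovD 0 progs [(46729244180480, 2748779069440), (125627793408, 9663676416), (481036337152, 68719476736), (549755813888, 549755813888)] :=
  Pool.Agent.helper14.QF.covD_F chks_eq (.n 2 (.n 1 (.n 3 (.n 2 (.l 4) (.l 4)) (.n 3 (.l 4) (.l 4))) (.n 3 (.n 3 (.l 4) (.l 4)) (.n 3 (.l 4) (.l 4)))) (.n 3 (.n 3 (.l 9) (.n 0 (.l 4) (.l 4))) (.n 0 (.n 3 (.l 4) (.l 4)) (.n 3 (.l 4) (.l 4)))))
    [(46729244180480, 2748779069440), (125627793408, 9663676416), (481036337152, 68719476736), (549755813888, 549755813888)] rfl (by decide +kernel)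
theorem c40_50_m0_t19 : CovD 0 progs [(46729244180480, 2748779069440), (125627793408, 9663676416), (824633720832, 274877906944), (549755813888, 549755813888)] :=
  Pool.Agent.helper14.QF.covD_F chks_eq (.n 2 (.n 2 (.n 3 (.n 2 (.n 1 (.l 8) (.l 8)) (.l 8)) (.n 3 (.n 2 (.l 4) (.l 4)) (.n 3 (.l 9) (.l 4)))) (.n 3 (.n 0 (.l 8) (.l 8)) (.n 3 (.l 4) (.l 8)))) (.n 2 (.n 2 (.n 3 (.l 4) (.l 4)) (.n 3 (.l 4) (.n 0 (.l 4) (.l 4)))) (.n 2 (.n 3 (.l 4) (.n 1 (.l 4) (.l 4))) (.n 3 (.n 3 (.l 4) (.l 4)) (.n 3 (.l 3) (.n 0 (.l 3) (.l 3)))))))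
    [(46729244180480, 2748779069440), (125627793408, 9663676416), (824633720832, 274877906944), (549755813888, 549755813888)] rfl (by decide +kernel)
end
mutual
theorem c40_50_m0_t21 : CovD 0 progs [(46729244180480, 2748779069440), (144955146240, 9663676416), (137438953472, 137438953472), (549755813888, 549755813888)] :=
  Pool.Agent.helper14.QF.covD_F chks_eq (.n 2 (.n 2 (.l 2) (.l 2)) (.n 2 (.n 2 (.l 2) (.l 4)) (.n 2 (.n 3 (.l 2) (.l 2)) (.n 3 (.l 2) (.l 4)))))
    [(46729244180480, 2748779069440), (144955146240, 9663676416), (137438953472, 137438953472), (549755813888, 549755813888)] rfl (by decide +kernel)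
theorem c40_50_m0_t22 : CovD 0 progs [(46729244180480, 2748779069440), (144955146240, 9663676416), (343597383680, 68719476736), (549755813888, 549755813888)] :=
  Pool.Agent.helper14.QF.covD_F chks_eq (.n 2 (.n 3 (.n 2 (.l 4) (.n 3 (.l 2) (.l 4))) (.n 3 (.n 0 (.l 4) (.l 4)) (.l 4))) (.n 2 (.n 3 (.n 3 (.l 4) (.l 4)) (.n 3 (.l 4) (.l 2))) (.n 3 (.n 3 (.l 4) (.n 0 (.l 4) (.l 4))) (.n 3 (.l 4) (.l 4)))))
    [(46729244180480, 2748779069440), (144955146240, 9663676416), (343597383680, 68719476736), (549755813888, 549755813888)] rfl (by decide +kernel)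
end
mutual
theorem c40_50_m0_t23 : CovD 0 progs [(46729244180480, 2748779069440), (144955146240, 9663676416), (481036337152, 68719476736), (549755813888, 549755813888)] :=
  Pool.Agent.helper14.QF.covD_F chks_eq (.n 2 (.n 2 (.n 3 (.n 3 (.l 4) (.l 9)) (.n 3 (.l 9) (.l 4))) (.n 3 (.n 3 (.l 4) (.l 8)) (.n 3 (.l 8) (.l 4)))) (.n 2 (.n 3 (.n 3 (.l 4) (.l 4)) (.n 3 (.l 4) (.l 4))) (.n 3 (.n 0 (.l 8) (.l 8)) (.n 3 (.l 4) (.l 4)))))
    [(46729244180480, 2748779069440), (144955146240, 9663676416), (481036337152, 68719476736), (549755813888, 549755813888)] rfl (by decide +kernel)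
theorem c40_50_m0_t26 : CovD 0 progs [(46729244180480, 2748779069440), (144955146240, 9663676416), (687194767360, 137438953472), (549755813888, 549755813888)] :=
  Pool.Agent.helper14.QF.covD_F chks_eq (.n 2 (.n 3 (.n 2 (.n 1 (.l 8) (.l 8)) (.l 8)) (.n 3 (.n 2 (.l 8) (.l 4)) (.n 3 (.l 9) (.l 9)))) (.n 2 (.n 3 (.l 4) (.n 3 (.l 4) (.l 3))) (.n 3 (.l 4) (.l 8))))
    [(46729244180480, 2748779069440), (144955146240, 9663676416), (687194767360, 137438953472), (549755813888, 549755813888)] rfl (by decide +kernel)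
theorem c40_50_m0_t27 : CovD 0 progs [(46729244180480, 2748779069440), (144955146240, 9663676416), (962072674304, 137438953472), (549755813888, 549755813888)] :=
  Pool.Agent.helper14.QF.covD_F chks_eq (.n 2 (.n 2 (.n 3 (.l 4) (.l 4)) (.n 3 (.n 3 (.l 4) (.l 4)) (.n 1 (.l 4) (.l 4)))) (.n 2 (.n 3 (.n 3 (.l 4) (.l 4)) (.n 3 (.l 4) (.n 0 (.l 3) (.l 3)))) (.n 1 (.n 3 (.n 3 (.l 4) (.l 4)) (.n 3 (.l 3) (.l 3))) (.n 3 (.n 3 (.l 15) (.l 4)) (.n 3 (.l 3) (.n 0 (.l 3) (.l 3)))))))
    [(46729244180480, 2748779069440), (144955146240, 9663676416), (962072674304, 137438953472), (549755813888, 549755813888)] rfl (by decide +kernel)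
end
theorem c40_50_m0_t3 : CovD 0 progs [(46729244180480, 2748779069440), (48318382080, 9663676416), (549755813888, 549755813888), (549755813888, 549755813888)] :=
  covD_split 0 (by decide +kernel) c40_50_m0_t1 c40_50_m0_t2
theorem c40_50_m0_t5 : CovD 0 progs [(46729244180480, 2748779069440), (57982058496, 19327352832), (549755813888, 549755813888), (549755813888, 549755813888)] :=
  covD_split 1 (by decide +kernel) c40_50_m0_t3 c40_50_m0_t4
theorem c40_50_m0_t6 : CovD 0 progs [(46729244180480, 2748779069440), (38654705664, 38654705664), (549755813888, 549755813888), (549755813888, 549755813888)] :=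
  covD_split 1 (by decide +kernel) c40_50_m0_t0 c40_50_m0_t5
theorem c40_50_m0_t9 : CovD 0 progs [(46729244180480, 2748779069440), (86973087744, 9663676416), (549755813888, 549755813888), (549755813888, 549755813888)] :=
  covD_split 2 (by decide +kernel) c40_50_m0_t7 c40_50_m0_t8
theorem c40_50_m0_t12 : CovD 0 progs [(46729244180480, 2748779069440), (106300440576, 9663676416), (549755813888, 549755813888), (549755813888, 549755813888)] :=
  covD_split 2 (by decide +kernel) c40_50_m0_t10 c40_50_m0_t11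
theorem c40_50_m0_t13 : CovD 0 progs [(46729244180480, 2748779069440), (96636764160, 19327352832), (549755813888, 549755813888), (549755813888, 549755813888)] :=
  covD_split 1 (by decide +kernel) c40_50_m0_t9 c40_50_m0_t12
theorem c40_50_m0_t17 : CovD 0 progs [(46729244180480, 2748779069440), (125627793408, 9663676416), (412316860416, 137438953472), (549755813888, 549755813888)] :=
  covD_split 2 (by decide +kernel) c40_50_m0_t15 c40_50_m0_t16
theorem c40_50_m0_t18 : CovD 0 progs [(46729244180480, 2748779069440), (125627793408, 9663676416), (274877906944, 274877906944), (549755813888, 549755813888)] :=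
  covD_split 2 (by decide +kernel) c40_50_m0_t14 c40_50_m0_t17
theorem c40_50_m0_t20 : CovD 0 progs [(46729244180480, 2748779069440), (125627793408, 9663676416), (549755813888, 549755813888), (549755813888, 549755813888)] :=
  covD_split 2 (by decide +kernel) c40_50_m0_t18 c40_50_m0_t19
theorem c40_50_m0_t24 : CovD 0 progs [(46729244180480, 2748779069440), (144955146240, 9663676416), (412316860416, 137438953472), (549755813888, 549755813888)] :=
  covD_split 2 (by decide +kernel) c40_50_m0_t22 c40_50_m0_t23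
theorem c40_50_m0_t25 : CovD 0 progs [(46729244180480, 2748779069440), (144955146240, 9663676416), (274877906944, 274877906944), (549755813888, 549755813888)] :=
  covD_split 2 (by decide +kernel) c40_50_m0_t21 c40_50_m0_t24
theorem c40_50_m0_t28 : CovD 0 progs [(46729244180480, 2748779069440), (144955146240, 9663676416), (824633720832, 274877906944), (549755813888, 549755813888)] :=
  covD_split 2 (by decide +kernel) c40_50_m0_t26 c40_50_m0_t27
theorem c40_50_m0_t29 : CovD 0 progs [(46729244180480, 2748779069440), (144955146240, 9663676416), (549755813888, 549755813888), (549755813888, 549755813888)] :=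
  covD_split 2 (by decide +kernel) c40_50_m0_t25 c40_50_m0_t28
theorem c40_50_m0_t30 : CovD 0 progs [(46729244180480, 2748779069440), (135291469824, 19327352832), (549755813888, 549755813888), (549755813888, 549755813888)] :=
  covD_split 1 (by decide +kernel) c40_50_m0_t20 c40_50_m0_t29
theorem c40_50_m0_t31 : CovD 0 progs [(46729244180480, 2748779069440), (115964116992, 38654705664), (549755813888, 549755813888), (549755813888, 549755813888)] :=
  covD_split 1 (by decide +kernel) c40_50_m0_t13 c40_50_m0_t30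
theorem c40_50_m0 : CovD 0 progs [(46729244180480, 2748779069440), (77309411328, 77309411328), (549755813888, 549755813888), (549755813888, 549755813888)] :=
  covD_split 1 (by decide +kernel) c40_50_m0_t6 c40_50_m0_t31

end Pool.Agent.helper71.FG.Crt.L
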