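import Pool.Agent.helper31.IC.EngD
import Pool.Agent.helper14.QF.Inst

/-!
Generated: straight line program(s) and compiled form(s).
-/

namespace Pool.Agent.helper71.FG.Crt.X

open Pool.Agent.helper31.IA (Z Op)
open Pool.Agent.helper31.IC

set_option maxRecDepth 100000

abbrev opsE : Ops := Pool.Agent.helper14.QF.opsF

def prog0 : List Op := [
  .const ⟨1099511627776, 0, 0, 0⟩,
  .const ⟨549755813888, 0, 0, 0⟩,
  .mul 3 4,
  .mul 0 6,
  .scale ⟨549755813888, 0, 0, 0⟩ 0,
  .mul 7 7,
  .mul 1 1,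
  .sub 6 0,
  .inv 0,
  .mul 4 0,
  .scale ⟨2199023255552, 0, 0, 0⟩ 0,
  .scale ⟨2199023255552, 0, 0, 0⟩ 2,
  .sub 0 11,
  .add 0 2,
  .mul 17 5,
  .mul 17 0,
  .sub 15 0,
  .add 16 1,
  .scale ⟨10774999203840, 0, 0, 0⟩ 13,
  .scale ⟨45768245248, 0, 0, 0⟩ 0,
  .const ⟨183207198720, 0, 0, 0⟩,
  .add 1 0,
  .mul 3 0,
  .add 21 0,
  .mul 5 0,
  .add 24 0,
  .mul 7 0,
  .scale ⟨549755813888, 0, 0, 0⟩ 0,
  .add 27 0,
  .mul 3 0,
  .mul 31 24,
  .mul 20 15,
  .scale ⟨2199023255552, 0, 0, 0⟩ 19,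
  .add 1 0,
  .add 0 35,
  .mul 4 0,
  .add 0 35,
  .mul 26 26,
  .scale ⟨2199023255552, 0, 0, 0⟩ 0,
  .add 0 38,
  .mul 27 5,
  .sub 0 40,
  .log 5,
  .scale ⟨549755813888, 0, 0, 0⟩ 0,
  .exp 0,
  .scale ⟨549755813888, 0, 0, 0⟩ 45,
  .mul 0 3,
  .neg 0,
  .exp 0,
  .mul 36 18,
  .mul 0 8,
  .scale ⟨4398046511104, 0, 0, 0⟩ 0,
  .add 0 51,
  .log 0,
  .sub 0 11,
  .mul 9 0,
  .neg 0,
  .exp 0,
  .mul 42 47,
  .add 46 0,
  .inv 0,
  .mul 43 0,
  .mul 45 63,
  .mul 0 1,
  .mul 49 49,
  .sub 64 59,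
  .mul 1 0,
  .mul 64 64,
  .add 55 37,
  .inv 0,
  .mul 0 70,
  .mul 0 68,
  .mul 0 0,
  .sub 72 8,
  .mul 8 0,
  .mul 2 0,
  .inv 76,
  .const ⟨45812285440, 0, 0, 0⟩,
  .scale ⟨1527119872, 0, 0, 0⟩ 2,
  .sub 1 0,
  .mul 4 0,
  .sub 79 0,
  .mul 6 0,
  .sub 82 0,
  .add 35 83,
  .mul 36 36,
  .add 0 85,
  .mul 38 3,
  .scale ⟨2199023255552, 0, 0, 0⟩ 0,
  .add 2 0,
  .inv 5,
  .mul 1 0,
  .add 0 7,
  .mul 44 29,
  .scale ⟨549755813888, 0, 0, 0⟩ 0,
  .mul 0 2,
  .sub 6 0,
  .pos 7,
  .pos 0,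
  .inv 0,
  .mul 52 63,
  .const ⟨6597069766656, 0, 0, 0⟩,
  .add 64 0,
  .mul 2 0,
  .scale ⟨4398046511104, 0, 0, 0⟩ 66,
  .add 0 3,
  .inv 0,
  .mul 3 0,
  .mul 75 0,
  .scale ⟨2199023255552, 0, 0, 0⟩ 0,
  .scale ⟨183274307584, 0, 0, 0⟩ 0,
  .sub 107 0,
  .mul 2 0,
  .sub 110 0,
  .mul 6 0,
  .mul 0 15,
  .mul 83 0,
  .add 0 113,
  .inv 0,
  .mul 3 0,
  .mul 87 0,
  .mul 24 4,
  .add 0 118,
  .mul 0 28,
  .inv 32,
  .mul 1 0,
  .mul 60 5,
  .scale ⟨549755813888, 0, 0, 0⟩ 0,
  .sub 125 0,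
  .sub 126 2,
  .inv 0,
  .mul 2 0,
  .add 5 129,
  .mul 82 0,
  .mul 115 114,
  .add 120 134,
  .mul 118 121,
  .mul 0 124,
  .scale ⟨2199023255552, 0, 0, 0⟩ 0,
  .add 97 0,
  .mul 4 0,
  .inv 0,
  .mul 7 0,
  .mul 142 0,
  .inv 105,
  .mul 67 0,
  .scale ⟨1527119872, 0, 0, 0⟩ 0,
  .sub 67 0,
  .mul 2 0,
  .sub 145 0,
  .mul 4 0,
  .sub 148 0,
  .add 92 149,
  .mul 93 93,
  .add 0 151,
  .mul 95 3,
  .scale ⟨2199023255552, 0, 0, 0⟩ 0,
  .add 2 0,
  .inv 5,
  .mul 1 0,
  .add 0 7,
  .mul 101 17,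
  .scale ⟨549755813888, 0, 0, 0⟩ 0,
  .mul 0 2,
  .sub 6 0,
  .pos 7,
  .pos 0,
  .sub 162 105,
  .mul 0 13,
  .inv 2,
  .mul 1 0,
  .scale ⟨549755813888, 0, 0, 0⟩ 0,
  .add 0 166,
  .inv 0,
  .mul 2 0,
  .mul 29 0,
  .add 167 171,
  .inv 0,
  .mul 169 0,
  .scale ⟨2199023255552, 0, 0, 0⟩ 0,
  .sub 175 0,
  .sub 176 172,
  .mul 181 4,
  .mul 0 2,
  .add 162 0,
  .mul 181 170,
  .const ⟨5497558138880, 0, 0, 0⟩,
  .inv 0,
  .mul 183 0,
  .mul 185 0,
  .scale ⟨5497558138880, 0, 0, 0⟩ 109,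
  .scale ⟨224412041216, 0, 0, 0⟩ 178,
  .inv 158,
  .mul 1 0,
  .mul 4 172,
  .mul 0 1,
  .mul 189 0,
  .sub 192 0,
  .inv 0,
  .mul 63 2,
  .sub 195 0,
  .inv 0,
  .const ⟨2199023255552, 0, 0, 0⟩,
  .add 17 0,
  .inv 0,
  .mul 184 201,
  .mul 0 203,
  .mul 0 2,
  .scale ⟨549755813888, 0, 0, 0⟩ 0,
  .sub 204 0,
  .sub 205 2,
  .inv 0,
  .mul 2 0,
  .mul 0 8,
  .mul 0 210,
  .mul 212 196,
  .mul 0 1,
  .mul 9 4,
  .mul 199 3,
  .pos 8,
  .mul 1 138,
  .scale ⟨1374389534720, 0, 0, 0⟩ 0,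
  .sub 215 0,
  .pos 0,
  .scale ⟨3092376453120, 0, 0, 0⟩ 2,
  .add 0 20,
  .mul 4 0,
  .add 220 0,
  .scale ⟨1546188226560, 0, 0, 0⟩ 6,
  .add 0 222,
  .mul 8 0,
  .add 224 0,
  .mul 221 211,
  .sub 226 160,
  .mul 223 212,
  .scale ⟨2199023255552, 0, 0, 0⟩ 0,
  .sub 2 0,
  .mul 4 4,
  .add 1 0,
  .add 0 232,
  .scale ⟨549755813888, 0, 0, 0⟩ 0,
  .scale ⟨549755813888, 0, 0, 0⟩ 204,
  .sub 227 0,
  .mul 169 9,
  .mul 0 230,
  .scale ⟨137438953472, 0, 0, 0⟩ 0,
  .add 3 0,
  .mul 6 0,
  .mul 225 180,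
  .mul 0 240,
  .mul 0 126,
  .mul 0 115,
  .mul 243 0,
  .add 115 246,
  .mul 0 53,
  .mul 117 51,
  .add 1 0,
  .mul 58 0,
  .add 5 0,
  .mul 0 176,
  .mul 6 61,
  .mul 0 60,
  .add 9 0,
  .mul 0 180,
  .scale ⟨223338299392, 0, 0, 0⟩ 0,
  .add 257 0,
  .mul 2 0,
  .add 260 0,
  .scale ⟨893353197568, 0, 0, 0⟩ 8,
  .add 262 0,
  .mul 10 0,
  .add 264 0,
  .mul 90 87,
  .mul 0 45,
  .mul 0 2,
  .mul 27 7,
  .add 225 268,
  .mul 2 0,
  .add 2 0,
  .add 228 272,
  .mul 5 0,
  .mul 49 1,
  .mul 0 97,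
  .mul 0 99,
  .mul 275 97,
  .inv 234,
  .mul 1 0,
  .scale ⟨549755813888, 0, 0, 0⟩ 0,
  .mul 220 279,
  .mul 0 165,
  .mul 0 154,
  .mul 268 3,
  .mul 13 1,
  .mul 9 74,
  .add 1 0,
  .mul 0 212,
  .add 4 0,
  .mul 18 43,
  .mul 0 97,
  .mul 18 161,
  .mul 0 96,
  .add 2 0,
  .mul 0 219,
  .mul 280 6,
  .mul 106 1,
  .add 1 0,
  .mul 232 0,
  .mul 0 21,
  .sub 301 0,
  .inv 0,
  .mul 4 0,
  .mul 306 0,
  .mul 238 1,
  .mul 0 27,
  .sub 307 0,
  .mul 267 0,
  .sub 0 4,
  .inv 0,
  .mul 6 0,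
  .sub 312 7,
  .inv 0,
  .mul 251 197,
  .mul 0 186,
  .add 211 0,
  .mul 0 3,
  .mul 0 12,
  .scale ⟨223338299392, 0, 0, 0⟩ 0,
  .add 319 0,
  .mul 2 0,
  .add 322 0,
  .mul 4 0,
  .mul 0 201,
  .mul 0 194,
  .sub 326 0,
  .mul 9 4,
  .mul 0 25,
  .mul 0 253,
  .inv 3,
  .mul 1 0,
  .mul 0 335,
  .mul 61 139,
  .mul 60 211,
  .mul 0 204,
  .mul 0 139,
  .add 3 0,
  .mul 5 0,
  .mul 67 278,
  .mul 338 227,
  .mul 1 0,
  .mul 0 213,
  .mul 158 341,
  .mul 0 327,
  .mul 0 329,
  .const ⟨3298534883328, 0, 0, 0⟩,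
  .mul 0 164,
  .mul 16 162,
  .mul 0 352,
  .inv 333,
  .mul 1 0,
  .mul 353 229,
  .mul 0 337,
  .mul 357 174,
  .mul 0 76,
  .scale ⟨549755813888, 0, 0, 0⟩ 0,
  .mul 3 0,
  .mul 18 361,
  .mul 0 246,
  .mul 0 231,
  .add 3 0,
  .mul 239 85,
  .mul 0 149,
  .add 2 0,
  .mul 13 0,
  .mul 354 325,
  .scale ⟨4398046511104, 0, 0, 0⟩ 0,
  .sub 0 334,
  .mul 364 0,
  .mul 0 228,
  .mul 372 0,
  .mul 374 1,
  .add 0 175,
  .inv 0,
  .mul 3 0,
  .mul 378 0,
  .scale ⟨549755813888, 0, 0, 0⟩ 0,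
  .sub 378 0,
  .mul 3 0,
  .neg 0,
  .mul 241 211,
  .add 1 0,
  .mul 2 1,
  .mul 386 0,
  .add 2 0,
  .mul 341 15,
  .add 216 387,
  .mul 6 0,
  .add 2 0,
  .mul 78 0,
  .mul 393 0,
  .scale ⟨687194767360, 0, 0, 0⟩ 0,
  .add 393 0,
  .mul 3 0,
  .add 9 0,
  .mul 10 1,
  .mul 399 0,
  .add 2 0,
  .mul 402 403,
  .mul 0 228,
  .mul 0 393,
  .add 3 0,
  .mul 4 1,
  .mul 406 0,
  .add 2 0,
  .mul 401 372,
  .mul 409 0,
  .scale ⟨412316860416, 0, 0, 0⟩ 0,
  .sub 408 0,
  .mul 3 0,
  .neg 0,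
  .add 6 0,
  .mul 7 1,
  .mul 416 0,
  .add 2 0,
  .mul 419 112,
  .mul 0 66,
  .add 2 0,
  .mul 3 1,
  .mul 422 0,
  .add 2 0,
  .mul 250 405,
  .mul 0 75,
  .sub 2 0,
  .mul 427 1,
  .add 426 0,
  .inv 0,
  .mul 3 0,
  .mul 432 427,
  .mul 0 126,
  .sub 387 125,
  .inv 0,
  .mul 2 0,
  .add 5 0,
  .mul 6 1,
  .mul 438 0,
  .add 2 0,
  .mul 440 0,
  .add 439 0,
  .mul 101 248,
  .mul 443 95,
  .mul 76 0,
  .add 2 0,
  .mul 0 4,
  .add 7 0,
  .add 0 107,
  .add 0 81,
  .neg 0,
  .const ⟨1073741824, 0, 0, 0⟩,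
  .sub 1 0,
  .sub 438 451,
  .add 0 254,
  .scale ⟨2199023255552, 0, 0, 0⟩ 105,
  .sub 1 0,
  .mul 283 0,
  .mul 4 2,
  .add 0 457,
  .inv 0,
  .mul 3 0,
  .mul 275 164,
  .scale ⟨549755813888, 0, 0, 0⟩ 272,
  .add 452 0,
  .mul 2 0,
  .scale ⟨2199023255552, 0, 0, 0⟩ 0,
  .add 175 0,
  .scale ⟨2199023255552, 0, 0, 0⟩ 0,
  .mul 0 164,
  .mul 466 164,
  .sub 452 0,
  .inv 0,
  .mul 3 0,
  .sub 12 0,
  .pos 280,
  .pos 277,
  .scale ⟨2199023255552, 0, 0, 0⟩ 173,
  .sub 430 0,
  .pos 0,
  .pos 165,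
  .pos 348,
  .sub 474 304,
  .pos 0,
  .scale ⟨687194767360, 0, 0, 0⟩ 476,
  .sub 0 220,
  .pos 0,
  .scale ⟨377957122048, 0, 0, 0⟩ 478,
  .sub 0 226,
  .pos 0,
  .pos 10,
  .sub 479 88,
  .pos 0,
  .pos 168,
  .pos 154,
  .sub 4 162,
  .pos 0,
  .mul 301 301,
  .const ⟨14293651161088, 0, 0, 0⟩,
  .const ⟨10995116277760, 0, 0, 0⟩,
  .inv 0,
  .mul 2 0,
  .mul 4 0,
  .const ⟨27487790694400, 0, 0, 0⟩,
  .add 1 0,
  .mul 66 62,
  .sub 459 493,
  .sub 0 461,
  .scale ⟨2199023255552, 0, 0, 0⟩ 491,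
  .add 0 188,
  .mul 496 0,
  .mul 6 5,
  .mul 194 1,
  .mul 422 210,
  .mul 494 0,
  .mul 483 315,
  .mul 0 205,
  .mul 472 0,
  .add 3 0,
  .mul 505 0,
  .mul 7 0,
  .sub 9 0,
  .scale ⟨549755813888, 0, 0, 0⟩ 38,
  .add 508 0,
  .mul 206 0,
  .mul 512 494,
  .mul 0 331,
  .mul 495 468,
  .inv 0,
  .mul 2 0,
  .mul 5 0,
  .sub 23 0,
  .mul 328 10,
  .sub 518 329,
  .mul 514 2,
  .mul 1 0,
  .mul 31 0,
  .add 4 0,
  .pos 50,
  .pos 72,
  .pos 0,
  .pos 6]

def chk0 {α : Type} (cst : Z → α) (add sub mul : α → α → α) (scale : Z → α → α)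
    (neg inv exp log : α → α) (ok : α → Bool) (isPos : Nat → α → Bool) (isLt : α → Nat → Bool) :
    List α → Bool
  | [x0, x1, x2, x3] =>
  let v0 := cst ⟨1099511627776, 0, 0, 0⟩; ok v0 && (
  let v1 := cst ⟨549755813888, 0, 0, 0⟩; ok v1 && (
  let v2 := mul x1 x2; ok v2 && (
  let v3 := mul v2 x3; ok v3 && (
  let v4 := scale ⟨549755813888, 0, 0, 0⟩ v3; ok v4 && (
  let v5 := mul x2 x2; ok v5 && (
  let v6 := mul v4 v4; ok v6 && (
  let v7 := sub v0 v6; ok v7 && (
  let v8 := inv v7; ok v8 && (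
  let v9 := mul v4 v8; ok v9 && (
  let v10 := scale ⟨2199023255552, 0, 0, 0⟩ v9; ok v10 && (
  let v11 := scale ⟨2199023255552, 0, 0, 0⟩ v8; ok v11 && (
  let v12 := sub v11 v0; ok v12 && (
  let v13 := add v12 v10; ok v13 && (
  let v14 := mul x3 v8; ok v14 && (
  let v15 := mul x2 v14; ok v15 && (
  let v16 := sub v0 v15; ok v16 && (
  let v17 := add v0 v15; ok v17 && (
  let v18 := scale ⟨10774999203840, 0, 0, 0⟩ v4; ok v18 && (
  let v19 := scale ⟨45768245248, 0, 0, 0⟩ v18; ok v19 && (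
  let v20 := cst ⟨183207198720, 0, 0, 0⟩; ok v20 && (
  let v21 := add v19 v20; ok v21 && (
  let v22 := mul v18 v21; ok v22 && (
  let v23 := add v1 v22; ok v23 && (
  let v24 := mul v18 v23; ok v24 && (
  let v25 := add v0 v24; ok v25 && (
  let v26 := mul v18 v25; ok v26 && (
  let v27 := scale ⟨549755813888, 0, 0, 0⟩ v26; ok v27 && (
  let v28 := add v0 v27; ok v28 && (
  let v29 := mul v25 v28; ok v29 && (
  let v30 := mul x1 v5; ok v30 && (
  let v31 := mul v10 v15; ok v31 && (
  let v32 := scale ⟨2199023255552, 0, 0, 0⟩ v12; ok v32 && (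
  let v33 := add v31 v32; ok v33 && (
  let v34 := add v33 x1; ok v34 && (
  let v35 := mul v30 v34; ok v35 && (
  let v36 := add v35 v0; ok v36 && (
  let v37 := mul v10 v10; ok v37 && (
  let v38 := scale ⟨2199023255552, 0, 0, 0⟩ v37; ok v38 && (
  let v39 := add v38 v0; ok v39 && (
  let v40 := mul v12 v34; ok v40 && (
  let v41 := sub v40 v0; ok v41 && (
  let v42 := log v36; ok v42 && (
  let v43 := scale ⟨549755813888, 0, 0, 0⟩ v42; ok v43 && (
  let v44 := exp v43; ok v44 && (
  let v45 := scale ⟨549755813888, 0, 0, 0⟩ x0; ok v45 && (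
  let v46 := mul v45 v42; ok v46 && (
  let v47 := neg v46; ok v47 && (
  let v48 := exp v47; ok v48 && (
  let v49 := mul v12 v30; ok v49 && (
  let v50 := mul v49 v41; ok v50 && (
  let v51 := scale ⟨4398046511104, 0, 0, 0⟩ v50; ok v51 && (
  let v52 := add v51 v0; ok v52 && (
  let v53 := log v52; ok v53 && (
  let v54 := sub v53 v42; ok v54 && (
  let v55 := mul v45 v54; ok v55 && (
  let v56 := neg v55; ok v56 && (
  let v57 := exp v56; ok v57 && (
  let v58 := mul v15 v10; ok v58 && (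
  let v59 := add v12 v58; ok v59 && (
  let v60 := inv v59; ok v60 && (
  let v61 := mul v17 v60; ok v61 && (
  let v62 := mul v16 x1; ok v62 && (
  let v63 := mul v62 v61; ok v63 && (
  let v64 := mul v14 v14; ok v64 && (
  let v65 := sub v0 v5; ok v65 && (
  let v66 := mul v64 v65; ok v66 && (
  let v67 := mul v2 v2; ok v67 && (
  let v68 := add v12 v30; ok v68 && (
  let v69 := inv v68; ok v69 && (
  let v70 := mul v69 x0; ok v70 && (
  let v71 := mul v70 v2; ok v71 && (
  let v72 := mul v71 v71; ok v72 && (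
  let v73 := sub v0 v64; ok v73 && (
  let v74 := mul v65 v73; ok v74 && (
  let v75 := mul v72 v74; ok v75 && (
  let v76 := inv x0; ok v76 && (
  let v77 := cst ⟨45812285440, 0, 0, 0⟩; ok v77 && (
  let v78 := scale ⟨1527119872, 0, 0, 0⟩ v75; ok v78 && (
  let v79 := sub v77 v78; ok v79 && (
  let v80 := mul v75 v79; ok v80 && (
  let v81 := sub v1 v80; ok v81 && (
  let v82 := mul v75 v81; ok v82 && (
  let v83 := sub v0 v82; ok v83 && (
  let v84 := add v48 v0; ok v84 && (
  let v85 := mul v48 v48; ok v85 && (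
  let v86 := add v85 v0; ok v86 && (
  let v87 := mul v48 v83; ok v87 && (
  let v88 := scale ⟨2199023255552, 0, 0, 0⟩ v87; ok v88 && (
  let v89 := add v86 v88; ok v89 && (
  let v90 := inv v84; ok v90 && (
  let v91 := mul v89 v90; ok v91 && (
  let v92 := add v91 v84; ok v92 && (
  let v93 := mul v48 v63; ok v93 && (
  let v94 := scale ⟨549755813888, 0, 0, 0⟩ v93; ok v94 && (
  let v95 := mul v94 v92; ok v95 && (
  let v96 := sub v89 v95; ok v96 && (
  isPos 4 v89 && (
  isPos 4 v96 && (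
  let v97 := inv v96; ok v97 && (
  let v98 := mul v45 v34; ok v98 && (
  let v99 := cst ⟨6597069766656, 0, 0, 0⟩; ok v99 && (
  let v100 := add v35 v99; ok v100 && (
  let v101 := mul v98 v100; ok v101 && (
  let v102 := scale ⟨4398046511104, 0, 0, 0⟩ v35; ok v102 && (
  let v103 := add v102 v99; ok v103 && (
  let v104 := inv v103; ok v104 && (
  let v105 := mul v101 v104; ok v105 && (
  let v106 := mul v30 v105; ok v106 && (
  let v107 := scale ⟨2199023255552, 0, 0, 0⟩ v106; ok v107 && (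
  let v108 := scale ⟨183274307584, 0, 0, 0⟩ v107; ok v108 && (
  let v109 := sub v1 v108; ok v109 && (
  let v110 := mul v107 v109; ok v110 && (
  let v111 := sub v0 v110; ok v111 && (
  let v112 := mul v105 v111; ok v112 && (
  let v113 := mul v112 v97; ok v113 && (
  let v114 := mul v30 v113; ok v114 && (
  let v115 := add v114 v1; ok v115 && (
  let v116 := inv v115; ok v116 && (
  let v117 := mul v113 v116; ok v117 && (
  let v118 := mul v30 v117; ok v118 && (
  let v119 := mul v94 v114; ok v119 && (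
  let v120 := add v119 v1; ok v120 && (
  let v121 := mul v120 v92; ok v121 && (
  let v122 := inv v89; ok v122 && (
  let v123 := mul v121 v122; ok v123 && (
  let v124 := mul v63 v118; ok v124 && (
  let v125 := scale ⟨549755813888, 0, 0, 0⟩ v124; ok v125 && (
  let v126 := sub v0 v125; ok v126 && (
  let v127 := sub v0 v124; ok v127 && (
  let v128 := inv v127; ok v128 && (
  let v129 := mul v126 v128; ok v129 && (
  let v130 := add v124 v0; ok v130 && (
  let v131 := mul v48 v130; ok v131 && (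
  let v132 := mul v16 v17; ok v132 && (
  let v133 := add v12 x1; ok v133 && (
  let v134 := mul v15 v12; ok v134 && (
  let v135 := mul v134 v10; ok v135 && (
  let v136 := scale ⟨2199023255552, 0, 0, 0⟩ v135; ok v136 && (
  let v137 := add v39 v136; ok v137 && (
  let v138 := mul v133 v137; ok v138 && (
  let v139 := inv v138; ok v139 && (
  let v140 := mul v132 v139; ok v140 && (
  let v141 := mul x1 v140; ok v141 && (
  let v142 := inv v36; ok v142 && (
  let v143 := mul v75 v142; ok v143 && (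
  let v144 := scale ⟨1527119872, 0, 0, 0⟩ v143; ok v144 && (
  let v145 := sub v77 v144; ok v145 && (
  let v146 := mul v143 v145; ok v146 && (
  let v147 := sub v1 v146; ok v147 && (
  let v148 := mul v143 v147; ok v148 && (
  let v149 := sub v0 v148; ok v149 && (
  let v150 := add v57 v0; ok v150 && (
  let v151 := mul v57 v57; ok v151 && (
  let v152 := add v151 v0; ok v152 && (
  let v153 := mul v57 v149; ok v153 && (
  let v154 := scale ⟨2199023255552, 0, 0, 0⟩ v153; ok v154 && (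
  let v155 := add v152 v154; ok v155 && (
  let v156 := inv v150; ok v156 && (
  let v157 := mul v155 v156; ok v157 && (
  let v158 := add v157 v150; ok v158 && (
  let v159 := mul v57 v141; ok v159 && (
  let v160 := scale ⟨549755813888, 0, 0, 0⟩ v159; ok v160 && (
  let v161 := mul v160 v158; ok v161 && (
  let v162 := sub v155 v161; ok v162 && (
  isPos 4 v155 && (
  isPos 4 v162 && (
  let v163 := sub v0 v57; ok v163 && (
  let v164 := mul v163 v150; ok v164 && (
  let v165 := inv v162; ok v165 && (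
  let v166 := mul v164 v165; ok v166 && (
  let v167 := scale ⟨549755813888, 0, 0, 0⟩ v166; ok v167 && (
  let v168 := add v167 v1; ok v168 && (
  let v169 := inv v168; ok v169 && (
  let v170 := mul v167 v169; ok v170 && (
  let v171 := mul v141 v170; ok v171 && (
  let v172 := add v4 v0; ok v172 && (
  let v173 := inv v172; ok v173 && (
  let v174 := mul v4 v173; ok v174 && (
  let v175 := scale ⟨2199023255552, 0, 0, 0⟩ v174; ok v175 && (
  let v176 := sub v0 v175; ok v176 && (
  let v177 := sub v0 v4; ok v177 && (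
  let v178 := mul x3 v173; ok v178 && (
  let v179 := mul v178 v176; ok v179 && (
  let v180 := add v17 v179; ok v180 && (
  let v181 := mul x0 v10; ok v181 && (
  let v182 := cst ⟨5497558138880, 0, 0, 0⟩; ok v182 && (
  let v183 := inv v182; ok v183 && (
  let v184 := mul v0 v183; ok v184 && (
  let v185 := mul x0 v184; ok v185 && (
  let v186 := scale ⟨5497558138880, 0, 0, 0⟩ v76; ok v186 && (
  let v187 := scale ⟨224412041216, 0, 0, 0⟩ v8; ok v187 && (
  let v188 := inv v29; ok v188 && (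
  let v189 := mul v187 v188; ok v189 && (
  let v190 := mul v185 v17; ok v190 && (
  let v191 := mul v190 v189; ok v191 && (
  let v192 := mul v2 v191; ok v192 && (
  let v193 := sub v0 v192; ok v193 && (
  let v194 := inv v193; ok v194 && (
  let v195 := mul v131 v192; ok v195 && (
  let v196 := sub v0 v195; ok v196 && (
  let v197 := inv v196; ok v197 && (
  let v198 := cst ⟨2199023255552, 0, 0, 0⟩; ok v198 && (
  let v199 := add v181 v198; ok v199 && (
  let v200 := inv v199; ok v200 && (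
  let v201 := mul v16 x0; ok v201 && (
  let v202 := mul v201 x1; ok v202 && (
  let v203 := mul v202 v200; ok v203 && (
  let v204 := scale ⟨549755813888, 0, 0, 0⟩ v203; ok v204 && (
  let v205 := sub v0 v204; ok v205 && (
  let v206 := sub v0 v203; ok v206 && (
  let v207 := inv v206; ok v207 && (
  let v208 := mul v205 v207; ok v208 && (
  let v209 := mul v208 v200; ok v209 && (
  let v210 := mul v209 x0; ok v210 && (
  let v211 := mul x1 v14; ok v211 && (
  let v212 := mul v211 v210; ok v212 && (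
  let v213 := mul v203 v208; ok v213 && (
  let v214 := mul v14 v210; ok v214 && (
  isPos 4 v206 && (
  let v215 := mul v213 v76; ok v215 && (
  let v216 := scale ⟨1374389534720, 0, 0, 0⟩ v215; ok v216 && (
  let v217 := sub v1 v216; ok v217 && (
  isPos 4 v217 && (
  let v218 := scale ⟨3092376453120, 0, 0, 0⟩ v215; ok v218 && (
  let v219 := add v218 v198; ok v219 && (
  let v220 := mul v215 v219; ok v220 && (
  let v221 := add v0 v220; ok v221 && (
  let v222 := scale ⟨1546188226560, 0, 0, 0⟩ v215; ok v222 && (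
  let v223 := add v222 v0; ok v223 && (
  let v224 := mul v215 v223; ok v224 && (
  let v225 := add v0 v224; ok v225 && (
  let v226 := mul v4 v14; ok v226 && (
  let v227 := sub v0 v66; ok v227 && (
  let v228 := mul v4 v15; ok v228 && (
  let v229 := scale ⟨2199023255552, 0, 0, 0⟩ v228; ok v229 && (
  let v230 := sub v227 v229; ok v230 && (
  let v231 := mul v226 v226; ok v231 && (
  let v232 := add v230 v231; ok v232 && (
  let v233 := add v232 v0; ok v233 && (
  let v234 := scale ⟨549755813888, 0, 0, 0⟩ v233; ok v234 && (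
  let v235 := scale ⟨549755813888, 0, 0, 0⟩ v30; ok v235 && (
  let v236 := sub v8 v235; ok v236 && (
  let v237 := mul v67 v227; ok v237 && (
  let v238 := mul v237 v7; ok v238 && (
  let v239 := scale ⟨137438953472, 0, 0, 0⟩ v238; ok v239 && (
  let v240 := add v236 v239; ok v240 && (
  let v241 := mul v234 v240; ok v241 && (
  let v242 := mul v16 v61; ok v242 && (
  let v243 := mul v242 v2; ok v243 && (
  let v244 := mul v243 v117; ok v244 && (
  let v245 := mul v244 v129; ok v245 && (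
  let v246 := mul v2 v245; ok v246 && (
  let v247 := add v131 v0; ok v247 && (
  let v248 := mul v247 v194; ok v248 && (
  let v249 := mul v131 v197; ok v249 && (
  let v250 := add v248 v249; ok v250 && (
  let v251 := mul v192 v250; ok v251 && (
  let v252 := add v246 v251; ok v252 && (
  let v253 := mul v252 v76; ok v253 && (
  let v254 := mul v247 v192; ok v254 && (
  let v255 := mul v254 v194; ok v255 && (
  let v256 := add v246 v255; ok v256 && (
  let v257 := mul v256 v76; ok v257 && (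
  let v258 := scale ⟨223338299392, 0, 0, 0⟩ v257; ok v258 && (
  let v259 := add v1 v258; ok v259 && (
  let v260 := mul v257 v259; ok v260 && (
  let v261 := add v0 v260; ok v261 && (
  let v262 := scale ⟨893353197568, 0, 0, 0⟩ v253; ok v262 && (
  let v263 := add v0 v262; ok v263 && (
  let v264 := mul v253 v263; ok v264 && (
  let v265 := add v0 v264; ok v265 && (
  let v266 := mul v175 v178; ok v266 && (
  let v267 := mul v266 v221; ok v267 && (
  let v268 := mul v267 v265; ok v268 && (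
  let v269 := mul v241 v261; ok v269 && (
  let v270 := add v44 v1; ok v270 && (
  let v271 := mul v268 v270; ok v271 && (
  let v272 := add v269 v271; ok v272 && (
  let v273 := add v44 v0; ok v273 && (
  let v274 := mul v268 v273; ok v274 && (
  let v275 := mul v225 v273; ok v275 && (
  let v276 := mul v275 v178; ok v276 && (
  let v277 := mul v276 v177; ok v277 && (
  let v278 := mul v2 v180; ok v278 && (
  let v279 := inv v44; ok v279 && (
  let v280 := mul v278 v279; ok v280 && (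
  let v281 := scale ⟨549755813888, 0, 0, 0⟩ v280; ok v281 && (
  let v282 := mul v61 v2; ok v282 && (
  let v283 := mul v282 v117; ok v283 && (
  let v284 := mul v283 v129; ok v284 && (
  let v285 := mul v16 v281; ok v285 && (
  let v286 := mul v272 v284; ok v286 && (
  let v287 := mul v277 v212; ok v287 && (
  let v288 := add v286 v287; ok v288 && (
  let v289 := mul v288 v76; ok v289 && (
  let v290 := add v285 v289; ok v290 && (
  let v291 := mul v272 v247; ok v291 && (
  let v292 := mul v291 v194; ok v292 && (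
  let v293 := mul v274 v131; ok v293 && (
  let v294 := mul v293 v197; ok v294 && (
  let v295 := add v292 v294; ok v295 && (
  let v296 := mul v295 v76; ok v296 && (
  let v297 := mul v16 v290; ok v297 && (
  let v298 := mul v191 v296; ok v298 && (
  let v299 := add v297 v298; ok v299 && (
  let v300 := mul v67 v299; ok v300 && (
  let v301 := mul v300 v279; ok v301 && (
  let v302 := sub v0 v301; ok v302 && (
  let v303 := inv v302; ok v303 && (
  let v304 := mul v299 v303; ok v304 && (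
  let v305 := mul x1 v304; ok v305 && (
  let v306 := mul v67 v304; ok v306 && (
  let v307 := mul v306 v279; ok v307 && (
  let v308 := sub v0 v307; ok v308 && (
  let v309 := mul v41 v308; ok v309 && (
  let v310 := sub v309 v305; ok v310 && (
  let v311 := inv v310; ok v311 && (
  let v312 := mul v305 v311; ok v312 && (
  let v313 := sub v0 v305; ok v313 && (
  let v314 := inv v313; ok v314 && (
  let v315 := mul v63 v117; ok v315 && (
  let v316 := mul v315 v129; ok v316 && (
  let v317 := add v105 v316; ok v317 && (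
  let v318 := mul v317 v314; ok v318 && (
  let v319 := mul v318 v306; ok v319 && (
  let v320 := scale ⟨223338299392, 0, 0, 0⟩ v319; ok v320 && (
  let v321 := add v1 v320; ok v321 && (
  let v322 := mul v319 v321; ok v322 && (
  let v323 := add v0 v322; ok v323 && (
  let v324 := mul v319 v323; ok v324 && (
  let v325 := mul v324 v123; ok v325 && (
  let v326 := mul v325 v131; ok v326 && (
  let v327 := sub v0 v326; ok v327 && (
  let v328 := mul v318 v323; ok v328 && (
  let v329 := mul v328 v303; ok v329 && (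
  let v330 := mul v329 v76; ok v330 && (
  let v331 := inv v327; ok v331 && (
  let v332 := mul v330 v331; ok v332 && (
  let v333 := mul v332 x2; ok v333 && (
  let v334 := mul v272 v194; ok v334 && (
  let v335 := mul v274 v123; ok v335 && (
  let v336 := mul v335 v131; ok v336 && (
  let v337 := mul v336 v197; ok v337 && (
  let v338 := add v334 v337; ok v338 && (
  let v339 := mul v333 v338; ok v339 && (
  let v340 := mul v272 v61; ok v340 && (
  let v341 := mul v2 v113; ok v341 && (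
  let v342 := mul v340 v341; ok v342 && (
  let v343 := mul v342 v129; ok v343 && (
  let v344 := mul v185 v2; ok v344 && (
  let v345 := mul v344 v17; ok v345 && (
  let v346 := mul v345 v16; ok v346 && (
  let v347 := cst ⟨3298534883328, 0, 0, 0⟩; ok v347 && (
  let v348 := mul v347 v183; ok v348 && (
  let v349 := mul v332 v186; ok v349 && (
  let v350 := mul v349 x2; ok v350 && (
  let v351 := inv v17; ok v351 && (
  let v352 := mul v350 v351; ok v352 && (
  let v353 := mul x0 v123; ok v353 && (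
  let v354 := mul v353 v16; ok v354 && (
  let v355 := mul x2 v180; ok v355 && (
  let v356 := mul v355 v279; ok v356 && (
  let v357 := scale ⟨549755813888, 0, 0, 0⟩ v356; ok v357 && (
  let v358 := mul v354 v357; ok v358 && (
  let v359 := mul v340 x2; ok v359 && (
  let v360 := mul v359 v113; ok v360 && (
  let v361 := mul v360 v129; ok v361 && (
  let v362 := add v358 v361; ok v362 && (
  let v363 := mul v123 v277; ok v363 && (
  let v364 := mul v363 v214; ok v364 && (
  let v365 := add v362 v364; ok v365 && (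
  let v366 := mul v352 v365; ok v366 && (
  let v367 := mul v12 v41; ok v367 && (
  let v368 := scale ⟨4398046511104, 0, 0, 0⟩ v367; ok v368 && (
  let v369 := sub v368 v34; ok v369 && (
  let v370 := mul v5 v369; ok v370 && (
  let v371 := mul v370 v142; ok v371 && (
  let v372 := mul x0 v371; ok v372 && (
  let v373 := mul x1 v371; ok v373 && (
  let v374 := add v373 v198; ok v374 && (
  let v375 := inv v374; ok v375 && (
  let v376 := mul v372 v375; ok v376 && (
  let v377 := mul x1 v376; ok v377 && (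
  let v378 := scale ⟨549755813888, 0, 0, 0⟩ v377; ok v378 && (
  let v379 := sub v0 v378; ok v379 && (
  let v380 := mul v376 v379; ok v380 && (
  let v381 := neg v380; ok v381 && (
  let v382 := mul v140 v170; ok v382 && (
  let v383 := add v381 v382; ok v383 && (
  let v384 := mul v381 v382; ok v384 && (
  let v385 := mul x1 v384; ok v385 && (
  let v386 := add v383 v385; ok v386 && (
  let v387 := mul v45 v371; ok v387 && (
  let v388 := add v171 v0; ok v388 && (
  let v389 := mul v382 v388; ok v389 && (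
  let v390 := add v387 v389; ok v390 && (
  let v391 := mul v312 v390; ok v391 && (
  let v392 := mul x1 v391; ok v392 && (
  let v393 := scale ⟨687194767360, 0, 0, 0⟩ v392; ok v393 && (
  let v394 := add v0 v393; ok v394 && (
  let v395 := mul v391 v394; ok v395 && (
  let v396 := add v386 v395; ok v396 && (
  let v397 := mul v386 v395; ok v397 && (
  let v398 := mul x1 v397; ok v398 && (
  let v399 := add v396 v398; ok v399 && (
  let v400 := mul x2 x3; ok v400 && (
  let v401 := mul v400 v172; ok v401 && (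
  let v402 := mul v401 v8; ok v402 && (
  let v403 := add v399 v402; ok v403 && (
  let v404 := mul v399 v402; ok v404 && (
  let v405 := mul x1 v404; ok v405 && (
  let v406 := add v403 v405; ok v406 && (
  let v407 := mul v5 v34; ok v407 && (
  let v408 := mul x1 v407; ok v408 && (
  let v409 := scale ⟨412316860416, 0, 0, 0⟩ v408; ok v409 && (
  let v410 := sub v1 v409; ok v410 && (
  let v411 := mul v407 v410; ok v411 && (
  let v412 := neg v411; ok v412 && (
  let v413 := add v406 v412; ok v413 && (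
  let v414 := mul v406 v412; ok v414 && (
  let v415 := mul x1 v414; ok v415 && (
  let v416 := add v413 v415; ok v416 && (
  let v417 := mul x2 v304; ok v417 && (
  let v418 := mul v417 v351; ok v418 && (
  let v419 := add v416 v418; ok v419 && (
  let v420 := mul v416 v418; ok v420 && (
  let v421 := mul x1 v420; ok v421 && (
  let v422 := add v419 v421; ok v422 && (
  let v423 := mul v172 v17; ok v423 && (
  let v424 := mul v423 v348; ok v424 && (
  let v425 := sub v422 v424; ok v425 && (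
  let v426 := mul x1 v424; ok v426 && (
  let v427 := add v0 v426; ok v427 && (
  let v428 := inv v427; ok v428 && (
  let v429 := mul v425 v428; ok v429 && (
  let v430 := mul x2 v2; ok v430 && (
  let v431 := mul v430 v304; ok v431 && (
  let v432 := sub v44 v306; ok v432 && (
  let v433 := inv v432; ok v433 && (
  let v434 := mul v431 v433; ok v434 && (
  let v435 := add v429 v434; ok v435 && (
  let v436 := mul v429 v434; ok v436 && (
  let v437 := mul x1 v436; ok v437 && (
  let v438 := add v435 v437; ok v438 && (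
  let v439 := mul x1 v438; ok v439 && (
  let v440 := add v0 v439; ok v440 && (
  let v441 := mul v339 v192; ok v441 && (
  let v442 := mul x1 v346; ok v442 && (
  let v443 := mul v366 v442; ok v443 && (
  let v444 := add v441 v443; ok v444 && (
  let v445 := mul v444 v440; ok v445 && (
  let v446 := add v438 v445; ok v446 && (
  let v447 := add v446 v339; ok v447 && (
  let v448 := add v447 v366; ok v448 && (
  let v449 := neg v448; ok v449 && (
  let v450 := cst ⟨1073741824, 0, 0, 0⟩; ok v450 && (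
  let v451 := sub v449 v450; ok v451 && (
  let v452 := sub v13 v0; ok v452 && (
  let v453 := add v452 v198; ok v453 && (
  let v454 := scale ⟨2199023255552, 0, 0, 0⟩ v348; ok v454 && (
  let v455 := sub v453 v454; ok v455 && (
  let v456 := mul v172 v455; ok v456 && (
  let v457 := mul v452 v454; ok v457 && (
  let v458 := add v457 v0; ok v458 && (
  let v459 := inv v458; ok v459 && (
  let v460 := mul v456 v459; ok v460 && (
  let v461 := mul v185 v296; ok v461 && (
  let v462 := scale ⟨549755813888, 0, 0, 0⟩ v189; ok v462 && (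
  let v463 := add v10 v462; ok v463 && (
  let v464 := mul v461 v463; ok v464 && (
  let v465 := scale ⟨2199023255552, 0, 0, 0⟩ v464; ok v465 && (
  let v466 := add v290 v465; ok v466 && (
  let v467 := scale ⟨2199023255552, 0, 0, 0⟩ v466; ok v467 && (
  let v468 := mul v467 v303; ok v468 && (
  let v469 := mul v2 v304; ok v469 && (
  let v470 := sub v17 v469; ok v470 && (
  let v471 := inv v470; ok v471 && (
  let v472 := mul v468 v471; ok v472 && (
  let v473 := sub v460 v472; ok v473 && (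
  isPos 4 v193 && (
  isPos 4 v196 && (
  let v474 := scale ⟨2199023255552, 0, 0, 0⟩ v300; ok v474 && (
  let v475 := sub v44 v474; ok v475 && (
  isPos 4 v475 && (
  isPos 4 v310 && (
  isPos 4 v127 && (
  let v476 := sub v1 v171; ok v476 && (
  isPos 4 v476 && (
  let v477 := scale ⟨687194767360, 0, 0, 0⟩ v0; ok v477 && (
  let v478 := sub v477 v257; ok v478 && (
  isPos 4 v478 && (
  let v479 := scale ⟨377957122048, 0, 0, 0⟩ v0; ok v479 && (
  let v480 := sub v479 v253; ok v480 && (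
  isPos 4 v480 && (
  isPos 4 v470 && (
  let v481 := sub v1 v392; ok v481 && (
  isPos 4 v481 && (
  isPos 4 v313 && (
  isPos 4 v327 && (
  let v482 := sub v477 v319; ok v482 && (
  isPos 4 v482 && (
  let v483 := mul v181 v181; ok v483 && (
  let v484 := cst ⟨14293651161088, 0, 0, 0⟩; ok v484 && (
  let v485 := cst ⟨10995116277760, 0, 0, 0⟩; ok v485 && (
  let v486 := inv v485; ok v486 && (
  let v487 := mul v484 v486; ok v487 && (
  let v488 := mul v483 v487; ok v488 && (
  let v489 := cst ⟨27487790694400, 0, 0, 0⟩; ok v489 && (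
  let v490 := add v488 v489; ok v490 && (
  let v491 := mul v424 v428; ok v491 && (
  let v492 := sub v32 x1; ok v492 && (
  let v493 := sub v492 v31; ok v493 && (
  let v494 := scale ⟨2199023255552, 0, 0, 0⟩ v2; ok v494 && (
  let v495 := add v494 v306; ok v495 && (
  let v496 := mul x0 v495; ok v496 && (
  let v497 := mul v490 v491; ok v497 && (
  let v498 := mul v303 v496; ok v498 && (
  let v499 := mul v76 v288; ok v499 && (
  let v500 := mul v5 v499; ok v500 && (
  let v501 := mul v17 v185; ok v501 && (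
  let v502 := mul v501 v296; ok v502 && (
  let v503 := mul v30 v502; ok v503 && (
  let v504 := add v500 v503; ok v504 && (
  let v505 := mul x0 v504; ok v505 && (
  let v506 := mul v498 v505; ok v506 && (
  let v507 := sub v497 v506; ok v507 && (
  let v508 := scale ⟨549755813888, 0, 0, 0⟩ v469; ok v508 && (
  let v509 := add v0 v508; ok v509 && (
  let v510 := mul v303 v509; ok v510 && (
  let v511 := mul x1 v16; ok v511 && (
  let v512 := mul v511 v180; ok v512 && (
  let v513 := mul v17 v44; ok v513 && (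
  let v514 := inv v513; ok v514 && (
  let v515 := mul v512 v514; ok v515 && (
  let v516 := mul v510 v515; ok v516 && (
  let v517 := sub v493 v516; ok v517 && (
  let v518 := mul v189 v507; ok v518 && (
  let v519 := sub v0 v189; ok v519 && (
  let v520 := mul v5 v517; ok v520 && (
  let v521 := mul v519 v520; ok v521 && (
  let v522 := mul v490 v521; ok v522 && (
  let v523 := add v518 v522; ok v523 && (
  isPos 4 v473 && (
  isPos 4 v451 && (
  isPos 4 v523 && (
  isPos 4 v517 && (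
  true)))))))))))))))))))))))))))))))))))))))))))))))))))))))))))))))))))))))))))))))))))))))))))))))))))))))))))))))))))))))))))))))))))))))))))))))))))))))))))))))))))))))))))))))))))))))))))))))))))))))))))))))))))))))))))))))))))))))))))))))))))))))))))))))))))))))))))))))))))))))))))))))))))))))))))))))))))))))))))))))))))))))))))))))))))))))))))))))))))))))))))))))))))))))))))))))))))))))))))))))))))))))))))))))))))))))))))))))))))))))))))))))))))))))))))))))))))))))))))))))))))))))))))))))))))))))))))))))))))))))))))))))))))))))))))))))))))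
  | _ => false

set_option maxRecDepth 1000000 in
theorem chk0_eq (O : Ops) (m : List O.α)
    (h : chk0 O.cst O.add O.sub O.mul O.scale O.neg O.inv O.exp O.log O.ok O.isPos O.isLt m = true) :
    runG O 4 prog0 m = true := by
  match m, h with
  | [x0, x1, x2, x3], h => exact h

def chkB0 : List opsE.α → Bool :=
  chk0 opsE.cst opsE.add opsE.sub opsE.mul opsE.scale opsE.neg opsE.inv opsE.exp opsE.log opsE.ok opsE.isPos opsE.isLt

theorem chkB0_eq (m : List opsE.α) (h : chkB0 m = true) : runG opsE 4 prog0 m = true :=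
  chk0_eq opsE m h

def prog1 : List Op := [
  .const ⟨1099511627776, 0, 0, 0⟩,
  .const ⟨549755813888, 0, 0, 0⟩,
  .mul 3 4,
  .mul 0 6,
  .scale ⟨549755813888, 0, 0, 0⟩ 0,
  .mul 7 7,
  .mul 1 1,
  .sub 6 0,
  .inv 0,
  .mul 4 0,
  .scale ⟨2199023255552, 0, 0, 0⟩ 0,
  .scale ⟨2199023255552, 0, 0, 0⟩ 2,
  .sub 0 11,
  .add 0 2,
  .mul 17 5,
  .mul 17 0,
  .sub 15 0,
  .add 16 1,
  .scale ⟨10774999203840, 0, 0, 0⟩ 13,
  .scale ⟨45768245248, 0, 0, 0⟩ 0,
  .const ⟨183207198720, 0, 0, 0⟩,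
  .add 1 0,
  .mul 3 0,
  .add 21 0,
  .mul 5 0,
  .add 24 0,
  .mul 7 0,
  .scale ⟨549755813888, 0, 0, 0⟩ 0,
  .add 27 0,
  .mul 3 0,
  .mul 31 24,
  .mul 20 15,
  .scale ⟨2199023255552, 0, 0, 0⟩ 19,
  .add 1 0,
  .add 0 35,
  .mul 4 0,
  .add 0 35,
  .mul 26 26,
  .scale ⟨2199023255552, 0, 0, 0⟩ 0,
  .add 0 38,
  .mul 27 5,
  .sub 0 40,
  .log 5,
  .scale ⟨549755813888, 0, 0, 0⟩ 0,
  .exp 0,
  .scale ⟨549755813888, 0, 0, 0⟩ 45,
  .mul 0 3,
  .neg 0,
  .exp 0,
  .mul 36 18,
  .mul 0 8,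
  .scale ⟨4398046511104, 0, 0, 0⟩ 0,
  .add 0 51,
  .log 0,
  .sub 0 11,
  .mul 9 0,
  .neg 0,
  .exp 0,
  .mul 42 47,
  .add 46 0,
  .inv 0,
  .mul 43 0,
  .mul 45 63,
  .mul 0 1,
  .mul 49 49,
  .sub 64 59,
  .mul 1 0,
  .mul 64 64,
  .add 55 37,
  .inv 0,
  .mul 0 70,
  .mul 0 68,
  .mul 0 0,
  .sub 72 8,
  .mul 8 0,
  .mul 2 0,
  .inv 76,
  .const ⟨45812285440, 0, 0, 0⟩,
  .scale ⟨1527119872, 0, 0, 0⟩ 2,
  .sub 1 0,
  .mul 4 0,
  .sub 79 0,
  .mul 6 0,
  .sub 82 0,
  .add 35 83,
  .mul 36 36,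
  .add 0 85,
  .mul 38 3,
  .scale ⟨2199023255552, 0, 0, 0⟩ 0,
  .add 2 0,
  .inv 5,
  .mul 1 0,
  .add 0 7,
  .mul 44 29,
  .scale ⟨549755813888, 0, 0, 0⟩ 0,
  .mul 0 2,
  .sub 6 0,
  .pos 7,
  .pos 0,
  .inv 0,
  .mul 52 63,
  .const ⟨6597069766656, 0, 0, 0⟩,
  .add 64 0,
  .mul 2 0,
  .scale ⟨4398046511104, 0, 0, 0⟩ 66,
  .add 0 3,
  .inv 0,
  .mul 3 0,
  .mul 75 0,
  .scale ⟨2199023255552, 0, 0, 0⟩ 0,
  .scale ⟨183274307584, 0, 0, 0⟩ 0,
  .sub 107 0,
  .mul 2 0,
  .sub 110 0,
  .mul 6 0,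
  .mul 0 15,
  .mul 83 0,
  .add 0 113,
  .inv 0,
  .mul 3 0,
  .mul 87 0,
  .mul 24 4,
  .add 0 118,
  .mul 0 28,
  .inv 32,
  .mul 1 0,
  .mul 60 5,
  .scale ⟨549755813888, 0, 0, 0⟩ 0,
  .sub 125 0,
  .sub 126 2,
  .inv 0,
  .mul 2 0,
  .add 5 129,
  .mul 82 0,
  .mul 115 114,
  .add 120 134,
  .mul 118 121,
  .mul 0 124,
  .scale ⟨2199023255552, 0, 0, 0⟩ 0,
  .add 97 0,
  .mul 4 0,
  .inv 0,
  .mul 7 0,
  .mul 142 0,
  .inv 105,
  .mul 67 0,
  .scale ⟨1527119872, 0, 0, 0⟩ 0,
  .sub 67 0,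
  .mul 2 0,
  .sub 145 0,
  .mul 4 0,
  .sub 148 0,
  .add 92 149,
  .mul 93 93,
  .add 0 151,
  .mul 95 3,
  .scale ⟨2199023255552, 0, 0, 0⟩ 0,
  .add 2 0,
  .inv 5,
  .mul 1 0,
  .add 0 7,
  .mul 101 17,
  .scale ⟨549755813888, 0, 0, 0⟩ 0,
  .mul 0 2,
  .sub 6 0,
  .pos 7,
  .pos 0,
  .sub 162 105,
  .mul 0 13,
  .inv 2,
  .mul 1 0,
  .scale ⟨549755813888, 0, 0, 0⟩ 0,
  .add 0 166,
  .inv 0,
  .mul 2 0,
  .mul 29 0,
  .add 167 171,
  .inv 0,
  .mul 169 0,
  .scale ⟨2199023255552, 0, 0, 0⟩ 0,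
  .sub 175 0,
  .sub 176 172,
  .mul 181 4,
  .mul 0 2,
  .add 162 0,
  .mul 181 170,
  .const ⟨5497558138880, 0, 0, 0⟩,
  .inv 0,
  .mul 183 0,
  .mul 185 0,
  .scale ⟨5497558138880, 0, 0, 0⟩ 109,
  .scale ⟨224412041216, 0, 0, 0⟩ 178,
  .inv 158,
  .mul 1 0,
  .mul 4 172,
  .mul 0 1,
  .mul 189 0,
  .sub 192 0,
  .inv 0,
  .mul 63 2,
  .sub 195 0,
  .inv 0,
  .mul 181 195,
  .mul 0 81,
  .inv 185,
  .mul 1 0,
  .scale ⟨549755813888, 0, 0, 0⟩ 0,
  .sub 202 0,
  .sub 203 2,
  .inv 0,
  .mul 2 0,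
  .mul 209 89,
  .mul 0 1,
  .mul 210 0,
  .mul 8 3,
  .pos 6,
  .mul 0 134,
  .scale ⟨1374389534720, 0, 0, 0⟩ 0,
  .sub 211 0,
  .pos 0,
  .scale ⟨3092376453120, 0, 0, 0⟩ 2,
  .const ⟨2199023255552, 0, 0, 0⟩,
  .add 1 0,
  .mul 5 0,
  .add 217 0,
  .scale ⟨1546188226560, 0, 0, 0⟩ 7,
  .add 0 219,
  .mul 9 0,
  .add 221 0,
  .mul 218 208,
  .sub 223 157,
  .mul 220 209,
  .scale ⟨2199023255552, 0, 0, 0⟩ 0,
  .sub 2 0,
  .mul 4 4,
  .add 1 0,
  .add 0 229,
  .scale ⟨549755813888, 0, 0, 0⟩ 0,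
  .scale ⟨549755813888, 0, 0, 0⟩ 201,
  .sub 224 0,
  .mul 166 9,
  .mul 0 227,
  .scale ⟨137438953472, 0, 0, 0⟩ 0,
  .add 3 0,
  .mul 6 0,
  .mul 222 177,
  .mul 0 237,
  .mul 0 123,
  .mul 0 112,
  .mul 240 0,
  .add 112 243,
  .mul 0 50,
  .mul 114 48,
  .add 1 0,
  .mul 55 0,
  .add 5 0,
  .mul 0 173,
  .mul 6 58,
  .mul 0 57,
  .add 9 0,
  .mul 0 177,
  .scale ⟨223338299392, 0, 0, 0⟩ 0,
  .add 254 0,
  .mul 2 0,
  .add 257 0,
  .scale ⟨893353197568, 0, 0, 0⟩ 8,
  .add 259 0,
  .mul 10 0,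
  .add 261 0,
  .mul 87 84,
  .mul 0 45,
  .mul 0 2,
  .mul 27 7,
  .add 222 265,
  .mul 2 0,
  .add 2 0,
  .add 225 269,
  .mul 5 0,
  .mul 49 1,
  .mul 0 94,
  .mul 0 96,
  .mul 272 94,
  .inv 231,
  .mul 1 0,
  .scale ⟨549755813888, 0, 0, 0⟩ 0,
  .mul 217 276,
  .mul 0 162,
  .mul 0 151,
  .mul 265 3,
  .mul 13 1,
  .mul 9 74,
  .add 1 0,
  .mul 0 209,
  .add 4 0,
  .mul 18 43,
  .mul 0 94,
  .mul 18 158,
  .mul 0 93,
  .add 2 0,
  .mul 0 216,
  .mul 277 6,
  .mul 103 1,
  .add 1 0,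
  .mul 229 0,
  .mul 0 21,
  .sub 298 0,
  .inv 0,
  .mul 4 0,
  .mul 303 0,
  .mul 235 1,
  .mul 0 27,
  .sub 304 0,
  .mul 264 0,
  .sub 0 4,
  .inv 0,
  .mul 6 0,
  .sub 309 7,
  .inv 0,
  .mul 248 194,
  .mul 0 183,
  .add 208 0,
  .mul 0 3,
  .mul 0 12,
  .scale ⟨223338299392, 0, 0, 0⟩ 0,
  .add 316 0,
  .mul 2 0,
  .add 319 0,
  .mul 4 0,
  .mul 0 198,
  .mul 0 191,
  .sub 323 0,
  .mul 9 4,
  .mul 0 25,
  .mul 0 250,
  .inv 3,
  .mul 1 0,
  .mul 0 332,
  .mul 61 136,
  .mul 60 208,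
  .mul 0 201,
  .mul 0 136,
  .add 3 0,
  .mul 5 0,
  .mul 67 275,
  .mul 335 224,
  .mul 1 0,
  .mul 0 210,
  .mul 155 338,
  .mul 0 324,
  .mul 0 326,
  .const ⟨3298534883328, 0, 0, 0⟩,
  .mul 0 161,
  .mul 16 159,
  .mul 0 349,
  .inv 330,
  .mul 1 0,
  .mul 350 226,
  .mul 0 334,
  .mul 354 171,
  .mul 0 76,
  .scale ⟨549755813888, 0, 0, 0⟩ 0,
  .mul 3 0,
  .mul 18 358,
  .mul 0 243,
  .mul 0 228,
  .add 3 0,
  .mul 236 85,
  .mul 0 152,
  .add 2 0,
  .mul 13 0,
  .mul 351 322,
  .scale ⟨4398046511104, 0, 0, 0⟩ 0,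
  .sub 0 331,
  .mul 361 0,
  .mul 0 225,
  .mul 369 0,
  .mul 371 1,
  .add 0 155,
  .inv 0,
  .mul 3 0,
  .mul 375 0,
  .scale ⟨549755813888, 0, 0, 0⟩ 0,
  .sub 375 0,
  .mul 3 0,
  .neg 0,
  .mul 238 208,
  .add 1 0,
  .mul 2 1,
  .mul 383 0,
  .add 2 0,
  .mul 338 15,
  .add 213 384,
  .mul 6 0,
  .add 2 0,
  .mul 78 0,
  .mul 390 0,
  .scale ⟨687194767360, 0, 0, 0⟩ 0,
  .add 390 0,
  .mul 3 0,
  .add 9 0,
  .mul 10 1,
  .mul 396 0,
  .add 2 0,
  .mul 399 400,
  .mul 0 225,
  .mul 0 390,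
  .add 3 0,
  .mul 4 1,
  .mul 403 0,
  .add 2 0,
  .mul 398 369,
  .mul 406 0,
  .scale ⟨412316860416, 0, 0, 0⟩ 0,
  .sub 405 0,
  .mul 3 0,
  .neg 0,
  .add 6 0,
  .mul 7 1,
  .mul 413 0,
  .add 2 0,
  .mul 416 112,
  .mul 0 66,
  .add 2 0,
  .mul 3 1,
  .mul 419 0,
  .add 2 0,
  .mul 247 402,
  .mul 0 75,
  .sub 2 0,
  .mul 424 1,
  .add 423 0,
  .inv 0,
  .mul 3 0,
  .mul 429 424,
  .mul 0 126,
  .sub 384 125,
  .inv 0,
  .mul 2 0,
  .add 5 0,
  .mul 6 1,
  .mul 435 0,
  .add 2 0,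
  .mul 437 0,
  .add 436 0,
  .mul 101 245,
  .mul 440 95,
  .mul 76 0,
  .add 2 0,
  .mul 0 4,
  .add 7 0,
  .add 0 107,
  .add 0 81,
  .neg 0,
  .const ⟨1073741824, 0, 0, 0⟩,
  .sub 1 0,
  .sub 435 448,
  .add 0 234,
  .scale ⟨2199023255552, 0, 0, 0⟩ 105,
  .sub 1 0,
  .mul 280 0,
  .mul 4 2,
  .add 0 454,
  .inv 0,
  .mul 3 0,
  .mul 272 164,
  .scale ⟨549755813888, 0, 0, 0⟩ 269,
  .add 449 0,
  .mul 2 0,
  .scale ⟨2199023255552, 0, 0, 0⟩ 0,
  .add 175 0,
  .scale ⟨2199023255552, 0, 0, 0⟩ 0,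
  .mul 0 164,
  .mul 463 164,
  .sub 449 0,
  .inv 0,
  .mul 3 0,
  .sub 12 0,
  .pos 277,
  .pos 274,
  .scale ⟨2199023255552, 0, 0, 0⟩ 173,
  .sub 427 0,
  .pos 0,
  .pos 165,
  .pos 345,
  .sub 471 301,
  .pos 0,
  .scale ⟨687194767360, 0, 0, 0⟩ 473,
  .sub 0 220,
  .pos 0,
  .scale ⟨377957122048, 0, 0, 0⟩ 475,
  .sub 0 226,
  .pos 0,
  .pos 10,
  .sub 476 88,
  .pos 0,
  .pos 168,
  .pos 154,
  .sub 4 162,
  .pos 0,
  .mul 298 298,
  .const ⟨14293651161088, 0, 0, 0⟩,
  .const ⟨10995116277760, 0, 0, 0⟩,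
  .inv 0,
  .mul 2 0,
  .mul 4 0,
  .const ⟨27487790694400, 0, 0, 0⟩,
  .add 1 0,
  .mul 66 62,
  .sub 456 490,
  .sub 0 458,
  .scale ⟨2199023255552, 0, 0, 0⟩ 488,
  .add 0 188,
  .mul 493 0,
  .mul 6 5,
  .mul 194 1,
  .mul 419 210,
  .mul 491 0,
  .mul 480 312,
  .mul 0 205,
  .mul 469 0,
  .add 3 0,
  .mul 502 0,
  .mul 7 0,
  .sub 9 0,
  .scale ⟨549755813888, 0, 0, 0⟩ 38,
  .add 505 0,
  .mul 206 0,
  .mul 509 491,
  .mul 0 328,
  .mul 492 465,
  .inv 0,
  .mul 2 0,
  .mul 5 0,
  .sub 23 0,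
  .mul 325 10,
  .sub 515 326,
  .mul 511 2,
  .mul 1 0,
  .mul 31 0,
  .add 4 0,
  .pos 50,
  .pos 72,
  .pos 0,
  .pos 6]

def chk1 {α : Type} (cst : Z → α) (add sub mul : α → α → α) (scale : Z → α → α)
    (neg inv exp log : α → α) (ok : α → Bool) (isPos : Nat → α → Bool) (isLt : α → Nat → Bool) :
    List α → Bool
  | [x0, x1, x2, x3] =>
  let v0 := cst ⟨1099511627776, 0, 0, 0⟩; ok v0 && (
  let v1 := cst ⟨549755813888, 0, 0, 0⟩; ok v1 && (
  let v2 := mul x1 x2; ok v2 && (
  let v3 := mul v2 x3; ok v3 && (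
  let v4 := scale ⟨549755813888, 0, 0, 0⟩ v3; ok v4 && (
  let v5 := mul x2 x2; ok v5 && (
  let v6 := mul v4 v4; ok v6 && (
  let v7 := sub v0 v6; ok v7 && (
  let v8 := inv v7; ok v8 && (
  let v9 := mul v4 v8; ok v9 && (
  let v10 := scale ⟨2199023255552, 0, 0, 0⟩ v9; ok v10 && (
  let v11 := scale ⟨2199023255552, 0, 0, 0⟩ v8; ok v11 && (
  let v12 := sub v11 v0; ok v12 && (
  let v13 := add v12 v10; ok v13 && (
  let v14 := mul x3 v8; ok v14 && (
  let v15 := mul x2 v14; ok v15 && (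
  let v16 := sub v0 v15; ok v16 && (
  let v17 := add v0 v15; ok v17 && (
  let v18 := scale ⟨10774999203840, 0, 0, 0⟩ v4; ok v18 && (
  let v19 := scale ⟨45768245248, 0, 0, 0⟩ v18; ok v19 && (
  let v20 := cst ⟨183207198720, 0, 0, 0⟩; ok v20 && (
  let v21 := add v19 v20; ok v21 && (
  let v22 := mul v18 v21; ok v22 && (
  let v23 := add v1 v22; ok v23 && (
  let v24 := mul v18 v23; ok v24 && (
  let v25 := add v0 v24; ok v25 && (
  let v26 := mul v18 v25; ok v26 && (
  let v27 := scale ⟨549755813888, 0, 0, 0⟩ v26; ok v27 && (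
  let v28 := add v0 v27; ok v28 && (
  let v29 := mul v25 v28; ok v29 && (
  let v30 := mul x1 v5; ok v30 && (
  let v31 := mul v10 v15; ok v31 && (
  let v32 := scale ⟨2199023255552, 0, 0, 0⟩ v12; ok v32 && (
  let v33 := add v31 v32; ok v33 && (
  let v34 := add v33 x1; ok v34 && (
  let v35 := mul v30 v34; ok v35 && (
  let v36 := add v35 v0; ok v36 && (
  let v37 := mul v10 v10; ok v37 && (
  let v38 := scale ⟨2199023255552, 0, 0, 0⟩ v37; ok v38 && (
  let v39 := add v38 v0; ok v39 && (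
  let v40 := mul v12 v34; ok v40 && (
  let v41 := sub v40 v0; ok v41 && (
  let v42 := log v36; ok v42 && (
  let v43 := scale ⟨549755813888, 0, 0, 0⟩ v42; ok v43 && (
  let v44 := exp v43; ok v44 && (
  let v45 := scale ⟨549755813888, 0, 0, 0⟩ x0; ok v45 && (
  let v46 := mul v45 v42; ok v46 && (
  let v47 := neg v46; ok v47 && (
  let v48 := exp v47; ok v48 && (
  let v49 := mul v12 v30; ok v49 && (
  let v50 := mul v49 v41; ok v50 && (
  let v51 := scale ⟨4398046511104, 0, 0, 0⟩ v50; ok v51 && (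
  let v52 := add v51 v0; ok v52 && (
  let v53 := log v52; ok v53 && (
  let v54 := sub v53 v42; ok v54 && (
  let v55 := mul v45 v54; ok v55 && (
  let v56 := neg v55; ok v56 && (
  let v57 := exp v56; ok v57 && (
  let v58 := mul v15 v10; ok v58 && (
  let v59 := add v12 v58; ok v59 && (
  let v60 := inv v59; ok v60 && (
  let v61 := mul v17 v60; ok v61 && (
  let v62 := mul v16 x1; ok v62 && (
  let v63 := mul v62 v61; ok v63 && (
  let v64 := mul v14 v14; ok v64 && (
  let v65 := sub v0 v5; ok v65 && (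
  let v66 := mul v64 v65; ok v66 && (
  let v67 := mul v2 v2; ok v67 && (
  let v68 := add v12 v30; ok v68 && (
  let v69 := inv v68; ok v69 && (
  let v70 := mul v69 x0; ok v70 && (
  let v71 := mul v70 v2; ok v71 && (
  let v72 := mul v71 v71; ok v72 && (
  let v73 := sub v0 v64; ok v73 && (
  let v74 := mul v65 v73; ok v74 && (
  let v75 := mul v72 v74; ok v75 && (
  let v76 := inv x0; ok v76 && (
  let v77 := cst ⟨45812285440, 0, 0, 0⟩; ok v77 && (
  let v78 := scale ⟨1527119872, 0, 0, 0⟩ v75; ok v78 && (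
  let v79 := sub v77 v78; ok v79 && (
  let v80 := mul v75 v79; ok v80 && (
  let v81 := sub v1 v80; ok v81 && (
  let v82 := mul v75 v81; ok v82 && (
  let v83 := sub v0 v82; ok v83 && (
  let v84 := add v48 v0; ok v84 && (
  let v85 := mul v48 v48; ok v85 && (
  let v86 := add v85 v0; ok v86 && (
  let v87 := mul v48 v83; ok v87 && (
  let v88 := scale ⟨2199023255552, 0, 0, 0⟩ v87; ok v88 && (
  let v89 := add v86 v88; ok v89 && (
  let v90 := inv v84; ok v90 && (
  let v91 := mul v89 v90; ok v91 && (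
  let v92 := add v91 v84; ok v92 && (
  let v93 := mul v48 v63; ok v93 && (
  let v94 := scale ⟨549755813888, 0, 0, 0⟩ v93; ok v94 && (
  let v95 := mul v94 v92; ok v95 && (
  let v96 := sub v89 v95; ok v96 && (
  isPos 4 v89 && (
  isPos 4 v96 && (
  let v97 := inv v96; ok v97 && (
  let v98 := mul v45 v34; ok v98 && (
  let v99 := cst ⟨6597069766656, 0, 0, 0⟩; ok v99 && (
  let v100 := add v35 v99; ok v100 && (
  let v101 := mul v98 v100; ok v101 && (
  let v102 := scale ⟨4398046511104, 0, 0, 0⟩ v35; ok v102 && (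
  let v103 := add v102 v99; ok v103 && (
  let v104 := inv v103; ok v104 && (
  let v105 := mul v101 v104; ok v105 && (
  let v106 := mul v30 v105; ok v106 && (
  let v107 := scale ⟨2199023255552, 0, 0, 0⟩ v106; ok v107 && (
  let v108 := scale ⟨183274307584, 0, 0, 0⟩ v107; ok v108 && (
  let v109 := sub v1 v108; ok v109 && (
  let v110 := mul v107 v109; ok v110 && (
  let v111 := sub v0 v110; ok v111 && (
  let v112 := mul v105 v111; ok v112 && (
  let v113 := mul v112 v97; ok v113 && (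
  let v114 := mul v30 v113; ok v114 && (
  let v115 := add v114 v1; ok v115 && (
  let v116 := inv v115; ok v116 && (
  let v117 := mul v113 v116; ok v117 && (
  let v118 := mul v30 v117; ok v118 && (
  let v119 := mul v94 v114; ok v119 && (
  let v120 := add v119 v1; ok v120 && (
  let v121 := mul v120 v92; ok v121 && (
  let v122 := inv v89; ok v122 && (
  let v123 := mul v121 v122; ok v123 && (
  let v124 := mul v63 v118; ok v124 && (
  let v125 := scale ⟨549755813888, 0, 0, 0⟩ v124; ok v125 && (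
  let v126 := sub v0 v125; ok v126 && (
  let v127 := sub v0 v124; ok v127 && (
  let v128 := inv v127; ok v128 && (
  let v129 := mul v126 v128; ok v129 && (
  let v130 := add v124 v0; ok v130 && (
  let v131 := mul v48 v130; ok v131 && (
  let v132 := mul v16 v17; ok v132 && (
  let v133 := add v12 x1; ok v133 && (
  let v134 := mul v15 v12; ok v134 && (
  let v135 := mul v134 v10; ok v135 && (
  let v136 := scale ⟨2199023255552, 0, 0, 0⟩ v135; ok v136 && (
  let v137 := add v39 v136; ok v137 && (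
  let v138 := mul v133 v137; ok v138 && (
  let v139 := inv v138; ok v139 && (
  let v140 := mul v132 v139; ok v140 && (
  let v141 := mul x1 v140; ok v141 && (
  let v142 := inv v36; ok v142 && (
  let v143 := mul v75 v142; ok v143 && (
  let v144 := scale ⟨1527119872, 0, 0, 0⟩ v143; ok v144 && (
  let v145 := sub v77 v144; ok v145 && (
  let v146 := mul v143 v145; ok v146 && (
  let v147 := sub v1 v146; ok v147 && (
  let v148 := mul v143 v147; ok v148 && (
  let v149 := sub v0 v148; ok v149 && (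
  let v150 := add v57 v0; ok v150 && (
  let v151 := mul v57 v57; ok v151 && (
  let v152 := add v151 v0; ok v152 && (
  let v153 := mul v57 v149; ok v153 && (
  let v154 := scale ⟨2199023255552, 0, 0, 0⟩ v153; ok v154 && (
  let v155 := add v152 v154; ok v155 && (
  let v156 := inv v150; ok v156 && (
  let v157 := mul v155 v156; ok v157 && (
  let v158 := add v157 v150; ok v158 && (
  let v159 := mul v57 v141; ok v159 && (
  let v160 := scale ⟨549755813888, 0, 0, 0⟩ v159; ok v160 && (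
  let v161 := mul v160 v158; ok v161 && (
  let v162 := sub v155 v161; ok v162 && (
  isPos 4 v155 && (
  isPos 4 v162 && (
  let v163 := sub v0 v57; ok v163 && (
  let v164 := mul v163 v150; ok v164 && (
  let v165 := inv v162; ok v165 && (
  let v166 := mul v164 v165; ok v166 && (
  let v167 := scale ⟨549755813888, 0, 0, 0⟩ v166; ok v167 && (
  let v168 := add v167 v1; ok v168 && (
  let v169 := inv v168; ok v169 && (
  let v170 := mul v167 v169; ok v170 && (
  let v171 := mul v141 v170; ok v171 && (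
  let v172 := add v4 v0; ok v172 && (
  let v173 := inv v172; ok v173 && (
  let v174 := mul v4 v173; ok v174 && (
  let v175 := scale ⟨2199023255552, 0, 0, 0⟩ v174; ok v175 && (
  let v176 := sub v0 v175; ok v176 && (
  let v177 := sub v0 v4; ok v177 && (
  let v178 := mul x3 v173; ok v178 && (
  let v179 := mul v178 v176; ok v179 && (
  let v180 := add v17 v179; ok v180 && (
  let v181 := mul x0 v10; ok v181 && (
  let v182 := cst ⟨5497558138880, 0, 0, 0⟩; ok v182 && (
  let v183 := inv v182; ok v183 && (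
  let v184 := mul v0 v183; ok v184 && (
  let v185 := mul x0 v184; ok v185 && (
  let v186 := scale ⟨5497558138880, 0, 0, 0⟩ v76; ok v186 && (
  let v187 := scale ⟨224412041216, 0, 0, 0⟩ v8; ok v187 && (
  let v188 := inv v29; ok v188 && (
  let v189 := mul v187 v188; ok v189 && (
  let v190 := mul v185 v17; ok v190 && (
  let v191 := mul v190 v189; ok v191 && (
  let v192 := mul v2 v191; ok v192 && (
  let v193 := sub v0 v192; ok v193 && (
  let v194 := inv v193; ok v194 && (
  let v195 := mul v131 v192; ok v195 && (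
  let v196 := sub v0 v195; ok v196 && (
  let v197 := inv v196; ok v197 && (
  let v198 := mul v16 v2; ok v198 && (
  let v199 := mul v198 v117; ok v199 && (
  let v200 := inv v14; ok v200 && (
  let v201 := mul v199 v200; ok v201 && (
  let v202 := scale ⟨549755813888, 0, 0, 0⟩ v201; ok v202 && (
  let v203 := sub v0 v202; ok v203 && (
  let v204 := sub v0 v201; ok v204 && (
  let v205 := inv v204; ok v205 && (
  let v206 := mul v203 v205; ok v206 && (
  let v207 := mul x2 v117; ok v207 && (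
  let v208 := mul v207 v206; ok v208 && (
  let v209 := mul x1 v208; ok v209 && (
  let v210 := mul v201 v206; ok v210 && (
  isPos 4 v204 && (
  let v211 := mul v210 v76; ok v211 && (
  let v212 := scale ⟨1374389534720, 0, 0, 0⟩ v211; ok v212 && (
  let v213 := sub v1 v212; ok v213 && (
  isPos 4 v213 && (
  let v214 := scale ⟨3092376453120, 0, 0, 0⟩ v211; ok v214 && (
  let v215 := cst ⟨2199023255552, 0, 0, 0⟩; ok v215 && (
  let v216 := add v214 v215; ok v216 && (
  let v217 := mul v211 v216; ok v217 && (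
  let v218 := add v0 v217; ok v218 && (
  let v219 := scale ⟨1546188226560, 0, 0, 0⟩ v211; ok v219 && (
  let v220 := add v219 v0; ok v220 && (
  let v221 := mul v211 v220; ok v221 && (
  let v222 := add v0 v221; ok v222 && (
  let v223 := mul v4 v14; ok v223 && (
  let v224 := sub v0 v66; ok v224 && (
  let v225 := mul v4 v15; ok v225 && (
  let v226 := scale ⟨2199023255552, 0, 0, 0⟩ v225; ok v226 && (
  let v227 := sub v224 v226; ok v227 && (
  let v228 := mul v223 v223; ok v228 && (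
  let v229 := add v227 v228; ok v229 && (
  let v230 := add v229 v0; ok v230 && (
  let v231 := scale ⟨549755813888, 0, 0, 0⟩ v230; ok v231 && (
  let v232 := scale ⟨549755813888, 0, 0, 0⟩ v30; ok v232 && (
  let v233 := sub v8 v232; ok v233 && (
  let v234 := mul v67 v224; ok v234 && (
  let v235 := mul v234 v7; ok v235 && (
  let v236 := scale ⟨137438953472, 0, 0, 0⟩ v235; ok v236 && (
  let v237 := add v233 v236; ok v237 && (
  let v238 := mul v231 v237; ok v238 && (
  let v239 := mul v16 v61; ok v239 && (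
  let v240 := mul v239 v2; ok v240 && (
  let v241 := mul v240 v117; ok v241 && (
  let v242 := mul v241 v129; ok v242 && (
  let v243 := mul v2 v242; ok v243 && (
  let v244 := add v131 v0; ok v244 && (
  let v245 := mul v244 v194; ok v245 && (
  let v246 := mul v131 v197; ok v246 && (
  let v247 := add v245 v246; ok v247 && (
  let v248 := mul v192 v247; ok v248 && (
  let v249 := add v243 v248; ok v249 && (
  let v250 := mul v249 v76; ok v250 && (
  let v251 := mul v244 v192; ok v251 && (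
  let v252 := mul v251 v194; ok v252 && (
  let v253 := add v243 v252; ok v253 && (
  let v254 := mul v253 v76; ok v254 && (
  let v255 := scale ⟨223338299392, 0, 0, 0⟩ v254; ok v255 && (
  let v256 := add v1 v255; ok v256 && (
  let v257 := mul v254 v256; ok v257 && (
  let v258 := add v0 v257; ok v258 && (
  let v259 := scale ⟨893353197568, 0, 0, 0⟩ v250; ok v259 && (
  let v260 := add v0 v259; ok v260 && (
  let v261 := mul v250 v260; ok v261 && (
  let v262 := add v0 v261; ok v262 && (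
  let v263 := mul v175 v178; ok v263 && (
  let v264 := mul v263 v218; ok v264 && (
  let v265 := mul v264 v262; ok v265 && (
  let v266 := mul v238 v258; ok v266 && (
  let v267 := add v44 v1; ok v267 && (
  let v268 := mul v265 v267; ok v268 && (
  let v269 := add v266 v268; ok v269 && (
  let v270 := add v44 v0; ok v270 && (
  let v271 := mul v265 v270; ok v271 && (
  let v272 := mul v222 v270; ok v272 && (
  let v273 := mul v272 v178; ok v273 && (
  let v274 := mul v273 v177; ok v274 && (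
  let v275 := mul v2 v180; ok v275 && (
  let v276 := inv v44; ok v276 && (
  let v277 := mul v275 v276; ok v277 && (
  let v278 := scale ⟨549755813888, 0, 0, 0⟩ v277; ok v278 && (
  let v279 := mul v61 v2; ok v279 && (
  let v280 := mul v279 v117; ok v280 && (
  let v281 := mul v280 v129; ok v281 && (
  let v282 := mul v16 v278; ok v282 && (
  let v283 := mul v269 v281; ok v283 && (
  let v284 := mul v274 v209; ok v284 && (
  let v285 := add v283 v284; ok v285 && (
  let v286 := mul v285 v76; ok v286 && (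
  let v287 := add v282 v286; ok v287 && (
  let v288 := mul v269 v244; ok v288 && (
  let v289 := mul v288 v194; ok v289 && (
  let v290 := mul v271 v131; ok v290 && (
  let v291 := mul v290 v197; ok v291 && (
  let v292 := add v289 v291; ok v292 && (
  let v293 := mul v292 v76; ok v293 && (
  let v294 := mul v16 v287; ok v294 && (
  let v295 := mul v191 v293; ok v295 && (
  let v296 := add v294 v295; ok v296 && (
  let v297 := mul v67 v296; ok v297 && (
  let v298 := mul v297 v276; ok v298 && (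
  let v299 := sub v0 v298; ok v299 && (
  let v300 := inv v299; ok v300 && (
  let v301 := mul v296 v300; ok v301 && (
  let v302 := mul x1 v301; ok v302 && (
  let v303 := mul v67 v301; ok v303 && (
  let v304 := mul v303 v276; ok v304 && (
  let v305 := sub v0 v304; ok v305 && (
  let v306 := mul v41 v305; ok v306 && (
  let v307 := sub v306 v302; ok v307 && (
  let v308 := inv v307; ok v308 && (
  let v309 := mul v302 v308; ok v309 && (
  let v310 := sub v0 v302; ok v310 && (
  let v311 := inv v310; ok v311 && (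
  let v312 := mul v63 v117; ok v312 && (
  let v313 := mul v312 v129; ok v313 && (
  let v314 := add v105 v313; ok v314 && (
  let v315 := mul v314 v311; ok v315 && (
  let v316 := mul v315 v303; ok v316 && (
  let v317 := scale ⟨223338299392, 0, 0, 0⟩ v316; ok v317 && (
  let v318 := add v1 v317; ok v318 && (
  let v319 := mul v316 v318; ok v319 && (
  let v320 := add v0 v319; ok v320 && (
  let v321 := mul v316 v320; ok v321 && (
  let v322 := mul v321 v123; ok v322 && (
  let v323 := mul v322 v131; ok v323 && (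
  let v324 := sub v0 v323; ok v324 && (
  let v325 := mul v315 v320; ok v325 && (
  let v326 := mul v325 v300; ok v326 && (
  let v327 := mul v326 v76; ok v327 && (
  let v328 := inv v324; ok v328 && (
  let v329 := mul v327 v328; ok v329 && (
  let v330 := mul v329 x2; ok v330 && (
  let v331 := mul v269 v194; ok v331 && (
  let v332 := mul v271 v123; ok v332 && (
  let v333 := mul v332 v131; ok v333 && (
  let v334 := mul v333 v197; ok v334 && (
  let v335 := add v331 v334; ok v335 && (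
  let v336 := mul v330 v335; ok v336 && (
  let v337 := mul v269 v61; ok v337 && (
  let v338 := mul v2 v113; ok v338 && (
  let v339 := mul v337 v338; ok v339 && (
  let v340 := mul v339 v129; ok v340 && (
  let v341 := mul v185 v2; ok v341 && (
  let v342 := mul v341 v17; ok v342 && (
  let v343 := mul v342 v16; ok v343 && (
  let v344 := cst ⟨3298534883328, 0, 0, 0⟩; ok v344 && (
  let v345 := mul v344 v183; ok v345 && (
  let v346 := mul v329 v186; ok v346 && (
  let v347 := mul v346 x2; ok v347 && (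
  let v348 := inv v17; ok v348 && (
  let v349 := mul v347 v348; ok v349 && (
  let v350 := mul x0 v123; ok v350 && (
  let v351 := mul v350 v16; ok v351 && (
  let v352 := mul x2 v180; ok v352 && (
  let v353 := mul v352 v276; ok v353 && (
  let v354 := scale ⟨549755813888, 0, 0, 0⟩ v353; ok v354 && (
  let v355 := mul v351 v354; ok v355 && (
  let v356 := mul v337 x2; ok v356 && (
  let v357 := mul v356 v113; ok v357 && (
  let v358 := mul v357 v129; ok v358 && (
  let v359 := add v355 v358; ok v359 && (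
  let v360 := mul v123 v274; ok v360 && (
  let v361 := mul v360 v208; ok v361 && (
  let v362 := add v359 v361; ok v362 && (
  let v363 := mul v349 v362; ok v363 && (
  let v364 := mul v12 v41; ok v364 && (
  let v365 := scale ⟨4398046511104, 0, 0, 0⟩ v364; ok v365 && (
  let v366 := sub v365 v34; ok v366 && (
  let v367 := mul v5 v366; ok v367 && (
  let v368 := mul v367 v142; ok v368 && (
  let v369 := mul x0 v368; ok v369 && (
  let v370 := mul x1 v368; ok v370 && (
  let v371 := add v370 v215; ok v371 && (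
  let v372 := inv v371; ok v372 && (
  let v373 := mul v369 v372; ok v373 && (
  let v374 := mul x1 v373; ok v374 && (
  let v375 := scale ⟨549755813888, 0, 0, 0⟩ v374; ok v375 && (
  let v376 := sub v0 v375; ok v376 && (
  let v377 := mul v373 v376; ok v377 && (
  let v378 := neg v377; ok v378 && (
  let v379 := mul v140 v170; ok v379 && (
  let v380 := add v378 v379; ok v380 && (
  let v381 := mul v378 v379; ok v381 && (
  let v382 := mul x1 v381; ok v382 && (
  let v383 := add v380 v382; ok v383 && (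
  let v384 := mul v45 v368; ok v384 && (
  let v385 := add v171 v0; ok v385 && (
  let v386 := mul v379 v385; ok v386 && (
  let v387 := add v384 v386; ok v387 && (
  let v388 := mul v309 v387; ok v388 && (
  let v389 := mul x1 v388; ok v389 && (
  let v390 := scale ⟨687194767360, 0, 0, 0⟩ v389; ok v390 && (
  let v391 := add v0 v390; ok v391 && (
  let v392 := mul v388 v391; ok v392 && (
  let v393 := add v383 v392; ok v393 && (
  let v394 := mul v383 v392; ok v394 && (
  let v395 := mul x1 v394; ok v395 && (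
  let v396 := add v393 v395; ok v396 && (
  let v397 := mul x2 x3; ok v397 && (
  let v398 := mul v397 v172; ok v398 && (
  let v399 := mul v398 v8; ok v399 && (
  let v400 := add v396 v399; ok v400 && (
  let v401 := mul v396 v399; ok v401 && (
  let v402 := mul x1 v401; ok v402 && (
  let v403 := add v400 v402; ok v403 && (
  let v404 := mul v5 v34; ok v404 && (
  let v405 := mul x1 v404; ok v405 && (
  let v406 := scale ⟨412316860416, 0, 0, 0⟩ v405; ok v406 && (
  let v407 := sub v1 v406; ok v407 && (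
  let v408 := mul v404 v407; ok v408 && (
  let v409 := neg v408; ok v409 && (
  let v410 := add v403 v409; ok v410 && (
  let v411 := mul v403 v409; ok v411 && (
  let v412 := mul x1 v411; ok v412 && (
  let v413 := add v410 v412; ok v413 && (
  let v414 := mul x2 v301; ok v414 && (
  let v415 := mul v414 v348; ok v415 && (
  let v416 := add v413 v415; ok v416 && (
  let v417 := mul v413 v415; ok v417 && (
  let v418 := mul x1 v417; ok v418 && (
  let v419 := add v416 v418; ok v419 && (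
  let v420 := mul v172 v17; ok v420 && (
  let v421 := mul v420 v345; ok v421 && (
  let v422 := sub v419 v421; ok v422 && (
  let v423 := mul x1 v421; ok v423 && (
  let v424 := add v0 v423; ok v424 && (
  let v425 := inv v424; ok v425 && (
  let v426 := mul v422 v425; ok v426 && (
  let v427 := mul x2 v2; ok v427 && (
  let v428 := mul v427 v301; ok v428 && (
  let v429 := sub v44 v303; ok v429 && (
  let v430 := inv v429; ok v430 && (
  let v431 := mul v428 v430; ok v431 && (
  let v432 := add v426 v431; ok v432 && (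
  let v433 := mul v426 v431; ok v433 && (
  let v434 := mul x1 v433; ok v434 && (
  let v435 := add v432 v434; ok v435 && (
  let v436 := mul x1 v435; ok v436 && (
  let v437 := add v0 v436; ok v437 && (
  let v438 := mul v336 v192; ok v438 && (
  let v439 := mul x1 v343; ok v439 && (
  let v440 := mul v363 v439; ok v440 && (
  let v441 := add v438 v440; ok v441 && (
  let v442 := mul v441 v437; ok v442 && (
  let v443 := add v435 v442; ok v443 && (
  let v444 := add v443 v336; ok v444 && (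
  let v445 := add v444 v363; ok v445 && (
  let v446 := neg v445; ok v446 && (
  let v447 := cst ⟨1073741824, 0, 0, 0⟩; ok v447 && (
  let v448 := sub v446 v447; ok v448 && (
  let v449 := sub v13 v0; ok v449 && (
  let v450 := add v449 v215; ok v450 && (
  let v451 := scale ⟨2199023255552, 0, 0, 0⟩ v345; ok v451 && (
  let v452 := sub v450 v451; ok v452 && (
  let v453 := mul v172 v452; ok v453 && (
  let v454 := mul v449 v451; ok v454 && (
  let v455 := add v454 v0; ok v455 && (
  let v456 := inv v455; ok v456 && (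
  let v457 := mul v453 v456; ok v457 && (
  let v458 := mul v185 v293; ok v458 && (
  let v459 := scale ⟨549755813888, 0, 0, 0⟩ v189; ok v459 && (
  let v460 := add v10 v459; ok v460 && (
  let v461 := mul v458 v460; ok v461 && (
  let v462 := scale ⟨2199023255552, 0, 0, 0⟩ v461; ok v462 && (
  let v463 := add v287 v462; ok v463 && (
  let v464 := scale ⟨2199023255552, 0, 0, 0⟩ v463; ok v464 && (
  let v465 := mul v464 v300; ok v465 && (
  let v466 := mul v2 v301; ok v466 && (
  let v467 := sub v17 v466; ok v467 && (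
  let v468 := inv v467; ok v468 && (
  let v469 := mul v465 v468; ok v469 && (
  let v470 := sub v457 v469; ok v470 && (
  isPos 4 v193 && (
  isPos 4 v196 && (
  let v471 := scale ⟨2199023255552, 0, 0, 0⟩ v297; ok v471 && (
  let v472 := sub v44 v471; ok v472 && (
  isPos 4 v472 && (
  isPos 4 v307 && (
  isPos 4 v127 && (
  let v473 := sub v1 v171; ok v473 && (
  isPos 4 v473 && (
  let v474 := scale ⟨687194767360, 0, 0, 0⟩ v0; ok v474 && (
  let v475 := sub v474 v254; ok v475 && (
  isPos 4 v475 && (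
  let v476 := scale ⟨377957122048, 0, 0, 0⟩ v0; ok v476 && (
  let v477 := sub v476 v250; ok v477 && (
  isPos 4 v477 && (
  isPos 4 v467 && (
  let v478 := sub v1 v389; ok v478 && (
  isPos 4 v478 && (
  isPos 4 v310 && (
  isPos 4 v324 && (
  let v479 := sub v474 v316; ok v479 && (
  isPos 4 v479 && (
  let v480 := mul v181 v181; ok v480 && (
  let v481 := cst ⟨14293651161088, 0, 0, 0⟩; ok v481 && (
  let v482 := cst ⟨10995116277760, 0, 0, 0⟩; ok v482 && (
  let v483 := inv v482; ok v483 && (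
  let v484 := mul v481 v483; ok v484 && (
  let v485 := mul v480 v484; ok v485 && (
  let v486 := cst ⟨27487790694400, 0, 0, 0⟩; ok v486 && (
  let v487 := add v485 v486; ok v487 && (
  let v488 := mul v421 v425; ok v488 && (
  let v489 := sub v32 x1; ok v489 && (
  let v490 := sub v489 v31; ok v490 && (
  let v491 := scale ⟨2199023255552, 0, 0, 0⟩ v2; ok v491 && (
  let v492 := add v491 v303; ok v492 && (
  let v493 := mul x0 v492; ok v493 && (
  let v494 := mul v487 v488; ok v494 && (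
  let v495 := mul v300 v493; ok v495 && (
  let v496 := mul v76 v285; ok v496 && (
  let v497 := mul v5 v496; ok v497 && (
  let v498 := mul v17 v185; ok v498 && (
  let v499 := mul v498 v293; ok v499 && (
  let v500 := mul v30 v499; ok v500 && (
  let v501 := add v497 v500; ok v501 && (
  let v502 := mul x0 v501; ok v502 && (
  let v503 := mul v495 v502; ok v503 && (
  let v504 := sub v494 v503; ok v504 && (
  let v505 := scale ⟨549755813888, 0, 0, 0⟩ v466; ok v505 && (
  let v506 := add v0 v505; ok v506 && (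
  let v507 := mul v300 v506; ok v507 && (
  let v508 := mul x1 v16; ok v508 && (
  let v509 := mul v508 v180; ok v509 && (
  let v510 := mul v17 v44; ok v510 && (
  let v511 := inv v510; ok v511 && (
  let v512 := mul v509 v511; ok v512 && (
  let v513 := mul v507 v512; ok v513 && (
  let v514 := sub v490 v513; ok v514 && (
  let v515 := mul v189 v504; ok v515 && (
  let v516 := sub v0 v189; ok v516 && (
  let v517 := mul v5 v514; ok v517 && (
  let v518 := mul v516 v517; ok v518 && (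
  let v519 := mul v487 v518; ok v519 && (
  let v520 := add v515 v519; ok v520 && (
  isPos 4 v470 && (
  isPos 4 v448 && (
  isPos 4 v520 && (
  isPos 4 v514 && (
  true))))))))))))))))))))))))))))))))))))))))))))))))))))))))))))))))))))))))))))))))))))))))))))))))))))))))))))))))))))))))))))))))))))))))))))))))))))))))))))))))))))))))))))))))))))))))))))))))))))))))))))))))))))))))))))))))))))))))))))))))))))))))))))))))))))))))))))))))))))))))))))))))))))))))))))))))))))))))))))))))))))))))))))))))))))))))))))))))))))))))))))))))))))))))))))))))))))))))))))))))))))))))))))))))))))))))))))))))))))))))))))))))))))))))))))))))))))))))))))))))))))))))))))))))))))))))))))))))))))))))))))))))))))))))))))))))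
  | _ => false

set_option maxRecDepth 1000000 in
theorem chk1_eq (O : Ops) (m : List O.α)
    (h : chk1 O.cst O.add O.sub O.mul O.scale O.neg O.inv O.exp O.log O.ok O.isPos O.isLt m = true) :
    runG O 4 prog1 m = true := by
  match m, h with
  | [x0, x1, x2, x3], h => exact h

def chkB1 : List opsE.α → Bool :=
  chk1 opsE.cst opsE.add opsE.sub opsE.mul opsE.scale opsE.neg opsE.inv opsE.exp opsE.log opsE.ok opsE.isPos opsE.isLt

theorem chkB1_eq (m : List opsE.α) (h : chkB1 m = true) : runG opsE 4 prog1 m = true :=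
  chk1_eq opsE m h

def prog2 : List Op := [
  .const ⟨1099511627776, 0, 0, 0⟩,
  .const ⟨549755813888, 0, 0, 0⟩,
  .mul 3 4,
  .mul 0 6,
  .scale ⟨549755813888, 0, 0, 0⟩ 0,
  .mul 7 7,
  .mul 1 1,
  .sub 6 0,
  .inv 0,
  .mul 4 0,
  .scale ⟨2199023255552, 0, 0, 0⟩ 0,
  .scale ⟨2199023255552, 0, 0, 0⟩ 2,
  .sub 0 11,
  .add 0 2,
  .mul 17 5,
  .mul 17 0,
  .sub 15 0,
  .add 16 1,
  .scale ⟨10774999203840, 0, 0, 0⟩ 13,
  .scale ⟨45768245248, 0, 0, 0⟩ 0,
  .const ⟨183207198720, 0, 0, 0⟩,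
  .add 1 0,
  .mul 3 0,
  .add 21 0,
  .mul 5 0,
  .add 24 0,
  .mul 7 0,
  .scale ⟨549755813888, 0, 0, 0⟩ 0,
  .add 27 0,
  .mul 3 0,
  .mul 31 24,
  .mul 20 15,
  .scale ⟨2199023255552, 0, 0, 0⟩ 19,
  .add 1 0,
  .add 0 35,
  .mul 4 0,
  .add 0 35,
  .mul 26 26,
  .scale ⟨2199023255552, 0, 0, 0⟩ 0,
  .add 0 38,
  .mul 27 5,
  .sub 0 40,
  .log 5,
  .scale ⟨549755813888, 0, 0, 0⟩ 0,
  .exp 0,
  .scale ⟨549755813888, 0, 0, 0⟩ 45,
  .mul 0 3,
  .neg 0,
  .exp 0,
  .mul 36 18,
  .mul 0 8,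
  .scale ⟨4398046511104, 0, 0, 0⟩ 0,
  .add 0 51,
  .log 0,
  .sub 0 11,
  .mul 9 0,
  .neg 0,
  .exp 0,
  .mul 42 47,
  .add 46 0,
  .inv 0,
  .mul 43 0,
  .mul 45 63,
  .mul 0 1,
  .mul 49 49,
  .sub 64 59,
  .mul 1 0,
  .mul 64 64,
  .add 55 37,
  .inv 0,
  .mul 0 70,
  .mul 0 68,
  .mul 0 0,
  .sub 72 8,
  .mul 8 0,
  .mul 2 0,
  .inv 76,
  .const ⟨45812285440, 0, 0, 0⟩,
  .scale ⟨1527119872, 0, 0, 0⟩ 2,
  .sub 1 0,
  .mul 4 0,
  .sub 79 0,
  .mul 6 0,
  .sub 82 0,
  .add 35 83,
  .mul 36 36,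
  .add 0 85,
  .mul 38 3,
  .scale ⟨2199023255552, 0, 0, 0⟩ 0,
  .add 2 0,
  .inv 5,
  .mul 1 0,
  .add 0 7,
  .mul 44 29,
  .scale ⟨549755813888, 0, 0, 0⟩ 0,
  .mul 0 2,
  .sub 6 0,
  .pos 7,
  .pos 0,
  .inv 0,
  .mul 52 63,
  .const ⟨6597069766656, 0, 0, 0⟩,
  .add 64 0,
  .mul 2 0,
  .scale ⟨4398046511104, 0, 0, 0⟩ 66,
  .add 0 3,
  .inv 0,
  .mul 3 0,
  .mul 75 0,
  .scale ⟨2199023255552, 0, 0, 0⟩ 0,
  .scale ⟨183274307584, 0, 0, 0⟩ 0,
  .sub 107 0,
  .mul 2 0,
  .sub 110 0,
  .mul 6 0,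
  .mul 0 15,
  .mul 83 0,
  .add 0 113,
  .inv 0,
  .mul 3 0,
  .mul 87 0,
  .mul 24 4,
  .add 0 118,
  .mul 0 28,
  .inv 32,
  .mul 1 0,
  .mul 60 5,
  .scale ⟨549755813888, 0, 0, 0⟩ 0,
  .sub 125 0,
  .sub 126 2,
  .inv 0,
  .mul 2 0,
  .add 5 129,
  .mul 82 0,
  .mul 115 114,
  .add 120 134,
  .mul 118 121,
  .mul 0 124,
  .scale ⟨2199023255552, 0, 0, 0⟩ 0,
  .add 97 0,
  .mul 4 0,
  .inv 0,
  .mul 7 0,
  .mul 142 0,
  .inv 105,
  .mul 67 0,
  .scale ⟨1527119872, 0, 0, 0⟩ 0,
  .sub 67 0,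
  .mul 2 0,
  .sub 145 0,
  .mul 4 0,
  .sub 148 0,
  .add 92 149,
  .mul 93 93,
  .add 0 151,
  .mul 95 3,
  .scale ⟨2199023255552, 0, 0, 0⟩ 0,
  .add 2 0,
  .inv 5,
  .mul 1 0,
  .add 0 7,
  .mul 101 17,
  .scale ⟨549755813888, 0, 0, 0⟩ 0,
  .mul 0 2,
  .sub 6 0,
  .pos 7,
  .pos 0,
  .sub 162 105,
  .mul 0 13,
  .inv 2,
  .mul 1 0,
  .scale ⟨549755813888, 0, 0, 0⟩ 0,
  .add 0 166,
  .inv 0,
  .mul 2 0,
  .mul 29 0,
  .add 167 171,
  .inv 0,
  .mul 169 0,
  .scale ⟨2199023255552, 0, 0, 0⟩ 0,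
  .sub 175 0,
  .sub 176 172,
  .mul 181 4,
  .mul 0 2,
  .add 162 0,
  .mul 181 170,
  .const ⟨5497558138880, 0, 0, 0⟩,
  .inv 0,
  .mul 183 0,
  .mul 185 0,
  .scale ⟨5497558138880, 0, 0, 0⟩ 109,
  .scale ⟨224412041216, 0, 0, 0⟩ 178,
  .inv 158,
  .mul 1 0,
  .mul 4 172,
  .mul 0 1,
  .mul 189 0,
  .sub 192 0,
  .inv 0,
  .mul 63 2,
  .sub 195 0,
  .inv 0,
  .mul 199 80,
  .scale ⟨1649267441664, 0, 0, 0⟩ 0,
  .const ⟨733365665792, 0, 0, 0⟩,
  .add 1 0,
  .scale ⟨549755813888, 0, 0, 0⟩ 0,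
  .scale ⟨2199023255552, 0, 0, 0⟩ 126,
  .add 0 203,
  .add 128 204,
  .mul 201 191,
  .sub 206 140,
  .mul 203 192,
  .scale ⟨2199023255552, 0, 0, 0⟩ 0,
  .sub 2 0,
  .mul 4 4,
  .add 1 0,
  .add 0 212,
  .scale ⟨549755813888, 0, 0, 0⟩ 0,
  .scale ⟨549755813888, 0, 0, 0⟩ 184,
  .sub 207 0,
  .mul 149 9,
  .mul 0 210,
  .scale ⟨137438953472, 0, 0, 0⟩ 0,
  .add 3 0,
  .mul 6 0,
  .mul 205 160,
  .mul 0 220,
  .mul 0 106,
  .mul 0 95,
  .mul 223 0,
  .add 95 226,
  .mul 0 33,
  .mul 97 31,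
  .add 1 0,
  .mul 38 0,
  .add 5 0,
  .mul 0 156,
  .mul 6 41,
  .mul 0 40,
  .add 9 0,
  .mul 0 160,
  .scale ⟨223338299392, 0, 0, 0⟩ 0,
  .add 237 0,
  .mul 2 0,
  .add 240 0,
  .scale ⟨893353197568, 0, 0, 0⟩ 8,
  .add 242 0,
  .mul 10 0,
  .add 244 0,
  .mul 70 67,
  .mul 0 42,
  .mul 0 2,
  .mul 27 7,
  .add 205 248,
  .mul 2 0,
  .add 2 0,
  .add 208 252,
  .mul 5 0,
  .mul 49 1,
  .mul 0 77,
  .mul 0 79,
  .mul 255 77,
  .inv 214,
  .mul 1 0,
  .scale ⟨549755813888, 0, 0, 0⟩ 0,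
  .mul 200 259,
  .mul 0 145,
  .mul 0 134,
  .mul 248 3,
  .mul 13 1,
  .mul 9 64,
  .add 1 0,
  .mul 0 192,
  .add 4 0,
  .mul 18 43,
  .mul 0 77,
  .mul 18 141,
  .mul 0 76,
  .add 2 0,
  .mul 0 199,
  .mul 260 6,
  .mul 86 1,
  .add 1 0,
  .mul 212 0,
  .mul 0 21,
  .sub 281 0,
  .inv 0,
  .mul 4 0,
  .mul 286 0,
  .mul 218 1,
  .mul 0 27,
  .sub 287 0,
  .mul 247 0,
  .sub 0 4,
  .inv 0,
  .mul 6 0,
  .sub 292 7,
  .inv 0,
  .mul 231 177,
  .mul 0 166,
  .add 191 0,
  .mul 0 3,
  .mul 0 12,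
  .scale ⟨223338299392, 0, 0, 0⟩ 0,
  .add 299 0,
  .mul 2 0,
  .add 302 0,
  .mul 4 0,
  .mul 0 181,
  .mul 0 174,
  .sub 306 0,
  .mul 9 4,
  .mul 0 25,
  .mul 0 233,
  .inv 3,
  .mul 1 0,
  .mul 0 315,
  .mul 61 119,
  .mul 60 191,
  .mul 0 184,
  .mul 0 119,
  .add 3 0,
  .mul 5 0,
  .mul 67 258,
  .mul 318 207,
  .mul 1 0,
  .mul 0 193,
  .mul 138 321,
  .mul 0 307,
  .mul 0 309,
  .const ⟨3298534883328, 0, 0, 0⟩,
  .mul 0 144,
  .inv 330,
  .mul 127 0,
  .mul 18 144,
  .mul 0 334,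
  .inv 315,
  .mul 1 0,
  .mul 335 211,
  .mul 0 319,
  .mul 339 156,
  .mul 0 78,
  .scale ⟨549755813888, 0, 0, 0⟩ 0,
  .mul 3 0,
  .mul 20 343,
  .mul 0 228,
  .mul 0 213,
  .add 3 0,
  .mul 221 87,
  .mul 0 15,
  .add 2 0,
  .mul 13 0,
  .mul 336 307,
  .scale ⟨4398046511104, 0, 0, 0⟩ 0,
  .sub 0 316,
  .mul 346 0,
  .mul 0 210,
  .mul 354 0,
  .mul 356 1,
  .const ⟨2199023255552, 0, 0, 0⟩,
  .add 1 0,
  .inv 0,
  .mul 4 0,
  .mul 361 0,
  .scale ⟨549755813888, 0, 0, 0⟩ 0,
  .sub 361 0,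
  .mul 3 0,
  .neg 0,
  .mul 224 194,
  .add 1 0,
  .mul 2 1,
  .mul 369 0,
  .add 2 0,
  .mul 324 16,
  .add 199 370,
  .mul 6 0,
  .add 2 0,
  .mul 81 0,
  .mul 376 0,
  .scale ⟨687194767360, 0, 0, 0⟩ 0,
  .add 376 0,
  .mul 3 0,
  .add 9 0,
  .mul 10 1,
  .mul 382 0,
  .add 2 0,
  .mul 385 386,
  .mul 0 211,
  .mul 0 376,
  .add 3 0,
  .mul 4 1,
  .mul 389 0,
  .add 2 0,
  .mul 384 355,
  .mul 392 0,
  .scale ⟨412316860416, 0, 0, 0⟩ 0,
  .sub 391 0,
  .mul 3 0,
  .neg 0,
  .add 6 0,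
  .mul 7 1,
  .mul 399 0,
  .add 2 0,
  .mul 402 115,
  .mul 0 67,
  .add 2 0,
  .mul 3 1,
  .mul 405 0,
  .add 2 0,
  .mul 233 388,
  .mul 0 78,
  .sub 2 0,
  .mul 410 1,
  .add 409 0,
  .inv 0,
  .mul 3 0,
  .mul 415 410,
  .mul 0 129,
  .sub 370 128,
  .inv 0,
  .mul 2 0,
  .add 5 0,
  .mul 6 1,
  .mul 421 0,
  .add 2 0,
  .mul 423 0,
  .add 422 0,
  .mul 104 231,
  .mul 426 98,
  .mul 77 0,
  .add 2 0,
  .mul 0 4,
  .add 7 0,
  .add 0 110,
  .add 0 82,
  .neg 0,
  .const ⟨1073741824, 0, 0, 0⟩,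
  .sub 1 0,
  .sub 421 434,
  .add 0 79,
  .scale ⟨2199023255552, 0, 0, 0⟩ 108,
  .sub 1 0,
  .mul 266 0,
  .mul 4 2,
  .add 0 440,
  .inv 0,
  .mul 3 0,
  .mul 258 167,
  .scale ⟨549755813888, 0, 0, 0⟩ 255,
  .add 435 0,
  .mul 2 0,
  .scale ⟨2199023255552, 0, 0, 0⟩ 0,
  .add 178 0,
  .scale ⟨2199023255552, 0, 0, 0⟩ 0,
  .mul 0 167,
  .mul 449 167,
  .sub 435 0,
  .inv 0,
  .mul 3 0,
  .sub 12 0,
  .pos 263,
  .pos 260,
  .scale ⟨2199023255552, 0, 0, 0⟩ 176,
  .sub 413 0,
  .pos 0,
  .pos 168,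
  .pos 331,
  .sub 457 287,
  .pos 0,
  .scale ⟨687194767360, 0, 0, 0⟩ 459,
  .sub 0 223,
  .pos 0,
  .scale ⟨377957122048, 0, 0, 0⟩ 461,
  .sub 0 229,
  .pos 0,
  .pos 10,
  .sub 462 88,
  .pos 0,
  .pos 171,
  .pos 157,
  .sub 4 165,
  .pos 0,
  .mul 284 284,
  .const ⟨14293651161088, 0, 0, 0⟩,
  .const ⟨10995116277760, 0, 0, 0⟩,
  .inv 0,
  .mul 2 0,
  .mul 4 0,
  .const ⟨27487790694400, 0, 0, 0⟩,
  .add 1 0,
  .mul 66 62,
  .sub 442 476,
  .sub 0 444,
  .scale ⟨2199023255552, 0, 0, 0⟩ 474,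
  .add 0 191,
  .mul 479 0,
  .mul 6 5,
  .mul 197 1,
  .mul 405 213,
  .mul 477 0,
  .mul 466 298,
  .mul 0 208,
  .mul 455 0,
  .add 3 0,
  .mul 488 0,
  .mul 7 0,
  .sub 9 0,
  .scale ⟨549755813888, 0, 0, 0⟩ 38,
  .add 491 0,
  .mul 209 0,
  .mul 495 477,
  .mul 0 314,
  .mul 478 451,
  .inv 0,
  .mul 2 0,
  .mul 5 0,
  .sub 23 0,
  .mul 311 10,
  .sub 501 312,
  .mul 497 2,
  .mul 1 0,
  .mul 31 0,
  .add 4 0,
  .pos 50,
  .pos 72,
  .pos 0,
  .pos 6]

def chk2 {α : Type} (cst : Z → α) (add sub mul : α → α → α) (scale : Z → α → α)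
    (neg inv exp log : α → α) (ok : α → Bool) (isPos : Nat → α → Bool) (isLt : α → Nat → Bool) :
    List α → Bool
  | [x0, x1, x2, x3] =>
  let v0 := cst ⟨1099511627776, 0, 0, 0⟩; ok v0 && (
  let v1 := cst ⟨549755813888, 0, 0, 0⟩; ok v1 && (
  let v2 := mul x1 x2; ok v2 && (
  let v3 := mul v2 x3; ok v3 && (
  let v4 := scale ⟨549755813888, 0, 0, 0⟩ v3; ok v4 && (
  let v5 := mul x2 x2; ok v5 && (
  let v6 := mul v4 v4; ok v6 && (
  let v7 := sub v0 v6; ok v7 && (
  let v8 := inv v7; ok v8 && (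
  let v9 := mul v4 v8; ok v9 && (
  let v10 := scale ⟨2199023255552, 0, 0, 0⟩ v9; ok v10 && (
  let v11 := scale ⟨2199023255552, 0, 0, 0⟩ v8; ok v11 && (
  let v12 := sub v11 v0; ok v12 && (
  let v13 := add v12 v10; ok v13 && (
  let v14 := mul x3 v8; ok v14 && (
  let v15 := mul x2 v14; ok v15 && (
  let v16 := sub v0 v15; ok v16 && (
  let v17 := add v0 v15; ok v17 && (
  let v18 := scale ⟨10774999203840, 0, 0, 0⟩ v4; ok v18 && (
  let v19 := scale ⟨45768245248, 0, 0, 0⟩ v18; ok v19 && (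
  let v20 := cst ⟨183207198720, 0, 0, 0⟩; ok v20 && (
  let v21 := add v19 v20; ok v21 && (
  let v22 := mul v18 v21; ok v22 && (
  let v23 := add v1 v22; ok v23 && (
  let v24 := mul v18 v23; ok v24 && (
  let v25 := add v0 v24; ok v25 && (
  let v26 := mul v18 v25; ok v26 && (
  let v27 := scale ⟨549755813888, 0, 0, 0⟩ v26; ok v27 && (
  let v28 := add v0 v27; ok v28 && (
  let v29 := mul v25 v28; ok v29 && (
  let v30 := mul x1 v5; ok v30 && (
  let v31 := mul v10 v15; ok v31 && (
  let v32 := scale ⟨2199023255552, 0, 0, 0⟩ v12; ok v32 && (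
  let v33 := add v31 v32; ok v33 && (
  let v34 := add v33 x1; ok v34 && (
  let v35 := mul v30 v34; ok v35 && (
  let v36 := add v35 v0; ok v36 && (
  let v37 := mul v10 v10; ok v37 && (
  let v38 := scale ⟨2199023255552, 0, 0, 0⟩ v37; ok v38 && (
  let v39 := add v38 v0; ok v39 && (
  let v40 := mul v12 v34; ok v40 && (
  let v41 := sub v40 v0; ok v41 && (
  let v42 := log v36; ok v42 && (
  let v43 := scale ⟨549755813888, 0, 0, 0⟩ v42; ok v43 && (
  let v44 := exp v43; ok v44 && (
  let v45 := scale ⟨549755813888, 0, 0, 0⟩ x0; ok v45 && (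
  let v46 := mul v45 v42; ok v46 && (
  let v47 := neg v46; ok v47 && (
  let v48 := exp v47; ok v48 && (
  let v49 := mul v12 v30; ok v49 && (
  let v50 := mul v49 v41; ok v50 && (
  let v51 := scale ⟨4398046511104, 0, 0, 0⟩ v50; ok v51 && (
  let v52 := add v51 v0; ok v52 && (
  let v53 := log v52; ok v53 && (
  let v54 := sub v53 v42; ok v54 && (
  let v55 := mul v45 v54; ok v55 && (
  let v56 := neg v55; ok v56 && (
  let v57 := exp v56; ok v57 && (
  let v58 := mul v15 v10; ok v58 && (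
  let v59 := add v12 v58; ok v59 && (
  let v60 := inv v59; ok v60 && (
  let v61 := mul v17 v60; ok v61 && (
  let v62 := mul v16 x1; ok v62 && (
  let v63 := mul v62 v61; ok v63 && (
  let v64 := mul v14 v14; ok v64 && (
  let v65 := sub v0 v5; ok v65 && (
  let v66 := mul v64 v65; ok v66 && (
  let v67 := mul v2 v2; ok v67 && (
  let v68 := add v12 v30; ok v68 && (
  let v69 := inv v68; ok v69 && (
  let v70 := mul v69 x0; ok v70 && (
  let v71 := mul v70 v2; ok v71 && (
  let v72 := mul v71 v71; ok v72 && (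
  let v73 := sub v0 v64; ok v73 && (
  let v74 := mul v65 v73; ok v74 && (
  let v75 := mul v72 v74; ok v75 && (
  let v76 := inv x0; ok v76 && (
  let v77 := cst ⟨45812285440, 0, 0, 0⟩; ok v77 && (
  let v78 := scale ⟨1527119872, 0, 0, 0⟩ v75; ok v78 && (
  let v79 := sub v77 v78; ok v79 && (
  let v80 := mul v75 v79; ok v80 && (
  let v81 := sub v1 v80; ok v81 && (
  let v82 := mul v75 v81; ok v82 && (
  let v83 := sub v0 v82; ok v83 && (
  let v84 := add v48 v0; ok v84 && (
  let v85 := mul v48 v48; ok v85 && (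
  let v86 := add v85 v0; ok v86 && (
  let v87 := mul v48 v83; ok v87 && (
  let v88 := scale ⟨2199023255552, 0, 0, 0⟩ v87; ok v88 && (
  let v89 := add v86 v88; ok v89 && (
  let v90 := inv v84; ok v90 && (
  let v91 := mul v89 v90; ok v91 && (
  let v92 := add v91 v84; ok v92 && (
  let v93 := mul v48 v63; ok v93 && (
  let v94 := scale ⟨549755813888, 0, 0, 0⟩ v93; ok v94 && (
  let v95 := mul v94 v92; ok v95 && (
  let v96 := sub v89 v95; ok v96 && (
  isPos 4 v89 && (
  isPos 4 v96 && (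
  let v97 := inv v96; ok v97 && (
  let v98 := mul v45 v34; ok v98 && (
  let v99 := cst ⟨6597069766656, 0, 0, 0⟩; ok v99 && (
  let v100 := add v35 v99; ok v100 && (
  let v101 := mul v98 v100; ok v101 && (
  let v102 := scale ⟨4398046511104, 0, 0, 0⟩ v35; ok v102 && (
  let v103 := add v102 v99; ok v103 && (
  let v104 := inv v103; ok v104 && (
  let v105 := mul v101 v104; ok v105 && (
  let v106 := mul v30 v105; ok v106 && (
  let v107 := scale ⟨2199023255552, 0, 0, 0⟩ v106; ok v107 && (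
  let v108 := scale ⟨183274307584, 0, 0, 0⟩ v107; ok v108 && (
  let v109 := sub v1 v108; ok v109 && (
  let v110 := mul v107 v109; ok v110 && (
  let v111 := sub v0 v110; ok v111 && (
  let v112 := mul v105 v111; ok v112 && (
  let v113 := mul v112 v97; ok v113 && (
  let v114 := mul v30 v113; ok v114 && (
  let v115 := add v114 v1; ok v115 && (
  let v116 := inv v115; ok v116 && (
  let v117 := mul v113 v116; ok v117 && (
  let v118 := mul v30 v117; ok v118 && (
  let v119 := mul v94 v114; ok v119 && (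
  let v120 := add v119 v1; ok v120 && (
  let v121 := mul v120 v92; ok v121 && (
  let v122 := inv v89; ok v122 && (
  let v123 := mul v121 v122; ok v123 && (
  let v124 := mul v63 v118; ok v124 && (
  let v125 := scale ⟨549755813888, 0, 0, 0⟩ v124; ok v125 && (
  let v126 := sub v0 v125; ok v126 && (
  let v127 := sub v0 v124; ok v127 && (
  let v128 := inv v127; ok v128 && (
  let v129 := mul v126 v128; ok v129 && (
  let v130 := add v124 v0; ok v130 && (
  let v131 := mul v48 v130; ok v131 && (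
  let v132 := mul v16 v17; ok v132 && (
  let v133 := add v12 x1; ok v133 && (
  let v134 := mul v15 v12; ok v134 && (
  let v135 := mul v134 v10; ok v135 && (
  let v136 := scale ⟨2199023255552, 0, 0, 0⟩ v135; ok v136 && (
  let v137 := add v39 v136; ok v137 && (
  let v138 := mul v133 v137; ok v138 && (
  let v139 := inv v138; ok v139 && (
  let v140 := mul v132 v139; ok v140 && (
  let v141 := mul x1 v140; ok v141 && (
  let v142 := inv v36; ok v142 && (
  let v143 := mul v75 v142; ok v143 && (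
  let v144 := scale ⟨1527119872, 0, 0, 0⟩ v143; ok v144 && (
  let v145 := sub v77 v144; ok v145 && (
  let v146 := mul v143 v145; ok v146 && (
  let v147 := sub v1 v146; ok v147 && (
  let v148 := mul v143 v147; ok v148 && (
  let v149 := sub v0 v148; ok v149 && (
  let v150 := add v57 v0; ok v150 && (
  let v151 := mul v57 v57; ok v151 && (
  let v152 := add v151 v0; ok v152 && (
  let v153 := mul v57 v149; ok v153 && (
  let v154 := scale ⟨2199023255552, 0, 0, 0⟩ v153; ok v154 && (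
  let v155 := add v152 v154; ok v155 && (
  let v156 := inv v150; ok v156 && (
  let v157 := mul v155 v156; ok v157 && (
  let v158 := add v157 v150; ok v158 && (
  let v159 := mul v57 v141; ok v159 && (
  let v160 := scale ⟨549755813888, 0, 0, 0⟩ v159; ok v160 && (
  let v161 := mul v160 v158; ok v161 && (
  let v162 := sub v155 v161; ok v162 && (
  isPos 4 v155 && (
  isPos 4 v162 && (
  let v163 := sub v0 v57; ok v163 && (
  let v164 := mul v163 v150; ok v164 && (
  let v165 := inv v162; ok v165 && (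
  let v166 := mul v164 v165; ok v166 && (
  let v167 := scale ⟨549755813888, 0, 0, 0⟩ v166; ok v167 && (
  let v168 := add v167 v1; ok v168 && (
  let v169 := inv v168; ok v169 && (
  let v170 := mul v167 v169; ok v170 && (
  let v171 := mul v141 v170; ok v171 && (
  let v172 := add v4 v0; ok v172 && (
  let v173 := inv v172; ok v173 && (
  let v174 := mul v4 v173; ok v174 && (
  let v175 := scale ⟨2199023255552, 0, 0, 0⟩ v174; ok v175 && (
  let v176 := sub v0 v175; ok v176 && (
  let v177 := sub v0 v4; ok v177 && (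
  let v178 := mul x3 v173; ok v178 && (
  let v179 := mul v178 v176; ok v179 && (
  let v180 := add v17 v179; ok v180 && (
  let v181 := mul x0 v10; ok v181 && (
  let v182 := cst ⟨5497558138880, 0, 0, 0⟩; ok v182 && (
  let v183 := inv v182; ok v183 && (
  let v184 := mul v0 v183; ok v184 && (
  let v185 := mul x0 v184; ok v185 && (
  let v186 := scale ⟨5497558138880, 0, 0, 0⟩ v76; ok v186 && (
  let v187 := scale ⟨224412041216, 0, 0, 0⟩ v8; ok v187 && (
  let v188 := inv v29; ok v188 && (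
  let v189 := mul v187 v188; ok v189 && (
  let v190 := mul v185 v17; ok v190 && (
  let v191 := mul v190 v189; ok v191 && (
  let v192 := mul v2 v191; ok v192 && (
  let v193 := sub v0 v192; ok v193 && (
  let v194 := inv v193; ok v194 && (
  let v195 := mul v131 v192; ok v195 && (
  let v196 := sub v0 v195; ok v196 && (
  let v197 := inv v196; ok v197 && (
  let v198 := mul x1 v117; ok v198 && (
  let v199 := scale ⟨1649267441664, 0, 0, 0⟩ v198; ok v199 && (
  let v200 := cst ⟨733365665792, 0, 0, 0⟩; ok v200 && (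
  let v201 := add v199 v200; ok v201 && (
  let v202 := scale ⟨549755813888, 0, 0, 0⟩ v201; ok v202 && (
  let v203 := scale ⟨2199023255552, 0, 0, 0⟩ v76; ok v203 && (
  let v204 := add v203 v0; ok v204 && (
  let v205 := add v76 v0; ok v205 && (
  let v206 := mul v4 v14; ok v206 && (
  let v207 := sub v0 v66; ok v207 && (
  let v208 := mul v4 v15; ok v208 && (
  let v209 := scale ⟨2199023255552, 0, 0, 0⟩ v208; ok v209 && (
  let v210 := sub v207 v209; ok v210 && (
  let v211 := mul v206 v206; ok v211 && (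
  let v212 := add v210 v211; ok v212 && (
  let v213 := add v212 v0; ok v213 && (
  let v214 := scale ⟨549755813888, 0, 0, 0⟩ v213; ok v214 && (
  let v215 := scale ⟨549755813888, 0, 0, 0⟩ v30; ok v215 && (
  let v216 := sub v8 v215; ok v216 && (
  let v217 := mul v67 v207; ok v217 && (
  let v218 := mul v217 v7; ok v218 && (
  let v219 := scale ⟨137438953472, 0, 0, 0⟩ v218; ok v219 && (
  let v220 := add v216 v219; ok v220 && (
  let v221 := mul v214 v220; ok v221 && (
  let v222 := mul v16 v61; ok v222 && (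
  let v223 := mul v222 v2; ok v223 && (
  let v224 := mul v223 v117; ok v224 && (
  let v225 := mul v224 v129; ok v225 && (
  let v226 := mul v2 v225; ok v226 && (
  let v227 := add v131 v0; ok v227 && (
  let v228 := mul v227 v194; ok v228 && (
  let v229 := mul v131 v197; ok v229 && (
  let v230 := add v228 v229; ok v230 && (
  let v231 := mul v192 v230; ok v231 && (
  let v232 := add v226 v231; ok v232 && (
  let v233 := mul v232 v76; ok v233 && (
  let v234 := mul v227 v192; ok v234 && (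
  let v235 := mul v234 v194; ok v235 && (
  let v236 := add v226 v235; ok v236 && (
  let v237 := mul v236 v76; ok v237 && (
  let v238 := scale ⟨223338299392, 0, 0, 0⟩ v237; ok v238 && (
  let v239 := add v1 v238; ok v239 && (
  let v240 := mul v237 v239; ok v240 && (
  let v241 := add v0 v240; ok v241 && (
  let v242 := scale ⟨893353197568, 0, 0, 0⟩ v233; ok v242 && (
  let v243 := add v0 v242; ok v243 && (
  let v244 := mul v233 v243; ok v244 && (
  let v245 := add v0 v244; ok v245 && (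
  let v246 := mul v175 v178; ok v246 && (
  let v247 := mul v246 v204; ok v247 && (
  let v248 := mul v247 v245; ok v248 && (
  let v249 := mul v221 v241; ok v249 && (
  let v250 := add v44 v1; ok v250 && (
  let v251 := mul v248 v250; ok v251 && (
  let v252 := add v249 v251; ok v252 && (
  let v253 := add v44 v0; ok v253 && (
  let v254 := mul v248 v253; ok v254 && (
  let v255 := mul v205 v253; ok v255 && (
  let v256 := mul v255 v178; ok v256 && (
  let v257 := mul v256 v177; ok v257 && (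
  let v258 := mul v2 v180; ok v258 && (
  let v259 := inv v44; ok v259 && (
  let v260 := mul v258 v259; ok v260 && (
  let v261 := scale ⟨549755813888, 0, 0, 0⟩ v260; ok v261 && (
  let v262 := mul v61 v2; ok v262 && (
  let v263 := mul v262 v117; ok v263 && (
  let v264 := mul v263 v129; ok v264 && (
  let v265 := mul v16 v261; ok v265 && (
  let v266 := mul v252 v264; ok v266 && (
  let v267 := mul v257 v202; ok v267 && (
  let v268 := add v266 v267; ok v268 && (
  let v269 := mul v268 v76; ok v269 && (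
  let v270 := add v265 v269; ok v270 && (
  let v271 := mul v252 v227; ok v271 && (
  let v272 := mul v271 v194; ok v272 && (
  let v273 := mul v254 v131; ok v273 && (
  let v274 := mul v273 v197; ok v274 && (
  let v275 := add v272 v274; ok v275 && (
  let v276 := mul v275 v76; ok v276 && (
  let v277 := mul v16 v270; ok v277 && (
  let v278 := mul v191 v276; ok v278 && (
  let v279 := add v277 v278; ok v279 && (
  let v280 := mul v67 v279; ok v280 && (
  let v281 := mul v280 v259; ok v281 && (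
  let v282 := sub v0 v281; ok v282 && (
  let v283 := inv v282; ok v283 && (
  let v284 := mul v279 v283; ok v284 && (
  let v285 := mul x1 v284; ok v285 && (
  let v286 := mul v67 v284; ok v286 && (
  let v287 := mul v286 v259; ok v287 && (
  let v288 := sub v0 v287; ok v288 && (
  let v289 := mul v41 v288; ok v289 && (
  let v290 := sub v289 v285; ok v290 && (
  let v291 := inv v290; ok v291 && (
  let v292 := mul v285 v291; ok v292 && (
  let v293 := sub v0 v285; ok v293 && (
  let v294 := inv v293; ok v294 && (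
  let v295 := mul v63 v117; ok v295 && (
  let v296 := mul v295 v129; ok v296 && (
  let v297 := add v105 v296; ok v297 && (
  let v298 := mul v297 v294; ok v298 && (
  let v299 := mul v298 v286; ok v299 && (
  let v300 := scale ⟨223338299392, 0, 0, 0⟩ v299; ok v300 && (
  let v301 := add v1 v300; ok v301 && (
  let v302 := mul v299 v301; ok v302 && (
  let v303 := add v0 v302; ok v303 && (
  let v304 := mul v299 v303; ok v304 && (
  let v305 := mul v304 v123; ok v305 && (
  let v306 := mul v305 v131; ok v306 && (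
  let v307 := sub v0 v306; ok v307 && (
  let v308 := mul v298 v303; ok v308 && (
  let v309 := mul v308 v283; ok v309 && (
  let v310 := mul v309 v76; ok v310 && (
  let v311 := inv v307; ok v311 && (
  let v312 := mul v310 v311; ok v312 && (
  let v313 := mul v312 x2; ok v313 && (
  let v314 := mul v252 v194; ok v314 && (
  let v315 := mul v254 v123; ok v315 && (
  let v316 := mul v315 v131; ok v316 && (
  let v317 := mul v316 v197; ok v317 && (
  let v318 := add v314 v317; ok v318 && (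
  let v319 := mul v313 v318; ok v319 && (
  let v320 := mul v252 v61; ok v320 && (
  let v321 := mul v2 v113; ok v321 && (
  let v322 := mul v320 v321; ok v322 && (
  let v323 := mul v322 v129; ok v323 && (
  let v324 := mul v185 v2; ok v324 && (
  let v325 := mul v324 v17; ok v325 && (
  let v326 := mul v325 v16; ok v326 && (
  let v327 := cst ⟨3298534883328, 0, 0, 0⟩; ok v327 && (
  let v328 := mul v327 v183; ok v328 && (
  let v329 := inv x1; ok v329 && (
  let v330 := mul v202 v329; ok v330 && (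
  let v331 := mul v312 v186; ok v331 && (
  let v332 := mul v331 x2; ok v332 && (
  let v333 := inv v17; ok v333 && (
  let v334 := mul v332 v333; ok v334 && (
  let v335 := mul x0 v123; ok v335 && (
  let v336 := mul v335 v16; ok v336 && (
  let v337 := mul x2 v180; ok v337 && (
  let v338 := mul v337 v259; ok v338 && (
  let v339 := scale ⟨549755813888, 0, 0, 0⟩ v338; ok v339 && (
  let v340 := mul v336 v339; ok v340 && (
  let v341 := mul v320 x2; ok v341 && (
  let v342 := mul v341 v113; ok v342 && (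
  let v343 := mul v342 v129; ok v343 && (
  let v344 := add v340 v343; ok v344 && (
  let v345 := mul v123 v257; ok v345 && (
  let v346 := mul v345 v330; ok v346 && (
  let v347 := add v344 v346; ok v347 && (
  let v348 := mul v334 v347; ok v348 && (
  let v349 := mul v12 v41; ok v349 && (
  let v350 := scale ⟨4398046511104, 0, 0, 0⟩ v349; ok v350 && (
  let v351 := sub v350 v34; ok v351 && (
  let v352 := mul v5 v351; ok v352 && (
  let v353 := mul v352 v142; ok v353 && (
  let v354 := mul x0 v353; ok v354 && (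
  let v355 := mul x1 v353; ok v355 && (
  let v356 := cst ⟨2199023255552, 0, 0, 0⟩; ok v356 && (
  let v357 := add v355 v356; ok v357 && (
  let v358 := inv v357; ok v358 && (
  let v359 := mul v354 v358; ok v359 && (
  let v360 := mul x1 v359; ok v360 && (
  let v361 := scale ⟨549755813888, 0, 0, 0⟩ v360; ok v361 && (
  let v362 := sub v0 v361; ok v362 && (
  let v363 := mul v359 v362; ok v363 && (
  let v364 := neg v363; ok v364 && (
  let v365 := mul v140 v170; ok v365 && (
  let v366 := add v364 v365; ok v366 && (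
  let v367 := mul v364 v365; ok v367 && (
  let v368 := mul x1 v367; ok v368 && (
  let v369 := add v366 v368; ok v369 && (
  let v370 := mul v45 v353; ok v370 && (
  let v371 := add v171 v0; ok v371 && (
  let v372 := mul v365 v371; ok v372 && (
  let v373 := add v370 v372; ok v373 && (
  let v374 := mul v292 v373; ok v374 && (
  let v375 := mul x1 v374; ok v375 && (
  let v376 := scale ⟨687194767360, 0, 0, 0⟩ v375; ok v376 && (
  let v377 := add v0 v376; ok v377 && (
  let v378 := mul v374 v377; ok v378 && (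
  let v379 := add v369 v378; ok v379 && (
  let v380 := mul v369 v378; ok v380 && (
  let v381 := mul x1 v380; ok v381 && (
  let v382 := add v379 v381; ok v382 && (
  let v383 := mul x2 x3; ok v383 && (
  let v384 := mul v383 v172; ok v384 && (
  let v385 := mul v384 v8; ok v385 && (
  let v386 := add v382 v385; ok v386 && (
  let v387 := mul v382 v385; ok v387 && (
  let v388 := mul x1 v387; ok v388 && (
  let v389 := add v386 v388; ok v389 && (
  let v390 := mul v5 v34; ok v390 && (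
  let v391 := mul x1 v390; ok v391 && (
  let v392 := scale ⟨412316860416, 0, 0, 0⟩ v391; ok v392 && (
  let v393 := sub v1 v392; ok v393 && (
  let v394 := mul v390 v393; ok v394 && (
  let v395 := neg v394; ok v395 && (
  let v396 := add v389 v395; ok v396 && (
  let v397 := mul v389 v395; ok v397 && (
  let v398 := mul x1 v397; ok v398 && (
  let v399 := add v396 v398; ok v399 && (
  let v400 := mul x2 v284; ok v400 && (
  let v401 := mul v400 v333; ok v401 && (
  let v402 := add v399 v401; ok v402 && (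
  let v403 := mul v399 v401; ok v403 && (
  let v404 := mul x1 v403; ok v404 && (
  let v405 := add v402 v404; ok v405 && (
  let v406 := mul v172 v17; ok v406 && (
  let v407 := mul v406 v328; ok v407 && (
  let v408 := sub v405 v407; ok v408 && (
  let v409 := mul x1 v407; ok v409 && (
  let v410 := add v0 v409; ok v410 && (
  let v411 := inv v410; ok v411 && (
  let v412 := mul v408 v411; ok v412 && (
  let v413 := mul x2 v2; ok v413 && (
  let v414 := mul v413 v284; ok v414 && (
  let v415 := sub v44 v286; ok v415 && (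
  let v416 := inv v415; ok v416 && (
  let v417 := mul v414 v416; ok v417 && (
  let v418 := add v412 v417; ok v418 && (
  let v419 := mul v412 v417; ok v419 && (
  let v420 := mul x1 v419; ok v420 && (
  let v421 := add v418 v420; ok v421 && (
  let v422 := mul x1 v421; ok v422 && (
  let v423 := add v0 v422; ok v423 && (
  let v424 := mul v319 v192; ok v424 && (
  let v425 := mul x1 v326; ok v425 && (
  let v426 := mul v348 v425; ok v426 && (
  let v427 := add v424 v426; ok v427 && (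
  let v428 := mul v427 v423; ok v428 && (
  let v429 := add v421 v428; ok v429 && (
  let v430 := add v429 v319; ok v430 && (
  let v431 := add v430 v348; ok v431 && (
  let v432 := neg v431; ok v432 && (
  let v433 := cst ⟨1073741824, 0, 0, 0⟩; ok v433 && (
  let v434 := sub v432 v433; ok v434 && (
  let v435 := sub v13 v0; ok v435 && (
  let v436 := add v435 v356; ok v436 && (
  let v437 := scale ⟨2199023255552, 0, 0, 0⟩ v328; ok v437 && (
  let v438 := sub v436 v437; ok v438 && (
  let v439 := mul v172 v438; ok v439 && (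
  let v440 := mul v435 v437; ok v440 && (
  let v441 := add v440 v0; ok v441 && (
  let v442 := inv v441; ok v442 && (
  let v443 := mul v439 v442; ok v443 && (
  let v444 := mul v185 v276; ok v444 && (
  let v445 := scale ⟨549755813888, 0, 0, 0⟩ v189; ok v445 && (
  let v446 := add v10 v445; ok v446 && (
  let v447 := mul v444 v446; ok v447 && (
  let v448 := scale ⟨2199023255552, 0, 0, 0⟩ v447; ok v448 && (
  let v449 := add v270 v448; ok v449 && (
  let v450 := scale ⟨2199023255552, 0, 0, 0⟩ v449; ok v450 && (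
  let v451 := mul v450 v283; ok v451 && (
  let v452 := mul v2 v284; ok v452 && (
  let v453 := sub v17 v452; ok v453 && (
  let v454 := inv v453; ok v454 && (
  let v455 := mul v451 v454; ok v455 && (
  let v456 := sub v443 v455; ok v456 && (
  isPos 4 v193 && (
  isPos 4 v196 && (
  let v457 := scale ⟨2199023255552, 0, 0, 0⟩ v280; ok v457 && (
  let v458 := sub v44 v457; ok v458 && (
  isPos 4 v458 && (
  isPos 4 v290 && (
  isPos 4 v127 && (
  let v459 := sub v1 v171; ok v459 && (
  isPos 4 v459 && (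
  let v460 := scale ⟨687194767360, 0, 0, 0⟩ v0; ok v460 && (
  let v461 := sub v460 v237; ok v461 && (
  isPos 4 v461 && (
  let v462 := scale ⟨377957122048, 0, 0, 0⟩ v0; ok v462 && (
  let v463 := sub v462 v233; ok v463 && (
  isPos 4 v463 && (
  isPos 4 v453 && (
  let v464 := sub v1 v375; ok v464 && (
  isPos 4 v464 && (
  isPos 4 v293 && (
  isPos 4 v307 && (
  let v465 := sub v460 v299; ok v465 && (
  isPos 4 v465 && (
  let v466 := mul v181 v181; ok v466 && (
  let v467 := cst ⟨14293651161088, 0, 0, 0⟩; ok v467 && (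
  let v468 := cst ⟨10995116277760, 0, 0, 0⟩; ok v468 && (
  let v469 := inv v468; ok v469 && (
  let v470 := mul v467 v469; ok v470 && (
  let v471 := mul v466 v470; ok v471 && (
  let v472 := cst ⟨27487790694400, 0, 0, 0⟩; ok v472 && (
  let v473 := add v471 v472; ok v473 && (
  let v474 := mul v407 v411; ok v474 && (
  let v475 := sub v32 x1; ok v475 && (
  let v476 := sub v475 v31; ok v476 && (
  let v477 := scale ⟨2199023255552, 0, 0, 0⟩ v2; ok v477 && (
  let v478 := add v477 v286; ok v478 && (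
  let v479 := mul x0 v478; ok v479 && (
  let v480 := mul v473 v474; ok v480 && (
  let v481 := mul v283 v479; ok v481 && (
  let v482 := mul v76 v268; ok v482 && (
  let v483 := mul v5 v482; ok v483 && (
  let v484 := mul v17 v185; ok v484 && (
  let v485 := mul v484 v276; ok v485 && (
  let v486 := mul v30 v485; ok v486 && (
  let v487 := add v483 v486; ok v487 && (
  let v488 := mul x0 v487; ok v488 && (
  let v489 := mul v481 v488; ok v489 && (
  let v490 := sub v480 v489; ok v490 && (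
  let v491 := scale ⟨549755813888, 0, 0, 0⟩ v452; ok v491 && (
  let v492 := add v0 v491; ok v492 && (
  let v493 := mul v283 v492; ok v493 && (
  let v494 := mul x1 v16; ok v494 && (
  let v495 := mul v494 v180; ok v495 && (
  let v496 := mul v17 v44; ok v496 && (
  let v497 := inv v496; ok v497 && (
  let v498 := mul v495 v497; ok v498 && (
  let v499 := mul v493 v498; ok v499 && (
  let v500 := sub v476 v499; ok v500 && (
  let v501 := mul v189 v490; ok v501 && (
  let v502 := sub v0 v189; ok v502 && (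
  let v503 := mul v5 v500; ok v503 && (
  let v504 := mul v502 v503; ok v504 && (
  let v505 := mul v473 v504; ok v505 && (
  let v506 := add v501 v505; ok v506 && (
  isPos 4 v456 && (
  isPos 4 v434 && (
  isPos 4 v506 && (
  isPos 4 v500 && (
  true))))))))))))))))))))))))))))))))))))))))))))))))))))))))))))))))))))))))))))))))))))))))))))))))))))))))))))))))))))))))))))))))))))))))))))))))))))))))))))))))))))))))))))))))))))))))))))))))))))))))))))))))))))))))))))))))))))))))))))))))))))))))))))))))))))))))))))))))))))))))))))))))))))))))))))))))))))))))))))))))))))))))))))))))))))))))))))))))))))))))))))))))))))))))))))))))))))))))))))))))))))))))))))))))))))))))))))))))))))))))))))))))))))))))))))))))))))))))))))))))))))))))))))))))))))))))))))))))))))))))))))))))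
  | _ => false

set_option maxRecDepth 1000000 in
theorem chk2_eq (O : Ops) (m : List O.α)
    (h : chk2 O.cst O.add O.sub O.mul O.scale O.neg O.inv O.exp O.log O.ok O.isPos O.isLt m = true) :
    runG O 4 prog2 m = true := by
  match m, h with
  | [x0, x1, x2, x3], h => exact h

def chkB2 : List opsE.α → Bool :=
  chk2 opsE.cst opsE.add opsE.sub opsE.mul opsE.scale opsE.neg opsE.inv opsE.exp opsE.log opsE.ok opsE.isPos opsE.isLt

theorem chkB2_eq (m : List opsE.α) (h : chkB2 m = true) : runG opsE 4 prog2 m = true :=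
  chk2_eq opsE m h

def prog3 : List Op := [
  .const ⟨1099511627776, 0, 0, 0⟩,
  .const ⟨549755813888, 0, 0, 0⟩,
  .mul 3 4,
  .mul 0 6,
  .scale ⟨549755813888, 0, 0, 0⟩ 0,
  .mul 7 7,
  .mul 1 1,
  .sub 6 0,
  .inv 0,
  .mul 4 0,
  .scale ⟨2199023255552, 0, 0, 0⟩ 0,
  .scale ⟨2199023255552, 0, 0, 0⟩ 2,
  .sub 0 11,
  .add 0 2,
  .mul 17 5,
  .mul 17 0,
  .sub 15 0,
  .add 16 1,
  .scale ⟨10774999203840, 0, 0, 0⟩ 13,
  .scale ⟨45768245248, 0, 0, 0⟩ 0,
  .const ⟨183207198720, 0, 0, 0⟩,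
  .add 1 0,
  .mul 3 0,
  .add 21 0,
  .mul 5 0,
  .add 24 0,
  .mul 7 0,
  .scale ⟨549755813888, 0, 0, 0⟩ 0,
  .add 27 0,
  .mul 3 0,
  .mul 31 24,
  .mul 20 15,
  .scale ⟨2199023255552, 0, 0, 0⟩ 19,
  .add 1 0,
  .add 0 35,
  .mul 4 0,
  .add 0 35,
  .mul 26 26,
  .scale ⟨2199023255552, 0, 0, 0⟩ 0,
  .add 0 38,
  .mul 27 5,
  .sub 0 40,
  .log 5,
  .scale ⟨549755813888, 0, 0, 0⟩ 0,
  .exp 0,
  .scale ⟨549755813888, 0, 0, 0⟩ 45,
  .mul 0 3,
  .neg 0,
  .exp 0,
  .mul 36 18,
  .mul 0 8,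
  .scale ⟨4398046511104, 0, 0, 0⟩ 0,
  .add 0 51,
  .log 0,
  .sub 0 11,
  .mul 9 0,
  .neg 0,
  .exp 0,
  .mul 42 47,
  .add 46 0,
  .inv 0,
  .mul 43 0,
  .mul 45 63,
  .mul 0 1,
  .mul 49 49,
  .sub 64 59,
  .mul 1 0,
  .mul 64 64,
  .add 55 37,
  .inv 0,
  .mul 0 70,
  .mul 0 68,
  .mul 0 0,
  .sub 72 8,
  .mul 8 0,
  .mul 2 0,
  .inv 76,
  .const ⟨45812285440, 0, 0, 0⟩,
  .scale ⟨1527119872, 0, 0, 0⟩ 2,
  .sub 1 0,
  .mul 4 0,
  .sub 79 0,
  .mul 6 0,
  .sub 82 0,
  .add 35 83,
  .mul 36 36,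
  .add 0 85,
  .mul 38 3,
  .scale ⟨2199023255552, 0, 0, 0⟩ 0,
  .add 2 0,
  .inv 5,
  .mul 1 0,
  .add 0 7,
  .mul 44 29,
  .scale ⟨549755813888, 0, 0, 0⟩ 0,
  .mul 0 2,
  .sub 6 0,
  .pos 7,
  .pos 0,
  .inv 0,
  .mul 52 63,
  .const ⟨6597069766656, 0, 0, 0⟩,
  .add 64 0,
  .mul 2 0,
  .scale ⟨4398046511104, 0, 0, 0⟩ 66,
  .add 0 3,
  .inv 0,
  .mul 3 0,
  .sub 105 57,
  .mul 0 22,
  .mul 0 10,
  .scale ⟨549755813888, 0, 0, 0⟩ 0,
  .add 0 108,
  .inv 0,
  .mul 2 0,
  .mul 18 3,
  .add 0 112,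
  .mul 0 22,
  .inv 26,
  .mul 1 0,
  .mul 54 5,
  .scale ⟨549755813888, 0, 0, 0⟩ 0,
  .sub 119 0,
  .sub 120 2,
  .inv 0,
  .mul 2 0,
  .add 5 123,
  .mul 76 0,
  .mul 109 108,
  .add 114 128,
  .mul 112 115,
  .mul 0 118,
  .scale ⟨2199023255552, 0, 0, 0⟩ 0,
  .add 91 0,
  .mul 4 0,
  .inv 0,
  .mul 7 0,
  .mul 136 0,
  .inv 99,
  .mul 61 0,
  .scale ⟨1527119872, 0, 0, 0⟩ 0,
  .sub 61 0,
  .mul 2 0,
  .sub 139 0,
  .mul 4 0,
  .sub 142 0,
  .add 86 143,
  .mul 87 87,
  .add 0 145,
  .mul 89 3,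
  .scale ⟨2199023255552, 0, 0, 0⟩ 0,
  .add 2 0,
  .inv 5,
  .mul 1 0,
  .add 0 7,
  .mul 95 17,
  .scale ⟨549755813888, 0, 0, 0⟩ 0,
  .mul 0 2,
  .sub 6 0,
  .pos 7,
  .pos 0,
  .sub 156 99,
  .mul 0 13,
  .inv 2,
  .mul 1 0,
  .scale ⟨549755813888, 0, 0, 0⟩ 0,
  .add 0 160,
  .inv 0,
  .mul 2 0,
  .mul 29 0,
  .add 161 165,
  .inv 0,
  .mul 163 0,
  .scale ⟨2199023255552, 0, 0, 0⟩ 0,
  .sub 169 0,
  .sub 170 166,
  .mul 175 4,
  .mul 0 2,
  .add 156 0,
  .mul 175 164,
  .const ⟨5497558138880, 0, 0, 0⟩,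
  .inv 0,
  .mul 177 0,
  .mul 179 0,
  .scale ⟨5497558138880, 0, 0, 0⟩ 103,
  .scale ⟨224412041216, 0, 0, 0⟩ 172,
  .inv 152,
  .mul 1 0,
  .mul 4 166,
  .mul 0 1,
  .mul 183 0,
  .sub 186 0,
  .inv 0,
  .mul 63 2,
  .sub 189 0,
  .inv 0,
  .const ⟨2199023255552, 0, 0, 0⟩,
  .add 17 0,
  .inv 0,
  .mul 178 195,
  .mul 0 197,
  .mul 0 2,
  .scale ⟨549755813888, 0, 0, 0⟩ 0,
  .sub 198 0,
  .sub 199 2,
  .inv 0,
  .mul 2 0,
  .mul 0 8,
  .mul 0 204,
  .mul 206 190,
  .mul 0 1,
  .mul 9 4,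
  .pos 7,
  .mul 0 131,
  .scale ⟨1374389534720, 0, 0, 0⟩ 0,
  .sub 208 0,
  .pos 0,
  .scale ⟨3092376453120, 0, 0, 0⟩ 2,
  .add 0 19,
  .mul 4 0,
  .add 213 0,
  .scale ⟨1546188226560, 0, 0, 0⟩ 6,
  .add 0 215,
  .mul 8 0,
  .add 217 0,
  .mul 214 204,
  .sub 219 153,
  .mul 216 205,
  .scale ⟨2199023255552, 0, 0, 0⟩ 0,
  .sub 2 0,
  .mul 4 4,
  .add 1 0,
  .add 0 225,
  .scale ⟨549755813888, 0, 0, 0⟩ 0,
  .scale ⟨549755813888, 0, 0, 0⟩ 197,
  .sub 220 0,
  .mul 162 9,
  .mul 0 223,
  .scale ⟨137438953472, 0, 0, 0⟩ 0,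
  .add 3 0,
  .mul 6 0,
  .mul 116 111,
  .add 110 235,
  .mul 0 48,
  .mul 112 46,
  .add 1 0,
  .mul 53 0,
  .add 5 0,
  .mul 0 165,
  .mul 6 56,
  .mul 0 55,
  .add 9 0,
  .mul 0 169,
  .scale ⟨223338299392, 0, 0, 0⟩ 0,
  .add 246 0,
  .mul 2 0,
  .add 249 0,
  .scale ⟨893353197568, 0, 0, 0⟩ 8,
  .add 251 0,
  .mul 10 0,
  .add 253 0,
  .mul 85 82,
  .mul 0 41,
  .mul 0 2,
  .mul 23 7,
  .add 214 257,
  .mul 2 0,
  .add 2 0,
  .add 217 261,
  .mul 5 0,
  .mul 45 1,
  .mul 0 92,
  .mul 0 94,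
  .mul 264 92,
  .inv 223,
  .mul 1 0,
  .scale ⟨549755813888, 0, 0, 0⟩ 0,
  .inv 273,
  .mul 210 0,
  .mul 0 160,
  .mul 0 150,
  .mul 258 4,
  .mul 14 1,
  .mul 10 70,
  .add 1 0,
  .mul 0 202,
  .add 4 0,
  .mul 19 44,
  .mul 0 93,
  .mul 19 157,
  .mul 0 92,
  .add 2 0,
  .mul 0 209,
  .mul 270 6,
  .mul 102 1,
  .add 1 0,
  .mul 222 0,
  .mul 0 22,
  .sub 291 0,
  .inv 0,
  .mul 4 0,
  .mul 296 0,
  .mul 228 1,
  .mul 0 28,
  .sub 297 0,
  .mul 257 0,
  .sub 0 4,
  .inv 0,
  .mul 6 0,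
  .sub 302 7,
  .inv 0,
  .inv 274,
  .mul 70 0,
  .add 201 0,
  .mul 0 3,
  .mul 0 12,
  .scale ⟨223338299392, 0, 0, 0⟩ 0,
  .add 309 0,
  .mul 2 0,
  .add 312 0,
  .mul 4 0,
  .mul 0 197,
  .mul 0 190,
  .sub 316 0,
  .mul 9 4,
  .mul 0 25,
  .mul 0 243,
  .inv 3,
  .mul 1 0,
  .mul 0 325,
  .mul 62 135,
  .mul 61 207,
  .mul 0 200,
  .mul 0 135,
  .add 3 0,
  .mul 5 0,
  .mul 68 268,
  .mul 0 59,
  .mul 0 222,
  .mul 0 209,
  .mul 11 153,
  .mul 0 337,
  .inv 318,
  .mul 1 0,
  .mul 338 220,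
  .mul 0 322,
  .mul 0 69,
  .add 0 7,
  .mul 224 75,
  .mul 0 136,
  .add 2 0,
  .mul 7 0,
  .mul 166 343,
  .mul 0 329,
  .mul 0 331,
  .const ⟨3298534883328, 0, 0, 0⟩,
  .mul 0 172,
  .add 185 350,
  .mul 186 0,
  .add 297 0,
  .mul 51 0,
  .mul 297 3,
  .scale ⟨687194767360, 0, 0, 0⟩ 1,
  .add 356 0,
  .mul 3 0,
  .add 358 0,
  .mul 4 0,
  .add 350 362,
  .mul 195 0,
  .mul 0 12,
  .add 363 0,
  .inv 0,
  .mul 5 0,
  .mul 0 353,
  .mul 365 73,
  .mul 0 32,
  .add 369 0,
  .mul 3 0,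
  .sub 327 75,
  .inv 0,
  .mul 2 0,
  .mul 376 45,
  .mul 0 189,
  .mul 378 28,
  .mul 32 0,
  .add 2 0,
  .add 4 34,
  .add 380 1,
  .mul 7 0,
  .add 2 0,
  .sub 383 0,
  .scale ⟨1073741824, 0, 0, 0⟩ 386,
  .sub 1 0,
  .sub 373 386,
  .add 0 195,
  .scale ⟨2199023255552, 0, 0, 0⟩ 38,
  .sub 1 0,
  .mul 224 0,
  .mul 4 2,
  .add 0 392,
  .inv 0,
  .mul 3 0,
  .mul 216 109,
  .scale ⟨549755813888, 0, 0, 0⟩ 213,
  .add 387 0,
  .mul 2 0,
  .scale ⟨2199023255552, 0, 0, 0⟩ 0,
  .add 120 0,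
  .scale ⟨2199023255552, 0, 0, 0⟩ 0,
  .mul 0 109,
  .sub 386 35,
  .inv 0,
  .mul 2 0,
  .sub 11 0,
  .pos 220,
  .pos 217,
  .scale ⟨2199023255552, 0, 0, 0⟩ 117,
  .sub 364 0,
  .pos 0,
  .pos 109,
  .pos 288,
  .sub 408 244,
  .pos 0,
  .scale ⟨687194767360, 0, 0, 0⟩ 410,
  .sub 0 165,
  .pos 0,
  .scale ⟨377957122048, 0, 0, 0⟩ 412,
  .sub 0 171,
  .pos 0,
  .pos 10,
  .sub 413 60,
  .pos 0,
  .pos 112,
  .pos 98,
  .sub 4 106,
  .pos 0,
  .mul 241 241,
  .const ⟨14293651161088, 0, 0, 0⟩,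
  .const ⟨10995116277760, 0, 0, 0⟩,
  .inv 0,
  .mul 2 0,
  .mul 4 0,
  .const ⟨27487790694400, 0, 0, 0⟩,
  .add 1 0,
  .mul 258 407,
  .mul 0 75,
  .mul 428 0,
  .add 427 0,
  .inv 0,
  .mul 3 0,
  .sub 398 432,
  .sub 0 400,
  .scale ⟨2199023255552, 0, 0, 0⟩ 430,
  .add 0 137,
  .mul 435 0,
  .mul 11 5,
  .mul 143 1,
  .mul 361 159,
  .mul 433 0,
  .mul 422 260,
  .mul 0 154,
  .mul 411 0,
  .add 3 0,
  .mul 444 0,
  .mul 7 0,
  .sub 9 0,
  .scale ⟨549755813888, 0, 0, 0⟩ 78,
  .add 447 0,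
  .mul 155 0,
  .mul 451 433,
  .mul 0 276,
  .mul 434 407,
  .inv 0,
  .mul 2 0,
  .mul 5 0,
  .sub 23 0,
  .mul 273 10,
  .sub 457 274,
  .mul 453 2,
  .mul 1 0,
  .mul 36 0,
  .add 4 0,
  .pos 55,
  .pos 76,
  .pos 0,
  .pos 6]

def chk3 {α : Type} (cst : Z → α) (add sub mul : α → α → α) (scale : Z → α → α)
    (neg inv exp log : α → α) (ok : α → Bool) (isPos : Nat → α → Bool) (isLt : α → Nat → Bool) :
    List α → Bool
  | [x0, x1, x2, x3] =>
  let v0 := cst ⟨1099511627776, 0, 0, 0⟩; ok v0 && (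
  let v1 := cst ⟨549755813888, 0, 0, 0⟩; ok v1 && (
  let v2 := mul x1 x2; ok v2 && (
  let v3 := mul v2 x3; ok v3 && (
  let v4 := scale ⟨549755813888, 0, 0, 0⟩ v3; ok v4 && (
  let v5 := mul x2 x2; ok v5 && (
  let v6 := mul v4 v4; ok v6 && (
  let v7 := sub v0 v6; ok v7 && (
  let v8 := inv v7; ok v8 && (
  let v9 := mul v4 v8; ok v9 && (
  let v10 := scale ⟨2199023255552, 0, 0, 0⟩ v9; ok v10 && (
  let v11 := scale ⟨2199023255552, 0, 0, 0⟩ v8; ok v11 && (
  let v12 := sub v11 v0; ok v12 && (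
  let v13 := add v12 v10; ok v13 && (
  let v14 := mul x3 v8; ok v14 && (
  let v15 := mul x2 v14; ok v15 && (
  let v16 := sub v0 v15; ok v16 && (
  let v17 := add v0 v15; ok v17 && (
  let v18 := scale ⟨10774999203840, 0, 0, 0⟩ v4; ok v18 && (
  let v19 := scale ⟨45768245248, 0, 0, 0⟩ v18; ok v19 && (
  let v20 := cst ⟨183207198720, 0, 0, 0⟩; ok v20 && (
  let v21 := add v19 v20; ok v21 && (
  let v22 := mul v18 v21; ok v22 && (
  let v23 := add v1 v22; ok v23 && (
  let v24 := mul v18 v23; ok v24 && (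
  let v25 := add v0 v24; ok v25 && (
  let v26 := mul v18 v25; ok v26 && (
  let v27 := scale ⟨549755813888, 0, 0, 0⟩ v26; ok v27 && (
  let v28 := add v0 v27; ok v28 && (
  let v29 := mul v25 v28; ok v29 && (
  let v30 := mul x1 v5; ok v30 && (
  let v31 := mul v10 v15; ok v31 && (
  let v32 := scale ⟨2199023255552, 0, 0, 0⟩ v12; ok v32 && (
  let v33 := add v31 v32; ok v33 && (
  let v34 := add v33 x1; ok v34 && (
  let v35 := mul v30 v34; ok v35 && (
  let v36 := add v35 v0; ok v36 && (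
  let v37 := mul v10 v10; ok v37 && (
  let v38 := scale ⟨2199023255552, 0, 0, 0⟩ v37; ok v38 && (
  let v39 := add v38 v0; ok v39 && (
  let v40 := mul v12 v34; ok v40 && (
  let v41 := sub v40 v0; ok v41 && (
  let v42 := log v36; ok v42 && (
  let v43 := scale ⟨549755813888, 0, 0, 0⟩ v42; ok v43 && (
  let v44 := exp v43; ok v44 && (
  let v45 := scale ⟨549755813888, 0, 0, 0⟩ x0; ok v45 && (
  let v46 := mul v45 v42; ok v46 && (
  let v47 := neg v46; ok v47 && (
  let v48 := exp v47; ok v48 && (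
  let v49 := mul v12 v30; ok v49 && (
  let v50 := mul v49 v41; ok v50 && (
  let v51 := scale ⟨4398046511104, 0, 0, 0⟩ v50; ok v51 && (
  let v52 := add v51 v0; ok v52 && (
  let v53 := log v52; ok v53 && (
  let v54 := sub v53 v42; ok v54 && (
  let v55 := mul v45 v54; ok v55 && (
  let v56 := neg v55; ok v56 && (
  let v57 := exp v56; ok v57 && (
  let v58 := mul v15 v10; ok v58 && (
  let v59 := add v12 v58; ok v59 && (
  let v60 := inv v59; ok v60 && (
  let v61 := mul v17 v60; ok v61 && (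
  let v62 := mul v16 x1; ok v62 && (
  let v63 := mul v62 v61; ok v63 && (
  let v64 := mul v14 v14; ok v64 && (
  let v65 := sub v0 v5; ok v65 && (
  let v66 := mul v64 v65; ok v66 && (
  let v67 := mul v2 v2; ok v67 && (
  let v68 := add v12 v30; ok v68 && (
  let v69 := inv v68; ok v69 && (
  let v70 := mul v69 x0; ok v70 && (
  let v71 := mul v70 v2; ok v71 && (
  let v72 := mul v71 v71; ok v72 && (
  let v73 := sub v0 v64; ok v73 && (
  let v74 := mul v65 v73; ok v74 && (
  let v75 := mul v72 v74; ok v75 && (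
  let v76 := inv x0; ok v76 && (
  let v77 := cst ⟨45812285440, 0, 0, 0⟩; ok v77 && (
  let v78 := scale ⟨1527119872, 0, 0, 0⟩ v75; ok v78 && (
  let v79 := sub v77 v78; ok v79 && (
  let v80 := mul v75 v79; ok v80 && (
  let v81 := sub v1 v80; ok v81 && (
  let v82 := mul v75 v81; ok v82 && (
  let v83 := sub v0 v82; ok v83 && (
  let v84 := add v48 v0; ok v84 && (
  let v85 := mul v48 v48; ok v85 && (
  let v86 := add v85 v0; ok v86 && (
  let v87 := mul v48 v83; ok v87 && (
  let v88 := scale ⟨2199023255552, 0, 0, 0⟩ v87; ok v88 && (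
  let v89 := add v86 v88; ok v89 && (
  let v90 := inv v84; ok v90 && (
  let v91 := mul v89 v90; ok v91 && (
  let v92 := add v91 v84; ok v92 && (
  let v93 := mul v48 v63; ok v93 && (
  let v94 := scale ⟨549755813888, 0, 0, 0⟩ v93; ok v94 && (
  let v95 := mul v94 v92; ok v95 && (
  let v96 := sub v89 v95; ok v96 && (
  isPos 4 v89 && (
  isPos 4 v96 && (
  let v97 := inv v96; ok v97 && (
  let v98 := mul v45 v34; ok v98 && (
  let v99 := cst ⟨6597069766656, 0, 0, 0⟩; ok v99 && (
  let v100 := add v35 v99; ok v100 && (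
  let v101 := mul v98 v100; ok v101 && (
  let v102 := scale ⟨4398046511104, 0, 0, 0⟩ v35; ok v102 && (
  let v103 := add v102 v99; ok v103 && (
  let v104 := inv v103; ok v104 && (
  let v105 := mul v101 v104; ok v105 && (
  let v106 := sub v0 v48; ok v106 && (
  let v107 := mul v106 v84; ok v107 && (
  let v108 := mul v107 v97; ok v108 && (
  let v109 := scale ⟨549755813888, 0, 0, 0⟩ v108; ok v109 && (
  let v110 := add v109 v1; ok v110 && (
  let v111 := inv v110; ok v111 && (
  let v112 := mul v109 v111; ok v112 && (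
  let v113 := mul v94 v109; ok v113 && (
  let v114 := add v113 v1; ok v114 && (
  let v115 := mul v114 v92; ok v115 && (
  let v116 := inv v89; ok v116 && (
  let v117 := mul v115 v116; ok v117 && (
  let v118 := mul v63 v112; ok v118 && (
  let v119 := scale ⟨549755813888, 0, 0, 0⟩ v118; ok v119 && (
  let v120 := sub v0 v119; ok v120 && (
  let v121 := sub v0 v118; ok v121 && (
  let v122 := inv v121; ok v122 && (
  let v123 := mul v120 v122; ok v123 && (
  let v124 := add v118 v0; ok v124 && (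
  let v125 := mul v48 v124; ok v125 && (
  let v126 := mul v16 v17; ok v126 && (
  let v127 := add v12 x1; ok v127 && (
  let v128 := mul v15 v12; ok v128 && (
  let v129 := mul v128 v10; ok v129 && (
  let v130 := scale ⟨2199023255552, 0, 0, 0⟩ v129; ok v130 && (
  let v131 := add v39 v130; ok v131 && (
  let v132 := mul v127 v131; ok v132 && (
  let v133 := inv v132; ok v133 && (
  let v134 := mul v126 v133; ok v134 && (
  let v135 := mul x1 v134; ok v135 && (
  let v136 := inv v36; ok v136 && (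
  let v137 := mul v75 v136; ok v137 && (
  let v138 := scale ⟨1527119872, 0, 0, 0⟩ v137; ok v138 && (
  let v139 := sub v77 v138; ok v139 && (
  let v140 := mul v137 v139; ok v140 && (
  let v141 := sub v1 v140; ok v141 && (
  let v142 := mul v137 v141; ok v142 && (
  let v143 := sub v0 v142; ok v143 && (
  let v144 := add v57 v0; ok v144 && (
  let v145 := mul v57 v57; ok v145 && (
  let v146 := add v145 v0; ok v146 && (
  let v147 := mul v57 v143; ok v147 && (
  let v148 := scale ⟨2199023255552, 0, 0, 0⟩ v147; ok v148 && (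
  let v149 := add v146 v148; ok v149 && (
  let v150 := inv v144; ok v150 && (
  let v151 := mul v149 v150; ok v151 && (
  let v152 := add v151 v144; ok v152 && (
  let v153 := mul v57 v135; ok v153 && (
  let v154 := scale ⟨549755813888, 0, 0, 0⟩ v153; ok v154 && (
  let v155 := mul v154 v152; ok v155 && (
  let v156 := sub v149 v155; ok v156 && (
  isPos 4 v149 && (
  isPos 4 v156 && (
  let v157 := sub v0 v57; ok v157 && (
  let v158 := mul v157 v144; ok v158 && (
  let v159 := inv v156; ok v159 && (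
  let v160 := mul v158 v159; ok v160 && (
  let v161 := scale ⟨549755813888, 0, 0, 0⟩ v160; ok v161 && (
  let v162 := add v161 v1; ok v162 && (
  let v163 := inv v162; ok v163 && (
  let v164 := mul v161 v163; ok v164 && (
  let v165 := mul v135 v164; ok v165 && (
  let v166 := add v4 v0; ok v166 && (
  let v167 := inv v166; ok v167 && (
  let v168 := mul v4 v167; ok v168 && (
  let v169 := scale ⟨2199023255552, 0, 0, 0⟩ v168; ok v169 && (
  let v170 := sub v0 v169; ok v170 && (
  let v171 := sub v0 v4; ok v171 && (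
  let v172 := mul x3 v167; ok v172 && (
  let v173 := mul v172 v170; ok v173 && (
  let v174 := add v17 v173; ok v174 && (
  let v175 := mul x0 v10; ok v175 && (
  let v176 := cst ⟨5497558138880, 0, 0, 0⟩; ok v176 && (
  let v177 := inv v176; ok v177 && (
  let v178 := mul v0 v177; ok v178 && (
  let v179 := mul x0 v178; ok v179 && (
  let v180 := scale ⟨5497558138880, 0, 0, 0⟩ v76; ok v180 && (
  let v181 := scale ⟨224412041216, 0, 0, 0⟩ v8; ok v181 && (
  let v182 := inv v29; ok v182 && (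
  let v183 := mul v181 v182; ok v183 && (
  let v184 := mul v179 v17; ok v184 && (
  let v185 := mul v184 v183; ok v185 && (
  let v186 := mul v2 v185; ok v186 && (
  let v187 := sub v0 v186; ok v187 && (
  let v188 := inv v187; ok v188 && (
  let v189 := mul v125 v186; ok v189 && (
  let v190 := sub v0 v189; ok v190 && (
  let v191 := inv v190; ok v191 && (
  let v192 := cst ⟨2199023255552, 0, 0, 0⟩; ok v192 && (
  let v193 := add v175 v192; ok v193 && (
  let v194 := inv v193; ok v194 && (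
  let v195 := mul v16 x0; ok v195 && (
  let v196 := mul v195 x1; ok v196 && (
  let v197 := mul v196 v194; ok v197 && (
  let v198 := scale ⟨549755813888, 0, 0, 0⟩ v197; ok v198 && (
  let v199 := sub v0 v198; ok v199 && (
  let v200 := sub v0 v197; ok v200 && (
  let v201 := inv v200; ok v201 && (
  let v202 := mul v199 v201; ok v202 && (
  let v203 := mul v202 v194; ok v203 && (
  let v204 := mul v203 x0; ok v204 && (
  let v205 := mul x1 v14; ok v205 && (
  let v206 := mul v205 v204; ok v206 && (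
  let v207 := mul v197 v202; ok v207 && (
  isPos 4 v200 && (
  let v208 := mul v207 v76; ok v208 && (
  let v209 := scale ⟨1374389534720, 0, 0, 0⟩ v208; ok v209 && (
  let v210 := sub v1 v209; ok v210 && (
  isPos 4 v210 && (
  let v211 := scale ⟨3092376453120, 0, 0, 0⟩ v208; ok v211 && (
  let v212 := add v211 v192; ok v212 && (
  let v213 := mul v208 v212; ok v213 && (
  let v214 := add v0 v213; ok v214 && (
  let v215 := scale ⟨1546188226560, 0, 0, 0⟩ v208; ok v215 && (
  let v216 := add v215 v0; ok v216 && (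
  let v217 := mul v208 v216; ok v217 && (
  let v218 := add v0 v217; ok v218 && (
  let v219 := mul v4 v14; ok v219 && (
  let v220 := sub v0 v66; ok v220 && (
  let v221 := mul v4 v15; ok v221 && (
  let v222 := scale ⟨2199023255552, 0, 0, 0⟩ v221; ok v222 && (
  let v223 := sub v220 v222; ok v223 && (
  let v224 := mul v219 v219; ok v224 && (
  let v225 := add v223 v224; ok v225 && (
  let v226 := add v225 v0; ok v226 && (
  let v227 := scale ⟨549755813888, 0, 0, 0⟩ v226; ok v227 && (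
  let v228 := scale ⟨549755813888, 0, 0, 0⟩ v30; ok v228 && (
  let v229 := sub v8 v228; ok v229 && (
  let v230 := mul v67 v220; ok v230 && (
  let v231 := mul v230 v7; ok v231 && (
  let v232 := scale ⟨137438953472, 0, 0, 0⟩ v231; ok v232 && (
  let v233 := add v229 v232; ok v233 && (
  let v234 := mul v227 v233; ok v234 && (
  let v235 := mul v118 v123; ok v235 && (
  let v236 := add v125 v0; ok v236 && (
  let v237 := mul v236 v188; ok v237 && (
  let v238 := mul v125 v191; ok v238 && (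
  let v239 := add v237 v238; ok v239 && (
  let v240 := mul v186 v239; ok v240 && (
  let v241 := add v235 v240; ok v241 && (
  let v242 := mul v241 v76; ok v242 && (
  let v243 := mul v236 v186; ok v243 && (
  let v244 := mul v243 v188; ok v244 && (
  let v245 := add v235 v244; ok v245 && (
  let v246 := mul v245 v76; ok v246 && (
  let v247 := scale ⟨223338299392, 0, 0, 0⟩ v246; ok v247 && (
  let v248 := add v1 v247; ok v248 && (
  let v249 := mul v246 v248; ok v249 && (
  let v250 := add v0 v249; ok v250 && (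
  let v251 := scale ⟨893353197568, 0, 0, 0⟩ v242; ok v251 && (
  let v252 := add v0 v251; ok v252 && (
  let v253 := mul v242 v252; ok v253 && (
  let v254 := add v0 v253; ok v254 && (
  let v255 := mul v169 v172; ok v255 && (
  let v256 := mul v255 v214; ok v256 && (
  let v257 := mul v256 v254; ok v257 && (
  let v258 := mul v234 v250; ok v258 && (
  let v259 := add v44 v1; ok v259 && (
  let v260 := mul v257 v259; ok v260 && (
  let v261 := add v258 v260; ok v261 && (
  let v262 := add v44 v0; ok v262 && (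
  let v263 := mul v257 v262; ok v263 && (
  let v264 := mul v218 v262; ok v264 && (
  let v265 := mul v264 v172; ok v265 && (
  let v266 := mul v265 v171; ok v266 && (
  let v267 := mul v2 v174; ok v267 && (
  let v268 := inv v44; ok v268 && (
  let v269 := mul v267 v268; ok v269 && (
  let v270 := scale ⟨549755813888, 0, 0, 0⟩ v269; ok v270 && (
  let v271 := inv x2; ok v271 && (
  let v272 := mul v61 v271; ok v272 && (
  let v273 := mul v272 v112; ok v273 && (
  let v274 := mul v273 v123; ok v274 && (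
  let v275 := mul v16 v270; ok v275 && (
  let v276 := mul v261 v274; ok v276 && (
  let v277 := mul v266 v206; ok v277 && (
  let v278 := add v276 v277; ok v278 && (
  let v279 := mul v278 v76; ok v279 && (
  let v280 := add v275 v279; ok v280 && (
  let v281 := mul v261 v236; ok v281 && (
  let v282 := mul v281 v188; ok v282 && (
  let v283 := mul v263 v125; ok v283 && (
  let v284 := mul v283 v191; ok v284 && (
  let v285 := add v282 v284; ok v285 && (
  let v286 := mul v285 v76; ok v286 && (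
  let v287 := mul v16 v280; ok v287 && (
  let v288 := mul v185 v286; ok v288 && (
  let v289 := add v287 v288; ok v289 && (
  let v290 := mul v67 v289; ok v290 && (
  let v291 := mul v290 v268; ok v291 && (
  let v292 := sub v0 v291; ok v292 && (
  let v293 := inv v292; ok v293 && (
  let v294 := mul v289 v293; ok v294 && (
  let v295 := mul x1 v294; ok v295 && (
  let v296 := mul v67 v294; ok v296 && (
  let v297 := mul v296 v268; ok v297 && (
  let v298 := sub v0 v297; ok v298 && (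
  let v299 := mul v41 v298; ok v299 && (
  let v300 := sub v299 v295; ok v300 && (
  let v301 := inv v300; ok v301 && (
  let v302 := mul v295 v301; ok v302 && (
  let v303 := sub v0 v295; ok v303 && (
  let v304 := inv v303; ok v304 && (
  let v305 := inv v30; ok v305 && (
  let v306 := mul v235 v305; ok v306 && (
  let v307 := add v105 v306; ok v307 && (
  let v308 := mul v307 v304; ok v308 && (
  let v309 := mul v308 v296; ok v309 && (
  let v310 := scale ⟨223338299392, 0, 0, 0⟩ v309; ok v310 && (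
  let v311 := add v1 v310; ok v311 && (
  let v312 := mul v309 v311; ok v312 && (
  let v313 := add v0 v312; ok v313 && (
  let v314 := mul v309 v313; ok v314 && (
  let v315 := mul v314 v117; ok v315 && (
  let v316 := mul v315 v125; ok v316 && (
  let v317 := sub v0 v316; ok v317 && (
  let v318 := mul v308 v313; ok v318 && (
  let v319 := mul v318 v293; ok v319 && (
  let v320 := mul v319 v76; ok v320 && (
  let v321 := inv v317; ok v321 && (
  let v322 := mul v320 v321; ok v322 && (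
  let v323 := mul v322 x2; ok v323 && (
  let v324 := mul v261 v188; ok v324 && (
  let v325 := mul v263 v117; ok v325 && (
  let v326 := mul v325 v125; ok v326 && (
  let v327 := mul v326 v191; ok v327 && (
  let v328 := add v324 v327; ok v328 && (
  let v329 := mul v323 v328; ok v329 && (
  let v330 := mul v261 v61; ok v330 && (
  let v331 := mul v330 v271; ok v331 && (
  let v332 := mul v331 v109; ok v332 && (
  let v333 := mul v332 v123; ok v333 && (
  let v334 := mul v322 v180; ok v334 && (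
  let v335 := mul v334 x2; ok v335 && (
  let v336 := inv v17; ok v336 && (
  let v337 := mul v335 v336; ok v337 && (
  let v338 := mul x0 v117; ok v338 && (
  let v339 := mul v338 v16; ok v339 && (
  let v340 := mul v339 v270; ok v340 && (
  let v341 := add v340 v333; ok v341 && (
  let v342 := mul v117 v266; ok v342 && (
  let v343 := mul v342 v206; ok v343 && (
  let v344 := add v341 v343; ok v344 && (
  let v345 := mul v337 v344; ok v345 && (
  let v346 := mul v179 v2; ok v346 && (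
  let v347 := mul v346 v17; ok v347 && (
  let v348 := mul v347 v16; ok v348 && (
  let v349 := cst ⟨3298534883328, 0, 0, 0⟩; ok v349 && (
  let v350 := mul v349 v177; ok v350 && (
  let v351 := add v165 v0; ok v351 && (
  let v352 := mul v165 v351; ok v352 && (
  let v353 := add v55 v352; ok v353 && (
  let v354 := mul v302 v353; ok v354 && (
  let v355 := mul v57 v351; ok v355 && (
  let v356 := scale ⟨687194767360, 0, 0, 0⟩ v354; ok v356 && (
  let v357 := add v0 v356; ok v357 && (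
  let v358 := mul v354 v357; ok v358 && (
  let v359 := add v0 v358; ok v359 && (
  let v360 := mul v355 v359; ok v360 && (
  let v361 := add v10 x1; ok v361 && (
  let v362 := mul v166 v361; ok v362 && (
  let v363 := mul v362 v350; ok v363 && (
  let v364 := add v0 v363; ok v364 && (
  let v365 := inv v364; ok v365 && (
  let v366 := mul v360 v365; ok v366 && (
  let v367 := mul v366 v13; ok v367 && (
  let v368 := mul v2 v294; ok v368 && (
  let v369 := mul v368 v336; ok v369 && (
  let v370 := add v0 v369; ok v370 && (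
  let v371 := mul v367 v370; ok v371 && (
  let v372 := sub v44 v296; ok v372 && (
  let v373 := inv v372; ok v373 && (
  let v374 := mul v371 v373; ok v374 && (
  let v375 := mul x1 v329; ok v375 && (
  let v376 := mul v375 v186; ok v376 && (
  let v377 := mul x1 v348; ok v377 && (
  let v378 := mul v345 v377; ok v378 && (
  let v379 := add v376 v378; ok v379 && (
  let v380 := add v375 v345; ok v380 && (
  let v381 := add v0 v379; ok v381 && (
  let v382 := mul v374 v381; ok v382 && (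
  let v383 := add v380 v382; ok v383 && (
  let v384 := sub v0 v383; ok v384 && (
  let v385 := scale ⟨1073741824, 0, 0, 0⟩ x1; ok v385 && (
  let v386 := sub v384 v385; ok v386 && (
  let v387 := sub v13 v0; ok v387 && (
  let v388 := add v387 v192; ok v388 && (
  let v389 := scale ⟨2199023255552, 0, 0, 0⟩ v350; ok v389 && (
  let v390 := sub v388 v389; ok v390 && (
  let v391 := mul v166 v390; ok v391 && (
  let v392 := mul v387 v389; ok v392 && (
  let v393 := add v392 v0; ok v393 && (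
  let v394 := inv v393; ok v394 && (
  let v395 := mul v391 v394; ok v395 && (
  let v396 := mul v179 v286; ok v396 && (
  let v397 := scale ⟨549755813888, 0, 0, 0⟩ v183; ok v397 && (
  let v398 := add v10 v397; ok v398 && (
  let v399 := mul v396 v398; ok v399 && (
  let v400 := scale ⟨2199023255552, 0, 0, 0⟩ v399; ok v400 && (
  let v401 := add v280 v400; ok v401 && (
  let v402 := scale ⟨2199023255552, 0, 0, 0⟩ v401; ok v402 && (
  let v403 := mul v402 v293; ok v403 && (
  let v404 := sub v17 v368; ok v404 && (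
  let v405 := inv v404; ok v405 && (
  let v406 := mul v403 v405; ok v406 && (
  let v407 := sub v395 v406; ok v407 && (
  isPos 4 v187 && (
  isPos 4 v190 && (
  let v408 := scale ⟨2199023255552, 0, 0, 0⟩ v290; ok v408 && (
  let v409 := sub v44 v408; ok v409 && (
  isPos 4 v409 && (
  isPos 4 v300 && (
  isPos 4 v121 && (
  let v410 := sub v1 v165; ok v410 && (
  isPos 4 v410 && (
  let v411 := scale ⟨687194767360, 0, 0, 0⟩ v0; ok v411 && (
  let v412 := sub v411 v246; ok v412 && (
  isPos 4 v412 && (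
  let v413 := scale ⟨377957122048, 0, 0, 0⟩ v0; ok v413 && (
  let v414 := sub v413 v242; ok v414 && (
  isPos 4 v414 && (
  isPos 4 v404 && (
  let v415 := sub v1 v354; ok v415 && (
  isPos 4 v415 && (
  isPos 4 v303 && (
  isPos 4 v317 && (
  let v416 := sub v411 v309; ok v416 && (
  isPos 4 v416 && (
  let v417 := mul v175 v175; ok v417 && (
  let v418 := cst ⟨14293651161088, 0, 0, 0⟩; ok v418 && (
  let v419 := cst ⟨10995116277760, 0, 0, 0⟩; ok v419 && (
  let v420 := inv v419; ok v420 && (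
  let v421 := mul v418 v420; ok v421 && (
  let v422 := mul v417 v421; ok v422 && (
  let v423 := cst ⟨27487790694400, 0, 0, 0⟩; ok v423 && (
  let v424 := add v422 v423; ok v424 && (
  let v425 := mul v166 v17; ok v425 && (
  let v426 := mul v425 v350; ok v426 && (
  let v427 := mul x1 v426; ok v427 && (
  let v428 := add v0 v427; ok v428 && (
  let v429 := inv v428; ok v429 && (
  let v430 := mul v426 v429; ok v430 && (
  let v431 := sub v32 x1; ok v431 && (
  let v432 := sub v431 v31; ok v432 && (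
  let v433 := scale ⟨2199023255552, 0, 0, 0⟩ v2; ok v433 && (
  let v434 := add v433 v296; ok v434 && (
  let v435 := mul x0 v434; ok v435 && (
  let v436 := mul v424 v430; ok v436 && (
  let v437 := mul v293 v435; ok v437 && (
  let v438 := mul v76 v278; ok v438 && (
  let v439 := mul v5 v438; ok v439 && (
  let v440 := mul v17 v179; ok v440 && (
  let v441 := mul v440 v286; ok v441 && (
  let v442 := mul v30 v441; ok v442 && (
  let v443 := add v439 v442; ok v443 && (
  let v444 := mul x0 v443; ok v444 && (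
  let v445 := mul v437 v444; ok v445 && (
  let v446 := sub v436 v445; ok v446 && (
  let v447 := scale ⟨549755813888, 0, 0, 0⟩ v368; ok v447 && (
  let v448 := add v0 v447; ok v448 && (
  let v449 := mul v293 v448; ok v449 && (
  let v450 := mul x1 v16; ok v450 && (
  let v451 := mul v450 v174; ok v451 && (
  let v452 := mul v17 v44; ok v452 && (
  let v453 := inv v452; ok v453 && (
  let v454 := mul v451 v453; ok v454 && (
  let v455 := mul v449 v454; ok v455 && (
  let v456 := sub v432 v455; ok v456 && (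
  let v457 := mul v183 v446; ok v457 && (
  let v458 := sub v0 v183; ok v458 && (
  let v459 := mul v5 v456; ok v459 && (
  let v460 := mul v458 v459; ok v460 && (
  let v461 := mul v424 v460; ok v461 && (
  let v462 := add v457 v461; ok v462 && (
  isPos 4 v407 && (
  isPos 4 v386 && (
  isPos 4 v462 && (
  isPos 4 v456 && (
  true))))))))))))))))))))))))))))))))))))))))))))))))))))))))))))))))))))))))))))))))))))))))))))))))))))))))))))))))))))))))))))))))))))))))))))))))))))))))))))))))))))))))))))))))))))))))))))))))))))))))))))))))))))))))))))))))))))))))))))))))))))))))))))))))))))))))))))))))))))))))))))))))))))))))))))))))))))))))))))))))))))))))))))))))))))))))))))))))))))))))))))))))))))))))))))))))))))))))))))))))))))))))))))))))))))))))))))))))))))))))))))))))))))))))))))))))))))))))))))))))))))))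
  | _ => false

set_option maxRecDepth 1000000 in
theorem chk3_eq (O : Ops) (m : List O.α)
    (h : chk3 O.cst O.add O.sub O.mul O.scale O.neg O.inv O.exp O.log O.ok O.isPos O.isLt m = true) :
    runG O 4 prog3 m = true := by
  match m, h with
  | [x0, x1, x2, x3], h => exact h

def chkB3 : List opsE.α → Bool :=
  chk3 opsE.cst opsE.add opsE.sub opsE.mul opsE.scale opsE.neg opsE.inv opsE.exp opsE.log opsE.ok opsE.isPos opsE.isLt

theorem chkB3_eq (m : List opsE.α) (h : chkB3 m = true) : runG opsE 4 prog3 m = true :=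
  chk3_eq opsE m h

def prog4 : List Op := [
  .const ⟨1099511627776, 0, 0, 0⟩,
  .const ⟨549755813888, 0, 0, 0⟩,
  .mul 3 4,
  .mul 0 6,
  .scale ⟨549755813888, 0, 0, 0⟩ 0,
  .mul 7 7,
  .mul 1 1,
  .sub 6 0,
  .inv 0,
  .mul 4 0,
  .scale ⟨2199023255552, 0, 0, 0⟩ 0,
  .scale ⟨2199023255552, 0, 0, 0⟩ 2,
  .sub 0 11,
  .add 0 2,
  .mul 17 5,
  .mul 17 0,
  .sub 15 0,
  .add 16 1,
  .scale ⟨10774999203840, 0, 0, 0⟩ 13,
  .scale ⟨45768245248, 0, 0, 0⟩ 0,
  .const ⟨183207198720, 0, 0, 0⟩,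
  .add 1 0,
  .mul 3 0,
  .add 21 0,
  .mul 5 0,
  .add 24 0,
  .mul 7 0,
  .scale ⟨549755813888, 0, 0, 0⟩ 0,
  .add 27 0,
  .mul 3 0,
  .mul 31 24,
  .mul 20 15,
  .scale ⟨2199023255552, 0, 0, 0⟩ 19,
  .add 1 0,
  .add 0 35,
  .mul 4 0,
  .add 0 35,
  .mul 26 26,
  .scale ⟨2199023255552, 0, 0, 0⟩ 0,
  .add 0 38,
  .mul 27 5,
  .sub 0 40,
  .log 5,
  .scale ⟨549755813888, 0, 0, 0⟩ 0,
  .exp 0,
  .scale ⟨549755813888, 0, 0, 0⟩ 45,
  .mul 0 3,
  .neg 0,
  .exp 0,
  .mul 36 18,
  .mul 0 8,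
  .scale ⟨4398046511104, 0, 0, 0⟩ 0,
  .add 0 51,
  .log 0,
  .sub 0 11,
  .mul 9 0,
  .neg 0,
  .exp 0,
  .mul 42 47,
  .add 46 0,
  .inv 0,
  .mul 43 0,
  .mul 45 63,
  .mul 0 1,
  .mul 49 49,
  .sub 64 59,
  .mul 1 0,
  .mul 64 64,
  .add 55 37,
  .inv 0,
  .mul 0 70,
  .mul 0 68,
  .mul 0 0,
  .sub 72 8,
  .mul 8 0,
  .mul 2 0,
  .inv 76,
  .const ⟨45812285440, 0, 0, 0⟩,
  .scale ⟨1527119872, 0, 0, 0⟩ 2,
  .sub 1 0,
  .mul 4 0,
  .sub 79 0,
  .mul 6 0,
  .sub 82 0,
  .add 35 83,
  .mul 36 36,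
  .add 0 85,
  .mul 38 3,
  .scale ⟨2199023255552, 0, 0, 0⟩ 0,
  .add 2 0,
  .inv 5,
  .mul 1 0,
  .add 0 7,
  .mul 44 29,
  .scale ⟨549755813888, 0, 0, 0⟩ 0,
  .mul 0 2,
  .sub 6 0,
  .pos 7,
  .pos 0,
  .inv 0,
  .mul 52 63,
  .const ⟨6597069766656, 0, 0, 0⟩,
  .add 64 0,
  .mul 2 0,
  .scale ⟨4398046511104, 0, 0, 0⟩ 66,
  .add 0 3,
  .inv 0,
  .mul 3 0,
  .sub 105 57,
  .mul 0 22,
  .mul 0 10,
  .scale ⟨549755813888, 0, 0, 0⟩ 0,
  .add 0 108,
  .inv 0,
  .mul 2 0,
  .mul 18 3,
  .add 0 112,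
  .mul 0 22,
  .inv 26,
  .mul 1 0,
  .mul 54 5,
  .scale ⟨549755813888, 0, 0, 0⟩ 0,
  .sub 119 0,
  .sub 120 2,
  .inv 0,
  .mul 2 0,
  .add 5 123,
  .mul 76 0,
  .mul 109 108,
  .add 114 128,
  .mul 112 115,
  .mul 0 118,
  .scale ⟨2199023255552, 0, 0, 0⟩ 0,
  .add 91 0,
  .mul 4 0,
  .inv 0,
  .mul 7 0,
  .mul 136 0,
  .inv 99,
  .mul 61 0,
  .scale ⟨1527119872, 0, 0, 0⟩ 0,
  .sub 61 0,
  .mul 2 0,
  .sub 139 0,
  .mul 4 0,
  .sub 142 0,
  .add 86 143,
  .mul 87 87,
  .add 0 145,
  .mul 89 3,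
  .scale ⟨2199023255552, 0, 0, 0⟩ 0,
  .add 2 0,
  .inv 5,
  .mul 1 0,
  .add 0 7,
  .mul 95 17,
  .scale ⟨549755813888, 0, 0, 0⟩ 0,
  .mul 0 2,
  .sub 6 0,
  .pos 7,
  .pos 0,
  .sub 156 99,
  .mul 0 13,
  .inv 2,
  .mul 1 0,
  .scale ⟨549755813888, 0, 0, 0⟩ 0,
  .add 0 160,
  .inv 0,
  .mul 2 0,
  .mul 29 0,
  .add 161 165,
  .inv 0,
  .mul 163 0,
  .scale ⟨2199023255552, 0, 0, 0⟩ 0,
  .sub 169 0,
  .sub 170 166,
  .mul 175 4,
  .mul 0 2,
  .add 156 0,
  .mul 175 164,
  .const ⟨5497558138880, 0, 0, 0⟩,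
  .inv 0,
  .mul 177 0,
  .mul 179 0,
  .scale ⟨5497558138880, 0, 0, 0⟩ 103,
  .scale ⟨224412041216, 0, 0, 0⟩ 172,
  .inv 152,
  .mul 1 0,
  .mul 4 166,
  .mul 0 1,
  .mul 183 0,
  .sub 186 0,
  .inv 0,
  .mul 63 2,
  .sub 189 0,
  .inv 0,
  .scale ⟨3573412790272, 0, 0, 0⟩ 177,
  .inv 195,
  .scale ⟨339302416384, 0, 0, 0⟩ 0,
  .add 2 0,
  .scale ⟨549755813888, 0, 0, 0⟩ 0,
  .scale ⟨2199023255552, 0, 0, 0⟩ 120,
  .add 0 197,
  .add 122 198,
  .mul 195 185,
  .sub 200 134,
  .mul 197 186,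
  .scale ⟨2199023255552, 0, 0, 0⟩ 0,
  .sub 2 0,
  .mul 4 4,
  .add 1 0,
  .add 0 206,
  .scale ⟨549755813888, 0, 0, 0⟩ 0,
  .scale ⟨549755813888, 0, 0, 0⟩ 178,
  .sub 201 0,
  .mul 143 9,
  .mul 0 204,
  .scale ⟨137438953472, 0, 0, 0⟩ 0,
  .add 3 0,
  .mul 6 0,
  .mul 97 92,
  .add 91 216,
  .mul 0 29,
  .mul 93 27,
  .add 1 0,
  .mul 34 0,
  .add 5 0,
  .mul 0 146,
  .mul 6 37,
  .mul 0 36,
  .add 9 0,
  .mul 0 150,
  .scale ⟨223338299392, 0, 0, 0⟩ 0,
  .add 227 0,
  .mul 2 0,
  .add 230 0,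
  .scale ⟨893353197568, 0, 0, 0⟩ 8,
  .add 232 0,
  .mul 10 0,
  .add 234 0,
  .mul 66 63,
  .mul 0 38,
  .mul 0 2,
  .mul 23 7,
  .add 195 238,
  .mul 2 0,
  .add 2 0,
  .add 198 242,
  .mul 5 0,
  .mul 45 1,
  .mul 0 73,
  .mul 0 75,
  .mul 245 73,
  .inv 204,
  .mul 1 0,
  .scale ⟨549755813888, 0, 0, 0⟩ 0,
  .mul 190 58,
  .mul 0 140,
  .mul 0 130,
  .mul 238 3,
  .mul 13 1,
  .mul 9 60,
  .add 1 0,
  .mul 0 182,
  .add 4 0,
  .mul 18 43,
  .mul 0 73,
  .mul 18 137,
  .mul 0 72,
  .add 2 0,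
  .mul 0 189,
  .mul 250 6,
  .mul 82 1,
  .add 1 0,
  .mul 202 0,
  .mul 0 21,
  .sub 271 0,
  .inv 0,
  .mul 4 0,
  .mul 276 0,
  .mul 208 1,
  .mul 0 27,
  .sub 277 0,
  .mul 237 0,
  .sub 0 4,
  .inv 0,
  .mul 6 0,
  .sub 282 7,
  .inv 0,
  .inv 254,
  .mul 69 0,
  .add 181 0,
  .mul 0 3,
  .mul 0 12,
  .scale ⟨223338299392, 0, 0, 0⟩ 0,
  .add 289 0,
  .mul 2 0,
  .add 292 0,
  .mul 4 0,
  .mul 0 177,
  .mul 0 170,
  .sub 296 0,
  .mul 9 4,
  .mul 0 25,
  .mul 0 223,
  .inv 3,
  .mul 1 0,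
  .mul 0 305,
  .mul 61 115,
  .mul 60 187,
  .mul 0 180,
  .mul 0 115,
  .add 3 0,
  .mul 5 0,
  .mul 67 248,
  .mul 0 117,
  .mul 0 202,
  .mul 0 189,
  .mul 11 133,
  .mul 0 317,
  .inv 298,
  .mul 1 0,
  .mul 318 200,
  .mul 0 302,
  .mul 0 68,
  .add 0 7,
  .mul 204 74,
  .mul 0 126,
  .add 2 0,
  .mul 7 0,
  .mul 146 323,
  .mul 0 309,
  .mul 0 311,
  .const ⟨3298534883328, 0, 0, 0⟩,
  .mul 0 152,
  .add 165 330,
  .mul 166 0,
  .add 277 0,
  .mul 51 0,
  .mul 277 3,
  .scale ⟨687194767360, 0, 0, 0⟩ 1,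
  .add 336 0,
  .mul 3 0,
  .add 338 0,
  .mul 4 0,
  .add 330 342,
  .mul 175 0,
  .mul 0 12,
  .add 343 0,
  .inv 0,
  .mul 5 0,
  .mul 0 333,
  .mul 345 73,
  .mul 0 32,
  .add 349 0,
  .mul 3 0,
  .sub 307 75,
  .inv 0,
  .mul 2 0,
  .mul 356 45,
  .mul 0 169,
  .mul 358 28,
  .mul 32 0,
  .add 2 0,
  .add 4 34,
  .add 360 1,
  .mul 7 0,
  .add 2 0,
  .sub 363 0,
  .scale ⟨1073741824, 0, 0, 0⟩ 366,
  .sub 1 0,
  .sub 353 366,
  .const ⟨2199023255552, 0, 0, 0⟩,
  .add 1 0,
  .scale ⟨2199023255552, 0, 0, 0⟩ 39,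
  .sub 1 0,
  .mul 205 0,
  .mul 5 2,
  .add 0 373,
  .inv 0,
  .mul 3 0,
  .mul 197 110,
  .scale ⟨549755813888, 0, 0, 0⟩ 194,
  .add 368 0,
  .mul 2 0,
  .scale ⟨2199023255552, 0, 0, 0⟩ 0,
  .add 121 0,
  .scale ⟨2199023255552, 0, 0, 0⟩ 0,
  .mul 0 110,
  .sub 367 36,
  .inv 0,
  .mul 2 0,
  .sub 11 0,
  .pos 201,
  .pos 198,
  .scale ⟨2199023255552, 0, 0, 0⟩ 118,
  .sub 345 0,
  .pos 0,
  .pos 110,
  .pos 269,
  .sub 389 225,
  .pos 0,
  .scale ⟨687194767360, 0, 0, 0⟩ 391,
  .sub 0 165,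
  .pos 0,
  .scale ⟨377957122048, 0, 0, 0⟩ 393,
  .sub 0 171,
  .pos 0,
  .pos 10,
  .sub 394 61,
  .pos 0,
  .pos 113,
  .pos 99,
  .sub 4 107,
  .pos 0,
  .mul 222 222,
  .const ⟨14293651161088, 0, 0, 0⟩,
  .const ⟨10995116277760, 0, 0, 0⟩,
  .inv 0,
  .mul 2 0,
  .mul 4 0,
  .const ⟨27487790694400, 0, 0, 0⟩,
  .add 1 0,
  .mul 239 388,
  .mul 0 76,
  .mul 409 0,
  .add 408 0,
  .inv 0,
  .mul 3 0,
  .sub 379 413,
  .sub 0 381,
  .scale ⟨2199023255552, 0, 0, 0⟩ 411,
  .add 0 138,
  .mul 416 0,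
  .mul 11 5,
  .mul 144 1,
  .mul 342 160,
  .mul 414 0,
  .mul 403 241,
  .mul 0 155,
  .mul 392 0,
  .add 3 0,
  .mul 425 0,
  .mul 7 0,
  .sub 9 0,
  .scale ⟨549755813888, 0, 0, 0⟩ 79,
  .add 428 0,
  .mul 156 0,
  .mul 432 414,
  .mul 0 257,
  .mul 415 388,
  .inv 0,
  .mul 2 0,
  .mul 5 0,
  .sub 23 0,
  .mul 254 10,
  .sub 438 255,
  .mul 434 2,
  .mul 1 0,
  .mul 36 0,
  .add 4 0,
  .pos 55,
  .pos 77,
  .pos 0,
  .pos 6]

def chk4 {α : Type} (cst : Z → α) (add sub mul : α → α → α) (scale : Z → α → α)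
    (neg inv exp log : α → α) (ok : α → Bool) (isPos : Nat → α → Bool) (isLt : α → Nat → Bool) :
    List α → Bool
  | [x0, x1, x2, x3] =>
  let v0 := cst ⟨1099511627776, 0, 0, 0⟩; ok v0 && (
  let v1 := cst ⟨549755813888, 0, 0, 0⟩; ok v1 && (
  let v2 := mul x1 x2; ok v2 && (
  let v3 := mul v2 x3; ok v3 && (
  let v4 := scale ⟨549755813888, 0, 0, 0⟩ v3; ok v4 && (
  let v5 := mul x2 x2; ok v5 && (
  let v6 := mul v4 v4; ok v6 && (
  let v7 := sub v0 v6; ok v7 && (
  let v8 := inv v7; ok v8 && (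
  let v9 := mul v4 v8; ok v9 && (
  let v10 := scale ⟨2199023255552, 0, 0, 0⟩ v9; ok v10 && (
  let v11 := scale ⟨2199023255552, 0, 0, 0⟩ v8; ok v11 && (
  let v12 := sub v11 v0; ok v12 && (
  let v13 := add v12 v10; ok v13 && (
  let v14 := mul x3 v8; ok v14 && (
  let v15 := mul x2 v14; ok v15 && (
  let v16 := sub v0 v15; ok v16 && (
  let v17 := add v0 v15; ok v17 && (
  let v18 := scale ⟨10774999203840, 0, 0, 0⟩ v4; ok v18 && (
  let v19 := scale ⟨45768245248, 0, 0, 0⟩ v18; ok v19 && (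
  let v20 := cst ⟨183207198720, 0, 0, 0⟩; ok v20 && (
  let v21 := add v19 v20; ok v21 && (
  let v22 := mul v18 v21; ok v22 && (
  let v23 := add v1 v22; ok v23 && (
  let v24 := mul v18 v23; ok v24 && (
  let v25 := add v0 v24; ok v25 && (
  let v26 := mul v18 v25; ok v26 && (
  let v27 := scale ⟨549755813888, 0, 0, 0⟩ v26; ok v27 && (
  let v28 := add v0 v27; ok v28 && (
  let v29 := mul v25 v28; ok v29 && (
  let v30 := mul x1 v5; ok v30 && (
  let v31 := mul v10 v15; ok v31 && (
  let v32 := scale ⟨2199023255552, 0, 0, 0⟩ v12; ok v32 && (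
  let v33 := add v31 v32; ok v33 && (
  let v34 := add v33 x1; ok v34 && (
  let v35 := mul v30 v34; ok v35 && (
  let v36 := add v35 v0; ok v36 && (
  let v37 := mul v10 v10; ok v37 && (
  let v38 := scale ⟨2199023255552, 0, 0, 0⟩ v37; ok v38 && (
  let v39 := add v38 v0; ok v39 && (
  let v40 := mul v12 v34; ok v40 && (
  let v41 := sub v40 v0; ok v41 && (
  let v42 := log v36; ok v42 && (
  let v43 := scale ⟨549755813888, 0, 0, 0⟩ v42; ok v43 && (
  let v44 := exp v43; ok v44 && (
  let v45 := scale ⟨549755813888, 0, 0, 0⟩ x0; ok v45 && (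
  let v46 := mul v45 v42; ok v46 && (
  let v47 := neg v46; ok v47 && (
  let v48 := exp v47; ok v48 && (
  let v49 := mul v12 v30; ok v49 && (
  let v50 := mul v49 v41; ok v50 && (
  let v51 := scale ⟨4398046511104, 0, 0, 0⟩ v50; ok v51 && (
  let v52 := add v51 v0; ok v52 && (
  let v53 := log v52; ok v53 && (
  let v54 := sub v53 v42; ok v54 && (
  let v55 := mul v45 v54; ok v55 && (
  let v56 := neg v55; ok v56 && (
  let v57 := exp v56; ok v57 && (
  let v58 := mul v15 v10; ok v58 && (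
  let v59 := add v12 v58; ok v59 && (
  let v60 := inv v59; ok v60 && (
  let v61 := mul v17 v60; ok v61 && (
  let v62 := mul v16 x1; ok v62 && (
  let v63 := mul v62 v61; ok v63 && (
  let v64 := mul v14 v14; ok v64 && (
  let v65 := sub v0 v5; ok v65 && (
  let v66 := mul v64 v65; ok v66 && (
  let v67 := mul v2 v2; ok v67 && (
  let v68 := add v12 v30; ok v68 && (
  let v69 := inv v68; ok v69 && (
  let v70 := mul v69 x0; ok v70 && (
  let v71 := mul v70 v2; ok v71 && (
  let v72 := mul v71 v71; ok v72 && (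
  let v73 := sub v0 v64; ok v73 && (
  let v74 := mul v65 v73; ok v74 && (
  let v75 := mul v72 v74; ok v75 && (
  let v76 := inv x0; ok v76 && (
  let v77 := cst ⟨45812285440, 0, 0, 0⟩; ok v77 && (
  let v78 := scale ⟨1527119872, 0, 0, 0⟩ v75; ok v78 && (
  let v79 := sub v77 v78; ok v79 && (
  let v80 := mul v75 v79; ok v80 && (
  let v81 := sub v1 v80; ok v81 && (
  let v82 := mul v75 v81; ok v82 && (
  let v83 := sub v0 v82; ok v83 && (
  let v84 := add v48 v0; ok v84 && (
  let v85 := mul v48 v48; ok v85 && (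
  let v86 := add v85 v0; ok v86 && (
  let v87 := mul v48 v83; ok v87 && (
  let v88 := scale ⟨2199023255552, 0, 0, 0⟩ v87; ok v88 && (
  let v89 := add v86 v88; ok v89 && (
  let v90 := inv v84; ok v90 && (
  let v91 := mul v89 v90; ok v91 && (
  let v92 := add v91 v84; ok v92 && (
  let v93 := mul v48 v63; ok v93 && (
  let v94 := scale ⟨549755813888, 0, 0, 0⟩ v93; ok v94 && (
  let v95 := mul v94 v92; ok v95 && (
  let v96 := sub v89 v95; ok v96 && (
  isPos 4 v89 && (
  isPos 4 v96 && (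
  let v97 := inv v96; ok v97 && (
  let v98 := mul v45 v34; ok v98 && (
  let v99 := cst ⟨6597069766656, 0, 0, 0⟩; ok v99 && (
  let v100 := add v35 v99; ok v100 && (
  let v101 := mul v98 v100; ok v101 && (
  let v102 := scale ⟨4398046511104, 0, 0, 0⟩ v35; ok v102 && (
  let v103 := add v102 v99; ok v103 && (
  let v104 := inv v103; ok v104 && (
  let v105 := mul v101 v104; ok v105 && (
  let v106 := sub v0 v48; ok v106 && (
  let v107 := mul v106 v84; ok v107 && (
  let v108 := mul v107 v97; ok v108 && (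
  let v109 := scale ⟨549755813888, 0, 0, 0⟩ v108; ok v109 && (
  let v110 := add v109 v1; ok v110 && (
  let v111 := inv v110; ok v111 && (
  let v112 := mul v109 v111; ok v112 && (
  let v113 := mul v94 v109; ok v113 && (
  let v114 := add v113 v1; ok v114 && (
  let v115 := mul v114 v92; ok v115 && (
  let v116 := inv v89; ok v116 && (
  let v117 := mul v115 v116; ok v117 && (
  let v118 := mul v63 v112; ok v118 && (
  let v119 := scale ⟨549755813888, 0, 0, 0⟩ v118; ok v119 && (
  let v120 := sub v0 v119; ok v120 && (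
  let v121 := sub v0 v118; ok v121 && (
  let v122 := inv v121; ok v122 && (
  let v123 := mul v120 v122; ok v123 && (
  let v124 := add v118 v0; ok v124 && (
  let v125 := mul v48 v124; ok v125 && (
  let v126 := mul v16 v17; ok v126 && (
  let v127 := add v12 x1; ok v127 && (
  let v128 := mul v15 v12; ok v128 && (
  let v129 := mul v128 v10; ok v129 && (
  let v130 := scale ⟨2199023255552, 0, 0, 0⟩ v129; ok v130 && (
  let v131 := add v39 v130; ok v131 && (
  let v132 := mul v127 v131; ok v132 && (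
  let v133 := inv v132; ok v133 && (
  let v134 := mul v126 v133; ok v134 && (
  let v135 := mul x1 v134; ok v135 && (
  let v136 := inv v36; ok v136 && (
  let v137 := mul v75 v136; ok v137 && (
  let v138 := scale ⟨1527119872, 0, 0, 0⟩ v137; ok v138 && (
  let v139 := sub v77 v138; ok v139 && (
  let v140 := mul v137 v139; ok v140 && (
  let v141 := sub v1 v140; ok v141 && (
  let v142 := mul v137 v141; ok v142 && (
  let v143 := sub v0 v142; ok v143 && (
  let v144 := add v57 v0; ok v144 && (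
  let v145 := mul v57 v57; ok v145 && (
  let v146 := add v145 v0; ok v146 && (
  let v147 := mul v57 v143; ok v147 && (
  let v148 := scale ⟨2199023255552, 0, 0, 0⟩ v147; ok v148 && (
  let v149 := add v146 v148; ok v149 && (
  let v150 := inv v144; ok v150 && (
  let v151 := mul v149 v150; ok v151 && (
  let v152 := add v151 v144; ok v152 && (
  let v153 := mul v57 v135; ok v153 && (
  let v154 := scale ⟨549755813888, 0, 0, 0⟩ v153; ok v154 && (
  let v155 := mul v154 v152; ok v155 && (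
  let v156 := sub v149 v155; ok v156 && (
  isPos 4 v149 && (
  isPos 4 v156 && (
  let v157 := sub v0 v57; ok v157 && (
  let v158 := mul v157 v144; ok v158 && (
  let v159 := inv v156; ok v159 && (
  let v160 := mul v158 v159; ok v160 && (
  let v161 := scale ⟨549755813888, 0, 0, 0⟩ v160; ok v161 && (
  let v162 := add v161 v1; ok v162 && (
  let v163 := inv v162; ok v163 && (
  let v164 := mul v161 v163; ok v164 && (
  let v165 := mul v135 v164; ok v165 && (
  let v166 := add v4 v0; ok v166 && (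
  let v167 := inv v166; ok v167 && (
  let v168 := mul v4 v167; ok v168 && (
  let v169 := scale ⟨2199023255552, 0, 0, 0⟩ v168; ok v169 && (
  let v170 := sub v0 v169; ok v170 && (
  let v171 := sub v0 v4; ok v171 && (
  let v172 := mul x3 v167; ok v172 && (
  let v173 := mul v172 v170; ok v173 && (
  let v174 := add v17 v173; ok v174 && (
  let v175 := mul x0 v10; ok v175 && (
  let v176 := cst ⟨5497558138880, 0, 0, 0⟩; ok v176 && (
  let v177 := inv v176; ok v177 && (
  let v178 := mul v0 v177; ok v178 && (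
  let v179 := mul x0 v178; ok v179 && (
  let v180 := scale ⟨5497558138880, 0, 0, 0⟩ v76; ok v180 && (
  let v181 := scale ⟨224412041216, 0, 0, 0⟩ v8; ok v181 && (
  let v182 := inv v29; ok v182 && (
  let v183 := mul v181 v182; ok v183 && (
  let v184 := mul v179 v17; ok v184 && (
  let v185 := mul v184 v183; ok v185 && (
  let v186 := mul v2 v185; ok v186 && (
  let v187 := sub v0 v186; ok v187 && (
  let v188 := inv v187; ok v188 && (
  let v189 := mul v125 v186; ok v189 && (
  let v190 := sub v0 v189; ok v190 && (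
  let v191 := inv v190; ok v191 && (
  let v192 := scale ⟨3573412790272, 0, 0, 0⟩ v14; ok v192 && (
  let v193 := inv x2; ok v193 && (
  let v194 := scale ⟨339302416384, 0, 0, 0⟩ v193; ok v194 && (
  let v195 := add v192 v194; ok v195 && (
  let v196 := scale ⟨549755813888, 0, 0, 0⟩ v195; ok v196 && (
  let v197 := scale ⟨2199023255552, 0, 0, 0⟩ v76; ok v197 && (
  let v198 := add v197 v0; ok v198 && (
  let v199 := add v76 v0; ok v199 && (
  let v200 := mul v4 v14; ok v200 && (
  let v201 := sub v0 v66; ok v201 && (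
  let v202 := mul v4 v15; ok v202 && (
  let v203 := scale ⟨2199023255552, 0, 0, 0⟩ v202; ok v203 && (
  let v204 := sub v201 v203; ok v204 && (
  let v205 := mul v200 v200; ok v205 && (
  let v206 := add v204 v205; ok v206 && (
  let v207 := add v206 v0; ok v207 && (
  let v208 := scale ⟨549755813888, 0, 0, 0⟩ v207; ok v208 && (
  let v209 := scale ⟨549755813888, 0, 0, 0⟩ v30; ok v209 && (
  let v210 := sub v8 v209; ok v210 && (
  let v211 := mul v67 v201; ok v211 && (
  let v212 := mul v211 v7; ok v212 && (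
  let v213 := scale ⟨137438953472, 0, 0, 0⟩ v212; ok v213 && (
  let v214 := add v210 v213; ok v214 && (
  let v215 := mul v208 v214; ok v215 && (
  let v216 := mul v118 v123; ok v216 && (
  let v217 := add v125 v0; ok v217 && (
  let v218 := mul v217 v188; ok v218 && (
  let v219 := mul v125 v191; ok v219 && (
  let v220 := add v218 v219; ok v220 && (
  let v221 := mul v186 v220; ok v221 && (
  let v222 := add v216 v221; ok v222 && (
  let v223 := mul v222 v76; ok v223 && (
  let v224 := mul v217 v186; ok v224 && (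
  let v225 := mul v224 v188; ok v225 && (
  let v226 := add v216 v225; ok v226 && (
  let v227 := mul v226 v76; ok v227 && (
  let v228 := scale ⟨223338299392, 0, 0, 0⟩ v227; ok v228 && (
  let v229 := add v1 v228; ok v229 && (
  let v230 := mul v227 v229; ok v230 && (
  let v231 := add v0 v230; ok v231 && (
  let v232 := scale ⟨893353197568, 0, 0, 0⟩ v223; ok v232 && (
  let v233 := add v0 v232; ok v233 && (
  let v234 := mul v223 v233; ok v234 && (
  let v235 := add v0 v234; ok v235 && (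
  let v236 := mul v169 v172; ok v236 && (
  let v237 := mul v236 v198; ok v237 && (
  let v238 := mul v237 v235; ok v238 && (
  let v239 := mul v215 v231; ok v239 && (
  let v240 := add v44 v1; ok v240 && (
  let v241 := mul v238 v240; ok v241 && (
  let v242 := add v239 v241; ok v242 && (
  let v243 := add v44 v0; ok v243 && (
  let v244 := mul v238 v243; ok v244 && (
  let v245 := mul v199 v243; ok v245 && (
  let v246 := mul v245 v172; ok v246 && (
  let v247 := mul v246 v171; ok v247 && (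
  let v248 := mul v2 v174; ok v248 && (
  let v249 := inv v44; ok v249 && (
  let v250 := mul v248 v249; ok v250 && (
  let v251 := scale ⟨549755813888, 0, 0, 0⟩ v250; ok v251 && (
  let v252 := mul v61 v193; ok v252 && (
  let v253 := mul v252 v112; ok v253 && (
  let v254 := mul v253 v123; ok v254 && (
  let v255 := mul v16 v251; ok v255 && (
  let v256 := mul v242 v254; ok v256 && (
  let v257 := mul v247 v196; ok v257 && (
  let v258 := add v256 v257; ok v258 && (
  let v259 := mul v258 v76; ok v259 && (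
  let v260 := add v255 v259; ok v260 && (
  let v261 := mul v242 v217; ok v261 && (
  let v262 := mul v261 v188; ok v262 && (
  let v263 := mul v244 v125; ok v263 && (
  let v264 := mul v263 v191; ok v264 && (
  let v265 := add v262 v264; ok v265 && (
  let v266 := mul v265 v76; ok v266 && (
  let v267 := mul v16 v260; ok v267 && (
  let v268 := mul v185 v266; ok v268 && (
  let v269 := add v267 v268; ok v269 && (
  let v270 := mul v67 v269; ok v270 && (
  let v271 := mul v270 v249; ok v271 && (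
  let v272 := sub v0 v271; ok v272 && (
  let v273 := inv v272; ok v273 && (
  let v274 := mul v269 v273; ok v274 && (
  let v275 := mul x1 v274; ok v275 && (
  let v276 := mul v67 v274; ok v276 && (
  let v277 := mul v276 v249; ok v277 && (
  let v278 := sub v0 v277; ok v278 && (
  let v279 := mul v41 v278; ok v279 && (
  let v280 := sub v279 v275; ok v280 && (
  let v281 := inv v280; ok v281 && (
  let v282 := mul v275 v281; ok v282 && (
  let v283 := sub v0 v275; ok v283 && (
  let v284 := inv v283; ok v284 && (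
  let v285 := inv v30; ok v285 && (
  let v286 := mul v216 v285; ok v286 && (
  let v287 := add v105 v286; ok v287 && (
  let v288 := mul v287 v284; ok v288 && (
  let v289 := mul v288 v276; ok v289 && (
  let v290 := scale ⟨223338299392, 0, 0, 0⟩ v289; ok v290 && (
  let v291 := add v1 v290; ok v291 && (
  let v292 := mul v289 v291; ok v292 && (
  let v293 := add v0 v292; ok v293 && (
  let v294 := mul v289 v293; ok v294 && (
  let v295 := mul v294 v117; ok v295 && (
  let v296 := mul v295 v125; ok v296 && (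
  let v297 := sub v0 v296; ok v297 && (
  let v298 := mul v288 v293; ok v298 && (
  let v299 := mul v298 v273; ok v299 && (
  let v300 := mul v299 v76; ok v300 && (
  let v301 := inv v297; ok v301 && (
  let v302 := mul v300 v301; ok v302 && (
  let v303 := mul v302 x2; ok v303 && (
  let v304 := mul v242 v188; ok v304 && (
  let v305 := mul v244 v117; ok v305 && (
  let v306 := mul v305 v125; ok v306 && (
  let v307 := mul v306 v191; ok v307 && (
  let v308 := add v304 v307; ok v308 && (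
  let v309 := mul v303 v308; ok v309 && (
  let v310 := mul v242 v61; ok v310 && (
  let v311 := mul v310 v193; ok v311 && (
  let v312 := mul v311 v109; ok v312 && (
  let v313 := mul v312 v123; ok v313 && (
  let v314 := mul v302 v180; ok v314 && (
  let v315 := mul v314 x2; ok v315 && (
  let v316 := inv v17; ok v316 && (
  let v317 := mul v315 v316; ok v317 && (
  let v318 := mul x0 v117; ok v318 && (
  let v319 := mul v318 v16; ok v319 && (
  let v320 := mul v319 v251; ok v320 && (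
  let v321 := add v320 v313; ok v321 && (
  let v322 := mul v117 v247; ok v322 && (
  let v323 := mul v322 v196; ok v323 && (
  let v324 := add v321 v323; ok v324 && (
  let v325 := mul v317 v324; ok v325 && (
  let v326 := mul v179 v2; ok v326 && (
  let v327 := mul v326 v17; ok v327 && (
  let v328 := mul v327 v16; ok v328 && (
  let v329 := cst ⟨3298534883328, 0, 0, 0⟩; ok v329 && (
  let v330 := mul v329 v177; ok v330 && (
  let v331 := add v165 v0; ok v331 && (
  let v332 := mul v165 v331; ok v332 && (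
  let v333 := add v55 v332; ok v333 && (
  let v334 := mul v282 v333; ok v334 && (
  let v335 := mul v57 v331; ok v335 && (
  let v336 := scale ⟨687194767360, 0, 0, 0⟩ v334; ok v336 && (
  let v337 := add v0 v336; ok v337 && (
  let v338 := mul v334 v337; ok v338 && (
  let v339 := add v0 v338; ok v339 && (
  let v340 := mul v335 v339; ok v340 && (
  let v341 := add v10 x1; ok v341 && (
  let v342 := mul v166 v341; ok v342 && (
  let v343 := mul v342 v330; ok v343 && (
  let v344 := add v0 v343; ok v344 && (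
  let v345 := inv v344; ok v345 && (
  let v346 := mul v340 v345; ok v346 && (
  let v347 := mul v346 v13; ok v347 && (
  let v348 := mul v2 v274; ok v348 && (
  let v349 := mul v348 v316; ok v349 && (
  let v350 := add v0 v349; ok v350 && (
  let v351 := mul v347 v350; ok v351 && (
  let v352 := sub v44 v276; ok v352 && (
  let v353 := inv v352; ok v353 && (
  let v354 := mul v351 v353; ok v354 && (
  let v355 := mul x1 v309; ok v355 && (
  let v356 := mul v355 v186; ok v356 && (
  let v357 := mul x1 v328; ok v357 && (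
  let v358 := mul v325 v357; ok v358 && (
  let v359 := add v356 v358; ok v359 && (
  let v360 := add v355 v325; ok v360 && (
  let v361 := add v0 v359; ok v361 && (
  let v362 := mul v354 v361; ok v362 && (
  let v363 := add v360 v362; ok v363 && (
  let v364 := sub v0 v363; ok v364 && (
  let v365 := scale ⟨1073741824, 0, 0, 0⟩ x1; ok v365 && (
  let v366 := sub v364 v365; ok v366 && (
  let v367 := sub v13 v0; ok v367 && (
  let v368 := cst ⟨2199023255552, 0, 0, 0⟩; ok v368 && (
  let v369 := add v367 v368; ok v369 && (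
  let v370 := scale ⟨2199023255552, 0, 0, 0⟩ v330; ok v370 && (
  let v371 := sub v369 v370; ok v371 && (
  let v372 := mul v166 v371; ok v372 && (
  let v373 := mul v367 v370; ok v373 && (
  let v374 := add v373 v0; ok v374 && (
  let v375 := inv v374; ok v375 && (
  let v376 := mul v372 v375; ok v376 && (
  let v377 := mul v179 v266; ok v377 && (
  let v378 := scale ⟨549755813888, 0, 0, 0⟩ v183; ok v378 && (
  let v379 := add v10 v378; ok v379 && (
  let v380 := mul v377 v379; ok v380 && (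
  let v381 := scale ⟨2199023255552, 0, 0, 0⟩ v380; ok v381 && (
  let v382 := add v260 v381; ok v382 && (
  let v383 := scale ⟨2199023255552, 0, 0, 0⟩ v382; ok v383 && (
  let v384 := mul v383 v273; ok v384 && (
  let v385 := sub v17 v348; ok v385 && (
  let v386 := inv v385; ok v386 && (
  let v387 := mul v384 v386; ok v387 && (
  let v388 := sub v376 v387; ok v388 && (
  isPos 4 v187 && (
  isPos 4 v190 && (
  let v389 := scale ⟨2199023255552, 0, 0, 0⟩ v270; ok v389 && (
  let v390 := sub v44 v389; ok v390 && (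
  isPos 4 v390 && (
  isPos 4 v280 && (
  isPos 4 v121 && (
  let v391 := sub v1 v165; ok v391 && (
  isPos 4 v391 && (
  let v392 := scale ⟨687194767360, 0, 0, 0⟩ v0; ok v392 && (
  let v393 := sub v392 v227; ok v393 && (
  isPos 4 v393 && (
  let v394 := scale ⟨377957122048, 0, 0, 0⟩ v0; ok v394 && (
  let v395 := sub v394 v223; ok v395 && (
  isPos 4 v395 && (
  isPos 4 v385 && (
  let v396 := sub v1 v334; ok v396 && (
  isPos 4 v396 && (
  isPos 4 v283 && (
  isPos 4 v297 && (
  let v397 := sub v392 v289; ok v397 && (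
  isPos 4 v397 && (
  let v398 := mul v175 v175; ok v398 && (
  let v399 := cst ⟨14293651161088, 0, 0, 0⟩; ok v399 && (
  let v400 := cst ⟨10995116277760, 0, 0, 0⟩; ok v400 && (
  let v401 := inv v400; ok v401 && (
  let v402 := mul v399 v401; ok v402 && (
  let v403 := mul v398 v402; ok v403 && (
  let v404 := cst ⟨27487790694400, 0, 0, 0⟩; ok v404 && (
  let v405 := add v403 v404; ok v405 && (
  let v406 := mul v166 v17; ok v406 && (
  let v407 := mul v406 v330; ok v407 && (
  let v408 := mul x1 v407; ok v408 && (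
  let v409 := add v0 v408; ok v409 && (
  let v410 := inv v409; ok v410 && (
  let v411 := mul v407 v410; ok v411 && (
  let v412 := sub v32 x1; ok v412 && (
  let v413 := sub v412 v31; ok v413 && (
  let v414 := scale ⟨2199023255552, 0, 0, 0⟩ v2; ok v414 && (
  let v415 := add v414 v276; ok v415 && (
  let v416 := mul x0 v415; ok v416 && (
  let v417 := mul v405 v411; ok v417 && (
  let v418 := mul v273 v416; ok v418 && (
  let v419 := mul v76 v258; ok v419 && (
  let v420 := mul v5 v419; ok v420 && (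
  let v421 := mul v17 v179; ok v421 && (
  let v422 := mul v421 v266; ok v422 && (
  let v423 := mul v30 v422; ok v423 && (
  let v424 := add v420 v423; ok v424 && (
  let v425 := mul x0 v424; ok v425 && (
  let v426 := mul v418 v425; ok v426 && (
  let v427 := sub v417 v426; ok v427 && (
  let v428 := scale ⟨549755813888, 0, 0, 0⟩ v348; ok v428 && (
  let v429 := add v0 v428; ok v429 && (
  let v430 := mul v273 v429; ok v430 && (
  let v431 := mul x1 v16; ok v431 && (
  let v432 := mul v431 v174; ok v432 && (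
  let v433 := mul v17 v44; ok v433 && (
  let v434 := inv v433; ok v434 && (
  let v435 := mul v432 v434; ok v435 && (
  let v436 := mul v430 v435; ok v436 && (
  let v437 := sub v413 v436; ok v437 && (
  let v438 := mul v183 v427; ok v438 && (
  let v439 := sub v0 v183; ok v439 && (
  let v440 := mul v5 v437; ok v440 && (
  let v441 := mul v439 v440; ok v441 && (
  let v442 := mul v405 v441; ok v442 && (
  let v443 := add v438 v442; ok v443 && (
  isPos 4 v388 && (
  isPos 4 v366 && (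
  isPos 4 v443 && (
  isPos 4 v437 && (
  true)))))))))))))))))))))))))))))))))))))))))))))))))))))))))))))))))))))))))))))))))))))))))))))))))))))))))))))))))))))))))))))))))))))))))))))))))))))))))))))))))))))))))))))))))))))))))))))))))))))))))))))))))))))))))))))))))))))))))))))))))))))))))))))))))))))))))))))))))))))))))))))))))))))))))))))))))))))))))))))))))))))))))))))))))))))))))))))))))))))))))))))))))))))))))))))))))))))))))))))))))))))))))))))))))))))))))))))))))))))))))))))))))))))))))))))))))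
  | _ => false

set_option maxRecDepth 1000000 in
theorem chk4_eq (O : Ops) (m : List O.α)
    (h : chk4 O.cst O.add O.sub O.mul O.scale O.neg O.inv O.exp O.log O.ok O.isPos O.isLt m = true) :
    runG O 4 prog4 m = true := by
  match m, h with
  | [x0, x1, x2, x3], h => exact h

def chkB4 : List opsE.α → Bool :=
  chk4 opsE.cst opsE.add opsE.sub opsE.mul opsE.scale opsE.neg opsE.inv opsE.exp opsE.log opsE.ok opsE.isPos opsE.isLt

theorem chkB4_eq (m : List opsE.α) (h : chkB4 m = true) : runG opsE 4 prog4 m = true :=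
  chk4_eq opsE m h

def prog5 : List Op := [
  .const ⟨1099511627776, 0, 0, 0⟩,
  .const ⟨549755813888, 0, 0, 0⟩,
  .mul 3 4,
  .mul 0 6,
  .scale ⟨549755813888, 0, 0, 0⟩ 0,
  .mul 7 7,
  .mul 1 1,
  .sub 6 0,
  .inv 0,
  .mul 4 0,
  .scale ⟨2199023255552, 0, 0, 0⟩ 0,
  .scale ⟨2199023255552, 0, 0, 0⟩ 2,
  .sub 0 11,
  .add 0 2,
  .mul 17 5,
  .mul 17 0,
  .sub 15 0,
  .add 16 1,
  .scale ⟨10774999203840, 0, 0, 0⟩ 13,
  .scale ⟨45768245248, 0, 0, 0⟩ 0,
  .const ⟨183207198720, 0, 0, 0⟩,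
  .add 1 0,
  .mul 3 0,
  .add 21 0,
  .mul 5 0,
  .add 24 0,
  .mul 7 0,
  .scale ⟨549755813888, 0, 0, 0⟩ 0,
  .add 27 0,
  .mul 3 0,
  .mul 31 24,
  .mul 20 15,
  .scale ⟨2199023255552, 0, 0, 0⟩ 19,
  .add 1 0,
  .add 0 35,
  .mul 4 0,
  .add 0 35,
  .mul 26 26,
  .scale ⟨2199023255552, 0, 0, 0⟩ 0,
  .add 0 38,
  .mul 27 5,
  .sub 0 40,
  .log 5,
  .scale ⟨549755813888, 0, 0, 0⟩ 0,
  .exp 0,
  .scale ⟨549755813888, 0, 0, 0⟩ 45,
  .mul 0 3,
  .neg 0,
  .exp 0,
  .mul 36 18,
  .mul 0 8,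
  .scale ⟨4398046511104, 0, 0, 0⟩ 0,
  .add 0 51,
  .log 0,
  .sub 0 11,
  .mul 9 0,
  .neg 0,
  .exp 0,
  .mul 42 47,
  .add 46 0,
  .inv 0,
  .mul 43 0,
  .mul 45 63,
  .mul 0 1,
  .mul 49 49,
  .sub 64 59,
  .mul 1 0,
  .mul 64 64,
  .add 55 37,
  .inv 0,
  .mul 0 70,
  .mul 0 68,
  .mul 0 0,
  .sub 72 8,
  .mul 8 0,
  .mul 2 0,
  .inv 76,
  .const ⟨45812285440, 0, 0, 0⟩,
  .scale ⟨1527119872, 0, 0, 0⟩ 2,
  .sub 1 0,
  .mul 4 0,
  .sub 79 0,
  .mul 6 0,
  .sub 82 0,
  .add 35 83,
  .mul 36 36,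
  .add 0 85,
  .mul 38 3,
  .scale ⟨2199023255552, 0, 0, 0⟩ 0,
  .add 2 0,
  .inv 5,
  .mul 1 0,
  .add 0 7,
  .mul 44 29,
  .scale ⟨549755813888, 0, 0, 0⟩ 0,
  .mul 0 2,
  .sub 6 0,
  .pos 7,
  .pos 0,
  .inv 0,
  .sub 97 49,
  .mul 0 14,
  .mul 0 2,
  .scale ⟨549755813888, 0, 0, 0⟩ 0,
  .add 0 100,
  .inv 0,
  .mul 2 0,
  .mul 10 3,
  .add 0 104,
  .mul 0 14,
  .inv 18,
  .mul 1 0,
  .mul 46 5,
  .scale ⟨549755813888, 0, 0, 0⟩ 0,
  .sub 111 0,
  .sub 112 2,
  .inv 0,
  .mul 2 0,
  .add 5 115,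
  .mul 68 0,
  .mul 101 100,
  .add 106 120,
  .mul 104 107,
  .mul 0 110,
  .scale ⟨2199023255552, 0, 0, 0⟩ 0,
  .add 83 0,
  .mul 4 0,
  .inv 0,
  .mul 7 0,
  .mul 128 0,
  .inv 91,
  .mul 53 0,
  .scale ⟨1527119872, 0, 0, 0⟩ 0,
  .sub 53 0,
  .mul 2 0,
  .sub 131 0,
  .mul 4 0,
  .sub 134 0,
  .add 78 135,
  .mul 79 79,
  .add 0 137,
  .mul 81 3,
  .scale ⟨2199023255552, 0, 0, 0⟩ 0,
  .add 2 0,
  .inv 5,
  .mul 1 0,
  .add 0 7,
  .mul 87 17,
  .scale ⟨549755813888, 0, 0, 0⟩ 0,
  .mul 0 2,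
  .sub 6 0,
  .pos 7,
  .pos 0,
  .sub 148 91,
  .mul 0 13,
  .inv 2,
  .mul 1 0,
  .scale ⟨549755813888, 0, 0, 0⟩ 0,
  .add 0 152,
  .inv 0,
  .mul 2 0,
  .mul 29 0,
  .add 153 157,
  .inv 0,
  .mul 155 0,
  .scale ⟨2199023255552, 0, 0, 0⟩ 0,
  .sub 161 0,
  .sub 162 158,
  .mul 167 4,
  .mul 0 2,
  .add 148 0,
  .mul 167 156,
  .const ⟨5497558138880, 0, 0, 0⟩,
  .inv 0,
  .mul 169 0,
  .mul 171 0,
  .scale ⟨5497558138880, 0, 0, 0⟩ 95,
  .scale ⟨224412041216, 0, 0, 0⟩ 164,
  .inv 144,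
  .mul 1 0,
  .mul 4 158,
  .mul 0 1,
  .mul 175 0,
  .sub 178 0,
  .inv 0,
  .mul 63 2,
  .sub 181 0,
  .inv 0,
  .scale ⟨3573412790272, 0, 0, 0⟩ 169,
  .inv 187,
  .scale ⟨339302416384, 0, 0, 0⟩ 0,
  .add 2 0,
  .scale ⟨549755813888, 0, 0, 0⟩ 0,
  .scale ⟨2199023255552, 0, 0, 0⟩ 112,
  .add 0 189,
  .add 114 190,
  .mul 187 177,
  .sub 192 126,
  .mul 189 178,
  .scale ⟨2199023255552, 0, 0, 0⟩ 0,
  .sub 2 0,
  .mul 4 4,
  .add 1 0,
  .add 0 198,
  .scale ⟨549755813888, 0, 0, 0⟩ 0,
  .scale ⟨549755813888, 0, 0, 0⟩ 170,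
  .sub 193 0,
  .mul 135 9,
  .mul 0 196,
  .scale ⟨137438953472, 0, 0, 0⟩ 0,
  .add 3 0,
  .mul 6 0,
  .mul 97 92,
  .add 91 208,
  .mul 0 29,
  .mul 93 27,
  .add 1 0,
  .mul 34 0,
  .add 5 0,
  .mul 0 138,
  .mul 6 37,
  .mul 0 36,
  .add 9 0,
  .mul 0 142,
  .scale ⟨223338299392, 0, 0, 0⟩ 0,
  .add 219 0,
  .mul 2 0,
  .add 222 0,
  .scale ⟨893353197568, 0, 0, 0⟩ 8,
  .add 224 0,
  .mul 10 0,
  .add 226 0,
  .mul 66 63,
  .mul 0 38,
  .mul 0 2,
  .mul 23 7,
  .add 187 230,
  .mul 2 0,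
  .add 2 0,
  .add 190 234,
  .mul 5 0,
  .mul 45 1,
  .mul 0 73,
  .mul 0 75,
  .mul 237 73,
  .inv 196,
  .mul 1 0,
  .scale ⟨549755813888, 0, 0, 0⟩ 0,
  .mul 182 58,
  .mul 0 140,
  .mul 0 130,
  .mul 230 3,
  .mul 13 1,
  .mul 9 60,
  .add 1 0,
  .mul 0 174,
  .add 4 0,
  .mul 18 43,
  .mul 0 73,
  .mul 18 137,
  .mul 0 72,
  .add 2 0,
  .mul 0 181,
  .mul 242 6,
  .mul 82 1,
  .add 1 0,
  .mul 194 0,
  .mul 0 21,
  .sub 263 0,
  .inv 0,
  .mul 4 0,
  .mul 268 0,
  .mul 200 1,
  .mul 0 27,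
  .sub 269 0,
  .mul 229 0,
  .sub 0 4,
  .inv 0,
  .mul 6 0,
  .sub 230 6,
  .inv 0,
  .mul 2 120,
  .mul 278 1,
  .mul 122 5,
  .inv 249,
  .mul 1 0,
  .scale ⟨549755813888, 0, 0, 0⟩ 4,
  .sub 282 0,
  .sub 283 6,
  .inv 0,
  .mul 2 0,
  .mul 5 0,
  .add 9 0,
  .mul 0 20,
  .scale ⟨223338299392, 0, 0, 0⟩ 0,
  .add 289 0,
  .mul 2 0,
  .add 292 0,
  .mul 5 0,
  .mul 0 29,
  .mul 0 219,
  .mul 0 299,
  .mul 0 40,
  .mul 2 126,
  .mul 0 302,
  .inv 283,
  .mul 1 0,
  .mul 303 286,
  .mul 0 60,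
  .add 0 56,
  .add 0 56,
  .mul 4 0,
  .mul 136 305,
  .mul 0 291,
  .mul 0 293,
  .const ⟨3298534883328, 0, 0, 0⟩,
  .mul 0 142,
  .add 155 312,
  .mul 156 0,
  .add 259 0,
  .mul 41 0,
  .mul 259 3,
  .scale ⟨687194767360, 0, 0, 0⟩ 1,
  .add 318 0,
  .mul 3 0,
  .add 320 0,
  .mul 4 0,
  .add 312 324,
  .mul 165 0,
  .mul 0 12,
  .add 325 0,
  .inv 0,
  .mul 5 0,
  .mul 0 315,
  .mul 327 63,
  .mul 0 29,
  .add 331 0,
  .mul 3 0,
  .mul 0 57,
  .mul 336 36,
  .mul 0 157,
  .mul 338 26,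
  .mul 30 0,
  .add 2 0,
  .add 4 32,
  .add 340 1,
  .mul 7 0,
  .add 2 0,
  .sub 343 0,
  .scale ⟨1073741824, 0, 0, 0⟩ 346,
  .sub 1 0,
  .sub 333 346,
  .const ⟨2199023255552, 0, 0, 0⟩,
  .add 1 0,
  .scale ⟨2199023255552, 0, 0, 0⟩ 37,
  .sub 1 0,
  .mul 193 0,
  .mul 5 2,
  .add 0 353,
  .inv 0,
  .mul 3 0,
  .mul 185 98,
  .scale ⟨549755813888, 0, 0, 0⟩ 182,
  .add 348 0,
  .mul 2 0,
  .scale ⟨2199023255552, 0, 0, 0⟩ 0,
  .add 109 0,
  .scale ⟨2199023255552, 0, 0, 0⟩ 0,
  .mul 0 98,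
  .sub 347 34,
  .inv 0,
  .mul 2 0,
  .sub 11 0,
  .pos 189,
  .pos 186,
  .scale ⟨2199023255552, 0, 0, 0⟩ 106,
  .sub 325 0,
  .pos 0,
  .pos 98,
  .pos 257,
  .sub 369 213,
  .pos 0,
  .scale ⟨687194767360, 0, 0, 0⟩ 371,
  .sub 0 153,
  .pos 0,
  .scale ⟨377957122048, 0, 0, 0⟩ 373,
  .sub 0 159,
  .pos 0,
  .pos 10,
  .sub 374 59,
  .pos 0,
  .pos 92,
  .sub 4 87,
  .pos 0,
  .mul 210 210,
  .const ⟨14293651161088, 0, 0, 0⟩,
  .const ⟨10995116277760, 0, 0, 0⟩,
  .inv 0,
  .mul 2 0,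
  .mul 4 0,
  .const ⟨27487790694400, 0, 0, 0⟩,
  .add 1 0,
  .mul 227 368,
  .mul 0 74,
  .mul 389 0,
  .add 388 0,
  .inv 0,
  .mul 3 0,
  .sub 359 393,
  .sub 0 361,
  .scale ⟨2199023255552, 0, 0, 0⟩ 391,
  .add 0 126,
  .mul 396 0,
  .mul 11 5,
  .mul 132 1,
  .mul 322 148,
  .mul 394 0,
  .mul 383 229,
  .mul 0 143,
  .mul 372 0,
  .add 3 0,
  .mul 405 0,
  .mul 7 0,
  .sub 9 0,
  .scale ⟨549755813888, 0, 0, 0⟩ 77,
  .add 408 0,
  .mul 144 0,
  .mul 412 394,
  .mul 0 245,
  .mul 395 368,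
  .inv 0,
  .mul 2 0,
  .mul 5 0,
  .sub 23 0,
  .mul 242 10,
  .sub 418 243,
  .mul 414 2,
  .mul 1 0,
  .mul 36 0,
  .add 4 0,
  .pos 55,
  .pos 77,
  .pos 0,
  .pos 6]

def chk5 {α : Type} (cst : Z → α) (add sub mul : α → α → α) (scale : Z → α → α)
    (neg inv exp log : α → α) (ok : α → Bool) (isPos : Nat → α → Bool) (isLt : α → Nat → Bool) :
    List α → Bool
  | [x0, x1, x2, x3] =>
  let v0 := cst ⟨1099511627776, 0, 0, 0⟩; ok v0 && (
  let v1 := cst ⟨549755813888, 0, 0, 0⟩; ok v1 && (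
  let v2 := mul x1 x2; ok v2 && (
  let v3 := mul v2 x3; ok v3 && (
  let v4 := scale ⟨549755813888, 0, 0, 0⟩ v3; ok v4 && (
  let v5 := mul x2 x2; ok v5 && (
  let v6 := mul v4 v4; ok v6 && (
  let v7 := sub v0 v6; ok v7 && (
  let v8 := inv v7; ok v8 && (
  let v9 := mul v4 v8; ok v9 && (
  let v10 := scale ⟨2199023255552, 0, 0, 0⟩ v9; ok v10 && (
  let v11 := scale ⟨2199023255552, 0, 0, 0⟩ v8; ok v11 && (
  let v12 := sub v11 v0; ok v12 && (
  let v13 := add v12 v10; ok v13 && (
  let v14 := mul x3 v8; ok v14 && (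
  let v15 := mul x2 v14; ok v15 && (
  let v16 := sub v0 v15; ok v16 && (
  let v17 := add v0 v15; ok v17 && (
  let v18 := scale ⟨10774999203840, 0, 0, 0⟩ v4; ok v18 && (
  let v19 := scale ⟨45768245248, 0, 0, 0⟩ v18; ok v19 && (
  let v20 := cst ⟨183207198720, 0, 0, 0⟩; ok v20 && (
  let v21 := add v19 v20; ok v21 && (
  let v22 := mul v18 v21; ok v22 && (
  let v23 := add v1 v22; ok v23 && (
  let v24 := mul v18 v23; ok v24 && (
  let v25 := add v0 v24; ok v25 && (
  let v26 := mul v18 v25; ok v26 && (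
  let v27 := scale ⟨549755813888, 0, 0, 0⟩ v26; ok v27 && (
  let v28 := add v0 v27; ok v28 && (
  let v29 := mul v25 v28; ok v29 && (
  let v30 := mul x1 v5; ok v30 && (
  let v31 := mul v10 v15; ok v31 && (
  let v32 := scale ⟨2199023255552, 0, 0, 0⟩ v12; ok v32 && (
  let v33 := add v31 v32; ok v33 && (
  let v34 := add v33 x1; ok v34 && (
  let v35 := mul v30 v34; ok v35 && (
  let v36 := add v35 v0; ok v36 && (
  let v37 := mul v10 v10; ok v37 && (
  let v38 := scale ⟨2199023255552, 0, 0, 0⟩ v37; ok v38 && (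
  let v39 := add v38 v0; ok v39 && (
  let v40 := mul v12 v34; ok v40 && (
  let v41 := sub v40 v0; ok v41 && (
  let v42 := log v36; ok v42 && (
  let v43 := scale ⟨549755813888, 0, 0, 0⟩ v42; ok v43 && (
  let v44 := exp v43; ok v44 && (
  let v45 := scale ⟨549755813888, 0, 0, 0⟩ x0; ok v45 && (
  let v46 := mul v45 v42; ok v46 && (
  let v47 := neg v46; ok v47 && (
  let v48 := exp v47; ok v48 && (
  let v49 := mul v12 v30; ok v49 && (
  let v50 := mul v49 v41; ok v50 && (
  let v51 := scale ⟨4398046511104, 0, 0, 0⟩ v50; ok v51 && (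
  let v52 := add v51 v0; ok v52 && (
  let v53 := log v52; ok v53 && (
  let v54 := sub v53 v42; ok v54 && (
  let v55 := mul v45 v54; ok v55 && (
  let v56 := neg v55; ok v56 && (
  let v57 := exp v56; ok v57 && (
  let v58 := mul v15 v10; ok v58 && (
  let v59 := add v12 v58; ok v59 && (
  let v60 := inv v59; ok v60 && (
  let v61 := mul v17 v60; ok v61 && (
  let v62 := mul v16 x1; ok v62 && (
  let v63 := mul v62 v61; ok v63 && (
  let v64 := mul v14 v14; ok v64 && (
  let v65 := sub v0 v5; ok v65 && (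
  let v66 := mul v64 v65; ok v66 && (
  let v67 := mul v2 v2; ok v67 && (
  let v68 := add v12 v30; ok v68 && (
  let v69 := inv v68; ok v69 && (
  let v70 := mul v69 x0; ok v70 && (
  let v71 := mul v70 v2; ok v71 && (
  let v72 := mul v71 v71; ok v72 && (
  let v73 := sub v0 v64; ok v73 && (
  let v74 := mul v65 v73; ok v74 && (
  let v75 := mul v72 v74; ok v75 && (
  let v76 := inv x0; ok v76 && (
  let v77 := cst ⟨45812285440, 0, 0, 0⟩; ok v77 && (
  let v78 := scale ⟨1527119872, 0, 0, 0⟩ v75; ok v78 && (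
  let v79 := sub v77 v78; ok v79 && (
  let v80 := mul v75 v79; ok v80 && (
  let v81 := sub v1 v80; ok v81 && (
  let v82 := mul v75 v81; ok v82 && (
  let v83 := sub v0 v82; ok v83 && (
  let v84 := add v48 v0; ok v84 && (
  let v85 := mul v48 v48; ok v85 && (
  let v86 := add v85 v0; ok v86 && (
  let v87 := mul v48 v83; ok v87 && (
  let v88 := scale ⟨2199023255552, 0, 0, 0⟩ v87; ok v88 && (
  let v89 := add v86 v88; ok v89 && (
  let v90 := inv v84; ok v90 && (
  let v91 := mul v89 v90; ok v91 && (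
  let v92 := add v91 v84; ok v92 && (
  let v93 := mul v48 v63; ok v93 && (
  let v94 := scale ⟨549755813888, 0, 0, 0⟩ v93; ok v94 && (
  let v95 := mul v94 v92; ok v95 && (
  let v96 := sub v89 v95; ok v96 && (
  isPos 4 v89 && (
  isPos 4 v96 && (
  let v97 := inv v96; ok v97 && (
  let v98 := sub v0 v48; ok v98 && (
  let v99 := mul v98 v84; ok v99 && (
  let v100 := mul v99 v97; ok v100 && (
  let v101 := scale ⟨549755813888, 0, 0, 0⟩ v100; ok v101 && (
  let v102 := add v101 v1; ok v102 && (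
  let v103 := inv v102; ok v103 && (
  let v104 := mul v101 v103; ok v104 && (
  let v105 := mul v94 v101; ok v105 && (
  let v106 := add v105 v1; ok v106 && (
  let v107 := mul v106 v92; ok v107 && (
  let v108 := inv v89; ok v108 && (
  let v109 := mul v107 v108; ok v109 && (
  let v110 := mul v63 v104; ok v110 && (
  let v111 := scale ⟨549755813888, 0, 0, 0⟩ v110; ok v111 && (
  let v112 := sub v0 v111; ok v112 && (
  let v113 := sub v0 v110; ok v113 && (
  let v114 := inv v113; ok v114 && (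
  let v115 := mul v112 v114; ok v115 && (
  let v116 := add v110 v0; ok v116 && (
  let v117 := mul v48 v116; ok v117 && (
  let v118 := mul v16 v17; ok v118 && (
  let v119 := add v12 x1; ok v119 && (
  let v120 := mul v15 v12; ok v120 && (
  let v121 := mul v120 v10; ok v121 && (
  let v122 := scale ⟨2199023255552, 0, 0, 0⟩ v121; ok v122 && (
  let v123 := add v39 v122; ok v123 && (
  let v124 := mul v119 v123; ok v124 && (
  let v125 := inv v124; ok v125 && (
  let v126 := mul v118 v125; ok v126 && (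
  let v127 := mul x1 v126; ok v127 && (
  let v128 := inv v36; ok v128 && (
  let v129 := mul v75 v128; ok v129 && (
  let v130 := scale ⟨1527119872, 0, 0, 0⟩ v129; ok v130 && (
  let v131 := sub v77 v130; ok v131 && (
  let v132 := mul v129 v131; ok v132 && (
  let v133 := sub v1 v132; ok v133 && (
  let v134 := mul v129 v133; ok v134 && (
  let v135 := sub v0 v134; ok v135 && (
  let v136 := add v57 v0; ok v136 && (
  let v137 := mul v57 v57; ok v137 && (
  let v138 := add v137 v0; ok v138 && (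
  let v139 := mul v57 v135; ok v139 && (
  let v140 := scale ⟨2199023255552, 0, 0, 0⟩ v139; ok v140 && (
  let v141 := add v138 v140; ok v141 && (
  let v142 := inv v136; ok v142 && (
  let v143 := mul v141 v142; ok v143 && (
  let v144 := add v143 v136; ok v144 && (
  let v145 := mul v57 v127; ok v145 && (
  let v146 := scale ⟨549755813888, 0, 0, 0⟩ v145; ok v146 && (
  let v147 := mul v146 v144; ok v147 && (
  let v148 := sub v141 v147; ok v148 && (
  isPos 4 v141 && (
  isPos 4 v148 && (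
  let v149 := sub v0 v57; ok v149 && (
  let v150 := mul v149 v136; ok v150 && (
  let v151 := inv v148; ok v151 && (
  let v152 := mul v150 v151; ok v152 && (
  let v153 := scale ⟨549755813888, 0, 0, 0⟩ v152; ok v153 && (
  let v154 := add v153 v1; ok v154 && (
  let v155 := inv v154; ok v155 && (
  let v156 := mul v153 v155; ok v156 && (
  let v157 := mul v127 v156; ok v157 && (
  let v158 := add v4 v0; ok v158 && (
  let v159 := inv v158; ok v159 && (
  let v160 := mul v4 v159; ok v160 && (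
  let v161 := scale ⟨2199023255552, 0, 0, 0⟩ v160; ok v161 && (
  let v162 := sub v0 v161; ok v162 && (
  let v163 := sub v0 v4; ok v163 && (
  let v164 := mul x3 v159; ok v164 && (
  let v165 := mul v164 v162; ok v165 && (
  let v166 := add v17 v165; ok v166 && (
  let v167 := mul x0 v10; ok v167 && (
  let v168 := cst ⟨5497558138880, 0, 0, 0⟩; ok v168 && (
  let v169 := inv v168; ok v169 && (
  let v170 := mul v0 v169; ok v170 && (
  let v171 := mul x0 v170; ok v171 && (
  let v172 := scale ⟨5497558138880, 0, 0, 0⟩ v76; ok v172 && (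
  let v173 := scale ⟨224412041216, 0, 0, 0⟩ v8; ok v173 && (
  let v174 := inv v29; ok v174 && (
  let v175 := mul v173 v174; ok v175 && (
  let v176 := mul v171 v17; ok v176 && (
  let v177 := mul v176 v175; ok v177 && (
  let v178 := mul v2 v177; ok v178 && (
  let v179 := sub v0 v178; ok v179 && (
  let v180 := inv v179; ok v180 && (
  let v181 := mul v117 v178; ok v181 && (
  let v182 := sub v0 v181; ok v182 && (
  let v183 := inv v182; ok v183 && (
  let v184 := scale ⟨3573412790272, 0, 0, 0⟩ v14; ok v184 && (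
  let v185 := inv x2; ok v185 && (
  let v186 := scale ⟨339302416384, 0, 0, 0⟩ v185; ok v186 && (
  let v187 := add v184 v186; ok v187 && (
  let v188 := scale ⟨549755813888, 0, 0, 0⟩ v187; ok v188 && (
  let v189 := scale ⟨2199023255552, 0, 0, 0⟩ v76; ok v189 && (
  let v190 := add v189 v0; ok v190 && (
  let v191 := add v76 v0; ok v191 && (
  let v192 := mul v4 v14; ok v192 && (
  let v193 := sub v0 v66; ok v193 && (
  let v194 := mul v4 v15; ok v194 && (
  let v195 := scale ⟨2199023255552, 0, 0, 0⟩ v194; ok v195 && (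
  let v196 := sub v193 v195; ok v196 && (
  let v197 := mul v192 v192; ok v197 && (
  let v198 := add v196 v197; ok v198 && (
  let v199 := add v198 v0; ok v199 && (
  let v200 := scale ⟨549755813888, 0, 0, 0⟩ v199; ok v200 && (
  let v201 := scale ⟨549755813888, 0, 0, 0⟩ v30; ok v201 && (
  let v202 := sub v8 v201; ok v202 && (
  let v203 := mul v67 v193; ok v203 && (
  let v204 := mul v203 v7; ok v204 && (
  let v205 := scale ⟨137438953472, 0, 0, 0⟩ v204; ok v205 && (
  let v206 := add v202 v205; ok v206 && (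
  let v207 := mul v200 v206; ok v207 && (
  let v208 := mul v110 v115; ok v208 && (
  let v209 := add v117 v0; ok v209 && (
  let v210 := mul v209 v180; ok v210 && (
  let v211 := mul v117 v183; ok v211 && (
  let v212 := add v210 v211; ok v212 && (
  let v213 := mul v178 v212; ok v213 && (
  let v214 := add v208 v213; ok v214 && (
  let v215 := mul v214 v76; ok v215 && (
  let v216 := mul v209 v178; ok v216 && (
  let v217 := mul v216 v180; ok v217 && (
  let v218 := add v208 v217; ok v218 && (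
  let v219 := mul v218 v76; ok v219 && (
  let v220 := scale ⟨223338299392, 0, 0, 0⟩ v219; ok v220 && (
  let v221 := add v1 v220; ok v221 && (
  let v222 := mul v219 v221; ok v222 && (
  let v223 := add v0 v222; ok v223 && (
  let v224 := scale ⟨893353197568, 0, 0, 0⟩ v215; ok v224 && (
  let v225 := add v0 v224; ok v225 && (
  let v226 := mul v215 v225; ok v226 && (
  let v227 := add v0 v226; ok v227 && (
  let v228 := mul v161 v164; ok v228 && (
  let v229 := mul v228 v190; ok v229 && (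
  let v230 := mul v229 v227; ok v230 && (
  let v231 := mul v207 v223; ok v231 && (
  let v232 := add v44 v1; ok v232 && (
  let v233 := mul v230 v232; ok v233 && (
  let v234 := add v231 v233; ok v234 && (
  let v235 := add v44 v0; ok v235 && (
  let v236 := mul v230 v235; ok v236 && (
  let v237 := mul v191 v235; ok v237 && (
  let v238 := mul v237 v164; ok v238 && (
  let v239 := mul v238 v163; ok v239 && (
  let v240 := mul v2 v166; ok v240 && (
  let v241 := inv v44; ok v241 && (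
  let v242 := mul v240 v241; ok v242 && (
  let v243 := scale ⟨549755813888, 0, 0, 0⟩ v242; ok v243 && (
  let v244 := mul v61 v185; ok v244 && (
  let v245 := mul v244 v104; ok v245 && (
  let v246 := mul v245 v115; ok v246 && (
  let v247 := mul v16 v243; ok v247 && (
  let v248 := mul v234 v246; ok v248 && (
  let v249 := mul v239 v188; ok v249 && (
  let v250 := add v248 v249; ok v250 && (
  let v251 := mul v250 v76; ok v251 && (
  let v252 := add v247 v251; ok v252 && (
  let v253 := mul v234 v209; ok v253 && (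
  let v254 := mul v253 v180; ok v254 && (
  let v255 := mul v236 v117; ok v255 && (
  let v256 := mul v255 v183; ok v256 && (
  let v257 := add v254 v256; ok v257 && (
  let v258 := mul v257 v76; ok v258 && (
  let v259 := mul v16 v252; ok v259 && (
  let v260 := mul v177 v258; ok v260 && (
  let v261 := add v259 v260; ok v261 && (
  let v262 := mul v67 v261; ok v262 && (
  let v263 := mul v262 v241; ok v263 && (
  let v264 := sub v0 v263; ok v264 && (
  let v265 := inv v264; ok v265 && (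
  let v266 := mul v261 v265; ok v266 && (
  let v267 := mul x1 v266; ok v267 && (
  let v268 := mul v67 v266; ok v268 && (
  let v269 := mul v268 v241; ok v269 && (
  let v270 := sub v0 v269; ok v270 && (
  let v271 := mul v41 v270; ok v271 && (
  let v272 := sub v271 v267; ok v272 && (
  let v273 := inv v272; ok v273 && (
  let v274 := mul v267 v273; ok v274 && (
  let v275 := sub v44 v268; ok v275 && (
  let v276 := inv v275; ok v276 && (
  let v277 := mul v274 v156; ok v277 && (
  let v278 := mul x0 v276; ok v278 && (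
  let v279 := mul v156 v273; ok v279 && (
  let v280 := inv v30; ok v280 && (
  let v281 := mul v279 v280; ok v281 && (
  let v282 := scale ⟨549755813888, 0, 0, 0⟩ v277; ok v282 && (
  let v283 := sub v0 v282; ok v283 && (
  let v284 := sub v0 v277; ok v284 && (
  let v285 := inv v284; ok v285 && (
  let v286 := mul v283 v285; ok v286 && (
  let v287 := mul v281 v286; ok v287 && (
  let v288 := add v278 v287; ok v288 && (
  let v289 := mul v288 v268; ok v289 && (
  let v290 := scale ⟨223338299392, 0, 0, 0⟩ v289; ok v290 && (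
  let v291 := add v1 v290; ok v291 && (
  let v292 := mul v289 v291; ok v292 && (
  let v293 := add v0 v292; ok v293 && (
  let v294 := mul v288 v293; ok v294 && (
  let v295 := mul v294 v265; ok v295 && (
  let v296 := mul v295 v76; ok v296 && (
  let v297 := mul v296 x2; ok v297 && (
  let v298 := mul v297 v257; ok v298 && (
  let v299 := mul v296 v172; ok v299 && (
  let v300 := mul v299 x2; ok v300 && (
  let v301 := inv v17; ok v301 && (
  let v302 := mul v300 v301; ok v302 && (
  let v303 := mul x0 v16; ok v303 && (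
  let v304 := mul v303 v243; ok v304 && (
  let v305 := add v304 v248; ok v305 && (
  let v306 := add v305 v249; ok v306 && (
  let v307 := mul v302 v306; ok v307 && (
  let v308 := mul v171 v2; ok v308 && (
  let v309 := mul v308 v17; ok v309 && (
  let v310 := mul v309 v16; ok v310 && (
  let v311 := cst ⟨3298534883328, 0, 0, 0⟩; ok v311 && (
  let v312 := mul v311 v169; ok v312 && (
  let v313 := add v157 v0; ok v313 && (
  let v314 := mul v157 v313; ok v314 && (
  let v315 := add v55 v314; ok v315 && (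
  let v316 := mul v274 v315; ok v316 && (
  let v317 := mul v57 v313; ok v317 && (
  let v318 := scale ⟨687194767360, 0, 0, 0⟩ v316; ok v318 && (
  let v319 := add v0 v318; ok v319 && (
  let v320 := mul v316 v319; ok v320 && (
  let v321 := add v0 v320; ok v321 && (
  let v322 := mul v317 v321; ok v322 && (
  let v323 := add v10 x1; ok v323 && (
  let v324 := mul v158 v323; ok v324 && (
  let v325 := mul v324 v312; ok v325 && (
  let v326 := add v0 v325; ok v326 && (
  let v327 := inv v326; ok v327 && (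
  let v328 := mul v322 v327; ok v328 && (
  let v329 := mul v328 v13; ok v329 && (
  let v330 := mul v2 v266; ok v330 && (
  let v331 := mul v330 v301; ok v331 && (
  let v332 := add v0 v331; ok v332 && (
  let v333 := mul v329 v332; ok v333 && (
  let v334 := mul v333 v276; ok v334 && (
  let v335 := mul x1 v298; ok v335 && (
  let v336 := mul v335 v178; ok v336 && (
  let v337 := mul x1 v310; ok v337 && (
  let v338 := mul v307 v337; ok v338 && (
  let v339 := add v336 v338; ok v339 && (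
  let v340 := add v335 v307; ok v340 && (
  let v341 := add v0 v339; ok v341 && (
  let v342 := mul v334 v341; ok v342 && (
  let v343 := add v340 v342; ok v343 && (
  let v344 := sub v0 v343; ok v344 && (
  let v345 := scale ⟨1073741824, 0, 0, 0⟩ x1; ok v345 && (
  let v346 := sub v344 v345; ok v346 && (
  let v347 := sub v13 v0; ok v347 && (
  let v348 := cst ⟨2199023255552, 0, 0, 0⟩; ok v348 && (
  let v349 := add v347 v348; ok v349 && (
  let v350 := scale ⟨2199023255552, 0, 0, 0⟩ v312; ok v350 && (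
  let v351 := sub v349 v350; ok v351 && (
  let v352 := mul v158 v351; ok v352 && (
  let v353 := mul v347 v350; ok v353 && (
  let v354 := add v353 v0; ok v354 && (
  let v355 := inv v354; ok v355 && (
  let v356 := mul v352 v355; ok v356 && (
  let v357 := mul v171 v258; ok v357 && (
  let v358 := scale ⟨549755813888, 0, 0, 0⟩ v175; ok v358 && (
  let v359 := add v10 v358; ok v359 && (
  let v360 := mul v357 v359; ok v360 && (
  let v361 := scale ⟨2199023255552, 0, 0, 0⟩ v360; ok v361 && (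
  let v362 := add v252 v361; ok v362 && (
  let v363 := scale ⟨2199023255552, 0, 0, 0⟩ v362; ok v363 && (
  let v364 := mul v363 v265; ok v364 && (
  let v365 := sub v17 v330; ok v365 && (
  let v366 := inv v365; ok v366 && (
  let v367 := mul v364 v366; ok v367 && (
  let v368 := sub v356 v367; ok v368 && (
  isPos 4 v179 && (
  isPos 4 v182 && (
  let v369 := scale ⟨2199023255552, 0, 0, 0⟩ v262; ok v369 && (
  let v370 := sub v44 v369; ok v370 && (
  isPos 4 v370 && (
  isPos 4 v272 && (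
  isPos 4 v113 && (
  let v371 := sub v1 v157; ok v371 && (
  isPos 4 v371 && (
  let v372 := scale ⟨687194767360, 0, 0, 0⟩ v0; ok v372 && (
  let v373 := sub v372 v219; ok v373 && (
  isPos 4 v373 && (
  let v374 := scale ⟨377957122048, 0, 0, 0⟩ v0; ok v374 && (
  let v375 := sub v374 v215; ok v375 && (
  isPos 4 v375 && (
  isPos 4 v365 && (
  let v376 := sub v1 v316; ok v376 && (
  isPos 4 v376 && (
  isPos 4 v284 && (
  let v377 := sub v372 v289; ok v377 && (
  isPos 4 v377 && (
  let v378 := mul v167 v167; ok v378 && (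
  let v379 := cst ⟨14293651161088, 0, 0, 0⟩; ok v379 && (
  let v380 := cst ⟨10995116277760, 0, 0, 0⟩; ok v380 && (
  let v381 := inv v380; ok v381 && (
  let v382 := mul v379 v381; ok v382 && (
  let v383 := mul v378 v382; ok v383 && (
  let v384 := cst ⟨27487790694400, 0, 0, 0⟩; ok v384 && (
  let v385 := add v383 v384; ok v385 && (
  let v386 := mul v158 v17; ok v386 && (
  let v387 := mul v386 v312; ok v387 && (
  let v388 := mul x1 v387; ok v388 && (
  let v389 := add v0 v388; ok v389 && (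
  let v390 := inv v389; ok v390 && (
  let v391 := mul v387 v390; ok v391 && (
  let v392 := sub v32 x1; ok v392 && (
  let v393 := sub v392 v31; ok v393 && (
  let v394 := scale ⟨2199023255552, 0, 0, 0⟩ v2; ok v394 && (
  let v395 := add v394 v268; ok v395 && (
  let v396 := mul x0 v395; ok v396 && (
  let v397 := mul v385 v391; ok v397 && (
  let v398 := mul v265 v396; ok v398 && (
  let v399 := mul v76 v250; ok v399 && (
  let v400 := mul v5 v399; ok v400 && (
  let v401 := mul v17 v171; ok v401 && (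
  let v402 := mul v401 v258; ok v402 && (
  let v403 := mul v30 v402; ok v403 && (
  let v404 := add v400 v403; ok v404 && (
  let v405 := mul x0 v404; ok v405 && (
  let v406 := mul v398 v405; ok v406 && (
  let v407 := sub v397 v406; ok v407 && (
  let v408 := scale ⟨549755813888, 0, 0, 0⟩ v330; ok v408 && (
  let v409 := add v0 v408; ok v409 && (
  let v410 := mul v265 v409; ok v410 && (
  let v411 := mul x1 v16; ok v411 && (
  let v412 := mul v411 v166; ok v412 && (
  let v413 := mul v17 v44; ok v413 && (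
  let v414 := inv v413; ok v414 && (
  let v415 := mul v412 v414; ok v415 && (
  let v416 := mul v410 v415; ok v416 && (
  let v417 := sub v393 v416; ok v417 && (
  let v418 := mul v175 v407; ok v418 && (
  let v419 := sub v0 v175; ok v419 && (
  let v420 := mul v5 v417; ok v420 && (
  let v421 := mul v419 v420; ok v421 && (
  let v422 := mul v385 v421; ok v422 && (
  let v423 := add v418 v422; ok v423 && (
  isPos 4 v368 && (
  isPos 4 v346 && (
  isPos 4 v423 && (
  isPos 4 v417 && (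
  true))))))))))))))))))))))))))))))))))))))))))))))))))))))))))))))))))))))))))))))))))))))))))))))))))))))))))))))))))))))))))))))))))))))))))))))))))))))))))))))))))))))))))))))))))))))))))))))))))))))))))))))))))))))))))))))))))))))))))))))))))))))))))))))))))))))))))))))))))))))))))))))))))))))))))))))))))))))))))))))))))))))))))))))))))))))))))))))))))))))))))))))))))))))))))))))))))))))))))))))))))))))))))))))))))))))))))))))))))))))))))))
  | _ => false

set_option maxRecDepth 1000000 in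
theorem chk5_eq (O : Ops) (m : List O.α)
    (h : chk5 O.cst O.add O.sub O.mul O.scale O.neg O.inv O.exp O.log O.ok O.isPos O.isLt m = true) :
    runG O 4 prog5 m = true := by
  match m, h with
  | [x0, x1, x2, x3], h => exact h

def chkB5 : List opsE.α → Bool :=
  chk5 opsE.cst opsE.add opsE.sub opsE.mul opsE.scale opsE.neg opsE.inv opsE.exp opsE.log opsE.ok opsE.isPos opsE.isLt

theorem chkB5_eq (m : List opsE.α) (h : chkB5 m = true) : runG opsE 4 prog5 m = true :=
  chk5_eq opsE m h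

def prog6 : List Op := [
  .const ⟨1099511627776, 0, 0, 0⟩,
  .const ⟨549755813888, 0, 0, 0⟩,
  .mul 3 4,
  .mul 0 6,
  .scale ⟨549755813888, 0, 0, 0⟩ 0,
  .mul 7 7,
  .mul 1 1,
  .sub 6 0,
  .inv 0,
  .mul 4 0,
  .scale ⟨2199023255552, 0, 0, 0⟩ 0,
  .scale ⟨2199023255552, 0, 0, 0⟩ 2,
  .sub 0 11,
  .add 0 2,
  .mul 17 5,
  .mul 17 0,
  .sub 15 0,
  .add 16 1,
  .scale ⟨10774999203840, 0, 0, 0⟩ 13,
  .scale ⟨45768245248, 0, 0, 0⟩ 0,
  .const ⟨183207198720, 0, 0, 0⟩,
  .add 1 0,
  .mul 3 0,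
  .add 21 0,
  .mul 5 0,
  .add 24 0,
  .mul 7 0,
  .scale ⟨549755813888, 0, 0, 0⟩ 0,
  .add 27 0,
  .mul 3 0,
  .mul 31 24,
  .mul 20 15,
  .scale ⟨2199023255552, 0, 0, 0⟩ 19,
  .add 1 0,
  .add 0 35,
  .mul 4 0,
  .add 0 35,
  .mul 26 26,
  .scale ⟨2199023255552, 0, 0, 0⟩ 0,
  .add 0 38,
  .mul 27 5,
  .sub 0 40,
  .log 5,
  .scale ⟨549755813888, 0, 0, 0⟩ 0,
  .exp 0,
  .scale ⟨549755813888, 0, 0, 0⟩ 45,
  .mul 0 3,
  .neg 0,
  .exp 0,
  .mul 36 18,
  .mul 0 8,
  .scale ⟨4398046511104, 0, 0, 0⟩ 0,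
  .add 0 51,
  .log 0,
  .sub 0 11,
  .mul 9 0,
  .neg 0,
  .exp 0,
  .mul 42 47,
  .add 46 0,
  .inv 0,
  .mul 43 0,
  .mul 45 63,
  .mul 0 1,
  .mul 49 49,
  .sub 64 59,
  .mul 1 0,
  .mul 64 64,
  .add 55 37,
  .inv 0,
  .mul 0 70,
  .mul 0 68,
  .mul 0 0,
  .sub 72 8,
  .mul 8 0,
  .mul 2 0,
  .inv 76,
  .const ⟨0, 1099511627776, 0, 0⟩,
  .add 29 77,
  .mul 30 30,
  .add 0 79,
  .mul 32 3,
  .scale ⟨2199023255552, 0, 0, 0⟩ 0,
  .add 2 0,
  .inv 5,
  .mul 1 0,
  .add 0 7,
  .mul 38 23,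
  .scale ⟨549755813888, 0, 0, 0⟩ 0,
  .mul 0 2,
  .sub 6 0,
  .pos 7,
  .pos 0,
  .inv 0,
  .sub 91 43,
  .mul 0 14,
  .mul 0 2,
  .scale ⟨549755813888, 0, 0, 0⟩ 0,
  .add 0 94,
  .inv 0,
  .mul 2 0,
  .mul 10 3,
  .add 0 98,
  .mul 0 14,
  .inv 18,
  .mul 1 0,
  .mul 40 5,
  .scale ⟨549755813888, 0, 0, 0⟩ 0,
  .sub 105 0,
  .sub 106 2,
  .inv 0,
  .mul 2 0,
  .add 5 109,
  .mul 62 0,
  .mul 95 94,
  .add 100 114,
  .mul 98 101,
  .mul 0 104,
  .scale ⟨2199023255552, 0, 0, 0⟩ 0,
  .add 77 0,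
  .mul 4 0,
  .inv 0,
  .mul 7 0,
  .mul 122 0,
  .inv 85,
  .mul 47 0,
  .add 66 123,
  .mul 67 67,
  .add 0 125,
  .mul 69 49,
  .scale ⟨2199023255552, 0, 0, 0⟩ 0,
  .add 2 0,
  .inv 5,
  .mul 1 0,
  .add 0 7,
  .mul 75 11,
  .scale ⟨549755813888, 0, 0, 0⟩ 0,
  .mul 0 2,
  .sub 6 0,
  .pos 7,
  .pos 0,
  .sub 136 79,
  .mul 0 13,
  .inv 2,
  .mul 1 0,
  .scale ⟨549755813888, 0, 0, 0⟩ 0,
  .add 0 140,
  .inv 0,
  .mul 2 0,
  .mul 23 0,
  .add 141 145,
  .inv 0,
  .mul 143 0,
  .scale ⟨2199023255552, 0, 0, 0⟩ 0,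
  .sub 149 0,
  .sub 150 146,
  .mul 155 4,
  .mul 0 2,
  .add 136 0,
  .mul 155 144,
  .const ⟨5497558138880, 0, 0, 0⟩,
  .inv 0,
  .mul 157 0,
  .mul 159 0,
  .scale ⟨5497558138880, 0, 0, 0⟩ 83,
  .scale ⟨224412041216, 0, 0, 0⟩ 152,
  .inv 132,
  .mul 1 0,
  .mul 4 146,
  .mul 0 1,
  .mul 163 0,
  .sub 166 0,
  .inv 0,
  .mul 57 2,
  .sub 169 0,
  .inv 0,
  .scale ⟨3573412790272, 0, 0, 0⟩ 157,
  .inv 175,
  .scale ⟨339302416384, 0, 0, 0⟩ 0,
  .add 2 0,
  .scale ⟨549755813888, 0, 0, 0⟩ 0,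
  .scale ⟨2199023255552, 0, 0, 0⟩ 100,
  .add 0 177,
  .add 102 178,
  .mul 175 165,
  .sub 180 114,
  .mul 177 166,
  .scale ⟨2199023255552, 0, 0, 0⟩ 0,
  .sub 2 0,
  .mul 4 4,
  .add 1 0,
  .add 0 186,
  .scale ⟨549755813888, 0, 0, 0⟩ 0,
  .scale ⟨549755813888, 0, 0, 0⟩ 158,
  .sub 181 0,
  .mul 123 9,
  .mul 0 184,
  .scale ⟨137438953472, 0, 0, 0⟩ 0,
  .add 3 0,
  .mul 6 0,
  .mul 91 86,
  .add 85 196,
  .mul 0 29,
  .mul 87 27,
  .add 1 0,
  .mul 34 0,
  .add 5 0,
  .mul 0 126,
  .mul 6 37,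
  .mul 0 36,
  .add 9 0,
  .mul 0 130,
  .scale ⟨223338299392, 0, 0, 0⟩ 0,
  .add 207 0,
  .mul 2 0,
  .add 210 0,
  .scale ⟨893353197568, 0, 0, 0⟩ 8,
  .add 212 0,
  .mul 10 0,
  .add 214 0,
  .mul 66 63,
  .mul 0 38,
  .mul 0 2,
  .mul 23 7,
  .add 175 218,
  .mul 2 0,
  .add 2 0,
  .add 178 222,
  .mul 5 0,
  .mul 45 1,
  .mul 0 73,
  .mul 0 75,
  .mul 225 73,
  .inv 184,
  .mul 1 0,
  .scale ⟨549755813888, 0, 0, 0⟩ 0,
  .mul 170 58,
  .mul 0 134,
  .mul 0 124,
  .mul 218 3,
  .mul 13 1,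
  .mul 9 60,
  .add 1 0,
  .mul 0 162,
  .add 4 0,
  .mul 18 43,
  .mul 0 73,
  .mul 18 131,
  .mul 0 72,
  .add 2 0,
  .mul 0 169,
  .mul 230 6,
  .mul 82 1,
  .add 1 0,
  .mul 182 0,
  .mul 0 21,
  .sub 251 0,
  .inv 0,
  .mul 4 0,
  .mul 256 0,
  .mul 188 1,
  .mul 0 27,
  .sub 257 0,
  .mul 217 0,
  .sub 0 4,
  .inv 0,
  .mul 6 0,
  .sub 218 6,
  .inv 0,
  .mul 2 120,
  .mul 266 1,
  .mul 122 5,
  .inv 237,
  .mul 1 0,
  .scale ⟨549755813888, 0, 0, 0⟩ 4,
  .sub 270 0,
  .sub 271 6,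
  .inv 0,
  .mul 2 0,
  .mul 5 0,
  .add 9 0,
  .mul 0 20,
  .scale ⟨223338299392, 0, 0, 0⟩ 0,
  .add 277 0,
  .mul 2 0,
  .add 280 0,
  .mul 5 0,
  .mul 0 29,
  .mul 0 207,
  .mul 0 287,
  .mul 0 40,
  .mul 2 126,
  .mul 0 290,
  .inv 271,
  .mul 1 0,
  .mul 291 274,
  .mul 0 60,
  .add 0 56,
  .add 0 56,
  .mul 4 0,
  .mul 136 293,
  .mul 0 279,
  .mul 0 281,
  .const ⟨3298534883328, 0, 0, 0⟩,
  .mul 0 142,
  .add 155 300,
  .mul 156 0,
  .add 247 0,
  .mul 41 0,
  .mul 247 3,
  .scale ⟨687194767360, 0, 0, 0⟩ 1,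
  .add 306 0,
  .mul 3 0,
  .add 308 0,
  .mul 4 0,
  .add 300 312,
  .mul 165 0,
  .mul 0 12,
  .add 313 0,
  .inv 0,
  .mul 5 0,
  .mul 0 303,
  .mul 315 63,
  .mul 0 29,
  .add 319 0,
  .mul 3 0,
  .mul 0 57,
  .mul 324 36,
  .mul 0 157,
  .mul 326 26,
  .mul 30 0,
  .add 2 0,
  .add 4 32,
  .add 328 1,
  .mul 7 0,
  .add 2 0,
  .sub 331 0,
  .scale ⟨1073741824, 0, 0, 0⟩ 334,
  .sub 1 0,
  .sub 321 334,
  .const ⟨2199023255552, 0, 0, 0⟩,
  .add 1 0,
  .scale ⟨2199023255552, 0, 0, 0⟩ 37,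
  .sub 1 0,
  .mul 193 0,
  .mul 5 2,
  .add 0 341,
  .inv 0,
  .mul 3 0,
  .mul 185 98,
  .scale ⟨549755813888, 0, 0, 0⟩ 182,
  .add 336 0,
  .mul 2 0,
  .scale ⟨2199023255552, 0, 0, 0⟩ 0,
  .add 109 0,
  .scale ⟨2199023255552, 0, 0, 0⟩ 0,
  .mul 0 98,
  .sub 335 34,
  .inv 0,
  .mul 2 0,
  .sub 11 0,
  .pos 189,
  .pos 186,
  .scale ⟨2199023255552, 0, 0, 0⟩ 106,
  .sub 313 0,
  .pos 0,
  .pos 98,
  .pos 251,
  .sub 357 213,
  .pos 0,
  .scale ⟨687194767360, 0, 0, 0⟩ 359,
  .sub 0 153,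
  .pos 0,
  .scale ⟨377957122048, 0, 0, 0⟩ 361,
  .sub 0 159,
  .pos 0,
  .pos 10,
  .sub 362 59,
  .pos 0,
  .pos 92,
  .sub 4 87,
  .pos 0,
  .mul 210 210,
  .const ⟨14293651161088, 0, 0, 0⟩,
  .const ⟨10995116277760, 0, 0, 0⟩,
  .inv 0,
  .mul 2 0,
  .mul 4 0,
  .const ⟨27487790694400, 0, 0, 0⟩,
  .add 1 0,
  .mul 227 356,
  .mul 0 74,
  .mul 377 0,
  .add 376 0,
  .inv 0,
  .mul 3 0,
  .sub 347 381,
  .sub 0 349,
  .scale ⟨2199023255552, 0, 0, 0⟩ 379,
  .add 0 126,
  .mul 384 0,
  .mul 11 5,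
  .mul 132 1,
  .mul 310 148,
  .mul 382 0,
  .mul 371 229,
  .mul 0 143,
  .mul 360 0,
  .add 3 0,
  .mul 393 0,
  .mul 7 0,
  .sub 9 0,
  .scale ⟨549755813888, 0, 0, 0⟩ 77,
  .add 396 0,
  .mul 144 0,
  .mul 400 382,
  .mul 0 245,
  .mul 383 356,
  .inv 0,
  .mul 2 0,
  .mul 5 0,
  .sub 23 0,
  .mul 242 10,
  .sub 406 243,
  .mul 402 2,
  .mul 1 0,
  .mul 36 0,
  .add 4 0,
  .pos 55,
  .pos 77,
  .pos 0,
  .pos 6]

def chk6 {α : Type} (cst : Z → α) (add sub mul : α → α → α) (scale : Z → α → α)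
    (neg inv exp log : α → α) (ok : α → Bool) (isPos : Nat → α → Bool) (isLt : α → Nat → Bool) :
    List α → Bool
  | [x0, x1, x2, x3] =>
  let v0 := cst ⟨1099511627776, 0, 0, 0⟩; ok v0 && (
  let v1 := cst ⟨549755813888, 0, 0, 0⟩; ok v1 && (
  let v2 := mul x1 x2; ok v2 && (
  let v3 := mul v2 x3; ok v3 && (
  let v4 := scale ⟨549755813888, 0, 0, 0⟩ v3; ok v4 && (
  let v5 := mul x2 x2; ok v5 && (
  let v6 := mul v4 v4; ok v6 && (
  let v7 := sub v0 v6; ok v7 && (
  let v8 := inv v7; ok v8 && (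
  let v9 := mul v4 v8; ok v9 && (
  let v10 := scale ⟨2199023255552, 0, 0, 0⟩ v9; ok v10 && (
  let v11 := scale ⟨2199023255552, 0, 0, 0⟩ v8; ok v11 && (
  let v12 := sub v11 v0; ok v12 && (
  let v13 := add v12 v10; ok v13 && (
  let v14 := mul x3 v8; ok v14 && (
  let v15 := mul x2 v14; ok v15 && (
  let v16 := sub v0 v15; ok v16 && (
  let v17 := add v0 v15; ok v17 && (
  let v18 := scale ⟨10774999203840, 0, 0, 0⟩ v4; ok v18 && (
  let v19 := scale ⟨45768245248, 0, 0, 0⟩ v18; ok v19 && (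
  let v20 := cst ⟨183207198720, 0, 0, 0⟩; ok v20 && (
  let v21 := add v19 v20; ok v21 && (
  let v22 := mul v18 v21; ok v22 && (
  let v23 := add v1 v22; ok v23 && (
  let v24 := mul v18 v23; ok v24 && (
  let v25 := add v0 v24; ok v25 && (
  let v26 := mul v18 v25; ok v26 && (
  let v27 := scale ⟨549755813888, 0, 0, 0⟩ v26; ok v27 && (
  let v28 := add v0 v27; ok v28 && (
  let v29 := mul v25 v28; ok v29 && (
  let v30 := mul x1 v5; ok v30 && (
  let v31 := mul v10 v15; ok v31 && (
  let v32 := scale ⟨2199023255552, 0, 0, 0⟩ v12; ok v32 && (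
  let v33 := add v31 v32; ok v33 && (
  let v34 := add v33 x1; ok v34 && (
  let v35 := mul v30 v34; ok v35 && (
  let v36 := add v35 v0; ok v36 && (
  let v37 := mul v10 v10; ok v37 && (
  let v38 := scale ⟨2199023255552, 0, 0, 0⟩ v37; ok v38 && (
  let v39 := add v38 v0; ok v39 && (
  let v40 := mul v12 v34; ok v40 && (
  let v41 := sub v40 v0; ok v41 && (
  let v42 := log v36; ok v42 && (
  let v43 := scale ⟨549755813888, 0, 0, 0⟩ v42; ok v43 && (
  let v44 := exp v43; ok v44 && (
  let v45 := scale ⟨549755813888, 0, 0, 0⟩ x0; ok v45 && (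
  let v46 := mul v45 v42; ok v46 && (
  let v47 := neg v46; ok v47 && (
  let v48 := exp v47; ok v48 && (
  let v49 := mul v12 v30; ok v49 && (
  let v50 := mul v49 v41; ok v50 && (
  let v51 := scale ⟨4398046511104, 0, 0, 0⟩ v50; ok v51 && (
  let v52 := add v51 v0; ok v52 && (
  let v53 := log v52; ok v53 && (
  let v54 := sub v53 v42; ok v54 && (
  let v55 := mul v45 v54; ok v55 && (
  let v56 := neg v55; ok v56 && (
  let v57 := exp v56; ok v57 && (
  let v58 := mul v15 v10; ok v58 && (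
  let v59 := add v12 v58; ok v59 && (
  let v60 := inv v59; ok v60 && (
  let v61 := mul v17 v60; ok v61 && (
  let v62 := mul v16 x1; ok v62 && (
  let v63 := mul v62 v61; ok v63 && (
  let v64 := mul v14 v14; ok v64 && (
  let v65 := sub v0 v5; ok v65 && (
  let v66 := mul v64 v65; ok v66 && (
  let v67 := mul v2 v2; ok v67 && (
  let v68 := add v12 v30; ok v68 && (
  let v69 := inv v68; ok v69 && (
  let v70 := mul v69 x0; ok v70 && (
  let v71 := mul v70 v2; ok v71 && (
  let v72 := mul v71 v71; ok v72 && (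
  let v73 := sub v0 v64; ok v73 && (
  let v74 := mul v65 v73; ok v74 && (
  let v75 := mul v72 v74; ok v75 && (
  let v76 := inv x0; ok v76 && (
  let v77 := cst ⟨0, 1099511627776, 0, 0⟩; ok v77 && (
  let v78 := add v48 v0; ok v78 && (
  let v79 := mul v48 v48; ok v79 && (
  let v80 := add v79 v0; ok v80 && (
  let v81 := mul v48 v77; ok v81 && (
  let v82 := scale ⟨2199023255552, 0, 0, 0⟩ v81; ok v82 && (
  let v83 := add v80 v82; ok v83 && (
  let v84 := inv v78; ok v84 && (
  let v85 := mul v83 v84; ok v85 && (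
  let v86 := add v85 v78; ok v86 && (
  let v87 := mul v48 v63; ok v87 && (
  let v88 := scale ⟨549755813888, 0, 0, 0⟩ v87; ok v88 && (
  let v89 := mul v88 v86; ok v89 && (
  let v90 := sub v83 v89; ok v90 && (
  isPos 4 v83 && (
  isPos 4 v90 && (
  let v91 := inv v90; ok v91 && (
  let v92 := sub v0 v48; ok v92 && (
  let v93 := mul v92 v78; ok v93 && (
  let v94 := mul v93 v91; ok v94 && (
  let v95 := scale ⟨549755813888, 0, 0, 0⟩ v94; ok v95 && (
  let v96 := add v95 v1; ok v96 && (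
  let v97 := inv v96; ok v97 && (
  let v98 := mul v95 v97; ok v98 && (
  let v99 := mul v88 v95; ok v99 && (
  let v100 := add v99 v1; ok v100 && (
  let v101 := mul v100 v86; ok v101 && (
  let v102 := inv v83; ok v102 && (
  let v103 := mul v101 v102; ok v103 && (
  let v104 := mul v63 v98; ok v104 && (
  let v105 := scale ⟨549755813888, 0, 0, 0⟩ v104; ok v105 && (
  let v106 := sub v0 v105; ok v106 && (
  let v107 := sub v0 v104; ok v107 && (
  let v108 := inv v107; ok v108 && (
  let v109 := mul v106 v108; ok v109 && (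
  let v110 := add v104 v0; ok v110 && (
  let v111 := mul v48 v110; ok v111 && (
  let v112 := mul v16 v17; ok v112 && (
  let v113 := add v12 x1; ok v113 && (
  let v114 := mul v15 v12; ok v114 && (
  let v115 := mul v114 v10; ok v115 && (
  let v116 := scale ⟨2199023255552, 0, 0, 0⟩ v115; ok v116 && (
  let v117 := add v39 v116; ok v117 && (
  let v118 := mul v113 v117; ok v118 && (
  let v119 := inv v118; ok v119 && (
  let v120 := mul v112 v119; ok v120 && (
  let v121 := mul x1 v120; ok v121 && (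
  let v122 := inv v36; ok v122 && (
  let v123 := mul v75 v122; ok v123 && (
  let v124 := add v57 v0; ok v124 && (
  let v125 := mul v57 v57; ok v125 && (
  let v126 := add v125 v0; ok v126 && (
  let v127 := mul v57 v77; ok v127 && (
  let v128 := scale ⟨2199023255552, 0, 0, 0⟩ v127; ok v128 && (
  let v129 := add v126 v128; ok v129 && (
  let v130 := inv v124; ok v130 && (
  let v131 := mul v129 v130; ok v131 && (
  let v132 := add v131 v124; ok v132 && (
  let v133 := mul v57 v121; ok v133 && (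
  let v134 := scale ⟨549755813888, 0, 0, 0⟩ v133; ok v134 && (
  let v135 := mul v134 v132; ok v135 && (
  let v136 := sub v129 v135; ok v136 && (
  isPos 4 v129 && (
  isPos 4 v136 && (
  let v137 := sub v0 v57; ok v137 && (
  let v138 := mul v137 v124; ok v138 && (
  let v139 := inv v136; ok v139 && (
  let v140 := mul v138 v139; ok v140 && (
  let v141 := scale ⟨549755813888, 0, 0, 0⟩ v140; ok v141 && (
  let v142 := add v141 v1; ok v142 && (
  let v143 := inv v142; ok v143 && (
  let v144 := mul v141 v143; ok v144 && (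
  let v145 := mul v121 v144; ok v145 && (
  let v146 := add v4 v0; ok v146 && (
  let v147 := inv v146; ok v147 && (
  let v148 := mul v4 v147; ok v148 && (
  let v149 := scale ⟨2199023255552, 0, 0, 0⟩ v148; ok v149 && (
  let v150 := sub v0 v149; ok v150 && (
  let v151 := sub v0 v4; ok v151 && (
  let v152 := mul x3 v147; ok v152 && (
  let v153 := mul v152 v150; ok v153 && (
  let v154 := add v17 v153; ok v154 && (
  let v155 := mul x0 v10; ok v155 && (
  let v156 := cst ⟨5497558138880, 0, 0, 0⟩; ok v156 && (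
  let v157 := inv v156; ok v157 && (
  let v158 := mul v0 v157; ok v158 && (
  let v159 := mul x0 v158; ok v159 && (
  let v160 := scale ⟨5497558138880, 0, 0, 0⟩ v76; ok v160 && (
  let v161 := scale ⟨224412041216, 0, 0, 0⟩ v8; ok v161 && (
  let v162 := inv v29; ok v162 && (
  let v163 := mul v161 v162; ok v163 && (
  let v164 := mul v159 v17; ok v164 && (
  let v165 := mul v164 v163; ok v165 && (
  let v166 := mul v2 v165; ok v166 && (
  let v167 := sub v0 v166; ok v167 && (
  let v168 := inv v167; ok v168 && (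
  let v169 := mul v111 v166; ok v169 && (
  let v170 := sub v0 v169; ok v170 && (
  let v171 := inv v170; ok v171 && (
  let v172 := scale ⟨3573412790272, 0, 0, 0⟩ v14; ok v172 && (
  let v173 := inv x2; ok v173 && (
  let v174 := scale ⟨339302416384, 0, 0, 0⟩ v173; ok v174 && (
  let v175 := add v172 v174; ok v175 && (
  let v176 := scale ⟨549755813888, 0, 0, 0⟩ v175; ok v176 && (
  let v177 := scale ⟨2199023255552, 0, 0, 0⟩ v76; ok v177 && (
  let v178 := add v177 v0; ok v178 && (
  let v179 := add v76 v0; ok v179 && (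
  let v180 := mul v4 v14; ok v180 && (
  let v181 := sub v0 v66; ok v181 && (
  let v182 := mul v4 v15; ok v182 && (
  let v183 := scale ⟨2199023255552, 0, 0, 0⟩ v182; ok v183 && (
  let v184 := sub v181 v183; ok v184 && (
  let v185 := mul v180 v180; ok v185 && (
  let v186 := add v184 v185; ok v186 && (
  let v187 := add v186 v0; ok v187 && (
  let v188 := scale ⟨549755813888, 0, 0, 0⟩ v187; ok v188 && (
  let v189 := scale ⟨549755813888, 0, 0, 0⟩ v30; ok v189 && (
  let v190 := sub v8 v189; ok v190 && (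
  let v191 := mul v67 v181; ok v191 && (
  let v192 := mul v191 v7; ok v192 && (
  let v193 := scale ⟨137438953472, 0, 0, 0⟩ v192; ok v193 && (
  let v194 := add v190 v193; ok v194 && (
  let v195 := mul v188 v194; ok v195 && (
  let v196 := mul v104 v109; ok v196 && (
  let v197 := add v111 v0; ok v197 && (
  let v198 := mul v197 v168; ok v198 && (
  let v199 := mul v111 v171; ok v199 && (
  let v200 := add v198 v199; ok v200 && (
  let v201 := mul v166 v200; ok v201 && (
  let v202 := add v196 v201; ok v202 && (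
  let v203 := mul v202 v76; ok v203 && (
  let v204 := mul v197 v166; ok v204 && (
  let v205 := mul v204 v168; ok v205 && (
  let v206 := add v196 v205; ok v206 && (
  let v207 := mul v206 v76; ok v207 && (
  let v208 := scale ⟨223338299392, 0, 0, 0⟩ v207; ok v208 && (
  let v209 := add v1 v208; ok v209 && (
  let v210 := mul v207 v209; ok v210 && (
  let v211 := add v0 v210; ok v211 && (
  let v212 := scale ⟨893353197568, 0, 0, 0⟩ v203; ok v212 && (
  let v213 := add v0 v212; ok v213 && (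
  let v214 := mul v203 v213; ok v214 && (
  let v215 := add v0 v214; ok v215 && (
  let v216 := mul v149 v152; ok v216 && (
  let v217 := mul v216 v178; ok v217 && (
  let v218 := mul v217 v215; ok v218 && (
  let v219 := mul v195 v211; ok v219 && (
  let v220 := add v44 v1; ok v220 && (
  let v221 := mul v218 v220; ok v221 && (
  let v222 := add v219 v221; ok v222 && (
  let v223 := add v44 v0; ok v223 && (
  let v224 := mul v218 v223; ok v224 && (
  let v225 := mul v179 v223; ok v225 && (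
  let v226 := mul v225 v152; ok v226 && (
  let v227 := mul v226 v151; ok v227 && (
  let v228 := mul v2 v154; ok v228 && (
  let v229 := inv v44; ok v229 && (
  let v230 := mul v228 v229; ok v230 && (
  let v231 := scale ⟨549755813888, 0, 0, 0⟩ v230; ok v231 && (
  let v232 := mul v61 v173; ok v232 && (
  let v233 := mul v232 v98; ok v233 && (
  let v234 := mul v233 v109; ok v234 && (
  let v235 := mul v16 v231; ok v235 && (
  let v236 := mul v222 v234; ok v236 && (
  let v237 := mul v227 v176; ok v237 && (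
  let v238 := add v236 v237; ok v238 && (
  let v239 := mul v238 v76; ok v239 && (
  let v240 := add v235 v239; ok v240 && (
  let v241 := mul v222 v197; ok v241 && (
  let v242 := mul v241 v168; ok v242 && (
  let v243 := mul v224 v111; ok v243 && (
  let v244 := mul v243 v171; ok v244 && (
  let v245 := add v242 v244; ok v245 && (
  let v246 := mul v245 v76; ok v246 && (
  let v247 := mul v16 v240; ok v247 && (
  let v248 := mul v165 v246; ok v248 && (
  let v249 := add v247 v248; ok v249 && (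
  let v250 := mul v67 v249; ok v250 && (
  let v251 := mul v250 v229; ok v251 && (
  let v252 := sub v0 v251; ok v252 && (
  let v253 := inv v252; ok v253 && (
  let v254 := mul v249 v253; ok v254 && (
  let v255 := mul x1 v254; ok v255 && (
  let v256 := mul v67 v254; ok v256 && (
  let v257 := mul v256 v229; ok v257 && (
  let v258 := sub v0 v257; ok v258 && (
  let v259 := mul v41 v258; ok v259 && (
  let v260 := sub v259 v255; ok v260 && (
  let v261 := inv v260; ok v261 && (
  let v262 := mul v255 v261; ok v262 && (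
  let v263 := sub v44 v256; ok v263 && (
  let v264 := inv v263; ok v264 && (
  let v265 := mul v262 v144; ok v265 && (
  let v266 := mul x0 v264; ok v266 && (
  let v267 := mul v144 v261; ok v267 && (
  let v268 := inv v30; ok v268 && (
  let v269 := mul v267 v268; ok v269 && (
  let v270 := scale ⟨549755813888, 0, 0, 0⟩ v265; ok v270 && (
  let v271 := sub v0 v270; ok v271 && (
  let v272 := sub v0 v265; ok v272 && (
  let v273 := inv v272; ok v273 && (
  let v274 := mul v271 v273; ok v274 && (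
  let v275 := mul v269 v274; ok v275 && (
  let v276 := add v266 v275; ok v276 && (
  let v277 := mul v276 v256; ok v277 && (
  let v278 := scale ⟨223338299392, 0, 0, 0⟩ v277; ok v278 && (
  let v279 := add v1 v278; ok v279 && (
  let v280 := mul v277 v279; ok v280 && (
  let v281 := add v0 v280; ok v281 && (
  let v282 := mul v276 v281; ok v282 && (
  let v283 := mul v282 v253; ok v283 && (
  let v284 := mul v283 v76; ok v284 && (
  let v285 := mul v284 x2; ok v285 && (
  let v286 := mul v285 v245; ok v286 && (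
  let v287 := mul v284 v160; ok v287 && (
  let v288 := mul v287 x2; ok v288 && (
  let v289 := inv v17; ok v289 && (
  let v290 := mul v288 v289; ok v290 && (
  let v291 := mul x0 v16; ok v291 && (
  let v292 := mul v291 v231; ok v292 && (
  let v293 := add v292 v236; ok v293 && (
  let v294 := add v293 v237; ok v294 && (
  let v295 := mul v290 v294; ok v295 && (
  let v296 := mul v159 v2; ok v296 && (
  let v297 := mul v296 v17; ok v297 && (
  let v298 := mul v297 v16; ok v298 && (
  let v299 := cst ⟨3298534883328, 0, 0, 0⟩; ok v299 && (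
  let v300 := mul v299 v157; ok v300 && (
  let v301 := add v145 v0; ok v301 && (
  let v302 := mul v145 v301; ok v302 && (
  let v303 := add v55 v302; ok v303 && (
  let v304 := mul v262 v303; ok v304 && (
  let v305 := mul v57 v301; ok v305 && (
  let v306 := scale ⟨687194767360, 0, 0, 0⟩ v304; ok v306 && (
  let v307 := add v0 v306; ok v307 && (
  let v308 := mul v304 v307; ok v308 && (
  let v309 := add v0 v308; ok v309 && (
  let v310 := mul v305 v309; ok v310 && (
  let v311 := add v10 x1; ok v311 && (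
  let v312 := mul v146 v311; ok v312 && (
  let v313 := mul v312 v300; ok v313 && (
  let v314 := add v0 v313; ok v314 && (
  let v315 := inv v314; ok v315 && (
  let v316 := mul v310 v315; ok v316 && (
  let v317 := mul v316 v13; ok v317 && (
  let v318 := mul v2 v254; ok v318 && (
  let v319 := mul v318 v289; ok v319 && (
  let v320 := add v0 v319; ok v320 && (
  let v321 := mul v317 v320; ok v321 && (
  let v322 := mul v321 v264; ok v322 && (
  let v323 := mul x1 v286; ok v323 && (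
  let v324 := mul v323 v166; ok v324 && (
  let v325 := mul x1 v298; ok v325 && (
  let v326 := mul v295 v325; ok v326 && (
  let v327 := add v324 v326; ok v327 && (
  let v328 := add v323 v295; ok v328 && (
  let v329 := add v0 v327; ok v329 && (
  let v330 := mul v322 v329; ok v330 && (
  let v331 := add v328 v330; ok v331 && (
  let v332 := sub v0 v331; ok v332 && (
  let v333 := scale ⟨1073741824, 0, 0, 0⟩ x1; ok v333 && (
  let v334 := sub v332 v333; ok v334 && (
  let v335 := sub v13 v0; ok v335 && (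
  let v336 := cst ⟨2199023255552, 0, 0, 0⟩; ok v336 && (
  let v337 := add v335 v336; ok v337 && (
  let v338 := scale ⟨2199023255552, 0, 0, 0⟩ v300; ok v338 && (
  let v339 := sub v337 v338; ok v339 && (
  let v340 := mul v146 v339; ok v340 && (
  let v341 := mul v335 v338; ok v341 && (
  let v342 := add v341 v0; ok v342 && (
  let v343 := inv v342; ok v343 && (
  let v344 := mul v340 v343; ok v344 && (
  let v345 := mul v159 v246; ok v345 && (
  let v346 := scale ⟨549755813888, 0, 0, 0⟩ v163; ok v346 && (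
  let v347 := add v10 v346; ok v347 && (
  let v348 := mul v345 v347; ok v348 && (
  let v349 := scale ⟨2199023255552, 0, 0, 0⟩ v348; ok v349 && (
  let v350 := add v240 v349; ok v350 && (
  let v351 := scale ⟨2199023255552, 0, 0, 0⟩ v350; ok v351 && (
  let v352 := mul v351 v253; ok v352 && (
  let v353 := sub v17 v318; ok v353 && (
  let v354 := inv v353; ok v354 && (
  let v355 := mul v352 v354; ok v355 && (
  let v356 := sub v344 v355; ok v356 && (
  isPos 4 v167 && (
  isPos 4 v170 && (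
  let v357 := scale ⟨2199023255552, 0, 0, 0⟩ v250; ok v357 && (
  let v358 := sub v44 v357; ok v358 && (
  isPos 4 v358 && (
  isPos 4 v260 && (
  isPos 4 v107 && (
  let v359 := sub v1 v145; ok v359 && (
  isPos 4 v359 && (
  let v360 := scale ⟨687194767360, 0, 0, 0⟩ v0; ok v360 && (
  let v361 := sub v360 v207; ok v361 && (
  isPos 4 v361 && (
  let v362 := scale ⟨377957122048, 0, 0, 0⟩ v0; ok v362 && (
  let v363 := sub v362 v203; ok v363 && (
  isPos 4 v363 && (
  isPos 4 v353 && (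
  let v364 := sub v1 v304; ok v364 && (
  isPos 4 v364 && (
  isPos 4 v272 && (
  let v365 := sub v360 v277; ok v365 && (
  isPos 4 v365 && (
  let v366 := mul v155 v155; ok v366 && (
  let v367 := cst ⟨14293651161088, 0, 0, 0⟩; ok v367 && (
  let v368 := cst ⟨10995116277760, 0, 0, 0⟩; ok v368 && (
  let v369 := inv v368; ok v369 && (
  let v370 := mul v367 v369; ok v370 && (
  let v371 := mul v366 v370; ok v371 && (
  let v372 := cst ⟨27487790694400, 0, 0, 0⟩; ok v372 && (
  let v373 := add v371 v372; ok v373 && (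
  let v374 := mul v146 v17; ok v374 && (
  let v375 := mul v374 v300; ok v375 && (
  let v376 := mul x1 v375; ok v376 && (
  let v377 := add v0 v376; ok v377 && (
  let v378 := inv v377; ok v378 && (
  let v379 := mul v375 v378; ok v379 && (
  let v380 := sub v32 x1; ok v380 && (
  let v381 := sub v380 v31; ok v381 && (
  let v382 := scale ⟨2199023255552, 0, 0, 0⟩ v2; ok v382 && (
  let v383 := add v382 v256; ok v383 && (
  let v384 := mul x0 v383; ok v384 && (
  let v385 := mul v373 v379; ok v385 && (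
  let v386 := mul v253 v384; ok v386 && (
  let v387 := mul v76 v238; ok v387 && (
  let v388 := mul v5 v387; ok v388 && (
  let v389 := mul v17 v159; ok v389 && (
  let v390 := mul v389 v246; ok v390 && (
  let v391 := mul v30 v390; ok v391 && (
  let v392 := add v388 v391; ok v392 && (
  let v393 := mul x0 v392; ok v393 && (
  let v394 := mul v386 v393; ok v394 && (
  let v395 := sub v385 v394; ok v395 && (
  let v396 := scale ⟨549755813888, 0, 0, 0⟩ v318; ok v396 && (
  let v397 := add v0 v396; ok v397 && (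
  let v398 := mul v253 v397; ok v398 && (
  let v399 := mul x1 v16; ok v399 && (
  let v400 := mul v399 v154; ok v400 && (
  let v401 := mul v17 v44; ok v401 && (
  let v402 := inv v401; ok v402 && (
  let v403 := mul v400 v402; ok v403 && (
  let v404 := mul v398 v403; ok v404 && (
  let v405 := sub v381 v404; ok v405 && (
  let v406 := mul v163 v395; ok v406 && (
  let v407 := sub v0 v163; ok v407 && (
  let v408 := mul v5 v405; ok v408 && (
  let v409 := mul v407 v408; ok v409 && (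
  let v410 := mul v373 v409; ok v410 && (
  let v411 := add v406 v410; ok v411 && (
  isPos 4 v356 && (
  isPos 4 v334 && (
  isPos 4 v411 && (
  isPos 4 v405 && (
  true))))))))))))))))))))))))))))))))))))))))))))))))))))))))))))))))))))))))))))))))))))))))))))))))))))))))))))))))))))))))))))))))))))))))))))))))))))))))))))))))))))))))))))))))))))))))))))))))))))))))))))))))))))))))))))))))))))))))))))))))))))))))))))))))))))))))))))))))))))))))))))))))))))))))))))))))))))))))))))))))))))))))))))))))))))))))))))))))))))))))))))))))))))))))))))))))))))))))))))))))))))))))))))))))))))))))))))))))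
  | _ => false

set_option maxRecDepth 1000000 in
theorem chk6_eq (O : Ops) (m : List O.α)
    (h : chk6 O.cst O.add O.sub O.mul O.scale O.neg O.inv O.exp O.log O.ok O.isPos O.isLt m = true) :
    runG O 4 prog6 m = true := by
  match m, h with
  | [x0, x1, x2, x3], h => exact h

def chkB6 : List opsE.α → Bool :=
  chk6 opsE.cst opsE.add opsE.sub opsE.mul opsE.scale opsE.neg opsE.inv opsE.exp opsE.log opsE.ok opsE.isPos opsE.isLt

theorem chkB6_eq (m : List opsE.α) (h : chkB6 m = true) : runG opsE 4 prog6 m = true :=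
  chk6_eq opsE m h

def prog7 : List Op := [
  .const ⟨1099511627776, 0, 0, 0⟩,
  .const ⟨549755813888, 0, 0, 0⟩,
  .mul 3 4,
  .mul 0 6,
  .scale ⟨549755813888, 0, 0, 0⟩ 0,
  .mul 7 7,
  .mul 1 1,
  .sub 6 0,
  .inv 0,
  .mul 4 0,
  .scale ⟨2199023255552, 0, 0, 0⟩ 0,
  .scale ⟨2199023255552, 0, 0, 0⟩ 2,
  .sub 0 11,
  .add 0 2,
  .mul 17 5,
  .mul 17 0,
  .sub 15 0,
  .add 16 1,
  .scale ⟨10774999203840, 0, 0, 0⟩ 13,
  .scale ⟨45768245248, 0, 0, 0⟩ 0,
  .const ⟨183207198720, 0, 0, 0⟩,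
  .add 1 0,
  .mul 3 0,
  .add 21 0,
  .mul 5 0,
  .add 24 0,
  .mul 7 0,
  .scale ⟨549755813888, 0, 0, 0⟩ 0,
  .add 27 0,
  .mul 3 0,
  .mul 31 24,
  .mul 20 15,
  .scale ⟨2199023255552, 0, 0, 0⟩ 19,
  .add 1 0,
  .add 0 35,
  .mul 4 0,
  .add 0 35,
  .mul 26 26,
  .scale ⟨2199023255552, 0, 0, 0⟩ 0,
  .add 0 38,
  .mul 27 5,
  .sub 0 40,
  .log 5,
  .scale ⟨549755813888, 0, 0, 0⟩ 0,
  .exp 0,
  .scale ⟨549755813888, 0, 0, 0⟩ 45,
  .mul 0 3,
  .neg 0,
  .exp 0,
  .mul 36 18,
  .mul 0 8,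
  .scale ⟨4398046511104, 0, 0, 0⟩ 0,
  .add 0 51,
  .log 0,
  .sub 0 11,
  .mul 9 0,
  .neg 0,
  .exp 0,
  .mul 42 47,
  .add 46 0,
  .inv 0,
  .mul 43 0,
  .mul 45 63,
  .mul 0 1,
  .mul 49 49,
  .sub 64 59,
  .mul 1 0,
  .mul 64 64,
  .add 55 37,
  .inv 0,
  .mul 0 70,
  .mul 0 68,
  .mul 0 0,
  .sub 72 8,
  .mul 8 0,
  .mul 2 0,
  .inv 76,
  .const ⟨45812285440, 0, 0, 0⟩,
  .scale ⟨1527119872, 0, 0, 0⟩ 2,
  .sub 1 0,
  .mul 4 0,
  .sub 79 0,
  .mul 6 0,
  .sub 82 0,
  .add 35 83,
  .mul 36 36,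
  .add 0 85,
  .mul 38 3,
  .scale ⟨2199023255552, 0, 0, 0⟩ 0,
  .add 2 0,
  .inv 5,
  .mul 1 0,
  .add 0 7,
  .mul 44 29,
  .scale ⟨549755813888, 0, 0, 0⟩ 0,
  .mul 0 2,
  .sub 6 0,
  .pos 7,
  .pos 0,
  .inv 0,
  .sub 97 49,
  .mul 0 14,
  .mul 0 2,
  .scale ⟨549755813888, 0, 0, 0⟩ 0,
  .add 0 100,
  .inv 0,
  .mul 2 0,
  .mul 41 0,
  .scale ⟨549755813888, 0, 0, 0⟩ 0,
  .sub 106 0,
  .sub 107 2,
  .inv 0,
  .mul 2 0,
  .add 5 110,
  .mul 63 0,
  .mul 96 95,
  .add 101 115,
  .mul 99 102,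
  .mul 0 105,
  .scale ⟨2199023255552, 0, 0, 0⟩ 0,
  .add 78 0,
  .mul 4 0,
  .inv 0,
  .mul 7 0,
  .mul 123 0,
  .inv 86,
  .mul 48 0,
  .scale ⟨1527119872, 0, 0, 0⟩ 0,
  .sub 48 0,
  .mul 2 0,
  .sub 126 0,
  .mul 4 0,
  .sub 129 0,
  .add 73 130,
  .mul 74 74,
  .add 0 132,
  .mul 76 3,
  .scale ⟨2199023255552, 0, 0, 0⟩ 0,
  .add 2 0,
  .inv 5,
  .mul 1 0,
  .add 0 7,
  .mul 82 17,
  .scale ⟨549755813888, 0, 0, 0⟩ 0,
  .mul 0 2,
  .sub 6 0,
  .pos 7,
  .pos 0,
  .sub 143 86,
  .mul 0 13,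
  .inv 2,
  .mul 1 0,
  .scale ⟨549755813888, 0, 0, 0⟩ 0,
  .add 0 147,
  .inv 0,
  .mul 2 0,
  .mul 29 0,
  .add 148 152,
  .inv 0,
  .mul 150 0,
  .scale ⟨2199023255552, 0, 0, 0⟩ 0,
  .sub 156 0,
  .sub 157 153,
  .mul 162 4,
  .mul 0 2,
  .add 143 0,
  .mul 162 151,
  .const ⟨5497558138880, 0, 0, 0⟩,
  .inv 0,
  .mul 164 0,
  .mul 166 0,
  .scale ⟨5497558138880, 0, 0, 0⟩ 90,
  .scale ⟨224412041216, 0, 0, 0⟩ 159,
  .inv 139,
  .mul 1 0,
  .mul 4 153,
  .mul 0 1,
  .mul 170 0,
  .sub 173 0,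
  .inv 0,
  .mul 63 2,
  .sub 176 0,
  .inv 0,
  .scale ⟨3573412790272, 0, 0, 0⟩ 164,
  .inv 182,
  .scale ⟨339302416384, 0, 0, 0⟩ 0,
  .add 2 0,
  .scale ⟨549755813888, 0, 0, 0⟩ 0,
  .scale ⟨2199023255552, 0, 0, 0⟩ 107,
  .add 0 184,
  .add 109 185,
  .mul 182 172,
  .sub 187 121,
  .mul 184 173,
  .scale ⟨2199023255552, 0, 0, 0⟩ 0,
  .sub 2 0,
  .mul 4 4,
  .add 1 0,
  .add 0 193,
  .scale ⟨549755813888, 0, 0, 0⟩ 0,
  .scale ⟨549755813888, 0, 0, 0⟩ 165,
  .sub 188 0,
  .mul 130 9,
  .mul 0 191,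
  .scale ⟨137438953472, 0, 0, 0⟩ 0,
  .add 3 0,
  .mul 6 0,
  .mul 97 92,
  .const ⟨45814382592, 0, 0, 0⟩,
  .const ⟨1526988800, 0, 0, 0⟩,
  .scale ⟨27279360, 0, 0, 0⟩ 130,
  .sub 1 0,
  .mul 132 0,
  .sub 4 0,
  .mul 134 0,
  .sub 209 0,
  .mul 136 0,
  .sub 212 0,
  .mul 138 137,
  .mul 0 0,
  .scale ⟨369367187456, 0, 0, 0⟩ 0,
  .add 3 0,
  .mul 169 0,
  .scale ⟨2199023255552, 0, 0, 0⟩ 0,
  .add 133 0,
  .const ⟨8589934592, 0, 0, 0⟩,
  .add 1 0,
  .log 0,
  .scale ⟨549755813888, 0, 0, 0⟩ 0,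
  .exp 0,
  .mul 177 120,
  .add 1 0,
  .mul 0 52,
  .mul 116 50,
  .add 1 0,
  .mul 57 0,
  .add 28 0,
  .mul 0 156,
  .mul 6 60,
  .mul 0 59,
  .add 32 0,
  .mul 0 160,
  .scale ⟨223338299392, 0, 0, 0⟩ 0,
  .add 237 0,
  .mul 2 0,
  .add 240 0,
  .scale ⟨893353197568, 0, 0, 0⟩ 8,
  .add 242 0,
  .mul 10 0,
  .add 244 0,
  .mul 89 86,
  .mul 0 61,
  .mul 0 2,
  .mul 46 7,
  .add 205 248,
  .mul 2 0,
  .add 2 0,
  .add 208 252,
  .mul 5 0,
  .mul 68 1,
  .mul 0 96,
  .mul 0 98,
  .mul 255 96,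
  .inv 214,
  .mul 1 0,
  .scale ⟨549755813888, 0, 0, 0⟩ 0,
  .mul 200 81,
  .mul 0 158,
  .mul 0 153,
  .mul 248 3,
  .mul 13 1,
  .mul 9 83,
  .add 1 0,
  .mul 0 192,
  .add 4 0,
  .mul 18 43,
  .mul 0 96,
  .mul 18 160,
  .mul 0 95,
  .add 2 0,
  .mul 0 199,
  .mul 260 6,
  .mul 105 1,
  .add 1 0,
  .mul 212 0,
  .mul 0 21,
  .sub 281 0,
  .inv 0,
  .mul 4 0,
  .mul 286 0,
  .mul 218 1,
  .mul 0 27,
  .sub 287 0,
  .mul 247 0,
  .sub 0 4,
  .inv 0,
  .mul 6 0,
  .sub 248 6,
  .inv 0,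
  .mul 2 143,
  .mul 296 1,
  .mul 145 5,
  .inv 267,
  .mul 1 0,
  .scale ⟨549755813888, 0, 0, 0⟩ 4,
  .sub 300 0,
  .sub 301 6,
  .inv 0,
  .mul 2 0,
  .mul 5 0,
  .add 9 0,
  .mul 0 20,
  .scale ⟨223338299392, 0, 0, 0⟩ 0,
  .add 307 0,
  .mul 2 0,
  .add 310 0,
  .mul 5 0,
  .mul 0 29,
  .mul 0 237,
  .mul 0 317,
  .mul 0 40,
  .mul 2 149,
  .mul 0 320,
  .inv 301,
  .mul 1 0,
  .mul 321 304,
  .mul 0 60,
  .add 0 56,
  .add 0 56,
  .mul 4 0,
  .mul 159 323,
  .mul 0 309,
  .mul 0 311,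
  .const ⟨3298534883328, 0, 0, 0⟩,
  .mul 0 165,
  .add 178 330,
  .mul 179 0,
  .add 277 0,
  .mul 41 0,
  .mul 277 3,
  .scale ⟨687194767360, 0, 0, 0⟩ 1,
  .add 336 0,
  .mul 3 0,
  .add 338 0,
  .mul 4 0,
  .add 330 342,
  .mul 188 0,
  .mul 0 12,
  .add 343 0,
  .inv 0,
  .mul 5 0,
  .mul 0 333,
  .mul 345 63,
  .mul 0 29,
  .add 349 0,
  .mul 3 0,
  .mul 0 57,
  .mul 354 36,
  .mul 0 180,
  .mul 356 26,
  .mul 30 0,
  .add 2 0,
  .add 4 32,
  .add 358 1,
  .mul 7 0,
  .add 2 0,
  .sub 361 0,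
  .scale ⟨1073741824, 0, 0, 0⟩ 364,
  .sub 1 0,
  .sub 351 364,
  .const ⟨2199023255552, 0, 0, 0⟩,
  .add 1 0,
  .scale ⟨2199023255552, 0, 0, 0⟩ 37,
  .sub 1 0,
  .mul 216 0,
  .mul 5 2,
  .add 0 371,
  .inv 0,
  .mul 3 0,
  .mul 208 98,
  .scale ⟨549755813888, 0, 0, 0⟩ 205,
  .add 366 0,
  .mul 2 0,
  .scale ⟨2199023255552, 0, 0, 0⟩ 0,
  .add 109 0,
  .scale ⟨2199023255552, 0, 0, 0⟩ 0,
  .mul 0 98,
  .sub 365 34,
  .inv 0,
  .mul 2 0,
  .sub 11 0,
  .pos 212,
  .pos 209,
  .scale ⟨2199023255552, 0, 0, 0⟩ 106,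
  .sub 343 0,
  .pos 0,
  .pos 98,
  .pos 280,
  .sub 387 236,
  .pos 0,
  .scale ⟨687194767360, 0, 0, 0⟩ 389,
  .sub 0 153,
  .pos 0,
  .scale ⟨377957122048, 0, 0, 0⟩ 391,
  .sub 0 159,
  .pos 0,
  .pos 10,
  .sub 392 59,
  .pos 0,
  .pos 92,
  .sub 4 87,
  .pos 0,
  .mul 233 233,
  .const ⟨14293651161088, 0, 0, 0⟩,
  .const ⟨10995116277760, 0, 0, 0⟩,
  .inv 0,
  .mul 2 0,
  .mul 4 0,
  .const ⟨27487790694400, 0, 0, 0⟩,
  .add 1 0,
  .mul 250 386,
  .mul 0 74,
  .mul 407 0,
  .add 406 0,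
  .inv 0,
  .mul 3 0,
  .sub 377 411,
  .sub 0 379,
  .scale ⟨2199023255552, 0, 0, 0⟩ 409,
  .add 0 126,
  .mul 414 0,
  .mul 11 5,
  .mul 132 1,
  .mul 340 148,
  .mul 412 0,
  .mul 401 252,
  .mul 0 143,
  .mul 390 0,
  .add 3 0,
  .mul 423 0,
  .mul 7 0,
  .sub 9 0,
  .scale ⟨549755813888, 0, 0, 0⟩ 77,
  .add 426 0,
  .mul 144 0,
  .mul 430 412,
  .mul 0 268,
  .mul 413 386,
  .inv 0,
  .mul 2 0,
  .mul 5 0,
  .sub 23 0,
  .mul 265 10,
  .sub 436 266,
  .mul 432 2,
  .mul 1 0,
  .mul 36 0,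
  .add 4 0,
  .pos 55,
  .pos 77,
  .pos 0,
  .pos 6]

def chk7 {α : Type} (cst : Z → α) (add sub mul : α → α → α) (scale : Z → α → α)
    (neg inv exp log : α → α) (ok : α → Bool) (isPos : Nat → α → Bool) (isLt : α → Nat → Bool) :
    List α → Bool
  | [x0, x1, x2, x3] =>
  let v0 := cst ⟨1099511627776, 0, 0, 0⟩; ok v0 && (
  let v1 := cst ⟨549755813888, 0, 0, 0⟩; ok v1 && (
  let v2 := mul x1 x2; ok v2 && (
  let v3 := mul v2 x3; ok v3 && (
  let v4 := scale ⟨549755813888, 0, 0, 0⟩ v3; ok v4 && (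
  let v5 := mul x2 x2; ok v5 && (
  let v6 := mul v4 v4; ok v6 && (
  let v7 := sub v0 v6; ok v7 && (
  let v8 := inv v7; ok v8 && (
  let v9 := mul v4 v8; ok v9 && (
  let v10 := scale ⟨2199023255552, 0, 0, 0⟩ v9; ok v10 && (
  let v11 := scale ⟨2199023255552, 0, 0, 0⟩ v8; ok v11 && (
  let v12 := sub v11 v0; ok v12 && (
  let v13 := add v12 v10; ok v13 && (
  let v14 := mul x3 v8; ok v14 && (
  let v15 := mul x2 v14; ok v15 && (
  let v16 := sub v0 v15; ok v16 && (
  let v17 := add v0 v15; ok v17 && (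
  let v18 := scale ⟨10774999203840, 0, 0, 0⟩ v4; ok v18 && (
  let v19 := scale ⟨45768245248, 0, 0, 0⟩ v18; ok v19 && (
  let v20 := cst ⟨183207198720, 0, 0, 0⟩; ok v20 && (
  let v21 := add v19 v20; ok v21 && (
  let v22 := mul v18 v21; ok v22 && (
  let v23 := add v1 v22; ok v23 && (
  let v24 := mul v18 v23; ok v24 && (
  let v25 := add v0 v24; ok v25 && (
  let v26 := mul v18 v25; ok v26 && (
  let v27 := scale ⟨549755813888, 0, 0, 0⟩ v26; ok v27 && (
  let v28 := add v0 v27; ok v28 && (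
  let v29 := mul v25 v28; ok v29 && (
  let v30 := mul x1 v5; ok v30 && (
  let v31 := mul v10 v15; ok v31 && (
  let v32 := scale ⟨2199023255552, 0, 0, 0⟩ v12; ok v32 && (
  let v33 := add v31 v32; ok v33 && (
  let v34 := add v33 x1; ok v34 && (
  let v35 := mul v30 v34; ok v35 && (
  let v36 := add v35 v0; ok v36 && (
  let v37 := mul v10 v10; ok v37 && (
  let v38 := scale ⟨2199023255552, 0, 0, 0⟩ v37; ok v38 && (
  let v39 := add v38 v0; ok v39 && (
  let v40 := mul v12 v34; ok v40 && (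
  let v41 := sub v40 v0; ok v41 && (
  let v42 := log v36; ok v42 && (
  let v43 := scale ⟨549755813888, 0, 0, 0⟩ v42; ok v43 && (
  let v44 := exp v43; ok v44 && (
  let v45 := scale ⟨549755813888, 0, 0, 0⟩ x0; ok v45 && (
  let v46 := mul v45 v42; ok v46 && (
  let v47 := neg v46; ok v47 && (
  let v48 := exp v47; ok v48 && (
  let v49 := mul v12 v30; ok v49 && (
  let v50 := mul v49 v41; ok v50 && (
  let v51 := scale ⟨4398046511104, 0, 0, 0⟩ v50; ok v51 && (
  let v52 := add v51 v0; ok v52 && (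
  let v53 := log v52; ok v53 && (
  let v54 := sub v53 v42; ok v54 && (
  let v55 := mul v45 v54; ok v55 && (
  let v56 := neg v55; ok v56 && (
  let v57 := exp v56; ok v57 && (
  let v58 := mul v15 v10; ok v58 && (
  let v59 := add v12 v58; ok v59 && (
  let v60 := inv v59; ok v60 && (
  let v61 := mul v17 v60; ok v61 && (
  let v62 := mul v16 x1; ok v62 && (
  let v63 := mul v62 v61; ok v63 && (
  let v64 := mul v14 v14; ok v64 && (
  let v65 := sub v0 v5; ok v65 && (
  let v66 := mul v64 v65; ok v66 && (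
  let v67 := mul v2 v2; ok v67 && (
  let v68 := add v12 v30; ok v68 && (
  let v69 := inv v68; ok v69 && (
  let v70 := mul v69 x0; ok v70 && (
  let v71 := mul v70 v2; ok v71 && (
  let v72 := mul v71 v71; ok v72 && (
  let v73 := sub v0 v64; ok v73 && (
  let v74 := mul v65 v73; ok v74 && (
  let v75 := mul v72 v74; ok v75 && (
  let v76 := inv x0; ok v76 && (
  let v77 := cst ⟨45812285440, 0, 0, 0⟩; ok v77 && (
  let v78 := scale ⟨1527119872, 0, 0, 0⟩ v75; ok v78 && (
  let v79 := sub v77 v78; ok v79 && (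
  let v80 := mul v75 v79; ok v80 && (
  let v81 := sub v1 v80; ok v81 && (
  let v82 := mul v75 v81; ok v82 && (
  let v83 := sub v0 v82; ok v83 && (
  let v84 := add v48 v0; ok v84 && (
  let v85 := mul v48 v48; ok v85 && (
  let v86 := add v85 v0; ok v86 && (
  let v87 := mul v48 v83; ok v87 && (
  let v88 := scale ⟨2199023255552, 0, 0, 0⟩ v87; ok v88 && (
  let v89 := add v86 v88; ok v89 && (
  let v90 := inv v84; ok v90 && (
  let v91 := mul v89 v90; ok v91 && (
  let v92 := add v91 v84; ok v92 && (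
  let v93 := mul v48 v63; ok v93 && (
  let v94 := scale ⟨549755813888, 0, 0, 0⟩ v93; ok v94 && (
  let v95 := mul v94 v92; ok v95 && (
  let v96 := sub v89 v95; ok v96 && (
  isPos 4 v89 && (
  isPos 4 v96 && (
  let v97 := inv v96; ok v97 && (
  let v98 := sub v0 v48; ok v98 && (
  let v99 := mul v98 v84; ok v99 && (
  let v100 := mul v99 v97; ok v100 && (
  let v101 := scale ⟨549755813888, 0, 0, 0⟩ v100; ok v101 && (
  let v102 := add v101 v1; ok v102 && (
  let v103 := inv v102; ok v103 && (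
  let v104 := mul v101 v103; ok v104 && (
  let v105 := mul v63 v104; ok v105 && (
  let v106 := scale ⟨549755813888, 0, 0, 0⟩ v105; ok v106 && (
  let v107 := sub v0 v106; ok v107 && (
  let v108 := sub v0 v105; ok v108 && (
  let v109 := inv v108; ok v109 && (
  let v110 := mul v107 v109; ok v110 && (
  let v111 := add v105 v0; ok v111 && (
  let v112 := mul v48 v111; ok v112 && (
  let v113 := mul v16 v17; ok v113 && (
  let v114 := add v12 x1; ok v114 && (
  let v115 := mul v15 v12; ok v115 && (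
  let v116 := mul v115 v10; ok v116 && (
  let v117 := scale ⟨2199023255552, 0, 0, 0⟩ v116; ok v117 && (
  let v118 := add v39 v117; ok v118 && (
  let v119 := mul v114 v118; ok v119 && (
  let v120 := inv v119; ok v120 && (
  let v121 := mul v113 v120; ok v121 && (
  let v122 := mul x1 v121; ok v122 && (
  let v123 := inv v36; ok v123 && (
  let v124 := mul v75 v123; ok v124 && (
  let v125 := scale ⟨1527119872, 0, 0, 0⟩ v124; ok v125 && (
  let v126 := sub v77 v125; ok v126 && (
  let v127 := mul v124 v126; ok v127 && (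
  let v128 := sub v1 v127; ok v128 && (
  let v129 := mul v124 v128; ok v129 && (
  let v130 := sub v0 v129; ok v130 && (
  let v131 := add v57 v0; ok v131 && (
  let v132 := mul v57 v57; ok v132 && (
  let v133 := add v132 v0; ok v133 && (
  let v134 := mul v57 v130; ok v134 && (
  let v135 := scale ⟨2199023255552, 0, 0, 0⟩ v134; ok v135 && (
  let v136 := add v133 v135; ok v136 && (
  let v137 := inv v131; ok v137 && (
  let v138 := mul v136 v137; ok v138 && (
  let v139 := add v138 v131; ok v139 && (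
  let v140 := mul v57 v122; ok v140 && (
  let v141 := scale ⟨549755813888, 0, 0, 0⟩ v140; ok v141 && (
  let v142 := mul v141 v139; ok v142 && (
  let v143 := sub v136 v142; ok v143 && (
  isPos 4 v136 && (
  isPos 4 v143 && (
  let v144 := sub v0 v57; ok v144 && (
  let v145 := mul v144 v131; ok v145 && (
  let v146 := inv v143; ok v146 && (
  let v147 := mul v145 v146; ok v147 && (
  let v148 := scale ⟨549755813888, 0, 0, 0⟩ v147; ok v148 && (
  let v149 := add v148 v1; ok v149 && (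
  let v150 := inv v149; ok v150 && (
  let v151 := mul v148 v150; ok v151 && (
  let v152 := mul v122 v151; ok v152 && (
  let v153 := add v4 v0; ok v153 && (
  let v154 := inv v153; ok v154 && (
  let v155 := mul v4 v154; ok v155 && (
  let v156 := scale ⟨2199023255552, 0, 0, 0⟩ v155; ok v156 && (
  let v157 := sub v0 v156; ok v157 && (
  let v158 := sub v0 v4; ok v158 && (
  let v159 := mul x3 v154; ok v159 && (
  let v160 := mul v159 v157; ok v160 && (
  let v161 := add v17 v160; ok v161 && (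
  let v162 := mul x0 v10; ok v162 && (
  let v163 := cst ⟨5497558138880, 0, 0, 0⟩; ok v163 && (
  let v164 := inv v163; ok v164 && (
  let v165 := mul v0 v164; ok v165 && (
  let v166 := mul x0 v165; ok v166 && (
  let v167 := scale ⟨5497558138880, 0, 0, 0⟩ v76; ok v167 && (
  let v168 := scale ⟨224412041216, 0, 0, 0⟩ v8; ok v168 && (
  let v169 := inv v29; ok v169 && (
  let v170 := mul v168 v169; ok v170 && (
  let v171 := mul v166 v17; ok v171 && (
  let v172 := mul v171 v170; ok v172 && (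
  let v173 := mul v2 v172; ok v173 && (
  let v174 := sub v0 v173; ok v174 && (
  let v175 := inv v174; ok v175 && (
  let v176 := mul v112 v173; ok v176 && (
  let v177 := sub v0 v176; ok v177 && (
  let v178 := inv v177; ok v178 && (
  let v179 := scale ⟨3573412790272, 0, 0, 0⟩ v14; ok v179 && (
  let v180 := inv x2; ok v180 && (
  let v181 := scale ⟨339302416384, 0, 0, 0⟩ v180; ok v181 && (
  let v182 := add v179 v181; ok v182 && (
  let v183 := scale ⟨549755813888, 0, 0, 0⟩ v182; ok v183 && (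
  let v184 := scale ⟨2199023255552, 0, 0, 0⟩ v76; ok v184 && (
  let v185 := add v184 v0; ok v185 && (
  let v186 := add v76 v0; ok v186 && (
  let v187 := mul v4 v14; ok v187 && (
  let v188 := sub v0 v66; ok v188 && (
  let v189 := mul v4 v15; ok v189 && (
  let v190 := scale ⟨2199023255552, 0, 0, 0⟩ v189; ok v190 && (
  let v191 := sub v188 v190; ok v191 && (
  let v192 := mul v187 v187; ok v192 && (
  let v193 := add v191 v192; ok v193 && (
  let v194 := add v193 v0; ok v194 && (
  let v195 := scale ⟨549755813888, 0, 0, 0⟩ v194; ok v195 && (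
  let v196 := scale ⟨549755813888, 0, 0, 0⟩ v30; ok v196 && (
  let v197 := sub v8 v196; ok v197 && (
  let v198 := mul v67 v188; ok v198 && (
  let v199 := mul v198 v7; ok v199 && (
  let v200 := scale ⟨137438953472, 0, 0, 0⟩ v199; ok v200 && (
  let v201 := add v197 v200; ok v201 && (
  let v202 := mul v195 v201; ok v202 && (
  let v203 := mul v105 v110; ok v203 && (
  let v204 := cst ⟨45814382592, 0, 0, 0⟩; ok v204 && (
  let v205 := cst ⟨1526988800, 0, 0, 0⟩; ok v205 && (
  let v206 := scale ⟨27279360, 0, 0, 0⟩ v75; ok v206 && (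
  let v207 := sub v205 v206; ok v207 && (
  let v208 := mul v75 v207; ok v208 && (
  let v209 := sub v204 v208; ok v209 && (
  let v210 := mul v75 v209; ok v210 && (
  let v211 := sub v1 v210; ok v211 && (
  let v212 := mul v75 v211; ok v212 && (
  let v213 := sub v0 v212; ok v213 && (
  let v214 := mul v75 v76; ok v214 && (
  let v215 := mul v214 v214; ok v215 && (
  let v216 := scale ⟨369367187456, 0, 0, 0⟩ v215; ok v216 && (
  let v217 := add v213 v216; ok v217 && (
  let v218 := mul v48 v217; ok v218 && (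
  let v219 := scale ⟨2199023255552, 0, 0, 0⟩ v218; ok v219 && (
  let v220 := add v86 v219; ok v220 && (
  let v221 := cst ⟨8589934592, 0, 0, 0⟩; ok v221 && (
  let v222 := add v220 v221; ok v222 && (
  let v223 := log v222; ok v223 && (
  let v224 := scale ⟨549755813888, 0, 0, 0⟩ v223; ok v224 && (
  let v225 := exp v224; ok v225 && (
  let v226 := mul v48 v105; ok v226 && (
  let v227 := add v225 v226; ok v227 && (
  let v228 := mul v227 v175; ok v228 && (
  let v229 := mul v112 v178; ok v229 && (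
  let v230 := add v228 v229; ok v230 && (
  let v231 := mul v173 v230; ok v231 && (
  let v232 := add v203 v231; ok v232 && (
  let v233 := mul v232 v76; ok v233 && (
  let v234 := mul v227 v173; ok v234 && (
  let v235 := mul v234 v175; ok v235 && (
  let v236 := add v203 v235; ok v236 && (
  let v237 := mul v236 v76; ok v237 && (
  let v238 := scale ⟨223338299392, 0, 0, 0⟩ v237; ok v238 && (
  let v239 := add v1 v238; ok v239 && (
  let v240 := mul v237 v239; ok v240 && (
  let v241 := add v0 v240; ok v241 && (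
  let v242 := scale ⟨893353197568, 0, 0, 0⟩ v233; ok v242 && (
  let v243 := add v0 v242; ok v243 && (
  let v244 := mul v233 v243; ok v244 && (
  let v245 := add v0 v244; ok v245 && (
  let v246 := mul v156 v159; ok v246 && (
  let v247 := mul v246 v185; ok v247 && (
  let v248 := mul v247 v245; ok v248 && (
  let v249 := mul v202 v241; ok v249 && (
  let v250 := add v44 v1; ok v250 && (
  let v251 := mul v248 v250; ok v251 && (
  let v252 := add v249 v251; ok v252 && (
  let v253 := add v44 v0; ok v253 && (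
  let v254 := mul v248 v253; ok v254 && (
  let v255 := mul v186 v253; ok v255 && (
  let v256 := mul v255 v159; ok v256 && (
  let v257 := mul v256 v158; ok v257 && (
  let v258 := mul v2 v161; ok v258 && (
  let v259 := inv v44; ok v259 && (
  let v260 := mul v258 v259; ok v260 && (
  let v261 := scale ⟨549755813888, 0, 0, 0⟩ v260; ok v261 && (
  let v262 := mul v61 v180; ok v262 && (
  let v263 := mul v262 v104; ok v263 && (
  let v264 := mul v263 v110; ok v264 && (
  let v265 := mul v16 v261; ok v265 && (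
  let v266 := mul v252 v264; ok v266 && (
  let v267 := mul v257 v183; ok v267 && (
  let v268 := add v266 v267; ok v268 && (
  let v269 := mul v268 v76; ok v269 && (
  let v270 := add v265 v269; ok v270 && (
  let v271 := mul v252 v227; ok v271 && (
  let v272 := mul v271 v175; ok v272 && (
  let v273 := mul v254 v112; ok v273 && (
  let v274 := mul v273 v178; ok v274 && (
  let v275 := add v272 v274; ok v275 && (
  let v276 := mul v275 v76; ok v276 && (
  let v277 := mul v16 v270; ok v277 && (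
  let v278 := mul v172 v276; ok v278 && (
  let v279 := add v277 v278; ok v279 && (
  let v280 := mul v67 v279; ok v280 && (
  let v281 := mul v280 v259; ok v281 && (
  let v282 := sub v0 v281; ok v282 && (
  let v283 := inv v282; ok v283 && (
  let v284 := mul v279 v283; ok v284 && (
  let v285 := mul x1 v284; ok v285 && (
  let v286 := mul v67 v284; ok v286 && (
  let v287 := mul v286 v259; ok v287 && (
  let v288 := sub v0 v287; ok v288 && (
  let v289 := mul v41 v288; ok v289 && (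
  let v290 := sub v289 v285; ok v290 && (
  let v291 := inv v290; ok v291 && (
  let v292 := mul v285 v291; ok v292 && (
  let v293 := sub v44 v286; ok v293 && (
  let v294 := inv v293; ok v294 && (
  let v295 := mul v292 v151; ok v295 && (
  let v296 := mul x0 v294; ok v296 && (
  let v297 := mul v151 v291; ok v297 && (
  let v298 := inv v30; ok v298 && (
  let v299 := mul v297 v298; ok v299 && (
  let v300 := scale ⟨549755813888, 0, 0, 0⟩ v295; ok v300 && (
  let v301 := sub v0 v300; ok v301 && (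
  let v302 := sub v0 v295; ok v302 && (
  let v303 := inv v302; ok v303 && (
  let v304 := mul v301 v303; ok v304 && (
  let v305 := mul v299 v304; ok v305 && (
  let v306 := add v296 v305; ok v306 && (
  let v307 := mul v306 v286; ok v307 && (
  let v308 := scale ⟨223338299392, 0, 0, 0⟩ v307; ok v308 && (
  let v309 := add v1 v308; ok v309 && (
  let v310 := mul v307 v309; ok v310 && (
  let v311 := add v0 v310; ok v311 && (
  let v312 := mul v306 v311; ok v312 && (
  let v313 := mul v312 v283; ok v313 && (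
  let v314 := mul v313 v76; ok v314 && (
  let v315 := mul v314 x2; ok v315 && (
  let v316 := mul v315 v275; ok v316 && (
  let v317 := mul v314 v167; ok v317 && (
  let v318 := mul v317 x2; ok v318 && (
  let v319 := inv v17; ok v319 && (
  let v320 := mul v318 v319; ok v320 && (
  let v321 := mul x0 v16; ok v321 && (
  let v322 := mul v321 v261; ok v322 && (
  let v323 := add v322 v266; ok v323 && (
  let v324 := add v323 v267; ok v324 && (
  let v325 := mul v320 v324; ok v325 && (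
  let v326 := mul v166 v2; ok v326 && (
  let v327 := mul v326 v17; ok v327 && (
  let v328 := mul v327 v16; ok v328 && (
  let v329 := cst ⟨3298534883328, 0, 0, 0⟩; ok v329 && (
  let v330 := mul v329 v164; ok v330 && (
  let v331 := add v152 v0; ok v331 && (
  let v332 := mul v152 v331; ok v332 && (
  let v333 := add v55 v332; ok v333 && (
  let v334 := mul v292 v333; ok v334 && (
  let v335 := mul v57 v331; ok v335 && (
  let v336 := scale ⟨687194767360, 0, 0, 0⟩ v334; ok v336 && (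
  let v337 := add v0 v336; ok v337 && (
  let v338 := mul v334 v337; ok v338 && (
  let v339 := add v0 v338; ok v339 && (
  let v340 := mul v335 v339; ok v340 && (
  let v341 := add v10 x1; ok v341 && (
  let v342 := mul v153 v341; ok v342 && (
  let v343 := mul v342 v330; ok v343 && (
  let v344 := add v0 v343; ok v344 && (
  let v345 := inv v344; ok v345 && (
  let v346 := mul v340 v345; ok v346 && (
  let v347 := mul v346 v13; ok v347 && (
  let v348 := mul v2 v284; ok v348 && (
  let v349 := mul v348 v319; ok v349 && (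
  let v350 := add v0 v349; ok v350 && (
  let v351 := mul v347 v350; ok v351 && (
  let v352 := mul v351 v294; ok v352 && (
  let v353 := mul x1 v316; ok v353 && (
  let v354 := mul v353 v173; ok v354 && (
  let v355 := mul x1 v328; ok v355 && (
  let v356 := mul v325 v355; ok v356 && (
  let v357 := add v354 v356; ok v357 && (
  let v358 := add v353 v325; ok v358 && (
  let v359 := add v0 v357; ok v359 && (
  let v360 := mul v352 v359; ok v360 && (
  let v361 := add v358 v360; ok v361 && (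
  let v362 := sub v0 v361; ok v362 && (
  let v363 := scale ⟨1073741824, 0, 0, 0⟩ x1; ok v363 && (
  let v364 := sub v362 v363; ok v364 && (
  let v365 := sub v13 v0; ok v365 && (
  let v366 := cst ⟨2199023255552, 0, 0, 0⟩; ok v366 && (
  let v367 := add v365 v366; ok v367 && (
  let v368 := scale ⟨2199023255552, 0, 0, 0⟩ v330; ok v368 && (
  let v369 := sub v367 v368; ok v369 && (
  let v370 := mul v153 v369; ok v370 && (
  let v371 := mul v365 v368; ok v371 && (
  let v372 := add v371 v0; ok v372 && (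
  let v373 := inv v372; ok v373 && (
  let v374 := mul v370 v373; ok v374 && (
  let v375 := mul v166 v276; ok v375 && (
  let v376 := scale ⟨549755813888, 0, 0, 0⟩ v170; ok v376 && (
  let v377 := add v10 v376; ok v377 && (
  let v378 := mul v375 v377; ok v378 && (
  let v379 := scale ⟨2199023255552, 0, 0, 0⟩ v378; ok v379 && (
  let v380 := add v270 v379; ok v380 && (
  let v381 := scale ⟨2199023255552, 0, 0, 0⟩ v380; ok v381 && (
  let v382 := mul v381 v283; ok v382 && (
  let v383 := sub v17 v348; ok v383 && (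
  let v384 := inv v383; ok v384 && (
  let v385 := mul v382 v384; ok v385 && (
  let v386 := sub v374 v385; ok v386 && (
  isPos 4 v174 && (
  isPos 4 v177 && (
  let v387 := scale ⟨2199023255552, 0, 0, 0⟩ v280; ok v387 && (
  let v388 := sub v44 v387; ok v388 && (
  isPos 4 v388 && (
  isPos 4 v290 && (
  isPos 4 v108 && (
  let v389 := sub v1 v152; ok v389 && (
  isPos 4 v389 && (
  let v390 := scale ⟨687194767360, 0, 0, 0⟩ v0; ok v390 && (
  let v391 := sub v390 v237; ok v391 && (
  isPos 4 v391 && (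
  let v392 := scale ⟨377957122048, 0, 0, 0⟩ v0; ok v392 && (
  let v393 := sub v392 v233; ok v393 && (
  isPos 4 v393 && (
  isPos 4 v383 && (
  let v394 := sub v1 v334; ok v394 && (
  isPos 4 v394 && (
  isPos 4 v302 && (
  let v395 := sub v390 v307; ok v395 && (
  isPos 4 v395 && (
  let v396 := mul v162 v162; ok v396 && (
  let v397 := cst ⟨14293651161088, 0, 0, 0⟩; ok v397 && (
  let v398 := cst ⟨10995116277760, 0, 0, 0⟩; ok v398 && (
  let v399 := inv v398; ok v399 && (
  let v400 := mul v397 v399; ok v400 && (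
  let v401 := mul v396 v400; ok v401 && (
  let v402 := cst ⟨27487790694400, 0, 0, 0⟩; ok v402 && (
  let v403 := add v401 v402; ok v403 && (
  let v404 := mul v153 v17; ok v404 && (
  let v405 := mul v404 v330; ok v405 && (
  let v406 := mul x1 v405; ok v406 && (
  let v407 := add v0 v406; ok v407 && (
  let v408 := inv v407; ok v408 && (
  let v409 := mul v405 v408; ok v409 && (
  let v410 := sub v32 x1; ok v410 && (
  let v411 := sub v410 v31; ok v411 && (
  let v412 := scale ⟨2199023255552, 0, 0, 0⟩ v2; ok v412 && (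
  let v413 := add v412 v286; ok v413 && (
  let v414 := mul x0 v413; ok v414 && (
  let v415 := mul v403 v409; ok v415 && (
  let v416 := mul v283 v414; ok v416 && (
  let v417 := mul v76 v268; ok v417 && (
  let v418 := mul v5 v417; ok v418 && (
  let v419 := mul v17 v166; ok v419 && (
  let v420 := mul v419 v276; ok v420 && (
  let v421 := mul v30 v420; ok v421 && (
  let v422 := add v418 v421; ok v422 && (
  let v423 := mul x0 v422; ok v423 && (
  let v424 := mul v416 v423; ok v424 && (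
  let v425 := sub v415 v424; ok v425 && (
  let v426 := scale ⟨549755813888, 0, 0, 0⟩ v348; ok v426 && (
  let v427 := add v0 v426; ok v427 && (
  let v428 := mul v283 v427; ok v428 && (
  let v429 := mul x1 v16; ok v429 && (
  let v430 := mul v429 v161; ok v430 && (
  let v431 := mul v17 v44; ok v431 && (
  let v432 := inv v431; ok v432 && (
  let v433 := mul v430 v432; ok v433 && (
  let v434 := mul v428 v433; ok v434 && (
  let v435 := sub v411 v434; ok v435 && (
  let v436 := mul v170 v425; ok v436 && (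
  let v437 := sub v0 v170; ok v437 && (
  let v438 := mul v5 v435; ok v438 && (
  let v439 := mul v437 v438; ok v439 && (
  let v440 := mul v403 v439; ok v440 && (
  let v441 := add v436 v440; ok v441 && (
  isPos 4 v386 && (
  isPos 4 v364 && (
  isPos 4 v441 && (
  isPos 4 v435 && (
  true))))))))))))))))))))))))))))))))))))))))))))))))))))))))))))))))))))))))))))))))))))))))))))))))))))))))))))))))))))))))))))))))))))))))))))))))))))))))))))))))))))))))))))))))))))))))))))))))))))))))))))))))))))))))))))))))))))))))))))))))))))))))))))))))))))))))))))))))))))))))))))))))))))))))))))))))))))))))))))))))))))))))))))))))))))))))))))))))))))))))))))))))))))))))))))))))))))))))))))))))))))))))))))))))))))))))))))))))))))))))))))))))))))))))))))))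
  | _ => false

set_option maxRecDepth 1000000 in
theorem chk7_eq (O : Ops) (m : List O.α)
    (h : chk7 O.cst O.add O.sub O.mul O.scale O.neg O.inv O.exp O.log O.ok O.isPos O.isLt m = true) :
    runG O 4 prog7 m = true := by
  match m, h with
  | [x0, x1, x2, x3], h => exact h

def chkB7 : List opsE.α → Bool :=
  chk7 opsE.cst opsE.add opsE.sub opsE.mul opsE.scale opsE.neg opsE.inv opsE.exp opsE.log opsE.ok opsE.isPos opsE.isLt

theorem chkB7_eq (m : List opsE.α) (h : chkB7 m = true) : runG opsE 4 prog7 m = true :=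
  chk7_eq opsE m h

def prog8 : List Op := [
  .const ⟨1099511627776, 0, 0, 0⟩,
  .const ⟨549755813888, 0, 0, 0⟩,
  .mul 3 4,
  .mul 0 6,
  .scale ⟨549755813888, 0, 0, 0⟩ 0,
  .mul 7 7,
  .mul 1 1,
  .sub 6 0,
  .inv 0,
  .mul 4 0,
  .scale ⟨2199023255552, 0, 0, 0⟩ 0,
  .scale ⟨2199023255552, 0, 0, 0⟩ 2,
  .sub 0 11,
  .add 0 2,
  .mul 17 5,
  .mul 17 0,
  .sub 15 0,
  .add 16 1,
  .scale ⟨10774999203840, 0, 0, 0⟩ 13,
  .scale ⟨45768245248, 0, 0, 0⟩ 0,
  .const ⟨183207198720, 0, 0, 0⟩,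
  .add 1 0,
  .mul 3 0,
  .add 21 0,
  .mul 5 0,
  .add 24 0,
  .mul 7 0,
  .scale ⟨549755813888, 0, 0, 0⟩ 0,
  .add 27 0,
  .mul 3 0,
  .mul 31 24,
  .mul 20 15,
  .scale ⟨2199023255552, 0, 0, 0⟩ 19,
  .add 1 0,
  .add 0 35,
  .mul 4 0,
  .add 0 35,
  .mul 26 26,
  .scale ⟨2199023255552, 0, 0, 0⟩ 0,
  .add 0 38,
  .mul 27 5,
  .sub 0 40,
  .log 5,
  .scale ⟨549755813888, 0, 0, 0⟩ 0,
  .exp 0,
  .scale ⟨549755813888, 0, 0, 0⟩ 45,
  .mul 0 3,
  .neg 0,
  .exp 0,
  .mul 36 18,
  .mul 0 8,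
  .scale ⟨4398046511104, 0, 0, 0⟩ 0,
  .add 0 51,
  .log 0,
  .sub 0 11,
  .mul 9 0,
  .neg 0,
  .exp 0,
  .mul 42 47,
  .add 46 0,
  .inv 0,
  .mul 43 0,
  .mul 45 63,
  .mul 0 1,
  .mul 49 49,
  .sub 64 59,
  .mul 1 0,
  .mul 64 64,
  .add 55 37,
  .inv 0,
  .mul 0 70,
  .mul 0 68,
  .mul 0 0,
  .sub 72 8,
  .mul 8 0,
  .mul 2 0,
  .inv 76,
  .const ⟨0, 1099511627776, 0, 0⟩,
  .add 29 77,
  .mul 30 30,
  .add 0 79,
  .mul 32 3,
  .scale ⟨2199023255552, 0, 0, 0⟩ 0,
  .add 2 0,
  .inv 5,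
  .mul 1 0,
  .add 0 7,
  .mul 38 23,
  .scale ⟨549755813888, 0, 0, 0⟩ 0,
  .mul 0 2,
  .sub 6 0,
  .pos 7,
  .pos 0,
  .inv 0,
  .sub 91 43,
  .mul 0 14,
  .mul 0 2,
  .scale ⟨549755813888, 0, 0, 0⟩ 0,
  .add 0 94,
  .inv 0,
  .mul 2 0,
  .mul 35 0,
  .scale ⟨549755813888, 0, 0, 0⟩ 0,
  .sub 100 0,
  .sub 101 2,
  .inv 0,
  .mul 2 0,
  .add 5 104,
  .mul 57 0,
  .mul 90 89,
  .add 95 109,
  .mul 93 96,
  .mul 0 99,
  .scale ⟨2199023255552, 0, 0, 0⟩ 0,
  .add 72 0,
  .mul 4 0,
  .inv 0,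
  .mul 7 0,
  .mul 117 0,
  .inv 80,
  .mul 42 0,
  .add 61 118,
  .mul 62 62,
  .add 0 120,
  .mul 64 44,
  .scale ⟨2199023255552, 0, 0, 0⟩ 0,
  .add 2 0,
  .inv 5,
  .mul 1 0,
  .add 0 7,
  .mul 70 11,
  .scale ⟨549755813888, 0, 0, 0⟩ 0,
  .mul 0 2,
  .sub 6 0,
  .pos 7,
  .pos 0,
  .sub 131 74,
  .mul 0 13,
  .inv 2,
  .mul 1 0,
  .scale ⟨549755813888, 0, 0, 0⟩ 0,
  .add 0 135,
  .inv 0,
  .mul 2 0,
  .mul 23 0,
  .add 136 140,
  .inv 0,
  .mul 138 0,
  .scale ⟨2199023255552, 0, 0, 0⟩ 0,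
  .sub 144 0,
  .sub 145 141,
  .mul 150 4,
  .mul 0 2,
  .add 131 0,
  .mul 150 139,
  .const ⟨5497558138880, 0, 0, 0⟩,
  .inv 0,
  .mul 152 0,
  .mul 154 0,
  .scale ⟨5497558138880, 0, 0, 0⟩ 78,
  .scale ⟨224412041216, 0, 0, 0⟩ 147,
  .inv 127,
  .mul 1 0,
  .mul 4 141,
  .mul 0 1,
  .mul 158 0,
  .sub 161 0,
  .inv 0,
  .mul 57 2,
  .sub 164 0,
  .inv 0,
  .scale ⟨3573412790272, 0, 0, 0⟩ 152,
  .inv 170,
  .scale ⟨339302416384, 0, 0, 0⟩ 0,
  .add 2 0,
  .scale ⟨549755813888, 0, 0, 0⟩ 0,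
  .scale ⟨2199023255552, 0, 0, 0⟩ 95,
  .add 0 172,
  .add 97 173,
  .mul 170 160,
  .sub 175 109,
  .mul 172 161,
  .scale ⟨2199023255552, 0, 0, 0⟩ 0,
  .sub 2 0,
  .mul 4 4,
  .add 1 0,
  .add 0 181,
  .scale ⟨549755813888, 0, 0, 0⟩ 0,
  .scale ⟨549755813888, 0, 0, 0⟩ 153,
  .sub 176 0,
  .mul 118 9,
  .mul 0 179,
  .scale ⟨137438953472, 0, 0, 0⟩ 0,
  .add 3 0,
  .mul 6 0,
  .mul 91 86,
  .const ⟨45814382592, 0, 0, 0⟩,
  .const ⟨1526988800, 0, 0, 0⟩,
  .scale ⟨27279360, 0, 0, 0⟩ 118,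
  .sub 1 0,
  .mul 120 0,
  .sub 4 0,
  .mul 122 0,
  .sub 197 0,
  .mul 124 0,
  .sub 200 0,
  .mul 126 125,
  .mul 0 0,
  .scale ⟨369367187456, 0, 0, 0⟩ 0,
  .add 3 0,
  .mul 157 0,
  .scale ⟨2199023255552, 0, 0, 0⟩ 0,
  .add 127 0,
  .const ⟨8589934592, 0, 0, 0⟩,
  .add 1 0,
  .log 0,
  .scale ⟨549755813888, 0, 0, 0⟩ 0,
  .exp 0,
  .mul 165 114,
  .add 1 0,
  .mul 0 52,
  .mul 110 50,
  .add 1 0,
  .mul 57 0,
  .add 28 0,
  .mul 0 144,
  .mul 6 60,
  .mul 0 59,
  .add 32 0,
  .mul 0 148,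
  .scale ⟨223338299392, 0, 0, 0⟩ 0,
  .add 225 0,
  .mul 2 0,
  .add 228 0,
  .scale ⟨893353197568, 0, 0, 0⟩ 8,
  .add 230 0,
  .mul 10 0,
  .add 232 0,
  .mul 89 86,
  .mul 0 61,
  .mul 0 2,
  .mul 46 7,
  .add 193 236,
  .mul 2 0,
  .add 2 0,
  .add 196 240,
  .mul 5 0,
  .mul 68 1,
  .mul 0 96,
  .mul 0 98,
  .mul 243 96,
  .inv 202,
  .mul 1 0,
  .scale ⟨549755813888, 0, 0, 0⟩ 0,
  .mul 188 81,
  .mul 0 152,
  .mul 0 147,
  .mul 236 3,
  .mul 13 1,
  .mul 9 83,
  .add 1 0,
  .mul 0 180,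
  .add 4 0,
  .mul 18 43,
  .mul 0 96,
  .mul 18 154,
  .mul 0 95,
  .add 2 0,
  .mul 0 187,
  .mul 248 6,
  .mul 105 1,
  .add 1 0,
  .mul 200 0,
  .mul 0 21,
  .sub 269 0,
  .inv 0,
  .mul 4 0,
  .mul 274 0,
  .mul 206 1,
  .mul 0 27,
  .sub 275 0,
  .mul 235 0,
  .sub 0 4,
  .inv 0,
  .mul 6 0,
  .sub 236 6,
  .inv 0,
  .mul 2 143,
  .mul 284 1,
  .mul 145 5,
  .inv 255,
  .mul 1 0,
  .scale ⟨549755813888, 0, 0, 0⟩ 4,
  .sub 288 0,
  .sub 289 6,
  .inv 0,
  .mul 2 0,
  .mul 5 0,
  .add 9 0,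
  .mul 0 20,
  .scale ⟨223338299392, 0, 0, 0⟩ 0,
  .add 295 0,
  .mul 2 0,
  .add 298 0,
  .mul 5 0,
  .mul 0 29,
  .mul 0 225,
  .mul 0 305,
  .mul 0 40,
  .mul 2 149,
  .mul 0 308,
  .inv 289,
  .mul 1 0,
  .mul 309 292,
  .mul 0 60,
  .add 0 56,
  .add 0 56,
  .mul 4 0,
  .mul 159 311,
  .mul 0 297,
  .mul 0 299,
  .const ⟨3298534883328, 0, 0, 0⟩,
  .mul 0 165,
  .add 178 318,
  .mul 179 0,
  .add 265 0,
  .mul 41 0,
  .mul 265 3,
  .scale ⟨687194767360, 0, 0, 0⟩ 1,
  .add 324 0,
  .mul 3 0,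
  .add 326 0,
  .mul 4 0,
  .add 318 330,
  .mul 188 0,
  .mul 0 12,
  .add 331 0,
  .inv 0,
  .mul 5 0,
  .mul 0 321,
  .mul 333 63,
  .mul 0 29,
  .add 337 0,
  .mul 3 0,
  .mul 0 57,
  .mul 342 36,
  .mul 0 180,
  .mul 344 26,
  .mul 30 0,
  .add 2 0,
  .add 4 32,
  .add 346 1,
  .mul 7 0,
  .add 2 0,
  .sub 349 0,
  .scale ⟨1073741824, 0, 0, 0⟩ 352,
  .sub 1 0,
  .sub 339 352,
  .const ⟨2199023255552, 0, 0, 0⟩,
  .add 1 0,
  .scale ⟨2199023255552, 0, 0, 0⟩ 37,
  .sub 1 0,
  .mul 216 0,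
  .mul 5 2,
  .add 0 359,
  .inv 0,
  .mul 3 0,
  .mul 208 98,
  .scale ⟨549755813888, 0, 0, 0⟩ 205,
  .add 354 0,
  .mul 2 0,
  .scale ⟨2199023255552, 0, 0, 0⟩ 0,
  .add 109 0,
  .scale ⟨2199023255552, 0, 0, 0⟩ 0,
  .mul 0 98,
  .sub 353 34,
  .inv 0,
  .mul 2 0,
  .sub 11 0,
  .pos 212,
  .pos 209,
  .scale ⟨2199023255552, 0, 0, 0⟩ 106,
  .sub 331 0,
  .pos 0,
  .pos 98,
  .pos 274,
  .sub 375 236,
  .pos 0,
  .scale ⟨687194767360, 0, 0, 0⟩ 377,
  .sub 0 153,
  .pos 0,
  .scale ⟨377957122048, 0, 0, 0⟩ 379,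
  .sub 0 159,
  .pos 0,
  .pos 10,
  .sub 380 59,
  .pos 0,
  .pos 92,
  .sub 4 87,
  .pos 0,
  .mul 233 233,
  .const ⟨14293651161088, 0, 0, 0⟩,
  .const ⟨10995116277760, 0, 0, 0⟩,
  .inv 0,
  .mul 2 0,
  .mul 4 0,
  .const ⟨27487790694400, 0, 0, 0⟩,
  .add 1 0,
  .mul 250 374,
  .mul 0 74,
  .mul 395 0,
  .add 394 0,
  .inv 0,
  .mul 3 0,
  .sub 365 399,
  .sub 0 367,
  .scale ⟨2199023255552, 0, 0, 0⟩ 397,
  .add 0 126,
  .mul 402 0,
  .mul 11 5,
  .mul 132 1,
  .mul 328 148,
  .mul 400 0,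
  .mul 389 252,
  .mul 0 143,
  .mul 378 0,
  .add 3 0,
  .mul 411 0,
  .mul 7 0,
  .sub 9 0,
  .scale ⟨549755813888, 0, 0, 0⟩ 77,
  .add 414 0,
  .mul 144 0,
  .mul 418 400,
  .mul 0 268,
  .mul 401 374,
  .inv 0,
  .mul 2 0,
  .mul 5 0,
  .sub 23 0,
  .mul 265 10,
  .sub 424 266,
  .mul 420 2,
  .mul 1 0,
  .mul 36 0,
  .add 4 0,
  .pos 55,
  .pos 77,
  .pos 0,
  .pos 6]

def chk8 {α : Type} (cst : Z → α) (add sub mul : α → α → α) (scale : Z → α → α)
    (neg inv exp log : α → α) (ok : α → Bool) (isPos : Nat → α → Bool) (isLt : α → Nat → Bool) :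
    List α → Bool
  | [x0, x1, x2, x3] =>
  let v0 := cst ⟨1099511627776, 0, 0, 0⟩; ok v0 && (
  let v1 := cst ⟨549755813888, 0, 0, 0⟩; ok v1 && (
  let v2 := mul x1 x2; ok v2 && (
  let v3 := mul v2 x3; ok v3 && (
  let v4 := scale ⟨549755813888, 0, 0, 0⟩ v3; ok v4 && (
  let v5 := mul x2 x2; ok v5 && (
  let v6 := mul v4 v4; ok v6 && (
  let v7 := sub v0 v6; ok v7 && (
  let v8 := inv v7; ok v8 && (
  let v9 := mul v4 v8; ok v9 && (
  let v10 := scale ⟨2199023255552, 0, 0, 0⟩ v9; ok v10 && (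
  let v11 := scale ⟨2199023255552, 0, 0, 0⟩ v8; ok v11 && (
  let v12 := sub v11 v0; ok v12 && (
  let v13 := add v12 v10; ok v13 && (
  let v14 := mul x3 v8; ok v14 && (
  let v15 := mul x2 v14; ok v15 && (
  let v16 := sub v0 v15; ok v16 && (
  let v17 := add v0 v15; ok v17 && (
  let v18 := scale ⟨10774999203840, 0, 0, 0⟩ v4; ok v18 && (
  let v19 := scale ⟨45768245248, 0, 0, 0⟩ v18; ok v19 && (
  let v20 := cst ⟨183207198720, 0, 0, 0⟩; ok v20 && (
  let v21 := add v19 v20; ok v21 && (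
  let v22 := mul v18 v21; ok v22 && (
  let v23 := add v1 v22; ok v23 && (
  let v24 := mul v18 v23; ok v24 && (
  let v25 := add v0 v24; ok v25 && (
  let v26 := mul v18 v25; ok v26 && (
  let v27 := scale ⟨549755813888, 0, 0, 0⟩ v26; ok v27 && (
  let v28 := add v0 v27; ok v28 && (
  let v29 := mul v25 v28; ok v29 && (
  let v30 := mul x1 v5; ok v30 && (
  let v31 := mul v10 v15; ok v31 && (
  let v32 := scale ⟨2199023255552, 0, 0, 0⟩ v12; ok v32 && (
  let v33 := add v31 v32; ok v33 && (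
  let v34 := add v33 x1; ok v34 && (
  let v35 := mul v30 v34; ok v35 && (
  let v36 := add v35 v0; ok v36 && (
  let v37 := mul v10 v10; ok v37 && (
  let v38 := scale ⟨2199023255552, 0, 0, 0⟩ v37; ok v38 && (
  let v39 := add v38 v0; ok v39 && (
  let v40 := mul v12 v34; ok v40 && (
  let v41 := sub v40 v0; ok v41 && (
  let v42 := log v36; ok v42 && (
  let v43 := scale ⟨549755813888, 0, 0, 0⟩ v42; ok v43 && (
  let v44 := exp v43; ok v44 && (
  let v45 := scale ⟨549755813888, 0, 0, 0⟩ x0; ok v45 && (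
  let v46 := mul v45 v42; ok v46 && (
  let v47 := neg v46; ok v47 && (
  let v48 := exp v47; ok v48 && (
  let v49 := mul v12 v30; ok v49 && (
  let v50 := mul v49 v41; ok v50 && (
  let v51 := scale ⟨4398046511104, 0, 0, 0⟩ v50; ok v51 && (
  let v52 := add v51 v0; ok v52 && (
  let v53 := log v52; ok v53 && (
  let v54 := sub v53 v42; ok v54 && (
  let v55 := mul v45 v54; ok v55 && (
  let v56 := neg v55; ok v56 && (
  let v57 := exp v56; ok v57 && (
  let v58 := mul v15 v10; ok v58 && (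
  let v59 := add v12 v58; ok v59 && (
  let v60 := inv v59; ok v60 && (
  let v61 := mul v17 v60; ok v61 && (
  let v62 := mul v16 x1; ok v62 && (
  let v63 := mul v62 v61; ok v63 && (
  let v64 := mul v14 v14; ok v64 && (
  let v65 := sub v0 v5; ok v65 && (
  let v66 := mul v64 v65; ok v66 && (
  let v67 := mul v2 v2; ok v67 && (
  let v68 := add v12 v30; ok v68 && (
  let v69 := inv v68; ok v69 && (
  let v70 := mul v69 x0; ok v70 && (
  let v71 := mul v70 v2; ok v71 && (
  let v72 := mul v71 v71; ok v72 && (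
  let v73 := sub v0 v64; ok v73 && (
  let v74 := mul v65 v73; ok v74 && (
  let v75 := mul v72 v74; ok v75 && (
  let v76 := inv x0; ok v76 && (
  let v77 := cst ⟨0, 1099511627776, 0, 0⟩; ok v77 && (
  let v78 := add v48 v0; ok v78 && (
  let v79 := mul v48 v48; ok v79 && (
  let v80 := add v79 v0; ok v80 && (
  let v81 := mul v48 v77; ok v81 && (
  let v82 := scale ⟨2199023255552, 0, 0, 0⟩ v81; ok v82 && (
  let v83 := add v80 v82; ok v83 && (
  let v84 := inv v78; ok v84 && (
  let v85 := mul v83 v84; ok v85 && (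
  let v86 := add v85 v78; ok v86 && (
  let v87 := mul v48 v63; ok v87 && (
  let v88 := scale ⟨549755813888, 0, 0, 0⟩ v87; ok v88 && (
  let v89 := mul v88 v86; ok v89 && (
  let v90 := sub v83 v89; ok v90 && (
  isPos 4 v83 && (
  isPos 4 v90 && (
  let v91 := inv v90; ok v91 && (
  let v92 := sub v0 v48; ok v92 && (
  let v93 := mul v92 v78; ok v93 && (
  let v94 := mul v93 v91; ok v94 && (
  let v95 := scale ⟨549755813888, 0, 0, 0⟩ v94; ok v95 && (
  let v96 := add v95 v1; ok v96 && (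
  let v97 := inv v96; ok v97 && (
  let v98 := mul v95 v97; ok v98 && (
  let v99 := mul v63 v98; ok v99 && (
  let v100 := scale ⟨549755813888, 0, 0, 0⟩ v99; ok v100 && (
  let v101 := sub v0 v100; ok v101 && (
  let v102 := sub v0 v99; ok v102 && (
  let v103 := inv v102; ok v103 && (
  let v104 := mul v101 v103; ok v104 && (
  let v105 := add v99 v0; ok v105 && (
  let v106 := mul v48 v105; ok v106 && (
  let v107 := mul v16 v17; ok v107 && (
  let v108 := add v12 x1; ok v108 && (
  let v109 := mul v15 v12; ok v109 && (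
  let v110 := mul v109 v10; ok v110 && (
  let v111 := scale ⟨2199023255552, 0, 0, 0⟩ v110; ok v111 && (
  let v112 := add v39 v111; ok v112 && (
  let v113 := mul v108 v112; ok v113 && (
  let v114 := inv v113; ok v114 && (
  let v115 := mul v107 v114; ok v115 && (
  let v116 := mul x1 v115; ok v116 && (
  let v117 := inv v36; ok v117 && (
  let v118 := mul v75 v117; ok v118 && (
  let v119 := add v57 v0; ok v119 && (
  let v120 := mul v57 v57; ok v120 && (
  let v121 := add v120 v0; ok v121 && (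
  let v122 := mul v57 v77; ok v122 && (
  let v123 := scale ⟨2199023255552, 0, 0, 0⟩ v122; ok v123 && (
  let v124 := add v121 v123; ok v124 && (
  let v125 := inv v119; ok v125 && (
  let v126 := mul v124 v125; ok v126 && (
  let v127 := add v126 v119; ok v127 && (
  let v128 := mul v57 v116; ok v128 && (
  let v129 := scale ⟨549755813888, 0, 0, 0⟩ v128; ok v129 && (
  let v130 := mul v129 v127; ok v130 && (
  let v131 := sub v124 v130; ok v131 && (
  isPos 4 v124 && (
  isPos 4 v131 && (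
  let v132 := sub v0 v57; ok v132 && (
  let v133 := mul v132 v119; ok v133 && (
  let v134 := inv v131; ok v134 && (
  let v135 := mul v133 v134; ok v135 && (
  let v136 := scale ⟨549755813888, 0, 0, 0⟩ v135; ok v136 && (
  let v137 := add v136 v1; ok v137 && (
  let v138 := inv v137; ok v138 && (
  let v139 := mul v136 v138; ok v139 && (
  let v140 := mul v116 v139; ok v140 && (
  let v141 := add v4 v0; ok v141 && (
  let v142 := inv v141; ok v142 && (
  let v143 := mul v4 v142; ok v143 && (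
  let v144 := scale ⟨2199023255552, 0, 0, 0⟩ v143; ok v144 && (
  let v145 := sub v0 v144; ok v145 && (
  let v146 := sub v0 v4; ok v146 && (
  let v147 := mul x3 v142; ok v147 && (
  let v148 := mul v147 v145; ok v148 && (
  let v149 := add v17 v148; ok v149 && (
  let v150 := mul x0 v10; ok v150 && (
  let v151 := cst ⟨5497558138880, 0, 0, 0⟩; ok v151 && (
  let v152 := inv v151; ok v152 && (
  let v153 := mul v0 v152; ok v153 && (
  let v154 := mul x0 v153; ok v154 && (
  let v155 := scale ⟨5497558138880, 0, 0, 0⟩ v76; ok v155 && (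
  let v156 := scale ⟨224412041216, 0, 0, 0⟩ v8; ok v156 && (
  let v157 := inv v29; ok v157 && (
  let v158 := mul v156 v157; ok v158 && (
  let v159 := mul v154 v17; ok v159 && (
  let v160 := mul v159 v158; ok v160 && (
  let v161 := mul v2 v160; ok v161 && (
  let v162 := sub v0 v161; ok v162 && (
  let v163 := inv v162; ok v163 && (
  let v164 := mul v106 v161; ok v164 && (
  let v165 := sub v0 v164; ok v165 && (
  let v166 := inv v165; ok v166 && (
  let v167 := scale ⟨3573412790272, 0, 0, 0⟩ v14; ok v167 && (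
  let v168 := inv x2; ok v168 && (
  let v169 := scale ⟨339302416384, 0, 0, 0⟩ v168; ok v169 && (
  let v170 := add v167 v169; ok v170 && (
  let v171 := scale ⟨549755813888, 0, 0, 0⟩ v170; ok v171 && (
  let v172 := scale ⟨2199023255552, 0, 0, 0⟩ v76; ok v172 && (
  let v173 := add v172 v0; ok v173 && (
  let v174 := add v76 v0; ok v174 && (
  let v175 := mul v4 v14; ok v175 && (
  let v176 := sub v0 v66; ok v176 && (
  let v177 := mul v4 v15; ok v177 && (
  let v178 := scale ⟨2199023255552, 0, 0, 0⟩ v177; ok v178 && (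
  let v179 := sub v176 v178; ok v179 && (
  let v180 := mul v175 v175; ok v180 && (
  let v181 := add v179 v180; ok v181 && (
  let v182 := add v181 v0; ok v182 && (
  let v183 := scale ⟨549755813888, 0, 0, 0⟩ v182; ok v183 && (
  let v184 := scale ⟨549755813888, 0, 0, 0⟩ v30; ok v184 && (
  let v185 := sub v8 v184; ok v185 && (
  let v186 := mul v67 v176; ok v186 && (
  let v187 := mul v186 v7; ok v187 && (
  let v188 := scale ⟨137438953472, 0, 0, 0⟩ v187; ok v188 && (
  let v189 := add v185 v188; ok v189 && (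
  let v190 := mul v183 v189; ok v190 && (
  let v191 := mul v99 v104; ok v191 && (
  let v192 := cst ⟨45814382592, 0, 0, 0⟩; ok v192 && (
  let v193 := cst ⟨1526988800, 0, 0, 0⟩; ok v193 && (
  let v194 := scale ⟨27279360, 0, 0, 0⟩ v75; ok v194 && (
  let v195 := sub v193 v194; ok v195 && (
  let v196 := mul v75 v195; ok v196 && (
  let v197 := sub v192 v196; ok v197 && (
  let v198 := mul v75 v197; ok v198 && (
  let v199 := sub v1 v198; ok v199 && (
  let v200 := mul v75 v199; ok v200 && (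
  let v201 := sub v0 v200; ok v201 && (
  let v202 := mul v75 v76; ok v202 && (
  let v203 := mul v202 v202; ok v203 && (
  let v204 := scale ⟨369367187456, 0, 0, 0⟩ v203; ok v204 && (
  let v205 := add v201 v204; ok v205 && (
  let v206 := mul v48 v205; ok v206 && (
  let v207 := scale ⟨2199023255552, 0, 0, 0⟩ v206; ok v207 && (
  let v208 := add v80 v207; ok v208 && (
  let v209 := cst ⟨8589934592, 0, 0, 0⟩; ok v209 && (
  let v210 := add v208 v209; ok v210 && (
  let v211 := log v210; ok v211 && (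
  let v212 := scale ⟨549755813888, 0, 0, 0⟩ v211; ok v212 && (
  let v213 := exp v212; ok v213 && (
  let v214 := mul v48 v99; ok v214 && (
  let v215 := add v213 v214; ok v215 && (
  let v216 := mul v215 v163; ok v216 && (
  let v217 := mul v106 v166; ok v217 && (
  let v218 := add v216 v217; ok v218 && (
  let v219 := mul v161 v218; ok v219 && (
  let v220 := add v191 v219; ok v220 && (
  let v221 := mul v220 v76; ok v221 && (
  let v222 := mul v215 v161; ok v222 && (
  let v223 := mul v222 v163; ok v223 && (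
  let v224 := add v191 v223; ok v224 && (
  let v225 := mul v224 v76; ok v225 && (
  let v226 := scale ⟨223338299392, 0, 0, 0⟩ v225; ok v226 && (
  let v227 := add v1 v226; ok v227 && (
  let v228 := mul v225 v227; ok v228 && (
  let v229 := add v0 v228; ok v229 && (
  let v230 := scale ⟨893353197568, 0, 0, 0⟩ v221; ok v230 && (
  let v231 := add v0 v230; ok v231 && (
  let v232 := mul v221 v231; ok v232 && (
  let v233 := add v0 v232; ok v233 && (
  let v234 := mul v144 v147; ok v234 && (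
  let v235 := mul v234 v173; ok v235 && (
  let v236 := mul v235 v233; ok v236 && (
  let v237 := mul v190 v229; ok v237 && (
  let v238 := add v44 v1; ok v238 && (
  let v239 := mul v236 v238; ok v239 && (
  let v240 := add v237 v239; ok v240 && (
  let v241 := add v44 v0; ok v241 && (
  let v242 := mul v236 v241; ok v242 && (
  let v243 := mul v174 v241; ok v243 && (
  let v244 := mul v243 v147; ok v244 && (
  let v245 := mul v244 v146; ok v245 && (
  let v246 := mul v2 v149; ok v246 && (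
  let v247 := inv v44; ok v247 && (
  let v248 := mul v246 v247; ok v248 && (
  let v249 := scale ⟨549755813888, 0, 0, 0⟩ v248; ok v249 && (
  let v250 := mul v61 v168; ok v250 && (
  let v251 := mul v250 v98; ok v251 && (
  let v252 := mul v251 v104; ok v252 && (
  let v253 := mul v16 v249; ok v253 && (
  let v254 := mul v240 v252; ok v254 && (
  let v255 := mul v245 v171; ok v255 && (
  let v256 := add v254 v255; ok v256 && (
  let v257 := mul v256 v76; ok v257 && (
  let v258 := add v253 v257; ok v258 && (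
  let v259 := mul v240 v215; ok v259 && (
  let v260 := mul v259 v163; ok v260 && (
  let v261 := mul v242 v106; ok v261 && (
  let v262 := mul v261 v166; ok v262 && (
  let v263 := add v260 v262; ok v263 && (
  let v264 := mul v263 v76; ok v264 && (
  let v265 := mul v16 v258; ok v265 && (
  let v266 := mul v160 v264; ok v266 && (
  let v267 := add v265 v266; ok v267 && (
  let v268 := mul v67 v267; ok v268 && (
  let v269 := mul v268 v247; ok v269 && (
  let v270 := sub v0 v269; ok v270 && (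
  let v271 := inv v270; ok v271 && (
  let v272 := mul v267 v271; ok v272 && (
  let v273 := mul x1 v272; ok v273 && (
  let v274 := mul v67 v272; ok v274 && (
  let v275 := mul v274 v247; ok v275 && (
  let v276 := sub v0 v275; ok v276 && (
  let v277 := mul v41 v276; ok v277 && (
  let v278 := sub v277 v273; ok v278 && (
  let v279 := inv v278; ok v279 && (
  let v280 := mul v273 v279; ok v280 && (
  let v281 := sub v44 v274; ok v281 && (
  let v282 := inv v281; ok v282 && (
  let v283 := mul v280 v139; ok v283 && (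
  let v284 := mul x0 v282; ok v284 && (
  let v285 := mul v139 v279; ok v285 && (
  let v286 := inv v30; ok v286 && (
  let v287 := mul v285 v286; ok v287 && (
  let v288 := scale ⟨549755813888, 0, 0, 0⟩ v283; ok v288 && (
  let v289 := sub v0 v288; ok v289 && (
  let v290 := sub v0 v283; ok v290 && (
  let v291 := inv v290; ok v291 && (
  let v292 := mul v289 v291; ok v292 && (
  let v293 := mul v287 v292; ok v293 && (
  let v294 := add v284 v293; ok v294 && (
  let v295 := mul v294 v274; ok v295 && (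
  let v296 := scale ⟨223338299392, 0, 0, 0⟩ v295; ok v296 && (
  let v297 := add v1 v296; ok v297 && (
  let v298 := mul v295 v297; ok v298 && (
  let v299 := add v0 v298; ok v299 && (
  let v300 := mul v294 v299; ok v300 && (
  let v301 := mul v300 v271; ok v301 && (
  let v302 := mul v301 v76; ok v302 && (
  let v303 := mul v302 x2; ok v303 && (
  let v304 := mul v303 v263; ok v304 && (
  let v305 := mul v302 v155; ok v305 && (
  let v306 := mul v305 x2; ok v306 && (
  let v307 := inv v17; ok v307 && (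
  let v308 := mul v306 v307; ok v308 && (
  let v309 := mul x0 v16; ok v309 && (
  let v310 := mul v309 v249; ok v310 && (
  let v311 := add v310 v254; ok v311 && (
  let v312 := add v311 v255; ok v312 && (
  let v313 := mul v308 v312; ok v313 && (
  let v314 := mul v154 v2; ok v314 && (
  let v315 := mul v314 v17; ok v315 && (
  let v316 := mul v315 v16; ok v316 && (
  let v317 := cst ⟨3298534883328, 0, 0, 0⟩; ok v317 && (
  let v318 := mul v317 v152; ok v318 && (
  let v319 := add v140 v0; ok v319 && (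
  let v320 := mul v140 v319; ok v320 && (
  let v321 := add v55 v320; ok v321 && (
  let v322 := mul v280 v321; ok v322 && (
  let v323 := mul v57 v319; ok v323 && (
  let v324 := scale ⟨687194767360, 0, 0, 0⟩ v322; ok v324 && (
  let v325 := add v0 v324; ok v325 && (
  let v326 := mul v322 v325; ok v326 && (
  let v327 := add v0 v326; ok v327 && (
  let v328 := mul v323 v327; ok v328 && (
  let v329 := add v10 x1; ok v329 && (
  let v330 := mul v141 v329; ok v330 && (
  let v331 := mul v330 v318; ok v331 && (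
  let v332 := add v0 v331; ok v332 && (
  let v333 := inv v332; ok v333 && (
  let v334 := mul v328 v333; ok v334 && (
  let v335 := mul v334 v13; ok v335 && (
  let v336 := mul v2 v272; ok v336 && (
  let v337 := mul v336 v307; ok v337 && (
  let v338 := add v0 v337; ok v338 && (
  let v339 := mul v335 v338; ok v339 && (
  let v340 := mul v339 v282; ok v340 && (
  let v341 := mul x1 v304; ok v341 && (
  let v342 := mul v341 v161; ok v342 && (
  let v343 := mul x1 v316; ok v343 && (
  let v344 := mul v313 v343; ok v344 && (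
  let v345 := add v342 v344; ok v345 && (
  let v346 := add v341 v313; ok v346 && (
  let v347 := add v0 v345; ok v347 && (
  let v348 := mul v340 v347; ok v348 && (
  let v349 := add v346 v348; ok v349 && (
  let v350 := sub v0 v349; ok v350 && (
  let v351 := scale ⟨1073741824, 0, 0, 0⟩ x1; ok v351 && (
  let v352 := sub v350 v351; ok v352 && (
  let v353 := sub v13 v0; ok v353 && (
  let v354 := cst ⟨2199023255552, 0, 0, 0⟩; ok v354 && (
  let v355 := add v353 v354; ok v355 && (
  let v356 := scale ⟨2199023255552, 0, 0, 0⟩ v318; ok v356 && (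
  let v357 := sub v355 v356; ok v357 && (
  let v358 := mul v141 v357; ok v358 && (
  let v359 := mul v353 v356; ok v359 && (
  let v360 := add v359 v0; ok v360 && (
  let v361 := inv v360; ok v361 && (
  let v362 := mul v358 v361; ok v362 && (
  let v363 := mul v154 v264; ok v363 && (
  let v364 := scale ⟨549755813888, 0, 0, 0⟩ v158; ok v364 && (
  let v365 := add v10 v364; ok v365 && (
  let v366 := mul v363 v365; ok v366 && (
  let v367 := scale ⟨2199023255552, 0, 0, 0⟩ v366; ok v367 && (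
  let v368 := add v258 v367; ok v368 && (
  let v369 := scale ⟨2199023255552, 0, 0, 0⟩ v368; ok v369 && (
  let v370 := mul v369 v271; ok v370 && (
  let v371 := sub v17 v336; ok v371 && (
  let v372 := inv v371; ok v372 && (
  let v373 := mul v370 v372; ok v373 && (
  let v374 := sub v362 v373; ok v374 && (
  isPos 4 v162 && (
  isPos 4 v165 && (
  let v375 := scale ⟨2199023255552, 0, 0, 0⟩ v268; ok v375 && (
  let v376 := sub v44 v375; ok v376 && (
  isPos 4 v376 && (
  isPos 4 v278 && (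
  isPos 4 v102 && (
  let v377 := sub v1 v140; ok v377 && (
  isPos 4 v377 && (
  let v378 := scale ⟨687194767360, 0, 0, 0⟩ v0; ok v378 && (
  let v379 := sub v378 v225; ok v379 && (
  isPos 4 v379 && (
  let v380 := scale ⟨377957122048, 0, 0, 0⟩ v0; ok v380 && (
  let v381 := sub v380 v221; ok v381 && (
  isPos 4 v381 && (
  isPos 4 v371 && (
  let v382 := sub v1 v322; ok v382 && (
  isPos 4 v382 && (
  isPos 4 v290 && (
  let v383 := sub v378 v295; ok v383 && (
  isPos 4 v383 && (
  let v384 := mul v150 v150; ok v384 && (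
  let v385 := cst ⟨14293651161088, 0, 0, 0⟩; ok v385 && (
  let v386 := cst ⟨10995116277760, 0, 0, 0⟩; ok v386 && (
  let v387 := inv v386; ok v387 && (
  let v388 := mul v385 v387; ok v388 && (
  let v389 := mul v384 v388; ok v389 && (
  let v390 := cst ⟨27487790694400, 0, 0, 0⟩; ok v390 && (
  let v391 := add v389 v390; ok v391 && (
  let v392 := mul v141 v17; ok v392 && (
  let v393 := mul v392 v318; ok v393 && (
  let v394 := mul x1 v393; ok v394 && (
  let v395 := add v0 v394; ok v395 && (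
  let v396 := inv v395; ok v396 && (
  let v397 := mul v393 v396; ok v397 && (
  let v398 := sub v32 x1; ok v398 && (
  let v399 := sub v398 v31; ok v399 && (
  let v400 := scale ⟨2199023255552, 0, 0, 0⟩ v2; ok v400 && (
  let v401 := add v400 v274; ok v401 && (
  let v402 := mul x0 v401; ok v402 && (
  let v403 := mul v391 v397; ok v403 && (
  let v404 := mul v271 v402; ok v404 && (
  let v405 := mul v76 v256; ok v405 && (
  let v406 := mul v5 v405; ok v406 && (
  let v407 := mul v17 v154; ok v407 && (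
  let v408 := mul v407 v264; ok v408 && (
  let v409 := mul v30 v408; ok v409 && (
  let v410 := add v406 v409; ok v410 && (
  let v411 := mul x0 v410; ok v411 && (
  let v412 := mul v404 v411; ok v412 && (
  let v413 := sub v403 v412; ok v413 && (
  let v414 := scale ⟨549755813888, 0, 0, 0⟩ v336; ok v414 && (
  let v415 := add v0 v414; ok v415 && (
  let v416 := mul v271 v415; ok v416 && (
  let v417 := mul x1 v16; ok v417 && (
  let v418 := mul v417 v149; ok v418 && (
  let v419 := mul v17 v44; ok v419 && (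
  let v420 := inv v419; ok v420 && (
  let v421 := mul v418 v420; ok v421 && (
  let v422 := mul v416 v421; ok v422 && (
  let v423 := sub v399 v422; ok v423 && (
  let v424 := mul v158 v413; ok v424 && (
  let v425 := sub v0 v158; ok v425 && (
  let v426 := mul v5 v423; ok v426 && (
  let v427 := mul v425 v426; ok v427 && (
  let v428 := mul v391 v427; ok v428 && (
  let v429 := add v424 v428; ok v429 && (
  isPos 4 v374 && (
  isPos 4 v352 && (
  isPos 4 v429 && (
  isPos 4 v423 && (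
  true))))))))))))))))))))))))))))))))))))))))))))))))))))))))))))))))))))))))))))))))))))))))))))))))))))))))))))))))))))))))))))))))))))))))))))))))))))))))))))))))))))))))))))))))))))))))))))))))))))))))))))))))))))))))))))))))))))))))))))))))))))))))))))))))))))))))))))))))))))))))))))))))))))))))))))))))))))))))))))))))))))))))))))))))))))))))))))))))))))))))))))))))))))))))))))))))))))))))))))))))))))))))))))))))))))))))))))))))))))))))))))))))))
  | _ => false

set_option maxRecDepth 1000000 in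
theorem chk8_eq (O : Ops) (m : List O.α)
    (h : chk8 O.cst O.add O.sub O.mul O.scale O.neg O.inv O.exp O.log O.ok O.isPos O.isLt m = true) :
    runG O 4 prog8 m = true := by
  match m, h with
  | [x0, x1, x2, x3], h => exact h

def chkB8 : List opsE.α → Bool :=
  chk8 opsE.cst opsE.add opsE.sub opsE.mul opsE.scale opsE.neg opsE.inv opsE.exp opsE.log opsE.ok opsE.isPos opsE.isLt

theorem chkB8_eq (m : List opsE.α) (h : chkB8 m = true) : runG opsE 4 prog8 m = true :=
  chk8_eq opsE m h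

def prog9 : List Op := [
  .const ⟨1099511627776, 0, 0, 0⟩,
  .const ⟨549755813888, 0, 0, 0⟩,
  .mul 3 4,
  .mul 0 6,
  .scale ⟨549755813888, 0, 0, 0⟩ 0,
  .mul 7 7,
  .mul 1 1,
  .sub 6 0,
  .inv 0,
  .mul 4 0,
  .scale ⟨2199023255552, 0, 0, 0⟩ 0,
  .scale ⟨2199023255552, 0, 0, 0⟩ 2,
  .sub 0 11,
  .add 0 2,
  .mul 17 5,
  .mul 17 0,
  .sub 15 0,
  .add 16 1,
  .scale ⟨10774999203840, 0, 0, 0⟩ 13,
  .scale ⟨45768245248, 0, 0, 0⟩ 0,
  .const ⟨183207198720, 0, 0, 0⟩,
  .add 1 0,
  .mul 3 0,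
  .add 21 0,
  .mul 5 0,
  .add 24 0,
  .mul 7 0,
  .scale ⟨549755813888, 0, 0, 0⟩ 0,
  .add 27 0,
  .mul 3 0,
  .mul 31 24,
  .mul 20 15,
  .scale ⟨2199023255552, 0, 0, 0⟩ 19,
  .add 1 0,
  .add 0 35,
  .mul 4 0,
  .add 0 35,
  .mul 26 26,
  .scale ⟨2199023255552, 0, 0, 0⟩ 0,
  .add 0 38,
  .mul 27 5,
  .sub 0 40,
  .log 5,
  .scale ⟨549755813888, 0, 0, 0⟩ 0,
  .exp 0,
  .scale ⟨549755813888, 0, 0, 0⟩ 45,
  .mul 0 3,
  .neg 0,
  .exp 0,
  .mul 36 18,
  .mul 0 8,
  .scale ⟨4398046511104, 0, 0, 0⟩ 0,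
  .add 0 51,
  .log 0,
  .sub 0 11,
  .mul 9 0,
  .neg 0,
  .exp 0,
  .mul 42 47,
  .add 46 0,
  .inv 0,
  .mul 43 0,
  .mul 45 63,
  .mul 0 1,
  .mul 49 49,
  .sub 64 59,
  .mul 1 0,
  .mul 64 64,
  .add 55 37,
  .inv 0,
  .mul 0 70,
  .mul 0 68,
  .mul 0 0,
  .sub 72 8,
  .mul 8 0,
  .mul 2 0,
  .inv 76,
  .mul 13 76,
  .scale ⟨549755813888, 0, 0, 0⟩ 0,
  .sub 78 0,
  .sub 79 2,
  .inv 0,
  .mul 2 0,
  .add 5 82,
  .mul 35 0,
  .mul 68 67,
  .add 73 87,
  .mul 71 74,
  .mul 0 77,
  .scale ⟨2199023255552, 0, 0, 0⟩ 0,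
  .add 50 0,
  .mul 4 0,
  .inv 0,
  .mul 7 0,
  .mul 95 0,
  .inv 58,
  .mul 20 0,
  .mul 2 96,
  .add 93 97,
  .inv 0,
  .mul 95 0,
  .scale ⟨2199023255552, 0, 0, 0⟩ 0,
  .sub 101 0,
  .sub 102 98,
  .mul 107 4,
  .mul 0 2,
  .add 88 0,
  .mul 107 96,
  .const ⟨5497558138880, 0, 0, 0⟩,
  .inv 0,
  .mul 109 0,
  .mul 111 0,
  .scale ⟨5497558138880, 0, 0, 0⟩ 35,
  .scale ⟨224412041216, 0, 0, 0⟩ 104,
  .inv 84,
  .mul 1 0,
  .mul 4 98,
  .mul 0 1,
  .mul 115 0,
  .sub 118 0,
  .inv 0,
  .mul 36 2,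
  .sub 121 0,
  .inv 0,
  .scale ⟨3573412790272, 0, 0, 0⟩ 109,
  .inv 127,
  .scale ⟨339302416384, 0, 0, 0⟩ 0,
  .add 2 0,
  .scale ⟨549755813888, 0, 0, 0⟩ 0,
  .scale ⟨2199023255552, 0, 0, 0⟩ 52,
  .add 0 129,
  .add 54 130,
  .mul 127 117,
  .sub 132 66,
  .mul 129 118,
  .scale ⟨2199023255552, 0, 0, 0⟩ 0,
  .sub 2 0,
  .mul 4 4,
  .add 1 0,
  .add 0 138,
  .scale ⟨549755813888, 0, 0, 0⟩ 0,
  .scale ⟨549755813888, 0, 0, 0⟩ 110,
  .sub 133 0,
  .mul 75 9,
  .mul 0 136,
  .scale ⟨137438953472, 0, 0, 0⟩ 0,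
  .add 3 0,
  .mul 6 0,
  .mul 70 65,
  .const ⟨45814382592, 0, 0, 0⟩,
  .const ⟨1526988800, 0, 0, 0⟩,
  .scale ⟨27279360, 0, 0, 0⟩ 75,
  .sub 1 0,
  .mul 77 0,
  .sub 4 0,
  .mul 79 0,
  .sub 154 0,
  .mul 81 0,
  .sub 157 0,
  .mul 83 82,
  .mul 111 111,
  .add 0 160,
  .mul 2 2,
  .scale ⟨369367187456, 0, 0, 0⟩ 0,
  .add 5 0,
  .mul 116 0,
  .scale ⟨2199023255552, 0, 0, 0⟩ 0,
  .add 5 0,
  .const ⟨8589934592, 0, 0, 0⟩,
  .add 1 0,
  .log 0,
  .scale ⟨549755813888, 0, 0, 0⟩ 0,
  .exp 0,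
  .mul 124 95,
  .add 1 0,
  .mul 0 54,
  .mul 91 52,
  .add 1 0,
  .mul 59 0,
  .add 30 0,
  .mul 0 103,
  .mul 6 62,
  .mul 0 61,
  .add 34 0,
  .mul 0 107,
  .scale ⟨223338299392, 0, 0, 0⟩ 0,
  .add 184 0,
  .mul 2 0,
  .add 187 0,
  .scale ⟨893353197568, 0, 0, 0⟩ 8,
  .add 189 0,
  .mul 10 0,
  .add 191 0,
  .mul 91 88,
  .mul 0 63,
  .mul 0 2,
  .mul 48 7,
  .add 152 195,
  .mul 2 0,
  .add 2 0,
  .add 155 199,
  .mul 5 0,
  .mul 70 1,
  .mul 0 98,
  .mul 0 100,
  .mul 202 98,
  .inv 161,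
  .mul 1 0,
  .scale ⟨549755813888, 0, 0, 0⟩ 0,
  .mul 147 83,
  .mul 0 209,
  .mul 0 128,
  .mul 195 3,
  .mul 13 1,
  .mul 9 85,
  .add 1 0,
  .mul 0 139,
  .add 4 0,
  .mul 18 43,
  .mul 0 98,
  .mul 18 135,
  .mul 0 97,
  .add 2 0,
  .mul 0 146,
  .mul 207 6,
  .mul 107 1,
  .add 1 0,
  .mul 159 0,
  .mul 0 21,
  .sub 228 0,
  .inv 0,
  .mul 4 0,
  .mul 233 0,
  .mul 165 1,
  .mul 0 27,
  .sub 234 0,
  .mul 194 0,
  .sub 0 4,
  .inv 0,
  .mul 6 0,
  .sub 195 6,
  .inv 0,
  .mul 2 241,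
  .mul 243 1,
  .mul 243 5,
  .inv 214,
  .mul 1 0,
  .scale ⟨549755813888, 0, 0, 0⟩ 4,
  .sub 247 0,
  .sub 248 6,
  .inv 0,
  .mul 2 0,
  .mul 5 0,
  .add 9 0,
  .mul 0 20,
  .scale ⟨223338299392, 0, 0, 0⟩ 0,
  .add 254 0,
  .mul 2 0,
  .add 257 0,
  .mul 5 0,
  .mul 0 29,
  .mul 0 184,
  .mul 0 264,
  .mul 0 40,
  .mul 2 151,
  .mul 0 267,
  .inv 248,
  .mul 1 0,
  .mul 268 251,
  .mul 0 60,
  .add 0 56,
  .add 0 56,
  .mul 4 0,
  .mul 161 270,
  .mul 0 256,
  .mul 0 258,
  .const ⟨3298534883328, 0, 0, 0⟩,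
  .mul 0 167,
  .add 180 277,
  .mul 181 0,
  .add 224 0,
  .mul 41 0,
  .mul 224 3,
  .scale ⟨687194767360, 0, 0, 0⟩ 1,
  .add 283 0,
  .mul 3 0,
  .add 285 0,
  .mul 4 0,
  .add 277 289,
  .mul 190 0,
  .mul 0 12,
  .add 290 0,
  .inv 0,
  .mul 5 0,
  .mul 0 280,
  .mul 292 63,
  .mul 0 29,
  .add 296 0,
  .mul 3 0,
  .mul 0 57,
  .mul 301 36,
  .mul 0 182,
  .mul 303 26,
  .mul 30 0,
  .add 2 0,
  .add 4 32,
  .add 305 1,
  .mul 7 0,
  .add 2 0,
  .sub 308 0,
  .scale ⟨1073741824, 0, 0, 0⟩ 311,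
  .sub 1 0,
  .sub 298 311,
  .const ⟨2199023255552, 0, 0, 0⟩,
  .add 1 0,
  .scale ⟨2199023255552, 0, 0, 0⟩ 37,
  .sub 1 0,
  .mul 218 0,
  .mul 5 2,
  .add 0 318,
  .inv 0,
  .mul 3 0,
  .mul 210 98,
  .scale ⟨549755813888, 0, 0, 0⟩ 207,
  .add 313 0,
  .mul 2 0,
  .scale ⟨2199023255552, 0, 0, 0⟩ 0,
  .add 109 0,
  .scale ⟨2199023255552, 0, 0, 0⟩ 0,
  .mul 0 98,
  .sub 312 34,
  .inv 0,
  .mul 2 0,
  .sub 11 0,
  .pos 214,
  .pos 211,
  .scale ⟨2199023255552, 0, 0, 0⟩ 106,
  .sub 290 0,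
  .pos 0,
  .pos 98,
  .pos 255,
  .sub 334 238,
  .pos 0,
  .scale ⟨687194767360, 0, 0, 0⟩ 336,
  .sub 0 153,
  .pos 0,
  .scale ⟨377957122048, 0, 0, 0⟩ 338,
  .sub 0 159,
  .pos 0,
  .pos 10,
  .sub 339 59,
  .pos 0,
  .pos 92,
  .sub 4 87,
  .pos 0,
  .mul 235 235,
  .const ⟨14293651161088, 0, 0, 0⟩,
  .const ⟨10995116277760, 0, 0, 0⟩,
  .inv 0,
  .mul 2 0,
  .mul 4 0,
  .const ⟨27487790694400, 0, 0, 0⟩,
  .add 1 0,
  .mul 252 333,
  .mul 0 74,
  .mul 354 0,
  .add 353 0,
  .inv 0,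
  .mul 3 0,
  .sub 324 358,
  .sub 0 326,
  .scale ⟨2199023255552, 0, 0, 0⟩ 356,
  .add 0 126,
  .mul 361 0,
  .mul 11 5,
  .mul 132 1,
  .mul 287 148,
  .mul 359 0,
  .mul 348 254,
  .mul 0 143,
  .mul 337 0,
  .add 3 0,
  .mul 370 0,
  .mul 7 0,
  .sub 9 0,
  .scale ⟨549755813888, 0, 0, 0⟩ 77,
  .add 373 0,
  .mul 144 0,
  .mul 377 359,
  .mul 0 270,
  .mul 360 333,
  .inv 0,
  .mul 2 0,
  .mul 5 0,
  .sub 23 0,
  .mul 267 10,
  .sub 383 268,
  .mul 379 2,
  .mul 1 0,
  .mul 36 0,
  .add 4 0,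
  .pos 55,
  .pos 77,
  .pos 0,
  .pos 6]

def chk9 {α : Type} (cst : Z → α) (add sub mul : α → α → α) (scale : Z → α → α)
    (neg inv exp log : α → α) (ok : α → Bool) (isPos : Nat → α → Bool) (isLt : α → Nat → Bool) :
    List α → Bool
  | [x0, x1, x2, x3] =>
  let v0 := cst ⟨1099511627776, 0, 0, 0⟩; ok v0 && (
  let v1 := cst ⟨549755813888, 0, 0, 0⟩; ok v1 && (
  let v2 := mul x1 x2; ok v2 && (
  let v3 := mul v2 x3; ok v3 && (
  let v4 := scale ⟨549755813888, 0, 0, 0⟩ v3; ok v4 && (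
  let v5 := mul x2 x2; ok v5 && (
  let v6 := mul v4 v4; ok v6 && (
  let v7 := sub v0 v6; ok v7 && (
  let v8 := inv v7; ok v8 && (
  let v9 := mul v4 v8; ok v9 && (
  let v10 := scale ⟨2199023255552, 0, 0, 0⟩ v9; ok v10 && (
  let v11 := scale ⟨2199023255552, 0, 0, 0⟩ v8; ok v11 && (
  let v12 := sub v11 v0; ok v12 && (
  let v13 := add v12 v10; ok v13 && (
  let v14 := mul x3 v8; ok v14 && (
  let v15 := mul x2 v14; ok v15 && (
  let v16 := sub v0 v15; ok v16 && (
  let v17 := add v0 v15; ok v17 && (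
  let v18 := scale ⟨10774999203840, 0, 0, 0⟩ v4; ok v18 && (
  let v19 := scale ⟨45768245248, 0, 0, 0⟩ v18; ok v19 && (
  let v20 := cst ⟨183207198720, 0, 0, 0⟩; ok v20 && (
  let v21 := add v19 v20; ok v21 && (
  let v22 := mul v18 v21; ok v22 && (
  let v23 := add v1 v22; ok v23 && (
  let v24 := mul v18 v23; ok v24 && (
  let v25 := add v0 v24; ok v25 && (
  let v26 := mul v18 v25; ok v26 && (
  let v27 := scale ⟨549755813888, 0, 0, 0⟩ v26; ok v27 && (
  let v28 := add v0 v27; ok v28 && (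
  let v29 := mul v25 v28; ok v29 && (
  let v30 := mul x1 v5; ok v30 && (
  let v31 := mul v10 v15; ok v31 && (
  let v32 := scale ⟨2199023255552, 0, 0, 0⟩ v12; ok v32 && (
  let v33 := add v31 v32; ok v33 && (
  let v34 := add v33 x1; ok v34 && (
  let v35 := mul v30 v34; ok v35 && (
  let v36 := add v35 v0; ok v36 && (
  let v37 := mul v10 v10; ok v37 && (
  let v38 := scale ⟨2199023255552, 0, 0, 0⟩ v37; ok v38 && (
  let v39 := add v38 v0; ok v39 && (
  let v40 := mul v12 v34; ok v40 && (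
  let v41 := sub v40 v0; ok v41 && (
  let v42 := log v36; ok v42 && (
  let v43 := scale ⟨549755813888, 0, 0, 0⟩ v42; ok v43 && (
  let v44 := exp v43; ok v44 && (
  let v45 := scale ⟨549755813888, 0, 0, 0⟩ x0; ok v45 && (
  let v46 := mul v45 v42; ok v46 && (
  let v47 := neg v46; ok v47 && (
  let v48 := exp v47; ok v48 && (
  let v49 := mul v12 v30; ok v49 && (
  let v50 := mul v49 v41; ok v50 && (
  let v51 := scale ⟨4398046511104, 0, 0, 0⟩ v50; ok v51 && (
  let v52 := add v51 v0; ok v52 && (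
  let v53 := log v52; ok v53 && (
  let v54 := sub v53 v42; ok v54 && (
  let v55 := mul v45 v54; ok v55 && (
  let v56 := neg v55; ok v56 && (
  let v57 := exp v56; ok v57 && (
  let v58 := mul v15 v10; ok v58 && (
  let v59 := add v12 v58; ok v59 && (
  let v60 := inv v59; ok v60 && (
  let v61 := mul v17 v60; ok v61 && (
  let v62 := mul v16 x1; ok v62 && (
  let v63 := mul v62 v61; ok v63 && (
  let v64 := mul v14 v14; ok v64 && (
  let v65 := sub v0 v5; ok v65 && (
  let v66 := mul v64 v65; ok v66 && (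
  let v67 := mul v2 v2; ok v67 && (
  let v68 := add v12 v30; ok v68 && (
  let v69 := inv v68; ok v69 && (
  let v70 := mul v69 x0; ok v70 && (
  let v71 := mul v70 v2; ok v71 && (
  let v72 := mul v71 v71; ok v72 && (
  let v73 := sub v0 v64; ok v73 && (
  let v74 := mul v65 v73; ok v74 && (
  let v75 := mul v72 v74; ok v75 && (
  let v76 := inv x0; ok v76 && (
  let v77 := mul v63 v0; ok v77 && (
  let v78 := scale ⟨549755813888, 0, 0, 0⟩ v77; ok v78 && (
  let v79 := sub v0 v78; ok v79 && (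
  let v80 := sub v0 v77; ok v80 && (
  let v81 := inv v80; ok v81 && (
  let v82 := mul v79 v81; ok v82 && (
  let v83 := add v77 v0; ok v83 && (
  let v84 := mul v48 v83; ok v84 && (
  let v85 := mul v16 v17; ok v85 && (
  let v86 := add v12 x1; ok v86 && (
  let v87 := mul v15 v12; ok v87 && (
  let v88 := mul v87 v10; ok v88 && (
  let v89 := scale ⟨2199023255552, 0, 0, 0⟩ v88; ok v89 && (
  let v90 := add v39 v89; ok v90 && (
  let v91 := mul v86 v90; ok v91 && (
  let v92 := inv v91; ok v92 && (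
  let v93 := mul v85 v92; ok v93 && (
  let v94 := mul x1 v93; ok v94 && (
  let v95 := inv v36; ok v95 && (
  let v96 := mul v75 v95; ok v96 && (
  let v97 := mul v94 v0; ok v97 && (
  let v98 := add v4 v0; ok v98 && (
  let v99 := inv v98; ok v99 && (
  let v100 := mul v4 v99; ok v100 && (
  let v101 := scale ⟨2199023255552, 0, 0, 0⟩ v100; ok v101 && (
  let v102 := sub v0 v101; ok v102 && (
  let v103 := sub v0 v4; ok v103 && (
  let v104 := mul x3 v99; ok v104 && (
  let v105 := mul v104 v102; ok v105 && (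
  let v106 := add v17 v105; ok v106 && (
  let v107 := mul x0 v10; ok v107 && (
  let v108 := cst ⟨5497558138880, 0, 0, 0⟩; ok v108 && (
  let v109 := inv v108; ok v109 && (
  let v110 := mul v0 v109; ok v110 && (
  let v111 := mul x0 v110; ok v111 && (
  let v112 := scale ⟨5497558138880, 0, 0, 0⟩ v76; ok v112 && (
  let v113 := scale ⟨224412041216, 0, 0, 0⟩ v8; ok v113 && (
  let v114 := inv v29; ok v114 && (
  let v115 := mul v113 v114; ok v115 && (
  let v116 := mul v111 v17; ok v116 && (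
  let v117 := mul v116 v115; ok v117 && (
  let v118 := mul v2 v117; ok v118 && (
  let v119 := sub v0 v118; ok v119 && (
  let v120 := inv v119; ok v120 && (
  let v121 := mul v84 v118; ok v121 && (
  let v122 := sub v0 v121; ok v122 && (
  let v123 := inv v122; ok v123 && (
  let v124 := scale ⟨3573412790272, 0, 0, 0⟩ v14; ok v124 && (
  let v125 := inv x2; ok v125 && (
  let v126 := scale ⟨339302416384, 0, 0, 0⟩ v125; ok v126 && (
  let v127 := add v124 v126; ok v127 && (
  let v128 := scale ⟨549755813888, 0, 0, 0⟩ v127; ok v128 && (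
  let v129 := scale ⟨2199023255552, 0, 0, 0⟩ v76; ok v129 && (
  let v130 := add v129 v0; ok v130 && (
  let v131 := add v76 v0; ok v131 && (
  let v132 := mul v4 v14; ok v132 && (
  let v133 := sub v0 v66; ok v133 && (
  let v134 := mul v4 v15; ok v134 && (
  let v135 := scale ⟨2199023255552, 0, 0, 0⟩ v134; ok v135 && (
  let v136 := sub v133 v135; ok v136 && (
  let v137 := mul v132 v132; ok v137 && (
  let v138 := add v136 v137; ok v138 && (
  let v139 := add v138 v0; ok v139 && (
  let v140 := scale ⟨549755813888, 0, 0, 0⟩ v139; ok v140 && (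
  let v141 := scale ⟨549755813888, 0, 0, 0⟩ v30; ok v141 && (
  let v142 := sub v8 v141; ok v142 && (
  let v143 := mul v67 v133; ok v143 && (
  let v144 := mul v143 v7; ok v144 && (
  let v145 := scale ⟨137438953472, 0, 0, 0⟩ v144; ok v145 && (
  let v146 := add v142 v145; ok v146 && (
  let v147 := mul v140 v146; ok v147 && (
  let v148 := mul v77 v82; ok v148 && (
  let v149 := cst ⟨45814382592, 0, 0, 0⟩; ok v149 && (
  let v150 := cst ⟨1526988800, 0, 0, 0⟩; ok v150 && (
  let v151 := scale ⟨27279360, 0, 0, 0⟩ v75; ok v151 && (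
  let v152 := sub v150 v151; ok v152 && (
  let v153 := mul v75 v152; ok v153 && (
  let v154 := sub v149 v153; ok v154 && (
  let v155 := mul v75 v154; ok v155 && (
  let v156 := sub v1 v155; ok v156 && (
  let v157 := mul v75 v156; ok v157 && (
  let v158 := sub v0 v157; ok v158 && (
  let v159 := mul v75 v76; ok v159 && (
  let v160 := mul v48 v48; ok v160 && (
  let v161 := add v160 v0; ok v161 && (
  let v162 := mul v159 v159; ok v162 && (
  let v163 := scale ⟨369367187456, 0, 0, 0⟩ v162; ok v163 && (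
  let v164 := add v158 v163; ok v164 && (
  let v165 := mul v48 v164; ok v165 && (
  let v166 := scale ⟨2199023255552, 0, 0, 0⟩ v165; ok v166 && (
  let v167 := add v161 v166; ok v167 && (
  let v168 := cst ⟨8589934592, 0, 0, 0⟩; ok v168 && (
  let v169 := add v167 v168; ok v169 && (
  let v170 := log v169; ok v170 && (
  let v171 := scale ⟨549755813888, 0, 0, 0⟩ v170; ok v171 && (
  let v172 := exp v171; ok v172 && (
  let v173 := mul v48 v77; ok v173 && (
  let v174 := add v172 v173; ok v174 && (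
  let v175 := mul v174 v120; ok v175 && (
  let v176 := mul v84 v123; ok v176 && (
  let v177 := add v175 v176; ok v177 && (
  let v178 := mul v118 v177; ok v178 && (
  let v179 := add v148 v178; ok v179 && (
  let v180 := mul v179 v76; ok v180 && (
  let v181 := mul v174 v118; ok v181 && (
  let v182 := mul v181 v120; ok v182 && (
  let v183 := add v148 v182; ok v183 && (
  let v184 := mul v183 v76; ok v184 && (
  let v185 := scale ⟨223338299392, 0, 0, 0⟩ v184; ok v185 && (
  let v186 := add v1 v185; ok v186 && (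
  let v187 := mul v184 v186; ok v187 && (
  let v188 := add v0 v187; ok v188 && (
  let v189 := scale ⟨893353197568, 0, 0, 0⟩ v180; ok v189 && (
  let v190 := add v0 v189; ok v190 && (
  let v191 := mul v180 v190; ok v191 && (
  let v192 := add v0 v191; ok v192 && (
  let v193 := mul v101 v104; ok v193 && (
  let v194 := mul v193 v130; ok v194 && (
  let v195 := mul v194 v192; ok v195 && (
  let v196 := mul v147 v188; ok v196 && (
  let v197 := add v44 v1; ok v197 && (
  let v198 := mul v195 v197; ok v198 && (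
  let v199 := add v196 v198; ok v199 && (
  let v200 := add v44 v0; ok v200 && (
  let v201 := mul v195 v200; ok v201 && (
  let v202 := mul v131 v200; ok v202 && (
  let v203 := mul v202 v104; ok v203 && (
  let v204 := mul v203 v103; ok v204 && (
  let v205 := mul v2 v106; ok v205 && (
  let v206 := inv v44; ok v206 && (
  let v207 := mul v205 v206; ok v207 && (
  let v208 := scale ⟨549755813888, 0, 0, 0⟩ v207; ok v208 && (
  let v209 := mul v61 v125; ok v209 && (
  let v210 := mul v209 v0; ok v210 && (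
  let v211 := mul v210 v82; ok v211 && (
  let v212 := mul v16 v208; ok v212 && (
  let v213 := mul v199 v211; ok v213 && (
  let v214 := mul v204 v128; ok v214 && (
  let v215 := add v213 v214; ok v215 && (
  let v216 := mul v215 v76; ok v216 && (
  let v217 := add v212 v216; ok v217 && (
  let v218 := mul v199 v174; ok v218 && (
  let v219 := mul v218 v120; ok v219 && (
  let v220 := mul v201 v84; ok v220 && (
  let v221 := mul v220 v123; ok v221 && (
  let v222 := add v219 v221; ok v222 && (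
  let v223 := mul v222 v76; ok v223 && (
  let v224 := mul v16 v217; ok v224 && (
  let v225 := mul v117 v223; ok v225 && (
  let v226 := add v224 v225; ok v226 && (
  let v227 := mul v67 v226; ok v227 && (
  let v228 := mul v227 v206; ok v228 && (
  let v229 := sub v0 v228; ok v229 && (
  let v230 := inv v229; ok v230 && (
  let v231 := mul v226 v230; ok v231 && (
  let v232 := mul x1 v231; ok v232 && (
  let v233 := mul v67 v231; ok v233 && (
  let v234 := mul v233 v206; ok v234 && (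
  let v235 := sub v0 v234; ok v235 && (
  let v236 := mul v41 v235; ok v236 && (
  let v237 := sub v236 v232; ok v237 && (
  let v238 := inv v237; ok v238 && (
  let v239 := mul v232 v238; ok v239 && (
  let v240 := sub v44 v233; ok v240 && (
  let v241 := inv v240; ok v241 && (
  let v242 := mul v239 v0; ok v242 && (
  let v243 := mul x0 v241; ok v243 && (
  let v244 := mul v0 v238; ok v244 && (
  let v245 := inv v30; ok v245 && (
  let v246 := mul v244 v245; ok v246 && (
  let v247 := scale ⟨549755813888, 0, 0, 0⟩ v242; ok v247 && (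
  let v248 := sub v0 v247; ok v248 && (
  let v249 := sub v0 v242; ok v249 && (
  let v250 := inv v249; ok v250 && (
  let v251 := mul v248 v250; ok v251 && (
  let v252 := mul v246 v251; ok v252 && (
  let v253 := add v243 v252; ok v253 && (
  let v254 := mul v253 v233; ok v254 && (
  let v255 := scale ⟨223338299392, 0, 0, 0⟩ v254; ok v255 && (
  let v256 := add v1 v255; ok v256 && (
  let v257 := mul v254 v256; ok v257 && (
  let v258 := add v0 v257; ok v258 && (
  let v259 := mul v253 v258; ok v259 && (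
  let v260 := mul v259 v230; ok v260 && (
  let v261 := mul v260 v76; ok v261 && (
  let v262 := mul v261 x2; ok v262 && (
  let v263 := mul v262 v222; ok v263 && (
  let v264 := mul v261 v112; ok v264 && (
  let v265 := mul v264 x2; ok v265 && (
  let v266 := inv v17; ok v266 && (
  let v267 := mul v265 v266; ok v267 && (
  let v268 := mul x0 v16; ok v268 && (
  let v269 := mul v268 v208; ok v269 && (
  let v270 := add v269 v213; ok v270 && (
  let v271 := add v270 v214; ok v271 && (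
  let v272 := mul v267 v271; ok v272 && (
  let v273 := mul v111 v2; ok v273 && (
  let v274 := mul v273 v17; ok v274 && (
  let v275 := mul v274 v16; ok v275 && (
  let v276 := cst ⟨3298534883328, 0, 0, 0⟩; ok v276 && (
  let v277 := mul v276 v109; ok v277 && (
  let v278 := add v97 v0; ok v278 && (
  let v279 := mul v97 v278; ok v279 && (
  let v280 := add v55 v279; ok v280 && (
  let v281 := mul v239 v280; ok v281 && (
  let v282 := mul v57 v278; ok v282 && (
  let v283 := scale ⟨687194767360, 0, 0, 0⟩ v281; ok v283 && (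
  let v284 := add v0 v283; ok v284 && (
  let v285 := mul v281 v284; ok v285 && (
  let v286 := add v0 v285; ok v286 && (
  let v287 := mul v282 v286; ok v287 && (
  let v288 := add v10 x1; ok v288 && (
  let v289 := mul v98 v288; ok v289 && (
  let v290 := mul v289 v277; ok v290 && (
  let v291 := add v0 v290; ok v291 && (
  let v292 := inv v291; ok v292 && (
  let v293 := mul v287 v292; ok v293 && (
  let v294 := mul v293 v13; ok v294 && (
  let v295 := mul v2 v231; ok v295 && (
  let v296 := mul v295 v266; ok v296 && (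
  let v297 := add v0 v296; ok v297 && (
  let v298 := mul v294 v297; ok v298 && (
  let v299 := mul v298 v241; ok v299 && (
  let v300 := mul x1 v263; ok v300 && (
  let v301 := mul v300 v118; ok v301 && (
  let v302 := mul x1 v275; ok v302 && (
  let v303 := mul v272 v302; ok v303 && (
  let v304 := add v301 v303; ok v304 && (
  let v305 := add v300 v272; ok v305 && (
  let v306 := add v0 v304; ok v306 && (
  let v307 := mul v299 v306; ok v307 && (
  let v308 := add v305 v307; ok v308 && (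
  let v309 := sub v0 v308; ok v309 && (
  let v310 := scale ⟨1073741824, 0, 0, 0⟩ x1; ok v310 && (
  let v311 := sub v309 v310; ok v311 && (
  let v312 := sub v13 v0; ok v312 && (
  let v313 := cst ⟨2199023255552, 0, 0, 0⟩; ok v313 && (
  let v314 := add v312 v313; ok v314 && (
  let v315 := scale ⟨2199023255552, 0, 0, 0⟩ v277; ok v315 && (
  let v316 := sub v314 v315; ok v316 && (
  let v317 := mul v98 v316; ok v317 && (
  let v318 := mul v312 v315; ok v318 && (
  let v319 := add v318 v0; ok v319 && (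
  let v320 := inv v319; ok v320 && (
  let v321 := mul v317 v320; ok v321 && (
  let v322 := mul v111 v223; ok v322 && (
  let v323 := scale ⟨549755813888, 0, 0, 0⟩ v115; ok v323 && (
  let v324 := add v10 v323; ok v324 && (
  let v325 := mul v322 v324; ok v325 && (
  let v326 := scale ⟨2199023255552, 0, 0, 0⟩ v325; ok v326 && (
  let v327 := add v217 v326; ok v327 && (
  let v328 := scale ⟨2199023255552, 0, 0, 0⟩ v327; ok v328 && (
  let v329 := mul v328 v230; ok v329 && (
  let v330 := sub v17 v295; ok v330 && (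
  let v331 := inv v330; ok v331 && (
  let v332 := mul v329 v331; ok v332 && (
  let v333 := sub v321 v332; ok v333 && (
  isPos 4 v119 && (
  isPos 4 v122 && (
  let v334 := scale ⟨2199023255552, 0, 0, 0⟩ v227; ok v334 && (
  let v335 := sub v44 v334; ok v335 && (
  isPos 4 v335 && (
  isPos 4 v237 && (
  isPos 4 v80 && (
  let v336 := sub v1 v97; ok v336 && (
  isPos 4 v336 && (
  let v337 := scale ⟨687194767360, 0, 0, 0⟩ v0; ok v337 && (
  let v338 := sub v337 v184; ok v338 && (
  isPos 4 v338 && (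
  let v339 := scale ⟨377957122048, 0, 0, 0⟩ v0; ok v339 && (
  let v340 := sub v339 v180; ok v340 && (
  isPos 4 v340 && (
  isPos 4 v330 && (
  let v341 := sub v1 v281; ok v341 && (
  isPos 4 v341 && (
  isPos 4 v249 && (
  let v342 := sub v337 v254; ok v342 && (
  isPos 4 v342 && (
  let v343 := mul v107 v107; ok v343 && (
  let v344 := cst ⟨14293651161088, 0, 0, 0⟩; ok v344 && (
  let v345 := cst ⟨10995116277760, 0, 0, 0⟩; ok v345 && (
  let v346 := inv v345; ok v346 && (
  let v347 := mul v344 v346; ok v347 && (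
  let v348 := mul v343 v347; ok v348 && (
  let v349 := cst ⟨27487790694400, 0, 0, 0⟩; ok v349 && (
  let v350 := add v348 v349; ok v350 && (
  let v351 := mul v98 v17; ok v351 && (
  let v352 := mul v351 v277; ok v352 && (
  let v353 := mul x1 v352; ok v353 && (
  let v354 := add v0 v353; ok v354 && (
  let v355 := inv v354; ok v355 && (
  let v356 := mul v352 v355; ok v356 && (
  let v357 := sub v32 x1; ok v357 && (
  let v358 := sub v357 v31; ok v358 && (
  let v359 := scale ⟨2199023255552, 0, 0, 0⟩ v2; ok v359 && (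
  let v360 := add v359 v233; ok v360 && (
  let v361 := mul x0 v360; ok v361 && (
  let v362 := mul v350 v356; ok v362 && (
  let v363 := mul v230 v361; ok v363 && (
  let v364 := mul v76 v215; ok v364 && (
  let v365 := mul v5 v364; ok v365 && (
  let v366 := mul v17 v111; ok v366 && (
  let v367 := mul v366 v223; ok v367 && (
  let v368 := mul v30 v367; ok v368 && (
  let v369 := add v365 v368; ok v369 && (
  let v370 := mul x0 v369; ok v370 && (
  let v371 := mul v363 v370; ok v371 && (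
  let v372 := sub v362 v371; ok v372 && (
  let v373 := scale ⟨549755813888, 0, 0, 0⟩ v295; ok v373 && (
  let v374 := add v0 v373; ok v374 && (
  let v375 := mul v230 v374; ok v375 && (
  let v376 := mul x1 v16; ok v376 && (
  let v377 := mul v376 v106; ok v377 && (
  let v378 := mul v17 v44; ok v378 && (
  let v379 := inv v378; ok v379 && (
  let v380 := mul v377 v379; ok v380 && (
  let v381 := mul v375 v380; ok v381 && (
  let v382 := sub v358 v381; ok v382 && (
  let v383 := mul v115 v372; ok v383 && (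
  let v384 := sub v0 v115; ok v384 && (
  let v385 := mul v5 v382; ok v385 && (
  let v386 := mul v384 v385; ok v386 && (
  let v387 := mul v350 v386; ok v387 && (
  let v388 := add v383 v387; ok v388 && (
  isPos 4 v333 && (
  isPos 4 v311 && (
  isPos 4 v388 && (
  isPos 4 v382 && (
  true)))))))))))))))))))))))))))))))))))))))))))))))))))))))))))))))))))))))))))))))))))))))))))))))))))))))))))))))))))))))))))))))))))))))))))))))))))))))))))))))))))))))))))))))))))))))))))))))))))))))))))))))))))))))))))))))))))))))))))))))))))))))))))))))))))))))))))))))))))))))))))))))))))))))))))))))))))))))))))))))))))))))))))))))))))))))))))))))))))))))))))))))))))))))))))))))))))))))))))))))))))))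
  | _ => false

set_option maxRecDepth 1000000 in
theorem chk9_eq (O : Ops) (m : List O.α)
    (h : chk9 O.cst O.add O.sub O.mul O.scale O.neg O.inv O.exp O.log O.ok O.isPos O.isLt m = true) :
    runG O 4 prog9 m = true := by
  match m, h with
  | [x0, x1, x2, x3], h => exact h

def chkB9 : List opsE.α → Bool :=
  chk9 opsE.cst opsE.add opsE.sub opsE.mul opsE.scale opsE.neg opsE.inv opsE.exp opsE.log opsE.ok opsE.isPos opsE.isLt

theorem chkB9_eq (m : List opsE.α) (h : chkB9 m = true) : runG opsE 4 prog9 m = true :=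
  chk9_eq opsE m h

def prog10 : List Op := [
  .const ⟨1099511627776, 0, 0, 0⟩,
  .mul 2 3,
  .mul 0 5,
  .scale ⟨549755813888, 0, 0, 0⟩ 0,
  .mul 0 0,
  .sub 4 0,
  .inv 0,
  .mul 3 0,
  .scale ⟨2199023255552, 0, 0, 0⟩ 0,
  .scale ⟨10774999203840, 0, 0, 0⟩ 5,
  .scale ⟨549755813888, 0, 0, 0⟩ 9,
  .scale ⟨45768245248, 0, 0, 0⟩ 1,
  .const ⟨183207198720, 0, 0, 0⟩,
  .add 1 0,
  .mul 4 0,
  .add 4 0,
  .mul 6 0,
  .add 16 0,
  .mul 8 0,
  .scale ⟨549755813888, 0, 0, 0⟩ 0,
  .add 19 0,
  .mul 3 0,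
  .scale ⟨224412041216, 0, 0, 0⟩ 15,
  .inv 1,
  .mul 1 0,
  .sub 26 16,
  .sub 0 1,
  .pos 0]

def chk10 {α : Type} (cst : Z → α) (add sub mul : α → α → α) (scale : Z → α → α)
    (neg inv exp log : α → α) (ok : α → Bool) (isPos : Nat → α → Bool) (isLt : α → Nat → Bool) :
    List α → Bool
  | [x0, x1, x2, x3] =>
  let v0 := cst ⟨1099511627776, 0, 0, 0⟩; ok v0 && (
  let v1 := mul x1 x2; ok v1 && (
  let v2 := mul v1 x3; ok v2 && (
  let v3 := scale ⟨549755813888, 0, 0, 0⟩ v2; ok v3 && (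
  let v4 := mul v3 v3; ok v4 && (
  let v5 := sub v0 v4; ok v5 && (
  let v6 := inv v5; ok v6 && (
  let v7 := mul v3 v6; ok v7 && (
  let v8 := scale ⟨2199023255552, 0, 0, 0⟩ v7; ok v8 && (
  let v9 := scale ⟨10774999203840, 0, 0, 0⟩ v3; ok v9 && (
  let v10 := scale ⟨549755813888, 0, 0, 0⟩ v0; ok v10 && (
  let v11 := scale ⟨45768245248, 0, 0, 0⟩ v9; ok v11 && (
  let v12 := cst ⟨183207198720, 0, 0, 0⟩; ok v12 && (
  let v13 := add v11 v12; ok v13 && (
  let v14 := mul v9 v13; ok v14 && (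
  let v15 := add v10 v14; ok v15 && (
  let v16 := mul v9 v15; ok v16 && (
  let v17 := add v0 v16; ok v17 && (
  let v18 := mul v9 v17; ok v18 && (
  let v19 := scale ⟨549755813888, 0, 0, 0⟩ v18; ok v19 && (
  let v20 := add v0 v19; ok v20 && (
  let v21 := mul v17 v20; ok v21 && (
  let v22 := scale ⟨224412041216, 0, 0, 0⟩ v6; ok v22 && (
  let v23 := inv v21; ok v23 && (
  let v24 := mul v22 v23; ok v24 && (
  let v25 := sub x1 v8; ok v25 && (
  let v26 := sub v25 v24; ok v26 && (
  isPos 4 v26 && (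
  true))))))))))))))))))))))))))))
  | _ => false

set_option maxRecDepth 1000000 in
theorem chk10_eq (O : Ops) (m : List O.α)
    (h : chk10 O.cst O.add O.sub O.mul O.scale O.neg O.inv O.exp O.log O.ok O.isPos O.isLt m = true) :
    runG O 4 prog10 m = true := by
  match m, h with
  | [x0, x1, x2, x3], h => exact h

def chkB10 : List opsE.α → Bool :=
  chk10 opsE.cst opsE.add opsE.sub opsE.mul opsE.scale opsE.neg opsE.inv opsE.exp opsE.log opsE.ok opsE.isPos opsE.isLt

theorem chkB10_eq (m : List opsE.α) (h : chkB10 m = true) : runG opsE 4 prog10 m = true :=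
  chk10_eq opsE m h

def prog11 : List Op := [
  .const ⟨1099511627776, 0, 0, 0⟩,
  .mul 2 3,
  .mul 0 5,
  .scale ⟨549755813888, 0, 0, 0⟩ 0,
  .mul 0 0,
  .sub 4 0,
  .inv 0,
  .mul 3 0,
  .scale ⟨2199023255552, 0, 0, 0⟩ 0,
  .mul 9 0,
  .const ⟨554050781184, 0, 0, 0⟩,
  .sub 1 0,
  .pos 0]

def chk11 {α : Type} (cst : Z → α) (add sub mul : α → α → α) (scale : Z → α → α)
    (neg inv exp log : α → α) (ok : α → Bool) (isPos : Nat → α → Bool) (isLt : α → Nat → Bool) :
    List α → Bool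
  | [x0, x1, x2, x3] =>
  let v0 := cst ⟨1099511627776, 0, 0, 0⟩; ok v0 && (
  let v1 := mul x1 x2; ok v1 && (
  let v2 := mul v1 x3; ok v2 && (
  let v3 := scale ⟨549755813888, 0, 0, 0⟩ v2; ok v3 && (
  let v4 := mul v3 v3; ok v4 && (
  let v5 := sub v0 v4; ok v5 && (
  let v6 := inv v5; ok v6 && (
  let v7 := mul v3 v6; ok v7 && (
  let v8 := scale ⟨2199023255552, 0, 0, 0⟩ v7; ok v8 && (
  let v9 := mul x0 v8; ok v9 && (
  let v10 := cst ⟨554050781184, 0, 0, 0⟩; ok v10 && (
  let v11 := sub v9 v10; ok v11 && (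
  isPos 4 v11 && (
  true)))))))))))))
  | _ => false

set_option maxRecDepth 1000000 in
theorem chk11_eq (O : Ops) (m : List O.α)
    (h : chk11 O.cst O.add O.sub O.mul O.scale O.neg O.inv O.exp O.log O.ok O.isPos O.isLt m = true) :
    runG O 4 prog11 m = true := by
  match m, h with
  | [x0, x1, x2, x3], h => exact h

def chkB11 : List opsE.α → Bool :=
  chk11 opsE.cst opsE.add opsE.sub opsE.mul opsE.scale opsE.neg opsE.inv opsE.exp opsE.log opsE.ok opsE.isPos opsE.isLt

theorem chkB11_eq (m : List opsE.α) (h : chkB11 m = true) : runG opsE 4 prog11 m = true :=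
  chk11_eq opsE m h

def prog12 : List Op := [
  .const ⟨1099511627776, 0, 0, 0⟩,
  .mul 2 3,
  .mul 0 5,
  .scale ⟨549755813888, 0, 0, 0⟩ 0,
  .mul 6 7,
  .sub 0 4,
  .mul 2 2,
  .add 1 0,
  .pos 0]

def chk12 {α : Type} (cst : Z → α) (add sub mul : α → α → α) (scale : Z → α → α)
    (neg inv exp log : α → α) (ok : α → Bool) (isPos : Nat → α → Bool) (isLt : α → Nat → Bool) :
    List α → Bool
  | [x0, x1, x2, x3] =>
  let v0 := cst ⟨1099511627776, 0, 0, 0⟩; ok v0 && (
  let v1 := mul x1 x2; ok v1 && (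
  let v2 := mul v1 x3; ok v2 && (
  let v3 := scale ⟨549755813888, 0, 0, 0⟩ v2; ok v3 && (
  let v4 := mul x2 x3; ok v4 && (
  let v5 := sub v4 v0; ok v5 && (
  let v6 := mul v3 v3; ok v6 && (
  let v7 := add v5 v6; ok v7 && (
  isPos 4 v7 && (
  true)))))))))
  | _ => false

set_option maxRecDepth 1000000 in
theorem chk12_eq (O : Ops) (m : List O.α)
    (h : chk12 O.cst O.add O.sub O.mul O.scale O.neg O.inv O.exp O.log O.ok O.isPos O.isLt m = true) :
    runG O 4 prog12 m = true := by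
  match m, h with
  | [x0, x1, x2, x3], h => exact h

def chkB12 : List opsE.α → Bool :=
  chk12 opsE.cst opsE.add opsE.sub opsE.mul opsE.scale opsE.neg opsE.inv opsE.exp opsE.log opsE.ok opsE.isPos opsE.isLt

theorem chkB12_eq (m : List opsE.α) (h : chkB12 m = true) : runG opsE 4 prog12 m = true :=
  chk12_eq opsE m h

def prog13 : List Op := [
  .const ⟨1099511627776, 0, 0, 0⟩,
  .mul 2 3,
  .mul 0 5,
  .scale ⟨549755813888, 0, 0, 0⟩ 0,
  .sub 7 3,
  .mul 1 1,
  .add 1 0,
  .pos 0]

def chk13 {α : Type} (cst : Z → α) (add sub mul : α → α → α) (scale : Z → α → α)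
    (neg inv exp log : α → α) (ok : α → Bool) (isPos : Nat → α → Bool) (isLt : α → Nat → Bool) :
    List α → Bool
  | [x0, x1, x2, x3] =>
  let v0 := cst ⟨1099511627776, 0, 0, 0⟩; ok v0 && (
  let v1 := mul x1 x2; ok v1 && (
  let v2 := mul v1 x3; ok v2 && (
  let v3 := scale ⟨549755813888, 0, 0, 0⟩ v2; ok v3 && (
  let v4 := sub x3 v0; ok v4 && (
  let v5 := mul v3 v3; ok v5 && (
  let v6 := add v4 v5; ok v6 && (
  isPos 4 v6 && (
  true))))))))
  | _ => false

set_option maxRecDepth 1000000 in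
theorem chk13_eq (O : Ops) (m : List O.α)
    (h : chk13 O.cst O.add O.sub O.mul O.scale O.neg O.inv O.exp O.log O.ok O.isPos O.isLt m = true) :
    runG O 4 prog13 m = true := by
  match m, h with
  | [x0, x1, x2, x3], h => exact h

def chkB13 : List opsE.α → Bool :=
  chk13 opsE.cst opsE.add opsE.sub opsE.mul opsE.scale opsE.neg opsE.inv opsE.exp opsE.log opsE.ok opsE.isPos opsE.isLt

theorem chkB13_eq (m : List opsE.α) (h : chkB13 m = true) : runG opsE 4 prog13 m = true :=
  chk13_eq opsE m h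

def prog14 : List Op := [
  .const ⟨1099511627776, 0, 0, 0⟩,
  .mul 2 3,
  .mul 0 5,
  .scale ⟨549755813888, 0, 0, 0⟩ 0,
  .add 0 3,
  .inv 0,
  .mul 2 0,
  .scale ⟨2199023255552, 0, 0, 0⟩ 0,
  .sub 7 0,
  .log 0,
  .inv 10,
  .scale ⟨0, 1524247822336, 0, 0⟩ 0,
  .exp 0,
  .sub 12 0,
  .mul 14 4,
  .exp 0,
  .add 0 15,
  .log 0,
  .mul 0 7,
  .scale ⟨2199023255552, 0, 0, 0⟩ 0,
  .exp 0,
  .mul 13 13,
  .mul 8 1,
  .sub 1 0,
  .pos 0]

def chk14 {α : Type} (cst : Z → α) (add sub mul : α → α → α) (scale : Z → α → α)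
    (neg inv exp log : α → α) (ok : α → Bool) (isPos : Nat → α → Bool) (isLt : α → Nat → Bool) :
    List α → Bool
  | [x0, x1, x2, x3] =>
  let v0 := cst ⟨1099511627776, 0, 0, 0⟩; ok v0 && (
  let v1 := mul x1 x2; ok v1 && (
  let v2 := mul v1 x3; ok v2 && (
  let v3 := scale ⟨549755813888, 0, 0, 0⟩ v2; ok v3 && (
  let v4 := add v3 v0; ok v4 && (
  let v5 := inv v4; ok v5 && (
  let v6 := mul v3 v5; ok v6 && (
  let v7 := scale ⟨2199023255552, 0, 0, 0⟩ v6; ok v7 && (
  let v8 := sub v0 v7; ok v8 && (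
  let v9 := log v8; ok v9 && (
  let v10 := inv x0; ok v10 && (
  let v11 := scale ⟨0, 1524247822336, 0, 0⟩ v10; ok v11 && (
  let v12 := exp v11; ok v12 && (
  let v13 := sub v0 v12; ok v13 && (
  let v14 := mul x0 v9; ok v14 && (
  let v15 := exp v14; ok v15 && (
  let v16 := add v15 v0; ok v16 && (
  let v17 := log v16; ok v17 && (
  let v18 := mul v17 v10; ok v18 && (
  let v19 := scale ⟨2199023255552, 0, 0, 0⟩ v18; ok v19 && (
  let v20 := exp v19; ok v20 && (
  let v21 := mul v7 v7; ok v21 && (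
  let v22 := mul v13 v20; ok v22 && (
  let v23 := sub v21 v22; ok v23 && (
  isPos 4 v23 && (
  true)))))))))))))))))))))))))
  | _ => false

set_option maxRecDepth 1000000 in
theorem chk14_eq (O : Ops) (m : List O.α)
    (h : chk14 O.cst O.add O.sub O.mul O.scale O.neg O.inv O.exp O.log O.ok O.isPos O.isLt m = true) :
    runG O 4 prog14 m = true := by
  match m, h with
  | [x0, x1, x2, x3], h => exact h

def chkB14 : List opsE.α → Bool :=
  chk14 opsE.cst opsE.add opsE.sub opsE.mul opsE.scale opsE.neg opsE.inv opsE.exp opsE.log opsE.ok opsE.isPos opsE.isLt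

theorem chkB14_eq (m : List opsE.α) (h : chkB14 m = true) : runG opsE 4 prog14 m = true :=
  chk14_eq opsE m h

def prog15 : List Op := [
  .const ⟨1099511627776, 0, 0, 0⟩,
  .mul 2 3,
  .mul 0 5,
  .scale ⟨549755813888, 0, 0, 0⟩ 0,
  .mul 6 6,
  .mul 1 1,
  .sub 5 0,
  .inv 0,
  .mul 4 0,
  .scale ⟨2199023255552, 0, 0, 0⟩ 0,
  .scale ⟨2199023255552, 0, 0, 0⟩ 2,
  .sub 0 10,
  .mul 15 4,
  .mul 15 0,
  .sub 13 0,
  .add 14 1,
  .mul 17 11,
  .mul 17 7,
  .mul 0 0,
  .const ⟨14293651161088, 0, 0, 0⟩,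
  .const ⟨10995116277760, 0, 0, 0⟩,
  .inv 0,
  .mul 2 0,
  .mul 4 0,
  .const ⟨27487790694400, 0, 0, 0⟩,
  .add 1 0,
  .scale ⟨2199023255552, 0, 0, 0⟩ 14,
  .sub 0 28,
  .mul 18 14,
  .sub 1 0,
  .mul 30 28,
  .mul 0 0,
  .mul 0 17,
  .mul 0 17,
  .mul 35 19,
  .sub 34 0,
  .mul 10 0,
  .mul 20 7,
  .sub 37 0,
  .mul 2 0,
  .sub 6 0,
  .pos 0]

def chk15 {α : Type} (cst : Z → α) (add sub mul : α → α → α) (scale : Z → α → α)
    (neg inv exp log : α → α) (ok : α → Bool) (isPos : Nat → α → Bool) (isLt : α → Nat → Bool) :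
    List α → Bool
  | [x0, x1, x2, x3] =>
  let v0 := cst ⟨1099511627776, 0, 0, 0⟩; ok v0 && (
  let v1 := mul x1 x2; ok v1 && (
  let v2 := mul v1 x3; ok v2 && (
  let v3 := scale ⟨549755813888, 0, 0, 0⟩ v2; ok v3 && (
  let v4 := mul x2 x2; ok v4 && (
  let v5 := mul v3 v3; ok v5 && (
  let v6 := sub v0 v5; ok v6 && (
  let v7 := inv v6; ok v7 && (
  let v8 := mul v3 v7; ok v8 && (
  let v9 := scale ⟨2199023255552, 0, 0, 0⟩ v8; ok v9 && (
  let v10 := scale ⟨2199023255552, 0, 0, 0⟩ v7; ok v10 && (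
  let v11 := sub v10 v0; ok v11 && (
  let v12 := mul x3 v7; ok v12 && (
  let v13 := mul x2 v12; ok v13 && (
  let v14 := sub v0 v13; ok v14 && (
  let v15 := add v0 v13; ok v15 && (
  let v16 := mul x1 v4; ok v16 && (
  let v17 := mul x0 v9; ok v17 && (
  let v18 := mul v17 v17; ok v18 && (
  let v19 := cst ⟨14293651161088, 0, 0, 0⟩; ok v19 && (
  let v20 := cst ⟨10995116277760, 0, 0, 0⟩; ok v20 && (
  let v21 := inv v20; ok v21 && (
  let v22 := mul v19 v21; ok v22 && (
  let v23 := mul v18 v22; ok v23 && (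
  let v24 := cst ⟨27487790694400, 0, 0, 0⟩; ok v24 && (
  let v25 := add v23 v24; ok v25 && (
  let v26 := scale ⟨2199023255552, 0, 0, 0⟩ v11; ok v26 && (
  let v27 := sub v26 x1; ok v27 && (
  let v28 := mul v9 v13; ok v28 && (
  let v29 := sub v27 v28; ok v29 && (
  let v30 := mul x0 v1; ok v30 && (
  let v31 := mul v30 v30; ok v31 && (
  let v32 := mul v31 v14; ok v32 && (
  let v33 := mul v32 v15; ok v33 && (
  let v34 := mul x1 v14; ok v34 && (
  let v35 := sub v0 v34; ok v35 && (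
  let v36 := mul v25 v35; ok v36 && (
  let v37 := mul v16 v29; ok v37 && (
  let v38 := sub v0 v37; ok v38 && (
  let v39 := mul v36 v38; ok v39 && (
  let v40 := sub v33 v39; ok v40 && (
  isPos 4 v40 && (
  true))))))))))))))))))))))))))))))))))))))))))
  | _ => false

set_option maxRecDepth 1000000 in
theorem chk15_eq (O : Ops) (m : List O.α)
    (h : chk15 O.cst O.add O.sub O.mul O.scale O.neg O.inv O.exp O.log O.ok O.isPos O.isLt m = true) :
    runG O 4 prog15 m = true := by
  match m, h with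
  | [x0, x1, x2, x3], h => exact h

def chkB15 : List opsE.α → Bool :=
  chk15 opsE.cst opsE.add opsE.sub opsE.mul opsE.scale opsE.neg opsE.inv opsE.exp opsE.log opsE.ok opsE.isPos opsE.isLt

theorem chkB15_eq (m : List opsE.α) (h : chkB15 m = true) : runG opsE 4 prog15 m = true :=
  chk15_eq opsE m h

def progs : List (List Op) := [prog0, prog1, prog2, prog3, prog4, prog5, prog6, prog7, prog8, prog9, prog10, prog11, prog12, prog13, prog14, prog15]

def chks : List (List opsE.α → Bool) := [chkB0, chkB1, chkB2, chkB3, chkB4, chkB5, chkB6, chkB7, chkB8, chkB9, chkB10, chkB11, chkB12, chkB13, chkB14, chkB15]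

theorem chks_eq : List.Forall₂ (fun (ops : List Op) (chk : List opsE.α → Bool) =>
    ∀ m, chk m = true → runG opsE 4 ops m = true) progs chks :=
  List.Forall₂.cons chkB0_eq (List.Forall₂.cons chkB1_eq (List.Forall₂.cons chkB2_eq (List.Forall₂.cons chkB3_eq (List.Forall₂.cons chkB4_eq (List.Forall₂.cons chkB5_eq (List.Forall₂.cons chkB6_eq (List.Forall₂.cons chkB7_eq (List.Forall₂.cons chkB8_eq (List.Forall₂.cons chkB9_eq (List.Forall₂.cons chkB10_eq (List.Forall₂.cons chkB11_eq (List.Forall₂.cons chkB12_eq (List.Forall₂.cons chkB13_eq (List.Forall₂.cons chkB14_eq (List.Forall₂.cons chkB15_eq List.Forall₂.nil)))))))))))))))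

end Pool.Agent.helper71.FG.Crt.X
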