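import Pool.Agent.helper71.FG.Dm
import Pool.Agent.helper71.FG.Crt.XP

/-!
Generated: meaning of the programs.
-/

set_option maxRecDepth 4000

namespace Pool.Agent.helper71.FG

open Complex Pool.Agent.helper31.EQ.Y Pool.Agent.helper31.EQ.R
open Pool.Agent.helper12.EQL Pool.Agent.helper12.RP Pool.Agent.helper12.FF Pool.Agent.helper63.FF
open Pool.Agent.helper31.IA (Z Op InBox)
open Pool.Agent.helper71.FF (B1 B2 B3 Geo PhiB RAs zv exB1 exB2 exB3 AL A5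
  ab_L ab_x near_z near_p phi_te phi_near phi_slog phi_sq ras_of_cov
  CV j_eq pY_eq dk_core ib shf_re')

theorem zX_0_1099511627776 : (-1 : ℝ) = zv 0 1099511627776 := by unfold zv; norm_num

theorem zX_0_1524247822336 : (-363409 / 262144 : ℝ) = zv 0 1524247822336 := by unfold zv; norm_num

theorem zX_27279360_0 : (1665 / 67108864 : ℝ) = zv 27279360 0 := by unfold zv; norm_num

theorem zX_1073741824_0 : (1 / 1024 : ℝ) = zv 1073741824 0 := by unfold zv; norm_num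

theorem zX_1526988800_0 : (5825 / 4194304 : ℝ) = zv 1526988800 0 := by unfold zv; norm_num

theorem zX_1527119872_0 : (11651 / 8388608 : ℝ) = zv 1527119872 0 := by unfold zv; norm_num

theorem zX_8589934592_0 : (1 / 128 : ℝ) = zv 8589934592 0 := by unfold zv; norm_num

theorem zX_45768245248_0 : (341 / 8192 : ℝ) = zv 45768245248 0 := by unfold zv; norm_num

theorem zX_45812285440_0 : (21845 / 524288 : ℝ) = zv 45812285440 0 := by unfold zv; norm_num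

theorem zX_45814382592_0 : (10923 / 262144 : ℝ) = zv 45814382592 0 := by unfold zv; norm_num

theorem zX_137438953472_0 : (1 / 8 : ℝ) = zv 137438953472 0 := by unfold zv; norm_num

theorem zX_183207198720_0 : (1365 / 8192 : ℝ) = zv 183207198720 0 := by unfold zv; norm_num

theorem zX_183274307584_0 : (2731 / 16384 : ℝ) = zv 183274307584 0 := by unfold zv; norm_num

theorem zX_223338299392_0 : (13 / 64 : ℝ) = zv 223338299392 0 := by unfold zv; norm_num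

theorem zX_224412041216_0 : (209 / 1024 : ℝ) = zv 224412041216 0 := by unfold zv; norm_num

theorem zX_339302416384_0 : (79 / 256 : ℝ) = zv 339302416384 0 := by unfold zv; norm_num

theorem zX_369367187456_0 : (43 / 128 : ℝ) = zv 369367187456 0 := by unfold zv; norm_num

theorem zX_377957122048_0 : (11 / 32 : ℝ) = zv 377957122048 0 := by unfold zv; norm_num

theorem zX_412316860416_0 : (3 / 8 : ℝ) = zv 412316860416 0 := by unfold zv; norm_num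

theorem zX_549755813888_0 : (1 / 2 : ℝ) = zv 549755813888 0 := by unfold zv; norm_num

theorem zX_554050781184_0 : (129 / 256 : ℝ) = zv 554050781184 0 := by unfold zv; norm_num

theorem zX_687194767360_0 : (5 / 8 : ℝ) = zv 687194767360 0 := by unfold zv; norm_num

theorem zX_733365665792_0 : (683 / 1024 : ℝ) = zv 733365665792 0 := by unfold zv; norm_num

theorem zX_893353197568_0 : (13 / 16 : ℝ) = zv 893353197568 0 := by unfold zv; norm_num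

theorem zX_1099511627776_0 : (1 : ℝ) = zv 1099511627776 0 := by unfold zv; norm_num

theorem zX_1374389534720_0 : (5 / 4 : ℝ) = zv 1374389534720 0 := by unfold zv; norm_num

theorem zX_1546188226560_0 : (45 / 32 : ℝ) = zv 1546188226560 0 := by unfold zv; norm_num

theorem zX_1649267441664_0 : (3 / 2 : ℝ) = zv 1649267441664 0 := by unfold zv; norm_num

theorem zX_2199023255552_0 : (2 : ℝ) = zv 2199023255552 0 := by unfold zv; norm_num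

theorem zX_3092376453120_0 : (45 / 16 : ℝ) = zv 3092376453120 0 := by unfold zv; norm_num

theorem zX_3298534883328_0 : (3 : ℝ) = zv 3298534883328 0 := by unfold zv; norm_num

theorem zX_3573412790272_0 : (13 / 4 : ℝ) = zv 3573412790272 0 := by unfold zv; norm_num

theorem zX_4398046511104_0 : (4 : ℝ) = zv 4398046511104 0 := by unfold zv; norm_num

theorem zX_5497558138880_0 : (5 : ℝ) = zv 5497558138880 0 := by unfold zv; norm_num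

theorem zX_6597069766656_0 : (6 : ℝ) = zv 6597069766656 0 := by unfold zv; norm_num

theorem zX_10774999203840_0 : (10035 / 1024 : ℝ) = zv 10774999203840 0 := by unfold zv; norm_num

theorem zX_10995116277760_0 : (10 : ℝ) = zv 10995116277760 0 := by unfold zv; norm_num

theorem zX_14293651161088_0 : (13 : ℝ) = zv 14293651161088 0 := by unfold zv; norm_num

theorem zX_27487790694400_0 : (25 : ℝ) = zv 27487790694400 0 := by unfold zv; norm_num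

theorem far_X0 {κ : ℝ} {τ : ℂ} {R w : ℝ} {v : B1} (D : PtE (3 * 5⁻¹) v.e κ τ R w)
    (G : Geo κ (shf κ τ) v) (v2 : B2 v) (he2 : 2 ≤ v.e) (h : RAs Pool.Agent.helper71.FG.Crt.X.prog0 [v.e, v.t, v.u, v.n]) :
    FarPt v.e κ (1 - Real.sinh κ / 1024) w (2 * A5 v.e v.K * Real.sinh κ ^ 2) R
      (RE v.e κ (w * R)) τ := by
  obtain ⟨A, e_A⟩ : ∃ zz : ℝ, zz = v.e * ((1 : ℝ) * (5 : ℝ)⁻¹) := ⟨_, rfl⟩
  obtain ⟨iA, e_iA⟩ : ∃ zz : ℝ, zz = 5 * v.ei := ⟨_, rfl⟩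
  obtain ⟨hA, hiA, hAe⟩ := ab_x G v2 e_A e_iA
  rw [hAe]
  obtain ⟨cc, e_cc⟩ : ∃ zz : ℝ, zz = (1 : ℝ) - v.x * ((1 / 2 : ℝ) - v.x * ((21845 / 524288 : ℝ) - (11651 / 8388608) * v.x)) := ⟨_, rfl⟩
  obtain ⟨b⟩ := exGC v.q cc v.h1
  have hcc : CosB v.x cc := cosB_p e_cc
  obtain ⟨v3⟩ := exB3 v
  obtain ⟨ccp, e_ccp⟩ : ∃ zz : ℝ, zz = (1 : ℝ) - v3.xp * ((1 / 2 : ℝ) - v3.xp * ((21845 / 524288 : ℝ) - (11651 / 8388608) * v3.xp)) := ⟨_, rfl⟩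
  obtain ⟨b'⟩ := exGC v.qp ccp v3.hp
  obtain ⟨v4⟩ := exNC v3 b'
  have hccp : CosB v3.xp ccp := cosB_p e_ccp
  obtain ⟨hb⟩ := exHC v b
  obtain ⟨i2, e_i2⟩ : ∃ zz : ℝ, zz = (v2.eK + (2 : ℝ))⁻¹ := ⟨_, rfl⟩
  obtain ⟨z, e_z⟩ : ∃ zz : ℝ, zz = v.om1 * v.e * v.t * i2 := ⟨_, rfl⟩
  obtain ⟨kz, e_kz⟩ : ∃ zz : ℝ, zz = ((1 : ℝ) - (1 / 2) * z) * ((1 : ℝ) - z)⁻¹ := ⟨_, rfl⟩
  obtain ⟨kk, e_kk⟩ : ∃ zz : ℝ, zz = kz * i2 * v.e := ⟨_, rfl⟩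
  obtain ⟨phu, e_phu⟩ : ∃ zz : ℝ, zz = v.t * v.nj * kk := ⟨_, rfl⟩
  obtain ⟨lf, e_lf⟩ : ∃ zz : ℝ, zz = z * kz := ⟨_, rfl⟩
  obtain ⟨phut, e_phut⟩ : ∃ zz : ℝ, zz = v.nj * kk := ⟨_, rfl⟩
  obtain ⟨L, e_L⟩ : ∃ zz : ℝ, zz = lf * v.ei := ⟨_, rfl⟩
  obtain ⟨Ei, e_Ei⟩ : ∃ zz : ℝ, zz = (1 : ℝ) + L * ((45 / 16) * L + (2 : ℝ)) := ⟨_, rfl⟩
  obtain ⟨Eh, e_Eh⟩ : ∃ zz : ℝ, zz = (1 : ℝ) + L * ((45 / 32) * L + (1 : ℝ)) := ⟨_, rfl⟩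
  obtain ⟨ms⟩ := exMs v b hb.g hb.ga
  obtain ⟨m⟩ := exMb (3 * 5⁻¹) v2 A ms.Qb ms.Q1 ms.lsi phu Ei Eh
  obtain ⟨c⟩ := exCH v3 hb ms m v4.gap v4.hgp iA phut
  obtain ⟨p_o2, s0⟩ := (((((((h
    (1 : ℝ) zX_1099511627776_0
    (1 / 2 : ℝ) zX_549755813888_0
    v.tu v.e_tu
    (v.tu * v.n) rfl
    v.h (v.e_h.trans (congrArg (fun y : ℝ => y * (v.tu * v.n)) zX_549755813888_0))
    v.u2 v.e_u2
    (v.h * v.h) rfl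
    v.jm v.e_jm).2
    v.j v.e_j
    (v.h * v.j) rfl
    v.K (v.e_K.trans (congrArg (fun y : ℝ => y * (v.h * v.j)) zX_2199023255552_0))
    (2 * v.j) (congrArg (fun y : ℝ => y * v.j) zX_2199023255552_0)
    v.c0 v.e_c0
    v.m v.e_m
    v.nj v.e_nj
    v.om v.e_om
    v.om1 v.e_om1
    v.op1 v.e_op1
    v2.Y (v2.e_Y.trans (congrArg (fun y : ℝ => y * v.h) zX_10774999203840_0))
    ((341 / 8192) * v2.Y) (congrArg (fun y : ℝ => y * v2.Y) zX_45768245248_0)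
    (1365 / 8192 : ℝ) zX_183207198720_0
    ((341 / 8192) * v2.Y + (1365 / 8192 : ℝ)) rfl
    (v2.Y * ((341 / 8192) * v2.Y + (1365 / 8192 : ℝ))) rfl
    ((1 / 2 : ℝ) + v2.Y * ((341 / 8192) * v2.Y + (1365 / 8192 : ℝ))) rfl
    (v2.Y * ((1 / 2 : ℝ) + v2.Y * ((341 / 8192) * v2.Y + (1365 / 8192 : ℝ)))) rfl
    v2.pY v2.e_pY
    (v2.Y * v2.pY) rfl
    ((1 / 2) * (v2.Y * v2.pY)) (congrArg (fun y : ℝ => y * (v2.Y * v2.pY)) zX_549755813888_0)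
    ((1 : ℝ) + (1 / 2) * (v2.Y * v2.pY)) rfl
    v2.Yp v2.e_Yp
    v.R v.e_R
    (v.K * v.om) rfl
    (2 * v.c0) (congrArg (fun y : ℝ => y * v.c0) zX_2199023255552_0)
    (v.K * v.om + 2 * v.c0) rfl
    v.Dt v.e_Dt
    v.D v.e_D
    v.SQ v.e_SQ
    (v.K * v.K) rfl
    (2 * (v.K * v.K)) (congrArg (fun y : ℝ => y * (v.K * v.K)) zX_2199023255552_0)
    v.c2 v.e_c2
    (v.c0 * v.Dt) rfl
    v.rhat v.e_rhat).2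
    v.LQ v.e_LQ
    ((1 / 2) * v.LQ) (congrArg (fun y : ℝ => y * v.LQ) zX_549755813888_0)
    v.aQ v.e_aQ
    v.ee (v.e_ee.trans (congrArg (fun y : ℝ => y * v.e) zX_549755813888_0))
    v.rho v.e_rho
    (-v.rho) rfl
    v.q v.e_q
    (v.c0 * v.R) rfl
    (v.c0 * v.R * v.rhat) rfl
    v.D2 (v.e_D2.trans (congrArg (fun y : ℝ => y * (v.c0 * v.R * v.rhat)) zX_4398046511104_0))
    (v.D2 + (1 : ℝ)) rfl).2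
    (Real.log (v.D2 + (1 : ℝ))) rfl
    v.L2 v.e_L2
    v.rp v.e_rp
    (-v.rp) rfl
    v.qp v.e_qp
    (v.om * v.K) rfl
    (v.c0 + v.om * v.K) rfl).2
    v.ioK v.e_ioK
    v.h1t v.e_h1t
    (v.om1 * v.t) rfl
    v.h1 v.e_h1
    v.nj2 v.e_nj2
    ((1 : ℝ) - v.u2) rfl
    v.f2 v.e_f2
    v.tu2 v.e_tu2
    (v.c0 + v.R) rfl).2
    ((v.c0 + v.R)⁻¹) rfl
    v.w v.e_w
    (v.w * v.tu) rfl
    (v.w * v.tu * (v.w * v.tu)) rfl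
    ((1 : ℝ) - v.nj2) rfl
    (((1 : ℝ) - v.u2) * ((1 : ℝ) - v.nj2)) rfl
    v.x (x_alt v)).2
    v.ei v.e_ei
    (21845 / 524288 : ℝ) zX_45812285440_0
    ((11651 / 8388608) * v.x) (congrArg (fun y : ℝ => y * v.x) zX_1527119872_0)
    ((21845 / 524288 : ℝ) - (11651 / 8388608) * v.x) rfl
    (v.x * ((21845 / 524288 : ℝ) - (11651 / 8388608) * v.x)) rfl
    ((1 / 2 : ℝ) - v.x * ((21845 / 524288 : ℝ) - (11651 / 8388608) * v.x)) rfl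
    (v.x * ((1 / 2 : ℝ) - v.x * ((21845 / 524288 : ℝ) - (11651 / 8388608) * v.x))) rfl
    cc e_cc
    b.q1 b.e_q1
    (v.q * v.q) rfl
    (v.q * v.q + (1 : ℝ)) rfl
    (v.q * cc) rfl
    (2 * (v.q * cc)) (congrArg (fun y : ℝ => y * (v.q * cc)) zX_2199023255552_0)
    b.o2 b.e_o2).2
    (b.q1⁻¹) rfl
    (b.o2 * b.q1⁻¹) rfl
    b.P1 b.e_P1
    (v.q * v.h1) rfl
    b.qh (b.e_qh.trans (congrArg (fun y : ℝ => y * (v.q * v.h1)) zX_549755813888_0))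
    (b.qh * b.P1) rfl
    b.W b.e_W
  change 0 < b.o2 at p_o2
  obtain ⟨p_W, s1⟩ := s0
  change 0 < b.W at p_W
  obtain ⟨p_o2p, s2⟩ := ((((((((s1).2
    hb.iW hb.e_iW
    (v.ee * v.Dt) rfl
    (6 : ℝ) zX_6597069766656_0
    (v.D + (6 : ℝ)) rfl
    (v.ee * v.Dt * (v.D + (6 : ℝ))) rfl
    (4 * v.D) (congrArg (fun y : ℝ => y * v.D) zX_4398046511104_0)
    (4 * v.D + (6 : ℝ)) rfl).2
    ((4 * v.D + (6 : ℝ))⁻¹) rfl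
    hb.rhoR hb.e_rhoR
    (v.R * hb.rhoR) rfl
    hb.x2 (hb.e_x2.trans (congrArg (fun y : ℝ => y * (v.R * hb.rhoR)) zX_2199023255552_0))
    ((2731 / 16384) * hb.x2) (congrArg (fun y : ℝ => y * hb.x2) zX_183274307584_0)
    ((1 / 2 : ℝ) - (2731 / 16384) * hb.x2) rfl
    (hb.x2 * ((1 / 2 : ℝ) - (2731 / 16384) * hb.x2)) rfl
    ((1 : ℝ) - hb.x2 * ((1 / 2 : ℝ) - (2731 / 16384) * hb.x2)) rfl
    (hb.rhoR * ((1 : ℝ) - hb.x2 * ((1 / 2 : ℝ) - (2731 / 16384) * hb.x2))) rfl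
    hb.G hb.e_G
    hb.g hb.e_g
    (hb.g + (1 / 2 : ℝ)) rfl).2
    ((hb.g + (1 / 2 : ℝ))⁻¹) rfl
    hb.gR hb.e_gR
    hb.ga hb.e_ga
    (b.qh * hb.g) rfl
    (b.qh * hb.g + (1 / 2 : ℝ)) rfl
    ((b.qh * hb.g + (1 / 2 : ℝ)) * b.P1) rfl).2
    (b.o2⁻¹) rfl
    ms.fa ms.e_fa
    ms.hg ms.e_hg
    ((1 / 2) * ms.hg) (congrArg (fun y : ℝ => y * ms.hg) zX_549755813888_0)
    ((1 : ℝ) - (1 / 2) * ms.hg) rfl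
    ((1 : ℝ) - ms.hg) rfl).2
    (((1 : ℝ) - ms.hg)⁻¹) rfl
    ms.lsf ms.e_lsf
    (ms.hg + (1 : ℝ)) rfl
    ms.Qb ms.e_Qb
    (v.om1 * v.op1) rfl
    (v.c0 + v.t) rfl
    (v.om * v.c0) rfl
    (v.om * v.c0 * v.K) rfl
    (2 * (v.om * v.c0 * v.K)) (congrArg (fun y : ℝ => y * (v.om * v.c0 * v.K)) zX_2199023255552_0)
    (v.c2 + 2 * (v.om * v.c0 * v.K)) rfl
    ((v.c0 + v.t) * (v.c2 + 2 * (v.om * v.c0 * v.K))) rfl).2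
    (((v.c0 + v.t) * (v.c2 + 2 * (v.om * v.c0 * v.K)))⁻¹) rfl
    v3.hpt v3.e_hpt
    v3.hp v3.e_hp).2
    (v.SQ⁻¹) rfl
    v3.xp v3.e_xp
    ((11651 / 8388608) * v3.xp) (congrArg (fun y : ℝ => y * v3.xp) zX_1527119872_0)
    ((21845 / 524288 : ℝ) - (11651 / 8388608) * v3.xp) rfl
    (v3.xp * ((21845 / 524288 : ℝ) - (11651 / 8388608) * v3.xp)) rfl
    ((1 / 2 : ℝ) - v3.xp * ((21845 / 524288 : ℝ) - (11651 / 8388608) * v3.xp)) rfl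
    (v3.xp * ((1 / 2 : ℝ) - v3.xp * ((21845 / 524288 : ℝ) - (11651 / 8388608) * v3.xp))) rfl
    ccp e_ccp
    b'.q1 b'.e_q1
    (v.qp * v.qp) rfl
    (v.qp * v.qp + (1 : ℝ)) rfl
    (v.qp * ccp) rfl
    (2 * (v.qp * ccp)) (congrArg (fun y : ℝ => y * (v.qp * ccp)) zX_2199023255552_0)
    b'.o2 b'.e_o2).2
    (b'.q1⁻¹) rfl
    (b'.o2 * b'.q1⁻¹) rfl
    b'.P1 b'.e_P1
    (v.qp * v3.hp) rfl
    b'.qh (b'.e_qh.trans (congrArg (fun y : ℝ => y * (v.qp * v3.hp)) zX_549755813888_0))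
    (b'.qh * b'.P1) rfl
    b'.W b'.e_W
  change 0 < b'.o2 at p_o2p
  obtain ⟨p_Wp, s3⟩ := s2
  change 0 < b'.W at p_Wp
  obtain ⟨p_z1, s4⟩ := (((((((((s3
    ((1 : ℝ) - v.qp) rfl
    (((1 : ℝ) - v.qp) * b'.q1) rfl).2
    (b'.W⁻¹) rfl
    (((1 : ℝ) - v.qp) * b'.q1 * b'.W⁻¹) rfl
    v4.gp (v4.e_gp.trans (congrArg (fun y : ℝ => y * (((1 : ℝ) - v.qp) * b'.q1 * b'.W⁻¹)) zX_549755813888_0))
    (v4.gp + (1 / 2 : ℝ)) rfl).2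
    ((v4.gp + (1 / 2 : ℝ))⁻¹) rfl
    v4.gap v4.e_gap
    v4.hgp v4.e_hgp
    (v.h + (1 : ℝ)) rfl).2
    v2.ih v2.e_ih
    (v.h * v2.ih) rfl
    v2.rh (v2.e_rh.trans (congrArg (fun y : ℝ => y * (v.h * v2.ih)) zX_2199023255552_0))
    v2.mi v2.e_mi
    v2.hm v2.e_hm
    v2.nih v2.e_nih
    (v2.nih * v2.mi) rfl
    v2.bsum v2.e_bsum
    v2.eK v2.e_eK
    (5 : ℝ) zX_5497558138880_0).2
    ((5 : ℝ)⁻¹) rfl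
    ((1 : ℝ) * (5 : ℝ)⁻¹) rfl
    A e_A
    iA (e_iA.trans (congrArg (fun y : ℝ => y * v.ei) zX_5497558138880_0))
    ((209 / 1024) * v.j) (congrArg (fun y : ℝ => y * v.j) zX_224412041216_0)).2
    (v2.Yp⁻¹) rfl
    v2.lm v2.e_lm
    (A * v.op1) rfl
    m.Xe m.e_Xe
    m.XM m.e_XM
    ((1 : ℝ) - m.XM) rfl).2
    m.iX m.e_iX
    m.QX m.e_QX
    ((1 : ℝ) - m.QX) rfl).2
    m.iQX m.e_iQX
    (2 : ℝ) zX_2199023255552_0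
    (v2.eK + (2 : ℝ)) rfl).2
    i2 e_i2
    (v.om1 * v.e) rfl
    (v.om1 * v.e * v.t) rfl
    z e_z
    ((1 / 2) * z) (congrArg (fun y : ℝ => y * z) zX_549755813888_0)
    ((1 : ℝ) - (1 / 2) * z) rfl
    ((1 : ℝ) - z) rfl).2
    (((1 : ℝ) - z)⁻¹) rfl
    kz e_kz
    (kz * i2) rfl
    kk e_kk
    (v.t * v.nj) rfl
    phu e_phu
    lf e_lf
    phut e_phut
  change 0 < (1 : ℝ) - z at p_z1
  obtain ⟨p_L, s5⟩ := s4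
    L e_L
    ((5 / 4) * L) (congrArg (fun y : ℝ => y * L) zX_1374389534720_0)
    ((1 / 2 : ℝ) - (5 / 4) * L) rfl
  change 0 < (1 / 2 : ℝ) - (5 / 4) * L at p_L
  obtain ⟨p_XM, s6⟩ := (((((((((((s5
    ((45 / 16) * L) (congrArg (fun y : ℝ => y * L) zX_3092376453120_0)
    ((45 / 16) * L + (2 : ℝ)) rfl
    (L * ((45 / 16) * L + (2 : ℝ))) rfl
    Ei e_Ei
    ((45 / 32) * L) (congrArg (fun y : ℝ => y * L) zX_1546188226560_0)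
    ((45 / 32) * L + (1 : ℝ)) rfl
    (L * ((45 / 32) * L + (1 : ℝ))) rfl
    Eh e_Eh
    (v.h * v.nj) rfl
    ((1 : ℝ) - v.f2) rfl
    (v.h * v.om) rfl
    (2 * (v.h * v.om)) (congrArg (fun y : ℝ => y * (v.h * v.om)) zX_2199023255552_0)
    ((1 : ℝ) - v.f2 - 2 * (v.h * v.om)) rfl
    (v.h * v.nj * (v.h * v.nj)) rfl
    m.N1 m.e_N1
    (m.N1 + (1 : ℝ)) rfl
    m.s (m.e_s.trans (congrArg (fun y : ℝ => y * (m.N1 + (1 : ℝ))) zX_549755813888_0))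
    ((1 / 2) * v.R) (congrArg (fun y : ℝ => y * v.R) zX_549755813888_0)
    (v.j - (1 / 2) * v.R) rfl
    (v.tu2 * ((1 : ℝ) - v.f2)) rfl
    (v.tu2 * ((1 : ℝ) - v.f2) * v.jm) rfl
    ((1 / 8) * (v.tu2 * ((1 : ℝ) - v.f2) * v.jm)) (congrArg (fun y : ℝ => y * (v.tu2 * ((1 : ℝ) - v.f2) * v.jm)) zX_137438953472_0)
    (v.j - (1 / 2) * v.R + (1 / 8) * (v.tu2 * ((1 : ℝ) - v.f2) * v.jm)) rfl
    m.k0 m.e_k0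
    (v.om1 * v.h1t) rfl
    (v.om1 * v.h1t * v.tu) rfl
    (v.om1 * v.h1t * v.tu * hb.gR) rfl
    (v.om1 * v.h1t * v.tu * hb.gR * ms.lsf) rfl
    m.ls (ls_H G ms m)
    ms.Q1 ms.e_Q1
    (ms.Q1 * m.iX) rfl
    (ms.Qb * m.iQX) rfl
    (ms.Q1 * m.iX + ms.Qb * m.iQX) rfl
    (m.XM * (ms.Q1 * m.iX + ms.Qb * m.iQX)) rfl
    (m.ls + m.XM * (ms.Q1 * m.iX + ms.Qb * m.iQX)) rfl
    m.a0 m.e_a0
    (ms.Q1 * m.XM) rfl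
    (ms.Q1 * m.XM * m.iX) rfl
    (m.ls + ms.Q1 * m.XM * m.iX) rfl
    m.l1 m.e_l1
    ((13 / 64) * m.l1) (congrArg (fun y : ℝ => y * m.l1) zX_223338299392_0)
    ((1 / 2 : ℝ) + (13 / 64) * m.l1) rfl
    (m.l1 * ((1 / 2 : ℝ) + (13 / 64) * m.l1)) rfl
    m.Na m.e_Na
    ((13 / 16) * m.a0) (congrArg (fun y : ℝ => y * m.a0) zX_893353197568_0)
    ((1 : ℝ) + (13 / 16) * m.a0) rfl
    (m.a0 * ((1 : ℝ) + (13 / 16) * m.a0)) rfl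
    m.Nb m.e_Nb
    (v2.rh * v2.nih) rfl
    (v2.rh * v2.nih * Ei) rfl
    m.rn m.e_rn
    (m.k0 * m.Na) rfl
    (v.aQ + (1 / 2 : ℝ)) rfl
    (m.rn * (v.aQ + (1 / 2 : ℝ))) rfl
    m.ka m.e_ka
    (v.aQ + (1 : ℝ)) rfl
    m.kb m.e_kb
    (Eh * (v.aQ + (1 : ℝ))) rfl
    (Eh * (v.aQ + (1 : ℝ)) * v2.nih) rfl
    m.lfk m.e_lfk
    (v.tu * v2.bsum) rfl).2
    (v.aQ⁻¹) rfl
    (v.tu * v2.bsum * v.aQ⁻¹) rfl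
    m.bte (m.e_bte.trans (congrArg (fun y : ℝ => y * (v.tu * v2.bsum * v.aQ⁻¹)) zX_549755813888_0))
    (v.h1t * v.tu) rfl
    (v.h1t * v.tu * hb.gR) rfl
    ms.lsi (lsi_H G ms)
    (v.om1 * m.bte) rfl
    (m.ka * ms.lsi) rfl
    (m.lfk * phu) rfl
    (m.ka * ms.lsi + m.lfk * phu) rfl
    ((m.ka * ms.lsi + m.lfk * phu) * v.ei) rfl
    m.src m.e_src
    (m.ka * ms.Q1) rfl
    (m.ka * ms.Q1 * m.iX) rfl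
    (m.kb * ms.Qb) rfl
    (m.kb * ms.Qb * m.iQX) rfl
    (m.ka * ms.Q1 * m.iX + m.kb * ms.Qb * m.iQX) rfl
    m.fx m.e_fx
    (v.om1 * m.src) rfl
    (m.Xe * m.fx) rfl
    m.eps m.e_eps
    (v.tu2 * m.eps) rfl
    (v.tu2 * m.eps * v.aQ⁻¹) rfl
    ((1 : ℝ) - v.tu2 * m.eps * v.aQ⁻¹) rfl).2
    m.NN m.e_NN
    m.eN m.e_eN
    m.d m.e_d
    m.eta m.e_eta
    (m.eta * v.aQ⁻¹) rfl
    ((1 : ℝ) - m.eta * v.aQ⁻¹) rfl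
    (v.rhat * ((1 : ℝ) - m.eta * v.aQ⁻¹)) rfl
    m.rl m.e_rl).2
    m.irl m.e_irl
    m.yy m.e_yy
    ((1 : ℝ) - m.d) rfl).2
    c.od c.e_od
    (v.h1 * hb.gR) rfl
    c.lsR c.e_lsR
    (hb.rhoR + c.lsR) rfl
    c.PR c.e_PR
    c.dP c.e_dP
    ((13 / 64) * c.dP) (congrArg (fun y : ℝ => y * c.dP) zX_223338299392_0)
    ((1 / 2 : ℝ) + (13 / 64) * c.dP) rfl
    (c.dP * ((1 / 2 : ℝ) + (13 / 64) * c.dP)) rfl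
    c.Ee c.e_Ee
    (c.dP * c.Ee) rfl
    (c.dP * c.Ee * ms.fa) rfl
    (c.dP * c.Ee * ms.fa * ms.Qb) rfl
    c.den c.e_den
    (c.PR * c.Ee) rfl
    (c.PR * c.Ee * m.NN) rfl
    (c.PR * c.Ee * m.NN * v.ei) rfl).2
    (c.den⁻¹) rfl
    c.C c.e_C
    (c.C * v.u) rfl
    (m.ka * m.iX) rfl
    (m.kb * ms.fa) rfl
    (m.kb * ms.fa * ms.Qb) rfl
    (m.kb * ms.fa * ms.Qb * m.iQX) rfl
    (m.ka * m.iX + m.kb * ms.fa * ms.Qb * m.iQX) rfl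
    c.fbt c.e_fbt
    (m.ka * v.h1t) rfl
    (v.tu * hb.G) rfl
    (m.ka * v.h1t * (v.tu * hb.G)) rfl
    c.sl c.e_sl
    (A * v.tu) rfl
    (A * v.tu * v.op1) rfl
    m.XLt m.e_XLt
    (3 : ℝ) zX_3298534883328_0
    m.beta m.e_beta
    (c.C * iA) rfl
    (c.C * iA * v.u) rfl).2
    (v.op1⁻¹) rfl
    (c.C * iA * v.u * v.op1⁻¹) rfl
    (v.e * ms.fa) rfl
    (v.e * ms.fa * v.om1) rfl
    (v.u * v2.bsum) rfl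
    (v.u * v2.bsum * v.aQ⁻¹) rfl
    ((1 / 2) * (v.u * v2.bsum * v.aQ⁻¹)) (congrArg (fun y : ℝ => y * (v.u * v2.bsum * v.aQ⁻¹)) zX_549755813888_0)
    (v.e * ms.fa * v.om1 * ((1 / 2) * (v.u * v2.bsum * v.aQ⁻¹))) rfl
    (m.ka * v.h1t * v.u) rfl
    (m.ka * v.h1t * v.u * hb.G) rfl
    (m.ka * v.h1t * v.u * hb.G * ms.lsf) rfl
    (v.e * ms.fa * v.om1 * ((1 / 2) * (v.u * v2.bsum * v.aQ⁻¹)) + m.ka * v.h1t * v.u * hb.G * ms.lsf) rfl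
    (ms.fa * m.lfk) rfl
    (ms.fa * m.lfk * phut) rfl
    (v.e * ms.fa * v.om1 * ((1 / 2) * (v.u * v2.bsum * v.aQ⁻¹)) + m.ka * v.h1t * v.u * hb.G * ms.lsf + ms.fa * m.lfk * phut) rfl
    c.FXt c.e_FXt
    (v.c0 * v.rhat) rfl
    (4 * (v.c0 * v.rhat)) (congrArg (fun y : ℝ => y * (v.c0 * v.rhat)) zX_4398046511104_0)
    (4 * (v.c0 * v.rhat) - v.Dt) rfl
    (v.u2 * (4 * (v.c0 * v.rhat) - v.Dt)) rfl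
    c.zh c.e_zh
    (v.e * c.zh) rfl
    (v.t * c.zh) rfl
    (v.t * c.zh + (2 : ℝ)) rfl).2
    ((v.t * c.zh + (2 : ℝ))⁻¹) rfl
    c.yh c.e_yh
    (v.t * c.yh) rfl
    ((1 / 2) * (v.t * c.yh)) (congrArg (fun y : ℝ => y * (v.t * c.yh)) zX_549755813888_0)
    ((1 : ℝ) - (1 / 2) * (v.t * c.yh)) rfl
    (c.yh * ((1 : ℝ) - (1 / 2) * (v.t * c.yh))) rfl
    c.S1 c.e_S1
    (v3.hpt * v4.gap) rfl
    (c.S1 + v3.hpt * v4.gap) rfl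
    (c.S1 * (v3.hpt * v4.gap)) rfl
    (v.t * (c.S1 * (v3.hpt * v4.gap))) rfl
    c.S2 c.e_S2
    (v.ee * c.zh) rfl
    (v4.hgp + (1 : ℝ)) rfl
    (v3.hpt * v4.gap * (v4.hgp + (1 : ℝ))) rfl
    (v.ee * c.zh + v3.hpt * v4.gap * (v4.hgp + (1 : ℝ))) rfl
    c.drt c.e_drt
    c.dri c.e_dri
    ((5 / 8) * c.dri) (congrArg (fun y : ℝ => y * c.dri) zX_687194767360_0)
    ((1 : ℝ) + (5 / 8) * c.dri) rfl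
    (c.drt * ((1 : ℝ) + (5 / 8) * c.dri)) rfl
    (c.S2 + c.drt * ((1 : ℝ) + (5 / 8) * c.dri)) rfl
    (c.S2 * (c.drt * ((1 : ℝ) + (5 / 8) * c.dri))) rfl
    (v.t * (c.S2 * (c.drt * ((1 : ℝ) + (5 / 8) * c.dri)))) rfl
    c.S3 c.e_S3
    (v.u * v.n) rfl
    (v.u * v.n * (v.h + (1 : ℝ))) rfl
    (v.u * v.n * (v.h + (1 : ℝ)) * v.j) rfl
    (c.S3 + v.u * v.n * (v.h + (1 : ℝ)) * v.j) rfl
    (c.S3 * (v.u * v.n * (v.h + (1 : ℝ)) * v.j)) rfl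
    (v.t * (c.S3 * (v.u * v.n * (v.h + (1 : ℝ)) * v.j))) rfl
    c.S4 c.e_S4
    c.Dh c.e_Dh
    (v.t * c.Dh) rfl
    ((3 / 8) * (v.t * c.Dh)) (congrArg (fun y : ℝ => y * (v.t * c.Dh)) zX_412316860416_0)
    ((1 / 2 : ℝ) - (3 / 8) * (v.t * c.Dh)) rfl
    (c.Dh * ((1 / 2 : ℝ) - (3 / 8) * (v.t * c.Dh))) rfl
    (-(c.Dh * ((1 / 2 : ℝ) - (3 / 8) * (v.t * c.Dh)))) rfl
    (c.S4 + (-(c.Dh * ((1 / 2 : ℝ) - (3 / 8) * (v.t * c.Dh))))) rfl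
    (c.S4 * (-(c.Dh * ((1 / 2 : ℝ) - (3 / 8) * (v.t * c.Dh))))) rfl
    (v.t * (c.S4 * (-(c.Dh * ((1 / 2 : ℝ) - (3 / 8) * (v.t * c.Dh)))))) rfl
    c.S5 c.e_S5
    (v.u * m.eN) rfl
    (v.u * m.eN * v.op1⁻¹) rfl
    (c.S5 + v.u * m.eN * v.op1⁻¹) rfl
    (c.S5 * (v.u * m.eN * v.op1⁻¹)) rfl
    (v.t * (c.S5 * (v.u * m.eN * v.op1⁻¹))) rfl
    c.S6 c.e_S6
    ((v.h + (1 : ℝ)) * v.op1) rfl
    m.b1 m.e_b1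
    (c.S6 - m.b1) rfl
    (v.t * m.b1) rfl
    ((1 : ℝ) + v.t * m.b1) rfl).2
    (((1 : ℝ) + v.t * m.b1)⁻¹) rfl
    c.S7 c.e_S7
    (v.u * v.tu) rfl
    (v.u * v.tu * m.eN) rfl
    (v.aQ - m.eta) rfl).2
    ((v.aQ - m.eta)⁻¹) rfl
    (v.u * v.tu * m.eN * (v.aQ - m.eta)⁻¹) rfl
    (c.S7 + v.u * v.tu * m.eN * (v.aQ - m.eta)⁻¹) rfl
    (c.S7 * (v.u * v.tu * m.eN * (v.aQ - m.eta)⁻¹)) rfl
    (v.t * (c.S7 * (v.u * v.tu * m.eN * (v.aQ - m.eta)⁻¹))) rfl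
    c.S8 c.e_S8
    (v.t * c.S8) rfl
    c.c1 c.e_c1
    (c.fbt * m.XM) rfl
    (v.t * m.XLt) rfl
    (c.FXt * (v.t * m.XLt)) rfl
    c.rt c.e_rt
    (c.rt * c.c1) rfl
    (c.S8 + c.rt * c.c1) rfl
    (c.S8 + c.rt * c.c1 + c.fbt) rfl
    (c.S8 + c.rt * c.c1 + c.fbt + c.FXt) rfl
    c.Bm c.e_Bm
    (1 / 1024 : ℝ) zX_1073741824_0
    (c.Bm - (1 / 1024 : ℝ)) rfl
    m.m1 m.e_m1
    (m.m1 + (2 : ℝ)) rfl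
    (2 * m.beta) (congrArg (fun y : ℝ => y * m.beta) zX_2199023255552_0)
    (m.m1 + (2 : ℝ) - 2 * m.beta) rfl
    ((v.h + (1 : ℝ)) * (m.m1 + (2 : ℝ) - 2 * m.beta)) rfl
    (m.m1 * (2 * m.beta)) rfl
    (m.m1 * (2 * m.beta) + (1 : ℝ)) rfl).2
    ((m.m1 * (2 * m.beta) + (1 : ℝ))⁻¹) rfl
    ((v.h + (1 : ℝ)) * (m.m1 + (2 : ℝ) - 2 * m.beta) * (m.m1 * (2 * m.beta) + (1 : ℝ))⁻¹) rfl
    (A * m.fx) rfl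
    ((1 / 2) * v2.lm) (congrArg (fun y : ℝ => y * v2.lm) zX_549755813888_0)
    (v.K + (1 / 2) * v2.lm) rfl
    (A * m.fx * (v.K + (1 / 2) * v2.lm)) rfl
    (2 * (A * m.fx * (v.K + (1 / 2) * v2.lm))) (congrArg (fun y : ℝ => y * (A * m.fx * (v.K + (1 / 2) * v2.lm))) zX_2199023255552_0)
    (m.src + 2 * (A * m.fx * (v.K + (1 / 2) * v2.lm))) rfl
    (2 * (m.src + 2 * (A * m.fx * (v.K + (1 / 2) * v2.lm)))) (congrArg (fun y : ℝ => y * (m.src + 2 * (A * m.fx * (v.K + (1 / 2) * v2.lm)))) zX_2199023255552_0)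
    (2 * (m.src + 2 * (A * m.fx * (v.K + (1 / 2) * v2.lm))) * m.NN) rfl
    (v.tu * m.eN) rfl
    (v.op1 - v.tu * m.eN) rfl).2
    ((v.op1 - v.tu * m.eN)⁻¹) rfl
    (2 * (m.src + 2 * (A * m.fx * (v.K + (1 / 2) * v2.lm))) * m.NN * (v.op1 - v.tu * m.eN)⁻¹) rfl
    m.V m.e_V
  change 0 < (1 : ℝ) - m.XM at p_XM
  obtain ⟨p_QX, s7⟩ := s6
  change 0 < (1 : ℝ) - m.QX at p_QX
  obtain ⟨p_e2, s8⟩ := s7
    (2 * (v.tu2 * m.eps)) (congrArg (fun y : ℝ => y * (v.tu2 * m.eps)) zX_2199023255552_0)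
    (v.aQ - 2 * (v.tu2 * m.eps)) rfl
  change 0 < v.aQ - 2 * (v.tu2 * m.eps) at p_e2
  obtain ⟨p_rl, s9⟩ := s8
  change 0 < m.rl at p_rl
  obtain ⟨p_hg, s10⟩ := s9
  change 0 < (1 : ℝ) - ms.hg at p_hg
  obtain ⟨p_hgp, s11⟩ := s10
    ((1 / 2 : ℝ) - v4.hgp) rfl
  change 0 < (1 / 2 : ℝ) - v4.hgp at p_hgp
  obtain ⟨p_l1, s12⟩ := s11
    ((5 / 8) * (1 : ℝ)) (congrArg (fun y : ℝ => y * (1 : ℝ)) zX_687194767360_0)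
    ((5 / 8) * (1 : ℝ) - m.l1) rfl
  change 0 < (5 / 8) * (1 : ℝ) - m.l1 at p_l1
  obtain ⟨p_a0, s13⟩ := s12
    ((11 / 32) * (1 : ℝ)) (congrArg (fun y : ℝ => y * (1 : ℝ)) zX_377957122048_0)
    ((11 / 32) * (1 : ℝ) - m.a0) rfl
  change 0 < (11 / 32) * (1 : ℝ) - m.a0 at p_a0
  obtain ⟨p_S, s14⟩ := s13
  change 0 < v.op1 - v.tu * m.eN at p_S
  obtain ⟨p_dri, s15⟩ := s14
    ((1 / 2 : ℝ) - c.dri) rfl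
  change 0 < (1 / 2 : ℝ) - c.dri at p_dri
  obtain ⟨p_d, s16⟩ := s15
  change 0 < (1 : ℝ) - m.d at p_d
  obtain ⟨p_den, s17⟩ := s16
  change 0 < c.den at p_den
  obtain ⟨p_dP, s18⟩ := s17
    ((5 / 8) * (1 : ℝ) - c.dP) rfl
  change 0 < (5 / 8) * (1 : ℝ) - c.dP at p_dP
  obtain ⟨p_V, s19⟩ := ((s18
    (v2.eK * v2.eK) rfl
    (13 : ℝ) zX_14293651161088_0
    (10 : ℝ) zX_10995116277760_0).2
    ((10 : ℝ)⁻¹) rfl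
    ((13 : ℝ) * (10 : ℝ)⁻¹) rfl
    (v2.eK * v2.eK * ((13 : ℝ) * (10 : ℝ)⁻¹)) rfl
    (25 : ℝ) zX_27487790694400_0
    m.C2 m.e_C2
    m.gr m.e_gr
    (2 * v.c0 - v.t) rfl
    m.Gt m.e_Gt
    (2 * v.tu) (congrArg (fun y : ℝ => y * v.tu) zX_2199023255552_0)
    (2 * v.tu + m.eta) rfl
    m.ez m.e_ez
    (m.C2 * m.gr) rfl
    (m.NN * m.ez) rfl
    (v.ei * (m.ka * ms.lsi + m.lfk * phu)) rfl
    (v.u2 * (v.ei * (m.ka * ms.lsi + m.lfk * phu))) rfl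
    (v.op1 * A) rfl
    (v.op1 * A * m.fx) rfl
    (v.R * (v.op1 * A * m.fx)) rfl
    (v.u2 * (v.ei * (m.ka * ms.lsi + m.lfk * phu)) + v.R * (v.op1 * A * m.fx)) rfl
    (v.e * (v.u2 * (v.ei * (m.ka * ms.lsi + m.lfk * phu)) + v.R * (v.op1 * A * m.fx))) rfl
    (m.NN * m.ez * (v.e * (v.u2 * (v.ei * (m.ka * ms.lsi + m.lfk * phu)) + v.R * (v.op1 * A * m.fx)))) rfl
    m.Rg0 m.e_Rg0
    ((1 / 2) * (v.tu * m.eN)) (congrArg (fun y : ℝ => y * (v.tu * m.eN)) zX_549755813888_0)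
    ((1 : ℝ) + (1 / 2) * (v.tu * m.eN)) rfl
    (m.NN * ((1 : ℝ) + (1 / 2) * (v.tu * m.eN))) rfl
    (v.t * v.om1) rfl
    (v.t * v.om1 * v2.bsum) rfl
    (v.op1 * v.aQ) rfl).2
    ((v.op1 * v.aQ)⁻¹) rfl
    (v.t * v.om1 * v2.bsum * (v.op1 * v.aQ)⁻¹) rfl
    (m.NN * ((1 : ℝ) + (1 / 2) * (v.tu * m.eN)) * (v.t * v.om1 * v2.bsum * (v.op1 * v.aQ)⁻¹)) rfl
    m.Rh m.e_Rh
    (v2.lm * m.Rg0) rfl
    ((1 : ℝ) - v2.lm) rfl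
    (v.u2 * m.Rh) rfl
    (((1 : ℝ) - v2.lm) * (v.u2 * m.Rh)) rfl
    (m.C2 * (((1 : ℝ) - v2.lm) * (v.u2 * m.Rh))) rfl
    m.Rg m.e_Rg
  change 0 < m.V at p_V
  obtain ⟨p_B, s20⟩ := s19
  change 0 < c.Bm - (1 / 1024 : ℝ) at p_B
  obtain ⟨p_Rg, s21⟩ := s20
  change 0 < m.Rg at p_Rg
  obtain ⟨p_Rh, s22⟩ := s21
  change 0 < m.Rh at p_Rh
  have nx := nx_of G v4 hccp p_o2p p_Wp p_hgp
  have hga := gam_HC G hb hcc p_o2 p_W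
  obtain ⟨lf0, Ex, hφ⟩ := phi_te G v2 e_i2 e_z p_z1 e_kz e_kk e_phu e_lf e_L p_L e_Ei e_Eh
  exact far_H G ⟨p_XM, p_QX, p_e2, p_rl, p_l1, p_a0, p_S, p_V, p_Rg, p_Rh⟩ nx.1 nx.2 v4.e_hgp hcc p_o2 p_W p_hg D hA hiA hφ c (by rw [e_phu, e_phut]; ring)
    p_dri p_d p_den p_dP p_B

theorem far_X1 {κ : ℝ} {τ : ℂ} {R w : ℝ} {v : B1} (D : PtE (3 * 5⁻¹) v.e κ τ R w)
    (G : Geo κ (shf κ τ) v) (v2 : B2 v) (he2 : 2 ≤ v.e) (h : RAs Pool.Agent.helper71.FG.Crt.X.prog1 [v.e, v.t, v.u, v.n]) :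
    FarPt v.e κ (1 - Real.sinh κ / 1024) w (2 * A5 v.e v.K * Real.sinh κ ^ 2) R
      (RE v.e κ (w * R)) τ := by
  obtain ⟨A, e_A⟩ : ∃ zz : ℝ, zz = v.e * ((1 : ℝ) * (5 : ℝ)⁻¹) := ⟨_, rfl⟩
  obtain ⟨iA, e_iA⟩ : ∃ zz : ℝ, zz = 5 * v.ei := ⟨_, rfl⟩
  obtain ⟨hA, hiA, hAe⟩ := ab_x G v2 e_A e_iA
  rw [hAe]
  obtain ⟨cc, e_cc⟩ : ∃ zz : ℝ, zz = (1 : ℝ) - v.x * ((1 / 2 : ℝ) - v.x * ((21845 / 524288 : ℝ) - (11651 / 8388608) * v.x)) := ⟨_, rfl⟩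
  obtain ⟨b⟩ := exGC v.q cc v.h1
  have hcc : CosB v.x cc := cosB_p e_cc
  obtain ⟨v3⟩ := exB3 v
  obtain ⟨ccp, e_ccp⟩ : ∃ zz : ℝ, zz = (1 : ℝ) - v3.xp * ((1 / 2 : ℝ) - v3.xp * ((21845 / 524288 : ℝ) - (11651 / 8388608) * v3.xp)) := ⟨_, rfl⟩
  obtain ⟨b'⟩ := exGC v.qp ccp v3.hp
  obtain ⟨v4⟩ := exNC v3 b'
  have hccp : CosB v3.xp ccp := cosB_p e_ccp
  obtain ⟨hb⟩ := exHC v b
  obtain ⟨z, e_z⟩ : ∃ zz : ℝ, zz = v.om1 * v.tu * hb.gR * v.nj⁻¹ := ⟨_, rfl⟩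
  obtain ⟨kz, e_kz⟩ : ∃ zz : ℝ, zz = ((1 : ℝ) - (1 / 2) * z) * ((1 : ℝ) - z)⁻¹ := ⟨_, rfl⟩
  obtain ⟨phut, e_phut⟩ : ∃ zz : ℝ, zz = v.u * hb.gR * kz := ⟨_, rfl⟩
  obtain ⟨phu, e_phu⟩ : ∃ zz : ℝ, zz = v.t * phut := ⟨_, rfl⟩
  obtain ⟨lf, e_lf⟩ : ∃ zz : ℝ, zz = z * kz := ⟨_, rfl⟩
  obtain ⟨L, e_L⟩ : ∃ zz : ℝ, zz = lf * v.ei := ⟨_, rfl⟩
  obtain ⟨Ei, e_Ei⟩ : ∃ zz : ℝ, zz = (1 : ℝ) + L * ((45 / 16) * L + (2 : ℝ)) := ⟨_, rfl⟩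
  obtain ⟨Eh, e_Eh⟩ : ∃ zz : ℝ, zz = (1 : ℝ) + L * ((45 / 32) * L + (1 : ℝ)) := ⟨_, rfl⟩
  obtain ⟨ms⟩ := exMs v b hb.g hb.ga
  obtain ⟨m⟩ := exMb (3 * 5⁻¹) v2 A ms.Qb ms.Q1 ms.lsi phu Ei Eh
  obtain ⟨c⟩ := exCH v3 hb ms m v4.gap v4.hgp iA phut
  obtain ⟨p_o2, s0⟩ := (((((((h
    (1 : ℝ) zX_1099511627776_0
    (1 / 2 : ℝ) zX_549755813888_0
    v.tu v.e_tu
    (v.tu * v.n) rfl
    v.h (v.e_h.trans (congrArg (fun y : ℝ => y * (v.tu * v.n)) zX_549755813888_0))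
    v.u2 v.e_u2
    (v.h * v.h) rfl
    v.jm v.e_jm).2
    v.j v.e_j
    (v.h * v.j) rfl
    v.K (v.e_K.trans (congrArg (fun y : ℝ => y * (v.h * v.j)) zX_2199023255552_0))
    (2 * v.j) (congrArg (fun y : ℝ => y * v.j) zX_2199023255552_0)
    v.c0 v.e_c0
    v.m v.e_m
    v.nj v.e_nj
    v.om v.e_om
    v.om1 v.e_om1
    v.op1 v.e_op1
    v2.Y (v2.e_Y.trans (congrArg (fun y : ℝ => y * v.h) zX_10774999203840_0))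
    ((341 / 8192) * v2.Y) (congrArg (fun y : ℝ => y * v2.Y) zX_45768245248_0)
    (1365 / 8192 : ℝ) zX_183207198720_0
    ((341 / 8192) * v2.Y + (1365 / 8192 : ℝ)) rfl
    (v2.Y * ((341 / 8192) * v2.Y + (1365 / 8192 : ℝ))) rfl
    ((1 / 2 : ℝ) + v2.Y * ((341 / 8192) * v2.Y + (1365 / 8192 : ℝ))) rfl
    (v2.Y * ((1 / 2 : ℝ) + v2.Y * ((341 / 8192) * v2.Y + (1365 / 8192 : ℝ)))) rfl
    v2.pY v2.e_pY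
    (v2.Y * v2.pY) rfl
    ((1 / 2) * (v2.Y * v2.pY)) (congrArg (fun y : ℝ => y * (v2.Y * v2.pY)) zX_549755813888_0)
    ((1 : ℝ) + (1 / 2) * (v2.Y * v2.pY)) rfl
    v2.Yp v2.e_Yp
    v.R v.e_R
    (v.K * v.om) rfl
    (2 * v.c0) (congrArg (fun y : ℝ => y * v.c0) zX_2199023255552_0)
    (v.K * v.om + 2 * v.c0) rfl
    v.Dt v.e_Dt
    v.D v.e_D
    v.SQ v.e_SQ
    (v.K * v.K) rfl
    (2 * (v.K * v.K)) (congrArg (fun y : ℝ => y * (v.K * v.K)) zX_2199023255552_0)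
    v.c2 v.e_c2
    (v.c0 * v.Dt) rfl
    v.rhat v.e_rhat).2
    v.LQ v.e_LQ
    ((1 / 2) * v.LQ) (congrArg (fun y : ℝ => y * v.LQ) zX_549755813888_0)
    v.aQ v.e_aQ
    v.ee (v.e_ee.trans (congrArg (fun y : ℝ => y * v.e) zX_549755813888_0))
    v.rho v.e_rho
    (-v.rho) rfl
    v.q v.e_q
    (v.c0 * v.R) rfl
    (v.c0 * v.R * v.rhat) rfl
    v.D2 (v.e_D2.trans (congrArg (fun y : ℝ => y * (v.c0 * v.R * v.rhat)) zX_4398046511104_0))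
    (v.D2 + (1 : ℝ)) rfl).2
    (Real.log (v.D2 + (1 : ℝ))) rfl
    v.L2 v.e_L2
    v.rp v.e_rp
    (-v.rp) rfl
    v.qp v.e_qp
    (v.om * v.K) rfl
    (v.c0 + v.om * v.K) rfl).2
    v.ioK v.e_ioK
    v.h1t v.e_h1t
    (v.om1 * v.t) rfl
    v.h1 v.e_h1
    v.nj2 v.e_nj2
    ((1 : ℝ) - v.u2) rfl
    v.f2 v.e_f2
    v.tu2 v.e_tu2
    (v.c0 + v.R) rfl).2
    ((v.c0 + v.R)⁻¹) rfl
    v.w v.e_w
    (v.w * v.tu) rfl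
    (v.w * v.tu * (v.w * v.tu)) rfl
    ((1 : ℝ) - v.nj2) rfl
    (((1 : ℝ) - v.u2) * ((1 : ℝ) - v.nj2)) rfl
    v.x (x_alt v)).2
    v.ei v.e_ei
    (21845 / 524288 : ℝ) zX_45812285440_0
    ((11651 / 8388608) * v.x) (congrArg (fun y : ℝ => y * v.x) zX_1527119872_0)
    ((21845 / 524288 : ℝ) - (11651 / 8388608) * v.x) rfl
    (v.x * ((21845 / 524288 : ℝ) - (11651 / 8388608) * v.x)) rfl
    ((1 / 2 : ℝ) - v.x * ((21845 / 524288 : ℝ) - (11651 / 8388608) * v.x)) rfl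
    (v.x * ((1 / 2 : ℝ) - v.x * ((21845 / 524288 : ℝ) - (11651 / 8388608) * v.x))) rfl
    cc e_cc
    b.q1 b.e_q1
    (v.q * v.q) rfl
    (v.q * v.q + (1 : ℝ)) rfl
    (v.q * cc) rfl
    (2 * (v.q * cc)) (congrArg (fun y : ℝ => y * (v.q * cc)) zX_2199023255552_0)
    b.o2 b.e_o2).2
    (b.q1⁻¹) rfl
    (b.o2 * b.q1⁻¹) rfl
    b.P1 b.e_P1
    (v.q * v.h1) rfl
    b.qh (b.e_qh.trans (congrArg (fun y : ℝ => y * (v.q * v.h1)) zX_549755813888_0))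
    (b.qh * b.P1) rfl
    b.W b.e_W
  change 0 < b.o2 at p_o2
  obtain ⟨p_W, s1⟩ := s0
  change 0 < b.W at p_W
  obtain ⟨p_o2p, s2⟩ := ((((((((s1).2
    hb.iW hb.e_iW
    (v.ee * v.Dt) rfl
    (6 : ℝ) zX_6597069766656_0
    (v.D + (6 : ℝ)) rfl
    (v.ee * v.Dt * (v.D + (6 : ℝ))) rfl
    (4 * v.D) (congrArg (fun y : ℝ => y * v.D) zX_4398046511104_0)
    (4 * v.D + (6 : ℝ)) rfl).2
    ((4 * v.D + (6 : ℝ))⁻¹) rfl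
    hb.rhoR hb.e_rhoR
    (v.R * hb.rhoR) rfl
    hb.x2 (hb.e_x2.trans (congrArg (fun y : ℝ => y * (v.R * hb.rhoR)) zX_2199023255552_0))
    ((2731 / 16384) * hb.x2) (congrArg (fun y : ℝ => y * hb.x2) zX_183274307584_0)
    ((1 / 2 : ℝ) - (2731 / 16384) * hb.x2) rfl
    (hb.x2 * ((1 / 2 : ℝ) - (2731 / 16384) * hb.x2)) rfl
    ((1 : ℝ) - hb.x2 * ((1 / 2 : ℝ) - (2731 / 16384) * hb.x2)) rfl
    (hb.rhoR * ((1 : ℝ) - hb.x2 * ((1 / 2 : ℝ) - (2731 / 16384) * hb.x2))) rfl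
    hb.G hb.e_G
    hb.g hb.e_g
    (hb.g + (1 / 2 : ℝ)) rfl).2
    ((hb.g + (1 / 2 : ℝ))⁻¹) rfl
    hb.gR hb.e_gR
    hb.ga hb.e_ga
    (b.qh * hb.g) rfl
    (b.qh * hb.g + (1 / 2 : ℝ)) rfl
    ((b.qh * hb.g + (1 / 2 : ℝ)) * b.P1) rfl).2
    (b.o2⁻¹) rfl
    ms.fa ms.e_fa
    ms.hg ms.e_hg
    ((1 / 2) * ms.hg) (congrArg (fun y : ℝ => y * ms.hg) zX_549755813888_0)
    ((1 : ℝ) - (1 / 2) * ms.hg) rfl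
    ((1 : ℝ) - ms.hg) rfl).2
    (((1 : ℝ) - ms.hg)⁻¹) rfl
    ms.lsf ms.e_lsf
    (ms.hg + (1 : ℝ)) rfl
    ms.Qb ms.e_Qb
    (v.om1 * v.op1) rfl
    (v.c0 + v.t) rfl
    (v.om * v.c0) rfl
    (v.om * v.c0 * v.K) rfl
    (2 * (v.om * v.c0 * v.K)) (congrArg (fun y : ℝ => y * (v.om * v.c0 * v.K)) zX_2199023255552_0)
    (v.c2 + 2 * (v.om * v.c0 * v.K)) rfl
    ((v.c0 + v.t) * (v.c2 + 2 * (v.om * v.c0 * v.K))) rfl).2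
    (((v.c0 + v.t) * (v.c2 + 2 * (v.om * v.c0 * v.K)))⁻¹) rfl
    v3.hpt v3.e_hpt
    v3.hp v3.e_hp).2
    (v.SQ⁻¹) rfl
    v3.xp v3.e_xp
    ((11651 / 8388608) * v3.xp) (congrArg (fun y : ℝ => y * v3.xp) zX_1527119872_0)
    ((21845 / 524288 : ℝ) - (11651 / 8388608) * v3.xp) rfl
    (v3.xp * ((21845 / 524288 : ℝ) - (11651 / 8388608) * v3.xp)) rfl
    ((1 / 2 : ℝ) - v3.xp * ((21845 / 524288 : ℝ) - (11651 / 8388608) * v3.xp)) rfl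
    (v3.xp * ((1 / 2 : ℝ) - v3.xp * ((21845 / 524288 : ℝ) - (11651 / 8388608) * v3.xp))) rfl
    ccp e_ccp
    b'.q1 b'.e_q1
    (v.qp * v.qp) rfl
    (v.qp * v.qp + (1 : ℝ)) rfl
    (v.qp * ccp) rfl
    (2 * (v.qp * ccp)) (congrArg (fun y : ℝ => y * (v.qp * ccp)) zX_2199023255552_0)
    b'.o2 b'.e_o2).2
    (b'.q1⁻¹) rfl
    (b'.o2 * b'.q1⁻¹) rfl
    b'.P1 b'.e_P1
    (v.qp * v3.hp) rfl
    b'.qh (b'.e_qh.trans (congrArg (fun y : ℝ => y * (v.qp * v3.hp)) zX_549755813888_0))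
    (b'.qh * b'.P1) rfl
    b'.W b'.e_W
  change 0 < b'.o2 at p_o2p
  obtain ⟨p_Wp, s3⟩ := s2
  change 0 < b'.W at p_Wp
  obtain ⟨p_z1, s4⟩ := (((((((((s3
    ((1 : ℝ) - v.qp) rfl
    (((1 : ℝ) - v.qp) * b'.q1) rfl).2
    (b'.W⁻¹) rfl
    (((1 : ℝ) - v.qp) * b'.q1 * b'.W⁻¹) rfl
    v4.gp (v4.e_gp.trans (congrArg (fun y : ℝ => y * (((1 : ℝ) - v.qp) * b'.q1 * b'.W⁻¹)) zX_549755813888_0))
    (v4.gp + (1 / 2 : ℝ)) rfl).2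
    ((v4.gp + (1 / 2 : ℝ))⁻¹) rfl
    v4.gap v4.e_gap
    v4.hgp v4.e_hgp
    (v.h + (1 : ℝ)) rfl).2
    v2.ih v2.e_ih
    (v.h * v2.ih) rfl
    v2.rh (v2.e_rh.trans (congrArg (fun y : ℝ => y * (v.h * v2.ih)) zX_2199023255552_0))
    v2.mi v2.e_mi
    v2.hm v2.e_hm
    v2.nih v2.e_nih
    (v2.nih * v2.mi) rfl
    v2.bsum v2.e_bsum
    v2.eK v2.e_eK
    (5 : ℝ) zX_5497558138880_0).2
    ((5 : ℝ)⁻¹) rfl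
    ((1 : ℝ) * (5 : ℝ)⁻¹) rfl
    A e_A
    iA (e_iA.trans (congrArg (fun y : ℝ => y * v.ei) zX_5497558138880_0))
    ((209 / 1024) * v.j) (congrArg (fun y : ℝ => y * v.j) zX_224412041216_0)).2
    (v2.Yp⁻¹) rfl
    v2.lm v2.e_lm
    (A * v.op1) rfl
    m.Xe m.e_Xe
    m.XM m.e_XM
    ((1 : ℝ) - m.XM) rfl).2
    m.iX m.e_iX
    m.QX m.e_QX
    ((1 : ℝ) - m.QX) rfl).2
    m.iQX m.e_iQX
    (v.om1 * v.tu) rfl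
    (v.om1 * v.tu * hb.gR) rfl).2
    (v.nj⁻¹) rfl
    z e_z
    ((1 / 2) * z) (congrArg (fun y : ℝ => y * z) zX_549755813888_0)
    ((1 : ℝ) - (1 / 2) * z) rfl
    ((1 : ℝ) - z) rfl).2
    (((1 : ℝ) - z)⁻¹) rfl
    kz e_kz
    (v.u * hb.gR) rfl
    phut e_phut
    phu e_phu
    lf e_lf
  change 0 < (1 : ℝ) - z at p_z1
  obtain ⟨p_L, s5⟩ := s4
    L e_L
    ((5 / 4) * L) (congrArg (fun y : ℝ => y * L) zX_1374389534720_0)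
    ((1 / 2 : ℝ) - (5 / 4) * L) rfl
  change 0 < (1 / 2 : ℝ) - (5 / 4) * L at p_L
  obtain ⟨p_XM, s6⟩ := (((((((((((s5
    ((45 / 16) * L) (congrArg (fun y : ℝ => y * L) zX_3092376453120_0)
    (2 : ℝ) zX_2199023255552_0
    ((45 / 16) * L + (2 : ℝ)) rfl
    (L * ((45 / 16) * L + (2 : ℝ))) rfl
    Ei e_Ei
    ((45 / 32) * L) (congrArg (fun y : ℝ => y * L) zX_1546188226560_0)
    ((45 / 32) * L + (1 : ℝ)) rfl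
    (L * ((45 / 32) * L + (1 : ℝ))) rfl
    Eh e_Eh
    (v.h * v.nj) rfl
    ((1 : ℝ) - v.f2) rfl
    (v.h * v.om) rfl
    (2 * (v.h * v.om)) (congrArg (fun y : ℝ => y * (v.h * v.om)) zX_2199023255552_0)
    ((1 : ℝ) - v.f2 - 2 * (v.h * v.om)) rfl
    (v.h * v.nj * (v.h * v.nj)) rfl
    m.N1 m.e_N1
    (m.N1 + (1 : ℝ)) rfl
    m.s (m.e_s.trans (congrArg (fun y : ℝ => y * (m.N1 + (1 : ℝ))) zX_549755813888_0))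
    ((1 / 2) * v.R) (congrArg (fun y : ℝ => y * v.R) zX_549755813888_0)
    (v.j - (1 / 2) * v.R) rfl
    (v.tu2 * ((1 : ℝ) - v.f2)) rfl
    (v.tu2 * ((1 : ℝ) - v.f2) * v.jm) rfl
    ((1 / 8) * (v.tu2 * ((1 : ℝ) - v.f2) * v.jm)) (congrArg (fun y : ℝ => y * (v.tu2 * ((1 : ℝ) - v.f2) * v.jm)) zX_137438953472_0)
    (v.j - (1 / 2) * v.R + (1 / 8) * (v.tu2 * ((1 : ℝ) - v.f2) * v.jm)) rfl
    m.k0 m.e_k0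
    (v.om1 * v.h1t) rfl
    (v.om1 * v.h1t * v.tu) rfl
    (v.om1 * v.h1t * v.tu * hb.gR) rfl
    (v.om1 * v.h1t * v.tu * hb.gR * ms.lsf) rfl
    m.ls (ls_H G ms m)
    ms.Q1 ms.e_Q1
    (ms.Q1 * m.iX) rfl
    (ms.Qb * m.iQX) rfl
    (ms.Q1 * m.iX + ms.Qb * m.iQX) rfl
    (m.XM * (ms.Q1 * m.iX + ms.Qb * m.iQX)) rfl
    (m.ls + m.XM * (ms.Q1 * m.iX + ms.Qb * m.iQX)) rfl
    m.a0 m.e_a0
    (ms.Q1 * m.XM) rfl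
    (ms.Q1 * m.XM * m.iX) rfl
    (m.ls + ms.Q1 * m.XM * m.iX) rfl
    m.l1 m.e_l1
    ((13 / 64) * m.l1) (congrArg (fun y : ℝ => y * m.l1) zX_223338299392_0)
    ((1 / 2 : ℝ) + (13 / 64) * m.l1) rfl
    (m.l1 * ((1 / 2 : ℝ) + (13 / 64) * m.l1)) rfl
    m.Na m.e_Na
    ((13 / 16) * m.a0) (congrArg (fun y : ℝ => y * m.a0) zX_893353197568_0)
    ((1 : ℝ) + (13 / 16) * m.a0) rfl
    (m.a0 * ((1 : ℝ) + (13 / 16) * m.a0)) rfl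
    m.Nb m.e_Nb
    (v2.rh * v2.nih) rfl
    (v2.rh * v2.nih * Ei) rfl
    m.rn m.e_rn
    (m.k0 * m.Na) rfl
    (v.aQ + (1 / 2 : ℝ)) rfl
    (m.rn * (v.aQ + (1 / 2 : ℝ))) rfl
    m.ka m.e_ka
    (v.aQ + (1 : ℝ)) rfl
    m.kb m.e_kb
    (Eh * (v.aQ + (1 : ℝ))) rfl
    (Eh * (v.aQ + (1 : ℝ)) * v2.nih) rfl
    m.lfk m.e_lfk
    (v.tu * v2.bsum) rfl).2
    (v.aQ⁻¹) rfl
    (v.tu * v2.bsum * v.aQ⁻¹) rfl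
    m.bte (m.e_bte.trans (congrArg (fun y : ℝ => y * (v.tu * v2.bsum * v.aQ⁻¹)) zX_549755813888_0))
    (v.h1t * v.tu) rfl
    (v.h1t * v.tu * hb.gR) rfl
    ms.lsi (lsi_H G ms)
    (v.om1 * m.bte) rfl
    (m.ka * ms.lsi) rfl
    (m.lfk * phu) rfl
    (m.ka * ms.lsi + m.lfk * phu) rfl
    ((m.ka * ms.lsi + m.lfk * phu) * v.ei) rfl
    m.src m.e_src
    (m.ka * ms.Q1) rfl
    (m.ka * ms.Q1 * m.iX) rfl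
    (m.kb * ms.Qb) rfl
    (m.kb * ms.Qb * m.iQX) rfl
    (m.ka * ms.Q1 * m.iX + m.kb * ms.Qb * m.iQX) rfl
    m.fx m.e_fx
    (v.om1 * m.src) rfl
    (m.Xe * m.fx) rfl
    m.eps m.e_eps
    (v.tu2 * m.eps) rfl
    (v.tu2 * m.eps * v.aQ⁻¹) rfl
    ((1 : ℝ) - v.tu2 * m.eps * v.aQ⁻¹) rfl).2
    m.NN m.e_NN
    m.eN m.e_eN
    m.d m.e_d
    m.eta m.e_eta
    (m.eta * v.aQ⁻¹) rfl
    ((1 : ℝ) - m.eta * v.aQ⁻¹) rfl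
    (v.rhat * ((1 : ℝ) - m.eta * v.aQ⁻¹)) rfl
    m.rl m.e_rl).2
    m.irl m.e_irl
    m.yy m.e_yy
    ((1 : ℝ) - m.d) rfl).2
    c.od c.e_od
    (v.h1 * hb.gR) rfl
    c.lsR c.e_lsR
    (hb.rhoR + c.lsR) rfl
    c.PR c.e_PR
    c.dP c.e_dP
    ((13 / 64) * c.dP) (congrArg (fun y : ℝ => y * c.dP) zX_223338299392_0)
    ((1 / 2 : ℝ) + (13 / 64) * c.dP) rfl
    (c.dP * ((1 / 2 : ℝ) + (13 / 64) * c.dP)) rfl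
    c.Ee c.e_Ee
    (c.dP * c.Ee) rfl
    (c.dP * c.Ee * ms.fa) rfl
    (c.dP * c.Ee * ms.fa * ms.Qb) rfl
    c.den c.e_den
    (c.PR * c.Ee) rfl
    (c.PR * c.Ee * m.NN) rfl
    (c.PR * c.Ee * m.NN * v.ei) rfl).2
    (c.den⁻¹) rfl
    c.C c.e_C
    (c.C * v.u) rfl
    (m.ka * m.iX) rfl
    (m.kb * ms.fa) rfl
    (m.kb * ms.fa * ms.Qb) rfl
    (m.kb * ms.fa * ms.Qb * m.iQX) rfl
    (m.ka * m.iX + m.kb * ms.fa * ms.Qb * m.iQX) rfl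
    c.fbt c.e_fbt
    (m.ka * v.h1t) rfl
    (v.tu * hb.G) rfl
    (m.ka * v.h1t * (v.tu * hb.G)) rfl
    c.sl c.e_sl
    (A * v.tu) rfl
    (A * v.tu * v.op1) rfl
    m.XLt m.e_XLt
    (3 : ℝ) zX_3298534883328_0
    m.beta m.e_beta
    (c.C * iA) rfl
    (c.C * iA * v.u) rfl).2
    (v.op1⁻¹) rfl
    (c.C * iA * v.u * v.op1⁻¹) rfl
    (v.e * ms.fa) rfl
    (v.e * ms.fa * v.om1) rfl
    (v.u * v2.bsum) rfl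
    (v.u * v2.bsum * v.aQ⁻¹) rfl
    ((1 / 2) * (v.u * v2.bsum * v.aQ⁻¹)) (congrArg (fun y : ℝ => y * (v.u * v2.bsum * v.aQ⁻¹)) zX_549755813888_0)
    (v.e * ms.fa * v.om1 * ((1 / 2) * (v.u * v2.bsum * v.aQ⁻¹))) rfl
    (m.ka * v.h1t * v.u) rfl
    (m.ka * v.h1t * v.u * hb.G) rfl
    (m.ka * v.h1t * v.u * hb.G * ms.lsf) rfl
    (v.e * ms.fa * v.om1 * ((1 / 2) * (v.u * v2.bsum * v.aQ⁻¹)) + m.ka * v.h1t * v.u * hb.G * ms.lsf) rfl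
    (ms.fa * m.lfk) rfl
    (ms.fa * m.lfk * phut) rfl
    (v.e * ms.fa * v.om1 * ((1 / 2) * (v.u * v2.bsum * v.aQ⁻¹)) + m.ka * v.h1t * v.u * hb.G * ms.lsf + ms.fa * m.lfk * phut) rfl
    c.FXt c.e_FXt
    (v.c0 * v.rhat) rfl
    (4 * (v.c0 * v.rhat)) (congrArg (fun y : ℝ => y * (v.c0 * v.rhat)) zX_4398046511104_0)
    (4 * (v.c0 * v.rhat) - v.Dt) rfl
    (v.u2 * (4 * (v.c0 * v.rhat) - v.Dt)) rfl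
    c.zh c.e_zh
    (v.e * c.zh) rfl
    (v.t * c.zh) rfl
    (v.t * c.zh + (2 : ℝ)) rfl).2
    ((v.t * c.zh + (2 : ℝ))⁻¹) rfl
    c.yh c.e_yh
    (v.t * c.yh) rfl
    ((1 / 2) * (v.t * c.yh)) (congrArg (fun y : ℝ => y * (v.t * c.yh)) zX_549755813888_0)
    ((1 : ℝ) - (1 / 2) * (v.t * c.yh)) rfl
    (c.yh * ((1 : ℝ) - (1 / 2) * (v.t * c.yh))) rfl
    c.S1 c.e_S1
    (v3.hpt * v4.gap) rfl
    (c.S1 + v3.hpt * v4.gap) rfl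
    (c.S1 * (v3.hpt * v4.gap)) rfl
    (v.t * (c.S1 * (v3.hpt * v4.gap))) rfl
    c.S2 c.e_S2
    (v.ee * c.zh) rfl
    (v4.hgp + (1 : ℝ)) rfl
    (v3.hpt * v4.gap * (v4.hgp + (1 : ℝ))) rfl
    (v.ee * c.zh + v3.hpt * v4.gap * (v4.hgp + (1 : ℝ))) rfl
    c.drt c.e_drt
    c.dri c.e_dri
    ((5 / 8) * c.dri) (congrArg (fun y : ℝ => y * c.dri) zX_687194767360_0)
    ((1 : ℝ) + (5 / 8) * c.dri) rfl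
    (c.drt * ((1 : ℝ) + (5 / 8) * c.dri)) rfl
    (c.S2 + c.drt * ((1 : ℝ) + (5 / 8) * c.dri)) rfl
    (c.S2 * (c.drt * ((1 : ℝ) + (5 / 8) * c.dri))) rfl
    (v.t * (c.S2 * (c.drt * ((1 : ℝ) + (5 / 8) * c.dri)))) rfl
    c.S3 c.e_S3
    (v.u * v.n) rfl
    (v.u * v.n * (v.h + (1 : ℝ))) rfl
    (v.u * v.n * (v.h + (1 : ℝ)) * v.j) rfl
    (c.S3 + v.u * v.n * (v.h + (1 : ℝ)) * v.j) rfl
    (c.S3 * (v.u * v.n * (v.h + (1 : ℝ)) * v.j)) rfl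
    (v.t * (c.S3 * (v.u * v.n * (v.h + (1 : ℝ)) * v.j))) rfl
    c.S4 c.e_S4
    c.Dh c.e_Dh
    (v.t * c.Dh) rfl
    ((3 / 8) * (v.t * c.Dh)) (congrArg (fun y : ℝ => y * (v.t * c.Dh)) zX_412316860416_0)
    ((1 / 2 : ℝ) - (3 / 8) * (v.t * c.Dh)) rfl
    (c.Dh * ((1 / 2 : ℝ) - (3 / 8) * (v.t * c.Dh))) rfl
    (-(c.Dh * ((1 / 2 : ℝ) - (3 / 8) * (v.t * c.Dh)))) rfl
    (c.S4 + (-(c.Dh * ((1 / 2 : ℝ) - (3 / 8) * (v.t * c.Dh))))) rfl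
    (c.S4 * (-(c.Dh * ((1 / 2 : ℝ) - (3 / 8) * (v.t * c.Dh))))) rfl
    (v.t * (c.S4 * (-(c.Dh * ((1 / 2 : ℝ) - (3 / 8) * (v.t * c.Dh)))))) rfl
    c.S5 c.e_S5
    (v.u * m.eN) rfl
    (v.u * m.eN * v.op1⁻¹) rfl
    (c.S5 + v.u * m.eN * v.op1⁻¹) rfl
    (c.S5 * (v.u * m.eN * v.op1⁻¹)) rfl
    (v.t * (c.S5 * (v.u * m.eN * v.op1⁻¹))) rfl
    c.S6 c.e_S6
    ((v.h + (1 : ℝ)) * v.op1) rfl
    m.b1 m.e_b1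
    (c.S6 - m.b1) rfl
    (v.t * m.b1) rfl
    ((1 : ℝ) + v.t * m.b1) rfl).2
    (((1 : ℝ) + v.t * m.b1)⁻¹) rfl
    c.S7 c.e_S7
    (v.u * v.tu) rfl
    (v.u * v.tu * m.eN) rfl
    (v.aQ - m.eta) rfl).2
    ((v.aQ - m.eta)⁻¹) rfl
    (v.u * v.tu * m.eN * (v.aQ - m.eta)⁻¹) rfl
    (c.S7 + v.u * v.tu * m.eN * (v.aQ - m.eta)⁻¹) rfl
    (c.S7 * (v.u * v.tu * m.eN * (v.aQ - m.eta)⁻¹)) rfl
    (v.t * (c.S7 * (v.u * v.tu * m.eN * (v.aQ - m.eta)⁻¹))) rfl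
    c.S8 c.e_S8
    (v.t * c.S8) rfl
    c.c1 c.e_c1
    (c.fbt * m.XM) rfl
    (v.t * m.XLt) rfl
    (c.FXt * (v.t * m.XLt)) rfl
    c.rt c.e_rt
    (c.rt * c.c1) rfl
    (c.S8 + c.rt * c.c1) rfl
    (c.S8 + c.rt * c.c1 + c.fbt) rfl
    (c.S8 + c.rt * c.c1 + c.fbt + c.FXt) rfl
    c.Bm c.e_Bm
    (1 / 1024 : ℝ) zX_1073741824_0
    (c.Bm - (1 / 1024 : ℝ)) rfl
    m.m1 m.e_m1
    (m.m1 + (2 : ℝ)) rfl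
    (2 * m.beta) (congrArg (fun y : ℝ => y * m.beta) zX_2199023255552_0)
    (m.m1 + (2 : ℝ) - 2 * m.beta) rfl
    ((v.h + (1 : ℝ)) * (m.m1 + (2 : ℝ) - 2 * m.beta)) rfl
    (m.m1 * (2 * m.beta)) rfl
    (m.m1 * (2 * m.beta) + (1 : ℝ)) rfl).2
    ((m.m1 * (2 * m.beta) + (1 : ℝ))⁻¹) rfl
    ((v.h + (1 : ℝ)) * (m.m1 + (2 : ℝ) - 2 * m.beta) * (m.m1 * (2 * m.beta) + (1 : ℝ))⁻¹) rfl
    (A * m.fx) rfl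
    ((1 / 2) * v2.lm) (congrArg (fun y : ℝ => y * v2.lm) zX_549755813888_0)
    (v.K + (1 / 2) * v2.lm) rfl
    (A * m.fx * (v.K + (1 / 2) * v2.lm)) rfl
    (2 * (A * m.fx * (v.K + (1 / 2) * v2.lm))) (congrArg (fun y : ℝ => y * (A * m.fx * (v.K + (1 / 2) * v2.lm))) zX_2199023255552_0)
    (m.src + 2 * (A * m.fx * (v.K + (1 / 2) * v2.lm))) rfl
    (2 * (m.src + 2 * (A * m.fx * (v.K + (1 / 2) * v2.lm)))) (congrArg (fun y : ℝ => y * (m.src + 2 * (A * m.fx * (v.K + (1 / 2) * v2.lm)))) zX_2199023255552_0)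
    (2 * (m.src + 2 * (A * m.fx * (v.K + (1 / 2) * v2.lm))) * m.NN) rfl
    (v.tu * m.eN) rfl
    (v.op1 - v.tu * m.eN) rfl).2
    ((v.op1 - v.tu * m.eN)⁻¹) rfl
    (2 * (m.src + 2 * (A * m.fx * (v.K + (1 / 2) * v2.lm))) * m.NN * (v.op1 - v.tu * m.eN)⁻¹) rfl
    m.V m.e_V
  change 0 < (1 : ℝ) - m.XM at p_XM
  obtain ⟨p_QX, s7⟩ := s6
  change 0 < (1 : ℝ) - m.QX at p_QX
  obtain ⟨p_e2, s8⟩ := s7
    (2 * (v.tu2 * m.eps)) (congrArg (fun y : ℝ => y * (v.tu2 * m.eps)) zX_2199023255552_0)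
    (v.aQ - 2 * (v.tu2 * m.eps)) rfl
  change 0 < v.aQ - 2 * (v.tu2 * m.eps) at p_e2
  obtain ⟨p_rl, s9⟩ := s8
  change 0 < m.rl at p_rl
  obtain ⟨p_hg, s10⟩ := s9
  change 0 < (1 : ℝ) - ms.hg at p_hg
  obtain ⟨p_hgp, s11⟩ := s10
    ((1 / 2 : ℝ) - v4.hgp) rfl
  change 0 < (1 / 2 : ℝ) - v4.hgp at p_hgp
  obtain ⟨p_l1, s12⟩ := s11
    ((5 / 8) * (1 : ℝ)) (congrArg (fun y : ℝ => y * (1 : ℝ)) zX_687194767360_0)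
    ((5 / 8) * (1 : ℝ) - m.l1) rfl
  change 0 < (5 / 8) * (1 : ℝ) - m.l1 at p_l1
  obtain ⟨p_a0, s13⟩ := s12
    ((11 / 32) * (1 : ℝ)) (congrArg (fun y : ℝ => y * (1 : ℝ)) zX_377957122048_0)
    ((11 / 32) * (1 : ℝ) - m.a0) rfl
  change 0 < (11 / 32) * (1 : ℝ) - m.a0 at p_a0
  obtain ⟨p_S, s14⟩ := s13
  change 0 < v.op1 - v.tu * m.eN at p_S
  obtain ⟨p_dri, s15⟩ := s14
    ((1 / 2 : ℝ) - c.dri) rfl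
  change 0 < (1 / 2 : ℝ) - c.dri at p_dri
  obtain ⟨p_d, s16⟩ := s15
  change 0 < (1 : ℝ) - m.d at p_d
  obtain ⟨p_den, s17⟩ := s16
  change 0 < c.den at p_den
  obtain ⟨p_dP, s18⟩ := s17
    ((5 / 8) * (1 : ℝ) - c.dP) rfl
  change 0 < (5 / 8) * (1 : ℝ) - c.dP at p_dP
  obtain ⟨p_V, s19⟩ := ((s18
    (v2.eK * v2.eK) rfl
    (13 : ℝ) zX_14293651161088_0
    (10 : ℝ) zX_10995116277760_0).2
    ((10 : ℝ)⁻¹) rfl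
    ((13 : ℝ) * (10 : ℝ)⁻¹) rfl
    (v2.eK * v2.eK * ((13 : ℝ) * (10 : ℝ)⁻¹)) rfl
    (25 : ℝ) zX_27487790694400_0
    m.C2 m.e_C2
    m.gr m.e_gr
    (2 * v.c0 - v.t) rfl
    m.Gt m.e_Gt
    (2 * v.tu) (congrArg (fun y : ℝ => y * v.tu) zX_2199023255552_0)
    (2 * v.tu + m.eta) rfl
    m.ez m.e_ez
    (m.C2 * m.gr) rfl
    (m.NN * m.ez) rfl
    (v.ei * (m.ka * ms.lsi + m.lfk * phu)) rfl
    (v.u2 * (v.ei * (m.ka * ms.lsi + m.lfk * phu))) rfl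
    (v.op1 * A) rfl
    (v.op1 * A * m.fx) rfl
    (v.R * (v.op1 * A * m.fx)) rfl
    (v.u2 * (v.ei * (m.ka * ms.lsi + m.lfk * phu)) + v.R * (v.op1 * A * m.fx)) rfl
    (v.e * (v.u2 * (v.ei * (m.ka * ms.lsi + m.lfk * phu)) + v.R * (v.op1 * A * m.fx))) rfl
    (m.NN * m.ez * (v.e * (v.u2 * (v.ei * (m.ka * ms.lsi + m.lfk * phu)) + v.R * (v.op1 * A * m.fx)))) rfl
    m.Rg0 m.e_Rg0
    ((1 / 2) * (v.tu * m.eN)) (congrArg (fun y : ℝ => y * (v.tu * m.eN)) zX_549755813888_0)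
    ((1 : ℝ) + (1 / 2) * (v.tu * m.eN)) rfl
    (m.NN * ((1 : ℝ) + (1 / 2) * (v.tu * m.eN))) rfl
    (v.t * v.om1) rfl
    (v.t * v.om1 * v2.bsum) rfl
    (v.op1 * v.aQ) rfl).2
    ((v.op1 * v.aQ)⁻¹) rfl
    (v.t * v.om1 * v2.bsum * (v.op1 * v.aQ)⁻¹) rfl
    (m.NN * ((1 : ℝ) + (1 / 2) * (v.tu * m.eN)) * (v.t * v.om1 * v2.bsum * (v.op1 * v.aQ)⁻¹)) rfl
    m.Rh m.e_Rh
    (v2.lm * m.Rg0) rfl
    ((1 : ℝ) - v2.lm) rfl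
    (v.u2 * m.Rh) rfl
    (((1 : ℝ) - v2.lm) * (v.u2 * m.Rh)) rfl
    (m.C2 * (((1 : ℝ) - v2.lm) * (v.u2 * m.Rh))) rfl
    m.Rg m.e_Rg
  change 0 < m.V at p_V
  obtain ⟨p_B, s20⟩ := s19
  change 0 < c.Bm - (1 / 1024 : ℝ) at p_B
  obtain ⟨p_Rg, s21⟩ := s20
  change 0 < m.Rg at p_Rg
  obtain ⟨p_Rh, s22⟩ := s21
  change 0 < m.Rh at p_Rh
  have nx := nx_of G v4 hccp p_o2p p_Wp p_hgp
  have hga := gam_HC G hb hcc p_o2 p_W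
  obtain ⟨lf0, Ex, hφ⟩ := phi_near G v2 hga (near_zHC G hb e_z) p_z1 e_kz (near_pHC G hb e_phu e_phut) e_lf e_L p_L e_Ei e_Eh
  exact far_H G ⟨p_XM, p_QX, p_e2, p_rl, p_l1, p_a0, p_S, p_V, p_Rg, p_Rh⟩ nx.1 nx.2 v4.e_hgp hcc p_o2 p_W p_hg D hA hiA hφ c e_phu
    p_dri p_d p_den p_dP p_B

theorem far_X2 {κ : ℝ} {τ : ℂ} {R w : ℝ} {v : B1} (D : PtE (3 * 5⁻¹) v.e κ τ R w)
    (G : Geo κ (shf κ τ) v) (v2 : B2 v) (he2 : 2 ≤ v.e) (h : RAs Pool.Agent.helper71.FG.Crt.X.prog2 [v.e, v.t, v.u, v.n]) :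
    FarPt v.e κ (1 - Real.sinh κ / 1024) w (2 * A5 v.e v.K * Real.sinh κ ^ 2) R
      (RE v.e κ (w * R)) τ := by
  obtain ⟨A, e_A⟩ : ∃ zz : ℝ, zz = v.e * ((1 : ℝ) * (5 : ℝ)⁻¹) := ⟨_, rfl⟩
  obtain ⟨iA, e_iA⟩ : ∃ zz : ℝ, zz = 5 * v.ei := ⟨_, rfl⟩
  obtain ⟨hA, hiA, hAe⟩ := ab_x G v2 e_A e_iA
  rw [hAe]
  obtain ⟨cc, e_cc⟩ : ∃ zz : ℝ, zz = (1 : ℝ) - v.x * ((1 / 2 : ℝ) - v.x * ((21845 / 524288 : ℝ) - (11651 / 8388608) * v.x)) := ⟨_, rfl⟩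
  obtain ⟨b⟩ := exGC v.q cc v.h1
  have hcc : CosB v.x cc := cosB_p e_cc
  obtain ⟨v3⟩ := exB3 v
  obtain ⟨ccp, e_ccp⟩ : ∃ zz : ℝ, zz = (1 : ℝ) - v3.xp * ((1 / 2 : ℝ) - v3.xp * ((21845 / 524288 : ℝ) - (11651 / 8388608) * v3.xp)) := ⟨_, rfl⟩
  obtain ⟨b'⟩ := exGC v.qp ccp v3.hp
  obtain ⟨v4⟩ := exNC v3 b'
  have hccp : CosB v3.xp ccp := cosB_p e_ccp
  obtain ⟨hb⟩ := exHC v b
  obtain ⟨phu, e_phu⟩ : ∃ zz : ℝ, zz = (1 / 2) * ((3 / 2) * (v.t * hb.gR) + (683 / 1024 : ℝ)) := ⟨_, rfl⟩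
  obtain ⟨phut, e_phut⟩ : ∃ zz : ℝ, zz = phu * v.t⁻¹ := ⟨_, rfl⟩
  obtain ⟨Ei, e_Ei⟩ : ∃ zz : ℝ, zz = 2 * v.ei + (1 : ℝ) := ⟨_, rfl⟩
  obtain ⟨Eh, e_Eh⟩ : ∃ zz : ℝ, zz = v.ei + (1 : ℝ) := ⟨_, rfl⟩
  obtain ⟨ms⟩ := exMs v b hb.g hb.ga
  obtain ⟨m⟩ := exMb (3 * 5⁻¹) v2 A ms.Qb ms.Q1 ms.lsi phu Ei Eh
  obtain ⟨c⟩ := exCH v3 hb ms m v4.gap v4.hgp iA phut
  obtain ⟨p_o2, s0⟩ := (((((((h
    (1 : ℝ) zX_1099511627776_0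
    (1 / 2 : ℝ) zX_549755813888_0
    v.tu v.e_tu
    (v.tu * v.n) rfl
    v.h (v.e_h.trans (congrArg (fun y : ℝ => y * (v.tu * v.n)) zX_549755813888_0))
    v.u2 v.e_u2
    (v.h * v.h) rfl
    v.jm v.e_jm).2
    v.j v.e_j
    (v.h * v.j) rfl
    v.K (v.e_K.trans (congrArg (fun y : ℝ => y * (v.h * v.j)) zX_2199023255552_0))
    (2 * v.j) (congrArg (fun y : ℝ => y * v.j) zX_2199023255552_0)
    v.c0 v.e_c0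
    v.m v.e_m
    v.nj v.e_nj
    v.om v.e_om
    v.om1 v.e_om1
    v.op1 v.e_op1
    v2.Y (v2.e_Y.trans (congrArg (fun y : ℝ => y * v.h) zX_10774999203840_0))
    ((341 / 8192) * v2.Y) (congrArg (fun y : ℝ => y * v2.Y) zX_45768245248_0)
    (1365 / 8192 : ℝ) zX_183207198720_0
    ((341 / 8192) * v2.Y + (1365 / 8192 : ℝ)) rfl
    (v2.Y * ((341 / 8192) * v2.Y + (1365 / 8192 : ℝ))) rfl
    ((1 / 2 : ℝ) + v2.Y * ((341 / 8192) * v2.Y + (1365 / 8192 : ℝ))) rfl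
    (v2.Y * ((1 / 2 : ℝ) + v2.Y * ((341 / 8192) * v2.Y + (1365 / 8192 : ℝ)))) rfl
    v2.pY v2.e_pY
    (v2.Y * v2.pY) rfl
    ((1 / 2) * (v2.Y * v2.pY)) (congrArg (fun y : ℝ => y * (v2.Y * v2.pY)) zX_549755813888_0)
    ((1 : ℝ) + (1 / 2) * (v2.Y * v2.pY)) rfl
    v2.Yp v2.e_Yp
    v.R v.e_R
    (v.K * v.om) rfl
    (2 * v.c0) (congrArg (fun y : ℝ => y * v.c0) zX_2199023255552_0)
    (v.K * v.om + 2 * v.c0) rfl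
    v.Dt v.e_Dt
    v.D v.e_D
    v.SQ v.e_SQ
    (v.K * v.K) rfl
    (2 * (v.K * v.K)) (congrArg (fun y : ℝ => y * (v.K * v.K)) zX_2199023255552_0)
    v.c2 v.e_c2
    (v.c0 * v.Dt) rfl
    v.rhat v.e_rhat).2
    v.LQ v.e_LQ
    ((1 / 2) * v.LQ) (congrArg (fun y : ℝ => y * v.LQ) zX_549755813888_0)
    v.aQ v.e_aQ
    v.ee (v.e_ee.trans (congrArg (fun y : ℝ => y * v.e) zX_549755813888_0))
    v.rho v.e_rho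
    (-v.rho) rfl
    v.q v.e_q
    (v.c0 * v.R) rfl
    (v.c0 * v.R * v.rhat) rfl
    v.D2 (v.e_D2.trans (congrArg (fun y : ℝ => y * (v.c0 * v.R * v.rhat)) zX_4398046511104_0))
    (v.D2 + (1 : ℝ)) rfl).2
    (Real.log (v.D2 + (1 : ℝ))) rfl
    v.L2 v.e_L2
    v.rp v.e_rp
    (-v.rp) rfl
    v.qp v.e_qp
    (v.om * v.K) rfl
    (v.c0 + v.om * v.K) rfl).2
    v.ioK v.e_ioK
    v.h1t v.e_h1t
    (v.om1 * v.t) rfl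
    v.h1 v.e_h1
    v.nj2 v.e_nj2
    ((1 : ℝ) - v.u2) rfl
    v.f2 v.e_f2
    v.tu2 v.e_tu2
    (v.c0 + v.R) rfl).2
    ((v.c0 + v.R)⁻¹) rfl
    v.w v.e_w
    (v.w * v.tu) rfl
    (v.w * v.tu * (v.w * v.tu)) rfl
    ((1 : ℝ) - v.nj2) rfl
    (((1 : ℝ) - v.u2) * ((1 : ℝ) - v.nj2)) rfl
    v.x (x_alt v)).2
    v.ei v.e_ei
    (21845 / 524288 : ℝ) zX_45812285440_0
    ((11651 / 8388608) * v.x) (congrArg (fun y : ℝ => y * v.x) zX_1527119872_0)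
    ((21845 / 524288 : ℝ) - (11651 / 8388608) * v.x) rfl
    (v.x * ((21845 / 524288 : ℝ) - (11651 / 8388608) * v.x)) rfl
    ((1 / 2 : ℝ) - v.x * ((21845 / 524288 : ℝ) - (11651 / 8388608) * v.x)) rfl
    (v.x * ((1 / 2 : ℝ) - v.x * ((21845 / 524288 : ℝ) - (11651 / 8388608) * v.x))) rfl
    cc e_cc
    b.q1 b.e_q1
    (v.q * v.q) rfl
    (v.q * v.q + (1 : ℝ)) rfl
    (v.q * cc) rfl
    (2 * (v.q * cc)) (congrArg (fun y : ℝ => y * (v.q * cc)) zX_2199023255552_0)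
    b.o2 b.e_o2).2
    (b.q1⁻¹) rfl
    (b.o2 * b.q1⁻¹) rfl
    b.P1 b.e_P1
    (v.q * v.h1) rfl
    b.qh (b.e_qh.trans (congrArg (fun y : ℝ => y * (v.q * v.h1)) zX_549755813888_0))
    (b.qh * b.P1) rfl
    b.W b.e_W
  change 0 < b.o2 at p_o2
  obtain ⟨p_W, s1⟩ := s0
  change 0 < b.W at p_W
  obtain ⟨p_o2p, s2⟩ := ((((((((s1).2
    hb.iW hb.e_iW
    (v.ee * v.Dt) rfl
    (6 : ℝ) zX_6597069766656_0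
    (v.D + (6 : ℝ)) rfl
    (v.ee * v.Dt * (v.D + (6 : ℝ))) rfl
    (4 * v.D) (congrArg (fun y : ℝ => y * v.D) zX_4398046511104_0)
    (4 * v.D + (6 : ℝ)) rfl).2
    ((4 * v.D + (6 : ℝ))⁻¹) rfl
    hb.rhoR hb.e_rhoR
    (v.R * hb.rhoR) rfl
    hb.x2 (hb.e_x2.trans (congrArg (fun y : ℝ => y * (v.R * hb.rhoR)) zX_2199023255552_0))
    ((2731 / 16384) * hb.x2) (congrArg (fun y : ℝ => y * hb.x2) zX_183274307584_0)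
    ((1 / 2 : ℝ) - (2731 / 16384) * hb.x2) rfl
    (hb.x2 * ((1 / 2 : ℝ) - (2731 / 16384) * hb.x2)) rfl
    ((1 : ℝ) - hb.x2 * ((1 / 2 : ℝ) - (2731 / 16384) * hb.x2)) rfl
    (hb.rhoR * ((1 : ℝ) - hb.x2 * ((1 / 2 : ℝ) - (2731 / 16384) * hb.x2))) rfl
    hb.G hb.e_G
    hb.g hb.e_g
    (hb.g + (1 / 2 : ℝ)) rfl).2
    ((hb.g + (1 / 2 : ℝ))⁻¹) rfl
    hb.gR hb.e_gR
    hb.ga hb.e_ga
    (b.qh * hb.g) rfl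
    (b.qh * hb.g + (1 / 2 : ℝ)) rfl
    ((b.qh * hb.g + (1 / 2 : ℝ)) * b.P1) rfl).2
    (b.o2⁻¹) rfl
    ms.fa ms.e_fa
    ms.hg ms.e_hg
    ((1 / 2) * ms.hg) (congrArg (fun y : ℝ => y * ms.hg) zX_549755813888_0)
    ((1 : ℝ) - (1 / 2) * ms.hg) rfl
    ((1 : ℝ) - ms.hg) rfl).2
    (((1 : ℝ) - ms.hg)⁻¹) rfl
    ms.lsf ms.e_lsf
    (ms.hg + (1 : ℝ)) rfl
    ms.Qb ms.e_Qb
    (v.om1 * v.op1) rfl
    (v.c0 + v.t) rfl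
    (v.om * v.c0) rfl
    (v.om * v.c0 * v.K) rfl
    (2 * (v.om * v.c0 * v.K)) (congrArg (fun y : ℝ => y * (v.om * v.c0 * v.K)) zX_2199023255552_0)
    (v.c2 + 2 * (v.om * v.c0 * v.K)) rfl
    ((v.c0 + v.t) * (v.c2 + 2 * (v.om * v.c0 * v.K))) rfl).2
    (((v.c0 + v.t) * (v.c2 + 2 * (v.om * v.c0 * v.K)))⁻¹) rfl
    v3.hpt v3.e_hpt
    v3.hp v3.e_hp).2
    (v.SQ⁻¹) rfl
    v3.xp v3.e_xp
    ((11651 / 8388608) * v3.xp) (congrArg (fun y : ℝ => y * v3.xp) zX_1527119872_0)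
    ((21845 / 524288 : ℝ) - (11651 / 8388608) * v3.xp) rfl
    (v3.xp * ((21845 / 524288 : ℝ) - (11651 / 8388608) * v3.xp)) rfl
    ((1 / 2 : ℝ) - v3.xp * ((21845 / 524288 : ℝ) - (11651 / 8388608) * v3.xp)) rfl
    (v3.xp * ((1 / 2 : ℝ) - v3.xp * ((21845 / 524288 : ℝ) - (11651 / 8388608) * v3.xp))) rfl
    ccp e_ccp
    b'.q1 b'.e_q1
    (v.qp * v.qp) rfl
    (v.qp * v.qp + (1 : ℝ)) rfl
    (v.qp * ccp) rfl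
    (2 * (v.qp * ccp)) (congrArg (fun y : ℝ => y * (v.qp * ccp)) zX_2199023255552_0)
    b'.o2 b'.e_o2).2
    (b'.q1⁻¹) rfl
    (b'.o2 * b'.q1⁻¹) rfl
    b'.P1 b'.e_P1
    (v.qp * v3.hp) rfl
    b'.qh (b'.e_qh.trans (congrArg (fun y : ℝ => y * (v.qp * v3.hp)) zX_549755813888_0))
    (b'.qh * b'.P1) rfl
    b'.W b'.e_W
  change 0 < b'.o2 at p_o2p
  obtain ⟨p_Wp, s3⟩ := s2
  change 0 < b'.W at p_Wp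
  obtain ⟨p_XM, s4⟩ := (((((((((((((((((((s3
    ((1 : ℝ) - v.qp) rfl
    (((1 : ℝ) - v.qp) * b'.q1) rfl).2
    (b'.W⁻¹) rfl
    (((1 : ℝ) - v.qp) * b'.q1 * b'.W⁻¹) rfl
    v4.gp (v4.e_gp.trans (congrArg (fun y : ℝ => y * (((1 : ℝ) - v.qp) * b'.q1 * b'.W⁻¹)) zX_549755813888_0))
    (v4.gp + (1 / 2 : ℝ)) rfl).2
    ((v4.gp + (1 / 2 : ℝ))⁻¹) rfl
    v4.gap v4.e_gap
    v4.hgp v4.e_hgp
    (v.h + (1 : ℝ)) rfl).2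
    v2.ih v2.e_ih
    (v.h * v2.ih) rfl
    v2.rh (v2.e_rh.trans (congrArg (fun y : ℝ => y * (v.h * v2.ih)) zX_2199023255552_0))
    v2.mi v2.e_mi
    v2.hm v2.e_hm
    v2.nih v2.e_nih
    (v2.nih * v2.mi) rfl
    v2.bsum v2.e_bsum
    v2.eK v2.e_eK
    (5 : ℝ) zX_5497558138880_0).2
    ((5 : ℝ)⁻¹) rfl
    ((1 : ℝ) * (5 : ℝ)⁻¹) rfl
    A e_A
    iA (e_iA.trans (congrArg (fun y : ℝ => y * v.ei) zX_5497558138880_0))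
    ((209 / 1024) * v.j) (congrArg (fun y : ℝ => y * v.j) zX_224412041216_0)).2
    (v2.Yp⁻¹) rfl
    v2.lm v2.e_lm
    (A * v.op1) rfl
    m.Xe m.e_Xe
    m.XM m.e_XM
    ((1 : ℝ) - m.XM) rfl).2
    m.iX m.e_iX
    m.QX m.e_QX
    ((1 : ℝ) - m.QX) rfl).2
    m.iQX m.e_iQX
    (v.t * hb.gR) rfl
    ((3 / 2) * (v.t * hb.gR)) (congrArg (fun y : ℝ => y * (v.t * hb.gR)) zX_1649267441664_0)
    (683 / 1024 : ℝ) zX_733365665792_0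
    ((3 / 2) * (v.t * hb.gR) + (683 / 1024 : ℝ)) rfl
    phu (e_phu.trans (congrArg (fun y : ℝ => y * ((3 / 2) * (v.t * hb.gR) + (683 / 1024 : ℝ))) zX_549755813888_0))
    (2 * v.ei) (congrArg (fun y : ℝ => y * v.ei) zX_2199023255552_0)
    Ei e_Ei
    Eh e_Eh
    (v.h * v.nj) rfl
    ((1 : ℝ) - v.f2) rfl
    (v.h * v.om) rfl
    (2 * (v.h * v.om)) (congrArg (fun y : ℝ => y * (v.h * v.om)) zX_2199023255552_0)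
    ((1 : ℝ) - v.f2 - 2 * (v.h * v.om)) rfl
    (v.h * v.nj * (v.h * v.nj)) rfl
    m.N1 m.e_N1
    (m.N1 + (1 : ℝ)) rfl
    m.s (m.e_s.trans (congrArg (fun y : ℝ => y * (m.N1 + (1 : ℝ))) zX_549755813888_0))
    ((1 / 2) * v.R) (congrArg (fun y : ℝ => y * v.R) zX_549755813888_0)
    (v.j - (1 / 2) * v.R) rfl
    (v.tu2 * ((1 : ℝ) - v.f2)) rfl
    (v.tu2 * ((1 : ℝ) - v.f2) * v.jm) rfl
    ((1 / 8) * (v.tu2 * ((1 : ℝ) - v.f2) * v.jm)) (congrArg (fun y : ℝ => y * (v.tu2 * ((1 : ℝ) - v.f2) * v.jm)) zX_137438953472_0)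
    (v.j - (1 / 2) * v.R + (1 / 8) * (v.tu2 * ((1 : ℝ) - v.f2) * v.jm)) rfl
    m.k0 m.e_k0
    (v.om1 * v.h1t) rfl
    (v.om1 * v.h1t * v.tu) rfl
    (v.om1 * v.h1t * v.tu * hb.gR) rfl
    (v.om1 * v.h1t * v.tu * hb.gR * ms.lsf) rfl
    m.ls (ls_H G ms m)
    ms.Q1 ms.e_Q1
    (ms.Q1 * m.iX) rfl
    (ms.Qb * m.iQX) rfl
    (ms.Q1 * m.iX + ms.Qb * m.iQX) rfl
    (m.XM * (ms.Q1 * m.iX + ms.Qb * m.iQX)) rfl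
    (m.ls + m.XM * (ms.Q1 * m.iX + ms.Qb * m.iQX)) rfl
    m.a0 m.e_a0
    (ms.Q1 * m.XM) rfl
    (ms.Q1 * m.XM * m.iX) rfl
    (m.ls + ms.Q1 * m.XM * m.iX) rfl
    m.l1 m.e_l1
    ((13 / 64) * m.l1) (congrArg (fun y : ℝ => y * m.l1) zX_223338299392_0)
    ((1 / 2 : ℝ) + (13 / 64) * m.l1) rfl
    (m.l1 * ((1 / 2 : ℝ) + (13 / 64) * m.l1)) rfl
    m.Na m.e_Na
    ((13 / 16) * m.a0) (congrArg (fun y : ℝ => y * m.a0) zX_893353197568_0)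
    ((1 : ℝ) + (13 / 16) * m.a0) rfl
    (m.a0 * ((1 : ℝ) + (13 / 16) * m.a0)) rfl
    m.Nb m.e_Nb
    (v2.rh * v2.nih) rfl
    (v2.rh * v2.nih * Ei) rfl
    m.rn m.e_rn
    (m.k0 * m.Na) rfl
    (v.aQ + (1 / 2 : ℝ)) rfl
    (m.rn * (v.aQ + (1 / 2 : ℝ))) rfl
    m.ka m.e_ka
    (v.aQ + (1 : ℝ)) rfl
    m.kb m.e_kb
    (Eh * (v.aQ + (1 : ℝ))) rfl
    (Eh * (v.aQ + (1 : ℝ)) * v2.nih) rfl
    m.lfk m.e_lfk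
    (v.tu * v2.bsum) rfl).2
    (v.aQ⁻¹) rfl
    (v.tu * v2.bsum * v.aQ⁻¹) rfl
    m.bte (m.e_bte.trans (congrArg (fun y : ℝ => y * (v.tu * v2.bsum * v.aQ⁻¹)) zX_549755813888_0))
    (v.h1t * v.tu) rfl
    (v.h1t * v.tu * hb.gR) rfl
    ms.lsi (lsi_H G ms)
    (v.om1 * m.bte) rfl
    (m.ka * ms.lsi) rfl
    (m.lfk * phu) rfl
    (m.ka * ms.lsi + m.lfk * phu) rfl
    ((m.ka * ms.lsi + m.lfk * phu) * v.ei) rfl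
    m.src m.e_src
    (m.ka * ms.Q1) rfl
    (m.ka * ms.Q1 * m.iX) rfl
    (m.kb * ms.Qb) rfl
    (m.kb * ms.Qb * m.iQX) rfl
    (m.ka * ms.Q1 * m.iX + m.kb * ms.Qb * m.iQX) rfl
    m.fx m.e_fx
    (v.om1 * m.src) rfl
    (m.Xe * m.fx) rfl
    m.eps m.e_eps
    (v.tu2 * m.eps) rfl
    (v.tu2 * m.eps * v.aQ⁻¹) rfl
    ((1 : ℝ) - v.tu2 * m.eps * v.aQ⁻¹) rfl).2
    m.NN m.e_NN
    m.eN m.e_eN
    m.d m.e_d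
    m.eta m.e_eta
    (m.eta * v.aQ⁻¹) rfl
    ((1 : ℝ) - m.eta * v.aQ⁻¹) rfl
    (v.rhat * ((1 : ℝ) - m.eta * v.aQ⁻¹)) rfl
    m.rl m.e_rl).2
    m.irl m.e_irl
    m.yy m.e_yy
    ((1 : ℝ) - m.d) rfl).2
    c.od c.e_od
    (v.h1 * hb.gR) rfl
    c.lsR c.e_lsR
    (hb.rhoR + c.lsR) rfl
    c.PR c.e_PR
    c.dP c.e_dP
    ((13 / 64) * c.dP) (congrArg (fun y : ℝ => y * c.dP) zX_223338299392_0)
    ((1 / 2 : ℝ) + (13 / 64) * c.dP) rfl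
    (c.dP * ((1 / 2 : ℝ) + (13 / 64) * c.dP)) rfl
    c.Ee c.e_Ee
    (c.dP * c.Ee) rfl
    (c.dP * c.Ee * ms.fa) rfl
    (c.dP * c.Ee * ms.fa * ms.Qb) rfl
    c.den c.e_den
    (c.PR * c.Ee) rfl
    (c.PR * c.Ee * m.NN) rfl
    (c.PR * c.Ee * m.NN * v.ei) rfl).2
    (c.den⁻¹) rfl
    c.C c.e_C
    (c.C * v.u) rfl
    (m.ka * m.iX) rfl
    (m.kb * ms.fa) rfl
    (m.kb * ms.fa * ms.Qb) rfl
    (m.kb * ms.fa * ms.Qb * m.iQX) rfl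
    (m.ka * m.iX + m.kb * ms.fa * ms.Qb * m.iQX) rfl
    c.fbt c.e_fbt
    (m.ka * v.h1t) rfl
    (v.tu * hb.G) rfl
    (m.ka * v.h1t * (v.tu * hb.G)) rfl
    c.sl c.e_sl
    (A * v.tu) rfl
    (A * v.tu * v.op1) rfl
    m.XLt m.e_XLt
    (3 : ℝ) zX_3298534883328_0
    m.beta m.e_beta).2
    (v.t⁻¹) rfl
    phut e_phut
    (c.C * iA) rfl
    (c.C * iA * v.u) rfl).2
    (v.op1⁻¹) rfl
    (c.C * iA * v.u * v.op1⁻¹) rfl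
    (v.e * ms.fa) rfl
    (v.e * ms.fa * v.om1) rfl
    (v.u * v2.bsum) rfl
    (v.u * v2.bsum * v.aQ⁻¹) rfl
    ((1 / 2) * (v.u * v2.bsum * v.aQ⁻¹)) (congrArg (fun y : ℝ => y * (v.u * v2.bsum * v.aQ⁻¹)) zX_549755813888_0)
    (v.e * ms.fa * v.om1 * ((1 / 2) * (v.u * v2.bsum * v.aQ⁻¹))) rfl
    (m.ka * v.h1t * v.u) rfl
    (m.ka * v.h1t * v.u * hb.G) rfl
    (m.ka * v.h1t * v.u * hb.G * ms.lsf) rfl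
    (v.e * ms.fa * v.om1 * ((1 / 2) * (v.u * v2.bsum * v.aQ⁻¹)) + m.ka * v.h1t * v.u * hb.G * ms.lsf) rfl
    (ms.fa * m.lfk) rfl
    (ms.fa * m.lfk * phut) rfl
    (v.e * ms.fa * v.om1 * ((1 / 2) * (v.u * v2.bsum * v.aQ⁻¹)) + m.ka * v.h1t * v.u * hb.G * ms.lsf + ms.fa * m.lfk * phut) rfl
    c.FXt c.e_FXt
    (v.c0 * v.rhat) rfl
    (4 * (v.c0 * v.rhat)) (congrArg (fun y : ℝ => y * (v.c0 * v.rhat)) zX_4398046511104_0)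
    (4 * (v.c0 * v.rhat) - v.Dt) rfl
    (v.u2 * (4 * (v.c0 * v.rhat) - v.Dt)) rfl
    c.zh c.e_zh
    (v.e * c.zh) rfl
    (v.t * c.zh) rfl
    (2 : ℝ) zX_2199023255552_0
    (v.t * c.zh + (2 : ℝ)) rfl).2
    ((v.t * c.zh + (2 : ℝ))⁻¹) rfl
    c.yh c.e_yh
    (v.t * c.yh) rfl
    ((1 / 2) * (v.t * c.yh)) (congrArg (fun y : ℝ => y * (v.t * c.yh)) zX_549755813888_0)
    ((1 : ℝ) - (1 / 2) * (v.t * c.yh)) rfl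
    (c.yh * ((1 : ℝ) - (1 / 2) * (v.t * c.yh))) rfl
    c.S1 c.e_S1
    (v3.hpt * v4.gap) rfl
    (c.S1 + v3.hpt * v4.gap) rfl
    (c.S1 * (v3.hpt * v4.gap)) rfl
    (v.t * (c.S1 * (v3.hpt * v4.gap))) rfl
    c.S2 c.e_S2
    (v.ee * c.zh) rfl
    (v4.hgp + (1 : ℝ)) rfl
    (v3.hpt * v4.gap * (v4.hgp + (1 : ℝ))) rfl
    (v.ee * c.zh + v3.hpt * v4.gap * (v4.hgp + (1 : ℝ))) rfl
    c.drt c.e_drt
    c.dri c.e_dri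
    ((5 / 8) * c.dri) (congrArg (fun y : ℝ => y * c.dri) zX_687194767360_0)
    ((1 : ℝ) + (5 / 8) * c.dri) rfl
    (c.drt * ((1 : ℝ) + (5 / 8) * c.dri)) rfl
    (c.S2 + c.drt * ((1 : ℝ) + (5 / 8) * c.dri)) rfl
    (c.S2 * (c.drt * ((1 : ℝ) + (5 / 8) * c.dri))) rfl
    (v.t * (c.S2 * (c.drt * ((1 : ℝ) + (5 / 8) * c.dri)))) rfl
    c.S3 c.e_S3
    (v.u * v.n) rfl
    (v.u * v.n * (v.h + (1 : ℝ))) rfl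
    (v.u * v.n * (v.h + (1 : ℝ)) * v.j) rfl
    (c.S3 + v.u * v.n * (v.h + (1 : ℝ)) * v.j) rfl
    (c.S3 * (v.u * v.n * (v.h + (1 : ℝ)) * v.j)) rfl
    (v.t * (c.S3 * (v.u * v.n * (v.h + (1 : ℝ)) * v.j))) rfl
    c.S4 c.e_S4
    c.Dh c.e_Dh
    (v.t * c.Dh) rfl
    ((3 / 8) * (v.t * c.Dh)) (congrArg (fun y : ℝ => y * (v.t * c.Dh)) zX_412316860416_0)
    ((1 / 2 : ℝ) - (3 / 8) * (v.t * c.Dh)) rfl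
    (c.Dh * ((1 / 2 : ℝ) - (3 / 8) * (v.t * c.Dh))) rfl
    (-(c.Dh * ((1 / 2 : ℝ) - (3 / 8) * (v.t * c.Dh)))) rfl
    (c.S4 + (-(c.Dh * ((1 / 2 : ℝ) - (3 / 8) * (v.t * c.Dh))))) rfl
    (c.S4 * (-(c.Dh * ((1 / 2 : ℝ) - (3 / 8) * (v.t * c.Dh))))) rfl
    (v.t * (c.S4 * (-(c.Dh * ((1 / 2 : ℝ) - (3 / 8) * (v.t * c.Dh)))))) rfl
    c.S5 c.e_S5
    (v.u * m.eN) rfl
    (v.u * m.eN * v.op1⁻¹) rfl
    (c.S5 + v.u * m.eN * v.op1⁻¹) rfl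
    (c.S5 * (v.u * m.eN * v.op1⁻¹)) rfl
    (v.t * (c.S5 * (v.u * m.eN * v.op1⁻¹))) rfl
    c.S6 c.e_S6
    ((v.h + (1 : ℝ)) * v.op1) rfl
    m.b1 m.e_b1
    (c.S6 - m.b1) rfl
    (v.t * m.b1) rfl
    ((1 : ℝ) + v.t * m.b1) rfl).2
    (((1 : ℝ) + v.t * m.b1)⁻¹) rfl
    c.S7 c.e_S7
    (v.u * v.tu) rfl
    (v.u * v.tu * m.eN) rfl
    (v.aQ - m.eta) rfl).2
    ((v.aQ - m.eta)⁻¹) rfl
    (v.u * v.tu * m.eN * (v.aQ - m.eta)⁻¹) rfl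
    (c.S7 + v.u * v.tu * m.eN * (v.aQ - m.eta)⁻¹) rfl
    (c.S7 * (v.u * v.tu * m.eN * (v.aQ - m.eta)⁻¹)) rfl
    (v.t * (c.S7 * (v.u * v.tu * m.eN * (v.aQ - m.eta)⁻¹))) rfl
    c.S8 c.e_S8
    (v.t * c.S8) rfl
    c.c1 c.e_c1
    (c.fbt * m.XM) rfl
    (v.t * m.XLt) rfl
    (c.FXt * (v.t * m.XLt)) rfl
    c.rt c.e_rt
    (c.rt * c.c1) rfl
    (c.S8 + c.rt * c.c1) rfl
    (c.S8 + c.rt * c.c1 + c.fbt) rfl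
    (c.S8 + c.rt * c.c1 + c.fbt + c.FXt) rfl
    c.Bm c.e_Bm
    (1 / 1024 : ℝ) zX_1073741824_0
    (c.Bm - (1 / 1024 : ℝ)) rfl
    m.m1 m.e_m1
    (m.m1 + (2 : ℝ)) rfl
    (2 * m.beta) (congrArg (fun y : ℝ => y * m.beta) zX_2199023255552_0)
    (m.m1 + (2 : ℝ) - 2 * m.beta) rfl
    ((v.h + (1 : ℝ)) * (m.m1 + (2 : ℝ) - 2 * m.beta)) rfl
    (m.m1 * (2 * m.beta)) rfl
    (m.m1 * (2 * m.beta) + (1 : ℝ)) rfl).2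
    ((m.m1 * (2 * m.beta) + (1 : ℝ))⁻¹) rfl
    ((v.h + (1 : ℝ)) * (m.m1 + (2 : ℝ) - 2 * m.beta) * (m.m1 * (2 * m.beta) + (1 : ℝ))⁻¹) rfl
    (A * m.fx) rfl
    ((1 / 2) * v2.lm) (congrArg (fun y : ℝ => y * v2.lm) zX_549755813888_0)
    (v.K + (1 / 2) * v2.lm) rfl
    (A * m.fx * (v.K + (1 / 2) * v2.lm)) rfl
    (2 * (A * m.fx * (v.K + (1 / 2) * v2.lm))) (congrArg (fun y : ℝ => y * (A * m.fx * (v.K + (1 / 2) * v2.lm))) zX_2199023255552_0)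
    (m.src + 2 * (A * m.fx * (v.K + (1 / 2) * v2.lm))) rfl
    (2 * (m.src + 2 * (A * m.fx * (v.K + (1 / 2) * v2.lm)))) (congrArg (fun y : ℝ => y * (m.src + 2 * (A * m.fx * (v.K + (1 / 2) * v2.lm)))) zX_2199023255552_0)
    (2 * (m.src + 2 * (A * m.fx * (v.K + (1 / 2) * v2.lm))) * m.NN) rfl
    (v.tu * m.eN) rfl
    (v.op1 - v.tu * m.eN) rfl).2
    ((v.op1 - v.tu * m.eN)⁻¹) rfl
    (2 * (m.src + 2 * (A * m.fx * (v.K + (1 / 2) * v2.lm))) * m.NN * (v.op1 - v.tu * m.eN)⁻¹) rfl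
    m.V m.e_V
  change 0 < (1 : ℝ) - m.XM at p_XM
  obtain ⟨p_QX, s5⟩ := s4
  change 0 < (1 : ℝ) - m.QX at p_QX
  obtain ⟨p_e2, s6⟩ := s5
    (2 * (v.tu2 * m.eps)) (congrArg (fun y : ℝ => y * (v.tu2 * m.eps)) zX_2199023255552_0)
    (v.aQ - 2 * (v.tu2 * m.eps)) rfl
  change 0 < v.aQ - 2 * (v.tu2 * m.eps) at p_e2
  obtain ⟨p_rl, s7⟩ := s6
  change 0 < m.rl at p_rl
  obtain ⟨p_hg, s8⟩ := s7
  change 0 < (1 : ℝ) - ms.hg at p_hg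
  obtain ⟨p_hgp, s9⟩ := s8
    ((1 / 2 : ℝ) - v4.hgp) rfl
  change 0 < (1 / 2 : ℝ) - v4.hgp at p_hgp
  obtain ⟨p_l1, s10⟩ := s9
    ((5 / 8) * (1 : ℝ)) (congrArg (fun y : ℝ => y * (1 : ℝ)) zX_687194767360_0)
    ((5 / 8) * (1 : ℝ) - m.l1) rfl
  change 0 < (5 / 8) * (1 : ℝ) - m.l1 at p_l1
  obtain ⟨p_a0, s11⟩ := s10
    ((11 / 32) * (1 : ℝ)) (congrArg (fun y : ℝ => y * (1 : ℝ)) zX_377957122048_0)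
    ((11 / 32) * (1 : ℝ) - m.a0) rfl
  change 0 < (11 / 32) * (1 : ℝ) - m.a0 at p_a0
  obtain ⟨p_S, s12⟩ := s11
  change 0 < v.op1 - v.tu * m.eN at p_S
  obtain ⟨p_dri, s13⟩ := s12
    ((1 / 2 : ℝ) - c.dri) rfl
  change 0 < (1 / 2 : ℝ) - c.dri at p_dri
  obtain ⟨p_d, s14⟩ := s13
  change 0 < (1 : ℝ) - m.d at p_d
  obtain ⟨p_den, s15⟩ := s14
  change 0 < c.den at p_den
  obtain ⟨p_dP, s16⟩ := s15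
    ((5 / 8) * (1 : ℝ) - c.dP) rfl
  change 0 < (5 / 8) * (1 : ℝ) - c.dP at p_dP
  obtain ⟨p_V, s17⟩ := ((s16
    (v2.eK * v2.eK) rfl
    (13 : ℝ) zX_14293651161088_0
    (10 : ℝ) zX_10995116277760_0).2
    ((10 : ℝ)⁻¹) rfl
    ((13 : ℝ) * (10 : ℝ)⁻¹) rfl
    (v2.eK * v2.eK * ((13 : ℝ) * (10 : ℝ)⁻¹)) rfl
    (25 : ℝ) zX_27487790694400_0
    m.C2 m.e_C2
    m.gr m.e_gr
    (2 * v.c0 - v.t) rfl
    m.Gt m.e_Gt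
    (2 * v.tu) (congrArg (fun y : ℝ => y * v.tu) zX_2199023255552_0)
    (2 * v.tu + m.eta) rfl
    m.ez m.e_ez
    (m.C2 * m.gr) rfl
    (m.NN * m.ez) rfl
    (v.ei * (m.ka * ms.lsi + m.lfk * phu)) rfl
    (v.u2 * (v.ei * (m.ka * ms.lsi + m.lfk * phu))) rfl
    (v.op1 * A) rfl
    (v.op1 * A * m.fx) rfl
    (v.R * (v.op1 * A * m.fx)) rfl
    (v.u2 * (v.ei * (m.ka * ms.lsi + m.lfk * phu)) + v.R * (v.op1 * A * m.fx)) rfl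
    (v.e * (v.u2 * (v.ei * (m.ka * ms.lsi + m.lfk * phu)) + v.R * (v.op1 * A * m.fx))) rfl
    (m.NN * m.ez * (v.e * (v.u2 * (v.ei * (m.ka * ms.lsi + m.lfk * phu)) + v.R * (v.op1 * A * m.fx)))) rfl
    m.Rg0 m.e_Rg0
    ((1 / 2) * (v.tu * m.eN)) (congrArg (fun y : ℝ => y * (v.tu * m.eN)) zX_549755813888_0)
    ((1 : ℝ) + (1 / 2) * (v.tu * m.eN)) rfl
    (m.NN * ((1 : ℝ) + (1 / 2) * (v.tu * m.eN))) rfl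
    (v.t * v.om1) rfl
    (v.t * v.om1 * v2.bsum) rfl
    (v.op1 * v.aQ) rfl).2
    ((v.op1 * v.aQ)⁻¹) rfl
    (v.t * v.om1 * v2.bsum * (v.op1 * v.aQ)⁻¹) rfl
    (m.NN * ((1 : ℝ) + (1 / 2) * (v.tu * m.eN)) * (v.t * v.om1 * v2.bsum * (v.op1 * v.aQ)⁻¹)) rfl
    m.Rh m.e_Rh
    (v2.lm * m.Rg0) rfl
    ((1 : ℝ) - v2.lm) rfl
    (v.u2 * m.Rh) rfl
    (((1 : ℝ) - v2.lm) * (v.u2 * m.Rh)) rfl
    (m.C2 * (((1 : ℝ) - v2.lm) * (v.u2 * m.Rh))) rfl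
    m.Rg m.e_Rg
  change 0 < m.V at p_V
  obtain ⟨p_B, s18⟩ := s17
  change 0 < c.Bm - (1 / 1024 : ℝ) at p_B
  obtain ⟨p_Rg, s19⟩ := s18
  change 0 < m.Rg at p_Rg
  obtain ⟨p_Rh, s20⟩ := s19
  change 0 < m.Rh at p_Rh
  have nx := nx_of G v4 hccp p_o2p p_Wp p_hgp
  have hga := gam_HC G hb hcc p_o2 p_W
  obtain ⟨lf0, Ex, hφ⟩ := phi_sq G v2 he2 hga hb.e_ga (by norm_num) (by norm_num) (by norm_num) e_phu e_Ei e_Eh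
  exact far_H G ⟨p_XM, p_QX, p_e2, p_rl, p_l1, p_a0, p_S, p_V, p_Rg, p_Rh⟩ nx.1 nx.2 v4.e_hgp hcc p_o2 p_W p_hg D hA hiA hφ c (by rw [e_phut, mul_comm, mul_assoc, inv_mul_cancel₀ G.t0.ne', mul_one])
    p_dri p_d p_den p_dP p_B

theorem far_X3 {κ : ℝ} {τ : ℂ} {R w : ℝ} {v : B1} (D : PtE (3 * 5⁻¹) v.e κ τ R w)
    (G : Geo κ (shf κ τ) v) (v2 : B2 v) (he2 : 2 ≤ v.e) (h : RAs Pool.Agent.helper71.FG.Crt.X.prog3 [v.e, v.t, v.u, v.n]) :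
    FarPt v.e κ (1 - Real.sinh κ / 1024) w (2 * A5 v.e v.K * Real.sinh κ ^ 2) R
      (RE v.e κ (w * R)) τ := by
  obtain ⟨A, e_A⟩ : ∃ zz : ℝ, zz = v.e * ((1 : ℝ) * (5 : ℝ)⁻¹) := ⟨_, rfl⟩
  obtain ⟨iA, e_iA⟩ : ∃ zz : ℝ, zz = 5 * v.ei := ⟨_, rfl⟩
  obtain ⟨hA, hiA, hAe⟩ := ab_x G v2 e_A e_iA
  rw [hAe]
  obtain ⟨cc, e_cc⟩ : ∃ zz : ℝ, zz = (1 : ℝ) - v.x * ((1 / 2 : ℝ) - v.x * ((21845 / 524288 : ℝ) - (11651 / 8388608) * v.x)) := ⟨_, rfl⟩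
  obtain ⟨b⟩ := exGC v.q cc v.h1
  have hcc : CosB v.x cc := cosB_p e_cc
  obtain ⟨v3⟩ := exB3 v
  obtain ⟨ccp, e_ccp⟩ : ∃ zz : ℝ, zz = (1 : ℝ) - v3.xp * ((1 / 2 : ℝ) - v3.xp * ((21845 / 524288 : ℝ) - (11651 / 8388608) * v3.xp)) := ⟨_, rfl⟩
  obtain ⟨b'⟩ := exGC v.qp ccp v3.hp
  obtain ⟨v4⟩ := exNC v3 b'
  have hccp : CosB v3.xp ccp := cosB_p e_ccp
  obtain ⟨g, e_g⟩ : ∃ zz : ℝ, zz = (1 / 2) * (((1 : ℝ) - v.q) * b.q1 * b.W⁻¹) := ⟨_, rfl⟩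
  obtain ⟨ga, e_ga⟩ : ∃ zz : ℝ, zz = g * (g + (1 / 2 : ℝ))⁻¹ := ⟨_, rfl⟩
  obtain ⟨i2, e_i2⟩ : ∃ zz : ℝ, zz = (v2.eK + (2 : ℝ))⁻¹ := ⟨_, rfl⟩
  obtain ⟨z, e_z⟩ : ∃ zz : ℝ, zz = v.om1 * v.e * v.t * i2 := ⟨_, rfl⟩
  obtain ⟨kz, e_kz⟩ : ∃ zz : ℝ, zz = ((1 : ℝ) - (1 / 2) * z) * ((1 : ℝ) - z)⁻¹ := ⟨_, rfl⟩
  obtain ⟨kk, e_kk⟩ : ∃ zz : ℝ, zz = kz * i2 * v.e := ⟨_, rfl⟩
  obtain ⟨phu, e_phu⟩ : ∃ zz : ℝ, zz = v.t * v.nj * kk := ⟨_, rfl⟩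
  obtain ⟨lf, e_lf⟩ : ∃ zz : ℝ, zz = z * kz := ⟨_, rfl⟩
  obtain ⟨L, e_L⟩ : ∃ zz : ℝ, zz = lf * v.ei := ⟨_, rfl⟩
  obtain ⟨Ei, e_Ei⟩ : ∃ zz : ℝ, zz = (1 : ℝ) + L * ((45 / 16) * L + (2 : ℝ)) := ⟨_, rfl⟩
  obtain ⟨Eh, e_Eh⟩ : ∃ zz : ℝ, zz = (1 : ℝ) + L * ((45 / 32) * L + (1 : ℝ)) := ⟨_, rfl⟩
  obtain ⟨ms⟩ := exMs v b g ga
  obtain ⟨m⟩ := exMb (3 * 5⁻¹) v2 A ms.Qb ms.Q1 ms.lsi phu Ei Eh
  obtain ⟨c⟩ := exCF ms m iA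
  obtain ⟨f⟩ := exFinS m (v.qp * (v4.hgp + 1)) (v.rp + v4.hgp * (v4.hgp + 1)) c.fbt c.FX
  obtain ⟨p_o2, s0⟩ := (((((((h
    (1 : ℝ) zX_1099511627776_0
    (1 / 2 : ℝ) zX_549755813888_0
    v.tu v.e_tu
    (v.tu * v.n) rfl
    v.h (v.e_h.trans (congrArg (fun y : ℝ => y * (v.tu * v.n)) zX_549755813888_0))
    v.u2 v.e_u2
    (v.h * v.h) rfl
    v.jm v.e_jm).2
    v.j v.e_j
    (v.h * v.j) rfl
    v.K (v.e_K.trans (congrArg (fun y : ℝ => y * (v.h * v.j)) zX_2199023255552_0))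
    (2 * v.j) (congrArg (fun y : ℝ => y * v.j) zX_2199023255552_0)
    v.c0 v.e_c0
    v.m v.e_m
    v.nj v.e_nj
    v.om v.e_om
    v.om1 v.e_om1
    v.op1 v.e_op1
    v2.Y (v2.e_Y.trans (congrArg (fun y : ℝ => y * v.h) zX_10774999203840_0))
    ((341 / 8192) * v2.Y) (congrArg (fun y : ℝ => y * v2.Y) zX_45768245248_0)
    (1365 / 8192 : ℝ) zX_183207198720_0
    ((341 / 8192) * v2.Y + (1365 / 8192 : ℝ)) rfl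
    (v2.Y * ((341 / 8192) * v2.Y + (1365 / 8192 : ℝ))) rfl
    ((1 / 2 : ℝ) + v2.Y * ((341 / 8192) * v2.Y + (1365 / 8192 : ℝ))) rfl
    (v2.Y * ((1 / 2 : ℝ) + v2.Y * ((341 / 8192) * v2.Y + (1365 / 8192 : ℝ)))) rfl
    v2.pY v2.e_pY
    (v2.Y * v2.pY) rfl
    ((1 / 2) * (v2.Y * v2.pY)) (congrArg (fun y : ℝ => y * (v2.Y * v2.pY)) zX_549755813888_0)
    ((1 : ℝ) + (1 / 2) * (v2.Y * v2.pY)) rfl
    v2.Yp v2.e_Yp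
    v.R v.e_R
    (v.K * v.om) rfl
    (2 * v.c0) (congrArg (fun y : ℝ => y * v.c0) zX_2199023255552_0)
    (v.K * v.om + 2 * v.c0) rfl
    v.Dt v.e_Dt
    v.D v.e_D
    v.SQ v.e_SQ
    (v.K * v.K) rfl
    (2 * (v.K * v.K)) (congrArg (fun y : ℝ => y * (v.K * v.K)) zX_2199023255552_0)
    v.c2 v.e_c2
    (v.c0 * v.Dt) rfl
    v.rhat v.e_rhat).2
    v.LQ v.e_LQ
    ((1 / 2) * v.LQ) (congrArg (fun y : ℝ => y * v.LQ) zX_549755813888_0)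
    v.aQ v.e_aQ
    v.ee (v.e_ee.trans (congrArg (fun y : ℝ => y * v.e) zX_549755813888_0))
    v.rho v.e_rho
    (-v.rho) rfl
    v.q v.e_q
    (v.c0 * v.R) rfl
    (v.c0 * v.R * v.rhat) rfl
    v.D2 (v.e_D2.trans (congrArg (fun y : ℝ => y * (v.c0 * v.R * v.rhat)) zX_4398046511104_0))
    (v.D2 + (1 : ℝ)) rfl).2
    (Real.log (v.D2 + (1 : ℝ))) rfl
    v.L2 v.e_L2
    v.rp v.e_rp
    (-v.rp) rfl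
    v.qp v.e_qp
    (v.om * v.K) rfl
    (v.c0 + v.om * v.K) rfl).2
    v.ioK v.e_ioK
    v.h1t v.e_h1t
    (v.om1 * v.t) rfl
    v.h1 v.e_h1
    v.nj2 v.e_nj2
    ((1 : ℝ) - v.u2) rfl
    v.f2 v.e_f2
    v.tu2 v.e_tu2
    (v.c0 + v.R) rfl).2
    ((v.c0 + v.R)⁻¹) rfl
    v.w v.e_w
    (v.w * v.tu) rfl
    (v.w * v.tu * (v.w * v.tu)) rfl
    ((1 : ℝ) - v.nj2) rfl
    (((1 : ℝ) - v.u2) * ((1 : ℝ) - v.nj2)) rfl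
    v.x (x_alt v)).2
    v.ei v.e_ei
    (21845 / 524288 : ℝ) zX_45812285440_0
    ((11651 / 8388608) * v.x) (congrArg (fun y : ℝ => y * v.x) zX_1527119872_0)
    ((21845 / 524288 : ℝ) - (11651 / 8388608) * v.x) rfl
    (v.x * ((21845 / 524288 : ℝ) - (11651 / 8388608) * v.x)) rfl
    ((1 / 2 : ℝ) - v.x * ((21845 / 524288 : ℝ) - (11651 / 8388608) * v.x)) rfl
    (v.x * ((1 / 2 : ℝ) - v.x * ((21845 / 524288 : ℝ) - (11651 / 8388608) * v.x))) rfl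
    cc e_cc
    b.q1 b.e_q1
    (v.q * v.q) rfl
    (v.q * v.q + (1 : ℝ)) rfl
    (v.q * cc) rfl
    (2 * (v.q * cc)) (congrArg (fun y : ℝ => y * (v.q * cc)) zX_2199023255552_0)
    b.o2 b.e_o2).2
    (b.q1⁻¹) rfl
    (b.o2 * b.q1⁻¹) rfl
    b.P1 b.e_P1
    (v.q * v.h1) rfl
    b.qh (b.e_qh.trans (congrArg (fun y : ℝ => y * (v.q * v.h1)) zX_549755813888_0))
    (b.qh * b.P1) rfl
    b.W b.e_W
  change 0 < b.o2 at p_o2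
  obtain ⟨p_W, s1⟩ := s0
  change 0 < b.W at p_W
  obtain ⟨p_o2p, s2⟩ := ((((((((s1).2
    b.W⁻¹ rfl
    (v.ee * v.Dt) rfl
    (6 : ℝ) zX_6597069766656_0
    (v.D + (6 : ℝ)) rfl
    (v.ee * v.Dt * (v.D + (6 : ℝ))) rfl
    (4 * v.D) (congrArg (fun y : ℝ => y * v.D) zX_4398046511104_0)
    (4 * v.D + (6 : ℝ)) rfl).2
    ((4 * v.D + (6 : ℝ))⁻¹) rfl
    c.rhoR c.e_rhoR
    ((1 : ℝ) - v.q) rfl
    (((1 : ℝ) - v.q) * b.q1) rfl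
    (((1 : ℝ) - v.q) * b.q1 * b.W⁻¹) rfl
    g (e_g.trans (congrArg (fun y : ℝ => y * (((1 : ℝ) - v.q) * b.q1 * b.W⁻¹)) zX_549755813888_0))
    (g + (1 / 2 : ℝ)) rfl).2
    ((g + (1 / 2 : ℝ))⁻¹) rfl
    ga e_ga
    (b.qh * g) rfl
    (b.qh * g + (1 / 2 : ℝ)) rfl
    ((b.qh * g + (1 / 2 : ℝ)) * b.P1) rfl).2
    (b.o2⁻¹) rfl
    ms.fa ms.e_fa
    ms.hg ms.e_hg
    ((1 / 2) * ms.hg) (congrArg (fun y : ℝ => y * ms.hg) zX_549755813888_0)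
    ((1 : ℝ) - (1 / 2) * ms.hg) rfl
    ((1 : ℝ) - ms.hg) rfl).2
    (((1 : ℝ) - ms.hg)⁻¹) rfl
    ms.lsf ms.e_lsf
    (ms.hg + (1 : ℝ)) rfl
    ms.Qb ms.e_Qb
    (v.om1 * v.op1) rfl
    (v.c0 + v.t) rfl
    (v.om * v.c0) rfl
    (v.om * v.c0 * v.K) rfl
    (2 * (v.om * v.c0 * v.K)) (congrArg (fun y : ℝ => y * (v.om * v.c0 * v.K)) zX_2199023255552_0)
    (v.c2 + 2 * (v.om * v.c0 * v.K)) rfl
    ((v.c0 + v.t) * (v.c2 + 2 * (v.om * v.c0 * v.K))) rfl).2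
    (((v.c0 + v.t) * (v.c2 + 2 * (v.om * v.c0 * v.K)))⁻¹) rfl
    v3.hpt v3.e_hpt
    v3.hp v3.e_hp).2
    (v.SQ⁻¹) rfl
    v3.xp v3.e_xp
    ((11651 / 8388608) * v3.xp) (congrArg (fun y : ℝ => y * v3.xp) zX_1527119872_0)
    ((21845 / 524288 : ℝ) - (11651 / 8388608) * v3.xp) rfl
    (v3.xp * ((21845 / 524288 : ℝ) - (11651 / 8388608) * v3.xp)) rfl
    ((1 / 2 : ℝ) - v3.xp * ((21845 / 524288 : ℝ) - (11651 / 8388608) * v3.xp)) rfl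
    (v3.xp * ((1 / 2 : ℝ) - v3.xp * ((21845 / 524288 : ℝ) - (11651 / 8388608) * v3.xp))) rfl
    ccp e_ccp
    b'.q1 b'.e_q1
    (v.qp * v.qp) rfl
    (v.qp * v.qp + (1 : ℝ)) rfl
    (v.qp * ccp) rfl
    (2 * (v.qp * ccp)) (congrArg (fun y : ℝ => y * (v.qp * ccp)) zX_2199023255552_0)
    b'.o2 b'.e_o2).2
    (b'.q1⁻¹) rfl
    (b'.o2 * b'.q1⁻¹) rfl
    b'.P1 b'.e_P1
    (v.qp * v3.hp) rfl
    b'.qh (b'.e_qh.trans (congrArg (fun y : ℝ => y * (v.qp * v3.hp)) zX_549755813888_0))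
    (b'.qh * b'.P1) rfl
    b'.W b'.e_W
  change 0 < b'.o2 at p_o2p
  obtain ⟨p_Wp, s3⟩ := s2
  change 0 < b'.W at p_Wp
  obtain ⟨p_z1, s4⟩ := (((((((((s3
    ((1 : ℝ) - v.qp) rfl
    (((1 : ℝ) - v.qp) * b'.q1) rfl).2
    (b'.W⁻¹) rfl
    (((1 : ℝ) - v.qp) * b'.q1 * b'.W⁻¹) rfl
    v4.gp (v4.e_gp.trans (congrArg (fun y : ℝ => y * (((1 : ℝ) - v.qp) * b'.q1 * b'.W⁻¹)) zX_549755813888_0))
    (v4.gp + (1 / 2 : ℝ)) rfl).2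
    ((v4.gp + (1 / 2 : ℝ))⁻¹) rfl
    v4.gap v4.e_gap
    v4.hgp v4.e_hgp
    (v.h + (1 : ℝ)) rfl).2
    v2.ih v2.e_ih
    (v.h * v2.ih) rfl
    v2.rh (v2.e_rh.trans (congrArg (fun y : ℝ => y * (v.h * v2.ih)) zX_2199023255552_0))
    v2.mi v2.e_mi
    v2.hm v2.e_hm
    v2.nih v2.e_nih
    (v2.nih * v2.mi) rfl
    v2.bsum v2.e_bsum
    v2.eK v2.e_eK
    (5 : ℝ) zX_5497558138880_0).2
    ((5 : ℝ)⁻¹) rfl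
    ((1 : ℝ) * (5 : ℝ)⁻¹) rfl
    A e_A
    iA (e_iA.trans (congrArg (fun y : ℝ => y * v.ei) zX_5497558138880_0))
    ((209 / 1024) * v.j) (congrArg (fun y : ℝ => y * v.j) zX_224412041216_0)).2
    (v2.Yp⁻¹) rfl
    v2.lm v2.e_lm
    (A * v.op1) rfl
    m.Xe m.e_Xe
    m.XM m.e_XM
    ((1 : ℝ) - m.XM) rfl).2
    m.iX m.e_iX
    m.QX m.e_QX
    ((1 : ℝ) - m.QX) rfl).2
    m.iQX m.e_iQX
    (2 : ℝ) zX_2199023255552_0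
    (v2.eK + (2 : ℝ)) rfl).2
    i2 e_i2
    (v.om1 * v.e) rfl
    (v.om1 * v.e * v.t) rfl
    z e_z
    ((1 / 2) * z) (congrArg (fun y : ℝ => y * z) zX_549755813888_0)
    ((1 : ℝ) - (1 / 2) * z) rfl
    ((1 : ℝ) - z) rfl).2
    (((1 : ℝ) - z)⁻¹) rfl
    kz e_kz
    (kz * i2) rfl
    kk e_kk
    (v.t * v.nj) rfl
    phu e_phu
    lf e_lf
  change 0 < (1 : ℝ) - z at p_z1
  obtain ⟨p_L, s5⟩ := s4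
    L e_L
    ((5 / 4) * L) (congrArg (fun y : ℝ => y * L) zX_1374389534720_0)
    ((1 / 2 : ℝ) - (5 / 4) * L) rfl
  change 0 < (1 / 2 : ℝ) - (5 / 4) * L at p_L
  obtain ⟨p_XM, s6⟩ := ((((((((((((s5
    ((45 / 16) * L) (congrArg (fun y : ℝ => y * L) zX_3092376453120_0)
    ((45 / 16) * L + (2 : ℝ)) rfl
    (L * ((45 / 16) * L + (2 : ℝ))) rfl
    Ei e_Ei
    ((45 / 32) * L) (congrArg (fun y : ℝ => y * L) zX_1546188226560_0)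
    ((45 / 32) * L + (1 : ℝ)) rfl
    (L * ((45 / 32) * L + (1 : ℝ))) rfl
    Eh e_Eh
    (v.h * v.nj) rfl
    ((1 : ℝ) - v.f2) rfl
    (v.h * v.om) rfl
    (2 * (v.h * v.om)) (congrArg (fun y : ℝ => y * (v.h * v.om)) zX_2199023255552_0)
    ((1 : ℝ) - v.f2 - 2 * (v.h * v.om)) rfl
    (v.h * v.nj * (v.h * v.nj)) rfl
    m.N1 m.e_N1
    (m.N1 + (1 : ℝ)) rfl
    m.s (m.e_s.trans (congrArg (fun y : ℝ => y * (m.N1 + (1 : ℝ))) zX_549755813888_0))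
    ((1 / 2) * v.R) (congrArg (fun y : ℝ => y * v.R) zX_549755813888_0)
    (v.j - (1 / 2) * v.R) rfl
    (v.tu2 * ((1 : ℝ) - v.f2)) rfl
    (v.tu2 * ((1 : ℝ) - v.f2) * v.jm) rfl
    ((1 / 8) * (v.tu2 * ((1 : ℝ) - v.f2) * v.jm)) (congrArg (fun y : ℝ => y * (v.tu2 * ((1 : ℝ) - v.f2) * v.jm)) zX_137438953472_0)
    (v.j - (1 / 2) * v.R + (1 / 8) * (v.tu2 * ((1 : ℝ) - v.f2) * v.jm)) rfl
    m.k0 m.e_k0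
    m.ls (ls_F G ms m)
    ms.Q1 ms.e_Q1
    (ms.Q1 * m.iX) rfl
    (ms.Qb * m.iQX) rfl
    (ms.Q1 * m.iX + ms.Qb * m.iQX) rfl
    (m.XM * (ms.Q1 * m.iX + ms.Qb * m.iQX)) rfl
    (m.ls + m.XM * (ms.Q1 * m.iX + ms.Qb * m.iQX)) rfl
    m.a0 m.e_a0
    (ms.Q1 * m.XM) rfl
    (ms.Q1 * m.XM * m.iX) rfl
    (m.ls + ms.Q1 * m.XM * m.iX) rfl
    m.l1 m.e_l1
    ((13 / 64) * m.l1) (congrArg (fun y : ℝ => y * m.l1) zX_223338299392_0)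
    ((1 / 2 : ℝ) + (13 / 64) * m.l1) rfl
    (m.l1 * ((1 / 2 : ℝ) + (13 / 64) * m.l1)) rfl
    m.Na m.e_Na
    ((13 / 16) * m.a0) (congrArg (fun y : ℝ => y * m.a0) zX_893353197568_0)
    ((1 : ℝ) + (13 / 16) * m.a0) rfl
    (m.a0 * ((1 : ℝ) + (13 / 16) * m.a0)) rfl
    m.Nb m.e_Nb
    (v2.rh * v2.nih) rfl
    (v2.rh * v2.nih * Ei) rfl
    m.rn m.e_rn
    (m.k0 * m.Na) rfl
    (v.aQ + (1 / 2 : ℝ)) rfl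
    (m.rn * (v.aQ + (1 / 2 : ℝ))) rfl
    m.ka m.e_ka
    (v.aQ + (1 : ℝ)) rfl
    m.kb m.e_kb
    (Eh * (v.aQ + (1 : ℝ))) rfl
    (Eh * (v.aQ + (1 : ℝ)) * v2.nih) rfl
    m.lfk m.e_lfk
    (v.tu * v2.bsum) rfl).2
    (v.aQ⁻¹) rfl
    (v.tu * v2.bsum * v.aQ⁻¹) rfl
    m.bte (m.e_bte.trans (congrArg (fun y : ℝ => y * (v.tu * v2.bsum * v.aQ⁻¹)) zX_549755813888_0))).2
    (v.u⁻¹) rfl
    (v.h1t * v.u⁻¹) rfl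
    (v.h1t * v.u⁻¹ * ga) rfl
    ms.lsi ms.e_lsi
    (v.om1 * m.bte) rfl
    (m.ka * ms.lsi) rfl
    (m.lfk * phu) rfl
    (m.ka * ms.lsi + m.lfk * phu) rfl
    ((m.ka * ms.lsi + m.lfk * phu) * v.ei) rfl
    m.src m.e_src
    (m.ka * ms.Q1) rfl
    (m.ka * ms.Q1 * m.iX) rfl
    (m.kb * ms.Qb) rfl
    (m.kb * ms.Qb * m.iQX) rfl
    (m.ka * ms.Q1 * m.iX + m.kb * ms.Qb * m.iQX) rfl
    m.fx m.e_fx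
    (v.om1 * m.src) rfl
    (m.Xe * m.fx) rfl
    m.eps m.e_eps
    (v.tu2 * m.eps) rfl
    (v.tu2 * m.eps * v.aQ⁻¹) rfl
    ((1 : ℝ) - v.tu2 * m.eps * v.aQ⁻¹) rfl).2
    m.NN m.e_NN
    m.eN m.e_eN
    m.d m.e_d
    m.eta m.e_eta
    (m.eta * v.aQ⁻¹) rfl
    ((1 : ℝ) - m.eta * v.aQ⁻¹) rfl
    (v.rhat * ((1 : ℝ) - m.eta * v.aQ⁻¹)) rfl
    m.rl m.e_rl).2
    m.irl m.e_irl
    m.yy m.e_yy
    ((1 : ℝ) - m.d) rfl).2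
    c.od c.e_od).2
    (v.R⁻¹) rfl
    c.lsR c.e_lsR
    (c.rhoR + c.lsR) rfl
    c.PR c.e_PR
    c.dP c.e_dP
    ((13 / 64) * c.dP) (congrArg (fun y : ℝ => y * c.dP) zX_223338299392_0)
    ((1 / 2 : ℝ) + (13 / 64) * c.dP) rfl
    (c.dP * ((1 / 2 : ℝ) + (13 / 64) * c.dP)) rfl
    c.Ee c.e_Ee
    (c.dP * c.Ee) rfl
    (c.dP * c.Ee * ms.fa) rfl
    (c.dP * c.Ee * ms.fa * ms.Qb) rfl
    c.den c.e_den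
    (c.PR * c.Ee) rfl
    (c.PR * c.Ee * m.NN) rfl
    (c.PR * c.Ee * m.NN * v.ei) rfl).2
    (c.den⁻¹) rfl
    c.C c.e_C
    (c.C * v.u) rfl
    (m.ka * m.iX) rfl
    (m.kb * ms.fa) rfl
    (m.kb * ms.fa * ms.Qb) rfl
    (m.kb * ms.fa * ms.Qb * m.iQX) rfl
    (m.ka * m.iX + m.kb * ms.fa * ms.Qb * m.iQX) rfl
    c.fbt c.e_fbt
    (m.ka * v.h1t) rfl
    (m.ka * v.h1t * v.u⁻¹) rfl
    (m.ka * v.h1t * v.u⁻¹ * g) rfl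
    c.sl c.e_sl
    (c.C * iA) rfl
    (c.C * iA * v.u) rfl).2
    (v.op1⁻¹) rfl
    (c.C * iA * v.u * v.op1⁻¹) rfl
    (v.e * ms.fa) rfl
    (v.e * ms.fa * v.om1) rfl
    (v.e * ms.fa * v.om1 * m.bte) rfl
    (v.e * ms.fa * v.om1 * m.bte + c.sl) rfl
    (ms.fa * m.lfk) rfl
    (ms.fa * m.lfk * phu) rfl
    (v.e * ms.fa * v.om1 * m.bte + c.sl + ms.fa * m.lfk * phu) rfl
    c.FX c.e_FX
    (A * v.tu) rfl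
    (A * v.tu * v.op1) rfl
    m.XLt m.e_XLt
    (3 : ℝ) zX_3298534883328_0
    m.beta m.e_beta
    (v4.hgp + (1 : ℝ)) rfl
    (v4.hgp * (v4.hgp + (1 : ℝ))) rfl
    (v.rp + v4.hgp * (v4.hgp + (1 : ℝ))) rfl
    f.dri f.e_dri
    (v.qp * (v4.hgp + (1 : ℝ))) rfl
    ((5 / 8) * f.dri) (congrArg (fun y : ℝ => y * f.dri) zX_687194767360_0)
    ((1 : ℝ) + (5 / 8) * f.dri) rfl
    (f.dri * ((1 : ℝ) + (5 / 8) * f.dri)) rfl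
    ((1 : ℝ) + f.dri * ((1 : ℝ) + (5 / 8) * f.dri)) rfl
    f.Qp f.e_Qp
    (v.K + v.t) rfl
    ((v.h + (1 : ℝ)) * (v.K + v.t)) rfl
    ((v.h + (1 : ℝ)) * (v.K + v.t) * m.beta) rfl
    ((1 : ℝ) + (v.h + (1 : ℝ)) * (v.K + v.t) * m.beta) rfl).2
    f.Lam f.e_Lam
    (f.Qp * f.Lam) rfl
    (f.Qp * f.Lam * v.m) rfl
    (v.tu * m.eN) rfl
    (v.tu * m.eN * v.op1⁻¹) rfl
    ((1 : ℝ) + v.tu * m.eN * v.op1⁻¹) rfl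
    (f.Qp * f.Lam * v.m * ((1 : ℝ) + v.tu * m.eN * v.op1⁻¹)) rfl
    (v.aQ - m.eta) rfl).2
    ((v.aQ - m.eta)⁻¹) rfl
    f.c1 f.e_c1
    f.fb f.e_fb
    (f.fb * m.XM) rfl
    (v.t * m.XLt) rfl
    (c.FX * (v.t * m.XLt)) rfl
    f.r f.e_r
    (f.fb + c.FX) rfl
    ((1 : ℝ) + f.r) rfl
    (f.c1 * ((1 : ℝ) + f.r)) rfl
    (f.fb + c.FX + f.c1 * ((1 : ℝ) + f.r)) rfl
    f.Bm f.e_Bm
    ((1 / 1024) * v.t) (congrArg (fun y : ℝ => y * v.t) zX_1073741824_0)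
    (f.Bm - (1 / 1024) * v.t) rfl
    m.m1 m.e_m1
    (m.m1 + (2 : ℝ)) rfl
    (2 * m.beta) (congrArg (fun y : ℝ => y * m.beta) zX_2199023255552_0)
    (m.m1 + (2 : ℝ) - 2 * m.beta) rfl
    ((v.h + (1 : ℝ)) * (m.m1 + (2 : ℝ) - 2 * m.beta)) rfl
    (m.m1 * (2 * m.beta)) rfl
    (m.m1 * (2 * m.beta) + (1 : ℝ)) rfl).2
    ((m.m1 * (2 * m.beta) + (1 : ℝ))⁻¹) rfl
    ((v.h + (1 : ℝ)) * (m.m1 + (2 : ℝ) - 2 * m.beta) * (m.m1 * (2 * m.beta) + (1 : ℝ))⁻¹) rfl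
    (A * m.fx) rfl
    ((1 / 2) * v2.lm) (congrArg (fun y : ℝ => y * v2.lm) zX_549755813888_0)
    (v.K + (1 / 2) * v2.lm) rfl
    (A * m.fx * (v.K + (1 / 2) * v2.lm)) rfl
    (2 * (A * m.fx * (v.K + (1 / 2) * v2.lm))) (congrArg (fun y : ℝ => y * (A * m.fx * (v.K + (1 / 2) * v2.lm))) zX_2199023255552_0)
    (m.src + 2 * (A * m.fx * (v.K + (1 / 2) * v2.lm))) rfl
    (2 * (m.src + 2 * (A * m.fx * (v.K + (1 / 2) * v2.lm)))) (congrArg (fun y : ℝ => y * (m.src + 2 * (A * m.fx * (v.K + (1 / 2) * v2.lm)))) zX_2199023255552_0)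
    (2 * (m.src + 2 * (A * m.fx * (v.K + (1 / 2) * v2.lm))) * m.NN) rfl
    (v.op1 - v.tu * m.eN) rfl).2
    ((v.op1 - v.tu * m.eN)⁻¹) rfl
    (2 * (m.src + 2 * (A * m.fx * (v.K + (1 / 2) * v2.lm))) * m.NN * (v.op1 - v.tu * m.eN)⁻¹) rfl
    m.V m.e_V
  change 0 < (1 : ℝ) - m.XM at p_XM
  obtain ⟨p_QX, s7⟩ := s6
  change 0 < (1 : ℝ) - m.QX at p_QX
  obtain ⟨p_e2, s8⟩ := s7
    (2 * (v.tu2 * m.eps)) (congrArg (fun y : ℝ => y * (v.tu2 * m.eps)) zX_2199023255552_0)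
    (v.aQ - 2 * (v.tu2 * m.eps)) rfl
  change 0 < v.aQ - 2 * (v.tu2 * m.eps) at p_e2
  obtain ⟨p_rl, s9⟩ := s8
  change 0 < m.rl at p_rl
  obtain ⟨p_hg, s10⟩ := s9
  change 0 < (1 : ℝ) - ms.hg at p_hg
  obtain ⟨p_hgp, s11⟩ := s10
    ((1 / 2 : ℝ) - v4.hgp) rfl
  change 0 < (1 / 2 : ℝ) - v4.hgp at p_hgp
  obtain ⟨p_l1, s12⟩ := s11
    ((5 / 8) * (1 : ℝ)) (congrArg (fun y : ℝ => y * (1 : ℝ)) zX_687194767360_0)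
    ((5 / 8) * (1 : ℝ) - m.l1) rfl
  change 0 < (5 / 8) * (1 : ℝ) - m.l1 at p_l1
  obtain ⟨p_a0, s13⟩ := s12
    ((11 / 32) * (1 : ℝ)) (congrArg (fun y : ℝ => y * (1 : ℝ)) zX_377957122048_0)
    ((11 / 32) * (1 : ℝ) - m.a0) rfl
  change 0 < (11 / 32) * (1 : ℝ) - m.a0 at p_a0
  obtain ⟨p_S, s14⟩ := s13
  change 0 < v.op1 - v.tu * m.eN at p_S
  obtain ⟨p_dri, s15⟩ := s14
    ((1 / 2 : ℝ) - f.dri) rfl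
  change 0 < (1 / 2 : ℝ) - f.dri at p_dri
  obtain ⟨p_d, s16⟩ := s15
  change 0 < (1 : ℝ) - m.d at p_d
  obtain ⟨p_den, s17⟩ := s16
  change 0 < c.den at p_den
  obtain ⟨p_dP, s18⟩ := s17
    ((5 / 8) * (1 : ℝ) - c.dP) rfl
  change 0 < (5 / 8) * (1 : ℝ) - c.dP at p_dP
  obtain ⟨p_V, s19⟩ := (((s18
    (v2.eK * v2.eK) rfl
    (13 : ℝ) zX_14293651161088_0
    (10 : ℝ) zX_10995116277760_0).2
    ((10 : ℝ)⁻¹) rfl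
    ((13 : ℝ) * (10 : ℝ)⁻¹) rfl
    (v2.eK * v2.eK * ((13 : ℝ) * (10 : ℝ)⁻¹)) rfl
    (25 : ℝ) zX_27487790694400_0
    m.C2 m.e_C2
    ((v.h + (1 : ℝ)) * v.op1) rfl
    m.b1 m.e_b1
    (v.t * m.b1) rfl
    ((1 : ℝ) + v.t * m.b1) rfl).2
    (((1 : ℝ) + v.t * m.b1)⁻¹) rfl
    m.gr m.e_gr
    (2 * v.c0 - v.t) rfl
    m.Gt m.e_Gt
    (2 * v.tu) (congrArg (fun y : ℝ => y * v.tu) zX_2199023255552_0)
    (2 * v.tu + m.eta) rfl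
    m.ez m.e_ez
    (m.C2 * m.gr) rfl
    (m.NN * m.ez) rfl
    (v.ei * (m.ka * ms.lsi + m.lfk * phu)) rfl
    (v.u2 * (v.ei * (m.ka * ms.lsi + m.lfk * phu))) rfl
    (v.op1 * A) rfl
    (v.op1 * A * m.fx) rfl
    (v.R * (v.op1 * A * m.fx)) rfl
    (v.u2 * (v.ei * (m.ka * ms.lsi + m.lfk * phu)) + v.R * (v.op1 * A * m.fx)) rfl
    (v.e * (v.u2 * (v.ei * (m.ka * ms.lsi + m.lfk * phu)) + v.R * (v.op1 * A * m.fx))) rfl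
    (m.NN * m.ez * (v.e * (v.u2 * (v.ei * (m.ka * ms.lsi + m.lfk * phu)) + v.R * (v.op1 * A * m.fx)))) rfl
    m.Rg0 m.e_Rg0
    ((1 / 2) * (v.tu * m.eN)) (congrArg (fun y : ℝ => y * (v.tu * m.eN)) zX_549755813888_0)
    ((1 : ℝ) + (1 / 2) * (v.tu * m.eN)) rfl
    (m.NN * ((1 : ℝ) + (1 / 2) * (v.tu * m.eN))) rfl
    (v.t * v.om1) rfl
    (v.t * v.om1 * v2.bsum) rfl
    (v.op1 * v.aQ) rfl).2
    ((v.op1 * v.aQ)⁻¹) rfl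
    (v.t * v.om1 * v2.bsum * (v.op1 * v.aQ)⁻¹) rfl
    (m.NN * ((1 : ℝ) + (1 / 2) * (v.tu * m.eN)) * (v.t * v.om1 * v2.bsum * (v.op1 * v.aQ)⁻¹)) rfl
    m.Rh m.e_Rh
    (v2.lm * m.Rg0) rfl
    ((1 : ℝ) - v2.lm) rfl
    (v.u2 * m.Rh) rfl
    (((1 : ℝ) - v2.lm) * (v.u2 * m.Rh)) rfl
    (m.C2 * (((1 : ℝ) - v2.lm) * (v.u2 * m.Rh))) rfl
    m.Rg m.e_Rg
  change 0 < m.V at p_V
  obtain ⟨p_B, s20⟩ := s19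
  change 0 < f.Bm - (1 / 1024) * v.t at p_B
  obtain ⟨p_Rg, s21⟩ := s20
  change 0 < m.Rg at p_Rg
  obtain ⟨p_Rh, s22⟩ := s21
  change 0 < m.Rh at p_Rh
  have nx := nx_of G v4 hccp p_o2p p_Wp p_hgp
  have hga := gam_FC G hcc p_o2 p_W e_g e_ga
  obtain ⟨lf0, Ex, hφ⟩ := phi_te G v2 e_i2 e_z p_z1 e_kz e_kk e_phu e_lf e_L p_L e_Ei e_Eh
  exact far_F G ⟨p_XM, p_QX, p_e2, p_rl, p_l1, p_a0, p_S, p_V, p_Rg, p_Rh⟩ nx.1 hcc p_o2 p_W p_hg D hA hiA e_g e_ga hφ c f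
    p_dri p_d p_den p_dP p_B

theorem far_X4 {κ : ℝ} {τ : ℂ} {R w : ℝ} {v : B1} (D : PtE (3 * 5⁻¹) v.e κ τ R w)
    (G : Geo κ (shf κ τ) v) (v2 : B2 v) (he2 : 2 ≤ v.e) (h : RAs Pool.Agent.helper71.FG.Crt.X.prog4 [v.e, v.t, v.u, v.n]) :
    FarPt v.e κ (1 - Real.sinh κ / 1024) w (2 * A5 v.e v.K * Real.sinh κ ^ 2) R
      (RE v.e κ (w * R)) τ := by
  obtain ⟨A, e_A⟩ : ∃ zz : ℝ, zz = v.e * ((1 : ℝ) * (5 : ℝ)⁻¹) := ⟨_, rfl⟩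
  obtain ⟨iA, e_iA⟩ : ∃ zz : ℝ, zz = 5 * v.ei := ⟨_, rfl⟩
  obtain ⟨hA, hiA, hAe⟩ := ab_x G v2 e_A e_iA
  rw [hAe]
  obtain ⟨cc, e_cc⟩ : ∃ zz : ℝ, zz = (1 : ℝ) - v.x * ((1 / 2 : ℝ) - v.x * ((21845 / 524288 : ℝ) - (11651 / 8388608) * v.x)) := ⟨_, rfl⟩
  obtain ⟨b⟩ := exGC v.q cc v.h1
  have hcc : CosB v.x cc := cosB_p e_cc
  obtain ⟨v3⟩ := exB3 v
  obtain ⟨ccp, e_ccp⟩ : ∃ zz : ℝ, zz = (1 : ℝ) - v3.xp * ((1 / 2 : ℝ) - v3.xp * ((21845 / 524288 : ℝ) - (11651 / 8388608) * v3.xp)) := ⟨_, rfl⟩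
  obtain ⟨b'⟩ := exGC v.qp ccp v3.hp
  obtain ⟨v4⟩ := exNC v3 b'
  have hccp : CosB v3.xp ccp := cosB_p e_ccp
  obtain ⟨g, e_g⟩ : ∃ zz : ℝ, zz = (1 / 2) * (((1 : ℝ) - v.q) * b.q1 * b.W⁻¹) := ⟨_, rfl⟩
  obtain ⟨ga, e_ga⟩ : ∃ zz : ℝ, zz = g * (g + (1 / 2 : ℝ))⁻¹ := ⟨_, rfl⟩
  obtain ⟨phu, e_phu⟩ : ∃ zz : ℝ, zz = (1 / 2) * ((13 / 4) * v.nj + (79 / 256) * v.u⁻¹) := ⟨_, rfl⟩
  obtain ⟨Ei, e_Ei⟩ : ∃ zz : ℝ, zz = 2 * v.ei + (1 : ℝ) := ⟨_, rfl⟩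
  obtain ⟨Eh, e_Eh⟩ : ∃ zz : ℝ, zz = v.ei + (1 : ℝ) := ⟨_, rfl⟩
  obtain ⟨ms⟩ := exMs v b g ga
  obtain ⟨m⟩ := exMb (3 * 5⁻¹) v2 A ms.Qb ms.Q1 ms.lsi phu Ei Eh
  obtain ⟨c⟩ := exCF ms m iA
  obtain ⟨f⟩ := exFinS m (v.qp * (v4.hgp + 1)) (v.rp + v4.hgp * (v4.hgp + 1)) c.fbt c.FX
  obtain ⟨p_o2, s0⟩ := (((((((h
    (1 : ℝ) zX_1099511627776_0
    (1 / 2 : ℝ) zX_549755813888_0
    v.tu v.e_tu
    (v.tu * v.n) rfl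
    v.h (v.e_h.trans (congrArg (fun y : ℝ => y * (v.tu * v.n)) zX_549755813888_0))
    v.u2 v.e_u2
    (v.h * v.h) rfl
    v.jm v.e_jm).2
    v.j v.e_j
    (v.h * v.j) rfl
    v.K (v.e_K.trans (congrArg (fun y : ℝ => y * (v.h * v.j)) zX_2199023255552_0))
    (2 * v.j) (congrArg (fun y : ℝ => y * v.j) zX_2199023255552_0)
    v.c0 v.e_c0
    v.m v.e_m
    v.nj v.e_nj
    v.om v.e_om
    v.om1 v.e_om1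
    v.op1 v.e_op1
    v2.Y (v2.e_Y.trans (congrArg (fun y : ℝ => y * v.h) zX_10774999203840_0))
    ((341 / 8192) * v2.Y) (congrArg (fun y : ℝ => y * v2.Y) zX_45768245248_0)
    (1365 / 8192 : ℝ) zX_183207198720_0
    ((341 / 8192) * v2.Y + (1365 / 8192 : ℝ)) rfl
    (v2.Y * ((341 / 8192) * v2.Y + (1365 / 8192 : ℝ))) rfl
    ((1 / 2 : ℝ) + v2.Y * ((341 / 8192) * v2.Y + (1365 / 8192 : ℝ))) rfl
    (v2.Y * ((1 / 2 : ℝ) + v2.Y * ((341 / 8192) * v2.Y + (1365 / 8192 : ℝ)))) rfl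
    v2.pY v2.e_pY
    (v2.Y * v2.pY) rfl
    ((1 / 2) * (v2.Y * v2.pY)) (congrArg (fun y : ℝ => y * (v2.Y * v2.pY)) zX_549755813888_0)
    ((1 : ℝ) + (1 / 2) * (v2.Y * v2.pY)) rfl
    v2.Yp v2.e_Yp
    v.R v.e_R
    (v.K * v.om) rfl
    (2 * v.c0) (congrArg (fun y : ℝ => y * v.c0) zX_2199023255552_0)
    (v.K * v.om + 2 * v.c0) rfl
    v.Dt v.e_Dt
    v.D v.e_D
    v.SQ v.e_SQ
    (v.K * v.K) rfl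
    (2 * (v.K * v.K)) (congrArg (fun y : ℝ => y * (v.K * v.K)) zX_2199023255552_0)
    v.c2 v.e_c2
    (v.c0 * v.Dt) rfl
    v.rhat v.e_rhat).2
    v.LQ v.e_LQ
    ((1 / 2) * v.LQ) (congrArg (fun y : ℝ => y * v.LQ) zX_549755813888_0)
    v.aQ v.e_aQ
    v.ee (v.e_ee.trans (congrArg (fun y : ℝ => y * v.e) zX_549755813888_0))
    v.rho v.e_rho
    (-v.rho) rfl
    v.q v.e_q
    (v.c0 * v.R) rfl
    (v.c0 * v.R * v.rhat) rfl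
    v.D2 (v.e_D2.trans (congrArg (fun y : ℝ => y * (v.c0 * v.R * v.rhat)) zX_4398046511104_0))
    (v.D2 + (1 : ℝ)) rfl).2
    (Real.log (v.D2 + (1 : ℝ))) rfl
    v.L2 v.e_L2
    v.rp v.e_rp
    (-v.rp) rfl
    v.qp v.e_qp
    (v.om * v.K) rfl
    (v.c0 + v.om * v.K) rfl).2
    v.ioK v.e_ioK
    v.h1t v.e_h1t
    (v.om1 * v.t) rfl
    v.h1 v.e_h1
    v.nj2 v.e_nj2
    ((1 : ℝ) - v.u2) rfl
    v.f2 v.e_f2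
    v.tu2 v.e_tu2
    (v.c0 + v.R) rfl).2
    ((v.c0 + v.R)⁻¹) rfl
    v.w v.e_w
    (v.w * v.tu) rfl
    (v.w * v.tu * (v.w * v.tu)) rfl
    ((1 : ℝ) - v.nj2) rfl
    (((1 : ℝ) - v.u2) * ((1 : ℝ) - v.nj2)) rfl
    v.x (x_alt v)).2
    v.ei v.e_ei
    (21845 / 524288 : ℝ) zX_45812285440_0
    ((11651 / 8388608) * v.x) (congrArg (fun y : ℝ => y * v.x) zX_1527119872_0)
    ((21845 / 524288 : ℝ) - (11651 / 8388608) * v.x) rfl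
    (v.x * ((21845 / 524288 : ℝ) - (11651 / 8388608) * v.x)) rfl
    ((1 / 2 : ℝ) - v.x * ((21845 / 524288 : ℝ) - (11651 / 8388608) * v.x)) rfl
    (v.x * ((1 / 2 : ℝ) - v.x * ((21845 / 524288 : ℝ) - (11651 / 8388608) * v.x))) rfl
    cc e_cc
    b.q1 b.e_q1
    (v.q * v.q) rfl
    (v.q * v.q + (1 : ℝ)) rfl
    (v.q * cc) rfl
    (2 * (v.q * cc)) (congrArg (fun y : ℝ => y * (v.q * cc)) zX_2199023255552_0)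
    b.o2 b.e_o2).2
    (b.q1⁻¹) rfl
    (b.o2 * b.q1⁻¹) rfl
    b.P1 b.e_P1
    (v.q * v.h1) rfl
    b.qh (b.e_qh.trans (congrArg (fun y : ℝ => y * (v.q * v.h1)) zX_549755813888_0))
    (b.qh * b.P1) rfl
    b.W b.e_W
  change 0 < b.o2 at p_o2
  obtain ⟨p_W, s1⟩ := s0
  change 0 < b.W at p_W
  obtain ⟨p_o2p, s2⟩ := ((((((((s1).2
    b.W⁻¹ rfl
    (v.ee * v.Dt) rfl
    (6 : ℝ) zX_6597069766656_0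
    (v.D + (6 : ℝ)) rfl
    (v.ee * v.Dt * (v.D + (6 : ℝ))) rfl
    (4 * v.D) (congrArg (fun y : ℝ => y * v.D) zX_4398046511104_0)
    (4 * v.D + (6 : ℝ)) rfl).2
    ((4 * v.D + (6 : ℝ))⁻¹) rfl
    c.rhoR c.e_rhoR
    ((1 : ℝ) - v.q) rfl
    (((1 : ℝ) - v.q) * b.q1) rfl
    (((1 : ℝ) - v.q) * b.q1 * b.W⁻¹) rfl
    g (e_g.trans (congrArg (fun y : ℝ => y * (((1 : ℝ) - v.q) * b.q1 * b.W⁻¹)) zX_549755813888_0))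
    (g + (1 / 2 : ℝ)) rfl).2
    ((g + (1 / 2 : ℝ))⁻¹) rfl
    ga e_ga
    (b.qh * g) rfl
    (b.qh * g + (1 / 2 : ℝ)) rfl
    ((b.qh * g + (1 / 2 : ℝ)) * b.P1) rfl).2
    (b.o2⁻¹) rfl
    ms.fa ms.e_fa
    ms.hg ms.e_hg
    ((1 / 2) * ms.hg) (congrArg (fun y : ℝ => y * ms.hg) zX_549755813888_0)
    ((1 : ℝ) - (1 / 2) * ms.hg) rfl
    ((1 : ℝ) - ms.hg) rfl).2
    (((1 : ℝ) - ms.hg)⁻¹) rfl
    ms.lsf ms.e_lsf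
    (ms.hg + (1 : ℝ)) rfl
    ms.Qb ms.e_Qb
    (v.om1 * v.op1) rfl
    (v.c0 + v.t) rfl
    (v.om * v.c0) rfl
    (v.om * v.c0 * v.K) rfl
    (2 * (v.om * v.c0 * v.K)) (congrArg (fun y : ℝ => y * (v.om * v.c0 * v.K)) zX_2199023255552_0)
    (v.c2 + 2 * (v.om * v.c0 * v.K)) rfl
    ((v.c0 + v.t) * (v.c2 + 2 * (v.om * v.c0 * v.K))) rfl).2
    (((v.c0 + v.t) * (v.c2 + 2 * (v.om * v.c0 * v.K)))⁻¹) rfl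
    v3.hpt v3.e_hpt
    v3.hp v3.e_hp).2
    (v.SQ⁻¹) rfl
    v3.xp v3.e_xp
    ((11651 / 8388608) * v3.xp) (congrArg (fun y : ℝ => y * v3.xp) zX_1527119872_0)
    ((21845 / 524288 : ℝ) - (11651 / 8388608) * v3.xp) rfl
    (v3.xp * ((21845 / 524288 : ℝ) - (11651 / 8388608) * v3.xp)) rfl
    ((1 / 2 : ℝ) - v3.xp * ((21845 / 524288 : ℝ) - (11651 / 8388608) * v3.xp)) rfl
    (v3.xp * ((1 / 2 : ℝ) - v3.xp * ((21845 / 524288 : ℝ) - (11651 / 8388608) * v3.xp))) rfl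
    ccp e_ccp
    b'.q1 b'.e_q1
    (v.qp * v.qp) rfl
    (v.qp * v.qp + (1 : ℝ)) rfl
    (v.qp * ccp) rfl
    (2 * (v.qp * ccp)) (congrArg (fun y : ℝ => y * (v.qp * ccp)) zX_2199023255552_0)
    b'.o2 b'.e_o2).2
    (b'.q1⁻¹) rfl
    (b'.o2 * b'.q1⁻¹) rfl
    b'.P1 b'.e_P1
    (v.qp * v3.hp) rfl
    b'.qh (b'.e_qh.trans (congrArg (fun y : ℝ => y * (v.qp * v3.hp)) zX_549755813888_0))
    (b'.qh * b'.P1) rfl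
    b'.W b'.e_W
  change 0 < b'.o2 at p_o2p
  obtain ⟨p_Wp, s3⟩ := s2
  change 0 < b'.W at p_Wp
  obtain ⟨p_XM, s4⟩ := (((((((((((((((((((s3
    ((1 : ℝ) - v.qp) rfl
    (((1 : ℝ) - v.qp) * b'.q1) rfl).2
    (b'.W⁻¹) rfl
    (((1 : ℝ) - v.qp) * b'.q1 * b'.W⁻¹) rfl
    v4.gp (v4.e_gp.trans (congrArg (fun y : ℝ => y * (((1 : ℝ) - v.qp) * b'.q1 * b'.W⁻¹)) zX_549755813888_0))
    (v4.gp + (1 / 2 : ℝ)) rfl).2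
    ((v4.gp + (1 / 2 : ℝ))⁻¹) rfl
    v4.gap v4.e_gap
    v4.hgp v4.e_hgp
    (v.h + (1 : ℝ)) rfl).2
    v2.ih v2.e_ih
    (v.h * v2.ih) rfl
    v2.rh (v2.e_rh.trans (congrArg (fun y : ℝ => y * (v.h * v2.ih)) zX_2199023255552_0))
    v2.mi v2.e_mi
    v2.hm v2.e_hm
    v2.nih v2.e_nih
    (v2.nih * v2.mi) rfl
    v2.bsum v2.e_bsum
    v2.eK v2.e_eK
    (5 : ℝ) zX_5497558138880_0).2
    ((5 : ℝ)⁻¹) rfl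
    ((1 : ℝ) * (5 : ℝ)⁻¹) rfl
    A e_A
    iA (e_iA.trans (congrArg (fun y : ℝ => y * v.ei) zX_5497558138880_0))
    ((209 / 1024) * v.j) (congrArg (fun y : ℝ => y * v.j) zX_224412041216_0)).2
    (v2.Yp⁻¹) rfl
    v2.lm v2.e_lm
    (A * v.op1) rfl
    m.Xe m.e_Xe
    m.XM m.e_XM
    ((1 : ℝ) - m.XM) rfl).2
    m.iX m.e_iX
    m.QX m.e_QX
    ((1 : ℝ) - m.QX) rfl).2
    m.iQX m.e_iQX
    ((13 / 4) * v.nj) (congrArg (fun y : ℝ => y * v.nj) zX_3573412790272_0)).2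
    (v.u⁻¹) rfl
    ((79 / 256) * v.u⁻¹) (congrArg (fun y : ℝ => y * v.u⁻¹) zX_339302416384_0)
    ((13 / 4) * v.nj + (79 / 256) * v.u⁻¹) rfl
    phu (e_phu.trans (congrArg (fun y : ℝ => y * ((13 / 4) * v.nj + (79 / 256) * v.u⁻¹)) zX_549755813888_0))
    (2 * v.ei) (congrArg (fun y : ℝ => y * v.ei) zX_2199023255552_0)
    Ei e_Ei
    Eh e_Eh
    (v.h * v.nj) rfl
    ((1 : ℝ) - v.f2) rfl
    (v.h * v.om) rfl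
    (2 * (v.h * v.om)) (congrArg (fun y : ℝ => y * (v.h * v.om)) zX_2199023255552_0)
    ((1 : ℝ) - v.f2 - 2 * (v.h * v.om)) rfl
    (v.h * v.nj * (v.h * v.nj)) rfl
    m.N1 m.e_N1
    (m.N1 + (1 : ℝ)) rfl
    m.s (m.e_s.trans (congrArg (fun y : ℝ => y * (m.N1 + (1 : ℝ))) zX_549755813888_0))
    ((1 / 2) * v.R) (congrArg (fun y : ℝ => y * v.R) zX_549755813888_0)
    (v.j - (1 / 2) * v.R) rfl
    (v.tu2 * ((1 : ℝ) - v.f2)) rfl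
    (v.tu2 * ((1 : ℝ) - v.f2) * v.jm) rfl
    ((1 / 8) * (v.tu2 * ((1 : ℝ) - v.f2) * v.jm)) (congrArg (fun y : ℝ => y * (v.tu2 * ((1 : ℝ) - v.f2) * v.jm)) zX_137438953472_0)
    (v.j - (1 / 2) * v.R + (1 / 8) * (v.tu2 * ((1 : ℝ) - v.f2) * v.jm)) rfl
    m.k0 m.e_k0
    m.ls (ls_F G ms m)
    ms.Q1 ms.e_Q1
    (ms.Q1 * m.iX) rfl
    (ms.Qb * m.iQX) rfl
    (ms.Q1 * m.iX + ms.Qb * m.iQX) rfl
    (m.XM * (ms.Q1 * m.iX + ms.Qb * m.iQX)) rfl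
    (m.ls + m.XM * (ms.Q1 * m.iX + ms.Qb * m.iQX)) rfl
    m.a0 m.e_a0
    (ms.Q1 * m.XM) rfl
    (ms.Q1 * m.XM * m.iX) rfl
    (m.ls + ms.Q1 * m.XM * m.iX) rfl
    m.l1 m.e_l1
    ((13 / 64) * m.l1) (congrArg (fun y : ℝ => y * m.l1) zX_223338299392_0)
    ((1 / 2 : ℝ) + (13 / 64) * m.l1) rfl
    (m.l1 * ((1 / 2 : ℝ) + (13 / 64) * m.l1)) rfl
    m.Na m.e_Na
    ((13 / 16) * m.a0) (congrArg (fun y : ℝ => y * m.a0) zX_893353197568_0)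
    ((1 : ℝ) + (13 / 16) * m.a0) rfl
    (m.a0 * ((1 : ℝ) + (13 / 16) * m.a0)) rfl
    m.Nb m.e_Nb
    (v2.rh * v2.nih) rfl
    (v2.rh * v2.nih * Ei) rfl
    m.rn m.e_rn
    (m.k0 * m.Na) rfl
    (v.aQ + (1 / 2 : ℝ)) rfl
    (m.rn * (v.aQ + (1 / 2 : ℝ))) rfl
    m.ka m.e_ka
    (v.aQ + (1 : ℝ)) rfl
    m.kb m.e_kb
    (Eh * (v.aQ + (1 : ℝ))) rfl
    (Eh * (v.aQ + (1 : ℝ)) * v2.nih) rfl
    m.lfk m.e_lfk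
    (v.tu * v2.bsum) rfl).2
    (v.aQ⁻¹) rfl
    (v.tu * v2.bsum * v.aQ⁻¹) rfl
    m.bte (m.e_bte.trans (congrArg (fun y : ℝ => y * (v.tu * v2.bsum * v.aQ⁻¹)) zX_549755813888_0))
    (v.h1t * v.u⁻¹) rfl
    (v.h1t * v.u⁻¹ * ga) rfl
    ms.lsi ms.e_lsi
    (v.om1 * m.bte) rfl
    (m.ka * ms.lsi) rfl
    (m.lfk * phu) rfl
    (m.ka * ms.lsi + m.lfk * phu) rfl
    ((m.ka * ms.lsi + m.lfk * phu) * v.ei) rfl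
    m.src m.e_src
    (m.ka * ms.Q1) rfl
    (m.ka * ms.Q1 * m.iX) rfl
    (m.kb * ms.Qb) rfl
    (m.kb * ms.Qb * m.iQX) rfl
    (m.ka * ms.Q1 * m.iX + m.kb * ms.Qb * m.iQX) rfl
    m.fx m.e_fx
    (v.om1 * m.src) rfl
    (m.Xe * m.fx) rfl
    m.eps m.e_eps
    (v.tu2 * m.eps) rfl
    (v.tu2 * m.eps * v.aQ⁻¹) rfl
    ((1 : ℝ) - v.tu2 * m.eps * v.aQ⁻¹) rfl).2
    m.NN m.e_NN
    m.eN m.e_eN
    m.d m.e_d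
    m.eta m.e_eta
    (m.eta * v.aQ⁻¹) rfl
    ((1 : ℝ) - m.eta * v.aQ⁻¹) rfl
    (v.rhat * ((1 : ℝ) - m.eta * v.aQ⁻¹)) rfl
    m.rl m.e_rl).2
    m.irl m.e_irl
    m.yy m.e_yy
    ((1 : ℝ) - m.d) rfl).2
    c.od c.e_od).2
    (v.R⁻¹) rfl
    c.lsR c.e_lsR
    (c.rhoR + c.lsR) rfl
    c.PR c.e_PR
    c.dP c.e_dP
    ((13 / 64) * c.dP) (congrArg (fun y : ℝ => y * c.dP) zX_223338299392_0)
    ((1 / 2 : ℝ) + (13 / 64) * c.dP) rfl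
    (c.dP * ((1 / 2 : ℝ) + (13 / 64) * c.dP)) rfl
    c.Ee c.e_Ee
    (c.dP * c.Ee) rfl
    (c.dP * c.Ee * ms.fa) rfl
    (c.dP * c.Ee * ms.fa * ms.Qb) rfl
    c.den c.e_den
    (c.PR * c.Ee) rfl
    (c.PR * c.Ee * m.NN) rfl
    (c.PR * c.Ee * m.NN * v.ei) rfl).2
    (c.den⁻¹) rfl
    c.C c.e_C
    (c.C * v.u) rfl
    (m.ka * m.iX) rfl
    (m.kb * ms.fa) rfl
    (m.kb * ms.fa * ms.Qb) rfl
    (m.kb * ms.fa * ms.Qb * m.iQX) rfl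
    (m.ka * m.iX + m.kb * ms.fa * ms.Qb * m.iQX) rfl
    c.fbt c.e_fbt
    (m.ka * v.h1t) rfl
    (m.ka * v.h1t * v.u⁻¹) rfl
    (m.ka * v.h1t * v.u⁻¹ * g) rfl
    c.sl c.e_sl
    (c.C * iA) rfl
    (c.C * iA * v.u) rfl).2
    (v.op1⁻¹) rfl
    (c.C * iA * v.u * v.op1⁻¹) rfl
    (v.e * ms.fa) rfl
    (v.e * ms.fa * v.om1) rfl
    (v.e * ms.fa * v.om1 * m.bte) rfl
    (v.e * ms.fa * v.om1 * m.bte + c.sl) rfl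
    (ms.fa * m.lfk) rfl
    (ms.fa * m.lfk * phu) rfl
    (v.e * ms.fa * v.om1 * m.bte + c.sl + ms.fa * m.lfk * phu) rfl
    c.FX c.e_FX
    (A * v.tu) rfl
    (A * v.tu * v.op1) rfl
    m.XLt m.e_XLt
    (3 : ℝ) zX_3298534883328_0
    m.beta m.e_beta
    (v4.hgp + (1 : ℝ)) rfl
    (v4.hgp * (v4.hgp + (1 : ℝ))) rfl
    (v.rp + v4.hgp * (v4.hgp + (1 : ℝ))) rfl
    f.dri f.e_dri
    (v.qp * (v4.hgp + (1 : ℝ))) rfl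
    ((5 / 8) * f.dri) (congrArg (fun y : ℝ => y * f.dri) zX_687194767360_0)
    ((1 : ℝ) + (5 / 8) * f.dri) rfl
    (f.dri * ((1 : ℝ) + (5 / 8) * f.dri)) rfl
    ((1 : ℝ) + f.dri * ((1 : ℝ) + (5 / 8) * f.dri)) rfl
    f.Qp f.e_Qp
    (v.K + v.t) rfl
    ((v.h + (1 : ℝ)) * (v.K + v.t)) rfl
    ((v.h + (1 : ℝ)) * (v.K + v.t) * m.beta) rfl
    ((1 : ℝ) + (v.h + (1 : ℝ)) * (v.K + v.t) * m.beta) rfl).2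
    f.Lam f.e_Lam
    (f.Qp * f.Lam) rfl
    (f.Qp * f.Lam * v.m) rfl
    (v.tu * m.eN) rfl
    (v.tu * m.eN * v.op1⁻¹) rfl
    ((1 : ℝ) + v.tu * m.eN * v.op1⁻¹) rfl
    (f.Qp * f.Lam * v.m * ((1 : ℝ) + v.tu * m.eN * v.op1⁻¹)) rfl
    (v.aQ - m.eta) rfl).2
    ((v.aQ - m.eta)⁻¹) rfl
    f.c1 f.e_c1
    f.fb f.e_fb
    (f.fb * m.XM) rfl
    (v.t * m.XLt) rfl
    (c.FX * (v.t * m.XLt)) rfl
    f.r f.e_r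
    (f.fb + c.FX) rfl
    ((1 : ℝ) + f.r) rfl
    (f.c1 * ((1 : ℝ) + f.r)) rfl
    (f.fb + c.FX + f.c1 * ((1 : ℝ) + f.r)) rfl
    f.Bm f.e_Bm
    ((1 / 1024) * v.t) (congrArg (fun y : ℝ => y * v.t) zX_1073741824_0)
    (f.Bm - (1 / 1024) * v.t) rfl
    m.m1 m.e_m1
    (2 : ℝ) zX_2199023255552_0
    (m.m1 + (2 : ℝ)) rfl
    (2 * m.beta) (congrArg (fun y : ℝ => y * m.beta) zX_2199023255552_0)
    (m.m1 + (2 : ℝ) - 2 * m.beta) rfl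
    ((v.h + (1 : ℝ)) * (m.m1 + (2 : ℝ) - 2 * m.beta)) rfl
    (m.m1 * (2 * m.beta)) rfl
    (m.m1 * (2 * m.beta) + (1 : ℝ)) rfl).2
    ((m.m1 * (2 * m.beta) + (1 : ℝ))⁻¹) rfl
    ((v.h + (1 : ℝ)) * (m.m1 + (2 : ℝ) - 2 * m.beta) * (m.m1 * (2 * m.beta) + (1 : ℝ))⁻¹) rfl
    (A * m.fx) rfl
    ((1 / 2) * v2.lm) (congrArg (fun y : ℝ => y * v2.lm) zX_549755813888_0)
    (v.K + (1 / 2) * v2.lm) rfl
    (A * m.fx * (v.K + (1 / 2) * v2.lm)) rfl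
    (2 * (A * m.fx * (v.K + (1 / 2) * v2.lm))) (congrArg (fun y : ℝ => y * (A * m.fx * (v.K + (1 / 2) * v2.lm))) zX_2199023255552_0)
    (m.src + 2 * (A * m.fx * (v.K + (1 / 2) * v2.lm))) rfl
    (2 * (m.src + 2 * (A * m.fx * (v.K + (1 / 2) * v2.lm)))) (congrArg (fun y : ℝ => y * (m.src + 2 * (A * m.fx * (v.K + (1 / 2) * v2.lm)))) zX_2199023255552_0)
    (2 * (m.src + 2 * (A * m.fx * (v.K + (1 / 2) * v2.lm))) * m.NN) rfl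
    (v.op1 - v.tu * m.eN) rfl).2
    ((v.op1 - v.tu * m.eN)⁻¹) rfl
    (2 * (m.src + 2 * (A * m.fx * (v.K + (1 / 2) * v2.lm))) * m.NN * (v.op1 - v.tu * m.eN)⁻¹) rfl
    m.V m.e_V
  change 0 < (1 : ℝ) - m.XM at p_XM
  obtain ⟨p_QX, s5⟩ := s4
  change 0 < (1 : ℝ) - m.QX at p_QX
  obtain ⟨p_e2, s6⟩ := s5
    (2 * (v.tu2 * m.eps)) (congrArg (fun y : ℝ => y * (v.tu2 * m.eps)) zX_2199023255552_0)
    (v.aQ - 2 * (v.tu2 * m.eps)) rfl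
  change 0 < v.aQ - 2 * (v.tu2 * m.eps) at p_e2
  obtain ⟨p_rl, s7⟩ := s6
  change 0 < m.rl at p_rl
  obtain ⟨p_hg, s8⟩ := s7
  change 0 < (1 : ℝ) - ms.hg at p_hg
  obtain ⟨p_hgp, s9⟩ := s8
    ((1 / 2 : ℝ) - v4.hgp) rfl
  change 0 < (1 / 2 : ℝ) - v4.hgp at p_hgp
  obtain ⟨p_l1, s10⟩ := s9
    ((5 / 8) * (1 : ℝ)) (congrArg (fun y : ℝ => y * (1 : ℝ)) zX_687194767360_0)
    ((5 / 8) * (1 : ℝ) - m.l1) rfl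
  change 0 < (5 / 8) * (1 : ℝ) - m.l1 at p_l1
  obtain ⟨p_a0, s11⟩ := s10
    ((11 / 32) * (1 : ℝ)) (congrArg (fun y : ℝ => y * (1 : ℝ)) zX_377957122048_0)
    ((11 / 32) * (1 : ℝ) - m.a0) rfl
  change 0 < (11 / 32) * (1 : ℝ) - m.a0 at p_a0
  obtain ⟨p_S, s12⟩ := s11
  change 0 < v.op1 - v.tu * m.eN at p_S
  obtain ⟨p_dri, s13⟩ := s12
    ((1 / 2 : ℝ) - f.dri) rfl
  change 0 < (1 / 2 : ℝ) - f.dri at p_dri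
  obtain ⟨p_d, s14⟩ := s13
  change 0 < (1 : ℝ) - m.d at p_d
  obtain ⟨p_den, s15⟩ := s14
  change 0 < c.den at p_den
  obtain ⟨p_dP, s16⟩ := s15
    ((5 / 8) * (1 : ℝ) - c.dP) rfl
  change 0 < (5 / 8) * (1 : ℝ) - c.dP at p_dP
  obtain ⟨p_V, s17⟩ := (((s16
    (v2.eK * v2.eK) rfl
    (13 : ℝ) zX_14293651161088_0
    (10 : ℝ) zX_10995116277760_0).2
    ((10 : ℝ)⁻¹) rfl
    ((13 : ℝ) * (10 : ℝ)⁻¹) rfl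
    (v2.eK * v2.eK * ((13 : ℝ) * (10 : ℝ)⁻¹)) rfl
    (25 : ℝ) zX_27487790694400_0
    m.C2 m.e_C2
    ((v.h + (1 : ℝ)) * v.op1) rfl
    m.b1 m.e_b1
    (v.t * m.b1) rfl
    ((1 : ℝ) + v.t * m.b1) rfl).2
    (((1 : ℝ) + v.t * m.b1)⁻¹) rfl
    m.gr m.e_gr
    (2 * v.c0 - v.t) rfl
    m.Gt m.e_Gt
    (2 * v.tu) (congrArg (fun y : ℝ => y * v.tu) zX_2199023255552_0)
    (2 * v.tu + m.eta) rfl
    m.ez m.e_ez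
    (m.C2 * m.gr) rfl
    (m.NN * m.ez) rfl
    (v.ei * (m.ka * ms.lsi + m.lfk * phu)) rfl
    (v.u2 * (v.ei * (m.ka * ms.lsi + m.lfk * phu))) rfl
    (v.op1 * A) rfl
    (v.op1 * A * m.fx) rfl
    (v.R * (v.op1 * A * m.fx)) rfl
    (v.u2 * (v.ei * (m.ka * ms.lsi + m.lfk * phu)) + v.R * (v.op1 * A * m.fx)) rfl
    (v.e * (v.u2 * (v.ei * (m.ka * ms.lsi + m.lfk * phu)) + v.R * (v.op1 * A * m.fx))) rfl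
    (m.NN * m.ez * (v.e * (v.u2 * (v.ei * (m.ka * ms.lsi + m.lfk * phu)) + v.R * (v.op1 * A * m.fx)))) rfl
    m.Rg0 m.e_Rg0
    ((1 / 2) * (v.tu * m.eN)) (congrArg (fun y : ℝ => y * (v.tu * m.eN)) zX_549755813888_0)
    ((1 : ℝ) + (1 / 2) * (v.tu * m.eN)) rfl
    (m.NN * ((1 : ℝ) + (1 / 2) * (v.tu * m.eN))) rfl
    (v.t * v.om1) rfl
    (v.t * v.om1 * v2.bsum) rfl
    (v.op1 * v.aQ) rfl).2
    ((v.op1 * v.aQ)⁻¹) rfl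
    (v.t * v.om1 * v2.bsum * (v.op1 * v.aQ)⁻¹) rfl
    (m.NN * ((1 : ℝ) + (1 / 2) * (v.tu * m.eN)) * (v.t * v.om1 * v2.bsum * (v.op1 * v.aQ)⁻¹)) rfl
    m.Rh m.e_Rh
    (v2.lm * m.Rg0) rfl
    ((1 : ℝ) - v2.lm) rfl
    (v.u2 * m.Rh) rfl
    (((1 : ℝ) - v2.lm) * (v.u2 * m.Rh)) rfl
    (m.C2 * (((1 : ℝ) - v2.lm) * (v.u2 * m.Rh))) rfl
    m.Rg m.e_Rg
  change 0 < m.V at p_V
  obtain ⟨p_B, s18⟩ := s17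
  change 0 < f.Bm - (1 / 1024) * v.t at p_B
  obtain ⟨p_Rg, s19⟩ := s18
  change 0 < m.Rg at p_Rg
  obtain ⟨p_Rh, s20⟩ := s19
  change 0 < m.Rh at p_Rh
  have nx := nx_of G v4 hccp p_o2p p_Wp p_hgp
  have hga := gam_FC G hcc p_o2 p_W e_g e_ga
  obtain ⟨lf0, Ex, hφ⟩ := phi_slog G v2 he2 (by norm_num) (by norm_num) (by norm_num) e_phu e_Ei e_Eh
  exact far_F G ⟨p_XM, p_QX, p_e2, p_rl, p_l1, p_a0, p_S, p_V, p_Rg, p_Rh⟩ nx.1 hcc p_o2 p_W p_hg D hA hiA e_g e_ga hφ c f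
    p_dri p_d p_den p_dP p_B

theorem far_X5 {κ : ℝ} {τ : ℂ} {R w : ℝ} {v : B1} (D : PtE (3 * 5⁻¹) v.e κ τ R w)
    (G : Geo κ (shf κ τ) v) (v2 : B2 v) (he2 : 2 ≤ v.e) (h : RAs Pool.Agent.helper71.FG.Crt.X.prog5 [v.e, v.t, v.u, v.n]) :
    FarPt v.e κ (1 - Real.sinh κ / 1024) w (2 * A5 v.e v.K * Real.sinh κ ^ 2) R
      (RE v.e κ (w * R)) τ := by
  obtain ⟨A, e_A⟩ : ∃ zz : ℝ, zz = v.e * ((1 : ℝ) * (5 : ℝ)⁻¹) := ⟨_, rfl⟩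
  obtain ⟨iA, e_iA⟩ : ∃ zz : ℝ, zz = 5 * v.ei := ⟨_, rfl⟩
  obtain ⟨hA, hiA, hAe⟩ := ab_x G v2 e_A e_iA
  rw [hAe]
  obtain ⟨cc, e_cc⟩ : ∃ zz : ℝ, zz = (1 : ℝ) - v.x * ((1 / 2 : ℝ) - v.x * ((21845 / 524288 : ℝ) - (11651 / 8388608) * v.x)) := ⟨_, rfl⟩
  obtain ⟨b⟩ := exGC v.q cc v.h1
  have hcc : CosB v.x cc := cosB_p e_cc
  obtain ⟨v3⟩ := exB3 v
  obtain ⟨ccp, e_ccp⟩ : ∃ zz : ℝ, zz = (1 : ℝ) - v3.xp * ((1 / 2 : ℝ) - v3.xp * ((21845 / 524288 : ℝ) - (11651 / 8388608) * v3.xp)) := ⟨_, rfl⟩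
  obtain ⟨b'⟩ := exGC v.qp ccp v3.hp
  obtain ⟨v4⟩ := exNC v3 b'
  have hccp : CosB v3.xp ccp := cosB_p e_ccp
  obtain ⟨g, e_g⟩ : ∃ zz : ℝ, zz = (1 / 2) * (((1 : ℝ) - v.q) * b.q1 * b.W⁻¹) := ⟨_, rfl⟩
  obtain ⟨ga, e_ga⟩ : ∃ zz : ℝ, zz = g * (g + (1 / 2 : ℝ))⁻¹ := ⟨_, rfl⟩
  obtain ⟨phu, e_phu⟩ : ∃ zz : ℝ, zz = (1 / 2) * ((13 / 4) * v.nj + (79 / 256) * v.u⁻¹) := ⟨_, rfl⟩
  obtain ⟨Ei, e_Ei⟩ : ∃ zz : ℝ, zz = 2 * v.ei + (1 : ℝ) := ⟨_, rfl⟩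
  obtain ⟨Eh, e_Eh⟩ : ∃ zz : ℝ, zz = v.ei + (1 : ℝ) := ⟨_, rfl⟩
  obtain ⟨ms⟩ := exMs v b g ga
  obtain ⟨m⟩ := exMb (3 * 5⁻¹) v2 A ms.Qb ms.Q1 ms.lsi phu Ei Eh
  obtain ⟨c⟩ := exCC m v4.gap iA
  obtain ⟨f⟩ := exFinS m (v.qp * (v4.hgp + 1)) (v.rp + v4.hgp * (v4.hgp + 1)) c.fbt c.FX
  obtain ⟨p_o2, s0⟩ := (((((((h
    (1 : ℝ) zX_1099511627776_0
    (1 / 2 : ℝ) zX_549755813888_0
    v.tu v.e_tu
    (v.tu * v.n) rfl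
    v.h (v.e_h.trans (congrArg (fun y : ℝ => y * (v.tu * v.n)) zX_549755813888_0))
    v.u2 v.e_u2
    (v.h * v.h) rfl
    v.jm v.e_jm).2
    v.j v.e_j
    (v.h * v.j) rfl
    v.K (v.e_K.trans (congrArg (fun y : ℝ => y * (v.h * v.j)) zX_2199023255552_0))
    (2 * v.j) (congrArg (fun y : ℝ => y * v.j) zX_2199023255552_0)
    v.c0 v.e_c0
    v.m v.e_m
    v.nj v.e_nj
    v.om v.e_om
    v.om1 v.e_om1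
    v.op1 v.e_op1
    v2.Y (v2.e_Y.trans (congrArg (fun y : ℝ => y * v.h) zX_10774999203840_0))
    ((341 / 8192) * v2.Y) (congrArg (fun y : ℝ => y * v2.Y) zX_45768245248_0)
    (1365 / 8192 : ℝ) zX_183207198720_0
    ((341 / 8192) * v2.Y + (1365 / 8192 : ℝ)) rfl
    (v2.Y * ((341 / 8192) * v2.Y + (1365 / 8192 : ℝ))) rfl
    ((1 / 2 : ℝ) + v2.Y * ((341 / 8192) * v2.Y + (1365 / 8192 : ℝ))) rfl
    (v2.Y * ((1 / 2 : ℝ) + v2.Y * ((341 / 8192) * v2.Y + (1365 / 8192 : ℝ)))) rfl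
    v2.pY v2.e_pY
    (v2.Y * v2.pY) rfl
    ((1 / 2) * (v2.Y * v2.pY)) (congrArg (fun y : ℝ => y * (v2.Y * v2.pY)) zX_549755813888_0)
    ((1 : ℝ) + (1 / 2) * (v2.Y * v2.pY)) rfl
    v2.Yp v2.e_Yp
    v.R v.e_R
    (v.K * v.om) rfl
    (2 * v.c0) (congrArg (fun y : ℝ => y * v.c0) zX_2199023255552_0)
    (v.K * v.om + 2 * v.c0) rfl
    v.Dt v.e_Dt
    v.D v.e_D
    v.SQ v.e_SQ
    (v.K * v.K) rfl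
    (2 * (v.K * v.K)) (congrArg (fun y : ℝ => y * (v.K * v.K)) zX_2199023255552_0)
    v.c2 v.e_c2
    (v.c0 * v.Dt) rfl
    v.rhat v.e_rhat).2
    v.LQ v.e_LQ
    ((1 / 2) * v.LQ) (congrArg (fun y : ℝ => y * v.LQ) zX_549755813888_0)
    v.aQ v.e_aQ
    v.ee (v.e_ee.trans (congrArg (fun y : ℝ => y * v.e) zX_549755813888_0))
    v.rho v.e_rho
    (-v.rho) rfl
    v.q v.e_q
    (v.c0 * v.R) rfl
    (v.c0 * v.R * v.rhat) rfl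
    v.D2 (v.e_D2.trans (congrArg (fun y : ℝ => y * (v.c0 * v.R * v.rhat)) zX_4398046511104_0))
    (v.D2 + (1 : ℝ)) rfl).2
    (Real.log (v.D2 + (1 : ℝ))) rfl
    v.L2 v.e_L2
    v.rp v.e_rp
    (-v.rp) rfl
    v.qp v.e_qp
    (v.om * v.K) rfl
    (v.c0 + v.om * v.K) rfl).2
    v.ioK v.e_ioK
    v.h1t v.e_h1t
    (v.om1 * v.t) rfl
    v.h1 v.e_h1
    v.nj2 v.e_nj2
    ((1 : ℝ) - v.u2) rfl
    v.f2 v.e_f2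
    v.tu2 v.e_tu2
    (v.c0 + v.R) rfl).2
    ((v.c0 + v.R)⁻¹) rfl
    v.w v.e_w
    (v.w * v.tu) rfl
    (v.w * v.tu * (v.w * v.tu)) rfl
    ((1 : ℝ) - v.nj2) rfl
    (((1 : ℝ) - v.u2) * ((1 : ℝ) - v.nj2)) rfl
    v.x (x_alt v)).2
    v.ei v.e_ei
    (21845 / 524288 : ℝ) zX_45812285440_0
    ((11651 / 8388608) * v.x) (congrArg (fun y : ℝ => y * v.x) zX_1527119872_0)
    ((21845 / 524288 : ℝ) - (11651 / 8388608) * v.x) rfl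
    (v.x * ((21845 / 524288 : ℝ) - (11651 / 8388608) * v.x)) rfl
    ((1 / 2 : ℝ) - v.x * ((21845 / 524288 : ℝ) - (11651 / 8388608) * v.x)) rfl
    (v.x * ((1 / 2 : ℝ) - v.x * ((21845 / 524288 : ℝ) - (11651 / 8388608) * v.x))) rfl
    cc e_cc
    b.q1 b.e_q1
    (v.q * v.q) rfl
    (v.q * v.q + (1 : ℝ)) rfl
    (v.q * cc) rfl
    (2 * (v.q * cc)) (congrArg (fun y : ℝ => y * (v.q * cc)) zX_2199023255552_0)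
    b.o2 b.e_o2).2
    (b.q1⁻¹) rfl
    (b.o2 * b.q1⁻¹) rfl
    b.P1 b.e_P1
    (v.q * v.h1) rfl
    b.qh (b.e_qh.trans (congrArg (fun y : ℝ => y * (v.q * v.h1)) zX_549755813888_0))
    (b.qh * b.P1) rfl
    b.W b.e_W
  change 0 < b.o2 at p_o2
  obtain ⟨p_W, s1⟩ := s0
  change 0 < b.W at p_W
  obtain ⟨p_o2p, s2⟩ := (((((((s1).2
    b.W⁻¹ rfl
    ((1 : ℝ) - v.q) rfl
    (((1 : ℝ) - v.q) * b.q1) rfl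
    (((1 : ℝ) - v.q) * b.q1 * b.W⁻¹) rfl
    g (e_g.trans (congrArg (fun y : ℝ => y * (((1 : ℝ) - v.q) * b.q1 * b.W⁻¹)) zX_549755813888_0))
    (g + (1 / 2 : ℝ)) rfl).2
    ((g + (1 / 2 : ℝ))⁻¹) rfl
    ga e_ga
    (b.qh * g) rfl
    (b.qh * g + (1 / 2 : ℝ)) rfl
    ((b.qh * g + (1 / 2 : ℝ)) * b.P1) rfl).2
    (b.o2⁻¹) rfl
    ms.fa ms.e_fa
    ms.hg ms.e_hg
    ((1 / 2) * ms.hg) (congrArg (fun y : ℝ => y * ms.hg) zX_549755813888_0)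
    ((1 : ℝ) - (1 / 2) * ms.hg) rfl
    ((1 : ℝ) - ms.hg) rfl).2
    (((1 : ℝ) - ms.hg)⁻¹) rfl
    ms.lsf ms.e_lsf
    (ms.hg + (1 : ℝ)) rfl
    ms.Qb ms.e_Qb
    (v.om1 * v.op1) rfl
    (v.c0 + v.t) rfl
    (v.om * v.c0) rfl
    (v.om * v.c0 * v.K) rfl
    (2 * (v.om * v.c0 * v.K)) (congrArg (fun y : ℝ => y * (v.om * v.c0 * v.K)) zX_2199023255552_0)
    (v.c2 + 2 * (v.om * v.c0 * v.K)) rfl
    ((v.c0 + v.t) * (v.c2 + 2 * (v.om * v.c0 * v.K))) rfl).2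
    (((v.c0 + v.t) * (v.c2 + 2 * (v.om * v.c0 * v.K)))⁻¹) rfl
    v3.hpt v3.e_hpt
    v3.hp v3.e_hp).2
    (v.SQ⁻¹) rfl
    v3.xp v3.e_xp
    ((11651 / 8388608) * v3.xp) (congrArg (fun y : ℝ => y * v3.xp) zX_1527119872_0)
    ((21845 / 524288 : ℝ) - (11651 / 8388608) * v3.xp) rfl
    (v3.xp * ((21845 / 524288 : ℝ) - (11651 / 8388608) * v3.xp)) rfl
    ((1 / 2 : ℝ) - v3.xp * ((21845 / 524288 : ℝ) - (11651 / 8388608) * v3.xp)) rfl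
    (v3.xp * ((1 / 2 : ℝ) - v3.xp * ((21845 / 524288 : ℝ) - (11651 / 8388608) * v3.xp))) rfl
    ccp e_ccp
    b'.q1 b'.e_q1
    (v.qp * v.qp) rfl
    (v.qp * v.qp + (1 : ℝ)) rfl
    (v.qp * ccp) rfl
    (2 * (v.qp * ccp)) (congrArg (fun y : ℝ => y * (v.qp * ccp)) zX_2199023255552_0)
    b'.o2 b'.e_o2).2
    (b'.q1⁻¹) rfl
    (b'.o2 * b'.q1⁻¹) rfl
    b'.P1 b'.e_P1
    (v.qp * v3.hp) rfl
    b'.qh (b'.e_qh.trans (congrArg (fun y : ℝ => y * (v.qp * v3.hp)) zX_549755813888_0))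
    (b'.qh * b'.P1) rfl
    b'.W b'.e_W
  change 0 < b'.o2 at p_o2p
  obtain ⟨p_Wp, s3⟩ := s2
  change 0 < b'.W at p_Wp
  obtain ⟨p_XM, s4⟩ := ((((((((((((((((((s3
    ((1 : ℝ) - v.qp) rfl
    (((1 : ℝ) - v.qp) * b'.q1) rfl).2
    (b'.W⁻¹) rfl
    (((1 : ℝ) - v.qp) * b'.q1 * b'.W⁻¹) rfl
    v4.gp (v4.e_gp.trans (congrArg (fun y : ℝ => y * (((1 : ℝ) - v.qp) * b'.q1 * b'.W⁻¹)) zX_549755813888_0))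
    (v4.gp + (1 / 2 : ℝ)) rfl).2
    ((v4.gp + (1 / 2 : ℝ))⁻¹) rfl
    v4.gap v4.e_gap
    v4.hgp v4.e_hgp
    (v.h + (1 : ℝ)) rfl).2
    v2.ih v2.e_ih
    (v.h * v2.ih) rfl
    v2.rh (v2.e_rh.trans (congrArg (fun y : ℝ => y * (v.h * v2.ih)) zX_2199023255552_0))
    v2.mi v2.e_mi
    v2.hm v2.e_hm
    v2.nih v2.e_nih
    (v2.nih * v2.mi) rfl
    v2.bsum v2.e_bsum
    v2.eK v2.e_eK
    (5 : ℝ) zX_5497558138880_0).2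
    ((5 : ℝ)⁻¹) rfl
    ((1 : ℝ) * (5 : ℝ)⁻¹) rfl
    A e_A
    iA (e_iA.trans (congrArg (fun y : ℝ => y * v.ei) zX_5497558138880_0))
    ((209 / 1024) * v.j) (congrArg (fun y : ℝ => y * v.j) zX_224412041216_0)).2
    (v2.Yp⁻¹) rfl
    v2.lm v2.e_lm
    (A * v.op1) rfl
    m.Xe m.e_Xe
    m.XM m.e_XM
    ((1 : ℝ) - m.XM) rfl).2
    m.iX m.e_iX
    m.QX m.e_QX
    ((1 : ℝ) - m.QX) rfl).2
    m.iQX m.e_iQX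
    ((13 / 4) * v.nj) (congrArg (fun y : ℝ => y * v.nj) zX_3573412790272_0)).2
    (v.u⁻¹) rfl
    ((79 / 256) * v.u⁻¹) (congrArg (fun y : ℝ => y * v.u⁻¹) zX_339302416384_0)
    ((13 / 4) * v.nj + (79 / 256) * v.u⁻¹) rfl
    phu (e_phu.trans (congrArg (fun y : ℝ => y * ((13 / 4) * v.nj + (79 / 256) * v.u⁻¹)) zX_549755813888_0))
    (2 * v.ei) (congrArg (fun y : ℝ => y * v.ei) zX_2199023255552_0)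
    Ei e_Ei
    Eh e_Eh
    (v.h * v.nj) rfl
    ((1 : ℝ) - v.f2) rfl
    (v.h * v.om) rfl
    (2 * (v.h * v.om)) (congrArg (fun y : ℝ => y * (v.h * v.om)) zX_2199023255552_0)
    ((1 : ℝ) - v.f2 - 2 * (v.h * v.om)) rfl
    (v.h * v.nj * (v.h * v.nj)) rfl
    m.N1 m.e_N1
    (m.N1 + (1 : ℝ)) rfl
    m.s (m.e_s.trans (congrArg (fun y : ℝ => y * (m.N1 + (1 : ℝ))) zX_549755813888_0))
    ((1 / 2) * v.R) (congrArg (fun y : ℝ => y * v.R) zX_549755813888_0)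
    (v.j - (1 / 2) * v.R) rfl
    (v.tu2 * ((1 : ℝ) - v.f2)) rfl
    (v.tu2 * ((1 : ℝ) - v.f2) * v.jm) rfl
    ((1 / 8) * (v.tu2 * ((1 : ℝ) - v.f2) * v.jm)) (congrArg (fun y : ℝ => y * (v.tu2 * ((1 : ℝ) - v.f2) * v.jm)) zX_137438953472_0)
    (v.j - (1 / 2) * v.R + (1 / 8) * (v.tu2 * ((1 : ℝ) - v.f2) * v.jm)) rfl
    m.k0 m.e_k0
    m.ls (ls_F G ms m)
    ms.Q1 ms.e_Q1
    (ms.Q1 * m.iX) rfl
    (ms.Qb * m.iQX) rfl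
    (ms.Q1 * m.iX + ms.Qb * m.iQX) rfl
    (m.XM * (ms.Q1 * m.iX + ms.Qb * m.iQX)) rfl
    (m.ls + m.XM * (ms.Q1 * m.iX + ms.Qb * m.iQX)) rfl
    m.a0 m.e_a0
    (ms.Q1 * m.XM) rfl
    (ms.Q1 * m.XM * m.iX) rfl
    (m.ls + ms.Q1 * m.XM * m.iX) rfl
    m.l1 m.e_l1
    ((13 / 64) * m.l1) (congrArg (fun y : ℝ => y * m.l1) zX_223338299392_0)
    ((1 / 2 : ℝ) + (13 / 64) * m.l1) rfl
    (m.l1 * ((1 / 2 : ℝ) + (13 / 64) * m.l1)) rfl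
    m.Na m.e_Na
    ((13 / 16) * m.a0) (congrArg (fun y : ℝ => y * m.a0) zX_893353197568_0)
    ((1 : ℝ) + (13 / 16) * m.a0) rfl
    (m.a0 * ((1 : ℝ) + (13 / 16) * m.a0)) rfl
    m.Nb m.e_Nb
    (v2.rh * v2.nih) rfl
    (v2.rh * v2.nih * Ei) rfl
    m.rn m.e_rn
    (m.k0 * m.Na) rfl
    (v.aQ + (1 / 2 : ℝ)) rfl
    (m.rn * (v.aQ + (1 / 2 : ℝ))) rfl
    m.ka m.e_ka
    (v.aQ + (1 : ℝ)) rfl
    m.kb m.e_kb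
    (Eh * (v.aQ + (1 : ℝ))) rfl
    (Eh * (v.aQ + (1 : ℝ)) * v2.nih) rfl
    m.lfk m.e_lfk
    (v.tu * v2.bsum) rfl).2
    (v.aQ⁻¹) rfl
    (v.tu * v2.bsum * v.aQ⁻¹) rfl
    m.bte (m.e_bte.trans (congrArg (fun y : ℝ => y * (v.tu * v2.bsum * v.aQ⁻¹)) zX_549755813888_0))
    (v.h1t * v.u⁻¹) rfl
    (v.h1t * v.u⁻¹ * ga) rfl
    ms.lsi ms.e_lsi
    (v.om1 * m.bte) rfl
    (m.ka * ms.lsi) rfl
    (m.lfk * phu) rfl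
    (m.ka * ms.lsi + m.lfk * phu) rfl
    ((m.ka * ms.lsi + m.lfk * phu) * v.ei) rfl
    m.src m.e_src
    (m.ka * ms.Q1) rfl
    (m.ka * ms.Q1 * m.iX) rfl
    (m.kb * ms.Qb) rfl
    (m.kb * ms.Qb * m.iQX) rfl
    (m.ka * ms.Q1 * m.iX + m.kb * ms.Qb * m.iQX) rfl
    m.fx m.e_fx
    (v.om1 * m.src) rfl
    (m.Xe * m.fx) rfl
    m.eps m.e_eps
    (v.tu2 * m.eps) rfl
    (v.tu2 * m.eps * v.aQ⁻¹) rfl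
    ((1 : ℝ) - v.tu2 * m.eps * v.aQ⁻¹) rfl).2
    m.NN m.e_NN
    m.eN m.e_eN
    m.d m.e_d
    m.eta m.e_eta
    (m.eta * v.aQ⁻¹) rfl
    ((1 : ℝ) - m.eta * v.aQ⁻¹) rfl
    (v.rhat * ((1 : ℝ) - m.eta * v.aQ⁻¹)) rfl
    m.rl m.e_rl).2
    m.irl m.e_irl
    m.yy m.e_yy
    (v.aQ - m.eta) rfl).2
    c.q0 c.e_q0
    c.zp c.e_zp
    (v.e * c.q0) rfl
    (v4.gap * m.irl) rfl).2
    (v.R⁻¹) rfl
    (v4.gap * m.irl * v.R⁻¹) rfl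
    ((1 / 2) * c.zp) (congrArg (fun y : ℝ => y * c.zp) zX_549755813888_0)
    ((1 : ℝ) - (1 / 2) * c.zp) rfl
    ((1 : ℝ) - c.zp) rfl).2
    (((1 : ℝ) - c.zp)⁻¹) rfl
    (((1 : ℝ) - (1 / 2) * c.zp) * ((1 : ℝ) - c.zp)⁻¹) rfl
    (v4.gap * m.irl * v.R⁻¹ * (((1 : ℝ) - (1 / 2) * c.zp) * ((1 : ℝ) - c.zp)⁻¹)) rfl
    c.C1 c.e_C1
    c.rr c.e_rr
    ((13 / 64) * c.rr) (congrArg (fun y : ℝ => y * c.rr) zX_223338299392_0)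
    ((1 / 2 : ℝ) + (13 / 64) * c.rr) rfl
    (c.rr * ((1 / 2 : ℝ) + (13 / 64) * c.rr)) rfl
    ((1 : ℝ) + c.rr * ((1 / 2 : ℝ) + (13 / 64) * c.rr)) rfl
    (c.C1 * ((1 : ℝ) + c.rr * ((1 / 2 : ℝ) + (13 / 64) * c.rr))) rfl
    (c.C1 * ((1 : ℝ) + c.rr * ((1 / 2 : ℝ) + (13 / 64) * c.rr)) * m.NN) rfl
    c.C c.e_C
    (c.C * v.u) rfl
    c.fbt c.e_fbt
    (c.C * iA) rfl
    (c.C * iA * v.u) rfl).2
    (v.op1⁻¹) rfl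
    (c.C * iA * v.u * v.op1⁻¹) rfl
    (v.e * v.om1) rfl
    (v.e * v.om1 * m.bte) rfl
    (v.e * v.om1 * m.bte + m.ka * ms.lsi) rfl
    (v.e * v.om1 * m.bte + m.ka * ms.lsi + m.lfk * phu) rfl
    c.FX c.e_FX
    (A * v.tu) rfl
    (A * v.tu * v.op1) rfl
    m.XLt m.e_XLt
    (3 : ℝ) zX_3298534883328_0
    m.beta m.e_beta
    (v4.hgp + (1 : ℝ)) rfl
    (v4.hgp * (v4.hgp + (1 : ℝ))) rfl
    (v.rp + v4.hgp * (v4.hgp + (1 : ℝ))) rfl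
    f.dri f.e_dri
    (v.qp * (v4.hgp + (1 : ℝ))) rfl
    ((5 / 8) * f.dri) (congrArg (fun y : ℝ => y * f.dri) zX_687194767360_0)
    ((1 : ℝ) + (5 / 8) * f.dri) rfl
    (f.dri * ((1 : ℝ) + (5 / 8) * f.dri)) rfl
    ((1 : ℝ) + f.dri * ((1 : ℝ) + (5 / 8) * f.dri)) rfl
    f.Qp f.e_Qp
    (v.K + v.t) rfl
    ((v.h + (1 : ℝ)) * (v.K + v.t)) rfl
    ((v.h + (1 : ℝ)) * (v.K + v.t) * m.beta) rfl
    ((1 : ℝ) + (v.h + (1 : ℝ)) * (v.K + v.t) * m.beta) rfl).2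
    f.Lam f.e_Lam
    (f.Qp * f.Lam) rfl
    (f.Qp * f.Lam * v.m) rfl
    (v.tu * m.eN) rfl
    (v.tu * m.eN * v.op1⁻¹) rfl
    ((1 : ℝ) + v.tu * m.eN * v.op1⁻¹) rfl
    (f.Qp * f.Lam * v.m * ((1 : ℝ) + v.tu * m.eN * v.op1⁻¹)) rfl
    f.c1 (c1_C c f)
    f.fb f.e_fb
    (f.fb * m.XM) rfl
    (v.t * m.XLt) rfl
    (c.FX * (v.t * m.XLt)) rfl
    f.r f.e_r
    (f.fb + c.FX) rfl
    ((1 : ℝ) + f.r) rfl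
    (f.c1 * ((1 : ℝ) + f.r)) rfl
    (f.fb + c.FX + f.c1 * ((1 : ℝ) + f.r)) rfl
    f.Bm f.e_Bm
    ((1 / 1024) * v.t) (congrArg (fun y : ℝ => y * v.t) zX_1073741824_0)
    (f.Bm - (1 / 1024) * v.t) rfl
    m.m1 m.e_m1
    (2 : ℝ) zX_2199023255552_0
    (m.m1 + (2 : ℝ)) rfl
    (2 * m.beta) (congrArg (fun y : ℝ => y * m.beta) zX_2199023255552_0)
    (m.m1 + (2 : ℝ) - 2 * m.beta) rfl
    ((v.h + (1 : ℝ)) * (m.m1 + (2 : ℝ) - 2 * m.beta)) rfl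
    (m.m1 * (2 * m.beta)) rfl
    (m.m1 * (2 * m.beta) + (1 : ℝ)) rfl).2
    ((m.m1 * (2 * m.beta) + (1 : ℝ))⁻¹) rfl
    ((v.h + (1 : ℝ)) * (m.m1 + (2 : ℝ) - 2 * m.beta) * (m.m1 * (2 * m.beta) + (1 : ℝ))⁻¹) rfl
    (A * m.fx) rfl
    ((1 / 2) * v2.lm) (congrArg (fun y : ℝ => y * v2.lm) zX_549755813888_0)
    (v.K + (1 / 2) * v2.lm) rfl
    (A * m.fx * (v.K + (1 / 2) * v2.lm)) rfl
    (2 * (A * m.fx * (v.K + (1 / 2) * v2.lm))) (congrArg (fun y : ℝ => y * (A * m.fx * (v.K + (1 / 2) * v2.lm))) zX_2199023255552_0)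
    (m.src + 2 * (A * m.fx * (v.K + (1 / 2) * v2.lm))) rfl
    (2 * (m.src + 2 * (A * m.fx * (v.K + (1 / 2) * v2.lm)))) (congrArg (fun y : ℝ => y * (m.src + 2 * (A * m.fx * (v.K + (1 / 2) * v2.lm)))) zX_2199023255552_0)
    (2 * (m.src + 2 * (A * m.fx * (v.K + (1 / 2) * v2.lm))) * m.NN) rfl
    (v.op1 - v.tu * m.eN) rfl).2
    ((v.op1 - v.tu * m.eN)⁻¹) rfl
    (2 * (m.src + 2 * (A * m.fx * (v.K + (1 / 2) * v2.lm))) * m.NN * (v.op1 - v.tu * m.eN)⁻¹) rfl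
    m.V m.e_V
  change 0 < (1 : ℝ) - m.XM at p_XM
  obtain ⟨p_QX, s5⟩ := s4
  change 0 < (1 : ℝ) - m.QX at p_QX
  obtain ⟨p_e2, s6⟩ := s5
    (2 * (v.tu2 * m.eps)) (congrArg (fun y : ℝ => y * (v.tu2 * m.eps)) zX_2199023255552_0)
    (v.aQ - 2 * (v.tu2 * m.eps)) rfl
  change 0 < v.aQ - 2 * (v.tu2 * m.eps) at p_e2
  obtain ⟨p_rl, s7⟩ := s6
  change 0 < m.rl at p_rl
  obtain ⟨p_hg, s8⟩ := s7
  change 0 < (1 : ℝ) - ms.hg at p_hg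
  obtain ⟨p_hgp, s9⟩ := s8
    ((1 / 2 : ℝ) - v4.hgp) rfl
  change 0 < (1 / 2 : ℝ) - v4.hgp at p_hgp
  obtain ⟨p_l1, s10⟩ := s9
    ((5 / 8) * (1 : ℝ)) (congrArg (fun y : ℝ => y * (1 : ℝ)) zX_687194767360_0)
    ((5 / 8) * (1 : ℝ) - m.l1) rfl
  change 0 < (5 / 8) * (1 : ℝ) - m.l1 at p_l1
  obtain ⟨p_a0, s11⟩ := s10
    ((11 / 32) * (1 : ℝ)) (congrArg (fun y : ℝ => y * (1 : ℝ)) zX_377957122048_0)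
    ((11 / 32) * (1 : ℝ) - m.a0) rfl
  change 0 < (11 / 32) * (1 : ℝ) - m.a0 at p_a0
  obtain ⟨p_S, s12⟩ := s11
  change 0 < v.op1 - v.tu * m.eN at p_S
  obtain ⟨p_dri, s13⟩ := s12
    ((1 / 2 : ℝ) - f.dri) rfl
  change 0 < (1 / 2 : ℝ) - f.dri at p_dri
  obtain ⟨p_zp, s14⟩ := s13
  change 0 < (1 : ℝ) - c.zp at p_zp
  obtain ⟨p_rr, s15⟩ := s14
    ((5 / 8) * (1 : ℝ) - c.rr) rfl
  change 0 < (5 / 8) * (1 : ℝ) - c.rr at p_rr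
  obtain ⟨p_V, s16⟩ := (((s15
    (v2.eK * v2.eK) rfl
    (13 : ℝ) zX_14293651161088_0
    (10 : ℝ) zX_10995116277760_0).2
    ((10 : ℝ)⁻¹) rfl
    ((13 : ℝ) * (10 : ℝ)⁻¹) rfl
    (v2.eK * v2.eK * ((13 : ℝ) * (10 : ℝ)⁻¹)) rfl
    (25 : ℝ) zX_27487790694400_0
    m.C2 m.e_C2
    ((v.h + (1 : ℝ)) * v.op1) rfl
    m.b1 m.e_b1
    (v.t * m.b1) rfl
    ((1 : ℝ) + v.t * m.b1) rfl).2
    (((1 : ℝ) + v.t * m.b1)⁻¹) rfl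
    m.gr m.e_gr
    (2 * v.c0 - v.t) rfl
    m.Gt m.e_Gt
    (2 * v.tu) (congrArg (fun y : ℝ => y * v.tu) zX_2199023255552_0)
    (2 * v.tu + m.eta) rfl
    m.ez m.e_ez
    (m.C2 * m.gr) rfl
    (m.NN * m.ez) rfl
    (v.ei * (m.ka * ms.lsi + m.lfk * phu)) rfl
    (v.u2 * (v.ei * (m.ka * ms.lsi + m.lfk * phu))) rfl
    (v.op1 * A) rfl
    (v.op1 * A * m.fx) rfl
    (v.R * (v.op1 * A * m.fx)) rfl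
    (v.u2 * (v.ei * (m.ka * ms.lsi + m.lfk * phu)) + v.R * (v.op1 * A * m.fx)) rfl
    (v.e * (v.u2 * (v.ei * (m.ka * ms.lsi + m.lfk * phu)) + v.R * (v.op1 * A * m.fx))) rfl
    (m.NN * m.ez * (v.e * (v.u2 * (v.ei * (m.ka * ms.lsi + m.lfk * phu)) + v.R * (v.op1 * A * m.fx)))) rfl
    m.Rg0 m.e_Rg0
    ((1 / 2) * (v.tu * m.eN)) (congrArg (fun y : ℝ => y * (v.tu * m.eN)) zX_549755813888_0)
    ((1 : ℝ) + (1 / 2) * (v.tu * m.eN)) rfl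
    (m.NN * ((1 : ℝ) + (1 / 2) * (v.tu * m.eN))) rfl
    (v.t * v.om1) rfl
    (v.t * v.om1 * v2.bsum) rfl
    (v.op1 * v.aQ) rfl).2
    ((v.op1 * v.aQ)⁻¹) rfl
    (v.t * v.om1 * v2.bsum * (v.op1 * v.aQ)⁻¹) rfl
    (m.NN * ((1 : ℝ) + (1 / 2) * (v.tu * m.eN)) * (v.t * v.om1 * v2.bsum * (v.op1 * v.aQ)⁻¹)) rfl
    m.Rh m.e_Rh
    (v2.lm * m.Rg0) rfl
    ((1 : ℝ) - v2.lm) rfl
    (v.u2 * m.Rh) rfl
    (((1 : ℝ) - v2.lm) * (v.u2 * m.Rh)) rfl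
    (m.C2 * (((1 : ℝ) - v2.lm) * (v.u2 * m.Rh))) rfl
    m.Rg m.e_Rg
  change 0 < m.V at p_V
  obtain ⟨p_B, s17⟩ := s16
  change 0 < f.Bm - (1 / 1024) * v.t at p_B
  obtain ⟨p_Rg, s18⟩ := s17
  change 0 < m.Rg at p_Rg
  obtain ⟨p_Rh, s19⟩ := s18
  change 0 < m.Rh at p_Rh
  have nx := nx_of G v4 hccp p_o2p p_Wp p_hgp
  have hga := gam_FC G hcc p_o2 p_W e_g e_ga
  have hn1Q := (nqb G ms hga).2.2.2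
  obtain ⟨lf0, Ex, hφ⟩ := phi_slog G v2 he2 (by norm_num) (by norm_num) (by norm_num) e_phu e_Ei e_Eh
  exact far_C G ⟨p_XM, p_QX, p_e2, p_rl, p_l1, p_a0, p_S, p_V, p_Rg, p_Rh⟩ nx.1 hga hn1Q p_hg D hA hiA hφ c f
    p_dri p_zp p_rr p_B

theorem far_X6 {κ : ℝ} {τ : ℂ} {R w : ℝ} {v : B1} (D : PtE (3 * 5⁻¹) v.e κ τ R w)
    (G : Geo κ (shf κ τ) v) (v2 : B2 v) (he2 : 2 ≤ v.e) (h : RAs Pool.Agent.helper71.FG.Crt.X.prog6 [v.e, v.t, v.u, v.n]) :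
    FarPt v.e κ (1 - Real.sinh κ / 1024) w (2 * A5 v.e v.K * Real.sinh κ ^ 2) R
      (RE v.e κ (w * R)) τ := by
  obtain ⟨A, e_A⟩ : ∃ zz : ℝ, zz = v.e * ((1 : ℝ) * (5 : ℝ)⁻¹) := ⟨_, rfl⟩
  obtain ⟨iA, e_iA⟩ : ∃ zz : ℝ, zz = 5 * v.ei := ⟨_, rfl⟩
  obtain ⟨hA, hiA, hAe⟩ := ab_x G v2 e_A e_iA
  rw [hAe]
  obtain ⟨cc, e_cc⟩ : ∃ zz : ℝ, zz = (-1 : ℝ) := ⟨_, rfl⟩
  obtain ⟨b⟩ := exGC v.q cc v.h1
  have hcc : CosB v.x cc := cosB_m e_cc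
  obtain ⟨v3⟩ := exB3 v
  obtain ⟨b'⟩ := exGC v.qp cc v3.hp
  obtain ⟨v4⟩ := exNC v3 b'
  have hccp : CosB v3.xp cc := cosB_m e_cc
  obtain ⟨g, e_g⟩ : ∃ zz : ℝ, zz = (1 / 2) * (((1 : ℝ) - v.q) * b.q1 * b.W⁻¹) := ⟨_, rfl⟩
  obtain ⟨ga, e_ga⟩ : ∃ zz : ℝ, zz = g * (g + (1 / 2 : ℝ))⁻¹ := ⟨_, rfl⟩
  obtain ⟨phu, e_phu⟩ : ∃ zz : ℝ, zz = (1 / 2) * ((13 / 4) * v.nj + (79 / 256) * v.u⁻¹) := ⟨_, rfl⟩
  obtain ⟨Ei, e_Ei⟩ : ∃ zz : ℝ, zz = 2 * v.ei + (1 : ℝ) := ⟨_, rfl⟩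
  obtain ⟨Eh, e_Eh⟩ : ∃ zz : ℝ, zz = v.ei + (1 : ℝ) := ⟨_, rfl⟩
  obtain ⟨ms⟩ := exMs v b g ga
  obtain ⟨m⟩ := exMb (3 * 5⁻¹) v2 A ms.Qb ms.Q1 ms.lsi phu Ei Eh
  obtain ⟨c⟩ := exCC m v4.gap iA
  obtain ⟨f⟩ := exFinS m (v.qp * (v4.hgp + 1)) (v.rp + v4.hgp * (v4.hgp + 1)) c.fbt c.FX
  obtain ⟨p_o2, s0⟩ := (((((((h
    (1 : ℝ) zX_1099511627776_0
    (1 / 2 : ℝ) zX_549755813888_0
    v.tu v.e_tu
    (v.tu * v.n) rfl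
    v.h (v.e_h.trans (congrArg (fun y : ℝ => y * (v.tu * v.n)) zX_549755813888_0))
    v.u2 v.e_u2
    (v.h * v.h) rfl
    v.jm v.e_jm).2
    v.j v.e_j
    (v.h * v.j) rfl
    v.K (v.e_K.trans (congrArg (fun y : ℝ => y * (v.h * v.j)) zX_2199023255552_0))
    (2 * v.j) (congrArg (fun y : ℝ => y * v.j) zX_2199023255552_0)
    v.c0 v.e_c0
    v.m v.e_m
    v.nj v.e_nj
    v.om v.e_om
    v.om1 v.e_om1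
    v.op1 v.e_op1
    v2.Y (v2.e_Y.trans (congrArg (fun y : ℝ => y * v.h) zX_10774999203840_0))
    ((341 / 8192) * v2.Y) (congrArg (fun y : ℝ => y * v2.Y) zX_45768245248_0)
    (1365 / 8192 : ℝ) zX_183207198720_0
    ((341 / 8192) * v2.Y + (1365 / 8192 : ℝ)) rfl
    (v2.Y * ((341 / 8192) * v2.Y + (1365 / 8192 : ℝ))) rfl
    ((1 / 2 : ℝ) + v2.Y * ((341 / 8192) * v2.Y + (1365 / 8192 : ℝ))) rfl
    (v2.Y * ((1 / 2 : ℝ) + v2.Y * ((341 / 8192) * v2.Y + (1365 / 8192 : ℝ)))) rfl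
    v2.pY v2.e_pY
    (v2.Y * v2.pY) rfl
    ((1 / 2) * (v2.Y * v2.pY)) (congrArg (fun y : ℝ => y * (v2.Y * v2.pY)) zX_549755813888_0)
    ((1 : ℝ) + (1 / 2) * (v2.Y * v2.pY)) rfl
    v2.Yp v2.e_Yp
    v.R v.e_R
    (v.K * v.om) rfl
    (2 * v.c0) (congrArg (fun y : ℝ => y * v.c0) zX_2199023255552_0)
    (v.K * v.om + 2 * v.c0) rfl
    v.Dt v.e_Dt
    v.D v.e_D
    v.SQ v.e_SQ
    (v.K * v.K) rfl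
    (2 * (v.K * v.K)) (congrArg (fun y : ℝ => y * (v.K * v.K)) zX_2199023255552_0)
    v.c2 v.e_c2
    (v.c0 * v.Dt) rfl
    v.rhat v.e_rhat).2
    v.LQ v.e_LQ
    ((1 / 2) * v.LQ) (congrArg (fun y : ℝ => y * v.LQ) zX_549755813888_0)
    v.aQ v.e_aQ
    v.ee (v.e_ee.trans (congrArg (fun y : ℝ => y * v.e) zX_549755813888_0))
    v.rho v.e_rho
    (-v.rho) rfl
    v.q v.e_q
    (v.c0 * v.R) rfl
    (v.c0 * v.R * v.rhat) rfl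
    v.D2 (v.e_D2.trans (congrArg (fun y : ℝ => y * (v.c0 * v.R * v.rhat)) zX_4398046511104_0))
    (v.D2 + (1 : ℝ)) rfl).2
    (Real.log (v.D2 + (1 : ℝ))) rfl
    v.L2 v.e_L2
    v.rp v.e_rp
    (-v.rp) rfl
    v.qp v.e_qp
    (v.om * v.K) rfl
    (v.c0 + v.om * v.K) rfl).2
    v.ioK v.e_ioK
    v.h1t v.e_h1t
    (v.om1 * v.t) rfl
    v.h1 v.e_h1
    v.nj2 v.e_nj2
    ((1 : ℝ) - v.u2) rfl
    v.f2 v.e_f2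
    v.tu2 v.e_tu2
    (v.c0 + v.R) rfl).2
    ((v.c0 + v.R)⁻¹) rfl
    v.w v.e_w
    (v.w * v.tu) rfl
    (v.w * v.tu * (v.w * v.tu)) rfl
    ((1 : ℝ) - v.nj2) rfl
    (((1 : ℝ) - v.u2) * ((1 : ℝ) - v.nj2)) rfl
    v.x (x_alt v)).2
    v.ei v.e_ei
    cc (e_cc.trans zX_0_1099511627776)
    b.q1 b.e_q1
    (v.q * v.q) rfl
    (v.q * v.q + (1 : ℝ)) rfl
    (v.q * cc) rfl
    (2 * (v.q * cc)) (congrArg (fun y : ℝ => y * (v.q * cc)) zX_2199023255552_0)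
    b.o2 b.e_o2).2
    (b.q1⁻¹) rfl
    (b.o2 * b.q1⁻¹) rfl
    b.P1 b.e_P1
    (v.q * v.h1) rfl
    b.qh (b.e_qh.trans (congrArg (fun y : ℝ => y * (v.q * v.h1)) zX_549755813888_0))
    (b.qh * b.P1) rfl
    b.W b.e_W
  change 0 < b.o2 at p_o2
  obtain ⟨p_W, s1⟩ := s0
  change 0 < b.W at p_W
  obtain ⟨p_o2p, s2⟩ := (((((((s1).2
    b.W⁻¹ rfl
    ((1 : ℝ) - v.q) rfl
    (((1 : ℝ) - v.q) * b.q1) rfl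
    (((1 : ℝ) - v.q) * b.q1 * b.W⁻¹) rfl
    g (e_g.trans (congrArg (fun y : ℝ => y * (((1 : ℝ) - v.q) * b.q1 * b.W⁻¹)) zX_549755813888_0))
    (g + (1 / 2 : ℝ)) rfl).2
    ((g + (1 / 2 : ℝ))⁻¹) rfl
    ga e_ga
    (b.qh * g) rfl
    (b.qh * g + (1 / 2 : ℝ)) rfl
    ((b.qh * g + (1 / 2 : ℝ)) * b.P1) rfl).2
    (b.o2⁻¹) rfl
    ms.fa ms.e_fa
    ms.hg ms.e_hg
    ((1 / 2) * ms.hg) (congrArg (fun y : ℝ => y * ms.hg) zX_549755813888_0)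
    ((1 : ℝ) - (1 / 2) * ms.hg) rfl
    ((1 : ℝ) - ms.hg) rfl).2
    (((1 : ℝ) - ms.hg)⁻¹) rfl
    ms.lsf ms.e_lsf
    (ms.hg + (1 : ℝ)) rfl
    ms.Qb ms.e_Qb
    (v.om1 * v.op1) rfl
    (v.c0 + v.t) rfl
    (v.om * v.c0) rfl
    (v.om * v.c0 * v.K) rfl
    (2 * (v.om * v.c0 * v.K)) (congrArg (fun y : ℝ => y * (v.om * v.c0 * v.K)) zX_2199023255552_0)
    (v.c2 + 2 * (v.om * v.c0 * v.K)) rfl
    ((v.c0 + v.t) * (v.c2 + 2 * (v.om * v.c0 * v.K))) rfl).2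
    (((v.c0 + v.t) * (v.c2 + 2 * (v.om * v.c0 * v.K)))⁻¹) rfl
    v3.hpt v3.e_hpt
    v3.hp v3.e_hp).2
    (v.SQ⁻¹) rfl
    v3.xp v3.e_xp
    b'.q1 b'.e_q1
    (v.qp * v.qp) rfl
    (v.qp * v.qp + (1 : ℝ)) rfl
    (v.qp * cc) rfl
    (2 * (v.qp * cc)) (congrArg (fun y : ℝ => y * (v.qp * cc)) zX_2199023255552_0)
    b'.o2 b'.e_o2).2
    (b'.q1⁻¹) rfl
    (b'.o2 * b'.q1⁻¹) rfl
    b'.P1 b'.e_P1
    (v.qp * v3.hp) rfl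
    b'.qh (b'.e_qh.trans (congrArg (fun y : ℝ => y * (v.qp * v3.hp)) zX_549755813888_0))
    (b'.qh * b'.P1) rfl
    b'.W b'.e_W
  change 0 < b'.o2 at p_o2p
  obtain ⟨p_Wp, s3⟩ := s2
  change 0 < b'.W at p_Wp
  obtain ⟨p_XM, s4⟩ := ((((((((((((((((((s3
    ((1 : ℝ) - v.qp) rfl
    (((1 : ℝ) - v.qp) * b'.q1) rfl).2
    (b'.W⁻¹) rfl
    (((1 : ℝ) - v.qp) * b'.q1 * b'.W⁻¹) rfl
    v4.gp (v4.e_gp.trans (congrArg (fun y : ℝ => y * (((1 : ℝ) - v.qp) * b'.q1 * b'.W⁻¹)) zX_549755813888_0))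
    (v4.gp + (1 / 2 : ℝ)) rfl).2
    ((v4.gp + (1 / 2 : ℝ))⁻¹) rfl
    v4.gap v4.e_gap
    v4.hgp v4.e_hgp
    (v.h + (1 : ℝ)) rfl).2
    v2.ih v2.e_ih
    (v.h * v2.ih) rfl
    v2.rh (v2.e_rh.trans (congrArg (fun y : ℝ => y * (v.h * v2.ih)) zX_2199023255552_0))
    v2.mi v2.e_mi
    v2.hm v2.e_hm
    v2.nih v2.e_nih
    (v2.nih * v2.mi) rfl
    v2.bsum v2.e_bsum
    v2.eK v2.e_eK
    (5 : ℝ) zX_5497558138880_0).2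
    ((5 : ℝ)⁻¹) rfl
    ((1 : ℝ) * (5 : ℝ)⁻¹) rfl
    A e_A
    iA (e_iA.trans (congrArg (fun y : ℝ => y * v.ei) zX_5497558138880_0))
    ((209 / 1024) * v.j) (congrArg (fun y : ℝ => y * v.j) zX_224412041216_0)).2
    (v2.Yp⁻¹) rfl
    v2.lm v2.e_lm
    (A * v.op1) rfl
    m.Xe m.e_Xe
    m.XM m.e_XM
    ((1 : ℝ) - m.XM) rfl).2
    m.iX m.e_iX
    m.QX m.e_QX
    ((1 : ℝ) - m.QX) rfl).2
    m.iQX m.e_iQX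
    ((13 / 4) * v.nj) (congrArg (fun y : ℝ => y * v.nj) zX_3573412790272_0)).2
    (v.u⁻¹) rfl
    ((79 / 256) * v.u⁻¹) (congrArg (fun y : ℝ => y * v.u⁻¹) zX_339302416384_0)
    ((13 / 4) * v.nj + (79 / 256) * v.u⁻¹) rfl
    phu (e_phu.trans (congrArg (fun y : ℝ => y * ((13 / 4) * v.nj + (79 / 256) * v.u⁻¹)) zX_549755813888_0))
    (2 * v.ei) (congrArg (fun y : ℝ => y * v.ei) zX_2199023255552_0)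
    Ei e_Ei
    Eh e_Eh
    (v.h * v.nj) rfl
    ((1 : ℝ) - v.f2) rfl
    (v.h * v.om) rfl
    (2 * (v.h * v.om)) (congrArg (fun y : ℝ => y * (v.h * v.om)) zX_2199023255552_0)
    ((1 : ℝ) - v.f2 - 2 * (v.h * v.om)) rfl
    (v.h * v.nj * (v.h * v.nj)) rfl
    m.N1 m.e_N1
    (m.N1 + (1 : ℝ)) rfl
    m.s (m.e_s.trans (congrArg (fun y : ℝ => y * (m.N1 + (1 : ℝ))) zX_549755813888_0))
    ((1 / 2) * v.R) (congrArg (fun y : ℝ => y * v.R) zX_549755813888_0)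
    (v.j - (1 / 2) * v.R) rfl
    (v.tu2 * ((1 : ℝ) - v.f2)) rfl
    (v.tu2 * ((1 : ℝ) - v.f2) * v.jm) rfl
    ((1 / 8) * (v.tu2 * ((1 : ℝ) - v.f2) * v.jm)) (congrArg (fun y : ℝ => y * (v.tu2 * ((1 : ℝ) - v.f2) * v.jm)) zX_137438953472_0)
    (v.j - (1 / 2) * v.R + (1 / 8) * (v.tu2 * ((1 : ℝ) - v.f2) * v.jm)) rfl
    m.k0 m.e_k0
    m.ls (ls_F G ms m)
    ms.Q1 ms.e_Q1
    (ms.Q1 * m.iX) rfl
    (ms.Qb * m.iQX) rfl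
    (ms.Q1 * m.iX + ms.Qb * m.iQX) rfl
    (m.XM * (ms.Q1 * m.iX + ms.Qb * m.iQX)) rfl
    (m.ls + m.XM * (ms.Q1 * m.iX + ms.Qb * m.iQX)) rfl
    m.a0 m.e_a0
    (ms.Q1 * m.XM) rfl
    (ms.Q1 * m.XM * m.iX) rfl
    (m.ls + ms.Q1 * m.XM * m.iX) rfl
    m.l1 m.e_l1
    ((13 / 64) * m.l1) (congrArg (fun y : ℝ => y * m.l1) zX_223338299392_0)
    ((1 / 2 : ℝ) + (13 / 64) * m.l1) rfl
    (m.l1 * ((1 / 2 : ℝ) + (13 / 64) * m.l1)) rfl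
    m.Na m.e_Na
    ((13 / 16) * m.a0) (congrArg (fun y : ℝ => y * m.a0) zX_893353197568_0)
    ((1 : ℝ) + (13 / 16) * m.a0) rfl
    (m.a0 * ((1 : ℝ) + (13 / 16) * m.a0)) rfl
    m.Nb m.e_Nb
    (v2.rh * v2.nih) rfl
    (v2.rh * v2.nih * Ei) rfl
    m.rn m.e_rn
    (m.k0 * m.Na) rfl
    (v.aQ + (1 / 2 : ℝ)) rfl
    (m.rn * (v.aQ + (1 / 2 : ℝ))) rfl
    m.ka m.e_ka
    (v.aQ + (1 : ℝ)) rfl
    m.kb m.e_kb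
    (Eh * (v.aQ + (1 : ℝ))) rfl
    (Eh * (v.aQ + (1 : ℝ)) * v2.nih) rfl
    m.lfk m.e_lfk
    (v.tu * v2.bsum) rfl).2
    (v.aQ⁻¹) rfl
    (v.tu * v2.bsum * v.aQ⁻¹) rfl
    m.bte (m.e_bte.trans (congrArg (fun y : ℝ => y * (v.tu * v2.bsum * v.aQ⁻¹)) zX_549755813888_0))
    (v.h1t * v.u⁻¹) rfl
    (v.h1t * v.u⁻¹ * ga) rfl
    ms.lsi ms.e_lsi
    (v.om1 * m.bte) rfl
    (m.ka * ms.lsi) rfl
    (m.lfk * phu) rfl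
    (m.ka * ms.lsi + m.lfk * phu) rfl
    ((m.ka * ms.lsi + m.lfk * phu) * v.ei) rfl
    m.src m.e_src
    (m.ka * ms.Q1) rfl
    (m.ka * ms.Q1 * m.iX) rfl
    (m.kb * ms.Qb) rfl
    (m.kb * ms.Qb * m.iQX) rfl
    (m.ka * ms.Q1 * m.iX + m.kb * ms.Qb * m.iQX) rfl
    m.fx m.e_fx
    (v.om1 * m.src) rfl
    (m.Xe * m.fx) rfl
    m.eps m.e_eps
    (v.tu2 * m.eps) rfl
    (v.tu2 * m.eps * v.aQ⁻¹) rfl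
    ((1 : ℝ) - v.tu2 * m.eps * v.aQ⁻¹) rfl).2
    m.NN m.e_NN
    m.eN m.e_eN
    m.d m.e_d
    m.eta m.e_eta
    (m.eta * v.aQ⁻¹) rfl
    ((1 : ℝ) - m.eta * v.aQ⁻¹) rfl
    (v.rhat * ((1 : ℝ) - m.eta * v.aQ⁻¹)) rfl
    m.rl m.e_rl).2
    m.irl m.e_irl
    m.yy m.e_yy
    (v.aQ - m.eta) rfl).2
    c.q0 c.e_q0
    c.zp c.e_zp
    (v.e * c.q0) rfl
    (v4.gap * m.irl) rfl).2
    (v.R⁻¹) rfl
    (v4.gap * m.irl * v.R⁻¹) rfl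
    ((1 / 2) * c.zp) (congrArg (fun y : ℝ => y * c.zp) zX_549755813888_0)
    ((1 : ℝ) - (1 / 2) * c.zp) rfl
    ((1 : ℝ) - c.zp) rfl).2
    (((1 : ℝ) - c.zp)⁻¹) rfl
    (((1 : ℝ) - (1 / 2) * c.zp) * ((1 : ℝ) - c.zp)⁻¹) rfl
    (v4.gap * m.irl * v.R⁻¹ * (((1 : ℝ) - (1 / 2) * c.zp) * ((1 : ℝ) - c.zp)⁻¹)) rfl
    c.C1 c.e_C1
    c.rr c.e_rr
    ((13 / 64) * c.rr) (congrArg (fun y : ℝ => y * c.rr) zX_223338299392_0)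
    ((1 / 2 : ℝ) + (13 / 64) * c.rr) rfl
    (c.rr * ((1 / 2 : ℝ) + (13 / 64) * c.rr)) rfl
    ((1 : ℝ) + c.rr * ((1 / 2 : ℝ) + (13 / 64) * c.rr)) rfl
    (c.C1 * ((1 : ℝ) + c.rr * ((1 / 2 : ℝ) + (13 / 64) * c.rr))) rfl
    (c.C1 * ((1 : ℝ) + c.rr * ((1 / 2 : ℝ) + (13 / 64) * c.rr)) * m.NN) rfl
    c.C c.e_C
    (c.C * v.u) rfl
    c.fbt c.e_fbt
    (c.C * iA) rfl
    (c.C * iA * v.u) rfl).2
    (v.op1⁻¹) rfl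
    (c.C * iA * v.u * v.op1⁻¹) rfl
    (v.e * v.om1) rfl
    (v.e * v.om1 * m.bte) rfl
    (v.e * v.om1 * m.bte + m.ka * ms.lsi) rfl
    (v.e * v.om1 * m.bte + m.ka * ms.lsi + m.lfk * phu) rfl
    c.FX c.e_FX
    (A * v.tu) rfl
    (A * v.tu * v.op1) rfl
    m.XLt m.e_XLt
    (3 : ℝ) zX_3298534883328_0
    m.beta m.e_beta
    (v4.hgp + (1 : ℝ)) rfl
    (v4.hgp * (v4.hgp + (1 : ℝ))) rfl
    (v.rp + v4.hgp * (v4.hgp + (1 : ℝ))) rfl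
    f.dri f.e_dri
    (v.qp * (v4.hgp + (1 : ℝ))) rfl
    ((5 / 8) * f.dri) (congrArg (fun y : ℝ => y * f.dri) zX_687194767360_0)
    ((1 : ℝ) + (5 / 8) * f.dri) rfl
    (f.dri * ((1 : ℝ) + (5 / 8) * f.dri)) rfl
    ((1 : ℝ) + f.dri * ((1 : ℝ) + (5 / 8) * f.dri)) rfl
    f.Qp f.e_Qp
    (v.K + v.t) rfl
    ((v.h + (1 : ℝ)) * (v.K + v.t)) rfl
    ((v.h + (1 : ℝ)) * (v.K + v.t) * m.beta) rfl
    ((1 : ℝ) + (v.h + (1 : ℝ)) * (v.K + v.t) * m.beta) rfl).2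
    f.Lam f.e_Lam
    (f.Qp * f.Lam) rfl
    (f.Qp * f.Lam * v.m) rfl
    (v.tu * m.eN) rfl
    (v.tu * m.eN * v.op1⁻¹) rfl
    ((1 : ℝ) + v.tu * m.eN * v.op1⁻¹) rfl
    (f.Qp * f.Lam * v.m * ((1 : ℝ) + v.tu * m.eN * v.op1⁻¹)) rfl
    f.c1 (c1_C c f)
    f.fb f.e_fb
    (f.fb * m.XM) rfl
    (v.t * m.XLt) rfl
    (c.FX * (v.t * m.XLt)) rfl
    f.r f.e_r
    (f.fb + c.FX) rfl
    ((1 : ℝ) + f.r) rfl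
    (f.c1 * ((1 : ℝ) + f.r)) rfl
    (f.fb + c.FX + f.c1 * ((1 : ℝ) + f.r)) rfl
    f.Bm f.e_Bm
    ((1 / 1024) * v.t) (congrArg (fun y : ℝ => y * v.t) zX_1073741824_0)
    (f.Bm - (1 / 1024) * v.t) rfl
    m.m1 m.e_m1
    (2 : ℝ) zX_2199023255552_0
    (m.m1 + (2 : ℝ)) rfl
    (2 * m.beta) (congrArg (fun y : ℝ => y * m.beta) zX_2199023255552_0)
    (m.m1 + (2 : ℝ) - 2 * m.beta) rfl
    ((v.h + (1 : ℝ)) * (m.m1 + (2 : ℝ) - 2 * m.beta)) rfl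
    (m.m1 * (2 * m.beta)) rfl
    (m.m1 * (2 * m.beta) + (1 : ℝ)) rfl).2
    ((m.m1 * (2 * m.beta) + (1 : ℝ))⁻¹) rfl
    ((v.h + (1 : ℝ)) * (m.m1 + (2 : ℝ) - 2 * m.beta) * (m.m1 * (2 * m.beta) + (1 : ℝ))⁻¹) rfl
    (A * m.fx) rfl
    ((1 / 2) * v2.lm) (congrArg (fun y : ℝ => y * v2.lm) zX_549755813888_0)
    (v.K + (1 / 2) * v2.lm) rfl
    (A * m.fx * (v.K + (1 / 2) * v2.lm)) rfl
    (2 * (A * m.fx * (v.K + (1 / 2) * v2.lm))) (congrArg (fun y : ℝ => y * (A * m.fx * (v.K + (1 / 2) * v2.lm))) zX_2199023255552_0)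
    (m.src + 2 * (A * m.fx * (v.K + (1 / 2) * v2.lm))) rfl
    (2 * (m.src + 2 * (A * m.fx * (v.K + (1 / 2) * v2.lm)))) (congrArg (fun y : ℝ => y * (m.src + 2 * (A * m.fx * (v.K + (1 / 2) * v2.lm)))) zX_2199023255552_0)
    (2 * (m.src + 2 * (A * m.fx * (v.K + (1 / 2) * v2.lm))) * m.NN) rfl
    (v.op1 - v.tu * m.eN) rfl).2
    ((v.op1 - v.tu * m.eN)⁻¹) rfl
    (2 * (m.src + 2 * (A * m.fx * (v.K + (1 / 2) * v2.lm))) * m.NN * (v.op1 - v.tu * m.eN)⁻¹) rfl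
    m.V m.e_V
  change 0 < (1 : ℝ) - m.XM at p_XM
  obtain ⟨p_QX, s5⟩ := s4
  change 0 < (1 : ℝ) - m.QX at p_QX
  obtain ⟨p_e2, s6⟩ := s5
    (2 * (v.tu2 * m.eps)) (congrArg (fun y : ℝ => y * (v.tu2 * m.eps)) zX_2199023255552_0)
    (v.aQ - 2 * (v.tu2 * m.eps)) rfl
  change 0 < v.aQ - 2 * (v.tu2 * m.eps) at p_e2
  obtain ⟨p_rl, s7⟩ := s6
  change 0 < m.rl at p_rl
  obtain ⟨p_hg, s8⟩ := s7
  change 0 < (1 : ℝ) - ms.hg at p_hg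
  obtain ⟨p_hgp, s9⟩ := s8
    ((1 / 2 : ℝ) - v4.hgp) rfl
  change 0 < (1 / 2 : ℝ) - v4.hgp at p_hgp
  obtain ⟨p_l1, s10⟩ := s9
    ((5 / 8) * (1 : ℝ)) (congrArg (fun y : ℝ => y * (1 : ℝ)) zX_687194767360_0)
    ((5 / 8) * (1 : ℝ) - m.l1) rfl
  change 0 < (5 / 8) * (1 : ℝ) - m.l1 at p_l1
  obtain ⟨p_a0, s11⟩ := s10
    ((11 / 32) * (1 : ℝ)) (congrArg (fun y : ℝ => y * (1 : ℝ)) zX_377957122048_0)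
    ((11 / 32) * (1 : ℝ) - m.a0) rfl
  change 0 < (11 / 32) * (1 : ℝ) - m.a0 at p_a0
  obtain ⟨p_S, s12⟩ := s11
  change 0 < v.op1 - v.tu * m.eN at p_S
  obtain ⟨p_dri, s13⟩ := s12
    ((1 / 2 : ℝ) - f.dri) rfl
  change 0 < (1 / 2 : ℝ) - f.dri at p_dri
  obtain ⟨p_zp, s14⟩ := s13
  change 0 < (1 : ℝ) - c.zp at p_zp
  obtain ⟨p_rr, s15⟩ := s14
    ((5 / 8) * (1 : ℝ) - c.rr) rfl
  change 0 < (5 / 8) * (1 : ℝ) - c.rr at p_rr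
  obtain ⟨p_V, s16⟩ := (((s15
    (v2.eK * v2.eK) rfl
    (13 : ℝ) zX_14293651161088_0
    (10 : ℝ) zX_10995116277760_0).2
    ((10 : ℝ)⁻¹) rfl
    ((13 : ℝ) * (10 : ℝ)⁻¹) rfl
    (v2.eK * v2.eK * ((13 : ℝ) * (10 : ℝ)⁻¹)) rfl
    (25 : ℝ) zX_27487790694400_0
    m.C2 m.e_C2
    ((v.h + (1 : ℝ)) * v.op1) rfl
    m.b1 m.e_b1
    (v.t * m.b1) rfl
    ((1 : ℝ) + v.t * m.b1) rfl).2
    (((1 : ℝ) + v.t * m.b1)⁻¹) rfl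
    m.gr m.e_gr
    (2 * v.c0 - v.t) rfl
    m.Gt m.e_Gt
    (2 * v.tu) (congrArg (fun y : ℝ => y * v.tu) zX_2199023255552_0)
    (2 * v.tu + m.eta) rfl
    m.ez m.e_ez
    (m.C2 * m.gr) rfl
    (m.NN * m.ez) rfl
    (v.ei * (m.ka * ms.lsi + m.lfk * phu)) rfl
    (v.u2 * (v.ei * (m.ka * ms.lsi + m.lfk * phu))) rfl
    (v.op1 * A) rfl
    (v.op1 * A * m.fx) rfl
    (v.R * (v.op1 * A * m.fx)) rfl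
    (v.u2 * (v.ei * (m.ka * ms.lsi + m.lfk * phu)) + v.R * (v.op1 * A * m.fx)) rfl
    (v.e * (v.u2 * (v.ei * (m.ka * ms.lsi + m.lfk * phu)) + v.R * (v.op1 * A * m.fx))) rfl
    (m.NN * m.ez * (v.e * (v.u2 * (v.ei * (m.ka * ms.lsi + m.lfk * phu)) + v.R * (v.op1 * A * m.fx)))) rfl
    m.Rg0 m.e_Rg0
    ((1 / 2) * (v.tu * m.eN)) (congrArg (fun y : ℝ => y * (v.tu * m.eN)) zX_549755813888_0)
    ((1 : ℝ) + (1 / 2) * (v.tu * m.eN)) rfl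
    (m.NN * ((1 : ℝ) + (1 / 2) * (v.tu * m.eN))) rfl
    (v.t * v.om1) rfl
    (v.t * v.om1 * v2.bsum) rfl
    (v.op1 * v.aQ) rfl).2
    ((v.op1 * v.aQ)⁻¹) rfl
    (v.t * v.om1 * v2.bsum * (v.op1 * v.aQ)⁻¹) rfl
    (m.NN * ((1 : ℝ) + (1 / 2) * (v.tu * m.eN)) * (v.t * v.om1 * v2.bsum * (v.op1 * v.aQ)⁻¹)) rfl
    m.Rh m.e_Rh
    (v2.lm * m.Rg0) rfl
    ((1 : ℝ) - v2.lm) rfl
    (v.u2 * m.Rh) rfl
    (((1 : ℝ) - v2.lm) * (v.u2 * m.Rh)) rfl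
    (m.C2 * (((1 : ℝ) - v2.lm) * (v.u2 * m.Rh))) rfl
    m.Rg m.e_Rg
  change 0 < m.V at p_V
  obtain ⟨p_B, s17⟩ := s16
  change 0 < f.Bm - (1 / 1024) * v.t at p_B
  obtain ⟨p_Rg, s18⟩ := s17
  change 0 < m.Rg at p_Rg
  obtain ⟨p_Rh, s19⟩ := s18
  change 0 < m.Rh at p_Rh
  have nx := nx_of G v4 hccp p_o2p p_Wp p_hgp
  have hga := gam_FC G hcc p_o2 p_W e_g e_ga
  have hn1Q := (nqb G ms hga).2.2.2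
  obtain ⟨lf0, Ex, hφ⟩ := phi_slog G v2 he2 (by norm_num) (by norm_num) (by norm_num) e_phu e_Ei e_Eh
  exact far_C G ⟨p_XM, p_QX, p_e2, p_rl, p_l1, p_a0, p_S, p_V, p_Rg, p_Rh⟩ nx.1 hga hn1Q p_hg D hA hiA hφ c f
    p_dri p_zp p_rr p_B

theorem far_X7 {κ : ℝ} {τ : ℂ} {R w : ℝ} {v : B1} (D : PtE (3 * 5⁻¹) v.e κ τ R w)
    (G : Geo κ (shf κ τ) v) (v2 : B2 v) (he2 : 2 ≤ v.e) (h : RAs Pool.Agent.helper71.FG.Crt.X.prog7 [v.e, v.t, v.u, v.n]) :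
    FarPt v.e κ (1 - Real.sinh κ / 1024) w (2 * A5 v.e v.K * Real.sinh κ ^ 2) R
      (RE v.e κ (w * R)) τ := by
  obtain ⟨A, e_A⟩ : ∃ zz : ℝ, zz = v.e * ((1 : ℝ) * (5 : ℝ)⁻¹) := ⟨_, rfl⟩
  obtain ⟨iA, e_iA⟩ : ∃ zz : ℝ, zz = 5 * v.ei := ⟨_, rfl⟩
  obtain ⟨hA, hiA, hAe⟩ := ab_x G v2 e_A e_iA
  rw [hAe]
  obtain ⟨cc, e_cc⟩ : ∃ zz : ℝ, zz = (1 : ℝ) - v.x * ((1 / 2 : ℝ) - v.x * ((21845 / 524288 : ℝ) - (11651 / 8388608) * v.x)) := ⟨_, rfl⟩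
  obtain ⟨b⟩ := exGC v.q cc v.h1
  have hcc : CosB v.x cc := cosB_p e_cc
  obtain ⟨v3⟩ := exB3 v
  obtain ⟨ccp, e_ccp⟩ : ∃ zz : ℝ, zz = (1 : ℝ) - v3.xp * ((1 / 2 : ℝ) - v3.xp * ((21845 / 524288 : ℝ) - (11651 / 8388608) * v3.xp)) := ⟨_, rfl⟩
  obtain ⟨b'⟩ := exGC v.qp ccp v3.hp
  obtain ⟨v4⟩ := exNC v3 b'
  have hccp : CosB v3.xp ccp := cosB_p e_ccp
  obtain ⟨g, e_g⟩ : ∃ zz : ℝ, zz = (1 / 2) * (((1 : ℝ) - v.q) * b.q1 * b.W⁻¹) := ⟨_, rfl⟩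
  obtain ⟨ga, e_ga⟩ : ∃ zz : ℝ, zz = g * (g + (1 / 2 : ℝ))⁻¹ := ⟨_, rfl⟩
  obtain ⟨phu, e_phu⟩ : ∃ zz : ℝ, zz = (1 / 2) * ((13 / 4) * v.nj + (79 / 256) * v.u⁻¹) := ⟨_, rfl⟩
  obtain ⟨Ei, e_Ei⟩ : ∃ zz : ℝ, zz = 2 * v.ei + (1 : ℝ) := ⟨_, rfl⟩
  obtain ⟨Eh, e_Eh⟩ : ∃ zz : ℝ, zz = v.ei + (1 : ℝ) := ⟨_, rfl⟩
  obtain ⟨cu, e_cu⟩ : ∃ zz : ℝ, zz = (1 : ℝ) - v.x * ((1 / 2 : ℝ) - v.x * ((10923 / 262144 : ℝ) - v.x * ((5825 / 4194304 : ℝ) - (1665 / 67108864) * v.x))) := ⟨_, rfl⟩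
  obtain ⟨xe, e_xe⟩ : ∃ zz : ℝ, zz = v.x * v.ei := ⟨_, rfl⟩
  obtain ⟨o2u, e_o2u⟩ : ∃ zz : ℝ, zz = v.q * v.q + (1 : ℝ) + 2 * (v.q * (cu + (43 / 128) * (xe * xe))) := ⟨_, rfl⟩
  obtain ⟨ooo, e_ooo⟩ : ∃ zz : ℝ, zz = Real.exp ((1 / 2) * Real.log (o2u + (1 / 128 : ℝ))) := ⟨_, rfl⟩
  obtain ⟨ms⟩ := exMs v b g ga
  obtain ⟨Q1, e_Q1⟩ : ∃ zz : ℝ, zz = ooo + v.q * ms.hg := ⟨_, rfl⟩
  obtain ⟨m⟩ := exMb (3 * 5⁻¹) v2 A ms.Qb Q1 ms.lsi phu Ei Eh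
  obtain ⟨c⟩ := exCC m v4.gap iA
  obtain ⟨f⟩ := exFinS m (v.qp * (v4.hgp + 1)) (v.rp + v4.hgp * (v4.hgp + 1)) c.fbt c.FX
  obtain ⟨p_o2, s0⟩ := (((((((h
    (1 : ℝ) zX_1099511627776_0
    (1 / 2 : ℝ) zX_549755813888_0
    v.tu v.e_tu
    (v.tu * v.n) rfl
    v.h (v.e_h.trans (congrArg (fun y : ℝ => y * (v.tu * v.n)) zX_549755813888_0))
    v.u2 v.e_u2
    (v.h * v.h) rfl
    v.jm v.e_jm).2
    v.j v.e_j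
    (v.h * v.j) rfl
    v.K (v.e_K.trans (congrArg (fun y : ℝ => y * (v.h * v.j)) zX_2199023255552_0))
    (2 * v.j) (congrArg (fun y : ℝ => y * v.j) zX_2199023255552_0)
    v.c0 v.e_c0
    v.m v.e_m
    v.nj v.e_nj
    v.om v.e_om
    v.om1 v.e_om1
    v.op1 v.e_op1
    v2.Y (v2.e_Y.trans (congrArg (fun y : ℝ => y * v.h) zX_10774999203840_0))
    ((341 / 8192) * v2.Y) (congrArg (fun y : ℝ => y * v2.Y) zX_45768245248_0)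
    (1365 / 8192 : ℝ) zX_183207198720_0
    ((341 / 8192) * v2.Y + (1365 / 8192 : ℝ)) rfl
    (v2.Y * ((341 / 8192) * v2.Y + (1365 / 8192 : ℝ))) rfl
    ((1 / 2 : ℝ) + v2.Y * ((341 / 8192) * v2.Y + (1365 / 8192 : ℝ))) rfl
    (v2.Y * ((1 / 2 : ℝ) + v2.Y * ((341 / 8192) * v2.Y + (1365 / 8192 : ℝ)))) rfl
    v2.pY v2.e_pY
    (v2.Y * v2.pY) rfl
    ((1 / 2) * (v2.Y * v2.pY)) (congrArg (fun y : ℝ => y * (v2.Y * v2.pY)) zX_549755813888_0)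
    ((1 : ℝ) + (1 / 2) * (v2.Y * v2.pY)) rfl
    v2.Yp v2.e_Yp
    v.R v.e_R
    (v.K * v.om) rfl
    (2 * v.c0) (congrArg (fun y : ℝ => y * v.c0) zX_2199023255552_0)
    (v.K * v.om + 2 * v.c0) rfl
    v.Dt v.e_Dt
    v.D v.e_D
    v.SQ v.e_SQ
    (v.K * v.K) rfl
    (2 * (v.K * v.K)) (congrArg (fun y : ℝ => y * (v.K * v.K)) zX_2199023255552_0)
    v.c2 v.e_c2
    (v.c0 * v.Dt) rfl
    v.rhat v.e_rhat).2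
    v.LQ v.e_LQ
    ((1 / 2) * v.LQ) (congrArg (fun y : ℝ => y * v.LQ) zX_549755813888_0)
    v.aQ v.e_aQ
    v.ee (v.e_ee.trans (congrArg (fun y : ℝ => y * v.e) zX_549755813888_0))
    v.rho v.e_rho
    (-v.rho) rfl
    v.q v.e_q
    (v.c0 * v.R) rfl
    (v.c0 * v.R * v.rhat) rfl
    v.D2 (v.e_D2.trans (congrArg (fun y : ℝ => y * (v.c0 * v.R * v.rhat)) zX_4398046511104_0))
    (v.D2 + (1 : ℝ)) rfl).2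
    (Real.log (v.D2 + (1 : ℝ))) rfl
    v.L2 v.e_L2
    v.rp v.e_rp
    (-v.rp) rfl
    v.qp v.e_qp
    (v.om * v.K) rfl
    (v.c0 + v.om * v.K) rfl).2
    v.ioK v.e_ioK
    v.h1t v.e_h1t
    (v.om1 * v.t) rfl
    v.h1 v.e_h1
    v.nj2 v.e_nj2
    ((1 : ℝ) - v.u2) rfl
    v.f2 v.e_f2
    v.tu2 v.e_tu2
    (v.c0 + v.R) rfl).2
    ((v.c0 + v.R)⁻¹) rfl
    v.w v.e_w
    (v.w * v.tu) rfl
    (v.w * v.tu * (v.w * v.tu)) rfl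
    ((1 : ℝ) - v.nj2) rfl
    (((1 : ℝ) - v.u2) * ((1 : ℝ) - v.nj2)) rfl
    v.x (x_alt v)).2
    v.ei v.e_ei
    (21845 / 524288 : ℝ) zX_45812285440_0
    ((11651 / 8388608) * v.x) (congrArg (fun y : ℝ => y * v.x) zX_1527119872_0)
    ((21845 / 524288 : ℝ) - (11651 / 8388608) * v.x) rfl
    (v.x * ((21845 / 524288 : ℝ) - (11651 / 8388608) * v.x)) rfl
    ((1 / 2 : ℝ) - v.x * ((21845 / 524288 : ℝ) - (11651 / 8388608) * v.x)) rfl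
    (v.x * ((1 / 2 : ℝ) - v.x * ((21845 / 524288 : ℝ) - (11651 / 8388608) * v.x))) rfl
    cc e_cc
    b.q1 b.e_q1
    (v.q * v.q) rfl
    (v.q * v.q + (1 : ℝ)) rfl
    (v.q * cc) rfl
    (2 * (v.q * cc)) (congrArg (fun y : ℝ => y * (v.q * cc)) zX_2199023255552_0)
    b.o2 b.e_o2).2
    (b.q1⁻¹) rfl
    (b.o2 * b.q1⁻¹) rfl
    b.P1 b.e_P1
    (v.q * v.h1) rfl
    b.qh (b.e_qh.trans (congrArg (fun y : ℝ => y * (v.q * v.h1)) zX_549755813888_0))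
    (b.qh * b.P1) rfl
    b.W b.e_W
  change 0 < b.o2 at p_o2
  obtain ⟨p_W, s1⟩ := s0
  change 0 < b.W at p_W
  obtain ⟨p_o2p, s2⟩ := ((((((s1).2
    b.W⁻¹ rfl
    ((1 : ℝ) - v.q) rfl
    (((1 : ℝ) - v.q) * b.q1) rfl
    (((1 : ℝ) - v.q) * b.q1 * b.W⁻¹) rfl
    g (e_g.trans (congrArg (fun y : ℝ => y * (((1 : ℝ) - v.q) * b.q1 * b.W⁻¹)) zX_549755813888_0))
    (g + (1 / 2 : ℝ)) rfl).2
    ((g + (1 / 2 : ℝ))⁻¹) rfl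
    ga e_ga
    ms.hg ms.e_hg
    ((1 / 2) * ms.hg) (congrArg (fun y : ℝ => y * ms.hg) zX_549755813888_0)
    ((1 : ℝ) - (1 / 2) * ms.hg) rfl
    ((1 : ℝ) - ms.hg) rfl).2
    (((1 : ℝ) - ms.hg)⁻¹) rfl
    ms.lsf ms.e_lsf
    (ms.hg + (1 : ℝ)) rfl
    ms.Qb ms.e_Qb
    (v.om1 * v.op1) rfl
    (v.c0 + v.t) rfl
    (v.om * v.c0) rfl
    (v.om * v.c0 * v.K) rfl
    (2 * (v.om * v.c0 * v.K)) (congrArg (fun y : ℝ => y * (v.om * v.c0 * v.K)) zX_2199023255552_0)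
    (v.c2 + 2 * (v.om * v.c0 * v.K)) rfl
    ((v.c0 + v.t) * (v.c2 + 2 * (v.om * v.c0 * v.K))) rfl).2
    (((v.c0 + v.t) * (v.c2 + 2 * (v.om * v.c0 * v.K)))⁻¹) rfl
    v3.hpt v3.e_hpt
    v3.hp v3.e_hp).2
    (v.SQ⁻¹) rfl
    v3.xp v3.e_xp
    ((11651 / 8388608) * v3.xp) (congrArg (fun y : ℝ => y * v3.xp) zX_1527119872_0)
    ((21845 / 524288 : ℝ) - (11651 / 8388608) * v3.xp) rfl
    (v3.xp * ((21845 / 524288 : ℝ) - (11651 / 8388608) * v3.xp)) rfl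
    ((1 / 2 : ℝ) - v3.xp * ((21845 / 524288 : ℝ) - (11651 / 8388608) * v3.xp)) rfl
    (v3.xp * ((1 / 2 : ℝ) - v3.xp * ((21845 / 524288 : ℝ) - (11651 / 8388608) * v3.xp))) rfl
    ccp e_ccp
    b'.q1 b'.e_q1
    (v.qp * v.qp) rfl
    (v.qp * v.qp + (1 : ℝ)) rfl
    (v.qp * ccp) rfl
    (2 * (v.qp * ccp)) (congrArg (fun y : ℝ => y * (v.qp * ccp)) zX_2199023255552_0)
    b'.o2 b'.e_o2).2
    (b'.q1⁻¹) rfl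
    (b'.o2 * b'.q1⁻¹) rfl
    b'.P1 b'.e_P1
    (v.qp * v3.hp) rfl
    b'.qh (b'.e_qh.trans (congrArg (fun y : ℝ => y * (v.qp * v3.hp)) zX_549755813888_0))
    (b'.qh * b'.P1) rfl
    b'.W b'.e_W
  change 0 < b'.o2 at p_o2p
  obtain ⟨p_Wp, s3⟩ := s2
  change 0 < b'.W at p_Wp
  obtain ⟨p_XM, s4⟩ := (((((((((((((((((((s3
    ((1 : ℝ) - v.qp) rfl
    (((1 : ℝ) - v.qp) * b'.q1) rfl).2
    (b'.W⁻¹) rfl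
    (((1 : ℝ) - v.qp) * b'.q1 * b'.W⁻¹) rfl
    v4.gp (v4.e_gp.trans (congrArg (fun y : ℝ => y * (((1 : ℝ) - v.qp) * b'.q1 * b'.W⁻¹)) zX_549755813888_0))
    (v4.gp + (1 / 2 : ℝ)) rfl).2
    ((v4.gp + (1 / 2 : ℝ))⁻¹) rfl
    v4.gap v4.e_gap
    v4.hgp v4.e_hgp
    (v.h + (1 : ℝ)) rfl).2
    v2.ih v2.e_ih
    (v.h * v2.ih) rfl
    v2.rh (v2.e_rh.trans (congrArg (fun y : ℝ => y * (v.h * v2.ih)) zX_2199023255552_0))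
    v2.mi v2.e_mi
    v2.hm v2.e_hm
    v2.nih v2.e_nih
    (v2.nih * v2.mi) rfl
    v2.bsum v2.e_bsum
    v2.eK v2.e_eK
    (5 : ℝ) zX_5497558138880_0).2
    ((5 : ℝ)⁻¹) rfl
    ((1 : ℝ) * (5 : ℝ)⁻¹) rfl
    A e_A
    iA (e_iA.trans (congrArg (fun y : ℝ => y * v.ei) zX_5497558138880_0))
    ((209 / 1024) * v.j) (congrArg (fun y : ℝ => y * v.j) zX_224412041216_0)).2
    (v2.Yp⁻¹) rfl
    v2.lm v2.e_lm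
    (A * v.op1) rfl
    m.Xe m.e_Xe
    m.XM m.e_XM
    ((1 : ℝ) - m.XM) rfl).2
    m.iX m.e_iX
    m.QX m.e_QX
    ((1 : ℝ) - m.QX) rfl).2
    m.iQX m.e_iQX
    ((13 / 4) * v.nj) (congrArg (fun y : ℝ => y * v.nj) zX_3573412790272_0)).2
    (v.u⁻¹) rfl
    ((79 / 256) * v.u⁻¹) (congrArg (fun y : ℝ => y * v.u⁻¹) zX_339302416384_0)
    ((13 / 4) * v.nj + (79 / 256) * v.u⁻¹) rfl
    phu (e_phu.trans (congrArg (fun y : ℝ => y * ((13 / 4) * v.nj + (79 / 256) * v.u⁻¹)) zX_549755813888_0))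
    (2 * v.ei) (congrArg (fun y : ℝ => y * v.ei) zX_2199023255552_0)
    Ei e_Ei
    Eh e_Eh
    (v.h * v.nj) rfl
    ((1 : ℝ) - v.f2) rfl
    (v.h * v.om) rfl
    (2 * (v.h * v.om)) (congrArg (fun y : ℝ => y * (v.h * v.om)) zX_2199023255552_0)
    ((1 : ℝ) - v.f2 - 2 * (v.h * v.om)) rfl
    (v.h * v.nj * (v.h * v.nj)) rfl
    m.N1 m.e_N1
    (m.N1 + (1 : ℝ)) rfl
    m.s (m.e_s.trans (congrArg (fun y : ℝ => y * (m.N1 + (1 : ℝ))) zX_549755813888_0))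
    ((1 / 2) * v.R) (congrArg (fun y : ℝ => y * v.R) zX_549755813888_0)
    (v.j - (1 / 2) * v.R) rfl
    (v.tu2 * ((1 : ℝ) - v.f2)) rfl
    (v.tu2 * ((1 : ℝ) - v.f2) * v.jm) rfl
    ((1 / 8) * (v.tu2 * ((1 : ℝ) - v.f2) * v.jm)) (congrArg (fun y : ℝ => y * (v.tu2 * ((1 : ℝ) - v.f2) * v.jm)) zX_137438953472_0)
    (v.j - (1 / 2) * v.R + (1 / 8) * (v.tu2 * ((1 : ℝ) - v.f2) * v.jm)) rfl
    m.k0 m.e_k0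
    m.ls (ls_F G ms m)
    (10923 / 262144 : ℝ) zX_45814382592_0
    (5825 / 4194304 : ℝ) zX_1526988800_0
    ((1665 / 67108864) * v.x) (congrArg (fun y : ℝ => y * v.x) zX_27279360_0)
    ((5825 / 4194304 : ℝ) - (1665 / 67108864) * v.x) rfl
    (v.x * ((5825 / 4194304 : ℝ) - (1665 / 67108864) * v.x)) rfl
    ((10923 / 262144 : ℝ) - v.x * ((5825 / 4194304 : ℝ) - (1665 / 67108864) * v.x)) rfl
    (v.x * ((10923 / 262144 : ℝ) - v.x * ((5825 / 4194304 : ℝ) - (1665 / 67108864) * v.x))) rfl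
    ((1 / 2 : ℝ) - v.x * ((10923 / 262144 : ℝ) - v.x * ((5825 / 4194304 : ℝ) - (1665 / 67108864) * v.x))) rfl
    (v.x * ((1 / 2 : ℝ) - v.x * ((10923 / 262144 : ℝ) - v.x * ((5825 / 4194304 : ℝ) - (1665 / 67108864) * v.x)))) rfl
    cu e_cu
    xe e_xe
    (xe * xe) rfl
    ((43 / 128) * (xe * xe)) (congrArg (fun y : ℝ => y * (xe * xe)) zX_369367187456_0)
    (cu + (43 / 128) * (xe * xe)) rfl
    (v.q * (cu + (43 / 128) * (xe * xe))) rfl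
    (2 * (v.q * (cu + (43 / 128) * (xe * xe)))) (congrArg (fun y : ℝ => y * (v.q * (cu + (43 / 128) * (xe * xe)))) zX_2199023255552_0)
    o2u e_o2u
    (1 / 128 : ℝ) zX_8589934592_0
    (o2u + (1 / 128 : ℝ)) rfl).2
    (Real.log (o2u + (1 / 128 : ℝ))) rfl
    ((1 / 2) * Real.log (o2u + (1 / 128 : ℝ))) (congrArg (fun y : ℝ => y * Real.log (o2u + (1 / 128 : ℝ))) zX_549755813888_0)
    ooo e_ooo
    (v.q * ms.hg) rfl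
    Q1 e_Q1
    (Q1 * m.iX) rfl
    (ms.Qb * m.iQX) rfl
    (Q1 * m.iX + ms.Qb * m.iQX) rfl
    (m.XM * (Q1 * m.iX + ms.Qb * m.iQX)) rfl
    (m.ls + m.XM * (Q1 * m.iX + ms.Qb * m.iQX)) rfl
    m.a0 m.e_a0
    (Q1 * m.XM) rfl
    (Q1 * m.XM * m.iX) rfl
    (m.ls + Q1 * m.XM * m.iX) rfl
    m.l1 m.e_l1
    ((13 / 64) * m.l1) (congrArg (fun y : ℝ => y * m.l1) zX_223338299392_0)
    ((1 / 2 : ℝ) + (13 / 64) * m.l1) rfl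
    (m.l1 * ((1 / 2 : ℝ) + (13 / 64) * m.l1)) rfl
    m.Na m.e_Na
    ((13 / 16) * m.a0) (congrArg (fun y : ℝ => y * m.a0) zX_893353197568_0)
    ((1 : ℝ) + (13 / 16) * m.a0) rfl
    (m.a0 * ((1 : ℝ) + (13 / 16) * m.a0)) rfl
    m.Nb m.e_Nb
    (v2.rh * v2.nih) rfl
    (v2.rh * v2.nih * Ei) rfl
    m.rn m.e_rn
    (m.k0 * m.Na) rfl
    (v.aQ + (1 / 2 : ℝ)) rfl
    (m.rn * (v.aQ + (1 / 2 : ℝ))) rfl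
    m.ka m.e_ka
    (v.aQ + (1 : ℝ)) rfl
    m.kb m.e_kb
    (Eh * (v.aQ + (1 : ℝ))) rfl
    (Eh * (v.aQ + (1 : ℝ)) * v2.nih) rfl
    m.lfk m.e_lfk
    (v.tu * v2.bsum) rfl).2
    (v.aQ⁻¹) rfl
    (v.tu * v2.bsum * v.aQ⁻¹) rfl
    m.bte (m.e_bte.trans (congrArg (fun y : ℝ => y * (v.tu * v2.bsum * v.aQ⁻¹)) zX_549755813888_0))
    (v.h1t * v.u⁻¹) rfl
    (v.h1t * v.u⁻¹ * ga) rfl
    ms.lsi ms.e_lsi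
    (v.om1 * m.bte) rfl
    (m.ka * ms.lsi) rfl
    (m.lfk * phu) rfl
    (m.ka * ms.lsi + m.lfk * phu) rfl
    ((m.ka * ms.lsi + m.lfk * phu) * v.ei) rfl
    m.src m.e_src
    (m.ka * Q1) rfl
    (m.ka * Q1 * m.iX) rfl
    (m.kb * ms.Qb) rfl
    (m.kb * ms.Qb * m.iQX) rfl
    (m.ka * Q1 * m.iX + m.kb * ms.Qb * m.iQX) rfl
    m.fx m.e_fx
    (v.om1 * m.src) rfl
    (m.Xe * m.fx) rfl
    m.eps m.e_eps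
    (v.tu2 * m.eps) rfl
    (v.tu2 * m.eps * v.aQ⁻¹) rfl
    ((1 : ℝ) - v.tu2 * m.eps * v.aQ⁻¹) rfl).2
    m.NN m.e_NN
    m.eN m.e_eN
    m.d m.e_d
    m.eta m.e_eta
    (m.eta * v.aQ⁻¹) rfl
    ((1 : ℝ) - m.eta * v.aQ⁻¹) rfl
    (v.rhat * ((1 : ℝ) - m.eta * v.aQ⁻¹)) rfl
    m.rl m.e_rl).2
    m.irl m.e_irl
    m.yy m.e_yy
    (v.aQ - m.eta) rfl).2
    c.q0 c.e_q0
    c.zp c.e_zp
    (v.e * c.q0) rfl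
    (v4.gap * m.irl) rfl).2
    (v.R⁻¹) rfl
    (v4.gap * m.irl * v.R⁻¹) rfl
    ((1 / 2) * c.zp) (congrArg (fun y : ℝ => y * c.zp) zX_549755813888_0)
    ((1 : ℝ) - (1 / 2) * c.zp) rfl
    ((1 : ℝ) - c.zp) rfl).2
    (((1 : ℝ) - c.zp)⁻¹) rfl
    (((1 : ℝ) - (1 / 2) * c.zp) * ((1 : ℝ) - c.zp)⁻¹) rfl
    (v4.gap * m.irl * v.R⁻¹ * (((1 : ℝ) - (1 / 2) * c.zp) * ((1 : ℝ) - c.zp)⁻¹)) rfl
    c.C1 c.e_C1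
    c.rr c.e_rr
    ((13 / 64) * c.rr) (congrArg (fun y : ℝ => y * c.rr) zX_223338299392_0)
    ((1 / 2 : ℝ) + (13 / 64) * c.rr) rfl
    (c.rr * ((1 / 2 : ℝ) + (13 / 64) * c.rr)) rfl
    ((1 : ℝ) + c.rr * ((1 / 2 : ℝ) + (13 / 64) * c.rr)) rfl
    (c.C1 * ((1 : ℝ) + c.rr * ((1 / 2 : ℝ) + (13 / 64) * c.rr))) rfl
    (c.C1 * ((1 : ℝ) + c.rr * ((1 / 2 : ℝ) + (13 / 64) * c.rr)) * m.NN) rfl
    c.C c.e_C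
    (c.C * v.u) rfl
    c.fbt c.e_fbt
    (c.C * iA) rfl
    (c.C * iA * v.u) rfl).2
    (v.op1⁻¹) rfl
    (c.C * iA * v.u * v.op1⁻¹) rfl
    (v.e * v.om1) rfl
    (v.e * v.om1 * m.bte) rfl
    (v.e * v.om1 * m.bte + m.ka * ms.lsi) rfl
    (v.e * v.om1 * m.bte + m.ka * ms.lsi + m.lfk * phu) rfl
    c.FX c.e_FX
    (A * v.tu) rfl
    (A * v.tu * v.op1) rfl
    m.XLt m.e_XLt
    (3 : ℝ) zX_3298534883328_0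
    m.beta m.e_beta
    (v4.hgp + (1 : ℝ)) rfl
    (v4.hgp * (v4.hgp + (1 : ℝ))) rfl
    (v.rp + v4.hgp * (v4.hgp + (1 : ℝ))) rfl
    f.dri f.e_dri
    (v.qp * (v4.hgp + (1 : ℝ))) rfl
    ((5 / 8) * f.dri) (congrArg (fun y : ℝ => y * f.dri) zX_687194767360_0)
    ((1 : ℝ) + (5 / 8) * f.dri) rfl
    (f.dri * ((1 : ℝ) + (5 / 8) * f.dri)) rfl
    ((1 : ℝ) + f.dri * ((1 : ℝ) + (5 / 8) * f.dri)) rfl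
    f.Qp f.e_Qp
    (v.K + v.t) rfl
    ((v.h + (1 : ℝ)) * (v.K + v.t)) rfl
    ((v.h + (1 : ℝ)) * (v.K + v.t) * m.beta) rfl
    ((1 : ℝ) + (v.h + (1 : ℝ)) * (v.K + v.t) * m.beta) rfl).2
    f.Lam f.e_Lam
    (f.Qp * f.Lam) rfl
    (f.Qp * f.Lam * v.m) rfl
    (v.tu * m.eN) rfl
    (v.tu * m.eN * v.op1⁻¹) rfl
    ((1 : ℝ) + v.tu * m.eN * v.op1⁻¹) rfl
    (f.Qp * f.Lam * v.m * ((1 : ℝ) + v.tu * m.eN * v.op1⁻¹)) rfl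
    f.c1 (c1_C c f)
    f.fb f.e_fb
    (f.fb * m.XM) rfl
    (v.t * m.XLt) rfl
    (c.FX * (v.t * m.XLt)) rfl
    f.r f.e_r
    (f.fb + c.FX) rfl
    ((1 : ℝ) + f.r) rfl
    (f.c1 * ((1 : ℝ) + f.r)) rfl
    (f.fb + c.FX + f.c1 * ((1 : ℝ) + f.r)) rfl
    f.Bm f.e_Bm
    ((1 / 1024) * v.t) (congrArg (fun y : ℝ => y * v.t) zX_1073741824_0)
    (f.Bm - (1 / 1024) * v.t) rfl
    m.m1 m.e_m1
    (2 : ℝ) zX_2199023255552_0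
    (m.m1 + (2 : ℝ)) rfl
    (2 * m.beta) (congrArg (fun y : ℝ => y * m.beta) zX_2199023255552_0)
    (m.m1 + (2 : ℝ) - 2 * m.beta) rfl
    ((v.h + (1 : ℝ)) * (m.m1 + (2 : ℝ) - 2 * m.beta)) rfl
    (m.m1 * (2 * m.beta)) rfl
    (m.m1 * (2 * m.beta) + (1 : ℝ)) rfl).2
    ((m.m1 * (2 * m.beta) + (1 : ℝ))⁻¹) rfl
    ((v.h + (1 : ℝ)) * (m.m1 + (2 : ℝ) - 2 * m.beta) * (m.m1 * (2 * m.beta) + (1 : ℝ))⁻¹) rfl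
    (A * m.fx) rfl
    ((1 / 2) * v2.lm) (congrArg (fun y : ℝ => y * v2.lm) zX_549755813888_0)
    (v.K + (1 / 2) * v2.lm) rfl
    (A * m.fx * (v.K + (1 / 2) * v2.lm)) rfl
    (2 * (A * m.fx * (v.K + (1 / 2) * v2.lm))) (congrArg (fun y : ℝ => y * (A * m.fx * (v.K + (1 / 2) * v2.lm))) zX_2199023255552_0)
    (m.src + 2 * (A * m.fx * (v.K + (1 / 2) * v2.lm))) rfl
    (2 * (m.src + 2 * (A * m.fx * (v.K + (1 / 2) * v2.lm)))) (congrArg (fun y : ℝ => y * (m.src + 2 * (A * m.fx * (v.K + (1 / 2) * v2.lm)))) zX_2199023255552_0)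
    (2 * (m.src + 2 * (A * m.fx * (v.K + (1 / 2) * v2.lm))) * m.NN) rfl
    (v.op1 - v.tu * m.eN) rfl).2
    ((v.op1 - v.tu * m.eN)⁻¹) rfl
    (2 * (m.src + 2 * (A * m.fx * (v.K + (1 / 2) * v2.lm))) * m.NN * (v.op1 - v.tu * m.eN)⁻¹) rfl
    m.V m.e_V
  change 0 < (1 : ℝ) - m.XM at p_XM
  obtain ⟨p_QX, s5⟩ := s4
  change 0 < (1 : ℝ) - m.QX at p_QX
  obtain ⟨p_e2, s6⟩ := s5
    (2 * (v.tu2 * m.eps)) (congrArg (fun y : ℝ => y * (v.tu2 * m.eps)) zX_2199023255552_0)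
    (v.aQ - 2 * (v.tu2 * m.eps)) rfl
  change 0 < v.aQ - 2 * (v.tu2 * m.eps) at p_e2
  obtain ⟨p_rl, s7⟩ := s6
  change 0 < m.rl at p_rl
  obtain ⟨p_hg, s8⟩ := s7
  change 0 < (1 : ℝ) - ms.hg at p_hg
  obtain ⟨p_hgp, s9⟩ := s8
    ((1 / 2 : ℝ) - v4.hgp) rfl
  change 0 < (1 / 2 : ℝ) - v4.hgp at p_hgp
  obtain ⟨p_l1, s10⟩ := s9
    ((5 / 8) * (1 : ℝ)) (congrArg (fun y : ℝ => y * (1 : ℝ)) zX_687194767360_0)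
    ((5 / 8) * (1 : ℝ) - m.l1) rfl
  change 0 < (5 / 8) * (1 : ℝ) - m.l1 at p_l1
  obtain ⟨p_a0, s11⟩ := s10
    ((11 / 32) * (1 : ℝ)) (congrArg (fun y : ℝ => y * (1 : ℝ)) zX_377957122048_0)
    ((11 / 32) * (1 : ℝ) - m.a0) rfl
  change 0 < (11 / 32) * (1 : ℝ) - m.a0 at p_a0
  obtain ⟨p_S, s12⟩ := s11
  change 0 < v.op1 - v.tu * m.eN at p_S
  obtain ⟨p_dri, s13⟩ := s12
    ((1 / 2 : ℝ) - f.dri) rfl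
  change 0 < (1 / 2 : ℝ) - f.dri at p_dri
  obtain ⟨p_zp, s14⟩ := s13
  change 0 < (1 : ℝ) - c.zp at p_zp
  obtain ⟨p_rr, s15⟩ := s14
    ((5 / 8) * (1 : ℝ) - c.rr) rfl
  change 0 < (5 / 8) * (1 : ℝ) - c.rr at p_rr
  obtain ⟨p_V, s16⟩ := (((s15
    (v2.eK * v2.eK) rfl
    (13 : ℝ) zX_14293651161088_0
    (10 : ℝ) zX_10995116277760_0).2
    ((10 : ℝ)⁻¹) rfl
    ((13 : ℝ) * (10 : ℝ)⁻¹) rfl
    (v2.eK * v2.eK * ((13 : ℝ) * (10 : ℝ)⁻¹)) rfl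
    (25 : ℝ) zX_27487790694400_0
    m.C2 m.e_C2
    ((v.h + (1 : ℝ)) * v.op1) rfl
    m.b1 m.e_b1
    (v.t * m.b1) rfl
    ((1 : ℝ) + v.t * m.b1) rfl).2
    (((1 : ℝ) + v.t * m.b1)⁻¹) rfl
    m.gr m.e_gr
    (2 * v.c0 - v.t) rfl
    m.Gt m.e_Gt
    (2 * v.tu) (congrArg (fun y : ℝ => y * v.tu) zX_2199023255552_0)
    (2 * v.tu + m.eta) rfl
    m.ez m.e_ez
    (m.C2 * m.gr) rfl
    (m.NN * m.ez) rfl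
    (v.ei * (m.ka * ms.lsi + m.lfk * phu)) rfl
    (v.u2 * (v.ei * (m.ka * ms.lsi + m.lfk * phu))) rfl
    (v.op1 * A) rfl
    (v.op1 * A * m.fx) rfl
    (v.R * (v.op1 * A * m.fx)) rfl
    (v.u2 * (v.ei * (m.ka * ms.lsi + m.lfk * phu)) + v.R * (v.op1 * A * m.fx)) rfl
    (v.e * (v.u2 * (v.ei * (m.ka * ms.lsi + m.lfk * phu)) + v.R * (v.op1 * A * m.fx))) rfl
    (m.NN * m.ez * (v.e * (v.u2 * (v.ei * (m.ka * ms.lsi + m.lfk * phu)) + v.R * (v.op1 * A * m.fx)))) rfl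
    m.Rg0 m.e_Rg0
    ((1 / 2) * (v.tu * m.eN)) (congrArg (fun y : ℝ => y * (v.tu * m.eN)) zX_549755813888_0)
    ((1 : ℝ) + (1 / 2) * (v.tu * m.eN)) rfl
    (m.NN * ((1 : ℝ) + (1 / 2) * (v.tu * m.eN))) rfl
    (v.t * v.om1) rfl
    (v.t * v.om1 * v2.bsum) rfl
    (v.op1 * v.aQ) rfl).2
    ((v.op1 * v.aQ)⁻¹) rfl
    (v.t * v.om1 * v2.bsum * (v.op1 * v.aQ)⁻¹) rfl
    (m.NN * ((1 : ℝ) + (1 / 2) * (v.tu * m.eN)) * (v.t * v.om1 * v2.bsum * (v.op1 * v.aQ)⁻¹)) rfl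
    m.Rh m.e_Rh
    (v2.lm * m.Rg0) rfl
    ((1 : ℝ) - v2.lm) rfl
    (v.u2 * m.Rh) rfl
    (((1 : ℝ) - v2.lm) * (v.u2 * m.Rh)) rfl
    (m.C2 * (((1 : ℝ) - v2.lm) * (v.u2 * m.Rh))) rfl
    m.Rg m.e_Rg
  change 0 < m.V at p_V
  obtain ⟨p_B, s17⟩ := s16
  change 0 < f.Bm - (1 / 1024) * v.t at p_B
  obtain ⟨p_Rg, s18⟩ := s17
  change 0 < m.Rg at p_Rg
  obtain ⟨p_Rh, s19⟩ := s18
  change 0 < m.Rh at p_Rh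
  have nx := nx_of G v4 hccp p_o2p p_Wp p_hgp
  have hga := gam_FC G hcc p_o2 p_W e_g e_ga
  have hn1Q : ‖1 + qq v.e κ (shf κ τ)‖ ≤ Q1 := by
    rw [e_Q1]; exact n1_sharp G (oo_sharp G e_cu e_xe e_o2u e_ooo) (nqb G ms hga).1
  obtain ⟨lf0, Ex, hφ⟩ := phi_slog G v2 he2 (by norm_num) (by norm_num) (by norm_num) e_phu e_Ei e_Eh
  exact far_C G ⟨p_XM, p_QX, p_e2, p_rl, p_l1, p_a0, p_S, p_V, p_Rg, p_Rh⟩ nx.1 hga hn1Q p_hg D hA hiA hφ c f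
    p_dri p_zp p_rr p_B

theorem far_X8 {κ : ℝ} {τ : ℂ} {R w : ℝ} {v : B1} (D : PtE (3 * 5⁻¹) v.e κ τ R w)
    (G : Geo κ (shf κ τ) v) (v2 : B2 v) (he2 : 2 ≤ v.e) (h : RAs Pool.Agent.helper71.FG.Crt.X.prog8 [v.e, v.t, v.u, v.n]) :
    FarPt v.e κ (1 - Real.sinh κ / 1024) w (2 * A5 v.e v.K * Real.sinh κ ^ 2) R
      (RE v.e κ (w * R)) τ := by
  obtain ⟨A, e_A⟩ : ∃ zz : ℝ, zz = v.e * ((1 : ℝ) * (5 : ℝ)⁻¹) := ⟨_, rfl⟩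
  obtain ⟨iA, e_iA⟩ : ∃ zz : ℝ, zz = 5 * v.ei := ⟨_, rfl⟩
  obtain ⟨hA, hiA, hAe⟩ := ab_x G v2 e_A e_iA
  rw [hAe]
  obtain ⟨cc, e_cc⟩ : ∃ zz : ℝ, zz = (-1 : ℝ) := ⟨_, rfl⟩
  obtain ⟨b⟩ := exGC v.q cc v.h1
  have hcc : CosB v.x cc := cosB_m e_cc
  obtain ⟨v3⟩ := exB3 v
  obtain ⟨b'⟩ := exGC v.qp cc v3.hp
  obtain ⟨v4⟩ := exNC v3 b'
  have hccp : CosB v3.xp cc := cosB_m e_cc
  obtain ⟨g, e_g⟩ : ∃ zz : ℝ, zz = (1 / 2) * (((1 : ℝ) - v.q) * b.q1 * b.W⁻¹) := ⟨_, rfl⟩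
  obtain ⟨ga, e_ga⟩ : ∃ zz : ℝ, zz = g * (g + (1 / 2 : ℝ))⁻¹ := ⟨_, rfl⟩
  obtain ⟨phu, e_phu⟩ : ∃ zz : ℝ, zz = (1 / 2) * ((13 / 4) * v.nj + (79 / 256) * v.u⁻¹) := ⟨_, rfl⟩
  obtain ⟨Ei, e_Ei⟩ : ∃ zz : ℝ, zz = 2 * v.ei + (1 : ℝ) := ⟨_, rfl⟩
  obtain ⟨Eh, e_Eh⟩ : ∃ zz : ℝ, zz = v.ei + (1 : ℝ) := ⟨_, rfl⟩
  obtain ⟨cu, e_cu⟩ : ∃ zz : ℝ, zz = (1 : ℝ) - v.x * ((1 / 2 : ℝ) - v.x * ((10923 / 262144 : ℝ) - v.x * ((5825 / 4194304 : ℝ) - (1665 / 67108864) * v.x))) := ⟨_, rfl⟩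
  obtain ⟨xe, e_xe⟩ : ∃ zz : ℝ, zz = v.x * v.ei := ⟨_, rfl⟩
  obtain ⟨o2u, e_o2u⟩ : ∃ zz : ℝ, zz = v.q * v.q + (1 : ℝ) + 2 * (v.q * (cu + (43 / 128) * (xe * xe))) := ⟨_, rfl⟩
  obtain ⟨ooo, e_ooo⟩ : ∃ zz : ℝ, zz = Real.exp ((1 / 2) * Real.log (o2u + (1 / 128 : ℝ))) := ⟨_, rfl⟩
  obtain ⟨ms⟩ := exMs v b g ga
  obtain ⟨Q1, e_Q1⟩ : ∃ zz : ℝ, zz = ooo + v.q * ms.hg := ⟨_, rfl⟩
  obtain ⟨m⟩ := exMb (3 * 5⁻¹) v2 A ms.Qb Q1 ms.lsi phu Ei Eh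
  obtain ⟨c⟩ := exCC m v4.gap iA
  obtain ⟨f⟩ := exFinS m (v.qp * (v4.hgp + 1)) (v.rp + v4.hgp * (v4.hgp + 1)) c.fbt c.FX
  obtain ⟨p_o2, s0⟩ := (((((((h
    (1 : ℝ) zX_1099511627776_0
    (1 / 2 : ℝ) zX_549755813888_0
    v.tu v.e_tu
    (v.tu * v.n) rfl
    v.h (v.e_h.trans (congrArg (fun y : ℝ => y * (v.tu * v.n)) zX_549755813888_0))
    v.u2 v.e_u2
    (v.h * v.h) rfl
    v.jm v.e_jm).2
    v.j v.e_j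
    (v.h * v.j) rfl
    v.K (v.e_K.trans (congrArg (fun y : ℝ => y * (v.h * v.j)) zX_2199023255552_0))
    (2 * v.j) (congrArg (fun y : ℝ => y * v.j) zX_2199023255552_0)
    v.c0 v.e_c0
    v.m v.e_m
    v.nj v.e_nj
    v.om v.e_om
    v.om1 v.e_om1
    v.op1 v.e_op1
    v2.Y (v2.e_Y.trans (congrArg (fun y : ℝ => y * v.h) zX_10774999203840_0))
    ((341 / 8192) * v2.Y) (congrArg (fun y : ℝ => y * v2.Y) zX_45768245248_0)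
    (1365 / 8192 : ℝ) zX_183207198720_0
    ((341 / 8192) * v2.Y + (1365 / 8192 : ℝ)) rfl
    (v2.Y * ((341 / 8192) * v2.Y + (1365 / 8192 : ℝ))) rfl
    ((1 / 2 : ℝ) + v2.Y * ((341 / 8192) * v2.Y + (1365 / 8192 : ℝ))) rfl
    (v2.Y * ((1 / 2 : ℝ) + v2.Y * ((341 / 8192) * v2.Y + (1365 / 8192 : ℝ)))) rfl
    v2.pY v2.e_pY
    (v2.Y * v2.pY) rfl
    ((1 / 2) * (v2.Y * v2.pY)) (congrArg (fun y : ℝ => y * (v2.Y * v2.pY)) zX_549755813888_0)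
    ((1 : ℝ) + (1 / 2) * (v2.Y * v2.pY)) rfl
    v2.Yp v2.e_Yp
    v.R v.e_R
    (v.K * v.om) rfl
    (2 * v.c0) (congrArg (fun y : ℝ => y * v.c0) zX_2199023255552_0)
    (v.K * v.om + 2 * v.c0) rfl
    v.Dt v.e_Dt
    v.D v.e_D
    v.SQ v.e_SQ
    (v.K * v.K) rfl
    (2 * (v.K * v.K)) (congrArg (fun y : ℝ => y * (v.K * v.K)) zX_2199023255552_0)
    v.c2 v.e_c2
    (v.c0 * v.Dt) rfl
    v.rhat v.e_rhat).2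
    v.LQ v.e_LQ
    ((1 / 2) * v.LQ) (congrArg (fun y : ℝ => y * v.LQ) zX_549755813888_0)
    v.aQ v.e_aQ
    v.ee (v.e_ee.trans (congrArg (fun y : ℝ => y * v.e) zX_549755813888_0))
    v.rho v.e_rho
    (-v.rho) rfl
    v.q v.e_q
    (v.c0 * v.R) rfl
    (v.c0 * v.R * v.rhat) rfl
    v.D2 (v.e_D2.trans (congrArg (fun y : ℝ => y * (v.c0 * v.R * v.rhat)) zX_4398046511104_0))
    (v.D2 + (1 : ℝ)) rfl).2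
    (Real.log (v.D2 + (1 : ℝ))) rfl
    v.L2 v.e_L2
    v.rp v.e_rp
    (-v.rp) rfl
    v.qp v.e_qp
    (v.om * v.K) rfl
    (v.c0 + v.om * v.K) rfl).2
    v.ioK v.e_ioK
    v.h1t v.e_h1t
    (v.om1 * v.t) rfl
    v.h1 v.e_h1
    v.nj2 v.e_nj2
    ((1 : ℝ) - v.u2) rfl
    v.f2 v.e_f2
    v.tu2 v.e_tu2
    (v.c0 + v.R) rfl).2
    ((v.c0 + v.R)⁻¹) rfl
    v.w v.e_w
    (v.w * v.tu) rfl
    (v.w * v.tu * (v.w * v.tu)) rfl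
    ((1 : ℝ) - v.nj2) rfl
    (((1 : ℝ) - v.u2) * ((1 : ℝ) - v.nj2)) rfl
    v.x (x_alt v)).2
    v.ei v.e_ei
    cc (e_cc.trans zX_0_1099511627776)
    b.q1 b.e_q1
    (v.q * v.q) rfl
    (v.q * v.q + (1 : ℝ)) rfl
    (v.q * cc) rfl
    (2 * (v.q * cc)) (congrArg (fun y : ℝ => y * (v.q * cc)) zX_2199023255552_0)
    b.o2 b.e_o2).2
    (b.q1⁻¹) rfl
    (b.o2 * b.q1⁻¹) rfl
    b.P1 b.e_P1
    (v.q * v.h1) rfl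
    b.qh (b.e_qh.trans (congrArg (fun y : ℝ => y * (v.q * v.h1)) zX_549755813888_0))
    (b.qh * b.P1) rfl
    b.W b.e_W
  change 0 < b.o2 at p_o2
  obtain ⟨p_W, s1⟩ := s0
  change 0 < b.W at p_W
  obtain ⟨p_o2p, s2⟩ := ((((((s1).2
    b.W⁻¹ rfl
    ((1 : ℝ) - v.q) rfl
    (((1 : ℝ) - v.q) * b.q1) rfl
    (((1 : ℝ) - v.q) * b.q1 * b.W⁻¹) rfl
    g (e_g.trans (congrArg (fun y : ℝ => y * (((1 : ℝ) - v.q) * b.q1 * b.W⁻¹)) zX_549755813888_0))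
    (g + (1 / 2 : ℝ)) rfl).2
    ((g + (1 / 2 : ℝ))⁻¹) rfl
    ga e_ga
    ms.hg ms.e_hg
    ((1 / 2) * ms.hg) (congrArg (fun y : ℝ => y * ms.hg) zX_549755813888_0)
    ((1 : ℝ) - (1 / 2) * ms.hg) rfl
    ((1 : ℝ) - ms.hg) rfl).2
    (((1 : ℝ) - ms.hg)⁻¹) rfl
    ms.lsf ms.e_lsf
    (ms.hg + (1 : ℝ)) rfl
    ms.Qb ms.e_Qb
    (v.om1 * v.op1) rfl
    (v.c0 + v.t) rfl
    (v.om * v.c0) rfl
    (v.om * v.c0 * v.K) rfl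
    (2 * (v.om * v.c0 * v.K)) (congrArg (fun y : ℝ => y * (v.om * v.c0 * v.K)) zX_2199023255552_0)
    (v.c2 + 2 * (v.om * v.c0 * v.K)) rfl
    ((v.c0 + v.t) * (v.c2 + 2 * (v.om * v.c0 * v.K))) rfl).2
    (((v.c0 + v.t) * (v.c2 + 2 * (v.om * v.c0 * v.K)))⁻¹) rfl
    v3.hpt v3.e_hpt
    v3.hp v3.e_hp).2
    (v.SQ⁻¹) rfl
    v3.xp v3.e_xp
    b'.q1 b'.e_q1
    (v.qp * v.qp) rfl
    (v.qp * v.qp + (1 : ℝ)) rfl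
    (v.qp * cc) rfl
    (2 * (v.qp * cc)) (congrArg (fun y : ℝ => y * (v.qp * cc)) zX_2199023255552_0)
    b'.o2 b'.e_o2).2
    (b'.q1⁻¹) rfl
    (b'.o2 * b'.q1⁻¹) rfl
    b'.P1 b'.e_P1
    (v.qp * v3.hp) rfl
    b'.qh (b'.e_qh.trans (congrArg (fun y : ℝ => y * (v.qp * v3.hp)) zX_549755813888_0))
    (b'.qh * b'.P1) rfl
    b'.W b'.e_W
  change 0 < b'.o2 at p_o2p
  obtain ⟨p_Wp, s3⟩ := s2
  change 0 < b'.W at p_Wp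
  obtain ⟨p_XM, s4⟩ := (((((((((((((((((((s3
    ((1 : ℝ) - v.qp) rfl
    (((1 : ℝ) - v.qp) * b'.q1) rfl).2
    (b'.W⁻¹) rfl
    (((1 : ℝ) - v.qp) * b'.q1 * b'.W⁻¹) rfl
    v4.gp (v4.e_gp.trans (congrArg (fun y : ℝ => y * (((1 : ℝ) - v.qp) * b'.q1 * b'.W⁻¹)) zX_549755813888_0))
    (v4.gp + (1 / 2 : ℝ)) rfl).2
    ((v4.gp + (1 / 2 : ℝ))⁻¹) rfl
    v4.gap v4.e_gap
    v4.hgp v4.e_hgp
    (v.h + (1 : ℝ)) rfl).2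
    v2.ih v2.e_ih
    (v.h * v2.ih) rfl
    v2.rh (v2.e_rh.trans (congrArg (fun y : ℝ => y * (v.h * v2.ih)) zX_2199023255552_0))
    v2.mi v2.e_mi
    v2.hm v2.e_hm
    v2.nih v2.e_nih
    (v2.nih * v2.mi) rfl
    v2.bsum v2.e_bsum
    v2.eK v2.e_eK
    (5 : ℝ) zX_5497558138880_0).2
    ((5 : ℝ)⁻¹) rfl
    ((1 : ℝ) * (5 : ℝ)⁻¹) rfl
    A e_A
    iA (e_iA.trans (congrArg (fun y : ℝ => y * v.ei) zX_5497558138880_0))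
    ((209 / 1024) * v.j) (congrArg (fun y : ℝ => y * v.j) zX_224412041216_0)).2
    (v2.Yp⁻¹) rfl
    v2.lm v2.e_lm
    (A * v.op1) rfl
    m.Xe m.e_Xe
    m.XM m.e_XM
    ((1 : ℝ) - m.XM) rfl).2
    m.iX m.e_iX
    m.QX m.e_QX
    ((1 : ℝ) - m.QX) rfl).2
    m.iQX m.e_iQX
    ((13 / 4) * v.nj) (congrArg (fun y : ℝ => y * v.nj) zX_3573412790272_0)).2
    (v.u⁻¹) rfl
    ((79 / 256) * v.u⁻¹) (congrArg (fun y : ℝ => y * v.u⁻¹) zX_339302416384_0)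
    ((13 / 4) * v.nj + (79 / 256) * v.u⁻¹) rfl
    phu (e_phu.trans (congrArg (fun y : ℝ => y * ((13 / 4) * v.nj + (79 / 256) * v.u⁻¹)) zX_549755813888_0))
    (2 * v.ei) (congrArg (fun y : ℝ => y * v.ei) zX_2199023255552_0)
    Ei e_Ei
    Eh e_Eh
    (v.h * v.nj) rfl
    ((1 : ℝ) - v.f2) rfl
    (v.h * v.om) rfl
    (2 * (v.h * v.om)) (congrArg (fun y : ℝ => y * (v.h * v.om)) zX_2199023255552_0)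
    ((1 : ℝ) - v.f2 - 2 * (v.h * v.om)) rfl
    (v.h * v.nj * (v.h * v.nj)) rfl
    m.N1 m.e_N1
    (m.N1 + (1 : ℝ)) rfl
    m.s (m.e_s.trans (congrArg (fun y : ℝ => y * (m.N1 + (1 : ℝ))) zX_549755813888_0))
    ((1 / 2) * v.R) (congrArg (fun y : ℝ => y * v.R) zX_549755813888_0)
    (v.j - (1 / 2) * v.R) rfl
    (v.tu2 * ((1 : ℝ) - v.f2)) rfl
    (v.tu2 * ((1 : ℝ) - v.f2) * v.jm) rfl
    ((1 / 8) * (v.tu2 * ((1 : ℝ) - v.f2) * v.jm)) (congrArg (fun y : ℝ => y * (v.tu2 * ((1 : ℝ) - v.f2) * v.jm)) zX_137438953472_0)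
    (v.j - (1 / 2) * v.R + (1 / 8) * (v.tu2 * ((1 : ℝ) - v.f2) * v.jm)) rfl
    m.k0 m.e_k0
    m.ls (ls_F G ms m)
    (10923 / 262144 : ℝ) zX_45814382592_0
    (5825 / 4194304 : ℝ) zX_1526988800_0
    ((1665 / 67108864) * v.x) (congrArg (fun y : ℝ => y * v.x) zX_27279360_0)
    ((5825 / 4194304 : ℝ) - (1665 / 67108864) * v.x) rfl
    (v.x * ((5825 / 4194304 : ℝ) - (1665 / 67108864) * v.x)) rfl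
    ((10923 / 262144 : ℝ) - v.x * ((5825 / 4194304 : ℝ) - (1665 / 67108864) * v.x)) rfl
    (v.x * ((10923 / 262144 : ℝ) - v.x * ((5825 / 4194304 : ℝ) - (1665 / 67108864) * v.x))) rfl
    ((1 / 2 : ℝ) - v.x * ((10923 / 262144 : ℝ) - v.x * ((5825 / 4194304 : ℝ) - (1665 / 67108864) * v.x))) rfl
    (v.x * ((1 / 2 : ℝ) - v.x * ((10923 / 262144 : ℝ) - v.x * ((5825 / 4194304 : ℝ) - (1665 / 67108864) * v.x)))) rfl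
    cu e_cu
    xe e_xe
    (xe * xe) rfl
    ((43 / 128) * (xe * xe)) (congrArg (fun y : ℝ => y * (xe * xe)) zX_369367187456_0)
    (cu + (43 / 128) * (xe * xe)) rfl
    (v.q * (cu + (43 / 128) * (xe * xe))) rfl
    (2 * (v.q * (cu + (43 / 128) * (xe * xe)))) (congrArg (fun y : ℝ => y * (v.q * (cu + (43 / 128) * (xe * xe)))) zX_2199023255552_0)
    o2u e_o2u
    (1 / 128 : ℝ) zX_8589934592_0
    (o2u + (1 / 128 : ℝ)) rfl).2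
    (Real.log (o2u + (1 / 128 : ℝ))) rfl
    ((1 / 2) * Real.log (o2u + (1 / 128 : ℝ))) (congrArg (fun y : ℝ => y * Real.log (o2u + (1 / 128 : ℝ))) zX_549755813888_0)
    ooo e_ooo
    (v.q * ms.hg) rfl
    Q1 e_Q1
    (Q1 * m.iX) rfl
    (ms.Qb * m.iQX) rfl
    (Q1 * m.iX + ms.Qb * m.iQX) rfl
    (m.XM * (Q1 * m.iX + ms.Qb * m.iQX)) rfl
    (m.ls + m.XM * (Q1 * m.iX + ms.Qb * m.iQX)) rfl
    m.a0 m.e_a0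
    (Q1 * m.XM) rfl
    (Q1 * m.XM * m.iX) rfl
    (m.ls + Q1 * m.XM * m.iX) rfl
    m.l1 m.e_l1
    ((13 / 64) * m.l1) (congrArg (fun y : ℝ => y * m.l1) zX_223338299392_0)
    ((1 / 2 : ℝ) + (13 / 64) * m.l1) rfl
    (m.l1 * ((1 / 2 : ℝ) + (13 / 64) * m.l1)) rfl
    m.Na m.e_Na
    ((13 / 16) * m.a0) (congrArg (fun y : ℝ => y * m.a0) zX_893353197568_0)
    ((1 : ℝ) + (13 / 16) * m.a0) rfl
    (m.a0 * ((1 : ℝ) + (13 / 16) * m.a0)) rfl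
    m.Nb m.e_Nb
    (v2.rh * v2.nih) rfl
    (v2.rh * v2.nih * Ei) rfl
    m.rn m.e_rn
    (m.k0 * m.Na) rfl
    (v.aQ + (1 / 2 : ℝ)) rfl
    (m.rn * (v.aQ + (1 / 2 : ℝ))) rfl
    m.ka m.e_ka
    (v.aQ + (1 : ℝ)) rfl
    m.kb m.e_kb
    (Eh * (v.aQ + (1 : ℝ))) rfl
    (Eh * (v.aQ + (1 : ℝ)) * v2.nih) rfl
    m.lfk m.e_lfk
    (v.tu * v2.bsum) rfl).2
    (v.aQ⁻¹) rfl
    (v.tu * v2.bsum * v.aQ⁻¹) rfl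
    m.bte (m.e_bte.trans (congrArg (fun y : ℝ => y * (v.tu * v2.bsum * v.aQ⁻¹)) zX_549755813888_0))
    (v.h1t * v.u⁻¹) rfl
    (v.h1t * v.u⁻¹ * ga) rfl
    ms.lsi ms.e_lsi
    (v.om1 * m.bte) rfl
    (m.ka * ms.lsi) rfl
    (m.lfk * phu) rfl
    (m.ka * ms.lsi + m.lfk * phu) rfl
    ((m.ka * ms.lsi + m.lfk * phu) * v.ei) rfl
    m.src m.e_src
    (m.ka * Q1) rfl
    (m.ka * Q1 * m.iX) rfl
    (m.kb * ms.Qb) rfl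
    (m.kb * ms.Qb * m.iQX) rfl
    (m.ka * Q1 * m.iX + m.kb * ms.Qb * m.iQX) rfl
    m.fx m.e_fx
    (v.om1 * m.src) rfl
    (m.Xe * m.fx) rfl
    m.eps m.e_eps
    (v.tu2 * m.eps) rfl
    (v.tu2 * m.eps * v.aQ⁻¹) rfl
    ((1 : ℝ) - v.tu2 * m.eps * v.aQ⁻¹) rfl).2
    m.NN m.e_NN
    m.eN m.e_eN
    m.d m.e_d
    m.eta m.e_eta
    (m.eta * v.aQ⁻¹) rfl
    ((1 : ℝ) - m.eta * v.aQ⁻¹) rfl
    (v.rhat * ((1 : ℝ) - m.eta * v.aQ⁻¹)) rfl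
    m.rl m.e_rl).2
    m.irl m.e_irl
    m.yy m.e_yy
    (v.aQ - m.eta) rfl).2
    c.q0 c.e_q0
    c.zp c.e_zp
    (v.e * c.q0) rfl
    (v4.gap * m.irl) rfl).2
    (v.R⁻¹) rfl
    (v4.gap * m.irl * v.R⁻¹) rfl
    ((1 / 2) * c.zp) (congrArg (fun y : ℝ => y * c.zp) zX_549755813888_0)
    ((1 : ℝ) - (1 / 2) * c.zp) rfl
    ((1 : ℝ) - c.zp) rfl).2
    (((1 : ℝ) - c.zp)⁻¹) rfl
    (((1 : ℝ) - (1 / 2) * c.zp) * ((1 : ℝ) - c.zp)⁻¹) rfl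
    (v4.gap * m.irl * v.R⁻¹ * (((1 : ℝ) - (1 / 2) * c.zp) * ((1 : ℝ) - c.zp)⁻¹)) rfl
    c.C1 c.e_C1
    c.rr c.e_rr
    ((13 / 64) * c.rr) (congrArg (fun y : ℝ => y * c.rr) zX_223338299392_0)
    ((1 / 2 : ℝ) + (13 / 64) * c.rr) rfl
    (c.rr * ((1 / 2 : ℝ) + (13 / 64) * c.rr)) rfl
    ((1 : ℝ) + c.rr * ((1 / 2 : ℝ) + (13 / 64) * c.rr)) rfl
    (c.C1 * ((1 : ℝ) + c.rr * ((1 / 2 : ℝ) + (13 / 64) * c.rr))) rfl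
    (c.C1 * ((1 : ℝ) + c.rr * ((1 / 2 : ℝ) + (13 / 64) * c.rr)) * m.NN) rfl
    c.C c.e_C
    (c.C * v.u) rfl
    c.fbt c.e_fbt
    (c.C * iA) rfl
    (c.C * iA * v.u) rfl).2
    (v.op1⁻¹) rfl
    (c.C * iA * v.u * v.op1⁻¹) rfl
    (v.e * v.om1) rfl
    (v.e * v.om1 * m.bte) rfl
    (v.e * v.om1 * m.bte + m.ka * ms.lsi) rfl
    (v.e * v.om1 * m.bte + m.ka * ms.lsi + m.lfk * phu) rfl
    c.FX c.e_FX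
    (A * v.tu) rfl
    (A * v.tu * v.op1) rfl
    m.XLt m.e_XLt
    (3 : ℝ) zX_3298534883328_0
    m.beta m.e_beta
    (v4.hgp + (1 : ℝ)) rfl
    (v4.hgp * (v4.hgp + (1 : ℝ))) rfl
    (v.rp + v4.hgp * (v4.hgp + (1 : ℝ))) rfl
    f.dri f.e_dri
    (v.qp * (v4.hgp + (1 : ℝ))) rfl
    ((5 / 8) * f.dri) (congrArg (fun y : ℝ => y * f.dri) zX_687194767360_0)
    ((1 : ℝ) + (5 / 8) * f.dri) rfl
    (f.dri * ((1 : ℝ) + (5 / 8) * f.dri)) rfl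
    ((1 : ℝ) + f.dri * ((1 : ℝ) + (5 / 8) * f.dri)) rfl
    f.Qp f.e_Qp
    (v.K + v.t) rfl
    ((v.h + (1 : ℝ)) * (v.K + v.t)) rfl
    ((v.h + (1 : ℝ)) * (v.K + v.t) * m.beta) rfl
    ((1 : ℝ) + (v.h + (1 : ℝ)) * (v.K + v.t) * m.beta) rfl).2
    f.Lam f.e_Lam
    (f.Qp * f.Lam) rfl
    (f.Qp * f.Lam * v.m) rfl
    (v.tu * m.eN) rfl
    (v.tu * m.eN * v.op1⁻¹) rfl
    ((1 : ℝ) + v.tu * m.eN * v.op1⁻¹) rfl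
    (f.Qp * f.Lam * v.m * ((1 : ℝ) + v.tu * m.eN * v.op1⁻¹)) rfl
    f.c1 (c1_C c f)
    f.fb f.e_fb
    (f.fb * m.XM) rfl
    (v.t * m.XLt) rfl
    (c.FX * (v.t * m.XLt)) rfl
    f.r f.e_r
    (f.fb + c.FX) rfl
    ((1 : ℝ) + f.r) rfl
    (f.c1 * ((1 : ℝ) + f.r)) rfl
    (f.fb + c.FX + f.c1 * ((1 : ℝ) + f.r)) rfl
    f.Bm f.e_Bm
    ((1 / 1024) * v.t) (congrArg (fun y : ℝ => y * v.t) zX_1073741824_0)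
    (f.Bm - (1 / 1024) * v.t) rfl
    m.m1 m.e_m1
    (2 : ℝ) zX_2199023255552_0
    (m.m1 + (2 : ℝ)) rfl
    (2 * m.beta) (congrArg (fun y : ℝ => y * m.beta) zX_2199023255552_0)
    (m.m1 + (2 : ℝ) - 2 * m.beta) rfl
    ((v.h + (1 : ℝ)) * (m.m1 + (2 : ℝ) - 2 * m.beta)) rfl
    (m.m1 * (2 * m.beta)) rfl
    (m.m1 * (2 * m.beta) + (1 : ℝ)) rfl).2
    ((m.m1 * (2 * m.beta) + (1 : ℝ))⁻¹) rfl
    ((v.h + (1 : ℝ)) * (m.m1 + (2 : ℝ) - 2 * m.beta) * (m.m1 * (2 * m.beta) + (1 : ℝ))⁻¹) rfl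
    (A * m.fx) rfl
    ((1 / 2) * v2.lm) (congrArg (fun y : ℝ => y * v2.lm) zX_549755813888_0)
    (v.K + (1 / 2) * v2.lm) rfl
    (A * m.fx * (v.K + (1 / 2) * v2.lm)) rfl
    (2 * (A * m.fx * (v.K + (1 / 2) * v2.lm))) (congrArg (fun y : ℝ => y * (A * m.fx * (v.K + (1 / 2) * v2.lm))) zX_2199023255552_0)
    (m.src + 2 * (A * m.fx * (v.K + (1 / 2) * v2.lm))) rfl
    (2 * (m.src + 2 * (A * m.fx * (v.K + (1 / 2) * v2.lm)))) (congrArg (fun y : ℝ => y * (m.src + 2 * (A * m.fx * (v.K + (1 / 2) * v2.lm)))) zX_2199023255552_0)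
    (2 * (m.src + 2 * (A * m.fx * (v.K + (1 / 2) * v2.lm))) * m.NN) rfl
    (v.op1 - v.tu * m.eN) rfl).2
    ((v.op1 - v.tu * m.eN)⁻¹) rfl
    (2 * (m.src + 2 * (A * m.fx * (v.K + (1 / 2) * v2.lm))) * m.NN * (v.op1 - v.tu * m.eN)⁻¹) rfl
    m.V m.e_V
  change 0 < (1 : ℝ) - m.XM at p_XM
  obtain ⟨p_QX, s5⟩ := s4
  change 0 < (1 : ℝ) - m.QX at p_QX
  obtain ⟨p_e2, s6⟩ := s5
    (2 * (v.tu2 * m.eps)) (congrArg (fun y : ℝ => y * (v.tu2 * m.eps)) zX_2199023255552_0)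
    (v.aQ - 2 * (v.tu2 * m.eps)) rfl
  change 0 < v.aQ - 2 * (v.tu2 * m.eps) at p_e2
  obtain ⟨p_rl, s7⟩ := s6
  change 0 < m.rl at p_rl
  obtain ⟨p_hg, s8⟩ := s7
  change 0 < (1 : ℝ) - ms.hg at p_hg
  obtain ⟨p_hgp, s9⟩ := s8
    ((1 / 2 : ℝ) - v4.hgp) rfl
  change 0 < (1 / 2 : ℝ) - v4.hgp at p_hgp
  obtain ⟨p_l1, s10⟩ := s9
    ((5 / 8) * (1 : ℝ)) (congrArg (fun y : ℝ => y * (1 : ℝ)) zX_687194767360_0)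
    ((5 / 8) * (1 : ℝ) - m.l1) rfl
  change 0 < (5 / 8) * (1 : ℝ) - m.l1 at p_l1
  obtain ⟨p_a0, s11⟩ := s10
    ((11 / 32) * (1 : ℝ)) (congrArg (fun y : ℝ => y * (1 : ℝ)) zX_377957122048_0)
    ((11 / 32) * (1 : ℝ) - m.a0) rfl
  change 0 < (11 / 32) * (1 : ℝ) - m.a0 at p_a0
  obtain ⟨p_S, s12⟩ := s11
  change 0 < v.op1 - v.tu * m.eN at p_S
  obtain ⟨p_dri, s13⟩ := s12
    ((1 / 2 : ℝ) - f.dri) rfl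
  change 0 < (1 / 2 : ℝ) - f.dri at p_dri
  obtain ⟨p_zp, s14⟩ := s13
  change 0 < (1 : ℝ) - c.zp at p_zp
  obtain ⟨p_rr, s15⟩ := s14
    ((5 / 8) * (1 : ℝ) - c.rr) rfl
  change 0 < (5 / 8) * (1 : ℝ) - c.rr at p_rr
  obtain ⟨p_V, s16⟩ := (((s15
    (v2.eK * v2.eK) rfl
    (13 : ℝ) zX_14293651161088_0
    (10 : ℝ) zX_10995116277760_0).2
    ((10 : ℝ)⁻¹) rfl
    ((13 : ℝ) * (10 : ℝ)⁻¹) rfl
    (v2.eK * v2.eK * ((13 : ℝ) * (10 : ℝ)⁻¹)) rfl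
    (25 : ℝ) zX_27487790694400_0
    m.C2 m.e_C2
    ((v.h + (1 : ℝ)) * v.op1) rfl
    m.b1 m.e_b1
    (v.t * m.b1) rfl
    ((1 : ℝ) + v.t * m.b1) rfl).2
    (((1 : ℝ) + v.t * m.b1)⁻¹) rfl
    m.gr m.e_gr
    (2 * v.c0 - v.t) rfl
    m.Gt m.e_Gt
    (2 * v.tu) (congrArg (fun y : ℝ => y * v.tu) zX_2199023255552_0)
    (2 * v.tu + m.eta) rfl
    m.ez m.e_ez
    (m.C2 * m.gr) rfl
    (m.NN * m.ez) rfl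
    (v.ei * (m.ka * ms.lsi + m.lfk * phu)) rfl
    (v.u2 * (v.ei * (m.ka * ms.lsi + m.lfk * phu))) rfl
    (v.op1 * A) rfl
    (v.op1 * A * m.fx) rfl
    (v.R * (v.op1 * A * m.fx)) rfl
    (v.u2 * (v.ei * (m.ka * ms.lsi + m.lfk * phu)) + v.R * (v.op1 * A * m.fx)) rfl
    (v.e * (v.u2 * (v.ei * (m.ka * ms.lsi + m.lfk * phu)) + v.R * (v.op1 * A * m.fx))) rfl
    (m.NN * m.ez * (v.e * (v.u2 * (v.ei * (m.ka * ms.lsi + m.lfk * phu)) + v.R * (v.op1 * A * m.fx)))) rfl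
    m.Rg0 m.e_Rg0
    ((1 / 2) * (v.tu * m.eN)) (congrArg (fun y : ℝ => y * (v.tu * m.eN)) zX_549755813888_0)
    ((1 : ℝ) + (1 / 2) * (v.tu * m.eN)) rfl
    (m.NN * ((1 : ℝ) + (1 / 2) * (v.tu * m.eN))) rfl
    (v.t * v.om1) rfl
    (v.t * v.om1 * v2.bsum) rfl
    (v.op1 * v.aQ) rfl).2
    ((v.op1 * v.aQ)⁻¹) rfl
    (v.t * v.om1 * v2.bsum * (v.op1 * v.aQ)⁻¹) rfl
    (m.NN * ((1 : ℝ) + (1 / 2) * (v.tu * m.eN)) * (v.t * v.om1 * v2.bsum * (v.op1 * v.aQ)⁻¹)) rfl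
    m.Rh m.e_Rh
    (v2.lm * m.Rg0) rfl
    ((1 : ℝ) - v2.lm) rfl
    (v.u2 * m.Rh) rfl
    (((1 : ℝ) - v2.lm) * (v.u2 * m.Rh)) rfl
    (m.C2 * (((1 : ℝ) - v2.lm) * (v.u2 * m.Rh))) rfl
    m.Rg m.e_Rg
  change 0 < m.V at p_V
  obtain ⟨p_B, s17⟩ := s16
  change 0 < f.Bm - (1 / 1024) * v.t at p_B
  obtain ⟨p_Rg, s18⟩ := s17
  change 0 < m.Rg at p_Rg
  obtain ⟨p_Rh, s19⟩ := s18
  change 0 < m.Rh at p_Rh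
  have nx := nx_of G v4 hccp p_o2p p_Wp p_hgp
  have hga := gam_FC G hcc p_o2 p_W e_g e_ga
  have hn1Q : ‖1 + qq v.e κ (shf κ τ)‖ ≤ Q1 := by
    rw [e_Q1]; exact n1_sharp G (oo_sharp G e_cu e_xe e_o2u e_ooo) (nqb G ms hga).1
  obtain ⟨lf0, Ex, hφ⟩ := phi_slog G v2 he2 (by norm_num) (by norm_num) (by norm_num) e_phu e_Ei e_Eh
  exact far_C G ⟨p_XM, p_QX, p_e2, p_rl, p_l1, p_a0, p_S, p_V, p_Rg, p_Rh⟩ nx.1 hga hn1Q p_hg D hA hiA hφ c f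
    p_dri p_zp p_rr p_B

theorem far_X9 {κ : ℝ} {τ : ℂ} {R w : ℝ} {v : B1} (D : PtE (3 * 5⁻¹) v.e κ τ R w)
    (G : Geo κ (shf κ τ) v) (v2 : B2 v) (he2 : 2 ≤ v.e) (h : RAs Pool.Agent.helper71.FG.Crt.X.prog9 [v.e, v.t, v.u, v.n]) :
    FarPt v.e κ (1 - Real.sinh κ / 1024) w (2 * A5 v.e v.K * Real.sinh κ ^ 2) R
      (RE v.e κ (w * R)) τ := by
  obtain ⟨A, e_A⟩ : ∃ zz : ℝ, zz = v.e * ((1 : ℝ) * (5 : ℝ)⁻¹) := ⟨_, rfl⟩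
  obtain ⟨iA, e_iA⟩ : ∃ zz : ℝ, zz = 5 * v.ei := ⟨_, rfl⟩
  obtain ⟨hA, hiA, hAe⟩ := ab_x G v2 e_A e_iA
  rw [hAe]
  obtain ⟨b⟩ := exGC v.q (-1) v.h1
  obtain ⟨v3⟩ := exB3 v
  obtain ⟨hgp, e_hgp⟩ : ∃ zz : ℝ, zz = v3.hp * (1 : ℝ) := ⟨_, rfl⟩
  obtain ⟨phu, e_phu⟩ : ∃ zz : ℝ, zz = (1 / 2) * ((13 / 4) * v.nj + (79 / 256) * v.u⁻¹) := ⟨_, rfl⟩
  obtain ⟨Ei, e_Ei⟩ : ∃ zz : ℝ, zz = 2 * v.ei + (1 : ℝ) := ⟨_, rfl⟩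
  obtain ⟨Eh, e_Eh⟩ : ∃ zz : ℝ, zz = v.ei + (1 : ℝ) := ⟨_, rfl⟩
  obtain ⟨cu, e_cu⟩ : ∃ zz : ℝ, zz = (1 : ℝ) - v.x * ((1 / 2 : ℝ) - v.x * ((10923 / 262144 : ℝ) - v.x * ((5825 / 4194304 : ℝ) - (1665 / 67108864) * v.x))) := ⟨_, rfl⟩
  obtain ⟨xe, e_xe⟩ : ∃ zz : ℝ, zz = v.x * v.ei := ⟨_, rfl⟩
  obtain ⟨o2u, e_o2u⟩ : ∃ zz : ℝ, zz = v.q * v.q + (1 : ℝ) + 2 * (v.q * (cu + (43 / 128) * (xe * xe))) := ⟨_, rfl⟩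
  obtain ⟨ooo, e_ooo⟩ : ∃ zz : ℝ, zz = Real.exp ((1 / 2) * Real.log (o2u + (1 / 128 : ℝ))) := ⟨_, rfl⟩
  obtain ⟨ms⟩ := exMs v b 0 1
  obtain ⟨Q1, e_Q1⟩ : ∃ zz : ℝ, zz = ooo + v.q * ms.hg := ⟨_, rfl⟩
  obtain ⟨m⟩ := exMb (3 * 5⁻¹) v2 A ms.Qb Q1 ms.lsi phu Ei Eh
  obtain ⟨c⟩ := exCC m 1 iA
  obtain ⟨f⟩ := exFinS m (v.qp * (hgp + 1)) (v.rp + hgp * (hgp + 1)) c.fbt c.FX
  obtain ⟨p_XM, s0⟩ := ((((((((((((((((((((((((((h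
    (1 : ℝ) zX_1099511627776_0
    (1 / 2 : ℝ) zX_549755813888_0
    v.tu v.e_tu
    (v.tu * v.n) rfl
    v.h (v.e_h.trans (congrArg (fun y : ℝ => y * (v.tu * v.n)) zX_549755813888_0))
    v.u2 v.e_u2
    (v.h * v.h) rfl
    v.jm v.e_jm).2
    v.j v.e_j
    (v.h * v.j) rfl
    v.K (v.e_K.trans (congrArg (fun y : ℝ => y * (v.h * v.j)) zX_2199023255552_0))
    (2 * v.j) (congrArg (fun y : ℝ => y * v.j) zX_2199023255552_0)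
    v.c0 v.e_c0
    v.m v.e_m
    v.nj v.e_nj
    v.om v.e_om
    v.om1 v.e_om1
    v.op1 v.e_op1
    v2.Y (v2.e_Y.trans (congrArg (fun y : ℝ => y * v.h) zX_10774999203840_0))
    ((341 / 8192) * v2.Y) (congrArg (fun y : ℝ => y * v2.Y) zX_45768245248_0)
    (1365 / 8192 : ℝ) zX_183207198720_0
    ((341 / 8192) * v2.Y + (1365 / 8192 : ℝ)) rfl
    (v2.Y * ((341 / 8192) * v2.Y + (1365 / 8192 : ℝ))) rfl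
    ((1 / 2 : ℝ) + v2.Y * ((341 / 8192) * v2.Y + (1365 / 8192 : ℝ))) rfl
    (v2.Y * ((1 / 2 : ℝ) + v2.Y * ((341 / 8192) * v2.Y + (1365 / 8192 : ℝ)))) rfl
    v2.pY v2.e_pY
    (v2.Y * v2.pY) rfl
    ((1 / 2) * (v2.Y * v2.pY)) (congrArg (fun y : ℝ => y * (v2.Y * v2.pY)) zX_549755813888_0)
    ((1 : ℝ) + (1 / 2) * (v2.Y * v2.pY)) rfl
    v2.Yp v2.e_Yp
    v.R v.e_R
    (v.K * v.om) rfl
    (2 * v.c0) (congrArg (fun y : ℝ => y * v.c0) zX_2199023255552_0)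
    (v.K * v.om + 2 * v.c0) rfl
    v.Dt v.e_Dt
    v.D v.e_D
    v.SQ v.e_SQ
    (v.K * v.K) rfl
    (2 * (v.K * v.K)) (congrArg (fun y : ℝ => y * (v.K * v.K)) zX_2199023255552_0)
    v.c2 v.e_c2
    (v.c0 * v.Dt) rfl
    v.rhat v.e_rhat).2
    v.LQ v.e_LQ
    ((1 / 2) * v.LQ) (congrArg (fun y : ℝ => y * v.LQ) zX_549755813888_0)
    v.aQ v.e_aQ
    v.ee (v.e_ee.trans (congrArg (fun y : ℝ => y * v.e) zX_549755813888_0))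
    v.rho v.e_rho
    (-v.rho) rfl
    v.q v.e_q
    (v.c0 * v.R) rfl
    (v.c0 * v.R * v.rhat) rfl
    v.D2 (v.e_D2.trans (congrArg (fun y : ℝ => y * (v.c0 * v.R * v.rhat)) zX_4398046511104_0))
    (v.D2 + (1 : ℝ)) rfl).2
    (Real.log (v.D2 + (1 : ℝ))) rfl
    v.L2 v.e_L2
    v.rp v.e_rp
    (-v.rp) rfl
    v.qp v.e_qp
    (v.om * v.K) rfl
    (v.c0 + v.om * v.K) rfl).2
    v.ioK v.e_ioK
    v.h1t v.e_h1t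
    (v.om1 * v.t) rfl
    v.h1 v.e_h1
    v.nj2 v.e_nj2
    ((1 : ℝ) - v.u2) rfl
    v.f2 v.e_f2
    v.tu2 v.e_tu2
    (v.c0 + v.R) rfl).2
    ((v.c0 + v.R)⁻¹) rfl
    v.w v.e_w
    (v.w * v.tu) rfl
    (v.w * v.tu * (v.w * v.tu)) rfl
    ((1 : ℝ) - v.nj2) rfl
    (((1 : ℝ) - v.u2) * ((1 : ℝ) - v.nj2)) rfl
    v.x (x_alt v)).2
    v.ei v.e_ei
    ms.hg ms.e_hg
    ((1 / 2) * ms.hg) (congrArg (fun y : ℝ => y * ms.hg) zX_549755813888_0)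
    ((1 : ℝ) - (1 / 2) * ms.hg) rfl
    ((1 : ℝ) - ms.hg) rfl).2
    (((1 : ℝ) - ms.hg)⁻¹) rfl
    ms.lsf ms.e_lsf
    (ms.hg + (1 : ℝ)) rfl
    ms.Qb ms.e_Qb
    (v.om1 * v.op1) rfl
    (v.c0 + v.t) rfl
    (v.om * v.c0) rfl
    (v.om * v.c0 * v.K) rfl
    (2 * (v.om * v.c0 * v.K)) (congrArg (fun y : ℝ => y * (v.om * v.c0 * v.K)) zX_2199023255552_0)
    (v.c2 + 2 * (v.om * v.c0 * v.K)) rfl
    ((v.c0 + v.t) * (v.c2 + 2 * (v.om * v.c0 * v.K))) rfl).2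
    (((v.c0 + v.t) * (v.c2 + 2 * (v.om * v.c0 * v.K)))⁻¹) rfl
    v3.hpt v3.e_hpt
    v3.hp v3.e_hp).2
    (v.SQ⁻¹) rfl
    v3.xp v3.e_xp
    hgp e_hgp
    (v.h + (1 : ℝ)) rfl).2
    v2.ih v2.e_ih
    (v.h * v2.ih) rfl
    v2.rh (v2.e_rh.trans (congrArg (fun y : ℝ => y * (v.h * v2.ih)) zX_2199023255552_0))
    v2.mi v2.e_mi
    v2.hm v2.e_hm
    v2.nih v2.e_nih
    (v2.nih * v2.mi) rfl
    v2.bsum v2.e_bsum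
    v2.eK v2.e_eK
    (5 : ℝ) zX_5497558138880_0).2
    ((5 : ℝ)⁻¹) rfl
    ((1 : ℝ) * (5 : ℝ)⁻¹) rfl
    A e_A
    iA (e_iA.trans (congrArg (fun y : ℝ => y * v.ei) zX_5497558138880_0))
    ((209 / 1024) * v.j) (congrArg (fun y : ℝ => y * v.j) zX_224412041216_0)).2
    (v2.Yp⁻¹) rfl
    v2.lm v2.e_lm
    (A * v.op1) rfl
    m.Xe m.e_Xe
    m.XM m.e_XM
    ((1 : ℝ) - m.XM) rfl).2
    m.iX m.e_iX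
    m.QX m.e_QX
    ((1 : ℝ) - m.QX) rfl).2
    m.iQX m.e_iQX
    ((13 / 4) * v.nj) (congrArg (fun y : ℝ => y * v.nj) zX_3573412790272_0)).2
    (v.u⁻¹) rfl
    ((79 / 256) * v.u⁻¹) (congrArg (fun y : ℝ => y * v.u⁻¹) zX_339302416384_0)
    ((13 / 4) * v.nj + (79 / 256) * v.u⁻¹) rfl
    phu (e_phu.trans (congrArg (fun y : ℝ => y * ((13 / 4) * v.nj + (79 / 256) * v.u⁻¹)) zX_549755813888_0))
    (2 * v.ei) (congrArg (fun y : ℝ => y * v.ei) zX_2199023255552_0)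
    Ei e_Ei
    Eh e_Eh
    (v.h * v.nj) rfl
    ((1 : ℝ) - v.f2) rfl
    (v.h * v.om) rfl
    (2 * (v.h * v.om)) (congrArg (fun y : ℝ => y * (v.h * v.om)) zX_2199023255552_0)
    ((1 : ℝ) - v.f2 - 2 * (v.h * v.om)) rfl
    (v.h * v.nj * (v.h * v.nj)) rfl
    m.N1 m.e_N1
    (m.N1 + (1 : ℝ)) rfl
    m.s (m.e_s.trans (congrArg (fun y : ℝ => y * (m.N1 + (1 : ℝ))) zX_549755813888_0))
    ((1 / 2) * v.R) (congrArg (fun y : ℝ => y * v.R) zX_549755813888_0)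
    (v.j - (1 / 2) * v.R) rfl
    (v.tu2 * ((1 : ℝ) - v.f2)) rfl
    (v.tu2 * ((1 : ℝ) - v.f2) * v.jm) rfl
    ((1 / 8) * (v.tu2 * ((1 : ℝ) - v.f2) * v.jm)) (congrArg (fun y : ℝ => y * (v.tu2 * ((1 : ℝ) - v.f2) * v.jm)) zX_137438953472_0)
    (v.j - (1 / 2) * v.R + (1 / 8) * (v.tu2 * ((1 : ℝ) - v.f2) * v.jm)) rfl
    m.k0 m.e_k0
    m.ls (ls_F G ms m)
    (10923 / 262144 : ℝ) zX_45814382592_0
    (5825 / 4194304 : ℝ) zX_1526988800_0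
    ((1665 / 67108864) * v.x) (congrArg (fun y : ℝ => y * v.x) zX_27279360_0)
    ((5825 / 4194304 : ℝ) - (1665 / 67108864) * v.x) rfl
    (v.x * ((5825 / 4194304 : ℝ) - (1665 / 67108864) * v.x)) rfl
    ((10923 / 262144 : ℝ) - v.x * ((5825 / 4194304 : ℝ) - (1665 / 67108864) * v.x)) rfl
    (v.x * ((10923 / 262144 : ℝ) - v.x * ((5825 / 4194304 : ℝ) - (1665 / 67108864) * v.x))) rfl
    ((1 / 2 : ℝ) - v.x * ((10923 / 262144 : ℝ) - v.x * ((5825 / 4194304 : ℝ) - (1665 / 67108864) * v.x))) rfl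
    (v.x * ((1 / 2 : ℝ) - v.x * ((10923 / 262144 : ℝ) - v.x * ((5825 / 4194304 : ℝ) - (1665 / 67108864) * v.x)))) rfl
    cu e_cu
    xe e_xe
    (v.q * v.q) rfl
    (v.q * v.q + (1 : ℝ)) rfl
    (xe * xe) rfl
    ((43 / 128) * (xe * xe)) (congrArg (fun y : ℝ => y * (xe * xe)) zX_369367187456_0)
    (cu + (43 / 128) * (xe * xe)) rfl
    (v.q * (cu + (43 / 128) * (xe * xe))) rfl
    (2 * (v.q * (cu + (43 / 128) * (xe * xe)))) (congrArg (fun y : ℝ => y * (v.q * (cu + (43 / 128) * (xe * xe)))) zX_2199023255552_0)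
    o2u e_o2u
    (1 / 128 : ℝ) zX_8589934592_0
    (o2u + (1 / 128 : ℝ)) rfl).2
    (Real.log (o2u + (1 / 128 : ℝ))) rfl
    ((1 / 2) * Real.log (o2u + (1 / 128 : ℝ))) (congrArg (fun y : ℝ => y * Real.log (o2u + (1 / 128 : ℝ))) zX_549755813888_0)
    ooo e_ooo
    (v.q * ms.hg) rfl
    Q1 e_Q1
    (Q1 * m.iX) rfl
    (ms.Qb * m.iQX) rfl
    (Q1 * m.iX + ms.Qb * m.iQX) rfl
    (m.XM * (Q1 * m.iX + ms.Qb * m.iQX)) rfl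
    (m.ls + m.XM * (Q1 * m.iX + ms.Qb * m.iQX)) rfl
    m.a0 m.e_a0
    (Q1 * m.XM) rfl
    (Q1 * m.XM * m.iX) rfl
    (m.ls + Q1 * m.XM * m.iX) rfl
    m.l1 m.e_l1
    ((13 / 64) * m.l1) (congrArg (fun y : ℝ => y * m.l1) zX_223338299392_0)
    ((1 / 2 : ℝ) + (13 / 64) * m.l1) rfl
    (m.l1 * ((1 / 2 : ℝ) + (13 / 64) * m.l1)) rfl
    m.Na m.e_Na
    ((13 / 16) * m.a0) (congrArg (fun y : ℝ => y * m.a0) zX_893353197568_0)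
    ((1 : ℝ) + (13 / 16) * m.a0) rfl
    (m.a0 * ((1 : ℝ) + (13 / 16) * m.a0)) rfl
    m.Nb m.e_Nb
    (v2.rh * v2.nih) rfl
    (v2.rh * v2.nih * Ei) rfl
    m.rn m.e_rn
    (m.k0 * m.Na) rfl
    (v.aQ + (1 / 2 : ℝ)) rfl
    (m.rn * (v.aQ + (1 / 2 : ℝ))) rfl
    m.ka m.e_ka
    (v.aQ + (1 : ℝ)) rfl
    m.kb m.e_kb
    (Eh * (v.aQ + (1 : ℝ))) rfl
    (Eh * (v.aQ + (1 : ℝ)) * v2.nih) rfl
    m.lfk m.e_lfk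
    (v.tu * v2.bsum) rfl).2
    (v.aQ⁻¹) rfl
    (v.tu * v2.bsum * v.aQ⁻¹) rfl
    m.bte (m.e_bte.trans (congrArg (fun y : ℝ => y * (v.tu * v2.bsum * v.aQ⁻¹)) zX_549755813888_0))
    (v.h1t * v.u⁻¹) rfl
    (v.h1t * v.u⁻¹ * (1 : ℝ)) rfl
    ms.lsi ms.e_lsi
    (v.om1 * m.bte) rfl
    (m.ka * ms.lsi) rfl
    (m.lfk * phu) rfl
    (m.ka * ms.lsi + m.lfk * phu) rfl
    ((m.ka * ms.lsi + m.lfk * phu) * v.ei) rfl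
    m.src m.e_src
    (m.ka * Q1) rfl
    (m.ka * Q1 * m.iX) rfl
    (m.kb * ms.Qb) rfl
    (m.kb * ms.Qb * m.iQX) rfl
    (m.ka * Q1 * m.iX + m.kb * ms.Qb * m.iQX) rfl
    m.fx m.e_fx
    (v.om1 * m.src) rfl
    (m.Xe * m.fx) rfl
    m.eps m.e_eps
    (v.tu2 * m.eps) rfl
    (v.tu2 * m.eps * v.aQ⁻¹) rfl
    ((1 : ℝ) - v.tu2 * m.eps * v.aQ⁻¹) rfl).2
    m.NN m.e_NN
    m.eN m.e_eN
    m.d m.e_d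
    m.eta m.e_eta
    (m.eta * v.aQ⁻¹) rfl
    ((1 : ℝ) - m.eta * v.aQ⁻¹) rfl
    (v.rhat * ((1 : ℝ) - m.eta * v.aQ⁻¹)) rfl
    m.rl m.e_rl).2
    m.irl m.e_irl
    m.yy m.e_yy
    (v.aQ - m.eta) rfl).2
    c.q0 c.e_q0
    c.zp c.e_zp
    (v.e * c.q0) rfl
    ((1 : ℝ) * m.irl) rfl).2
    (v.R⁻¹) rfl
    ((1 : ℝ) * m.irl * v.R⁻¹) rfl
    ((1 / 2) * c.zp) (congrArg (fun y : ℝ => y * c.zp) zX_549755813888_0)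
    ((1 : ℝ) - (1 / 2) * c.zp) rfl
    ((1 : ℝ) - c.zp) rfl).2
    (((1 : ℝ) - c.zp)⁻¹) rfl
    (((1 : ℝ) - (1 / 2) * c.zp) * ((1 : ℝ) - c.zp)⁻¹) rfl
    ((1 : ℝ) * m.irl * v.R⁻¹ * (((1 : ℝ) - (1 / 2) * c.zp) * ((1 : ℝ) - c.zp)⁻¹)) rfl
    c.C1 c.e_C1
    c.rr c.e_rr
    ((13 / 64) * c.rr) (congrArg (fun y : ℝ => y * c.rr) zX_223338299392_0)
    ((1 / 2 : ℝ) + (13 / 64) * c.rr) rfl
    (c.rr * ((1 / 2 : ℝ) + (13 / 64) * c.rr)) rfl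
    ((1 : ℝ) + c.rr * ((1 / 2 : ℝ) + (13 / 64) * c.rr)) rfl
    (c.C1 * ((1 : ℝ) + c.rr * ((1 / 2 : ℝ) + (13 / 64) * c.rr))) rfl
    (c.C1 * ((1 : ℝ) + c.rr * ((1 / 2 : ℝ) + (13 / 64) * c.rr)) * m.NN) rfl
    c.C c.e_C
    (c.C * v.u) rfl
    c.fbt c.e_fbt
    (c.C * iA) rfl
    (c.C * iA * v.u) rfl).2
    (v.op1⁻¹) rfl
    (c.C * iA * v.u * v.op1⁻¹) rfl
    (v.e * v.om1) rfl
    (v.e * v.om1 * m.bte) rfl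
    (v.e * v.om1 * m.bte + m.ka * ms.lsi) rfl
    (v.e * v.om1 * m.bte + m.ka * ms.lsi + m.lfk * phu) rfl
    c.FX c.e_FX
    (A * v.tu) rfl
    (A * v.tu * v.op1) rfl
    m.XLt m.e_XLt
    (3 : ℝ) zX_3298534883328_0
    m.beta m.e_beta
    (hgp + (1 : ℝ)) rfl
    (hgp * (hgp + (1 : ℝ))) rfl
    (v.rp + hgp * (hgp + (1 : ℝ))) rfl
    f.dri f.e_dri
    (v.qp * (hgp + (1 : ℝ))) rfl
    ((5 / 8) * f.dri) (congrArg (fun y : ℝ => y * f.dri) zX_687194767360_0)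
    ((1 : ℝ) + (5 / 8) * f.dri) rfl
    (f.dri * ((1 : ℝ) + (5 / 8) * f.dri)) rfl
    ((1 : ℝ) + f.dri * ((1 : ℝ) + (5 / 8) * f.dri)) rfl
    f.Qp f.e_Qp
    (v.K + v.t) rfl
    ((v.h + (1 : ℝ)) * (v.K + v.t)) rfl
    ((v.h + (1 : ℝ)) * (v.K + v.t) * m.beta) rfl
    ((1 : ℝ) + (v.h + (1 : ℝ)) * (v.K + v.t) * m.beta) rfl).2
    f.Lam f.e_Lam
    (f.Qp * f.Lam) rfl
    (f.Qp * f.Lam * v.m) rfl
    (v.tu * m.eN) rfl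
    (v.tu * m.eN * v.op1⁻¹) rfl
    ((1 : ℝ) + v.tu * m.eN * v.op1⁻¹) rfl
    (f.Qp * f.Lam * v.m * ((1 : ℝ) + v.tu * m.eN * v.op1⁻¹)) rfl
    f.c1 (c1_C c f)
    f.fb f.e_fb
    (f.fb * m.XM) rfl
    (v.t * m.XLt) rfl
    (c.FX * (v.t * m.XLt)) rfl
    f.r f.e_r
    (f.fb + c.FX) rfl
    ((1 : ℝ) + f.r) rfl
    (f.c1 * ((1 : ℝ) + f.r)) rfl
    (f.fb + c.FX + f.c1 * ((1 : ℝ) + f.r)) rfl
    f.Bm f.e_Bm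
    ((1 / 1024) * v.t) (congrArg (fun y : ℝ => y * v.t) zX_1073741824_0)
    (f.Bm - (1 / 1024) * v.t) rfl
    m.m1 m.e_m1
    (2 : ℝ) zX_2199023255552_0
    (m.m1 + (2 : ℝ)) rfl
    (2 * m.beta) (congrArg (fun y : ℝ => y * m.beta) zX_2199023255552_0)
    (m.m1 + (2 : ℝ) - 2 * m.beta) rfl
    ((v.h + (1 : ℝ)) * (m.m1 + (2 : ℝ) - 2 * m.beta)) rfl
    (m.m1 * (2 * m.beta)) rfl
    (m.m1 * (2 * m.beta) + (1 : ℝ)) rfl).2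
    ((m.m1 * (2 * m.beta) + (1 : ℝ))⁻¹) rfl
    ((v.h + (1 : ℝ)) * (m.m1 + (2 : ℝ) - 2 * m.beta) * (m.m1 * (2 * m.beta) + (1 : ℝ))⁻¹) rfl
    (A * m.fx) rfl
    ((1 / 2) * v2.lm) (congrArg (fun y : ℝ => y * v2.lm) zX_549755813888_0)
    (v.K + (1 / 2) * v2.lm) rfl
    (A * m.fx * (v.K + (1 / 2) * v2.lm)) rfl
    (2 * (A * m.fx * (v.K + (1 / 2) * v2.lm))) (congrArg (fun y : ℝ => y * (A * m.fx * (v.K + (1 / 2) * v2.lm))) zX_2199023255552_0)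
    (m.src + 2 * (A * m.fx * (v.K + (1 / 2) * v2.lm))) rfl
    (2 * (m.src + 2 * (A * m.fx * (v.K + (1 / 2) * v2.lm)))) (congrArg (fun y : ℝ => y * (m.src + 2 * (A * m.fx * (v.K + (1 / 2) * v2.lm)))) zX_2199023255552_0)
    (2 * (m.src + 2 * (A * m.fx * (v.K + (1 / 2) * v2.lm))) * m.NN) rfl
    (v.op1 - v.tu * m.eN) rfl).2
    ((v.op1 - v.tu * m.eN)⁻¹) rfl
    (2 * (m.src + 2 * (A * m.fx * (v.K + (1 / 2) * v2.lm))) * m.NN * (v.op1 - v.tu * m.eN)⁻¹) rfl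
    m.V m.e_V
  change 0 < (1 : ℝ) - m.XM at p_XM
  obtain ⟨p_QX, s1⟩ := s0
  change 0 < (1 : ℝ) - m.QX at p_QX
  obtain ⟨p_e2, s2⟩ := s1
    (2 * (v.tu2 * m.eps)) (congrArg (fun y : ℝ => y * (v.tu2 * m.eps)) zX_2199023255552_0)
    (v.aQ - 2 * (v.tu2 * m.eps)) rfl
  change 0 < v.aQ - 2 * (v.tu2 * m.eps) at p_e2
  obtain ⟨p_rl, s3⟩ := s2
  change 0 < m.rl at p_rl
  obtain ⟨p_hg, s4⟩ := s3
  change 0 < (1 : ℝ) - ms.hg at p_hg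
  obtain ⟨p_hgp, s5⟩ := s4
    ((1 / 2 : ℝ) - hgp) rfl
  change 0 < (1 / 2 : ℝ) - hgp at p_hgp
  obtain ⟨p_l1, s6⟩ := s5
    ((5 / 8) * (1 : ℝ)) (congrArg (fun y : ℝ => y * (1 : ℝ)) zX_687194767360_0)
    ((5 / 8) * (1 : ℝ) - m.l1) rfl
  change 0 < (5 / 8) * (1 : ℝ) - m.l1 at p_l1
  obtain ⟨p_a0, s7⟩ := s6
    ((11 / 32) * (1 : ℝ)) (congrArg (fun y : ℝ => y * (1 : ℝ)) zX_377957122048_0)
    ((11 / 32) * (1 : ℝ) - m.a0) rfl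
  change 0 < (11 / 32) * (1 : ℝ) - m.a0 at p_a0
  obtain ⟨p_S, s8⟩ := s7
  change 0 < v.op1 - v.tu * m.eN at p_S
  obtain ⟨p_dri, s9⟩ := s8
    ((1 / 2 : ℝ) - f.dri) rfl
  change 0 < (1 / 2 : ℝ) - f.dri at p_dri
  obtain ⟨p_zp, s10⟩ := s9
  change 0 < (1 : ℝ) - c.zp at p_zp
  obtain ⟨p_rr, s11⟩ := s10
    ((5 / 8) * (1 : ℝ) - c.rr) rfl
  change 0 < (5 / 8) * (1 : ℝ) - c.rr at p_rr
  obtain ⟨p_V, s12⟩ := (((s11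
    (v2.eK * v2.eK) rfl
    (13 : ℝ) zX_14293651161088_0
    (10 : ℝ) zX_10995116277760_0).2
    ((10 : ℝ)⁻¹) rfl
    ((13 : ℝ) * (10 : ℝ)⁻¹) rfl
    (v2.eK * v2.eK * ((13 : ℝ) * (10 : ℝ)⁻¹)) rfl
    (25 : ℝ) zX_27487790694400_0
    m.C2 m.e_C2
    ((v.h + (1 : ℝ)) * v.op1) rfl
    m.b1 m.e_b1
    (v.t * m.b1) rfl
    ((1 : ℝ) + v.t * m.b1) rfl).2
    (((1 : ℝ) + v.t * m.b1)⁻¹) rfl
    m.gr m.e_gr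
    (2 * v.c0 - v.t) rfl
    m.Gt m.e_Gt
    (2 * v.tu) (congrArg (fun y : ℝ => y * v.tu) zX_2199023255552_0)
    (2 * v.tu + m.eta) rfl
    m.ez m.e_ez
    (m.C2 * m.gr) rfl
    (m.NN * m.ez) rfl
    (v.ei * (m.ka * ms.lsi + m.lfk * phu)) rfl
    (v.u2 * (v.ei * (m.ka * ms.lsi + m.lfk * phu))) rfl
    (v.op1 * A) rfl
    (v.op1 * A * m.fx) rfl
    (v.R * (v.op1 * A * m.fx)) rfl
    (v.u2 * (v.ei * (m.ka * ms.lsi + m.lfk * phu)) + v.R * (v.op1 * A * m.fx)) rfl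
    (v.e * (v.u2 * (v.ei * (m.ka * ms.lsi + m.lfk * phu)) + v.R * (v.op1 * A * m.fx))) rfl
    (m.NN * m.ez * (v.e * (v.u2 * (v.ei * (m.ka * ms.lsi + m.lfk * phu)) + v.R * (v.op1 * A * m.fx)))) rfl
    m.Rg0 m.e_Rg0
    ((1 / 2) * (v.tu * m.eN)) (congrArg (fun y : ℝ => y * (v.tu * m.eN)) zX_549755813888_0)
    ((1 : ℝ) + (1 / 2) * (v.tu * m.eN)) rfl
    (m.NN * ((1 : ℝ) + (1 / 2) * (v.tu * m.eN))) rfl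
    (v.t * v.om1) rfl
    (v.t * v.om1 * v2.bsum) rfl
    (v.op1 * v.aQ) rfl).2
    ((v.op1 * v.aQ)⁻¹) rfl
    (v.t * v.om1 * v2.bsum * (v.op1 * v.aQ)⁻¹) rfl
    (m.NN * ((1 : ℝ) + (1 / 2) * (v.tu * m.eN)) * (v.t * v.om1 * v2.bsum * (v.op1 * v.aQ)⁻¹)) rfl
    m.Rh m.e_Rh
    (v2.lm * m.Rg0) rfl
    ((1 : ℝ) - v2.lm) rfl
    (v.u2 * m.Rh) rfl
    (((1 : ℝ) - v2.lm) * (v.u2 * m.Rh)) rfl
    (m.C2 * (((1 : ℝ) - v2.lm) * (v.u2 * m.Rh))) rfl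
    m.Rg m.e_Rg
  change 0 < m.V at p_V
  obtain ⟨p_B, s13⟩ := s12
  change 0 < f.Bm - (1 / 1024) * v.t at p_B
  obtain ⟨p_Rg, s14⟩ := s13
  change 0 < m.Rg at p_Rg
  obtain ⟨p_Rh, s15⟩ := s14
  change 0 < m.Rh at p_Rh
  have nx := nx_gap G v3 (gam_le_one G.e0 G.κ0 (shf_re' G.κ0 G.s0)) e_hgp p_hgp
  have hga := gam_le_one G.e0 G.κ0 G.s0
  have hn1Q : ‖1 + qq v.e κ (shf κ τ)‖ ≤ Q1 := by
    rw [e_Q1]; exact n1_sharp G (oo_sharp G e_cu e_xe e_o2u e_ooo) (nqb G ms hga).1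
  obtain ⟨lf0, Ex, hφ⟩ := phi_slog G v2 he2 (by norm_num) (by norm_num) (by norm_num) e_phu e_Ei e_Eh
  exact far_C G ⟨p_XM, p_QX, p_e2, p_rl, p_l1, p_a0, p_S, p_V, p_Rg, p_Rh⟩ nx.1 hga hn1Q p_hg D hA hiA hφ c f
    p_dri p_zp p_rr p_B

theorem dom_X10 {κ : ℝ} {τ : ℂ} {R w : ℝ} {v : B1} (D : PtE (3 * 5⁻¹) v.e κ τ R w)
    (G : Geo κ (shf κ τ) v) (v2 : B2 v) (h : RAs Pool.Agent.helper71.FG.Crt.X.prog10 [v.e, v.t, v.u, v.n]) : False := by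
  obtain ⟨p_B, s0⟩ := ((h
    (1 : ℝ) zX_1099511627776_0
    v.tu v.e_tu
    (v.tu * v.n) rfl
    v.h (v.e_h.trans (congrArg (fun y : ℝ => y * (v.tu * v.n)) zX_549755813888_0))
    (v.h * v.h) rfl
    ((1 : ℝ) - v.h * v.h) rfl).2
    v.j (j_eq v)
    (v.h * v.j) rfl
    v.K (v.e_K.trans (congrArg (fun y : ℝ => y * (v.h * v.j)) zX_2199023255552_0))
    v2.Y (v2.e_Y.trans (congrArg (fun y : ℝ => y * v.h) zX_10774999203840_0))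
    ((1 / 2) * (1 : ℝ)) (congrArg (fun y : ℝ => y * (1 : ℝ)) zX_549755813888_0)
    ((341 / 8192) * v2.Y) (congrArg (fun y : ℝ => y * v2.Y) zX_45768245248_0)
    (1365 / 8192 : ℝ) zX_183207198720_0
    ((341 / 8192) * v2.Y + (1365 / 8192 : ℝ)) rfl
    (v2.Y * ((341 / 8192) * v2.Y + (1365 / 8192 : ℝ))) rfl
    ((1 / 2) * (1 : ℝ) + v2.Y * ((341 / 8192) * v2.Y + (1365 / 8192 : ℝ))) rfl
    (v2.Y * ((1 / 2) * (1 : ℝ) + v2.Y * ((341 / 8192) * v2.Y + (1365 / 8192 : ℝ)))) rfl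
    v2.pY (pY_eq v2)
    (v2.Y * v2.pY) rfl
    ((1 / 2) * (v2.Y * v2.pY)) (congrArg (fun y : ℝ => y * (v2.Y * v2.pY)) zX_549755813888_0)
    ((1 : ℝ) + (1 / 2) * (v2.Y * v2.pY)) rfl
    v2.Yp v2.e_Yp
    ((209 / 1024) * v.j) (congrArg (fun y : ℝ => y * v.j) zX_224412041216_0)).2
    (v2.Yp⁻¹) rfl
    v2.lm v2.e_lm
    (v.t - v.K) rfl
    (v.t - v.K - v2.lm) rfl
  change 0 < v.t - v.K - v2.lm at p_B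
  exact dT_core G v2 D p_B

theorem dom_X11 {κ : ℝ} {τ : ℂ} {R w : ℝ} {v : B1} (D : PtE (3 * 5⁻¹) v.e κ τ R w)
    (G : Geo κ (shf κ τ) v) (v2 : B2 v) (heK : v.e * v.K ≤ 129 / 256) (h : RAs Pool.Agent.helper71.FG.Crt.X.prog11 [v.e, v.t, v.u, v.n]) : False := by
  obtain ⟨p_B, s0⟩ := (h
    (1 : ℝ) zX_1099511627776_0
    v.tu v.e_tu
    (v.tu * v.n) rfl
    v.h (v.e_h.trans (congrArg (fun y : ℝ => y * (v.tu * v.n)) zX_549755813888_0))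
    (v.h * v.h) rfl
    ((1 : ℝ) - v.h * v.h) rfl).2
    v.j (j_eq v)
    (v.h * v.j) rfl
    v.K (v.e_K.trans (congrArg (fun y : ℝ => y * (v.h * v.j)) zX_2199023255552_0))
    (v.e * v.K) rfl
    (129 / 256 : ℝ) zX_554050781184_0
    (v.e * v.K - (129 / 256 : ℝ)) rfl
  change 0 < v.e * v.K - (129 / 256 : ℝ) at p_B
  linarith

theorem dom_X12 {κ : ℝ} {τ : ℂ} {R w : ℝ} {v : B1} (D : PtE (3 * 5⁻¹) v.e κ τ R w)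
    (G : Geo κ (shf κ τ) v) (v2 : B2 v) (h : RAs Pool.Agent.helper71.FG.Crt.X.prog12 [v.e, v.t, v.u, v.n]) : False := by
  obtain ⟨p_B, s0⟩ := h
    (1 : ℝ) zX_1099511627776_0
    v.tu v.e_tu
    (v.tu * v.n) rfl
    v.h (v.e_h.trans (congrArg (fun y : ℝ => y * (v.tu * v.n)) zX_549755813888_0))
    (v.u * v.n) rfl
    (v.u * v.n - (1 : ℝ)) rfl
    (v.h * v.h) rfl
    (v.u * v.n - (1 : ℝ) + v.h * v.h) rfl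
  change 0 < v.u * v.n - (1 : ℝ) + v.h * v.h at p_B
  exact dO_core G p_B

theorem dom_X13 {κ : ℝ} {τ : ℂ} {R w : ℝ} {v : B1} (D : PtE (3 * 5⁻¹) v.e κ τ R w)
    (G : Geo κ (shf κ τ) v) (v2 : B2 v) (h : RAs Pool.Agent.helper71.FG.Crt.X.prog13 [v.e, v.t, v.u, v.n]) : False := by
  obtain ⟨p_B, s0⟩ := h
    (1 : ℝ) zX_1099511627776_0
    v.tu v.e_tu
    (v.tu * v.n) rfl
    v.h (v.e_h.trans (congrArg (fun y : ℝ => y * (v.tu * v.n)) zX_549755813888_0))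
    (v.n - (1 : ℝ)) rfl
    (v.h * v.h) rfl
    (v.n - (1 : ℝ) + v.h * v.h) rfl
  change 0 < v.n - (1 : ℝ) + v.h * v.h at p_B
  exact dU_core G p_B

theorem dom_X14 {κ : ℝ} {τ : ℂ} {R w : ℝ} {v : B1} (D : PtE (3 * 5⁻¹) v.e κ τ R w)
    (G : Geo κ (shf κ τ) v) (v2 : B2 v) (hk : Pool.Agent.helper12.RS.kfun v.e κ < 4 ^ (1 / v.e) - 1) (h : RAs Pool.Agent.helper71.FG.Crt.X.prog14 [v.e, v.t, v.u, v.n]) : False := by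
  obtain ⟨rh, e_rh⟩ : ∃ zz : ℝ, zz = 2 * (v.h * (v.h + (1 : ℝ))⁻¹) := ⟨_, rfl⟩
  obtain ⟨lk, e_lk⟩ : ∃ zz : ℝ, zz = Real.log ((1 : ℝ) - rh) := ⟨_, rfl⟩
  obtain ⟨ei, e_ei⟩ : ∃ zz : ℝ, zz = v.e⁻¹ := ⟨_, rfl⟩
  obtain ⟨a, e_a⟩ : ∃ zz : ℝ, zz = (1 : ℝ) - Real.exp ((-363409 / 262144) * ei) := ⟨_, rfl⟩
  obtain ⟨me, e_me⟩ : ∃ zz : ℝ, zz = Real.exp (v.e * lk) := ⟨_, rfl⟩
  obtain ⟨b, e_b⟩ : ∃ zz : ℝ, zz = Real.exp (2 * (Real.log (me + (1 : ℝ)) * ei)) := ⟨_, rfl⟩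
  obtain ⟨p_B, s0⟩ := ((((h
    (1 : ℝ) zX_1099511627776_0
    v.tu v.e_tu
    (v.tu * v.n) rfl
    v.h (v.e_h.trans (congrArg (fun y : ℝ => y * (v.tu * v.n)) zX_549755813888_0))
    (v.h + (1 : ℝ)) rfl).2
    ((v.h + (1 : ℝ))⁻¹) rfl
    (v.h * (v.h + (1 : ℝ))⁻¹) rfl
    rh (e_rh.trans (congrArg (fun y : ℝ => y * (v.h * (v.h + (1 : ℝ))⁻¹)) zX_2199023255552_0))
    ((1 : ℝ) - rh) rfl).2
    lk e_lk).2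
    ei e_ei
    ((-363409 / 262144) * ei) (congrArg (fun y : ℝ => y * ei) zX_0_1524247822336)
    (Real.exp ((-363409 / 262144) * ei)) rfl
    a e_a
    (v.e * lk) rfl
    me e_me
    (me + (1 : ℝ)) rfl).2
    (Real.log (me + (1 : ℝ))) rfl
    (Real.log (me + (1 : ℝ)) * ei) rfl
    (2 * (Real.log (me + (1 : ℝ)) * ei)) (congrArg (fun y : ℝ => y * (Real.log (me + (1 : ℝ)) * ei)) zX_2199023255552_0)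
    b e_b
    (rh * rh) rfl
    (a * b) rfl
    (rh * rh - a * b) rfl
  change 0 < rh * rh - a * b at p_B
  exact absurd hk (not_lt.2 (dk_core G.e0 G.κ0 G.h e_rh e_lk e_ei e_a e_me e_b p_B))

theorem dom_X15 {κ : ℝ} {τ : ℂ} {R w : ℝ} {v : B1} (D : PtE (3 * 5⁻¹) v.e κ τ R w)
    (G : Geo κ (shf κ τ) v) (v2 : B2 v) (h : RAs Pool.Agent.helper71.FG.Crt.X.prog15 [v.e, v.t, v.u, v.n]) : False := by
  obtain ⟨C2, e_C2⟩ : ∃ zz : ℝ, zz = v2.eK * v2.eK * ((13 : ℝ) * (10 : ℝ)⁻¹) + (25 : ℝ) := ⟨_, rfl⟩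
  obtain ⟨Gt, e_Gt⟩ : ∃ zz : ℝ, zz = 2 * v.c0 - v.t - v.K * v.om := ⟨_, rfl⟩
  obtain ⟨et, e_et⟩ : ∃ zz : ℝ, zz = v.e * v.tu := ⟨_, rfl⟩
  obtain ⟨p_B, s0⟩ := ((h
    (1 : ℝ) zX_1099511627776_0
    v.tu v.e_tu
    (v.tu * v.n) rfl
    v.h (v.e_h.trans (congrArg (fun y : ℝ => y * (v.tu * v.n)) zX_549755813888_0))
    v.u2 v.e_u2
    (v.h * v.h) rfl
    v.jm v.e_jm).2
    v.j v.e_j
    (v.h * v.j) rfl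
    v.K (v.e_K.trans (congrArg (fun y : ℝ => y * (v.h * v.j)) zX_2199023255552_0))
    (2 * v.j) (congrArg (fun y : ℝ => y * v.j) zX_2199023255552_0)
    v.c0 v.e_c0
    v.nj v.e_nj
    v.om v.e_om
    v.om1 v.e_om1
    v.op1 v.e_op1
    v.R v.e_R
    v2.eK v2.e_eK
    (v2.eK * v2.eK) rfl
    (13 : ℝ) zX_14293651161088_0
    (10 : ℝ) zX_10995116277760_0).2
    ((10 : ℝ)⁻¹) rfl
    ((13 : ℝ) * (10 : ℝ)⁻¹) rfl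
    (v2.eK * v2.eK * ((13 : ℝ) * (10 : ℝ)⁻¹)) rfl
    (25 : ℝ) zX_27487790694400_0
    C2 e_C2
    (2 * v.c0) (congrArg (fun y : ℝ => y * v.c0) zX_2199023255552_0)
    (2 * v.c0 - v.t) rfl
    (v.K * v.om) rfl
    Gt e_Gt
    et e_et
    (et * et) rfl
    (et * et * v.om1) rfl
    (et * et * v.om1 * v.op1) rfl
    (v.t * v.om1) rfl
    ((1 : ℝ) - v.t * v.om1) rfl
    (C2 * ((1 : ℝ) - v.t * v.om1)) rfl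
    (v.R * Gt) rfl
    ((1 : ℝ) - v.R * Gt) rfl
    (C2 * ((1 : ℝ) - v.t * v.om1) * ((1 : ℝ) - v.R * Gt)) rfl
    (et * et * v.om1 * v.op1 - C2 * ((1 : ℝ) - v.t * v.om1) * ((1 : ℝ) - v.R * Gt)) rfl
  change 0 < et * et * v.om1 * v.op1 - C2 * ((1 : ℝ) - v.t * v.om1) * ((1 : ℝ) - v.R * Gt) at p_B
  exact dR_core G v2 D e_C2 e_Gt e_et p_B

theorem ptX {κ : ℝ} {τ : ℂ} {R w : ℝ} {v : B1} (D : PtE (3 * 5⁻¹) v.e κ τ R w)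
    (G : Geo κ (shf κ τ) v) (he2 : 2 ≤ v.e)
    (hk : Pool.Agent.helper12.RS.kfun v.e κ < 4 ^ (1 / v.e) - 1)
    (heK : v.e * v.K ≤ 129 / 256) (h : ∃ ops ∈ Pool.Agent.helper71.FG.Crt.X.progs, RAs ops [v.e, v.t, v.u, v.n]) :
    FarPt v.e κ (1 - Real.sinh κ / 1024) w (2 * A5 v.e v.K * Real.sinh κ ^ 2) R
      (RE v.e κ (w * R)) τ := by
  obtain ⟨v2⟩ := exB2 v
  obtain ⟨ops, ho, hr⟩ := h
  rw [Pool.Agent.helper71.FG.Crt.X.progs] at ho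
  simp only [List.mem_cons, List.not_mem_nil, or_false] at ho
  rcases ho with rfl | rfl | rfl | rfl | rfl | rfl | rfl | rfl | rfl | rfl | rfl | rfl | rfl | rfl | rfl | rfl
  · exact far_X0 D G v2 he2 hr
  · exact far_X1 D G v2 he2 hr
  · exact far_X2 D G v2 he2 hr
  · exact far_X3 D G v2 he2 hr
  · exact far_X4 D G v2 he2 hr
  · exact far_X5 D G v2 he2 hr
  · exact far_X6 D G v2 he2 hr
  · exact far_X7 D G v2 he2 hr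
  · exact far_X8 D G v2 he2 hr
  · exact far_X9 D G v2 he2 hr
  · exact (dom_X10 D G v2 hr).elim
  · exact (dom_X11 D G v2 heK hr).elim
  · exact (dom_X12 D G v2 hr).elim
  · exact (dom_X13 D G v2 hr).elim
  · exact (dom_X14 D G v2 hk hr).elim
  · exact (dom_X15 D G v2 hr).elim

end Pool.Agent.helper71.FG
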