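import Pool.Agent.helper71.FG.Crt.XP

/-!
Generated certificates.
-/

namespace Pool.Agent.helper71.FG.Crt.X

open Pool.Agent.helper31.IA (Z Op)
open Pool.Agent.helper31.IC

mutual
theorem c20_32_m0_t0 : CovD 0 progs [(25288767438848, 3298534883328), (64424509440, 64424509440), (137438953472, 137438953472), (549755813888, 549755813888)] :=
  Pool.Agent.helper14.QF.covD_F chks_eq (.n 2 (.n 3 (.n 1 (.n 1 (.l 0) (.l 2)) (.l 2)) (.l 1)) (.n 1 (.n 3 (.n 1 (.l 0) (.n 2 (.l 2) (.l 2))) (.l 1)) (.n 2 (.n 3 (.l 2) (.n 1 (.l 1) (.l 1))) (.n 1 (.n 3 (.l 2) (.l 1)) (.n 3 (.l 2) (.n 0 (.l 2) (.l 2)))))))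
    [(25288767438848, 3298534883328), (64424509440, 64424509440), (137438953472, 137438953472), (549755813888, 549755813888)] rfl (by decide +kernel)
theorem c20_32_m0_t1 : CovD 0 progs [(25288767438848, 3298534883328), (193273528320, 64424509440), (137438953472, 137438953472), (274877906944, 274877906944)] :=
  Pool.Agent.helper14.QF.covD_F chks_eq (.n 1 (.n 2 (.n 0 (.l 2) (.l 2)) (.n 2 (.n 2 (.l 2) (.l 2)) (.n 0 (.n 1 (.l 2) (.l 4)) (.n 1 (.l 2) (.l 4))))) (.n 1 (.n 2 (.n 0 (.l 2) (.l 2)) (.n 2 (.n 2 (.l 2) (.l 4)) (.n 2 (.l 4) (.n 0 (.l 4) (.l 4))))) (.n 1 (.n 1 (.n 1 (.n 2 (.l 10) (.n 3 (.l 10) (.n 2 (.l 2) (.l 4)))) (.l 10)) (.l 10)) (.l 10))))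
    [(25288767438848, 3298534883328), (193273528320, 64424509440), (137438953472, 137438953472), (274877906944, 274877906944)] rfl (by decide +kernel)
end
mutual
theorem c20_32_m0_t2 : CovD 0 progs [(25288767438848, 3298534883328), (193273528320, 64424509440), (68719476736, 68719476736), (824633720832, 274877906944)] :=
  Pool.Agent.helper14.QF.covD_F chks_eq (.n 2 (.l 1) (.n 1 (.n 0 (.l 1) (.l 2)) (.n 2 (.l 2) (.n 0 (.l 2) (.l 2)))))
    [(25288767438848, 3298534883328), (193273528320, 64424509440), (68719476736, 68719476736), (824633720832, 274877906944)] rfl (by decide +kernel)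
theorem c20_32_m0_t3 : CovD 0 progs [(25288767438848, 3298534883328), (161061273600, 32212254720), (206158430208, 68719476736), (824633720832, 274877906944)] :=
  Pool.Agent.helper14.QF.covD_F chks_eq (.n 2 (.n 3 (.n 0 (.l 2) (.l 2)) (.l 1)) (.n 0 (.n 1 (.n 0 (.l 2) (.l 2)) (.n 3 (.l 2) (.l 1))) (.n 2 (.n 1 (.l 2) (.l 2)) (.n 3 (.l 2) (.l 2)))))
    [(25288767438848, 3298534883328), (161061273600, 32212254720), (206158430208, 68719476736), (824633720832, 274877906944)] rfl (by decide +kernel)
end
mutual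
theorem c20_32_m0_t4 : CovD 0 progs [(25288767438848, 3298534883328), (225485783040, 32212254720), (206158430208, 68719476736), (824633720832, 274877906944)] :=
  Pool.Agent.helper14.QF.covD_F chks_eq (.n 1 (.n 2 (.n 0 (.n 3 (.l 2) (.l 1)) (.n 2 (.l 2) (.n 0 (.l 2) (.l 2)))) (.n 2 (.n 3 (.l 4) (.n 0 (.l 1) (.l 2))) (.n 0 (.n 3 (.l 2) (.l 2)) (.n 3 (.l 4) (.l 2))))) (.n 1 (.n 1 (.n 0 (.n 2 (.n 3 (.l 2) (.l 1)) (.n 3 (.l 4) (.n 0 (.l 2) (.l 4)))) (.n 2 (.n 2 (.l 2) (.l 4)) (.n 3 (.l 4) (.l 11)))) (.l 10)) (.l 10)))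
    [(25288767438848, 3298534883328), (225485783040, 32212254720), (206158430208, 68719476736), (824633720832, 274877906944)] rfl (by decide +kernel)
theorem c20_32_m0_t9 : CovD 0 progs [(25288767438848, 3298534883328), (64424509440, 64424509440), (309237645312, 34359738368), (549755813888, 549755813888)] :=
  Pool.Agent.helper14.QF.covD_F chks_eq (.n 1 (.n 3 (.n 1 (.l 0) (.l 2)) (.l 1)) (.n 1 (.n 3 (.l 2) (.n 0 (.l 1) (.l 2))) (.n 3 (.n 0 (.l 2) (.l 2)) (.n 3 (.l 2) (.l 1)))))
    [(25288767438848, 3298534883328), (64424509440, 64424509440), (309237645312, 34359738368), (549755813888, 549755813888)] rfl (by decide +kernel)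
end
mutual
theorem c20_32_m0_t10 : CovD 0 progs [(23639499997184, 1649267441664), (193273528320, 64424509440), (309237645312, 34359738368), (549755813888, 549755813888)] :=
  Pool.Agent.helper14.QF.covD_F chks_eq (.n 1 (.n 1 (.n 3 (.l 4) (.n 3 (.l 2) (.l 1))) (.n 1 (.n 3 (.l 4) (.n 3 (.l 2) (.l 1))) (.n 3 (.l 4) (.n 3 (.l 4) (.l 11))))) (.n 1 (.n 3 (.n 2 (.l 4) (.n 0 (.l 4) (.l 4))) (.n 3 (.n 2 (.l 4) (.l 4)) (.l 11))) (.n 3 (.n 3 (.l 10) (.n 2 (.l 4) (.l 4))) (.n 1 (.n 3 (.n 0 (.l 4) (.l 4)) (.l 11)) (.l 10)))))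
    [(23639499997184, 1649267441664), (193273528320, 64424509440), (309237645312, 34359738368), (549755813888, 549755813888)] rfl (by decide +kernel)
theorem c20_32_m0_t11 : CovD 0 progs [(26938034880512, 1649267441664), (193273528320, 64424509440), (309237645312, 34359738368), (549755813888, 549755813888)] :=
  Pool.Agent.helper14.QF.covD_F chks_eq (.n 1 (.n 1 (.n 3 (.l 4) (.n 3 (.l 2) (.l 2))) (.n 3 (.n 1 (.l 4) (.l 4)) (.n 3 (.n 0 (.l 4) (.l 4)) (.l 11)))) (.n 3 (.n 1 (.n 2 (.l 4) (.n 3 (.l 4) (.l 4))) (.n 1 (.n 1 (.n 3 (.l 4) (.l 4)) (.l 10)) (.l 10))) (.n 3 (.n 3 (.n 1 (.l 4) (.l 11)) (.l 11)) (.l 11))))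
    [(26938034880512, 1649267441664), (193273528320, 64424509440), (309237645312, 34359738368), (549755813888, 549755813888)] rfl (by decide +kernel)
end
mutual
theorem c20_32_m0_t14 : CovD 0 progs [(25288767438848, 3298534883328), (64424509440, 64424509440), (377957122048, 34359738368), (549755813888, 549755813888)] :=
  Pool.Agent.helper14.QF.covD_F chks_eq (.n 1 (.n 1 (.l 0) (.n 3 (.l 2) (.l 1))) (.n 1 (.n 3 (.l 2) (.n 0 (.l 2) (.l 2))) (.n 0 (.n 3 (.l 2) (.n 0 (.l 2) (.l 2))) (.n 3 (.l 2) (.n 1 (.l 2) (.l 2))))))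
    [(25288767438848, 3298534883328), (64424509440, 64424509440), (377957122048, 34359738368), (549755813888, 549755813888)] rfl (by decide +kernel)
theorem c20_32_m0_t15 : CovD 0 progs [(25288767438848, 3298534883328), (161061273600, 32212254720), (377957122048, 34359738368), (549755813888, 549755813888)] :=
  Pool.Agent.helper14.QF.covD_F chks_eq (.n 1 (.n 3 (.n 3 (.l 4) (.n 0 (.l 2) (.l 4))) (.n 0 (.n 3 (.l 4) (.n 0 (.l 1) (.l 1))) (.n 3 (.l 4) (.l 11)))) (.n 3 (.n 0 (.n 2 (.l 4) (.l 4)) (.n 2 (.l 4) (.n 0 (.l 4) (.l 4)))) (.n 3 (.n 0 (.n 0 (.l 4) (.l 4)) (.n 0 (.l 4) (.l 4))) (.l 11))))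
    [(25288767438848, 3298534883328), (161061273600, 32212254720), (377957122048, 34359738368), (549755813888, 549755813888)] rfl (by decide +kernel)
end
mutual
theorem c20_32_m0_t16 : CovD 0 progs [(25288767438848, 3298534883328), (225485783040, 32212254720), (377957122048, 34359738368), (549755813888, 549755813888)] :=
  Pool.Agent.helper14.QF.covD_F chks_eq (.n 1 (.n 3 (.n 0 (.n 2 (.n 0 (.l 4) (.l 4)) (.n 3 (.l 4) (.l 4))) (.n 2 (.n 3 (.l 4) (.l 4)) (.n 3 (.l 4) (.n 0 (.l 4) (.l 4))))) (.n 3 (.n 0 (.n 2 (.l 4) (.l 11)) (.l 11)) (.l 11))) (.n 3 (.n 1 (.n 1 (.n 1 (.n 3 (.l 10) (.n 0 (.l 4) (.n 0 (.l 4) (.l 4)))) (.l 10)) (.l 10)) (.l 10)) (.n 3 (.n 0 (.l 11) (.l 11)) (.l 11))))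
    [(25288767438848, 3298534883328), (225485783040, 32212254720), (377957122048, 34359738368), (549755813888, 549755813888)] rfl (by decide +kernel)
theorem c20_32_m0_t20 : CovD 0 progs [(23639499997184, 1649267441664), (64424509440, 64424509440), (446676598784, 34359738368), (549755813888, 549755813888)] :=
  Pool.Agent.helper14.QF.covD_F chks_eq (.n 1 (.n 1 (.l 0) (.n 1 (.l 0) (.l 2))) (.n 1 (.n 3 (.l 2) (.l 2)) (.n 3 (.l 4) (.n 3 (.l 2) (.l 1)))))
    [(23639499997184, 1649267441664), (64424509440, 64424509440), (446676598784, 34359738368), (549755813888, 549755813888)] rfl (by decide +kernel)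
end
mutual
theorem c20_32_m0_t21 : CovD 0 progs [(23639499997184, 1649267441664), (161061273600, 32212254720), (446676598784, 34359738368), (549755813888, 549755813888)] :=
  Pool.Agent.helper14.QF.covD_F chks_eq (.n 1 (.n 3 (.n 0 (.l 4) (.l 4)) (.n 3 (.n 0 (.l 4) (.l 4)) (.l 11))) (.n 3 (.n 3 (.l 4) (.n 0 (.l 4) (.l 4))) (.n 3 (.n 0 (.l 4) (.l 4)) (.l 11))))
    [(23639499997184, 1649267441664), (161061273600, 32212254720), (446676598784, 34359738368), (549755813888, 549755813888)] rfl (by decide +kernel)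
theorem c20_32_m0_t22 : CovD 0 progs [(23639499997184, 1649267441664), (225485783040, 32212254720), (446676598784, 34359738368), (549755813888, 549755813888)] :=
  Pool.Agent.helper14.QF.covD_F chks_eq (.n 1 (.n 3 (.n 1 (.n 3 (.l 4) (.n 0 (.l 4) (.l 4))) (.n 2 (.n 3 (.l 4) (.l 4)) (.n 3 (.l 4) (.l 4)))) (.n 3 (.l 11) (.l 11))) (.n 3 (.n 1 (.n 1 (.n 2 (.n 3 (.l 4) (.l 4)) (.n 3 (.l 4) (.l 4))) (.l 10)) (.l 10)) (.l 11)))
    [(23639499997184, 1649267441664), (225485783040, 32212254720), (446676598784, 34359738368), (549755813888, 549755813888)] rfl (by decide +kernel)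
end
mutual
theorem c20_32_m0_t25 : CovD 0 progs [(26938034880512, 1649267441664), (64424509440, 64424509440), (446676598784, 34359738368), (549755813888, 549755813888)] :=
  Pool.Agent.helper14.QF.covD_F chks_eq (.n 1 (.n 1 (.l 0) (.n 1 (.l 0) (.l 2))) (.n 1 (.n 3 (.l 2) (.l 2)) (.n 3 (.l 4) (.n 3 (.l 2) (.l 2)))))
    [(26938034880512, 1649267441664), (64424509440, 64424509440), (446676598784, 34359738368), (549755813888, 549755813888)] rfl (by decide +kernel)
theorem c20_32_m0_t26 : CovD 0 progs [(26938034880512, 1649267441664), (161061273600, 32212254720), (446676598784, 34359738368), (549755813888, 549755813888)] :=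
  Pool.Agent.helper14.QF.covD_F chks_eq (.n 3 (.n 1 (.n 1 (.l 4) (.l 4)) (.n 2 (.n 3 (.l 4) (.l 4)) (.n 3 (.l 4) (.l 4)))) (.n 3 (.n 1 (.l 4) (.l 11)) (.l 11)))
    [(26938034880512, 1649267441664), (161061273600, 32212254720), (446676598784, 34359738368), (549755813888, 549755813888)] rfl (by decide +kernel)
end
mutual
theorem c20_32_m0_t27 : CovD 0 progs [(26938034880512, 1649267441664), (225485783040, 32212254720), (446676598784, 34359738368), (549755813888, 549755813888)] :=
  Pool.Agent.helper14.QF.covD_F chks_eq (.n 1 (.n 3 (.n 1 (.n 0 (.n 3 (.l 4) (.l 4)) (.n 3 (.l 4) (.l 4))) (.n 2 (.n 3 (.l 4) (.l 4)) (.n 3 (.l 4) (.n 0 (.l 4) (.l 4))))) (.l 11)) (.n 3 (.n 1 (.n 1 (.n 2 (.n 3 (.l 4) (.l 4)) (.n 3 (.l 4) (.n 0 (.l 4) (.l 4)))) (.l 10)) (.l 10)) (.l 11)))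
    [(26938034880512, 1649267441664), (225485783040, 32212254720), (446676598784, 34359738368), (549755813888, 549755813888)] rfl (by decide +kernel)
theorem c20_32_m0_t31 : CovD 0 progs [(23639499997184, 1649267441664), (64424509440, 64424509440), (515396075520, 34359738368), (549755813888, 549755813888)] :=
  Pool.Agent.helper14.QF.covD_F chks_eq (.n 1 (.n 1 (.l 0) (.n 1 (.l 0) (.l 2))) (.n 1 (.n 3 (.l 2) (.l 2)) (.n 3 (.l 4) (.n 3 (.l 4) (.l 0)))))
    [(23639499997184, 1649267441664), (64424509440, 64424509440), (515396075520, 34359738368), (549755813888, 549755813888)] rfl (by decide +kernel)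
end
mutual
theorem c20_32_m0_t32 : CovD 0 progs [(23639499997184, 1649267441664), (161061273600, 32212254720), (515396075520, 34359738368), (549755813888, 549755813888)] :=
  Pool.Agent.helper14.QF.covD_F chks_eq (.n 3 (.n 1 (.n 3 (.l 4) (.l 4)) (.n 2 (.n 3 (.l 4) (.l 4)) (.n 3 (.l 4) (.l 4)))) (.n 3 (.n 1 (.n 0 (.l 4) (.l 4)) (.l 11)) (.l 11)))
    [(23639499997184, 1649267441664), (161061273600, 32212254720), (515396075520, 34359738368), (549755813888, 549755813888)] rfl (by decide +kernel)
theorem c20_32_m0_t33 : CovD 0 progs [(23639499997184, 1649267441664), (225485783040, 32212254720), (515396075520, 34359738368), (549755813888, 549755813888)] :=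
  Pool.Agent.helper14.QF.covD_F chks_eq (.n 1 (.n 3 (.n 2 (.n 0 (.n 3 (.l 4) (.l 4)) (.n 3 (.l 4) (.l 4))) (.n 3 (.n 0 (.l 4) (.l 4)) (.n 3 (.l 4) (.l 11)))) (.l 11)) (.n 3 (.n 1 (.n 1 (.n 3 (.n 0 (.l 4) (.l 4)) (.n 3 (.n 0 (.l 4) (.l 4)) (.l 11))) (.l 10)) (.l 10)) (.l 11)))
    [(23639499997184, 1649267441664), (225485783040, 32212254720), (515396075520, 34359738368), (549755813888, 549755813888)] rfl (by decide +kernel)
end
mutual
theorem c20_32_m0_t36 : CovD 0 progs [(26938034880512, 1649267441664), (64424509440, 64424509440), (515396075520, 34359738368), (549755813888, 549755813888)] :=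
  Pool.Agent.helper14.QF.covD_F chks_eq (.n 1 (.n 1 (.l 0) (.n 1 (.l 0) (.l 2))) (.n 1 (.n 3 (.l 2) (.n 0 (.l 2) (.l 2))) (.n 3 (.n 0 (.l 4) (.l 4)) (.n 3 (.l 4) (.l 4)))))
    [(26938034880512, 1649267441664), (64424509440, 64424509440), (515396075520, 34359738368), (549755813888, 549755813888)] rfl (by decide +kernel)
theorem c20_32_m0_t37 : CovD 0 progs [(26938034880512, 1649267441664), (161061273600, 32212254720), (515396075520, 34359738368), (549755813888, 549755813888)] :=
  Pool.Agent.helper14.QF.covD_F chks_eq (.n 3 (.n 1 (.n 1 (.l 4) (.n 0 (.l 4) (.l 4))) (.n 1 (.n 3 (.l 4) (.l 4)) (.n 3 (.l 4) (.n 0 (.l 4) (.l 4))))) (.n 3 (.n 1 (.n 0 (.l 4) (.l 4)) (.l 11)) (.l 11)))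
    [(26938034880512, 1649267441664), (161061273600, 32212254720), (515396075520, 34359738368), (549755813888, 549755813888)] rfl (by decide +kernel)
theorem c20_32_m0_t38 : CovD 0 progs [(26938034880512, 1649267441664), (225485783040, 32212254720), (515396075520, 34359738368), (549755813888, 549755813888)] :=
  Pool.Agent.helper14.QF.covD_F chks_eq (.n 1 (.n 3 (.n 3 (.n 0 (.n 1 (.l 4) (.l 4)) (.n 1 (.l 4) (.l 4))) (.n 3 (.n 1 (.l 4) (.n 0 (.l 4) (.l 4))) (.l 11))) (.l 11)) (.n 3 (.n 1 (.n 1 (.n 3 (.n 0 (.l 4) (.l 4)) (.n 3 (.n 0 (.l 4) (.l 4)) (.l 11))) (.l 10)) (.l 10)) (.l 11)))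
    [(26938034880512, 1649267441664), (225485783040, 32212254720), (515396075520, 34359738368), (549755813888, 549755813888)] rfl (by decide +kernel)
end
theorem c20_32_m0_t5 : CovD 0 progs [(25288767438848, 3298534883328), (193273528320, 64424509440), (206158430208, 68719476736), (824633720832, 274877906944)] :=
  covD_split 1 (by decide +kernel) c20_32_m0_t3 c20_32_m0_t4
theorem c20_32_m0_t6 : CovD 0 progs [(25288767438848, 3298534883328), (193273528320, 64424509440), (137438953472, 137438953472), (824633720832, 274877906944)] :=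
  covD_split 2 (by decide +kernel) c20_32_m0_t2 c20_32_m0_t5
theorem c20_32_m0_t7 : CovD 0 progs [(25288767438848, 3298534883328), (193273528320, 64424509440), (137438953472, 137438953472), (549755813888, 549755813888)] :=
  covD_split 3 (by decide +kernel) c20_32_m0_t1 c20_32_m0_t6
theorem c20_32_m0_t8 : CovD 0 progs [(25288767438848, 3298534883328), (128849018880, 128849018880), (137438953472, 137438953472), (549755813888, 549755813888)] :=
  covD_split 1 (by decide +kernel) c20_32_m0_t0 c20_32_m0_t7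
theorem c20_32_m0_t12 : CovD 0 progs [(25288767438848, 3298534883328), (193273528320, 64424509440), (309237645312, 34359738368), (549755813888, 549755813888)] :=
  covD_split 0 (by decide +kernel) c20_32_m0_t10 c20_32_m0_t11
theorem c20_32_m0_t13 : CovD 0 progs [(25288767438848, 3298534883328), (128849018880, 128849018880), (309237645312, 34359738368), (549755813888, 549755813888)] :=
  covD_split 1 (by decide +kernel) c20_32_m0_t9 c20_32_m0_t12
theorem c20_32_m0_t17 : CovD 0 progs [(25288767438848, 3298534883328), (193273528320, 64424509440), (377957122048, 34359738368), (549755813888, 549755813888)] :=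
  covD_split 1 (by decide +kernel) c20_32_m0_t15 c20_32_m0_t16
theorem c20_32_m0_t18 : CovD 0 progs [(25288767438848, 3298534883328), (128849018880, 128849018880), (377957122048, 34359738368), (549755813888, 549755813888)] :=
  covD_split 1 (by decide +kernel) c20_32_m0_t14 c20_32_m0_t17
theorem c20_32_m0_t19 : CovD 0 progs [(25288767438848, 3298534883328), (128849018880, 128849018880), (343597383680, 68719476736), (549755813888, 549755813888)] :=
  covD_split 2 (by decide +kernel) c20_32_m0_t13 c20_32_m0_t18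
theorem c20_32_m0_t23 : CovD 0 progs [(23639499997184, 1649267441664), (193273528320, 64424509440), (446676598784, 34359738368), (549755813888, 549755813888)] :=
  covD_split 1 (by decide +kernel) c20_32_m0_t21 c20_32_m0_t22
theorem c20_32_m0_t24 : CovD 0 progs [(23639499997184, 1649267441664), (128849018880, 128849018880), (446676598784, 34359738368), (549755813888, 549755813888)] :=
  covD_split 1 (by decide +kernel) c20_32_m0_t20 c20_32_m0_t23
theorem c20_32_m0_t28 : CovD 0 progs [(26938034880512, 1649267441664), (193273528320, 64424509440), (446676598784, 34359738368), (549755813888, 549755813888)] :=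
  covD_split 1 (by decide +kernel) c20_32_m0_t26 c20_32_m0_t27
theorem c20_32_m0_t29 : CovD 0 progs [(26938034880512, 1649267441664), (128849018880, 128849018880), (446676598784, 34359738368), (549755813888, 549755813888)] :=
  covD_split 1 (by decide +kernel) c20_32_m0_t25 c20_32_m0_t28
theorem c20_32_m0_t30 : CovD 0 progs [(25288767438848, 3298534883328), (128849018880, 128849018880), (446676598784, 34359738368), (549755813888, 549755813888)] :=
  covD_split 0 (by decide +kernel) c20_32_m0_t24 c20_32_m0_t29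
theorem c20_32_m0_t34 : CovD 0 progs [(23639499997184, 1649267441664), (193273528320, 64424509440), (515396075520, 34359738368), (549755813888, 549755813888)] :=
  covD_split 1 (by decide +kernel) c20_32_m0_t32 c20_32_m0_t33
theorem c20_32_m0_t35 : CovD 0 progs [(23639499997184, 1649267441664), (128849018880, 128849018880), (515396075520, 34359738368), (549755813888, 549755813888)] :=
  covD_split 1 (by decide +kernel) c20_32_m0_t31 c20_32_m0_t34
theorem c20_32_m0_t39 : CovD 0 progs [(26938034880512, 1649267441664), (193273528320, 64424509440), (515396075520, 34359738368), (549755813888, 549755813888)] :=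
  covD_split 1 (by decide +kernel) c20_32_m0_t37 c20_32_m0_t38
theorem c20_32_m0_t40 : CovD 0 progs [(26938034880512, 1649267441664), (128849018880, 128849018880), (515396075520, 34359738368), (549755813888, 549755813888)] :=
  covD_split 1 (by decide +kernel) c20_32_m0_t36 c20_32_m0_t39
theorem c20_32_m0_t41 : CovD 0 progs [(25288767438848, 3298534883328), (128849018880, 128849018880), (515396075520, 34359738368), (549755813888, 549755813888)] :=
  covD_split 0 (by decide +kernel) c20_32_m0_t35 c20_32_m0_t40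
theorem c20_32_m0_t42 : CovD 0 progs [(25288767438848, 3298534883328), (128849018880, 128849018880), (481036337152, 68719476736), (549755813888, 549755813888)] :=
  covD_split 2 (by decide +kernel) c20_32_m0_t30 c20_32_m0_t41
theorem c20_32_m0_t43 : CovD 0 progs [(25288767438848, 3298534883328), (128849018880, 128849018880), (412316860416, 137438953472), (549755813888, 549755813888)] :=
  covD_split 2 (by decide +kernel) c20_32_m0_t19 c20_32_m0_t42
theorem c20_32_m0 : CovD 0 progs [(25288767438848, 3298534883328), (128849018880, 128849018880), (274877906944, 274877906944), (549755813888, 549755813888)] :=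
  covD_split 2 (by decide +kernel) c20_32_m0_t8 c20_32_m0_t43

end Pool.Agent.helper71.FG.Crt.X
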