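import Pool.Agent.helper71.FG.Crt.XP

/-!
Generated certificates.
-/

namespace Pool.Agent.helper71.FG.Crt.X

open Pool.Agent.helper31.IA (Z Op)
open Pool.Agent.helper31.IC

mutual
theorem c32_40_m0_t0 : CovD 0 progs [(37383395344384, 2199023255552), (128849018880, 128849018880), (68719476736, 68719476736), (549755813888, 549755813888)] :=
  Pool.Agent.helper14.QF.covD_F chks_eq (.n 1 (.n 1 (.n 3 (.n 1 (.l 0) (.l 2)) (.l 1)) (.n 2 (.l 2) (.n 1 (.l 2) (.l 2)))) (.n 1 (.n 2 (.l 2) (.n 2 (.l 2) (.n 3 (.l 2) (.l 2)))) (.n 2 (.l 2) (.n 2 (.n 2 (.l 2) (.l 4)) (.n 3 (.l 2) (.n 0 (.l 4) (.l 4)))))))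
    [(37383395344384, 2199023255552), (128849018880, 128849018880), (68719476736, 68719476736), (549755813888, 549755813888)] rfl (by decide +kernel)
theorem c32_40_m0_t1 : CovD 0 progs [(37383395344384, 2199023255552), (128849018880, 128849018880), (171798691840, 34359738368), (549755813888, 549755813888)] :=
  Pool.Agent.helper14.QF.covD_F chks_eq (.n 1 (.n 1 (.n 3 (.n 1 (.l 0) (.l 2)) (.l 1)) (.n 3 (.l 2) (.n 1 (.l 1) (.l 2)))) (.n 1 (.n 2 (.n 3 (.l 2) (.n 0 (.l 2) (.l 2))) (.n 3 (.l 4) (.n 1 (.l 2) (.l 4)))) (.n 2 (.n 3 (.l 4) (.n 2 (.l 4) (.l 4))) (.n 3 (.n 1 (.l 4) (.n 0 (.l 4) (.l 4))) (.n 3 (.n 0 (.l 4) (.l 4)) (.l 4))))))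
    [(37383395344384, 2199023255552), (128849018880, 128849018880), (171798691840, 34359738368), (549755813888, 549755813888)] rfl (by decide +kernel)
end
mutual
theorem c32_40_m0_t2 : CovD 0 progs [(37383395344384, 2199023255552), (128849018880, 128849018880), (223338299392, 17179869184), (549755813888, 549755813888)] :=
  Pool.Agent.helper14.QF.covD_F chks_eq (.n 1 (.n 1 (.n 1 (.l 0) (.l 2)) (.n 3 (.l 2) (.l 2))) (.n 1 (.n 3 (.n 0 (.l 4) (.l 4)) (.n 3 (.l 4) (.l 4))) (.n 3 (.n 1 (.n 0 (.l 4) (.l 4)) (.n 1 (.n 0 (.l 4) (.l 4)) (.l 10))) (.n 3 (.n 1 (.l 4) (.l 11)) (.l 11)))))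
    [(37383395344384, 2199023255552), (128849018880, 128849018880), (223338299392, 17179869184), (549755813888, 549755813888)] rfl (by decide +kernel)
theorem c32_40_m0_t3 : CovD 0 progs [(37383395344384, 2199023255552), (128849018880, 128849018880), (257698037760, 17179869184), (549755813888, 549755813888)] :=
  Pool.Agent.helper14.QF.covD_F chks_eq (.n 1 (.n 1 (.n 1 (.l 0) (.l 2)) (.n 1 (.l 2) (.n 3 (.l 2) (.l 2)))) (.n 1 (.n 1 (.n 3 (.l 2) (.l 4)) (.n 3 (.l 4) (.n 3 (.l 4) (.l 2)))) (.n 1 (.n 3 (.n 3 (.l 4) (.l 4)) (.n 3 (.l 4) (.l 4))) (.n 1 (.n 1 (.n 3 (.n 3 (.l 4) (.l 4)) (.l 11)) (.l 10)) (.l 10)))))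
    [(37383395344384, 2199023255552), (128849018880, 128849018880), (257698037760, 17179869184), (549755813888, 549755813888)] rfl (by decide +kernel)
end
mutual
theorem c32_40_m0_t7 : CovD 0 progs [(37383395344384, 2199023255552), (128849018880, 128849018880), (292057776128, 17179869184), (549755813888, 549755813888)] :=
  Pool.Agent.helper14.QF.covD_F chks_eq (.n 1 (.n 1 (.n 1 (.l 0) (.l 2)) (.n 1 (.n 0 (.l 2) (.l 2)) (.n 3 (.l 2) (.l 2)))) (.n 1 (.n 3 (.n 1 (.l 4) (.n 3 (.l 4) (.l 4))) (.n 3 (.n 1 (.l 2) (.l 4)) (.l 11))) (.n 1 (.n 0 (.n 3 (.n 3 (.l 4) (.l 4)) (.l 11)) (.n 3 (.n 1 (.n 2 (.l 4) (.l 4)) (.n 3 (.l 4) (.l 4))) (.l 11))) (.n 3 (.n 3 (.l 10) (.n 3 (.l 10) (.l 11))) (.l 11)))))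
    [(37383395344384, 2199023255552), (128849018880, 128849018880), (292057776128, 17179869184), (549755813888, 549755813888)] rfl (by decide +kernel)
theorem c32_40_m0_t8 : CovD 0 progs [(37383395344384, 2199023255552), (64424509440, 64424509440), (326417514496, 17179869184), (549755813888, 549755813888)] :=
  Pool.Agent.helper14.QF.covD_F chks_eq (.n 1 (.n 1 (.l 0) (.l 2)) (.n 1 (.n 1 (.l 2) (.l 2)) (.n 3 (.l 2) (.l 4))))
    [(37383395344384, 2199023255552), (64424509440, 64424509440), (326417514496, 17179869184), (549755813888, 549755813888)] rfl (by decide +kernel)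
end
mutual
theorem c32_40_m0_t9 : CovD 0 progs [(37383395344384, 2199023255552), (193273528320, 64424509440), (326417514496, 17179869184), (549755813888, 549755813888)] :=
  Pool.Agent.helper14.QF.covD_F chks_eq (.n 1 (.n 3 (.n 1 (.l 4) (.n 1 (.l 4) (.n 3 (.l 4) (.l 4)))) (.n 3 (.n 1 (.l 4) (.l 4)) (.l 11))) (.n 1 (.n 1 (.n 3 (.n 3 (.l 4) (.n 0 (.l 4) (.l 4))) (.l 11)) (.n 3 (.n 0 (.n 3 (.l 4) (.l 4)) (.n 1 (.n 3 (.l 4) (.l 4)) (.n 3 (.l 4) (.l 4)))) (.l 11))) (.n 3 (.n 3 (.l 10) (.n 3 (.n 3 (.l 10) (.l 11)) (.l 11))) (.l 11))))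
    [(37383395344384, 2199023255552), (193273528320, 64424509440), (326417514496, 17179869184), (549755813888, 549755813888)] rfl (by decide +kernel)
theorem c32_40_m0_t12 : CovD 0 progs [(36283883716608, 1099511627776), (64424509440, 64424509440), (377957122048, 34359738368), (549755813888, 549755813888)] :=
  Pool.Agent.helper14.QF.covD_F chks_eq (.n 1 (.n 1 (.l 0) (.n 0 (.l 2) (.l 2))) (.n 1 (.n 3 (.l 2) (.l 2)) (.n 3 (.l 4) (.n 1 (.l 2) (.l 4)))))
    [(36283883716608, 1099511627776), (64424509440, 64424509440), (377957122048, 34359738368), (549755813888, 549755813888)] rfl (by decide +kernel)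
end
mutual
theorem c32_40_m0_t13 : CovD 0 progs [(36283883716608, 1099511627776), (161061273600, 32212254720), (377957122048, 34359738368), (549755813888, 549755813888)] :=
  Pool.Agent.helper14.QF.covD_F chks_eq (.n 3 (.n 1 (.n 3 (.l 4) (.l 4)) (.n 2 (.n 3 (.l 4) (.l 4)) (.n 3 (.l 4) (.n 0 (.l 4) (.l 4))))) (.n 3 (.n 1 (.l 4) (.l 11)) (.l 11)))
    [(36283883716608, 1099511627776), (161061273600, 32212254720), (377957122048, 34359738368), (549755813888, 549755813888)] rfl (by decide +kernel)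
theorem c32_40_m0_t14 : CovD 0 progs [(36283883716608, 1099511627776), (225485783040, 32212254720), (377957122048, 34359738368), (549755813888, 549755813888)] :=
  Pool.Agent.helper14.QF.covD_F chks_eq (.n 1 (.n 1 (.n 3 (.n 2 (.n 3 (.l 4) (.l 4)) (.n 3 (.l 4) (.l 4))) (.l 11)) (.n 3 (.n 3 (.n 0 (.n 2 (.l 4) (.l 4)) (.n 2 (.l 4) (.l 4))) (.n 3 (.n 2 (.l 4) (.l 4)) (.l 11))) (.l 11))) (.n 3 (.n 1 (.n 1 (.n 1 (.n 3 (.l 10) (.n 2 (.l 4) (.l 11))) (.l 10)) (.l 10)) (.l 10)) (.l 11)))
    [(36283883716608, 1099511627776), (225485783040, 32212254720), (377957122048, 34359738368), (549755813888, 549755813888)] rfl (by decide +kernel)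
end
mutual
theorem c32_40_m0_t17 : CovD 0 progs [(38482906972160, 1099511627776), (64424509440, 64424509440), (377957122048, 34359738368), (549755813888, 549755813888)] :=
  Pool.Agent.helper14.QF.covD_F chks_eq (.n 1 (.n 1 (.l 0) (.n 0 (.l 2) (.l 2))) (.n 1 (.n 3 (.l 2) (.l 2)) (.n 3 (.l 4) (.n 1 (.l 2) (.l 4)))))
    [(38482906972160, 1099511627776), (64424509440, 64424509440), (377957122048, 34359738368), (549755813888, 549755813888)] rfl (by decide +kernel)
theorem c32_40_m0_t18 : CovD 0 progs [(38482906972160, 1099511627776), (193273528320, 64424509440), (360777252864, 17179869184), (549755813888, 549755813888)] :=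
  Pool.Agent.helper14.QF.covD_F chks_eq (.n 1 (.n 1 (.n 1 (.n 3 (.l 2) (.l 4)) (.n 3 (.l 4) (.l 11))) (.n 3 (.n 3 (.l 4) (.n 0 (.l 4) (.l 4))) (.l 11))) (.n 3 (.n 3 (.n 1 (.n 1 (.l 4) (.n 2 (.l 4) (.l 4))) (.l 10)) (.n 3 (.n 1 (.n 1 (.l 4) (.l 4)) (.n 1 (.l 11) (.l 10))) (.l 11))) (.l 11)))
    [(38482906972160, 1099511627776), (193273528320, 64424509440), (360777252864, 17179869184), (549755813888, 549755813888)] rfl (by decide +kernel)
end
mutual
theorem c32_40_m0_t19 : CovD 0 progs [(38482906972160, 1099511627776), (193273528320, 64424509440), (395136991232, 17179869184), (549755813888, 549755813888)] :=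
  Pool.Agent.helper14.QF.covD_F chks_eq (.n 1 (.n 1 (.n 3 (.n 1 (.l 4) (.l 4)) (.l 11)) (.n 3 (.n 1 (.n 2 (.l 4) (.l 4)) (.n 3 (.l 4) (.l 4))) (.l 11))) (.n 3 (.n 1 (.n 3 (.n 1 (.l 4) (.n 1 (.l 4) (.l 4))) (.n 3 (.n 1 (.l 4) (.l 4)) (.l 11))) (.n 1 (.n 3 (.l 10) (.l 11)) (.l 10))) (.l 11)))
    [(38482906972160, 1099511627776), (193273528320, 64424509440), (395136991232, 17179869184), (549755813888, 549755813888)] rfl (by decide +kernel)
theorem c32_40_m0_t24 : CovD 0 progs [(37383395344384, 2199023255552), (64424509440, 64424509440), (446676598784, 34359738368), (549755813888, 549755813888)] :=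
  Pool.Agent.helper14.QF.covD_F chks_eq (.n 1 (.n 1 (.l 0) (.n 1 (.l 2) (.l 2))) (.n 1 (.n 3 (.l 4) (.n 1 (.l 2) (.l 2))) (.n 3 (.n 1 (.l 4) (.n 0 (.l 4) (.l 4))) (.n 3 (.n 0 (.l 4) (.l 4)) (.l 4)))))
    [(37383395344384, 2199023255552), (64424509440, 64424509440), (446676598784, 34359738368), (549755813888, 549755813888)] rfl (by decide +kernel)
end
mutual
theorem c32_40_m0_t25 : CovD 0 progs [(37383395344384, 2199023255552), (193273528320, 64424509440), (429496729600, 17179869184), (549755813888, 549755813888)] :=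
  Pool.Agent.helper14.QF.covD_F chks_eq (.n 1 (.n 1 (.n 1 (.n 3 (.l 4) (.l 11)) (.n 3 (.n 3 (.l 4) (.l 4)) (.l 11))) (.n 3 (.n 1 (.n 3 (.l 4) (.l 4)) (.n 0 (.n 3 (.l 4) (.l 4)) (.n 3 (.l 4) (.l 4)))) (.l 11))) (.n 3 (.n 3 (.n 1 (.n 0 (.n 1 (.l 4) (.n 0 (.l 4) (.l 4))) (.n 1 (.l 4) (.l 6))) (.n 3 (.l 10) (.l 10))) (.n 3 (.n 1 (.n 1 (.l 4) (.l 11)) (.l 11)) (.l 11))) (.l 11)))
    [(37383395344384, 2199023255552), (193273528320, 64424509440), (429496729600, 17179869184), (549755813888, 549755813888)] rfl (by decide +kernel)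
theorem c32_40_m0_t26 : CovD 0 progs [(37383395344384, 2199023255552), (193273528320, 64424509440), (463856467968, 17179869184), (549755813888, 549755813888)] :=
  Pool.Agent.helper14.QF.covD_F chks_eq (.n 3 (.n 1 (.n 1 (.n 0 (.n 1 (.l 4) (.l 4)) (.n 3 (.l 4) (.l 4))) (.n 1 (.n 3 (.l 4) (.l 4)) (.n 3 (.l 4) (.n 0 (.l 4) (.l 4))))) (.n 1 (.n 0 (.n 1 (.n 3 (.l 4) (.l 4)) (.l 6)) (.n 1 (.l 6) (.l 6))) (.n 1 (.l 6) (.l 6)))) (.n 1 (.n 1 (.l 11) (.l 11)) (.l 11)))
    [(37383395344384, 2199023255552), (193273528320, 64424509440), (463856467968, 17179869184), (549755813888, 549755813888)] rfl (by decide +kernel)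
end
mutual
theorem c32_40_m0_t29 : CovD 0 progs [(37383395344384, 2199023255552), (64424509440, 64424509440), (515396075520, 34359738368), (549755813888, 549755813888)] :=
  Pool.Agent.helper14.QF.covD_F chks_eq (.n 1 (.n 1 (.n 1 (.l 0) (.l 0)) (.n 3 (.l 2) (.l 2))) (.n 1 (.n 1 (.n 3 (.l 2) (.l 2)) (.n 3 (.l 4) (.l 4))) (.n 1 (.n 3 (.l 4) (.n 0 (.l 4) (.l 4))) (.n 3 (.n 0 (.l 4) (.l 4)) (.l 11)))))
    [(37383395344384, 2199023255552), (64424509440, 64424509440), (515396075520, 34359738368), (549755813888, 549755813888)] rfl (by decide +kernel)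
theorem c32_40_m0_t30 : CovD 0 progs [(37383395344384, 2199023255552), (193273528320, 64424509440), (515396075520, 34359738368), (549755813888, 549755813888)] :=
  Pool.Agent.helper14.QF.covD_F chks_eq (.n 1 (.n 1 (.n 3 (.n 1 (.n 3 (.l 4) (.l 4)) (.n 3 (.l 4) (.n 0 (.l 4) (.l 4)))) (.l 11)) (.n 3 (.n 1 (.n 0 (.n 3 (.l 4) (.l 4)) (.n 2 (.l 6) (.l 6))) (.n 2 (.n 2 (.l 6) (.l 6)) (.l 6))) (.l 11))) (.n 3 (.n 1 (.n 2 (.n 1 (.l 6) (.l 6)) (.l 6)) (.n 2 (.l 6) (.l 6))) (.l 11)))
    [(37383395344384, 2199023255552), (193273528320, 64424509440), (515396075520, 34359738368), (549755813888, 549755813888)] rfl (by decide +kernel)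
end
mutual
theorem c32_40_m0_t35 : CovD 0 progs [(37383395344384, 2199023255552), (64424509440, 64424509440), (584115552256, 34359738368), (549755813888, 549755813888)] :=
  Pool.Agent.helper14.QF.covD_F chks_eq (.n 1 (.n 1 (.n 1 (.l 0) (.l 0)) (.n 1 (.l 2) (.n 3 (.l 2) (.l 0)))) (.n 1 (.n 1 (.n 3 (.l 2) (.l 2)) (.n 3 (.l 4) (.l 4))) (.n 3 (.n 1 (.l 4) (.n 0 (.l 4) (.l 4))) (.n 3 (.l 11) (.l 11)))))
    [(37383395344384, 2199023255552), (64424509440, 64424509440), (584115552256, 34359738368), (549755813888, 549755813888)] rfl (by decide +kernel)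
theorem c32_40_m0_t36 : CovD 0 progs [(37383395344384, 2199023255552), (193273528320, 64424509440), (584115552256, 34359738368), (549755813888, 549755813888)] :=
  Pool.Agent.helper14.QF.covD_F chks_eq (.n 1 (.n 1 (.n 3 (.n 1 (.n 3 (.l 4) (.l 4)) (.n 2 (.l 6) (.l 6))) (.l 11)) (.n 3 (.n 1 (.n 0 (.l 6) (.l 6)) (.l 6)) (.l 11))) (.n 3 (.n 1 (.n 0 (.l 6) (.l 6)) (.l 6)) (.l 11)))
    [(37383395344384, 2199023255552), (193273528320, 64424509440), (584115552256, 34359738368), (549755813888, 549755813888)] rfl (by decide +kernel)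
end
mutual
theorem c32_40_m0_t38 : CovD 0 progs [(37383395344384, 2199023255552), (128849018880, 128849018880), (652835028992, 34359738368), (549755813888, 549755813888)] :=
  Pool.Agent.helper14.QF.covD_F chks_eq (.n 1 (.n 1 (.n 1 (.n 1 (.l 0) (.l 0)) (.n 1 (.l 2) (.n 3 (.l 2) (.l 0)))) (.n 1 (.n 3 (.n 1 (.l 4) (.l 4)) (.n 3 (.l 4) (.l 3))) (.n 1 (.n 3 (.l 4) (.l 11)) (.n 3 (.n 0 (.l 4) (.l 4)) (.l 11))))) (.n 1 (.n 1 (.n 3 (.n 1 (.n 0 (.l 4) (.l 4)) (.l 6)) (.l 11)) (.n 3 (.l 6) (.l 11))) (.n 3 (.n 1 (.l 6) (.l 6)) (.l 11))))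
    [(37383395344384, 2199023255552), (128849018880, 128849018880), (652835028992, 34359738368), (549755813888, 549755813888)] rfl (by decide +kernel)
theorem c32_40_m0_t40 : CovD 0 progs [(37383395344384, 2199023255552), (128849018880, 128849018880), (721554505728, 34359738368), (549755813888, 549755813888)] :=
  Pool.Agent.helper14.QF.covD_F chks_eq (.n 1 (.n 1 (.n 1 (.n 1 (.l 0) (.l 0)) (.n 1 (.n 0 (.l 2) (.l 2)) (.n 3 (.l 2) (.l 0)))) (.n 1 (.n 1 (.n 3 (.l 4) (.l 3)) (.n 3 (.l 4) (.l 4))) (.n 3 (.n 1 (.l 4) (.l 4)) (.l 11)))) (.n 1 (.n 3 (.n 1 (.n 0 (.l 6) (.l 6)) (.l 6)) (.l 11)) (.n 3 (.n 1 (.l 6) (.l 6)) (.l 11))))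
    [(37383395344384, 2199023255552), (128849018880, 128849018880), (721554505728, 34359738368), (549755813888, 549755813888)] rfl (by decide +kernel)
end
mutual
theorem c32_40_m0_t41 : CovD 0 progs [(37383395344384, 2199023255552), (128849018880, 128849018880), (790273982464, 34359738368), (549755813888, 549755813888)] :=
  Pool.Agent.helper14.QF.covD_F chks_eq (.n 1 (.n 1 (.n 1 (.n 1 (.l 0) (.l 0)) (.n 1 (.n 1 (.l 2) (.l 2)) (.n 3 (.l 4) (.l 0)))) (.n 1 (.n 1 (.n 3 (.l 4) (.l 3)) (.n 3 (.l 4) (.l 4))) (.n 3 (.n 0 (.l 4) (.l 4)) (.l 11)))) (.n 1 (.n 3 (.n 1 (.l 6) (.l 6)) (.l 11)) (.n 3 (.n 1 (.l 5) (.l 6)) (.l 11))))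
    [(37383395344384, 2199023255552), (128849018880, 128849018880), (790273982464, 34359738368), (549755813888, 549755813888)] rfl (by decide +kernel)
theorem c32_40_m0_t44 : CovD 0 progs [(37383395344384, 2199023255552), (128849018880, 128849018880), (858993459200, 34359738368), (549755813888, 549755813888)] :=
  Pool.Agent.helper14.QF.covD_F chks_eq (.n 1 (.n 1 (.n 1 (.n 1 (.l 0) (.l 0)) (.n 1 (.n 1 (.l 2) (.l 2)) (.n 3 (.l 4) (.l 3)))) (.n 1 (.n 1 (.n 3 (.l 4) (.l 3)) (.n 3 (.l 4) (.l 4))) (.n 3 (.l 6) (.l 11)))) (.n 1 (.n 3 (.n 1 (.l 5) (.l 5)) (.l 11)) (.n 3 (.n 1 (.l 5) (.n 0 (.l 5) (.l 5))) (.l 11))))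
    [(37383395344384, 2199023255552), (128849018880, 128849018880), (858993459200, 34359738368), (549755813888, 549755813888)] rfl (by decide +kernel)
end
mutual
theorem c32_40_m0_t45 : CovD 0 progs [(37383395344384, 2199023255552), (128849018880, 128849018880), (910533066752, 17179869184), (549755813888, 549755813888)] :=
  Pool.Agent.helper14.QF.covD_F chks_eq (.n 1 (.n 1 (.n 1 (.n 1 (.l 0) (.l 0)) (.n 3 (.l 4) (.n 0 (.l 3) (.l 3)))) (.n 1 (.n 3 (.l 4) (.n 0 (.l 3) (.l 3))) (.n 3 (.l 4) (.l 4)))) (.n 1 (.n 3 (.n 1 (.l 4) (.l 4)) (.l 11)) (.n 3 (.n 1 (.l 4) (.l 5)) (.l 11))))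
    [(37383395344384, 2199023255552), (128849018880, 128849018880), (910533066752, 17179869184), (549755813888, 549755813888)] rfl (by decide +kernel)
theorem c32_40_m0_t46 : CovD 0 progs [(37383395344384, 2199023255552), (128849018880, 128849018880), (944892805120, 17179869184), (549755813888, 549755813888)] :=
  Pool.Agent.helper14.QF.covD_F chks_eq (.n 1 (.n 1 (.n 1 (.n 1 (.l 0) (.l 0)) (.n 3 (.l 4) (.n 0 (.l 3) (.l 3)))) (.n 1 (.n 3 (.l 4) (.l 4)) (.n 3 (.l 4) (.l 4)))) (.n 1 (.n 3 (.n 1 (.l 4) (.l 4)) (.l 11)) (.n 3 (.n 1 (.l 4) (.n 0 (.l 5) (.l 5))) (.l 11))))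
    [(37383395344384, 2199023255552), (128849018880, 128849018880), (944892805120, 17179869184), (549755813888, 549755813888)] rfl (by decide +kernel)
end
mutual
theorem c32_40_m0_t49 : CovD 0 progs [(37383395344384, 2199023255552), (128849018880, 128849018880), (996432412672, 34359738368), (549755813888, 549755813888)] :=
  Pool.Agent.helper14.QF.covD_F chks_eq (.n 1 (.n 1 (.n 1 (.n 1 (.l 0) (.n 0 (.l 0) (.l 0))) (.n 1 (.n 1 (.l 2) (.l 4)) (.n 1 (.l 4) (.l 4)))) (.n 1 (.n 3 (.l 4) (.n 0 (.l 4) (.l 4))) (.n 3 (.l 4) (.l 11)))) (.n 1 (.n 3 (.n 1 (.l 4) (.n 0 (.l 4) (.l 4))) (.l 11)) (.n 3 (.n 1 (.n 1 (.l 4) (.l 4)) (.n 3 (.l 15) (.l 11))) (.l 11))))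
    [(37383395344384, 2199023255552), (128849018880, 128849018880), (996432412672, 34359738368), (549755813888, 549755813888)] rfl (by decide +kernel)
theorem c32_40_m0_t50 : CovD 0 progs [(37383395344384, 2199023255552), (128849018880, 128849018880), (1065151889408, 34359738368), (549755813888, 549755813888)] :=
  Pool.Agent.helper14.QF.covD_F chks_eq (.n 1 (.n 1 (.n 1 (.n 1 (.l 0) (.n 1 (.l 0) (.l 0))) (.n 0 (.n 1 (.l 4) (.l 4)) (.n 1 (.l 4) (.l 4)))) (.n 1 (.n 3 (.l 4) (.l 4)) (.n 3 (.l 4) (.l 11)))) (.n 1 (.n 1 (.n 3 (.n 0 (.l 4) (.l 4)) (.l 11)) (.n 3 (.n 1 (.l 4) (.l 4)) (.l 11))) (.n 3 (.n 3 (.n 0 (.l 15) (.l 15)) (.l 11)) (.l 11))))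
    [(37383395344384, 2199023255552), (128849018880, 128849018880), (1065151889408, 34359738368), (549755813888, 549755813888)] rfl (by decide +kernel)
end
theorem c32_40_m0_t4 : CovD 0 progs [(37383395344384, 2199023255552), (128849018880, 128849018880), (240518168576, 34359738368), (549755813888, 549755813888)] :=
  covD_split 2 (by decide +kernel) c32_40_m0_t2 c32_40_m0_t3
theorem c32_40_m0_t5 : CovD 0 progs [(37383395344384, 2199023255552), (128849018880, 128849018880), (206158430208, 68719476736), (549755813888, 549755813888)] :=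
  covD_split 2 (by decide +kernel) c32_40_m0_t1 c32_40_m0_t4
theorem c32_40_m0_t6 : CovD 0 progs [(37383395344384, 2199023255552), (128849018880, 128849018880), (137438953472, 137438953472), (549755813888, 549755813888)] :=
  covD_split 2 (by decide +kernel) c32_40_m0_t0 c32_40_m0_t5
theorem c32_40_m0_t10 : CovD 0 progs [(37383395344384, 2199023255552), (128849018880, 128849018880), (326417514496, 17179869184), (549755813888, 549755813888)] :=
  covD_split 1 (by decide +kernel) c32_40_m0_t8 c32_40_m0_t9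
theorem c32_40_m0_t11 : CovD 0 progs [(37383395344384, 2199023255552), (128849018880, 128849018880), (309237645312, 34359738368), (549755813888, 549755813888)] :=
  covD_split 2 (by decide +kernel) c32_40_m0_t7 c32_40_m0_t10
theorem c32_40_m0_t15 : CovD 0 progs [(36283883716608, 1099511627776), (193273528320, 64424509440), (377957122048, 34359738368), (549755813888, 549755813888)] :=
  covD_split 1 (by decide +kernel) c32_40_m0_t13 c32_40_m0_t14
theorem c32_40_m0_t16 : CovD 0 progs [(36283883716608, 1099511627776), (128849018880, 128849018880), (377957122048, 34359738368), (549755813888, 549755813888)] :=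
  covD_split 1 (by decide +kernel) c32_40_m0_t12 c32_40_m0_t15
theorem c32_40_m0_t20 : CovD 0 progs [(38482906972160, 1099511627776), (193273528320, 64424509440), (377957122048, 34359738368), (549755813888, 549755813888)] :=
  covD_split 2 (by decide +kernel) c32_40_m0_t18 c32_40_m0_t19
theorem c32_40_m0_t21 : CovD 0 progs [(38482906972160, 1099511627776), (128849018880, 128849018880), (377957122048, 34359738368), (549755813888, 549755813888)] :=
  covD_split 1 (by decide +kernel) c32_40_m0_t17 c32_40_m0_t20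
theorem c32_40_m0_t22 : CovD 0 progs [(37383395344384, 2199023255552), (128849018880, 128849018880), (377957122048, 34359738368), (549755813888, 549755813888)] :=
  covD_split 0 (by decide +kernel) c32_40_m0_t16 c32_40_m0_t21
theorem c32_40_m0_t23 : CovD 0 progs [(37383395344384, 2199023255552), (128849018880, 128849018880), (343597383680, 68719476736), (549755813888, 549755813888)] :=
  covD_split 2 (by decide +kernel) c32_40_m0_t11 c32_40_m0_t22
theorem c32_40_m0_t27 : CovD 0 progs [(37383395344384, 2199023255552), (193273528320, 64424509440), (446676598784, 34359738368), (549755813888, 549755813888)] :=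
  covD_split 2 (by decide +kernel) c32_40_m0_t25 c32_40_m0_t26
theorem c32_40_m0_t28 : CovD 0 progs [(37383395344384, 2199023255552), (128849018880, 128849018880), (446676598784, 34359738368), (549755813888, 549755813888)] :=
  covD_split 1 (by decide +kernel) c32_40_m0_t24 c32_40_m0_t27
theorem c32_40_m0_t31 : CovD 0 progs [(37383395344384, 2199023255552), (128849018880, 128849018880), (515396075520, 34359738368), (549755813888, 549755813888)] :=
  covD_split 1 (by decide +kernel) c32_40_m0_t29 c32_40_m0_t30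
theorem c32_40_m0_t32 : CovD 0 progs [(37383395344384, 2199023255552), (128849018880, 128849018880), (481036337152, 68719476736), (549755813888, 549755813888)] :=
  covD_split 2 (by decide +kernel) c32_40_m0_t28 c32_40_m0_t31
theorem c32_40_m0_t33 : CovD 0 progs [(37383395344384, 2199023255552), (128849018880, 128849018880), (412316860416, 137438953472), (549755813888, 549755813888)] :=
  covD_split 2 (by decide +kernel) c32_40_m0_t23 c32_40_m0_t32
theorem c32_40_m0_t34 : CovD 0 progs [(37383395344384, 2199023255552), (128849018880, 128849018880), (274877906944, 274877906944), (549755813888, 549755813888)] :=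
  covD_split 2 (by decide +kernel) c32_40_m0_t6 c32_40_m0_t33
theorem c32_40_m0_t37 : CovD 0 progs [(37383395344384, 2199023255552), (128849018880, 128849018880), (584115552256, 34359738368), (549755813888, 549755813888)] :=
  covD_split 1 (by decide +kernel) c32_40_m0_t35 c32_40_m0_t36
theorem c32_40_m0_t39 : CovD 0 progs [(37383395344384, 2199023255552), (128849018880, 128849018880), (618475290624, 68719476736), (549755813888, 549755813888)] :=
  covD_split 2 (by decide +kernel) c32_40_m0_t37 c32_40_m0_t38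
theorem c32_40_m0_t42 : CovD 0 progs [(37383395344384, 2199023255552), (128849018880, 128849018880), (755914244096, 68719476736), (549755813888, 549755813888)] :=
  covD_split 2 (by decide +kernel) c32_40_m0_t40 c32_40_m0_t41
theorem c32_40_m0_t43 : CovD 0 progs [(37383395344384, 2199023255552), (128849018880, 128849018880), (687194767360, 137438953472), (549755813888, 549755813888)] :=
  covD_split 2 (by decide +kernel) c32_40_m0_t39 c32_40_m0_t42
theorem c32_40_m0_t47 : CovD 0 progs [(37383395344384, 2199023255552), (128849018880, 128849018880), (927712935936, 34359738368), (549755813888, 549755813888)] :=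
  covD_split 2 (by decide +kernel) c32_40_m0_t45 c32_40_m0_t46
theorem c32_40_m0_t48 : CovD 0 progs [(37383395344384, 2199023255552), (128849018880, 128849018880), (893353197568, 68719476736), (549755813888, 549755813888)] :=
  covD_split 2 (by decide +kernel) c32_40_m0_t44 c32_40_m0_t47
theorem c32_40_m0_t51 : CovD 0 progs [(37383395344384, 2199023255552), (128849018880, 128849018880), (1030792151040, 68719476736), (549755813888, 549755813888)] :=
  covD_split 2 (by decide +kernel) c32_40_m0_t49 c32_40_m0_t50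
theorem c32_40_m0_t52 : CovD 0 progs [(37383395344384, 2199023255552), (128849018880, 128849018880), (962072674304, 137438953472), (549755813888, 549755813888)] :=
  covD_split 2 (by decide +kernel) c32_40_m0_t48 c32_40_m0_t51
theorem c32_40_m0_t53 : CovD 0 progs [(37383395344384, 2199023255552), (128849018880, 128849018880), (824633720832, 274877906944), (549755813888, 549755813888)] :=
  covD_split 2 (by decide +kernel) c32_40_m0_t43 c32_40_m0_t52
theorem c32_40_m0 : CovD 0 progs [(37383395344384, 2199023255552), (128849018880, 128849018880), (549755813888, 549755813888), (549755813888, 549755813888)] :=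
  covD_split 2 (by decide +kernel) c32_40_m0_t34 c32_40_m0_t53

end Pool.Agent.helper71.FG.Crt.X
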